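import Pool.Agent.P.MP_f644fa_ag.Chart

/-! Noether normalisation and density. -/

noncomputable section
namespace Pool.Agent.HCF
open MvPolynomial Module Set Filter Topology

variable {M : ℕ} {I : Ideal (SS M)} {c n : ℕ}

theorem trdeg_comp_mul (a l : SS M) (hl : l.IsHomogeneous 1) (d : ℕ) :
    homogeneousComponent (d + 1) (a * l) = homogeneousComponent d a * l := by
  conv_lhs => rw [← sum_homogeneousComponent a, Finset.sum_mul, map_sum]
  have h1 : ∀ e, homogeneousComponent (d + 1) (homogeneousComponent e a * l) =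
      if d = e then homogeneousComponent e a * l else 0 := by
    intro e
    have h2 : homogeneousComponent e a * l ∈ homogeneousSubmodule (Fin M) ℂ (e + 1) :=
      (homogeneousComponent_isHomogeneous e a).mul hl
    rw [homogeneousComponent_of_mem h2]
    simp only [Nat.add_right_cancel_iff]
  simp only [h1]
  rw [Finset.sum_ite_eq]
  split_ifs with h
  · rfl
  · rw [homogeneousComponent_eq_zero, zero_mul]
    simp only [Finset.mem_range] at h
    omega

theorem trdeg_exists_K (hX : IsManifold I c) {L : Fin (n + 1) → Fin M → ℂ} (h : Bpf I L) :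
    ∃ K : ℕ, ∀ j : Fin M, (X j : SS M) ^ K ∈ I ⊔ Ideal.span (Set.range fun i => lin (L i)) := by
  have h1 := hX.ns (I ⊔ Ideal.span (Set.range fun i => lin (L i))) le_sup_left (fun x hx => by
    obtain ⟨i, hi⟩ := h x hx
    exact ⟨lin (L i), Ideal.mem_sup_right (Ideal.subset_span ⟨i, rfl⟩), hi⟩)
  choose K hK using h1
  refine ⟨Finset.univ.sup K, fun j => ?_⟩
  have h2 : K j ≤ Finset.univ.sup K := Finset.le_sup (Finset.mem_univ j)
  obtain ⟨e, he⟩ := Nat.exists_eq_add_of_le h2
  rw [he, pow_add]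
  exact Ideal.mul_mem_right _ _ (hK j)

theorem trdeg_mon_mem {A : Ideal (SS M)} {K : ℕ} (hK : ∀ j : Fin M, (X j : SS M) ^ K ∈ A)
    (s : Fin M →₀ ℕ) (hs : M * K < s.degree) (a : ℂ) : monomial s a ∈ A := by
  have h1 : ∃ j, K ≤ s j := by
    by_contra hc
    push Not at hc
    have h2 : s.degree ≤ M * K := by
      rw [Finsupp.degree_eq_sum]
      calc ∑ j, s j ≤ ∑ _j : Fin M, K := Finset.sum_le_sum fun j _ => (hc j).le
        _ = M * K := by simp
    omega
  obtain ⟨j, hj⟩ := h1
  have h3 : s = Finsupp.single j K + (s - Finsupp.single j K) := by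
    rw [add_tsub_cancel_of_le]
    exact Finsupp.single_le_iff.mpr hj
  rw [h3, monomial_single_add]
  exact Ideal.mul_mem_right _ _ (hK j)

/-- the class of a polynomial in the coordinate ring -/
def trdegMk (I : Ideal (SS M)) : SS M →ₐ[ℂ] Pol I := (pf I).rangeRestrict

theorem trdegMk_val (f : SS M) : (trdegMk I f : cone I → ℂ) = pf I f := rfl

theorem trdegMk_surj : Function.Surjective (trdegMk I) := AlgHom.rangeRestrict_surjective _

theorem trdegMk_eq_zero (hX : IsManifold I c) {f : SS M} : trdegMk I f = 0 ↔ f ∈ I := by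
  rw [← hX.pf_eq_zero, ← trdegMk_val]
  exact ⟨fun h => by rw [h]; rfl, fun h => Subtype.ext h⟩

theorem Bpf.finite (hX : IsManifold I c) {L : Fin (n + 1) → Fin M → ℂ} (h : Bpf I L) :
    (aeval (linP I L) : MvPolynomial (Fin (n + 1)) ℂ →ₐ[ℂ] Pol I).toRingHom.Finite := by
  obtain ⟨K, hK⟩ := trdeg_exists_K hX h
  set φ : MvPolynomial (Fin (n + 1)) ℂ →ₐ[ℂ] Pol I := aeval (linP I L) with hφ
  let : Algebra (MvPolynomial (Fin (n + 1)) ℂ) (Pol I) := φ.toRingHom.toAlgebra
  have hsm : ∀ (b : MvPolynomial (Fin (n + 1)) ℂ) (r : Pol I), b • r = φ b * r := fun _ _ => rfl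
  set T : Set (Pol I) := (fun s : Fin M →₀ ℕ => trdegMk I (monomial s 1)) ''
    {s | s.degree ≤ M * K} with hT
  have hTf : T.Finite := (Finsupp.finite_of_degree_le (M * K)).image _
  set N := Submodule.span (MvPolynomial (Fin (n + 1)) ℂ) T with hN
  have key : ∀ d : ℕ, ∀ f : SS M, f.IsHomogeneous d → trdegMk I f ∈ N := by
    intro d
    induction d using Nat.strong_induction_on with
    | _ d ih =>
      intro f hf
      by_cases hd : d ≤ M * K
      · rw [f.as_sum, map_sum]
        refine N.sum_mem fun s hs => ?_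
        have h1 : trdegMk I (monomial s (coeff s f)) =
            (C (coeff s f) : MvPolynomial (Fin (n + 1)) ℂ) • trdegMk I (monomial s 1) := by
          rw [hsm, hφ, aeval_C, ← (trdegMk I).commutes, ← map_mul]
          congr 1
          rw [MvPolynomial.algebraMap_eq, C_mul_monomial, mul_one]
        rw [h1]
        refine N.smul_mem _ (Submodule.subset_span ⟨s, ?_, rfl⟩)
        have h2 : s.degree = d := by
          have := hf (mem_support_iff.mp hs)
          rw [← this, Finsupp.degree_eq_weight_one]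
          rfl
        simp only [Set.mem_ofPred_eq]
        omega
      · have hA : f ∈ I ⊔ Ideal.span (Set.range fun i => lin (L i)) := by
          rw [f.as_sum]
          refine Ideal.sum_mem _ fun s hs => trdeg_mon_mem hK s ?_ _
          have h2 : s.degree = d := by
            have := hf (mem_support_iff.mp hs)
            rw [← this, Finsupp.degree_eq_weight_one]
            rfl
          omega
        obtain ⟨u, hu, v, hv, huv⟩ := Submodule.mem_sup.mp hA
        obtain ⟨a, ha⟩ := Ideal.mem_span_range_iff_exists_fun.mp hv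
        obtain ⟨e, rfl⟩ : ∃ e, d = e + 1 := ⟨d - 1, by omega⟩
        have h3 : f = homogeneousComponent (e + 1) u +
            ∑ i, homogeneousComponent e (a i) * lin (L i) := by
          rw [← homogeneousComponent_eq_self hf, ← huv, ← ha, map_add, map_sum]
          simp only [trdeg_comp_mul _ _ (lin_hom _)]
        rw [h3, map_add, (trdegMk_eq_zero hX).mpr (hX.homog u hu _), zero_add, map_sum]
        refine N.sum_mem fun i _ => ?_
        have h4 : trdegMk I (homogeneousComponent e (a i) * lin (L i)) =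
            (X i : MvPolynomial (Fin (n + 1)) ℂ) • trdegMk I (homogeneousComponent e (a i)) := by
          rw [hsm, hφ, aeval_X, map_mul, mul_comm]
          rfl
        rw [h4]
        exact N.smul_mem _ (ih e (by omega) _ (homogeneousComponent_isHomogeneous _ _))
  have htop : N = ⊤ := by
    rw [eq_top_iff]
    intro r _
    obtain ⟨f, rfl⟩ := trdegMk_surj r
    rw [← sum_homogeneousComponent f, map_sum]
    exact N.sum_mem fun d _ => key d _ (homogeneousComponent_isHomogeneous _ _)
  refine ⟨?_⟩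
  rw [← htop]
  exact Submodule.fg_span hTf

theorem trdeg_aeval_apply {ι : Type} (L : ι → Fin M → ℂ) (p : MvPolynomial ι ℂ) (y : cone I) :
    ((aeval (linP I L) p : Pol I) : cone I → ℂ) y = eval (prj L y.1) p := by
  induction p using MvPolynomial.induction_on with
  | C a => simp only [aeval_C, eval_C]; rfl
  | add p q hp hq => simp only [map_add, Subalgebra.coe_add, Pi.add_apply, hp, hq]
  | mul_X p i hp =>
    simp only [map_mul, Subalgebra.coe_mul, Pi.mul_apply, hp, aeval_X, eval_X]
    congr 1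
    exact pf_apply _ _

theorem trdeg_prj (π : (Fin M → ℂ) →L[ℂ] Fin (n + 1) → ℂ) (y : Fin M → ℂ) :
    prj (fun i j => π (Pi.single j 1) i) y = π y := by
  funext i
  have h1 : y = ∑ j, y j • (Pi.single j 1 : Fin M → ℂ) := by
    funext k
    simp [Finset.sum_apply, Pi.single_apply]
  conv_rhs => rw [h1, map_sum]
  simp only [prj, eval_lin, map_smul, Finset.sum_apply, Pi.smul_apply, smul_eq_mul, mul_comm]

theorem trdeg_poly_zero {k : ℕ} {p : MvPolynomial (Fin k) ℂ} {u : Fin k → ℂ}
    (h : ∀ᶠ v in 𝓝 u, eval v p = 0) : p = 0 := by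
  obtain ⟨ε, hε, hb⟩ := Metric.eventually_nhds_iff_ball.mp h
  refine MvPolynomial.funext_set (fun i => Metric.ball (u i) ε) (fun i => ?_) fun v hv => ?_
  · exact infinite_of_mem_nhds (u i) (Metric.ball_mem_nhds _ hε)
  · rw [map_zero]
    refine hb v ?_
    rw [ball_pi _ hε]
    exact hv

theorem trdeg_chart_zero {x : Fin M → ℂ} (hx : x ∈ cone I) (A : Chart I n x)
    {p : MvPolynomial (Fin (n + 1)) ℂ}
    (h : ∀ᶠ y in 𝓝 (⟨x, hx⟩ : cone I), eval (A.π y.1) p = 0) : p = 0 := by
  have hU : A.π x ∈ A.U := A.π_mem x ⟨hx, A.mem⟩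
  have hUn : A.U ∈ 𝓝 (A.π x) := A.U_open.mem_nhds hU
  refine trdeg_poly_zero (u := A.π x) ?_
  obtain ⟨s, hs, hs2⟩ := (mem_nhds_subtype _ _ _).mp h
  have hc : ContinuousAt A.ψ (A.π x) := A.smooth.continuousOn.continuousAt hUn
  have h2 : ∀ᶠ v in 𝓝 (A.π x), A.ψ v ∈ s := by
    refine hc.eventually ?_
    rw [A.ψπ x ⟨hx, A.mem⟩]
    exact hs
  filter_upwards [h2, hUn] with v hv hvU
  have h3 := hs2 (a := ⟨A.ψ v, (A.ψ_mem v hvU).1⟩) hv
  simp only [Set.mem_ofPred_eq] at h3
  rwa [A.πψ v hvU] at h3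

theorem Chart.indep {x : Fin M → ℂ} (hx : x ∈ cone I) (A : Chart I n x) :
    AlgebraicIndependent ℂ (linP I fun i j => A.π (Pi.single j 1) i) := by
  rw [algebraicIndependent_iff]
  intro p hp
  refine trdeg_chart_zero hx A (Eventually.of_forall fun y => ?_)
  rw [← trdeg_prj, ← trdeg_aeval_apply, hp]
  rfl

theorem trdeg_alg (hX : IsManifold I c) {L : Fin (n + 1) → Fin M → ℂ} (h : Bpf I L) :
    Algebra.IsAlgebraic (Algebra.adjoin ℂ (Set.range (linP I L))) (Pol I) := by
  have := hX.isDomain_Pol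
  constructor
  intro r
  obtain ⟨p, hp, hr⟩ := (h.finite hX).to_isIntegral r
  let ψ : MvPolynomial (Fin (n + 1)) ℂ →+* Algebra.adjoin ℂ (Set.range (linP I L)) :=
    (aeval (linP I L) : MvPolynomial (Fin (n + 1)) ℂ →ₐ[ℂ] Pol I).toRingHom.codRestrict _
      fun q => by rw [Algebra.adjoin_range_eq_range_aeval]; exact ⟨q, rfl⟩
  refine IsIntegral.isAlgebraic ⟨p.map ψ, hp.map ψ, ?_⟩
  rw [Polynomial.eval₂_map]
  exact hr

theorem trdeg_basis (hX : IsManifold I c) (hM : M = n + 1 + c) {L : Fin (n + 1) → Fin M → ℂ}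
    (h : Bpf I L) : IsTranscendenceBasis ℂ (linP I L) := by
  have := hX.isDomain_Pol
  have := trdeg_alg hX h
  obtain ⟨x, hx⟩ := hX.nonempty
  obtain ⟨A⟩ := hX.exists_chart hM hx
  have : FaithfulSMul ℂ (Pol I) :=
    (faithfulSMul_iff_algebraMap_injective ℂ (Pol I)).mpr (algebraMap ℂ (Pol I)).injective
  exact Algebra.IsAlgebraic.isTranscendenceBasis_of_le_trdeg_of_finite ℂ _
    (Chart.indep hx A).cardinalMk_le_trdeg

theorem Bpf.indep (hX : IsManifold I c) (hM : M = n + 1 + c) {L : Fin (n + 1) → Fin M → ℂ}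
    (h : Bpf I L) : AlgebraicIndependent ℂ (linP I L) := (trdeg_basis hX hM h).1

/-- a polynomial that vanishes on the cone near one point vanishes on the cone -/
theorem IsManifold.mem_of_eventually (hX : IsManifold I c) (hM : M = n + 1 + c) {f : SS M}
    {x : cone I} (h : ∀ᶠ y in 𝓝 x, pf I f y = 0) : f ∈ I := by
  have := hX.isDomain_Pol
  obtain ⟨L, hL⟩ := hX.exists_bpf hM
  obtain ⟨A⟩ := hX.exists_chart hM x.2
  have hb : IsTranscendenceBasis ℂ (linP I fun i j => A.π (Pi.single j 1) i) :=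
    (Chart.indep x.2 A).isTranscendenceBasis_of_trdeg_le_of_finite
      (trdeg_basis hX hM hL).cardinalMk_eq_trdeg.ge
  by_contra hf
  have hne : trdegMk I f ≠ 0 := fun h0 => hf ((trdegMk_eq_zero hX).mp h0)
  obtain ⟨r, hr, t, ht⟩ := (hb.isAlgebraic.isAlgebraic (trdegMk I f)).exists_nonzero_dvd
    (mem_nonZeroDivisors_of_ne_zero hne)
  have hr2 : r.1 ∈ (aeval (linP I fun i j => A.π (Pi.single j 1) i) :
      MvPolynomial (Fin (n + 1)) ℂ →ₐ[ℂ] Pol I).range := by
    rw [← Algebra.adjoin_range_eq_range_aeval]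
    exact r.2
  obtain ⟨q, hq⟩ := hr2
  have hq0 : q = 0 := by
    refine trdeg_chart_zero x.2 A ?_
    filter_upwards [h] with y hy
    rw [← trdeg_prj, ← trdeg_aeval_apply]
    have h1 : (aeval (linP I fun i j => A.π (Pi.single j 1) i) q : Pol I) = trdegMk I f * t :=
      hq.trans ht
    rw [h1, Subalgebra.coe_mul, Pi.mul_apply, trdegMk_val, hy, zero_mul]
  apply hr
  apply Subtype.ext
  rw [← hq, hq0, map_zero]
  rfl

theorem trdeg_cont_pf (f : SS M) : Continuous (pf I f) := by
  have h1 : pf I f = fun y : cone I => eval y.1 f := funext fun y => pf_apply f y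
  rw [h1]
  exact (contDiff_eval f).continuous.comp continuous_subtype_val

theorem IsManifold.eq_zero_of_mul (hX : IsManifold I c) (hM : M = n + 1 + c) {D : SS M}
    (hD : D ∉ I) {g : cone I → ℂ} (hg : Continuous g) (h : pf I D * g = 0) : g = 0 := by
  funext x
  by_contra hx
  apply hD
  refine hX.mem_of_eventually hM (x := x) ?_
  filter_upwards [hg.continuousAt.eventually_ne hx] with y hy
  have h1 := congrFun h y
  simp only [Pi.mul_apply, Pi.zero_apply, mul_eq_zero] at h1
  exact h1.resolve_right hy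

theorem continuous_of_mem_sec {a : cone I → ℂ} (h : a ∈ secRing I) : Continuous a := by
  rw [continuous_iff_continuousAt]
  intro x
  obtain ⟨j, hj⟩ : ∃ j, x.1 j ≠ 0 := Function.ne_iff.mp x.2.1
  obtain ⟨k, p, hp⟩ := h j
  have hc : Continuous fun y : cone I => y.1 j :=
    (continuous_apply j).comp continuous_subtype_val
  have h1 : ContinuousAt (fun y : cone I => pf I p y / y.1 j ^ k) x :=
    (trdeg_cont_pf p).continuousAt.div (hc.pow k).continuousAt (pow_ne_zero k hj)
  refine h1.congr ?_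
  filter_upwards [hc.continuousAt.eventually_ne hj] with y hy
  rw [pf_apply, ← hp y, mul_div_cancel_left₀ _ (pow_ne_zero k hy)]

end Pool.Agent.HCF
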