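import Pool.Agent.P.MP_f644fa_ag.Wedge0

/-! Alternating forms. -/

noncomputable section
namespace Pool.Agent.HCF
open Finset

variable {σ : Type} [LinearOrder σ] [Fintype σ] {R : Type} [CommRing R]

/-- the coordinates of an alternating form -/
def ofAlt {c : ℕ} (α : (σ → R) [⋀^Fin c]→ₗ[R] R) : Finset σ → R := fun J =>
  if h : J.card = c then α fun i => Pi.single (J.orderEmbOfFin h i) 1 else 0

theorem deg_ofAlt {c : ℕ} (α : (σ → R) [⋀^Fin c]→ₗ[R] R) : Deg c (ofAlt α) :=
  fun _ h => dif_neg h

theorem ofAlt_ne_zero {c : ℕ} {α : (σ → R) [⋀^Fin c]→ₗ[R] R} (h : α ≠ 0) : ofAlt α ≠ 0 := by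
  intro h0
  refine h (Module.Basis.ext_alternating (Pi.basisFun R σ) fun v hv => ?_)
  have hc : (univ.image v).card = c := by
    rw [card_image_of_injective _ hv, card_univ, Fintype.card_fin]
  have hm : ∀ i, ∃ k, (univ.image v).orderEmbOfFin hc k = v i := fun i => by
    have : v i ∈ Set.range ((univ.image v).orderEmbOfFin hc) := by
      rw [range_orderEmbOfFin]
      exact mem_coe.2 (mem_image_of_mem _ (mem_univ i))
    exact this
  choose f hf using hm
  have hfi : Function.Injective f := fun i j hij => hv (by rw [← hf, ← hf, hij])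
  let g : Equiv.Perm (Fin c) := Equiv.ofBijective f (Finite.injective_iff_bijective.1 hfi)
  have h1 := congrFun h0 (univ.image v)
  rw [ofAlt, dif_pos hc] at h1
  have h2 : (fun i => (Pi.basisFun R σ) (v i)) =
      (fun i => (Pi.single ((univ.image v).orderEmbOfFin hc i) 1 : σ → R)) ∘ g := by
    funext i
    rw [Pi.basisFun_apply, ← hf]
    rfl
  rw [h2, AlternatingMap.map_perm, h1]
  simp

theorem wedge_insert {c : ℕ} {J : Finset σ} (hJ : J.card = c) {j : σ}
    (h' : (insert j J).card = c + 1) : ∃ p : Fin (c + 1), (J.filter (· < j)).card = p ∧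
      ⇑((insert j J).orderEmbOfFin h') = p.insertNth j (J.orderEmbOfFin hJ) := by
  have hr : ∀ x ∈ insert j J, ∃ i, (insert j J).orderEmbOfFin h' i = x := fun x hx => by
    have : x ∈ Set.range ((insert j J).orderEmbOfFin h') := by
      rw [range_orderEmbOfFin]
      exact mem_coe.2 hx
    exact this
  obtain ⟨p, hp⟩ := hr j (mem_insert_self j J)
  have hne : ∀ i, i ≠ p → (insert j J).orderEmbOfFin h' i ∈ J := fun i hi => by
    refine (mem_insert.1 (orderEmbOfFin_mem _ h' i)).resolve_left fun e => hi ?_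
    exact ((insert j J).orderEmbOfFin h').injective (e.trans hp.symm)
  refine ⟨p, ?_, ?_⟩
  · rw [← Fin.card_Iio p, ← card_map ((insert j J).orderEmbOfFin h').toEmbedding]
    refine congrArg card (Finset.ext fun x => ?_)
    rw [mem_filter, mem_map]
    constructor
    · rintro ⟨hx, hlt⟩
      obtain ⟨i, rfl⟩ := hr x (mem_insert_of_mem hx)
      refine ⟨i, mem_Iio.2 ?_, rfl⟩
      exact ((insert j J).orderEmbOfFin h').lt_iff_lt.1 (hlt.trans_eq hp.symm)
    · rintro ⟨i, hi, rfl⟩
      have hi' := mem_Iio.1 hi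
      exact ⟨hne i hi'.ne, (((insert j J).orderEmbOfFin h').lt_iff_lt.2 hi').trans_eq hp⟩
  · have h3 : (fun i => (insert j J).orderEmbOfFin h' (p.succAbove i)) = J.orderEmbOfFin hJ :=
      orderEmbOfFin_unique hJ (fun i => hne _ (Fin.succAbove_ne p i))
        (((insert j J).orderEmbOfFin h').strictMono.comp (Fin.strictMono_succAbove p))
    rw [← h3]
    exact Fin.eq_insertNth_iff.2 ⟨hp, rfl⟩

theorem wedge_io_ofAlt {c : ℕ} (α : (σ → R) [⋀^Fin (c + 1)]→ₗ[R] R) {J : Finset σ}
    (hJ : J.card = c) (j : σ) : io R R j (ofAlt α) J =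
      α (Matrix.vecCons (Pi.single j 1) fun i => Pi.single (J.orderEmbOfFin hJ i) 1) := by
  rw [io_apply]
  split_ifs with hj
  · have : j ∈ Set.range (J.orderEmbOfFin hJ) := by
      rw [range_orderEmbOfFin]
      exact mem_coe.2 hj
    obtain ⟨i, hi⟩ := this
    refine (α.map_eq_zero_of_eq _ (i := 0) (j := i.succ) ?_ (Fin.succ_ne_zero i).symm).symm
    rw [Matrix.cons_val_zero, Matrix.cons_val_succ, hi]
  · have h' : (insert j J).card = c + 1 := by rw [card_insert_of_notMem hj, hJ]
    obtain ⟨p, hp, e⟩ := wedge_insert hJ h'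
    have h2 : (fun i => (Pi.single ((insert j J).orderEmbOfFin h' i) 1 : σ → R)) =
        p.insertNth (Pi.single j 1) fun i => Pi.single (J.orderEmbOfFin hJ i) 1 := by
      rw [e]
      refine Fin.eq_insertNth_iff.2 ⟨?_, funext fun i => ?_⟩
      · rw [Fin.insertNth_apply_same]
      · rw [Fin.removeNth_apply, Fin.insertNth_apply_succAbove]
    rw [ofAlt, dif_pos h', h2, ← AlternatingMap.neg_one_pow_smul_map_insertNth α p, sg, hp]

theorem iov_ofAlt {c : ℕ} {α : (σ → R) [⋀^Fin c]→ₗ[R] R} {a : σ → R}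
    (h : ∀ v i, v i = a → α v = 0) : iov R a (ofAlt α) = 0 := by
  cases c with
  | zero =>
    rw [iov, LinearMap.sum_apply]
    refine sum_eq_zero fun j _ => ?_
    rw [LinearMap.smul_apply, (deg_ofAlt α).io_zero, smul_zero]
  | succ c =>
    funext J
    by_cases hJ : J.card = c
    · rw [iov, LinearMap.sum_apply, Finset.sum_apply]
      let L : (σ → R) →ₗ[R] R :=
        { toFun := fun x => α.curryLeft x fun i => Pi.single (J.orderEmbOfFin hJ i) 1
          map_add' := fun x y => by rw [map_add]; rfl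
          map_smul' := fun r x => by rw [map_smul]; rfl }
      have h1 : ∀ j, (a j • io R R j) (ofAlt α) J = L (Pi.single j (a j)) := fun j => by
        have h2 : (Pi.single j (a j) : σ → R) = a j • Pi.single j 1 := by
          rw [← Pi.single_smul, smul_eq_mul, mul_one]
        rw [LinearMap.smul_apply, Pi.smul_apply, wedge_io_ofAlt α hJ, h2, map_smul]
        rfl
      simp only [h1]
      rw [← map_sum, Finset.univ_sum_single]
      exact h _ 0 rfl
    · exact (deg_ofAlt α).iov a J hJ

end Pool.Agent.HCF
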