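import Pool.Agent.P.MP_f644fa_ag.LA0
import Pool.Agent.P.MP_f644fa_ag.Wedge

/-! Forms killed by a subspace. -/

noncomputable section
namespace Pool.Agent.HCF
open Finset Module

theorem la1_count {V : Type} [AddCommGroup V] [Module ℂ V] [FiniteDimensional ℂ V]
    (P Q R : Submodule ℂ V) (f : V →ₗ[ℂ] V) (hQ : P.map f = Q) (hR : P ⊓ LinearMap.ker f = R) :
    finrank ℂ P = finrank ℂ Q + finrank ℂ R := by
  rw [← (f.domRestrict P).finrank_range_add_finrank_ker, LinearMap.range_domRestrict, hQ,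
    LinearMap.ker_domRestrict, ← hR, ← Submodule.map_comap_subtype,
    Submodule.finrank_map_subtype_eq]

theorem la1_top {V : Type} [AddCommGroup V] [Module ℂ V] {P : Submodule ℂ V}
    (h : finrank ℂ P = 1) {a b : V} (ha : a ∈ P) (h0 : a ≠ 0) (hb : b ∈ P) :
    ∃ κ : ℂ, b = κ • a := by
  obtain ⟨κ, hκ⟩ := (finrank_eq_one_iff_of_nonzero' (⟨a, ha⟩ : P)
    fun e => h0 (congrArg Subtype.val e)).1 h ⟨b, hb⟩
  exact ⟨κ, (congrArg Subtype.val hκ).symm⟩

variable {σ : Type} [LinearOrder σ] [Fintype σ]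

theorem la1_zero (T : Submodule ℂ (σ → ℂ)) : finrank ℂ (Kf T 0) = 1 := by
  have h1 : Kf T 0 = Submodule.span ℂ {(Pi.single ∅ 1 : Finset σ → ℂ)} := by
    apply le_antisymm
    · intro y hy
      refine Submodule.mem_span_singleton.2 ⟨y ∅, funext fun J => ?_⟩
      by_cases hJ : J = ∅
      · rw [hJ, Pi.smul_apply, Pi.single_eq_same, smul_eq_mul, mul_one]
      · rw [Pi.smul_apply, Pi.single_eq_of_ne hJ, smul_zero, hy.1 J fun e => hJ (card_eq_zero.1 e)]
    · rw [Submodule.span_singleton_le_iff_mem, ← wedge_zero (fun i => i.elim0)]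
      exact ⟨deg_wedge _, fun v _ => iov_wedge fun i => i.elim0⟩
  rw [h1]
  refine finrank_span_singleton fun e => ?_
  have h2 := congrFun e ∅
  rw [Pi.single_eq_same] at h2
  exact one_ne_zero h2

theorem la1_sup {T : Submodule ℂ (σ → ℂ)} {b : σ → ℂ} {k : ℕ} {z : Finset σ → ℂ} :
    z ∈ Kf (T ⊔ Submodule.span ℂ {b}) k ↔ z ∈ Kf T k ∧ iov ℂ b z = 0 := by
  refine ⟨fun h => ⟨⟨h.1, fun v hv => h.2 v (Submodule.mem_sup_left hv)⟩,
    h.2 b (Submodule.mem_sup_right (Submodule.mem_span_singleton_self b))⟩,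
    fun h => ⟨h.1.1, fun v hv => ?_⟩⟩
  obtain ⟨u, hu, w, hw, rfl⟩ := Submodule.mem_sup.1 hv
  obtain ⟨a, rfl⟩ := Submodule.mem_span_singleton.1 hw
  rw [iov_add, iov_smul, LinearMap.add_apply, LinearMap.smul_apply, h.1.2 u hu, h.2, smul_zero,
    add_zero]

theorem la1_step {T : Submodule ℂ (σ → ℂ)} {b : σ → ℂ} (hb : b ∉ T) (k : ℕ) :
    finrank ℂ (Kf T (k + 1)) = finrank ℂ (Kf (T ⊔ Submodule.span ℂ {b}) k) +
      finrank ℂ (Kf (T ⊔ Submodule.span ℂ {b}) (k + 1)) := by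
  refine la1_count _ _ _ (iov ℂ b) ?_ (Submodule.ext fun z => la1_sup.symm)
  apply le_antisymm
  · rintro _ ⟨y, hy, rfl⟩
    refine la1_sup.2 ⟨⟨hy.1.iov b, fun v hv => ?_⟩, LinearMap.congr_fun (iov_sq (N := ℂ) b) y⟩
    have h3 := LinearMap.congr_fun (iov_iov (N := ℂ) v b) y
    rw [LinearMap.add_apply, Module.End.mul_apply, Module.End.mul_apply, hy.2 v hv, map_zero,
      add_zero] at h3
    exact h3
  · intro z hz
    obtain ⟨hz1, hz2⟩ := la1_sup.1 hz
    rw [← perp_perp T, mem_perp] at hb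
    push Not at hb
    obtain ⟨η, hη, ha⟩ := hb
    refine ⟨(∑ j, b j * η j)⁻¹ • epv ℂ η z, Submodule.smul_mem _ _ ⟨hz1.1.epv η, fun v hv => ?_⟩, ?_⟩
    · have h1 : ∑ j, v j * η j = 0 := by
        rw [← hη v hv]
        exact sum_congr rfl fun _ _ => mul_comm _ _
      rw [wedge0_iov, h1, hz1.2 v hv, zero_smul, map_zero, sub_zero]
    · rw [map_smul, wedge0_iov, hz2, map_zero, sub_zero, inv_smul_smul₀ ha]

theorem finrank_Kf {T : Submodule ℂ (σ → ℂ)} {c : ℕ} (h : finrank ℂ T + c = Fintype.card σ)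
    (k : ℕ) : finrank ℂ (Kf T k) = c.choose k := by
  induction c generalizing T k with
  | zero =>
    cases k with
    | zero => exact la1_zero T
    | succ k =>
      rw [Nat.choose_zero_succ, Submodule.finrank_eq_zero, eq_bot_iff]
      exact fun y hy => deg_gt_eq_zero T h.ge (Nat.succ_pos k) hy.1 hy.2
  | succ c ih =>
    cases k with
    | zero => rw [la1_zero, Nat.choose_zero_right]
    | succ k =>
      obtain ⟨b, hb⟩ : ∃ b, b ∉ T := by
        by_contra hc
        push Not at hc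
        rw [Submodule.eq_top_iff'.2 hc, finrank_top, finrank_fintype_fun_eq_card] at h
        omega
      have h1 : finrank ℂ (T ⊔ Submodule.span ℂ {b} : Submodule ℂ (σ → ℂ)) + c = Fintype.card σ := by
        rw [Submodule.finrank_sup_span_singleton hb, ← h, add_assoc, add_comm 1 c]
      rw [la1_step hb, ih h1, ih h1, Nat.choose_succ_succ]

theorem wedge_mem_Kf {T : Submodule ℂ (σ → ℂ)} {k : ℕ} {η : Fin k → σ → ℂ}
    (h : ∀ i, η i ∈ perp T) : wedge ℂ k η ∈ Kf T k :=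
  ⟨deg_wedge η, fun v hv => iov_wedge fun i => by
    rw [← h i v hv]
    exact sum_congr rfl fun _ _ => mul_comm _ _⟩

/-- forms of top degree are proportional -/
theorem Kf_top {T : Submodule ℂ (σ → ℂ)} {c : ℕ} (h : finrank ℂ T + c = Fintype.card σ)
    {ω ω' : Finset σ → ℂ} (hω : ω ∈ Kf T c) (h0 : ω ≠ 0) (hω' : ω' ∈ Kf T c) :
    ∃ κ : ℂ, ω' = κ • ω :=
  la1_top ((finrank_Kf h c).trans (Nat.choose_self c)) hω h0 hω'

theorem wedge_omit_indep {c : ℕ} {η : Fin (c + 1) → σ → ℂ} (h : LinearIndependent ℂ η) :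
    LinearIndependent ℂ fun i : Fin (c + 1) => wedge ℂ c fun k => η (i.succAbove k) := by
  refine Fintype.linearIndependent_iff.2 fun a ha i => ?_
  have h1 := congrArg (epv ℂ (η i)) ha
  rw [map_sum, map_zero, sum_eq_single i, map_smul] at h1
  · refine (smul_eq_zero.1 h1).resolve_right ?_
    exact wedge0_field (k := c + 1) (η ∘ Fin.cons i i.succAbove)
      (h.comp _ (Fin.cons_injective_iff.2 ⟨fun ⟨k, hk⟩ => Fin.succAbove_ne i k hk,
        Fin.succAbove_right_injective⟩))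
  · intro j _ hj
    obtain ⟨k, hk⟩ := Fin.exists_succAbove_eq hj.symm
    rw [map_smul, ← hk, wedge0_self (fun k => η (j.succAbove k)) k, smul_zero]
  · exact fun hi => absurd (mem_univ i) hi

end Pool.Agent.HCF
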