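import Pool.Agent.P.MP_f644fa_ag.LSub1
import Pool.Agent.P.MP_f644fa_ag.LA1

/-! Exterior powers of a constant bundle. -/

noncomputable section
namespace Pool.Agent.HCF
open Finset Module PowerSeries
open scoped Kronecker

variable {M n : ℕ} {X R RR : Type} [CommRing R] [Algebra ℂ R] [CommRing RR] [Algebra ℂ RR]
  {σ I : Type} [LinearOrder σ] [Fintype σ] [Fintype I]

omit [LinearOrder σ] in
theorem lconst_basis (K : Submodule ℂ (Finset σ → ℂ)) {r : ℕ} (h : finrank ℂ K = r) :
    ∃ y z : Fin r → Finset σ → ℂ, (∀ i, y i ∈ K) ∧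
      (∀ i i', ∑ J, y i J * z i' J = if i = i' then 1 else 0) ∧
      ∀ w ∈ K, w = ∑ i, (∑ J, w J * z i J) • y i := by
  classical
  let b := Module.finBasisOfFinrankEq ℂ K h
  have hi : LinearIndependent ℂ fun i => (b i : Finset σ → ℂ) :=
    b.linearIndependent.map' K.subtype (Submodule.ker_subtype K)
  obtain ⟨δ, u, hδ, hu⟩ := dual_fields (AlgHom.id ℂ ℂ) (fun i => (b i : Finset σ → ℂ)) hi
  have hδ' : δ ≠ 0 := hδ
  have hz : ∀ i i', ∑ J, (b i : Finset σ → ℂ) J * (δ⁻¹ * u i' J) = if i = i' then 1 else 0 := by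
    intro i i'
    have e : ∑ J, (b i : Finset σ → ℂ) J * (δ⁻¹ * u i' J)
        = δ⁻¹ * ∑ J, (b i : Finset σ → ℂ) J * u i' J := by
      rw [mul_sum]
      exact sum_congr rfl fun J _ => by ring
    rw [e, hu]
    split_ifs
    · exact inv_mul_cancel₀ hδ'
    · exact mul_zero _
  refine ⟨fun i => b i, fun i J => δ⁻¹ * u i J, fun i => (b i).2, hz, fun w hw => ?_⟩
  have hm : w ∈ Submodule.span ℂ (Set.range fun i => (b i : Finset σ → ℂ)) := by
    have e := congrArg Subtype.val (b.sum_repr ⟨w, hw⟩)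
    simp only [Submodule.coe_sum, Submodule.coe_smul] at e
    rw [← e]
    exact Submodule.sum_mem _ fun i _ => Submodule.smul_mem _ _ (Submodule.subset_span ⟨i, rfl⟩)
  have e := expand_of_dual (δ := 1) hz hm
  rwa [one_smul] at e

/-- the coordinates in a basis of constant forms -/
def lconstF (R I : Type) [CommRing R] [Algebra ℂ R] {σ : Type} {r : ℕ}
    (y : Fin r → Finset σ → ℂ) : (Fin r → I → R) →ₗ[ℂ] (Finset σ × I → R) where
  toFun a q := ∑ i, y i q.1 • a i q.2
  map_add' a b := by ext q; simp [sum_add_distrib]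
  map_smul' c a := by ext q; simp [smul_sum, smul_comm c]

omit [LinearOrder σ] [Fintype σ] [Fintype I] in
theorem lconstF_apply {r : ℕ} (y : Fin r → Finset σ → ℂ) (a : Fin r → I → R) (J : Finset σ)
    (A : I) : lconstF R I y a (J, A) = ∑ i, y i J • a i A := rfl

theorem lconst_pi (k : ℕ) (T : Matrix I I ℂ) (ω : Finset σ × I → R) (J : Finset σ) (A : I) :
    cst R (piM σ k ⊗ₖ T) ω (J, A) =
      if J.card = k then cst R T (fun A' => ω (J, A')) A else 0 := by
  rw [cst_kron, piM, cst_diagonal]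
  split_ifs <;> simp

theorem lconst_trOn_zero {W : Type} [AddCommGroup W] [Module ℂ W] (p : Submodule ℂ W)
    {T : End ℂ W} (h : ∀ w ∈ p, T w = 0) : trOn p T = 0 := by
  have h0 : ∀ w ∈ p, (0 : End ℂ W) w ∈ p := fun w _ => p.zero_mem
  rw [trOn_ext (T' := 0) h, trOn_eq h0]
  exact map_zero _

theorem lconst_map [DecidableEq I] (S : NS0 M n X R RR) (T₀ : Submodule ℂ (σ → ℂ)) (d k : ℕ)
    (D : Dat S I) {r : ℕ} {y z : Fin r → Finset σ → ℂ} (hy : ∀ i, y i ∈ Kf T₀ k)
    (hw : ∀ w ∈ Kf T₀ k, w = ∑ i, (∑ J, w J * z i J) • y i) :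
    (Submodule.pi Set.univ fun _ : Fin r => D.V).map (lconstF R I y) =
      ((Sub.const S T₀ d).lam.tensor D).V.map (cst R (piM σ k ⊗ₖ (1 : Matrix I I ℂ))) := by
  ext η
  constructor
  · rintro ⟨a, ha, rfl⟩
    refine ⟨lconstF R I y a, ⟨fun A q v hv => ?_, fun J => ?_⟩, ?_⟩
    · have e : S.val q (fun J => lconstF R I y a (J, A)) = ∑ i, S.ev q (a i A) • y i := by
        funext J
        simp only [NS0.val_apply, lconstF_apply, map_sum, map_smul, Finset.sum_apply,
          Pi.smul_apply, smul_eq_mul]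
        exact sum_congr rfl fun i _ => mul_comm _ _
      rw [e, map_sum]
      exact sum_eq_zero fun i _ => by rw [map_smul, (hy i).2 v hv, smul_zero]
    · have e : (fun A => lconstF R I y a (J, A)) = ∑ i, y i J • a i := by
        funext A
        simp only [lconstF_apply, Finset.sum_apply, Pi.smul_apply]
      rw [e]
      exact D.G.sum_mem fun i _ => D.G.smul_of_tower_mem _ (ha i trivial)
    · funext ⟨J, A⟩
      rw [lconst_pi, cst_one]
      split_ifs with hJ
      · rfl
      · rw [lconstF_apply]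
        exact (sum_eq_zero fun i _ => by rw [(hy i).1 J hJ, zero_smul]).symm
  · rintro ⟨ω, hω, rfl⟩
    have hη := (((Sub.const S T₀ d).ok_piM k).kron (Dat.Ok.one D)).map ω hω
    have h0 : ∀ J A, J.card ≠ k → cst R (piM σ k ⊗ₖ (1 : Matrix I I ℂ)) ω (J, A) = 0 :=
      fun J A hJ => by rw [lconst_pi, if_neg hJ]
    generalize cst R (piM σ k ⊗ₖ (1 : Matrix I I ℂ)) ω = η at hη h0
    refine ⟨fun i => ∑ J, z i J • fun A => η (J, A), fun i _ =>
      D.G.sum_mem fun J _ => D.G.smul_of_tower_mem _ (hη.2 J), ?_⟩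
    funext ⟨J, A⟩
    refine sub_eq_zero.1 (S.sep _ fun q => ?_)
    have hK : S.val q (fun J => η (J, A)) ∈ Kf T₀ k :=
      ⟨fun J hJ => by rw [NS0.val_apply, h0 J A hJ, map_zero], fun v hv => hη.1 A q v hv⟩
    have e := congrFun (hw _ hK) J
    simp only [NS0.val_apply, Finset.sum_apply, Pi.smul_apply, smul_eq_mul] at e
    rw [map_sub, e, lconstF_apply, map_sum, sub_eq_zero]
    refine sum_congr rfl fun i _ => ?_
    simp only [Finset.sum_apply, Pi.smul_apply, map_smul, map_sum, smul_eq_mul]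
    rw [mul_comm]
    exact congrArg (· * y i J) (sum_congr rfl fun J' _ => mul_comm _ _)

theorem Sub.chi_const (S : NS0 M n X R RR) (T₀ : Submodule ℂ (σ → ℂ)) (d : ℕ) {c : ℕ}
    (h : finrank ℂ T₀ + c = Fintype.card σ) {D : Dat S I} {T : Matrix I I ℂ} (hT : D.Ok T)
    (k : ℕ) : ((Sub.const S T₀ d).lam.tensor D).chi (piM σ k ⊗ₖ T) =
      C (c.choose k : ℂ) * PowerSeries.X ^ (d * k) * D.chi T := by
  classical
  obtain ⟨y, z, hy, hz, hw⟩ := lconst_basis (Kf T₀ k) (finrank_Kf h k)
  have hP := ((Sub.const S T₀ d).ok_piM k).kron (Dat.Ok.one D)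
  have hQ := ((Sub.const S T₀ d).ok_piM k).kron hT
  have hmap := lconst_map S T₀ d k D hy hw
  have hg := ((Sub.const S T₀ d).lam.tensor D).grd
  have hW := D.grd.pi (fun _ : Fin (c.choose k) => d * k)
  have h1 : chi (S.sc ((Sub.const S T₀ d).lam.tensor D).w)
      ((Submodule.pi Set.univ fun _ : Fin (c.choose k) => D.V).map (lconstF R I y))
      (cst R (piM σ k ⊗ₖ T)) =
      chi (piOp (fun _ : Fin (c.choose k) => 2 ^ (d * k)) (S.sc D.w))
        (Submodule.pi Set.univ fun _ : Fin (c.choose k) => D.V)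
        (piOp (fun _ => 1) (cst R T)) := by
    refine chi_congr hW _ (fun a ha i _ => ?_) (fun a _ => ?_) (fun a _ => ?_) (fun a _ => ?_)
      fun a _ h0 => ?_
    · rw [piOp_apply, one_smul]
      exact hT.map _ (ha i trivial)
    · funext i
      simp only [piOp_apply, one_smul, map_smul, hT.comm]
    · funext ⟨J, A⟩
      rw [dat_sc_apply, lconstF_apply, lconstF_apply, map_sum, smul_sum]
      refine sum_congr rfl fun i _ => ?_
      by_cases hJ : J.card = k
      · have e : ((Sub.const S T₀ d).lam.tensor D).w (J, A) = d * k + D.w A := by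
          show ∑ _ ∈ J, d + D.w A = _
          rw [sum_const, hJ, smul_eq_mul, mul_comm]
        rw [e, piOp_apply, Pi.smul_apply, dat_sc_apply, map_smul, pow_add, mul_smul,
          smul_comm (y i J), smul_comm (y i J)]
      · rw [(hy i).1 J hJ, zero_smul, zero_smul, map_zero, smul_zero]
    · funext ⟨J, A⟩
      rw [lconst_pi, lconstF_apply]
      split_ifs with hJ
      · simp only [piOp_apply, one_smul, cst_apply, lconstF_apply, smul_sum]
        rw [sum_comm]
        exact sum_congr rfl fun A' _ => sum_congr rfl fun i _ => smul_comm _ _ _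
      · exact sum_eq_zero fun i _ => by rw [(hy i).1 J hJ, zero_smul]
    · funext i A
      have e : ∑ J, z i J • lconstF R I y a (J, A) = a i A := by
        simp only [lconstF_apply, smul_sum, smul_smul]
        rw [sum_comm]
        simp only [← sum_smul, mul_comm (z i _), hz, ite_smul, one_smul, zero_smul,
          Finset.sum_ite_eq', mem_univ, if_true]
      rw [← e, h0]
      simp
  ext m
  have := hg.fin m
  have hfin := fun _ : Fin (c.choose k) => D.grd.fin' ((m : ℤ) - (d * k : ℕ))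
  have h2 := congrArg (coeff m) h1
  rw [chi, chi, coeff_mk, coeff_mk, hmap, hg.map_inf _ (fun w _ => hP.comm w),
    pi_inf_Eg (fun _ : Fin (c.choose k) => d * k), trOn_pi _ _ fun _ => dat_maps hT _] at h2
  rw [dat_coeff, trOn_ker_map (T' := cst R (piM σ k ⊗ₖ T))
    (cst R (piM σ k ⊗ₖ (1 : Matrix I I ℂ))) (dat_maps hQ m) fun w _ => ?_, h2,
    lconst_trOn_zero _ fun w hw => ?_, zero_add, mul_assoc, coeff_C_mul, coeff_X_pow_mul']
  · simp only [one_mul, sum_const, card_univ, Fintype.card_fin, nsmul_eq_mul]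
    split_ifs with hm
    · rw [dat_coeff, Nat.cast_sub hm]
    · rw [D.grd.neg (by omega), trOn_bot]
  · have h3 : cst R (piM σ k ⊗ₖ (1 : Matrix I I ℂ)) w = 0 := hw.2
    funext ⟨J, A⟩
    rw [lconst_pi]
    split_ifs with hJ
    · have e : (fun A' => w (J, A')) = 0 := funext fun A' => by
        have h4 := congrFun h3 (J, A')
        rwa [lconst_pi, if_pos hJ, cst_one] at h4
      rw [e, map_zero]
      rfl
    · rfl
  · rw [← cst_mul, ← cst_mul, ← Matrix.mul_kronecker_mul, ← Matrix.mul_kronecker_mul, one_mul,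
      mul_one]

end Pool.Agent.HCF
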