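import Pool.Agent.P.MP_f644fa_ag.Ladder

/-! The Koszul complex of the diagonal, locally (abstract form). -/

noncomputable section
namespace Pool.Agent.HCF
open Finset

variable {σ : Type} [LinearOrder σ] [Fintype σ] {O : Type} [CommRing O] [Algebra ℂ O]

/-- vectors with all coefficients in an ideal -/
def locP (σ : Type) {O : Type} [CommRing O] (K : Ideal O) : Submodule O (Finset σ → O) :=
  Submodule.pi Set.univ fun _ => K

theorem loc_mem {σ O : Type} [CommRing O] {K : Ideal O} {y : Finset σ → O} :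
    y ∈ locP σ K ↔ ∀ J, y J ∈ K := by
  simp [locP, Submodule.mem_pi]

theorem loc_iov {σ O : Type} [LinearOrder σ] [Fintype σ] [CommRing O] {K : Ideal O}
    {y : Finset σ → O} (h : y ∈ locP σ K) (a : σ → O) : iov O a y ∈ locP σ K := by
  rw [iov, LinearMap.sum_apply]
  refine Submodule.sum_mem _ fun j _ => Submodule.smul_mem _ _ (loc_mem.2 fun J => ?_)
  rw [io_apply]
  split_ifs
  · exact K.zero_mem
  · exact zsmul_mem (loc_mem.1 h _) _

theorem loc_kt {σ O : Type} [LinearOrder σ] [Fintype σ] [CommRing O] {K : Ideal O}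
    {y : Finset σ → O} (h : y ∈ locP σ K) (t : Matrix σ σ O) : kt O t y ∈ locP σ K := by
  rw [kt, LinearMap.sum_apply]
  refine Submodule.sum_mem _ fun l _ => loc_mem.2 fun J => ?_
  rw [Module.End.mul_apply, ep_apply]
  split_ifs
  · exact zsmul_mem (loc_mem.1 (loc_iov h _) _) _
  · exact K.zero_mem

theorem loc_anti {σ O : Type} [LinearOrder σ] [Fintype σ] [CommRing O] (u : σ → O) (l : σ)
    (y : Finset σ → O) : iov O u (ep O O l y) = u l • y - ep O O l (iov O u y) := by
  have h := congrArg (fun B : Module.End O (Finset σ → O) => B y)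
    (iov_epv (N := O) u (Pi.single l (1 : O)))
  simp only [epv_single, LinearMap.add_apply, Module.End.mul_apply, LinearMap.smul_apply,
    Module.End.one_apply] at h
  have h2 : ∑ j, u j * (Pi.single l (1 : O) : σ → O) j = u l := by
    simp [Pi.single_apply]
  rw [h2] at h
  exact eq_sub_of_add_eq h

theorem loc_der (u : σ → O) (D : Derivation ℂ O O) (z : Finset σ → O) :
    (fun J => D (iov O u z J)) = iov O u (fun J => D (z J)) + iov O (fun j => D (u j)) z := by
  funext J
  simp only [iov, LinearMap.sum_apply, LinearMap.smul_apply, Finset.sum_apply, Pi.add_apply,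
    Pi.smul_apply, map_sum, ← Finset.sum_add_distrib]
  refine Finset.sum_congr rfl fun j _ => ?_
  have h := congrFun (io_nat (R := O) (R' := O) (D.toLinearMap.toAddMonoidHom) j z) J
  change D (io O O j z J) = io O O j (fun J => D (z J)) J at h
  rw [smul_eq_mul, Derivation.leibniz, h]
  simp only [smul_eq_mul]
  ring

/-- the Euler derivation acts on `J ^ p / J ^ (p + 1)` as `p δ` -/
theorem euler_pow (J : Ideal O) (E : Derivation ℂ O O) (δ : O) (h0 : ∀ r, E r ∈ J)
    (h1 : ∀ r ∈ J, E r - δ * r ∈ J ^ 2) (p : ℕ) :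
    ∀ r ∈ J ^ p, E r - (p * δ) * r ∈ J ^ (p + 1) := by
  induction p with
  | zero => intro r _; simpa using h0 r
  | succ p ih =>
    intro r hr
    rw [pow_succ] at hr
    refine Submodule.mul_induction_on hr (fun a ha b hb => ?_) fun x y hx hy => ?_
    · have e : E (a * b) - (((p + 1 : ℕ) : O) * δ) * (a * b) =
          a * (E b - δ * b) + (E a - (p * δ) * a) * b := by
        rw [Derivation.leibniz]
        simp only [smul_eq_mul]
        push_cast
        ring
      rw [e]
      refine Ideal.add_mem _ ?_ ?_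
      · rw [show p + 1 + 1 = p + 2 from rfl, pow_add]
        exact Ideal.mul_mem_mul ha (h1 b hb)
      · rw [pow_succ]
        exact Ideal.mul_mem_mul (ih a ha) hb
    · have e : E (x + y) - (((p + 1 : ℕ) : O) * δ) * (x + y) =
          (E x - (((p + 1 : ℕ) : O) * δ) * x) + (E y - (((p + 1 : ℕ) : O) * δ) * y) := by
        rw [map_add]
        ring
      rw [e]
      exact Ideal.add_mem _ hx hy

/-- the homotopy formula -/
theorem homotopy (u : σ → O) (D : σ → Derivation ℂ O O) (z : Finset σ → O) :
    iov O u (∑ l, ep O O l fun J => D l (z J)) + ∑ l, ep O O l (fun J => D l (iov O u z J)) =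
      (fun J => ∑ l, u l * D l (z J)) + kt O (Matrix.of fun j l => D l (u j)) z := by
  have h1 : (fun J => ∑ l, u l * D l (z J)) = ∑ l, u l • fun J => D l (z J) := by
    funext J
    simp [Finset.sum_apply]
  rw [h1, map_sum, kt, LinearMap.sum_apply, ← Finset.sum_add_distrib, ← Finset.sum_add_distrib]
  refine Finset.sum_congr rfl fun l _ => ?_
  rw [loc_anti, loc_der, map_add, Module.End.mul_apply]
  simp only [Matrix.of_apply]
  abel

theorem loc_step (u : σ → O) (δ : O) (D : σ → Derivation ℂ O O)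
    (htt : (Matrix.of fun j l => D l (u j)) * (Matrix.of fun j l => D l (u j)) =
      δ • Matrix.of fun j l => D l (u j))
    (hE : ∀ j, ∑ l, u l * D l (u j) - δ * u j ∈ Ideal.span (Set.range u) ^ 2) (p : ℕ)
    (z : Finset σ → O) (hz : iov O u z = 0) (hp : ∀ J, z J ∈ Ideal.span (Set.range u) ^ (p + 1)) :
    ∃ b, ∀ J, (δ ^ (Fintype.card σ + 1) • z - iov O u b) J ∈
      Ideal.span (Set.range u) ^ (p + 2) := by
  set I : Ideal O := Ideal.span (Set.range u) with hI
  set t : Matrix σ σ O := Matrix.of fun j l => D l (u j) with ht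
  let E : Derivation ℂ O O := ∑ l, u l • D l
  have hEa : ∀ r, E r = ∑ l, u l * D l r := fun r => by
    have := congrArg (fun f : O → O => f r) (map_sum Derivation.coeFnAddMonoidHom
      (fun l => u l • D l) Finset.univ)
    refine Eq.trans this ?_
    rw [Finset.sum_apply]
    rfl
  have hu : ∀ l, u l ∈ I := fun l => Ideal.subset_span ⟨l, rfl⟩
  have h0 : ∀ r, E r ∈ I := fun r => by
    rw [hEa]
    exact Ideal.sum_mem _ fun l _ => I.mul_mem_right _ (hu l)
  have h1 : ∀ r ∈ I, E r - δ * r ∈ I ^ 2 := by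
    intro r hr
    induction hr using Submodule.span_induction with
    | mem x hx => obtain ⟨j, rfl⟩ := hx; rw [hEa]; exact hE j
    | zero => simp
    | add x y _ _ hx hy =>
      have e : E (x + y) - δ * (x + y) = (E x - δ * x) + (E y - δ * y) := by
        rw [map_add]; ring
      rw [e]
      exact Ideal.add_mem _ hx hy
    | smul a x hx' hx =>
      have e : E (a • x) - δ * (a • x) = a * (E x - δ * x) + x * E a := by
        rw [smul_eq_mul, Derivation.leibniz]
        simp only [smul_eq_mul]
        ring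
      rw [e]
      refine Ideal.add_mem _ (Ideal.mul_mem_left _ _ hx) ?_
      rw [pow_two]
      exact Ideal.mul_mem_mul hx' (h0 a)
  have hle : locP σ (I ^ (p + 2)) ≤ locP σ (I ^ (p + 1)) := fun y hy =>
    loc_mem.2 fun J => Ideal.pow_le_pow_right (by omega) (loc_mem.1 hy J)
  have key : ∀ i : ℕ, ∃ (w b : Finset σ → O) (c : ℂ), c ≠ 0 ∧ iov O u w = 0 ∧
      w ∈ locP σ (I ^ (p + 1)) ∧ w - lad O t δ 0 i z ∈ locP σ (I ^ (p + 2)) ∧
      w = (algebraMap ℂ O c * δ ^ i) • z + iov O u b := by
    intro i
    induction i with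
    | zero =>
      refine ⟨z, 0, 1, one_ne_zero, hz, loc_mem.2 hp, ?_, by simp⟩
      simp [lad]
    | succ i ih =>
      obtain ⟨w, b, c, hc, hw, hw1, hw2, hw3⟩ := ih
      have hh := homotopy u D w
      rw [hw] at hh
      have hz0 : ∑ l, ep O O l (fun J => D l ((0 : Finset σ → O) J)) = 0 :=
        Finset.sum_eq_zero fun l _ => by
          have : (fun J => D l ((0 : Finset σ → O) J)) = 0 := by funext J; simp
          rw [this, map_zero]
      rw [hz0, add_zero, ← ht] at hh
      obtain ⟨h, hhd⟩ : ∃ h, h = ∑ l, ep O O l fun J => D l (w J) := ⟨_, rfl⟩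
      rw [← hhd] at hh
      obtain ⟨v, hv⟩ : ∃ v : Finset σ → O, v = fun J => ∑ l, u l * D l (w J) := ⟨_, rfl⟩
      rw [← hv] at hh
      have hv2 : v - (((p + 1 : ℕ) : O) * δ) • w ∈ locP σ (I ^ (p + 2)) := loc_mem.2 fun J => by
        have := euler_pow I E δ h0 h1 (p + 1) (w J) (loc_mem.1 hw1 J)
        rw [hEa] at this
        rw [hv]
        exact this
      have e1 : iov O u h - (((p + 1 + i : ℕ) : O) * δ) • w =
          (v - (((p + 1 : ℕ) : O) * δ) • w) + (kt O t w - ((i : O) * δ) • w) := by
        rw [hh]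
        push_cast
        module
      refine ⟨iov O u h - (((p + 1 + i : ℕ) : O) * δ) • w, h - (((p + 1 + i : ℕ) : O) * δ) • b,
        -((p + 1 + i : ℕ) : ℂ) * c, ?_, ?_, ?_, ?_, ?_⟩
      · exact mul_ne_zero (neg_ne_zero.2 (Nat.cast_ne_zero.2 (by omega))) hc
      · have := congrArg (fun B : Module.End O (Finset σ → O) => B h) (iov_sq (N := O) u)
        simp only [Module.End.mul_apply, LinearMap.zero_apply] at this
        rw [map_sub, map_smul, hw, this, smul_zero, sub_zero]
      · rw [e1]
        exact Submodule.add_mem _ (hle hv2)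
          (Submodule.sub_mem _ (loc_kt hw1 t) (Submodule.smul_mem _ _ hw1))
      · have e2 : iov O u h - (((p + 1 + i : ℕ) : O) * δ) • w - lad O t δ 0 (i + 1) z =
            (v - (((p + 1 : ℕ) : O) * δ) • w) + (kt O t (w - lad O t δ 0 i z) -
              ((i : O) * δ) • (w - lad O t δ 0 i z)) := by
          rw [e1, lad, Module.End.mul_apply, LinearMap.sub_apply, LinearMap.smul_apply,
            Module.End.one_apply, map_sub, zero_add]
          module
        rw [e2]
        exact Submodule.add_mem _ hv2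
          (Submodule.sub_mem _ (loc_kt hw2 t) (Submodule.smul_mem _ _ hw2))
      · rw [map_sub, map_smul, map_mul, map_neg, map_natCast]
        conv_lhs => rw [hw3]
        rw [pow_succ]
        module
  obtain ⟨w, b, c, hc, -, -, hw2, hw3⟩ := key (Fintype.card σ + 1)
  rw [lad_zero htt, LinearMap.zero_apply, sub_zero] at hw2
  refine ⟨-(algebraMap ℂ O c⁻¹ • b), loc_mem.1 ?_⟩
  have e : δ ^ (Fintype.card σ + 1) • z - iov O u (-(algebraMap ℂ O c⁻¹ • b)) =
      algebraMap ℂ O c⁻¹ • w := by
    rw [hw3, smul_add, smul_smul, ← mul_assoc, ← map_mul, inv_mul_cancel₀ hc, map_one, one_mul,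
      map_neg, map_smul, sub_neg_eq_add]
  rw [e]
  exact Submodule.smul_mem _ _ hw2

theorem loc_thm [IsNoetherianRing O] (u : σ → O) (δ : O) (D : σ → Derivation ℂ O O)
    (htt : (Matrix.of fun j l => D l (u j)) * (Matrix.of fun j l => D l (u j)) =
      δ • Matrix.of fun j l => D l (u j))
    (hE : ∀ j, ∑ l, u l * D l (u j) - δ * u j ∈ Ideal.span (Set.range u) ^ 2) :
    ∃ k : ℕ, ∀ z : Finset σ → O, iov O u z = 0 → (∀ J, z J ∈ Ideal.span (Set.range u)) →
      ∃ b, δ ^ k • z = iov O u b := by
  have hsq : ∀ b, iov O u (iov O u b) = 0 := fun b => by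
    have := congrArg (fun B : Module.End O (Finset σ → O) => B b) (iov_sq (N := O) u)
    simpa only [Module.End.mul_apply, LinearMap.zero_apply] using this
  have key : ∀ q : ℕ, ∃ k : ℕ, ∀ z : Finset σ → O, iov O u z = 0 →
      (∀ J, z J ∈ Ideal.span (Set.range u)) →
      ∃ b, ∀ J, (δ ^ k • z - iov O u b) J ∈ Ideal.span (Set.range u) ^ (q + 1) := by
    intro q
    induction q with
    | zero => exact ⟨0, fun z _ h => ⟨0, fun J => by simpa using h J⟩⟩
    | succ q ih =>
      obtain ⟨k, hk⟩ := ih
      refine ⟨Fintype.card σ + 1 + k, fun z hz h => ?_⟩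
      obtain ⟨b, hb⟩ := hk z hz h
      obtain ⟨b', hb'⟩ := loc_step u δ D htt hE q (δ ^ k • z - iov O u b)
        (by rw [map_sub, map_smul, hz, hsq, smul_zero, sub_zero]) hb
      refine ⟨δ ^ (Fintype.card σ + 1) • b + b', ?_⟩
      have e : δ ^ (Fintype.card σ + 1 + k) • z - iov O u (δ ^ (Fintype.card σ + 1) • b + b') =
          δ ^ (Fintype.card σ + 1) • (δ ^ k • z - iov O u b) - iov O u b' := by
        rw [map_add, map_smul, pow_add]
        module
      rw [e]
      exact hb'
  obtain ⟨k0, hk0⟩ := Ideal.exists_pow_inf_eq_pow_smul (Ideal.span (Set.range u))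
    (LinearMap.ker (iov O u))
  obtain ⟨k, hk⟩ := key k0
  refine ⟨k, fun z hz h => ?_⟩
  obtain ⟨b, hb⟩ := hk z hz h
  obtain ⟨y, hy⟩ : ∃ y, y = δ ^ k • z - iov O u b := ⟨_, rfl⟩
  rw [← hy] at hb
  have h1 : y ∈ Ideal.span (Set.range u) ^ (k0 + 1) • (⊤ : Submodule O (Finset σ → O)) ⊓
      LinearMap.ker (iov O u) := by
    refine ⟨?_, ?_⟩
    · have e : y = ∑ J, y J • (Pi.single J (1 : O) : Finset σ → O) := by
        funext J
        simp [Finset.sum_apply, Pi.single_apply]
      rw [e]
      exact Submodule.sum_mem _ fun J _ => Submodule.smul_mem_smul (hb J) Submodule.mem_top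
    · change iov O u y = 0
      rw [hy, map_sub, map_smul, hz, hsq, smul_zero, sub_zero]
  rw [hk0 (k0 + 1) (by omega), Nat.add_sub_cancel_left, pow_one] at h1
  have h2 : y ∈ LinearMap.range (iov O u) := by
    refine Submodule.smul_induction_on h1 (fun r hr x hx => ?_) fun x x' => Submodule.add_mem _
    have hx0 : iov O u x = 0 := hx.2
    induction hr using Submodule.span_induction with
    | mem a ha =>
      obtain ⟨j, rfl⟩ := ha
      exact ⟨ep O O j x, by rw [loc_anti, hx0, map_zero, sub_zero]⟩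
    | zero => simp
    | add a a' _ _ ha ha' => rw [add_smul]; exact Submodule.add_mem _ ha ha'
    | smul c a _ ha => rw [smul_eq_mul, mul_smul]; exact Submodule.smul_mem _ _ ha
  obtain ⟨b', hb'⟩ := h2
  exact ⟨b' + b, by rw [map_add, hb', hy, sub_add_cancel]⟩

end Pool.Agent.HCF
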