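import Pool.Agent.P.MP_f644fa_ag.LK1

/-! Intersection of cones; independent linear forms. -/

noncomputable section
namespace Pool.Agent.HCF
open Finset Module MvPolynomial

variable {τ : Type} [Fintype τ]

theorem lk2_cl {κ : Type} {Z : Set (τ → ℂ)} (hZ : CCone Z) (W : Set (κ → ℂ)) (e : τ → κ)
    (hW : ∀ w ∈ W, w ∘ e = 0 ∨ w ∘ e ∈ Z) (y : κ → ℂ)
    (hy : ∀ f : MvPolynomial κ ℂ, (∀ z ∈ W, eval z f = 0) → eval y f = 0) :
    y ∘ e = 0 ∨ y ∘ e ∈ Z := by
  by_cases h0 : y ∘ e = 0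
  · exact Or.inl h0
  refine Or.inr (hZ.closed _ h0 fun f hf => ?_)
  obtain ⟨j, hj⟩ := Function.ne_iff.1 h0
  have h1 := hy (rename e (X j * f)) fun z hz => by
    rw [eval_rename, map_mul, eval_X]
    rcases hW z hz with h | h
    · rw [h, Pi.zero_apply, zero_mul]
    · rw [hf _ h, mul_zero]
  rw [eval_rename, map_mul, eval_X] at h1
  exact (mul_eq_zero.1 h1).resolve_left hj

theorem lk2_smul {κ : Type} {Z : Set (τ → ℂ)} (hZ : CCone Z) (e : τ → κ) (w : κ → ℂ)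
    (hw : w ∘ e = 0 ∨ w ∘ e ∈ Z) (t : ℂ) (ht : t ≠ 0) : (t • w) ∘ e = 0 ∨ (t • w) ∘ e ∈ Z := by
  have : (t • w) ∘ e = t • (w ∘ e) := rfl
  rw [this]
  rcases hw with h | h
  · exact Or.inl (by rw [h, smul_zero])
  · exact Or.inr (hZ.smul _ h t ht)

theorem CCone.meet {Z C : Set (τ → ℂ)} (hZ : CCone Z) (hC : CCone C) {z₀ y₀ : τ → ℂ} {r r' : ℕ}
    (h1 : LocCut Z z₀ r) (h2 : LocCut C y₀ r') (h : r + r' < Fintype.card τ) :
    (Z ∩ C).Nonempty := by
  classical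
  by_contra hne
  obtain ⟨f1, d1, a1, a2, a3⟩ := h1
  obtain ⟨f2, d2, b1, b2, b3⟩ := h2
  set W : Set (τ ⊕ τ → ℂ) := {w | w ≠ 0 ∧ (w ∘ Sum.inl = 0 ∨ w ∘ Sum.inl ∈ Z) ∧
    (w ∘ Sum.inr = 0 ∨ w ∘ Sum.inr ∈ C)} with hWdef
  have hW : CCone W :=
    ⟨fun y hy => hy.1,
      fun y hy t ht => ⟨smul_ne_zero ht hy.1, lk2_smul hZ _ y hy.2.1 t ht,
        lk2_smul hC _ y hy.2.2 t ht⟩,
      fun y hy hf => ⟨hy, lk2_cl hZ W _ (fun w hw => hw.2.1) y hf,
        lk2_cl hC W _ (fun w hw => hw.2.2) y hf⟩⟩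
  have hc : LocCut W (Sum.elim z₀ y₀) (r + r') := by
    refine LocCut.of_card (ι := Fin r ⊕ Fin r') (by simp)
      (Sum.elim (fun i => rename Sum.inl (f1 i)) fun i => rename Sum.inr (f2 i))
      (rename Sum.inl d1 * rename Sum.inr d2) ?_ ?_ fun y hd hy => ?_
    · rw [map_mul, eval_rename, eval_rename, Sum.elim_comp_inl, Sum.elim_comp_inr]
      exact mul_ne_zero a1 b1
    · rintro (i | i)
      · rw [Sum.elim_inl, eval_rename, Sum.elim_comp_inl]
        exact a2 i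
      · rw [Sum.elim_inr, eval_rename, Sum.elim_comp_inr]
        exact b2 i
    · rw [map_mul, eval_rename, eval_rename] at hd
      have k1 : y ∘ Sum.inl ∈ Z := a3 _ (left_ne_zero_of_mul hd) fun i => by
        have := hy (Sum.inl i)
        rwa [Sum.elim_inl, eval_rename] at this
      have k2 : y ∘ Sum.inr ∈ C := b3 _ (right_ne_zero_of_mul hd) fun i => by
        have := hy (Sum.inr i)
        rwa [Sum.elim_inr, eval_rename] at this
      refine ⟨fun k => hZ.ne _ k1 ?_, Or.inr k1, Or.inr k2⟩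
      rw [k]
      rfl
  have key := hW.card_le hc (ι := τ)
    (fun i => Sum.elim (Pi.single i 1) (-Pi.single i 1)) fun y hy => ?_
  · rw [Fintype.card_sum] at key
    omega
  · by_contra hall
    push Not at hall
    have e : y ∘ Sum.inl = y ∘ Sum.inr := by
      ext i
      have := hall i
      simp [Fintype.sum_sum_type, Pi.single_apply] at this
      simpa using sub_eq_zero.1 (by rw [sub_eq_add_neg]; exact this)
    have h0 : y ∘ Sum.inl ≠ 0 := fun k => hy.1 (by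
      ext (i | i)
      · exact congrFun k i
      · exact congrFun (e ▸ k) i)
    exact hne ⟨y ∘ Sum.inl, hy.2.1.resolve_left h0, e ▸ hy.2.2.resolve_left (e ▸ h0)⟩

theorem CCone.exists_indep {W : Set (τ → ℂ)} (hW : CCone W) {y₀ : τ → ℂ} {r : ℕ}
    (h : LocCut W y₀ r) : ∃ (ρ : ℕ) (L : Fin ρ → τ → ℂ), 1 ≤ ρ ∧ Fintype.card τ ≤ r + ρ ∧
      ∀ f : MvPolynomial (Fin ρ) ℂ, (∀ y ∈ W, eval (fun i => ∑ j, L i j * y j) f = 0) → f = 0 :=
  by
  classical
  have hy₀ : y₀ ∈ W := by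
    obtain ⟨f1, d1, a1, a2, a3⟩ := h
    exact a3 _ a1 a2
  have hex : ∃ ρ : ℕ, ∃ L : Fin ρ → τ → ℂ, ∀ y ∈ W, ∃ i, ∑ j, L i j * y j ≠ 0 := by
    refine ⟨Fintype.card τ, fun i => Pi.single ((Fintype.equivFin τ).symm i) 1, fun y hy => ?_⟩
    obtain ⟨j, hj⟩ := Function.ne_iff.1 (hW.ne y hy)
    refine ⟨Fintype.equivFin τ j, ?_⟩
    simpa [Pi.single_apply] using hj
  have hmin := fun m => Nat.find_min hex (m := m)
  obtain ⟨L, hL⟩ := Nat.find_spec hex
  generalize Nat.find hex = ρ at hmin L hL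
  obtain ⟨n, rfl⟩ : ∃ n, ρ = n + 1 := by
    obtain ⟨i, -⟩ := hL y₀ hy₀
    exact ⟨ρ - 1, by have := i.pos; omega⟩
  refine ⟨n + 1, L, by omega, by simpa using hW.card_le h L hL, fun f hf => ?_⟩
  by_contra hf0
  have h1 : (X 0 * f : MvPolynomial (Fin (n + 1)) ℂ) ≠ 0 := mul_ne_zero (X_ne_zero 0) hf0
  obtain ⟨b, hb⟩ : ∃ b, eval b (X 0 * f : MvPolynomial (Fin (n + 1)) ℂ) ≠ 0 := by
    by_contra k
    push Not at k
    exact h1 (MvPolynomial.funext fun x => by rw [k x, map_zero])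
  rw [map_mul, eval_X] at hb
  have hb0 := left_ne_zero_of_mul hb
  refine hmin n (by omega) ⟨fun k j => b 0 * L k.succ j - b k.succ * L 0 j, fun y hy => ?_⟩
  by_contra hall
  push Not at hall
  have e : ∀ k : Fin n, b 0 * ∑ j, L k.succ j * y j = b k.succ * ∑ j, L 0 j * y j := fun k => by
    have := hall k
    rw [← sub_eq_zero, mul_sum, mul_sum, ← sum_sub_distrib, ← this]
    exact sum_congr rfl fun j _ => by ring
  have ha : ∑ j, L 0 j * y j ≠ 0 := fun k => by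
    obtain ⟨i, hi⟩ := hL y hy
    revert hi
    refine Fin.cases (fun hi => hi k) (fun i hi => hi ?_) i
    have := e i
    rw [k, mul_zero] at this
    exact (mul_eq_zero.1 this).resolve_left hb0
  have h2 := hf _ (hW.smul y hy (b 0 / ∑ j, L 0 j * y j) (div_ne_zero hb0 ha))
  have h3 : (fun i => ∑ j, L i j * ((b 0 / ∑ j, L 0 j * y j) • y) j) = b := by
    ext i
    have : ∑ j, L i j * ((b 0 / ∑ j, L 0 j * y j) • y) j =
        (b 0 / ∑ j, L 0 j * y j) * ∑ j, L i j * y j := by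
      rw [mul_sum]
      exact sum_congr rfl fun j _ => by rw [Pi.smul_apply, smul_eq_mul]; ring
    rw [this, div_mul_eq_mul_div, div_eq_iff ha]
    exact Fin.cases rfl e i
  rw [h3] at h2
  exact right_ne_zero_of_mul hb h2

end Pool.Agent.HCF
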