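import Mathlib

open MvPolynomial Finset Module

namespace Pool.Agent.HCF

instance b2_fin (M m : ℕ) : FiniteDimensional ℂ (homogeneousSubmodule (Fin M) ℂ m) :=
  Module.Finite.iff_fg.2 (homogeneousSubmodule_fg _ _ m)

lemma b2_rank (M m : ℕ) :
    finrank ℂ (homogeneousSubmodule (Fin M) ℂ m) = (M + m - 1).choose m := by
  classical
  have e : homogeneousSubmodule (Fin M) ℂ m =
      restrictSupport ℂ ((univ : Finset (Fin M)).finsuppAntidiag m : Set (Fin M →₀ ℕ)) := by
    rw [homogeneousSubmodule_eq_finsupp_supported]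
    have : {d : Fin M →₀ ℕ | d.degree = m} =
        ((univ : Finset (Fin M)).finsuppAntidiag m : Set (Fin M →₀ ℕ)) := by
      ext d
      simp [mem_finsuppAntidiag, Finsupp.degree_eq_sum]
    rw [this]
    rfl
  rw [e, finrank_eq_card_basis (basisRestrictSupport ℂ _)]
  simp [card_finsuppAntidiag_nat_eq_choose]

lemma b2_hilb (M : ℕ) : (1 - PowerSeries.X) ^ M *
    PowerSeries.mk (fun m => (finrank ℂ (homogeneousSubmodule (Fin M) ℂ m) : ℂ)) = 1 := by
  simp only [b2_rank]
  cases M with
  | zero =>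
    ext m
    cases m with
    | zero => simp
    | succ m => simp [PowerSeries.coeff_one]
  | succ d =>
    rw [mul_comm]
    refine Eq.trans ?_ (PowerSeries.mk_add_choose_mul_one_sub_pow_eq_one ℂ d)
    congr 2
    ext m
    have : d + 1 + m - 1 = d + m := by omega
    rw [this, Nat.choose_symm_add]

variable {M : ℕ} {ι : Type}

/-- degree `m` part of the ideal generated by the `f j`, `j ∈ s` -/
noncomputable def b2V (f : ι → MvPolynomial (Fin M) ℂ) (a : ι → ℕ) (s : Finset ι) (m : ℕ) :
    Submodule ℂ (MvPolynomial (Fin M) ℂ) :=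
  Submodule.span ℂ {g | ∃ j ∈ s, ∃ d v, a j + d = m ∧ v.IsHomogeneous d ∧ g = f j * v}

lemma b2V_le {f : ι → MvPolynomial (Fin M) ℂ} {a : ι → ℕ} (hf : ∀ j, (f j).IsHomogeneous (a j))
    (s : Finset ι) (m : ℕ) : b2V f a s m ≤ homogeneousSubmodule (Fin M) ℂ m := by
  rw [b2V, Submodule.span_le]
  rintro g ⟨j, _, d, v, rfl, hv, rfl⟩
  exact (hf j).mul hv

lemma b2V_mul {f : ι → MvPolynomial (Fin M) ℂ} {a : ι → ℕ} {s : Finset ι} {m e : ℕ}
    {g u : MvPolynomial (Fin M) ℂ} (hu : u.IsHomogeneous e) (hg : g ∈ b2V f a s m) :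
    u * g ∈ b2V f a s (e + m) := by
  induction hg using Submodule.span_induction with
  | mem g hg =>
    obtain ⟨j, hj, d, v, rfl, hv, rfl⟩ := hg
    exact Submodule.subset_span ⟨j, hj, e + d, u * v, by ring, hu.mul hv, by ring⟩
  | zero => simp
  | add x y _ _ hx hy => rw [mul_add]; exact add_mem hx hy
  | smul r x _ hx => rw [mul_smul_comm]; exact Submodule.smul_mem _ _ hx

lemma b2V_ideal {f : ι → MvPolynomial (Fin M) ℂ} {a : ι → ℕ} {s : Finset ι} {m : ℕ}
    {I : Ideal (MvPolynomial (Fin M) ℂ)} (hI : ∀ j, f j ∈ I) {g : MvPolynomial (Fin M) ℂ}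
    (hg : g ∈ b2V f a s m) : g ∈ I := by
  induction hg using Submodule.span_induction with
  | mem g hg =>
    obtain ⟨j, _, d, v, _, _, rfl⟩ := hg
    exact I.mul_mem_right _ (hI j)
  | zero => simp
  | add x y _ _ hx hy => exact add_mem hx hy
  | smul r x _ hx => rw [smul_eq_C_mul]; exact I.mul_mem_left _ hx

lemma b2V_zero {f : ι → MvPolynomial (Fin M) ℂ} {a : ι → ℕ} (ha : ∀ j, a j ≠ 0) (s : Finset ι) :
    b2V f a s 0 = ⊥ := by
  rw [b2V, Submodule.span_eq_bot]
  rintro g ⟨j, _, d, v, h, _⟩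
  have := ha j
  omega

lemma b2V_lt [DecidableEq ι] {f : ι → MvPolynomial (Fin M) ℂ} {a : ι → ℕ} {s : Finset ι} {j : ι}
    {m : ℕ} (h : m < a j ∨ f j = 0) : b2V f a (insert j s) m = b2V f a s m := by
  apply le_antisymm
  · rw [b2V, Submodule.span_le]
    rintro g ⟨i, hi, d, v, h1, hv, rfl⟩
    rcases mem_insert.1 hi with rfl | hi
    · rcases h with h | h
      · omega
      · simp [h]
    · exact Submodule.subset_span ⟨i, hi, d, v, h1, hv, rfl⟩
  · apply Submodule.span_mono
    rintro g ⟨i, hi, h1⟩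
    exact ⟨i, mem_insert_of_mem hi, h1⟩

lemma b2V_step [DecidableEq ι] {f : ι → MvPolynomial (Fin M) ℂ} {a : ι → ℕ}
    (hf : ∀ j, (f j).IsHomogeneous (a j)) (s : Finset ι) (j : ι) (d : ℕ) :
    finrank ℂ (b2V f a (insert j s) (a j + d)) + finrank ℂ (b2V f a s d) ≤
      finrank ℂ (b2V f a s (a j + d)) + finrank ℂ (homogeneousSubmodule (Fin M) ℂ d) := by
  have fin : ∀ s m, FiniteDimensional ℂ (b2V f a s m) := fun s m =>
    Submodule.finiteDimensional_of_le (b2V_le hf s m)
  set V := b2V f a s (a j + d)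
  set ψ : homogeneousSubmodule (Fin M) ℂ d →ₗ[ℂ] MvPolynomial (Fin M) ℂ ⧸ V :=
    V.mkQ ∘ₗ LinearMap.mulLeft ℂ (f j) ∘ₗ Submodule.subtype _ with hψ
  have h1 := LinearMap.finrank_range_add_finrank_ker ψ
  have h2 : finrank ℂ (b2V f a s d) ≤ finrank ℂ (LinearMap.ker ψ) := by
    rw [← Submodule.finrank_map_subtype_eq]
    apply Submodule.finrank_mono
    intro g hg
    refine ⟨⟨g, b2V_le hf s d hg⟩, ?_, rfl⟩
    simp only [SetLike.mem_coe, LinearMap.mem_ker, hψ, LinearMap.comp_apply, Submodule.mkQ_apply,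
      Submodule.Quotient.mk_eq_zero, LinearMap.mulLeft_apply, Submodule.subtype_apply]
    exact b2V_mul (hf j) hg
  set χ : b2V f a (insert j s) (a j + d) →ₗ[ℂ] MvPolynomial (Fin M) ℂ ⧸ V :=
    V.mkQ ∘ₗ Submodule.subtype _ with hχ
  have h3 := LinearMap.finrank_range_add_finrank_ker χ
  have h4 : finrank ℂ (LinearMap.ker χ) ≤ finrank ℂ V := by
    rw [← Submodule.finrank_map_subtype_eq]
    apply Submodule.finrank_mono
    rintro g ⟨x, hx, rfl⟩
    simpa [hχ] using hx
  have h5 : finrank ℂ (LinearMap.range χ) ≤ finrank ℂ (LinearMap.range ψ) := by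
    apply Submodule.finrank_mono
    rw [hχ, LinearMap.range_comp, Submodule.range_subtype, Submodule.map_le_iff_le_comap, b2V,
      Submodule.span_le]
    rintro g ⟨i, hi, e, v, h1, hv, rfl⟩
    rcases mem_insert.1 hi with rfl | hi
    · have : e = d := by omega
      subst this
      exact ⟨⟨v, hv⟩, rfl⟩
    · have : V.mkQ (f i * v) = 0 := by
        rw [Submodule.mkQ_apply, Submodule.Quotient.mk_eq_zero]
        exact Submodule.subset_span ⟨i, hi, e, v, h1, hv, rfl⟩
      simp only [SetLike.mem_coe, Submodule.mem_comap, this]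
      exact zero_mem _
  omega

/-- the integer coefficients of `prod (1 - t^a) / (1 - t)^M` -/
noncomputable def b2P (M : ℕ) (a : ι → ℕ) (s : Finset ι) (m : ℕ) : ℤ :=
  PowerSeries.coeff m ((∏ j ∈ s, (1 - PowerSeries.X ^ a j)) *
    PowerSeries.mk (fun m => (finrank ℂ (homogeneousSubmodule (Fin M) ℂ m) : ℤ)))

lemma b2P_insert [DecidableEq ι] (a : ι → ℕ) {s : Finset ι} {j : ι} (hj : j ∉ s) (m : ℕ) :
    b2P M a (insert j s) m = b2P M a s m - if a j ≤ m then b2P M a s (m - a j) else 0 := by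
  rw [b2P, prod_insert hj, mul_assoc, sub_mul, one_mul, map_sub, PowerSeries.coeff_X_pow_mul']
  rfl

open Classical in
lemma b2_count {f : ι → MvPolynomial (Fin M) ℂ} {a : ι → ℕ} (ha : ∀ j, a j ≠ 0)
    (hf : ∀ j, (f j).IsHomogeneous (a j)) (s : Finset ι) : ∀ m,
    (∀ m' < m, (finrank ℂ (homogeneousSubmodule (Fin M) ℂ m') : ℤ) - finrank ℂ (b2V f a s m') =
      b2P M a s m') →
    b2P M a s m + #{j ∈ s | f j = 0 ∧ a j = m} ≤
      (finrank ℂ (homogeneousSubmodule (Fin M) ℂ m) : ℤ) - finrank ℂ (b2V f a s m) := by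
  induction s using Finset.induction_on with
  | empty =>
    intro m _
    have : b2V f a ∅ m = ⊥ := by
      rw [b2V, Submodule.span_eq_bot]
      rintro g ⟨j, hj, _⟩
      simp at hj
    rw [this]
    simp [b2P]
  | insert j s hj ih =>
    have key : ∀ m, (∀ m' < m, (finrank ℂ (homogeneousSubmodule (Fin M) ℂ m') : ℤ) -
        finrank ℂ (b2V f a s m') = b2P M a s m') →
        (finrank ℂ (homogeneousSubmodule (Fin M) ℂ m) : ℤ) - finrank ℂ (b2V f a s m) - b2P M a s m
          + (if f j = 0 ∧ a j = m then 1 else 0) ≤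
        (finrank ℂ (homogeneousSubmodule (Fin M) ℂ m) : ℤ) - finrank ℂ (b2V f a (insert j s) m) -
          b2P M a (insert j s) m := by
      intro m hm
      rw [b2P_insert a hj]
      by_cases hle : a j ≤ m
      · obtain ⟨d, rfl⟩ := Nat.exists_eq_add_of_le hle
        have h1 := hm d (by have := ha j; omega)
        rw [if_pos hle, Nat.add_sub_cancel_left, ← h1]
        split_ifs with hc
        · have hd : d = 0 := by omega
          subst hd
          rw [b2V_lt (Or.inr hc.1), b2V_zero ha, b2_rank M 0]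
          simp
        · have := b2V_step hf s j d
          omega
      · rw [if_neg hle, if_neg (by omega), b2V_lt (Or.inl (by omega))]
        simp
    intro m hm
    have hall : ∀ m' < m, (finrank ℂ (homogeneousSubmodule (Fin M) ℂ m') : ℤ) -
        finrank ℂ (b2V f a s m') = b2P M a s m' := by
      intro m'
      induction m' using Nat.strong_induction_on with
      | _ m' ih' =>
        intro hm'
        have h0 := fun k (hk : k < m') => ih' k hk (hk.trans hm')
        have h1 := key m' h0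
        have h2 := ih m' h0
        have h3 := hm m' hm'
        split_ifs at h1 <;> omega
    have h1 := key m hall
    have h2 := ih m hall
    rw [filter_insert]
    split_ifs at h1 ⊢ with hc
    · rw [card_insert_of_notMem (by simp [hj])]
      push_cast
      omega
    · omega

end Pool.Agent.HCF
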