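import Pool.Agent.P.MP_f644fa_ag.LDefs
import Pool.Agent.P.MP_f644fa_ag.B2A

/-! The order of the pole of the Hilbert series. -/

noncomputable section
namespace Pool.Agent.HCF
open Finset Module PowerSeries

variable {M n : ℕ} {X R RR : Type} [CommRing R] [Algebra ℂ R] [CommRing RR] [Algebra ℂ RR]

theorem lk4_mul (d : ℕ) (q : Polynomial ℂ) : ∃ C : ℝ, ∀ m : ℕ,
    ‖coeff m ((q : ℂ⟦X⟧) * PowerSeries.mk fun k => ((d + k).choose d : ℂ))‖ ≤
      C * ((d + m).choose d : ℝ) := by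
  induction q using Polynomial.induction_on' with
  | add p q hp hq =>
    obtain ⟨C, hC⟩ := hp
    obtain ⟨C', hC'⟩ := hq
    refine ⟨C + C', fun m => ?_⟩
    rw [Polynomial.coe_add, add_mul, map_add, add_mul]
    exact (norm_add_le _ _).trans (add_le_add (hC m) (hC' m))
  | monomial i c =>
    refine ⟨‖c‖, fun m => ?_⟩
    rw [Polynomial.coe_monomial, PowerSeries.monomial_eq_C_mul_X_pow, mul_assoc, coeff_C_mul,
      coeff_X_pow_mul', norm_mul]
    refine mul_le_mul_of_nonneg_left ?_ (norm_nonneg _)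
    split_ifs with h
    · rw [coeff_mk, Complex.norm_natCast]
      exact_mod_cast Nat.choose_le_choose d (by omega)
    · simp

theorem lk4_hom (S : NS0 M n X R RR) {ρ : ℕ} (l : Fin ρ → R) (hl : ∀ i, S.s1 (l i) = 2 * l i)
    {m : ℕ} {P : MvPolynomial (Fin ρ) ℂ} (hP : P.IsHomogeneous m) :
    S.s1 (MvPolynomial.aeval l P) = (2 : ℂ) ^ m • MvPolynomial.aeval l P := by
  conv_lhs => rw [P.as_sum]
  conv_rhs => rw [P.as_sum]
  rw [map_sum, map_sum, smul_sum]
  refine sum_congr rfl fun α hα => ?_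
  have hd : ∑ j, α j = m := by
    rw [← Finsupp.degree_eq_sum, Finsupp.degree_eq_weight_one]
    exact hP (MvPolynomial.mem_support_iff.1 hα)
  rw [prod_mono, map_smul, smul_comm, map_prod]
  refine congrArg _ ?_
  rw [← hd, Algebra.smul_def, map_pow, ← Finset.prod_pow_eq_pow_sum, ← Finset.prod_mul_distrib]
  refine Finset.prod_congr rfl fun j _ => ?_
  rw [map_pow, hl, mul_pow, map_ofNat]

theorem lk4_low (S : NS0 M n X R RR) {ρ : ℕ} (l : Fin ρ → R)
    (hl : ∀ i, S.s1 (l i) = 2 * l i) (hi : AlgebraicIndependent ℂ l) (m : ℕ) :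
    (((ρ + m - 1).choose m : ℕ) : ℝ) ≤ ‖coeff m ((Dat.one S).chi 1)‖ := by
  have := (Dat.one S).grd.fin m
  have e : cst R (1 : Matrix Unit Unit ℂ) = 1 := LinearMap.ext fun y => cst_one y
  rw [dat_coeff, e, trOn_one, Complex.norm_natCast, ← b2_rank]
  let φ : MvPolynomial.homogeneousSubmodule (Fin ρ) ℂ m →ₗ[ℂ]
      ↥((Dat.one S).V ⊓ Eg (S.sc (Dat.one S).w) m) :=
    { toFun := fun P => ⟨fun _ => MvPolynomial.aeval l P.1, trivial, mem_Eg.2 (funext fun _ => by
        rw [dat_sc_apply, lk4_hom S l hl P.2, zpow_natCast]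
        show (2 : ℂ) ^ 0 • _ = _
        rw [pow_zero, one_smul]
        rfl)⟩
      map_add' := fun a b => Subtype.ext (funext fun _ => by simp)
      map_smul' := fun c a => Subtype.ext (funext fun _ => by simp) }
  have hφ : Function.Injective φ := fun a b h =>
    Subtype.ext (hi (congrFun (congrArg Subtype.val h) ()))
  exact_mod_cast LinearMap.finrank_le_finrank_of_injective hφ

theorem NS0.order_le (S : NS0 M n X R RR) {ρ : ℕ} (l : Fin ρ → R)
    (hl : ∀ i, S.s1 (l i) = 2 * l i) (hi : AlgebraicIndependent ℂ l) (h1 : 1 ≤ ρ)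
    {g : Polynomial ℂ} (hg : Nm n g ((Dat.one S).chi 1)) {e : ℕ}
    (he : (1 - Polynomial.X) ^ e ∣ g) : e + ρ ≤ n + 1 := by
  by_contra hlt
  obtain ⟨r, rfl⟩ : ∃ r, ρ = r + 1 := ⟨ρ - 1, by omega⟩
  obtain ⟨k, hk⟩ : ∃ k, e + r = n + 1 + k := ⟨e + r - (n + 1), by omega⟩
  obtain ⟨p, hp⟩ := hg
  obtain ⟨q, rfl⟩ := he
  have low := lk4_low S l hl hi
  generalize (Dat.one S).chi 1 = f at hp low
  have hne : (1 - PowerSeries.X : ℂ⟦X⟧) ^ (n + 1) ≠ 0 := by
    refine pow_ne_zero _ fun h => ?_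
    have := congrArg (coeff 0) h
    simp at this
  have key : (1 - PowerSeries.X : ℂ⟦X⟧) ^ r * f =
      (((1 - Polynomial.X) ^ k * q - (1 - Polynomial.X) ^ r * p : Polynomial ℂ) : ℂ⟦X⟧) := by
    refine mul_left_cancel₀ hne ?_
    push_cast at hp ⊢
    have h2 : (1 - PowerSeries.X : ℂ⟦X⟧) ^ (n + 1) * (1 - PowerSeries.X) ^ k =
        (1 - PowerSeries.X) ^ e * (1 - PowerSeries.X) ^ r := by
      rw [← pow_add, ← pow_add, hk]
    linear_combination (-(1 - PowerSeries.X : ℂ⟦X⟧) ^ r) * hp - (q : ℂ⟦X⟧) * h2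
  generalize ((1 - Polynomial.X) ^ k * q - (1 - Polynomial.X) ^ r * p : Polynomial ℂ) = u at key
  cases r with
  | zero =>
    have h3 := low (u.natDegree + 1)
    rw [pow_zero, one_mul] at key
    rw [key, Polynomial.coeff_coe, Polynomial.coeff_natDegree_succ_eq_zero] at h3
    have : 0 + 1 + (u.natDegree + 1) - 1 = u.natDegree + 1 := by omega
    rw [this, Nat.choose_self] at h3
    norm_num at h3
  | succ d =>
    obtain ⟨C, hC⟩ := lk4_mul d u
    have hf : f = (u : ℂ⟦X⟧) * PowerSeries.mk fun k => ((d + k).choose d : ℂ) := by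
      rw [← key, mul_comm, ← mul_assoc, PowerSeries.mk_add_choose_mul_one_sub_pow_eq_one ℂ d,
        one_mul]
    obtain ⟨m, hm⟩ := exists_nat_gt (C * (d + 1))
    have h3 := (low m).trans (hf ▸ hC m)
    have e1 : d + 1 + 1 + m - 1 = d + m + 1 := by omega
    have e2 : (d + m + 1).choose m = (d + m + 1).choose (d + 1) :=
      Nat.choose_symm_of_eq_add (by omega)
    have e3 : ((d + m + 1 : ℕ) : ℝ) * ((d + m).choose d : ℝ) =
        ((d + m + 1).choose (d + 1) : ℝ) * ((d + 1 : ℕ) : ℝ) := by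
      exact_mod_cast Nat.add_one_mul_choose_eq (d + m) d
    rw [e1, e2] at h3
    have hpos : (0 : ℝ) < ((d + m).choose d : ℝ) := by
      exact_mod_cast Nat.choose_pos (by omega)
    push_cast at e3
    have hd : (0 : ℝ) ≤ d := Nat.cast_nonneg d
    have h4 : ((d + m + 1).choose (d + 1) : ℝ) * (d + 1) ≤ C * ((d + m).choose d : ℝ) * (d + 1) :=
      mul_le_mul_of_nonneg_right h3 (by linarith)
    nlinarith [mul_pos hpos (show (0 : ℝ) < d + m + 1 - C * (d + 1) by linarith)]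

end Pool.Agent.HCF
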