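import Pool.Agent.P.MP_f644fa_ag.NsInst0

/-! The abstract numerical setting holds for a projective manifold. -/

noncomputable section
namespace Pool.Agent.HCF
open MvPolynomial Module Set

variable {M : ℕ} {I : Ideal (SS M)} {c n : ℕ}

/-- the class of a polynomial in the coordinate ring -/
def nsInst_q (I : Ideal (SS M)) : SS M →ₐ[ℂ] Pol I := (pf I).rangeRestrict

/-- the class of a polynomial in the coordinate ring of the square -/
def nsInst_q2 (I : Ideal (SS M)) : MvPolynomial (Fin M ⊕ Fin M) ℂ →ₐ[ℂ] Pol2 I :=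
  (pf2 I).rangeRestrict

theorem nsInst_q_surj : Function.Surjective (nsInst_q I) := (pf I).rangeRestrict_surjective

theorem nsInst_q2_surj : Function.Surjective (nsInst_q2 I) := (pf2 I).rangeRestrict_surjective

theorem nsInst_q_apply (f : SS M) (x : cone I) : (nsInst_q I f).1 x = eval x.1 f := pf_apply f x

theorem nsInst_q2_apply (H : MvPolynomial (Fin M ⊕ Fin M) ℂ) (p : cone I × cone I) :
    (nsInst_q2 I H).1 p = eval (Sum.elim p.1.1 p.2.1) H := by
  change pf2 I H p = _
  induction H using MvPolynomial.induction_on with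
  | C a => simp [pf2]
  | add f g hf hg => rw [map_add, map_add, Pi.add_apply, hf, hg]
  | mul_X f j hf =>
    rw [map_mul, map_mul, Pi.mul_apply, hf]
    rcases j with j | j <;> simp [pf2]

/-- specialisation of the second group of variables -/
def nsInst_sp (y : Fin M → ℂ) : MvPolynomial (Fin M ⊕ Fin M) ℂ →ₐ[ℂ] SS M :=
  aeval (Sum.elim X fun j => C (y j))

theorem nsInst_eval_sp (x y : Fin M → ℂ) (H : MvPolynomial (Fin M ⊕ Fin M) ℂ) :
    eval x (nsInst_sp y H) = eval (Sum.elim x y) H := by
  induction H using MvPolynomial.induction_on with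
  | C a => simp [nsInst_sp]
  | add f g hf hg => rw [map_add, map_add, map_add, hf, hg]
  | mul_X f j hf =>
    rw [map_mul, map_mul, map_mul, hf]
    rcases j with j | j <;> simp [nsInst_sp]

theorem nsInst_sp_inl (y : Fin M → ℂ) (f : SS M) : nsInst_sp y (rename Sum.inl f) = f := by
  rw [nsInst_sp, aeval_rename]
  exact aeval_X_left_apply f

/-- the vector field `v` acting on the first group of variables -/
def nsInst_d (v : Fin M → SS M) :
    Derivation ℂ (MvPolynomial (Fin M ⊕ Fin M) ℂ) (MvPolynomial (Fin M ⊕ Fin M) ℂ) :=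
  mkDerivation ℂ (Sum.elim (fun j => rename Sum.inl (v j)) fun _ => 0)

theorem nsInst_d_inl (v : Fin M → SS M) (j : Fin M) :
    nsInst_d v (X (Sum.inl j)) = rename Sum.inl (v j) := mkDerivation_X _ _ _

theorem nsInst_d_inr (v : Fin M → SS M) (j : Fin M) : nsInst_d v (X (Sum.inr j)) = 0 :=
  mkDerivation_X _ _ _

theorem nsInst_d_rename (v : Fin M → SS M) (f : SS M) : nsInst_d v (rename Sum.inr f) = 0 := by
  induction f using MvPolynomial.induction_on with
  | C a => rw [rename_C]; exact derivation_C _ _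
  | add f g hf hg => rw [map_add, map_add, hf, hg, add_zero]
  | mul_X f j hf => rw [map_mul, rename_X, Derivation.leibniz, hf, nsInst_d_inr]; simp

theorem nsInst_sp_d (v : Fin M → SS M) (y : Fin M → ℂ) (H : MvPolynomial (Fin M ⊕ Fin M) ℂ) :
    nsInst_sp y (nsInst_d v H) = ∑ j, v j * pderiv j (nsInst_sp y H) := by
  classical
  induction H using MvPolynomial.induction_on with
  | C a =>
    have h : nsInst_sp y (C a) = C a := by simp [nsInst_sp]
    rw [derivation_C, map_zero, h]
    simp
  | add f g hf hg => simp only [map_add, hf, hg, mul_add, Finset.sum_add_distrib]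
  | mul_X f j hf =>
    rw [Derivation.leibniz, smul_eq_mul, smul_eq_mul, map_add, map_mul, map_mul, hf, map_mul]
    simp only [Derivation.leibniz, smul_eq_mul, mul_add, Finset.sum_add_distrib, Finset.mul_sum]
    congr 1
    · rcases j with j | j
      · have h : nsInst_sp y (X (Sum.inl j)) = X j := by simp [nsInst_sp]
        rw [nsInst_d_inl, nsInst_sp_inl, h, Finset.sum_eq_single j]
        · rw [pderiv_X_self]; ring
        · intro l _ hl
          rw [pderiv_X_of_ne hl.symm]; ring
        · intro hj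
          exact absurd (Finset.mem_univ j) hj
      · have h : nsInst_sp y (X (Sum.inr j)) = C (y j) := by simp [nsInst_sp]
        rw [nsInst_d_inr, h]
        simp
    · exact Finset.sum_congr rfl fun l _ => by ring

theorem nsInst_ker (hX : IsManifold I c) {v : Fin M → SS M}
    (hv : ∀ h ∈ I, ∑ j, v j * pderiv j h ∈ I) (H : MvPolynomial (Fin M ⊕ Fin M) ℂ)
    (hH : nsInst_q2 I H = 0) : nsInst_q2 I (nsInst_d v H) = 0 := by
  refine Subtype.ext (funext fun p => ?_)
  have h1 : nsInst_sp p.2.1 H ∈ I := by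
    refine hX.pf_eq_zero.1 (funext fun x => ?_)
    rw [pf_apply, nsInst_eval_sp, ← nsInst_q2_apply H (x, p.2), hH]
    rfl
  rw [nsInst_q2_apply, ← nsInst_eval_sp, nsInst_sp_d]
  exact p.1.2.2 _ (hv _ h1)

theorem exists_frame (hX : IsManifold I c) (S : NS0 M n (cone I) (Pol I) (Pol2 I))
    (h1 : ∀ j p, (S.x j).1 p = p.1 j) (h2 : ∀ a p, (S.inl a).1 p = a.1 p.1)
    (h3 : ∀ a p, (S.inr a).1 p = a.1 p.2) (h4 : ∀ a p, (S.mu a).1 p = a.1 (p, p))
    (h5 : ∀ p a, S.ev p a = a.1 p) (h6 : ∀ p, S.T p = tangS I p.1) (p : cone I) :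
    Nonempty (Frame S p) := by
  obtain ⟨F⟩ := hX.exists_PF p.2
  choose A hA hA' using fun i => exists_divdiff (F.f i)
  have ex : ∀ j, S.x j = nsInst_q I (X j) := fun j =>
    Subtype.ext (funext fun y => by rw [h1, nsInst_q_apply, eval_X])
  have el : ∀ f, S.inl (nsInst_q I f) = nsInst_q2 I (rename Sum.inl f) := fun f =>
    Subtype.ext (funext fun y => by rw [h2, nsInst_q_apply, nsInst_q2_apply, eval_rename]; rfl)
  have er : ∀ f, S.inr (nsInst_q I f) = nsInst_q2 I (rename Sum.inr f) := fun f =>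
    Subtype.ext (funext fun y => by rw [h3, nsInst_q_apply, nsInst_q2_apply, eval_rename]; rfl)
  have em : ∀ H, S.mu (nsInst_q2 I H) = nsInst_q I (rename (Sum.elim id id) H) := fun H =>
    Subtype.ext (funext fun y => by
      rw [h4, nsInst_q_apply, nsInst_q2_apply, eval_rename]
      congr 2
      funext j
      rcases j with j | j <;> rfl)
  have ee : ∀ (y : cone I) f, S.ev y (nsInst_q I f) = eval y.1 f := fun y f => by
    rw [h5, nsInst_q_apply]
  have e0 : ∀ i, nsInst_q I (F.f i) = 0 := fun i => Subtype.ext (hX.pf_eq_zero.2 (F.f_mem i))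
  have hk := fun l => nsInst_ker hX (F.t_der hX p.2 l)
  refine ⟨{ c := c
            δ := nsInst_q I F.δ
            t := F.t.map (nsInst_q I)
            J := fun i l => nsInst_q I (pderiv l (F.f i))
            b := fun i j => nsInst_q I (F.b i j)
            a := fun i j => nsInst_q2 I (A i j)
            D := fun l => Derivation.liftOfSurjective nsInst_q2_surj (hk l)
            ne := by rw [ee]; exact F.δ_ne
            t_eq := ?_
            tt := ?_
            t_tan := fun y l => ?_
            J_tan := fun y v hv i => ?_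
            a_u := fun i => ?_
            mu_a := fun i j => by rw [em, hA']
            D_inl := fun l j => ?_
            D_inr := fun l r => ?_ }⟩
  · refine Matrix.ext fun j l => ?_
    simp only [PF.t, Matrix.map_apply, Matrix.sub_apply, Matrix.smul_apply, Matrix.sum_apply,
      Matrix.of_apply, map_sub, map_sum, map_mul, smul_eq_mul, Matrix.one_apply]
    split_ifs <;> simp
  · refine Matrix.ext fun j l => ?_
    have h := congrArg (nsInst_q I) (congrFun (congrFun F.tt j) l)
    simpa only [Matrix.mul_apply, Matrix.smul_apply, Matrix.map_apply, map_sum, map_mul,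
      smul_eq_mul] using h
  · rw [h6]
    simp only [Matrix.map_apply, ee]
    exact F.t_tan hX p.2 y.2 l
  · rw [h6] at hv
    simp only [ee]
    exact hv _ (F.f_mem i)
  · have h := congrArg (nsInst_q2 I) (hA i)
    rw [map_sub, ← el, ← er, e0, map_zero, map_zero, sub_zero, map_sum] at h
    rw [← h]
    refine Finset.sum_congr rfl fun j _ => ?_
    rw [NS0.u, ex, el, er, rename_X, rename_X, map_mul, map_sub]
  · rw [ex, el, rename_X, Derivation.liftOfSurjective_apply, nsInst_d_inl, Matrix.map_apply, el]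
  · obtain ⟨f, rfl⟩ := nsInst_q_surj r
    rw [er, Derivation.liftOfSurjective_apply, nsInst_d_rename, map_zero]

theorem exists_NS (hX : IsManifold I c) (hM : M = n + 1 + c) :
    ∃ S : NS M n (cone I) (Pol I) (Pol2 I), ∀ (k m : ℕ), S.Hm k m = Hm (Pol I) k m := by
  obtain ⟨L, hL⟩ := hX.exists_bpf hM
  obtain ⟨S, h1, h2, h3, h4, h5, h6, h7⟩ := exists_NS0 hX hL
  refine ⟨⟨S, exists_frame hX S h1 h2 h3 h4 h5 h6⟩, fun k m => ?_⟩
  have hs : ∀ (a : Pol I) (y : cone I), (S.s1 a).1 y = a.1 (S.dbl y) := fun a y => by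
    rw [← h5, S.ev_dbl, h5]
  have hE : ∀ a : Pol I, a ∈ Eg S.s1.toLinearMap (m : ℤ) ↔ a ∈ Gr (Pol I) (m : ℤ) := by
    intro a
    rw [mem_Eg, mem_Gr]
    constructor
    · intro h
      obtain ⟨f, rfl⟩ := nsInst_q_surj a
      refine hX.isHom_of_two fun x hx => ?_
      have h' := congrFun (congrArg Subtype.val h) ⟨x, hx⟩
      rw [AlgHom.toLinearMap_apply, hs, nsInst_q_apply, h7, SetLike.val_smul, Pi.smul_apply,
        nsInst_q_apply, zpow_natCast] at h'
      exact h'
    · intro h
      refine Subtype.ext (funext fun y => ?_)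
      rw [AlgHom.toLinearMap_apply, hs, SetLike.val_smul, Pi.smul_apply]
      exact h y _ 2 (h7 y)
  ext ω
  change (ω ∈ S.lamG ∧ Deg k ω ∧ ∀ J, ω J ∈ Eg S.s1.toLinearMap (m : ℤ)) ↔
    ((∀ v ∈ Tg (Pol I), iov (Pol I) v ω = 0) ∧ Deg k ω ∧ ∀ J, ω J ∈ Gr (Pol I) (m : ℤ))
  rw [kill_iff hX le_rfl]
  simp only [hE]
  refine and_congr_left fun _ => ?_
  change (∀ p, ∀ v ∈ S.T p, iov ℂ v (fun J => S.ev p (ω J)) = 0) ↔ _
  simp only [h5, h6]

end Pool.Agent.HCF
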