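import Pool.Agent.P.MP_f644fa_ag.LX0
import Pool.Agent.P.MP_f644fa_ag.LK2
import Pool.Agent.P.MP_f644fa_ag.LK4
import Pool.Agent.P.MP_f644fa_ag.NsInst

/-! Rings of polynomial functions on closed cones. -/

noncomputable section
namespace Pool.Agent.HCF
open Finset Module MvPolynomial

variable {M : ℕ} {I : Ideal (SS M)} {c n : ℕ}

/-- the function defined by a polynomial -/
def pfW (W : Set (Fin M → ℂ)) : SS M →ₐ[ℂ] (W → ℂ) := aeval fun j x => x.1 j

/-- polynomial functions -/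
def PolW (W : Set (Fin M → ℂ)) : Subalgebra ℂ (W → ℂ) := (pfW W).range

/-- the function on a product defined by a polynomial -/
def pf2W (W W' : Set (Fin M → ℂ)) : MvPolynomial (Fin M ⊕ Fin M) ℂ →ₐ[ℂ] (W × W' → ℂ) :=
  aeval (Sum.elim (fun j p => p.1.1 j) fun j p => p.2.1 j)

/-- polynomial functions on a product -/
def Pol2W (W W' : Set (Fin M → ℂ)) : Subalgebra ℂ (W × W' → ℂ) := (pf2W W W').range

/-- explicit description of the data -/
structure Expl (I : Ideal (SS M)) {W : Set (Fin M → ℂ)} {O : Subalgebra ℂ (W → ℂ)} {RR : Type}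
    [CommRing RR] [Algebra ℂ RR] (S : NS0 M n W O RR) : Prop where
  x : ∀ j p, (S.x j).1 p = p.1 j
  ev : ∀ p a, S.ev p a = a.1 p
  T : ∀ p, S.T p = tangS I p.1
  dbl : ∀ p, (S.dbl p).1 = (2 : ℂ) • p.1

theorem Expl.ev_aeval {W : Set (Fin M → ℂ)} {O : Subalgebra ℂ (W → ℂ)} {RR : Type} [CommRing RR]
    [Algebra ℂ RR] {S : NS0 M n W O RR} (h : Expl I S) (p : W) (f : SS M) :
    S.ev p (aeval S.x f) = eval p.1 f := by
  induction f using MvPolynomial.induction_on with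
  | C a => simp
  | add f g hf hg => simp only [map_add, hf, hg]
  | mul_X f j hf => rw [map_mul, map_mul, map_mul, hf, aeval_X, eval_X, h.ev, h.x]

theorem Expl.val_aeval {W : Set (Fin M → ℂ)} {O : Subalgebra ℂ (W → ℂ)} {RR : Type} [CommRing RR]
    [Algebra ℂ RR] {S : NS0 M n W O RR} (h : Expl I S) (p : W) {ι : Type} (u : ι → SS M) :
    S.val p (fun i => aeval S.x (u i)) = pv p.1 u := funext fun i => h.ev_aeval p (u i)

theorem li0_apply {W : Set (Fin M → ℂ)} (f : SS M) (x : W) : pfW W f x = eval x.1 f := by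
  induction f using MvPolynomial.induction_on with
  | C a => simp [pfW]
  | add f g hf hg => simp only [map_add, Pi.add_apply, hf, hg]
  | mul_X f j hf =>
    rw [map_mul, map_mul, Pi.mul_apply, hf]
    simp [pfW]

theorem li0_apply2 {W W' : Set (Fin M → ℂ)} (f : MvPolynomial (Fin M ⊕ Fin M) ℂ) (p : W × W') :
    pf2W W W' f p = eval (Sum.elim p.1.1 p.2.1) f := by
  induction f using MvPolynomial.induction_on with
  | C a => simp [pf2W]
  | add f g hf hg => simp only [map_add, Pi.add_apply, hf, hg]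
  | mul_X f j hf =>
    rw [map_mul, map_mul, Pi.mul_apply, hf]
    rcases j with j | j <;> simp [pf2W]

theorem li0_mem {W : Set (Fin M → ℂ)} {a : W → ℂ} :
    a ∈ PolW W ↔ ∃ f : SS M, ∀ x : W, a x = eval x.1 f := by
  constructor
  · rintro ⟨f, rfl⟩
    exact ⟨f, fun x => li0_apply f x⟩
  · rintro ⟨f, hf⟩
    have h : a = pfW W f := funext fun x => by rw [hf, li0_apply]
    rw [h]
    exact ⟨f, rfl⟩

theorem li0_mem2 {W W' : Set (Fin M → ℂ)} {a : W × W' → ℂ} : a ∈ Pol2W W W' ↔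
    ∃ f : MvPolynomial (Fin M ⊕ Fin M) ℂ, ∀ p : W × W',
      a p = eval (Sum.elim p.1.1 p.2.1) f := by
  constructor
  · rintro ⟨f, rfl⟩
    exact ⟨f, fun x => li0_apply2 f x⟩
  · rintro ⟨f, hf⟩
    have h : a = pf2W W W' f := funext fun x => by rw [hf, li0_apply2]
    rw [h]
    exact ⟨f, rfl⟩

/-- the point `2 x` -/
def li0_dbl {W : Set (Fin M → ℂ)} (hW : CCone W) (p : W) : W :=
  ⟨(2 : ℂ) • p.1, hW.smul _ p.2 2 two_ne_zero⟩

theorem li0_s1 {W : Set (Fin M → ℂ)} (hW : CCone W) : ∀ a ∈ PolW W, a ∘ li0_dbl hW ∈ PolW W := by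
  intro a ha
  obtain ⟨f, hf⟩ := li0_mem.1 ha
  refine li0_mem.2 ⟨aeval (fun j => C 2 * X j) f, fun x => ?_⟩
  rw [Function.comp_apply, hf, nsInst0_eval_aeval]
  congr 2
  funext j
  simp [li0_dbl]

theorem li0_inl {W W' : Set (Fin M → ℂ)} :
    ∀ a ∈ PolW W, a ∘ (Prod.fst : W × W' → W) ∈ Pol2W W W' := by
  intro a ha
  obtain ⟨f, hf⟩ := li0_mem.1 ha
  refine li0_mem2.2 ⟨rename Sum.inl f, fun x => ?_⟩
  rw [Function.comp_apply, hf, eval_rename]
  rfl

theorem li0_inr {W W' : Set (Fin M → ℂ)} :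
    ∀ a ∈ PolW W', a ∘ (Prod.snd : W × W' → W') ∈ Pol2W W W' := by
  intro a ha
  obtain ⟨f, hf⟩ := li0_mem.1 ha
  refine li0_mem2.2 ⟨rename Sum.inr f, fun x => ?_⟩
  rw [Function.comp_apply, hf, eval_rename]
  rfl

theorem li0_s2 {W : Set (Fin M → ℂ)} (hW : CCone W) : ∀ a ∈ Pol2W W W,
    a ∘ Prod.map (li0_dbl hW) (li0_dbl hW) ∈ Pol2W W W := by
  intro a ha
  obtain ⟨f, hf⟩ := li0_mem2.1 ha
  refine li0_mem2.2 ⟨aeval (fun j => C 2 * X j) f, fun x => ?_⟩
  rw [Function.comp_apply, hf, nsInst0_eval_aeval]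
  congr 2
  funext j
  rcases j with j | j <;> simp [li0_dbl]

theorem li0_mu {W : Set (Fin M → ℂ)} : ∀ a ∈ Pol2W W W, a ∘ (fun p : W => (p, p)) ∈ PolW W := by
  intro a ha
  obtain ⟨f, hf⟩ := li0_mem2.1 ha
  refine li0_mem.2 ⟨rename (Sum.elim id id) f, fun x => ?_⟩
  rw [Function.comp_apply, hf, eval_rename]
  congr 2
  funext j
  rcases j with j | j <;> rfl

theorem li0_fl {W : Set (Fin M → ℂ)} :
    ∀ a ∈ Pol2W W W, a ∘ (Prod.swap : W × W → W × W) ∈ Pol2W W W := by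
  intro a ha
  obtain ⟨f, hf⟩ := li0_mem2.1 ha
  refine li0_mem2.2 ⟨rename Sum.swap f, fun x => ?_⟩
  rw [Function.comp_apply, hf, eval_rename]
  congr 2
  funext j
  rcases j with j | j <;> rfl

theorem li0_sl {W W' : Set (Fin M → ℂ)} (p : W) :
    ∀ a ∈ Pol2W W W', a ∘ (fun q : W' => (p, q)) ∈ PolW W' := by
  intro a ha
  obtain ⟨f, hf⟩ := li0_mem2.1 ha
  refine li0_mem.2 ⟨aeval (Sum.elim (fun j => C (p.1 j)) X) f, fun x => ?_⟩
  rw [Function.comp_apply, hf, nsInst0_eval_aeval]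
  congr 2
  funext j
  rcases j with j | j <;> simp

/-- the class of a polynomial -/
def li0_q (W : Set (Fin M → ℂ)) (f : SS M) : PolW W := ⟨pfW W f, f, rfl⟩

theorem li0_x_apply {W : Set (Fin M → ℂ)} (j : Fin M) (p : W) : (li0_q W (X j)).1 p = p.1 j := by
  simp [li0_q, pfW]

theorem li0_aeval {W : Set (Fin M → ℂ)} (f : SS M) :
    (aeval (fun j => li0_q W (X j)) f : PolW W) = li0_q W f := by
  have h : (PolW W).val.comp (aeval fun j => li0_q W (X j)) = pfW W := by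
    refine MvPolynomial.algHom_ext fun j => ?_
    simp [li0_q]
  exact Subtype.ext (DFunLike.congr_fun h f)

/-- evaluation at a point -/
def li0_ev {W : Set (Fin M → ℂ)} (p : W) : PolW W →ₐ[ℂ] ℂ :=
  (Pi.evalAlgHom ℂ (fun _ : W => ℂ) p).comp (PolW W).val

theorem exists_NSX (hX : IsManifold I c) (hM : M = n + 1 + c) :
    ∃ S : NS M n (cone I) (Pol I) (Pol2 I), Expl I S.toNS0 ∧
      (∀ a p, (S.inl a).1 p = a.1 p.1) ∧ (∀ a p, (S.inr a).1 p = a.1 p.2) ∧
      (∀ a p, (S.mu a).1 p = a.1 (p, p)) ∧ ∀ (k m : ℕ), S.Hm k m = Hm (Pol I) k m := by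
  obtain ⟨L, hL⟩ := hX.exists_bpf hM
  obtain ⟨S, h1, h2, h3, h4, h5, h6, h7⟩ := exists_NS0 hX hL
  refine ⟨⟨S, exists_frame hX S h1 h2 h3 h4 h5 h6⟩, ⟨h1, h5, h6, h7⟩, h2, h3, h4, fun k m => ?_⟩
  have hs : ∀ (a : Pol I) (y : cone I), (S.s1 a).1 y = a.1 (S.dbl y) := fun a y => by
    rw [← h5, S.ev_dbl, h5]
  have hE : ∀ a : Pol I, a ∈ Eg S.s1.toLinearMap (m : ℤ) ↔ a ∈ Gr (Pol I) (m : ℤ) := by
    intro a
    rw [mem_Eg, mem_Gr]
    constructor
    · intro h
      obtain ⟨f, rfl⟩ := nsInst_q_surj a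
      refine hX.isHom_of_two fun x hx => ?_
      have h' := congrFun (congrArg Subtype.val h) ⟨x, hx⟩
      rw [AlgHom.toLinearMap_apply, hs, nsInst_q_apply, h7, SetLike.val_smul, Pi.smul_apply,
        nsInst_q_apply, zpow_natCast] at h'
      exact h'
    · intro h
      refine Subtype.ext (funext fun y => ?_)
      rw [AlgHom.toLinearMap_apply, hs, SetLike.val_smul, Pi.smul_apply]
      exact h y _ 2 (h7 y)
  ext ω
  change (ω ∈ S.lamG ∧ Deg k ω ∧ ∀ J, ω J ∈ Eg S.s1.toLinearMap (m : ℤ)) ↔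
    ((∀ v ∈ Tg (Pol I), iov (Pol I) v ω = 0) ∧ Deg k ω ∧ ∀ J, ω J ∈ Gr (Pol I) (m : ℤ))
  rw [kill_iff hX le_rfl]
  simp only [hE]
  refine and_congr_left fun _ => ?_
  change (∀ p, ∀ v ∈ S.T p, iov ℂ v (fun J => S.ev p (ω J)) = 0) ↔ _
  simp only [h5, h6]

theorem exists_NSW (hX : IsManifold I c) (hM : M = n + 1 + c) {W : Set (Fin M → ℂ)}
    (hW : CCone W) (hs : W ⊆ cone I) :
    ∃ S : NS0 M n W (PolW W) (Pol2W W W), Expl I S := by
  obtain ⟨L, hL⟩ := hX.exists_bpf hM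
  refine ⟨{
    x := fun j => li0_q W (X j)
    gen := ?_
    s1 := pb _ _ _ (li0_s1 hW)
    s1_x := ?_
    inl := pb _ _ _ li0_inl
    inr := pb _ _ _ li0_inr
    gen2 := ?_
    s2 := pb _ _ _ (li0_s2 hW)
    s2_inl := fun _ => rfl
    s2_inr := fun _ => rfl
    mu := pb _ _ _ li0_mu
    mu_inl := fun _ => rfl
    mu_inr := fun _ => rfl
    fl := pb _ _ _ li0_fl
    fl_inl := fun _ => rfl
    fl_inr := fun _ => rfl
    ev := li0_ev
    sep := fun a h => Subtype.ext (funext h)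
    sl := fun p => pb _ _ _ (li0_sl p)
    sl_inl := fun _ _ => rfl
    sl_inr := fun _ _ => rfl
    ns := ?_
    T := fun p => tangS I p.1
    dbl := li0_dbl hW
    ev_dbl := fun _ _ => rfl
    T_dbl := fun p => hX.tang_smul p.1 two_ne_zero
    l := fun i => li0_q W (lin (L i))
    s1_l := ?_
    bpf := ?_ }, li0_x_apply, fun _ _ => rfl, fun _ => rfl, fun _ => rfl⟩
  · rintro ⟨a, f, rfl⟩
    exact ⟨f, li0_aeval f⟩
  · intro j
    refine Subtype.ext (funext fun p => ?_)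
    change (li0_q W (X j)).1 (li0_dbl hW p) = 2 * (li0_q W (X j)).1 p
    rw [li0_x_apply, li0_x_apply]
    rfl
  · rintro ⟨a, f, rfl⟩
    have h : (Pol2W W W).val.comp (aeval (Sum.elim
        (fun j => pb _ _ _ li0_inl (li0_q W (X j)))
        fun j => pb _ _ _ li0_inr (li0_q W (X j)))) = pf2W W W := by
      refine MvPolynomial.algHom_ext fun j => ?_
      rw [AlgHom.comp_apply, aeval_X, pf2W, aeval_X]
      rcases j with j | j
      · exact funext fun p => li0_x_apply j p.1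
      · exact funext fun p => li0_x_apply j p.2
    exact ⟨f, Subtype.ext (DFunLike.congr_fun h f)⟩
  · intro A hA j
    obtain ⟨K, hK⟩ := hW.ns (A.comap (aeval (fun j => li0_q W (X j)) : SS M →ₐ[ℂ] PolW W))
      (fun f hf => by
        rw [Ideal.mem_comap, li0_aeval]
        have h0 : li0_q W f = 0 :=
          Subtype.ext (funext fun p => (li0_apply f p).trans (hf p.1 p.2))
        rw [h0]
        exact A.zero_mem) (fun x hx => by
      obtain ⟨⟨g, f, rfl⟩, hg, hne⟩ := hA ⟨x, hx⟩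
      refine ⟨f, ?_, ?_⟩
      · rw [Ideal.mem_comap, li0_aeval]
        exact hg
      · rw [← li0_apply (W := W) f ⟨x, hx⟩]
        exact hne) j
    refine ⟨K, ?_⟩
    rw [Ideal.mem_comap, map_pow, aeval_X] at hK
    exact hK
  · intro i
    refine Subtype.ext (funext fun p => ?_)
    change pfW W (lin (L i)) (li0_dbl hW p) = 2 * pfW W (lin (L i)) p
    rw [li0_apply, li0_apply]
    exact (eval_smul_hom (lin_hom (L i)) 2 p.1).trans (by rw [pow_one])
  · intro p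
    obtain ⟨i, hi⟩ := hL p.1 (hs p.2)
    refine ⟨i, ?_⟩
    rw [← li0_apply] at hi
    exact hi

/-- the order of the numerator is at most the number of local equations -/
theorem Expl.order {W : Set (Fin M → ℂ)} {O : Subalgebra ℂ (W → ℂ)} {RR : Type} [CommRing RR]
    [Algebra ℂ RR] {S : NS0 M n W O RR} (h : Expl I S) (hW : CCone W) {y₀ : Fin M → ℂ} {r : ℕ}
    (hc : LocCut W y₀ r) {g : Polynomial ℂ} (hg : Nm n g ((Dat.one S).chi 1)) {e : ℕ}
    (he : (1 - Polynomial.X) ^ e ∣ g) : e + M ≤ r + n + 1 := by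
  obtain ⟨ρ, L, h1, h2, h3⟩ := hW.exists_indep hc
  have hl : ∀ i, S.s1 (aeval S.x (lin (L i))) = 2 * aeval S.x (lin (L i)) := by
    intro i
    simp only [lin, map_sum, map_mul, aeval_C, aeval_X, AlgHom.commutes, S.s1_x, mul_sum]
    exact sum_congr rfl fun j _ => mul_left_comm _ _ _
  have hi : AlgebraicIndependent ℂ fun i => (aeval S.x (lin (L i)) : O) := by
    rw [algebraicIndependent_iff]
    intro f hf
    refine h3 f fun y hy => ?_
    have h4 := congrArg (S.ev ⟨y, hy⟩) hf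
    rw [map_zero, ← AlgHom.comp_apply, comp_aeval] at h4
    simp only [h.ev_aeval, eval_lin] at h4
    exact h4
  have := S.order_le _ hl hi h1 hg he
  rw [Fintype.card_fin] at h2
  omega

end Pool.Agent.HCF
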