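import Pool.Agent.P.MP_f644fa_ag.Trace

/-! Gradings given by a scaling operator, graded traces. -/

noncomputable section
namespace Pool.Agent.HCF
open Finset Module PowerSeries

variable {W W' W'' : Type} [AddCommGroup W] [Module ℂ W] [AddCommGroup W'] [Module ℂ W']
  [AddCommGroup W''] [Module ℂ W'']

/-- the part of degree `m` -/
def Eg (s : End ℂ W) (m : ℤ) : Submodule ℂ W := s.eigenspace ((2 : ℂ) ^ m)

theorem mem_Eg {s : End ℂ W} {m : ℤ} {w : W} : w ∈ Eg s m ↔ s w = (2 : ℂ) ^ m • w :=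
  End.mem_eigenspace_iff

/-- `p` is graded by natural numbers, with finite dimensional pieces -/
structure Grd (s : End ℂ W) (p : Submodule ℂ W) : Prop where
  span : p ≤ ⨆ m : ℕ, p ⊓ Eg s m
  fin : ∀ m : ℕ, FiniteDimensional ℂ ↥(p ⊓ Eg s m)

/-- the graded trace -/
def chi (s : End ℂ W) (p : Submodule ℂ W) (T : End ℂ W) : ℂ⟦X⟧ :=
  PowerSeries.mk fun m => trOn (p ⊓ Eg s m) T

/-- equality up to a polynomial -/
def PEq (f g : ℂ⟦X⟧) : Prop := ∃ p : Polynomial ℂ, f = g + p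

theorem graded_inj {a b : ℤ} (h : (2 : ℂ) ^ a = 2 ^ b) : a = b := by
  have h1 := congrArg norm h
  rw [norm_zpow, norm_zpow, Complex.norm_ofNat] at h1
  exact zpow_right_injective₀ (by norm_num) (by norm_num) h1

theorem graded_key {s : End ℂ W} {A : ℕ → Submodule ℂ W} (hA : ∀ m : ℕ, A m ≤ Eg s m) (m : ℤ)
    {B : Submodule ℂ W} (hB : ∀ n : ℕ, (n : ℤ) = m → A n ≤ B) : (⨆ n, A n) ⊓ Eg s m ≤ B := by
  have h1 : ⨆ n, A n ≤ (B ⊓ Eg s m) ⊔ ⨆ μ, ⨆ (_ : μ ≠ (2 : ℂ) ^ m), s.eigenspace μ := by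
    refine iSup_le fun n => ?_
    by_cases hn : (n : ℤ) = m
    · exact le_sup_of_le_left (le_inf (hB n hn) (hn ▸ hA n))
    · exact le_sup_of_le_right ((hA n).trans (le_iSup₂_of_le (f := fun μ (_ : μ ≠ (2 : ℂ) ^ m) =>
        s.eigenspace μ) ((2 : ℂ) ^ (n : ℤ)) (fun h => hn (graded_inj h)) le_rfl))
  have h2 : Disjoint (Eg s m) (⨆ μ, ⨆ (_ : μ ≠ (2 : ℂ) ^ m), s.eigenspace μ) :=
    End.eigenspaces_iSupIndep s _
  refine (inf_le_inf_right _ h1).trans ?_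
  rw [sup_inf_assoc_of_le _ inf_le_right, h2.symm.eq_bot, sup_bot_eq]
  exact inf_le_left

theorem graded_comp {s : End ℂ W} {q : Submodule ℂ W} (hi : ∀ w ∈ q, s w ∈ q) (F : Finset ℕ) :
    ∀ w : ℕ → W, (∀ m : ℕ, w m ∈ Eg s m) → ∑ m ∈ F, w m ∈ q → ∀ m ∈ F, w m ∈ q := by
  induction F using Finset.induction_on with
  | empty => intro w _ _ m hm; simp at hm
  | insert a F ha ih =>
    intro w hw hq
    have h1 : ∑ m ∈ F, ((2 : ℂ) ^ (m : ℤ) - 2 ^ (a : ℤ)) • w m ∈ q := by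
      have h2 := q.sub_mem (hi _ hq) (q.smul_mem ((2 : ℂ) ^ (a : ℤ)) hq)
      rw [map_sum, smul_sum, ← sum_sub_distrib, sum_insert ha, mem_Eg.1 (hw a), sub_self,
        zero_add] at h2
      simpa only [mem_Eg.1 (hw _), sub_smul] using h2
    have h3 : ∀ m ∈ F, w m ∈ q := fun m hm => by
      have h4 := ih _ (fun m => Submodule.smul_mem _ _ (hw m)) h1 m hm
      refine (q.smul_mem_iff (sub_ne_zero.2 fun h => ha ?_)).1 h4
      have h5 : m = a := by exact_mod_cast graded_inj h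
      exact h5 ▸ hm
    intro m hm
    rcases mem_insert.1 hm with rfl | hm
    · rw [sum_insert ha] at hq
      exact (q.add_mem_iff_left (q.sum_mem h3)).1 hq
    · exact h3 m hm

theorem PEq.of_coeff {f g : ℂ⟦X⟧} (m₀ : ℕ) (h : ∀ m ≥ m₀, coeff m f = coeff m g) : PEq f g := by
  refine ⟨trunc m₀ (f - g), PowerSeries.ext fun m => ?_⟩
  rw [map_add, Polynomial.coeff_coe, coeff_trunc]
  split_ifs with hm
  · rw [map_sub, add_sub_cancel]
  · rw [h m (not_lt.1 hm), add_zero]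
theorem PEq.refl (f : ℂ⟦X⟧) : PEq f f := ⟨0, by simp⟩
theorem PEq.symm {f g : ℂ⟦X⟧} (h : PEq f g) : PEq g f := by
  obtain ⟨p, rfl⟩ := h
  exact ⟨-p, by simp⟩
theorem PEq.trans {f g k : ℂ⟦X⟧} (h : PEq f g) (h' : PEq g k) : PEq f k := by
  obtain ⟨p, rfl⟩ := h
  obtain ⟨q, rfl⟩ := h'
  exact ⟨q + p, by simp [add_assoc]⟩

theorem Grd.inv {s : End ℂ W} {p : Submodule ℂ W} (h : Grd s p) : ∀ w ∈ p, s w ∈ p := fun w hw => by
  have h1 : ⨆ m : ℕ, p ⊓ Eg s m ≤ p.comap s := iSup_le fun m v hv => by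
    rw [Submodule.mem_comap, mem_Eg.1 hv.2]
    exact p.smul_mem _ hv.1
  exact h1 (h.span hw)

theorem Grd.neg {s : End ℂ W} {p : Submodule ℂ W} (h : Grd s p) {m : ℤ} (hm : m < 0) :
    p ⊓ Eg s m = ⊥ :=
  le_bot_iff.1 ((inf_le_inf_right _ h.span).trans
    (graded_key (fun _ => inf_le_right) m fun n hn => by omega))

theorem Grd.fin' {s : End ℂ W} {p : Submodule ℂ W} (h : Grd s p) (m : ℤ) :
    FiniteDimensional ℂ ↥(p ⊓ Eg s m) := by
  rcases lt_or_ge m 0 with hm | hm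
  · rw [h.neg hm]; infer_instance
  · obtain ⟨n, rfl⟩ := Int.eq_ofNat_of_zero_le hm
    exact h.fin n

theorem Grd.sub {s : End ℂ W} {p q : Submodule ℂ W} (h : Grd s p) (hq : q ≤ p)
    (hi : ∀ w ∈ q, s w ∈ q) : Grd s q := by
  refine ⟨fun w hw => ?_, fun m => ?_⟩
  · obtain ⟨f, hf, rfl⟩ := (Submodule.mem_iSup_iff_exists_finsupp _ _).1 (h.span (hq hw))
    exact Submodule.sum_mem _ fun m hm => Submodule.mem_iSup_of_mem m
      ⟨graded_comp hi _ f (fun m => (hf m).2) hw m hm, (hf m).2⟩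
  · have := h.fin m
    exact Submodule.finiteDimensional_of_le (inf_le_inf_right _ hq)

theorem Grd.map_inf {s : End ℂ W} {s' : End ℂ W'} {p : Submodule ℂ W} (h : Grd s p)
    (f : W →ₗ[ℂ] W') (hf : ∀ w ∈ p, f (s w) = s' (f w)) (m : ℤ) :
    p.map f ⊓ Eg s' m = (p ⊓ Eg s m).map f := by
  have h1 : ∀ m : ℤ, (p ⊓ Eg s m).map f ≤ Eg s' m := by
    rintro m _ ⟨w, hw, rfl⟩
    rw [mem_Eg, ← hf w hw.1, mem_Eg.1 hw.2, map_smul]
  refine le_antisymm ?_ (le_inf (Submodule.map_mono inf_le_left) (h1 m))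
  have h2 : p.map f ≤ ⨆ n : ℕ, (p ⊓ Eg s n).map f := by
    rw [← Submodule.map_iSup]
    exact Submodule.map_mono h.span
  exact (inf_le_inf_right _ h2).trans (graded_key (fun n => h1 n) m fun n hn => hn ▸ le_rfl)

theorem Grd.of_span {ι : Type} {s : End ℂ W} (b : ι → W) (deg : ι → ℕ)
    (hb : ∀ i, b i ∈ Eg s (deg i)) (hf : ∀ m, {i | deg i = m}.Finite) :
    Grd s (Submodule.span ℂ (Set.range b)) := by
  refine ⟨Submodule.span_le.2 ?_, fun m => ?_⟩
  · rintro _ ⟨i, rfl⟩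
    exact Submodule.mem_iSup_of_mem (deg i) ⟨Submodule.subset_span ⟨i, rfl⟩, hb i⟩
  · have h1 : Submodule.span ℂ (Set.range b) ≤
        ⨆ n : ℕ, Submodule.span ℂ (b '' {i | deg i = n}) := by
      refine Submodule.span_le.2 ?_
      rintro _ ⟨i, rfl⟩
      exact Submodule.mem_iSup_of_mem (deg i) (Submodule.subset_span ⟨i, rfl, rfl⟩)
    have h2 : ∀ n : ℕ, Submodule.span ℂ (b '' {i | deg i = n}) ≤ Eg s n := fun n => by
      refine Submodule.span_le.2 ?_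
      rintro _ ⟨i, rfl, rfl⟩
      exact hb i
    have := FiniteDimensional.span_of_finite ℂ ((hf m).image b)
    refine Submodule.finiteDimensional_of_le ((inf_le_inf_right _ h1).trans
      (graded_key h2 m (B := Submodule.span ℂ (b '' {i | deg i = m})) fun n hn => ?_))
    obtain rfl : n = m := by exact_mod_cast hn
    exact le_rfl

theorem mapsTo_inf {s T : End ℂ W} {p : Submodule ℂ W} (h : ∀ w ∈ p, T w ∈ p)
    (hc : ∀ w ∈ p, T (s w) = s (T w)) (m : ℤ) : ∀ w ∈ p ⊓ Eg s m, T w ∈ p ⊓ Eg s m := fun w hw =>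
  ⟨h w hw.1, mem_Eg.2 (by rw [← hc w hw.1, mem_Eg.1 hw.2, map_smul])⟩

theorem chi_congr {s T : End ℂ W} {s' T' : End ℂ W'} {p : Submodule ℂ W} (hp : Grd s p)
    (f : W →ₗ[ℂ] W') (h : ∀ w ∈ p, T w ∈ p) (hc : ∀ w ∈ p, T (s w) = s (T w))
    (hs : ∀ w ∈ p, f (s w) = s' (f w)) (hf : ∀ w ∈ p, f (T w) = T' (f w))
    (hi : ∀ w ∈ p, f w = 0 → w = 0) : chi s' (p.map f) T' = chi s p T := by
  ext m
  rw [chi, chi, coeff_mk, coeff_mk, hp.map_inf f hs]
  exact trOn_congr f (mapsTo_inf h hc m) (fun w hw => hf w hw.1) fun w hw => hi w hw.1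

/-- the pieces of the Koszul complex -/
theorem pi_inf_Eg {ι : Type} (w : ι → ℕ) (s : End ℂ W) (p : Submodule ℂ W) (m : ℤ) :
    Submodule.pi Set.univ (fun _ : ι => p) ⊓ Eg (piOp (fun i => 2 ^ w i) s) m =
      Submodule.pi Set.univ fun i => p ⊓ Eg s (m - w i) := by
  ext y
  have h1 : ∀ i, (2 : ℂ) ^ w i • s (y i) = (2 : ℂ) ^ m • y i ↔
      s (y i) = (2 : ℂ) ^ (m - w i) • y i := fun i => by
    rw [zpow_sub₀ two_ne_zero, zpow_natCast, div_eq_inv_mul, mul_smul,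
      eq_inv_smul_iff₀ (pow_ne_zero _ two_ne_zero)]
  simp only [Submodule.mem_inf, Submodule.mem_pi, Set.mem_univ, true_imp_iff, mem_Eg, funext_iff,
    piOp_apply, Pi.smul_apply, h1, forall_and]

theorem Grd.pi {ι : Type} [Fintype ι] (w : ι → ℕ) {s : End ℂ W} {p : Submodule ℂ W} (h : Grd s p) :
    Grd (piOp (fun i => 2 ^ w i) s) (Submodule.pi Set.univ fun _ : ι => p) := by
  classical
  refine ⟨fun y hy => ?_, fun m => ?_⟩
  · rw [← univ_sum_single y]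
    refine Submodule.sum_mem _ fun i _ => ?_
    have h1 : ⨆ m : ℕ, p ⊓ Eg s m ≤ (⨆ m : ℕ, (Submodule.pi Set.univ fun _ : ι => p) ⊓
        Eg (piOp (fun i => 2 ^ w i) s) m).comap (LinearMap.single ℂ (fun _ : ι => W) i) := by
      refine iSup_le fun m v hv => Submodule.mem_iSup_of_mem (m + w i) ?_
      rw [pi_inf_Eg]
      intro j _
      by_cases hj : j = i
      · subst hj
        simpa using hv
      · simp [Pi.single_eq_of_ne hj]
    exact h1 (h.span (hy i trivial))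
  · rw [pi_inf_Eg]
    have := fun i => h.fin' (m - w i)
    exact finite_pi _

theorem coeff_koszul (τ : Type) [Fintype τ] (ε : ℂ) (a : ℤ → ℂ) (ha : ∀ m < 0, a m = 0) (m : ℕ) :
    coeff m ((1 + C ε * X) ^ Fintype.card τ * PowerSeries.mk fun k : ℕ => a k) =
      ∑ J : Finset τ, ε ^ J.card * a (m - J.card) := by
  classical
  rw [← card_univ, ← prod_const, prod_one_add, powerset_univ, sum_mul, map_sum]
  refine sum_congr rfl fun J _ => ?_
  rw [prod_const, mul_pow, ← map_pow, mul_assoc, coeff_C_mul, coeff_X_pow_mul']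
  split_ifs with hJ
  · rw [coeff_mk, Nat.cast_sub hJ]
  · rw [ha _ (by omega)]

theorem chi_koszul (τ : Type) [Fintype τ] (ε : ℂ) {s T : End ℂ W} {p : Submodule ℂ W}
    (hp : Grd s p) (h : ∀ w ∈ p, T w ∈ p) (hc : ∀ w ∈ p, T (s w) = s (T w)) :
    chi (piOp (fun J : Finset τ => 2 ^ J.card) s) (Submodule.pi Set.univ fun _ => p)
      (piOp (fun J => ε ^ J.card) T) = (1 + C ε * X) ^ Fintype.card τ * chi s p T := by
  ext m
  have := fun J : Finset τ => hp.fin' (m - J.card)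
  rw [chi, chi, coeff_mk, pi_inf_Eg, trOn_pi _ _ fun J => mapsTo_inf h hc _,
    coeff_koszul τ ε (fun k => trOn (p ⊓ Eg s k) T) fun k hk => by rw [hp.neg hk, trOn_bot]]

end Pool.Agent.HCF
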