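import Pool.Agent.P.MP_f644fa_ag.LX2

/-! Generators, syzygies, coefficients along a line. -/

noncomputable section
namespace Pool.Agent.HCF
open Finset Module MvPolynomial

variable {M : ℕ} {I : Ideal (SS M)} {c n : ℕ}

theorem IsManifold.exists_gens (hX : IsManifold I c) : ∃ (K : ℕ) (h : Fin K → SS M)
    (d : Fin K → ℕ), (∀ k, (h k).IsHomogeneous (d k + 1)) ∧ I = Ideal.span (Set.range h) := by
  classical
  obtain ⟨s, hs⟩ := (IsNoetherian.noetherian I : I.FG)
  let T : Finset (SS M × ℕ) := s.biUnion fun f => (range f.totalDegree).image fun e => (f, e)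
  have hT : ∀ q ∈ T, q.1 ∈ s := by
    intro q hq
    obtain ⟨f, hf, h2⟩ := mem_biUnion.1 hq
    obtain ⟨e, -, rfl⟩ := mem_image.1 h2
    exact hf
  have hsI : ∀ f ∈ s, f ∈ I := fun f hf => hs ▸ Ideal.subset_span hf
  let e := T.equivFin.symm
  refine ⟨T.card, fun k => homogeneousComponent ((e k).1.2 + 1) (e k).1.1, fun k => (e k).1.2,
    fun k => homogeneousComponent_isHomogeneous _ _, le_antisymm ?_ ?_⟩
  · rw [← hs, Ideal.span_le]
    intro f hf
    have hf' : f ∈ s := hf
    rw [SetLike.mem_coe, ← sum_homogeneousComponent f, Finset.sum_range_succ']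
    refine add_mem (sum_mem fun i hi => Ideal.subset_span ⟨e.symm ⟨(f, i), ?_⟩, ?_⟩) ?_
    · exact mem_biUnion.2 ⟨f, hf', mem_image.2 ⟨i, hi, rfl⟩⟩
    · simp
    · obtain ⟨x, hx⟩ := hX.nonempty
      have h1 := hx.2 _ (hX.homog f (hsI f hf') 0)
      rw [homogeneousComponent_zero, eval_C] at h1
      rw [homogeneousComponent_zero, h1, C_0]
      exact zero_mem _
  · rw [Ideal.span_le]
    rintro _ ⟨k, rfl⟩
    exact hX.homog _ (hsI _ (hT _ (e k).2)) _

theorem lg0_der {K : ℕ} {h : Fin K → SS M} {z : Fin M → ℂ} (hz : ∀ k, eval z (h k) = 0)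
    (a : Fin K → SS M) (j : Fin M) :
    eval z (pderiv j (∑ k, a k * h k)) = ∑ k, eval z (a k) * eval z (pderiv j (h k)) := by
  rw [map_sum, map_sum]
  refine Finset.sum_congr rfl fun k _ => ?_
  rw [Derivation.leibniz, smul_eq_mul, smul_eq_mul, map_add, map_mul, map_mul, hz, zero_mul,
    add_zero]

/-- a vector that satisfies the syzygies at `z` satisfies the relations between the gradients -/
theorem IsManifold.syz (hX : IsManifold I c) {K : ℕ} {h : Fin K → SS M}
    (hI : I = Ideal.span (Set.range h)) {z : Fin M → ℂ} (hz : z ∈ cone I) {F : Fin K → ℂ}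
    (hF : ∀ r : Fin K → SS M, ∑ k, r k * h k = 0 → ∑ k, eval z (r k) * F k = 0) {a : Fin K → ℂ}
    (ha : ∑ k, a k • pv z (gr (h k)) = 0) : ∑ k, a k * F k = 0 := by
  classical
  obtain ⟨P⟩ := hX.exists_PF hz
  have hh : ∀ k, h k ∈ I := fun k => hI ▸ Ideal.subset_span ⟨k, rfl⟩
  choose A hA using fun i => Ideal.mem_span_range_iff_exists_fun.1 (hI.le (P.f_mem i))
  choose B hB using fun k => Ideal.mem_span_range_iff_exists_fun.1 (P.g_mul _ (hh k))
  have h1 : ∀ k, eval z P.g * F k = ∑ i, eval z (B k i) * ∑ l, eval z (A i l) * F l := by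
    intro k
    have h2 := hF (fun l => (if l = k then P.g else 0) - ∑ i, B k i * A i l) (by
      simp only [sub_mul, Finset.sum_sub_distrib, ite_mul, zero_mul, Finset.sum_ite_eq',
        Finset.mem_univ, if_true, Finset.sum_mul, mul_assoc]
      rw [Finset.sum_comm]
      simp only [← Finset.mul_sum, hA, hB, sub_self])
    simp only [map_sub, apply_ite (eval z), map_zero, map_sum, map_mul, sub_mul,
      Finset.sum_sub_distrib, ite_mul, zero_mul, Finset.sum_ite_eq', Finset.mem_univ, if_true,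
      Finset.sum_mul, mul_assoc] at h2
    rw [Finset.sum_comm] at h2
    simp only [← Finset.mul_sum] at h2
    exact sub_eq_zero.1 h2
  have h2 : ∀ k j, eval z P.g * eval z (pderiv j (h k)) =
      ∑ i, eval z (B k i) * eval z (pderiv j (P.f i)) := by
    intro k j
    rw [← lg0_der (fun i => hz.2 _ (P.f_mem i)), hB, Derivation.leibniz, smul_eq_mul, smul_eq_mul,
      map_add, map_mul, map_mul, hz.2 _ (hh k), zero_mul, add_zero]
  have h3 : LinearIndependent ℂ fun i => pv z (gr (P.f i)) :=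
    indep_of_dual (u := fun i => pv z (P.b i)) P.δ_ne fun i k => by
      have h4 := congrArg (eval z) (P.Jb i k)
      simpa only [map_sum, map_mul, apply_ite (eval z), map_zero, pv_apply, gr] using h4
  have h4 : ∀ i, ∑ k, a k * eval z (B k i) = 0 := by
    refine Fintype.linearIndependent_iff.1 h3 _ (funext fun j => ?_)
    have h5 := congrFun ha j
    simp only [Finset.sum_apply, Pi.smul_apply, smul_eq_mul, pv_apply, gr, Pi.zero_apply] at h5 ⊢
    simp only [Finset.sum_mul, mul_assoc]
    rw [Finset.sum_comm]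
    simp only [← Finset.mul_sum, ← h2, mul_left_comm _ (eval z P.g)]
    rw [h5, mul_zero]
  refine (mul_eq_zero.1 ?_).resolve_left P.g_ne
  rw [Finset.mul_sum]
  simp only [mul_left_comm (eval z P.g), h1]
  have h5 : ∀ k, a k * ∑ i, eval z (B k i) * ∑ l, eval z (A i l) * F l =
      ∑ i, a k * eval z (B k i) * ∑ l, eval z (A i l) * F l := fun k => by
    rw [Finset.mul_sum]
    exact Finset.sum_congr rfl fun i _ => (mul_assoc _ _ _).symm
  rw [Finset.sum_congr rfl fun k _ => h5 k, Finset.sum_comm]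
  simp only [← Finset.sum_mul, h4, zero_mul, Finset.sum_const_zero]

theorem IsManifold.span_gens (hX : IsManifold I c) {K : ℕ} {h : Fin K → SS M}
    (hI : I = Ideal.span (Set.range h)) {z : Fin M → ℂ} (hz : z ∈ cone I) :
    Submodule.span ℂ (Set.range fun k => pv z (gr (h k))) = Es I z := by
  have hh : ∀ k, h k ∈ I := fun k => hI ▸ Ideal.subset_span ⟨k, rfl⟩
  refine span_eq_perp _ _ fun θ => ⟨fun h1 k => ?_, fun h1 f hf => ?_⟩
  · rw [← h1 _ (hh k)]
    exact Finset.sum_congr rfl fun j _ => mul_comm _ _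
  · obtain ⟨a, rfl⟩ := Ideal.mem_span_range_iff_exists_fun.1 (hI ▸ hf)
    simp only [lg0_der fun k => hz.2 _ (hh k), Finset.mul_sum]
    rw [Finset.sum_comm]
    refine Finset.sum_eq_zero fun k _ => ?_
    have h2 := congrArg (eval z (a k) * ·) (h1 k)
    simp only [Finset.mul_sum, mul_zero, pv_apply, gr] at h2
    rw [← h2]
    exact Finset.sum_congr rfl fun j _ => by ring

theorem lg0_mono (x : Fin M → ℂ) (a : ℂ) (d : ℕ) : ∀ s : Fin M →₀ ℕ, s.degree = d →
    ∃ F : Fin (d + 1) → SS M, ∀ (y : Fin M → ℂ) (p : Fin 2 → ℂ), eval (pt x y p) (monomial s a) =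
      ∑ i : Fin (d + 1), p 0 ^ (d - i) * p 1 ^ (i : ℕ) * eval y (F i) := by
  induction d with
  | zero =>
    intro s hs
    rw [(Finsupp.degree_eq_zero_iff s).1 hs]
    exact ⟨fun _ => C a, fun y p => by simp⟩
  | succ d ih =>
    intro s hs
    obtain ⟨j, hj⟩ : ∃ j, s j ≠ 0 := by
      by_contra h0
      have h1 : s = 0 := Finsupp.ext fun j => not_not.1 fun h => h0 ⟨j, h⟩
      rw [h1, map_zero] at hs
      omega
    have e : s - Finsupp.single j 1 + Finsupp.single j 1 = s :=
      tsub_add_cancel_of_le (Finsupp.single_le_iff.2 (Nat.one_le_iff_ne_zero.2 hj))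
    have hd : (s - Finsupp.single j 1).degree = d := by
      have h1 := congrArg Finsupp.degree e
      rw [map_add, Finsupp.degree_single, hs] at h1
      omega
    obtain ⟨F, hF⟩ := ih _ hd
    refine ⟨fun i => C (x j) * Fin.snoc (α := fun _ => SS M) F 0 i +
      X j * Fin.cons (α := fun _ => SS M) 0 F i, fun y p => ?_⟩
    have h1 : (monomial s a : SS M) = monomial (s - Finsupp.single j 1) a * X j := by
      rw [X, monomial_mul, e, mul_one]
    simp only [map_add, map_mul, eval_C, eval_X, mul_add, Finset.sum_add_distrib]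
    rw [h1, map_mul, hF, eval_X, Fin.sum_univ_castSucc (n := d + 1), Fin.sum_univ_succ (n := d + 1)]
    simp only [Fin.snoc_castSucc, Fin.snoc_last, Fin.cons_zero, Fin.cons_succ, map_zero, mul_zero,
      add_zero, zero_add, Fin.val_castSucc, Fin.val_succ, Nat.add_sub_add_right, pt, Pi.add_apply,
      Pi.smul_apply, smul_eq_mul, mul_add, Finset.sum_mul]
    congr 1
    · refine Finset.sum_congr rfl fun i _ => ?_
      rw [Nat.succ_sub (Nat.lt_succ_iff.1 i.2), pow_succ]
      ring
    · exact Finset.sum_congr rfl fun i _ => by ring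

/-- the coefficients of the restriction to the plane are polynomials in `y` -/
theorem exists_coeff (x : Fin M → ℂ) {f : SS M} {d : ℕ} (hf : f.IsHomogeneous d) :
    ∃ F : Fin (d + 1) → SS M, (∀ y, eval y (F 0) = eval x f) ∧ ∀ (y : Fin M → ℂ) (p : Fin 2 → ℂ),
      eval (pt x y p) f = ∑ i : Fin (d + 1), p 0 ^ (d - i) * p 1 ^ (i : ℕ) * eval y (F i) := by
  have h1 : ∀ s : f.support, (s : Fin M →₀ ℕ).degree = d := fun s => by
    rw [Finsupp.degree_eq_weight_one]
    exact hf (mem_support_iff.1 s.2)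
  choose F hF using fun s : f.support => lg0_mono x (coeff s f) d s (h1 s)
  have h2 : ∀ (y : Fin M → ℂ) (p : Fin 2 → ℂ), eval (pt x y p) f =
      ∑ i : Fin (d + 1), p 0 ^ (d - i) * p 1 ^ (i : ℕ) * eval y (∑ s, F s i) := by
    intro y p
    conv_lhs => rw [f.as_sum, ← Finset.sum_coe_sort, map_sum]
    simp only [hF, map_sum, Finset.mul_sum]
    exact Finset.sum_comm
  refine ⟨fun i => ∑ s, F s i, fun y => ?_, h2⟩
  have h3 := h2 y ![1, 0]
  rw [pt_first, Fin.sum_univ_succ] at h3
  simpa using h3.symm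

end Pool.Agent.HCF
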