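import Pool.Agent.P.MP_f644fa_ag.LSub

/-! Hilbert series of exterior powers: formal properties. -/

noncomputable section
namespace Pool.Agent.HCF
open Finset Module PowerSeries
open scoped Kronecker

variable {M n : ℕ} {X R RR : Type} [CommRing R] [Algebra ℂ R] [CommRing RR] [Algebra ℂ RR]
  {S : NS0 M n X R RR} {σ : Type} [LinearOrder σ] [Fintype σ]

theorem lsub1_coeff (S : NS0 M n X R RR) {I : Type} (w : I → ℕ) (G : Submodule R (I → R)) (m : ℕ) :
    coeff m (S.hs w G) = trOn (G.restrictScalars ℂ ⊓ Eg (S.sc w) m) 1 := by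
  rw [NS0.hs, HCF.chi, coeff_mk]

theorem lsub1_cst (k : ℕ) (y : Finset σ → R) (J : Finset σ) :
    cst R (piM σ k) y J = if J.card = k then y J else 0 := by
  rw [piM, cst_diagonal]
  split_ifs <;> simp

theorem lsub1_grd (B : Sub S σ) (k : ℕ) :
    Grd (S.sc B.wt) ((B.lamG ⊓ degS σ R k).restrictScalars ℂ) :=
  B.lam.grd.sub (fun _ h => h.1) fun ω h => ⟨B.lamG_inv ω h.1, fun J hJ => by
    rw [dat_sc_apply, h.2 J hJ, map_zero, smul_zero]⟩

theorem lsub1_congr (B : Sub S σ) (k : ℕ) {I : Type} (e : I → Finset σ) (w : I → ℕ)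
    (G : Submodule R (I → R)) (hw : ∀ i, w i = B.wt (e i)) (hs : ∀ J, J.card = k → ∃ i, e i = J)
    (h1 : ∀ ω ∈ B.lamG ⊓ degS σ R k, (fun i => ω (e i)) ∈ G)
    (h2 : ∀ η ∈ G, ∃ ω ∈ B.lamG ⊓ degS σ R k, (fun i => ω (e i)) = η) :
    S.hs B.wt (B.lamG ⊓ degS σ R k) = S.hs w G := by
  have hV : ((B.lamG ⊓ degS σ R k).restrictScalars ℂ).map (LinearMap.funLeft ℂ R e) =
      G.restrictScalars ℂ := by
    ext η
    constructor
    · rintro ⟨ω, hω, rfl⟩
      exact h1 ω hω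
    · exact fun hη => h2 η hη
  rw [NS0.hs, NS0.hs, ← hV]
  refine (chi_congr (T := 1) (T' := 1) (s' := S.sc w) (lsub1_grd B k) (LinearMap.funLeft ℂ R e)
    (fun _ h => h) (fun _ _ => rfl)
    (fun ω _ => ?_)
    (fun _ _ => rfl) fun ω hω h0 => ?_).symm
  · funext A
    rw [dat_sc_apply, hw]
    rfl
  · funext J
    by_cases hJ : J.card = k
    · obtain ⟨i, rfl⟩ := hs J hJ
      exact congrFun h0 i
    · exact hω.2 J hJ

theorem lsub1_empty (v : σ → ℂ) (y : Finset σ → ℂ) : iov ℂ v y ∅ = ∑ j, y {j} * v j := by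
  rw [fock_iov]
  refine sum_congr rfl fun j _ => ?_
  rw [io_apply, if_neg (notMem_empty j), smul_eq_mul, mul_comm]
  simp [sg]

theorem lsub1_unit {I : Type} [Fintype I] (D : Dat S I) (ω : Unit × I → R) :
    ω ∈ ((Dat.one S).tensor D).G ↔ (fun A => ω ((), A)) ∈ D.G :=
  ⟨fun h => h.2 (), fun h => ⟨fun _ => trivial, fun _ => h⟩⟩

/-- the trace of a constant projector is the Hilbert series of its image -/
theorem Dat.chi_proj {I : Type} [Fintype I] {D : Dat S I} {T : Matrix I I ℂ} (h : D.Ok T)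
    (h2 : T * T = T) (G : Submodule R (I → R)) (hG : ∀ ω, ω ∈ G ↔ ω ∈ D.G ∧ cst R T ω = ω) :
    D.chi T = S.hs D.w G := by
  ext m
  have := D.grd.fin m
  have h3 : ∀ ω : I → R, cst R T (cst R T ω) = cst R T ω := fun ω => by rw [← cst_mul, h2]
  have e : (D.V ⊓ Eg (S.sc D.w) m).map (cst R T) = G.restrictScalars ℂ ⊓ Eg (S.sc D.w) m := by
    ext η
    constructor
    · rintro ⟨ω, hω, rfl⟩
      have h4 := dat_maps h m ω hω
      exact ⟨(hG _).2 ⟨h4.1, h3 ω⟩, h4.2⟩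
    · rintro ⟨h4, h5⟩
      exact ⟨η, ⟨((hG η).1 h4).1, h5⟩, ((hG η).1 h4).2⟩
  rw [dat_coeff, lsub1_coeff, trOn_proj (dat_maps h m) fun ω _ => h3 ω, ← e, trOn_one]

theorem Sub.chi_piM (B : Sub S σ) (k : ℕ) :
    B.lam.chi (piM σ k) = S.hs B.wt (B.lamG ⊓ degS σ R k) := by
  refine Dat.chi_proj (B.ok_piM k) ?_ _ fun ω => ⟨fun h => ⟨h.1, funext fun J => ?_⟩,
    fun h => ⟨h.1, fun J hJ => ?_⟩⟩
  · rw [piM, Matrix.diagonal_mul_diagonal]
    refine congrArg _ (funext fun J => ?_)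
    split_ifs <;> simp
  · rw [lsub1_cst]
    split_ifs with hJ
    · rfl
    · exact (h.2 J hJ).symm
  · rw [← h.2, lsub1_cst, if_neg hJ]

theorem NS0.hs_bot (S : NS0 M n X R RR) {I : Type} (w : I → ℕ) : S.hs w ⊥ = 0 := by
  ext m
  rw [lsub1_coeff, Submodule.restrictScalars_bot, bot_inf_eq, trOn_bot, map_zero]

theorem Sub.chi_shift {B B' : Sub S σ} (hT : B'.T = B.T) {d : ℕ} (hw : ∀ j, B'.w j = B.w j + d)
    (k : ℕ) : B'.lam.chi (piM σ k) = PowerSeries.X ^ (d * k) * B.lam.chi (piM σ k) := by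
  have hG : B'.lamG = B.lamG := by
    ext ω
    rw [Sub.mem_lamG, Sub.mem_lamG, hT]
  have hwt : ∀ J : Finset σ, J.card = k → B'.wt J = B.wt J + d * k := fun J hJ => by
    simp only [Sub.wt, hw, sum_add_distrib, sum_const, smul_eq_mul, hJ, mul_comm]
  have hE : ∀ m : ℤ, (B.lamG ⊓ degS σ R k).restrictScalars ℂ ⊓ Eg (S.sc B'.wt) m =
      (B.lamG ⊓ degS σ R k).restrictScalars ℂ ⊓ Eg (S.sc B.wt) (m - (d * k : ℕ)) := fun m => by
    ext ω
    rw [Submodule.mem_inf, Submodule.mem_inf, dat_mem_Eg, dat_mem_Eg]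
    refine and_congr_right fun hω => forall_congr' fun J => ?_
    by_cases hJ : J.card = k
    · rw [hwt J hJ, show m - ((B.wt J + d * k : ℕ) : ℤ) = m - (d * k : ℕ) - B.wt J by
        push_cast; ring]
    · rw [hω.2 J hJ]
      exact iff_of_true (Submodule.zero_mem _) (Submodule.zero_mem _)
  ext m
  rw [Sub.chi_piM, Sub.chi_piM, hG, coeff_X_pow_mul', lsub1_coeff, hE]
  split_ifs with hk
  · rw [lsub1_coeff, Nat.cast_sub hk]
  · rw [(lsub1_grd B k).neg (by omega), trOn_bot]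

theorem Sub.chi_gt (B : Sub S σ) {r k : ℕ} (h : ∀ p, Fintype.card σ ≤ finrank ℂ (B.T p) + r)
    (hk : r < k) : B.lam.chi (piM σ k) = 0 := by
  have e : B.lamG ⊓ degS σ R k = ⊥ := by
    refine eq_bot_iff.2 fun ω hω => S.val_inj fun q => ?_
    have h1 : S.val q ω = 0 := deg_gt_eq_zero (B.T q) (h q) hk
      (fun J hJ => by rw [NS0.val_apply, hω.2 J hJ, map_zero]) (hω.1 q)
    rw [h1]
    funext J
    exact (map_zero (S.ev q)).symm
  rw [Sub.chi_piM, e, NS0.hs_bot]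

theorem Sub.chi_zero (B : Sub S σ) : B.lam.chi (piM σ 0) = (Dat.one S).chi 1 := by
  have e1 : cst R (1 : Matrix Unit Unit ℂ) = (1 : End ℂ (Unit → R)) :=
    LinearMap.ext fun y => cst_one y
  rw [Sub.chi_piM, Dat.chi, e1]
  refine lsub1_congr B 0 (fun _ : Unit => ∅) (fun _ => 0) ⊤ (fun _ => sum_empty.symm)
    (fun J hJ => ⟨(), (card_eq_zero.1 hJ).symm⟩) (fun _ _ => trivial) fun η _ => ?_
  have hz : ∀ J : Finset σ, J ≠ ∅ → (Pi.single ∅ (η ()) : Finset σ → R) J = 0 :=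
    fun J hJ => Pi.single_eq_of_ne hJ _
  refine ⟨Pi.single ∅ (η ()), ⟨fun p v _ => Lev.iov_zero (fun J hJ => ?_) v, fun J hJ => ?_⟩, ?_⟩
  · rw [NS0.val_apply, hz J (card_pos.1 hJ).ne_empty, map_zero]
  · exact hz J fun h => hJ (by rw [h, card_empty])
  · funext A
    exact Pi.single_eq_same _ _

/-- forms of degree one are vectors -/
theorem Sub.chi_one (B : Sub S σ) (G : Submodule R (σ → R))
    (hG : ∀ θ, θ ∈ G ↔ ∀ p, S.val p θ ∈ perp (B.T p)) :
    B.lam.chi (piM σ 1) = S.hs B.w G := by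
  rw [Sub.chi_piM]
  refine lsub1_congr B 1 (fun j => {j}) B.w G (fun j => (sum_singleton _ j).symm)
    (fun J hJ => (card_eq_one.1 hJ).imp fun _ h => h.symm) (fun ω hω => ?_) fun η hη => ?_
  · refine (hG _).2 fun p b hb => ?_
    have h1 := congrFun (hω.1 p b hb) ∅
    rwa [lsub1_empty] at h1
  · have h1 : ∀ j, (∑ l, if ({j} : Finset σ) = {l} then η l else 0) = η j := fun j => by
      simp only [singleton_inj, sum_ite_eq, mem_univ, if_true]
    have h2 : ∀ J : Finset σ, J.card ≠ 1 → (∑ l, if J = {l} then η l else 0) = 0 := fun J hJ =>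
      sum_eq_zero fun l _ => if_neg fun h => hJ (by rw [h, card_singleton])
    refine ⟨fun J => ∑ l, if J = {l} then η l else 0, ⟨fun p v hv => funext fun J => ?_, h2⟩,
      funext h1⟩
    by_cases hJ : J = ∅
    · rw [hJ, lsub1_empty]
      simp only [NS0.val_apply, h1]
      exact (hG η).1 hη p v hv
    · refine Deg.iov (k := 0) (fun J' hJ' => ?_) v J fun h => hJ (card_eq_zero.1 h)
      rw [NS0.val_apply, h2 J' hJ', map_zero]

theorem lsub1_HS (S : NS0 M n X R RR) (k : ℕ) :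
    S.hs (fun _ => 0) (S.lamG ⊓ degS (Fin M) R k) = S.HS k := by
  ext m
  have e : (S.lamG ⊓ degS (Fin M) R k).restrictScalars ℂ ⊓ Eg (S.sc fun _ => 0) m = S.Hm k m := by
    ext ω
    rw [Submodule.mem_inf, dat_mem_Eg]
    simp only [Nat.cast_zero, sub_zero]
    exact ⟨fun h => ⟨h.1.1, h.1.2, h.2⟩, fun h => ⟨⟨h.1, h.2.1⟩, h.2.2⟩⟩
  have : FiniteDimensional ℂ ↥(Submodule.pi Set.univ (fun _ => (⊤ : Submodule ℂ R)) ⊓
      Eg (S.sc fun _ : Finset (Fin M) => 0) m) :=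
    ((dat_grd_top S).pi fun _ : Finset (Fin M) => 0).fin m
  have : FiniteDimensional ℂ (S.Hm k m) := by
    rw [← e]
    exact Submodule.finiteDimensional_of_le
      (S₂ := Submodule.pi Set.univ (fun _ => (⊤ : Submodule ℂ R)) ⊓ Eg (S.sc fun _ => 0) m)
      (inf_le_inf_right _ fun _ _ _ _ => Submodule.mem_top)
  rw [lsub1_coeff, e, trOn_one, NS0.HS, coeff_mk]

theorem NS.chi_sub0 (S : NS M n X R RR) (k : ℕ) :
    S.sub0.lam.chi (piM (Fin M) k) = S.HS k := by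
  have h1 : S.sub0.wt = fun _ => 0 := funext fun J => sum_const_zero
  have h2 : S.sub0.lamG = S.lamG := Submodule.ext fun _ => Iff.rfl
  have h3 := S.sub0.chi_piM k
  rw [h1, h2] at h3
  exact h3.trans (lsub1_HS S.toNS0 k)

theorem NS0.hs_HS (S : NS0 M n X R RR) (k : ℕ) :
    S.hs (fun _ => 0) (S.lamG ⊓ degS (Fin M) R k) = S.HS k := lsub1_HS S k

theorem Dat.chi_unit_left {I I' : Type} [Fintype I] [Fintype I'] {E : Dat S I'} {D : Dat S I}
    {T₁ : Matrix I' I' ℂ} {T : Matrix I I ℂ} (h₁ : E.Ok T₁) (h : D.Ok T) :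
    (E.tensor ((Dat.one S).tensor D)).chi (T₁ ⊗ₖ (1 ⊗ₖ T)) = (E.tensor D).chi (T₁ ⊗ₖ T) := by
  refine dat_reindex (h₁.kron h) ((Equiv.refl I').prodCongr (Equiv.punitProd I))
    (fun A => congrArg (E.w A.1 + ·) (zero_add _))
    (fun ω => ⟨fun hω => ⟨fun B => hω.1 ((), B), fun A => (lsub1_unit D _).1 (hω.2 A)⟩,
      fun hω => ⟨fun B => hω.1 B.2, fun A => (lsub1_unit D _).2 (hω.2 A)⟩⟩) fun A B => ?_
  show T₁ A.1 B.1 * ((1 : Matrix Unit Unit ℂ) A.2.1 B.2.1 * T A.2.2 B.2.2) =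
    T₁ A.1 B.1 * T A.2.2 B.2.2
  rw [Subsingleton.elim A.2.1 B.2.1, Matrix.one_apply_eq, one_mul]

end Pool.Agent.HCF
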