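import Pool.Agent.P.MP_f644fa_ag.LX0

/-! The conormal bundle and its exterior powers. -/

noncomputable section
namespace Pool.Agent.HCF
open Finset Module MvPolynomial

variable {M : ℕ} {I : Ideal (SS M)} {c n : ℕ}

theorem lx1_le {σ : Type} [Fintype σ] {K : Submodule ℂ (σ → ℂ)} {s : Set (σ → ℂ)}
    (h : ∀ θ, (∀ b ∈ s, ∑ j, θ j * b j = 0) → θ ∈ K) : perp K ≤ Submodule.span ℂ s :=
  (perp_anti fun θ hθ => h θ (mem_perp_span.1 hθ)).trans (perp_perp _).le

theorem lx1_mem {σ : Type} [Fintype σ] {K : Submodule ℂ (σ → ℂ)} {s : Set (σ → ℂ)}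
    (h : perp K ≤ Submodule.span ℂ s) {θ : σ → ℂ} (hθ : ∀ b ∈ s, ∑ j, θ j * b j = 0) : θ ∈ K :=
  ((perp_anti h).trans (perp_perp _).le) (mem_perp_span.2 hθ)

theorem lx1_comm {σ : Type} [Fintype σ] (a b : σ → ℂ) : ∑ j, a j * b j = ∑ j, b j * a j :=
  sum_congr rfl fun _ _ => mul_comm _ _

theorem lx1_tan {x z v : Fin M → ℂ} (F : PF I c x) (hv : v ∈ tangS I z) :
    eval z F.δ • v = ∑ l, v l • fun j => eval z (F.t j l) := by
  funext j
  rw [Pi.smul_apply, smul_eq_mul, ← F.t_fix hv j, Finset.sum_apply]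
  exact Finset.sum_congr rfl fun l _ => mul_comm _ _

theorem lx1_kill {z v : Fin M → ℂ} (F : PF I c z) (hv : v ∈ tangS I z) (θ : Finset (Fin M) → ℂ)
    (h1 : ∀ l, iov ℂ (fun j => eval z (F.t j l)) θ = 0) : iov ℂ v θ = 0 := by
  have h4 : eval z F.δ • iov ℂ v θ = 0 := by
    rw [← LinearMap.smul_apply, ← iov_smul, lx1_tan F hv, iov_sum, LinearMap.sum_apply]
    exact Finset.sum_eq_zero fun l _ => by rw [iov_smul, LinearMap.smul_apply, h1, smul_zero]
  exact (smul_eq_zero.1 h4).resolve_left F.δ_ne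

theorem lx1_iov (z : Fin M → ℂ) (a : Fin M → SS M) (y : Finset (Fin M) → ℂ) (J : Finset (Fin M)) :
    ∑ K, y K * eval z (iov (SS M) a (Pi.single K 1) J) = iov ℂ (fun j => eval z (a j)) y J := by
  have h1 : ∀ K : Finset (Fin M), eval z (iov (SS M) a (Pi.single K 1) J) =
      iov ℂ (fun j => eval z (a j)) (Pi.single K 1) J := fun K => by
    have h2 := iov_nat (N := SS M) (N' := ℂ) (eval z).toAddMonoidHom (a := a)
      (a' := fun j => eval z (a j)) (fun j v => map_mul (eval z) _ _) (Pi.single K 1)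
    have h3 : (fun J => (eval z).toAddMonoidHom ((Pi.single K 1 : Finset (Fin M) → SS M) J)) =
        Pi.single K 1 := by
      funext L
      by_cases h : L = K <;> simp [h]
    rw [h3] at h2
    exact congrFun h2 J
  have h4 : y = ∑ K, y K • (Pi.single K 1 : Finset (Fin M) → ℂ) := by
    funext L
    simp [Pi.single_apply]
  conv_rhs => rw [h4, map_sum, Finset.sum_apply]
  simp only [h1, map_smul, Pi.smul_apply, smul_eq_mul]

theorem lx1_ex (a : Fin M → SS M) (J : Finset (Fin M)) : ∃ u : FS M → SS M,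
    ∀ (z : Fin M → ℂ) (y : FS M → ℂ), ∑ K, y K * pv z u K = iov ℂ (fun j => eval z (a j)) y J :=
  ⟨fun K : Finset (Fin M) => iov (SS M) a (Pi.single K 1) J, fun z y => lx1_iov z a y J⟩

theorem lx1_single (z : Fin M → ℂ) (y : Finset (Fin M) → ℂ) (J : Finset (Fin M)) :
    ∑ K, y K * eval z ((Pi.single J 1 : Finset (Fin M) → SS M) K) = y J := by
  rw [Finset.sum_eq_single J (fun K _ h => by simp [h]) (by simp)]
  simp

theorem gr_mem_Es {f : SS M} (hf : f ∈ I) (z : Fin M → ℂ) : pv z (gr f) ∈ Es I z :=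
  fun _ hb => (lx1_comm _ _).trans (hb f hf)

theorem IsManifold.Es_le (hX : IsManifold I c) (z : Fin M → ℂ) : Es I z ≤ Submodule.span ℂ
    {v | ∃ (f : SS M) (d : ℕ), f ∈ I ∧ f.IsHomogeneous (d + 1) ∧ v = pv z (gr f)} := by
  refine lx1_le fun θ hθ => basic0_ind hX (by simp) (fun a b ha hb => ?_) fun d g hg hd => ?_
  · simp only [map_add, mul_add, Finset.sum_add_distrib, ha, hb, add_zero]
  · rcases d with _ | d
    · rw [totalDegree_eq_zero_iff_eq_C.1 ((totalDegree_zero_iff_isHomogeneous _).2 hd)]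
      simp
    · exact hθ _ ⟨g, d, hg, hd, rfl⟩

theorem IsManifold.pgen_Es (hX : IsManifold I c) : PGen I (Es I) c := by
  refine ⟨fun z hz v hv => ?_, fun z t ht => by rw [Es, Es, hX.tang_smul z ht], fun z hz => ?_⟩
  · obtain ⟨F⟩ := hX.exists_PF hz
    rw [Es, perp_perp] at hv
    rw [← Submodule.smul_mem_iff _ F.δ_ne, lx1_tan F hv]
    refine Submodule.sum_mem _ fun l _ => Submodule.smul_mem _ _ (Submodule.subset_span
      ⟨fun j => F.t j l, fun z' hz' => ?_, rfl⟩)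
    rw [Es, perp_perp]
    exact F.t_tan hX hz hz' l
  · have h1 := finrank_perp (tangS I z)
    have h2 := hX.finrank_tang hz
    rw [Fintype.card_fin] at h1
    change finrank ℂ (perp (tangS I z)) = c
    omega

theorem IsManifold.pgen_Ep (hX : IsManifold I c) (k : ℕ) : PGen I (Ep I k) (c.choose k) := by
  refine ⟨fun z hz => lx1_le fun θ hθ => ⟨fun J hJ => ?_, fun v hv => ?_⟩,
    fun z t ht => by rw [Ep, Ep, hX.tang_smul z ht],
    fun z hz => finrank_Kf (by rw [Fintype.card_fin]; exact hX.finrank_tang hz) k⟩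
  · refine (lx1_single z θ J).symm.trans (hθ _ ⟨(Pi.single J 1 : Finset (Fin M) → SS M),
      fun z' _ y hy => (lx1_comm _ _).trans ((lx1_single z' y J).trans (hy.1 J hJ)), rfl⟩)
  · obtain ⟨F⟩ := hX.exists_PF hz
    have h1 : ∀ l, iov ℂ (fun j => eval z (F.t j l)) θ = 0 := fun l => funext fun J => by
      obtain ⟨u, hu⟩ := lx1_ex (fun j => F.t j l) J
      rw [← hu z θ]
      refine hθ (pv z u) ⟨u, fun z' hz' y hy => ?_, rfl⟩
      rw [lx1_comm, hu z' y]
      exact congrFun (hy.2 _ (F.t_tan hX hz hz' l)) J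
    exact lx1_kill F hv θ h1

/-- test vectors for the conormal space -/
theorem IsManifold.exists_test (hX : IsManifold I c) {z₀ : Fin M → ℂ} (h : z₀ ∈ cone I) :
    ∃ (b : Fin c → Fin M → SS M) (δ : SS M), eval z₀ δ ≠ 0 ∧ ∀ z ∈ cone I, eval z δ ≠ 0 →
      ∀ ξ ∈ Es I z, (∀ k, ∑ l, eval z (b k l) * ξ l = 0) → ξ = 0 := by
  obtain ⟨F⟩ := hX.exists_PF h
  refine ⟨F.b, F.δ, F.δ_ne, fun z hz hδ ξ hξ h0 => funext fun l => ?_⟩
  have h1 := (lx1_comm _ _).trans (hξ _ (F.t_tan hX h hz l))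
  have h2 : ∀ j, eval z (F.t j l) * ξ j = (if j = l then eval z F.δ * ξ j else 0) -
      ∑ i, eval z (pderiv l (F.f i)) * (eval z (F.b i j) * ξ j) := fun j => by
    rw [F.basic_t, map_sub, map_sum, sub_mul, Finset.sum_mul]
    refine congrArg₂ _ ?_ (sum_congr rfl fun i _ => by rw [map_mul]; ring)
    split_ifs <;> simp
  simp only [h2, Finset.sum_sub_distrib] at h1
  rw [Finset.sum_comm] at h1
  simp only [← Finset.mul_sum, h0, mul_zero, Finset.sum_const_zero, sub_zero, Finset.sum_ite_eq',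
    Finset.mem_univ, if_true] at h1
  exact (mul_eq_zero.1 h1).resolve_left hδ

theorem PGen.pb {σ : Type} [Fintype σ] {Bz : (Fin M → ℂ) → Submodule ℂ (σ → ℂ)} {r : ℕ}
    (h : PGen I Bz r) {x y : Fin M → ℂ} (hl : IsLine I x y) : PB (fun p => Bz (pt x y p)) r := by
  refine ⟨fun p t ht => by rw [pt_smul, h.smul _ t ht], fun p hp => h.rank _ (hl.mem hp),
    fun η p₀ h0 hη => lx1_mem (h.gen _ (hl.mem h0)) ?_⟩
  rintro _ ⟨u, hu, rfl⟩
  have h1 : ∀ p, eval p (∑ j, η j * rl x y (u j)) = ∑ j, pv p η j * pv (pt x y p) u j :=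
    fun p => by simp only [map_sum, map_mul, eval_rl, pv_apply]
  have h2 : ∑ j, η j * rl x y (u j) = 0 := b2_zero_off h0 fun p hp => by
    have hp0 : p ≠ 0 := by
      rintro rfl
      simp [lp] at hp
    rw [h1, lx1_comm]
    exact hu _ (hl.mem hp0) _ (hη p hp)
  rw [← h1, h2, map_zero]

theorem PGen.cSec_gen {σ : Type} [Fintype σ] {Bz : (Fin M → ℂ) → Submodule ℂ (σ → ℂ)} {r : ℕ}
    (h : PGen I Bz r) {x y : Fin M → ℂ} (hl : IsLine I x y) (d : ℕ) :
    perp (cSec (fun p => Bz (pt x y p)) d) ≤ Submodule.span ℂ {v | ∃ u : Fin d ×ₗ σ → SS M,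
      (∀ y', IsLine I x y' → pv y' u ∈ perp (cSec (fun p => Bz (pt x y' p)) d)) ∧ v = pv y u} := by
  refine lx1_le fun θ hθ => mem_cSec.2 fun p hp => lx1_mem (h.gen _ (hl.mem hp)) ?_
  rintro _ ⟨u, hu, rfl⟩
  choose g hg using fun K => exists_subst x p (u K)
  have h1 : ∀ (y' : Fin M → ℂ) (θ' : Fin d ×ₗ σ → ℂ),
      ∑ q, θ' q * pv y' (fun q : Fin d ×ₗ σ => C (p 0 ^ (d - 1 - (ofLex q).1) *
        p 1 ^ ((ofLex q).1 : ℕ)) * g (ofLex q).2) q =
      ∑ K, pv p (toP σ d θ') K * pv (pt x y' p) u K := fun y' θ' => by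
    rw [← Equiv.sum_comp toLex, Fintype.sum_prod_type, Finset.sum_comm]
    refine sum_congr rfl fun K _ => ?_
    rw [eval_toP, Finset.sum_mul]
    refine sum_congr rfl fun i _ => ?_
    rw [pv_apply, pv_apply, map_mul, eval_C, hg, ofLex_toLex]
    ring
  rw [← h1]
  refine hθ _ ⟨_, fun y' hy' θ' hθ' => ?_, rfl⟩
  rw [lx1_comm, h1, lx1_comm]
  exact hu _ (hy'.mem hp) _ (mem_cSec.1 hθ' p hp)

theorem pv_rl {ι : Type} (x y : Fin M → ℂ) (p : Fin 2 → ℂ) (u : ι → SS M) :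
    pv p (fun l => rl x y (u l)) = pv (pt x y p) u := by
  funext l
  rw [pv_apply, pv_apply, eval_rl]

theorem gr_mem_Sec {f : SS M} (hf : f ∈ I) {d : ℕ} (hd : f.IsHomogeneous (d + 1))
    (x y : Fin M → ℂ) : (fun l => rl x y (gr f l)) ∈ Sec (fun p => Es I (pt x y p)) d :=
  ⟨fun _ => rl_hom x y hd.pderiv, fun p _ => by
    rw [pv_rl]
    exact gr_mem_Es hf _⟩

end Pool.Agent.HCF
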