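import Pool.Agent.P.MP_f644fa_ag.LI0
import Pool.Agent.P.MP_f644fa_ag.LX1
import Pool.Agent.P.MP_f644fa_ag.LSub1

/-! The bundles on the manifold and on the family of lines. -/

noncomputable section
namespace Pool.Agent.HCF
open Finset Module MvPolynomial

variable {M : ℕ} {I : Ideal (SS M)} {c n : ℕ}

theorem PGen.exists_sub {σ : Type} [Fintype σ] {Bz : (Fin M → ℂ) → Submodule ℂ (σ → ℂ)} {r : ℕ}
    (h : PGen I Bz r) {O : Subalgebra ℂ (cone I → ℂ)} {RR : Type} [CommRing RR] [Algebra ℂ RR]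
    {S : NS0 M n (cone I) O RR} (hS : Expl I S) :
    ∃ B : Sub S σ, (∀ j, B.w j = 0) ∧ ∀ z, B.T z = perp (Bz z.1) := by
  refine ⟨⟨fun _ => 0, fun z => perp (Bz z.1), fun p v hv => ?_,
    S.loc_of_gen _ (τ := Fintype.card σ - r) (fun p => ?_) fun p => ?_⟩,
    fun _ => rfl, fun _ => rfl⟩
  · rw [hS.dbl, h.smul _ _ two_ne_zero]
    simpa only [pow_zero, one_mul] using hv
  · have h1 := finrank_perp (Bz p.1)
    rw [h.rank _ p.2] at h1
    omega
  · refine (h.gen p.1 p.2).trans (Submodule.span_mono ?_)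
    rintro _ ⟨u, hu, rfl⟩
    refine ⟨fun i => aeval S.x (u i), fun q => ?_, (hS.val_aeval p u).symm⟩
    rw [hS.val_aeval]
    exact hu q.1 q.2

theorem PGen.exists_subP {σ : Type} [Fintype σ] {Bz : (Fin M → ℂ) → Submodule ℂ (σ → ℂ)} {r : ℕ}
    (h : PGen I Bz r) {W : Set (Fin M → ℂ)} {O : Subalgebra ℂ (W → ℂ)} {RR : Type} [CommRing RR]
    [Algebra ℂ RR] {S : NS0 M n W O RR} (hS : Expl I S) {x : Fin M → ℂ}
    (hl : ∀ y ∈ W, IsLine I x y) {d ρ w₀ : ℕ}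
    (hρ : ∀ y ∈ W, finrank ℂ (cSec (fun p => Bz (pt x y p)) d) = ρ) (hw : d ≤ w₀ + 1) :
    ∃ B : Sub S (Fin d ×ₗ σ), (∀ q, B.w q = w₀ - (ofLex q).1) ∧
      ∀ y, B.T y = perp (cSec (fun p => Bz (pt x y.1 p)) d) := by
  refine ⟨⟨fun q => w₀ - (ofLex q).1, fun y => perp (cSec (fun p => Bz (pt x y.1 p)) d),
    fun p v hv => ?_,
    S.loc_of_gen _ (τ := Fintype.card (Fin d ×ₗ σ) - ρ) (fun p => ?_) fun p => ?_⟩,
    fun _ => rfl, fun _ => rfl⟩
  · rw [hS.dbl]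
    intro θ hθ
    have h2 : (2 : ℂ)⁻¹ ≠ 0 := inv_ne_zero two_ne_zero
    have h1 := cSec_scale (B := fun q => Bz (pt x ((2 : ℂ) • p.1) q))
      (B' := fun q => Bz (pt x p.1 q)) h2 (fun q => by
        rw [← pt_smul_right, inv_smul_smul₀ two_ne_zero]) hθ
    have h3 := hv _ h1
    have h4 : ∀ q : Fin d ×ₗ σ, (2 : ℂ) ^ (w₀ - ((ofLex q).1 : ℕ)) * v q * θ q =
        2 ^ w₀ * (v q * ((2 : ℂ)⁻¹ ^ ((ofLex q).1 : ℕ) * θ q)) := fun q => by
      have h5 : ((ofLex q).1 : ℕ) ≤ w₀ := by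
        have := (ofLex q).1.2
        omega
      rw [pow_sub₀ _ two_ne_zero h5, inv_pow]
      ring
    rw [Finset.sum_congr rfl fun q _ => h4 q, ← Finset.mul_sum, h3, mul_zero]
  · have h1 := finrank_perp (cSec (fun q => Bz (pt x p.1 q)) d)
    rw [hρ _ p.2] at h1
    omega
  · refine (h.cSec_gen (hl p.1 p.2) d).trans (Submodule.span_mono ?_)
    rintro _ ⟨u, hu, rfl⟩
    refine ⟨fun i => aeval S.x (u i), fun q => ?_, (hS.val_aeval p u).symm⟩
    rw [hS.val_aeval]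
    exact hu q.1 (hl q.1 q.2)

theorem chi_Ep {O : Subalgebra ℂ (cone I → ℂ)} {RR : Type} [CommRing RR] [Algebra ℂ RR]
    {S : NS0 M n (cone I) O RR} (hS : Expl I S) {k : ℕ} {B : Sub S (FS M)} (hw : ∀ j, B.w j = 0)
    (hT : ∀ z, B.T z = perp (Ep I k z.1)) : B.lam.chi (piM (FS M) 1) = S.HS k := by
  have h1 := B.chi_one (S.lamG ⊓ degS (Fin M) O k) fun θ => by
    simp only [hT, perp_perp]
    constructor
    · rintro ⟨h1, h2⟩ p
      refine ⟨fun J hJ => ?_, fun v hv => h1 p v (by rw [hS.T]; exact hv)⟩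
      have h3 : θ J = 0 := h2 J hJ
      exact (congrArg (S.ev p) h3).trans (map_zero _)
    · intro h
      exact ⟨fun p v hv => (h p).2 v (by rw [← hS.T]; exact hv),
        fun J hJ => S.sep _ fun p => (h p).1 J hJ⟩
  have h2 : B.w = fun _ => 0 := funext hw
  rw [h1, h2]
  exact S.hs_HS k

end Pool.Agent.HCF
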