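import Pool.Agent.P.MP_f644fa_ag.LS0

/-! A line subbundle on a large subvariety has the degree of one of the roots; the Hilbert series. -/

noncomputable section
namespace Pool.Agent.HCF
open Finset Polynomial

theorem ls2_cancel {L : ℕ} {g p : ℂ[X]} (h0 : g.eval 1 ≠ 0) (h : (1 - X) ^ L ∣ p * g) :
    (1 - X) ^ L ∣ p := by
  have h1 : IsCoprime (X - C (1 : ℂ)) g :=
    (irreducible_X_sub_C (1 : ℂ)).coprime_iff_not_dvd.2 fun hd => h0 (dvd_iff_isRoot.1 hd)
  have h2 : IsCoprime (1 - X : ℂ[X]) g := by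
    have := h1.neg_left
    rwa [neg_sub, map_one] at this
  exact h2.pow_left.dvd_of_dvd_mul_right h

/-- the recursion for the generating polynomials -/
theorem ls2_step {A : Type} [CommRing A] (c : ℕ) (v : A) (p q : ℕ → A)
    (h : ∀ k, v * p k = v * q k + q (k + 1)) (h0 : q 0 = 0) (h1 : q (c + 1) = 0) :
    X * C v * ∑ k ∈ range (c + 1), C (p k) * X ^ k =
      (1 + C v * X) * ∑ k ∈ range (c + 1), C (q k) * X ^ k := by
  have e1 : ∑ k ∈ range (c + 1), C (q (k + 1)) * X ^ (k + 1) =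
      ∑ k ∈ range (c + 1), C (q k) * (X : A[X]) ^ k := by
    have e2 := sum_range_succ' (fun k => C (q k) * (X : A[X]) ^ k) (c + 1)
    rw [sum_range_succ, h0, h1] at e2
    simpa using e2.symm
  rw [add_mul, one_mul]
  nth_rewrite 1 [← e1]
  rw [mul_sum, mul_sum, ← sum_add_distrib]
  refine sum_congr rfl fun k _ => ?_
  have e3 : C v * C (p k) = C v * C (q k) + C (q (k + 1)) := by
    rw [← map_mul, h k, map_add, map_mul]
  linear_combination (X * X ^ k) * e3

theorem ls2_core {A : Type} [CommRing A] {c j a : ℕ} (hj : j < c) (β : Fin c → ℕ) (d : ℕ → ℕ)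
    (hd : ∀ i : Fin c, i.val < j → d i = β i) (ha : d j = a) (t u g : A) (htu : t * u = 1)
    (Ψ : ℕ → A[X]) (base : Ψ 0 = C g * ∏ l, (1 + C (t ^ β l) * X))
    (rel : ∀ i < j + 1, X * C (t ^ d i) * Ψ i = (1 + C (t ^ d i) * X) * Ψ (i + 1)) :
    g * ∏ l ∈ univ.filter (fun l : Fin c => j ≤ l.val), (t ^ a - t ^ β l) = 0 := by
  have key : ∀ i ≤ j, ∃ D : ℕ, Ψ i = X ^ i * C (t ^ D) * C g *
      ∏ l ∈ univ.filter (fun l : Fin c => i ≤ l.val), (1 + C (t ^ β l) * X) := by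
    intro i
    induction i with
    | zero => exact fun _ => ⟨0, by simpa using base⟩
    | succ i ih =>
      intro hi
      obtain ⟨D, hD⟩ := ih (by omega)
      have hic : i < c := by omega
      have e1 : univ.filter (fun l : Fin c => i ≤ l.val) =
          insert ⟨i, hic⟩ (univ.filter fun l : Fin c => i + 1 ≤ l.val) := by
        ext l
        simp only [mem_filter, mem_univ, true_and, mem_insert, Fin.ext_iff]
        omega
      have e2 : d i = β ⟨i, hic⟩ := hd ⟨i, hic⟩ (by simpa using hi)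
      have h1 := rel i (by omega)
      rw [hD, e1, prod_insert (by simp), ← e2] at h1
      have hn : (1 + C (t ^ d i) * X : A[X]) ∈ nonZeroDivisors A[X] :=
        mem_nonzeroDivisors_of_coeff_mem 0 (by simp [one_mem])
      refine ⟨D + d i, (mul_cancel_left_mem_nonZeroDivisors hn).1 ?_⟩
      rw [← h1, pow_add t, map_mul]
      ring
  obtain ⟨D, hD⟩ := key j le_rfl
  have h1 := rel j (by omega)
  rw [hD, ha] at h1
  have h2 := congrArg (eval (-u ^ a)) h1
  have hta : t ^ a * u ^ a = 1 := by rw [← mul_pow, htu, one_pow]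
  simp only [eval_mul, eval_add, eval_one, eval_C, eval_X, eval_pow, eval_prod] at h2
  have h3 : (1 + t ^ a * -u ^ a : A) = 0 := by linear_combination -hta
  rw [h3, zero_mul] at h2
  have ht : IsUnit t := IsUnit.of_mul_eq_one u htu
  have hu : IsUnit u := IsUnit.of_mul_eq_one t (by rw [mul_comm, htu])
  have h4 : g * ∏ l ∈ univ.filter (fun l : Fin c => j ≤ l.val), (1 + t ^ β l * -u ^ a) = 0 := by
    have hU : IsUnit (-u ^ a * t ^ a * ((-u ^ a) ^ j * t ^ D)) :=
      ((hu.pow a).neg.mul (ht.pow a)).mul (((hu.pow a).neg.pow j).mul (ht.pow D))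
    refine (hU.mul_right_eq_zero).1 ?_
    linear_combination h2
  have h5 : ∏ l ∈ univ.filter (fun l : Fin c => j ≤ l.val), (t ^ a - t ^ β l) =
      (∏ l ∈ univ.filter (fun l : Fin c => j ≤ l.val), (1 + t ^ β l * -u ^ a)) *
        ∏ _l ∈ univ.filter (fun l : Fin c => j ≤ l.val), t ^ a := by
    rw [← prod_mul_distrib]
    refine prod_congr rfl fun l _ => ?_
    linear_combination (t ^ β l) * hta
  rw [h5, ← mul_assoc, h4, zero_mul]

theorem ls2_geom (a b : ℕ) : (X ^ a - X ^ b : ℂ[X]) =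
    (1 - X) * (∑ i ∈ range b, X ^ i - ∑ i ∈ range a, X ^ i) := by
  rw [mul_sub, mul_neg_geom_sum, mul_neg_geom_sum]
  ring

theorem s2_root {c j γ L a : ℕ} (hj : j < c) (β : Fin c → ℕ) (d : ℕ → ℕ)
    (hd : ∀ i : Fin c, i.val < j → d i = β i) (ha : d j = a) (ψ : ℕ → ℕ → ℂ[X]) (g : ℂ[X])
    (base : ∀ k, (1 - X) ^ L ∣
      ψ 0 k - g * ∑ J ∈ powersetCard k (univ : Finset (Fin c)), X ^ (∑ i ∈ J, β i))
    (rel : ∀ i < j + 1, ∀ k,
      (1 - X) ^ L ∣ X ^ d i * ψ i k - X ^ d i * ψ (i + 1) k - ψ (i + 1) (k + 1))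
    (z0 : ∀ i < j + 1, ψ (i + 1) 0 = 0) (zt : ∀ i k, c < k → ψ i k = 0)
    (hg : ¬ (1 - X) ^ (γ + 1) ∣ g) (hL : γ + c < L) : ∃ i : Fin c, j ≤ i.val ∧ β i = a := by
  by_contra hne
  have hne' : ∀ i : Fin c, j ≤ i.val → β i ≠ a := fun i hi e => hne ⟨i, hi, e⟩
  obtain ⟨I, hI⟩ : ∃ I : Ideal ℂ[X], I = Ideal.span {(1 - X) ^ L} := ⟨_, rfl⟩
  have hz : ∀ p : ℂ[X], Ideal.Quotient.mk I p = 0 ↔ (1 - X) ^ L ∣ p := fun p => by
    rw [Ideal.Quotient.eq_zero_iff_mem, hI, Ideal.mem_span_singleton]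
  have hc : IsCoprime ((1 - X : ℂ[X]) ^ L) X :=
    (show IsCoprime (1 - X : ℂ[X]) X from ⟨1, 1, by ring⟩).pow_left
  obtain ⟨r, u, hu⟩ := hc
  have htu : Ideal.Quotient.mk I X * Ideal.Quotient.mk I u = 1 := by
    have h1 := congrArg (Ideal.Quotient.mk I) hu
    rw [map_add, map_mul, (hz _).2 dvd_rfl, mul_zero, zero_add, map_mul, map_one] at h1
    rw [mul_comm, h1]
  have key := ls2_core hj β d hd ha _ _ (Ideal.Quotient.mk I g) htu
    (fun i => ∑ k ∈ range (c + 1), C (Ideal.Quotient.mk I (ψ i k)) * X ^ k) ?_ ?_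
  · have h1 : (1 - X) ^ L ∣
        g * ∏ l ∈ univ.filter (fun l : Fin c => j ≤ l.val), (X ^ a - X ^ β l) := by
      rw [← hz, ← key]
      simp only [map_mul, map_prod, map_sub, map_pow]
    simp only [ls2_geom, prod_mul_distrib, prod_const] at h1
    rw [← mul_assoc] at h1
    have h2 := ls2_cancel (by
      rw [eval_prod]
      refine prod_ne_zero_iff.2 fun l hl => ?_
      have h3 : (β l : ℂ) ≠ a := by exact_mod_cast hne' l (mem_filter.1 hl).2
      simpa [eval_finsetSum, sub_eq_zero] using h3) h1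
    have h4 : (univ.filter fun l : Fin c => j ≤ l.val).card ≤ c :=
      (card_le_univ _).trans (by simp)
    have hX : (1 - X : ℂ[X]) ≠ 0 := fun e => by
      have := congrArg (eval 0) e
      simp at this
    refine hg ((mul_dvd_mul_iff_right (pow_ne_zero
      (univ.filter fun l : Fin c => j ≤ l.val).card hX)).1 (dvd_trans ?_ h2))
    rw [← pow_add]
    exact pow_dvd_pow _ (by omega)
  · rw [← sum_esymm, mul_sum]
    refine sum_congr rfl fun k _ => ?_
    have h1 := (hz _).2 (base k)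
    rw [map_sub, sub_eq_zero] at h1
    rw [h1]
    simp only [map_mul, map_sum, map_pow, prod_pow_eq_pow_sum, mul_assoc]
  · intro i hi
    refine ls2_step c _ (fun k => Ideal.Quotient.mk I (ψ i k))
      (fun k => Ideal.Quotient.mk I (ψ (i + 1) k)) (fun k => ?_) ?_ ?_
    · have h1 := (hz _).2 (rel i hi k)
      simp only [map_sub, map_mul, map_pow] at h1
      linear_combination h1
    · simp only [z0 i hi, map_zero]
    · simp only [zt (i + 1) (c + 1) (Nat.lt_succ_self c), map_zero]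

theorem s3_series {c s L : ℕ} (β : Fin c → ℕ) (hβ : ∑ j, β j ≤ s) (g : ℕ → ℂ[X])
    (hd : (g 0).natDegree ≤ s) (h0 : (g 0).eval 1 ≠ 0) (hL : s + c < L)
    (h1 : ∀ k, (1 - X) ^ L ∣
      g k - g 0 * ∑ J ∈ powersetCard k (univ : Finset (Fin c)), X ^ (∑ j ∈ J, β j))
    (N2 : (1 - X) ^ L ∣ g 0 ^ 2 * (1 - X) ^ c - ∑ k ∈ range (c + 1), (-X) ^ k * g k) :
    g 0 * (1 - X) ^ c = ∏ j, (1 - X ^ (β j + 1)) := by
  have e1 : ∏ j, (1 - X ^ (β j + 1) : ℂ[X]) = ∑ k ∈ range (c + 1),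
      (∑ J ∈ powersetCard k (univ : Finset (Fin c)), X ^ (∑ j ∈ J, β j)) * (-X) ^ k := by
    have e2 := sum_esymm (fun j => (X : ℂ[X]) ^ β j) (-X)
    simp only [prod_pow_eq_pow_sum] at e2
    rw [e2]
    refine prod_congr rfl fun j _ => ?_
    ring
  have h2 : (1 - X) ^ L ∣ ∑ k ∈ range (c + 1), (-X) ^ k * g k -
      g 0 * ∏ j, (1 - X ^ (β j + 1)) := by
    rw [e1, mul_sum, ← sum_sub_distrib]
    refine dvd_sum fun k _ => ?_
    have h3 := (h1 k).mul_left ((-X) ^ k)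
    refine h3.trans (dvd_of_eq ?_)
    ring
  have h3 : (1 - X) ^ L ∣ (g 0 * (1 - X) ^ c - ∏ j, (1 - X ^ (β j + 1))) * g 0 := by
    refine (N2.add h2).trans (dvd_of_eq ?_)
    ring
  have h4 := ls2_cancel h0 h3
  have hX : (1 - X : ℂ[X]).natDegree = 1 := by
    rw [← natDegree_neg, neg_sub, ← C_1, natDegree_X_sub_C]
  rw [← sub_eq_zero]
  refine eq_zero_of_dvd_of_natDegree_lt h4 ?_
  rw [natDegree_pow, hX, mul_one]
  refine lt_of_le_of_lt ((natDegree_sub_le _ _).trans (max_le ?_ ?_)) hL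
  · refine natDegree_mul_le.trans (add_le_add hd ?_)
    rw [natDegree_pow, hX, mul_one]
  · refine (natDegree_prod_le _ _).trans ?_
    have h5 : ∀ j, (1 - X ^ (β j + 1) : ℂ[X]).natDegree ≤ β j + 1 := fun j =>
      (natDegree_sub_le _ _).trans (by simp)
    refine (sum_le_sum fun j _ => h5 j).trans ?_
    rw [sum_add_distrib]
    simpa using hβ

theorem dvd_cancel {L : ℕ} {g p : ℂ[X]} (h0 : g.eval 1 ≠ 0) (h : (1 - X) ^ L ∣ p * g) :
    (1 - X) ^ L ∣ p := ls2_cancel h0 h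

end Pool.Agent.HCF
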