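import Pool.Agent.P.MP_f644fa_ag.B2A

open MvPolynomial Finset Module

namespace Pool.Agent.HCF

lemma b2_P_eq {M c : ℕ} (a : Fin c → ℕ) (r : ℕ → ℕ)
    (hH : (1 - PowerSeries.X) ^ M * PowerSeries.mk (fun m => (r m : ℂ)) =
      ∏ j, (1 - PowerSeries.X ^ a j)) (m : ℕ) : b2P M a univ m = r m := by
  have h1 : PowerSeries.mk (fun m => (r m : ℂ)) = (∏ j, (1 - PowerSeries.X ^ a j)) *
      PowerSeries.mk (fun m => (finrank ℂ (homogeneousSubmodule (Fin M) ℂ m) : ℂ)) := by
    rw [← hH, mul_right_comm, b2_hilb, one_mul]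
  have h2 : PowerSeries.map (Int.castRingHom ℂ) ((∏ j, (1 - PowerSeries.X ^ a j)) *
      PowerSeries.mk (fun m => (finrank ℂ (homogeneousSubmodule (Fin M) ℂ m) : ℤ))) =
      (∏ j, (1 - PowerSeries.X ^ a j)) *
      PowerSeries.mk (fun m => (finrank ℂ (homogeneousSubmodule (Fin M) ℂ m) : ℂ)) := by
    rw [map_mul, map_prod]
    congr 1
    simp
  have h3 := congrArg (PowerSeries.coeff m) (h2.trans h1.symm)
  rw [PowerSeries.coeff_map, PowerSeries.coeff_mk] at h3
  have h4 : ((b2P M a univ m : ℤ) : ℂ) = ((r m : ℤ) : ℂ) := by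
    rw [b2P]; simpa using h3
  exact_mod_cast h4

/-- Step B2: the ideal is generated by `c` forms. -/
theorem b2_main {M c : ℕ} {A : Type*} [CommRing A] [Algebra ℂ A] (𝒜 : ℕ → Submodule ℂ A)
    [∀ m, FiniteDimensional ℂ (𝒜 m)] (φ : MvPolynomial (Fin M) ℂ →ₐ[ℂ] A)
    (hφ : ∀ m f, MvPolynomial.IsHomogeneous f m → φ f ∈ 𝒜 m)
    (hI : ∀ f, φ f = 0 → ∀ m, φ (homogeneousComponent m f) = 0)
    (b : Fin c → ℕ) (τ : Fin c → Fin M → A)
    (hτ : ∀ m f, MvPolynomial.IsHomogeneous f (m + 1) → φ f = 0 → ∃ a : Fin c → A,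
      (∀ j, (b j ≤ m → a j ∈ 𝒜 (m - b j)) ∧ (m < b j → a j = 0)) ∧
        ∀ i, φ (pderiv i f) = ∑ j, a j * τ j i)
    (hH : (1 - PowerSeries.X) ^ M * PowerSeries.mk (fun m => (finrank ℂ (𝒜 m) : ℂ)) =
      ∏ j, (1 - PowerSeries.X ^ (b j + 1))) :
    ∃ f : Fin c → MvPolynomial (Fin M) ℂ, (∀ j, (f j).IsHomogeneous (b j + 1)) ∧
      RingHom.ker φ = Ideal.span (Set.range f) := by
  classical
  set α : Fin c → ℕ := fun j => b j + 1 with hα
  have hα0 : ∀ j, α j ≠ 0 := fun j => Nat.succ_ne_zero _
  have hP := b2_P_eq α (fun m => finrank ℂ (𝒜 m)) hH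
  let E : Fin c → Prop := fun j => ∃ g : MvPolynomial (Fin M) ℂ,
    g.IsHomogeneous (α j) ∧ φ g = 0 ∧ ∀ i, φ (pderiv i g) = τ j i
  let f : Fin c → MvPolynomial (Fin M) ℂ := fun j => if h : E j then h.choose else 0
  have hfE : ∀ j, E j → ∀ i, φ (pderiv i (f j)) = τ j i := by
    intro j h
    simp only [f, dif_pos h]
    exact h.choose_spec.2.2
  have hfh : ∀ j, (f j).IsHomogeneous (α j) := by
    intro j
    by_cases h : E j
    · simp only [f, dif_pos h]; exact h.choose_spec.1
    · simp only [f, dif_neg h]; exact isHomogeneous_zero _ _ _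
  have hf0 : ∀ j, φ (f j) = 0 := by
    intro j
    by_cases h : E j
    · simp only [f, dif_pos h]; exact h.choose_spec.2.1
    · simp only [f, dif_neg h]; exact map_zero _
  have hfn : ∀ j, ¬ E j → f j = 0 := fun j h => by simp only [f, dif_neg h]
  let I : ℕ → Submodule ℂ (MvPolynomial (Fin M) ℂ) := fun m =>
    homogeneousSubmodule (Fin M) ℂ m ⊓ LinearMap.ker φ.toLinearMap
  let R : ℕ → Submodule ℂ A := fun m => (homogeneousSubmodule (Fin M) ℂ m).map φ.toLinearMap
  have hRA : ∀ m, R m ≤ 𝒜 m := by
    rintro m _ ⟨g, hg, rfl⟩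
    exact hφ m g hg
  have finI : ∀ m, FiniteDimensional ℂ (I m) := fun m =>
    Submodule.finiteDimensional_of_le inf_le_left
  have finV : ∀ m, FiniteDimensional ℂ (b2V f α univ m) := fun m =>
    Submodule.finiteDimensional_of_le (b2V_le hfh univ m)
  have hdim : ∀ m, finrank ℂ (R m) + finrank ℂ (I m) =
      finrank ℂ (homogeneousSubmodule (Fin M) ℂ m) := by
    intro m
    have h1 := LinearMap.finrank_range_add_finrank_ker
      (φ.toLinearMap ∘ₗ (homogeneousSubmodule (Fin M) ℂ m).subtype)
    rw [LinearMap.range_comp, Submodule.range_subtype, LinearMap.ker_comp,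
      ← Submodule.finrank_map_subtype_eq, Submodule.map_comap_subtype] at h1
    exact h1
  have hVI : ∀ m, b2V f α univ m ≤ I m := fun m g hg =>
    ⟨b2V_le hfh univ m hg, b2V_ideal (I := RingHom.ker φ) hf0 hg⟩
  have main : ∀ m, I m = b2V f α univ m ∧ R m = 𝒜 m ∧ ∀ j, α j = m → E j := by
    intro m
    induction m using Nat.strong_induction_on with
    | _ m ih =>
    have hcnt := b2_count hα0 hfh univ m (by
      intro m' hm'
      rw [hP, ← (ih m' hm').1, ← (ih m' hm').2.1, ← hdim]
      push_cast; ring)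
    rw [hP, ← hdim] at hcnt
    have hle := Submodule.finrank_mono (hRA m)
    rcases Nat.eq_zero_or_pos m with rfl | hm
    · have h1 : finrank ℂ (𝒜 0) = 1 := by
        have := hP 0
        simp only [b2P, PowerSeries.coeff_zero_eq_constantCoeff, map_mul, map_prod, map_sub,
          map_one, map_pow, PowerSeries.constantCoeff_X, PowerSeries.constantCoeff_mk, b2_rank,
          zero_pow (hα0 _)] at this
        simp at this
        exact_mod_cast this.symm
      have hnt : (1 : A) ≠ 0 := by
        intro h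
        have : Subsingleton A := subsingleton_of_zero_eq_one h.symm
        rw [finrank_zero_of_subsingleton] at h1
        exact zero_ne_one h1
      have hI0 : I 0 = ⊥ := by
        rw [eq_bot_iff]
        rintro g ⟨h2, h3⟩
        have h4 : g = C (coeff 0 g) := by
          rw [← homogeneousComponent_zero, homogeneousComponent_eq_self h2]
        have h5 : φ g = 0 := h3
        rw [h4, algHom_C, Algebra.algebraMap_eq_smul_one] at h5
        have h6 : coeff 0 g = 0 := by
          by_contra hne
          apply hnt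
          have := congrArg (fun x => (coeff 0 g)⁻¹ • x) h5
          simpa [smul_smul, inv_mul_cancel₀ hne] using this
        rw [h4, h6]; simp
      refine ⟨by rw [hI0, b2V_zero hα0], ?_, fun j hj => absurd hj (hα0 j)⟩
      apply Submodule.eq_of_le_of_finrank_le (hRA 0)
      have := hdim 0
      rw [hI0, b2_rank] at this
      simp at this
      omega
    obtain ⟨k, rfl⟩ : ∃ k, m = k + 1 := ⟨m - 1, by omega⟩
    set E' : Finset (Fin c) := {j | ¬ E j ∧ α j = k + 1} with hE'
    have hE'le : #E' ≤ #{j ∈ (univ : Finset (Fin c)) | f j = 0 ∧ α j = k + 1} := by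
      apply card_le_card
      intro j hj
      simp only [hE', mem_filter, mem_univ, true_and] at hj ⊢
      exact ⟨hfn j hj.1, hj.2⟩
    -- reduction modulo the known generators
    have red : ∀ g ∈ I (k + 1), ∃ v ∈ b2V f α univ (k + 1), ∃ r : Fin c → ℂ,
        ∀ i, φ (pderiv i (g - v)) = ∑ j ∈ E', r j • τ j i := by
      rintro g ⟨hg, hg0⟩
      obtain ⟨a, ha, hsum⟩ := hτ k g hg hg0
      have hl : ∀ j, ∃ u : MvPolynomial (Fin M) ℂ, φ u = a j ∧
          (b j ≤ k → u.IsHomogeneous (k - b j)) ∧ (k < b j → u = 0) := by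
        intro j
        by_cases hj : b j ≤ k
        · have := (ha j).1 hj
          rw [← (ih (k - b j) (by omega)).2.1] at this
          obtain ⟨u, hu, hu'⟩ := this
          exact ⟨u, hu', fun _ => hu, fun h => by omega⟩
        · exact ⟨0, by rw [map_zero, (ha j).2 (by omega)], fun h => absurd h hj, fun _ => rfl⟩
      choose u hu using hl
      refine ⟨∑ j, f j * u j, ?_, fun j => coeff 0 (u j), ?_⟩
      · apply Submodule.sum_mem
        intro j _
        by_cases hj : b j ≤ k
        · exact Submodule.subset_span ⟨j, mem_univ _, k - b j, u j, by simp only [hα]; omega,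
            (hu j).2.1 hj, rfl⟩
        · rw [(hu j).2.2 (by omega), mul_zero]; exact zero_mem _
      · intro i
        rw [map_sub, map_sub, hsum, map_sum, map_sum, ← sum_sub_distrib, hE', sum_filter]
        apply Finset.sum_congr rfl
        intro j _
        rw [Derivation.leibniz, smul_eq_mul, smul_eq_mul, map_add, map_mul, map_mul, hf0, zero_mul,
          zero_add, (hu j).1]
        by_cases hj : E j
        · rw [hfE j hj, if_neg (by simp [hj]), sub_self]
        · rw [hfn j hj]
          simp only [map_zero, mul_zero, sub_zero]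
          split_ifs with h
          · have hb : b j = k := by have := h.2; simp only [hα] at this; omega
            have h2 := (hu j).2.1 hb.le
            rw [hb, Nat.sub_self] at h2
            have h4 : u j = C (coeff 0 (u j)) := by
              rw [← homogeneousComponent_zero, homogeneousComponent_eq_self h2]
            rw [← (hu j).1]
            conv_lhs => rw [h4]
            rw [algHom_C, Algebra.smul_def]
          · by_cases hb : b j ≤ k
            · exfalso
              rcases hb.lt_or_eq with hb | hb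
              · exact hj ((ih (α j) (by simp only [hα]; omega)).2.2 j rfl)
              · exact h ⟨hj, by simp only [hα]; omega⟩
            · rw [(ha j).2 (by omega), zero_mul]
    have euler : ∀ g ∈ I (k + 1), (∀ i, φ (pderiv i g) = 0) → g ∈ b2V f α univ (k + 1) := by
      rintro g ⟨hg, _⟩ hd
      have hg' : g.IsHomogeneous (k + 1) := hg
      have h1 := hg'.sum_X_mul_pderiv
      have h2 : ∑ i, X i * pderiv i g ∈ b2V f α univ (k + 1) := by
        apply Submodule.sum_mem
        intro i _
        rw [add_comm]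
        apply b2V_mul (isHomogeneous_X ℂ i)
        rw [← (ih k (by omega)).1]
        exact ⟨hg'.pderiv, hd i⟩
      rw [h1, ← Nat.cast_smul_eq_nsmul ℂ] at h2
      exact (Submodule.smul_mem_iff _ (by exact_mod_cast Nat.succ_ne_zero k)).1 h2
    let D : MvPolynomial (Fin M) ℂ →ₗ[ℂ] (Fin M → A) :=
      LinearMap.pi fun i => φ.toLinearMap ∘ₗ (pderiv i).toLinearMap
    have hD : ∀ g i, D g i = φ (pderiv i g) := fun g i => rfl
    let T : Submodule ℂ (Fin M → A) := Submodule.span ℂ (E'.image τ : Set (Fin M → A))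
    have hT : finrank ℂ T ≤ #E' := (finrank_span_finset_le_card _).trans card_image_le
    have finT : FiniteDimensional ℂ T := FiniteDimensional.span_finset ℂ _
    let I' : Submodule ℂ (MvPolynomial (Fin M) ℂ) := I (k + 1) ⊓ T.comap D
    have finI' : FiniteDimensional ℂ I' := Submodule.finiteDimensional_of_le inf_le_left
    let K : Submodule ℂ (MvPolynomial (Fin M) ℂ) := I' ⊓ LinearMap.ker D
    have hIsup : I (k + 1) ≤ b2V f α univ (k + 1) ⊔ I' := by
      intro g hg
      obtain ⟨v, hv, r, hr⟩ := red g hg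
      rw [Submodule.mem_sup]
      refine ⟨v, hv, g - v, ⟨sub_mem hg (hVI _ hv), ?_⟩, by ring⟩
      have : D (g - v) = ∑ j ∈ E', r j • τ j := by
        funext i
        rw [hD, hr, Finset.sum_apply]
        rfl
      simp only [SetLike.mem_coe, Submodule.mem_comap, this]
      apply Submodule.sum_mem
      intro j hj
      exact Submodule.smul_mem _ _ (Submodule.subset_span (by simpa using ⟨j, hj, rfl⟩))
    have hK : K ≤ b2V f α univ (k + 1) ⊓ I' := by
      rintro g ⟨hg, hg0⟩
      exact ⟨euler g hg.1 (fun i => by rw [← hD, (hg0 : D g = 0)]; rfl), hg⟩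
    have d1 := Submodule.finrank_mono hIsup
    have d2 := Submodule.finrank_sup_add_finrank_inf_eq (b2V f α univ (k + 1)) I'
    have d3 := Submodule.finrank_mono hK
    have d4 := LinearMap.finrank_range_add_finrank_ker (D ∘ₗ I'.subtype)
    rw [LinearMap.range_comp, Submodule.range_subtype, LinearMap.ker_comp,
      ← Submodule.finrank_map_subtype_eq, Submodule.map_comap_subtype] at d4
    have hmap : I'.map D ≤ T := by
      rintro _ ⟨g, hg, rfl⟩
      exact hg.2
    have d5 := Submodule.finrank_mono hmap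
    have d6 : finrank ℂ K = finrank ℂ (I' ⊓ LinearMap.ker D : Submodule ℂ _) := rfl
    push_cast at hcnt
    have hfull : I'.map D = T := Submodule.eq_of_le_of_finrank_le hmap (by omega)
    have hE0 : E' = ∅ := by
      rw [eq_empty_iff_forall_notMem]
      intro j hj
      have h1 : τ j ∈ I'.map D := by
        rw [hfull]
        exact Submodule.subset_span (by simpa using ⟨j, hj, rfl⟩)
      obtain ⟨g, hg, hg'⟩ := h1
      simp only [hE', mem_filter, mem_univ, true_and] at hj
      exact hj.1 ⟨g, by rw [hj.2]; exact hg.1.1, hg.1.2, fun i => by rw [← hD, hg']⟩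
    have hT0 : finrank ℂ T = 0 := by rw [hE0] at hT; simpa using hT
    refine ⟨(Submodule.eq_of_le_of_finrank_le (hVI _) (by omega)).symm,
      Submodule.eq_of_le_of_finrank_le (hRA _) (by omega), ?_⟩
    intro j hj
    by_contra hn
    have : j ∈ E' := by simp only [hE', mem_filter, mem_univ, true_and]; exact ⟨hn, hj⟩
    rw [hE0] at this
    simp at this
  refine ⟨f, hfh, le_antisymm ?_ ?_⟩
  · intro g hg
    rw [← sum_homogeneousComponent g]
    apply Ideal.sum_mem
    intro m _
    apply b2V_ideal (f := f) (a := α) (s := univ) (m := m)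
      (fun j => Ideal.subset_span (Set.mem_range_self j))
    rw [← (main m).1]
    exact ⟨homogeneousComponent_mem m g, hI g hg m⟩
  · rw [Ideal.span_le]
    rintro _ ⟨j, rfl⟩
    exact hf0 j

end Pool.Agent.HCF
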