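import Pool.Agent.P.MP_f644fa_ag.ToSec
import Pool.Agent.P.MP_f644fa_ag.B2B

/-! Generators of the ideal (step B2). -/

noncomputable section
namespace Pool.Agent.HCF
open MvPolynomial Module Set

variable {M : ℕ} {I : Ideal (SS M)} {c n : ℕ}

theorem dP_mem {f : SS M} (hf : f ∈ I) {m : ℕ} (hm : f.IsHomogeneous (m + 1)) :
    (fun j => toSec I (pderiv j f)) ∈ Vm (Gr (secRing I)) (Tg (secRing I)) m := by
  refine ⟨fun v hv => ?_, fun j => ?_⟩
  · apply Subtype.ext
    funext x
    have h := hv x f hf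
    simp only [AddSubmonoidClass.coe_finsetSum, MulMemClass.coe_mul, Finset.sum_apply,
      Pi.mul_apply, toSec_val, pf_apply, ZeroMemClass.coe_zero, Pi.zero_apply]
    exact h
  · exact isHom_pf (hm.pderiv (i := j))

theorem generators (hX : IsManifold I c) (hG : GR (Gr (secRing I))) (β : Fin c → ℕ)
    (τ : Fin c → Fin M → secRing I)
    (hs : ∀ d, ∀ τ' ∈ Vm (Gr (secRing I)) (Tg (secRing I)) d, ∃ a : Fin c → secRing I,
      (∀ i, a i ∈ Gr (secRing I) (d - β i)) ∧ τ' = ∑ i, a i • τ i)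
    (hH : (1 - PowerSeries.X) ^ M *
      PowerSeries.mk (fun m : ℕ => (finrank ℂ (Gr (secRing I) m) : ℂ)) =
        ∏ i, (1 - PowerSeries.X ^ (β i + 1))) :
    ∃ f : Fin c → SS M, (∀ i, (f i).IsHomogeneous (β i + 1)) ∧ I = Ideal.span (range f) := by
  have : ∀ m : ℕ, FiniteDimensional ℂ (Gr (secRing I) m) := fun m => hG.fin m
  obtain ⟨f, h1, h2⟩ := b2_main (fun m : ℕ => Gr (secRing I) m) (toSec I)
    (fun m f hf => isHom_pf hf)
    (fun f hf m => (toSec_eq_zero hX).2 (hX.homog f ((toSec_eq_zero hX).1 hf) m)) β τ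
    (fun m f hf h0 => by
      obtain ⟨a, ha, e⟩ := hs m _ (dP_mem ((toSec_eq_zero hX).1 h0) hf)
      refine ⟨a, fun j => ⟨fun h => ?_, fun h => ?_⟩, fun i => ?_⟩
      · have := ha j
        rwa [← Nat.cast_sub h] at this
      · have := ha j
        rw [hG.neg _ (by omega)] at this
        exact this
      · have := congrFun e i
        simpa [Finset.sum_apply] using this) hH
  refine ⟨f, h1, ?_⟩
  rw [← h2]
  ext g
  rw [RingHom.mem_ker]
  exact (toSec_eq_zero hX).symm

end Pool.Agent.HCF
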