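import Pool.Agent.P.MP_f644fa_ag.C9a

/-! The concrete model. -/

noncomputable section
namespace Pool.Agent.HCF
open Finset Module Matrix
open scoped Kronecker

variable {𝒜 : Type} [CommRing 𝒜] [Algebra ℂ 𝒜] [StarRing 𝒜] [StarModule ℂ 𝒜] {M n : ℕ}
  {ι : Type} [Fintype ι] [DecidableEq ι]

/-- the matrix of exterior multiplication -/
def c9E (𝒜 : Type) [CommRing 𝒜] {M : ℕ} (j : Fin M) :
    Matrix (Finset (Fin M)) (Finset (Fin M)) 𝒜 :=
  Matrix.of fun J J' => if j ∈ J ∧ J' = J.erase j then ((sg j J : ℤ) : 𝒜) else 0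

theorem c9E_mulVec {𝒜 : Type} [CommRing 𝒜] {M : ℕ} (j : Fin M) (y : Finset (Fin M) → 𝒜) :
    c9E 𝒜 j *ᵥ y = ep 𝒜 𝒜 j y := by
  funext J
  by_cases h : j ∈ J <;> simp [c9E, mulVec, dotProduct, ep_apply, h]

theorem c9E_star {𝒜 : Type} [CommRing 𝒜] [StarRing 𝒜] {M : ℕ} (j : Fin M)
    (y : Finset (Fin M) → 𝒜) : (c9E 𝒜 j)ᴴ *ᵥ y = io 𝒜 𝒜 j y := by
  funext J
  rw [io_apply]
  simp only [c9E, mulVec, dotProduct, conjTranspose_apply, of_apply]
  split_ifs with h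
  · refine Finset.sum_eq_zero fun J' _ => ?_
    rw [if_neg, star_zero, zero_mul]
    rintro ⟨-, rfl⟩
    exact Finset.notMem_erase _ _ h
  · rw [Finset.sum_eq_single (insert j J)]
    · rw [if_pos ⟨mem_insert_self _ _, (erase_insert h).symm⟩, sg_insert_self]
      simp
    · intro J' _ hJ'
      rw [if_neg, star_zero, zero_mul]
      rintro ⟨h1, rfl⟩
      exact hJ' (insert_erase h1).symm
    · simp

theorem c9_ext {𝒜 : Type} [CommRing 𝒜] {κ : Type} [Fintype κ] [DecidableEq κ]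
    {A B : Matrix κ κ 𝒜} (h : ∀ y, A *ᵥ y = B *ᵥ y) : A = B :=
  Matrix.toLin'.injective (LinearMap.ext fun y => by simpa using h y)

theorem c9_kr1 {𝒜 : Type} [CommRing 𝒜] {κ κ' : Type} [Fintype κ] [Fintype κ'] [DecidableEq κ']
    (A : Matrix κ κ 𝒜) (y : κ × κ' → 𝒜) (q : κ × κ') :
    ((A ⊗ₖ (1 : Matrix κ' κ' 𝒜)) *ᵥ y) q = (A *ᵥ fun a => y (a, q.2)) q.1 := by
  obtain ⟨a, b⟩ := q
  simp [mulVec, dotProduct, Fintype.sum_prod_type, one_apply]

theorem c9_kr2 {𝒜 : Type} [CommRing 𝒜] {κ κ' : Type} [Fintype κ] [Fintype κ'] [DecidableEq κ]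
    (A : Matrix κ' κ' 𝒜) (y : κ × κ' → 𝒜) (q : κ × κ') :
    (((1 : Matrix κ κ 𝒜) ⊗ₖ A) *ᵥ y) q = (A *ᵥ fun b => y (q.1, b)) q.2 := by
  obtain ⟨a, b⟩ := q
  simp [mulVec, dotProduct, Fintype.sum_prod_type, one_apply]

/-- the concrete model of the anticommutation relations -/
theorem exists_car (M : ℕ) (𝒜 : Type) [CommRing 𝒜] [Algebra ℂ 𝒜] [StarRing 𝒜] :
    ∃ G : Car M (Finset (Fin M)) 𝒜, (∀ j y, G.e j *ᵥ y = ep 𝒜 𝒜 j y) ∧
      ∀ j y, G.i j *ᵥ y = io 𝒜 𝒜 j y := by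
  refine ⟨⟨c9E 𝒜, fun δ j => ?_, fun j k => c9_ext fun y => ?_, fun j k => c9_ext fun y => ?_⟩,
    c9E_mulVec, c9E_star⟩
  · ext J J'
    simp only [c9E, map_apply, of_apply, Matrix.zero_apply]
    split_ifs
    · exact δ.map_intCast _
    · exact map_zero δ
  · simp only [add_mulVec, ← mulVec_mulVec, c9E_mulVec, zero_mulVec]
    exact LinearMap.congr_fun (ep_ep (R := 𝒜) (N := 𝒜) j k) y
  · simp only [add_mulVec, ← mulVec_mulVec, c9E_mulVec, c9E_star]
    refine (LinearMap.congr_fun (io_ep (R := 𝒜) (N := 𝒜) j k) y).trans ?_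
    split_ifs <;> simp

theorem exists_car2 (M : ℕ) (𝒜 : Type) [CommRing 𝒜] [Algebra ℂ 𝒜] [StarRing 𝒜] :
    ∃ Φ : Car2 M (Finset (Fin M) × Finset (Fin M)) 𝒜,
      (∀ j y q, (Φ.F.i j *ᵥ y) q = io 𝒜 𝒜 j (fun A => y (A, q.2)) q.1) ∧
      (∀ j y q, (Φ.G.e j *ᵥ y) q = ep 𝒜 𝒜 j (fun B => y (q.1, B)) q.2) ∧
      ∀ j y q, (Φ.G.i j *ᵥ y) q = io 𝒜 𝒜 j (fun B => y (q.1, B)) q.2 := by
  obtain ⟨G, he, hi⟩ := exists_car M 𝒜
  have hc : ∀ (δ : Derivation ℂ 𝒜 𝒜) j a b, δ (G.e j a b) = 0 := fun δ j a b =>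
    congrFun (congrFun (G.const δ j) a) b
  refine ⟨⟨⟨fun j => G.e j ⊗ₖ 1, fun δ j => ?_, fun j k => ?_, fun j k => ?_⟩,
    ⟨fun j => 1 ⊗ₖ G.e j, fun δ j => ?_, fun j k => ?_, fun j k => ?_⟩, fun j k => ?_,
    fun j k => ?_⟩, fun j y q => ?_, fun j y q => ?_, fun j y q => ?_⟩
  · ext ⟨a, b⟩ ⟨a', b'⟩
    simp only [map_apply, kroneckerMap_apply, one_apply, Matrix.zero_apply]
    split_ifs <;> simp [hc]
  · rw [← mul_kronecker_mul, ← mul_kronecker_mul, ← add_kronecker, G.ee, zero_kronecker]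
  · rw [conjTranspose_kronecker, conjTranspose_one, ← mul_kronecker_mul, ← mul_kronecker_mul,
      ← add_kronecker, G.ie, mul_one]
    split_ifs <;> simp
  · ext ⟨a, b⟩ ⟨a', b'⟩
    simp only [map_apply, kroneckerMap_apply, one_apply, Matrix.zero_apply]
    split_ifs <;> simp [hc]
  · rw [← mul_kronecker_mul, ← mul_kronecker_mul, ← kronecker_add, G.ee, kronecker_zero]
  · rw [conjTranspose_kronecker, conjTranspose_one, ← mul_kronecker_mul, ← mul_kronecker_mul,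
      ← kronecker_add, G.ie, mul_one]
    split_ifs <;> simp
  · simp only [← mul_kronecker_mul, mul_one, one_mul]
  · simp only [Car.i, conjTranspose_kronecker, conjTranspose_one, ← mul_kronecker_mul, mul_one,
      one_mul]
  · simp only [Car.i, conjTranspose_kronecker, conjTranspose_one]
    rw [c9_kr1, ← hi]; rfl
  · rw [← he]; exact c9_kr2 _ _ _
  · simp only [Car.i, conjTranspose_kronecker, conjTranspose_one]
    rw [c9_kr2, ← hi]; rfl

namespace CR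
variable (C : CR M n 𝒜)

/-- holomorphic conormal forms of degree `k` and weight `m` -/
structure HF (k : ℕ) (m : ℤ) (u : Finset (Fin M) → 𝒜) : Prop where
  tan : ∀ l, iov 𝒜 (fun b => C.P b l) u = 0
  deg : Deg k u
  hol : ∀ j J, C.Zb j (u J) = 0
  wt : ∀ J, C.T (u J) = (Complex.I * m) • u J

variable {C}

theorem HF.koszul {s c a k : ℕ} {m : ℤ} (hM : M = n + 1 + c) {ν : Finset (Fin M) → 𝒜}
    (hν : C.HF c s ν) {σ : 𝒜} (hσ : star σ = σ) (h1 : σ ^ 2 * hp ν ν = 1)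
    (ha : c + 1 ≤ a ∨ k = 0 ∧ 1 ≤ a)
    (l : Fin (n + 1) → 𝒜) (hl : ∀ i j, C.Zb j (l i) = 0) (hl' : ∀ i, C.T (l i) = Complex.I • l i)
    {lam : 𝒜} (hlam : lam * ∑ i, star (l i) * l i = 1) (hm : (a : ℤ) * s + 1 ≤ m)
    (z : Finset (Fin (n + 1)) → Finset (Fin M) → 𝒜) (hz : ∀ J, C.HF k (m - J.card) (z J))
    (h0 : iov (Finset (Fin M) → 𝒜) l z = 0) :
    ∃ y, (∀ J, C.HF k (m - J.card) (y J)) ∧ iov (Finset (Fin M) → 𝒜) l y = z := by
  obtain ⟨G, he, hi⟩ := exists_car M 𝒜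
  have hG1 : ∀ b u, G.il b *ᵥ u = iov 𝒜 b u := fun b u => by
    simp only [Car.il, iov, sum_mulVec, smul_mulVec, hi, LinearMap.sum_apply, LinearMap.smul_apply]
  have hG2 : ∀ u J, (G.N *ᵥ u) J = J.card • u J := fun u J => by
    rw [← num_apply (R := 𝒜), G.N_eq]
    simp only [num, sum_mulVec, ← mulVec_mulVec, he, hi, LinearMap.sum_apply, End.mul_apply]
  obtain ⟨ω⟩ : Nonempty (C.Wt s) := by
    refine C.exists_Wt G hM (fun l => by rw [hG1, hν.tan]) (funext fun J => ?_)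
      (fun j => funext fun J => hν.hol j J) (funext fun J => ?_) hσ h1
    · rw [hG2, Pi.smul_apply]
      by_cases hJ : J.card = c
      · rw [hJ, Nat.cast_smul_eq_nsmul]
      · simp [hν.deg J hJ]
    · simpa [dE_apply] using hν.wt J
  obtain ⟨Φ, hFi, hGe, hGi⟩ := exists_car2 M 𝒜
  have hP1 : ∀ b v q, (Φ.G.il b *ᵥ v) q = iov 𝒜 b (fun B => v (q.1, B)) q.2 := fun b v q => by
    simp only [Car.il, iov, sum_mulVec, smul_mulVec, Finset.sum_apply, Pi.smul_apply, hGi,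
      LinearMap.sum_apply, LinearMap.smul_apply]
  have hP2 : ∀ v q, (Φ.G.N *ᵥ v) q = q.2.card • v q := fun v q => by
    have h := num_apply (R := 𝒜) (fun B => v (q.1, B)) q.2
    rw [Φ.G.N_eq, ← h]
    simp only [num, sum_mulVec, ← mulVec_mulVec, Finset.sum_apply, hGe, hGi, LinearMap.sum_apply,
      End.mul_apply]
  let em : (Finset (Fin M) → 𝒜) →ₗ[𝒜] (Finset (Fin M) × Finset (Fin M) → 𝒜) :=
    { toFun := fun u q => if q.1 = ∅ then u q.2 else 0
      map_add' := fun u v => by funext q; by_cases h : q.1 = ∅ <;> simp [h]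
      map_smul' := fun r u => by funext q; by_cases h : q.1 = ∅ <;> simp [h] }
  have hem : ∀ u q, em u q = if q.1 = ∅ then u q.2 else 0 := fun u q => rfl
  let re : (Finset (Fin M) × Finset (Fin M) → 𝒜) →ₗ[𝒜] (Finset (Fin M) → 𝒜) :=
    LinearMap.funLeft 𝒜 𝒜 fun B => (∅, B)
  have hre : ∀ v B, re v B = v (∅, B) := fun v B => rfl
  have h2 : ∀ p u, C.HF k p u → C.V0 Φ k p (em u) := fun p u hu => by
    refine ⟨fun j => funext fun q => ?_, fun l => funext fun q => ?_, funext fun q => ?_,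
      fun j => funext fun q => ?_, funext fun q => ?_⟩
    · rw [hFi, io_apply]
      simp [hem]
    · rw [hP1]
      by_cases h : q.1 = ∅
      · simp only [hem, h, if_true]
        exact congrFun (hu.tan l) q.2
      · simp only [hem, h, if_false]
        exact congrFun (map_zero (iov 𝒜 fun b => C.P b l)) q.2
    · rw [hP2, Pi.smul_apply, hem]
      by_cases hJ : q.2.card = k
      · rw [hJ, Nat.cast_smul_eq_nsmul]
      · simp [hu.deg _ hJ]
    · rw [dE_apply, hem]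
      split_ifs <;> simp [hu.hol]
    · rw [dE_apply, Pi.smul_apply, hem]
      split_ifs <;> simp [hu.wt]
  have h3 : ∀ p v, C.V0 Φ k p v → C.HF k p (re v) := fun p v hv => by
    refine ⟨fun l => funext fun B => ?_, fun B hB => ?_, fun j B => congrFun (hv.hol j) (∅, B),
      fun B => congrFun hv.wt (∅, B)⟩
    · exact (hP1 _ v (∅, B)).symm.trans (congrFun (hv.tan l) (∅, B))
    · have h4 := congrFun hv.num' (∅, B)
      rw [hP2, Pi.smul_apply, ← Nat.cast_smul_eq_nsmul ℂ, ← sub_eq_zero, ← sub_smul] at h4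
      exact (smul_eq_zero.1 h4).resolve_left (sub_ne_zero.2 (by exact_mod_cast hB))
  obtain ⟨y, hy, hy0⟩ := ω.koszul (Φ := Φ) hM ha l hl hl' hlam hm (fun J => em (z J))
    (fun J => h2 _ _ (hz J)) (by
      have h4 := iov_nat em.toAddMonoidHom (a := l) (a' := l) (fun j v => em.map_smul _ _) z
      refine h4.symm.trans (funext fun J => ?_)
      simp [h0])
  refine ⟨fun J => re (y J), fun J => h3 _ _ (hy J), ?_⟩
  have h4 := iov_nat re.toAddMonoidHom (a := l) (a' := l) (fun j v => re.map_smul _ _) y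
  refine h4.symm.trans (funext fun J => funext fun B => ?_)
  simp [hy0, hre, hem]

end CR

end Pool.Agent.HCF
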