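import Pool.Agent.P.MP_f644fa_ag.Sec1

/-! Conormal forms. -/

noncomputable section
namespace Pool.Agent.HCF
open MvPolynomial Module Set

variable {M : ℕ} {I : Ideal (SS M)} {c n : ℕ}

/-- the coordinate functions -/
def sec2X (I : Ideal (SS M)) (j : Fin M) : Pol I := ⟨pf I (X j), pf_mem _⟩

theorem sec2_gen (I : Ideal (SS M)) :
    Function.Surjective (aeval (sec2X I) : MvPolynomial (Fin M) ℂ →ₐ[ℂ] Pol I) := by
  rintro ⟨_, f, rfl⟩
  have h : (Pol I).val.comp (aeval (sec2X I)) = pf I := algHom_ext fun j => by simp [sec2X]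
  exact ⟨f, Subtype.ext (AlgHom.congr_fun h f)⟩

/-- scaling by two -/
def sec2S (hX : IsManifold I c) : End ℂ (cone I → ℂ) :=
  LinearMap.funLeft ℂ ℂ fun x : cone I => ⟨(2 : ℂ) • x.1, hX.smul_mem x.2 two_ne_zero⟩

theorem sec2_hom (hX : IsManifold I c) {m : ℤ} {a : cone I → ℂ} (h : IsHom m a) :
    sec2S hX a = (2 : ℂ) ^ m • a :=
  funext fun x => h x _ 2 rfl

theorem sec2_pol (hX : IsManifold I c) {a : cone I → ℂ} (h : a ∈ Pol I) : sec2S hX a ∈ Pol I := by
  obtain ⟨f, rfl⟩ := h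
  change sec2S hX (pf I f) ∈ Pol I
  induction f using MvPolynomial.induction_on with
  | C r =>
    rw [show pf I (C r) = algebraMap ℂ _ r from (pf I).commutes r]
    exact (Pol I).algebraMap_mem r
  | add f g hf hg => rw [map_add, map_add]; exact add_mem hf hg
  | mul_X f j hf =>
    have h1 : sec2S hX (pf I (f * X j)) = sec2S hX (pf I f) * sec2S hX (pf I (X j)) := by
      rw [map_mul]; rfl
    rw [h1, sec2_hom hX (isHom_pf (isHomogeneous_X ℂ j))]
    exact mul_mem hf ((Pol I).smul_mem (pf_mem _) _)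

/-- sections of large degree are polynomial -/
theorem large_deg (hX : IsManifold I c) (hM : M = n + 1 + c) (hn : 1 ≤ n) :
    ∃ m₀ : ℕ, ∀ m ≥ m₀, ∀ a ∈ Gr (secRing I) (m : ℕ), a.1 ∈ Pol I := by
  obtain ⟨D, e, hD, -, hden⟩ := exists_den_hom hX hM
  have := noeth (sec2_gen I)
  have := hX.isDomain_sec
  let S : Set (cone I → ℂ) := {a | a ∈ secRing I ∧ ∃ m : ℕ, IsHom (m : ℤ) a}
  let N₁ : Submodule (Pol I) (cone I → ℂ) := Submodule.span _ S
  let N₂ : Submodule (Pol I) (cone I → ℂ) := Submodule.span _ {1}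
  have m2 : ∀ w, w ∈ N₂ ↔ w ∈ Pol I := fun w => by
    rw [Submodule.mem_span_singleton]
    constructor
    · rintro ⟨r, rfl⟩
      exact mul_mem r.2 (one_mem _)
    · exact fun h => ⟨⟨w, h⟩, mul_one w⟩
  have m1 : ∀ w ∈ N₁, w ∈ secRing I := fun w hw => by
    induction hw using Submodule.span_induction with
    | mem a ha => exact ha.1
    | zero => exact zero_mem _
    | add a b _ _ ha hb => exact add_mem ha hb
    | smul r a _ ha => exact mul_mem (Pol_le I r.2) ha
  let d : Pol I := ⟨pf I D, pf_mem D⟩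
  have mD : ∀ w ∈ N₁, d • w ∈ N₂ := fun w hw => by
    induction hw using Submodule.span_induction with
    | mem a ha =>
      obtain ⟨m, hm⟩ := ha.2
      exact (m2 _).2 (hden m a (hol_of_mem_sec ha.1) hm)
    | zero => rw [smul_zero]; exact zero_mem _
    | add a b _ _ ha hb => rw [smul_add]; exact add_mem ha hb
    | smul r a _ ha => rw [smul_comm]; exact N₂.smul_mem r ha
  have hfg : N₁.FG := by
    let f : N₁ →ₗ[Pol I] N₂ :=
      ((LinearMap.lsmul (Pol I) (cone I → ℂ) d).domRestrict N₁).codRestrict N₂ fun w => mD w.1 w.2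
    have hf : Function.Injective f := by
      rw [injective_iff_map_eq_zero]
      intro w hw
      have h1 : pf I D * w.1 = 0 := congrArg Subtype.val hw
      have h2 : (⟨pf I D, Pol_le I (pf_mem D)⟩ * ⟨w.1, m1 _ w.2⟩ : secRing I) = 0 := Subtype.ext h1
      rcases mul_eq_zero.1 h2 with h | h
      · exact absurd (hX.pf_eq_zero.1 (congrArg Subtype.val h)) hD
      · have h3 : w.1 = 0 := congrArg Subtype.val h
        exact Subtype.ext h3
    have : IsNoetherian (Pol I) N₂ :=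
      isNoetherian_of_fg_of_noetherian _ (Submodule.fg_span_singleton _)
    have : IsNoetherian (Pol I) N₁ := isNoetherian_of_injective f hf
    exact Module.Finite.iff_fg.1 inferInstance
  have hk : ∀ j, ∃ K : ℕ, ∀ w ∈ N₁, sec2X I j ^ K • w ∈ N₂ := fun j => by
    have key : ∀ N : Submodule (Pol I) (cone I → ℂ), N.FG → (∀ w ∈ N, w ∈ secRing I) →
        ∃ K : ℕ, ∀ w ∈ N, sec2X I j ^ K • w ∈ N₂ := by
      intro N hN
      refine Submodule.fg_induction (motive := fun N _ => (∀ w ∈ N, w ∈ secRing I) →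
        ∃ K : ℕ, ∀ w ∈ N, sec2X I j ^ K • w ∈ N₂) ?_ ?_ N hN
      · intro a ha
        obtain ⟨k, q, hq⟩ := ha a (Submodule.mem_span_singleton_self a) j
        refine ⟨k, fun w hw => ?_⟩
        obtain ⟨r, rfl⟩ := Submodule.mem_span_singleton.1 hw
        rw [smul_comm]
        refine N₂.smul_mem r ((m2 _).2 ⟨q, ?_⟩)
        funext x
        have h1 : (sec2X I j ^ k • a) x = x.1 j ^ k * a x := by
          change ((pf I (X j)) ^ k * a) x = _
          rw [Pi.mul_apply, Pi.pow_apply, pf_apply, eval_X]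
        rw [h1, hq]
        exact pf_apply q x
      · intro A B _ _ hA hB h
        obtain ⟨k, hk⟩ := hA fun w hw => h w (Submodule.mem_sup_left hw)
        obtain ⟨l, hl⟩ := hB fun w hw => h w (Submodule.mem_sup_right hw)
        refine ⟨k + l, fun w hw => ?_⟩
        obtain ⟨a, ha, b, hb, rfl⟩ := Submodule.mem_sup.1 hw
        rw [smul_add]
        refine add_mem ?_ ?_
        · rw [add_comm, pow_add, mul_smul]
          exact N₂.smul_mem _ (hk a ha)
        · rw [pow_add, mul_smul]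
          exact N₂.smul_mem _ (hl b hb)
    exact key N₁ hfg m1
  have h₁ : ∀ w ∈ N₁, sec2S hX w ∈ N₁ := fun w hw => by
    induction hw using Submodule.span_induction with
    | mem a ha =>
      obtain ⟨m, hm⟩ := ha.2
      rw [sec2_hom hX hm]
      exact N₁.smul_of_tower_mem _ (Submodule.subset_span ha)
    | zero => rw [map_zero]; exact zero_mem _
    | add a b _ _ ha hb => rw [map_add]; exact add_mem ha hb
    | smul r a _ ha => exact N₁.smul_mem ⟨sec2S hX r.1, sec2_pol hX r.2⟩ ha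
  obtain ⟨m₀, hm₀⟩ := fin_len (sec2_gen I) N₁ N₂ hfg hk (sec2S hX) h₁
    fun w hw => (m2 _).2 (sec2_pol hX ((m2 _).1 hw))
  exact ⟨m₀, fun m hm a ha => (m2 _).1 (hm₀ m hm a.1 (Submodule.subset_span ⟨a.2, m, ha⟩)
    (mem_Eg.2 (sec2_hom hX ha)))⟩

/-- vector fields on the cone with coefficients in `O` -/
def Tg (O : Subalgebra ℂ (cone I → ℂ)) : Set (Fin M → O) :=
  {v | ∀ x : cone I, (fun j => (v j).1 x) ∈ tangS I x.1}

/-- conormal forms of degree `k` with coefficients in `O` of degree `d` -/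
abbrev Hm (O : Subalgebra ℂ (cone I → ℂ)) (k : ℕ) (d : ℤ) := Fm (Gr O) (Tg O) k d

theorem sec2_nat {O : Subalgebra ℂ (cone I → ℂ)} (v : Fin M → O) (ω : Finset (Fin M) → O)
    (x : cone I) : (fun J => (iov O v ω J).1 x) =
      iov ℂ (fun j => (v j).1 x) fun J => (ω J).1 x :=
  iov_nat (N' := ℂ) (R' := ℂ) ⟨⟨fun a : O => a.1 x, rfl⟩, fun _ _ => rfl⟩ (fun _ _ => rfl) ω

theorem kill_iff (hX : IsManifold I c) {O : Subalgebra ℂ (cone I → ℂ)} (hO : Pol I ≤ O)
    (ω : Finset (Fin M) → O) : (∀ v ∈ Tg O, iov O v ω = 0) ↔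
      ∀ x : cone I, ∀ v ∈ tangS I x.1, iov ℂ v (fun J => (ω J).1 x) = 0 := by
  constructor
  · intro h x v hv
    obtain ⟨F⟩ := hX.exists_PF x.2
    have h1 : ∀ l, iov ℂ (fun j => eval x.1 (F.t j l)) (fun J => (ω J).1 x) = 0 := fun l => by
      have h2 := sec2_nat (fun j => (⟨pf I (F.t j l), hO (pf_mem _)⟩ : O)) ω x
      rw [h _ fun y => by simpa only [pf_apply] using F.t_tan hX x.2 y.2 l] at h2
      simp only [pf_apply] at h2
      exact h2.symm
    have h3 : eval x.1 F.δ • v = ∑ l, v l • fun j => eval x.1 (F.t j l) := by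
      funext j
      rw [Pi.smul_apply, smul_eq_mul, ← F.t_fix hv j, Finset.sum_apply]
      exact Finset.sum_congr rfl fun l _ => mul_comm _ _
    have h4 : eval x.1 F.δ • iov ℂ v (fun J => (ω J).1 x) = 0 := by
      rw [← LinearMap.smul_apply, ← iov_smul, h3, iov_sum, LinearMap.sum_apply]
      exact Finset.sum_eq_zero fun l _ => by rw [iov_smul, LinearMap.smul_apply, h1, smul_zero]
    exact (smul_eq_zero.1 h4).resolve_left F.δ_ne
  · intro h v hv
    funext J
    refine Subtype.ext (funext fun x => ?_)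
    have h2 := sec2_nat v ω x
    rw [h x _ (hv x)] at h2
    exact congrFun h2 J

theorem Hm_gt (hX : IsManifold I c) {O : Subalgebra ℂ (cone I → ℂ)} (hO : Pol I ≤ O) {k : ℕ}
    (hk : c < k) (d : ℤ) : Hm O k d = ⊥ := by
  refine (Submodule.eq_bot_iff _).2 fun ω hω => ?_
  funext J
  refine Subtype.ext (funext fun x => ?_)
  have h := deg_gt_eq_zero (tangS I x.1) (c := c) (k := k)
    (by rw [Fintype.card_fin]; exact (hX.finrank_tang x.2).ge) hk (y := fun J => (ω J).1 x)
    (fun J hJ => by simp only [hω.2.1 J hJ]; rfl) ((kill_iff hX hO ω).1 hω.1 x)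
  exact congrFun h J

theorem finrank_Hm_large (hX : IsManifold I c) (hM : M = n + 1 + c) (hn : 1 ≤ n) :
    ∃ m₀ : ℕ, ∀ m ≥ m₀, ∀ k,
      finrank ℂ (Hm (Pol I) k (m : ℕ)) = finrank ℂ (Hm (secRing I) k (m : ℕ)) := by
  obtain ⟨m₀, hm₀⟩ := large_deg hX hM hn
  refine ⟨m₀, fun m hm k => ?_⟩
  let f : Hm (Pol I) k (m : ℕ) →ₗ[ℂ] Hm (secRing I) k (m : ℕ) :=
    { toFun := fun ω => ⟨fun J => ⟨(ω.1 J).1, Pol_le I (ω.1 J).2⟩,
        (kill_iff hX (Pol_le I) _).2 ((kill_iff hX le_rfl ω.1).1 ω.2.1),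
        fun J hJ => Subtype.ext (congrArg Subtype.val (ω.2.2.1 J hJ) :), fun J => ω.2.2.2 J⟩
      map_add' := fun _ _ => rfl
      map_smul' := fun _ _ => rfl }
  refine (LinearEquiv.ofBijective f ⟨fun a b h => ?_, fun η => ?_⟩).finrank_eq
  · refine Subtype.ext (funext fun J => Subtype.ext ?_)
    exact congrArg (fun η : Hm (secRing I) k (m : ℕ) => (η.1 J).1) h
  · exact ⟨⟨fun J => ⟨(η.1 J).1, hm₀ m hm _ (η.2.2.2 J)⟩,
      (kill_iff hX le_rfl _).2 ((kill_iff hX (Pol_le I) η.1).1 η.2.1),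
      fun J hJ => Subtype.ext (congrArg Subtype.val (η.2.2.1 J hJ) :), fun J => η.2.2.2 J⟩, rfl⟩

end Pool.Agent.HCF
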