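import Pool.Agent.P.MP_f644fa_ag.Split0

/-! The conormal module is free (step B1). -/

noncomputable section
namespace Pool.Agent.HCF
open Finset Module

variable {A : Type} [CommRing A] [Algebra ℂ A] {σ : Type} [LinearOrder σ] [Fintype σ]
  {G : ℤ → Submodule ℂ A} {T : Set (σ → A)}

theorem split_prim [IsDomain A] (hG : GR G) {j : ℕ} {D : ℤ} (h1 : ∀ d < D, Fm G T j d = ⊥)
    {w : Finset σ → A} (hw : w ∈ Fm G T j D) (h0 : w ≠ 0) {p : A} (hp : Prime p) :
    ∃ J, ¬ p ∣ w J := by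
  by_contra hn
  have hd : ∀ J, ∃ y, w J = p * y := fun J => by
    by_contra h
    exact hn ⟨J, h⟩
  choose y hy using hd
  obtain ⟨J0, hJ0⟩ := Function.ne_iff.1 h0
  obtain ⟨e, he, -⟩ := hG.dvd (hy J0 ▸ hw.2.2 J0) (hy J0 ▸ hJ0)
  have e1 : ¬ e < 0 := fun h => hp.ne_zero (by simpa [hG.neg e h] using he)
  have e2 : e ≠ 0 := by
    rintro rfl
    obtain ⟨r, rfl⟩ := hG.zero p he
    have hr : r ≠ 0 := by
      rintro rfl
      exact hp.ne_zero (map_zero _)
    exact hp.not_isUnit ((Ne.isUnit hr).map _)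
  have hwy : w = p • y := funext hy
  have hm : y ∈ Fm G T j (D - e) := by
    refine ⟨fun v hv => ?_, fun J hJ => ?_, fun J => ?_⟩
    · have h := hw.1 v hv
      rw [hwy, map_smul] at h
      exact (smul_eq_zero.1 h).resolve_left hp.ne_zero
    · exact (mul_eq_zero.1 ((hy J).symm.trans (hw.2.1 J hJ))).resolve_left hp.ne_zero
    · by_cases h : y J = 0
      · rw [h]
        exact Submodule.zero_mem _
      · obtain ⟨e', h2, h3⟩ := hG.dvd (hy J ▸ hw.2.2 J) (mul_ne_zero hp.ne_zero h)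
        rwa [hG.disj he h2 hp.ne_zero]
  rw [h1 (D - e) (by omega), Submodule.mem_bot] at hm
  exact h0 (by rw [hwy, hm, smul_zero])

theorem split_dvd [IsDomain A] [UniqueFactorizationMonoid A] {ι : Type} {w : ι → A}
    (hw : ∀ p, Prime p → ∃ J, ¬ p ∣ w J) (b : A) :
    b ≠ 0 → ∀ a, (∀ J, b ∣ a * w J) → b ∣ a := by
  induction b using UniqueFactorizationMonoid.induction_on_prime with
  | h₁ => exact fun h => absurd rfl h
  | h₂ x hx => exact fun _ a _ => hx.dvd
  | h₃ b p hb hp ih =>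
    intro _ a ha
    obtain ⟨J, hJ⟩ := hw p hp
    obtain ⟨a', rfl⟩ : p ∣ a :=
      (hp.dvd_or_dvd ((dvd_mul_right p b).trans (ha J))).resolve_right hJ
    refine mul_dvd_mul_left p (ih hb a' fun J' => ?_)
    have h := ha J'
    rwa [mul_assoc, mul_dvd_mul_iff_left hp.ne_zero] at h

theorem split_wedge (hG : GR G) {j : ℕ} {β : Fin j → ℤ} {τ : Fin j → σ → A}
    (hτ : ∀ i, τ i ∈ Vm G T (β i)) : wedge A j τ ∈ Fm G T j (∑ i, β i) :=
  ⟨fun v hv => iov_wedge fun i => (hτ i).1 v hv, deg_wedge τ,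
    wedge_mem G hG.one hG.mul fun i k => (hτ i).2 k⟩

theorem split_sat [IsDomain A] [UniqueFactorizationMonoid A] (hG : GR G) {j : ℕ} {β : Fin j → ℤ}
    {τ : Fin j → σ → A} (hτ : ∀ i, τ i ∈ Vm G T (β i)) (hl : LinearIndependent A τ)
    (h1 : ∀ d < ∑ i, β i, Fm G T j d = ⊥) {d : ℤ} {τ' : σ → A} (hτ' : τ' ∈ Vm G T d)
    (hn : ¬ LinearIndependent A (Fin.snoc τ τ' : Fin (j + 1) → σ → A)) :
    ∃ a : Fin j → A, (∀ i, a i ∈ G (d - β i)) ∧ τ' = ∑ i, a i • τ i := by
  obtain ⟨g, hg, i0, hi0⟩ := Fintype.not_linearIndependent_iff.1 hn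
  rw [Fin.sum_univ_castSucc] at hg
  simp only [Fin.snoc_castSucc, Fin.snoc_last] at hg
  have hg0 : g (Fin.last j) ≠ 0 := by
    intro h
    rw [h, zero_smul, add_zero] at hg
    have h2 := Fintype.linearIndependent_iff.1 hl _ hg
    induction i0 using Fin.lastCases with
    | last => exact hi0 h
    | cast i => exact hi0 (h2 i)
  have hs : g (Fin.last j) • τ' = ∑ i, (-g i.castSucc) • τ i := by
    simp only [neg_smul, sum_neg_distrib]
    exact eq_neg_of_add_eq_zero_right hg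
  have hw := split_wedge hG hτ
  have hw0 := (wedge_ne_zero_iff τ).2 hl
  have hb : ∀ i : Fin j, g (Fin.last j) ∣ -g i.castSucc := by
    intro i
    refine split_dvd (fun p hp => split_prim hG h1 hw hw0 hp) _ hg0 _ fun J => ?_
    have h2 := wedge_update_sum τ i fun l => -g l.castSucc
    rw [← hs, wedge_update_smul] at h2
    exact ⟨_, (congrFun h2 J).symm⟩
  choose b hb using hb
  have he : τ' = ∑ i, b i • τ i := by
    refine smul_right_injective (σ → A) hg0 ?_
    simp only [hs, hb, smul_sum, smul_smul]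
  refine ⟨b, fun i => ?_, he⟩
  by_cases h : b i = 0
  · rw [h]
    exact Submodule.zero_mem _
  obtain ⟨J, hJ⟩ := Function.ne_iff.1 hw0
  have h2 := wedge_update_sum τ i b
  rw [← he] at h2
  have h3 : wedge A j (Function.update τ i τ') J ∈ G (∑ l, Function.update β i d l) := by
    refine wedge_mem G hG.one hG.mul (fun l k => ?_) J
    by_cases hl : l = i
    · subst hl
      simpa using hτ'.2 k
    · simpa [Function.update_of_ne hl] using (hτ l).2 k
  rw [h2] at h3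
  obtain ⟨e, h4, h5⟩ := hG.dvd h3 (mul_ne_zero h hJ)
  have h6 := hG.disj (hw.2.2 J) h5 hJ
  rw [sum_update_of_mem (mem_univ i), ← add_sum_erase _ _ (mem_univ i), sdiff_singleton_eq_erase]
    at h6
  rwa [show d - β i = e by omega]

theorem split_le (hG : GR G) {j : ℕ} (γ : Fin j → ℤ) (τ : Fin j → σ → A)
    (V : Submodule ℂ (σ → A))
    (h : ∀ τ' ∈ V, ∃ a : Fin j → A, (∀ i, a i ∈ G (γ i)) ∧ τ' = ∑ i, a i • τ i) :
    finrank ℂ V ≤ ∑ i, finrank ℂ (G (γ i)) := by
  have := hG.fin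
  let f : (∀ i, G (γ i)) →ₗ[ℂ] σ → A :=
    { toFun := fun a => ∑ i, (a i : A) • τ i
      map_add' := fun a b => by simp [add_smul, sum_add_distrib]
      map_smul' := fun r a => by simp [smul_sum] }
  have h1 : V ≤ LinearMap.range f := fun τ' hτ' => by
    obtain ⟨a, ha, rfl⟩ := h τ' hτ'
    exact ⟨fun i => ⟨a i, ha i⟩, rfl⟩
  rw [← Module.finrank_pi_fintype ℂ]
  exact (Submodule.finrank_mono h1).trans (LinearMap.finrank_range_le f)

theorem split_sum {M : Type} [AddCommMonoid M] {c j : ℕ} (hj : j ≤ c) (f : Fin c → M) :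
    ∑ i : Fin c with i.val < j, f i = ∑ i : Fin j, f (Fin.castLE hj i) := by
  symm
  refine sum_bij (fun i _ => Fin.castLE hj i) (fun i _ => by simp) (fun a _ b _ h => ?_)
    (fun i hi => ⟨⟨i.val, by simpa using hi⟩, mem_univ _, rfl⟩) fun _ _ => rfl
  exact Fin.castLE_injective hj h

theorem split [IsDomain A] [UniqueFactorizationMonoid A] (hG : GR G) {c : ℕ} (β : Fin c → ℕ)
    (hβ : Monotone β)
    (h1 : ∀ (j : ℕ) (d : ℤ), d < ∑ i : Fin c with i.val < j, (β i : ℤ) → j ≤ c → Fm G T j d = ⊥)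
    (h2 : ∀ d : ℤ, finrank ℂ (Vm G T d) = ∑ i, finrank ℂ (G (d - β i)))
    (h3 : ∀ d, Fm G T (c + 1) d = ⊥) :
    ∃ τ : Fin c → σ → A, (∀ i, τ i ∈ Vm G T (β i)) ∧ LinearIndependent A τ ∧
      ∀ d, ∀ τ' ∈ Vm G T d, ∃ a : Fin c → A, (∀ i, a i ∈ G (d - β i)) ∧
        τ' = ∑ i, a i • τ i := by
  have h4 : ∀ j (hj : j ≤ c), ∀ d < ∑ i : Fin j, (β (Fin.castLE hj i) : ℤ), Fm G T j d = ⊥ :=
    fun j hj d hd => h1 j d (by rwa [split_sum hj fun i => (β i : ℤ)]) hj
  have key : ∀ j (hj : j ≤ c), ∃ τ : Fin j → σ → A,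
      (∀ i, τ i ∈ Vm G T (β (Fin.castLE hj i))) ∧ LinearIndependent A τ := by
    intro j
    induction j with
    | zero => exact fun _ => ⟨Fin.elim0, fun i => i.elim0, linearIndependent_empty_type⟩
    | succ j ih =>
      intro hj
      obtain ⟨τ, hτ, hl⟩ := ih (by omega)
      by_cases h : ∃ τ' ∈ Vm G T (β ⟨j, hj⟩),
          LinearIndependent A (Fin.snoc τ τ' : Fin (j + 1) → σ → A)
      · obtain ⟨τ', h5, h6⟩ := h
        refine ⟨_, fun i => ?_, h6⟩
        induction i using Fin.lastCases with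
        | last => rw [Fin.snoc_last]; exact h5
        | cast i => rw [Fin.snoc_castSucc]; exact hτ i
      · exfalso
        have h5 := split_le hG _ τ (Vm G T (β ⟨j, hj⟩)) fun τ' hτ' =>
          split_sat hG hτ hl (h4 j (by omega)) hτ' fun h6 => h ⟨τ', hτ', h6⟩
        rw [h2, ← split_sum (by omega : j ≤ c) fun i => finrank ℂ (G ((β ⟨j, hj⟩ : ℤ) - β i))] at h5
        refine absurd h5 (not_le.2 (sum_lt_sum_of_subset (filter_subset _ _) (i := ⟨j, hj⟩)
          (mem_univ _) (by simp) ?_ fun _ _ _ => Nat.zero_le _))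
        rw [sub_self]
        have := hG.fin 0
        exact Module.finrank_pos_iff_exists_ne_zero.2 ⟨⟨1, hG.one⟩, by simp⟩
  obtain ⟨τ, hτ, hl⟩ := key c le_rfl
  refine ⟨τ, hτ, hl, fun d τ' hτ' => split_sat hG hτ hl (h4 c le_rfl) hτ' fun h => ?_⟩
  have h5 : wedge A (c + 1) (Fin.snoc τ τ') ∈
      Fm G T (c + 1) (∑ i, (Fin.snoc (fun i => (β i : ℤ)) d : Fin (c + 1) → ℤ) i) := by
    refine split_wedge hG fun i => ?_
    induction i using Fin.lastCases with
    | last => rw [Fin.snoc_last, Fin.snoc_last]; exact hτ'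
    | cast i => rw [Fin.snoc_castSucc, Fin.snoc_castSucc]; exact hτ i
  rw [h3, Submodule.mem_bot] at h5
  exact (wedge_ne_zero_iff _).2 h h5

end Pool.Agent.HCF
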