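import Pool.Agent.P.MP_f644fa_ag.G5
import Pool.Agent.P.MP_f644fa_ag.C9
import Pool.Agent.P.MP_f644fa_ag.Sec2
import Pool.Agent.P.MP_f644fa_ag.Split

/-! The degree of the numerators of the Hilbert series. -/

noncomputable section
namespace Pool.Agent.HCF
open MvPolynomial Module Set

variable {M : ℕ} {I : Ideal (SS M)} {c n : ℕ}

/-- the Hilbert series of the conormal forms of degree `k` -/
def HS (I : Ideal (SS M)) (k : ℕ) : PowerSeries ℂ :=
  PowerSeries.mk fun m => (finrank ℂ (Hm (secRing I) k m) : ℂ)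

theorem exists_nu (hX : IsManifold I c) {b : ℤ} (h : CanonicalIs I c b) :
    ∃ ν ∈ Hm (secRing I) c (b + M - c), ∀ x : cone I, ∃ J, (ν J).1 x ≠ 0 := by
  obtain ⟨ν, h0, h1, h2⟩ := h
  have hm : ∀ J : Finset (Fin M), (fun x => ofAlt (ν x) J) ∈ secRing I ∧
      IsHom (b + M - c) (fun x => ofAlt (ν x) J) := by
    intro J
    by_cases hJ : J.card = c
    · have e : (fun x => ofAlt (ν x) J) =
          fun x => ν x (fun i => Pi.single (J.orderEmbOfFin hJ i) 1) := by
        funext x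
        simp only [ofAlt, dif_pos hJ]
      rw [e]
      exact h2 _
    · have e : (fun x => ofAlt (ν x) J) = 0 := by
        funext x
        exact deg_ofAlt (ν x) J hJ
      rw [e]
      exact ⟨Subalgebra.zero_mem _, fun x y t _ => by simp⟩
  refine ⟨fun J => ⟨fun x => ofAlt (ν x) J, (hm J).1⟩, ⟨?_, ?_, fun J => (hm J).2⟩, fun x => ?_⟩
  · rw [kill_iff hX (Pol_le I)]
    intro x v hv
    exact iov_ofAlt fun w i hw => h1 x w i (by rw [hw]; exact hv)
  · intro J hJ
    apply Subtype.ext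
    funext x
    exact deg_ofAlt (ν x) J hJ
  · by_contra hc
    push Not at hc
    exact ofAlt_ne_zero (h0 x) (funext hc)

/-- evaluation at a point -/
def van0_ev {S : Set (VV M)} (y : S) : Sm S →+ ℂ where
  toFun f := f.1 y
  map_zero' := rfl
  map_add' _ _ := rfl

theorem van0_iov {S : Set (VV M)} (y : S) (a : Fin M → Sm S) (u : Finset (Fin M) → Sm S) :
    (fun J => (iov (Sm S) a u J).1 y) = iov ℂ (fun b => (a b).1 y) fun J => (u J).1 y :=
  iov_nat (van0_ev y) (fun _ _ => rfl) u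

variable {C : CR M n (Sm (Lk I))}

theorem Geo.hf_rs (h : Geo I C) (hX : IsManifold I c) {k : ℕ} {m : ℤ}
    {u : Finset (Fin M) → secRing I} (hu : u ∈ Hm (secRing I) k m) :
    C.HF k m fun J => rs I (u J) := by
  obtain ⟨h1, h2, h3⟩ := hu
  rw [kill_iff hX (Pol_le I)] at h1
  refine ⟨fun l => ?_, fun J hJ => ?_, fun j J => h.Zb_rs _ j, fun J => h.T_rs hX (h3 J)⟩
  · funext J
    apply Subtype.ext
    funext y
    have e := congrFun (van0_iov y (fun b => C.P b l) fun J => rs I (u J)) J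
    have e' := congrFun (h1 (toCone y) _ (h.P_tan y l)) J
    exact e.trans e'
  · show rs I (u J) = 0
    rw [h2 J hJ, map_zero]

theorem Geo.exists_hm (h : Geo I C) (hX : IsManifold I c) (hM : M = n + 1 + c)
    [UniqueFactorizationMonoid (secRing I)] {k : ℕ} {m : ℤ} {u : Finset (Fin M) → Sm (Lk I)}
    (hu : C.HF k m u) : ∃ u' ∈ Hm (secRing I) k m, (fun J => rs I (u' J)) = u := by
  choose a ha hr using fun J => h.exists_rs hX hM (fun j => hu.hol j J) (hu.wt J)
  refine ⟨a, ⟨?_, fun J hJ => rs_inj hX (ha J) ((hr J).trans (hu.deg J hJ)), ha⟩, funext hr⟩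
  rw [kill_iff hX (Pol_le I)]
  intro x v hv
  obtain ⟨y, t, ht, hx⟩ := exists_toCone hX x
  have ht' : (t : ℂ) ≠ 0 := by exact_mod_cast ht.ne'
  rw [hx, hX.tang_smul _ ht'] at hv
  have e1 : (fun J => (a J).1 x) = (t : ℂ) ^ m • fun J => (u J).1 y := by
    funext J
    rw [mem_Gr.1 (ha J) (toCone y) x t hx, Pi.smul_apply, ← hr J]
    rfl
  have e2 : v = ∑ l, v l • fun j => (C.P j l).1 y := by
    funext j
    rw [Finset.sum_apply, ← h.P_fix y v hv j]
    exact Finset.sum_congr rfl fun l _ => mul_comm _ _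
  have e3 : ∀ l, iov ℂ (fun j => (C.P j l).1 y) (fun J => (u J).1 y) = 0 := fun l => by
    rw [← van0_iov y (fun b => C.P b l) u, hu.tan l]
    rfl
  rw [e1, map_smul, e2, iov_sum, LinearMap.sum_apply, Finset.sum_eq_zero, smul_zero]
  intro l _
  rw [iov_smul, LinearMap.smul_apply, e3 l, smul_zero]

end Pool.Agent.HCF
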