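import Pool.Agent.P.MP_f644fa_ag.LX1
import Pool.Agent.P.MP_f644fa_ag.Van0
import Pool.Agent.P.MP_f644fa_ag.Gen

/-! Regular functions, division by the generator of the top forms. -/

noncomputable section
namespace Pool.Agent.HCF
open Finset Module MvPolynomial

variable {M : ℕ} {I : Ideal (SS M)} {c n : ℕ}

theorem IsManifold.mem_sec_of_loc (hX : IsManifold I c) {κ : cone I → ℂ}
    (h : ∀ z : cone I, ∃ D : secRing I, D.1 z ≠ 0 ∧ D.1 * κ ∈ secRing I) : κ ∈ secRing I := by
  let A : Ideal (SS M) :=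
    { carrier := {f | pf I f * κ ∈ secRing I}
      add_mem' := fun {a b} ha hb => by
        show pf I (a + b) * κ ∈ secRing I
        rw [map_add, add_mul]
        exact add_mem ha hb
      zero_mem' := by
        show pf I 0 * κ ∈ secRing I
        rw [map_zero, zero_mul]
        exact zero_mem _
      smul_mem' := fun g f hf => by
        show pf I (g * f) * κ ∈ secRing I
        rw [map_mul, mul_assoc]
        exact mul_mem (Pol_le I (pf_mem g)) hf }
  have hI : I ≤ A := fun f hf => by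
    show pf I f * κ ∈ secRing I
    rw [hX.pf_eq_zero.2 hf, zero_mul]
    exact zero_mem _
  intro j
  obtain ⟨K, hK⟩ := hX.ns A hI (fun x hx => by
    obtain ⟨D, hD, hDκ⟩ := h ⟨x, hx⟩
    obtain ⟨l, hl⟩ := sec1_ne (⟨x, hx⟩ : cone I)
    obtain ⟨k, p, hp⟩ := D.2 l
    refine ⟨p, ?_, ?_⟩
    · show pf I p * κ ∈ secRing I
      have e : pf I p * κ = pf I (X l ^ k) * (D.1 * κ) := by
        funext y
        simp only [Pi.mul_apply, pf_apply, map_pow, eval_X, ← hp y, mul_assoc, Pi.pow_apply]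
      rw [e]
      exact mul_mem (Pol_le I (pf_mem _)) hDκ
    · rw [← hp ⟨x, hx⟩]
      exact mul_ne_zero (pow_ne_zero _ hl) hD) j
  obtain ⟨k, p, hp⟩ := (show pf I (X j ^ K) * κ ∈ secRing I from hK) j
  refine ⟨k + K, p, fun x => ?_⟩
  rw [← hp x, Pi.mul_apply, pf_apply, map_pow, eval_X, pow_add, mul_assoc]

/-- evaluation at a point -/
def lx4_ev (z : cone I) : secRing I →ₐ[ℂ] ℂ :=
  (Pi.evalAlgHom ℂ (fun _ : cone I => ℂ) z).comp (secRing I).val

theorem lx4_ev_apply (z : cone I) (a : secRing I) : lx4_ev z a = a.1 z := rfl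

/-- coefficients with respect to pointwise independent sections are sections -/
theorem IsManifold.regx (hX : IsManifold I c) {ι σ : Type} [Fintype ι] [Fintype σ] {b : ι → ℤ}
    {τ : ι → σ → secRing I} (hτ : ∀ i l, τ i l ∈ Gr (secRing I) (b i))
    (hi : ∀ z : cone I, LinearIndependent ℂ fun i l => (τ i l).1 z) {d : ℤ} {τ' : σ → secRing I}
    (h' : ∀ l, τ' l ∈ Gr (secRing I) d)
    (hs : ∀ z : cone I, (fun l => (τ' l).1 z) ∈
      Submodule.span ℂ (Set.range fun i l => (τ i l).1 z)) :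
    ∃ a : ι → secRing I, (∀ i, a i ∈ Gr (secRing I) (d - b i)) ∧ τ' = ∑ i, a i • τ i := by
  classical
  choose a0 ha0 using fun z => (Submodule.mem_span_range_iff_exists_fun ℂ).1 (hs z)
  have ha : ∀ z l, ∑ i, a0 z i * (τ i l).1 z = (τ' l).1 z := fun z l => by
    have := congrFun (ha0 z) l
    simpa only [Finset.sum_apply, Pi.smul_apply, smul_eq_mul] using this
  have hreg : ∀ i, (fun z => a0 z i) ∈ secRing I := fun i => hX.mem_sec_of_loc fun z => by
    obtain ⟨δ, u, hδ, hu⟩ := dual_fields (lx4_ev z) τ (hi z)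
    refine ⟨δ, hδ, ?_⟩
    have e : (δ.1 * fun z => a0 z i) = (∑ l, τ' l * u i l).1 := by
      funext x
      rw [← lx4_ev_apply, map_sum]
      simp only [map_mul, lx4_ev_apply, ← ha x, Finset.sum_mul]
      rw [Finset.sum_comm]
      have e2 : ∀ k, ∑ l, a0 x k * (τ k l).1 x * (u i l).1 x
          = a0 x k * if k = i then δ.1 x else 0 := fun k => by
        have h3 := congrArg (lx4_ev x) (hu k i)
        rw [map_sum, apply_ite (lx4_ev x), map_zero] at h3
        simp only [map_mul, lx4_ev_apply] at h3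
        rw [← h3, Finset.mul_sum]
        exact Finset.sum_congr rfl fun l _ => mul_assoc _ _ _
      simp only [e2, mul_ite, mul_zero, Finset.sum_ite_eq', Finset.mem_univ, if_true]
      exact mul_comm _ _
    rw [e]
    exact (∑ l, τ' l * u i l).2
  refine ⟨fun i => ⟨_, hreg i⟩, fun i x y t hxy => ?_, ?_⟩
  · have ht : t ≠ 0 := fun h0 => y.2.1 (by rw [hxy, h0, zero_smul])
    have h0 := Fintype.linearIndependent_iff.1 (hi x)
      (fun k => a0 y k * t ^ b k - t ^ d * a0 x k) (by
        funext l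
        have e1 := ha y l
        have e2 := ha x l
        rw [h' l x y t hxy, ← e2, Finset.mul_sum] at e1
        simp only [Finset.sum_apply, Pi.smul_apply, smul_eq_mul, Pi.zero_apply, sub_mul,
          Finset.sum_sub_distrib, mul_assoc]
        rw [← e1, sub_eq_zero]
        exact Finset.sum_congr rfl fun k _ => by rw [hτ k l x y t hxy]) i
    show a0 y i = t ^ (d - b i) * a0 x i
    rw [zpow_sub₀ ht, div_mul_eq_mul_div, eq_div_iff (zpow_ne_zero _ ht)]
    exact sub_eq_zero.1 h0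
  · funext l
    refine Subtype.ext (funext fun x => ?_)
    rw [← ha x l, Finset.sum_apply]
    refine Eq.trans ?_ (map_sum (lx4_ev x) _ _).symm
    exact Finset.sum_congr rfl fun i _ => rfl

theorem lx4_rank (hX : IsManifold I c) {s : ℤ} {ν : Finset (Fin M) → secRing I}
    (hν : ν ∈ Hm (secRing I) c s) (hne : ∀ x : cone I, ∃ J, (ν J).1 x ≠ 0) (m : ℤ) :
    finrank ℂ (Gr (secRing I) (m - s)) = finrank ℂ (Hm (secRing I) c m) := by
  have hK : ∀ {d : ℤ} {ω : Finset (Fin M) → secRing I}, ω ∈ Hm (secRing I) c d → ∀ x : cone I,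
      (fun J => (ω J).1 x) ∈ Kf (tangS I x.1) c := fun {d ω} hω x =>
    ⟨fun J hJ => by simp only [hω.2.1 J hJ]; rfl, (kill_iff hX (Pol_le I) ω).1 hω.1 x⟩
  let f : secRing I →ₗ[ℂ] (Finset (Fin M) → secRing I) :=
    (LinearMap.toSpanSingleton (secRing I) _ ν).restrictScalars ℂ
  have hf0 : ∀ a, f a = a • ν := fun _ => rfl
  have hf : ∀ a ∈ Gr (secRing I) (m - s), f a ∈ Hm (secRing I) c m := fun a ha => by
    rw [hf0]
    refine ⟨fun v hv => by rw [map_smul, hν.1 v hv, smul_zero],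
      fun J hJ => by rw [Pi.smul_apply, hν.2.1 J hJ, smul_zero], fun J => ?_⟩
    have h := IsHom.mul ha (hν.2.2 J)
    rw [sub_add_cancel] at h
    exact h
  refine (LinearEquiv.ofBijective (f.restrict hf) ⟨?_, ?_⟩).finrank_eq
  · rw [injective_iff_map_eq_zero]
    intro a h
    have h1 : a.1 • ν = 0 := congrArg Subtype.val h
    refine Subtype.ext (Subtype.ext (funext fun x => ?_))
    obtain ⟨J, hJ⟩ := hne x
    have h2 : a.1.1 x * (ν J).1 x = 0 := congrFun (congrArg Subtype.val (congrFun h1 J)) x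
    exact (mul_eq_zero.1 h2).resolve_right hJ
  · rintro ⟨ω, hω⟩
    have hne' : ∀ x : cone I, (fun J => (ν J).1 x) ≠ 0 := fun x h => by
      obtain ⟨J, hJ⟩ := hne x
      exact hJ (congrFun h J)
    obtain ⟨a, ha, e⟩ := hX.regx (ι := Unit) (b := fun _ => s) (τ := fun _ => ν)
      (fun _ J => hν.2.2 J) (fun z => linearIndependent_unique_iff.2 (hne' z)) hω.2.2
      (fun z => by
        obtain ⟨κ, hκ⟩ := Kf_top (T := tangS I z.1) (c := c)
          (by rw [Fintype.card_fin]; exact hX.finrank_tang z.2) (hK hν z) (hne' z) (hK hω z)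
        rw [hκ]
        exact Submodule.smul_mem _ _ (Submodule.subset_span ⟨(), rfl⟩))
    refine ⟨⟨a (), ha ()⟩, Subtype.ext ?_⟩
    show a () • ν = ω
    rw [e, Fintype.sum_unique]

theorem HS_top (hX : IsManifold I c) (hM : M = n + 1 + c) (hn : 1 ≤ n) {s : ℕ} {ν : Finset (Fin M) → secRing I}
    (hν : ν ∈ Hm (secRing I) c s) (hne : ∀ x : cone I, ∃ J, (ν J).1 x ≠ 0) :
    HS I c = PowerSeries.X ^ s * HS I 0 := by
  ext m
  rw [PowerSeries.coeff_X_pow_mul']
  simp only [HS, PowerSeries.coeff_mk, finrank_Fm_zero]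
  rw [← lx4_rank hX hν hne]
  split_ifs with h
  · rw [Nat.cast_sub h]
  · rw [Gr_neg hX hM hn (by omega), finrank_bot, Nat.cast_zero]

theorem Vm_mem_Es (hX : IsManifold I c) {d : ℤ} {τ : Fin M → secRing I}
    (h : τ ∈ Vm (Gr (secRing I)) (Tg (secRing I)) d) (z : cone I) :
    (fun l => (τ l).1 z) ∈ Es I z.1 := by
  intro v hv
  obtain ⟨F⟩ := hX.exists_PF z.2
  have h1 : ∀ l, ∑ j, eval z.1 (F.t j l) * (τ j).1 z = 0 := fun l => by
    have h2 := h.1 (fun j => toSec I (F.t j l)) fun y => by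
      simpa only [toSec_val, pf_apply] using F.t_tan hX z.2 y.2 l
    have h3 := congrArg (lx4_ev z) h2
    rw [map_sum, map_zero] at h3
    simpa only [map_mul, lx4_ev_apply, toSec_val, pf_apply] using h3
  refine (mul_eq_zero.1 ?_).resolve_left F.δ_ne
  rw [Finset.mul_sum]
  have h4 : ∀ j, eval z.1 F.δ * ((τ j).1 z * v j)
      = ∑ l, v l * (eval z.1 (F.t j l) * (τ j).1 z) := fun j => by
    rw [mul_left_comm, ← F.t_fix hv j, Finset.mul_sum]
    exact Finset.sum_congr rfl fun l _ => by ring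
  simp only [h4]
  rw [Finset.sum_comm]
  exact Finset.sum_eq_zero fun l _ => by rw [← Finset.mul_sum, h1, mul_zero]

end Pool.Agent.HCF
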