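import Pool.Agent.P.MP_f644fa_ag.FE3

open Polynomial Finset

namespace Pool.Agent.HCF

lemma fe_deg1 (N : ℕ) : ((1 - X : ℂ[X]) ^ N).natDegree = N := by
  have : (1 - X : ℂ[X]) = -(X - C 1) := by simp
  rw [natDegree_pow, this, natDegree_neg, natDegree_X_sub_C, mul_one]

theorem fe (c s n : ℕ) (h : ℕ → ℂ[X]) (h0 : (h 0).coeff 0 = 1) (hz : ∀ k, c < k → h k = 0)
    (d0 : (h 0).natDegree ≤ s) (dk : ∀ k, (h k).natDegree ≤ (c + 1) * s)
    (hn : (2 * c + 4) * s + c ≤ n)
    (N1 : ∀ k, (1 - X) ^ (n + 1 - c) ∣ (-1) ^ k * expand ℂ 2 (h k) * h 0 ^ 2 -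
      expand ℂ 2 (h 0) * ∑ p ∈ HasAntidiagonal.antidiagonal (2 * k), (-1) ^ p.2 * h p.1 * h p.2)
    (N2 : (1 - X) ^ (n + 1) ∣ h 0 ^ 2 * (1 - X) ^ c - ∑ k ∈ range (c + 1), (-X) ^ k * h k) :
    ∃ b : Fin c → ℕ, Monotone b ∧
      (∀ k, h k = h 0 * ∑ J ∈ powersetCard k (univ : Finset (Fin c)), X ^ (∑ j ∈ J, b j)) ∧
      h 0 * (1 - X) ^ c = ∏ j, (1 - X ^ (b j + 1)) := by
  classical
  have hne : h 0 ≠ 0 := by intro e; rw [e] at h0; simp at h0
  have hsg : ∀ k : ℕ, ((-1 : ℂ[X]) ^ k).natDegree = 0 := by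
    intro k; rw [natDegree_pow]; simp
  have E1 : ∀ k, (-1) ^ k * expand ℂ 2 (h k) * h 0 ^ 2 =
      expand ℂ 2 (h 0) *
        ∑ p ∈ HasAntidiagonal.antidiagonal (2 * k), (-1) ^ p.2 * h p.1 * h p.2 := by
    intro k
    rw [← sub_eq_zero]
    apply eq_zero_of_dvd_of_natDegree_lt (N1 k)
    rw [fe_deg1]
    have a1 : ((-1) ^ k * expand ℂ 2 (h k) * h 0 ^ 2).natDegree ≤ (2 * c + 4) * s := by
      refine natDegree_mul_le.trans ?_
      have b1 := natDegree_mul_le (p := (-1) ^ k) (q := expand ℂ 2 (h k))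
      rw [hsg, natDegree_expand] at b1
      have b2 := natDegree_pow_le (p := h 0) (n := 2)
      have b3 := dk k
      nlinarith
    have a2 : (expand ℂ 2 (h 0) * ∑ p ∈ HasAntidiagonal.antidiagonal (2 * k),
        (-1) ^ p.2 * h p.1 * h p.2).natDegree ≤ (2 * c + 4) * s := by
      refine natDegree_mul_le.trans ?_
      rw [natDegree_expand]
      have b1 : (∑ p ∈ HasAntidiagonal.antidiagonal (2 * k),
          (-1) ^ p.2 * h p.1 * h p.2).natDegree ≤ 2 * ((c + 1) * s) := by
        apply natDegree_sum_le_of_forall_le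
        intro p _
        refine natDegree_mul_le.trans ?_
        have b1 := natDegree_mul_le (p := (-1) ^ p.2) (q := h p.1)
        rw [hsg] at b1
        have b3 := dk p.1
        have b4 := dk p.2
        omega
      nlinarith
    have := natDegree_sub_le_of_le a1 a2
    rw [max_self] at this
    omega
  set H : ℂ[X][X] := ∑ k ∈ range (c + 1), monomial k (h k) with hH
  have hHc : ∀ k, H.coeff k = h k := by
    intro k
    rw [hH, finsetSum_coeff]
    simp only [coeff_monomial]
    rw [Finset.sum_ite_eq']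
    split_ifs with hk
    · rfl
    · symm; apply hz; simp at hk; omega
  have hneg : ∀ (P : ℂ[X][X]) (k : ℕ), (P.comp (-X)).coeff k = (-1) ^ k * P.coeff k := by
    intro P k
    have : (-X : ℂ[X][X]) = C (-1) * X := by rw [C_neg, C_1]; ring
    rw [this, comp_C_mul_X_coeff, mul_comm]
  have hid : expand ℂ[X] 2 ((H.map (compRingHom (X ^ 2))).comp (-X)) * C (h 0 ^ 2) =
      C ((h 0).comp (X ^ 2)) * (H * H.comp (-X)) := by
    ext1 m
    rw [coeff_mul_C, coeff_C_mul, coeff_mul, coeff_expand two_pos]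
    simp only [hneg, hHc, coeff_map, coe_compRingHom_apply, ← expand_eq_comp_X_pow]
    split_ifs with hm
    · obtain ⟨k, rfl⟩ := hm
      rw [Nat.mul_div_cancel_left _ two_pos, E1]
      congr 1
      apply Finset.sum_congr rfl
      intro p _
      ring
    · have : ∑ p ∈ HasAntidiagonal.antidiagonal m, h p.1 * ((-1) ^ p.2 * h p.2) = 0 := by
        have e := Finset.Nat.sum_antidiagonal_swap (n := m)
          (f := fun p => h p.1 * ((-1) ^ p.2 * h p.2))
        have e2 : ∑ p ∈ HasAntidiagonal.antidiagonal m, h p.1 * ((-1) ^ p.2 * h p.2) =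
            -∑ p ∈ HasAntidiagonal.antidiagonal m, h p.1 * ((-1) ^ p.2 * h p.2) := by
          conv_lhs => rw [← e]
          rw [← sum_neg_distrib]
          apply Finset.sum_congr rfl
          intro p hp
          rw [HasAntidiagonal.mem_antidiagonal] at hp
          simp only [Prod.fst_swap, Prod.snd_swap]
          rcases Nat.even_or_odd p.1 with h1 | h1
          · have h2 : Odd p.2 := by
              rw [Nat.even_iff] at h1; rw [Nat.odd_iff]; omega
            rw [h1.neg_one_pow, h2.neg_one_pow]; ring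
          · have h2 : Even p.2 := by
              rw [Nat.odd_iff] at h1; rw [Nat.even_iff]; omega
            rw [h1.neg_one_pow, h2.neg_one_pow]; ring
        have e3 : (2 : ℂ[X]) * ∑ p ∈ HasAntidiagonal.antidiagonal m,
            h p.1 * ((-1) ^ p.2 * h p.2) = 0 := by linear_combination e2
        exact (mul_eq_zero.1 e3).resolve_left two_ne_zero
      rw [this]; simp
  obtain ⟨F, hHF, hF0, hFE⟩ := fe_content (H := H)
    (by rw [hHc, ← coeff_zero_eq_eval_zero, h0]; exact one_ne_zero) (by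
      intro t z
      have := congrArg (evalEval t z) hid
      rw [expand_eq_comp_X_pow] at this
      simpa only [hHc, evalEval_mul, evalEval_C, fe_comp, fe_map, evalEval_pow, evalEval_neg,
        evalEval_X, eval_mul, eval_pow, eval_comp, eval_X] using this)
  rw [hHc] at hHF
  have hk : ∀ k, h k = h 0 * F.coeff k := by
    intro k
    rw [← hHc k, hHF, coeff_C_mul]
  have hdF : F.natDegree ≤ c := by
    rw [natDegree_le_iff_coeff_eq_zero]
    intro k hk'
    have := hk k
    rw [hz k hk'] at this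
    exact (mul_eq_zero.1 this.symm).resolve_left hne
  have hsum : ∑ k ∈ range (c + 1), (-X) ^ k * h k = h 0 * F.eval (-X) := by
    rw [eval_eq_sum_range' (n := c + 1) (by omega), mul_sum]
    apply Finset.sum_congr rfl
    intro k _
    rw [hk k]; ring
  obtain ⟨u, hu, hu1⟩ := exists_eq_pow_rootMultiplicity_mul_and_not_dvd (h 0) hne 1
  set e := rootMultiplicity 1 (h 0) with he
  have hes : e ≤ s := by
    have : u ≠ 0 := by rintro rfl; simp at hu1
    have h2 := congrArg natDegree hu
    rw [natDegree_mul (pow_ne_zero _ (X_sub_C_ne_zero 1)) this, natDegree_pow,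
      natDegree_X_sub_C] at h2
    omega
  have hdv : (1 - X) ^ (n + 1 - e) ∣ h 0 * (1 - X) ^ c - F.eval (-X) := by
    have e1 : h 0 ^ 2 * (1 - X) ^ c - ∑ k ∈ range (c + 1), (-X) ^ k * h k =
        (1 - X) ^ e * (((-1) ^ e * u) * (h 0 * (1 - X) ^ c - F.eval (-X))) := by
      have : (1 - X) ^ e * ((-1) ^ e * u) = h 0 := by
        rw [← mul_assoc, ← mul_pow]
        conv_rhs => rw [hu]
        congr 2; simp
      rw [hsum, ← mul_assoc, this]; ring
    have e2 : n + 1 = e + (n + 1 - e) := by nlinarith [Nat.sub_add_cancel (show e ≤ n + 1 by nlinarith)]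
    have hx : (1 - X : ℂ[X]) ≠ 0 := by
      intro h1; have := congrArg (eval 0) h1; simp at this
    rw [e1, e2, pow_add, mul_dvd_mul_iff_left (pow_ne_zero _ hx)] at N2
    refine IsCoprime.dvd_of_dvd_mul_left ?_ N2
    apply IsCoprime.pow_left
    have hirr : Irreducible (X - C (1 : ℂ)) := irreducible_X_sub_C 1
    have hc : IsCoprime (X - C (1 : ℂ)) u := hirr.coprime_iff_not_dvd.2 hu1
    have : (1 - X : ℂ[X]) = -(X - C 1) := by simp
    rw [this]
    apply IsCoprime.neg_left
    apply IsCoprime.mul_right _ hc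
    apply IsCoprime.pow_right
    exact isCoprime_one_right.neg_right
  have hv : (1 - X) ^ c ∣ F.eval (-X) := by
    have h1 : (1 - X : ℂ[X]) ^ c ∣ (1 - X) ^ (n + 1 - e) := pow_dvd_pow _ (by
      have : c + e ≤ n + 1 := by nlinarith
      omega)
    have h2 := dvd_sub (dvd_mul_left ((1 - X : ℂ[X]) ^ c) (h 0)) (h1.trans hdv)
    simpa using h2
  obtain ⟨b, hb, hF⟩ := fe_prod hdF hF0 hFE hv
  have hkb : ∀ k, h k = h 0 * ∑ J ∈ powersetCard k (univ : Finset (Fin c)), X ^ (∑ j ∈ J, b j) := by
    intro k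
    rw [hk k, hF, fe_coeff]
  refine ⟨b, hb, hkb, ?_⟩
  have hev : F.eval (-X) = ∏ j, (1 - X ^ (b j + 1)) := by
    rw [hF, eval_prod]
    apply Finset.prod_congr rfl
    intro j _
    simp only [eval_add, eval_one, eval_mul, eval_C, eval_X]
    ring
  have hsb : ∑ j, b j ≤ (c + 1) * s := by
    have h1 := hkb c
    have h2 : powersetCard c (univ : Finset (Fin c)) = {univ} := by
      have := powersetCard_self (univ : Finset (Fin c))
      rwa [card_univ, Fintype.card_fin] at this
    rw [h2, sum_singleton] at h1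
    have h3 := dk c
    rw [h1, natDegree_mul hne (pow_ne_zero _ X_ne_zero), natDegree_X_pow] at h3
    omega
  rw [← sub_eq_zero, ← hev]
  apply eq_zero_of_dvd_of_natDegree_lt hdv
  rw [fe_deg1]
  have a1 : (h 0 * (1 - X) ^ c).natDegree ≤ (c + 1) * s + c := by
    refine natDegree_mul_le.trans ?_
    rw [fe_deg1]; nlinarith
  have a2 : (F.eval (-X)).natDegree ≤ (c + 1) * s + c := by
    rw [hev]
    refine (natDegree_prod_le _ _).trans ?_
    have : ∑ j, (1 - X ^ (b j + 1) : ℂ[X]).natDegree ≤ ∑ j, (b j + 1) := by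
      apply Finset.sum_le_sum
      intro j _
      refine (natDegree_sub_le _ _).trans ?_
      simp
    rw [sum_add_distrib] at this
    simp only [sum_const, card_univ, Fintype.card_fin, smul_eq_mul, mul_one] at this
    omega
  have := natDegree_sub_le_of_le a1 a2
  rw [max_self] at this
  have h5 : (c + 1) * s + c + e < n + 1 := by nlinarith
  omega

end Pool.Agent.HCF
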