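import Pool.Agent.P.MP_f644fa_ag.Num0

/-! The two congruences between the numerators of the Hilbert series. -/

noncomputable section
namespace Pool.Agent.HCF
open Finset Module PowerSeries
open scoped Kronecker

variable {M n : ℕ} {X R RR : Type} [CommRing R] [Algebra ℂ R] [CommRing RR] [Algebra ℂ RR]

theorem num_dvd {a b b' : Polynomial ℂ} (h : b = b') : a ∣ b ↔ a ∣ b' := by rw [h]

theorem num_peq {g : Polynomial ℂ} {f f' : ℂ⟦X⟧} (h : Nm n g f) (e : PEq f f') : Nm n g f' := by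
  obtain ⟨p, hp⟩ := h
  obtain ⟨q, hq⟩ := e
  exact ⟨q + p, by rw [hp, hq, Polynomial.coe_add, add_assoc]⟩

theorem num_mul {g : Polynomial ℂ} {f : ℂ⟦X⟧} (h : Nm n g f) (q : Polynomial ℂ) :
    Nm n (q * g) ((q : ℂ⟦X⟧) * f) := by
  obtain ⟨p, hp⟩ := h
  exact ⟨q * p, by rw [Polynomial.coe_mul, Polynomial.coe_mul, hp]; ring⟩

theorem num_sum {ι : Type} (s : Finset ι) {g : ι → Polynomial ℂ} {f : ι → ℂ⟦X⟧}
    (h : ∀ i ∈ s, Nm n (g i) (f i)) : Nm n (∑ i ∈ s, g i) (∑ i ∈ s, f i) := by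
  classical
  induction s using Finset.induction_on with
  | empty => exact ⟨0, by simp⟩
  | insert a s ha ih =>
    obtain ⟨p, hp⟩ := h a (mem_insert_self _ _)
    obtain ⟨q, hq⟩ := ih fun i hi => h i (mem_insert_of_mem hi)
    refine ⟨p + q, ?_⟩
    rw [sum_insert ha, sum_insert ha, Polynomial.coe_add, Polynomial.coe_add, hp, hq]
    ring

theorem num_sign {g : Polynomial ℂ} {f : ℂ⟦X⟧} (h : Nm n g f) (k : ℕ) :
    Nm n ((-1) ^ k * g) (C ((-1 : ℂ) ^ k) * f) := by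
  have := num_mul h ((-1) ^ k)
  have e : (((-1) ^ k : Polynomial ℂ) : ℂ⟦X⟧) = C ((-1 : ℂ) ^ k) := by
    rw [Polynomial.coe_pow, map_pow, map_neg, map_one, ← Polynomial.coeToPowerSeries.ringHom_apply,
      map_neg, map_one]
  rwa [e] at this

theorem num_rat {I : Type} [Fintype I] {S : NS0 M n X R RR} {D : Dat S I} {T : Matrix I I ℂ}
    (h : D.Ok T) : ∃ g : Polynomial ℂ, Nm n g (D.chi T) := by
  obtain ⟨g, hg⟩ := Dat.rat h
  exact ⟨g, 0, by rw [hg]; simp⟩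

theorem num_piM (S : NS M n X R RR) {g : Polynomial ℂ} {k : ℕ} (hg : Nm n g (S.HS k)) :
    Nm n (Polynomial.X ^ k * g) (S.lam.chi (piM (Fin M) k)) := by
  have := num_mul hg (Polynomial.X ^ k)
  rwa [Polynomial.coe_pow, Polynomial.coe_X, ← S.chi_piM] at this

theorem num_parM (M : ℕ) (ε : ℂ) :
    parM (Fin M) ε = ∑ k ∈ range (M + 1), ε ^ k • piM (Fin M) k := by
  ext J J'
  have hJ : J.card ∈ range (M + 1) := by
    have := J.card_le_univ
    rw [Fintype.card_fin] at this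
    exact mem_range.2 (by omega)
  rw [Matrix.sum_apply]
  by_cases h : J = J'
  · subst h
    simp only [parM, piM, Matrix.smul_apply, Matrix.diagonal_apply_eq, smul_eq_mul, mul_ite,
      mul_one, mul_zero]
    rw [Finset.sum_ite_eq, if_pos hJ]
  · simp [parM, piM, Matrix.diagonal_apply_ne _ h]

theorem num_piM_sq (M k : ℕ) : piM (Fin M) k * piM (Fin M) k = piM (Fin M) k := by
  unfold piM
  rw [Matrix.diagonal_mul_diagonal]
  congr 1
  funext J
  split_ifs <;> simp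

theorem num_sw_unit : swM Unit * ((1 : Matrix Unit Unit ℂ) ⊗ₖ (1 : Matrix Unit Unit ℂ)) =
    (1 : Matrix Unit Unit ℂ) ⊗ₖ (1 : Matrix Unit Unit ℂ) := by
  ext ⟨⟨⟩, ⟨⟩⟩ ⟨⟨⟩, ⟨⟩⟩
  simp [swM, Matrix.mul_apply, Matrix.kroneckerMap_apply]

theorem num_unit2 (S : NS M n X R RR) {T : Matrix (Finset (Fin M)) (Finset (Fin M)) ℂ}
    (h : S.lam.Ok T) :
    (S.lam.tensor ((Dat.one S.toNS0).tensor (Dat.one S.toNS0))).chi
      (T ⊗ₖ ((1 : Matrix Unit Unit ℂ) ⊗ₖ (1 : Matrix Unit Unit ℂ))) = S.lam.chi T := by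
  rw [Dat.chi_unit' h (Dat.Ok.one _), Dat.chi_unit h]

theorem num_cop (a b d : ℕ) : IsCoprime ((1 - Polynomial.X : Polynomial ℂ) ^ d)
    (Polynomial.X ^ a * (1 + Polynomial.X) ^ b) := by
  have h1 : IsCoprime (1 - Polynomial.X : Polynomial ℂ) Polynomial.X := ⟨1, 1, by ring⟩
  have h2 : IsCoprime (1 - Polynomial.X : Polynomial ℂ) (1 + Polynomial.X) :=
    ⟨Polynomial.C (1 / 2), Polynomial.C (1 / 2), by
      have : (Polynomial.C (1 / 2 : ℂ)) * 2 = 1 := by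
        rw [← Polynomial.C_ofNat, ← Polynomial.C_mul]; norm_num
      linear_combination this⟩
  exact h1.pow.mul_right h2.pow

theorem NS.num1 (S : NS M n X R RR) {c : ℕ} (hM : M = n + 1 + c) (g : ℕ → Polynomial ℂ)
    (hg : ∀ k, Nm n (g k) (S.HS k)) (k : ℕ) :
    (1 - Polynomial.X) ^ (n + 1 - c) ∣ (-1) ^ k * Polynomial.expand ℂ 2 (g k) * g 0 ^ 2 -
      Polynomial.expand ℂ 2 (g 0) * ∑ q ∈ antidiagonal (2 * k), (-1) ^ q.2 * g q.1 * g q.2 := by
  have hle : (1 - Polynomial.X : Polynomial ℂ) ^ (n + 1 - c) ∣ (1 - Polynomial.X) ^ (n + 1) :=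
    pow_dvd_pow _ (Nat.sub_le _ _)
  have ok1 : S.lam.Ok 1 := Dat.Ok.one _
  obtain ⟨Λ, hΛ⟩ := num_rat ok1
  -- the identity for the trivial bundle
  have h3 : (1 - Polynomial.X : Polynomial ℂ) ^ (n + 1 - c) ∣
      Polynomial.expand ℂ 2 (g 0) * (1 + Polynomial.X) ^ c - Λ := by
    refine hle.trans (Nm.dvd ((hg 0).ex2 c) hΛ ?_)
    have e := NS.ident2 (S := S) (Dat.Ok.one (Dat.one S.toNS0))
    rw [num_sw_unit, num_unit2 S ok1, mul_one, S.chi_one] at e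
    rw [← hM]
    exact e
  -- numerators
  have okq : ∀ q : ℕ × ℕ, (S.lam.tensor S.lam).Ok (piM (Fin M) q.1 ⊗ₖ piM (Fin M) q.2) :=
    fun q => (S.ok_piM q.1).kron (S.ok_piM q.2)
  choose N hN using fun q : ℕ × ℕ => num_rat (ok1.kron (okq q))
  choose N' hN' using fun q : ℕ × ℕ => num_rat (okq q)
  have h1 : (1 - Polynomial.X : Polynomial ℂ) ^ (n + 1 - c) ∣
      (-1) ^ k * (Polynomial.expand ℂ 2 (Polynomial.X ^ k * g k) * (1 + Polynomial.X) ^ c) -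
        ∑ q ∈ antidiagonal (2 * k), (-1) ^ q.2 * N q := by
    have e := NS.ident2 (S := S) (S.ok_piM k)
    rw [num_piM_sq] at e
    have a1 := (num_piM S (hg k)).ex2 c
    rw [← hM] at a1
    have a2 := num_sign (num_peq a1 e) k
    rw [NS.chi_ssw ok1 k] at a2
    exact hle.trans (Nm.dvd a2 (num_sum _ fun q _ => num_sign (hN q) q.2) (PEq.refl _))
  have h2 : ∀ q ∈ antidiagonal (2 * k), (1 - Polynomial.X : Polynomial ℂ) ^ (n + 1 - c) ∣
      (-1) ^ q.2 * N q * g 0 ^ 2 - Λ * Polynomial.X ^ (2 * k) * ((-1) ^ q.2 * g q.1 * g q.2) := by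
    intro q hq
    have b1 := NS.mult hM ok1 (okq q) hΛ (hN' q) (hN q) (hg 0)
    have b2 := NS.mult hM (S.ok_piM q.1) (S.ok_piM q.2) (num_piM S (hg q.1)) (num_piM S (hg q.2))
      (hN' q) (hg 0)
    have b3 := (b1.mul_left ((-1) ^ q.2 * g 0)).add (b2.mul_left ((-1) ^ q.2 * Λ))
    rw [← mem_antidiagonal.1 hq]
    refine (num_dvd ?_).1 b3
    ring
  have h2' := dvd_sum h2
  rw [sum_sub_distrib, ← sum_mul, ← mul_sum] at h2'
  refine (num_cop (2 * k) c (n + 1 - c)).dvd_of_dvd_mul_left ?_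
  have b4 := ((h1.mul_right (g 0 ^ 2)).add h2').sub (h3.mul_right (Polynomial.X ^ (2 * k) *
    ∑ q ∈ antidiagonal (2 * k), (-1) ^ q.2 * g q.1 * g q.2))
  rw [map_mul, map_pow, Polynomial.expand_X] at b4
  refine (num_dvd ?_).1 b4
  ring

theorem NS.num2 (S : NS M n X R RR) {c : ℕ} (hM : M = n + 1 + c) (g : ℕ → Polynomial ℂ)
    (hg : ∀ k, Nm n (g k) (S.HS k)) :
    (1 - Polynomial.X) ^ (n + 1) ∣ g 0 ^ 2 * (1 - Polynomial.X) ^ c -
      ∑ k ∈ range (M + 1), (-Polynomial.X) ^ k * g k := by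
  have e := NS.ident1 (S := S) (Dat.Ok.one (Dat.one S.toNS0)) (Dat.Ok.one (Dat.one S.toNS0))
  rw [num_unit2 S (S.ok_parM _), S.chi_one, num_parM,
    Dat.chi_sum _ fun k _ => (S.ok_piM k).smul _] at e
  have a1 := (hg 0).prod (hg 0) c
  rw [← hM, ← sq] at a1
  refine Nm.dvd a1 (num_sum _ fun k _ => ?_) e
  rw [Dat.chi_smul (S.ok_piM k), neg_pow, mul_assoc]
  exact num_sign (num_piM S (hg k)) k

end Pool.Agent.HCF
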