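import Pool.Agent.P.MP_f644fa_ag.Van
import Pool.Agent.P.MP_f644fa_ag.Num
import Pool.Agent.P.MP_f644fa_ag.NsInst
import Pool.Agent.P.MP_f644fa_ag.Gen
import Pool.Agent.P.MP_f644fa_ag.FE

/-! The assembly. -/

noncomputable section
namespace Pool.Agent.HCF
open Module Finset

variable {M : ℕ} {I : Ideal (SS M)} {c n : ℕ}

theorem main_coe_sum {ι : Type} (s : Finset ι) (p : ι → Polynomial ℂ) :
    ((∑ i ∈ s, p i : Polynomial ℂ) : PowerSeries ℂ) = ∑ i ∈ s, (p i : PowerSeries ℂ) :=
  map_sum Polynomial.coeToPowerSeries.ringHom p s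

theorem main_coe_prod {ι : Type} (s : Finset ι) (p : ι → Polynomial ℂ) :
    ((∏ i ∈ s, p i : Polynomial ℂ) : PowerSeries ℂ) = ∏ i ∈ s, (p i : PowerSeries ℂ) :=
  map_prod Polynomial.coeToPowerSeries.ringHom p s

theorem one_sub_X_ne : (1 - PowerSeries.X : PowerSeries ℂ) ≠ 0 := by
  intro h
  have := congrArg PowerSeries.constantCoeff h
  simp at this

theorem le_sum_of_card {c : ℕ} {β : Fin c → ℕ} (hβ : Monotone β) (J : Finset (Fin c)) :
    ∑ i : Fin c with i.val < J.card, β i ≤ ∑ j ∈ J, β j := by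
  have hc : J.card ≤ c := by simpa using J.card_le_univ
  have h1 : ∑ j ∈ J, β j = ∑ i : Fin J.card, β (J.orderEmbOfFin rfl i) := by
    conv_lhs => rw [← Finset.image_orderEmbOfFin_univ J rfl]
    rw [Finset.sum_image fun a _ b _ h => (J.orderEmbOfFin rfl).injective h]
  have h2 : ∑ i : Fin c with i.val < J.card, β i = ∑ i : Fin J.card, β (Fin.castLE hc i) := by
    symm
    refine Finset.sum_bij (fun i _ => Fin.castLE hc i) (fun i _ => by simp) ?_ ?_ fun _ _ => rfl
    · intro a _ b _ h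
      exact Fin.castLE_injective hc h
    · intro b hb
      exact ⟨⟨b.val, (mem_filter.1 hb).2⟩, mem_univ _, rfl⟩
  rw [h1, h2]
  refine Finset.sum_le_sum fun i _ => hβ ?_
  have h3 : StrictMono fun i : Fin J.card => (J.orderEmbOfFin rfl i).val :=
    fun a b h => (J.orderEmbOfFin rfl).strictMono h
  obtain ⟨i, hi⟩ := i
  change i ≤ (J.orderEmbOfFin rfl ⟨i, hi⟩).val
  induction i with
  | zero => exact Nat.zero_le _
  | succ i ih =>
    have := ih (by omega) (mem_univ _)
    exact Nat.succ_le_of_lt (lt_of_le_of_lt this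
      (h3 (show (⟨i, by omega⟩ : Fin J.card) < ⟨i + 1, hi⟩ from Nat.lt_succ_self i)))

theorem finrank_G_zero {A : Type} [CommRing A] [Algebra ℂ A] [Nontrivial A] {G : ℤ → Submodule ℂ A}
    (hG : GR G) : finrank ℂ (G 0) = 1 := by
  have h : G 0 = Submodule.span ℂ {(1 : A)} := by
    apply le_antisymm
    · intro a ha
      obtain ⟨r, rfl⟩ := hG.zero a ha
      rw [Algebra.algebraMap_eq_smul_one]
      exact Submodule.smul_mem _ _ (Submodule.subset_span rfl)
    · rw [Submodule.span_singleton_le_iff_mem]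
      exact hG.one
  rw [h, finrank_span_singleton one_ne_zero]

/-- the Hilbert series are those of a complete intersection -/
theorem numerics (hX : IsManifold I c) (hM : M = n + 1 + c) (hn : 1 ≤ n)
    [UniqueFactorizationMonoid (secRing I)] {s : ℕ} {ν : Finset (Fin M) → secRing I}
    (hν : ν ∈ Hm (secRing I) c s) (hne : ∀ x : cone I, ∃ J, (ν J).1 x ≠ 0)
    (hi : (2 * c + 4) * s + c ≤ n) : ∃ β : Fin c → ℕ, Monotone β ∧
      (∀ k, HS I k = HS I 0 *
        ∑ J ∈ powersetCard k (univ : Finset (Fin c)), PowerSeries.X ^ (∑ j ∈ J, β j)) ∧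
      (1 - PowerSeries.X) ^ M * HS I 0 = ∏ j, (1 - PowerSeries.X ^ (β j + 1)) := by
  have hG := gr_sec hX hM hn
  have := hX.isDomain_sec
  have hex : ∀ k : ℕ, ∃ h : Polynomial ℂ, h.natDegree ≤ (if k = 0 then 1 else c + 1) * s ∧
      (h : PowerSeries ℂ) = (1 - PowerSeries.X) ^ (n + 1) * HS I k := fun k =>
    degree_bound hX hM hn hν hne (by by_cases h : k = 0 <;> simp [h])
  choose h hd hh using hex
  obtain ⟨S, hS⟩ := exists_NS hX hM
  obtain ⟨m₀, hm₀⟩ := finrank_Hm_large hX hM hn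
  have hN : ∀ k, Nm n (h k) (S.HS k) := fun k => by
    obtain ⟨p, hp⟩ : PEq (HS I k) (S.HS k) := PEq.of_coeff m₀ fun m hm => by
      simp only [HS, NS0.HS, PowerSeries.coeff_mk]
      rw [hS, hm₀ m hm k]
    exact ⟨p, by rw [hh, hp]⟩
  have hz : ∀ k, c < k → h k = 0 := fun k hk => by
    have : HS I k = 0 := by
      ext m
      simp only [HS, PowerSeries.coeff_mk]
      rw [Hm_gt hX (Pol_le I) hk]
      simp
    rw [← Polynomial.coe_eq_zero_iff, hh, this, mul_zero]
  have h0 : (h 0).coeff 0 = 1 := by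
    rw [← Polynomial.coeff_coe, hh, PowerSeries.coeff_zero_eq_constantCoeff, map_mul, map_pow,
      map_sub, map_one, PowerSeries.constantCoeff_X, ← PowerSeries.coeff_zero_eq_constantCoeff]
    simp only [HS, PowerSeries.coeff_mk, finrank_Fm_zero]
    rw [Nat.cast_zero, finrank_G_zero hG]
    simp
  have N2 := S.num2 hM h hN
  have e : ∑ k ∈ range (M + 1), (-Polynomial.X) ^ k * h k =
      ∑ k ∈ range (c + 1), (-Polynomial.X) ^ k * h k := by
    symm
    refine Finset.sum_subset (range_subset_range.2 (by omega)) fun k _ hk => ?_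
    rw [hz k (by simpa [Nat.lt_succ_iff] using hk), mul_zero]
  rw [e] at N2
  obtain ⟨β, hβ, h1, h2⟩ := fe c s n h h0 hz (by simpa using hd 0) (fun k => (hd k).trans
    (Nat.mul_le_mul_right _ (by split_ifs <;> omega))) hi (S.num1 hM h hN) N2
  refine ⟨β, hβ, fun k => ?_, ?_⟩
  · apply mul_left_cancel₀ (pow_ne_zero (n + 1) one_sub_X_ne)
    rw [← hh, ← mul_assoc, ← hh, h1 k, Polynomial.coe_mul, main_coe_sum]
    simp
  · have := congrArg (fun p : Polynomial ℂ => (p : PowerSeries ℂ)) h2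
    simp only [Polynomial.coe_mul, main_coe_prod, Polynomial.coe_sub, Polynomial.coe_pow,
      Polynomial.coe_one, Polynomial.coe_X, hh] at this
    rw [← this, show (1 - PowerSeries.X : PowerSeries ℂ) ^ M =
      (1 - PowerSeries.X) ^ (n + 1 + c) from congrArg _ hM]
    ring

theorem main (hX : IsManifold I c) (hM : M = n + 1 + c) (hn : 1 ≤ n)
    [UniqueFactorizationMonoid (secRing I)] {b : ℤ} (hb : CanonicalIs I c b)
    (hi : (2 * c + 4) * (b + n + 1) + c ≤ n) :
    ∃ (f : Fin c → SS M) (d : Fin c → ℕ), (∀ i, (f i).IsHomogeneous (d i)) ∧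
      I = Ideal.span (Set.range f) := by
  have hG := gr_sec hX hM hn
  have := hX.isDomain_sec
  obtain ⟨ν, hν, hne⟩ := exists_nu hX hb
  have hs0 : 0 ≤ b + M - c := by
    by_contra hlt
    have h := hG.Fm_neg (Tg (secRing I)) c (not_le.1 hlt)
    rw [show Hm (secRing I) c (b + M - c) = ⊥ from h, Submodule.mem_bot] at hν
    obtain ⟨x, hx⟩ := hX.nonempty
    obtain ⟨J, hJ⟩ := hne ⟨x, hx⟩
    exact hJ (by rw [hν]; rfl)
  obtain ⟨s, hs⟩ := Int.eq_ofNat_of_zero_le hs0
  rw [hs] at hν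
  have hs' : b + n + 1 = s := by rw [← hs, hM]; push_cast; ring
  rw [hs'] at hi
  obtain ⟨β, hβ, h1, h2⟩ := numerics hX hM hn hν hne (by exact_mod_cast hi)
  have hco : ∀ (k m : ℕ), (finrank ℂ (Hm (secRing I) k m) : ℂ) =
      ∑ J ∈ powersetCard k (univ : Finset (Fin c)),
        (finrank ℂ (Gr (secRing I) (m - (∑ j ∈ J, β j : ℕ))) : ℂ) := fun k m => by
    have := congrArg (PowerSeries.coeff m) (h1 k)
    rw [mul_sum, map_sum] at this
    simp only [HS, PowerSeries.coeff_mk] at this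
    rw [this]
    refine sum_congr rfl fun J _ => ?_
    rw [PowerSeries.coeff_mul_X_pow']
    split_ifs with h
    · rw [PowerSeries.coeff_mk, finrank_Fm_zero, Nat.cast_sub h]
    · rw [hG.neg _ (by omega), finrank_bot, Nat.cast_zero]
  obtain ⟨τ, -, -, hτ⟩ := split (T := Tg (secRing I)) hG β hβ
    (fun j d hd _ => by
      rcases lt_or_ge d 0 with h | h
      · exact hG.Fm_neg _ _ h
      obtain ⟨m, rfl⟩ := Int.eq_ofNat_of_zero_le h
      have := hG.fin_Fm (Tg (secRing I)) j m
      rw [← Submodule.finrank_eq_zero, ← Nat.cast_eq_zero (R := ℂ), hco]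
      refine sum_eq_zero fun J hJ => ?_
      have h3 := le_sum_of_card hβ J
      rw [(mem_powersetCard.1 hJ).2] at h3
      have h4 : ((∑ i : Fin c with i.val < j, β i : ℕ) : ℤ) =
          ∑ i : Fin c with i.val < j, (β i : ℤ) := by push_cast; rfl
      rw [hG.neg _ (by omega), finrank_bot, Nat.cast_zero])
    (fun d => by
      rcases lt_or_ge d 0 with h | h
      · rw [← finrank_Fm_one, hG.Fm_neg _ _ h, finrank_bot]
        symm
        exact sum_eq_zero fun i _ => by rw [hG.neg _ (by omega), finrank_bot]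
      obtain ⟨m, rfl⟩ := Int.eq_ofNat_of_zero_le h
      have h3 := hco 1 m
      rw [finrank_Fm_one, powersetCard_one, sum_map] at h3
      simp only [Function.Embedding.coeFn_mk] at h3
      exact_mod_cast h3)
    (fun d => Hm_gt hX (Pol_le I) (Nat.lt_succ_self c) d)
  obtain ⟨f, hf, hI⟩ := generators hX hG β τ hτ (by
    rw [← h2]
    simp only [HS, finrank_Fm_zero])
  exact ⟨f, _, hf, hI⟩

end Pool.Agent.HCF
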