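import Pool.Agent.P.MP_f644fa_ag.G5a

/-! Sections of `O(m)` are the Cauchy-Riemann functions of weight `m` on the link. -/

noncomputable section
namespace Pool.Agent.HCF
open MvPolynomial Module Set Filter Topology
open scoped ContDiff InnerProductSpace

variable {M : ℕ} {I : Ideal (SS M)} {c n : ℕ} {C : CR M n (Sm (Lk I))}

/-- the homogeneous extension -/
def g5G (m : ℤ) (g : VV M → ℂ) (x : VV M) : ℂ :=
  ((‖x‖ ^ m : ℝ) : ℂ) * g (((‖x‖⁻¹ : ℝ) : ℂ) • x)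

theorem g5_diff (m : ℤ) {g : VV M → ℂ} (hg : ContDiff ℝ ∞ g) {x : VV M} (hx : x ≠ 0) :
    DifferentiableAt ℝ (g5G m g) x := by
  have hn : DifferentiableAt ℝ (fun y : VV M => ‖y‖) x :=
    DifferentiableAt.norm ℂ differentiableAt_id hx
  have h0 : ‖x‖ ≠ 0 := norm_ne_zero_iff.2 hx
  have h1 : DifferentiableAt ℝ (fun y : VV M => ((‖y‖ ^ m : ℝ) : ℂ)) x :=
    Complex.ofRealCLM.differentiableAt.comp x (hn.zpow (Or.inl h0))
  have h2 : DifferentiableAt ℝ (fun y : VV M => ((‖y‖⁻¹ : ℝ) : ℂ)) x :=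
    Complex.ofRealCLM.differentiableAt.comp x (hn.inv h0)
  exact h1.mul ((hg.differentiable (by simp) _).comp x (h2.smul differentiableAt_id))

theorem g5_line {G : VV M → ℂ} {x : VV M} (hG : DifferentiableAt ℝ G x) (v : VV M) :
    HasDerivAt (fun s : ℝ => G (x + (s : ℂ) • v)) (fderiv ℝ G x v) 0 := by
  have h1 : HasDerivAt (fun s : ℝ => x + (s : ℂ) • v) v 0 := by
    simpa using (Complex.ofRealCLM.hasDerivAt (x := 0)).smul_const v |>.const_add x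
  have h2 : HasFDerivAt G (fderiv ℝ G x) (x + ((0 : ℝ) : ℂ) • v) := by
    simpa using hG.hasFDerivAt
  exact h2.comp_hasDerivAt (0 : ℝ) h1

theorem g5_perp (m : ℤ) {g : VV M → ℂ} (hg : ContDiff ℝ ∞ g) {x v : VV M} (hx : x ≠ 0)
    (hv : ⟪x, v⟫_ℂ = 0) : fderiv ℝ (g5G m g) x v =
      ((‖x‖ ^ m : ℝ) : ℂ) * fderiv ℝ g (((‖x‖⁻¹ : ℝ) : ℂ) • x) (((‖x‖⁻¹ : ℝ) : ℂ) • v) := by
  have h0 : ‖x‖ ≠ 0 := norm_ne_zero_iff.2 hx
  have hsq : (fun s : ℝ => ‖x + (s : ℂ) • v‖) = fun s => √(‖x‖ ^ 2 + s ^ 2 * ‖v‖ ^ 2) := by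
    funext s
    have := norm_add_sq_eq_norm_sq_add_norm_sq_of_inner_eq_zero (𝕜 := ℂ) x ((s : ℂ) • v)
      (by rw [inner_smul_right, hv, mul_zero])
    rw [← Real.sqrt_sq (norm_nonneg (x + (s : ℂ) • v))]
    congr 1
    rw [sq, this, norm_smul, Complex.norm_real, Real.norm_eq_abs, ← sq_abs s]
    ring
  have hn : HasDerivAt (fun s : ℝ => ‖x + (s : ℂ) • v‖) 0 0 := by
    rw [hsq]
    have h1 : HasDerivAt (fun s : ℝ => ‖x‖ ^ 2 + s ^ 2 * ‖v‖ ^ 2) 0 0 := by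
      simpa using (((hasDerivAt_id (0 : ℝ)).pow 2).mul_const (‖v‖ ^ 2)).const_add (‖x‖ ^ 2)
    simpa using h1.sqrt (by simpa using hx)
  have hn0 : ‖x + ((0 : ℝ) : ℂ) • v‖ = ‖x‖ := by simp
  have h1 : HasDerivAt (fun s : ℝ => ((‖x + (s : ℂ) • v‖ ^ m : ℝ) : ℂ)) 0 0 := by
    have := (hasDerivAt_zpow m ‖x + ((0 : ℝ) : ℂ) • v‖ (Or.inl (hn0 ▸ h0))).comp (0 : ℝ) hn
    simpa using this.ofReal_comp
  have h2 : HasDerivAt (fun s : ℝ => ((‖x + (s : ℂ) • v‖⁻¹ : ℝ) : ℂ)) 0 0 := by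
    simpa using (hn.inv (hn0 ▸ h0)).ofReal_comp
  have h3 : HasDerivAt (fun s : ℝ => x + (s : ℂ) • v) v 0 := by
    simpa using (Complex.ofRealCLM.hasDerivAt (x := 0)).smul_const v |>.const_add x
  have h4 : HasDerivAt (fun s : ℝ => ((‖x + (s : ℂ) • v‖⁻¹ : ℝ) : ℂ) • (x + (s : ℂ) • v))
      (((‖x‖⁻¹ : ℝ) : ℂ) • v) 0 := by
    have := h2.smul h3
    rw [zero_smul, add_zero, hn0] at this
    exact this
  have h5 : HasFDerivAt g (fderiv ℝ g (((‖x‖⁻¹ : ℝ) : ℂ) • x))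
      (((‖x + ((0 : ℝ) : ℂ) • v‖⁻¹ : ℝ) : ℂ) • (x + ((0 : ℝ) : ℂ) • v)) := by
    simpa using (hg.differentiable (by simp) (((‖x‖⁻¹ : ℝ) : ℂ) • x)).hasFDerivAt
  have h6 := h1.mul (h5.comp_hasDerivAt (0 : ℝ) h4)
  have h7 := (g5_line (g5_diff m hg hx) v).unique h6
  rw [h7]
  simp

theorem g5_rot {m : ℤ} {g : VV M → ℂ} (hg : ContDiff ℝ ∞ g) (hX : IsManifold I c)
    (hT : ∀ y ∈ Lk I, fderiv ℝ g y (Complex.I • y) = Complex.I * m * g y) {y : VV M}
    (hy : y ∈ Lk I) (θ : ℝ) :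
    g (Complex.exp (θ * Complex.I) • y) = Complex.exp (θ * Complex.I) ^ m * g y := by
  have hmem : ∀ s : ℝ, Complex.exp (s * Complex.I) • y ∈ Lk I := fun s =>
    ⟨hX.smul_mem hy.1 (Complex.exp_ne_zero _), by
      rw [norm_smul, Complex.norm_exp_ofReal_mul_I, hy.2, one_mul]⟩
  have hd : ∀ s : ℝ, HasDerivAt (fun s : ℝ => Complex.exp (-(m * (s * Complex.I))) *
      g (Complex.exp (s * Complex.I) • y)) 0 s := by
    intro s
    have h0 : HasDerivAt (fun s : ℝ => (s : ℂ) * Complex.I) Complex.I s := by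
      simpa using (Complex.ofRealCLM.hasDerivAt (x := s)).mul_const Complex.I
    have h1 := ((h0.const_mul (m : ℂ)).neg).cexp
    have h2 : HasDerivAt (fun s : ℝ => Complex.exp (s * Complex.I) • y)
        (Complex.I • (Complex.exp (s * Complex.I) • y)) s := by
      have := h0.cexp.smul_const y
      rwa [mul_comm, mul_smul] at this
    have h3 := (hg.differentiable (by simp) _).hasFDerivAt.comp_hasDerivAt s h2
    rw [hT _ (hmem s)] at h3
    have h4 := h1.mul h3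
    have h5 : Complex.exp (-(m * (s * Complex.I))) * -(m * Complex.I) *
        g (Complex.exp (s * Complex.I) • y) + Complex.exp (-(m * (s * Complex.I))) *
          (Complex.I * m * g (Complex.exp (s * Complex.I) • y)) = 0 := by ring
    rw [← h5]
    exact h4
  have hc := is_const_of_deriv_eq_zero (fun s => (hd s).differentiableAt)
    (fun s => (hd s).deriv) θ 0
  simp only [Complex.ofReal_zero, zero_mul, mul_zero, neg_zero, Complex.exp_zero, one_mul,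
    one_smul] at hc
  rw [← hc, ← mul_assoc, ← Complex.exp_int_mul, ← Complex.exp_add, add_neg_cancel,
    Complex.exp_zero, one_mul]

theorem g5_nrm (hX : IsManifold I c) {x : VV M} (hx : x.ofLp ∈ cone I) :
    x ≠ 0 ∧ ((‖x‖⁻¹ : ℝ) : ℂ) • x ∈ Lk I := by
  have h0 : x ≠ 0 := fun h => hx.1 (by rw [h]; rfl)
  have h1 : ‖x‖ ≠ 0 := norm_ne_zero_iff.2 h0
  refine ⟨h0, hX.smul_mem hx (Complex.ofReal_ne_zero.2 (inv_ne_zero h1)), ?_⟩
  rw [norm_smul, Complex.norm_real, norm_inv, norm_norm, inv_mul_cancel₀ h1]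

theorem g5_hom {m : ℤ} {g : VV M → ℂ} (hg : ContDiff ℝ ∞ g) (hX : IsManifold I c)
    (hT : ∀ y ∈ Lk I, fderiv ℝ g y (Complex.I • y) = Complex.I * m * g y) {x : VV M}
    (hx : x.ofLp ∈ cone I) {t : ℂ} (ht : t ≠ 0) : g5G m g (t • x) = t ^ m * g5G m g x := by
  obtain ⟨h0, hy⟩ := g5_nrm hX hx
  have h1 : (‖x‖ : ℂ) ≠ 0 := Complex.ofReal_ne_zero.2 (norm_ne_zero_iff.2 h0)
  have h2 : (‖t‖ : ℂ) ≠ 0 := Complex.ofReal_ne_zero.2 (norm_ne_zero_iff.2 ht)
  have e := Complex.norm_mul_exp_arg_mul_I t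
  have h3 : ((‖t • x‖⁻¹ : ℝ) : ℂ) • t • x =
      Complex.exp (t.arg * Complex.I) • ((‖x‖⁻¹ : ℝ) : ℂ) • x := by
    rw [smul_smul, smul_smul, norm_smul]
    congr 1
    push_cast
    field_simp
    exact e.symm
  rw [g5G, g5G, h3, g5_rot hg hX hT hy, norm_smul]
  conv_rhs => rw [← e]
  push_cast
  rw [mul_zpow, mul_zpow]
  ring

theorem g5_rad {m : ℤ} {g : VV M → ℂ} (hg : ContDiff ℝ ∞ g) (hX : IsManifold I c)
    (hT : ∀ y ∈ Lk I, fderiv ℝ g y (Complex.I • y) = Complex.I * m * g y) {x : VV M}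
    (hx : x.ofLp ∈ cone I) (a : ℂ) : fderiv ℝ (g5G m g) x (a • x) = m * a * g5G m g x := by
  have h0 : HasDerivAt (fun s : ℝ => 1 + (s : ℂ) * a) a 0 := by
    simpa using ((Complex.ofRealCLM.hasDerivAt (x := 0)).mul_const a).const_add 1
  have h1 : HasDerivAt (fun s : ℝ => (1 + (s : ℂ) * a) ^ m * g5G m g x) (m * a * g5G m g x) 0 := by
    have h2 := (hasDerivAt_zpow m (1 + ((0 : ℝ) : ℂ) * a) (Or.inl (by simp))).comp_of_eq
      (0 : ℝ) h0 rfl
    simpa using h2.mul_const (g5G m g x)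
  refine (g5_line (g5_diff m hg (g5_nrm hX hx).1) (a • x)).unique (h1.congr_of_eventuallyEq ?_)
  have h3 : ∀ᶠ s : ℝ in 𝓝 0, 1 + (s : ℂ) * a ≠ 0 :=
    h0.continuousAt.eventually_ne (by simp)
  filter_upwards [h3] with s hs
  rw [← g5_hom hg hX hT hx hs, add_smul, one_smul, mul_smul]

theorem g5_lin {m : ℤ} {g : VV M → ℂ} (hg : ContDiff ℝ ∞ g) (hX : IsManifold I c)
    (hT : ∀ y ∈ Lk I, fderiv ℝ g y (Complex.I • y) = Complex.I * m * g y)
    (hZ : ∀ y ∈ Lk I, ∀ v : VV M, v.ofLp ∈ tangS I y.ofLp → ⟪y, v⟫_ℂ = 0 →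
      fderiv ℝ g y (Complex.I • v) = Complex.I * fderiv ℝ g y v) {x v : VV M}
    (hx : x.ofLp ∈ cone I) (hv : v.ofLp ∈ tangS I x.ofLp) :
    fderiv ℝ (g5G m g) x (Complex.I • v) = Complex.I * fderiv ℝ (g5G m g) x v := by
  obtain ⟨h0, hy⟩ := g5_nrm hX hx
  have h1 : ‖x‖ ≠ 0 := norm_ne_zero_iff.2 h0
  have h2 : ⟪x, x⟫_ℂ ≠ 0 := inner_self_ne_zero.2 h0
  obtain ⟨a, w, hw, hw', rfl⟩ : ∃ (a : ℂ) (w : VV M), w.ofLp ∈ tangS I x.ofLp ∧ ⟪x, w⟫_ℂ = 0 ∧
      v = a • x + w := by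
    refine ⟨⟪x, v⟫_ℂ / ⟪x, x⟫_ℂ, v - (⟪x, v⟫_ℂ / ⟪x, x⟫_ℂ) • x, ?_, ?_, by abel⟩
    · exact (tangS I x.ofLp).sub_mem hv ((tangS I x.ofLp).smul_mem _ (hX.self_mem_tang hx))
    · rw [inner_sub_right, inner_smul_right, div_mul_cancel₀ _ h2, sub_self]
  have h3 : ⟪x, Complex.I • w⟫_ℂ = 0 := by rw [inner_smul_right, hw', mul_zero]
  have h4 := hZ _ hy (((‖x‖⁻¹ : ℝ) : ℂ) • w) (by
    have := hX.tang_smul x.ofLp (Complex.ofReal_ne_zero.2 (inv_ne_zero h1))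
    exact this ▸ (tangS I x.ofLp).smul_mem _ hw)
    (by rw [inner_smul_right, inner_smul_left, hw', mul_zero, mul_zero])
  rw [smul_add, map_add, map_add, smul_smul, g5_rad hg hX hT hx, g5_rad hg hX hT hx,
    g5_perp m hg h0 h3, g5_perp m hg h0 hw', smul_comm _ Complex.I w, h4]
  ring

theorem g5_cplx {E : Type} [NormedAddCommGroup E] [NormedSpace ℂ E] {F : E → ℂ} {u : E}
    {L : E →L[ℝ] ℂ} (h : HasFDerivAt F L u) (hL : ∀ w, L (Complex.I • w) = Complex.I * L w) :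
    DifferentiableAt ℂ F u := by
  let L' : E →L[ℂ] ℂ :=
    { toFun := L
      map_add' := map_add L
      map_smul' := fun a w => by
        have e : a • w = a.re • w + a.im • (Complex.I • w) := by
          conv_lhs => rw [← Complex.re_add_im a]
          rw [add_smul, mul_smul, Complex.coe_smul, Complex.coe_smul]
        rw [e, map_add, map_smul, map_smul, hL]
        simp only [Complex.real_smul, RingHom.id_apply, smul_eq_mul]
        conv_rhs => rw [← Complex.re_add_im a]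
        ring
      cont := L.continuous }
  exact (hasFDerivAt_of_restrictScalars ℝ (f' := L') h rfl).differentiableAt

theorem Geo.exists_hol (h : Geo I C) (hX : IsManifold I c) {m : ℤ} {f : Sm (Lk I)}
    (h1 : ∀ j, C.Zb j f = 0) (h2 : C.T f = (Complex.I * m) • f) :
    ∃ g : cone I → ℂ, Hol g ∧ IsHom m g ∧ ∀ y, f.1 y = g (toCone y) := by
  obtain ⟨g, hg⟩ := exists_ext f
  have hT : ∀ y ∈ Lk I, fderiv ℝ g y (Complex.I • y) = Complex.I * m * g y := fun y hy => by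
    rw [← h.T f g hg ⟨y, hy⟩, h2, ← hg.eq ⟨y, hy⟩]
    rfl
  have hZ : ∀ y ∈ Lk I, ∀ v : VV M, v.ofLp ∈ tangS I y.ofLp → ⟪y, v⟫_ℂ = 0 →
      fderiv ℝ g y (Complex.I • v) = Complex.I * fderiv ℝ g y v := fun y hy =>
    h.Zb f g hg ⟨y, hy⟩ fun j => by rw [h1 j]; rfl
  let e : (Fin M → ℂ) →L[ℂ] VV M := (EuclideanSpace.equiv (Fin M) ℂ).symm
  have he : ∀ x, (e x).ofLp = x := fun _ => rfl
  have hd : ∀ x ∈ cone I, DifferentiableAt ℝ (g5G m g) (e x) := fun x hx =>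
    g5_diff m hg.smooth (g5_nrm hX (x := e x) hx).1
  refine ⟨fun x => g5G m g (e x.1), ⟨?_, ?_⟩, ?_, ?_⟩
  · exact continuous_iff_continuousAt.2 fun x => ContinuousAt.comp (g := g5G m g)
      (f := fun x : cone I => e x.1) (hd x.1 x.2).continuousAt
      (e.continuous.comp continuous_subtype_val).continuousAt
  · intro k U γ F hU hγ hF u hu
    obtain ⟨hu', -⟩ := hF u hu
    have hγ' := ((hγ u hu).differentiableAt (hU.mem_nhds hu)).hasFDerivAt
    have htan : ∀ w, fderiv ℂ γ u w ∈ tangS I (γ u) := by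
      intro w p hp
      have a1 := (hasFDerivAt_eval p (γ u)).comp u hγ'
      have a2 : HasFDerivAt ((fun y : Fin M → ℂ => eval y p) ∘ γ) (0 : (Fin k → ℂ) →L[ℂ] ℂ) u := by
        refine (hasFDerivAt_const (0 : ℂ) u).congr_of_eventuallyEq ?_
        filter_upwards [hU.mem_nhds hu] with u' hu''
        obtain ⟨a, -⟩ := hF u' hu''
        exact a.2 p hp
      have a3 := DFunLike.congr_fun (a1.unique a2) w
      simpa [sum_apply, mul_comm] using a3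
    have a4 := (hd _ hu').hasFDerivAt.comp u
      ((e.hasFDerivAt.comp u hγ').restrictScalars ℝ)
    have a5 : DifferentiableAt ℂ (g5G m g ∘ e ∘ γ) u := g5_cplx a4 fun w => by
      have := g5_lin hg.smooth hX hT hZ (x := e (γ u)) (v := e (fderiv ℂ γ u w)) hu' (htan w)
      simpa using this
    refine (a5.congr_of_eventuallyEq ?_).differentiableWithinAt
    filter_upwards [hU.mem_nhds hu] with u' hu''
    obtain ⟨a, b⟩ := hF u' hu''
    exact b
  · intro x y t hxy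
    have ht : t ≠ 0 := fun h0 => y.2.1 (by rw [hxy, h0, zero_smul])
    show g5G m g (e y.1) = _
    rw [hxy, map_smul]
    exact g5_hom hg.smooth hX hT (x := e x.1) x.2 ht
  · intro y
    show _ = g5G m g y.1
    rw [g5G, y.2.2, hg.eq y]
    simp

theorem Geo.exists_rs (h : Geo I C) (hX : IsManifold I c) (hM : M = n + 1 + c)
    [UniqueFactorizationMonoid (secRing I)] {m : ℤ} {f : Sm (Lk I)}
    (h1 : ∀ j, C.Zb j f = 0) (h2 : C.T f = (Complex.I * m) • f) :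
    ∃ a ∈ Gr (secRing I) m, rs I a = f := by
  obtain ⟨g, a1, a2, a3⟩ := h.exists_hol hX h1 h2
  exact ⟨⟨g, gaga hX hM a1 a2⟩, a2, Subtype.ext (funext fun y => (a3 y).symm)⟩

end Pool.Agent.HCF
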