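import Pool.Agent.P.MP_f644fa_ag.Sec2

/-! Polynomials as sections. -/

noncomputable section
namespace Pool.Agent.HCF
open MvPolynomial Module Set

variable {M : ℕ} {I : Ideal (SS M)} {c n : ℕ}

/-- the section defined by a polynomial -/
def toSec (I : Ideal (SS M)) : SS M →ₐ[ℂ] secRing I :=
  (pf I).codRestrict (secRing I) fun f => Pol_le I (pf_mem f)

theorem toSec_val (f : SS M) : (toSec I f).1 = pf I f := rfl

theorem toSec_eq_zero (hX : IsManifold I c) {f : SS M} : toSec I f = 0 ↔ f ∈ I := by
  rw [← hX.pf_eq_zero, ← toSec_val]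
  exact Subtype.ext_iff

end Pool.Agent.HCF
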