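import Pool.Agent.P.MP_f644fa_ag.YC3a

/-! Cauchy-Riemann functions. -/

noncomputable section
namespace Pool.Agent.HCF
open Finset Module Matrix

variable {𝒜 : Type} [CommRing 𝒜] [Algebra ℂ 𝒜] [StarRing 𝒜] [StarModule ℂ 𝒜] {M n : ℕ}
  {ι : Type} [Fintype ι] [DecidableEq ι]

namespace CR
variable {C : CR M n 𝒜}

theorem Wt.koszul_fun {s : ℝ} {c : ℕ} (ω : C.Wt s) (hM : M = n + 1 + c) (hs : s < n + 1)
    (l : Fin (n + 1) → 𝒜) (hl : ∀ i, C.CF 1 (l i)) {lam : 𝒜}
    (hlam : lam * ∑ i, star (l i) * l i = 1) (m : ℤ) (z : Finset (Fin (n + 1)) → 𝒜) (he : z ∅ = 0)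
    (hz : ∀ J, C.CF (m - J.card) (z J)) (h0 : iov 𝒜 l z = 0) :
    ∃ y, (∀ J, C.CF (m - J.card) (y J)) ∧ iov 𝒜 l y = z := by
  obtain ⟨Φ, hFi, hGe, hGi⟩ := exists_car2 M 𝒜
  have hP1 : ∀ b v q, (Φ.G.il b *ᵥ v) q = iov 𝒜 b (fun B => v (q.1, B)) q.2 := fun b v q => by
    simp only [Car.il, iov, sum_mulVec, smul_mulVec, Finset.sum_apply, Pi.smul_apply, hGi,
      LinearMap.sum_apply, LinearMap.smul_apply]
  have hP2 : ∀ v q, (Φ.G.N *ᵥ v) q = q.2.card • v q := fun v q => by
    have h := num_apply (R := 𝒜) (fun B => v (q.1, B)) q.2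
    rw [Φ.G.N_eq, ← h]
    simp only [num, sum_mulVec, ← mulVec_mulVec, Finset.sum_apply, hGe, hGi, LinearMap.sum_apply,
      End.mul_apply]
  let em : 𝒜 →ₗ[𝒜] (Finset (Fin M) × Finset (Fin M) → 𝒜) :=
    { toFun := fun u q => if q.1 = ∅ ∧ q.2 = ∅ then u else 0
      map_add' := fun u v => by funext q; by_cases h : q.1 = ∅ ∧ q.2 = ∅ <;> simp [h]
      map_smul' := fun r u => by funext q; by_cases h : q.1 = ∅ ∧ q.2 = ∅ <;> simp [h] }
  have hem : ∀ u q, em u q = if q.1 = ∅ ∧ q.2 = ∅ then u else 0 := fun u q => rfl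
  let re : (Finset (Fin M) × Finset (Fin M) → 𝒜) →ₗ[𝒜] 𝒜 := LinearMap.proj (∅, ∅)
  have hre : ∀ v, re v = v (∅, ∅) := fun v => rfl
  have h2 : ∀ p u, C.CF p u → C.V0 Φ 0 p (em u) := fun p u hu => by
    refine ⟨fun j => funext fun q => ?_, fun b => funext fun q => ?_, funext fun q => ?_,
      fun j => funext fun q => ?_, funext fun q => ?_⟩
    · rw [hFi, io_apply]
      simp [hem]
    · rw [hP1, iov, LinearMap.sum_apply, Finset.sum_apply]
      refine Finset.sum_eq_zero fun j _ => ?_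
      rw [LinearMap.smul_apply, Pi.smul_apply, io_apply]
      simp [hem]
    · rw [hP2, Pi.smul_apply, hem]
      by_cases hJ : q.1 = ∅ ∧ q.2 = ∅
      · simp [hJ.2]
      · simp [hJ]
    · rw [dE_apply, hem]
      split_ifs <;> simp [hu.hol]
    · rw [dE_apply, Pi.smul_apply, hem]
      split_ifs <;> simp [hu.wt]
  have h3 : ∀ p v, C.V0 Φ 0 p v → C.CF p (re v) := fun p v hv =>
    ⟨fun j => congrFun (hv.hol j) (∅, ∅), congrFun hv.wt (∅, ∅)⟩
  obtain ⟨y, hy, hy0⟩ := koszul_of (C := C) (Φ := Φ) (k := 0) (m := m) 1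
    (fun r j w hr hj h1 h4 => by
      by_cases hm : 0 ≤ m - (j : ℤ)
      · refine ω.solve (a := 1) hM (Or.inr ⟨rfl, le_rfl⟩) (Nat.le_add_left 1 r) ?_ h1 h4
        have h5 : (0 : ℝ) ≤ (m : ℝ) - j := by exact_mod_cast hm
        push_cast
        linarith
      · refine ω.solve_of (a := 0) (fun u hB h5 h6 => ω.vanish_neg hB (by omega) ?_ h5 h6) h1 h4
        push_cast
        omega)
    l (fun i j => (hl i).hol j) (fun i => by simpa using (hl i).wt) hlam (fun J => em (z J))
    (fun J hJ => by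
      have h4 : J = ∅ := Finset.card_eq_zero.1 (by omega)
      show em (z J) = 0
      rw [h4, he, map_zero])
    (fun J => h2 _ _ (hz J)) (by
      have h4 := iov_nat em.toAddMonoidHom (a := l) (a' := l) (fun j v => em.map_smul _ _) z
      refine h4.symm.trans (funext fun J => ?_)
      simp [h0])
  refine ⟨fun J => re (y J), fun J => h3 _ _ (hy J), ?_⟩
  have h4 := iov_nat re.toAddMonoidHom (a := l) (a' := l) (fun j v => re.map_smul _ _) y
  refine h4.symm.trans (funext fun J => ?_)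
  simp [hy0, hre, hem]

/-- the holomorphic derivative along a tangent vector field of the cone -/
def Dv (C : CR M n 𝒜) (v : Fin M → 𝒜) : Derivation ℂ 𝒜 𝒜 :=
  ∑ j, v j • (C.Z j - (Complex.I • star (C.x j)) • C.T)

theorem yc3_Dv_apply (v : Fin M → 𝒜) (f : 𝒜) :
    C.Dv v f = ∑ j, v j * (C.Z j f - Complex.I • (star (C.x j) * C.T f)) := by
  rw [Dv, c0_sum_apply]
  refine Finset.sum_congr rfl fun j _ => ?_
  simp only [Derivation.smul_apply, Derivation.sub_apply, smul_eq_mul, smul_mul_assoc]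

theorem yc3_Dv_x {v : Fin M → 𝒜} (hv : C.P *ᵥ v = v) (m : Fin M) : C.Dv v (C.x m) = v m := by
  rw [yc3_Dv_apply, ← congrFun hv m, mulVec, dotProduct]
  refine Finset.sum_congr rfl fun j _ => ?_
  rw [C.Z_x, C.T_x, mul_smul_comm, smul_smul, Complex.I_mul_I, neg_smul, one_smul]
  simp only [H, xx, Matrix.sub_apply, Matrix.of_apply]
  ring

theorem Dv_aeval {v : Fin M → 𝒜} (hv : C.P *ᵥ v = v) (p : MvPolynomial (Fin M) ℂ) :
    C.Dv v (MvPolynomial.aeval C.x p) =
      ∑ j, v j * MvPolynomial.aeval C.x (MvPolynomial.pderiv j p) := by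
  induction p using MvPolynomial.induction_on with
  | C a => simp
  | add p q hp hq => simp only [map_add, hp, hq, mul_add, Finset.sum_add_distrib]
  | mul_X p i hp =>
    rw [map_mul, MvPolynomial.aeval_X, Derivation.leibniz, hp, yc3_Dv_x hv]
    have h : ∀ j, v j * MvPolynomial.aeval C.x (MvPolynomial.pderiv j (p * MvPolynomial.X i)) =
        (if j = i then MvPolynomial.aeval C.x p * v i else 0) +
          C.x i * (v j * MvPolynomial.aeval C.x (MvPolynomial.pderiv j p)) := by
      intro j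
      rw [Derivation.leibniz, MvPolynomial.pderiv_X]
      by_cases hj : j = i
      · subst hj
        simp
        ring
      · simp [hj, Pi.single_apply, Ne.symm hj]
        ring
    rw [Finset.sum_congr rfl fun j _ => h j, Finset.sum_add_distrib, Finset.sum_ite_eq',
      if_pos (Finset.mem_univ i), smul_eq_mul, smul_eq_mul, Finset.mul_sum]

theorem CF.Dv {v : Fin M → 𝒜} (hv : C.P *ᵥ v = v) {e m : ℤ} (he : ∀ j, C.CF e (v j)) {f : 𝒜}
    (hf : C.CF m f) : C.CF (m + e - 1) (C.Dv v f) := by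
  have hD : C.Dv v f = ∑ j, v j * (C.Z j f + (m : ℂ) • (star (C.x j) * f)) := by
    rw [yc3_Dv_apply]
    refine Finset.sum_congr rfl fun j _ => ?_
    rw [hf.wt, mul_smul_comm, smul_smul, ← mul_assoc, Complex.I_mul_I, neg_mul, one_mul, neg_smul,
      sub_neg_eq_add]
  have hB : ∀ k l, ∑ j, v j * star (C.B k j l) = 0 := by
    intro k l
    have h1 : (C.B k)ᴴ *ᵥ v = 0 := by
      rw [← hv, mulVec_mulVec, ← C.P_star, ← conjTranspose_mul, C.P_B, conjTranspose_zero,
        zero_mulVec]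
    have h2 := congrFun h1 l
    simp only [mulVec, dotProduct, conjTranspose_apply, Pi.zero_apply] at h2
    rw [← h2]
    exact Finset.sum_congr rfl fun j _ => mul_comm _ _
  refine ⟨fun k => ?_, ?_⟩
  · have h1 : ∀ j, C.Zb k (v j * (C.Z j f + (m : ℂ) • (star (C.x j) * f))) =
        ∑ l, v j * star (C.B k j l) * C.Z l f := by
      intro j
      have h2 := congrArg (fun δ : Derivation ℂ 𝒜 𝒜 => δ f) (C.lie_Zb_Z k j)
      simp only [Derivation.commutator_apply, Derivation.add_apply, Derivation.sub_apply,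
        c0_sum_apply, Derivation.smul_apply, hf.hol, map_zero, sub_zero, smul_zero,
        Finset.sum_const_zero, hf.wt, smul_eq_mul, mul_zero] at h2
      rw [Derivation.leibniz, (he j).hol, smul_zero, add_zero, map_add, h2, Derivation.map_smul,
        Derivation.leibniz, hf.hol, smul_zero, zero_add, C.Zb_xb, smul_mul_smul_comm,
        ← mul_assoc, Complex.I_mul_I, neg_mul, one_mul, neg_smul, smul_eq_mul, smul_eq_mul,
        mul_comm f, neg_add_cancel_right, Finset.mul_sum]
      exact Finset.sum_congr rfl fun l _ => (mul_assoc _ _ _).symm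
    rw [hD, map_sum, Finset.sum_congr rfl fun j _ => h1 j, Finset.sum_comm]
    refine Finset.sum_eq_zero fun l _ => ?_
    rw [← Finset.sum_mul, hB, zero_mul]
  · rw [hD, map_sum, Finset.smul_sum]
    refine Finset.sum_congr rfl fun j _ => ?_
    have h2 := congrArg (fun δ : Derivation ℂ 𝒜 𝒜 => δ f) (C.lie_T_Z j)
    simp only [Derivation.commutator_apply, Derivation.neg_apply, Derivation.smul_apply, hf.wt,
      Derivation.map_smul] at h2
    have h3 := eq_add_of_sub_eq h2
    rw [Derivation.leibniz, (he j).wt, map_add, h3, Derivation.map_smul, Derivation.leibniz,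
      C.T_xb, hf.wt]
    simp only [smul_eq_mul, Algebra.smul_def, map_mul, Int.cast_sub, Int.cast_add, Int.cast_one,
      map_sub, map_add, map_one]
    ring

theorem CF.mul {e m : ℤ} {f g : 𝒜} (hf : C.CF e f) (hg : C.CF m g) : C.CF (e + m) (f * g) := by
  refine ⟨fun j => ?_, ?_⟩
  · rw [Derivation.leibniz, hf.hol, hg.hol, smul_zero, smul_zero, add_zero]
  · rw [Derivation.leibniz, hf.wt, hg.wt]
    simp only [smul_eq_mul, Algebra.smul_def, map_mul, Int.cast_add, map_add]
    ring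

end CR

end Pool.Agent.HCF
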