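import Pool.Agent.P.MP_f644fa_ag.YG1
import Pool.Agent.P.MP_f644fa_ag.YC3
import Pool.Agent.P.MP_f644fa_ag.G5
import Pool.Agent.P.MP_f644fa_ag.ToSec

/-! Cauchy-Riemann functions on the link are regular. -/

noncomputable section
namespace Pool.Agent.HCF
open MvPolynomial Module Set

variable {M : ℕ} {I : Ideal (SS M)} {c n : ℕ}

variable {C : CR M n (Sm (Lk I))}

theorem Geo.aeval_x (h : Geo I C) (p : SS M) : aeval C.x p = rs I (toSec I p) :=
  Subtype.ext (funext fun y => by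
    rw [g5a_aeval h, rs_apply, toSec_val, pf_apply]
    rfl)

theorem Geo.cf_rs (h : Geo I C) (hX : IsManifold I c) {m : ℤ} {a : secRing I}
    (ha : a ∈ Gr (secRing I) m) : C.CF m (rs I a) := ⟨h.Zb_rs a, h.T_rs hX ha⟩

theorem yg2_cf (h : Geo I C) (hX : IsManifold I c) {p : SS M} {d : ℕ} (hp : p.IsHomogeneous d) :
    C.CF (d : ℤ) (aeval C.x p) := by
  rw [h.aeval_x]
  exact h.cf_rs hX (mem_Gr.2 (isHom_pf hp))

theorem yg2_hom {v : Fin M → SS M} {e : ℕ} (hv : ∀ j, (v j).IsHomogeneous (e + 1)) {p : SS M}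
    {d : ℕ} (hp : p.IsHomogeneous d) : (∑ j, v j * pderiv j p).IsHomogeneous (e + d) := by
  refine IsHomogeneous.sum _ _ _ fun j _ => ?_
  cases d with
  | zero =>
    have h0 : p.totalDegree = 0 := Nat.le_zero.1 hp.totalDegree_le
    rw [totalDegree_eq_zero_iff_eq_C] at h0
    rw [h0, pderiv_C, mul_zero]
    exact isHomogeneous_zero _ _ _
  | succ d =>
    have h1 := (hv j).mul (hp.pderiv (i := j))
    rwa [Nat.add_sub_cancel, show e + 1 + d = e + (d + 1) by omega] at h1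

/-- homogeneous universal denominators -/
def yg2C (C : CR M n (Sm (Lk I))) : Set (SS M) :=
  {r | ∃ e : ℕ, r.IsHomogeneous e ∧ ∀ (m : ℕ) (f : Sm (Lk I)), C.CF (m : ℤ) f →
    ∃ p : SS M, p.IsHomogeneous (m + e) ∧ aeval C.x r * f = aeval C.x p}

theorem yg2_P (h : Geo I C) {v : Fin M → SS M} {e : ℕ} (hv : TF I e v) :
    C.P.mulVec (fun j => aeval C.x (v j)) = fun j => aeval C.x (v j) := by
  funext j
  refine g4_ext fun y => ?_
  have h1 := h.P_fix y _ (hv.tan _ y.2.1) j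
  have h2 : (C.P.mulVec (fun j => aeval C.x (v j)) j).1 y =
      g4ev y (∑ l, C.P j l * aeval C.x (v l)) := rfl
  rw [h2, map_sum, g5a_aeval h, ← h1]
  refine Finset.sum_congr rfl fun l _ => ?_
  rw [map_mul, ← g5a_aeval h]
  rfl

theorem yg2_stable (h : Geo I C) (hX : IsManifold I c) : ∀ r ∈ yg2C C, ∀ e v, 1 ≤ e → TF I e v →
    ∑ j, v j * pderiv j r ∈ yg2C C := by
  rintro r ⟨d, hd, hr⟩ e v he hv
  obtain ⟨e, rfl⟩ : ∃ e', e = e' + 1 := ⟨e - 1, by omega⟩
  refine ⟨e + d, yg2_hom hv.hom hd, fun m f hf => ?_⟩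
  have hP := yg2_P h hv
  have hA : ∀ p : SS M, C.Dv (fun j => aeval C.x (v j)) (aeval C.x p) =
      aeval C.x (∑ j, v j * pderiv j p) := fun p => by
    rw [CR.Dv_aeval hP, map_sum]
    exact Finset.sum_congr rfl fun j _ => (map_mul _ _ _).symm
  obtain ⟨p, hp, e1⟩ := hr m f hf
  have h1 := CR.CF.Dv hP (fun j => yg2_cf h hX (hv.hom j)) hf
  rw [show (m : ℤ) + ((e + 1 : ℕ) : ℤ) - 1 = ((m + e : ℕ) : ℤ) by push_cast; ring] at h1
  obtain ⟨q, hq, e2⟩ := hr (m + e) _ h1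
  have e3 := congrArg (C.Dv fun j => aeval C.x (v j)) e1
  rw [Derivation.leibniz, hA, hA, smul_eq_mul, smul_eq_mul, e2] at e3
  refine ⟨∑ j, v j * pderiv j p - q, ?_, ?_⟩
  · have h2 := yg2_hom hv.hom hp
    rw [show e + (m + d) = m + (e + d) by omega] at h2
    rw [show m + e + d = m + (e + d) by omega] at hq
    exact h2.sub hq
  · rw [map_sub, ← e3]
    ring

theorem yg2_den (h : Geo I C) (hX : IsManifold I c) (hM : M = n + 1 + c) :
    ∃ D ∈ yg2C C, D ∉ I := by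
  obtain ⟨D, e, hD, he, hden⟩ := exists_den_hom hX hM
  refine ⟨D, ⟨e, he, fun m f hf => ?_⟩, hD⟩
  obtain ⟨g, a1, a2, a3⟩ := h.exists_hol hX hf.hol hf.wt
  obtain ⟨p, hp⟩ := hden m g a1 a2
  have hp' : pf I p = pf I D * g := hp
  have h1 : IsHom ((m + e : ℕ) : ℤ) (pf I p) := by
    have h2 := (isHom_pf (I := I) he).mul a2
    rwa [← hp', show (e : ℤ) + m = ((m + e : ℕ) : ℤ) by push_cast; ring] at h2
  refine ⟨_, homogeneousComponent_isHomogeneous (m + e) p, g4_ext fun y => ?_⟩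
  have h3 := congrFun ((hX.hom_rep h1).symm.trans hp') (toCone y)
  rw [Pi.mul_apply, pf_apply, pf_apply, ← a3] at h3
  rw [g5a_aeval h]
  refine Eq.trans ?_ h3.symm
  exact congrArg (· * f.1 y) (g5a_aeval h D y)

theorem yg2_ext (hX : IsManifold I c) {m : ℤ} {a b : cone I → ℂ} (ha : IsHom m a)
    (hb : IsHom m b) (h : ∀ y, a (toCone y) = b (toCone y)) : a = b := by
  funext x
  obtain ⟨y, t, -, e⟩ := exists_toCone hX x
  rw [ha _ _ _ e, hb _ _ _ e, h]

theorem yg2_nat (h : Geo I C) (hX : IsManifold I c) (hM : M = n + 1 + c) {m : ℕ}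
    {f : Sm (Lk I)} (hf : C.CF (m : ℤ) f) {g : cone I → ℂ} (hg : IsHom (m : ℤ) g)
    (e : ∀ y, f.1 y = g (toCone y)) (j : Fin M) : ∃ K : ℕ, pf I (X j ^ K) * g ∈ Pol I := by
  let A : Ideal (SS M) :=
    { carrier := {r | pf I r * g ∈ Pol I}
      add_mem' := fun {a b} ha hb => by
        show pf I (a + b) * g ∈ Pol I
        rw [map_add, add_mul]
        exact add_mem ha hb
      zero_mem' := by
        show pf I 0 * g ∈ Pol I
        rw [map_zero, zero_mul]
        exact zero_mem _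
      smul_mem' := fun r a ha => by
        show pf I (r * a) * g ∈ Pol I
        rw [map_mul, mul_assoc]
        exact mul_mem (pf_mem r) ha }
  refine hX.ns A (fun r hr => ?_) (fun x hx => ?_) j
  · show pf I r * g ∈ Pol I
    rw [hX.pf_eq_zero.2 hr, zero_mul]
    exact zero_mem _
  · obtain ⟨D, hD, hD'⟩ := yg2_den h hX hM
    have h1 : ∃ r ∈ yg2C C, eval x r ≠ 0 := by
      by_contra h1
      exact hD' (stable_sub hX _ (yg2_stable h hX) hx
        (fun r hr => by_contra fun h2 => h1 ⟨r, hr, h2⟩) D hD)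
    obtain ⟨r, ⟨d, hd, hr⟩, h2⟩ := h1
    obtain ⟨p, hp, e1⟩ := hr m f hf
    refine ⟨r, ⟨p, show pf I p = pf I r * g from ?_⟩, h2⟩
    have h3 := (isHom_pf (I := I) hd).mul hg
    rw [show (d : ℤ) + m = ((m + d : ℕ) : ℤ) by push_cast; ring] at h3
    refine yg2_ext hX (isHom_pf hp) h3 fun y => ?_
    have h4 : (aeval C.x r : Sm (Lk I)).1 y * f.1 y = (aeval C.x p : Sm (Lk I)).1 y :=
      congrFun (congrArg Subtype.val e1) y
    rw [g5a_aeval h, g5a_aeval h, e] at h4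
    rw [Pi.mul_apply, pf_apply, pf_apply]
    exact h4.symm

theorem Geo.exists_rs' (h : Geo I C) (hX : IsManifold I c) (hM : M = n + 1 + c) {m : ℤ}
    {f : Sm (Lk I)} (hf : C.CF m f) : ∃ a ∈ Gr (secRing I) m, rs I a = f := by
  obtain ⟨g, -, a2, a3⟩ := h.exists_hol hX hf.hol hf.wt
  refine ⟨⟨g, fun j => ?_⟩, a2, Subtype.ext (funext fun y => (a3 y).symm)⟩
  have h0 := isHomogeneous_X_pow (R := ℂ) j (-m).toNat
  have h4 : (((-m).toNat : ℕ) : ℤ) + m = m.toNat := by omega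
  have h1 := (yg2_cf h hX h0).mul hf
  have h2 := (isHom_pf (I := I) h0).mul a2
  rw [h4] at h1 h2
  obtain ⟨K, p, hp⟩ := yg2_nat h hX hM h1 h2 (fun y => by
    rw [Pi.mul_apply, pf_apply, ← a3]
    exact congrArg (· * f.1 y) (g5a_aeval h _ y)) j
  refine ⟨K + (-m).toNat, p, fun x => ?_⟩
  have h5 : pf I p x = (pf I (X j ^ K) * (pf I (X j ^ (-m).toNat) * g)) x := congrFun hp x
  simp only [Pi.mul_apply, pf_apply, map_pow, eval_X, Pi.pow_apply] at h5
  rw [h5]
  ring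

end Pool.Agent.HCF
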