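import Pool.Agent.P.MP_f644fa_ag.Van
import Pool.Agent.P.MP_f644fa_ag.YG2

/-! The vanishing theorem of `Van`, without factoriality of the section ring. -/

noncomputable section
namespace Pool.Agent.HCF
open MvPolynomial Module Set

variable {M : ℕ} {I : Ideal (SS M)} {c n : ℕ} {C : CR M n (Sm (Lk I))}

theorem Geo.exists_hm' (h : Geo I C) (hX : IsManifold I c) (hM : M = n + 1 + c)
    {k : ℕ} {m : ℤ} {u : Finset (Fin M) → Sm (Lk I)}
    (hu : C.HF k m u) : ∃ u' ∈ Hm (secRing I) k m, (fun J => rs I (u' J)) = u := by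
  choose a ha hr using fun J => h.exists_rs' hX hM ⟨fun j => hu.hol j J, hu.wt J⟩
  refine ⟨a, ⟨?_, fun J hJ => rs_inj hX (ha J) ((hr J).trans (hu.deg J hJ)), ha⟩, funext hr⟩
  rw [kill_iff hX (Pol_le I)]
  intro x v hv
  obtain ⟨y, t, ht, hx⟩ := exists_toCone hX x
  have ht' : (t : ℂ) ≠ 0 := by exact_mod_cast ht.ne'
  rw [hx, hX.tang_smul _ ht'] at hv
  have e1 : (fun J => (a J).1 x) = (t : ℂ) ^ m • fun J => (u J).1 y := by
    funext J
    rw [mem_Gr.1 (ha J) (toCone y) x t hx, Pi.smul_apply, ← hr J]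
    rfl
  have e2 : v = ∑ l, v l • fun j => (C.P j l).1 y := by
    funext j
    rw [Finset.sum_apply, ← h.P_fix y v hv j]
    exact Finset.sum_congr rfl fun l _ => mul_comm _ _
  have e3 : ∀ l, iov ℂ (fun j => (C.P j l).1 y) (fun J => (u J).1 y) = 0 := fun l => by
    rw [← van0_iov y (fun b => C.P b l) u, hu.tan l]
    rfl
  rw [e1, map_smul, e2, iov_sum, LinearMap.sum_apply, Finset.sum_eq_zero, smul_zero]
  intro l _
  rw [iov_smul, LinearMap.smul_apply, e3 l, smul_zero]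

theorem koszul_exact' (hX : IsManifold I c) (hM : M = n + 1 + c)
    {s : ℕ} {ν : Finset (Fin M) → secRing I}
    (hν : ν ∈ Hm (secRing I) c s) (hne : ∀ x : cone I, ∃ J, (ν J).1 x ≠ 0) {a k : ℕ}
    (ha : c + 1 ≤ a ∨ k = 0 ∧ 1 ≤ a) (l : Fin (n + 1) → secRing I)
    (hl : ∀ i, l i ∈ Gr (secRing I) 1) (hl' : ∀ x : cone I, ∃ i, (l i).1 x ≠ 0) {m : ℤ}
    (hm : (a : ℤ) * s + 1 ≤ m) (z : Finset (Fin (n + 1)) → Finset (Fin M) → secRing I)
    (hz : ∀ J, z J ∈ Hm (secRing I) k (m - J.card))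
    (h0 : iov (Finset (Fin M) → secRing I) l z = 0) :
    ∃ y, (∀ J, y J ∈ Hm (secRing I) k (m - J.card)) ∧
      iov (Finset (Fin M) → secRing I) l y = z := by
  obtain ⟨C, hC⟩ := exists_CR hX hM
  obtain ⟨σ, hσ, hσ'⟩ := van_sqrt (isCompact_Lk I) (fun J => rs I (ν J)) fun y => hne (toCone y)
  obtain ⟨τ, -, hτ⟩ := van_sqrt (isCompact_Lk I) (fun i => rs I (l i)) fun y => hl' (toCone y)
  have hnat : ∀ y : Finset (Fin (n + 1)) → Finset (Fin M) → secRing I,
      (fun J => vanR I (iov (Finset (Fin M) → secRing I) l y J)) =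
        iov (Finset (Fin M) → Sm (Lk I)) (fun i => rs I (l i)) fun J => vanR I (y J) :=
    fun y => iov_nat (vanR I) (fun i v => funext fun A => map_mul (rs I) (l i) (v A)) y
  obtain ⟨y', hy', hy0⟩ := CR.HF.koszul hM (hC.hf_rs hX hν) hσ hσ' ha (fun i => rs I (l i))
    (fun i j => hC.Zb_rs _ j) (fun i => by simpa using hC.T_rs hX (hl i)) hτ hm
    (fun J => vanR I (z J)) (fun J => hC.hf_rs hX (hz J)) (by
      rw [← hnat, h0]
      funext J
      exact map_zero (vanR I))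
  choose y hy hyy using fun J => hC.exists_hm' hX hM (hy' J)
  refine ⟨y, hy, funext fun J => funext fun A => ?_⟩
  have h1 : (fun J => vanR I (y J)) = y' := funext hyy
  have h2 := hnat y
  rw [h1, hy0] at h2
  have h3 : rs I (iov (Finset (Fin M) → secRing I) l y J A) = rs I (z J A) :=
    congrFun (congrFun h2 J) A
  refine sub_eq_zero.1 (rs_inj hX (sub_mem ((van_iov l hl y hy J).2.2 A) ((hz J).2.2 A)) ?_)
  rw [map_sub, h3, sub_self]

theorem degree_bound' (hX : IsManifold I c) (hM : M = n + 1 + c) (hn : 1 ≤ n)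
    {s : ℕ} {ν : Finset (Fin M) → secRing I}
    (hν : ν ∈ Hm (secRing I) c s) (hne : ∀ x : cone I, ∃ J, (ν J).1 x ≠ 0) {a k : ℕ}
    (ha : c + 1 ≤ a ∨ k = 0 ∧ 1 ≤ a) : ∃ h : Polynomial ℂ, h.natDegree ≤ a * s ∧
      (h : PowerSeries ℂ) = (1 - PowerSeries.X) ^ (n + 1) * HS I k := by
  obtain ⟨L, hL⟩ := hX.exists_bpf hM
  have hG := gr_sec hX hM hn
  let l : Fin (n + 1) → secRing I := fun i => ⟨pf I (lin (L i)), Pol_le I (pf_mem _)⟩
  have hl : ∀ i, l i ∈ Gr (secRing I) 1 := fun i => isHom_pf (lin_hom (L i))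
  have hl' : ∀ x : cone I, ∃ i, (l i).1 x ≠ 0 := fun x => by
    obtain ⟨i, hi⟩ := hL x.1 x.2
    exact ⟨i, by rw [← pf_apply] at hi; exact hi⟩
  have key : ∀ m : ℕ, a * s + 1 ≤ m →
      PowerSeries.coeff m ((1 - PowerSeries.X) ^ (n + 1) * HS I k) = 0 := fun m hm => by
    have h1 := coeff_koszul (Fin (n + 1)) (-1) (fun d => (finrank ℂ (Hm (secRing I) k d) : ℂ))
      (fun d hd => by rw [Hm, hG.Fm_neg _ _ hd, finrank_bot, Nat.cast_zero]) m
    rw [Fintype.card_fin, map_neg, map_one, neg_one_mul, ← sub_eq_add_neg] at h1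
    have := fun J : Finset (Fin (n + 1)) => hG.fin_Fm (Tg (secRing I)) k ((m : ℤ) - J.card)
    have h2 := euler l (fun J : Finset (Fin (n + 1)) => Hm (secRing I) k ((m : ℤ) - J.card))
      (T := 1) (fun _ _ h => h) (fun _ _ => rfl) (van_iov l hl)
      (koszul_exact' hX hM hν hne ha l hl hl' (by exact_mod_cast hm))
    simp only [trOn_one] at h2
    exact h1.trans h2
  refine ⟨PowerSeries.trunc (a * s + 1) ((1 - PowerSeries.X) ^ (n + 1) * HS I k), ?_, ?_⟩
  · exact Nat.lt_succ_iff.1 (PowerSeries.natDegree_trunc_lt _ _)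
  · ext m
    rw [Polynomial.coeff_coe, PowerSeries.coeff_trunc]
    split_ifs with h
    · rfl
    · exact (key m (not_lt.1 h)).symm

end Pool.Agent.HCF
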