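import Pool.Agent.P.MP_f644fa_ag.LI1
import Pool.Agent.P.MP_f644fa_ag.LG2
import Pool.Agent.P.MP_f644fa_ag.LX4
import Pool.Agent.P.MP_f644fa_ag.LS2
import Pool.Agent.P.MP_f644fa_ag.Main
import Pool.Agent.P.MP_f644fa_ag.YVan

/-! The numerical data of the manifold. -/

noncomputable section
namespace Pool.Agent.HCF
open Finset Module

variable {M : ℕ} {I : Ideal (SS M)} {c n : ℕ}

/-- The abstract setting, the numerators, the subcones. -/
structure Nx (I : Ideal (SS M)) (c n s : ℕ) (S : NS M n (cone I) (Pol I) (Pol2 I))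
    (g : ℕ → Polynomial ℂ) : Prop where
  expl : Expl I S.toNS0
  sub : ∀ W : Set (Fin M → ℂ), CCone W → W ⊆ cone I →
    ∃ (S' : NS0 M n W (PolW W) (Pol2W W W)) (N : NS2 S S' (Pol2W (cone I) W)),
      Expl I S' ∧ ∀ p, (N.pt p).1 = p.1
  nm : ∀ k, Nm n (g k) (S.HS k)
  gt : ∀ k, c < k → g k = 0
  deg : (g 0).natDegree ≤ s
  ser : (g 0 : PowerSeries ℂ) = (1 - PowerSeries.X) ^ (n + 1) * HS I 0
  ne : (g 0).eval 1 ≠ 0
  top : (1 - Polynomial.X) ^ (n + 1) ∣ g c - Polynomial.X ^ s * g 0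

theorem exists_Nx (hX : IsManifold I c) (hM : M = n + 1 + c) (hn : 1 ≤ n)
    {s : ℕ} {ν : Finset (Fin M) → secRing I}
    (hν : ν ∈ Hm (secRing I) c s) (hne : ∀ x : cone I, ∃ J, (ν J).1 x ≠ 0) :
    ∃ S g, Nx I c n s S g := by
  obtain ⟨S, hE, h1, h2, h3, hS⟩ := exists_NSX hX hM
  obtain ⟨g0, hd, hh⟩ := degree_bound' hX hM hn hν hne (a := 1) (k := 0) (Or.inr ⟨rfl, le_rfl⟩)
  obtain ⟨m₀, hm₀⟩ := finrank_Hm_large hX hM hn
  have hP : ∀ k, PEq (HS I k) (S.HS k) := fun k => PEq.of_coeff m₀ fun m hm => by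
    simp only [HS, NS0.HS, PowerSeries.coeff_mk]
    rw [hS, hm₀ m hm k]
  have hN0 : Nm n g0 (HS I 0) := ⟨0, by rw [hh]; simp⟩
  have hex : ∀ k : ℕ, ∃ g : Polynomial ℂ, Nm n g (S.HS k) ∧ (c < k → g = 0) ∧ (k = 0 → g = g0) := by
    intro k
    by_cases hk : k = 0
    · subst hk
      exact ⟨g0, num_peq hN0 (hP 0), fun h => absurd h (Nat.not_lt_zero c), fun _ => rfl⟩
    by_cases hc : c < k
    · refine ⟨0, ⟨0, ?_⟩, fun _ => rfl, fun h => absurd h hk⟩
      have : S.HS k = 0 := by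
        ext m
        simp only [NS0.HS, PowerSeries.coeff_mk]
        rw [hS, Hm_gt hX le_rfl hc]
        simp
      rw [this]
      simp
    · obtain ⟨g, hg⟩ := num_rat (S.sub0.ok_piM k)
      rw [S.chi_sub0] at hg
      exact ⟨g, hg, fun h => absurd h hc, fun h => absurd h hk⟩
  choose g hg hz h0 using hex
  have e0 : g 0 = g0 := h0 0 rfl
  refine ⟨S, g, hE, fun W hW hs => ?_, hg, hz, by rw [e0]; simpa using hd, by rw [e0, hh],
    fun hev => ?_, ?_⟩
  · obtain ⟨S', hS'⟩ := exists_NSW hX hM hW hs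
    obtain ⟨N, hN⟩ := exists_NS2 S hE h1 h2 h3 hs S' hS'
    exact ⟨S', N, hS', hN⟩
  · obtain ⟨x, hx⟩ := hX.nonempty
    have hdv : (1 - Polynomial.X : Polynomial ℂ) ^ 1 ∣ g 0 := by
      have := Polynomial.dvd_iff_isRoot.2 hev
      rw [pow_one, ← neg_sub, neg_dvd]
      simpa using this
    have hg0 : Nm n (g 0) ((Dat.one S.toNS0).chi 1) := by
      rw [S.chi_one]
      exact hg 0
    have := hE.order hX.ccone (hX.locCut hx) hg0 hdv
    omega
  · have a1 := num_mul hN0 (Polynomial.X ^ s)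
    rw [Polynomial.coe_pow, Polynomial.coe_X, ← HS_top hX hM hn hν hne, ← e0] at a1
    exact Nm.dvd (hg c) a1 (hP c).symm

theorem Nx.series (hM : M = n + 1 + c) {s : ℕ} {S : NS M n (cone I) (Pol I) (Pol2 I)}
    {g : ℕ → Polynomial ℂ} (h : Nx I c n s S g) (hi : s + 2 * c ≤ n) (β : Fin c → ℕ)
    (hβ : ∑ j, β j ≤ s) (h1 : ∀ k, (1 - Polynomial.X) ^ (n + 1 - c) ∣ g k - g 0 *
      ∑ J ∈ powersetCard k (univ : Finset (Fin c)), Polynomial.X ^ (∑ j ∈ J, β j)) :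
    (1 - PowerSeries.X) ^ M *
      PowerSeries.mk (fun m : ℕ => (finrank ℂ (Gr (secRing I) m) : ℂ)) =
        ∏ i, (1 - PowerSeries.X ^ (β i + 1)) := by
  have N2 := S.num2 hM g h.nm
  have e : ∑ k ∈ range (M + 1), (-Polynomial.X) ^ k * g k =
      ∑ k ∈ range (c + 1), (-Polynomial.X) ^ k * g k := by
    symm
    refine Finset.sum_subset (range_subset_range.2 (by omega)) fun k _ hk => ?_
    rw [h.gt k (by simpa [Nat.lt_succ_iff] using hk), mul_zero]
  rw [e] at N2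
  have h2 := s3_series (L := n + 1 - c) β hβ g h.deg h.ne (by omega) h1
    ((pow_dvd_pow _ (Nat.sub_le _ _)).trans N2)
  have := congrArg (fun p : Polynomial ℂ => (p : PowerSeries ℂ)) h2
  simp only [Polynomial.coe_mul, main_coe_prod, Polynomial.coe_sub, Polynomial.coe_pow,
    Polynomial.coe_one, Polynomial.coe_X, h.ser] at this
  have e2 : PowerSeries.mk (fun m : ℕ => (finrank ℂ (Gr (secRing I) m) : ℂ)) = HS I 0 := by
    simp only [HS, finrank_Fm_zero]
  rw [e2, ← this, show (1 - PowerSeries.X : PowerSeries ℂ) ^ M =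
    (1 - PowerSeries.X) ^ (n + 1 + c) from congrArg _ hM]
  ring

end Pool.Agent.HCF
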