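import Pool.Agent.P.MP_f644fa_ag.LSes
import Pool.Agent.P.MP_f644fa_ag.LSub1

/-! The filtration of the exterior algebra by a flag of line subbundles. -/

noncomputable section
namespace Pool.Agent.HCF
open Finset Module PowerSeries

variable {M n : ℕ} {X R RR : Type} [CommRing R] [Algebra ℂ R] [CommRing RR] [Algebra ℂ RR]
  {S : NS0 M n X R RR} {σ : Type} [LinearOrder σ] [Fintype σ]

/-- the vectors whose exterior multiplication kills `y` -/
def lfil_ann (y : Finset σ → ℂ) : Submodule ℂ (σ → ℂ) where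
  carrier := {v | epv ℂ v y = 0}
  add_mem' {a b} ha hb := by
    have ha' : epv ℂ a y = 0 := ha
    have hb' : epv ℂ b y = 0 := hb
    show epv ℂ (a + b) y = 0
    rw [epv_add, LinearMap.add_apply, ha', hb', add_zero]
  zero_mem' := by
    show epv ℂ 0 y = 0
    simp [epv]
  smul_mem' c a ha := by
    have ha' : epv ℂ a y = 0 := ha
    show epv ℂ (c • a) y = 0
    rw [epv_smul, LinearMap.smul_apply, ha', smul_zero]

theorem lfil_mem_ann {y : Finset σ → ℂ} {v : σ → ℂ} : v ∈ lfil_ann y ↔ epv ℂ v y = 0 := Iff.rfl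

/-- the flag -/
def lfil_Sp (θ : ℕ → X → σ → ℂ) (i : ℕ) (q : X) : Submodule ℂ (σ → ℂ) :=
  Submodule.span ℂ {v | ∃ i' < i, v = θ i' q}

omit [LinearOrder σ] [Fintype σ] in
theorem lfil_Sp_le {θ : ℕ → X → σ → ℂ} {i : ℕ} {q : X} {W : Submodule ℂ (σ → ℂ)} :
    lfil_Sp θ i q ≤ W ↔ ∀ i' < i, θ i' q ∈ W :=
  Submodule.span_le.trans ⟨fun h i' hi => h ⟨i', hi, rfl⟩, by
    rintro h _ ⟨i', hi, rfl⟩
    exact h i' hi⟩

omit [LinearOrder σ] [Fintype σ] in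
theorem lfil_mem_Sp {θ : ℕ → X → σ → ℂ} {i i' : ℕ} (h : i' < i) (q : X) :
    θ i' q ∈ lfil_Sp θ i q := Submodule.subset_span ⟨i', h, rfl⟩

omit [LinearOrder σ] [Fintype σ] in
theorem lfil_Sp_mono {θ : ℕ → X → σ → ℂ} {i i' : ℕ} (h : i' ≤ i) (q : X) :
    lfil_Sp θ i' q ≤ lfil_Sp θ i q := lfil_Sp_le.2 fun _ hk => lfil_mem_Sp (hk.trans_le h) q

theorem lfil_val_smul {I : Type} (q : X) (a : R) (ω : I → R) :
    S.val q (a • ω) = S.ev q a • S.val q ω := by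
  ext J; simp [NS0.val]

/-- the filtration -/
def lfil_N (B : Sub S σ) (θ : ℕ → X → σ → ℂ) (i k : ℕ) : Submodule R (Finset σ → R) where
  carrier := {ω | ω ∈ B.lamG ∧ Deg k ω ∧ ∀ q, lfil_Sp θ i q ≤ lfil_ann (S.val q ω)}
  add_mem' {a b} ha hb := ⟨B.lamG.add_mem ha.1 hb.1, fun J h => by simp [ha.2.1 J h, hb.2.1 J h],
    fun q v hv => by
      have h : S.val q (a + b) = S.val q a + S.val q b := by ext J; simp [NS0.val]
      rw [lfil_mem_ann, h, map_add, lfil_mem_ann.1 (ha.2.2 q hv), lfil_mem_ann.1 (hb.2.2 q hv),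
        add_zero]⟩
  zero_mem' := ⟨B.lamG.zero_mem, fun _ _ => rfl, fun q v _ => by
    have h : S.val q (0 : Finset σ → R) = 0 := by ext J; simp [NS0.val]
    rw [lfil_mem_ann, h, map_zero]⟩
  smul_mem' c a ha := ⟨B.lamG.smul_mem c ha.1, fun J h => by simp [ha.2.1 J h], fun q v hv => by
    rw [lfil_mem_ann, lfil_val_smul, map_smul, lfil_mem_ann.1 (ha.2.2 q hv), smul_zero]⟩

theorem lfil_mem_N {B : Sub S σ} {θ : ℕ → X → σ → ℂ} {i k : ℕ} {ω : Finset σ → R} :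
    ω ∈ lfil_N B θ i k ↔ ω ∈ B.lamG ∧ Deg k ω ∧ ∀ q, lfil_Sp θ i q ≤ lfil_ann (S.val q ω) :=
  Iff.rfl

theorem lfil_iov (a b : σ → ℂ) (y : Finset σ → ℂ) :
    iov ℂ a (epv ℂ b y) + epv ℂ b (iov ℂ a y) = (∑ j, a j * b j) • y :=
  LinearMap.congr_fun (iov_epv (N := ℂ) a b) y

omit [LinearOrder σ] [Fintype σ] in
theorem lfil_deg_val {k : ℕ} {ω : Finset σ → R} (h : Deg k ω) (q : X) : Deg k (S.val q ω) :=
  fun J hJ => by rw [NS0.val_apply, h J hJ, map_zero]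

theorem lfil_indep {V : Type} [AddCommGroup V] [Module ℂ V] (W : ℕ → Submodule ℂ V)
    (hW : ∀ a b, a ≤ b → W a ≤ W b) {m : ℕ} (v : Fin m → V) (h1 : ∀ k : Fin m, v k ∈ W (k + 1))
    (h2 : ∀ k : Fin m, v k ∉ W k) : LinearIndependent ℂ v := by
  classical
  refine Fintype.linearIndependent_iff.2 fun a ha => ?_
  by_contra hne
  obtain ⟨k, hk⟩ := not_forall.1 hne
  obtain ⟨k0, hk0, hmax⟩ := Finset.exists_max_image (univ.filter fun k => a k ≠ 0) id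
    ⟨k, mem_filter.2 ⟨mem_univ _, hk⟩⟩
  have h0 : a k0 ≠ 0 := (mem_filter.1 hk0).2
  rw [← Finset.add_sum_erase _ _ (mem_univ k0)] at ha
  have h3 : ∑ x ∈ univ.erase k0, a x • v x ∈ W k0 := by
    refine Submodule.sum_mem _ fun x hx => ?_
    by_cases hx0 : a x = 0
    · rw [hx0, zero_smul]; exact Submodule.zero_mem _
    · have h4 : x ≤ k0 := hmax x (mem_filter.2 ⟨mem_univ _, hx0⟩)
      have h5 : x < k0 := lt_of_le_of_ne h4 (ne_of_mem_erase hx)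
      exact Submodule.smul_mem _ _ (hW _ _ (Nat.succ_le_of_lt h5) (h1 x))
  rw [← neg_eq_of_add_eq_zero_right ha, Submodule.neg_mem_iff] at h3
  exact h2 k0 ((Submodule.smul_mem_iff _ h0).1 h3)

theorem lfil_add {g g' : Polynomial ℂ} {f f' : ℂ⟦X⟧} (h : Nm n g f) (h' : Nm n g' f') :
    Nm n (g + g') (f + f') := by
  obtain ⟨p, hp⟩ := h
  obtain ⟨p', hp'⟩ := h'
  exact ⟨p + p', by rw [Polynomial.coe_add, Polynomial.coe_add, hp, hp']; ring⟩

section main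
variable {B : Sub S σ} {r : ℕ} {θ : ℕ → X → σ → ℂ} {d : ℕ → ℕ}

omit [LinearOrder σ] [Fintype σ] in
theorem lfil_dbl (h3 : ∀ i < r, ∀ q, θ i (S.dbl q) - (2 : ℂ) ^ d i • θ i q ∈ lfil_Sp θ i q)
    (q : X) : ∀ i ≤ r, lfil_Sp θ i q ≤ lfil_Sp θ i (S.dbl q) := by
  intro i
  induction i with
  | zero => exact fun _ => lfil_Sp_le.2 fun _ h => absurd h (Nat.not_lt_zero _)
  | succ i ih =>
    intro hi
    have h4 := (ih (Nat.le_of_succ_le hi)).trans (lfil_Sp_mono (Nat.le_succ i) _)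
    refine lfil_Sp_le.2 fun i' hi' => ?_
    rcases Nat.lt_succ_iff_lt_or_eq.1 hi' with h | rfl
    · exact h4 (lfil_mem_Sp h q)
    · have h5 := Submodule.sub_mem _ (lfil_mem_Sp (θ := θ) hi' (S.dbl q)) (h4 (h3 i' hi q))
      rw [sub_sub_cancel] at h5
      exact (Submodule.smul_mem_iff _ (pow_ne_zero _ two_ne_zero)).1 h5

omit [LinearOrder σ] in
theorem lfil_wt (hw : ∀ j, B.w j = 0) (J : Finset σ) : B.wt J = 0 :=
  sum_eq_zero fun j _ => hw j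

omit [LinearOrder σ] in
theorem lfil_val_sc (hw : ∀ j, B.w j = 0) (ω : Finset σ → R) (q : X) :
    S.val q (S.sc B.wt ω) = S.val (S.dbl q) ω := by
  funext J
  rw [S.val_sc, lfil_wt hw, pow_zero, one_mul]

theorem lfil_inv (hw : ∀ j, B.w j = 0)
    (h3 : ∀ i < r, ∀ q, θ i (S.dbl q) - (2 : ℂ) ^ d i • θ i q ∈ lfil_Sp θ i q) {i : ℕ}
    (hi : i ≤ r) (k : ℕ) : ∀ ω ∈ lfil_N B θ i k, S.sc B.wt ω ∈ lfil_N B θ i k := by
  intro ω hω
  refine ⟨B.lamG_inv ω hω.1, fun J hJ => ?_, fun q => ?_⟩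
  · refine S.sep _ fun q => ?_
    have := S.val_sc B.wt ω q J
    rw [NS0.val_apply, NS0.val_apply, hω.2.1 J hJ, map_zero, mul_zero] at this
    exact this
  · rw [lfil_val_sc hw]
    exact (lfil_dbl h3 q i hi).trans (hω.2.2 _)

theorem lfil_onto (h2 : ∀ i < r, ∀ q, θ i q ∉ lfil_Sp θ i q)
    (h4 : ∀ i < r, ∀ p, ∃ (g : R) (u : σ → R), S.ev p g ≠ 0 ∧ ∀ q,
      S.val q u - S.ev q g • θ i q ∈ lfil_Sp θ i q) {i : ℕ} (hi : i < r) (k : ℕ) (p : X) :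
    ∃ g, S.ev p g ≠ 0 ∧ ∀ γ ∈ lfil_N B θ (i + 1) (k + 1), ∃ ω ∈ lfil_N B θ i k, ∀ q,
      epv ℂ (θ i q) (S.val q ω) = S.ev q g • S.val q γ := by
  classical
  choose g u hg hu using fun l : Fin (i + 1) => h4 l (lt_of_lt_of_le l.2 hi) p
  have hind : LinearIndependent ℂ fun (l : Fin (i + 1)) j => S.ev p (u l j) := by
    refine lfil_indep (fun a => lfil_Sp θ a p) (fun a b h => lfil_Sp_mono h p) _ (fun l => ?_)
      fun l hl => ?_
    · have h5 := Submodule.add_mem _ (lfil_Sp_mono (Nat.le_succ l) p (hu l p))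
        (Submodule.smul_mem _ (S.ev p (g l)) (lfil_mem_Sp (θ := θ) (Nat.lt_succ_self l) p))
      rw [sub_add_cancel] at h5
      exact h5
    · have hl' : S.val p (u l) ∈ lfil_Sp θ l p := hl
      have h5 := Submodule.sub_mem _ hl' (hu l p)
      rw [sub_sub_cancel] at h5
      exact h2 l (lt_of_lt_of_le l.2 hi) p ((Submodule.smul_mem_iff _ (hg l)).1 h5)
  obtain ⟨δ, z, hδ, hz⟩ := dual_fields (S.ev p) u hind
  let φ : X → (σ → ℂ) →ₗ[ℂ] ℂ := fun q =>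
    ∑ j, S.val q (z (Fin.last i)) j • LinearMap.proj (R := ℂ) (φ := fun _ : σ => ℂ) j
  have hφ : ∀ q b, φ q b = ∑ j, S.val q (z (Fin.last i)) j * b j := fun q b => by
    simp [φ]
  have hφu : ∀ q l, φ q (S.val q (u l)) = if l = Fin.last i then S.ev q δ else 0 := fun q l => by
    have h5 := congrArg (S.ev q) (hz l (Fin.last i))
    rw [map_sum, apply_ite (S.ev q), map_zero] at h5
    rw [hφ, ← h5]
    exact sum_congr rfl fun j _ => by rw [map_mul, mul_comm]; rfl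
  have hker : ∀ q, (∀ l, S.ev q (g l) ≠ 0) → ∀ a ≤ i, lfil_Sp θ a q ≤ LinearMap.ker (φ q) := by
    intro q hq a
    induction a with
    | zero => exact fun _ => lfil_Sp_le.2 fun _ h => absurd h (Nat.not_lt_zero _)
    | succ a ih =>
      intro ha
      refine lfil_Sp_le.2 fun i' hi' => ?_
      rcases Nat.lt_succ_iff_lt_or_eq.1 hi' with h | rfl
      · exact ih (Nat.le_of_succ_le ha) (lfil_mem_Sp h q)
      · let l : Fin (i + 1) := ⟨i', by omega⟩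
        have h5 := LinearMap.mem_ker.1 (ih (Nat.le_of_succ_le ha) (hu l q))
        have hl : l ≠ Fin.last i := fun h => by
          have := congrArg Fin.val h
          simp only [l, Fin.val_last] at this
          omega
        rw [map_sub, map_smul, hφu, if_neg hl, zero_sub, neg_eq_zero, smul_eq_mul] at h5
        exact (mul_eq_zero.1 h5).resolve_left (hq l)
  have hG : ∀ q, S.ev q (∏ l, g l) ≠ 0 → ∀ l, S.ev q (g l) ≠ 0 := fun q hq l => by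
    rw [map_prod] at hq
    exact prod_ne_zero_iff.1 hq l (mem_univ l)
  refine ⟨(∏ l, g l) * δ, ?_, fun γ hγ => ?_⟩
  · rw [map_mul, map_prod]
    exact mul_ne_zero (prod_ne_zero_iff.2 fun l _ => hg l) hδ
  have key : ∀ q, ∀ b ∈ lfil_Sp θ (i + 1) q,
      epv ℂ b (S.val q (((∏ l, g l) * g (Fin.last i)) • iov R (z (Fin.last i)) γ)) =
        (S.ev q (∏ l, g l) * (S.ev q (g (Fin.last i)) * φ q b)) • S.val q γ := by
    intro q b hb
    have h5 := lfil_iov (S.val q (z (Fin.last i))) b (S.val q γ)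
    rw [lfil_mem_ann.1 (hγ.2.2 q hb), map_zero, zero_add, ← hφ] at h5
    rw [lfil_val_smul, map_smul, S.val_iov, h5, smul_smul, map_mul, mul_assoc]
  refine ⟨((∏ l, g l) * g (Fin.last i)) • iov R (z (Fin.last i)) γ,
    ⟨B.lamG.smul_mem _ fun q v hv => ?_, fun J hJ => ?_, fun q b hb => ?_⟩, fun q => ?_⟩
  · have h5 : iov ℂ v (iov ℂ (S.val q (z (Fin.last i))) (S.val q γ)) +
        iov ℂ (S.val q (z (Fin.last i))) (iov ℂ v (S.val q γ)) = 0 :=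
      LinearMap.congr_fun (iov_iov (N := ℂ) v (S.val q (z (Fin.last i)))) (S.val q γ)
    rw [hγ.1 q v hv, map_zero, add_zero] at h5
    rw [S.val_iov, h5]
  · rw [Pi.smul_apply, hγ.2.1.iov _ J hJ, smul_zero]
  · rw [lfil_mem_ann, key q b (lfil_Sp_mono (Nat.le_succ i) q hb)]
    by_cases hq : S.ev q (∏ l, g l) = 0
    · rw [hq, zero_mul, zero_smul]
    · rw [LinearMap.mem_ker.1 (hker q (hG q hq) i le_rfl hb), mul_zero, mul_zero, zero_smul]
  · rw [key q _ (lfil_mem_Sp (Nat.lt_succ_self i) q), map_mul]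
    by_cases hq : S.ev q (∏ l, g l) = 0
    · rw [hq, zero_mul, zero_mul]
    · have h5 := LinearMap.mem_ker.1 (hker q (hG q hq) i le_rfl (hu (Fin.last i) q))
      rw [map_sub, map_smul, hφu, if_pos rfl, smul_eq_mul, sub_eq_zero] at h5
      rw [h5]
      rfl

theorem lfil_into (h1 : ∀ i < r, ∀ q, θ i q ∈ perp (B.T q))
    (h4 : ∀ i < r, ∀ p, ∃ (g : R) (u : σ → R), S.ev p g ≠ 0 ∧ ∀ q,
      S.val q u - S.ev q g • θ i q ∈ lfil_Sp θ i q) {i : ℕ} (hi : i < r) (k : ℕ) (p : X) :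
    ∃ g, S.ev p g ≠ 0 ∧ ∀ ω ∈ lfil_N B θ i k, ∃ γ ∈ lfil_N B θ (i + 1) (k + 1), ∀ q,
      S.val q γ = S.ev q g • epv ℂ (θ i q) (S.val q ω) := by
  obtain ⟨g, u, hg, hu⟩ := h4 i hi p
  refine ⟨g, hg, fun ω hω => ?_⟩
  have key : ∀ q, S.val q (epv R u ω) = S.ev q g • epv ℂ (θ i q) (S.val q ω) := fun q => by
    have h5 := lfil_mem_ann.1 (hω.2.2 q (hu q))
    rw [S.val_epv, ← sub_add_cancel (S.val q u) (S.ev q g • θ i q), epv_add, LinearMap.add_apply,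
      h5, zero_add, epv_smul, LinearMap.smul_apply]
  refine ⟨epv R u ω, ⟨fun q v hv => ?_, hω.2.1.epv u, fun q => lfil_Sp_le.2 fun i' hi' => ?_⟩,
    key⟩
  · have h5 := lfil_iov v (θ i q) (S.val q ω)
    have h6 : ∑ j, v j * θ i q j = 0 := by
      rw [← h1 i hi q v hv]
      exact sum_congr rfl fun j _ => mul_comm _ _
    rw [hω.1 q v hv, map_zero, add_zero, h6, zero_smul] at h5
    rw [key, map_smul, h5, smul_zero]
  · rw [lfil_mem_ann, key, map_smul]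
    rcases Nat.lt_succ_iff_lt_or_eq.1 hi' with h | rfl
    · have h5 : epv ℂ (θ i' q) (epv ℂ (θ i q) (S.val q ω)) +
          epv ℂ (θ i q) (epv ℂ (θ i' q) (S.val q ω)) = 0 :=
        LinearMap.congr_fun (epv_epv (N := ℂ) (θ i' q) (θ i q)) (S.val q ω)
      rw [lfil_mem_ann.1 (hω.2.2 q (lfil_mem_Sp h q)), map_zero, add_zero] at h5
      rw [h5, smul_zero]
    · have h5 : epv ℂ (θ i' q) (epv ℂ (θ i' q) (S.val q ω)) = 0 :=
        LinearMap.congr_fun (epv_sq (N := ℂ) (θ i' q)) (S.val q ω)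
      rw [h5, smul_zero]

theorem lfil_bot_zero (h2 : ∀ q, θ 0 q ∉ lfil_Sp θ 0 q) {i : ℕ} (hi : 0 < i) :
    lfil_N B θ i 0 = ⊥ := by
  refine (Submodule.eq_bot_iff _).2 fun ω hω => S.val_inj fun q => ?_
  have h0 : θ 0 q ≠ 0 := fun h => h2 q (h ▸ Submodule.zero_mem _)
  obtain ⟨j, hj⟩ : ∃ j, θ 0 q j ≠ 0 := Function.ne_iff.1 h0
  have h5 := lfil_iov (Pi.single j 1) (θ 0 q) (S.val q ω)
  rw [lfil_mem_ann.1 (hω.2.2 q (lfil_mem_Sp hi q)), map_zero, zero_add, iov_single,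
    (lfil_deg_val hω.2.1 q).io_zero, map_zero] at h5
  have h6 : ∑ l, (Pi.single j (1 : ℂ) : σ → ℂ) l * θ 0 q l = θ 0 q j := by
    simp [Pi.single_apply]
  rw [h6] at h5
  rw [(smul_eq_zero.1 h5.symm).resolve_left hj]
  ext J
  simp [NS0.val]

theorem lfil_bot_gt {c : ℕ} (hc : ∀ p, Fintype.card σ ≤ finrank ℂ (B.T p) + c) (i : ℕ) {k : ℕ}
    (hk : c < k) : lfil_N B θ i k = ⊥ := by
  refine (Submodule.eq_bot_iff _).2 fun ω hω => S.val_inj fun q => ?_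
  rw [deg_gt_eq_zero (B.T q) (hc q) hk (lfil_deg_val hω.2.1 q) (hω.1 q)]
  ext J
  simp [NS0.val]

end main

theorem Sub.fil (B : Sub S σ) (hw : ∀ j, B.w j = 0) {c : ℕ}
    (hc : ∀ p, Fintype.card σ ≤ finrank ℂ (B.T p) + c) (r : ℕ) (θ : ℕ → X → σ → ℂ) (d : ℕ → ℕ)
    (h1 : ∀ i < r, ∀ q, θ i q ∈ perp (B.T q))
    (h2 : ∀ i < r, ∀ q, θ i q ∉ Submodule.span ℂ {v | ∃ i' < i, v = θ i' q})
    (h3 : ∀ i < r, ∀ q, θ i (S.dbl q) - (2 : ℂ) ^ d i • θ i q ∈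
      Submodule.span ℂ {v | ∃ i' < i, v = θ i' q})
    (h4 : ∀ i < r, ∀ p, ∃ (g : R) (u : σ → R), S.ev p g ≠ 0 ∧ ∀ q,
      S.val q u - S.ev q g • θ i q ∈ Submodule.span ℂ {v | ∃ i' < i, v = θ i' q}) :
    ∃ ψ : ℕ → ℕ → Polynomial ℂ, (∀ k, Nm n (ψ 0 k) (B.lam.chi (piM σ k))) ∧
      (∀ i < r, ∀ k, (1 - Polynomial.X) ^ (n + 1) ∣ Polynomial.X ^ d i * ψ i k -
        Polynomial.X ^ d i * ψ (i + 1) k - ψ (i + 1) (k + 1)) ∧
      (∀ i < r, ψ (i + 1) 0 = 0) ∧ ∀ i k, c < k → ψ i k = 0 := by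
  have hz : Nm n 0 (0 : ℂ⟦X⟧) := ⟨0, by simp⟩
  have hex : ∀ i k, ∃ g : Polynomial ℂ, (i ≤ r → Nm n g (S.hs B.wt (lfil_N B θ i k))) ∧
      (c < k → g = 0) ∧ (0 < i → k = 0 → g = 0) := by
    intro i k
    by_cases hi : i ≤ r
    swap
    · exact ⟨0, fun h => absurd h hi, fun _ => rfl, fun _ _ => rfl⟩
    by_cases hk : c < k
    · exact ⟨0, fun _ => by rw [lfil_bot_gt hc i hk, S.hs_bot]; exact hz, fun _ => rfl,
        fun _ _ => rfl⟩
    by_cases h0 : 0 < i ∧ k = 0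
    · obtain ⟨h0, rfl⟩ := h0
      exact ⟨0, fun _ => by rw [lfil_bot_zero (h2 0 (h0.trans_le hi)) h0, S.hs_bot]; exact hz,
        fun _ => rfl, fun _ _ => rfl⟩
    obtain ⟨g, hg⟩ := S.hs_rat B.wt (lfil_inv hw h3 hi k)
    exact ⟨g, fun _ => hg, fun h => absurd h hk, fun h h' => absurd ⟨h, h'⟩ h0⟩
  choose ψ hψ hψc hψ0 using hex
  refine ⟨ψ, fun k => ?_, fun i hi k => ?_, fun i _ => hψ0 _ _ (Nat.succ_pos i) rfl,
    fun i k hk => hψc i k hk⟩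
  · have e : lfil_N B θ 0 k = B.lamG ⊓ degS σ R k := by
      ext ω
      exact ⟨fun h => ⟨h.1, h.2.1⟩, fun h => ⟨h.1, h.2,
        fun q => lfil_Sp_le.2 fun _ h' => absurd h' (Nat.not_lt_zero _)⟩⟩
    rw [B.chi_piM, ← e]
    exact hψ 0 k (Nat.zero_le r)
  · have hs := S.ses B.wt B.wt (d i) (lfil_N B θ i k) (lfil_N B θ (i + 1) k)
      (lfil_N B θ (i + 1) (k + 1)) (fun q => epv ℂ (θ i q)) (lfil_inv hw h3 hi.le k)
      (lfil_inv hw h3 hi (k + 1))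
      (fun ω => ⟨fun h => ⟨⟨h.1, h.2.1, fun q => (lfil_Sp_mono (Nat.le_succ i) q).trans (h.2.2 q)⟩,
          fun q => h.2.2 q (lfil_mem_Sp (Nat.lt_succ_self i) q)⟩,
        fun h => ⟨h.1.1, h.1.2.1, fun q => lfil_Sp_le.2 fun i' hi' => by
          rcases Nat.lt_succ_iff_lt_or_eq.1 hi' with h' | rfl
          · exact h.1.2.2 q (lfil_mem_Sp h' q)
          · exact h.2 q⟩⟩)
      (fun ω hω q J => by
        have h5 := lfil_mem_ann.1 (hω.2.2 _ (lfil_dbl h3 q i hi.le (h3 i hi q)))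
        rw [lfil_wt hw, pow_zero, one_mul, lfil_val_sc hw,
          ← sub_add_cancel (θ i (S.dbl q)) ((2 : ℂ) ^ d i • θ i q), epv_add, LinearMap.add_apply,
          h5, zero_add, epv_smul, LinearMap.smul_apply, Pi.smul_apply, smul_eq_mul])
      (lfil_into h1 h4 hi k) (lfil_onto h2 h4 hi k)
    have a1 := num_mul (hψ i k hi.le) (Polynomial.X ^ d i)
    have a2 := num_mul (hψ (i + 1) k hi) (Polynomial.X ^ d i)
    rw [Polynomial.coe_pow, Polynomial.coe_X] at a1 a2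
    have a3 := a1.dvd (lfil_add a2 (hψ (i + 1) (k + 1) hi)) hs
    rwa [← sub_sub] at a3

end Pool.Agent.HCF
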