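import Pool.Agent.P.MP_f644fa_ag.LT3
import Pool.Agent.P.MP_f644fa_ag.LSub1

/-! Multiplicativity on a subcone. -/

noncomputable section
namespace Pool.Agent.HCF
open Finset Module PowerSeries
open scoped Kronecker

variable {M n : ℕ} {X R RR X' R' RR' Q : Type} [CommRing R] [Algebra ℂ R] [CommRing RR]
  [Algebra ℂ RR] [CommRing R'] [Algebra ℂ R'] [CommRing RR'] [Algebra ℂ RR'] [CommRing Q]
  [Algebra ℂ Q]
variable {S : NS M n X R RR} {S' : NS0 M n X' R' RR'} (N : NS2 S S' Q) {I I' : Type} [Fintype I]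
  [Fintype I']

omit [Fintype I] [Fintype I'] in
theorem lt4_sc2_β (w : I → ℕ) (w' : I' → ℕ) (a : I → R) (b : I' → R') :
    N.sc2 (fun q : I × I' => w q.1 + w' q.2) (N.β I I' a b) =
      N.β I I' (S.sc w a) (S'.sc w' b) := by
  funext q
  simp only [NS2.sc2, NS0.sc, piOp_apply, NS2.β_apply, AlgHom.toLinearMap_apply, map_mul,
    N.s2_inl, N.s2_inr, map_smul, pow_add, smul_mul_smul_comm]

theorem lt4_cst_β (T : Matrix I I ℂ) (T' : Matrix I' I' ℂ) (a : I → R) (b : I' → R') :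
    cst Q (T ⊗ₖ T') (N.β I I' a b) = N.β I I' (cst R T a) (cst R' T' b) := by
  funext ⟨A, B⟩
  simp only [cst_apply, NS2.β_apply, Fintype.sum_prod_type, Matrix.kroneckerMap_apply, map_sum,
    map_smul, Finset.sum_mul_sum, smul_mul_smul_comm]

variable {N} {D : Dat S.toNS0 I} {E : Dat S' I}

theorem lt4_ident (h : N.IsRes D E) (D' : Dat S' I') (η : ℂ) (τ : End ℂ (I × I' → Q))
    (T : Matrix (I × I') (I × I') ℂ) (h1 : ∀ y ∈ N.MM D D', τ y ∈ N.MM D D')
    (h2 : ∀ y, τ (N.sc2 (E.tensor D').w y) = N.sc2 (E.tensor D').w (τ y))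
    (h3 : ∀ j y, τ (N.u j • y) = η • N.u j • τ y)
    (h4 : ∀ y, (fun q => N.mu (τ y q)) = cst R' T fun q => N.mu (y q)) :
    PEq ((1 + C (-η) * PowerSeries.X) ^ M *
        chi (N.sc2 (E.tensor D').w) ((N.MM D D').restrictScalars ℂ) τ)
      ((N.lam.tensor (E.tensor D')).chi (parM (Fin M) (-η) ⊗ₖ T)) := by
  obtain ⟨m₁, hm₁⟩ := h.core_inj D'
  obtain ⟨m₂, hm₂⟩ := h.core_surj D'
  have hk := chi_koszul (Fin M) (-η) (h.grd_MM D') (T := τ) h1 fun w _ => h2 w
  rw [Fintype.card_fin, ← N.KK_eq D D'] at hk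
  rw [← hk]
  refine PEq.of_coeff (max m₁ m₂) fun m hm => ?_
  have := (h.grd_KK D').fin m
  have hτ : ∀ z ∈ (N.KK D D').restrictScalars ℂ,
      piOp (fun J : Finset (Fin M) => (-η) ^ J.card) τ z ∈ (N.KK D D').restrictScalars ℂ := by
    intro z hz J _
    exact (N.MM D D').smul_of_tower_mem _ (h1 _ (hz J trivial))
  have hc : ∀ z, piOp (fun J : Finset (Fin M) => (-η) ^ J.card) τ (N.sK (E.tensor D').w z) =
      N.sK (E.tensor D').w (piOp (fun J : Finset (Fin M) => (-η) ^ J.card) τ z) := by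
    intro z
    funext J
    simp only [NS2.sK, piOp_apply, map_smul, h2]
    rw [smul_comm]
  have key := hopf (p := (N.KK D D').restrictScalars ℂ ⊓ Eg (N.sK (E.tensor D').w) (m : ℕ))
    (d := N.dd _) (τ := piOp (fun J : Finset (Fin M) => (-η) ^ J.card) τ)
    (τ' := cst R' (parM (Fin M) (-η) ⊗ₖ T)) (N.muh _) (mapsTo_inf hτ (fun z _ => hc z) _)
    (fun z _ => by
      have := ident_comm N.u τ η (-1) h3 z
      simp only [neg_mul, one_mul, neg_smul, one_smul] at this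
      exact this)
    (fun z _ => by
      funext ⟨J, q⟩
      rw [cst_kron, parM, cst_diagonal]
      have := congrFun (h4 (z J)) q
      change N.mu (((-η) ^ J.card • τ (z J)) q) = _
      rw [Pi.smul_apply, map_smul, this]
      rfl)
    (hm₁ m (le_of_max_le_left hm))
  rw [hm₂ m (le_of_max_le_right hm)] at key
  simp only [Dat.chi, chi, coeff_mk]
  exact key

theorem NS2.IsRes.ident (h : N.IsRes D E) {D' : Dat S' I'} {T : Matrix I I ℂ}
    {T' : Matrix I' I' ℂ} (h1 : D.Ok T) (h2 : E.Ok T) (h3 : D'.Ok T') :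
    PEq ((1 - PowerSeries.X) ^ M * (D.chi T * D'.chi T'))
      ((N.lam.tensor (E.tensor D')).chi (parM (Fin M) (-1) ⊗ₖ (T ⊗ₖ T'))) := by
  have key := lt4_ident h D' 1 (cst Q (T ⊗ₖ T')) (T ⊗ₖ T')
    (fun y hy => by
      induction hy using Submodule.span_induction with
      | mem y hy =>
        obtain ⟨a, ha, b, hb, rfl⟩ := hy
        rw [lt4_cst_β]
        exact Submodule.subset_span ⟨_, h1.map a ha, _, h3.map b hb, rfl⟩
      | zero => rw [map_zero]; exact Submodule.zero_mem _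
      | add a b _ _ ha hb => rw [map_add]; exact Submodule.add_mem _ ha hb
      | smul r a _ ha => rw [ident_cst_smul]; exact Submodule.smul_mem _ _ ha)
    (fun y => ident_cst_sc N.s2 _ _ (h2.kron h3).wt y)
    (fun j y => by rw [ident_cst_smul, one_smul])
    (fun y => funext fun q => ident_cst_map N.mu _ y q)
  have hw : (E.tensor D').w = fun q : I × I' => D.w q.1 + D'.w q.2 := by
    rw [← h.w]
    rfl
  have e := chi_prod (s'' := N.sc2 (E.tensor D').w) (T'' := cst Q (T ⊗ₖ T')) (T := cst R T)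
    (T' := cst R' T') (N.tensInj I I') D.grd D'.grd
    (fun a _ b _ => by rw [hw]; exact lt4_sc2_β N D.w D'.w a b) h1.map (fun w _ => h1.comm w)
    h3.map (fun w _ => h3.comm w) fun a _ b _ => lt4_cst_β N T T' a b
  rw [N.MM_eq D D', e] at key
  have e1 : (1 + C (-1 : ℂ) * PowerSeries.X : ℂ⟦X⟧) = 1 - PowerSeries.X := by
    rw [map_neg, map_one]; ring
  rw [e1] at key
  exact key

theorem NS2.IsRes.mult (h : N.IsRes D E) {c : ℕ} (hM : M = n + 1 + c) {D' : Dat S' I'}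
    {T : Matrix I I ℂ} {T' : Matrix I' I' ℂ} (h1 : D.Ok T) (h2 : E.Ok T) (h3 : D'.Ok T')
    {g g' g'' g₀ : Polynomial ℂ} (hg : Nm n g (D.chi T)) (hg' : Nm n g' (D'.chi T'))
    (hg'' : Nm n g'' ((E.tensor D').chi (T ⊗ₖ T'))) (h₀ : Nm n g₀ (S.HS 0)) :
    (1 - Polynomial.X) ^ (n + 1 - c) ∣ g'' * g₀ - g * g' := by
  have e1 := h.ident h1 h2 h3
  have e2 := N.isRes_one.ident (Dat.Ok.one _) (Dat.Ok.one _) (h2.kron h3)
  rw [Dat.chi_unit_left (N.ok_parM _) (h2.kron h3), NS.chi_one, mul_comm (S.HS 0)] at e2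
  have e3 := e2.trans e1.symm
  have hd := (hg''.prod h₀ c).dvd (hg.prod hg' c) (by rw [← hM]; exact e3)
  rw [← sub_mul] at hd
  rcases le_total c (n + 1) with hc | hc
  · have hne : (1 - Polynomial.X : Polynomial ℂ) ^ c ≠ 0 := by
      refine pow_ne_zero _ fun e => ?_
      have := congrArg (Polynomial.eval 0) e
      simp at this
    rw [← mul_dvd_mul_iff_right hne, ← pow_add, Nat.sub_add_cancel hc]
    exact hd
  · rw [Nat.sub_eq_zero_of_le hc, pow_zero]
    exact one_dvd _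

end Pool.Agent.HCF
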