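import Pool.Agent.P.MP_f644fa_ag.LV0

/-! The extension locus has few local equations. -/

noncomputable section
namespace Pool.Agent.HCF
open Finset Module MvPolynomial

variable {M : ℕ} {I : Ideal (SS M)} {c n : ℕ} {j a : ℕ} {b : Fin j → ℕ} {f : Fin j → SS M}

theorem lv2_slot {D : ℕ} (i : Fin D) (w : Fin M → SS M) : ∃ r : Fin D ×ₗ Fin M → SS M,
    ∀ (y : Fin M → ℂ) (θ : Fin D ×ₗ Fin M → ℂ),
      ∑ q, eval y (r q) * θ q = ∑ l, eval y (w l) * θ (toLex (i, l)) := by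
  refine ⟨fun q => if (ofLex q).1 = i then w (ofLex q).2 else 0, fun y θ => ?_⟩
  rw [← Equiv.sum_comp toLex, Fintype.sum_prod_type, Finset.sum_eq_single i]
  · simp
  · intro i' _ hi
    simp [hi]
  · exact fun hi => absurd (mem_univ i) hi

theorem lv2_first {B : (Fin 2 → ℂ) → Submodule ℂ (Fin M → ℂ)} {d : ℕ}
    {θ : Fin (d + 1) ×ₗ Fin M → ℂ} (h : θ ∈ cSec B (d + 1)) :
    (fun l => θ (toLex (0, l))) ∈ B ![1, 0] := by
  rw [← pv_toP_first]
  exact mem_cSec.1 h _ fun e => one_ne_zero (congrFun e 0)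

theorem Gen.wl_locCut (hX : IsManifold I c) {s : ℕ} {ν : Finset (Fin M) → secRing I}
    (hν : ν ∈ Hm (secRing I) c s) (hne : ∀ x : cone I, ∃ J, (ν J).1 x ≠ 0)
    (h : Gen I b f) (hs : ∀ d < a, Sat I b f d) {x φ ξ y₀ : Fin M → ℂ}
    (hφ : ∑ l, φ l * x l ≠ 0) (h0 : y₀ ∈ Wl I x φ ξ a) :
    LocCut (Wl I x φ ξ a) y₀ (s + c + 1 + s) := by
  classical
  obtain ⟨hy₀, θ₀, hθ₀, hθ₀'⟩ := h0
  have hl : ∀ y ∈ Gx I x φ, IsLine I x y := fun y hy => Gx_line hφ hy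
  have hx : x ∈ cone I := by
    have := (hl y₀ hy₀).mem (p := ![1, 0]) fun e => one_ne_zero (congrFun e 0)
    rwa [pt_first] at this
  have hξ : ξ ∈ Es I x := by
    have := lv2_first hθ₀
    rwa [pt_first, funext hθ₀'] at this
  have hcard : Fintype.card (Fin (a + 1 + s) ×ₗ Fin M) = (a + 1 + s) * M := by
    rw [Fintype.card_lex, Fintype.card_prod, Fintype.card_fin, Fintype.card_fin]
  obtain ⟨ρ, hρ₀⟩ : ∃ ρ, finrank ℂ (perp (cSec (fun p => Es I (pt x y₀ p)) (a + 1 + s))) = ρ :=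
    ⟨_, rfl⟩
  have hρ₁ : ρ + c * (a + 1 + s) = (a + 1 + s) * M + s := by
    have e1 := finrank_perp (cSec (fun p => Es I (pt x y₀ p)) (a + 1 + s))
    have e2 := (hl y₀ hy₀).finrank_Es hX hν hne (d := a + 1 + s) (Nat.le_add_left _ _)
    omega
  have hρ : ∀ y ∈ Gx I x φ,
      finrank ℂ (perp (cSec (fun p => Es I (pt x y p)) (a + 1 + s))) = ρ := by
    intro y hy
    have e1 := finrank_perp (cSec (fun p => Es I (pt x y p)) (a + 1 + s))
    have e2 := (hl y hy).finrank_Es hX hν hne (d := a + 1 + s) (Nat.le_add_left _ _)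
    omega
  obtain ⟨v, δ₁, d1, hv, hv'⟩ := basis_near (Gx I x φ)
    (fun y => perp (cSec (fun p => Es I (pt x y p)) (a + 1 + s))) hρ hy₀
    ((hX.pgen_Es.cSec_gen (hl y₀ hy₀) _).trans (Submodule.span_mono fun w ⟨u, h1, h2⟩ =>
      ⟨u, fun y hy => h1 y (hl y hy), h2⟩))
  obtain ⟨b₁, δ₂, d2, hb₁⟩ := hX.exists_test (Cx_sub x hy₀.1)
  obtain ⟨b₂, δ₃, d3, hb₂⟩ := hX.exists_test hx
  choose r₁ hr₁ using fun mk : Fin s × Fin c => lv2_slot (Fin.natAdd (a + 1) mk.1) (b₁ mk.2)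
  choose r₂ hr₂ using fun k : Fin c =>
    lv2_slot (Fin.castAdd s (0 : Fin (a + 1))) fun l => C (eval x (b₂ k l))
  obtain ⟨R, hR⟩ : ∃ R : Fin ρ ⊕ (Fin s × Fin c) ⊕ Fin c → Fin (a + 1 + s) ×ₗ Fin M → SS M,
    R = Sum.elim v (Sum.elim r₁ r₂) := ⟨_, rfl⟩
  obtain ⟨Z, hZ⟩ : ∃ Z : (Fin M → ℂ) → Fin ρ ⊕ (Fin s × Fin c) ⊕ Fin c → ℂ, ∀ ζ, Z ζ =
    Sum.elim (fun _ => 0) (Sum.elim (fun _ => 0) fun k => ∑ l, eval x (b₂ k l) * ζ l) :=
    ⟨_, fun _ => rfl⟩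
  have p0 : ∀ (θ : Fin (a + 1) ×ₗ Fin M → ℂ) l,
      pad (Fin M) (a + 1) s θ (toLex (Fin.castAdd s 0, l)) = θ (toLex (0, l)) := by
    intro θ l
    rw [pad_apply, dif_pos (by simp)]
    rfl
  have key : ∀ y ∈ Gx I x φ, eval y δ₁ ≠ 0 → eval y δ₂ ≠ 0 → ∀ ζ ∈ Es I x, ∀ θ,
      (∀ i, ∑ q, eval y (R i q) * θ q = Z ζ i) ↔
        ∃ θ' ∈ cSec (fun p => Es I (pt x y p)) (a + 1), (∀ l, θ' (toLex (0, l)) = ζ l) ∧
          pad (Fin M) (a + 1) s θ' = θ := by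
    intro y hy e1 e2 ζ hζ θ
    have hB := hX.pgen_Es.pb (hl y hy)
    simp only [hR, hZ, Sum.forall, Sum.elim_inl, Sum.elim_inr, hr₁, hr₂, eval_C]
    constructor
    · rintro ⟨a1, a2, a3⟩
      have m1 : θ ∈ cSec (fun p => Es I (pt x y p)) (a + 1 + s) := by
        rw [← perp_perp (cSec _ _)]
        refine perp_anti (hv' y hy e1) (mem_perp_span.2 ?_)
        rintro _ ⟨k, rfl⟩
        exact (Finset.sum_congr rfl fun q _ => mul_comm _ _).trans (a1 k)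
      obtain ⟨θ', rfl⟩ := hB.tri (fun k l => eval y (b₁ k l)) (by
        simp only [pt_last]
        exact hb₁ y (Cx_sub x hy.1) e2) s m1 fun m k => a2 (m, k)
      have m2 := (hB.mem_pad s).1 m1
      have m3 := lv2_first m2
      rw [pt_first] at m3
      have m4 := hb₂ x hx d3 _ (sub_mem m3 hζ) fun k => by
        have := a3 k
        simp only [p0] at this
        simp only [Pi.sub_apply, mul_sub, Finset.sum_sub_distrib, this, sub_self]
      exact ⟨θ', m2, fun l => sub_eq_zero.1 (congrFun m4 l), rfl⟩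
    · rintro ⟨θ', m2, m3, rfl⟩
      refine ⟨fun k => mem_perp.1 (hv y hy k) _ ((hB.mem_pad s).2 m2), fun mk => ?_, fun k => ?_⟩
      · refine Finset.sum_eq_zero fun l _ => ?_
        rw [pad_apply, dif_neg (by exact Nat.not_lt.2 (Nat.le_add_right _ _)), mul_zero]
      · simp only [p0, m3]
  obtain ⟨κ, hκ⟩ : ∃ κ, ∑ i, (a - b i) = κ := ⟨_, rfl⟩
  have hκ' : κ ≤ c * a := by
    rw [← hκ]
    refine (Finset.sum_le_card_nsmul _ _ a fun i _ => Nat.sub_le _ _).trans ?_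
    rw [card_univ, Fintype.card_fin, smul_eq_mul]
    exact Nat.mul_le_mul_right _ (h.le hX)
  have rk : ∀ y ∈ Gx I x φ, eval y δ₁ ≠ 0 → eval y δ₂ ≠ 0 →
      finrank ℂ (Submodule.span ℂ (Set.range fun i => pv y (R i))) + κ = (a + 1 + s) * M := by
    intro y hy e1 e2
    obtain ⟨K, hK⟩ : ∃ K : Submodule ℂ (Fin (a + 1) ×ₗ Fin M → ℂ), ∀ θ, θ ∈ K ↔
        θ ∈ cSec (fun p => Es I (pt x y p)) (a + 1) ∧ ∀ l, θ (toLex (0, l)) = 0 :=
      ⟨cSec (fun p => Es I (pt x y p)) (a + 1) ⊓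
        LinearMap.ker (LinearMap.funLeft ℂ ℂ fun l => toLex (0, l)), fun θ =>
          and_congr Iff.rfl funext_iff⟩
    have e3 := (hX.pgen_Es.pb (hl y hy)).finrank_van K hK
    rw [h.finrank_cSec hX hs (hl y hy), hκ] at e3
    have z0 : ∀ i, Z 0 i = 0 := by simp [hZ]
    rw [span_eq_perp _ (K.map (pad (Fin M) (a + 1) s)) fun θ => ?_, ← e3,
      (Submodule.equivMapOfInjective _ (pad_inj s) K).finrank_eq, finrank_perp, hcard]
    have := key y hy e1 e2 0 (zero_mem _) θ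
    simp only [z0] at this
    refine Iff.trans ?_ this.symm
    simp only [Submodule.mem_map, hK, and_assoc, Pi.zero_apply]
  obtain ⟨δ, β, sel, hsel, d0, q1, q2⟩ := lin_sol {y | y ∈ Gx I x φ ∧ eval y δ₁ ≠ 0 ∧ eval y δ₂ ≠ 0}
    R (fun i => C (Z ξ i)) _ (fun y hy => by
      have e1 := rk y hy.1 hy.2.1 hy.2.2
      have e2 := rk y₀ hy₀ d1 d2
      omega) y₀ rfl
  simp only [eval_C] at q2
  refine (((hl y₀ hy₀).locCut hX hν hne).gx hy₀).add (ι := {i // i ∉ Set.range sel}) ?_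
    (fun i => ∑ q, R i q * β q - δ * C (Z ξ i)) (δ * (δ₁ * δ₂)) (by simp [d0, d1, d2])
    (fun i => ?_) fun y hy e e' => ?_
  · rw [Fintype.card_subtype_compl, Set.card_range_of_injective hsel]
    have e2 := rk y₀ hy₀ d1 d2
    simp only [Fintype.card_sum, Fintype.card_prod, Fintype.card_fin]
    rw [mul_add, mul_add, mul_one, mul_comm c s] at hρ₁
    omega
  · have := q2 y₀ ⟨hy₀, d1, d2⟩ d0 _ ((key y₀ hy₀ d1 d2 ξ hξ _).2 ⟨θ₀, hθ₀, hθ₀', rfl⟩) i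
    simp only [map_sub, map_sum, map_mul, eval_C, this, sub_self]
  · simp only [map_mul, mul_ne_zero_iff] at e
    obtain ⟨θ', m1, m2, -⟩ := (key y hy e.2.1 e.2.2 ξ hξ
      fun q => (eval y δ)⁻¹ * eval y (β q)).1 fun i => by
        have : ∑ q, eval y (R i q) * eval y (β q) = eval y δ * Z ξ i := by
          by_cases hi : i ∈ Set.range sel
          · obtain ⟨k, rfl⟩ := hi
            simpa only [map_sum, map_mul, eval_C] using congrArg (eval y) (q1 k)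
          · simpa only [map_sub, map_sum, map_mul, eval_C, sub_eq_zero] using e' ⟨i, hi⟩
        simp only [mul_left_comm _ (eval y δ)⁻¹]
        rw [← Finset.mul_sum, this, inv_mul_cancel_left₀ e.1]
    exact ⟨hy, θ', m1, m2⟩

end Pool.Agent.HCF
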