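import Pool.Agent.P.MP_f644fa_ag.LV1
import Pool.Agent.P.MP_f644fa_ag.LV2

/-! A large subcone with a further nowhere dependent section. -/

noncomputable section
namespace Pool.Agent.HCF
open Finset Module MvPolynomial

variable {M : ℕ} {I : Ideal (SS M)} {c n : ℕ} {j a : ℕ} {b : Fin j → ℕ} {f : Fin j → SS M}

theorem lv3_sec {B : (Fin 2 → ℂ) → Submodule ℂ (Fin M → ℂ)} {θ : Fin (a + 1) ×ₗ Fin M → ℂ} :
    θ ∈ cSec B (a + 1) ↔ toP (Fin M) (a + 1) θ ∈ Sec B a := Iff.rfl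

theorem lv3_ne0 : (![1, 0] : Fin 2 → ℂ) ≠ 0 := fun h => by simpa using congrFun h 0

theorem lv3_ne1 : (![0, 1] : Fin 2 → ℂ) ≠ 0 := fun h => by simpa using congrFun h 1

/-- two extensions of proportional covectors -/
theorem lv3_diff (hX : IsManifold I c) (h : Gen I b f) (hb : ∀ i, b i ≤ a)
    (hs : ∀ d < a, Sat I b f d) {x y ξ : Fin M → ℂ} (hl : IsLine I x y)
    {θ₁ θ₂ : Fin (a + 1) ×ₗ Fin M → ℂ} (h1 : θ₁ ∈ cSec (fun p => Es I (pt x y p)) (a + 1))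
    (h2 : θ₂ ∈ cSec (fun p => Es I (pt x y p)) (a + 1)) {t : ℂ}
    (e1 : ∀ l, θ₁ (toLex (0, l)) = t * ξ l) (e2 : ∀ l, θ₂ (toLex (0, l)) = ξ l) :
    (fun K => θ₁ (toLex (Fin.last a, K))) - t • (fun K => θ₂ (toLex (Fin.last a, K))) ∈ Sp f y := by
  have h3 : θ₁ - t • θ₂ ∈ cSec (fun p => Es I (pt x y p)) (a + 1) :=
    sub_mem h1 (Submodule.smul_mem _ t h2)
  have h4 : pv ![1, 0] (toP (Fin M) (a + 1) (θ₁ - t • θ₂)) = 0 := by
    rw [pv_toP_first]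
    funext l
    rw [Pi.sub_apply, Pi.smul_apply, e1, e2, smul_eq_mul, sub_self, Pi.zero_apply]
  have h5 := (h.dep hX hb hs hl (lv3_sec.1 h3) lv3_ne0 (by rw [h4]; exact zero_mem _)).2 ![0, 1]
  rw [pv_toP_last, pt_last] at h5
  exact h5

theorem Gen.exists_W (hX : IsManifold I c) {s : ℕ} {ν : Finset (Fin M) → secRing I}
    (hν : ν ∈ Hm (secRing I) c s) (hne : ∀ x : cone I, ∃ J, (ν J).1 x ≠ 0)
    (h : Gen I b f) (hb : ∀ i, b i ≤ a) (hs : ∀ d < a, Sat I b f d) (hn : ¬ Sat I b f a) :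
    ∃ (W : Set (Fin M → ℂ)) (y₀ : Fin M → ℂ) (θ : (Fin M → ℂ) → Fin M → ℂ), CCone W ∧
      W ⊆ cone I ∧ LocCut W y₀ (s + c + 1 + s) ∧ (∀ y ∈ W, θ y ∈ Es I y) ∧
      (∀ y ∈ W, θ y ∉ Sp f y) ∧ (∀ y ∈ W, θ ((2 : ℂ) • y) - (2 : ℂ) ^ a • θ y ∈ Sp f y) ∧
      ∀ y₁ ∈ W, ∃ (g : SS M) (u : Fin M → SS M), eval y₁ g ≠ 0 ∧
        ∀ y ∈ W, pv y u - eval y g • θ y ∈ Sp f y := by
  obtain ⟨x, y₀, hl, η, hη, hη'⟩ : ∃ x y₀, IsLine I x y₀ ∧
      ∃ η ∈ Sec (fun p => Es I (pt x y₀ p)) a, η ∉ Nn b (dF x y₀ f) a := by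
    by_contra hc
    refine hn fun x y hl η hη => ?_
    by_contra hη'
    exact hc ⟨x, y, hl, η, hη, hη'⟩
  set ξ : Fin M → ℂ := pv ![1, 0] η with hξd
  have hξ : ξ ∉ Sp f x := fun hξ =>
    hη' (h.dep hX hb hs hl hη lv3_ne0 (by rw [pt_first]; exact hξ)).1
  obtain ⟨φ, hφ, hy₀⟩ := hl.exists_phi
  have h0 : y₀ ∈ Wl I x φ ξ a := by
    obtain ⟨θ, hθ⟩ := toP_surj hη.1
    refine ⟨hy₀, θ, lv3_sec.2 (hθ ▸ hη), fun l => ?_⟩
    rw [hξd, ← hθ, pv_toP_first]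
  have hW := h.wl_ccone hX hs hφ ξ
  have hex : ∀ y, ∃ θ : Fin (a + 1) ×ₗ Fin M → ℂ, y ∈ Wl I x φ ξ a →
      θ ∈ cSec (fun p => Es I (pt x y p)) (a + 1) ∧ ∀ l, θ (toLex (0, l)) = ξ l := by
    intro y
    by_cases hy : y ∈ Wl I x φ ξ a
    · obtain ⟨θ, hθ⟩ := hy.2
      exact ⟨θ, fun _ => hθ⟩
    · exact ⟨0, fun h => absurd h hy⟩
  choose Θ hΘ using hex
  have line : ∀ y ∈ Wl I x φ ξ a, IsLine I x y := fun y hy => Gx_line hφ hy.1
  refine ⟨Wl I x φ ξ a, y₀, fun y K => Θ y (toLex (Fin.last a, K)), hW,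
    fun y hy => Cx_sub x hy.1.1, h.wl_locCut hX hν hne hs hφ h0, fun y hy => ?_, fun y hy hm => ?_,
    fun y hy => ?_, fun y₁ hy₁ => ?_⟩
  · have h1 := mem_cSec.1 (hΘ y hy).1 _ lv3_ne1
    rw [pv_toP_last] at h1
    simp only [pt_last] at h1
    exact h1
  · have h1 := (h.dep hX hb hs (line y hy) (lv3_sec.1 (hΘ y hy).1) lv3_ne1
      (by rw [pv_toP_last, pt_last]; exact hm)).2 ![1, 0]
    rw [pv_toP_first, pt_first, funext (hΘ y hy).2] at h1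
    exact hξ h1
  · have hy2 := hW.smul y hy 2 two_ne_zero
    have h1 := cSec_scale (B' := fun p => Es I (pt x ((2 : ℂ) • y) p)) two_ne_zero
      (fun p => by simp only [pt_smul_right]) (hΘ y hy).1
    have h2 := lv3_diff hX h hb hs (line _ hy2) (hΘ _ hy2).1 h1 (t := 1) (ξ := ξ)
      (fun l => by rw [(hΘ _ hy2).2, one_mul]) (fun l => by simp [(hΘ y hy).2])
    rw [h.sp_smul y two_ne_zero, one_smul] at h2
    exact h2
  · obtain ⟨δ, β, hδ, hβ⟩ := h.wl_loc hX hs hφ ξ hy₁.1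
    refine ⟨δ * δ, fun K => δ * β (toLex (Fin.last a, K)),
      by rw [map_mul]; exact mul_ne_zero hδ hδ, fun y hy => ?_⟩
    have e : (pv y fun K => δ * β (toLex (Fin.last a, K))) - eval y (δ * δ) •
        (fun K => Θ y (toLex (Fin.last a, K))) = eval y δ • ((fun K => pv y β
          (toLex (Fin.last a, K))) - eval y δ • fun K => Θ y (toLex (Fin.last a, K))) := by
      funext K
      simp only [pv_apply, map_mul, Pi.sub_apply, Pi.smul_apply, smul_eq_mul]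
      ring
    rw [e]
    by_cases hd : eval y δ = 0
    · rw [hd, zero_smul]
      exact zero_mem _
    · exact Submodule.smul_mem _ _
        (lv3_diff hX h hb hs (line y hy) (hβ y hy hd).1 (hΘ y hy).1 (hβ y hy hd).2 (hΘ y hy).2)

end Pool.Agent.HCF
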