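import Pool.Agent.P.MP_f644fa_ag.LM0
import Pool.Agent.P.MP_f644fa_ag.LV3
import Pool.Agent.P.MP_f644fa_ag.LFil
import Pool.Agent.P.MP_f644fa_ag.LT4

/-! The splitting types on lines are bounded by the roots. -/

noncomputable section
namespace Pool.Agent.HCF
open Finset Module Polynomial

variable {M : ℕ} {I : Ideal (SS M)} {c n : ℕ}

theorem lm2_span {j : ℕ} {V : Type} [AddCommGroup V] [Module ℂ V] (u : Fin j → V) (Θ : ℕ → V)
    (h : ∀ i : Fin j, Θ i = u i) :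
    Submodule.span ℂ {v | ∃ i' < j, v = Θ i'} = Submodule.span ℂ (Set.range u) := by
  refine congrArg _ (Set.ext fun v => ⟨?_, ?_⟩)
  · rintro ⟨i, hi, rfl⟩
    exact ⟨⟨i, hi⟩, (h ⟨i, hi⟩).symm⟩
  · rintro ⟨i, rfl⟩
    exact ⟨i, i.2, (h i).symm⟩

theorem lm2_ind {j : ℕ} {V : Type} [AddCommGroup V] [Module ℂ V] {u : Fin j → V}
    (hu : LinearIndependent ℂ u) (Θ : ℕ → V) (h : ∀ i : Fin j, Θ i = u i) (i : Fin j) :
    Θ i ∉ Submodule.span ℂ {v | ∃ i' < i.val, v = Θ i'} := by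
  intro hm
  rw [h i] at hm
  refine hu.notMem_span_image (s := {k : Fin j | k < i}) (x := i) (lt_irrefl i)
    (Submodule.span_mono ?_ hm)
  rintro _ ⟨k, hk, rfl⟩
  exact ⟨⟨k, hk.trans i.2⟩, hk, (h ⟨k, hk.trans i.2⟩).symm⟩

theorem lm2_fil (hX : IsManifold I c) {W : Set (Fin M → ℂ)} (hWs : W ⊆ cone I)
    {O : Subalgebra ℂ (W → ℂ)} {RR : Type} [CommRing RR] [Algebra ℂ RR] {S' : NS0 M n W O RR}
    (hS' : Expl I S') (B : Sub S' (Fin M)) (hw : ∀ l, B.w l = 0)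
    (hT : ∀ q, B.T q = tangS I q.1) {j a : ℕ} {b : Fin j → ℕ} {f : Fin j → SS M} (hf : Gen I b f)
    {θ : (Fin M → ℂ) → Fin M → ℂ} (t1 : ∀ y ∈ W, θ y ∈ Es I y) (t2 : ∀ y ∈ W, θ y ∉ Sp f y)
    (t3 : ∀ y ∈ W, θ ((2 : ℂ) • y) - (2 : ℂ) ^ a • θ y ∈ Sp f y)
    (t4 : ∀ y₁ ∈ W, ∃ (g : SS M) (u : Fin M → SS M), MvPolynomial.eval y₁ g ≠ 0 ∧
      ∀ y ∈ W, pv y u - MvPolynomial.eval y g • θ y ∈ Sp f y) (d : ℕ → ℕ)
    (d1 : ∀ i : Fin j, d i = b i) (d2 : d j = a) :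
    ∃ ψ : ℕ → ℕ → ℂ[X], (∀ k, Nm n (ψ 0 k) (B.lam.chi (piM (Fin M) k))) ∧
      (∀ i < j + 1, ∀ k, (1 - X) ^ (n + 1) ∣ X ^ d i * ψ i k - X ^ d i * ψ (i + 1) k -
        ψ (i + 1) (k + 1)) ∧ (∀ i < j + 1, ψ (i + 1) 0 = 0) ∧ ∀ i k, c < k → ψ i k = 0 := by
  let Θ : ℕ → W → Fin M → ℂ := fun i q => if h : i < j then pv q.1 (gr (f ⟨i, h⟩)) else θ q.1
  have e1 : ∀ (i : Fin j) (q : W), Θ i q = pv q.1 (gr (f i)) := fun i q => dif_pos i.2
  have e2 : ∀ q : W, Θ j q = θ q.1 := fun q => dif_neg (lt_irrefl j)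
  have e3 : ∀ q : W, Submodule.span ℂ {v | ∃ i' < j, v = Θ i' q} = Sp f q.1 := fun q =>
    lm2_span _ (fun i => Θ i q) fun i => e1 i q
  have cases : ∀ i < j + 1, (∃ k : Fin j, i = k) ∨ i = j := fun i hi =>
    (Nat.lt_succ_iff_lt_or_eq.1 hi).imp_left fun h => ⟨⟨i, h⟩, rfl⟩
  refine Sub.fil B hw (fun p => ?_) (j + 1) Θ d (fun i hi q => ?_) (fun i hi q => ?_)
    (fun i hi q => ?_) fun i hi p => ?_
  · rw [hT, Fintype.card_fin]
    exact (hX.finrank_tang (hWs p.2)).ge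
  · rw [hT]
    rcases cases i hi with ⟨k, rfl⟩ | rfl
    · rw [e1]
      exact gr_mem_Es (hf.mem k) _
    · rw [e2]
      exact t1 _ q.2
  · rcases cases i hi with ⟨k, rfl⟩ | rfl
    · exact lm2_ind (hf.ind _ (hWs q.2)) (fun i => Θ i q) (fun i => e1 i q) k
    · rw [e2, e3]
      exact t2 _ q.2
  · rcases cases i hi with ⟨k, rfl⟩ | rfl
    · have e : Θ k (S'.dbl q) = (2 : ℂ) ^ d k • Θ k q := by
        rw [e1, e1, hS'.dbl, d1]
        exact funext fun l => eval_smul_hom (hf.hom k).pderiv 2 _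
      rw [e, sub_self]
      exact Submodule.zero_mem _
    · rw [e2, e2, e3, hS'.dbl, d2]
      exact t3 _ q.2
  · rcases cases i hi with ⟨k, rfl⟩ | rfl
    · refine ⟨1, fun l => MvPolynomial.aeval S'.x (gr (f k) l), by simp, fun q => ?_⟩
      rw [hS'.val_aeval, map_one, one_smul, e1, sub_self]
      exact Submodule.zero_mem _
    · obtain ⟨g, u, h0, hu⟩ := t4 _ p.2
      refine ⟨MvPolynomial.aeval S'.x g, fun l => MvPolynomial.aeval S'.x (u l),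
        by rwa [hS'.ev_aeval], fun q => ?_⟩
      rw [hS'.val_aeval, hS'.ev_aeval, e2, e3]
      exact hu _ q.2

theorem Nx.root (hX : IsManifold I c) (hM : M = n + 1 + c) {s : ℕ} {ν : Finset (Fin M) → secRing I}
    (hν : ν ∈ Hm (secRing I) c s) (hne : ∀ x : cone I, ∃ J, (ν J).1 x ≠ 0)
    {S : NS M n (cone I) (Pol I) (Pol2 I)} {g : ℕ → ℂ[X]} (h : Nx I c n s S g)
    (hi : 2 * s + 2 * c + 1 ≤ n) {β : Fin c → ℕ} (h1 : ∀ k, (1 - X) ^ (n + 1 - c) ∣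
      g k - g 0 * ∑ J ∈ powersetCard k (univ : Finset (Fin c)), X ^ (∑ j ∈ J, β j))
    {j a : ℕ} (hj : j < c) {b : Fin j → ℕ} (hb : ∀ i : Fin j, b i = β ⟨i, i.2.trans hj⟩)
    {f : Fin j → SS M} (hf : Gen I b f) (ha : ∀ i, b i ≤ a) (hs : ∀ d < a, Sat I b f d)
    (hn : ¬ Sat I b f a) : ∃ i : Fin c, j ≤ i.val ∧ β i = a := by
  obtain ⟨W, y₀, θ, hW, hWs, hcut, t1, t2, t3, t4⟩ := hf.exists_W hX hν hne ha hs hn
  obtain ⟨S', N, hS', hpt⟩ := h.sub W hW hWs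
  let d : ℕ → ℕ := fun i => if h : i < j then b ⟨i, h⟩ else a
  have d1 : ∀ i : Fin j, d i = b i := fun i => dif_pos i.2
  have d2 : d j = a := dif_neg (lt_irrefl j)
  have hT : ∀ q, (S.sub0.res N).T q = tangS I q.1 := fun q => by
    rw [← hpt q]
    exact h.expl.T (N.pt q)
  obtain ⟨ψ, p0, rel, z0, zt⟩ :=
    lm2_fil hX hWs hS' (S.sub0.res N) (fun _ => rfl) hT hf t1 t2 t3 t4 d d1 d2
  have ok1 : (Dat.one S').Ok 1 := Dat.Ok.one _
  obtain ⟨π, hπ⟩ := num_rat ok1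
  refine s2_root (γ := 2 * s + 1) (L := n + 1 - c) hj β d (fun i hi' => ?_) d2 ψ π (fun k => ?_)
    (fun i hi' k => (pow_dvd_pow _ (Nat.sub_le _ _)).trans (rel i hi' k)) z0 zt (fun he => ?_)
    (by omega)
  · exact (d1 ⟨i, hi'⟩).trans (hb ⟨i, hi'⟩)
  · have m := (S.sub0.isRes N).mult hM (S.sub0.ok_piM k) ((S.sub0.res N).ok_piM k) ok1
      (g := g k) (g'' := ψ 0 k) (by rw [S.chi_sub0]; exact h.nm k) hπ
      (by rw [Dat.chi_unit ((S.sub0.res N).ok_piM k)]; exact p0 k) (h.nm 0)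
    refine dvd_cancel h.ne ?_
    have e := dvd_add m ((h1 k).mul_right π)
    rwa [show ∀ A : ℂ[X], ψ 0 k * g 0 - g k * π + (g k - g 0 * A) * π = (ψ 0 k - π * A) * g 0 from
      fun A => by ring] at e
  · have := hS'.order hW hcut hπ he
    omega

end Pool.Agent.HCF
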