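import Pool.Agent.P.MP_f644fa_ag.B2B

/-! There is a further generator. -/

open MvPolynomial Finset Module

namespace Pool.Agent.HCF

theorem b2_trunc {M c : ℕ} {A : Type} [CommRing A] [Algebra ℂ A] (𝒜 : ℕ → Submodule ℂ A)
    [∀ m, FiniteDimensional ℂ (𝒜 m)] (φ : MvPolynomial (Fin M) ℂ →ₐ[ℂ] A)
    (hφ : ∀ m f, MvPolynomial.IsHomogeneous f m → φ f ∈ 𝒜 m) (β : Fin c → ℕ) {j : ℕ} (hj : j < c)
    (b : Fin j → ℕ) (hb : ∀ i : Fin j, b i = β ⟨i, i.2.trans hj⟩) (f : Fin j → MvPolynomial (Fin M) ℂ)
    (hf : ∀ i, (f i).IsHomogeneous (b i + 1)) (hf0 : ∀ i, φ (f i) = 0)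
    (hτ : ∀ m ≤ β ⟨j, hj⟩, ∀ g, MvPolynomial.IsHomogeneous g (m + 1) → φ g = 0 → ∃ a : Fin j → A,
      (∀ i, (b i ≤ m → a i ∈ 𝒜 (m - b i)) ∧ (m < b i → a i = 0)) ∧
        ∀ l, φ (pderiv l g) = ∑ i, a i * φ (pderiv l (f i)))
    (hH : (1 - PowerSeries.X) ^ M * PowerSeries.mk (fun m => (finrank ℂ (𝒜 m) : ℂ)) =
      ∏ j, (1 - PowerSeries.X ^ (β j + 1))) : False := by
  classical
  set α : Fin c → ℕ := fun i => β i + 1 with hα
  have hα0 : ∀ i, α i ≠ 0 := fun i => Nat.succ_ne_zero _
  have hP := b2_P_eq α (fun m => finrank ℂ (𝒜 m)) hH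
  let F : Fin c → MvPolynomial (Fin M) ℂ := fun i => if h : i.1 < j then f ⟨i.1, h⟩ else 0
  have hFf : ∀ i : Fin j, F ⟨i, i.2.trans hj⟩ = f i := fun i => dif_pos i.2
  have hfh : ∀ i, (F i).IsHomogeneous (α i) := by
    intro i
    by_cases h : i.1 < j
    · have h1 := hf ⟨i.1, h⟩
      rw [hb] at h1
      simp only [F, dif_pos h]
      exact h1
    · simp only [F, dif_neg h]
      exact isHomogeneous_zero _ _ _
  have hF0 : ∀ i, φ (F i) = 0 := by
    intro i
    by_cases h : i.1 < j
    · simp only [F, dif_pos h]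
      exact hf0 _
    · simp only [F, dif_neg h]
      exact map_zero _
  let I : ℕ → Submodule ℂ (MvPolynomial (Fin M) ℂ) := fun m =>
    homogeneousSubmodule (Fin M) ℂ m ⊓ LinearMap.ker φ.toLinearMap
  let R : ℕ → Submodule ℂ A := fun m => (homogeneousSubmodule (Fin M) ℂ m).map φ.toLinearMap
  have hRA : ∀ m, R m ≤ 𝒜 m := by
    rintro m _ ⟨g, hg, rfl⟩
    exact hφ m g hg
  have finI : ∀ m, FiniteDimensional ℂ (I m) := fun m =>
    Submodule.finiteDimensional_of_le inf_le_left
  have finV : ∀ m, FiniteDimensional ℂ (b2V F α univ m) := fun m =>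
    Submodule.finiteDimensional_of_le (b2V_le hfh univ m)
  have hdim : ∀ m, finrank ℂ (R m) + finrank ℂ (I m) =
      finrank ℂ (homogeneousSubmodule (Fin M) ℂ m) := by
    intro m
    have h1 := LinearMap.finrank_range_add_finrank_ker
      (φ.toLinearMap ∘ₗ (homogeneousSubmodule (Fin M) ℂ m).subtype)
    rw [LinearMap.range_comp, Submodule.range_subtype, LinearMap.ker_comp,
      ← Submodule.finrank_map_subtype_eq, Submodule.map_comap_subtype] at h1
    exact h1
  have hVI : ∀ m, b2V F α univ m ≤ I m := fun m g hg =>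
    ⟨b2V_le hfh univ m hg, b2V_ideal (I := RingHom.ker φ) hF0 hg⟩
  have main : ∀ m, m ≤ β ⟨j, hj⟩ + 1 → I m = b2V F α univ m ∧ R m = 𝒜 m ∧
      #{i ∈ (univ : Finset (Fin c)) | F i = 0 ∧ α i = m} = 0 := by
    intro m
    induction m using Nat.strong_induction_on with
    | _ m ih =>
    intro hmj
    have hcnt := b2_count hα0 hfh univ m (by
      intro m' hm'
      rw [hP, ← (ih m' hm' (by omega)).1, ← (ih m' hm' (by omega)).2.1, ← hdim]
      push_cast; ring)
    rw [hP, ← hdim] at hcnt
    have hle := Submodule.finrank_mono (hRA m)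
    have hIV : I m ≤ b2V F α univ m := by
      rcases Nat.eq_zero_or_pos m with rfl | hm
      · have h1 : finrank ℂ (𝒜 0) = 1 := by
          have := hP 0
          simp only [b2P, PowerSeries.coeff_zero_eq_constantCoeff, map_mul, map_prod, map_sub,
            map_one, map_pow, PowerSeries.constantCoeff_X, PowerSeries.constantCoeff_mk, b2_rank,
            zero_pow (hα0 _)] at this
          simp at this
          exact_mod_cast this.symm
        have hnt : (1 : A) ≠ 0 := by
          intro h
          have : Subsingleton A := subsingleton_of_zero_eq_one h.symm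
          rw [finrank_zero_of_subsingleton] at h1
          exact zero_ne_one h1
        rintro g ⟨h2, h3⟩
        have h4 : g = C (coeff 0 g) := by
          rw [← homogeneousComponent_zero, homogeneousComponent_eq_self h2]
        have h5 : φ g = 0 := h3
        rw [h4, algHom_C, Algebra.algebraMap_eq_smul_one] at h5
        have h6 : coeff 0 g = 0 := by
          by_contra hne
          apply hnt
          have := congrArg (fun x => (coeff 0 g)⁻¹ • x) h5
          simpa [smul_smul, inv_mul_cancel₀ hne] using this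
        rw [h4, h6]; simp
      obtain ⟨k, rfl⟩ : ∃ k, m = k + 1 := ⟨m - 1, by omega⟩
      have euler : ∀ g ∈ I (k + 1), (∀ i, φ (pderiv i g) = 0) → g ∈ b2V F α univ (k + 1) := by
        rintro g ⟨hg, _⟩ hd
        have hg' : g.IsHomogeneous (k + 1) := hg
        have h1 := hg'.sum_X_mul_pderiv
        have h2 : ∑ i, X i * pderiv i g ∈ b2V F α univ (k + 1) := by
          apply Submodule.sum_mem
          intro i _
          rw [add_comm]
          apply b2V_mul (isHomogeneous_X ℂ i)
          rw [← (ih k (by omega) (by omega)).1]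
          exact ⟨hg'.pderiv, hd i⟩
        rw [h1, ← Nat.cast_smul_eq_nsmul ℂ] at h2
        exact (Submodule.smul_mem_iff _ (by exact_mod_cast Nat.succ_ne_zero k)).1 h2
      intro g hgI
      obtain ⟨a, ha, hsum⟩ := hτ k (by omega) g hgI.1 hgI.2
      have hl : ∀ i, ∃ u : MvPolynomial (Fin M) ℂ, φ u = a i ∧
          (b i ≤ k → u.IsHomogeneous (k - b i)) ∧ (k < b i → u = 0) := by
        intro i
        by_cases hi : b i ≤ k
        · have := (ha i).1 hi
          rw [← (ih (k - b i) (by omega) (by omega)).2.1] at this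
          obtain ⟨u, hu, hu'⟩ := this
          exact ⟨u, hu', fun _ => hu, fun h => by omega⟩
        · exact ⟨0, by rw [map_zero, (ha i).2 (by omega)], fun h => absurd h hi, fun _ => rfl⟩
      choose u hu using hl
      have hv : ∑ i, f i * u i ∈ b2V F α univ (k + 1) := by
        apply Submodule.sum_mem
        intro i _
        by_cases hi : b i ≤ k
        · exact Submodule.subset_span ⟨⟨i, i.2.trans hj⟩, mem_univ _, k - b i, u i,
            by simp only [hα, ← hb]; omega, (hu i).2.1 hi, by rw [hFf]⟩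
        · rw [(hu i).2.2 (by omega), mul_zero]; exact zero_mem _
      have h1 := euler (g - ∑ i, f i * u i) (sub_mem hgI (hVI _ hv)) (by
        intro l
        rw [map_sub, map_sub, hsum, map_sum, map_sum, ← sum_sub_distrib]
        apply Finset.sum_eq_zero
        intro i _
        rw [Derivation.leibniz, smul_eq_mul, smul_eq_mul, map_add, map_mul, map_mul, hf0, zero_mul,
          zero_add, (hu i).1, sub_self])
      simpa using add_mem h1 hv
    have hIe : I m = b2V F α univ m := le_antisymm hIV (hVI m)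
    rw [← hIe] at hcnt
    push_cast at hcnt
    exact ⟨hIe, Submodule.eq_of_le_of_finrank_le (hRA _) (by omega), by omega⟩
  have h1 := (main _ le_rfl).2.2
  rw [card_eq_zero, eq_empty_iff_forall_notMem] at h1
  refine h1 ⟨j, hj⟩ ?_
  simp only [mem_filter, mem_univ, true_and]
  exact ⟨dif_neg (lt_irrefl j), rfl⟩

end Pool.Agent.HCF
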