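import Pool.Agent.P.MP_f644fa_ag.LV0
import Pool.Agent.P.MP_f644fa_ag.LX4
import Pool.Agent.P.MP_f644fa_ag.LK2
import Pool.Agent.P.MP_f644fa_ag.LB2

/-! The next generator. -/

noncomputable section
namespace Pool.Agent.HCF
open Finset Module MvPolynomial

variable {M : ℕ} {I : Ideal (SS M)} {c n : ℕ}

theorem lm3_val (g : SS M) (z : cone I) :
    (fun l => (toSec I (pderiv l g)).1 z) = pv z.1 (gr g) :=
  funext fun _ => pf_apply _ _

theorem lm3_coef (hX : IsManifold I c) {j : ℕ} {b : Fin j → ℕ} {f : Fin j → SS M}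
    (hf : Gen I b f) {d : ℤ} {τ' : Fin M → secRing I} (h' : ∀ l, τ' l ∈ Gr (secRing I) d)
    (hs : ∀ z : cone I, (fun l => (τ' l).1 z) ∈ Sp f z.1) :
    ∃ a : Fin j → secRing I, (∀ i, a i ∈ Gr (secRing I) (d - b i)) ∧
      τ' = ∑ i, a i • fun l => toSec I (pderiv l (f i)) := by
  refine hX.regx (b := fun i => (b i : ℤ)) (τ := fun i l => toSec I (pderiv l (f i)))
    (fun i l => (dP_mem (hf.mem i) (hf.hom i)).2 l) (fun z => ?_) h' (fun z => ?_)
  · have e : (fun i l => (toSec I (pderiv l (f i))).1 z) = fun i => pv z.1 (gr (f i)) :=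
      funext fun i => lm3_val (f i) z
    rw [e]
    exact hf.ind z.1 z.2
  · have e : (fun i l => (toSec I (pderiv l (f i))).1 z) = fun i => pv z.1 (gr (f i)) :=
      funext fun i => lm3_val (f i) z
    rw [e]
    exact hs z

theorem lm3_ne1 : (![1, 0] : Fin 2 → ℂ) ≠ 0 := fun h => by simpa using congrFun h 0

theorem lm3_ne2 : (![0, 1] : Fin 2 → ℂ) ≠ 0 := fun h => by simpa using congrFun h 1

theorem lm3_trans (hX : IsManifold I c) {j a : ℕ} {b : Fin j → ℕ} {f : Fin j → SS M}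
    (hf : Gen I b f) (ha : ∀ i, b i ≤ a) (hs : ∀ d < a, Sat I b f d) {f' : SS M} (h1 : f' ∈ I)
    (h2 : f'.IsHomogeneous (a + 1)) {x w : Fin M → ℂ} (hx : x ≠ 0) (hw : w ∈ Cx I x) :
    pv x (gr f') ∈ Sp f x ↔ pv w (gr f') ∈ Sp f w := by
  rcases Cx_line hx hw with hl | ⟨t, ht, rfl⟩
  · have key : ∀ p : Fin 2 → ℂ, p ≠ 0 → pv (pt x w p) (gr f') ∈ Sp f (pt x w p) →
        ∀ q, pv (pt x w q) (gr f') ∈ Sp f (pt x w q) := fun p hp h q => by
      have := (hf.dep hX ha hs hl (gr_mem_Sec h1 h2 x w) hp (by rw [pv_rl]; exact h)).2 q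
      rwa [pv_rl] at this
    constructor
    · intro h
      have := key _ lm3_ne1 (by rw [pt_first]; exact h) ![0, 1]
      rwa [pt_last] at this
    · intro h
      have := key _ lm3_ne2 (by rw [pt_last]; exact h) ![1, 0]
      rwa [pt_first] at this
  · have e : pv (t • x) (gr f') = t ^ a • pv x (gr f') := funext fun l =>
      eval_smul_hom (h2.pderiv (i := l)) t x
    rw [hf.sp_smul x ht, e, Submodule.smul_mem_iff _ (pow_ne_zero a ht)]

theorem Gen.exists_new (hX : IsManifold I c) (hG : GR (Gr (secRing I)))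
    (hL : ∀ x ∈ cone I, ∃ y, IsLine I x y) {β : Fin c → ℕ}
    (hH : (1 - PowerSeries.X) ^ M *
      PowerSeries.mk (fun m : ℕ => (finrank ℂ (Gr (secRing I) m) : ℂ)) =
        ∏ i, (1 - PowerSeries.X ^ (β i + 1))) {j : ℕ} (hj : j < c) {b : Fin j → ℕ}
    (hb : ∀ i : Fin j, b i = β ⟨i, i.2.trans hj⟩) {f : Fin j → SS M} (hf : Gen I b f)
    (hs : ∀ d < β ⟨j, hj⟩, Sat I b f d) :
    ∃ f' ∈ I, f'.IsHomogeneous (β ⟨j, hj⟩ + 1) ∧ ∃ z ∈ cone I, pv z (gr f') ∉ Sp f z := by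
  by_contra hcon
  have hcon' : ∀ f' ∈ I, f'.IsHomogeneous (β ⟨j, hj⟩ + 1) → ∀ z ∈ cone I,
      pv z (gr f') ∈ Sp f z := fun f' h1 h2 z hz => by
    by_contra h
    exact hcon ⟨f', h1, h2, z, hz, h⟩
  have : ∀ m : ℕ, FiniteDimensional ℂ (Gr (secRing I) m) := fun m => hG.fin m
  refine b2_trunc (fun m : ℕ => Gr (secRing I) m) (toSec I) (fun m f hf => isHom_pf hf) β hj b hb f
    hf.hom (fun i => (toSec_eq_zero hX).2 (hf.mem i)) (fun m hm g hg h0 => ?_) hH
  have hgI : g ∈ I := (toSec_eq_zero hX).1 h0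
  obtain ⟨a, ha, e⟩ := lm3_coef hX hf (dP_mem hgI hg).2 (fun z => by
    rw [lm3_val]
    rcases hm.lt_or_eq with hm | hm
    · obtain ⟨y, hl⟩ := hL z.1 z.2
      have h1 := Nn_pv (hs m hm z.1 y hl (gr_mem_Sec hgI hg z.1 y)) ![1, 0]
      simp only [pv_rl, pv_dF, pt_first] at h1
      exact h1
    · exact hcon' g hgI (hm ▸ hg) z.1 z.2)
  refine ⟨a, fun i => ⟨fun h => ?_, fun h => ?_⟩, fun l => ?_⟩
  · have := ha i
    rwa [← Nat.cast_sub h] at this
  · have := ha i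
    rw [hG.neg _ (by omega)] at this
    exact this
  · have := congrFun e l
    simpa [Finset.sum_apply] using this

theorem Gen.nowhere (hX : IsManifold I c) {s : ℕ} {ν : Finset (Fin M) → secRing I}
    (hν : ν ∈ Hm (secRing I) c s) (hne : ∀ x : cone I, ∃ J, (ν J).1 x ≠ 0)
    (hM : 2 * (s + c) < M) (hL : ∀ x ∈ cone I, ∃ y, IsLine I x y) {j a : ℕ} {b : Fin j → ℕ}
    {f : Fin j → SS M} (hf : Gen I b f) (ha : ∀ i, b i ≤ a) (hs : ∀ d < a, Sat I b f d)
    {f' : SS M} (h1 : f' ∈ I) (h2 : f'.IsHomogeneous (a + 1)) {z₀ : Fin M → ℂ} (h0 : z₀ ∈ cone I)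
    (h3 : pv z₀ (gr f') ∉ Sp f z₀) :
    Gen I (Fin.snoc (α := fun _ => ℕ) b a) (Fin.snoc (α := fun _ => SS M) f f') := by
  refine ⟨fun i => ?_, fun i => ?_, fun z hz => ?_⟩
  · refine Fin.lastCases ?_ (fun i => ?_) i
    · simpa using h1
    · simpa using hf.mem i
  · refine Fin.lastCases ?_ (fun i => ?_) i
    · simpa using h2
    · simpa using hf.hom i
  · have e : (fun i => pv z (gr (Fin.snoc (α := fun _ => SS M) f f' i))) =
        Fin.snoc (α := fun _ => Fin M → ℂ) (fun i => pv z (gr (f i))) (pv z (gr f')) := by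
      funext i
      refine Fin.lastCases ?_ (fun i => ?_) i <;> simp
    rw [e, linearIndependent_finSnoc]
    refine ⟨hf.ind z hz, fun h => h3 ?_⟩
    obtain ⟨y, hy⟩ := hL z hz
    obtain ⟨y₀, hy₀⟩ := hL z₀ h0
    obtain ⟨w, hw, hw₀⟩ := CCone.meet ccone_Cx ccone_Cx (hy.locCut hX hν hne)
      (hy₀.locCut hX hν hne) (by rw [Fintype.card_fin]; omega)
    exact (lm3_trans hX hf ha hs h1 h2 h0.1 hw₀).2 ((lm3_trans hX hf ha hs h1 h2 hz.1 hw).1 h)

theorem Sat.snoc {j d : ℕ} {b : Fin j → ℕ} {f : Fin j → SS M} (h : Sat I b f d) (a : ℕ)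
    (f' : SS M) : Sat I (Fin.snoc (α := fun _ => ℕ) b a) (Fin.snoc (α := fun _ => SS M) f f') d := by
  intro x y hl
  have e : dF x y (Fin.snoc (α := fun _ => SS M) f f') =
      Fin.snoc (α := fun _ => Fin M → B2) (dF x y f) (fun l => rl x y (gr f' l)) := by
    funext i
    refine Fin.lastCases ?_ (fun i => ?_) i
    · funext l
      simp [dF]
    · funext l
      simp [dF]
  rw [e]
  exact (h x y hl).trans (Nn_snoc _ _ _ _ _)

theorem Gen.final (hX : IsManifold I c) (hG : GR (Gr (secRing I))) {β : Fin c → ℕ}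
    (hH : (1 - PowerSeries.X) ^ M *
      PowerSeries.mk (fun m : ℕ => (finrank ℂ (Gr (secRing I) m) : ℂ)) =
        ∏ i, (1 - PowerSeries.X ^ (β i + 1))) {f : Fin c → SS M} (hf : Gen I β f) :
    ∃ f : Fin c → SS M, (∀ i, (f i).IsHomogeneous (β i + 1)) ∧ I = Ideal.span (Set.range f) := by
  refine generators hX hG β (fun i l => toSec I (pderiv l (f i))) (fun d τ' h => ?_) hH
  refine lm3_coef hX hf h.2 fun z => ?_
  have e : Sp f z.1 = Es I z.1 := by
    refine Submodule.eq_of_le_of_finrank_eq ?_ ?_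
    · refine Submodule.span_le.2 ?_
      rintro _ ⟨i, rfl⟩
      exact gr_mem_Es (hf.mem i) z.1
    · rw [hX.pgen_Es.rank z.1 z.2, Sp, finrank_span_eq_card (hf.ind z.1 z.2), Fintype.card_fin]
  rw [e]
  exact Vm_mem_Es hX h z

end Pool.Agent.HCF
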