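import Pool.Agent.P.MP_f644fa_ag.LM1
import Pool.Agent.P.MP_f644fa_ag.LM2
import Pool.Agent.P.MP_f644fa_ag.LM3

/-! The assembly. -/

noncomputable section
namespace Pool.Agent.HCF
open Finset Module

variable {M : ℕ} {I : Ideal (SS M)} {c n : ℕ}

theorem lmain_zero (hX : IsManifold I 0) :
    ∃ (f : Fin 0 → SS M) (d : Fin 0 → ℕ), (∀ i, (f i).IsHomogeneous (d i)) ∧
      I = Ideal.span (Set.range f) := by
  obtain ⟨x, hx⟩ := hX.nonempty
  obtain ⟨f, g, -, -, hg, h⟩ := hX.smooth x hx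
  refine ⟨f, fun _ => 0, fun i => i.elim0, le_antisymm (fun a ha => ?_) ?_⟩
  · have h1 := h a ha
    rw [Set.range_eq_empty, Ideal.span_empty, Ideal.mem_bot] at h1 ⊢
    exact (mul_eq_zero.1 h1).resolve_left fun h0 => hg (by rw [h0, map_zero])
  · rw [Set.range_eq_empty, Ideal.span_empty]
    exact bot_le

theorem lmain_step (hX : IsManifold I c) (hM : M = n + 1 + c) (hG : GR (Gr (secRing I))) {s : ℕ}
    {ν : Finset (Fin M) → secRing I} (hν : ν ∈ Hm (secRing I) c s)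
    (hne : ∀ x : cone I, ∃ J, (ν J).1 x ≠ 0) (hL : ∀ x ∈ cone I, ∃ y, IsLine I x y)
    {S : NS M n (cone I) (Pol I) (Pol2 I)} {g : ℕ → Polynomial ℂ} (h : Nx I c n s S g)
    (hi : 2 * s + 2 * c + 1 ≤ n) {β : Fin c → ℕ} (hβ : Monotone β)
    (h1 : ∀ k, (1 - Polynomial.X) ^ (n + 1 - c) ∣ g k - g 0 *
      ∑ J ∈ powersetCard k (univ : Finset (Fin c)), Polynomial.X ^ (∑ j ∈ J, β j))
    (hH : (1 - PowerSeries.X) ^ M *
      PowerSeries.mk (fun m : ℕ => (finrank ℂ (Gr (secRing I) m) : ℂ)) =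
        ∏ i, (1 - PowerSeries.X ^ (β i + 1))) (j : ℕ) (hj : j ≤ c) :
    ∃ f : Fin j → SS M, Gen I (fun i => β ⟨i, lt_of_lt_of_le i.2 hj⟩) f ∧
      ∀ d, (∃ i : Fin j, d < β ⟨i, lt_of_lt_of_le i.2 hj⟩) →
        Sat I (fun i => β ⟨i, lt_of_lt_of_le i.2 hj⟩) f d := by
  induction j with
  | zero =>
    exact ⟨fun i => i.elim0, ⟨fun i => i.elim0, fun i => i.elim0, fun _ _ => linearIndependent_empty_type⟩,
      fun d ⟨i, _⟩ => i.elim0⟩
  | succ j ih =>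
    obtain ⟨f, hf, hs⟩ := ih (by omega)
    have hj' : j < c := hj
    set b : Fin j → ℕ := fun i => β ⟨i, lt_of_lt_of_le i.2 (by omega)⟩ with hb
    have hsat : ∀ d < β ⟨j, hj'⟩, Sat I b f d := by
      intro d
      induction d using Nat.strong_induction_on with
      | _ d ihd =>
        intro hd
        by_contra hn
        have ha : ∀ i, b i ≤ d := fun i => not_lt.1 fun hlt => hn (hs d ⟨i, hlt⟩)
        obtain ⟨i, hi1, hi2⟩ := h.root hX hM hν hne hi h1 hj' (b := b) (fun _ => rfl) hf ha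
          (fun d' hd' => ihd d' hd' (hd'.trans hd)) hn
        have := hβ (show (⟨j, hj'⟩ : Fin c) ≤ i from hi1)
        omega
    obtain ⟨f', h2, h3, z₀, h4, h5⟩ := hf.exists_new hX hG hL hH hj' (fun _ => rfl) hsat
    have hle : ∀ i, b i ≤ β ⟨j, hj'⟩ := fun i => hβ (show (⟨i, _⟩ : Fin c) ≤ ⟨j, hj'⟩ from i.2.le)
    have h6 := hf.nowhere hX hν hne (by omega) hL hle hsat h2 h3 h4 h5
    have e : (fun i : Fin (j + 1) => β ⟨i, lt_of_lt_of_le i.2 hj⟩) =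
        Fin.snoc (α := fun _ => ℕ) b (β ⟨j, hj'⟩) := by
      funext i
      refine Fin.lastCases ?_ (fun i => ?_) i
      · rw [Fin.snoc_last]
        rfl
      · rw [Fin.snoc_castSucc]
        rfl
    refine ⟨Fin.snoc (α := fun _ => SS M) f f', e ▸ h6, fun d ⟨i, hd⟩ => ?_⟩
    rw [e]
    refine Sat.snoc (hsat d (lt_of_lt_of_le hd (hβ ?_))) _ _
    exact Nat.lt_succ_iff.1 i.2

theorem lines_main (hX : IsManifold I c) (hM : M = n + 1 + c) {b : ℤ}
    (hb : CanonicalIs I c b)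
    (hL : ∀ x ∈ cone I, ∃ y, IsLine I x y) (hi : 2 * (b + n + 1) + 2 * c + 1 ≤ n) :
    ∃ (f : Fin c → SS M) (d : Fin c → ℕ), (∀ i, (f i).IsHomogeneous (d i)) ∧
      I = Ideal.span (Set.range f) := by
  rcases c with _ | c
  · exact lmain_zero hX
  obtain ⟨ν, hν, hne⟩ := exists_nu hX hb
  obtain ⟨x, hx⟩ := hX.nonempty
  obtain ⟨y, hl⟩ := hL x hx
  have hn : 1 ≤ n := by
    by_contra h0
    obtain rfl : n = 0 := by omega
    obtain ⟨L, hLL⟩ := hX.exists_bpf hM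
    obtain ⟨i, h1⟩ := hLL x hx
    have hp : (![MvPolynomial.eval y (lin (L i)), -MvPolynomial.eval x (lin (L i))] : Fin 2 → ℂ) ≠ 0 :=
      fun h => h1 (neg_eq_zero.1 (congrFun h 1))
    obtain ⟨i', h2⟩ := hLL _ (hl.mem hp)
    rw [Subsingleton.elim (α := Fin 1) i' i] at h2
    refine h2 ?_
    simp only [eval_lin, pt, Pi.add_apply, Pi.smul_apply, smul_eq_mul, mul_add, sum_add_distrib,
      Matrix.cons_val_zero, Matrix.cons_val_one, mul_left_comm (L i _), ← mul_sum]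
    ring
  have hG := gr_sec hX hM hn
  have hs0 : 0 ≤ b + M - (c + 1 : ℕ) := by
    by_contra hlt
    have h := hG.Fm_neg (Tg (secRing I)) (c + 1) (not_le.1 hlt)
    rw [show Hm (secRing I) (c + 1) (b + M - (c + 1 : ℕ)) = ⊥ from h, Submodule.mem_bot] at hν
    obtain ⟨J, hJ⟩ := hne ⟨x, hx⟩
    exact hJ (by rw [hν]; rfl)
  obtain ⟨s, hs⟩ := Int.eq_ofNat_of_zero_le hs0
  rw [hs] at hν
  have hs' : b + n + 1 = s := by rw [← hs, hM]; push_cast; ring
  rw [hs'] at hi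
  have hi' : 2 * s + 2 * (c + 1) + 1 ≤ n := by exact_mod_cast hi
  obtain ⟨S, g, h⟩ := exists_Nx hX hM hn hν hne
  obtain ⟨β, hβ, hsum, h1⟩ := h.roots hX hM hν hne hi' hl
  have hH := h.series hM (by omega) β hsum h1
  obtain ⟨f, hf, -⟩ := lmain_step hX hM hG hν hne hL h hi' hβ h1 hH (c + 1) le_rfl
  obtain ⟨f', h2, h3⟩ := Gen.final hX hG hH hf
  exact ⟨f', _, h2, h3⟩

end Pool.Agent.HCF
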