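import Mathlib

/-! Exponentials, the substitution `t = exp w`. -/

noncomputable section
namespace Pool.Agent.HCF
open Finset PowerSeries

/-- `exp (a w)` -/
def ex (a : ℂ) : ℂ⟦X⟧ := rescale a (exp ℂ)

/-- the substitution `t = exp w` -/
def Ex : Polynomial ℂ →ₐ[ℂ] ℂ⟦X⟧ := Polynomial.aeval (exp ℂ)

/-- the value of `∑ φ k z ^ k` at `z = - exp (- ζ w)` -/
def gz (c : ℕ) (φ : ℕ → ℂ⟦X⟧) (ζ : ℂ) : ℂ⟦X⟧ :=
  ∑ k ∈ range (c + 1), C ((-1) ^ k) * φ k * ex (-(k * ζ))

/-- the Chern roots of `φ` are the `x j` -/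
def Ch (c : ℕ) (φ : ℕ → ℂ⟦X⟧) (x : Fin c → ℂ) : Prop :=
  ∀ ζ : ℂ, (∀ i < c, coeff i (gz c φ ζ) = 0) ∧ coeff c (gz c φ ζ) = ∏ j, (ζ - x j)

/-- the elementary symmetric functions of the `exp (x j w)` -/
def esy {c : ℕ} (x : Fin c → ℂ) (k : ℕ) : ℂ⟦X⟧ :=
  ∑ J ∈ powersetCard k (univ : Finset (Fin c)), ex (∑ j ∈ J, x j)

/-- the functional equation modulo `w ^ L` -/
def FEm (L : ℕ) (φ : ℕ → ℂ⟦X⟧) : Prop :=
  ∀ k, (X : ℂ⟦X⟧) ^ L ∣ C ((-1) ^ k) * rescale 2 (φ k) -
    ∑ q ∈ antidiagonal (2 * k), C ((-1) ^ q.2) * φ q.1 * φ q.2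

theorem ex_add (a b : ℂ) : ex (a + b) = ex a * ex b :=
  (exp_mul_exp_eq_exp_add a b).symm
theorem ex_zero : ex 0 = 1 := by
  rw [ex, rescale_zero_apply, constantCoeff_exp, map_one]
theorem ex_sum {ι : Type} (s : Finset ι) (a : ι → ℂ) : ex (∑ i ∈ s, a i) = ∏ i ∈ s, ex (a i) := by
  classical
  induction s using Finset.induction_on with
  | empty => rw [sum_empty, prod_empty, ex_zero]
  | insert i s hi ih => rw [sum_insert hi, prod_insert hi, ex_add, ih]
theorem ex_pow (a : ℂ) (k : ℕ) : ex a ^ k = ex (k * a) := by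
  induction k with
  | zero => rw [pow_zero, Nat.cast_zero, zero_mul, ex_zero]
  | succ k ih => rw [pow_succ, ih, Nat.cast_succ, add_mul, one_mul, ex_add]
theorem coeff_ex (a : ℂ) (i : ℕ) : coeff i (ex a) = a ^ i / i.factorial := by
  rw [ex, coeff_rescale, coeff_exp, div_eq_mul_one_div (a ^ i)]
  simp
theorem constantCoeff_ex (a : ℂ) : constantCoeff (ex a) = 1 := by
  rw [← coeff_zero_eq_constantCoeff_apply, coeff_ex]
  simp
theorem rescale_ex (b a : ℂ) : rescale b (ex a) = ex (b * a) := by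
  rw [ex, rescale_rescale, mul_comm, ex]
theorem one_sub_ex (a : ℂ) : ∃ u : ℂ⟦X⟧, 1 - ex a = X * u ∧ constantCoeff u = -a := by
  obtain ⟨u, hu⟩ : (X : ℂ⟦X⟧) ∣ 1 - ex a :=
    X_dvd_iff.2 (by rw [map_sub, map_one, constantCoeff_ex, sub_self])
  refine ⟨u, hu, ?_⟩
  have h := congrArg (coeff 1) hu
  rw [coeff_succ_X_mul, coeff_zero_eq_constantCoeff_apply, map_sub, coeff_ex, coeff_one] at h
  simpa using h.symm

theorem Ex_X_pow (k : ℕ) : Ex (Polynomial.X ^ k) = ex k := by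
  rw [map_pow, Ex, Polynomial.aeval_X, exp_pow_eq_rescale_exp, ex]
theorem ls0_Ex_C (a : ℂ) : Ex (Polynomial.C a) = C a := by
  rw [Ex, Polynomial.aeval_C]
  rfl
theorem ls0_rescale_C (b a : ℂ) : rescale b (C a) = C a := by
  ext n
  rw [coeff_rescale, coeff_C]
  split_ifs with h
  · rw [h, pow_zero, one_mul]
  · rw [mul_zero]
theorem Ex_expand (p : Polynomial ℂ) : Ex (Polynomial.expand ℂ 2 p) = rescale 2 (Ex p) := by
  induction p using Polynomial.induction_on' with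
  | add p q hp hq => rw [map_add, map_add, map_add, map_add, hp, hq]
  | monomial n a =>
    rw [← Polynomial.C_mul_X_pow_eq_monomial, map_mul, Polynomial.expand_C, map_pow,
      Polynomial.expand_X, ← pow_mul, map_mul, map_mul, map_mul, Ex_X_pow, Ex_X_pow, rescale_ex,
      ls0_Ex_C, ls0_rescale_C, Nat.cast_mul, Nat.cast_ofNat]
theorem constantCoeff_Ex (p : Polynomial ℂ) : constantCoeff (Ex p) = p.eval 1 := by
  induction p using Polynomial.induction_on' with
  | add p q hp hq => rw [map_add, map_add, hp, hq, Polynomial.eval_add]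
  | monomial n a =>
    rw [Polynomial.eval_monomial, ← Polynomial.C_mul_X_pow_eq_monomial, map_mul, Ex_X_pow, ls0_Ex_C,
      map_mul, constantCoeff_C, constantCoeff_ex, one_pow]
theorem Ex_dvd_iff (L : ℕ) (p : Polynomial ℂ) :
    (X : ℂ⟦X⟧) ^ L ∣ Ex p ↔ (1 - Polynomial.X) ^ L ∣ p := by
  obtain ⟨u, hu, hu'⟩ := one_sub_ex 1
  have h1 : Ex (1 - Polynomial.X) = X * u := by
    rw [map_sub, map_one, ← hu, ← pow_one Polynomial.X, Ex_X_pow, Nat.cast_one]
  have hU : IsUnit u := isUnit_iff_constantCoeff.2 (by rw [hu']; exact isUnit_one.neg)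
  refine ⟨fun h => ?_, fun ⟨q, hq⟩ => ⟨u ^ L * Ex q, by
    rw [hq, map_mul, map_pow, h1, mul_pow, mul_assoc]⟩⟩
  induction L generalizing p with
  | zero => rw [pow_zero]; exact one_dvd _
  | succ L ih =>
    have h2 : p.IsRoot 1 := by
      rw [Polynomial.IsRoot, ← constantCoeff_Ex]
      exact X_dvd_iff.1 ((dvd_pow_self _ L.succ_ne_zero).trans h)
    obtain ⟨q, hq⟩ := Polynomial.dvd_iff_isRoot.2 h2
    have h3 : p = (1 - Polynomial.X) * -q := by
      rw [hq, map_one]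
      ring
    rw [h3, map_mul, h1, pow_succ', mul_assoc, mul_dvd_mul_iff_left X_ne_zero,
      hU.dvd_mul_left] at h
    rw [h3, pow_succ']
    exact mul_dvd_mul_left _ (ih _ h)

/-- the generating polynomial, evaluated in a commutative ring -/
theorem sum_esymm {A : Type} [CommRing A] {c : ℕ} (y : Fin c → A) (z : A) :
    ∑ k ∈ range (c + 1), (∑ J ∈ powersetCard k (univ : Finset (Fin c)), ∏ j ∈ J, y j) * z ^ k =
      ∏ j, (1 + y j * z) := by
  rw [prod_one_add, sum_powerset, card_univ, Fintype.card_fin]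
  refine sum_congr rfl fun k _ => ?_
  rw [sum_mul]
  refine sum_congr rfl fun J hJ => ?_
  rw [prod_mul_distrib, prod_const, (mem_powersetCard.1 hJ).2]

theorem ls0_esy {c : ℕ} (x : Fin c → ℂ) (k : ℕ) :
    esy x k = ∑ J ∈ powersetCard k (univ : Finset (Fin c)), ∏ j ∈ J, ex (x j) :=
  sum_congr rfl fun J _ => ex_sum J x
theorem gz_esy {c : ℕ} (x : Fin c → ℂ) (ζ : ℂ) : gz c (esy x) ζ = ∏ j, (1 - ex (x j - ζ)) := by
  have h : ∀ j, 1 - ex (x j - ζ) = 1 + ex (x j) * -ex (-ζ) := fun j => by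
    rw [sub_eq_add_neg (x j), ex_add]
    ring
  simp only [h]
  rw [← sum_esymm, gz]
  refine sum_congr rfl fun k _ => ?_
  rw [ls0_esy, neg_pow (ex (-ζ)), ex_pow, mul_neg, map_pow, map_neg, map_one]
  ring
theorem ch_esy {c : ℕ} (x : Fin c → ℂ) : Ch c (esy x) x := fun ζ => by
  choose u hu hu' using fun j => one_sub_ex (x j - ζ)
  have h : gz c (esy x) ζ = X ^ c * ∏ j, u j := by
    simp only [gz_esy, hu, prod_mul_distrib, prod_const, card_univ, Fintype.card_fin]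
  refine ⟨fun i hi => ?_, ?_⟩
  · rw [h, coeff_X_pow_mul', if_neg hi.not_ge]
  · rw [h, coeff_X_pow_mul', if_pos le_rfl, Nat.sub_self, coeff_zero_eq_constantCoeff_apply,
      map_prod]
    exact prod_congr rfl fun j _ => by rw [hu', neg_sub]
theorem esy_zero {c : ℕ} (x : Fin c → ℂ) : esy x 0 = 1 := by
  rw [esy, powersetCard_zero, sum_singleton, sum_empty, ex_zero]
theorem esy_gt {c k : ℕ} (x : Fin c → ℂ) (h : c < k) : esy x k = 0 := by
  rw [esy, powersetCard_eq_empty.2 (by rwa [card_univ, Fintype.card_fin]), sum_empty]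
theorem esy_one {c : ℕ} (x : Fin c → ℂ) : esy x 1 = ∑ j, ex (x j) := by
  rw [esy, powersetCard_one, sum_map]
  simp
theorem esy_top {c : ℕ} (x : Fin c → ℂ) : esy x c = ex (∑ j, x j) := by
  have h := powersetCard_self (univ : Finset (Fin c))
  rw [card_univ, Fintype.card_fin] at h
  rw [esy, h, sum_singleton]
theorem esy_pred {c : ℕ} (x : Fin (c + 1) → ℂ) : esy x c = ∑ i, ex (∑ j, x j - x i) := by
  have hc : ∀ i : Fin (c + 1), (univ.erase i).card = c := fun i => by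
    rw [card_erase_of_mem (mem_univ i), card_univ, Fintype.card_fin, Nat.add_sub_cancel]
  refine (sum_bij (fun i _ => univ.erase i) (fun i _ => mem_powersetCard.2 ⟨subset_univ _, hc i⟩)
    (fun i _ j _ h => (erase_inj _ (mem_univ i)).1 h) (fun J hJ => ?_) fun i _ => ?_).symm
  · have h1 := (mem_powersetCard.1 hJ).2
    obtain ⟨i, -, hi⟩ := exists_mem_notMem_of_card_lt_card (s := J) (t := univ)
      (by rw [h1, card_univ, Fintype.card_fin]; exact c.lt_succ_self)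
    exact ⟨i, mem_univ i, (eq_of_subset_of_card_le
      (subset_erase.2 ⟨subset_univ _, hi⟩) (by rw [hc, h1])).symm⟩
  · rw [sum_erase_eq_sub (mem_univ i)]
theorem ls0_coeff {A : Type} [CommRing A] {c : ℕ} (y : Fin c → A) (k : ℕ) :
    (∏ j, (1 + Polynomial.C (y j) * Polynomial.X)).coeff k =
      ∑ J ∈ powersetCard k (univ : Finset (Fin c)), ∏ j ∈ J, y j := by
  rw [prod_one_add, Polynomial.finsetSum_coeff, powersetCard_eq_filter, sum_filter]
  refine sum_congr rfl fun J _ => ?_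
  rw [prod_mul_distrib, prod_const, ← map_prod, Polynomial.coeff_C_mul_X_pow]
  simp only [eq_comm]
theorem ls0_neg {A : Type} [CommRing A] {c : ℕ} (y : Fin c → A) (k : ℕ) :
    ∑ J ∈ powersetCard k (univ : Finset (Fin c)), ∏ j ∈ J, -y j =
      (-1) ^ k * ∑ J ∈ powersetCard k (univ : Finset (Fin c)), ∏ j ∈ J, y j := by
  rw [mul_sum]
  exact sum_congr rfl fun J hJ => by rw [prod_neg, (mem_powersetCard.1 hJ).2]
theorem fem_esy {c : ℕ} (x : Fin c → ℂ) (L : ℕ) : FEm L (esy x) := fun k => by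
  have h1 : (∏ j, (1 + Polynomial.C (ex (x j)) * Polynomial.X)) *
      ∏ j, (1 + Polynomial.C (-ex (x j)) * Polynomial.X) =
      Polynomial.expand ℂ⟦X⟧ 2 (∏ j, (1 + Polynomial.C (-rescale 2 (ex (x j))) * Polynomial.X)) := by
    rw [map_prod, ← prod_mul_distrib]
    refine prod_congr rfl fun j _ => ?_
    rw [map_add, map_one, map_mul, Polynomial.expand_C, Polynomial.expand_X, rescale_ex, two_mul,
      ex_add, map_neg, map_neg, map_mul]
    ring
  have h2 := congrArg (fun p => p.coeff (2 * k)) h1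
  simp only [Polynomial.coeff_mul, Polynomial.coeff_expand_mul' two_pos, ls0_coeff, ls0_neg] at h2
  have h3 : ∀ q : ℕ, (C ((-1 : ℂ) ^ q) : ℂ⟦X⟧) = (-1) ^ q := fun q => by
    rw [map_pow, map_neg, map_one]
  simp only [ls0_esy, map_sum, map_prod, h3]
  rw [← h2, ← sum_sub_distrib, sum_eq_zero fun q _ => by ring]
  exact dvd_zero _

/-- Vandermonde -/
theorem vdm_zero {s : ℕ} (a : ℕ → ℂ) (h : ∀ i ≤ s, ∑ k ∈ range (s + 1), a k * (k : ℂ) ^ i = 0) :
    ∀ k ≤ s, a k = 0 := fun k hk => by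
  have h1 := Matrix.eq_zero_of_forall_pow_sum_mul_pow_eq_zero (f := fun j : Fin (s + 1) => ((j : ℕ) : ℂ))
    (v := fun j => a j) (fun i j e => Fin.ext (Nat.cast_injective (R := ℂ) e)) fun i => by
      rw [← h i (Nat.le_of_lt_succ i.2), ← Fin.sum_univ_eq_sum_range fun k => a k * (k : ℂ) ^ (i : ℕ)]
  exact congrFun h1 ⟨k, Nat.lt_succ_of_le hk⟩

end Pool.Agent.HCF
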