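import Pool.Agent.P.MP_f644fa_ag.LSub

/-! Short exact sequences and Hilbert series. -/

noncomputable section
namespace Pool.Agent.HCF
open Finset Module PowerSeries

variable {M n : ℕ} {X R RR : Type} [CommRing R] [Algebra ℂ R] [CommRing RR] [Algebra ℂ RR]
  {I I' : Type} [Fintype I] [Fintype I']

theorem NS0.grd_sub (S : NS0 M n X R RR) (w : I → ℕ) {G : Submodule R (I → R)}
    (h : ∀ ω ∈ G, S.sc w ω ∈ G) : Grd (S.sc w) (G.restrictScalars ℂ) :=
  ((dat_grd_top S).pi w).sub (fun _ _ _ _ => Submodule.mem_top) h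

theorem NS0.coeff_hs (S : NS0 M n X R RR) (w : I → ℕ) {G : Submodule R (I → R)}
    (h : ∀ ω ∈ G, S.sc w ω ∈ G) (m : ℕ) :
    coeff m (S.hs w G) = finrank ℂ ↥(G.restrictScalars ℂ ⊓ Eg (S.sc w) m) := by
  have := (S.grd_sub w h).fin m
  rw [NS0.hs, chi, coeff_mk, trOn_one]

omit [Fintype I] in
theorem lses_hl (S : NS0 M n X R RR) (w : I → ℕ) (j : Fin (n + 1)) (y : I → R) :
    S.sc w (S.l j • y) = (2 : ℂ) • S.l j • S.sc w y := by
  funext A
  simp only [NS0.sc, piOp_apply, Pi.smul_apply, smul_eq_mul, AlgHom.toLinearMap_apply, map_mul,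
    S.s1_l, mul_smul_comm]
  rw [smul_comm (2 : ℂ), two_smul, mul_assoc, two_mul]

theorem lses_exact (S : NS0 M n X R RR) (w : I → ℕ) {G : Submodule R (I → R)}
    (h : ∀ ω ∈ G, S.sc w ω ∈ G) : ∃ m₀ : ℕ, ∀ m ≥ m₀,
    ∀ z : Finset (Fin (n + 1)) → I → R,
      (∀ J, z J ∈ G.restrictScalars ℂ ⊓ Eg (S.sc w) ((m : ℕ) - J.card)) →
      iov (I → R) S.l z = 0 →
        ∃ y, (∀ J, y J ∈ G.restrictScalars ℂ ⊓ Eg (S.sc w) ((m : ℕ) - J.card)) ∧
          iov (I → R) S.l y = z := by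
  have := noeth S.gen
  set K : Submodule R (Finset (Fin (n + 1)) → I → R) := Submodule.pi Set.univ fun _ => G with hK
  set s : End ℂ (Finset (Fin (n + 1)) → I → R) := piOp (fun J => 2 ^ J.card) (S.sc w) with hs
  have hd : ∀ z, iov (I → R) S.l (s z) = s (iov (I → R) S.l z) := by
    intro z
    have := ident_comm S.l (S.sc w) 2 1 (lses_hl S w) z
    simp only [one_mul, one_smul] at this
    exact this
  have hsK : ∀ z ∈ K, s z ∈ K := fun z hz J _ =>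
    G.smul_of_tower_mem _ (h _ (hz J trivial))
  let A : Ideal R :=
    { carrier := {g | ∀ z ∈ K ⊓ LinearMap.ker (iov (I → R) S.l), g • z ∈ K.map (iov (I → R) S.l)}
      add_mem' := fun {a b} ha hb z hz => by
        rw [add_smul]; exact Submodule.add_mem _ (ha z hz) (hb z hz)
      zero_mem' := fun z _ => by rw [zero_smul]; exact Submodule.zero_mem _
      smul_mem' := fun c a ha z hz => by
        rw [smul_eq_mul, mul_smul]; exact Submodule.smul_mem _ _ (ha z hz) }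
  have hA : ∀ i, S.l i ∈ A := fun i z hz =>
    ⟨ep R _ i z, fun J _ => ident_ep_mem i G (fun J => hz.1 J trivial) J,
      ident_homotopy S.l i hz.2⟩
  obtain ⟨m₀, hm₀⟩ := fin_len S.gen (K ⊓ LinearMap.ker (iov (I → R) S.l))
    (K.map (iov (I → R) S.l)) (IsNoetherian.noetherian _)
    (S.ns A fun p => (S.bpf p).imp' S.l fun i hi => ⟨hA i, hi⟩) s
    (fun z hz => ⟨hsK z hz.1, by
      have h0 : iov (I → R) S.l z = 0 := hz.2
      change iov (I → R) S.l (s z) = 0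
      rw [hd, h0, map_zero]⟩)
    (fun z hz => by
      obtain ⟨y, hy, rfl⟩ := hz
      exact ⟨s y, hsK y hy, hd y⟩)
  refine ⟨m₀, fun m hm z hz h0 => ?_⟩
  have hp := pi_inf_Eg (fun J : Finset (Fin (n + 1)) => J.card) (S.sc w) (G.restrictScalars ℂ)
    (m : ℕ)
  have hz' : z ∈ Submodule.pi Set.univ (fun _ => G.restrictScalars ℂ) ⊓ Eg s (m : ℕ) := by
    rw [hs, hp]
    exact fun J _ => hz J
  obtain ⟨y, hy, e⟩ := hm₀ m hm z ⟨hz'.1, h0⟩ hz'.2
  have hg := ((S.grd_sub w h).pi fun J : Finset (Fin (n + 1)) => J.card).map_inf (s' := s)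
    ((iov (I → R) S.l).restrictScalars ℂ) (fun z _ => hd z) (m : ℕ)
  have hz2 : z ∈ (Submodule.pi Set.univ fun _ => G.restrictScalars ℂ).map
      ((iov (I → R) S.l).restrictScalars ℂ) ⊓ Eg s (m : ℕ) := ⟨⟨y, hy, e⟩, hz'.2⟩
  rw [hg, hp] at hz2
  obtain ⟨y', hy', e'⟩ := hz2
  exact ⟨y', fun J => hy' J trivial, e'⟩

theorem NS0.hs_rat (S : NS0 M n X R RR) (w : I → ℕ) {G : Submodule R (I → R)}
    (h : ∀ ω ∈ G, S.sc w ω ∈ G) : ∃ g, Nm n g (S.hs w G) := by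
  obtain ⟨m₀, hm₀⟩ := lses_exact S w h
  have hG := S.grd_sub w h
  have e1 : (1 + C (-1 : ℂ) * PowerSeries.X : ℂ⟦X⟧) = 1 - PowerSeries.X := by
    rw [map_neg, map_one]; ring
  have key : PEq ((1 - PowerSeries.X) ^ (n + 1) * S.hs w G) 0 := by
    refine PEq.of_coeff m₀ fun m hm => ?_
    have hc := coeff_koszul (Fin (n + 1)) (-1)
      (fun k => trOn (G.restrictScalars ℂ ⊓ Eg (S.sc w) k) 1)
      (fun k hk => by rw [hG.neg hk, trOn_bot]) m
    rw [Fintype.card_fin, e1] at hc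
    rw [map_zero]
    refine hc.trans ?_
    have := fun J : Finset (Fin (n + 1)) => hG.fin' ((m : ℕ) - J.card)
    refine euler S.l (fun J => G.restrictScalars ℂ ⊓ Eg (S.sc w) ((m : ℕ) - J.card))
      (fun J _ hw => hw) (fun i w => rfl) (fun z hz => ?_) (hm₀ m hm)
    have hp := pi_inf_Eg (fun J : Finset (Fin (n + 1)) => J.card) (S.sc w) (G.restrictScalars ℂ)
      (m : ℕ)
    have hz' : z ∈ Submodule.pi Set.univ (fun _ => G.restrictScalars ℂ) ⊓
        Eg (piOp (fun J : Finset (Fin (n + 1)) => 2 ^ J.card) (S.sc w)) (m : ℕ) := by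
      rw [hp]
      exact fun J _ => hz J
    have h2 := mapsTo_inf (T := (iov (I → R) S.l).restrictScalars ℂ)
      (p := Submodule.pi Set.univ fun _ => G.restrictScalars ℂ)
      (s := piOp (fun J : Finset (Fin (n + 1)) => 2 ^ J.card) (S.sc w))
      (fun z hz J _ => ident_iov_mem S.l G (fun J => hz J trivial) J)
      (fun z _ => by
        have := ident_comm S.l (S.sc w) 2 1 (lses_hl S w) z
        simp only [one_mul, one_smul] at this
        exact this) _ z hz'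
    rw [hp] at h2
    exact fun J => h2 J trivial
  obtain ⟨g, hg⟩ := key
  exact ⟨g, 0, by rw [Polynomial.coe_zero, add_zero, hg, zero_add]⟩

omit [Fintype I] in
theorem lses_val_smul (S : NS0 M n X R RR) (q : X) (g : R) (ω : I → R) :
    S.val q (g • ω) = S.ev q g • S.val q ω := by
  funext i
  simp [NS0.val]

omit [Fintype I] in
theorem lses_val_add (S : NS0 M n X R RR) (q : X) (ω η : I → R) :
    S.val q (ω + η) = S.val q ω + S.val q η := by
  funext i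
  simp [NS0.val]

omit [Fintype I] in
theorem lses_val_csmul (S : NS0 M n X R RR) (q : X) (c : ℂ) (ω : I → R) :
    S.val q (c • ω) = c • S.val q ω := by
  funext i
  simp [NS0.val]

/-- two submodules that agree locally agree in large degree -/
theorem lses_large (S : NS0 M n X R RR) (w : I → ℕ) (N N₂ : Submodule R (I → R))
    (hN : ∀ ω ∈ N, S.sc w ω ∈ N) (hN₂ : ∀ ω ∈ N₂, S.sc w ω ∈ N₂)
    (h : ∀ p, ∃ g, S.ev p g ≠ 0 ∧ ∀ ω ∈ N, g • ω ∈ N₂) :
    ∃ m₀ : ℕ, ∀ m ≥ m₀, ∀ ω ∈ N, ω ∈ Eg (S.sc w) (m : ℕ) → ω ∈ N₂ := by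
  have := noeth S.gen
  let A : Ideal R :=
    { carrier := {g | ∀ z ∈ N, g • z ∈ N₂}
      add_mem' := fun {a b} ha hb z hz => by
        rw [add_smul]; exact Submodule.add_mem _ (ha z hz) (hb z hz)
      zero_mem' := fun z _ => by rw [zero_smul]; exact Submodule.zero_mem _
      smul_mem' := fun c a ha z hz => by
        rw [smul_eq_mul, mul_smul]; exact Submodule.smul_mem _ _ (ha z hz) }
  exact fin_len S.gen N N₂ (IsNoetherian.noetherian _)
    (S.ns A fun p => (h p).imp fun g hg => ⟨hg.2, hg.1⟩) (S.sc w) hN hN₂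

/-- a pointwise defined map that is locally polynomial and locally surjective -/
theorem NS0.ses (S : NS0 M n X R RR) (w : I → ℕ) (w' : I' → ℕ) (d : ℕ)
    (N K : Submodule R (I → R)) (N' : Submodule R (I' → R)) (Φ : X → (I → ℂ) →ₗ[ℂ] I' → ℂ)
    (hN : ∀ ω ∈ N, S.sc w ω ∈ N) (hN' : ∀ ω ∈ N', S.sc w' ω ∈ N')
    (hK : ∀ ω, ω ∈ K ↔ ω ∈ N ∧ ∀ q, Φ q (S.val q ω) = 0)
    (hom : ∀ ω ∈ N, ∀ q i, 2 ^ w' i * Φ (S.dbl q) (S.val (S.dbl q) ω) i =
      2 ^ d * Φ q (S.val q (S.sc w ω)) i)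
    (h1 : ∀ p, ∃ g, S.ev p g ≠ 0 ∧ ∀ ω ∈ N, ∃ γ ∈ N', ∀ q,
      S.val q γ = S.ev q g • Φ q (S.val q ω))
    (h2 : ∀ p, ∃ g, S.ev p g ≠ 0 ∧ ∀ γ ∈ N', ∃ ω ∈ N, ∀ q,
      Φ q (S.val q ω) = S.ev q g • S.val q γ) :
    PEq (PowerSeries.X ^ d * S.hs w N) (PowerSeries.X ^ d * S.hs w K + S.hs w' N') := by
  have hval : ∀ (γ : I' → R) q i, S.val q (S.sc w' γ) i = 2 ^ w' i * S.val (S.dbl q) γ i := by
    intro γ q i
    rw [NS0.val_apply, NS0.val_apply, dat_sc_apply, map_smul, S.ev_dbl, smul_eq_mul]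
  have h2d : ((2 : ℂ) ^ d) ≠ 0 := pow_ne_zero _ two_ne_zero
  let Γ : Submodule R ((I → R) × (I' → R)) :=
    { carrier := {z | z.1 ∈ N ∧ z.2 ∈ N' ∧ ∀ q, Φ q (S.val q z.1) = S.val q z.2}
      add_mem' := fun {a b} ha hb => ⟨N.add_mem ha.1 hb.1, N'.add_mem ha.2.1 hb.2.1, fun q => by
        rw [Prod.fst_add, Prod.snd_add, lses_val_add, lses_val_add, map_add, ha.2.2, hb.2.2]⟩
      zero_mem' := ⟨N.zero_mem, N'.zero_mem, fun q => by
        have e1 : S.val q (0 : I → R) = 0 := by funext i; simp [NS0.val]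
        have e2 : S.val q (0 : I' → R) = 0 := by funext i; simp [NS0.val]
        rw [Prod.fst_zero, Prod.snd_zero, e1, e2, map_zero]⟩
      smul_mem' := fun c a ha => ⟨N.smul_mem c ha.1, N'.smul_mem c ha.2.1, fun q => by
        rw [Prod.smul_fst, Prod.smul_snd, lses_val_smul, lses_val_smul, map_smul, ha.2.2]⟩ }
  have hΓ : ∀ ω γ, (ω, γ) ∈ Γ → (((2 : ℂ) ^ d) • S.sc w ω, S.sc w' γ) ∈ Γ := by
    intro ω γ hz
    refine ⟨N.smul_of_tower_mem _ (hN _ hz.1), hN' _ hz.2.1, fun q => ?_⟩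
    funext i
    have e : Φ (S.dbl q) (S.val (S.dbl q) ω) = S.val (S.dbl q) γ := hz.2.2 (S.dbl q)
    show Φ q (S.val q (((2 : ℂ) ^ d) • S.sc w ω)) i = S.val q (S.sc w' γ) i
    rw [lses_val_csmul, map_smul, Pi.smul_apply, smul_eq_mul, ← hom ω hz.1, e, hval]
  obtain ⟨m₁, hm₁⟩ := lses_large S w N (Γ.map (LinearMap.fst R _ _)) hN
    (by
      rintro _ ⟨⟨ω, γ⟩, hz, rfl⟩
      refine ⟨((2 : ℂ) ^ d)⁻¹ • (((2 : ℂ) ^ d) • S.sc w ω, S.sc w' γ),
        Γ.smul_of_tower_mem _ (hΓ ω γ hz), ?_⟩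
      show ((2 : ℂ) ^ d)⁻¹ • ((2 : ℂ) ^ d) • S.sc w ω = S.sc w ω
      rw [smul_smul, inv_mul_cancel₀ h2d, one_smul])
    (fun p => (h1 p).imp fun g hg => ⟨hg.1, fun ω hω => by
      obtain ⟨γ, hγ, e⟩ := hg.2 ω hω
      refine ⟨(g • ω, γ), ⟨N.smul_mem g hω, hγ, fun q => ?_⟩, rfl⟩
      show Φ q (S.val q (g • ω)) = S.val q γ
      rw [lses_val_smul, map_smul, e]⟩)
  obtain ⟨m₂, hm₂⟩ := lses_large S w' N' (Γ.map (LinearMap.snd R _ _)) hN'
    (by
      rintro _ ⟨⟨ω, γ⟩, hz, rfl⟩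
      exact ⟨_, hΓ ω γ hz, rfl⟩)
    (fun p => (h2 p).imp fun g hg => ⟨hg.1, fun γ hγ => by
      obtain ⟨ω, hω, e⟩ := hg.2 γ hγ
      refine ⟨(ω, g • γ), ⟨hω, N'.smul_mem g hγ, fun q => ?_⟩, rfl⟩
      show Φ q (S.val q ω) = S.val q (g • γ)
      rw [lses_val_smul, e]⟩)
  let Φh : (I → R) →ₗ[ℂ] X → I' → ℂ :=
    { toFun := fun ω q => Φ q (S.val q ω)
      map_add' := fun a b => by
        funext q
        rw [lses_val_add, map_add]
        rfl
      map_smul' := fun c a => by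
        funext q
        rw [lses_val_csmul, map_smul]
        rfl }
  let ι : (I' → R) →ₗ[ℂ] X → I' → ℂ :=
    { toFun := fun γ q => S.val q γ
      map_add' := fun a b => by
        funext q
        rw [lses_val_add]
        rfl
      map_smul' := fun c a => by
        funext q
        rw [lses_val_csmul]
        rfl }
  let s' : End ℂ (X → I' → ℂ) :=
    { toFun := fun f q i => ((2 : ℂ) ^ d)⁻¹ * (2 ^ w' i * f (S.dbl q) i)
      map_add' := fun a b => by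
        funext q i
        simp only [Pi.add_apply]
        ring
      map_smul' := fun c a => by
        funext q i
        simp only [Pi.smul_apply, smul_eq_mul, RingHom.id_apply]
        ring }
  have hιinj : ∀ γ, ι γ = 0 → γ = 0 := by
    intro γ hγ
    funext i
    exact S.sep _ fun p => congrFun (congrFun hγ p) i
  have hΦs : ∀ ω ∈ N.restrictScalars ℂ, Φh (S.sc w ω) = s' (Φh ω) := by
    intro ω hω
    funext q i
    show Φ q (S.val q (S.sc w ω)) i =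
      ((2 : ℂ) ^ d)⁻¹ * (2 ^ w' i * Φ (S.dbl q) (S.val (S.dbl q) ω) i)
    rw [hom ω hω, inv_mul_cancel_left₀ h2d]
  have hιs : ∀ γ, ι (S.sc w' γ) = ((2 : ℂ) ^ d) • s' (ι γ) := by
    intro γ
    funext q i
    show S.val q (S.sc w' γ) i =
      (2 : ℂ) ^ d * (((2 : ℂ) ^ d)⁻¹ * (2 ^ w' i * S.val (S.dbl q) γ i))
    rw [hval, mul_inv_cancel_left₀ h2d]
  have hpow : ∀ m : ℕ, (2 : ℂ) ^ (((m + d : ℕ) : ℕ) : ℤ) = 2 ^ d * (2 : ℂ) ^ (m : ℤ) := by
    intro m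
    rw [zpow_natCast, zpow_natCast, pow_add, mul_comm]
  have hG := S.grd_sub w hN
  refine PEq.of_coeff (m₁ + m₂ + d) fun m' hm' => ?_
  obtain ⟨m, rfl⟩ : ∃ m, m' = m + d := ⟨m' - d, by omega⟩
  have hmap : (N.restrictScalars ℂ ⊓ Eg (S.sc w) (m : ℕ)).map Φh =
      (N'.restrictScalars ℂ ⊓ Eg (S.sc w') ((m + d : ℕ) : ℕ)).map ι := by
    apply le_antisymm
    · rintro _ ⟨ω, hω, rfl⟩
      obtain ⟨⟨ω', γ⟩, hz, e⟩ := hm₁ m (by omega) ω hω.1 hω.2
      obtain rfl : ω' = ω := e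
      have e1 : ι γ = Φh ω' := funext fun q => (hz.2.2 q).symm
      refine ⟨γ, ⟨hz.2.1, mem_Eg.2 (sub_eq_zero.1 (hιinj _ ?_))⟩, e1⟩
      rw [map_sub, map_smul, hιs, e1, ← hΦs ω' hω.1, mem_Eg.1 hω.2, map_smul, smul_smul, hpow,
        sub_self]
    · rintro _ ⟨γ, hγ, rfl⟩
      obtain ⟨⟨ω, γ'⟩, hz, e⟩ := hm₂ (m + d) (by omega) γ hγ.1 hγ.2
      obtain rfl : γ' = γ := e
      have e1 : Φh ω = ι γ' := funext fun q => hz.2.2 q
      rw [← hG.map_inf (s' := s') Φh hΦs]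
      refine ⟨⟨ω, hz.1, e1⟩, mem_Eg.2 ?_⟩
      have e2 := hιs γ'
      rw [mem_Eg.1 hγ.2, map_smul, hpow, mul_smul] at e2
      exact (smul_right_injective _ h2d e2).symm
  have hker : N.restrictScalars ℂ ⊓ Eg (S.sc w) (m : ℕ) ⊓ LinearMap.ker Φh =
      K.restrictScalars ℂ ⊓ Eg (S.sc w) (m : ℕ) := by
    ext ω
    constructor
    · rintro ⟨⟨a, b⟩, c⟩
      exact ⟨(hK ω).2 ⟨a, fun q => congrFun c q⟩, b⟩
    · rintro ⟨a, b⟩
      exact ⟨⟨((hK ω).1 a).1, b⟩, funext ((hK ω).1 a).2⟩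
  have := hG.fin m
  have t1 := trOn_ker_map (p := N.restrictScalars ℂ ⊓ Eg (S.sc w) (m : ℕ)) (T := 1) (T' := 1) Φh
    (fun _ hw => hw) (fun _ _ => rfl)
  have t2 := trOn_congr (p := N'.restrictScalars ℂ ⊓ Eg (S.sc w') ((m + d : ℕ) : ℕ)) (T := 1)
    (T' := 1) ι (fun _ hw => hw) (fun _ _ => rfl) (fun γ _ => hιinj γ)
  rw [hker, hmap, t2] at t1
  rw [map_add, coeff_X_pow_mul, coeff_X_pow_mul, NS0.hs, NS0.hs, NS0.hs, chi, chi, chi, coeff_mk,
    coeff_mk, coeff_mk]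
  exact t1

end Pool.Agent.HCF
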