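import Pool.Agent.P.MP_f644fa_ag.Ladder

/-! Forms on a union of two sets of coordinates. -/

noncomputable section
namespace Pool.Agent.HCF
open Finset Module

variable {σ σ0 σ1 : Type} [LinearOrder σ] [Fintype σ] [LinearOrder σ0] [Fintype σ0]
  [LinearOrder σ1] [Fintype σ1] {O : Type} [CommRing O] (e0 : σ0 ↪o σ) (e1 : σ1 ↪o σ)

/-- the union -/
def un (q : Finset σ1 × Finset σ0) : Finset σ :=
  q.2.map e0.toEmbedding ∪ q.1.map e1.toEmbedding

/-- the sign of the shuffle -/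
def shs (q : Finset σ1 × Finset σ0) : ℤ :=
  (-1) ^ ((q.2 ×ˢ q.1).filter fun r => e1 r.2 < e0 r.1).card

/-- the coordinates of a form in the tensor product -/
def spl (O : Type) [CommRing O] : (Finset σ → O) →ₗ[O] Finset σ1 × Finset σ0 → O where
  toFun y q := shs e0 e1 q • y (un e0 e1 q)
  map_add' a b := by ext q; simp
  map_smul' c a := by ext q; simp [mul_left_comm]

theorem spl_apply (y : Finset σ → O) (q : Finset σ1 × Finset σ0) :
    spl e0 e1 O y q = shs e0 e1 q • y (un e0 e1 q) := rfl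

theorem shs_mul_self (q : Finset σ1 × Finset σ0) : shs e0 e1 q * shs e0 e1 q = 1 := by
  rw [shs, ← mul_pow]
  simp

variable {e0 e1}

theorem lw1_mem {q : Finset σ1 × Finset σ0} {j : σ} :
    j ∈ un e0 e1 q ↔ (∃ a ∈ q.2, e0 a = j) ∨ ∃ b ∈ q.1, e1 b = j := by
  rw [un, mem_union, mem_map, mem_map]
  rfl

theorem lw1_mem0 (disj : ∀ a b, e0 a ≠ e1 b) {q : Finset σ1 × Finset σ0} {a : σ0} :
    e0 a ∈ un e0 e1 q ↔ a ∈ q.2 := by
  rw [lw1_mem]
  refine ⟨?_, fun h => Or.inl ⟨a, h, rfl⟩⟩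
  rintro (⟨a', h, e⟩ | ⟨b, -, e⟩)
  · rwa [← e0.injective e]
  · exact absurd e.symm (disj a b)

theorem lw1_mem1 (disj : ∀ a b, e0 a ≠ e1 b) {q : Finset σ1 × Finset σ0} {b : σ1} :
    e1 b ∈ un e0 e1 q ↔ b ∈ q.1 := by
  rw [lw1_mem]
  refine ⟨?_, fun h => Or.inr ⟨b, h, rfl⟩⟩
  rintro (⟨a, -, e⟩ | ⟨b', h, e⟩)
  · exact absurd e (disj a b)
  · rwa [← e1.injective e]

theorem lw1_ins0 (J1 : Finset σ1) (J0 : Finset σ0) (a : σ0) :
    insert (e0 a) (un e0 e1 (J1, J0)) = un e0 e1 (J1, insert a J0) := by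
  rw [un, un, map_insert, insert_union]
  rfl

theorem lw1_ins1 (J1 : Finset σ1) (J0 : Finset σ0) (b : σ1) :
    insert (e1 b) (un e0 e1 (J1, J0)) = un e0 e1 (insert b J1, J0) := by
  rw [un, un, map_insert, union_insert]
  rfl

theorem lw1_er0 (disj : ∀ a b, e0 a ≠ e1 b) {J1 : Finset σ1} {J0 : Finset σ0} {a : σ0}
    (h : a ∈ J0) : (un e0 e1 (J1, J0)).erase (e0 a) = un e0 e1 (J1, J0.erase a) := by
  conv_lhs => rw [← insert_erase h, ← lw1_ins0]
  exact erase_insert fun h' => notMem_erase a J0 ((lw1_mem0 disj).1 h')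

theorem lw1_er1 (disj : ∀ a b, e0 a ≠ e1 b) {J1 : Finset σ1} {J0 : Finset σ0} {b : σ1}
    (h : b ∈ J1) : (un e0 e1 (J1, J0)).erase (e1 b) = un e0 e1 (J1.erase b, J0) := by
  conv_lhs => rw [← insert_erase h, ← lw1_ins1]
  exact erase_insert fun h' => notMem_erase b J1 ((lw1_mem1 disj).1 h')

theorem lw1_sum (disj : ∀ a b, e0 a ≠ e1 b) {A : Type} [AddCommMonoid A] (w : σ → A)
    (q : Finset σ1 × Finset σ0) :
    ∑ j ∈ un e0 e1 q, w j = ∑ b ∈ q.1, w (e1 b) + ∑ a ∈ q.2, w (e0 a) := by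
  rw [un, sum_union, sum_map, sum_map, add_comm]
  · rfl
  · refine disjoint_left.2 fun j h0 h1 => ?_
    obtain ⟨a, -, rfl⟩ := mem_map.1 h0
    obtain ⟨b, -, e⟩ := mem_map.1 h1
    exact disj a b e.symm

theorem lw1_sum_univ (cover : ∀ j, (∃ a, e0 a = j) ∨ ∃ b, e1 b = j) (disj : ∀ a b, e0 a ≠ e1 b)
    {A : Type} [AddCommMonoid A] (w : σ → A) :
    ∑ j, w j = ∑ b, w (e1 b) + ∑ a, w (e0 a) := by
  have h : un e0 e1 (univ, univ) = univ := eq_univ_of_forall fun j => by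
    rcases cover j with ⟨a, rfl⟩ | ⟨b, rfl⟩
    · exact (lw1_mem0 disj).2 (mem_univ a)
    · exact (lw1_mem1 disj).2 (mem_univ b)
  rw [← h, lw1_sum disj]

theorem un_bij (cover : ∀ j, (∃ a, e0 a = j) ∨ ∃ b, e1 b = j) (disj : ∀ a b, e0 a ≠ e1 b) :
    Function.Bijective (un e0 e1) := by
  constructor
  · intro q q' h
    refine Prod.ext (ext fun b => ?_) (ext fun a => ?_)
    · rw [← lw1_mem1 disj, h, lw1_mem1 disj]
    · rw [← lw1_mem0 disj, h, lw1_mem0 disj]
  · intro J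
    refine ⟨(univ.filter fun b => e1 b ∈ J, univ.filter fun a => e0 a ∈ J), ext fun j => ?_⟩
    rcases cover j with ⟨a, rfl⟩ | ⟨b, rfl⟩
    · rw [lw1_mem0 disj, mem_filter_univ]
    · rw [lw1_mem1 disj, mem_filter_univ]

theorem sum_un (disj : ∀ a b, e0 a ≠ e1 b) (w : σ → ℕ) (q : Finset σ1 × Finset σ0) :
    ∑ j ∈ un e0 e1 q, w j = ∑ b ∈ q.1, w (e1 b) + ∑ a ∈ q.2, w (e0 a) := by
  exact lw1_sum disj w q

theorem card_un (disj : ∀ a b, e0 a ≠ e1 b) (q : Finset σ1 × Finset σ0) :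
    (un e0 e1 q).card = q.1.card + q.2.card := by
  have h := lw1_sum disj (fun _ => 1) q
  simpa using h

theorem lw1_zero {y : Finset σ → O} {q : Finset σ1 × Finset σ0} (h : spl e0 e1 O y q = 0) :
    y (un e0 e1 q) = 0 := by
  have h1 := congrArg (fun x => shs e0 e1 q • x) h
  simpa only [spl_apply, smul_smul, shs_mul_self, one_smul, smul_zero] using h1

theorem spl_bij (cover : ∀ j, (∃ a, e0 a = j) ∨ ∃ b, e1 b = j) (disj : ∀ a b, e0 a ≠ e1 b) :
    Function.Bijective (spl e0 e1 O) := by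
  constructor
  · refine (injective_iff_map_eq_zero _).2 fun y hy => funext fun J => ?_
    obtain ⟨q, rfl⟩ := (un_bij cover disj).2 J
    exact lw1_zero (congrFun hy q)
  · intro γ
    let E := Equiv.ofBijective _ (un_bij cover disj)
    refine ⟨fun J => shs e0 e1 (E.symm J) • γ (E.symm J), funext fun q => ?_⟩
    have h : E.symm (un e0 e1 q) = q := E.symm_apply_apply q
    rw [spl_apply, h, smul_smul, shs_mul_self, one_smul]

theorem lw1_sg (disj : ∀ a b, e0 a ≠ e1 b) (j : σ) (J1 : Finset σ1) (J0 : Finset σ0) :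
    sg j (un e0 e1 (J1, J0)) =
      (-1) ^ (J1.filter fun b => e1 b < j).card * (-1) ^ (J0.filter fun a => e0 a < j).card := by
  rw [sg, card_filter, lw1_sum disj, pow_add, card_filter, card_filter]

theorem lw1_sign0 (disj : ∀ a b, e0 a ≠ e1 b) {J1 : Finset σ1} {J0 : Finset σ0} {a : σ0}
    (h : a ∉ J0) : shs e0 e1 (J1, J0) * sg (e0 a) (un e0 e1 (J1, J0)) =
      sg a J0 * shs e0 e1 (J1, insert a J0) := by
  have h1 : shs e0 e1 (J1, insert a J0) =
      (-1) ^ (J1.filter fun b => e1 b < e0 a).card * shs e0 e1 (J1, J0) := by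
    simp only [shs, card_filter, sum_product]
    rw [sum_insert h, pow_add]
  have h2 : (J0.filter fun a' => e0 a' < e0 a) = J0.filter (· < a) :=
    filter_congr fun a' _ => e0.lt_iff_lt
  rw [h1, lw1_sg disj, h2, sg]
  ring

theorem lw1_sign1 (disj : ∀ a b, e0 a ≠ e1 b) {J1 : Finset σ1} {J0 : Finset σ0} {b : σ1}
    (h : b ∉ J1) : shs e0 e1 (J1, J0) * sg (e1 b) (un e0 e1 (J1, J0)) =
      (-1) ^ J0.card * (sg b J1 * shs e0 e1 (insert b J1, J0)) := by
  have h1 : shs e0 e1 (insert b J1, J0) =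
      (-1) ^ (J0.filter fun a => e1 b < e0 a).card * shs e0 e1 (J1, J0) := by
    simp only [shs, card_filter, sum_product_right]
    rw [sum_insert h, pow_add]
  have h2 : (J1.filter fun b' => e1 b' < e1 b) = J1.filter (· < b) :=
    filter_congr fun b' _ => e1.lt_iff_lt
  have h3 : (J0.filter fun a => e1 b < e0 a) = J0.filter fun a => ¬ e0 a < e1 b :=
    filter_congr fun a _ => ⟨fun h => h.not_gt, fun h => (not_lt.1 h).lt_of_ne (disj a b).symm⟩
  have h4 := card_filter_add_card_filter_not (s := J0) fun a => e0 a < e1 b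
  have h5 : ((-1 : ℤ) ^ (J0.filter fun a => ¬ e0 a < e1 b).card) *
      (-1) ^ (J0.filter fun a => ¬ e0 a < e1 b).card = 1 := by
    rw [← mul_pow]
    simp
  rw [h1, lw1_sg disj, h2, sg, h3, ← h4, pow_add]
  linear_combination (-(shs e0 e1 (J1, J0) * (-1) ^ (J1.filter (· < b)).card *
    (-1) ^ (J0.filter fun a => e0 a < e1 b).card)) * h5

theorem spl_iov (cover : ∀ j, (∃ a, e0 a = j) ∨ ∃ b, e1 b = j) (disj : ∀ a b, e0 a ≠ e1 b)
    (v : σ → O) (y : Finset σ → O) (J1 : Finset σ1) (J0 : Finset σ0) :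
    spl e0 e1 O (iov O v y) (J1, J0) =
      iov O (fun a => v (e0 a)) (fun J => spl e0 e1 O y (J1, J)) J0 +
        (-1) ^ J0.card * iov O (fun b => v (e1 b)) (fun J => spl e0 e1 O y (J, J0)) J1 := by
  rw [spl_apply, fock_iov, fock_iov, fock_iov, lw1_sum_univ cover disj, smul_add, add_comm,
    smul_sum, smul_sum, mul_sum]
  refine congrArg₂ (· + ·) (sum_congr rfl fun a _ => ?_) (sum_congr rfl fun b _ => ?_)
  · rw [io_apply, io_apply]
    by_cases h : a ∈ J0
    · rw [if_pos ((lw1_mem0 disj).2 h), if_pos h, smul_zero, smul_zero]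
    · rw [if_neg (fun h' => h ((lw1_mem0 disj).1 h')), if_neg h, lw1_ins0, spl_apply,
        smul_comm (shs e0 e1 (J1, J0)), smul_smul, smul_smul (sg a J0), lw1_sign0 disj h]
  · rw [io_apply, io_apply]
    by_cases h : b ∈ J1
    · rw [if_pos ((lw1_mem1 disj).2 h), if_pos h, smul_zero, smul_zero, mul_zero]
    · rw [if_neg (fun h' => h ((lw1_mem1 disj).1 h')), if_neg h, lw1_ins1, spl_apply,
        smul_comm (shs e0 e1 (J1, J0)), smul_smul, smul_smul (sg b J1), lw1_sign1 disj h]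
      simp only [smul_eq_mul, zsmul_eq_mul]
      push_cast
      ring

variable (e0 e1) in
/-- forms of degree less than `n` in the second set of coordinates -/
def lw1_F (O : Type) [CommRing O] (n : ℕ) : Submodule O (Finset σ → O) where
  carrier := {y | ∀ q : Finset σ1 × Finset σ0, n ≤ q.1.card → y (un e0 e1 q) = 0}
  add_mem' := fun ha hb q hq => by rw [Pi.add_apply, ha q hq, hb q hq, add_zero]
  zero_mem' := fun _ _ => rfl
  smul_mem' := fun c y hy q hq => by rw [Pi.smul_apply, hy q hq, smul_zero]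

theorem lw1_ep0 (disj : ∀ a b, e0 a ≠ e1 b) {n : ℕ} {y : Finset σ → O}
    (hy : y ∈ lw1_F e0 e1 O n) (a : σ0) : ep O O (e0 a) y ∈ lw1_F e0 e1 O n := by
  rintro ⟨J1, J0⟩ hq
  rw [ep_apply]
  split_ifs with h
  · rw [lw1_er0 disj ((lw1_mem0 disj).1 h), hy (J1, J0.erase a) hq, smul_zero]
  · rfl

theorem lw1_ep1 (disj : ∀ a b, e0 a ≠ e1 b) {n : ℕ} {y : Finset σ → O}
    (hy : y ∈ lw1_F e0 e1 O (n - 1)) (b : σ1) : ep O O (e1 b) y ∈ lw1_F e0 e1 O n := by
  rintro ⟨J1, J0⟩ hq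
  rw [ep_apply]
  split_ifs with h
  · have hb : b ∈ J1 := (lw1_mem1 disj).1 h
    have hq' : n ≤ J1.card := hq
    rw [lw1_er1 disj hb, hy (J1.erase b, J0) (by
      show n - 1 ≤ (J1.erase b).card
      rw [card_erase_of_mem hb]
      omega), smul_zero]
  · rfl

theorem lw1_io0 {n : ℕ} {y : Finset σ → O} (hy : y ∈ lw1_F e0 e1 O n) (a : σ0) :
    io O O (e0 a) y ∈ lw1_F e0 e1 O n := by
  rintro ⟨J1, J0⟩ hq
  rw [io_apply]
  split_ifs with h
  · rfl
  · rw [lw1_ins0, hy (J1, insert a J0) hq, smul_zero]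

theorem lw1_io1 (disj : ∀ a b, e0 a ≠ e1 b) {n : ℕ} {y : Finset σ → O}
    (hy : y ∈ lw1_F e0 e1 O n) (b : σ1) : io O O (e1 b) y ∈ lw1_F e0 e1 O (n - 1) := by
  rintro ⟨J1, J0⟩ hq
  rw [io_apply]
  split_ifs with h
  · rfl
  · have hb : b ∉ J1 := fun hb => h ((lw1_mem1 disj).2 hb)
    have hq' : n - 1 ≤ J1.card := hq
    rw [lw1_ins1, hy (insert b J1, J0) (by
      show n ≤ (insert b J1).card
      rw [card_insert_of_notMem hb]
      omega), smul_zero]

theorem lw1_kt (cover : ∀ j, (∃ a, e0 a = j) ∨ ∃ b, e1 b = j) (disj : ∀ a b, e0 a ≠ e1 b)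
    {t : Matrix σ σ O} (ht : ∀ a b, t (e0 a) (e1 b) = 0) {n : ℕ} {y : Finset σ → O}
    (hy : y ∈ lw1_F e0 e1 O n) : kt O t y ∈ lw1_F e0 e1 O n := by
  rw [kt, LinearMap.sum_apply]
  refine Submodule.sum_mem _ fun l _ => ?_
  rw [Module.End.mul_apply, iov, LinearMap.sum_apply]
  rcases cover l with ⟨a, rfl⟩ | ⟨b, rfl⟩
  · refine lw1_ep0 disj (Submodule.sum_mem _ fun j _ => ?_) a
    rw [LinearMap.smul_apply]
    refine Submodule.smul_mem _ _ ?_
    rcases cover j with ⟨a', rfl⟩ | ⟨b', rfl⟩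
    · exact lw1_io0 hy a'
    · exact fun q hq => lw1_io1 disj hy b' q ((Nat.sub_le n 1).trans hq)
  · refine lw1_ep1 disj (Submodule.sum_mem _ fun j _ => ?_) b
    rw [LinearMap.smul_apply]
    rcases cover j with ⟨a', rfl⟩ | ⟨b', rfl⟩
    · rw [ht, zero_smul]
      exact Submodule.zero_mem _
    · exact Submodule.smul_mem _ _ (lw1_io1 disj hy b')

/-- the top component under the ladder operator of an adapted matrix -/
theorem lad_top (cover : ∀ j, (∃ a, e0 a = j) ∨ ∃ b, e1 b = j) (disj : ∀ a b, e0 a ≠ e1 b)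
    (t : Matrix σ σ O) (δ : O) (ht : ∀ a b, t (e0 a) (e1 b) = 0) (a : ℕ) (η : Finset σ → O)
    (h0 : ∀ q : Finset σ1 × Finset σ0, q.1.card ≠ a → η (un e0 e1 q) = 0)
    (h1 : ∀ b, iov O (fun j => t j (e1 b)) η = 0)
    (h2 : ∀ a' J1, iov O (fun k => t (e0 k) (e0 a')) (fun J => spl e0 e1 O η (J1, J)) = 0)
    (r : ℕ) (q : Finset σ1 × Finset σ0) :
    (a < q.1.card → lad O t δ 1 r η (un e0 e1 q) = 0) ∧
      (q.1.card = a → lad O t δ 1 r η (un e0 e1 q) =
        (-1) ^ r * (r.factorial : O) * δ ^ r * η (un e0 e1 q)) := by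
  have hη : kt O t η ∈ lw1_F e0 e1 O a := by
    rw [kt, LinearMap.sum_apply]
    refine Submodule.sum_mem _ fun l _ => ?_
    rw [Module.End.mul_apply]
    rcases cover l with ⟨a', rfl⟩ | ⟨b, rfl⟩
    · refine lw1_ep0 disj ?_ a'
      rintro ⟨J1, J0⟩ hq
      refine lw1_zero ?_
      rw [spl_iov cover disj, h2 a' J1, Pi.zero_apply, zero_add, fock_iov]
      refine mul_eq_zero_of_right _ (sum_eq_zero fun b _ => ?_)
      rw [io_apply]
      split_ifs with hb
      · rw [smul_zero]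
      · have hq' : a ≤ J1.card := hq
        rw [spl_apply, h0 _ (by
          show (insert b J1).card ≠ a
          rw [card_insert_of_notMem hb]
          omega), smul_zero, smul_zero, smul_zero]
    · rw [h1, map_zero]
      exact Submodule.zero_mem _
  have key : lad O t δ 1 r η - ((-1) ^ r * (r.factorial : O) * δ ^ r) • η ∈ lw1_F e0 e1 O a := by
    induction r with
    | zero => simp [lad]
    | succ r ih =>
      have e : lad O t δ 1 (r + 1) η - ((-1) ^ (r + 1) * ((r + 1).factorial : O) * δ ^ (r + 1)) • η =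
          kt O t (lad O t δ 1 r η - ((-1) ^ r * (r.factorial : O) * δ ^ r) • η) +
            ((-1) ^ r * (r.factorial : O) * δ ^ r) • kt O t η -
            (((1 + r : ℕ) : O) * δ) •
              (lad O t δ 1 r η - ((-1) ^ r * (r.factorial : O) * δ ^ r) • η) := by
        have e1 : ((-1) ^ (r + 1) * ((r + 1).factorial : O) * δ ^ (r + 1)) =
            -((((1 + r : ℕ) : O) * δ) * ((-1) ^ r * (r.factorial : O) * δ ^ r)) := by
          rw [Nat.factorial_succ]
          push_cast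
          ring
        rw [lad, Module.End.mul_apply, LinearMap.sub_apply, LinearMap.smul_apply,
          Module.End.one_apply, map_sub, map_smul, e1, smul_sub, smul_smul, neg_smul]
        abel
      rw [e]
      exact Submodule.sub_mem _ (Submodule.add_mem _ (lw1_kt cover disj ht ih)
        (Submodule.smul_mem _ _ hη)) (Submodule.smul_mem _ _ ih)
  have h3 : a ≤ q.1.card → lad O t δ 1 r η (un e0 e1 q) =
      (-1) ^ r * (r.factorial : O) * δ ^ r * η (un e0 e1 q) := fun hq => sub_eq_zero.1 (key q hq)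
  exact ⟨fun hq => by rw [h3 hq.le, h0 q hq.ne', mul_zero], fun hq => h3 hq.ge⟩

theorem lw1_deg {k : ℕ} {y : Finset σ → O} (h : Deg k y) (t : Matrix σ σ O) :
    Deg k (kt O t y) := by
  intro J hJ
  rw [kt, LinearMap.sum_apply, Finset.sum_apply]
  refine sum_eq_zero fun l _ => ?_
  rw [Module.End.mul_apply]
  rcases k with _ | k
  · rw [Lev.iov_zero (fun K hK => h K hK.ne'), map_zero, Pi.zero_apply]
  · exact (h.iov _).ep l J hJ

theorem Deg.lad {k : ℕ} {y : Finset σ → O} (h : Deg k y) (t : Matrix σ σ O) (δ : O) (a r : ℕ) :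
    Deg k (lad O t δ a r y) := by
  induction r with
  | zero => exact h
  | succ r ih =>
    intro J hJ
    rw [HCF.lad, Module.End.mul_apply, LinearMap.sub_apply, LinearMap.smul_apply,
      Module.End.one_apply, Pi.sub_apply, Pi.smul_apply, lw1_deg ih t J hJ, ih J hJ, smul_zero,
      sub_zero]

end Pool.Agent.HCF
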