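import Pool.Agent.P.MP_f644fa_ag.LW0
import Pool.Agent.P.MP_f644fa_ag.LW1
import Pool.Agent.P.MP_f644fa_ag.LSes
import Pool.Agent.P.MP_f644fa_ag.LSub1

/-! Exterior powers of an extension. -/

noncomputable section
namespace Pool.Agent.HCF
open Finset Module PowerSeries
open scoped Kronecker

variable {M n : ℕ} {X R RR : Type} [CommRing R] [Algebra ℂ R] [CommRing RR] [Algebra ℂ RR]
  {S : NS0 M n X R RR} {σ σ0 σ1 : Type} [LinearOrder σ] [Fintype σ] [LinearOrder σ0] [Fintype σ0]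
  [LinearOrder σ1] [Fintype σ1]

/-- forms whose components with at least `a` indices in `e1` vanish -/
def lwF (e0 : σ0 ↪o σ) (e1 : σ1 ↪o σ) (R : Type) [CommRing R] (a : ℕ) :
    Submodule R (Finset σ → R) where
  carrier := {ω | ∀ q : Finset σ1 × Finset σ0, a ≤ q.1.card → ω (un e0 e1 q) = 0}
  add_mem' ha hb q h := by simp [ha q h, hb q h]
  zero_mem' _ _ := rfl
  smul_mem' c _ ha q h := by simp [ha q h]

/-- elements of bidegree `(a, b)` -/
def lwB (σ1 σ0 R : Type) [CommRing R] (a b : ℕ) : Submodule R (Finset σ1 × Finset σ0 → R) where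
  carrier := {γ | ∀ r : Finset σ1 × Finset σ0, ¬ (r.1.card = a ∧ r.2.card = b) → γ r = 0}
  add_mem' ha hb q h := by simp [ha q h, hb q h]
  zero_mem' _ _ := rfl
  smul_mem' c _ ha q h := by simp [ha q h]

/-- the component with `a` indices in `e1` -/
def lwP (e0 : σ0 ↪o σ) (e1 : σ1 ↪o σ) (O : Type) [CommRing O] (a : ℕ) :
    (Finset σ → O) →ₗ[O] Finset σ1 × Finset σ0 → O where
  toFun y r := if r.1.card = a then shs e0 e1 r • y (un e0 e1 r) else 0
  map_add' x y := by ext r; by_cases h : r.1.card = a <;> simp [h]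
  map_smul' c x := by ext r; by_cases h : r.1.card = a <;> simp [h, mul_left_comm]

theorem lwP_apply (e0 : σ0 ↪o σ) (e1 : σ1 ↪o σ) {O : Type} [CommRing O] (a : ℕ)
    (y : Finset σ → O) (r : Finset σ1 × Finset σ0) :
    lwP e0 e1 O a y r = if r.1.card = a then shs e0 e1 r • y (un e0 e1 r) else 0 := rfl

theorem lw_sc {I : Type} (w : I → ℕ) {ω : I → R} {i : I} (h : ω i = 0) : S.sc w ω i = 0 := by
  show (2 : ℂ) ^ w i • S.s1 (ω i) = 0
  rw [h, map_zero, smul_zero]

theorem lw_iov_zero {O : Type} [CommRing O] (y : Finset σ → O) : iov O (fun _ => (0 : O)) y = 0 := by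
  simp [iov]

theorem lw_iov_up {O : Type} [CommRing O] (u : σ → O) {y : Finset σ → O} {J : Finset σ}
    (h : ∀ J' : Finset σ, J'.card = J.card + 1 → y J' = 0) : iov O u y J = 0 := by
  simp only [iov, LinearMap.sum_apply, LinearMap.smul_apply, Finset.sum_apply, Pi.smul_apply,
    io_apply]
  refine sum_eq_zero fun j _ => ?_
  by_cases hj : j ∈ J
  · simp [hj]
  · rw [if_neg hj, h _ (card_insert_of_notMem hj), smul_zero, smul_zero]

theorem lw_shs {O : Type} [CommRing O] {e0 : σ0 ↪o σ} {e1 : σ1 ↪o σ} {r : Finset σ1 × Finset σ0}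
    {x : O} (h : shs e0 e1 r • x = 0) : x = 0 := by
  rw [← one_smul ℤ x, ← shs_mul_self e0 e1 r, mul_smul, h, smul_zero]

theorem lw_val_spl (e0 : σ0 ↪o σ) (e1 : σ1 ↪o σ) (p : X) (ω : Finset σ → R)
    (r : Finset σ1 × Finset σ0) :
    S.ev p (spl e0 e1 R ω r) = spl e0 e1 ℂ (S.val p ω) r := map_zsmul (S.ev p) _ _

theorem lw_chi (B0 : Sub S σ0) (B1 : Sub S σ1) (a b : ℕ) :
    (B1.lam.tensor B0.lam).chi (piM σ1 a ⊗ₖ piM σ0 b) =
      S.hs (B1.lam.tensor B0.lam).w ((B1.lam.tensor B0.lam).G ⊓ lwB σ1 σ0 R a b) := by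
  have e : piM σ1 a ⊗ₖ piM σ0 b = Matrix.diagonal fun q : Finset σ1 × Finset σ0 =>
      if q.1.card = a ∧ q.2.card = b then (1 : ℂ) else 0 := by
    rw [piM, piM, Matrix.diagonal_kronecker_diagonal]
    refine congrArg Matrix.diagonal (funext fun q => ?_)
    by_cases h1 : q.1.card = a <;> by_cases h2 : q.2.card = b <;> simp [h1, h2]
  refine Dat.chi_proj ((B1.ok_piM a).kron (B0.ok_piM b)) ?_ _ fun ω => and_congr_right fun _ => ?_
  · rw [e, Matrix.diagonal_mul_diagonal]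
    refine congrArg Matrix.diagonal (funext fun q => ?_)
    split_ifs <;> simp
  · rw [e]
    refine ⟨fun h => funext fun r => ?_, fun h r hr => ?_⟩
    · rw [cst_diagonal]
      split_ifs with hr
      · exact one_smul _ _
      · rw [h r hr, smul_zero]
    · rw [← congrFun h r, cst_diagonal, if_neg hr, zero_smul]

variable {B : Sub S σ} {B0 : Sub S σ0} {B1 : Sub S σ1} {e0 : σ0 ↪o σ} {e1 : σ1 ↪o σ}

theorem lw_down (h : Spl B B0 B1 e0 e1) {k a : ℕ} {ω : Finset σ → R}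
    (hω : ω ∈ B.lamG ⊓ degS σ R k ⊓ lwF e0 e1 R (a + 1)) :
    lwP e0 e1 R a ω ∈ (B1.lam.tensor B0.lam).G ⊓ lwB σ1 σ0 R a (k - a) := by
  classical
  obtain ⟨⟨h1, h2⟩, h3⟩ := hω
  refine ⟨⟨fun J0 => ?_, fun J1 => ?_⟩, fun r hr => ?_⟩
  · have m : (fun J => spl e0 e1 R ω (J, J0)) ∈ B1.lamG := by
      intro p v1 hv
      have a0 : ∀ a, Function.extend e1 v1 0 (e0 a) = 0 := fun a =>
        Function.extend_apply' _ _ _ fun ⟨b, hb⟩ => h.disj a b hb.symm
      have a1 : (fun b => Function.extend e1 v1 0 (e1 b)) = v1 :=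
        funext fun b => e1.injective.extend_apply _ _ b
      funext J1
      have e := spl_iov h.cover h.disj (Function.extend e1 v1 0) (S.val p ω) J1 J0
      rw [h1 p _ ((h.t1 p _ a0).2 (by rw [a1]; exact hv)), map_zero, funext a0, a1, lw_iov_zero,
        Pi.zero_apply, Pi.zero_apply, zero_add, eq_comm,
        mul_eq_zero_iff_left (pow_ne_zero _ (by norm_num))] at e
      refine Eq.trans (congrFun (congrArg _ (funext fun J => ?_)) J1) e
      exact lw_val_spl e0 e1 p ω _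
    refine (congrArg (· ∈ B1.lamG) (funext fun J => ?_)).mp ((B1.ok_piM a).map _ m)
    rw [piM, cst_diagonal, lwP_apply, spl_apply]
    split_ifs
    · exact one_smul _ _
    · exact zero_smul _ _
  · by_cases c : J1.card = a
    · intro p v0 hv
      obtain ⟨v, a1, a2⟩ := (h.t0 p v0).1 hv
      funext J0
      have e := spl_iov h.cover h.disj v (S.val p ω) J1 J0
      rw [h1 p v a1, map_zero, funext a2, lw_iov_up (fun b => v (e1 b)) (J := J1) fun J hJ => by
        rw [spl_apply, NS0.val_apply, h3 (J, J0) (by simp only; omega), map_zero, smul_zero],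
        mul_zero, add_zero, Pi.zero_apply] at e
      refine Eq.trans (congrFun (congrArg _ (funext fun J => ?_)) J0) e.symm
      rw [NS0.val_apply, lwP_apply, if_pos c]
      exact lw_val_spl e0 e1 p ω _
    · refine (congrArg (· ∈ B0.lamG) (funext fun J => ?_)).mp B0.lamG.zero_mem
      rw [lwP_apply, if_neg c]
      rfl
  · rw [lwP_apply]
    split_ifs with c
    · rw [h2 _ (by rw [card_un h.disj]; omega), smul_zero]
    · rfl

theorem lw_up (h : Spl B B0 B1 e0 e1) {k a : ℕ} (ha : a ≤ k) (p : X) :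
    ∃ g, S.ev p g ≠ 0 ∧ ∀ γ ∈ (B1.lam.tensor B0.lam).G ⊓ lwB σ1 σ0 R a (k - a),
      ∃ ω ∈ B.lamG ⊓ degS σ R k ⊓ lwF e0 e1 R (a + 1), ∀ q,
        lwP e0 e1 ℂ a (S.val q ω) = S.ev q g • S.val q γ := by
  obtain ⟨δ, t, ht, h0⟩ := h.adapted p
  refine ⟨δ * ((-1) ^ Fintype.card σ * ((Fintype.card σ).factorial : R) * δ ^ Fintype.card σ),
    ?_, fun γ hγ => ?_⟩
  · simp only [map_mul, map_pow, map_neg, map_one, map_natCast]
    exact mul_ne_zero ht.1 (mul_ne_zero (mul_ne_zero (by simp)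
      (Nat.cast_ne_zero.2 (Nat.factorial_ne_zero _))) (pow_ne_zero _ ht.1))
  obtain ⟨η, rfl⟩ := (spl_bij (O := R) h.cover h.disj).2 γ
  obtain ⟨⟨g1, g2⟩, g3⟩ := hγ
  have z : ∀ r : Finset σ1 × Finset σ0, ¬ (r.1.card = a ∧ r.2.card = k - a) →
      η (un e0 e1 r) = 0 := fun r hr => lw_shs (g3 r hr)
  have dη : Deg k η := fun J hJ => by
    obtain ⟨r, rfl⟩ := (un_bij h.cover h.disj).2 J
    rw [card_un h.disj] at hJ
    exact z r (by omega)
  have top := lad_top h.cover h.disj t δ h0 a η (fun r hr => z r fun c => hr c.1) (fun b => by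
    refine (spl_bij (O := R) h.cover h.disj).1 (funext fun ⟨J1, J0⟩ => ?_)
    have e : iov R (fun b' => t (e1 b') (e1 b)) (fun J => spl e0 e1 R η (J, J0)) = 0 :=
      S.val_inj fun q => by
        rw [NS0.val_iov]
        refine (g1 J0 q _ ((h.t1 q (fun j => S.ev q (t j (e1 b))) fun a' => ?_).1
          (ht.2.1 q _))).trans (funext fun J => (map_zero (S.ev q)).symm)
        rw [h0, map_zero]
    rw [spl_iov h.cover h.disj, e, funext fun a' => h0 a' b, lw_iov_zero, map_zero]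
    simp) (fun a' J1 => S.val_inj fun q => by
      rw [NS0.val_iov]
      exact (g2 J1 q _ ((h.t0 q _).2 ⟨_, ht.2.1 q (e0 a'), fun _ => rfl⟩)).trans
        (funext fun J => (map_zero (S.ev q)).symm)) (Fintype.card σ)
  refine ⟨δ • lad R t δ 1 (Fintype.card σ) η, ⟨⟨ht.smul_mem fun l => iov_lad ht.tt l η,
    Submodule.smul_mem _ _ (dη.lad t δ 1 _)⟩, Submodule.smul_mem _ _ fun r hr => (top r).1 hr⟩,
    fun q => funext fun r => ?_⟩
  rw [lwP_apply, Pi.smul_apply, NS0.val_apply, NS0.val_apply, smul_eq_mul, ← map_mul]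
  split_ifs with c
  · rw [Pi.smul_apply, (top r).2 c, spl_apply, ← map_zsmul]
    refine congrArg _ ?_
    simp only [smul_eq_mul, zsmul_eq_mul]
    ring
  · rw [g3 r fun c' => c c'.1, mul_zero, map_zero]

theorem lw_step (h : Spl B B0 B1 e0 e1) {k a : ℕ} (ha : a ≤ k) :
    PEq (S.hs B.wt (B.lamG ⊓ degS σ R k ⊓ lwF e0 e1 R (a + 1)))
      (S.hs B.wt (B.lamG ⊓ degS σ R k ⊓ lwF e0 e1 R a) +
        (B1.lam.tensor B0.lam).chi (piM σ1 a ⊗ₖ piM σ0 (k - a))) := by
  have e := S.ses B.wt (B1.lam.tensor B0.lam).w 0 (B.lamG ⊓ degS σ R k ⊓ lwF e0 e1 R (a + 1))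
    (B.lamG ⊓ degS σ R k ⊓ lwF e0 e1 R a) ((B1.lam.tensor B0.lam).G ⊓ lwB σ1 σ0 R a (k - a))
    (fun _ => lwP e0 e1 ℂ a)
    (fun ω hω => ⟨⟨B.lamG_inv ω hω.1.1, fun J hJ => lw_sc _ (hω.1.2 J hJ)⟩,
      fun r hr => lw_sc _ (hω.2 r hr)⟩)
    (fun ω hω => ⟨(B1.lam.tensor B0.lam).inv ω hω.1, fun r hr => lw_sc _ (hω.2 r hr)⟩)
    (fun ω => ⟨fun hω => ⟨⟨hω.1, fun r hr => hω.2 r (by omega)⟩, fun q => funext fun r => by
      rw [lwP_apply]
      split_ifs with c
      · rw [NS0.val_apply, hω.2 r c.ge, map_zero, smul_zero]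
        rfl
      · rfl⟩, fun hω => ⟨hω.1.1, fun r hr => by
      rcases hr.eq_or_lt with c | c
      · refine S.sep _ fun q => ?_
        have := congrFun (hω.2 q) r
        rw [lwP_apply, if_pos c.symm] at this
        exact lw_shs this
      · exact hω.1.2 r c⟩⟩)
    (fun ω _ q r => by
      have e : B.wt (un e0 e1 r) = (B1.lam.tensor B0.lam).w r := by
        show ∑ j ∈ un e0 e1 r, B.w j = ∑ b ∈ r.1, B1.w b + ∑ a ∈ r.2, B0.w a
        rw [sum_un h.disj, funext h.w0, funext h.w1]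
      rw [lwP_apply, lwP_apply, NS0.val_sc, e]
      split_ifs
      · simp only [zsmul_eq_mul]
        ring
      · simp)
    (fun p => ⟨1, by simp, fun ω hω => ⟨_, lw_down h hω, fun q => funext fun r => by
      rw [map_one, one_smul, NS0.val_apply, lwP_apply, lwP_apply]
      split_ifs
      · exact map_zsmul (S.ev q) _ _
      · exact map_zero _⟩⟩)
    (lw_up h ha)
  rwa [pow_zero, one_mul, one_mul, ← lw_chi] at e

theorem Spl.chi {B : Sub S σ} {B0 : Sub S σ0} {B1 : Sub S σ1} {e0 : σ0 ↪o σ} {e1 : σ1 ↪o σ}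
    (h : Spl B B0 B1 e0 e1) (k : ℕ) :
    PEq (B.lam.chi (piM σ k))
      (∑ q ∈ antidiagonal k, (B1.lam.tensor B0.lam).chi (piM σ1 q.1 ⊗ₖ piM σ0 q.2)) := by
  have key : ∀ a ≤ k + 1, PEq (S.hs B.wt (B.lamG ⊓ degS σ R k ⊓ lwF e0 e1 R a))
      (∑ i ∈ range a, (B1.lam.tensor B0.lam).chi (piM σ1 i ⊗ₖ piM σ0 (k - i))) := by
    intro a
    induction a with
    | zero =>
      have e : B.lamG ⊓ degS σ R k ⊓ lwF e0 e1 R 0 = ⊥ := eq_bot_iff.2 fun ω hω =>
        funext fun J => by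
          obtain ⟨r, rfl⟩ := (un_bij h.cover h.disj).2 J
          exact hω.2 r (Nat.zero_le _)
      rw [e, NS0.hs_bot, sum_range_zero]
      exact fun _ => PEq.refl _
    | succ a ih =>
      intro ha
      obtain ⟨p, hp⟩ := ih (by omega)
      refine (lw_step h (by omega)).trans ⟨p, ?_⟩
      rw [sum_range_succ, hp, add_right_comm]
  have e : B.lamG ⊓ degS σ R k ⊓ lwF e0 e1 R (k + 1) = B.lamG ⊓ degS σ R k :=
    inf_eq_left.2 fun ω hω r hr => hω.2 _ (by rw [card_un h.disj]; omega)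
  rw [Sub.chi_piM, Finset.Nat.sum_antidiagonal_eq_sum_range_succ_mk, ← e]
  exact key _ le_rfl

end Pool.Agent.HCF
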