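import Pool.Agent.P.MP_f644fa_ag.QA1a

/-! The upper bound for the product. -/

noncomputable section
namespace Pool.Agent.HCF
open Finset PowerSeries

theorem qa1_dvd {c n m : ℕ} {d : Fin c → ℂ} {h : Polynomial ℤ} (A : Ari c n d h)
    (hm : m + 2 * c ≤ n + 1) :
    (X : ℂ⟦X⟧) ^ m ∣ Ez h * ph 1 ^ c - C (∏ i, d i) * ∏ i, ph (d i) := by
  have h1 : Ez h * (1 - ex 1) ^ c - ∏ i, (1 - ex (d i)) =
      X ^ c * ((-1) ^ c * (Ez h * ph 1 ^ c - C (∏ i, d i) * ∏ i, ph (d i))) := by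
    simp only [one_sub_ex_eq, map_neg, map_one, map_prod, prod_mul_distrib, prod_neg, prod_const,
      card_univ, Fintype.card_fin, mul_pow]
    ring
  have h2 := (pow_dvd_pow (X : ℂ⟦X⟧) (show c + m ≤ n + 1 - c by omega)).trans A.rel
  rw [h1, pow_add, mul_dvd_mul_iff_left (pow_ne_zero c X_ne_zero)] at h2
  exact (isUnit_one.neg.pow c).dvd_mul_left.1 h2

theorem qa1_const (a : ℂ) : constantCoeff (ph a) = 1 := by
  rw [← coeff_zero_eq_constantCoeff_apply, ph, coeff_mk]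
  simp

theorem Ari.prod {c n : ℕ} {d : Fin c → ℂ} {h : Polynomial ℤ} (A : Ari c n d h)
    (hn : 2 * c ≤ n) : ∏ i, d i = ((h.eval 1 : ℤ) : ℂ) := by
  have h1 := qa1_dvd (m := 1) A (by omega)
  rw [pow_one, X_dvd_iff] at h1
  simp only [map_sub, map_mul, map_pow, map_prod, qa1_const, constantCoeff_Ez, constantCoeff_C,
    one_pow, mul_one, prod_const_one] at h1
  exact (sub_eq_zero.1 h1).symm

theorem qa1_mono {f : ℂ⟦X⟧} {T T' : ℝ} (hf : Mj f T) (h0 : 0 ≤ T) (h : T ≤ T') : Mj f T' :=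
  fun k => (hf k).trans (by gcongr)

theorem qa1_prod {ι : Type} (s : Finset ι) {F : ι → ℂ⟦X⟧} {T : ι → ℝ} (hF : ∀ i, Mj (F i) (T i))
    (hT : ∀ i, 0 ≤ T i) (w : ℂ) :
    Mj (∏ i ∈ s, F i) (∑ i ∈ s, T i) ∧ evs w (∏ i ∈ s, F i) = ∏ i ∈ s, evs w (F i) := by
  classical
  induction s using Finset.induction_on with
  | empty =>
    simp only [prod_empty, sum_empty]
    refine ⟨fun k => ?_, ?_⟩
    · cases k <;> simp [coeff_one]
    · rw [evs, tsum_eq_single 0 fun k hk => by simp [coeff_one, hk]]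
      simp
  | insert i s hi ih =>
    rw [prod_insert hi, sum_insert hi, prod_insert hi]
    have h0 : 0 ≤ ∑ i ∈ s, T i := sum_nonneg fun i _ => hT i
    exact ⟨(hF i).mul ih.1 (hT i) h0, by rw [(hF i).evs_mul ih.1 (hT i) h0, ih.2]⟩

theorem qa1_norm {f : ℂ⟦X⟧} {T : ℝ} (hf : Mj f T) (w : ℂ) :
    ‖evs w f‖ ≤ Real.exp (T * ‖w‖) := by
  rw [Real.exp_eq_exp_ℝ]
  refine tsum_of_norm_bounded (NormedSpace.expSeries_div_hasSum_exp (T * ‖w‖)) fun k => ?_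
  rw [norm_mul, norm_pow, mul_pow, mul_div_right_comm]
  exact mul_le_mul_of_nonneg_right (hf k) (by positivity)

theorem qa1_ex (a w : ℂ) : HasSum (fun k => coeff k (ex a) * w ^ k) (Complex.exp (a * w)) := by
  rw [Complex.exp_eq_exp_ℂ]
  have h : (fun k => coeff k (ex a) * w ^ k) = fun k => (a * w) ^ k / k.factorial := by
    funext k
    rw [coeff_ex, mul_pow, mul_div_right_comm]
  rw [h]
  exact NormedSpace.expSeries_div_hasSum_exp (a * w)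

theorem qa1_Ez {n : ℕ} {h : Polynomial ℤ} (hn : h.natDegree ≤ n) :
    Ez h = ∑ j ∈ range (n + 1), C ((h.coeff j : ℤ) : ℂ) * ex j := by
  conv_lhs => rw [Polynomial.as_sum_range' h (n + 1) (Nat.lt_succ_of_le hn)]
  rw [map_sum]
  refine sum_congr rfl fun j _ => ?_
  rw [← Polynomial.C_mul_X_pow_eq_monomial, map_mul, Ez_C, Ez_X_pow]

theorem qa1_avg {c n : ℕ} {d : Fin c → ℂ} {h : Polynomial ℤ} (A : Ari c n d h) (w : ℂ) :
    Mj (C (((h.eval 1 : ℤ) : ℂ)⁻¹) * Ez h) n ∧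
      ‖evs w (C (((h.eval 1 : ℤ) : ℂ)⁻¹) * Ez h)‖ ≤ Real.exp (n * max w.re 0) := by
  have hD : (0 : ℝ) < (h.eval 1 : ℤ) := by exact_mod_cast A.pos
  have hs : ((h.eval 1 : ℤ) : ℝ) = ∑ j ∈ range (n + 1), ((h.coeff j : ℤ) : ℝ) := by
    rw [Polynomial.eval_eq_sum_range' (Nat.lt_succ_of_le A.deg)]
    simp
  have hn : ∀ j, (0 : ℝ) ≤ (h.coeff j : ℤ) := fun j => by exact_mod_cast A.nn j
  have key : ∀ (z : ℕ → ℂ) (B : ℝ), (∀ j ≤ n, ‖z j‖ ≤ B) →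
      ‖((h.eval 1 : ℤ) : ℂ)⁻¹ * ∑ j ∈ range (n + 1), ((h.coeff j : ℤ) : ℂ) * z j‖ ≤ B := by
    intro z B hz
    rw [norm_mul, norm_inv, Complex.norm_intCast, abs_of_pos hD, inv_mul_le_iff₀ hD, hs, sum_mul]
    refine (norm_sum_le _ _).trans (sum_le_sum fun j hj => ?_)
    rw [norm_mul, Complex.norm_intCast, abs_of_nonneg (hn j)]
    exact mul_le_mul_of_nonneg_left (hz j (Nat.le_of_lt_succ (mem_range.1 hj))) (hn j)
  have hc : ∀ k, coeff k (C (((h.eval 1 : ℤ) : ℂ)⁻¹) * Ez h) = ((h.eval 1 : ℤ) : ℂ)⁻¹ *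
      ∑ j ∈ range (n + 1), ((h.coeff j : ℤ) : ℂ) * coeff k (ex j) := fun k => by
    rw [coeff_C_mul, qa1_Ez A.deg, map_sum]
    simp only [coeff_C_mul]
  refine ⟨fun k => ?_, ?_⟩
  · rw [hc]
    refine key _ _ fun j hj => ?_
    rw [coeff_ex, norm_div, norm_pow, Complex.norm_natCast, Complex.norm_natCast]
    gcongr
  · have h1 := (hasSum_sum (s := range (n + 1)) fun j _ =>
      (qa1_ex j w).mul_left ((h.coeff j : ℤ) : ℂ)).mul_left ((h.eval 1 : ℤ) : ℂ)⁻¹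
    have h2 : evs w (C (((h.eval 1 : ℤ) : ℂ)⁻¹) * Ez h) = ((h.eval 1 : ℤ) : ℂ)⁻¹ *
        ∑ j ∈ range (n + 1), ((h.coeff j : ℤ) : ℂ) * Complex.exp (j * w) := by
      rw [evs, ← h1.tsum_eq]
      refine tsum_congr fun k => ?_
      rw [hc, mul_assoc, sum_mul]
      simp only [mul_assoc]
    rw [h2]
    refine key _ _ fun j hj => ?_
    rw [Complex.norm_exp, Real.exp_le_exp, Complex.mul_re, Complex.natCast_re, Complex.natCast_im,
      zero_mul, sub_zero]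
    calc (j : ℝ) * w.re ≤ j * max w.re 0 := by gcongr; exact le_max_left _ _
      _ ≤ n * max w.re 0 := by gcongr

theorem Ari.upper {c n m : ℕ} {d : Fin c → ℂ} {h : Polynomial ℤ} (A : Ari c n d h) (hc : 1 ≤ c)
    (hm : m + 2 * c = n + 1) (h1 : 1 ≤ m) {T : ℝ} (hT : ∑ i, ‖d i‖ ≤ T) (hT' : (n : ℝ) + c ≤ T)
    {w : ℂ} (hw : T * ‖w‖ ≤ m / 8) :
    ∏ i, ‖Complex.exp (d i * w) - 1‖ ≤
      (∏ i, ‖d i * w‖) * Real.exp (n * max w.re 0 + c / 8 + 1) := by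
  have hD : ((h.eval 1 : ℤ) : ℂ) ≠ 0 := by exact_mod_cast A.pos.ne'
  have hn0 : (0 : ℝ) ≤ n := Nat.cast_nonneg n
  have hc0 : (0 : ℝ) ≤ c := Nat.cast_nonneg c
  have hmT : (m : ℝ) ≤ T := le_trans (by exact_mod_cast (by omega : m ≤ n + c)) hT'
  have hm0 : (0 : ℝ) < m := by exact_mod_cast h1
  have hT0 : 0 < T := hm0.trans_le hmT
  have hw1 : ‖w‖ ≤ 1 / 8 := le_of_mul_le_mul_left (by linarith) hT0
  obtain ⟨f1, f2⟩ := qa1_prod univ (fun i => mj_ph (d i)) (fun i => norm_nonneg _) w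
  obtain ⟨g1, g2⟩ := qa1_avg A w
  have g3 : Mj (ph 1 ^ c) c := by
    have := (qa1_prod (univ : Finset (Fin c)) (fun _ => mj_ph 1) (fun _ => norm_nonneg _) w).1
    simpa using this
  have g4 : ‖evs w (ph 1 ^ c)‖ ≤ Real.exp (c / 8) :=
    (qa1_norm g3 w).trans (Real.exp_le_exp.2 (by nlinarith))
  have hdv : (X : ℂ⟦X⟧) ^ m ∣ ∏ i, ph (d i) - C (((h.eval 1 : ℤ) : ℂ)⁻¹) * Ez h * ph 1 ^ c := by
    have h2 := (qa1_dvd A hm.le).mul_left (-C (((h.eval 1 : ℤ) : ℂ)⁻¹))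
    have h3 : (C (((h.eval 1 : ℤ) : ℂ)⁻¹) : ℂ⟦X⟧) * C (∏ i, d i) = 1 := by
      rw [← map_mul, A.prod (by omega), inv_mul_cancel₀ hD, map_one]
    refine h2.trans (dvd_of_eq ?_)
    linear_combination (∏ i, ph (d i)) * h3
  have ht := (qa1_mono f1 (sum_nonneg fun i _ => norm_nonneg _) hT).tail
    (qa1_mono (g1.mul g3 hn0 hc0) (by positivity) hT') hT0.le h1 hdv hw
  rw [g1.evs_mul g3 hn0 hc0] at ht
  have hg : ‖evs w (C (((h.eval 1 : ℤ) : ℂ)⁻¹) * Ez h) * evs w (ph 1 ^ c)‖ ≤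
      Real.exp (n * max w.re 0 + c / 8) := by
    rw [norm_mul, Real.exp_add]
    exact mul_le_mul g2 g4 (norm_nonneg _) (Real.exp_nonneg _)
  have hE : 1 ≤ Real.exp (n * max w.re 0 + c / 8) := Real.one_le_exp (by positivity)
  have hf : ‖evs w (∏ i, ph (d i))‖ ≤ Real.exp (n * max w.re 0 + c / 8 + 1) := by
    have h2 := norm_le_norm_add_norm_sub' (evs w (∏ i, ph (d i)))
      (evs w (C (((h.eval 1 : ℤ) : ℂ)⁻¹) * Ez h) * evs w (ph 1 ^ c))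
    have h3 := Real.add_one_le_exp 1
    rw [Real.exp_add _ 1]
    nlinarith
  simp only [← evs_ph, norm_mul (evs w _)]
  rw [prod_mul_distrib, mul_comm, ← norm_prod _ (fun i => evs w (ph (d i))), ← f2]
  exact mul_le_mul_of_nonneg_left hf (prod_nonneg fun i _ => norm_nonneg _)

end Pool.Agent.HCF
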