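import Pool.Agent.P.MP_f644fa_ag.QA10
import Pool.Agent.P.MP_f644fa_ag.QA1

/-! Integer roots are positive and the relation is exact. -/

noncomputable section
namespace Pool.Agent.HCF
open Finset Polynomial

variable {c n η θ j₀ : ℕ} {d : Fin c → ℂ} {h : ℤ[X]}

theorem qa12_deg (k : ℕ) : (1 - X ^ k : ℤ[X]).natDegree ≤ k :=
  (natDegree_sub_le _ _).trans (by simp)

theorem qa12_deg' {k : ℕ} (_hk : k ≠ 0) : (1 - X ^ k : ℤ[X]).natDegree = k := by
  rw [← neg_sub, natDegree_neg, ← C_1]
  exact natDegree_X_pow_sub_C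

theorem qa12_pow (k : ℕ) : ((1 - X) ^ k : ℤ[X]).natDegree ≤ k := by
  refine natDegree_pow_le.trans ?_
  have := qa12_deg 1
  rw [pow_one] at this
  simpa using Nat.mul_le_mul_left k this

theorem qa12_neg (a : ℤ) : (((-a).toNat : ℕ) : ℝ) = max (-(a : ℝ)) 0 := by
  have h1 : (((-a).toNat : ℕ) : ℤ) = max (-a) 0 := Int.toNat_eq_max _
  rw [← Int.cast_natCast, h1, Int.cast_max, Int.cast_neg, Int.cast_zero]

theorem qa12_abs (a : ℤ) : ((a.natAbs : ℕ) : ℝ) = max (a : ℝ) 0 + max (-(a : ℝ)) 0 := by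
  rw [Nat.cast_natAbs, Int.cast_abs]
  rcases le_total 0 (a : ℝ) with k | k
  · rw [abs_of_nonneg k, max_eq_left k, max_eq_right (by linarith), add_zero]
  · rw [abs_of_nonpos k, max_eq_right k, max_eq_left (by linarith), zero_add]

theorem Ari.exact (A : Ari c n d h) (hL : Loc n η d) (hη : η ≤ θ) (hn : 100 * θ ≤ n)
    (hj : h.eval 1 < 2 ^ j₀) (hθ : c + j₀ + 1 ≤ θ) (hi : ∀ i, IsInt (d i)) :
    ∃ β : Fin c → ℕ, (∀ i, d i = β i + 1) ∧ ∑ i, β i ≤ n ∧
      h * (1 - X) ^ c = ∏ i, (1 - X ^ (β i + 1)) := by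
  choose z hz using hi
  have hz0 : ∀ i, z i ≠ 0 := fun i e => by
    have h1 := A.prod (by omega)
    rw [prod_eq_zero (mem_univ i) (by rw [hz, e, Int.cast_zero])] at h1
    exact A.pos.ne (by exact_mod_cast h1)
  obtain ⟨ε, hε, hP⟩ := prod_int univ z
  set M := ∑ i, (-z i).toNat with hM
  set P : ℤ[X] := ∏ i, (1 - X ^ (z i).natAbs) with hPd
  have hre : ∀ i, (d i).re = (z i : ℝ) := fun i => by rw [hz, Complex.intCast_re]
  have hp := hL.pos
  have hq := hL.neg
  simp only [hre] at hp hq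
  have hMη : M ≤ η := by
    have : (M : ℝ) ≤ η := by
      rw [hM, Nat.cast_sum]
      simpa only [qa12_neg] using hq
    exact_mod_cast this
  have hS : ∑ i, (z i).natAbs ≤ n + 2 * η := by
    have : ((∑ i, (z i).natAbs : ℕ) : ℝ) ≤ n + 2 * η := by
      rw [Nat.cast_sum]
      simp only [qa12_abs, sum_add_distrib]
      linarith
    exact_mod_cast this
  have hdP : P.natDegree ≤ ∑ i, (z i).natAbs :=
    (natDegree_prod_le _ _).trans (sum_le_sum fun i _ => qa12_deg _)
  have hdh : (h * (1 - X) ^ c).natDegree ≤ n + c :=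
    natDegree_mul_le.trans (add_le_add A.deg (qa12_pow c))
  have hf : C ε * P - X ^ M * (h * (1 - X) ^ c) = 0 := by
    refine eq_zero_of_order (k := n + 1 - c) (r := 3 * θ) (θ := θ) ?_ ?_ ?_ (by omega)
    · have h1 := A.rel
      simp only [hz] at h1
      rw [map_sub, ← hP, map_mul, map_mul, map_pow Ez (1 - X), map_sub, map_one, Ez_X_pow, Ez_X,
        ← mul_sub, ← neg_sub, mul_neg]
      exact (h1.mul_left _).neg_right
    · refine (natDegree_sub_le _ _).trans (max_le ?_ ?_)
      · refine (natDegree_C_mul_le _ _).trans ?_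
        omega
      · refine natDegree_mul_le.trans ?_
        rw [natDegree_X_pow]
        omega
    · refine (((bd_C ε).mul (bd_prod univ fun i => (z i).natAbs)).sub
        ((bd_X_pow M).mul ((bd_self A.nn).mul (bd_pow c)))).mono ?_
      have h1 : |ε| = 1 := by rcases hε with e | e <;> simp [e]
      rw [h1, card_univ, Fintype.card_fin]
      have h2 : (2 : ℤ) ^ (c + j₀) ≤ 2 ^ θ := pow_le_pow_right₀ one_le_two (by omega)
      have h3 : (0 : ℤ) < 2 ^ c := by positivity
      rw [pow_add] at h2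
      nlinarith
  rw [sub_eq_zero] at hf
  have h0 := congrArg (eval 0) hf
  have hP0 : P.eval 0 = 1 := by
    rw [hPd, eval_prod]
    refine prod_eq_one fun i _ => ?_
    simp [hz0 i]
  simp only [eval_mul, eval_C, hP0, eval_pow, eval_X, eval_sub, eval_one, sub_zero, one_pow,
    mul_one] at h0
  have hM0 : M = 0 := by
    by_contra k
    rw [zero_pow k, zero_mul] at h0
    omega
  have hε1 : ε = 1 := by
    have := A.nn 0
    rw [hM0, pow_zero, one_mul, ← coeff_zero_eq_eval_zero] at h0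
    omega
  have hpos : ∀ i, 0 < z i := fun i => by
    have := (sum_eq_zero_iff.1 (hM.symm.trans hM0)) i (mem_univ i)
    have := hz0 i
    omega
  have hβ : ∀ i, (z i).natAbs - 1 + 1 = (z i).natAbs := fun i => by
    have := hz0 i
    omega
  rw [hε1, hM0, map_one, one_mul, pow_zero, one_mul] at hf
  refine ⟨fun i => (z i).natAbs - 1, fun i => ?_, ?_, ?_⟩
  · have h1 : z i = (((z i).natAbs - 1 : ℕ) : ℤ) + 1 := by
      have := hpos i
      omega
    rw [hz]
    exact_mod_cast h1
  · have h1 : P.natDegree = ∑ i, (z i).natAbs := by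
      rw [hPd, natDegree_prod]
      · exact sum_congr rfl fun i _ => qa12_deg' (Int.natAbs_ne_zero.2 (hz0 i))
      · intro i _ e
        have := qa12_deg' (Int.natAbs_ne_zero.2 (hz0 i))
        rw [e, natDegree_zero] at this
        exact Int.natAbs_ne_zero.2 (hz0 i) this.symm
    have h2 : ∑ i, (z i).natAbs = ∑ i, ((z i).natAbs - 1) + c := by
      rw [← sum_congr rfl fun i _ => hβ i, sum_add_distrib]
      simp
    rw [hf] at h1
    beta_reduce
    omega
  · simp only [hβ]
    exact hf.symm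

end Pool.Agent.HCF
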