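import Pool.Agent.P.MP_f644fa_ag.QA0

/-! The ring lemma. -/

noncomputable section
namespace Pool.Agent.HCF
open Finset PowerSeries

theorem qa3_pow (e : ℕ) : ∃ v : ℂ⟦X⟧,
    Ez ((Polynomial.X - Polynomial.C 1) ^ e) = X ^ e * v ∧ constantCoeff v = 1 := by
  obtain ⟨u, hu, hu'⟩ := one_sub_ex 1
  have h1 : Ez (Polynomial.X - Polynomial.C 1) = X * -u := by
    rw [map_sub, Ez_X, Polynomial.C_1, map_one, mul_neg, ← hu]
    ring
  refine ⟨(-u) ^ e, by rw [map_pow, h1, mul_pow], ?_⟩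
  rw [map_pow, map_neg, hu', neg_neg, one_pow]

theorem qa3_coeff (e : ℕ) (u : ℂ⟦X⟧) : coeff e ((X : ℂ⟦X⟧) ^ e * u) = constantCoeff u := by
  rw [coeff_X_pow_mul', if_pos le_rfl, Nat.sub_self, coeff_zero_eq_constantCoeff_apply]

theorem qa3_mem {R : Subring ℂ⟦X⟧} (h1 : ex 1 ∈ R) (G : Polynomial ℤ) : Ez G ∈ R := by
  induction G using Polynomial.induction_on' with
  | add p q hp hq => rw [map_add]; exact R.add_mem hp hq
  | monomial n a =>
    rw [← Polynomial.C_mul_X_pow_eq_monomial, map_mul, map_pow, Ez_X, Ez_C, map_intCast]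
    exact R.mul_mem (intCast_mem R a) (R.pow_mem h1 n)

theorem qa3_rat {a : ℂ} {D : ℤ} {j : ℕ} (h0 : 0 < D) (h1 : D < 2 ^ j) (ha : IsInt (a ^ 1 * D))
    (hb : IsInt (a ^ j * D)) : IsInt a := by
  obtain ⟨m, hm⟩ := ha
  obtain ⟨m', hm'⟩ := hb
  have hD : (D : ℂ) ≠ 0 := by exact_mod_cast h0.ne'
  have hDq : (D : ℚ) ≠ 0 := by exact_mod_cast h0.ne'
  have hq : a = (((m : ℚ) / D : ℚ) : ℂ) := by
    push_cast
    rw [eq_div_iff hD, ← hm, pow_one]
  generalize (m : ℚ) / D = q at hq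
  have h2 : q ^ j = (m' : ℚ) / D := by
    rw [eq_div_iff hDq]
    rw [hq] at hm'
    exact_mod_cast hm'
  have h3 : (((q ^ j).den : ℕ) : ℤ) ∣ D := by
    rw [h2, ← Rat.divInt_eq_div]
    exact Rat.den_dvd m' D
  rw [Rat.den_pow] at h3
  have h4 := Int.le_of_dvd h0 h3
  have h5 : q.den ^ j < 2 ^ j := by exact_mod_cast h4.trans_lt h1
  have h6 : q.den < 2 := lt_of_pow_lt_pow_left₀ j (by norm_num) h5
  have h7 : q.den = 1 := by have := q.den_pos; omega
  refine ⟨q.num, ?_⟩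
  rw [hq, ← Rat.coe_int_num_of_den_eq_one h7]
  simp

/-- the linear form dual to a polynomial -/
def qa3L (P : Polynomial ℂ) (K : ℕ) : ℂ⟦X⟧ →ₗ[ℂ] ℂ :=
  ∑ k ∈ range K, (P.coeff k * k.factorial) • (coeff k : ℂ⟦X⟧ →ₗ[ℂ] ℂ)

theorem qa3L_apply (P : Polynomial ℂ) (K : ℕ) (f : ℂ⟦X⟧) :
    qa3L P K f = ∑ k ∈ range K, (P.coeff k * k.factorial) * coeff k f := by
  rw [qa3L, LinearMap.sum_apply]
  rfl

theorem qa3L_ex {P : Polynomial ℂ} {K : ℕ} (hP : P.natDegree < K) (z : ℂ) :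
    qa3L P K (ex z) = P.eval z := by
  rw [qa3L_apply, Polynomial.eval_eq_sum_range' hP]
  refine sum_congr rfl fun k _ => ?_
  have : (k.factorial : ℂ) ≠ 0 := by exact_mod_cast k.factorial_ne_zero
  rw [coeff_ex]
  field_simp

theorem qa3L_C (P : Polynomial ℂ) (K : ℕ) (a : ℂ) (f : ℂ⟦X⟧) :
    qa3L P K (C a * f) = a * qa3L P K f := by
  rw [← smul_eq_C_mul, map_smul, smul_eq_mul]

theorem qa3_pascal (z : ℂ) (k : ℕ) : bin (z + 1) (k + 1) = bin z (k + 1) + bin z k := by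
  have h : ∏ j ∈ range k, (z + 1 - ((j + 1 : ℕ) : ℂ)) = ∏ j ∈ range k, (z - j) :=
    prod_congr rfl fun j _ => by push_cast; ring
  have h1 : (k.factorial : ℂ) ≠ 0 := by exact_mod_cast k.factorial_ne_zero
  have h2 : ((k : ℂ) + 1) ≠ 0 := by exact_mod_cast k.succ_ne_zero
  rw [bin, bin, bin, prod_range_succ', h, prod_range_succ, Nat.factorial_succ]
  push_cast
  field_simp
  ring

theorem lead_int {G : Polynomial ℤ} {e : ℕ} (h : (X : ℂ⟦X⟧) ^ e ∣ Ez G) :
    IsInt (coeff e (Ez G)) := by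
  rw [Ez_apply, Ex_dvd_iff] at h
  have h1 : ((Polynomial.X - Polynomial.C (1 : ℤ)) ^ e).map (Int.castRingHom ℂ) ∣
      G.map (Int.castRingHom ℂ) := by
    refine Dvd.dvd.trans ?_ h
    rw [Polynomial.map_pow]
    refine pow_dvd_pow_of_dvd ⟨-1, ?_⟩ e
    simp
  obtain ⟨q, rfl⟩ := (Polynomial.map_dvd_map (Int.castRingHom ℂ) Int.cast_injective
    ((Polynomial.monic_X_sub_C (1 : ℤ)).pow e)).1 h1
  obtain ⟨v, hv, hv'⟩ := qa3_pow e
  rw [map_mul, hv, mul_assoc, qa3_coeff, map_mul, hv', one_mul, constantCoeff_Ez]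
  exact isInt_int _

theorem IntTo.lead {K e : ℕ} {r : ℂ⟦X⟧} (h : IntTo K r) (he : e < K) (h0 : (X : ℂ⟦X⟧) ^ e ∣ r) :
    IsInt (coeff e r) := by
  obtain ⟨G, hG⟩ := h
  have h1 : (X : ℂ⟦X⟧) ^ e ∣ Ez G := by
    have := dvd_sub h0 ((pow_dvd_pow _ he.le).trans hG)
    rwa [sub_sub_cancel] at this
  have h2 := X_pow_dvd_iff.1 hG e he
  rw [map_sub, sub_eq_zero] at h2
  rw [h2]
  exact lead_int h1

theorem Rng.strong {L K j₀ : ℕ} {h : Polynomial ℤ} {R : Subring ℂ⟦X⟧} (hR : Rng L h R)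
    (h0 : 0 < h.eval 1) (h1 : h.eval 1 < 2 ^ j₀) (hK : K * j₀ ≤ L) : ∀ r ∈ R, IntTo K r := by
  intro r hr
  have hj : 1 ≤ j₀ := by
    rcases Nat.eq_zero_or_pos j₀ with h2 | h2
    · rw [h2, pow_zero] at h1
      omega
    · exact h2
  have key : ∀ k ≤ K, IntTo k r := by
    intro k
    induction k with
    | zero => exact fun _ => ⟨0, by rw [pow_zero]; exact one_dvd _⟩
    | succ k ih =>
      intro hk
      obtain ⟨G, u, hu⟩ := ih (Nat.le_of_succ_le hk)
      have hm : r - Ez G ∈ R := R.sub_mem hr (qa3_mem hR.one G)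
      have hi : ∀ j ≤ j₀, IsInt (constantCoeff u ^ j * ((h.eval 1 : ℤ) : ℂ)) := by
        intro j hj'
        have e1 : (r - Ez G) ^ j * Ez h = X ^ (k * j) * (u ^ j * Ez h) := by
          rw [hu, mul_pow, ← pow_mul, mul_assoc]
        have hlt : k * j < L := by
          have a1 : k * j ≤ k * j₀ := Nat.mul_le_mul_left k hj'
          have a2 : (k + 1) * j₀ ≤ K * j₀ := Nat.mul_le_mul_right j₀ hk
          rw [add_mul, one_mul] at a2
          omega
        have := (hR.int _ (R.pow_mem hm j)).lead hlt ⟨_, e1⟩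
        rwa [e1, qa3_coeff, map_mul, map_pow, constantCoeff_Ez] at this
      obtain ⟨a, ha⟩ := qa3_rat h0 h1 (hi 1 hj) (hi j₀ le_rfl)
      obtain ⟨v, hv, hv'⟩ := qa3_pow k
      refine ⟨G + Polynomial.C a * (Polynomial.X - Polynomial.C 1) ^ k, ?_⟩
      have e2 : r - Ez (G + Polynomial.C a * (Polynomial.X - Polynomial.C 1) ^ k) =
          X ^ k * (u - C (a : ℂ) * v) := by
        rw [map_add, map_mul, hv, Ez_C, ← sub_sub, hu]
        ring
      rw [e2, pow_succ]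
      refine mul_dvd_mul_left _ (X_dvd_iff.2 ?_)
      rw [map_sub, map_mul, hv', constantCoeff_C, ha, mul_one, sub_self]
  exact key K le_rfl

theorem intTo_weak {L : ℕ} {h : Polynomial ℤ} {r : ℂ⟦X⟧} (hr : IntTo L (r * Ez h)) :
    IntTo L (C (((h.eval 1 : ℤ) : ℂ) ^ L) * r) := by
  obtain ⟨G, hG⟩ := hr
  obtain ⟨Q, hQ⟩ := sub_dvd_pow_sub_pow (Polynomial.C (h.eval 1))
    (Polynomial.C (h.eval 1) - h) L
  rw [sub_sub_cancel] at hQ
  have h1 := congrArg Ez hQ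
  rw [map_sub, map_pow, map_pow, map_mul, Ez_C] at h1
  have h2 : (X : ℂ⟦X⟧) ∣ Ez (Polynomial.C (h.eval 1) - h) := by
    rw [X_dvd_iff, constantCoeff_Ez]
    simp
  refine ⟨G * Q, ?_⟩
  have e : C (((h.eval 1 : ℤ) : ℂ) ^ L) * r - Ez (G * Q) =
      (r * Ez h - Ez G) * Ez Q + Ez (Polynomial.C (h.eval 1) - h) ^ L * r := by
    rw [map_pow, map_mul, sub_eq_iff_eq_add.1 h1]
    ring
  rw [e]
  exact dvd_add (hG.mul_right _) ((pow_dvd_pow_of_dvd h2 L).mul_right _)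

theorem IntTo.sum_eval {K c : ℕ} {d : Fin c → ℂ} {a : ℂ} (h : IntTo K (C a * ∑ i, ex (d i)))
    (P : Polynomial ℂ) (hP : P.natDegree < K) (hi : ∀ j : ℕ, IsInt (P.eval (j : ℂ))) :
    IsInt (a * ∑ i, P.eval (d i)) := by
  obtain ⟨G, hG⟩ := h
  have h1 : qa3L P K (C a * ∑ i, ex (d i) - Ez G) = 0 := by
    rw [qa3L_apply]
    exact sum_eq_zero fun k hk => by rw [X_pow_dvd_iff.1 hG k (mem_range.1 hk), mul_zero]
  have h2 : ∀ G : Polynomial ℤ, IsInt (qa3L P K (Ez G)) := by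
    intro G
    induction G using Polynomial.induction_on' with
    | add p q hp hq => rw [map_add, map_add]; exact hp.add hq
    | monomial n b =>
      rw [← Polynomial.C_mul_X_pow_eq_monomial, map_mul, Ez_X_pow, Ez_C, qa3L_C, qa3L_ex hP]
      exact (isInt_int b).mul (hi n)
  rw [map_sub, sub_eq_zero, qa3L_C, map_sum] at h1
  simp only [qa3L_ex hP] at h1
  rw [h1]
  exact h2 G

theorem isInt_bin (a : ℤ) (k : ℕ) : IsInt (bin a k) := by
  induction k generalizing a with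
  | zero => exact ⟨1, by simp [bin]⟩
  | succ k ih =>
    induction a using Int.induction_on with
    | zero => exact ⟨0, by simp [bin, prod_range_succ']⟩
    | succ i hi =>
      rw [Int.cast_add, Int.cast_one, qa3_pascal]
      exact hi.add (ih _)
    | pred i hi =>
      have h := qa3_pascal ((-(i : ℤ) - 1 : ℤ) : ℂ) k
      have e : ((-(i : ℤ) - 1 : ℤ) : ℂ) + 1 = ((-(i : ℤ) : ℤ) : ℂ) := by push_cast; ring
      rw [e] at h
      rw [eq_sub_of_add_eq h.symm]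
      exact hi.sub (ih _)

theorem IntTo.sum_bin {K c : ℕ} {d : Fin c → ℂ} {a : ℂ} (h : IntTo K (C a * ∑ i, ex (d i)))
    (b : ℤ) {j k : ℕ} (hk : j + k < K) : IsInt (a * ∑ i, d i ^ j * bin (d i + b) k) := by
  have hev : ∀ z : ℂ, (Polynomial.X ^ j * (Polynomial.C ((k.factorial : ℂ)⁻¹) *
      ∏ i ∈ range k, (Polynomial.X + Polynomial.C ((b : ℂ) - i)))).eval z =
      z ^ j * bin (z + b) k := by
    intro z
    rw [Polynomial.eval_mul, Polynomial.eval_mul, Polynomial.eval_pow, Polynomial.eval_X,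
      Polynomial.eval_C, Polynomial.eval_prod, bin, div_eq_inv_mul]
    congr 2
    refine prod_congr rfl fun i _ => ?_
    rw [Polynomial.eval_add, Polynomial.eval_X, Polynomial.eval_C, add_sub_assoc]
  have hdeg : (Polynomial.X ^ j * (Polynomial.C ((k.factorial : ℂ)⁻¹) *
      ∏ i ∈ range k, (Polynomial.X + Polynomial.C ((b : ℂ) - i)))).natDegree < K := by
    refine lt_of_le_of_lt (Polynomial.natDegree_mul_le.trans (add_le_add
      (Polynomial.natDegree_X_pow_le j) ((Polynomial.natDegree_C_mul_le _ _).trans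
        ((Polynomial.natDegree_prod_le _ _).trans ?_)))) hk
    simp only [Polynomial.natDegree_X_add_C, sum_const, card_range, smul_eq_mul, mul_one, le_refl]
  have := h.sum_eval _ hdeg fun m => by
    rw [hev]
    refine IsInt.mul ⟨(m : ℤ) ^ j, by push_cast; rfl⟩ ?_
    have := isInt_bin ((m : ℤ) + b) k
    rwa [Int.cast_add, Int.cast_natCast] at this
  simpa only [hev] using this

end Pool.Agent.HCF
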