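import Pool.Agent.P.MP_f644fa_ag.QA3

/-! The roots are algebraic integers; isolation of one root. -/

noncomputable section
namespace Pool.Agent.HCF
open Finset PowerSeries

theorem qa4_coeff {A : Type} [CommRing A] {c : ℕ} (y : Fin c → A) {k : ℕ} (hk : k ≤ c) :
    (∏ i, (Polynomial.X + Polynomial.C (y i))).coeff k =
      ∑ J ∈ powersetCard (c - k) (univ : Finset (Fin c)), ∏ j ∈ J, y j := by
  rw [Finset.prod_X_add_C_coeff _ _ (by simpa using hk), card_univ, Fintype.card_fin]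

theorem qa4_deg {A ι : Type} [CommRing A] [Nontrivial A] (t : Finset ι) (y : ι → A) :
    (∏ i ∈ t, (Polynomial.X + Polynomial.C (y i))).natDegree ≤ t.card := by
  refine (Polynomial.natDegree_prod_le _ _).trans ?_
  simp only [Polynomial.natDegree_X_add_C, sum_const, smul_eq_mul, mul_one, le_refl]

theorem qa4_gt {A : Type} [CommRing A] [Nontrivial A] {c : ℕ} (y : Fin c → A) {k : ℕ}
    (hk : c < k) : (∏ i, (Polynomial.X + Polynomial.C (y i))).coeff k = 0 :=
  Polynomial.coeff_eq_zero_of_natDegree_lt ((qa4_deg _ y).trans_lt (by simpa using hk))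

theorem qa4_taylor {A ι : Type} [CommRing A] (t : Finset ι) (y : ι → A) (z : A) :
    Polynomial.taylor z (∏ i ∈ t, (Polynomial.X + Polynomial.C (y i))) =
      ∏ i ∈ t, (Polynomial.X + Polynomial.C (z + y i)) := by
  rw [Polynomial.taylor_apply, Polynomial.prod_comp]
  refine prod_congr rfl fun i _ => ?_
  rw [Polynomial.add_comp, Polynomial.X_comp, Polynomial.C_comp, Polynomial.C_add, add_assoc]

theorem chi_int {c : ℕ} {d : Fin c → ℂ} {R : Subring ℂ⟦X⟧} (h1 : ∀ k, esy d k ∈ R)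
    (h2 : ∀ r ∈ R, IntTo (c + 1) r) : ∃ χ : Polynomial ℤ,
      χ.map (Int.castRingHom ℂ) = ∏ i, (Polynomial.X - Polynomial.C (d i)) := by
  have hP : ∏ i, (Polynomial.X + Polynomial.C (-ex (d i))) ∈ Polynomial.lifts R.subtype := by
    rw [Polynomial.lifts_iff_coeff_lifts]
    intro k
    rcases le_or_gt k c with hk | hk
    · rw [qa4_coeff _ hk, ls0_neg, ← ls0_esy]
      exact ⟨⟨_, mul_mem (pow_mem (neg_mem (one_mem R)) _) (h1 _)⟩, rfl⟩
    · rw [qa4_gt _ hk]
      exact ⟨0, rfl⟩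
  obtain ⟨q, hq⟩ := (Polynomial.mem_lifts _).1 hP
  have hT : (Polynomial.taylor 1 q).map R.subtype =
      ∏ i, (Polynomial.X + Polynomial.C (1 - ex (d i))) := by
    rw [Polynomial.map_taylor, hq, map_one, qa4_taylor]
    simp only [sub_eq_add_neg]
  choose u hu hu0 using fun i => one_sub_ex (d i)
  refine (Polynomial.mem_lifts _).1 ((Polynomial.lifts_iff_coeff_lifts _).2 fun k => ?_)
  simp only [sub_eq_add_neg, ← Polynomial.C_neg]
  rcases le_or_gt k c with hk | hk
  · have e1 : ((Polynomial.taylor 1 q).coeff k : ℂ⟦X⟧) =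
        X ^ (c - k) * ∑ J ∈ powersetCard (c - k) (univ : Finset (Fin c)), ∏ j ∈ J, u j := by
      have := congrArg (fun p => p.coeff k) hT
      simp only [Polynomial.coeff_map, Subring.subtype_apply] at this
      rw [this, qa4_coeff _ hk, mul_sum]
      refine sum_congr rfl fun J hJ => ?_
      simp only [hu]
      rw [prod_mul_distrib, prod_const, (mem_powersetCard.1 hJ).2]
    obtain ⟨a, ha⟩ := (h2 _ ((Polynomial.taylor 1 q).coeff k).2).lead (e := c - k) (by omega)
      ⟨_, e1⟩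
    refine ⟨a, ?_⟩
    rw [e1, coeff_X_pow_mul', if_pos le_rfl, Nat.sub_self, coeff_zero_eq_constantCoeff, map_sum] at ha
    simp only [map_prod, hu0] at ha
    rw [qa4_coeff _ hk, ha]
    rfl
  · rw [qa4_gt _ hk]
    exact ⟨0, map_zero _⟩

theorem chi_monic {c : ℕ} {d : Fin c → ℂ} {χ : Polynomial ℤ}
    (h : χ.map (Int.castRingHom ℂ) = ∏ i, (Polynomial.X - Polynomial.C (d i))) : χ.Monic := by
  refine Polynomial.monic_of_injective (f := Int.castRingHom ℂ) Int.cast_injective ?_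
  rw [h]
  exact Polynomial.monic_prod_of_monic _ _ fun i _ => Polynomial.monic_X_sub_C _

theorem qa4_aeval (z : ℂ) (p : Polynomial ℤ) :
    Polynomial.aeval z p = (p.map (Int.castRingHom ℂ)).eval z := by
  rw [Polynomial.aeval_def, Polynomial.eval_map]
  rfl

theorem chi_root {c : ℕ} {d : Fin c → ℂ} {χ : Polynomial ℤ}
    (h : χ.map (Int.castRingHom ℂ) = ∏ i, (Polynomial.X - Polynomial.C (d i))) (z : ℂ) :
    Polynomial.aeval z χ = 0 ↔ ∃ i, z = d i := by
  rw [qa4_aeval, h, Polynomial.eval_prod, prod_eq_zero_iff]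
  simp only [mem_univ, true_and, Polynomial.eval_sub, Polynomial.eval_X, Polynomial.eval_C,
    sub_eq_zero]

theorem chi_integral {c : ℕ} {d : Fin c → ℂ} {χ : Polynomial ℤ}
    (h : χ.map (Int.castRingHom ℂ) = ∏ i, (Polynomial.X - Polynomial.C (d i))) (i : Fin c) :
    IsIntegral ℤ (d i) := by
  exact ⟨χ, chi_monic h, (chi_root h (d i)).2 ⟨i, rfl⟩⟩

theorem chi_sum {c : ℕ} {d : Fin c → ℂ} {χ : Polynomial ℤ}
    (h : χ.map (Int.castRingHom ℂ) = ∏ i, (Polynomial.X - Polynomial.C (d i))) :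
    IsInt (∑ i, d i) := by
  have h1 := Polynomial.nextCoeff_map (f := Int.castRingHom ℂ) Int.cast_injective χ
  rw [h, Polynomial.prod_X_sub_C_nextCoeff, neg_eq_iff_eq_neg] at h1
  exact ⟨-χ.nextCoeff, by rw [h1]; simp⟩

theorem qa4_hasse (k : ℕ) (p : Polynomial ℤ) :
    (Polynomial.hasseDeriv k p).map (Int.castRingHom ℂ) =
      Polynomial.hasseDeriv k (p.map (Int.castRingHom ℂ)) := by
  ext n
  simp [Polynomial.coeff_map, Polynomial.hasseDeriv_coeff]

theorem qa4_norm {ι : Type} (t : Finset ι) (a : ι → ℂ) (k : ℕ) :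
    ‖(∏ i ∈ t, (Polynomial.X + Polynomial.C (a i))).coeff k‖ ≤ ∏ i ∈ t, (1 + ‖a i‖) := by
  classical
  induction t using Finset.induction_on generalizing k with
  | empty =>
    rw [prod_empty, prod_empty, Polynomial.coeff_one]
    split_ifs <;> simp
  | insert i t hi ih =>
    rw [prod_insert hi, prod_insert hi, add_mul, Polynomial.coeff_add, Polynomial.coeff_C_mul,
      add_mul, one_mul]
    refine (norm_add_le _ _).trans (add_le_add ?_ ?_)
    · cases k with
      | zero =>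
        rw [Polynomial.coeff_X_mul_zero, norm_zero]
        exact (norm_nonneg _).trans (ih 0)
      | succ k =>
        rw [Polynomial.coeff_X_mul]
        exact ih k
    · rw [norm_mul]
      exact mul_le_mul_of_nonneg_left (ih k) (norm_nonneg _)

theorem isolate {c : ℕ} {d : Fin c → ℂ} {χ : Polynomial ℤ}
    (h : χ.map (Int.castRingHom ℂ) = ∏ i, (Polynomial.X - Polynomial.C (d i))) {ρ : ℝ}
    (hρ : ∀ i, ‖d i‖ ≤ ρ) (i₀ : Fin c) : ∃ lam : Polynomial ℤ,
      Polynomial.aeval (d i₀) lam ≠ 0 ∧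
      (∀ i, ‖Polynomial.aeval (d i) lam‖ ≤ c * (1 + 2 * ρ) ^ c) ∧
      ∀ F : ℂ → ℂ, (∀ j < c, IsIntegral ℤ (∑ i, d i ^ j * F (d i))) →
        IsIntegral ℤ (Polynomial.aeval (d i₀) lam * F (d i₀)) := by
  classical
  obtain ⟨s, hs⟩ : ∃ s : Finset (Fin c), ∀ i, i ∈ s ↔ d i = d i₀ :=
    ⟨univ.filter fun i => d i = d i₀, fun i => by simp⟩
  have h0 : i₀ ∈ s := (hs i₀).2 rfl
  have hc : s.card + sᶜ.card = c := by rw [card_add_card_compl, Fintype.card_fin]
  have hμ : 0 < s.card := card_pos.2 ⟨i₀, h0⟩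
  simp only [sub_eq_add_neg, ← Polynomial.C_neg] at h
  have ev : ∀ z : ℂ, Polynomial.aeval z
      (Polynomial.C (s.card : ℤ) * Polynomial.hasseDeriv s.card χ) =
      s.card * (∏ i, (Polynomial.X + Polynomial.C (z + -d i))).coeff s.card := fun z => by
    rw [map_mul, Polynomial.aeval_C, qa4_aeval, qa4_hasse, ← Polynomial.taylor_coeff, h,
      qa4_taylor]
    simp
  have e0 : (∏ i, (Polynomial.X + Polynomial.C (d i₀ + -d i))).coeff s.card =
      ∏ i ∈ sᶜ, (d i₀ + -d i) := by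
    rw [← prod_mul_prod_compl s, prod_congr rfl (g := fun _ => Polynomial.X) fun i hi => by
      rw [(hs i).1 hi, add_neg_cancel, Polynomial.C_0, add_zero], prod_const,
      Polynomial.coeff_X_pow_mul', if_pos le_rfl, Nat.sub_self, Polynomial.coeff_zero_eq_eval_zero,
      Polynomial.eval_prod]
    simp
  refine ⟨Polynomial.C (s.card : ℤ) * Polynomial.hasseDeriv s.card χ, ?_, fun i => ?_,
    fun F hF => ?_⟩
  · rw [ev, e0]
    refine mul_ne_zero (Nat.cast_ne_zero.2 hμ.ne') (prod_ne_zero_iff.2 fun i hi h1 => ?_)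
    exact mem_compl.1 hi ((hs i).2 (add_neg_eq_zero.1 h1).symm)
  · rw [ev, norm_mul, Complex.norm_natCast]
    refine mul_le_mul (by exact_mod_cast (by omega : s.card ≤ c)) ((qa4_norm _ _ _).trans ?_)
      (norm_nonneg _) (Nat.cast_nonneg _)
    refine (prod_le_prod (g := fun _ => 1 + 2 * ρ) (fun j _ => by positivity) fun j _ => ?_).trans
      (by rw [prod_const, card_univ, Fintype.card_fin])
    have := norm_add_le (d i) (-d j)
    rw [norm_neg] at this
    linarith [hρ i, hρ j]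
  · have hQ : ∏ i ∈ sᶜ, (Polynomial.X + Polynomial.C (-d i)) ∈
        Polynomial.lifts (integralClosure ℤ ℂ).toSubring.subtype :=
      prod_mem fun i _ => add_mem (Polynomial.X_mem_lifts _) (Polynomial.C'_mem_lifts
        ⟨⟨-d i, (chi_integral (by simpa only [sub_eq_add_neg, ← Polynomial.C_neg] using h) i).neg⟩,
          rfl⟩)
    rw [Polynomial.lifts_iff_coeff_lifts] at hQ
    have hd : (∏ i ∈ sᶜ, (Polynomial.X + Polynomial.C (-d i))).natDegree < c :=
      (qa4_deg _ _).trans_lt (by omega)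
    have hv : ∀ z, (∏ i ∈ sᶜ, (Polynomial.X + Polynomial.C (-d i))).eval z =
        ∏ i ∈ sᶜ, (z + -d i) := fun z => by
      rw [Polynomial.eval_prod]
      simp
    have e1 : ∑ i, (∏ j ∈ sᶜ, (d i + -d j)) * F (d i) =
        s.card * (∏ i ∈ sᶜ, (d i₀ + -d i)) * F (d i₀) := by
      rw [← sum_add_sum_compl s, sum_eq_zero (s := sᶜ) fun i hi => by
        rw [prod_eq_zero hi (add_neg_cancel _), zero_mul], add_zero,
        sum_congr rfl fun i hi => by rw [(hs i).1 hi], sum_const, nsmul_eq_mul, mul_assoc]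
    rw [ev, e0, ← e1]
    simp only [← hv, Polynomial.eval_eq_sum_range' hd, sum_mul, mul_assoc]
    rw [sum_comm]
    refine IsIntegral.sum _ fun j hj => ?_
    rw [← mul_sum]
    obtain ⟨a, ha⟩ := hQ j
    rw [← ha]
    exact IsIntegral.mul a.2 (hF j (mem_range.1 hj))

end Pool.Agent.HCF
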