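import Pool.Agent.P.MP_f644fa_ag.QA0

/-! Estimates for binomial coefficients. -/

noncomputable section
namespace Pool.Agent.HCF
open Finset

theorem qa7_norm (z : ℂ) (m : ℕ) :
    ‖bin z m‖ = (∏ j ∈ range m, ‖z - j‖) / m.factorial := by
  rw [bin, norm_div, norm_prod, Complex.norm_natCast]

theorem qa7_lo {z : ℂ} {b τ j : ℕ} (h : ‖z - b‖ ≤ τ) (hj : j ≤ b) :
    ‖z - j‖ ≤ ((b - j + τ : ℕ) : ℝ) := by
  obtain ⟨e, rfl⟩ := Nat.exists_eq_add_of_le hj
  have e1 : z - j = (z - ((j + e : ℕ) : ℂ)) + (e : ℂ) := by push_cast; ring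
  rw [e1, Nat.add_sub_cancel_left]
  refine (norm_add_le _ _).trans ?_
  rw [Complex.norm_natCast]
  push_cast at h ⊢
  linarith

theorem qa7_hi {z : ℂ} {b τ : ℕ} (h : ‖z - b‖ ≤ τ) (i : ℕ) :
    ‖z - ((b + i : ℕ) : ℂ)‖ ≤ ((τ + i : ℕ) : ℝ) := by
  have e1 : z - ((b + i : ℕ) : ℂ) = (z - b) - (i : ℂ) := by push_cast; ring
  rw [e1]
  refine (norm_sub_le _ _).trans ?_
  rw [Complex.norm_natCast]
  push_cast
  linarith

theorem qa7_asc (τ k : ℕ) : ∏ i ∈ range k, (τ + 1 + i) = k.factorial * (τ + k).choose k := by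
  rw [← Nat.ascFactorial_eq_factorial_mul_choose, Nat.ascFactorial_eq_prod_range]

theorem qa7_ch (τ k M : ℕ) (h : k ≤ M) : (τ + k).choose k ≤ (M + τ) ^ τ := by
  rw [Nat.choose_symm_add.symm]
  exact (Nat.choose_le_pow _ _).trans (Nat.pow_le_pow_left (by omega) _)

theorem bin_in {z : ℂ} {b m τ : ℕ} (hτ : 1 ≤ τ) (hb : b < m) (h : ‖z - b‖ ≤ τ) :
    ‖bin z m‖ * ((m - 1).choose b : ℕ) ≤ ((m + τ : ℕ) : ℝ) ^ (2 * τ + 1) := by
  obtain ⟨e, rfl⟩ := Nat.exists_eq_add_of_lt hb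
  have h1 : ∏ j ∈ range b, ‖z - j‖ ≤ ((b.factorial * (τ + b).choose b : ℕ) : ℝ) := by
    rw [← qa7_asc, ← prod_range_reflect (fun i => τ + 1 + i) b, Nat.cast_prod]
    refine prod_le_prod (fun _ _ => norm_nonneg _) fun j hj => ?_
    have hj' := mem_range.1 hj
    refine (qa7_lo h hj'.le).trans (le_of_eq ?_)
    congr 1
    omega
  have h2 : ∏ i ∈ range (e + 1), ‖z - ((b + i : ℕ) : ℂ)‖ ≤
      ((e.factorial * (τ + e).choose e * τ : ℕ) : ℝ) := by
    have : ∏ i ∈ range (e + 1), (τ + i) = e.factorial * (τ + e).choose e * τ := by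
      rw [prod_range_succ', ← qa7_asc]
      congr 1
      exact prod_congr rfl fun i _ => by ring
    rw [← this, Nat.cast_prod]
    exact prod_le_prod (fun _ _ => norm_nonneg _) fun i _ => qa7_hi h i
  have h3 : ∏ j ∈ range (b + e + 1), ‖z - j‖ ≤
      ((b.factorial * (τ + b).choose b : ℕ) : ℝ) *
        ((e.factorial * (τ + e).choose e * τ : ℕ) : ℝ) := by
    rw [add_assoc, prod_range_add]
    exact mul_le_mul h1 h2 (prod_nonneg fun _ _ => norm_nonneg _) (Nat.cast_nonneg _)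
  have h4 : (b.factorial * (τ + b).choose b) * (e.factorial * (τ + e).choose e * τ) *
      (b + e).choose b ≤ (b + e + 1 + τ) ^ (2 * τ + 1) * (b + e + 1).factorial := by
    have a1 := qa7_ch τ b (b + e + 1) (by omega)
    have a2 := qa7_ch τ e (b + e + 1) (by omega)
    have a3 : (b + e).choose b * b.factorial * e.factorial = (b + e).factorial := by
      have := Nat.choose_mul_factorial_mul_factorial (Nat.le_add_right b e)
      rwa [Nat.add_sub_cancel_left] at this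
    have a4 : (b + e).factorial ≤ (b + e + 1).factorial := Nat.factorial_le (by omega)
    calc _ = (τ + b).choose b * (τ + e).choose e * τ *
          ((b + e).choose b * b.factorial * e.factorial) := by ring
      _ ≤ (b + e + 1 + τ) ^ τ * (b + e + 1 + τ) ^ τ * (b + e + 1 + τ) *
          (b + e + 1).factorial := by
        rw [a3]
        exact Nat.mul_le_mul (Nat.mul_le_mul (Nat.mul_le_mul a1 a2) (by omega)) a4
      _ = _ := by ring
  have hf : (0 : ℝ) < (b + e + 1).factorial := by exact_mod_cast Nat.factorial_pos _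
  rw [qa7_norm, Nat.add_sub_cancel, div_mul_eq_mul_div, div_le_iff₀ hf]
  refine (mul_le_mul_of_nonneg_right h3 (Nat.cast_nonneg _)).trans ?_
  exact_mod_cast h4

theorem bin_out {z : ℂ} {b m τ : ℕ} (hb : m ≤ b) (h : ‖z - b‖ ≤ τ) :
    ‖bin z m‖ ≤ 2 ^ (b + τ) := by
  have h1 : ∏ j ∈ range m, ‖z - j‖ ≤ (((b + τ).descFactorial m : ℕ) : ℝ) := by
    rw [Nat.descFactorial_eq_prod_range, Nat.cast_prod]
    refine prod_le_prod (fun _ _ => norm_nonneg _) fun j hj => ?_
    have hj' := mem_range.1 hj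
    refine (qa7_lo h (by omega)).trans (le_of_eq ?_)
    congr 1
    omega
  have hf : (0 : ℝ) < m.factorial := by exact_mod_cast Nat.factorial_pos _
  rw [qa7_norm, div_le_iff₀ hf]
  refine h1.trans ?_
  rw [Nat.descFactorial_eq_factorial_mul_choose, mul_comm]
  exact_mod_cast Nat.mul_le_mul_right _ (Nat.choose_le_two_pow (b + τ) m)

theorem choose_ge_two_pow {k b θ : ℕ} (h1 : θ ≤ b) (h2 : b + θ ≤ k) : 2 ^ θ ≤ k.choose b := by
  induction θ generalizing k b with
  | zero => exact Nat.choose_pos (by omega)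
  | succ θ ih =>
    obtain ⟨b, rfl⟩ : ∃ b', b = b' + 1 := ⟨b - 1, by omega⟩
    obtain ⟨k, rfl⟩ : ∃ k', k = k' + 2 := ⟨k - 2, by omega⟩
    have a1 := ih (k := k) (b := b) (by omega) (by omega)
    have a2 : (k + 2).choose (b + 1) = (k + 1).choose b + (k + 1).choose (b + 1) :=
      Nat.choose_succ_succ' _ _
    have a3 : (k + 1).choose (b + 1) = k.choose b + k.choose (b + 1) := Nat.choose_succ_succ' _ _
    have a4 : k.choose b ≤ (k + 1).choose b := Nat.choose_le_choose _ (by omega)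
    rw [pow_succ]
    omega

theorem choose_mid {k s : ℕ} (h : 6 * s ≤ k) : 2 ^ k ≤ (k + 1) * 2 ^ s * k.choose (k / 2 + s) := by
  induction s with
  | zero =>
    rw [← Nat.sum_range_choose, pow_zero, mul_one, add_zero]
    refine (sum_le_card_nsmul _ _ _ fun i _ => Nat.choose_le_middle i k).trans ?_
    simp
  | succ s ih =>
    refine (ih (by omega)).trans ?_
    have a1 := Nat.choose_succ_right_eq k (k / 2 + s)
    have a2 : k / 2 + s + 1 ≤ 2 * (k - (k / 2 + s)) := by omega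
    have a3 : k.choose (k / 2 + s) ≤ 2 * k.choose (k / 2 + s + 1) := by
      refine Nat.le_of_mul_le_mul_right ?_ (Nat.succ_pos (k / 2 + s))
      calc k.choose (k / 2 + s) * (k / 2 + s + 1)
          ≤ k.choose (k / 2 + s) * (2 * (k - (k / 2 + s))) := Nat.mul_le_mul_left _ a2
        _ = 2 * (k.choose (k / 2 + s) * (k - (k / 2 + s))) := by ring
        _ = 2 * k.choose (k / 2 + s + 1) * (k / 2 + s + 1) := by rw [← a1]; ring
    calc (k + 1) * 2 ^ s * k.choose (k / 2 + s)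
        ≤ (k + 1) * 2 ^ s * (2 * k.choose (k / 2 + s + 1)) := Nat.mul_le_mul_left _ a3
      _ = _ := by rw [← add_assoc]; ring

theorem exists_floor {z : ℂ} {η : ℕ} (h0 : 0 ≤ z.re) (h1 : |z.im| ≤ 2 * (η : ℝ)) :
    ∃ b : ℕ, (b : ℝ) ≤ z.re ∧ z.re < b + 1 ∧ ‖z - b‖ ≤ (2 * η + 1 : ℕ) := by
  have a1 := Nat.floor_le h0
  have a2 := Nat.lt_floor_add_one z.re
  refine ⟨⌊z.re⌋₊, a1, a2, (Complex.norm_le_abs_re_add_abs_im _).trans ?_⟩
  simp only [Complex.sub_re, Complex.natCast_re, Complex.sub_im, Complex.natCast_im, sub_zero]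
  rw [abs_of_nonneg (by linarith)]
  push_cast
  linarith

end Pool.Agent.HCF
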