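import Pool.Agent.P.MP_f644fa_ag.LS0

/-! A solution of the functional equation is determined by its Chern roots. -/

noncomputable section
namespace Pool.Agent.HCF
open Finset PowerSeries

theorem ls1b_key {c n : ℕ} {D : ℕ → ℂ⟦X⟧} (h : ∀ ζ, coeff n (gz c D ζ) = 0) {a b : ℕ}
    (hab : a + b = n) : ∑ k ∈ range (c + 1), (-1) ^ k * coeff a (D k) * (k : ℂ) ^ b = 0 := by
  obtain ⟨S, hS⟩ : ∃ S : ℕ × ℕ → ℂ, ∀ q, S q =
      (∑ k ∈ range (c + 1), (-1) ^ k * coeff q.1 (D k) * (k : ℂ) ^ q.2) / q.2.factorial :=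
    ⟨_, fun _ => rfl⟩
  have hQ : ∑ q ∈ antidiagonal n, Polynomial.monomial q.2 (S q) = 0 := by
    refine Polynomial.funext fun ζ => ?_
    rw [Polynomial.eval_finsetSum, Polynomial.eval_zero, ← h (-ζ), gz, map_sum]
    simp only [Polynomial.eval_monomial, hS, sum_div, sum_mul]
    rw [sum_comm]
    refine sum_congr rfl fun k _ => ?_
    rw [mul_assoc (C _), coeff_C_mul, coeff_mul, mul_sum]
    refine sum_congr rfl fun q _ => ?_
    rw [coeff_ex, mul_neg, neg_neg, mul_pow]
    ring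
  have h1 := congrArg (fun p => Polynomial.coeff p b) hQ
  simp only [Polynomial.finsetSum_coeff, Polynomial.coeff_monomial, Polynomial.coeff_zero] at h1
  rw [sum_eq_single (a, b), if_pos rfl, hS, div_eq_zero_iff] at h1
  · exact h1.resolve_right (Nat.cast_ne_zero.2 (Nat.factorial_ne_zero _))
  · rintro ⟨a', b'⟩ hq hne
    refine if_neg fun hb => hne ?_
    have := mem_antidiagonal.1 hq
    simp only at hb this
    exact Prod.ext (by simp only; omega) hb
  · intro hq
    exact absurd (mem_antidiagonal.2 hab) hq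

theorem ls1b_diff {c : ℕ} {φ : ℕ → ℂ⟦X⟧} {x : Fin c → ℂ} (h : Ch c φ x) {n : ℕ} (hn : n ≤ c)
    (ζ : ℂ) : coeff n (gz c (fun k => φ k - esy x k) ζ) = 0 := by
  have e : gz c (fun k => φ k - esy x k) ζ = gz c φ ζ - gz c (esy x) ζ := by
    simp only [gz, ← sum_sub_distrib]
    exact sum_congr rfl fun k _ => by ring
  rw [e, map_sub]
  rcases hn.lt_or_eq with hn | rfl
  · rw [(h ζ).1 n hn, (ch_esy x ζ).1 n hn, sub_self]
  · rw [(h ζ).2, (ch_esy x ζ).2, sub_self]

theorem ls1b_esy {c : ℕ} (x : Fin c → ℂ) (k : ℕ) : constantCoeff (esy x k) = c.choose k := by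
  simp [esy, map_sum, constantCoeff_ex, card_powersetCard]

theorem Ch.const {c : ℕ} {φ : ℕ → ℂ⟦X⟧} {x : Fin c → ℂ} (h : Ch c φ x) {k : ℕ} (hk : k ≤ c) :
    constantCoeff (φ k) = c.choose k := by
  have h1 := vdm_zero (s := c) (fun k => (-1) ^ k * coeff 0 (φ k - esy x k))
    (fun i hi => ls1b_key (ls1b_diff h hi) (zero_add i)) k hk
  have h2 := (mul_eq_zero.1 h1).resolve_left (pow_ne_zero _ (by norm_num))
  rw [coeff_zero_eq_constantCoeff_apply, map_sub, ls1b_esy, sub_eq_zero] at h2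
  exact h2

theorem ls1b_low {i : ℕ} {f : ℂ⟦X⟧} (h : ∀ j < i, coeff j f = 0) (g : ℂ⟦X⟧) :
    coeff i (f * g) = coeff i f * constantCoeff g := by
  obtain ⟨f', rfl⟩ := X_pow_dvd_iff.2 h
  have e : ∀ p : ℂ⟦X⟧, coeff i (X ^ i * p) = constantCoeff p := fun p => by
    have := coeff_X_pow_mul p i 0
    rwa [zero_add, coeff_zero_eq_constantCoeff_apply] at this
  rw [mul_assoc, e, e, map_mul]

theorem ls1b_poly {c : ℕ} (d : ℕ → ℂ) (hz : ∀ k, c < k → d k = 0) (k : ℕ) :
    (∑ j ∈ range (c + 1), Polynomial.monomial j (d j)).coeff k = d k := by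
  simp only [Polynomial.finsetSum_coeff, Polynomial.coeff_monomial, sum_ite_eq', mem_range]
  split_ifs with hk
  · rfl
  · exact (hz k (by omega)).symm

theorem ls1b_bin (c k : ℕ) :
    ((1 - Polynomial.X) ^ c : Polynomial ℂ).coeff k = (-1) ^ k * c.choose k := by
  have e : ((1 - Polynomial.X) ^ c : Polynomial ℂ) =
      ((1 + Polynomial.X) ^ c).comp (Polynomial.C (-1) * Polynomial.X) := by
    simp [sub_eq_add_neg]
  rw [e, Polynomial.comp_C_mul_X_coeff, Polynomial.coeff_one_add_X_pow, mul_comm]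

theorem ls1b_seq {c i : ℕ} (d : ℕ → ℂ) (h0 : d 0 = 0) (hz : ∀ k, c < k → d k = 0)
    (hE : ∀ k, (-1) ^ k * (2 ^ i * d k) = ∑ q ∈ antidiagonal (2 * k),
      (-1) ^ q.2 * (d q.1 * c.choose q.2 + c.choose q.1 * d q.2))
    (hV : ∀ b, i + b = c → ∑ k ∈ range (c + 1), (-1) ^ k * d k * (k : ℂ) ^ b = 0) (k : ℕ) :
    d k = 0 := by
  obtain ⟨p', hp'⟩ : ∃ p' : Polynomial ℂ, ∀ k, p'.coeff k = d k := ⟨_, ls1b_poly d hz⟩
  obtain ⟨p, hpd⟩ : ∃ p : Polynomial ℂ,
      p = ∑ j ∈ range (c + 1), Polynomial.monomial j ((-1) ^ j * d j) := ⟨_, rfl⟩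
  have hp : ∀ k, p.coeff k = (-1) ^ k * d k := fun k => by
    rw [hpd]
    exact ls1b_poly (fun j => (-1) ^ j * d j) (fun k hk => by rw [hz k hk, mul_zero]) k
  have hid : p * (1 + Polynomial.X) ^ c + (1 - Polynomial.X) ^ c * p' =
      Polynomial.C (2 ^ i) * Polynomial.expand ℂ 2 p := by
    ext n
    rw [Polynomial.coeff_add, Polynomial.coeff_mul, Polynomial.coeff_mul, Polynomial.coeff_C_mul,
      Polynomial.coeff_expand two_pos]
    simp only [hp, hp', Polynomial.coeff_one_add_X_pow, ls1b_bin]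
    split_ifs with hn
    · obtain ⟨m, rfl⟩ := hn
      rw [Nat.mul_div_cancel_left _ two_pos, mul_left_comm, hE m, ← sum_add_distrib]
      refine sum_congr rfl fun q hq => ?_
      have h1 : ((-1 : ℂ)) ^ q.1 = (-1) ^ q.2 := by
        have h2 : ((-1 : ℂ)) ^ q.1 * (-1) ^ q.2 = 1 := by
          rw [← pow_add, mem_antidiagonal.1 hq, pow_mul]
          simp
        have h3 : ((-1 : ℂ)) ^ q.2 * (-1) ^ q.2 = 1 := by
          rw [← mul_pow]
          simp
        exact mul_right_cancel₀ (pow_ne_zero _ (by norm_num)) (h2.trans h3.symm)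
      rw [h1]
      ring
    · rw [← Finset.Nat.sum_antidiagonal_swap
        (f := fun q : ℕ × ℕ => (-1 : ℂ) ^ q.1 * c.choose q.1 * d q.2), ← sum_add_distrib, mul_zero]
      refine sum_eq_zero fun q hq => ?_
      have h2 : ((-1 : ℂ)) ^ q.1 * (-1) ^ q.2 = -1 := by
        rw [← pow_add, mem_antidiagonal.1 hq]
        exact Odd.neg_one_pow (Nat.odd_iff.2 (by omega))
      have h3 : ((-1 : ℂ)) ^ q.2 * (-1) ^ q.2 = 1 := by
        rw [← mul_pow]
        simp
      have h1 : ((-1 : ℂ)) ^ q.1 = -(-1) ^ q.2 :=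
        mul_right_cancel₀ (pow_ne_zero q.2 (by norm_num : (-1 : ℂ) ≠ 0))
          (by rw [h2, neg_mul, h3])
      simp only [Prod.fst_swap, Prod.snd_swap, h1]
      ring
  have hP : ∀ b, coeff b (Ex p) =
      (∑ k ∈ range (c + 1), (-1) ^ k * d k * (k : ℂ) ^ b) / b.factorial := fun b => by
    rw [hpd, map_sum, map_sum, sum_div]
    refine sum_congr rfl fun j _ => ?_
    rw [← Polynomial.smul_X_eq_monomial, map_smul, Ex_X_pow, map_smul, coeff_ex, smul_eq_mul]
    ring
  have hlow : ∀ b, b < c → coeff b (Ex p) = 0 := by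
    intro b
    induction b using Nat.strong_induction_on with
    | _ b ih =>
      intro hb
      have h1 := congrArg (fun q => coeff b (Ex q)) hid
      have h2 : coeff b (Ex ((1 - Polynomial.X) ^ c * p')) = 0 :=
        X_pow_dvd_iff.1 ((Ex_dvd_iff c _).2 (dvd_mul_right _ _)) b hb
      simp only [map_add, h2, add_zero] at h1
      rw [map_mul, ls1b_low (fun j hj => ih j hj (hj.trans hb)), constantCoeff_Ex,
        ← Polynomial.smul_eq_C_mul, map_smul, map_smul, Ex_expand, coeff_rescale] at h1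
      by_contra hne
      have h3 : (2 : ℂ) ^ c = 2 ^ (i + b) := by
        refine mul_left_cancel₀ hne ?_
        simp only [Polynomial.eval_pow, Polynomial.eval_add, Polynomial.eval_one,
          Polynomial.eval_X, smul_eq_mul, one_add_one_eq_two] at h1
        rw [h1]
        ring
      have h4 : c = i + b := Nat.pow_right_injective (le_refl 2) (by exact_mod_cast h3)
      rw [hP, hV b h4.symm, zero_div] at hne
      exact hne rfl
  have hv := Matrix.eq_zero_of_forall_pow_sum_mul_pow_eq_zero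
    (f := fun j : Fin c => ((j.1 + 1 : ℕ) : ℂ)) (v := fun j : Fin c => (-1) ^ (j.1 + 1) * d (j.1 + 1))
    (fun a b h => Fin.ext (by
      have : a.1 + 1 = b.1 + 1 := Nat.cast_injective (R := ℂ) h
      omega)) (fun b => by
      have h1 := hlow b.1 b.2
      rw [hP, div_eq_zero_iff, sum_range_succ', h0] at h1
      have h2 := h1.resolve_right (Nat.cast_ne_zero.2 (Nat.factorial_ne_zero _))
      rw [mul_zero, zero_mul, add_zero, ← Fin.sum_univ_eq_sum_range
        (fun k => (-1 : ℂ) ^ (k + 1) * d (k + 1) * ((k + 1 : ℕ) : ℂ) ^ b.1)] at h2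
      exact h2)
  rcases k with _ | k
  · exact h0
  · by_cases hk : k < c
    · exact (mul_eq_zero.1 (congrFun hv ⟨k, hk⟩)).resolve_left (pow_ne_zero _ (by norm_num))
    · exact hz _ (by omega)

theorem fem_unique {c L : ℕ} {φ : ℕ → ℂ⟦X⟧} {x : Fin c → ℂ} (hF : FEm L φ)
    (h0 : (X : ℂ⟦X⟧) ^ L ∣ φ 0 - 1) (hz : ∀ k, c < k → φ k = 0) (h : Ch c φ x) (k : ℕ) :
    (X : ℂ⟦X⟧) ^ L ∣ φ k - esy x k := by
  have hc : ∀ k, constantCoeff (φ k) = c.choose k := fun k => by
    by_cases hk : k ≤ c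
    · exact h.const hk
    · rw [hz k (by omega), map_zero, Nat.choose_eq_zero_of_lt (by omega), Nat.cast_zero]
  have key : ∀ i, i < L → ∀ k, coeff i (φ k - esy x k) = 0 := by
    intro i
    induction i using Nat.strong_induction_on with
    | _ i ih =>
      intro hi
      have hl : ∀ k, ∀ j < i, coeff j (φ k - esy x k) = 0 := fun k j hj => ih j hj (hj.trans hi) k
      refine ls1b_seq (c := c) (i := i) (fun k => coeff i (φ k - esy x k)) ?_ (fun k hk => ?_)
        (fun k => ?_) fun b hb => ls1b_key (ls1b_diff h le_rfl) hb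
      · rw [esy_zero]
        exact X_pow_dvd_iff.1 h0 i hi
      · rw [hz k hk, esy_gt x hk, sub_self, map_zero]
      · have h1 := X_pow_dvd_iff.1 (dvd_sub (hF k) (fem_esy x L k)) i hi
        have e : C ((-1 : ℂ) ^ k) * rescale 2 (φ k) -
            ∑ q ∈ antidiagonal (2 * k), C ((-1 : ℂ) ^ q.2) * φ q.1 * φ q.2 -
            (C ((-1 : ℂ) ^ k) * rescale 2 (esy x k) -
            ∑ q ∈ antidiagonal (2 * k), C ((-1 : ℂ) ^ q.2) * esy x q.1 * esy x q.2) =
            C ((-1 : ℂ) ^ k) * rescale 2 (φ k - esy x k) - ∑ q ∈ antidiagonal (2 * k),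
              C ((-1 : ℂ) ^ q.2) * ((φ q.1 - esy x q.1) * φ q.2
                + (φ q.2 - esy x q.2) * esy x q.1) := by
          have e2 : ∑ q ∈ antidiagonal (2 * k), C ((-1 : ℂ) ^ q.2) * ((φ q.1 - esy x q.1) * φ q.2
              + (φ q.2 - esy x q.2) * esy x q.1) =
              ∑ q ∈ antidiagonal (2 * k), C ((-1 : ℂ) ^ q.2) * φ q.1 * φ q.2 -
              ∑ q ∈ antidiagonal (2 * k), C ((-1 : ℂ) ^ q.2) * esy x q.1 * esy x q.2 := by
            rw [← sum_sub_distrib]
            exact sum_congr rfl fun q _ => by ring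
          rw [e2, map_sub]
          ring
        rw [e, map_sub, sub_eq_zero, coeff_C_mul, coeff_rescale, map_sum] at h1
        rw [h1]
        refine sum_congr rfl fun q _ => ?_
        rw [coeff_C_mul, map_add, ls1b_low (hl _), ls1b_low (hl _), hc, ls1b_esy]
        ring
  exact X_pow_dvd_iff.2 fun i hi => key i hi k

end Pool.Agent.HCF
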