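import Pool.Agent.P.MP_f644fa_ag.LS0

/-! Existence of Chern roots; power sums. -/

noncomputable section
namespace Pool.Agent.HCF
open Finset PowerSeries

theorem ls1c_roots {n : ℕ} (f : Polynomial ℂ) (hd : f.natDegree ≤ n) (h1 : f.coeff n = 1) :
    ∃ x : Fin n → ℂ, f = ∏ j, (Polynomial.X - Polynomial.C (x j)) := by
  have hm := Polynomial.monic_of_natDegree_le_of_coeff_eq_one n hd h1
  have hn : f.natDegree = n :=
    Polynomial.natDegree_eq_of_le_of_coeff_ne_zero hd (h1 ▸ one_ne_zero)
  have h2 := (IsAlgClosed.splits f).eq_prod_roots_of_monic hm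
  have h3 := IsAlgClosed.card_roots_eq_natDegree (p := f)
  obtain ⟨l, hl⟩ := Quotient.exists_rep f.roots
  have h4 : l.length = n := by rw [← hn, ← h3, ← hl]; rfl
  subst h4
  refine ⟨l.get, h2.trans ?_⟩
  rw [← hl, Finset.prod_eq_multiset_prod, ← Function.comp_def
    (fun a : ℂ => Polynomial.X - Polynomial.C a) l.get, ← Multiset.map_map, Fin.univ_val_map,
    List.ofFn_get]
  rfl

theorem fe_const {c : ℕ} (f : Polynomial ℂ) (hd : f.natDegree ≤ c + 1) (h0 : f.coeff 0 = 1)
    (h1 : f.coeff (c + 1) = 1) (h2 : f.coeff c = c + 1)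
    (h : f * f.comp (-Polynomial.X) = f.comp (-Polynomial.X ^ 2)) :
    f = (1 + Polynomial.X) ^ (c + 1) := by
  obtain ⟨x, hx⟩ := ls1c_roots f hd h1
  have hr : ∀ r, f.eval r = 0 ↔ ∃ j, r = x j := fun r => by
    rw [hx, Polynomial.eval_prod, prod_eq_zero_iff]
    simp [sub_eq_zero]
  obtain ⟨i, -, hi⟩ := exists_max_image univ (fun j => ‖x j‖) ⟨0, mem_univ _⟩
  have hb : ∀ j, ‖x j‖ ≤ 1 := fun j => by
    have e := congrArg (Polynomial.eval (x i)) h
    rw [Polynomial.eval_mul, (hr _).2 ⟨i, rfl⟩, zero_mul, Polynomial.eval_comp] at e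
    obtain ⟨k, hk⟩ := (hr _).1 e.symm
    have h3 := hi k (mem_univ _)
    rw [← hk] at h3
    simp only [Polynomial.eval_neg, Polynomial.eval_pow, Polynomial.eval_X, norm_neg,
      norm_pow] at h3
    have h4 := hi j (mem_univ _)
    nlinarith [norm_nonneg (x i)]
  have hs := Polynomial.prod_X_sub_C_coeff_card_pred univ x (by simp)
  rw [← hx, card_univ, Fintype.card_fin, Nat.add_sub_cancel, h2] at hs
  have h5 : ∑ j, (1 + (x j).re) = 0 := by
    have := congrArg Complex.re hs
    rw [Complex.neg_re, Complex.re_sum] at this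
    rw [sum_add_distrib]
    simp only [sum_const, card_univ, Fintype.card_fin, nsmul_eq_mul, mul_one, Complex.add_re,
      Complex.natCast_re, Complex.one_re] at this ⊢
    push_cast
    linarith
  have h6 := (sum_eq_zero_iff_of_nonneg fun j _ => by
    linarith [(abs_le.1 ((Complex.abs_re_le_norm (x j)).trans (hb j))).1]).1 h5
  have h7 : ∀ j, x j = -1 := fun j => by
    have e1 := h6 j (mem_univ _)
    have e2 : ‖x j‖ ^ 2 ≤ 1 := by nlinarith [hb j, norm_nonneg (x j)]
    rw [Complex.sq_norm, Complex.normSq_apply] at e2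
    refine Complex.ext (by simp; linarith) ?_
    have e3 : (x j).re = -1 := by linarith
    rw [e3] at e2
    simp only [Complex.neg_im, Complex.one_im, neg_zero]
    nlinarith
  rw [hx]
  simp [h7, add_comm]

theorem ls1c_coeff {A : Type} [CommRing A] {n : ℕ} {a : ℕ → A} (hz : ∀ k, n < k → a k = 0)
    (k : ℕ) : (∑ j ∈ range (n + 1), Polynomial.monomial j (a j)).coeff k = a k := by
  rw [Polynomial.finsetSum_coeff]
  simp only [Polynomial.coeff_monomial, sum_ite_eq', mem_range]
  split_ifs with h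
  · rfl
  · exact (hz k (by omega)).symm

theorem ls1c_key {n L : ℕ} {φ : ℕ → ℂ⟦X⟧} (hF : FEm L φ) (hz : ∀ k, n < k → φ k = 0) (z : ℂ⟦X⟧) :
    (X : ℂ⟦X⟧) ^ L ∣ ∑ k ∈ range (n + 1), C ((-1) ^ k) * rescale 2 (φ k) * (z ^ 2) ^ k -
      (∑ k ∈ range (n + 1), φ k * z ^ k) * ∑ k ∈ range (n + 1), φ k * (-z) ^ k := by
  have hG := ls1c_coeff (n := n) (a := fun k => C ((-1) ^ k) * rescale 2 (φ k))
    fun k hk => by rw [hz k hk, map_zero, mul_zero]
  have h1 : Polynomial.C ((X : ℂ⟦X⟧) ^ L) ∣ Polynomial.expand ℂ⟦X⟧ 2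
      (∑ j ∈ range (n + 1), Polynomial.monomial j (C ((-1) ^ j) * rescale 2 (φ j))) -
      (∑ j ∈ range (n + 1), Polynomial.monomial j (φ j)) *
        (∑ j ∈ range (n + 1), Polynomial.monomial j (φ j)).comp
          (Polynomial.C (-1) * Polynomial.X) := by
    refine (Polynomial.C_dvd_iff_dvd_coeff _ _).2 fun m => ?_
    rw [Polynomial.coeff_sub, Polynomial.coeff_expand two_pos, Polynomial.coeff_mul, hG]
    simp only [Polynomial.comp_C_mul_X_coeff, ls1c_coeff hz]
    split_ifs with h
    · obtain ⟨k, rfl⟩ := h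
      rw [Nat.mul_div_cancel_left _ two_pos]
      refine (hF k).trans (dvd_of_eq (congrArg _ (sum_congr rfl fun q _ => ?_)))
      rw [map_pow, map_neg, map_one]
      ring
    · have e : ∑ q ∈ antidiagonal m, φ q.1 * (φ q.2 * (-1) ^ q.2) =
          -∑ q ∈ antidiagonal m, φ q.1 * (φ q.2 * (-1) ^ q.2) := by
        conv_lhs => rw [← Nat.sum_antidiagonal_swap]
        rw [← sum_neg_distrib]
        refine sum_congr rfl fun q hq => ?_
        have h2 := mem_antidiagonal.1 hq
        simp only [Prod.fst_swap, Prod.snd_swap]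
        rcases Nat.even_or_odd q.1 with h3 | h3
        · have h4 : Odd q.2 := by
            rw [Nat.even_iff] at h3
            rw [Nat.odd_iff]
            omega
          rw [h3.neg_one_pow, h4.neg_one_pow]
          ring
        · have h4 : Even q.2 := by
            rw [Nat.odd_iff] at h3
            rw [Nat.even_iff]
            omega
          rw [h3.neg_one_pow, h4.neg_one_pow]
          ring
      have e2 : ∑ q ∈ antidiagonal m, φ q.1 * (φ q.2 * (-1) ^ q.2) = 0 := by
        ext i
        have := congrArg (coeff i) e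
        rw [map_neg] at this
        rw [map_zero]
        linear_combination (1 / 2 : ℂ) * this
      rw [e2, sub_zero]
      exact dvd_zero _
  have h2 := Polynomial.eval_dvd (x := z) h1
  simpa only [Polynomial.eval_C, Polynomial.eval_sub, Polynomial.expand_eval, Polynomial.eval_mul,
    Polynomial.eval_comp, Polynomial.eval_finsetSum, Polynomial.eval_monomial, Polynomial.eval_X,
    neg_one_mul] using h2

theorem ls1c_cc (a : ℂ) (g : ℂ⟦X⟧) : constantCoeff (rescale a g) = constantCoeff g := by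
  rw [← coeff_zero_eq_constantCoeff_apply, coeff_rescale, pow_zero, one_mul,
    coeff_zero_eq_constantCoeff_apply]

theorem ls1c_rC (a b : ℂ) : rescale a (C b) = C b := by
  ext i
  rw [coeff_rescale, coeff_C]
  split_ifs with h
  · rw [h, pow_zero, one_mul]
  · rw [mul_zero]

theorem ls1c_choose {c L : ℕ} {φ : ℕ → ℂ⟦X⟧} (hF : FEm L φ) (hL : c + 1 < L)
    (h0 : constantCoeff (φ 0) = 1) (hz : ∀ k, c + 1 < k → φ k = 0)
    (h1 : constantCoeff (φ (c + 1)) = 1) (h2 : constantCoeff (φ c) = c + 1) (k : ℕ) :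
    constantCoeff (φ k) = (c + 1).choose k := by
  have hf := ls1c_coeff (n := c + 1) (a := fun k => constantCoeff (φ k))
    fun k hk => by rw [hz k hk, map_zero]
  have h3 := fe_const (c := c) _ (Polynomial.natDegree_le_iff_coeff_eq_zero.2 fun k hk => by
    rw [hf, hz k hk, map_zero]) ((hf 0).trans h0) ((hf _).trans h1) ((hf _).trans h2)
    (Polynomial.funext fun w => by
      have e := X_pow_dvd_iff.1 (ls1c_key hF hz (C w)) 0 (by omega)
      rw [coeff_zero_eq_constantCoeff_apply, map_sub, sub_eq_zero] at e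
      simp only [map_sum, map_mul, map_pow, map_neg, constantCoeff_C, ls1c_cc, map_one] at e
      simp only [Polynomial.eval_mul, Polynomial.eval_comp, Polynomial.eval_finsetSum,
        Polynomial.eval_monomial, Polynomial.eval_X, Polynomial.eval_neg, Polynomial.eval_pow]
      rw [← e]
      refine sum_congr rfl fun k _ => ?_
      rw [neg_pow (w ^ 2)]
      ring)
  rw [← hf k, h3, Polynomial.coeff_one_add_X_pow]

theorem fem_exists {c L : ℕ} {φ : ℕ → ℂ⟦X⟧} (hF : FEm L φ) (hL : c + 1 < L)
    (h0 : constantCoeff (φ 0) = 1) (hz : ∀ k, c + 1 < k → φ k = 0)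
    (h1 : constantCoeff (φ (c + 1)) = 1) (h2 : constantCoeff (φ c) = c + 1) :
    ∃ x, Ch (c + 1) φ x := by
  have hc := ls1c_choose hF hL h0 hz h1 h2
  generalize c + 1 = n at hL hz hc
  have low : ∀ ζ : ℂ, ∀ i < n, coeff i (gz n φ ζ) = 0 := fun ζ => by
    have e := ls1c_key hF hz (-ex (-ζ))
    have e1 : ∑ k ∈ range (n + 1), φ k * (-ex (-ζ)) ^ k = gz n φ ζ :=
      sum_congr rfl fun k _ => by
        rw [neg_pow, ex_pow, map_pow, map_neg, map_one, mul_neg]
        ring
    have e2 : ∑ k ∈ range (n + 1), C ((-1) ^ k) * rescale 2 (φ k) * ((-ex (-ζ)) ^ 2) ^ k =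
        rescale 2 (gz n φ ζ) := by
      rw [gz, map_sum]
      refine sum_congr rfl fun k _ => ?_
      rw [map_mul, map_mul, ls1c_rC, rescale_ex, neg_sq, ex_pow, ex_pow]
      refine congrArg (fun t => _ * ex t) ?_
      push_cast
      ring
    have e3 : coeff 0 (∑ k ∈ range (n + 1), φ k * (- -ex (-ζ)) ^ k) = 2 ^ n := by
      rw [coeff_zero_eq_constantCoeff_apply, map_sum]
      simp only [neg_neg, map_mul, map_pow, constantCoeff_ex, one_pow, mul_one, hc]
      exact_mod_cast Nat.sum_range_choose n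
    rw [e1, e2] at e
    intro i
    induction i using Nat.strong_induction_on with
    | _ i ih =>
    intro hi
    have e4 := X_pow_dvd_iff.1 e i (by omega)
    rw [map_sub, coeff_rescale, coeff_mul, sum_eq_single (i, 0) (fun q hq hne => ?_)
      fun h => absurd (by simp) h, e3] at e4
    · have e5 : (2 : ℂ) ^ i - 2 ^ n ≠ 0 := sub_ne_zero.2 (by
        exact_mod_cast (Nat.pow_lt_pow_right one_lt_two hi).ne)
      refine (mul_eq_zero.1 ?_).resolve_left e5
      linear_combination e4
    · have h3 := mem_antidiagonal.1 hq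
      have h4 : q.1 < i := by
        by_contra h5
        exact hne (Prod.ext (by simp only; omega) (by simp only; omega))
      rw [ih _ h4 (by omega), zero_mul]
  have top : ∑ k ∈ range (n + 1), (-1 : ℂ) ^ k * (n.choose k * ((-(k : ℂ)) ^ n / n.factorial)) =
      1 := by
    have e := (ch_esy (fun _ : Fin n => (0 : ℂ)) 1).2
    simp only [sub_zero, prod_const_one] at e
    refine Eq.trans ?_ e
    rw [gz, map_sum]
    refine sum_congr rfl fun k _ => ?_
    have e1 : esy (fun _ : Fin n => (0 : ℂ)) k = C (n.choose k : ℂ) := by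
      simp [esy, ex_zero]
    rw [e1, mul_assoc, coeff_C_mul, coeff_C_mul, coeff_ex, mul_one]
  obtain ⟨x, hx⟩ := ls1c_roots (n := n) (∑ k ∈ range (n + 1), ∑ q ∈ antidiagonal n,
      Polynomial.monomial q.2 ((-1) ^ k * (coeff q.1 (φ k) * ((-(k : ℂ)) ^ q.2 / q.2.factorial))))
    (Polynomial.natDegree_sum_le_of_forall_le _ _ fun k _ =>
      Polynomial.natDegree_sum_le_of_forall_le _ _ fun q hq =>
        (Polynomial.natDegree_monomial_le _).trans (by have := mem_antidiagonal.1 hq; omega))
    (by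
      refine Eq.trans ?_ top
      rw [Polynomial.finsetSum_coeff]
      refine sum_congr rfl fun k _ => ?_
      rw [Polynomial.finsetSum_coeff, sum_eq_single (0, n) (fun q hq hne => ?_)
        fun h => absurd (by simp) h, Polynomial.coeff_monomial_same,
        coeff_zero_eq_constantCoeff_apply, hc]
      have h3 := mem_antidiagonal.1 hq
      exact Polynomial.coeff_monomial_of_ne _ fun h =>
        hne (Prod.ext (by simp only; omega) h.symm))
  refine ⟨x, fun ζ => ⟨low ζ, ?_⟩⟩
  have e := congrArg (Polynomial.eval ζ) hx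
  simp only [Polynomial.eval_finsetSum, Polynomial.eval_monomial, Polynomial.eval_prod,
    Polynomial.eval_sub, Polynomial.eval_X, Polynomial.eval_C] at e
  rw [← e, gz, map_sum]
  refine sum_congr rfl fun k _ => ?_
  rw [mul_assoc, coeff_C_mul, coeff_mul, mul_sum]
  refine sum_congr rfl fun q _ => ?_
  rw [coeff_ex, ← neg_mul, mul_pow]
  ring

theorem esy_eq_of_sum {c L : ℕ} (hL : c < L) {u v : Fin c → ℂ}
    (h : (X : ℂ⟦X⟧) ^ L ∣ ∑ j, ex (u j) - ∑ j, ex (v j)) :
    ∃ e : Equiv.Perm (Fin c), ∀ j, u j = v (e j) := by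
  classical
  have hp : ∀ i ≤ c, MvPolynomial.aeval u (MvPolynomial.psum (Fin c) ℂ i) =
      MvPolynomial.aeval v (MvPolynomial.psum (Fin c) ℂ i) := fun i hi => by
    have e := X_pow_dvd_iff.1 h i (by omega)
    rw [map_sub, map_sum, map_sum, sub_eq_zero] at e
    simp only [coeff_ex, ← sum_div] at e
    simpa [MvPolynomial.psum] using
      (div_left_inj' (Nat.cast_ne_zero.2 i.factorial_ne_zero)).1 e
  have he : ∀ k ≤ c, MvPolynomial.aeval u (MvPolynomial.esymm (Fin c) ℂ k) =
      MvPolynomial.aeval v (MvPolynomial.esymm (Fin c) ℂ k) := fun k => by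
    induction k using Nat.strong_induction_on with
    | _ k ih =>
    intro hk
    rcases Nat.eq_zero_or_pos k with rfl | k0
    · simp
    have e1 := congrArg (MvPolynomial.aeval u) (MvPolynomial.mul_esymm_eq_sum (Fin c) ℂ k)
    have e2 := congrArg (MvPolynomial.aeval v) (MvPolynomial.mul_esymm_eq_sum (Fin c) ℂ k)
    simp only [map_mul, map_sum, map_pow, map_neg, map_one, map_natCast] at e1 e2
    refine mul_left_cancel₀ (Nat.cast_ne_zero.2 k0.ne' : (k : ℂ) ≠ 0) ?_
    rw [e1, e2]
    refine congrArg _ (sum_congr rfl fun q hq => ?_)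
    have h1 := mem_filter.1 hq
    have h2 := mem_antidiagonal.1 h1.1
    rw [ih _ h1.2 (by omega), hp _ (by omega)]
  have hm : univ.val.map u = univ.val.map v := by
    rw [← Polynomial.roots_multiset_prod_X_sub_C (univ.val.map u),
      ← Polynomial.roots_multiset_prod_X_sub_C (univ.val.map v),
      Multiset.prod_X_sub_X_eq_sum_esymm, Multiset.prod_X_sub_X_eq_sum_esymm]
    simp only [Multiset.card_map, card_val, card_univ, Fintype.card_fin]
    refine congrArg _ (sum_congr rfl fun k hk => ?_)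
    rw [← MvPolynomial.aeval_esymm_eq_multiset_esymm (Fin c) ℂ,
      ← MvPolynomial.aeval_esymm_eq_multiset_esymm (Fin c) ℂ,
      he k (Nat.lt_succ_iff.1 (mem_range.1 hk))]
  refine ⟨Equiv.ofFiberEquiv (f := u) (g := v) fun a => Fintype.equivOfCardEq ?_,
    fun j => (Equiv.ofFiberEquiv_map _ j).symm⟩
  have e := congrArg (Multiset.count a) hm
  rw [Multiset.count_map, Multiset.count_map] at e
  rw [Fintype.card_subtype, Fintype.card_subtype]
  simpa only [eq_comm (a := a), card_def, filter_val] using e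

end Pool.Agent.HCF
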