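import Pool.Agent.P.MP_f644fa_ag.LS1a
import Pool.Agent.P.MP_f644fa_ag.LS1b
import Pool.Agent.P.MP_f644fa_ag.LS1c

/-! The numerators are those of a sum of line bundles. -/

noncomputable section
namespace Pool.Agent.HCF
open Finset Polynomial

theorem ls1_perm {c : ℕ} (y : Fin c → ℂ) (e : Equiv.Perm (Fin c)) (k : ℕ) :
    esy (fun j => y (e j)) k = esy y k := by
  unfold esy
  refine Finset.sum_equiv e.finsetCongr (fun J => ?_) fun J _ => ?_
  · simp [Equiv.finsetCongr_apply]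
  · simp [Equiv.finsetCongr_apply]

theorem ls1_fem {L : ℕ} (g0 : ℂ[X]) (f : ℕ → ℂ[X]) (U : PowerSeries ℂ) (hU : Ex g0 * U = 1)
    (N : ∀ k, (1 - X) ^ L ∣ (-1) ^ k * expand ℂ 2 (f k) * g0 ^ 2 -
      expand ℂ 2 g0 * ∑ q ∈ antidiagonal (2 * k), (-1) ^ q.2 * f q.1 * f q.2) :
    FEm L fun k => Ex (f k) * U := by
  intro k
  have h := ((Ex_dvd_iff L _).2 (N k)).mul_right (U ^ 2 * PowerSeries.rescale 2 U)
  have h2 : PowerSeries.rescale (2 : ℂ) (Ex g0) * PowerSeries.rescale 2 U = 1 := by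
    rw [← map_mul, hU, map_one]
  simp only [map_sub, map_mul, map_pow, map_neg, map_one, map_sum, Ex_expand] at h ⊢
  have e : ∑ q ∈ antidiagonal (2 * k), (-1) ^ q.2 * (Ex (f q.1) * U) * (Ex (f q.2) * U) =
      (∑ q ∈ antidiagonal (2 * k), (-1) ^ q.2 * Ex (f q.1) * Ex (f q.2)) * U ^ 2 := by
    rw [Finset.sum_mul]
    exact Finset.sum_congr rfl fun q _ => by ring
  rw [e]
  generalize (∑ q ∈ antidiagonal (2 * k), (-1) ^ q.2 * Ex (f q.1) * Ex (f q.2)) = S at h ⊢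
  refine (dvd_iff_dvd_of_dvd_sub ?_).1 h
  refine Dvd.intro 0 ?_
  linear_combination (-((-1) ^ k * PowerSeries.rescale 2 (Ex (f k)) * PowerSeries.rescale 2 U *
    (Ex g0 * U + 1))) * hU + (S * U ^ 2) * h2

theorem ls1_coeff {L i : ℕ} (hi : i < L) {a b : PowerSeries ℂ}
    (h : (PowerSeries.X : PowerSeries ℂ) ^ L ∣ a - b) :
    PowerSeries.coeff i a = PowerSeries.coeff i b := by
  have := PowerSeries.X_pow_dvd_iff.1 h i hi
  rwa [map_sub, sub_eq_zero] at this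

theorem ls1_div {L : ℕ} {g0 p q : ℂ[X]} {U : PowerSeries ℂ} (hU : Ex g0 * U = 1)
    (h : (1 - X) ^ L ∣ p - g0 * q) :
    (PowerSeries.X : PowerSeries ℂ) ^ L ∣ Ex p * U - Ex q := by
  have h' := ((Ex_dvd_iff L _).2 h).mul_right U
  have e : Ex (p - g0 * q) * U = Ex p * U - Ex q := by
    rw [map_sub, map_mul]
    linear_combination (-Ex q) * hU
  rwa [e] at h'

theorem s1_poly {c s γ L : ℕ} (g ε π : ℕ → ℂ[X]) (hL : γ + s + (c + 1) < L)
    (h0 : (g 0).eval 1 ≠ 0) (gz : ∀ k, c + 1 < k → g k = 0) (εz : ∀ k, c + 1 < k → ε k = 0)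
    (πz : ∀ k, s < k → π k = 0) (hπ : ¬ (1 - X) ^ (γ + 1) ∣ π 0)
    (N1 : ∀ k, (1 - X) ^ L ∣ (-1) ^ k * expand ℂ 2 (g k) * g 0 ^ 2 -
      expand ℂ 2 (g 0) * ∑ q ∈ antidiagonal (2 * k), (-1) ^ q.2 * g q.1 * g q.2)
    (N1' : ∀ k, (1 - X) ^ L ∣ (-1) ^ k * expand ℂ 2 (ε k) * g 0 ^ 2 -
      expand ℂ 2 (g 0) * ∑ q ∈ antidiagonal (2 * k), (-1) ^ q.2 * ε q.1 * ε q.2)
    (top : (1 - X) ^ L ∣ g (c + 1) - X ^ s * g 0) (e0 : (1 - X) ^ L ∣ ε 0 - g 0)
    (e1 : (1 - X) ^ L ∣ ε 1 - g c)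
    (eq : ∀ k, (1 - X) ^ L ∣ ∑ q ∈ antidiagonal k, ε q.1 * (X ^ q.2 * π q.2) -
      g 0 * ∑ q ∈ antidiagonal k, C ((c + 1).choose q.1 : ℂ) * X ^ (s * q.1) * π q.2) :
    ∃ β : Fin (c + 1) → ℕ, Monotone β ∧ ∑ j, β j ≤ s ∧ ∀ k, (1 - X) ^ L ∣
      g k - g 0 * ∑ J ∈ powersetCard k (univ : Finset (Fin (c + 1))), X ^ (∑ j ∈ J, β j) := by
  obtain ⟨U, hU⟩ : ∃ U : PowerSeries ℂ, Ex (g 0) * U = 1 :=
    ⟨_, PowerSeries.mul_inv_cancel _ (by rwa [constantCoeff_Ex])⟩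
  have F := ls1_fem (g 0) g U hU N1
  have F' := ls1_fem (g 0) ε U hU N1'
  have z : ∀ k, c + 1 < k → Ex (g k) * U = 0 := fun k hk => by rw [gz k hk, map_zero, zero_mul]
  have z' : ∀ k, c + 1 < k → Ex (ε k) * U = 0 := fun k hk => by rw [εz k hk, map_zero, zero_mul]
  have hC : ∀ a : ℂ, Ex (C a) = PowerSeries.C a := fun a => by
    rw [← Polynomial.algebraMap_eq, AlgHom.commutes]
    rfl
  obtain ⟨b, hb, hch⟩ := lines_roots (c := c + 1) (s := s) (γ := γ) (L := L) (fun k => Ex (π k))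
    (fun k => Ex (ε k) * U) (fun k hk => by rw [πz k hk, map_zero]) z'
    (fun h => hπ ((Ex_dvd_iff _ _).1 h)) hL (fun k => by
      have h := ls1_div hU (eq k)
      simp only [map_sum, map_mul, Ex_X_pow, hC] at h
      rw [Finset.sum_mul] at h
      have e : ∀ q : ℕ × ℕ, Ex (ε q.1) * (ex q.2 * Ex (π q.2)) * U =
          Ex (ε q.1) * U * (ex q.2 * Ex (π q.2)) := fun q => by ring
      simpa only [e] using h)
  have r0 : (PowerSeries.X : PowerSeries ℂ) ^ L ∣ Ex (ε 0) * U - 1 := by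
    have := ls1_div (q := 1) hU (by rwa [mul_one])
    rwa [map_one] at this
  have r1 := fem_unique F' r0 z' hch 1
  rw [esy_one] at r1
  have rc : (PowerSeries.X : PowerSeries ℂ) ^ L ∣ Ex (g c) * U - ∑ j, ex ((s : ℂ) - b j) := by
    have h := ((Ex_dvd_iff L _).2 e1).mul_right U
    have := dvd_sub r1 h
    rwa [map_sub, show Ex (ε 1) * U - ∑ j, ex ((s : ℂ) - b j) - (Ex (ε 1) - Ex (g c)) * U =
      Ex (g c) * U - ∑ j, ex ((s : ℂ) - b j) by ring] at this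
  have rt : (PowerSeries.X : PowerSeries ℂ) ^ L ∣ Ex (g (c + 1)) * U - ex s := by
    have := ls1_div (q := X ^ s) hU (by rwa [mul_comm (g 0)])
    rwa [Ex_X_pow] at this
  obtain ⟨x, hx⟩ := fem_exists (c := c) F (by omega) (by simp only [hU, map_one]) z
    (by
      have := ls1_coeff (i := 0) (by omega) rt
      simpa only [PowerSeries.coeff_zero_eq_constantCoeff, constantCoeff_ex] using this)
    (by
      have := ls1_coeff (i := 0) (by omega) rc
      simp only [PowerSeries.coeff_zero_eq_constantCoeff, map_sum, constantCoeff_ex] at this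
      simpa using this)
  have ru := fem_unique F (by simp only [hU, sub_self, dvd_zero]) z hx
  have hs : ∑ j, x j = s := by
    have a1 := ls1_coeff (i := 1) (by omega) (ru (c + 1))
    have a2 := ls1_coeff (i := 1) (by omega) rt
    rw [esy_top, a2, coeff_ex, coeff_ex] at a1
    simpa using a1.symm
  obtain ⟨e, he⟩ := esy_eq_of_sum (c := c + 1) (L := L) (by omega)
    (u := fun j => (s : ℂ) - x j) (v := fun j => (s : ℂ) - b j) (by
      have a1 := ru c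
      rw [esy_pred, hs] at a1
      have := dvd_sub rc a1
      rwa [sub_sub_sub_cancel_left] at this)
  have hxb : x = fun j => ((fun i => (b i : ℂ)) (e j)) := funext fun j => sub_right_injective (he j)
  refine ⟨b ∘ Tuple.sort b, Tuple.monotone_sort b, ?_, fun k => ?_⟩
  · exact (Equiv.sum_comp (Tuple.sort b) b).le.trans hb
  · rw [← Ex_dvd_iff]
    have a1 := (ru k).mul_left (Ex (g 0))
    rw [hxb, ls1_perm (fun i => (b i : ℂ)) e, ← ls1_perm _ (Tuple.sort b)] at a1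
    have e : Ex (g k - g 0 * ∑ J ∈ powersetCard k (univ : Finset (Fin (c + 1))),
        X ^ (∑ j ∈ J, (b ∘ Tuple.sort b) j)) =
        Ex (g 0) * (Ex (g k) * U - esy (fun j => (b (Tuple.sort b j) : ℂ)) k) := by
      simp only [map_sub, map_mul, map_sum, Ex_X_pow, esy, Nat.cast_sum, Function.comp]
      linear_combination (-Ex (g k)) * hU
    rwa [e]

end Pool.Agent.HCF
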