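import Pool.Agent.P.MP_f644fa_ag.QA0

/-! Conjugates and the norm. -/

noncomputable section
namespace Pool.Agent.HCF
open Finset

theorem isInt_of_rat {z : ℂ} (hz : IsIntegral ℤ z) {q : ℚ} (h : z = q) : IsInt z := by
  have h1 : IsIntegral ℤ (algebraMap ℚ ℂ q) := by
    rw [h] at hz
    exact hz
  rw [isIntegral_algebraMap_iff (algebraMap ℚ ℂ).injective] at h1
  obtain ⟨a, ha⟩ := IsIntegrallyClosed.isIntegral_iff.1 h1
  refine ⟨a, ?_⟩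
  rw [h, ← ha]
  simp

theorem qa6_main {K : Type} [Field K] [Algebra ℚ K] [FiniteDimensional ℚ K] (g : K)
    (ι : K →ₐ[ℚ] ℂ) (hinj : ∀ σ τ : K →ₐ[ℚ] ℂ, σ g = τ g → σ = τ) (hg : IsIntegral ℤ (ι g))
    (hn : ¬ IsInt (ι g)) : ∃ S : Finset ℂ, ι g ∈ S ∧
    2 ≤ S.card ∧ (∀ z ∈ S, ¬ IsInt z) ∧
    (∀ χ : Polynomial ℤ, Polynomial.aeval (ι g) χ = 0 → ∀ z ∈ S, Polynomial.aeval z χ = 0) ∧
    (∀ z z', z ≠ z' → S = {z, z'} → IsInt (z + z') ∧ IsInt (z * z')) ∧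
    ∀ Ψ : Polynomial ℚ, Polynomial.aeval (ι g) Ψ ≠ 0 → IsIntegral ℤ (Polynomial.aeval (ι g) Ψ) →
      1 ≤ ∏ z ∈ S, ‖Polynomial.aeval z Ψ‖ := by
  classical
  have hI : ∀ x : K, IsIntegral ℤ (ι x) → ∀ σ : K →ₐ[ℚ] ℂ, IsIntegral ℤ (σ x) := fun x hx σ => by
    have h1 : IsIntegral ℤ x :=
      (isIntegral_algHom_iff (ι.restrictScalars ℤ) ι.toRingHom.injective).1 hx
    exact h1.map (σ.restrictScalars ℤ)
  have hN : ∀ x : K, IsIntegral ℤ (ι x) → IsInt (∏ σ : K →ₐ[ℚ] ℂ, σ x) := fun x hx =>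
    isInt_of_rat (IsIntegral.prod _ fun σ _ => hI x hx σ) (q := Algebra.norm ℚ x)
      (Algebra.norm_eq_prod_embeddings ℚ ℂ x).symm
  have hT : IsInt (∑ σ : K →ₐ[ℚ] ℂ, σ g) :=
    isInt_of_rat (IsIntegral.sum _ fun σ _ => hI g hg σ) (q := Algebra.trace ℚ K g)
      (trace_eq_sum_embeddings ℂ).symm
  have hi : Set.InjOn (fun σ : K →ₐ[ℚ] ℂ => σ g) (univ : Finset (K →ₐ[ℚ] ℂ)) :=
    fun σ _ τ _ h => hinj σ τ h
  refine ⟨univ.image fun σ : K →ₐ[ℚ] ℂ => σ g, mem_image.2 ⟨ι, mem_univ _, rfl⟩, ?_, ?_, ?_, ?_,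
    ?_⟩
  · by_contra h
    have h1 : #(univ.image fun σ : K →ₐ[ℚ] ℂ => σ g) ≤ 1 := by omega
    rw [card_image_of_injOn hi, card_le_one] at h1
    rw [sum_eq_single ι (fun σ _ h2 => (h2 (h1 σ (mem_univ _) ι (mem_univ _))).elim)
      (fun h2 => (h2 (mem_univ _)).elim)] at hT
    exact hn hT
  · intro z hz
    obtain ⟨σ, -, rfl⟩ := mem_image.1 hz
    rintro ⟨a, ha⟩
    have h1 : g = a := σ.toRingHom.injective (by simpa using ha)
    exact hn ⟨a, by rw [h1, map_intCast]⟩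
  · intro χ h z hz
    obtain ⟨σ, -, rfl⟩ := mem_image.1 hz
    have e : ∀ τ : K →ₐ[ℚ] ℂ, Polynomial.aeval (τ g) χ = τ (Polynomial.aeval g χ) := fun τ =>
      Polynomial.aeval_algHom_apply (τ.restrictScalars ℤ) g χ
    rw [e] at h ⊢
    rw [(map_eq_zero_iff ι ι.toRingHom.injective).1 h, map_zero]
  · intro z z' hne hS
    have h1 := hN g hg
    rw [← prod_image (f := fun z : ℂ => z) hi, hS, prod_pair hne] at h1
    rw [← sum_image (f := fun z : ℂ => z) hi, hS, sum_pair hne] at hT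
    exact ⟨hT, h1⟩
  · intro Ψ h0 h1
    rw [prod_image hi]
    simp only [Polynomial.aeval_algHom_apply] at h0 h1 ⊢
    obtain ⟨a, ha⟩ := hN _ h1
    have h2 : (a : ℂ) ≠ 0 := by
      rw [← ha]
      refine prod_ne_zero_iff.2 fun σ _ h => h0 ?_
      rw [(map_eq_zero_iff σ σ.toRingHom.injective).1 h, map_zero]
    rw [← norm_prod, ha, Complex.norm_intCast]
    exact_mod_cast Int.one_le_abs (by exact_mod_cast h2)

theorem exists_conjs {δ : ℂ} (hδ : IsIntegral ℤ δ) (hn : ¬ IsInt δ) : ∃ S : Finset ℂ, δ ∈ S ∧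
    2 ≤ S.card ∧ (∀ z ∈ S, ¬ IsInt z) ∧
    (∀ χ : Polynomial ℤ, Polynomial.aeval δ χ = 0 → ∀ z ∈ S, Polynomial.aeval z χ = 0) ∧
    (∀ z z', z ≠ z' → S = {z, z'} → IsInt (z + z') ∧ IsInt (z * z')) ∧
    ∀ Ψ : Polynomial ℚ, Polynomial.aeval δ Ψ ≠ 0 → IsIntegral ℤ (Polynomial.aeval δ Ψ) →
      1 ≤ ∏ z ∈ S, ‖Polynomial.aeval z Ψ‖ := by
  have hq : IsIntegral ℚ δ := hδ.tower_top
  have := IntermediateField.adjoin.finiteDimensional hq
  exact qa6_main (IntermediateField.AdjoinSimple.gen ℚ δ) (IntermediateField.val _)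
    (fun σ τ h => (IntermediateField.adjoin.powerBasis hq).algHom_ext h) hδ hn

theorem exists_binP (Λ : Polynomial ℤ) (a : ℤ) (m : ℕ) : ∃ Ψ : Polynomial ℚ, ∀ z : ℂ,
    Polynomial.aeval z Ψ = Polynomial.aeval z Λ * bin (z + a) m := by
  refine ⟨Λ.map (algebraMap ℤ ℚ) * ((∏ j ∈ range m, (Polynomial.X + (a : Polynomial ℚ) -
    (j : Polynomial ℚ))) * Polynomial.C ((m.factorial : ℚ)⁻¹)), fun z => ?_⟩
  rw [map_mul, Polynomial.aeval_map_algebraMap, map_mul, map_prod, Polynomial.aeval_C, bin,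
    div_eq_mul_inv]
  simp

theorem bin_ne_zero {z : ℂ} (hz : ¬ IsInt z) (a : ℤ) (m : ℕ) : bin (z + a) m ≠ 0 := by
  refine div_ne_zero (prod_ne_zero_iff.2 fun j _ h => hz ⟨j - a, ?_⟩)
    (by exact_mod_cast m.factorial_ne_zero)
  push_cast
  linear_combination h

end Pool.Agent.HCF
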