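import Pool.Agent.P.MP_f644fa_ag.QA4
import Pool.Agent.P.MP_f644fa_ag.QA6
import Pool.Agent.P.MP_f644fa_ag.QA7

/-! A root that is not an integer belongs to a quadratic pair. -/

noncomputable section
namespace Pool.Agent.HCF
open Finset

variable {c n η m θ : ℕ} {d : Fin c → ℂ}

theorem Loc.small (hL : Loc n η d) (hm : m + 2 * c = n + 1) (hη : η ≤ θ) (hc : 2 * c ≤ θ)
    {i₀ : Fin c} (h0 : (m : ℝ) - 4 * θ < (d i₀).re) :
    ∑ i ∈ univ.erase i₀, max (d i).re 0 ≤ 6 * (θ : ℝ) := by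
  have h1 := hL.pos
  rw [← add_sum_erase univ _ (mem_univ i₀)] at h1
  have h2 : (m : ℝ) + 2 * c = n + 1 := by exact_mod_cast hm
  have h3 : (η : ℝ) ≤ θ := by exact_mod_cast hη
  have h4 : 2 * (c : ℝ) ≤ θ := by exact_mod_cast hc
  linarith [le_max_left (d i₀).re 0]

theorem qa8_floor {z w : ℂ} {B : ℝ} (η m a : ℕ) (hw : ‖w‖ ≤ B) (h0 : 0 ≤ z.re + a)
    (h1 : |z.im| ≤ 2 * (η : ℝ)) : ∃ b : ℕ, (b : ℝ) ≤ z.re + a ∧ z.re + a < b + 1 ∧
      (b < m → ‖w * bin (z + ((a : ℤ) : ℂ)) m‖ * ((m - 1).choose b : ℕ)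
        ≤ B * ((m + (2 * η + 1) : ℕ) : ℝ) ^ (2 * (2 * η + 1) + 1)) ∧
      (m ≤ b → ‖w * bin (z + ((a : ℤ) : ℂ)) m‖ ≤ B * 2 ^ (b + (2 * η + 1))) := by
  have e1 : (z + ((a : ℤ) : ℂ)).re = z.re + a := by simp
  have e2 : (z + ((a : ℤ) : ℂ)).im = z.im := by simp
  obtain ⟨b, b1, b2, b3⟩ := exists_floor (z := z + ((a : ℤ) : ℂ)) (η := η) (by rwa [e1])
    (by rwa [e2])
  rw [e1] at b1 b2
  have hB : 0 ≤ B := (norm_nonneg _).trans hw
  refine ⟨b, b1, b2, fun hb => ?_, fun hb => ?_⟩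
  · rw [norm_mul, mul_assoc]
    exact mul_le_mul hw (bin_in (by omega) hb b3) (by positivity) hB
  · rw [norm_mul]
    exact mul_le_mul hw (bin_out hb b3) (norm_nonneg _) hB

theorem qa8_loc (hL : Loc n η d) (j : Fin c) :
    -(η : ℝ) ≤ (d j).re ∧ (d j).re ≤ n + η ∧ |(d j).im| ≤ 2 * (η : ℝ) := by
  have h1 := (single_le_sum (f := fun i => max (d i).re 0) (fun i _ => le_max_right _ _)
    (mem_univ j)).trans hL.pos
  have h2 := (single_le_sum (f := fun i => max (-(d i).re) 0) (fun i _ => le_max_right _ _)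
    (mem_univ j)).trans hL.neg
  have h3 := (single_le_sum (f := fun i => |(d i).im|) (fun i _ => abs_nonneg _)
    (mem_univ j)).trans hL.im
  exact ⟨by linarith [le_max_left (-(d j).re) 0], (le_max_left _ _).trans h1, h3⟩

theorem qa8_one {z w : ℂ} {B : ℝ} (hw : ‖w‖ ≤ B) (hθ1 : 1 ≤ θ)
    (hB : B * (((m + (2 * η + 1) : ℕ) : ℝ) ^ (2 * (2 * η + 1) + 1) * m) ≤ 2 ^ θ)
    (h0 : -(θ : ℝ) ≤ z.re) (h1 : z.re ≤ (m : ℝ) - 4 * θ) (h2 : |z.im| ≤ 2 * (η : ℝ)) :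
    ‖w * bin (z + (((2 * θ : ℕ) : ℤ) : ℂ)) m‖ ≤ 1 / 2 := by
  have t1 : (1 : ℝ) ≤ θ := by exact_mod_cast hθ1
  obtain ⟨b, b1, b2, b3, -⟩ := qa8_floor η m (2 * θ) hw (by push_cast; linarith) h2
  push_cast at b1 b2
  have c1 : θ < b + 1 := by exact_mod_cast (show (θ : ℝ) < b + 1 by linarith)
  have c2 : b + 2 * θ ≤ m := by exact_mod_cast (show (b : ℝ) + 2 * θ ≤ m by linarith)
  have c3 : (2 : ℝ) ^ θ ≤ ((m - 1).choose b : ℕ) := by
    exact_mod_cast choose_ge_two_pow (k := m - 1) (b := b) (θ := θ) (by omega) (by omega)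
  have c4 : (2 : ℝ) ≤ m := by exact_mod_cast (show 2 ≤ m by omega)
  have c5 := (mul_le_mul_of_nonneg_left c3 (norm_nonneg _)).trans (b3 (by omega))
  have c6 := (mul_le_mul_of_nonneg_right c5 (Nat.cast_nonneg m)).trans ((mul_assoc _ _ _).le.trans hB)
  generalize ‖w * bin (z + (((2 * θ : ℕ) : ℤ) : ℂ)) m‖ = f at c6
  have c7 : f * m ≤ 1 := by
    refine le_of_mul_le_mul_right ?_ (show (0 : ℝ) < 2 ^ θ by positivity)
    linarith
  by_contra hf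
  nlinarith [not_le.1 hf]

theorem qa8_mid {z w : ℂ} {B : ℝ} (hw : ‖w‖ ≤ B) (hθ1 : 1 ≤ θ) (hθ : 50 * θ ≤ m)
    (hB : B * (((m + (2 * η + 1) : ℕ) : ℝ) ^ (2 * (2 * η + 1) + 1) * m) ≤ 2 ^ θ)
    (h0 : -(θ : ℝ) ≤ z.re) (h1 : z.re ≤ 6 * θ) (h2 : |z.im| ≤ 2 * (η : ℝ)) :
    ‖w * bin (z + ((((m - 1) / 2 + θ : ℕ) : ℤ) : ℂ)) m‖ ≤ 2 ^ (8 * θ) / 2 ^ (m - 1) := by
  have k0 : (0 : ℝ) ≤ ((m - 1) / 2 : ℕ) := Nat.cast_nonneg _
  obtain ⟨b, b1, b2, b3, -⟩ := qa8_floor η m ((m - 1) / 2 + θ) hw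
    (by rw [Nat.cast_add]; linarith) h2
  rw [Nat.cast_add] at b1 b2
  have c1 : (m - 1) / 2 < b + 1 := by
    exact_mod_cast (show (((m - 1) / 2 : ℕ) : ℝ) < b + 1 by linarith)
  have c2 : b ≤ (m - 1) / 2 + 7 * θ := by
    exact_mod_cast (show (b : ℝ) ≤ ((m - 1) / 2 : ℕ) + 7 * θ by linarith)
  obtain ⟨s, rfl⟩ : ∃ s, b = (m - 1) / 2 + s := ⟨b - (m - 1) / 2, by omega⟩
  have c3 := choose_mid (k := m - 1) (s := s) (by omega)
  rw [show m - 1 + 1 = m by omega] at c3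
  have c4 : (2 : ℝ) ^ (m - 1) ≤ m * 2 ^ (7 * θ) * ((m - 1).choose ((m - 1) / 2 + s) : ℕ) := by
    have : 2 ^ (m - 1) ≤ m * 2 ^ (7 * θ) * (m - 1).choose ((m - 1) / 2 + s) :=
      c3.trans (Nat.mul_le_mul_right _ (Nat.mul_le_mul_left _
        (Nat.pow_le_pow_right two_pos (by omega))))
    exact_mod_cast this
  have c5 := b3 (by omega)
  have c0 := norm_nonneg (w * bin (z + ((((m - 1) / 2 + θ : ℕ) : ℤ) : ℂ)) m)
  generalize ‖w * bin (z + ((((m - 1) / 2 + θ : ℕ) : ℤ) : ℂ)) m‖ = f at c5 c0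
  have c6 := (mul_le_mul_of_nonneg_right c5 (Nat.cast_nonneg m)).trans ((mul_assoc _ _ _).le.trans hB)
  rw [le_div_iff₀ (by positivity), show 8 * θ = θ + 7 * θ by ring, pow_add]
  refine (mul_le_mul_of_nonneg_left c4 c0).trans (le_trans (le_of_eq ?_)
    (mul_le_mul_of_nonneg_right c6 (by positivity)))
  ring

theorem qa8_top {z w : ℂ} {B : ℝ} (hw : ‖w‖ ≤ B) (hη : η ≤ θ) (hθ1 : 1 ≤ θ) (hθ : 50 * θ ≤ m)
    (hB : B * (((m + (2 * η + 1) : ℕ) : ℝ) ^ (2 * (2 * η + 1) + 1) * m) ≤ 2 ^ θ)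
    (h0 : (m : ℝ) - 4 * θ < z.re) (h1 : z.re ≤ m + 2 * θ) (h2 : |z.im| ≤ 2 * (η : ℝ)) :
    ‖w * bin (z + ((((m - 1) / 2 + θ : ℕ) : ℤ) : ℂ)) m‖
      ≤ 2 ^ (m + (m - 1) / 2 + 6 * θ + 1) := by
  have k0 : 3 * (θ : ℝ) ≤ ((m - 1) / 2 : ℕ) := by
    exact_mod_cast (show 3 * θ ≤ (m - 1) / 2 by omega)
  have m1 : (1 : ℝ) ≤ m := by exact_mod_cast (show 1 ≤ m by omega)
  obtain ⟨b, b1, b2, -, b3⟩ := qa8_floor η m ((m - 1) / 2 + θ) hw
    (by rw [Nat.cast_add]; linarith) h2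
  rw [Nat.cast_add] at b1 b2
  have c1 : m < b + 1 := by exact_mod_cast (show (m : ℝ) < b + 1 by linarith)
  have c2 : b ≤ m + (m - 1) / 2 + 3 * θ := by
    exact_mod_cast (show (b : ℝ) ≤ m + ((m - 1) / 2 : ℕ) + 3 * θ by linarith)
  have c3 : (1 : ℝ) ≤ ((m + (2 * η + 1) : ℕ) : ℝ) ^ (2 * (2 * η + 1) + 1) * m :=
    one_le_mul_of_one_le_of_one_le (one_le_pow₀ (by exact_mod_cast (by omega))) m1
  have c4 : B ≤ 2 ^ θ := (le_mul_of_one_le_right ((norm_nonneg _).trans hw) c3).trans hB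
  refine (b3 (by omega)).trans ((mul_le_mul_of_nonneg_right c4 (by positivity)).trans ?_)
  rw [← pow_add]
  exact pow_le_pow_right₀ one_le_two (by omega)

theorem exists_pair {χ : Polynomial ℤ}
    (hχ : χ.map (Int.castRingHom ℂ) = ∏ i, (Polynomial.X - Polynomial.C (d i)))
    (hL : Loc n η d) (hm : m + 2 * c = n + 1) (hη : η ≤ θ) (hc : 2 * c ≤ θ) (hθ : 50 * θ ≤ m)
    {B : ℝ} (hW : Win d m B)
    (hB : B * (((m + (2 * η + 1) : ℕ) : ℝ) ^ (2 * (2 * η + 1) + 1) * m) ≤ 2 ^ θ)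
    {i : Fin c} (hi : ¬ IsInt (d i)) :
    ∃ i₀ i₁, Pr d ((m : ℝ) - 4 * θ) i₀ i₁ ∧ (d i = d i₀ ∨ d i = d i₁) := by
  classical
  have hθ2 : 2 ≤ θ := by have := i.2; omega
  obtain ⟨S, hS, h2, hn, hr, hp, hprod⟩ := exists_conjs (chi_integral hχ i) hi
  have hd : ∀ z ∈ S, ∃ j, z = d j := fun z hz =>
    (chi_root hχ z).1 (hr χ ((chi_root hχ _).2 ⟨i, rfl⟩) z hz)
  obtain ⟨Λ, hΛ0, hΛ1, hΛ2⟩ := hW i
  have key : ∀ a : ℤ, 1 ≤ ∏ z ∈ S, ‖Polynomial.aeval z Λ * bin (z + a) m‖ := fun a => by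
    obtain ⟨Ψ, hΨ⟩ := exists_binP Λ a m
    have := hprod Ψ (by rw [hΨ]; exact mul_ne_zero hΛ0 (bin_ne_zero hi a m))
      (by rw [hΨ]; exact hΛ2 a)
    simpa only [hΨ] using this
  have r1 : (η : ℝ) ≤ θ := by exact_mod_cast hη
  have r2 : (m : ℝ) + 2 * c = n + 1 := by exact_mod_cast hm
  have r3 : 2 * (c : ℝ) ≤ θ := by exact_mod_cast hc
  by_cases hall : ∀ z ∈ S, z.re ≤ (m : ℝ) - 4 * θ
  · exfalso
    have a1 := (key ((2 * θ : ℕ) : ℤ)).trans (prod_le_prod (g := fun _ => (1 / 2 : ℝ))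
      (fun _ _ => norm_nonneg _) fun z hz => by
        obtain ⟨j, rfl⟩ := hd z hz
        have := qa8_loc hL j
        exact qa8_one (hΛ1 j) (by omega) hB (by linarith [this.1]) (hall _ hz) this.2.2)
    rw [prod_const] at a1
    exact absurd a1 (not_le.2 (pow_lt_one₀ (by norm_num) (by norm_num) (by omega)))
  push Not at hall
  obtain ⟨z, hz, hbig⟩ := hall
  obtain ⟨i₀, rfl⟩ := hd z hz
  have hcard : #S = 2 := by
    by_contra h3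
    have a0 := qa8_loc hL i₀
    have a1 := key (((m - 1) / 2 + θ : ℕ) : ℤ)
    rw [← mul_prod_erase S _ hz] at a1
    have a2 := qa8_top (hΛ1 i₀) hη (by omega) hθ hB hbig (by linarith [a0.2.1]) a0.2.2
    have q0 : (0 : ℝ) ≤ 2 ^ (8 * θ) / 2 ^ (m - 1) := by positivity
    have q1 : (2 : ℝ) ^ (8 * θ) / 2 ^ (m - 1) ≤ 1 := by
      rw [div_le_one (by positivity)]
      exact pow_le_pow_right₀ one_le_two (by omega)
    have a3 : ∏ z ∈ S.erase (d i₀),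
        ‖Polynomial.aeval z Λ * bin (z + ((((m - 1) / 2 + θ : ℕ) : ℤ) : ℂ)) m‖
        ≤ (2 ^ (8 * θ) / 2 ^ (m - 1)) ^ 2 := by
      refine (prod_le_prod (g := fun _ => (2 ^ (8 * θ) / 2 ^ (m - 1) : ℝ))
        (fun _ _ => norm_nonneg _) fun z hz' => ?_).trans ?_
      · obtain ⟨j, rfl⟩ := hd z (mem_of_mem_erase hz')
        have hj : j ≠ i₀ := fun e => ne_of_mem_erase hz' (by rw [e])
        have b1 := qa8_loc hL j
        have b2 := (single_le_sum (f := fun i => max (d i).re 0) (fun i _ => le_max_right _ _)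
          (mem_erase.2 ⟨hj, mem_univ j⟩)).trans (hL.small hm hη hc hbig)
        exact qa8_mid (hΛ1 j) (by omega) hθ hB (by linarith [b1.1])
          ((le_max_left _ _).trans b2) b1.2.2
      · rw [prod_const]
        exact pow_le_pow_of_le_one q0 q1 (by rw [card_erase_of_mem hz]; omega)
    have a4 := a1.trans (mul_le_mul a2 a3 (prod_nonneg fun _ _ => norm_nonneg _) (by positivity))
    rw [div_pow, ← mul_div_assoc, one_le_div (by positivity), ← pow_mul, ← pow_mul, ← pow_add,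
      pow_le_pow_iff_right₀ one_lt_two] at a4
    omega
  have h1 : #(S.erase (d i₀)) = 1 := by rw [card_erase_of_mem hz, hcard]
  obtain ⟨y, hy⟩ := card_eq_one.1 h1
  have hy1 : y ∈ S.erase (d i₀) := by rw [hy]; exact mem_singleton_self y
  obtain ⟨i₁, rfl⟩ := hd y (mem_of_mem_erase hy1)
  have e : S = {d i₀, d i₁} := by rw [← insert_erase hz, hy]
  have hne : d i₀ ≠ d i₁ := (ne_of_mem_erase hy1).symm
  refine ⟨i₀, i₁, ⟨hbig, hne, hn _ hz, hn _ (mem_of_mem_erase hy1), (hp _ _ hne e).1,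
    (hp _ _ hne e).2⟩, ?_⟩
  rw [e] at hS
  simpa using hS

end Pool.Agent.HCF
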