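import Pool.Agent.P.MP_f644fa_ag.QA10
import Pool.Agent.P.MP_f644fa_ag.QA8
import Pool.Agent.P.MP_f644fa_ag.QA1

/-! No quadratic pair. -/

noncomputable section
namespace Pool.Agent.HCF
open Finset Polynomial

theorem qa11_coeff {ι : Type} (s : Finset ι) (a : ι → ℕ) (ha : ∀ i ∈ s, a i ≠ 0) :
    (∏ i ∈ s, (1 - X ^ a i : ℤ[X])).coeff 0 = 1 := by
  rw [coeff_zero_eq_eval_zero, eval_prod]
  refine prod_eq_one fun i hi => ?_
  rw [eval_sub, eval_one, eval_pow, eval_X, zero_pow (ha i hi), sub_zero]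

theorem qa11_deg1 (k : ℕ) : (1 - X ^ k : ℤ[X]).natDegree ≤ k :=
  (natDegree_sub_le _ _).trans (max_le (by simp) (by simp))

theorem qa11_deg {ι : Type} (s : Finset ι) (a : ι → ℕ) :
    (∏ i ∈ s, (1 - X ^ a i : ℤ[X])).natDegree ≤ ∑ i ∈ s, a i :=
  (natDegree_prod_le _ _).trans (sum_le_sum fun i _ => qa11_deg1 (a i))

theorem qa11_nd {ι : Type} (s : Finset ι) (a : ι → ℕ) (ha : ∀ i ∈ s, a i ≠ 0) (z z' : ℂ) :
    ¬ (PowerSeries.X : PowerSeries ℂ) ^ (s.card + 1) ∣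
      Ez (∏ i ∈ s, (1 - X ^ a i)) * (ex z + ex z') := by
  choose u hu hu' using fun i : ι => one_sub_ex ((a i : ℕ) : ℂ)
  have e : Ez (∏ i ∈ s, (1 - X ^ a i)) = PowerSeries.X ^ s.card * ∏ i ∈ s, u i := by
    rw [map_prod, ← prod_const, ← prod_mul_distrib]
    refine prod_congr rfl fun i _ => ?_
    rw [map_sub, map_one, Ez_X_pow, hu]
  intro h
  rw [e, pow_succ, mul_assoc, mul_dvd_mul_iff_left (pow_ne_zero _ PowerSeries.X_ne_zero),
    PowerSeries.X_dvd_iff, map_mul, map_prod, map_add, constantCoeff_ex, constantCoeff_ex] at h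
  rcases mul_eq_zero.1 h with h | h
  · obtain ⟨i, hi, h⟩ := prod_eq_zero_iff.1 h
    rw [hu', neg_eq_zero, Nat.cast_eq_zero] at h
    exact ha i hi h
  · norm_num at h

theorem qa11_toNat (z : ℤ) : (((-z).toNat : ℕ) : ℝ) = max (-(z : ℝ)) 0 := by
  have : (((-z).toNat : ℕ) : ℤ) = max (-z) 0 := Int.toNat_eq_max _
  have h : ((((-z).toNat : ℕ) : ℤ) : ℝ) = ((max (-z) 0 : ℤ) : ℝ) := by rw [this]
  rw [Int.cast_natCast, Int.cast_max, Int.cast_neg, Int.cast_zero] at h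
  exact h

theorem qa11_natAbs (z : ℤ) : ((z.natAbs : ℕ) : ℝ) = max (z : ℝ) 0 + max (-(z : ℝ)) 0 := by
  rw [Nat.cast_natAbs, Int.cast_abs]
  rcases le_total 0 (z : ℝ) with k | k
  · rw [abs_of_nonneg k, max_eq_left k, max_eq_right (by linarith), add_zero]
  · rw [abs_of_nonpos k, max_eq_right k, max_eq_left (by linarith), zero_add]

theorem qa11_num {c n θ l j₀ : ℕ} (hl : n < 2 ^ l) (hθ : 3 * c + 2 * l + j₀ + 8 ≤ θ) :
    9 * ((2 * n : ℕ) : ℤ) ^ 2 * (2 ^ c) ^ 2 * (2 ^ c * 2 ^ j₀ * 4) ≤ 2 ^ θ := by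
  have a : (n : ℤ) ≤ 2 ^ l := by exact_mod_cast hl.le
  have b : ((2 * n : ℕ) : ℤ) ^ 2 ≤ (2 * 2 ^ l) ^ 2 :=
    pow_le_pow_left₀ (by positivity) (by push_cast; linarith) 2
  calc _ ≤ 9 * (2 * 2 ^ l : ℤ) ^ 2 * (2 ^ c) ^ 2 * (2 ^ c * 2 ^ j₀ * 4) := by gcongr
    _ = 144 * 2 ^ (3 * c + 2 * l + j₀) := by ring
    _ ≤ 256 * 2 ^ (3 * c + 2 * l + j₀) := by gcongr; norm_num
    _ = 2 ^ (3 * c + 2 * l + j₀ + 8) := by ring
    _ ≤ 2 ^ θ := pow_le_pow_right₀ (by norm_num) hθ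

variable {c n η m θ l j₀ : ℕ} {d : Fin c → ℂ} {h : ℤ[X]}

theorem Ari.no_pair (A : Ari c n d h) (hL : Loc n η d) (hm : m + 2 * c = n + 1) (hη : η ≤ θ)
    (hn : 100 * θ ≤ n) (hl : n < 2 ^ l) (hj : h.eval 1 < 2 ^ j₀)
    (hθ : 3 * c + 2 * l + j₀ + 8 ≤ θ) {i₀ i₁ : Fin c} (hp : Pr d ((m : ℝ) - 4 * θ) i₀ i₁)
    (hi : ∀ i, i ≠ i₀ → i ≠ i₁ → IsInt (d i)) : False := by
  have hne : i₁ ≠ i₀ := fun e => hp.ne (by rw [e])
  obtain ⟨s, hs⟩ : ∃ s, s = (univ.erase i₀).erase i₁ := ⟨_, rfl⟩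
  have h1m : i₁ ∈ univ.erase i₀ := mem_erase.2 ⟨hne, mem_univ _⟩
  have hs0 : s ⊆ univ.erase i₀ := hs ▸ erase_subset _ _
  have hz : ∀ i, ∃ z : ℤ, i ∈ s → d i = z := by
    intro i
    by_cases k : i ∈ s
    · rw [hs] at k
      obtain ⟨z, e⟩ := hi i (mem_erase.1 (mem_erase.1 k).2).1 (mem_erase.1 k).1
      exact ⟨z, fun _ => e⟩
    · exact ⟨0, fun k' => absurd k' k⟩
  choose z hz using hz
  have hre : ∀ i ∈ s, (d i).re = z i := fun i k => by rw [hz i k, Complex.intCast_re]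
  have hz0 : ∀ i ∈ s, (z i).natAbs ≠ 0 := by
    intro i k e
    have e' : d i = 0 := by rw [hz i k, Int.natAbs_eq_zero.1 e, Int.cast_zero]
    have a := A.prod (by omega)
    rw [prod_eq_zero (mem_univ i) e'] at a
    exact A.pos.ne (by exact_mod_cast a)
  have hcard : s.card ≤ c := (card_le_univ s).trans (by simp)
  have hηθ : (η : ℝ) ≤ θ := by exact_mod_cast hη
  have hnr : 100 * (θ : ℝ) ≤ n := by exact_mod_cast hn
  have hmr : (m : ℝ) + 2 * c = n + 1 := by exact_mod_cast hm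
  have hcr : 3 * (c : ℝ) ≤ θ := by exact_mod_cast (show 3 * c ≤ θ by omega)
  have hθ0 : (0 : ℝ) ≤ θ := Nat.cast_nonneg _
  have hneg : ∑ i ∈ s, max (-(d i).re) 0 ≤ (η : ℝ) :=
    (sum_le_sum_of_subset_of_nonneg (subset_univ s) fun i _ _ => le_max_right _ _).trans hL.neg
  have hpos : ∑ i ∈ s, max (d i).re 0 ≤ 6 * (θ : ℝ) :=
    (sum_le_sum_of_subset_of_nonneg hs0 fun i _ _ => le_max_right _ _).trans
      (hL.small hm hη (by omega) hp.big)
  have hM : ∑ i ∈ s, (-z i).toNat ≤ θ := by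
    have : ((∑ i ∈ s, (-z i).toNat : ℕ) : ℝ) ≤ θ := by
      rw [Nat.cast_sum]
      refine le_trans (le_of_eq (sum_congr rfl fun i k => ?_)) (hneg.trans hηθ)
      rw [qa11_toNat, hre i k]
    exact_mod_cast this
  have hS : ∑ i ∈ s, (z i).natAbs ≤ 7 * θ := by
    have : ((∑ i ∈ s, (z i).natAbs : ℕ) : ℝ) ≤ 7 * θ := by
      rw [Nat.cast_sum, sum_congr rfl fun i k => (qa11_natAbs (z i)).trans (by rw [← hre i k]),
        sum_add_distrib]
      linarith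
    exact_mod_cast this
  obtain ⟨A₀, hA⟩ := hp.add
  obtain ⟨ν, hν⟩ := hp.mul
  have hAre : (d i₀).re + (d i₁).re = A₀ := by rw [← Complex.add_re, hA, Complex.intCast_re]
  have hA0 : 0 ≤ A₀ := by
    have a : max (-(d i₁).re) 0 ≤ (η : ℝ) :=
      (single_le_sum (f := fun i => max (-(d i).re) 0) (fun i _ => le_max_right _ _)
        (mem_univ i₁)).trans hL.neg
    have b := le_max_left (-(d i₁).re) 0
    have : (0 : ℝ) ≤ A₀ := by linarith [hp.big]
    exact_mod_cast this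
  obtain ⟨a, rfl⟩ := Int.eq_ofNat_of_zero_le hA0
  have ha : a ≤ n + θ := by
    have b : ∑ i ∈ ({i₀, i₁} : Finset (Fin c)), max (d i).re 0 ≤ (n : ℝ) + η :=
      (sum_le_sum_of_subset_of_nonneg (subset_univ _) fun i _ _ => le_max_right _ _).trans hL.pos
    rw [sum_pair hne.symm] at b
    have b0 := le_max_left (d i₀).re 0
    have b1 := le_max_left (d i₁).re 0
    rw [Int.cast_natCast] at hAre
    have : (a : ℝ) ≤ n + θ := by linarith
    exact_mod_cast this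
  have hνb : |ν| ≤ ((2 * n : ℕ) : ℤ) ^ 2 := by
    have b : ∀ i, ‖d i‖ ≤ 2 * (n : ℝ) := fun i =>
      (single_le_sum (f := fun i => ‖d i‖) (fun i _ => norm_nonneg _) (mem_univ i)).trans
        (hL.norm_le.trans (by linarith))
    have b2 : ‖d i₀ * d i₁‖ ≤ (2 * (n : ℝ)) ^ 2 := by
      rw [norm_mul, sq]
      exact mul_le_mul (b _) (b _) (norm_nonneg _) (by positivity)
    rw [hν, Complex.norm_intCast] at b2
    exact_mod_cast b2
  obtain ⟨ε, hε, hP⟩ := prod_int s z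
  have c0 := qa11_coeff s (fun i => (z i).natAbs) hz0
  have dP := (qa11_deg s fun i => (z i).natAbs).trans hS
  have bP : Bd (∏ i ∈ s, (1 - X ^ (z i).natAbs)) (2 ^ c) :=
    (bd_prod s fun i => (z i).natAbs).mono (pow_le_pow_right₀ (by norm_num) hcard)
  have nd := qa11_nd s (fun i => (z i).natAbs) hz0 (d i₀) (d i₁)
  generalize (∏ i ∈ s, (1 - X ^ (z i).natAbs : ℤ[X])) = P at hP c0 dP bP nd
  generalize ∑ i ∈ s, (-z i).toNat = M at hP hM
  have hε2 : (PowerSeries.C (ε : ℂ) : PowerSeries ℂ) * PowerSeries.C (ε : ℂ) = 1 := by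
    rw [← map_mul]
    rcases hε with rfl | rfl <;> simp
  have hε1 : |ε| = 1 := by rcases hε with rfl | rfl <;> simp
  have hprod : ∏ i, (1 - ex (d i)) =
      (1 - ex (d i₀)) * ((1 - ex (d i₁)) * ∏ i ∈ s, (1 - ex (z i))) := by
    rw [← mul_prod_erase _ _ (mem_univ i₀), ← mul_prod_erase _ _ h1m, ← hs,
      prod_congr rfl fun i k => show 1 - ex (d i) = 1 - ex (z i) by rw [hz i k]]
  have hex : ex (d i₀) * ex (d i₁) = ex (a : ℂ) := by rw [← ex_add, hA, Int.cast_natCast]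
  obtain ⟨Y, hY⟩ : ∃ Y : ℤ[X], Y = P * (1 + X ^ a) - C ε * X ^ M * h * (1 - X) ^ c := ⟨_, rfl⟩
  have hdv : (PowerSeries.X : PowerSeries ℂ) ^ (n + 1 - c) ∣
      Ez Y - Ez P * (ex (d i₀) + ex (d i₁)) := by
    have e : Ez Y - Ez P * (ex (d i₀) + ex (d i₁)) = -(PowerSeries.C (ε : ℂ) * ex (M : ℂ)) *
        (Ez h * (1 - ex 1) ^ c - ∏ i, (1 - ex (d i))) := by
      rw [map_mul, Ez_C] at hP
      rw [hY, hprod]
      simp only [map_sub, map_mul, map_add, map_one, map_pow (Ez) (1 - X), Ez_X_pow, Ez_C, Ez_X]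
      rw [← hex]
      linear_combination (-(PowerSeries.C (ε : ℂ)) * (1 - ex (d i₀)) * (1 - ex (d i₁))) * hP -
        Ez P * (1 - ex (d i₀)) * (1 - ex (d i₁)) * hε2
    rw [e]
    exact A.rel.mul_left _
  have dY : Y.natDegree ≤ n + 8 * θ := by
    rw [hY]
    refine (natDegree_sub_le _ _).trans (max_le (natDegree_mul_le.trans ?_) ?_)
    · have : (1 + X ^ a : ℤ[X]).natDegree ≤ a :=
        (natDegree_add_le _ _).trans (max_le (by simp) (by simp))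
      omega
    · have b1 : (C ε * X ^ M : ℤ[X]).natDegree ≤ M := natDegree_C_mul_X_pow_le ε M
      have b2 : ((1 - X) ^ c : ℤ[X]).natDegree ≤ c * 1 :=
        natDegree_pow_le_of_le c (by simpa using qa11_deg1 1)
      have b3 := natDegree_mul_le (p := C ε * X ^ M * h) (q := (1 - X) ^ c)
      have b4 := natDegree_mul_le (p := C ε * X ^ M) (q := h)
      have b5 := A.deg
      omega
  have bY : Bd Y (2 ^ c * 2 ^ j₀ * 4) := by
    have b1 : Bd (1 + X ^ a) (1 + 1) := by simpa using (bd_X_pow 0).add (bd_X_pow a)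
    have b2 := (((bd_C ε).mul (bd_X_pow M)).mul ((bd_self A.nn).mono hj.le)).mul (bd_pow c)
    rw [hY]
    refine ((bP.mul b1).sub b2).mono ?_
    rw [hε1]
    have b3 : (1 : ℤ) ≤ 2 ^ j₀ := one_le_pow₀ (by norm_num)
    have b4 : (0 : ℤ) < 2 ^ c := by positivity
    nlinarith
  have hY0 : Y = 0 := by
    by_contra k
    refine odeT_ne hA hν hp.n0 hp.n1 c0 k (eq_zero_of_order (k := n - 1 - c) (r := 23 * θ) (θ := θ)
      (odeT_order hA hν ?_) ((odeT_deg _ _).trans (by omega))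
      ((odeT_bd (N := 2 * n) bP bY (by omega) (by omega) ?_ hνb).mono (qa11_num hl hθ)) (by omega))
    · rw [show n - 1 - c + 2 = n + 1 - c by omega]
      exact hdv
    · rw [abs_of_nonneg hA0]
      exact_mod_cast (show a ≤ 2 * n by omega)
  rw [hY0, map_zero, zero_sub, dvd_neg] at hdv
  exact nd ((pow_dvd_pow _ (by omega)).trans hdv)

end Pool.Agent.HCF
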