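import Pool.Agent.P.MP_f644fa_ag.QA0

/-! Products of blocks of binomial coefficients. -/

noncomputable section
namespace Pool.Agent.HCF
open Finset

theorem bin_add (z : ℂ) (a b : ℕ) :
    bin z (a + b) * ((a + b).choose a : ℕ) = bin z a * bin (z - a) b := by
  unfold bin
  rw [prod_range_add]
  have h : (((a + b).choose a : ℕ) : ℂ) * (a.factorial : ℂ) * (b.factorial : ℂ) =
      ((a + b).factorial : ℂ) := by
    have h0 := Nat.add_choose_mul_factorial_mul_factorial b a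
    rw [add_comm b a] at h0
    have h1 : (a + b).choose a * a.factorial * b.factorial = (a + b).factorial := by
      rw [← h0]
      ring
    exact_mod_cast h1
  have ha : (a.factorial : ℂ) ≠ 0 := Nat.cast_ne_zero.2 a.factorial_ne_zero
  have hb : (b.factorial : ℂ) ≠ 0 := Nat.cast_ne_zero.2 b.factorial_ne_zero
  have hc : (((a + b).choose a : ℕ) : ℂ) ≠ 0 :=
    Nat.cast_ne_zero.2 (Nat.choose_pos (Nat.le_add_right a b)).ne'
  have e : ∏ x ∈ range b, (z - ((a + x : ℕ) : ℂ)) = ∏ j ∈ range b, (z - a - j) :=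
    prod_congr rfl fun j _ => by
      push_cast
      ring
  rw [e, ← h]
  field_simp

theorem blocks {x lam : ℂ} {k₀ : ℕ} (h : ∀ (a : ℤ) (k : ℕ), k ≤ k₀ →
      IsIntegral ℤ (lam * bin (x + a) k)) (W : ℕ) : ∀ m, m ≤ W * k₀ → ∀ N, m ≤ N → 1 ≤ N →
      ∃ μ : ℕ, 0 < μ ∧ (∀ q, q.Prime → q ^ μ.factorization q ≤ N ^ W) ∧
        ∀ a : ℤ, IsIntegral ℤ ((μ : ℂ) * lam ^ W * bin (x + a) m) := by
  induction W with
  | zero =>
    intro m hm N _ _
    have hm0 : m = 0 := by omega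
    subst hm0
    refine ⟨1, Nat.one_pos, fun q _ => by simp, fun a => ?_⟩
    simpa [bin] using (isIntegral_one : IsIntegral ℤ (1 : ℂ))
  | succ W ih =>
    intro m hm N hN h1
    obtain ⟨k, m', hk, hm', rfl⟩ : ∃ k m', k ≤ k₀ ∧ m' ≤ W * k₀ ∧ m = k + m' := by
      refine ⟨min m k₀, m - min m k₀, min_le_right _ _, ?_, by omega⟩
      rw [Nat.succ_mul] at hm
      omega
    obtain ⟨μ, hμ, hq, hi⟩ := ih m' hm' N (by omega) h1
    have hc : 0 < (k + m').choose k := Nat.choose_pos (Nat.le_add_right k m')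
    refine ⟨μ * (k + m').choose k, Nat.mul_pos hμ hc, fun q hp => ?_, fun a => ?_⟩
    · rw [Nat.factorization_mul hμ.ne' hc.ne', Finsupp.add_apply, pow_add, pow_succ]
      refine Nat.mul_le_mul (hq q hp) ?_
      rcases Nat.eq_zero_or_pos (k + m') with h0 | h0
      · have hk0 : k = 0 := by omega
        subst hk0
        simpa using h1
      · exact (Nat.pow_factorization_choose_le h0).trans hN
    · have e : ((μ * (k + m').choose k : ℕ) : ℂ) * lam ^ (W + 1) * bin (x + a) (k + m') =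
          ((μ : ℂ) * lam ^ W * bin (x + ((a - k : ℤ) : ℂ)) m') * (lam * bin (x + a) k) := by
        have e1 := bin_add (x + a) k m'
        have e2 : x + ((a - k : ℤ) : ℂ) = x + a - k := by
          push_cast
          ring
        rw [e2, Nat.cast_mul]
        linear_combination (μ : ℂ) * lam ^ (W + 1) * e1
      rw [e]
      exact (hi (a - k)).mul (h a k hk)

theorem gcd_small {μ D L B j₀ : ℕ} (hμ : 0 < μ) (hD : 0 < D) (hj : D < 2 ^ j₀) (hB : 1 ≤ B)
    (h : ∀ q, q.Prime → q ^ μ.factorization q ≤ B) : Nat.gcd μ (D ^ L) ≤ B ^ j₀ := by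
  set g := Nat.gcd μ (D ^ L) with hg
  have hg0 : g ≠ 0 := (Nat.gcd_pos_of_pos_left _ hμ).ne'
  have hle : g.factorization ≤ μ.factorization :=
    (Nat.factorization_le_iff_dvd hg0 hμ.ne').2 (Nat.gcd_dvd_left _ _)
  have h1 : g ≤ B ^ g.primeFactors.card := by
    calc g = g.factorization.prod (· ^ ·) := (Nat.prod_factorization_pow_eq_self hg0).symm
      _ = ∏ q ∈ g.primeFactors, q ^ g.factorization q := rfl
      _ ≤ B ^ g.primeFactors.card := by
        refine prod_le_pow_card _ _ _ fun q hq => ?_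
        have hp := Nat.prime_of_mem_primeFactors hq
        exact (Nat.pow_le_pow_right hp.pos (hle q)).trans (h q hp)
  have h2 : g.primeFactors ⊆ D.primeFactors := fun q hq => by
    have hp := Nat.prime_of_mem_primeFactors hq
    refine Nat.mem_primeFactors.2 ⟨hp, ?_, hD.ne'⟩
    exact hp.dvd_of_dvd_pow ((Nat.dvd_of_mem_primeFactors hq).trans (Nat.gcd_dvd_right _ _))
  have h3 : 2 ^ D.primeFactors.card ≤ D := by
    calc 2 ^ D.primeFactors.card ≤ ∏ q ∈ D.primeFactors, q :=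
          pow_card_le_prod _ _ _ fun q hq => (Nat.prime_of_mem_primeFactors hq).two_le
      _ ≤ D := Nat.le_of_dvd hD (Nat.prod_primeFactors_dvd D)
  have h4 : D.primeFactors.card ≤ j₀ :=
    ((Nat.pow_lt_pow_iff_right (by norm_num)).1 (h3.trans_lt hj)).le
  exact h1.trans (Nat.pow_le_pow_right hB ((card_le_card h2).trans h4))

theorem blocks_gcd {x lam : ℂ} {k₀ m W D L j₀ : ℕ} (hl : IsIntegral ℤ lam) (hW : 1 ≤ W)
    (hm : m ≤ W * k₀) (h1 : 1 ≤ m) (hD : 0 < D) (hj : D < 2 ^ j₀)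
    (h : ∀ (a : ℤ) (k : ℕ), k ≤ k₀ → IsIntegral ℤ (lam * bin (x + a) k))
    (h' : ∀ a : ℤ, IsIntegral ℤ (lam * ((D : ℂ) ^ L * bin (x + a) m))) :
    ∃ g : ℕ, 0 < g ∧ g ≤ (m ^ W) ^ j₀ ∧
      ∀ a : ℤ, IsIntegral ℤ ((g : ℂ) * lam ^ W * bin (x + a) m) := by
  obtain ⟨μ, hμ, hq, hi⟩ := blocks h W m hm m le_rfl h1
  refine ⟨Nat.gcd μ (D ^ L), Nat.gcd_pos_of_pos_left _ hμ,
    gcd_small hμ hD hj (Nat.one_le_pow _ _ h1) hq, fun a => ?_⟩
  obtain ⟨W', rfl⟩ : ∃ W', W = W' + 1 := ⟨W - 1, by omega⟩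
  have e0 := Nat.gcd_eq_gcd_ab μ (D ^ L)
  have e1 : ((Nat.gcd μ (D ^ L) : ℕ) : ℂ) =
      (μ : ℂ) * (Nat.gcdA μ (D ^ L) : ℂ) + (D : ℂ) ^ L * (Nat.gcdB μ (D ^ L) : ℂ) := by
    exact_mod_cast congrArg (Int.cast : ℤ → ℂ) e0
  have e : ((Nat.gcd μ (D ^ L) : ℕ) : ℂ) * lam ^ (W' + 1) * bin (x + a) m =
      (Nat.gcdA μ (D ^ L) : ℂ) * ((μ : ℂ) * lam ^ (W' + 1) * bin (x + a) m) +
        (Nat.gcdB μ (D ^ L) : ℂ) * (lam ^ W' * (lam * ((D : ℂ) ^ L * bin (x + a) m))) := by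
    rw [e1]
    ring
  rw [e]
  exact ((isInt_int _).isIntegral.mul (hi a)).add
    ((isInt_int _).isIntegral.mul ((hl.pow _).mul (h' a)))

end Pool.Agent.HCF
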