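import Pool.Agent.P.MP_f644fa_ag.QA8
import Pool.Agent.P.MP_f644fa_ag.QA5

/-! At most one pair of roots is not integral. -/

noncomputable section
namespace Pool.Agent.HCF
open Finset

variable {c n η m θ : ℕ} {d : Fin c → ℂ}

theorem qa8a_div {z : ℂ} (hz : IsIntegral ℤ z) {a : ℤ} (ha : a ≠ 0) (h : IsInt (z * a)) :
    IsInt z := by
  obtain ⟨b, hb⟩ := h
  have ha' : (a : ℂ) ≠ 0 := by exact_mod_cast ha
  refine isInt_of_rat hz (q := (b : ℚ) / a) ?_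
  push_cast
  rw [eq_div_iff ha', hb]

theorem qa8a_uniq (hL : Loc n η d) (hm : m + 2 * c = n + 1) (hη : η ≤ θ) (hc : 2 * c ≤ θ)
    (hθ : 50 * θ ≤ m) {i j : Fin c} (hi : (m : ℝ) - 4 * θ < (d i).re)
    (hj : (m : ℝ) - 4 * θ < (d j).re) : j = i := by
  by_contra hne
  have h1 := hL.small hm hη hc hi
  have h2 : max (d j).re 0 ≤ ∑ k ∈ univ.erase i, max (d k).re 0 :=
    single_le_sum (f := fun k => max (d k).re 0) (fun k _ => le_max_right _ _)
      (mem_erase.2 ⟨hne, mem_univ _⟩)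
  have h3 : (d j).re ≤ max (d j).re 0 := le_max_left _ _
  have h4 : (50 : ℝ) * θ ≤ m := by exact_mod_cast hθ
  have h5 : (0 : ℝ) ≤ θ := Nat.cast_nonneg _
  linarith

theorem one_pair {χ : Polynomial ℤ}
    (hχ : χ.map (Int.castRingHom ℂ) = ∏ i, (Polynomial.X - Polynomial.C (d i)))
    (hL : Loc n η d) (hm : m + 2 * c = n + 1) (hη : η ≤ θ) (hc : 2 * c ≤ θ) (hθ : 50 * θ ≤ m)
    (h : ∀ i, ¬ IsInt (d i) → ∃ i₀ i₁, Pr d ((m : ℝ) - 4 * θ) i₀ i₁ ∧ (d i = d i₀ ∨ d i = d i₁)) :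
    (∀ i, IsInt (d i)) ∨ ∃ i₀ i₁, Pr d ((m : ℝ) - 4 * θ) i₀ i₁ ∧
      ∀ i, i ≠ i₀ → i ≠ i₁ → IsInt (d i) := by
  classical
  by_cases hall : ∀ i, IsInt (d i)
  · exact Or.inl hall
  right
  obtain ⟨i, hi⟩ := not_forall.1 hall
  obtain ⟨i₀, i₁, pr, -⟩ := h i hi
  refine ⟨i₀, i₁, pr, fun j hj0 hj1 => ?_⟩
  by_contra hj
  have key : ∀ k, k ≠ i₀ → ¬ IsInt (d k) → d k = d i₁ := by
    intro k hk0 hk
    obtain ⟨j₀, j₁, pr', hor⟩ := h k hk
    have e0 : j₀ = i₀ := qa8a_uniq hL hm hη hc hθ pr.big pr'.big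
    subst e0
    rcases hor with e | e
    · exact absurd (qa8a_uniq hL hm hη hc hθ pr.big (e ▸ pr.big)) hk0
    · obtain ⟨a, ha⟩ := pr'.add.sub pr.add
      have ha' : d j₁ - d i₁ = a := by rw [← ha]; ring
      by_cases h0 : a = 0
      · rw [e, ← sub_eq_zero, ha', h0, Int.cast_zero]
      · refine absurd (qa8a_div (chi_integral hχ j₀) h0 ?_) pr.n0
        have := pr'.mul.sub pr.mul
        rwa [← mul_sub, ha'] at this
  have h10 : i₁ ≠ i₀ := fun e => pr.ne (by rw [e])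
  set t := (univ.erase i₀).filter fun k => ¬ IsInt (d k) with ht
  have hjt : j ∈ t := mem_filter.2 ⟨mem_erase.2 ⟨hj0, mem_univ _⟩, hj⟩
  have hit : i₁ ∈ t := mem_filter.2 ⟨mem_erase.2 ⟨h10, mem_univ _⟩, pr.n1⟩
  have hcard : 1 < t.card := one_lt_card.2 ⟨j, hjt, i₁, hit, hj1⟩
  have hs1 : ∑ k ∈ t, d k = t.card * d i₁ := by
    rw [sum_congr rfl fun k hk => key k (mem_erase.1 (mem_filter.1 hk).1).1 (mem_filter.1 hk).2,
      sum_const, nsmul_eq_mul]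
  have hs2 : IsInt (∑ k ∈ (univ.erase i₀).filter fun k => IsInt (d k), d k) :=
    IsInt.sum _ fun k hk => (mem_filter.1 hk).2
  have hs3 := sum_filter_add_sum_filter_not (univ.erase i₀) (fun k => IsInt (d k)) d
  have hs4 := add_sum_erase univ d (mem_univ i₀)
  refine pr.n1 (qa8a_div (chi_integral hχ i₁) (a := (t.card : ℤ) - 1) (by omega) ?_)
  have e : d i₁ * (((t.card : ℤ) - 1 : ℤ) : ℂ) = ∑ k, d k - (d i₀ + d i₁) -
      ∑ k ∈ (univ.erase i₀).filter fun k => IsInt (d k), d k := by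
    rw [← hs4, ← hs3, ← ht, hs1]
    push_cast
    ring
  rw [e]
  exact ((chi_sum hχ).sub pr.add).sub hs2

theorem window {L K j₀ W : ℕ} {h : Polynomial ℤ} {χ : Polynomial ℤ}
    (hχ : χ.map (Int.castRingHom ℂ) = ∏ i, (Polynomial.X - Polynomial.C (d i)))
    (h0 : 0 < h.eval 1) (h1 : h.eval 1 < 2 ^ j₀) (hK : IntTo K (∑ i, ex (d i)))
    (hL : IntTo L ((∑ i, ex (d i)) * Ez h)) (hmL : m + c ≤ L) (hm : 1 ≤ m) (hW : 1 ≤ W)
    (hcK : c ≤ K) (hmW : m ≤ W * (K - c)) {ρ : ℝ} (hρ : ∀ i, ‖d i‖ ≤ ρ) :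
    Win d m (((m : ℝ) ^ j₀ * (c * (1 + 2 * ρ) ^ c)) ^ W) := by
  intro i₀
  obtain ⟨lam, hl0, hlb, hlF⟩ := isolate hχ hρ i₀
  obtain ⟨D, hD⟩ : ∃ D : ℕ, h.eval 1 = D := ⟨(h.eval 1).toNat, (Int.toNat_of_nonneg h0.le).symm⟩
  have hD0 : 0 < D := by rw [hD] at h0; exact_mod_cast h0
  have hD1 : D < 2 ^ j₀ := by rw [hD] at h1; exact_mod_cast h1
  have hint : IsIntegral ℤ (Polynomial.aeval (d i₀) lam) := by
    have := hlF (fun _ => 1) fun j _ =>
      IsIntegral.sum _ fun i _ => ((chi_integral hχ i).pow j).mul isIntegral_one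
    simpa using this
  have hK' : IntTo K (PowerSeries.C (1 : ℂ) * ∑ i, ex (d i)) := by
    rw [map_one, one_mul]; exact hK
  have hA : ∀ (a : ℤ) (k : ℕ), k ≤ K - c →
      IsIntegral ℤ (Polynomial.aeval (d i₀) lam * bin (d i₀ + a) k) := by
    intro a k hk
    refine hlF (fun z => bin (z + a) k) fun j hj => ?_
    have := (hK'.sum_bin a (j := j) (k := k) (by omega)).isIntegral
    rwa [one_mul] at this
  have hB : ∀ a : ℤ, IsIntegral ℤ
      (Polynomial.aeval (d i₀) lam * ((D : ℂ) ^ L * bin (d i₀ + a) m)) := by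
    intro a
    refine hlF (fun z => (D : ℂ) ^ L * bin (z + a) m) fun j hj => ?_
    have := ((intTo_weak hL).sum_bin a (j := j) (k := m) (by omega)).isIntegral
    rw [hD, Int.cast_natCast, mul_sum] at this
    have e : ∑ i, d i ^ j * ((D : ℂ) ^ L * bin (d i + a) m) =
        ∑ i, (D : ℂ) ^ L * (d i ^ j * bin (d i + a) m) := sum_congr rfl fun i _ => by ring
    rw [e]
    exact this
  obtain ⟨g, hg0, hg1, hg2⟩ := blocks_gcd hint hW hmW hm hD0 hD1 hA hB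
  have hev : ∀ z : ℂ, Polynomial.aeval z (Polynomial.C (g : ℤ) * lam ^ W) =
      (g : ℂ) * Polynomial.aeval z lam ^ W := by
    intro z
    rw [map_mul, map_pow, Polynomial.aeval_C]
    simp
  refine ⟨Polynomial.C (g : ℤ) * lam ^ W, ?_, fun i => ?_, fun a => ?_⟩
  · rw [hev]
    exact mul_ne_zero (by exact_mod_cast hg0.ne') (pow_ne_zero _ hl0)
  · rw [hev, norm_mul, norm_pow, Complex.norm_natCast, mul_pow, ← pow_mul, mul_comm j₀ W, pow_mul]
    refine mul_le_mul (by exact_mod_cast hg1) (pow_le_pow_left₀ (norm_nonneg _) (hlb i) W)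
      (by positivity) (by positivity)
  · rw [hev]
    exact hg2 a

end Pool.Agent.HCF
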