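import Pool.Agent.P.MP_f644fa_ag.QA2
import Pool.Agent.P.MP_f644fa_ag.QA8a
import Pool.Agent.P.MP_f644fa_ag.QA11
import Pool.Agent.P.MP_f644fa_ag.QA12

/-! The roots are positive integers. -/

noncomputable section
namespace Pool.Agent.HCF
open Finset Polynomial

theorem za13_l {c n l : ℕ} (hc : 1 ≤ c) (hl : n < 2 ^ l) (hn : 10000 * c ^ 2 * l ^ 3 ≤ n)
    (h1 : 1 ≤ l) : 28 ≤ l := by
  by_contra h
  have h2 : 10000 * l ^ 3 < 2 ^ l :=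
    lt_of_le_of_lt (le_trans (Nat.mul_le_mul_right _ (by nlinarith)) hn) hl
  have h3 : l ≤ 27 := by omega
  interval_cases l <;> simp at h2

theorem za13_exp {c l : ℕ} (hc : 1 ≤ c) (hl : 28 ≤ l) :
    (l * (c * (l + 1)) + (l + (l + 2) * c)) * (2 * (c * (l + 1))) +
      ((l + 1) * (2 * (2 * (640 * c * l) + 1) + 1) + l) ≤ 100 * c ^ 2 * l ^ 3 := by
  obtain ⟨k, rfl⟩ := Nat.exists_eq_add_of_le hl
  obtain ⟨e, rfl⟩ := Nat.exists_eq_add_of_le hc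
  ring_nf
  nlinarith [Nat.zero_le (k * e), Nat.zero_le (k ^ 2 * e), Nat.zero_le (k ^ 3 * e),
    Nat.zero_le (k * e ^ 2), Nat.zero_le (k ^ 2 * e ^ 2), Nat.zero_le (k ^ 3 * e ^ 2),
    Nat.zero_le (e ^ 2), Nat.zero_le (k ^ 2), Nat.zero_le (k ^ 3)]

theorem arith {c n l : ℕ} {d : Fin c → ℂ} {h : ℤ[X]} (A : Ari c n d h)
    {R : Subring (PowerSeries ℂ)} (hR : Rng (n + 1 - c) h R) (hd : ∀ k, esy d k ∈ R) (hc : 1 ≤ c)
    (hl : n < 2 ^ l) (h1 : 1 ≤ l) (hn : 10000 * c ^ 2 * l ^ 3 ≤ n) :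
    ∃ β : Fin c → ℕ, (∀ i, d i = β i + 1) ∧ ∑ i, β i ≤ n ∧
      h * (1 - X) ^ c = ∏ i, (1 - X ^ (β i + 1)) := by
  have l28 := za13_l hc hl hn h1
  obtain ⟨θ, hθ⟩ : ∃ θ, θ = 100 * c ^ 2 * l ^ 3 := ⟨_, rfl⟩
  obtain ⟨η, hη⟩ : ∃ η, η = 640 * c * l := ⟨_, rfl⟩
  obtain ⟨j₀, hj⟩ : ∃ j₀, j₀ = c * (l + 1) := ⟨_, rfl⟩
  have n1 : 100 * θ ≤ n := by rw [hθ]; linarith
  have cl : c * l ≤ c ^ 2 * l := Nat.mul_le_mul_right _ (by nlinarith)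
  have t1 : 78400 * (c ^ 2 * l) ≤ θ := by
    rw [hθ]
    have : 784 * l ≤ l ^ 3 := by
      rw [pow_succ, sq]
      exact Nat.mul_le_mul_right _ (Nat.mul_le_mul l28 l28)
    nlinarith [Nat.mul_le_mul_left (c ^ 2) this]
  have c1 : c ≤ c * l := Nat.le_mul_of_pos_right _ h1
  have c2 : l ≤ c * l := Nat.le_mul_of_pos_left _ hc
  have e1 : η ≤ θ := by rw [hη]; nlinarith
  have j1 : j₀ ≤ 2 * (c * l) := by rw [hj]; nlinarith
  have j2 : 1 ≤ j₀ := by rw [hj]; nlinarith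
  obtain ⟨m, hm⟩ : ∃ m, m + 2 * c = n + 1 := ⟨n + 1 - 2 * c, by omega⟩
  have hL : Loc n η d := hη ▸ A.loc hc hl (by nlinarith)
  have hρ : ∀ i, ‖d i‖ ≤ 2 * (n : ℝ) := fun i => by
    have a1 := single_le_sum (f := fun i => ‖d i‖) (fun i _ => norm_nonneg _) (mem_univ i)
    have a2 : ((4 * η : ℕ) : ℝ) ≤ n := by exact_mod_cast (by omega)
    push_cast at a2
    linarith [hL.norm_le]
  have hl' : (n : ℝ) + 1 ≤ 2 ^ l := by exact_mod_cast hl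
  have hD : h.eval 1 < 2 ^ j₀ := by
    have a1 := congrArg norm (A.prod (by omega))
    rw [norm_prod, Complex.norm_intCast] at a1
    have a2 : ∏ i, ‖d i‖ ≤ ∏ _i : Fin c, 2 * (n : ℝ) :=
      prod_le_prod (fun i _ => norm_nonneg _) fun i _ => hρ i
    rw [prod_const, card_univ, Fintype.card_fin, a1] at a2
    have a3 : (2 * (n : ℝ)) ^ c < (2 ^ (l + 1)) ^ c :=
      pow_lt_pow_left₀ (by rw [pow_succ]; linarith) (by positivity) (by omega)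
    rw [← pow_mul, mul_comm (l + 1), ← hj] at a3
    exact_mod_cast (le_abs_self _).trans_lt (a2.trans_lt a3)
  obtain ⟨K, hK⟩ : ∃ K, K = (n + 1 - c) / j₀ := ⟨_, rfl⟩
  have k1 : K * j₀ ≤ n + 1 - c := hK ▸ Nat.div_mul_le_self _ _
  have k2 : n + 1 - c < j₀ * (K + 1) := hK ▸ Nat.lt_mul_div_succ _ j2
  have k0 : 4 * (j₀ * (c + 1)) ≤ θ := by nlinarith
  have k3 : 2 * (c + 1) ≤ K := by
    by_contra k
    have : j₀ * (K + 1) ≤ j₀ * (2 * (c + 1)) := Nat.mul_le_mul_left _ (by omega)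
    have : j₀ * (2 * (c + 1)) = 2 * (j₀ * (c + 1)) := by ring
    omega
  have hS := hR.strong A.pos hD k1
  obtain ⟨χ, hχ⟩ := chi_int hd fun r hr => by
    obtain ⟨G, hG⟩ := hS r hr
    exact ⟨G, (pow_dvd_pow _ (by omega)).trans hG⟩
  have y1 : ∑ i, ex (d i) ∈ R := esy_one d ▸ hd 1
  have k4 : m ≤ 2 * j₀ * (K - c) := by
    obtain ⟨K', rfl⟩ := Nat.exists_eq_add_of_le (show c ≤ K by omega)
    rw [Nat.add_sub_cancel_left]
    have : j₀ * (c + K' + 1) = j₀ * (c + 1) + j₀ * K' := by ring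
    have : 2 * j₀ * K' = 2 * (j₀ * K') := by ring
    omega
  have hW := window (m := m) (W := 2 * j₀) hχ A.pos hD (hS _ y1) (hR.int _ y1) (by omega)
    (by omega) (by omega) (by omega) k4 hρ
  have hB : ((m : ℝ) ^ j₀ * (c * (1 + 2 * (2 * (n : ℝ))) ^ c)) ^ (2 * j₀) *
      (((m + (2 * η + 1) : ℕ) : ℝ) ^ (2 * (2 * η + 1) + 1) * m) ≤ 2 ^ θ := by
    have b1 : (m : ℝ) ≤ 2 ^ l := by exact_mod_cast (by omega : m ≤ 2 ^ l)
    have b2 : (c : ℝ) ≤ 2 ^ l := by exact_mod_cast (by omega : c ≤ 2 ^ l)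
    have b3 : 1 + 2 * (2 * (n : ℝ)) ≤ 2 ^ (l + 2) := by rw [pow_add]; linarith
    have b4 : ((m + (2 * η + 1) : ℕ) : ℝ) ≤ 2 ^ (l + 1) := by
      exact_mod_cast (by rw [pow_succ]; omega : m + (2 * η + 1) ≤ 2 ^ (l + 1))
    calc _ ≤ (((2 : ℝ) ^ l) ^ j₀ * (2 ^ l * (2 ^ (l + 2)) ^ c)) ^ (2 * j₀) *
          ((2 ^ (l + 1)) ^ (2 * (2 * η + 1) + 1) * 2 ^ l) := by gcongr
      _ = 2 ^ ((l * j₀ + (l + (l + 2) * c)) * (2 * j₀) +
          ((l + 1) * (2 * (2 * η + 1) + 1) + l)) := by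
        simp only [← pow_mul, ← pow_add]
      _ ≤ 2 ^ θ := pow_le_pow_right₀ one_le_two (by
        rw [hj, hη, hθ]
        exact za13_exp hc l28)
  rcases one_pair hχ hL hm e1 (by omega) (by omega)
    (fun i hi => exists_pair hχ hL hm e1 (by omega) (by omega) hW hB hi) with h2 | ⟨i₀, i₁, h2, h3⟩
  · exact A.exact hL e1 n1 hD (by omega) h2
  · exact (A.no_pair hL hm e1 n1 hl hD (by omega) h2 h3).elim

end Pool.Agent.HCF
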