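import Pool.Agent.P.MP_f644fa_ag.LK4
import Pool.Agent.P.MP_f644fa_ag.LM3

/-! The rank of the conormal bundle, numerically. -/

noncomputable section
namespace Pool.Agent.HCF
open Finset MvPolynomial Module

variable {M : ℕ} {I : Ideal (SS M)} {c n : ℕ}

theorem qf3_split {d : ℕ} {g : Polynomial ℂ} {f : PowerSeries ℂ} (h : Nm (d + 1) g f) :
    ∃ p q : Polynomial ℂ, f = PowerSeries.C (g.eval 1) *
      (PowerSeries.mk fun k => ((d + 1 + k).choose (d + 1) : ℂ)) +
      (q : PowerSeries ℂ) * (PowerSeries.mk fun k => ((d + k).choose d : ℂ)) - p := by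
  obtain ⟨p, hp⟩ := h
  obtain ⟨q, hq⟩ := Polynomial.X_sub_C_dvd_sub_C_eval (p := g) (a := 1)
  have h1 := PowerSeries.mk_add_choose_mul_one_sub_pow_eq_one ℂ (d + 1)
  have h2 := PowerSeries.mk_add_choose_mul_one_sub_pow_eq_one ℂ d
  have h3 := congrArg (fun u : Polynomial ℂ => (u : PowerSeries ℂ)) hq
  simp only [Polynomial.coe_sub, Polynomial.coe_mul, Polynomial.coe_X, Polynomial.coe_C,
    map_one, Polynomial.coe_one] at h3
  refine ⟨p, -q, ?_⟩
  rw [Polynomial.coe_neg]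
  generalize (PowerSeries.mk fun k => ((d + 1 + k).choose (d + 1) : ℂ)) = A at h1 ⊢
  generalize (PowerSeries.mk fun k => ((d + k).choose d : ℂ)) = B at h2 ⊢
  have h4 : (1 - PowerSeries.X) * A = B := by
    linear_combination (-(1 - PowerSeries.X) * A) * h2 + B * h1
  linear_combination (-A) * hp + A * h3 - (f + p) * h1 - (q : PowerSeries ℂ) * h4

theorem Nm.pos {g : Polynomial ℂ} {f : PowerSeries ℂ} (hn : 1 ≤ n) (h : Nm n g f)
    (hf : ∀ m, 0 ≤ (PowerSeries.coeff m f).re) : 0 ≤ (g.eval 1).re := by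
  obtain ⟨d, rfl⟩ : ∃ d, n = d + 1 := ⟨n - 1, by omega⟩
  obtain ⟨p, q, e⟩ := qf3_split h
  obtain ⟨K, hK⟩ := lk4_mul d q
  by_contra hneg
  have ha : 0 < -(g.eval 1).re := by linarith [not_le.1 hneg]
  obtain ⟨m₀, hm₀⟩ := exists_nat_gt (K * (d + 1) / -(g.eval 1).re)
  rw [div_lt_iff₀ ha] at hm₀
  have h1 := hf (m₀ + p.natDegree + 1)
  have h2 := hK (m₀ + p.natDegree + 1)
  rw [e, map_sub, map_add, Polynomial.coeff_coe,
    Polynomial.coeff_eq_zero_of_natDegree_lt (by omega), sub_zero, PowerSeries.coeff_C_mul,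
    PowerSeries.coeff_mk, Complex.add_re, Complex.mul_re, Complex.natCast_re, Complex.natCast_im,
    mul_zero, sub_zero] at h1
  have h3 := (Complex.re_le_norm _).trans h2
  have hm : (m₀ : ℝ) ≤ ((m₀ + p.natDegree + 1 : ℕ) : ℝ) := by
    exact_mod_cast (by omega : m₀ ≤ m₀ + p.natDegree + 1)
  generalize m₀ + p.natDegree + 1 = m at h1 h3 hm
  have e3 : ((d + m + 1 : ℕ) : ℝ) * ((d + m).choose d : ℝ) =
      ((d + m + 1).choose (d + 1) : ℝ) * ((d + 1 : ℕ) : ℝ) := by
    exact_mod_cast Nat.add_one_mul_choose_eq (d + m) d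
  rw [show d + 1 + m = d + m + 1 by omega] at h1
  have hpos : (0 : ℝ) < ((d + m).choose d : ℝ) := by
    exact_mod_cast Nat.choose_pos (by omega)
  push_cast at e3
  have hd : (0 : ℝ) ≤ d := Nat.cast_nonneg d
  generalize (g.eval 1).re = a at h1 ha hm₀
  generalize ((d + m).choose d : ℝ) = B at h3 e3 hpos
  generalize ((d + m + 1).choose (d + 1) : ℝ) = A at h1 e3
  have h4 : 0 ≤ (a * A + K * B) * (d + 1) := mul_nonneg (by linarith) (by linarith)
  have h5 : (a * A + K * B) * (d + 1) = (K * (d + 1) - (d + m + 1) * -a) * B := by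
    linear_combination (-a) * e3
  have h6 : (m₀ : ℝ) * -a ≤ (d + m + 1) * -a := mul_le_mul_of_nonneg_right (by linarith) ha.le
  rw [h5] at h4
  exact absurd h4 (not_le.2 (mul_neg_of_neg_of_pos (by linarith) hpos))

theorem qf3_sel (hX : IsManifold I c) {x : Fin M → ℂ} (hx : x ∈ cone I) :
    ∃ (f : Fin c → SS M) (b : Fin c → ℕ), (∀ i, f i ∈ I) ∧ (∀ i, (f i).IsHomogeneous (b i + 1)) ∧
      LinearIndependent ℂ fun i => pv x (gr (f i)) := by
  let v : {q : SS M × ℕ // q.1 ∈ I ∧ q.1.IsHomogeneous (q.2 + 1)} → Fin M → ℂ :=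
    fun q => pv x (gr q.1.1)
  have h : Submodule.span ℂ (Set.range v) = Es I x := by
    refine le_antisymm (Submodule.span_le.2 ?_) ((hX.Es_le x).trans (Submodule.span_mono ?_))
    · rintro _ ⟨q, rfl⟩
      exact gr_mem_Es q.2.1 x
    · rintro _ ⟨f, d, h1, h2, rfl⟩
      exact ⟨⟨(f, d), h1, h2⟩, rfl⟩
  obtain ⟨s, -, hs, -⟩ := exists_sel v (τ := c) (by rw [h]; exact hX.pgen_Es.rank x hx)
  exact ⟨fun i => (s i).1.1, fun i => (s i).1.2, fun i => (s i).2.1, fun i => (s i).2.2, hs⟩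

theorem qf3_rank {A : Type} [CommRing A] [IsDomain A] [Algebra ℂ A] {σ : Type} [LinearOrder σ]
    [Fintype σ] {G : ℤ → Submodule ℂ A} (hG : GR G) {T : Set (σ → A)} {b : Fin c → ℕ}
    {τ : Fin c → σ → A} (hτ : ∀ i, τ i ∈ Vm G T (b i)) {δ : A} {u : Fin c → σ → A} (hδ : δ ≠ 0)
    (hu : ∀ k k', ∑ j, τ k j * u k' j = if k = k' then δ else 0) (m : ℤ) :
    ∑ i, finrank ℂ (G (m - b i)) ≤ finrank ℂ (Vm G T m) := by
  have h1 := hG.fin_Vm T m
  have h2 : ∀ i, FiniteDimensional ℂ (G (m - b i)) := fun i => hG.fin _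
  have hm : ∀ a : (∀ i : Fin c, G (m - b i)), (fun j => ∑ i, (a i).1 * τ i j) ∈ Vm G T m := by
    intro a
    refine ⟨fun v hv => ?_, fun j => Submodule.sum_mem _ fun i _ => ?_⟩
    · simp only [mul_sum]
      rw [sum_comm]
      refine sum_eq_zero fun i _ => ?_
      have := (hτ i).1 v hv
      simp only [mul_left_comm _ (a i).1, ← mul_sum, this, mul_zero]
    · have := hG.mul (a i).2 ((hτ i).2 j)
      rwa [sub_add_cancel] at this
  let Φ : (∀ i : Fin c, G (m - b i)) →ₗ[ℂ] Vm G T m :=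
    { toFun := fun a => ⟨fun j => ∑ i, (a i).1 * τ i j, hm a⟩
      map_add' := fun a a' => Subtype.ext (funext fun j => by
        simp [add_mul, sum_add_distrib])
      map_smul' := fun r a => Subtype.ext (funext fun j => by
        simp [smul_sum]) }
  have hΦ : Function.Injective Φ := by
    rw [injective_iff_map_eq_zero]
    intro a ha
    have h3 : ∀ j, ∑ i, (a i).1 * τ i j = 0 := fun j => congrFun (congrArg Subtype.val ha) j
    funext k
    have h4 : ∑ j, (∑ i, (a i).1 * τ i j) * u k j = (a k).1 * δ := by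
      simp only [sum_mul, mul_assoc]
      rw [sum_comm]
      simp only [← mul_sum, hu]
      simp
    simp only [h3, zero_mul, sum_const_zero] at h4
    exact Subtype.ext ((mul_eq_zero.1 h4.symm).resolve_right hδ)
  rw [← finrank_pi_fintype ℂ]
  exact LinearMap.finrank_le_finrank_of_injective hΦ

theorem rank_le (hX : IsManifold I c) (hM : M = n + 1 + c) (hn : 1 ≤ n) : ∃ b : Fin c → ℕ,
    ∀ m : ℤ, ∑ i, finrank ℂ (Gr (secRing I) (m - b i)) ≤ finrank ℂ (Hm (secRing I) 1 m) := by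
  obtain ⟨x, hx⟩ := hX.nonempty
  obtain ⟨f, b, h1, h2, h3⟩ := qf3_sel hX hx
  have := hX.isDomain_sec
  have h4 : LinearIndependent ℂ fun k j => lx4_ev ⟨x, hx⟩ (toSec I (pderiv j (f k))) := by
    have e : (fun k j => lx4_ev ⟨x, hx⟩ (toSec I (pderiv j (f k)))) =
        fun i => pv x (gr (f i)) := by
      funext k j
      rw [lx4_ev_apply, toSec_val, pf_apply]
      rfl
    rw [e]
    exact h3
  obtain ⟨δ, u, hδ, hu⟩ := dual_fields (lx4_ev ⟨x, hx⟩)
    (fun k j => toSec I (pderiv j (f k))) h4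
  refine ⟨b, fun m => ?_⟩
  rw [finrank_Fm_one]
  exact qf3_rank (gr_sec hX hM hn) (fun i => dP_mem (h1 i) (h2 i))
    (fun h => hδ (by rw [h, map_zero])) hu m

theorem rank_one (hX : IsManifold I c) (hM : M = n + 1 + c) (hn : 1 ≤ n) {g₀ g₁ : Polynomial ℂ}
    (h0 : Nm n g₀ (HS I 0)) (h1 : Nm n g₁ (HS I 1)) : 0 ≤ (g₁.eval 1 - c * g₀.eval 1).re := by
  obtain ⟨b, hb⟩ := rank_le hX hM hn
  have hG := gr_sec hX hM hn
  have h2 : Nm n (g₁ - (∑ i, Polynomial.X ^ b i) * g₀)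
      (HS I 1 - (∑ i, PowerSeries.X ^ b i) * HS I 0) := by
    obtain ⟨p, hp⟩ := h0
    obtain ⟨q, hq⟩ := h1
    have e : ((∑ i, Polynomial.X ^ b i : Polynomial ℂ) : PowerSeries ℂ) =
        ∑ i, PowerSeries.X ^ b i := by
      rw [← Polynomial.coeToPowerSeries.ringHom_apply, map_sum]
      simp
    refine ⟨q - (∑ i, Polynomial.X ^ b i) * p, ?_⟩
    rw [Polynomial.coe_sub, Polynomial.coe_sub, Polynomial.coe_mul, Polynomial.coe_mul, e, hp, hq]
    ring
  have h3 := Nm.pos hn h2 fun m => by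
    have h4 : ∀ i, PowerSeries.coeff m (PowerSeries.X ^ b i * HS I 0) =
        (finrank ℂ (Gr (secRing I) ((m : ℤ) - b i)) : ℂ) := fun i => by
      rw [PowerSeries.coeff_X_pow_mul']
      split_ifs with h
      · rw [HS, PowerSeries.coeff_mk, finrank_Fm_zero, Nat.cast_sub h]
      · rw [hG.neg _ (by omega), finrank_bot, Nat.cast_zero]
    rw [map_sub, sum_mul, map_sum]
    simp only [h4]
    rw [HS, PowerSeries.coeff_mk, ← Nat.cast_sum, Complex.sub_re, Complex.natCast_re,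
      Complex.natCast_re, sub_nonneg]
    exact_mod_cast hb m
  simpa [Polynomial.eval_finsetSum] using h3

end Pool.Agent.HCF
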