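import Pool.Agent.P.MP_f644fa_ag.LS1c

/-! Chern roots from the rank alone. -/

noncomputable section
namespace Pool.Agent.HCF
open Finset PowerSeries

theorem qf4_zero {c : ℕ} (f : Polynomial ℂ) (hd : f.natDegree ≤ c) {z : ℂ} (hz : z ≠ 0) :
    (f.reflect c).eval z⁻¹ = 0 ↔ f.eval z = 0 := by
  let := invertibleOfNonzero hz
  have := Polynomial.eval₂_reflect_eq_zero_iff (RingHom.id ℂ) z c f hd
  rw [invOf_eq_inv] at this
  exact this

theorem fe_const' {c : ℕ} (f : Polynomial ℂ) (hd : f.natDegree ≤ c) (h0 : f.coeff 0 = 1)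
    (h1 : (c : ℝ) ≤ (f.coeff 1).re)
    (h : f * f.comp (-Polynomial.X) = f.comp (-Polynomial.X ^ 2)) :
    f = (1 + Polynomial.X) ^ c := by
  rcases Nat.eq_zero_or_pos c with rfl | hc
  · rw [Polynomial.eq_C_of_natDegree_le_zero hd, h0, pow_zero, map_one]
  have hrd : (f.reflect c).natDegree ≤ c := Polynomial.natDegree_le_iff_coeff_eq_zero.2 fun k hk => by
    rw [Polynomial.coeff_reflect, Polynomial.revAt_eq_self_of_lt hk]
    exact Polynomial.coeff_eq_zero_of_natDegree_lt (by omega)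
  obtain ⟨x, hx⟩ := ls1c_roots (f.reflect c) hrd (by
    rw [Polynomial.coeff_reflect, Polynomial.revAt_le le_rfl, Nat.sub_self, h0])
  have hr : ∀ r, (f.reflect c).eval r = 0 ↔ ∃ j, r = x j := fun r => by
    rw [hx, Polynomial.eval_prod, prod_eq_zero_iff]
    simp [sub_eq_zero]
  obtain ⟨i, -, hi⟩ := exists_max_image univ (fun j => ‖x j‖) ⟨⟨0, hc⟩, mem_univ _⟩
  have hb : ∀ j, ‖x j‖ ≤ 1 := fun j => by
    have h4 := hi j (mem_univ _)
    by_cases hz : x i = 0
    · rw [hz, norm_zero] at h4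
      linarith
    have e0 : f.eval (x i)⁻¹ = 0 := (qf4_zero f hd (inv_ne_zero hz)).1 (by
      rw [inv_inv]
      exact (hr _).2 ⟨i, rfl⟩)
    have e := congrArg (Polynomial.eval (x i)⁻¹) h
    rw [Polynomial.eval_mul, e0, zero_mul, Polynomial.eval_comp] at e
    simp only [Polynomial.eval_neg, Polynomial.eval_pow, Polynomial.eval_X] at e
    obtain ⟨k, hk⟩ := (hr _).1
      ((qf4_zero f hd (neg_ne_zero.2 (pow_ne_zero 2 (inv_ne_zero hz)))).2 e.symm)
    have h3 := hi k (mem_univ _)
    rw [← hk] at h3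
    simp only [norm_inv, norm_neg, norm_pow, inv_pow, inv_inv] at h3
    nlinarith [norm_nonneg (x i)]
  have hs := Polynomial.prod_X_sub_C_coeff_card_pred univ x (by simpa using hc)
  rw [← hx, card_univ, Fintype.card_fin, Polynomial.coeff_reflect,
    Polynomial.revAt_le (Nat.sub_le _ _), Nat.sub_sub_self hc] at hs
  have h8 : ∀ j ∈ (univ : Finset (Fin c)), 0 ≤ 1 + (x j).re := fun j _ => by
    linarith [(abs_le.1 ((Complex.abs_re_le_norm (x j)).trans (hb j))).1]
  have h5 : ∑ j, (1 + (x j).re) = 0 := by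
    refine le_antisymm ?_ (sum_nonneg h8)
    rw [hs, Complex.neg_re, Complex.re_sum] at h1
    rw [sum_add_distrib]
    simp only [sum_const, card_univ, Fintype.card_fin, nsmul_eq_mul, mul_one]
    linarith
  have h6 := (sum_eq_zero_iff_of_nonneg h8).1 h5
  have h7 : ∀ j, x j = -1 := fun j => by
    have e1 := h6 j (mem_univ _)
    have e2 : ‖x j‖ ^ 2 ≤ 1 := by nlinarith [hb j, norm_nonneg (x j)]
    rw [Complex.sq_norm, Complex.normSq_apply] at e2
    refine Complex.ext (by simp; linarith) ?_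
    have e3 : (x j).re = -1 := by linarith
    rw [e3] at e2
    simp only [Complex.neg_im, Complex.one_im, neg_zero]
    nlinarith
  have h9 : f.reflect c = (1 + Polynomial.X) ^ c := by
    rw [hx]
    simp [h7, add_comm]
  ext k
  rw [← Polynomial.revAt_invol (N := c) (i := k), ← Polynomial.coeff_reflect, h9,
    Polynomial.revAt_invol, Polynomial.coeff_one_add_X_pow, Polynomial.coeff_one_add_X_pow]
  rcases le_or_gt k c with hk | hk
  · rw [Polynomial.revAt_le hk, Nat.choose_symm hk]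
  · rw [Polynomial.revAt_eq_self_of_lt hk]

theorem fem_exists' {c L : ℕ} {φ : ℕ → ℂ⟦X⟧} (hF : FEm L φ) (hc : 1 ≤ c) (hL : c < L)
    (h0 : constantCoeff (φ 0) = 1) (hz : ∀ k, c < k → φ k = 0)
    (h1 : (c : ℝ) ≤ (constantCoeff (φ 1)).re) : ∃ x, Ch c φ x := by
  have hf := ls1c_coeff (n := c) (a := fun k => constantCoeff (φ k))
    fun k hk => by rw [hz k hk, map_zero]
  have h3 := fe_const' (c := c) _ (Polynomial.natDegree_le_iff_coeff_eq_zero.2 fun k hk => by
    rw [hf, hz k hk, map_zero]) ((hf 0).trans h0) (by rw [hf]; exact h1)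
    (Polynomial.funext fun w => by
      have e := X_pow_dvd_iff.1 (ls1c_key hF hz (C w)) 0 (by omega)
      rw [coeff_zero_eq_constantCoeff_apply, map_sub, sub_eq_zero] at e
      simp only [map_sum, map_mul, map_pow, map_neg, constantCoeff_C, ls1c_cc, map_one] at e
      simp only [Polynomial.eval_mul, Polynomial.eval_comp, Polynomial.eval_finsetSum,
        Polynomial.eval_monomial, Polynomial.eval_X, Polynomial.eval_neg, Polynomial.eval_pow]
      rw [← e]
      refine sum_congr rfl fun k _ => ?_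
      rw [neg_pow (w ^ 2)]
      ring)
  have h4 : ∀ k, constantCoeff (φ k) = c.choose k := fun k => by
    rw [← hf k, h3, Polynomial.coeff_one_add_X_pow]
  obtain ⟨c, rfl⟩ : ∃ c', c = c' + 1 := ⟨c - 1, by omega⟩
  refine fem_exists hF hL h0 hz ?_ ?_
  · rw [h4, Nat.choose_self, Nat.cast_one]
  · rw [h4, Nat.choose_succ_self_right, Nat.cast_succ]

end Pool.Agent.HCF
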