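import Pool.Agent.P.MP_f644fa_ag.QA0
import Pool.Agent.P.MP_f644fa_ag.Num

/-! The ring of classes with integer numerators. -/

noncomputable section
namespace Pool.Agent.HCF
open Finset Module PowerSeries
open scoped Kronecker

variable {M n : ℕ} {X R RR : Type} [CommRing R] [Algebra ℂ R] [CommRing RR] [Algebra ℂ RR]

theorem Nm.int {g : Polynomial ℂ} {f : ℂ⟦X⟧} (h : Nm n g f) (hf : ∀ m, IsInt (coeff m f)) :
    ∃ G : Polynomial ℤ, (1 - Polynomial.X) ^ (n + 1) ∣ g - G.map (Int.castRingHom ℂ) := by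
  obtain ⟨p, hp⟩ := h
  choose a ha using hf
  have e1 : f = PowerSeries.map (Int.castRingHom ℂ) (PowerSeries.mk a) := by
    ext m
    rw [coeff_map, coeff_mk, ha]
    rfl
  have e2 : ((g - (1 - Polynomial.X) ^ (n + 1) * p : Polynomial ℂ) : ℂ⟦X⟧) =
      PowerSeries.map (Int.castRingHom ℂ) ((1 - PowerSeries.X) ^ (n + 1) * PowerSeries.mk a) := by
    rw [map_mul, map_pow, map_sub, map_one, map_X, ← e1, Polynomial.coe_sub, Polynomial.coe_mul,
      Polynomial.coe_pow, Polynomial.coe_sub, Polynomial.coe_one, Polynomial.coe_X, hp]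
    ring
  have e3 : g - (1 - Polynomial.X) ^ (n + 1) * p ∈ Polynomial.lifts (Int.castRingHom ℂ) := by
    rw [Polynomial.lifts_iff_coeff_lifts]
    intro m
    rw [← Polynomial.coeff_coe, e2, coeff_map]
    exact ⟨_, rfl⟩
  obtain ⟨G, hG⟩ := (Polynomial.mem_lifts _).1 e3
  exact ⟨G, p, by rw [hG]; ring⟩

theorem Dat.chi_int {S : NS0 M n X R RR} {I : Type} [Fintype I] {D : Dat S I} {T : Matrix I I ℂ}
    (h : D.Ok T) (h2 : T * T = T) (m : ℕ) : IsInt (coeff m (D.chi T)) := by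
  have := D.grd.fin m
  rw [dat_coeff, trOn_proj (dat_maps h m) fun w _ => by rw [← cst_mul, h2]]
  exact isInt_nat _

theorem NS.exists_ring (S : NS M n X R RR) {c : ℕ} (hM : M = n + 1 + c) {g : ℕ → Polynomial ℂ}
    (hg : ∀ k, Nm n (g k) (S.HS k)) {h : Polynomial ℤ} (h0 : g 0 = h.map (Int.castRingHom ℂ))
    (hne : (g 0).eval 1 ≠ 0) (r : ℕ → ℂ⟦X⟧)
    (hr : ∀ k, (PowerSeries.X : ℂ⟦X⟧) ^ (n + 1 - c) ∣
      r k * Ex (g 0) - Ex (Polynomial.X ^ k * g k)) :
    ∃ Rg : Subring ℂ⟦X⟧, Rng (n + 1 - c) h Rg ∧ ∀ k, r k ∈ Rg := by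
  have hu : IsUnit (Ex (g 0)) := by
    rw [isUnit_iff_constantCoeff, constantCoeff_Ex]
    exact isUnit_iff_ne_zero.2 hne
  have hone : ∀ a : ℕ, ∃ (I : Type) (_ : Fintype I) (D : Dat S.toNS0 I) (T : Matrix I I ℂ)
      (g' : Polynomial ℂ) (b : ℕ), D.Ok T ∧ T * T = T ∧ Nm n g' (D.chi T) ∧
        (PowerSeries.X : ℂ⟦X⟧) ^ (n + 1 - c) ∣
          ex a * Ex (g 0) - Ex (Polynomial.X ^ b * g') := fun a =>
    ⟨Unit, inferInstance, Dat.one S.toNS0, 1, g 0, a, Dat.Ok.one _, mul_one _,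
      by rw [NS.chi_one]; exact hg 0, by rw [map_mul, Ex_X_pow, sub_self]; exact dvd_zero _⟩
  let G : Submonoid ℂ⟦X⟧ :=
    { carrier := {r | ∃ (I : Type) (_ : Fintype I) (D : Dat S.toNS0 I) (T : Matrix I I ℂ)
        (g' : Polynomial ℂ) (a : ℕ), D.Ok T ∧ T * T = T ∧ Nm n g' (D.chi T) ∧
          (PowerSeries.X : ℂ⟦X⟧) ^ (n + 1 - c) ∣ r * Ex (g 0) - Ex (Polynomial.X ^ a * g')}
      one_mem' := by
        have := hone 0
        rwa [Nat.cast_zero, ex_zero] at this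
      mul_mem' := by
        rintro r r' ⟨I, _, D, T, g₁, a, h1, h2, h3, h4⟩ ⟨I', _, D', T', g₂, a', k1, k2, k3, k4⟩
        obtain ⟨g₃, h5⟩ := num_rat (h1.kron k1)
        have h6 := (Ex_dvd_iff _ _).2 (NS.mult hM h1 k1 h3 k3 h5 (hg 0))
        refine ⟨I × I', inferInstance, D.tensor D', T ⊗ₖ T', g₃, a + a', h1.kron k1,
          by rw [← Matrix.mul_kronecker_mul, h2, k2], h5, hu.dvd_mul_right.1 ?_⟩
        have e : (r * r' * Ex (g 0) - Ex (Polynomial.X ^ (a + a') * g₃)) * Ex (g 0) =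
            (r * Ex (g 0) - Ex (Polynomial.X ^ a * g₁)) * (r' * Ex (g 0)) +
              (r' * Ex (g 0) - Ex (Polynomial.X ^ a' * g₂)) * Ex (Polynomial.X ^ a * g₁) -
              Ex (g₃ * g 0 - g₁ * g₂) * Ex (Polynomial.X ^ (a + a')) := by
          simp only [map_mul, map_sub, pow_add]
          ring
        rw [e]
        exact ((h4.mul_right _).add (k4.mul_right _)).sub (h6.mul_right _) }
  have hint : ∀ r ∈ G, IntTo (n + 1 - c) (r * Ez h) := by
    rintro r ⟨I, _, D, T, g₁, a, h1, h2, h3, h4⟩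
    obtain ⟨G₀, h5⟩ := h3.int (Dat.chi_int h1 h2)
    have h6 := (Ex_dvd_iff _ _).2 ((pow_dvd_pow _ (Nat.sub_le (n + 1) c)).trans h5)
    refine ⟨Polynomial.X ^ a * G₀, ?_⟩
    have e : r * Ez h - Ez (Polynomial.X ^ a * G₀) =
        r * Ex (g 0) - Ex (Polynomial.X ^ a * g₁) +
          Ex (g₁ - G₀.map (Int.castRingHom ℂ)) * Ex (Polynomial.X ^ a) := by
      rw [Ez_apply, ← h0, map_mul, Ez_X_pow, Ez_apply, map_mul, map_sub, Ex_X_pow]
      ring
    rw [e]
    exact h4.add (h6.mul_right _)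
  refine ⟨Subring.closure (G : Set ℂ⟦X⟧), ⟨Subring.subset_closure ?_, fun r hr => ?_⟩,
    fun k => Subring.subset_closure ?_⟩
  · have := hone 1
    rwa [Nat.cast_one] at this
  · rw [Subring.mem_closure_iff, Submonoid.closure_eq] at hr
    induction hr using AddSubgroup.closure_induction with
    | mem x hx => exact hint x hx
    | zero => exact ⟨0, by simp⟩
    | add x y _ _ hx hy =>
      obtain ⟨A, hA⟩ := hx
      obtain ⟨B, hB⟩ := hy
      refine ⟨A + B, ?_⟩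
      have e : (x + y) * Ez h - Ez (A + B) = x * Ez h - Ez A + (y * Ez h - Ez B) := by
        rw [map_add]
        ring
      rw [e]
      exact hA.add hB
    | neg x _ hx =>
      obtain ⟨A, hA⟩ := hx
      refine ⟨-A, ?_⟩
      have e : -x * Ez h - Ez (-A) = -(x * Ez h - Ez A) := by
        rw [map_neg]
        ring
      rw [e]
      exact hA.neg_right
  · exact ⟨Finset (Fin M), inferInstance, S.lam, piM (Fin M) k, Polynomial.X ^ k * g k, 0,
      S.ok_piM k, num_piM_sq M k, num_piM S (hg k), by rw [pow_zero, one_mul]; exact hr k⟩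

end Pool.Agent.HCF
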