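import Pool.Agent.P.MP_f644fa_ag.QF2
import Pool.Agent.P.MP_f644fa_ag.QF3
import Pool.Agent.P.MP_f644fa_ag.QF4
import Pool.Agent.P.MP_f644fa_ag.QF5
import Pool.Agent.P.MP_f644fa_ag.QA13
import Pool.Agent.P.MP_f644fa_ag.LM0
import Pool.Agent.P.MP_f644fa_ag.LS1

/-! A Fano manifold of large dimension has the numerical invariants of a complete intersection. -/

noncomputable section
namespace Pool.Agent.HCF
open Finset Module Polynomial

variable {M : ℕ} {I : Ideal (SS M)} {c n : ℕ}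

/-- the numerical setting -/
structure Nf (I : Ideal (SS M)) (c n : ℕ) (S : NS M n (cone I) (Pol I) (Pol2 I))
    (g : ℕ → Polynomial ℂ) : Prop where
  expl : Expl I S.toNS0
  sub : ∀ W : Set (Fin M → ℂ), CCone W → W ⊆ cone I →
    ∃ (S' : NS0 M n W (PolW W) (Pol2W W W)) (N : NS2 S S' (Pol2W (cone I) W)),
      Expl I S' ∧ ∀ p, (N.pt p).1 = p.1
  nm : ∀ k, Nm n (g k) (S.HS k)
  ne : (g 0).eval 1 ≠ 0

theorem exists_Nf (hX : IsManifold I c) (hM : M = n + 1 + c) (hn : 1 ≤ n) {g0 : ℂ[X]}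
    (hh : (g0 : PowerSeries ℂ) = (1 - PowerSeries.X) ^ (n + 1) * HS I 0) :
    ∃ S g, Nf I c n S g ∧ g 0 = g0 ∧ (∀ k, c < k → g k = 0) ∧ ∀ k, Nm n (g k) (HS I k) := by
  obtain ⟨S, hE, h1, h2, h3, hS⟩ := exists_NSX hX hM
  obtain ⟨m₀, hm₀⟩ := finrank_Hm_large hX hM hn
  have hP : ∀ k, PEq (HS I k) (S.HS k) := fun k => PEq.of_coeff m₀ fun m hm => by
    simp only [HS, NS0.HS, PowerSeries.coeff_mk]
    rw [hS, hm₀ m hm k]
  have hN0 : Nm n g0 (HS I 0) := ⟨0, by rw [hh]; simp⟩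
  have hex : ∀ k : ℕ, ∃ g : ℂ[X], Nm n g (S.HS k) ∧ (c < k → g = 0) ∧ (k = 0 → g = g0) := by
    intro k
    by_cases hk : k = 0
    · subst hk
      exact ⟨g0, num_peq hN0 (hP 0), fun h => absurd h (Nat.not_lt_zero c), fun _ => rfl⟩
    by_cases hc : c < k
    · refine ⟨0, ⟨0, ?_⟩, fun _ => rfl, fun h => absurd h hk⟩
      have : S.HS k = 0 := by
        ext m
        simp only [NS0.HS, PowerSeries.coeff_mk]
        rw [hS, Hm_gt hX le_rfl hc]
        simp
      rw [this]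
      simp
    · obtain ⟨g, hg⟩ := num_rat (S.sub0.ok_piM k)
      rw [S.chi_sub0] at hg
      exact ⟨g, hg, fun h => absurd h hc, fun h => absurd h hk⟩
  choose g hg hz h0 using hex
  refine ⟨S, g, ⟨hE, fun W hW hs => ?_, hg, fun hev => ?_⟩, h0 0 rfl, hz,
    fun k => num_peq (hg k) (hP k).symm⟩
  · obtain ⟨S', hS'⟩ := exists_NSW hX hM hW hs
    obtain ⟨N, hN⟩ := exists_NS2 S hE h1 h2 h3 hs S' hS'
    exact ⟨S', N, hS', hN⟩
  · obtain ⟨x, hx⟩ := hX.nonempty
    have hdv : (1 - X : ℂ[X]) ^ 1 ∣ g 0 := by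
      have := dvd_iff_isRoot.2 hev
      rw [pow_one, ← neg_sub, neg_dvd]
      simpa using this
    have hg0 : Nm n (g 0) ((Dat.one S.toNS0).chi 1) := by
      rw [S.chi_one]
      exact hg 0
    have := hE.order hX.ccone (hX.locCut hx) hg0 hdv
    omega

theorem esy_succ {c : ℕ} (x : Fin c → ℂ) (k : ℕ) :
    esy (fun i => x i + 1) k = ex k * esy x k := by
  rw [esy, esy, mul_sum]
  refine sum_congr rfl fun J hJ => ?_
  rw [sum_add_distrib, sum_const, (mem_powersetCard.1 hJ).2, ← ex_add, add_comm, nsmul_one]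

theorem fano_num (hX : IsManifold I c) (hM : M = n + 1 + c) (hF : IsFano I c) (hc : 1 ≤ c) {l : ℕ}
    (hl : n < 2 ^ l) (l1 : 1 ≤ l) (hn : 10000 * c ^ 2 * l ^ 3 ≤ n) :
    ∃ S g, Nf I c n S g ∧ ∃ β : Fin c → ℕ, Monotone β ∧ ∑ i, β i ≤ n ∧
      (∀ k, (1 - X) ^ (n + 1 - c) ∣
        g k - g 0 * ∑ J ∈ powersetCard k (univ : Finset (Fin c)), X ^ (∑ j ∈ J, β j)) ∧
      (1 - PowerSeries.X) ^ M *
        PowerSeries.mk (fun m : ℕ => (finrank ℂ (Gr (secRing I) m) : ℂ)) =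
          ∏ i, (1 - PowerSeries.X ^ (β i + 1)) := by
  have n2 : 2 * c ≤ n := by
    have : 1 ≤ l ^ 3 := Nat.one_le_pow _ _ l1
    nlinarith
  obtain ⟨h, hnn, hd, hh⟩ := fano_h hX hM (by omega) hF
  obtain ⟨S, g, hN, e0, hz, hg⟩ := exists_Nf hX hM (by omega) hh
  obtain ⟨U, hU⟩ : ∃ U : PowerSeries ℂ, Ex (g 0) * U = 1 :=
    ⟨_, PowerSeries.mul_inv_cancel _ (by rw [constantCoeff_Ex]; exact hN.ne)⟩
  have F := ls1_fem (g 0) g U hU (S.num1 hM g hN.nm)
  have z : ∀ k, c < k → Ex (g k) * U = 0 := fun k hk => by rw [hz k hk, map_zero, zero_mul]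
  have hD : (g 0).eval 1 = ((h.eval 1 : ℤ) : ℂ) := by
    rw [e0, eval_one_map]
    rfl
  have hne : h ≠ 0 := fun k => hN.ne (by rw [hD, k]; simp)
  have hpos : 0 < h.eval 1 := by
    rw [eval_eq_sum_range]
    simp only [one_pow, mul_one]
    exact sum_pos' (fun i _ => hnn i) ⟨h.natDegree, self_mem_range_succ _,
      lt_of_le_of_ne (hnn _) (leadingCoeff_ne_zero.2 hne).symm⟩
  obtain ⟨x, hx⟩ := fem_exists' F hc (by omega) (by simp only [hU, map_one]) z (by
    have a1 := rank_one hX hM (by omega) (hg 0) (hg 1)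
    have a2 := congrArg PowerSeries.constantCoeff hU
    rw [map_mul, constantCoeff_Ex, map_one, hD] at a2
    have a3 : (0 : ℝ) < (h.eval 1 : ℤ) := by exact_mod_cast hpos
    have a4 : (g 1).eval 1 = ((h.eval 1 : ℤ) : ℂ) *
        PowerSeries.constantCoeff (Ex (g 1) * U) := by
      rw [map_mul, constantCoeff_Ex]
      linear_combination (-(g 1).eval 1) * a2
    rw [hD, a4] at a1
    simp only [Complex.sub_re, Complex.mul_re, Complex.intCast_re, Complex.intCast_im,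
      Complex.natCast_re, Complex.natCast_im, zero_mul, sub_zero, mul_zero] at a1
    nlinarith)
  have ru := fem_unique F (by simp only [hU, sub_self, dvd_zero]) z hx
  have rv : ∀ k, (PowerSeries.X : PowerSeries ℂ) ^ (n + 1 - c) ∣
      esy (fun i => x i + 1) k * Ex (g 0) - Ex (X ^ k * g k) := fun k => by
    have a1 := (ru k).mul_left (-(ex k * Ex (g 0)))
    refine a1.trans (dvd_of_eq ?_)
    rw [esy_succ, map_mul, Ex_X_pow]
    linear_combination (-(ex k * Ex (g k))) * hU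
  obtain ⟨R, hR, hd'⟩ := S.exists_ring hM hN.nm e0 hN.ne _ rv
  have A : Ari c n (fun i => x i + 1) h := ⟨hnn, hne, hd, by
    have N2 := S.num2 hM g hN.nm
    have e : ∑ k ∈ range (M + 1), (-X) ^ k * g k = ∑ k ∈ range (c + 1), (-X) ^ k * g k := by
      symm
      refine sum_subset (range_subset_range.2 (by omega)) fun k _ hk => ?_
      rw [hz k (by simpa [Nat.lt_succ_iff] using hk), mul_zero]
    rw [e] at N2
    have a1 := ((Ex_dvd_iff _ _).2 ((pow_dvd_pow _ (Nat.sub_le (n + 1) c)).trans N2)).mul_right U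
    have a2 : (PowerSeries.X : PowerSeries ℂ) ^ (n + 1 - c) ∣ ∑ k ∈ range (c + 1),
        (-ex 1) ^ k * (Ex (g k) * U - esy x k) := dvd_sum fun k _ => (ru k).mul_left _
    have a3 : ∏ i, (1 - ex (x i + 1)) = ∑ k ∈ range (c + 1), (-ex 1) ^ k * esy x k := by
      have := gz_esy x (-1)
      simp only [sub_neg_eq_add] at this
      rw [← this, gz]
      refine sum_congr rfl fun k _ => ?_
      rw [neg_pow (ex 1), ex_pow, map_pow, map_neg, map_one, mul_neg, neg_neg]
      ring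
    have a4 : Ex X = ex 1 := by simpa using Ex_X_pow 1
    refine (dvd_add a1 a2).trans (dvd_of_eq ?_)
    rw [a3, Ez_apply, ← e0]
    simp only [map_sub, map_mul, map_pow, map_one, map_sum, map_neg, a4, sub_mul, sum_mul, mul_sub,
      sum_sub_distrib, mul_assoc]
    linear_combination (Ex (g 0) * (1 - ex 1) ^ c) * hU⟩
  obtain ⟨b, hb, hs, he⟩ := arith A hR hd' hc hl l1 hn
  have hxb : x = fun i => (b i : ℂ) := funext fun i => add_right_cancel (hb i)
  refine ⟨S, g, hN, b ∘ Tuple.sort b, Tuple.monotone_sort b,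
    (Equiv.sum_comp (Tuple.sort b) b).le.trans hs, fun k => ?_, ?_⟩
  · rw [← Ex_dvd_iff]
    have a1 := (ru k).mul_left (Ex (g 0))
    rw [hxb, ← ls1_perm _ (Tuple.sort b)] at a1
    have e : Ex (g k - g 0 * ∑ J ∈ powersetCard k (univ : Finset (Fin c)),
        X ^ (∑ j ∈ J, (b ∘ Tuple.sort b) j)) =
        Ex (g 0) * (Ex (g k) * U - esy (fun j => (b (Tuple.sort b j) : ℂ)) k) := by
      simp only [map_sub, map_mul, map_sum, Ex_X_pow, esy, Nat.cast_sum, Function.comp]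
      linear_combination (-Ex (g k)) * hU
    rwa [e]
  · have h2 := congrArg (fun p : ℤ[X] => ((p.map (Int.castRingHom ℂ) : ℂ[X]) : PowerSeries ℂ)) he
    simp only [Polynomial.map_mul, Polynomial.map_prod, Polynomial.map_pow, Polynomial.map_sub,
      Polynomial.map_one, map_X, Polynomial.coe_mul, main_coe_prod, Polynomial.coe_sub,
      Polynomial.coe_pow, Polynomial.coe_one, coe_X, hh] at h2
    have e2 : PowerSeries.mk (fun m : ℕ => (finrank ℂ (Gr (secRing I) m) : ℂ)) = HS I 0 := by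
      simp only [HS, finrank_Fm_zero]
    rw [e2, show (1 - PowerSeries.X : PowerSeries ℂ) ^ M =
      (1 - PowerSeries.X) ^ (n + 1 + c) from congrArg _ hM]
    refine Eq.trans ?_ (h2.trans (Equiv.prod_comp (Tuple.sort b)
      fun i => (1 - PowerSeries.X ^ (b i + 1) : PowerSeries ℂ)).symm)
    ring

end Pool.Agent.HCF
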