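import Pool.Agent.P.MP_f644fa_ag.Fock

/-! Finite free complexes given by matrices, super tensor powers, the Young symmetriser. -/

noncomputable section
namespace Pool.Agent.HCF
open Finset Matrix Equiv

/-- the Koszul complex of `l` is exact in positive degrees -/
def KEx {τ A : Type} [LinearOrder τ] [Fintype τ] [CommRing A] (l : τ → A) : Prop :=
  ∀ z : Finset τ → A, z ∅ = 0 → iov A l z = 0 → ∃ y, iov A l y = z

/-- a matrix that respects labels of the indices -/
def DP {R ι κ Λ : Type} [Zero R] (a : κ → Λ) (b : ι → Λ) (α : Matrix κ ι R) : Prop :=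
  ∀ k i, α k i ≠ 0 → a k = b i

/-- a matrix that lowers the degree by one -/
def Low {R ι : Type} [Zero R] (deg : ι → ℕ) (d : Matrix ι ι R) : Prop :=
  ∀ i j, d i j ≠ 0 → deg j = deg i + 1

/-- a matrix that reverses the parity -/
def Od {R ι : Type} [Zero R] (π : ι → Bool) (d : Matrix ι ι R) : Prop :=
  ∀ i j, d i j ≠ 0 → π j = !π i

/-- An augmented finite free complex of length at most `c`. -/
structure Cpx {S A : Type} [CommRing S] [CommRing A] (φ : S →+* A) (ι : Type) [Fintype ι] (c : ℕ) where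
  deg : ι → ℕ
  d : Matrix ι ι S
  ε : ι → A
  deg_le : ∀ i, deg i ≤ c
  low : Low deg d
  dd : d * d = 0
  ε_deg : ∀ i, ε i ≠ 0 → deg i = 0
  ε_d : ∀ j, ∑ i, φ (d i j) * ε i = 0

section cx
variable {S A : Type} [CommRing S] [CommRing A] {φ : S →+* A} {ι : Type} [Fintype ι] {c : ℕ}

/-- the augmentation -/
def Cpx.aug (L : Cpx φ ι c) (v : ι → S) : A := ∑ i, φ (v i) * L.ε i

/-- exact up to the factor `g` -/
def Cpx.Ex (L : Cpx φ ι c) (g : S) : Prop :=
  ∀ v, L.d *ᵥ v = 0 → L.aug v = 0 → ∃ w, L.d *ᵥ w = g • v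

end cx

/-- Up to the factor `g`, the complex is homotopy equivalent to an exterior algebra. -/
structure LD {S A ι : Type} [CommRing S] [CommRing A] [Fintype ι] [DecidableEq ι] (φ : S →+* A)
    (deg : ι → ℕ) (d : Matrix ι ι S) (c : ℕ) (g : S) where
  α : Matrix (Finset (Fin c)) ι S
  β : Matrix ι (Finset (Fin c)) S
  h : Matrix ι ι S
  α_deg : DP Finset.card deg α
  β_deg : DP deg Finset.card β
  htp : d * h + h * d = g • (1 : Matrix ι ι S) - β * α
  dβ : (d * β).map φ = 0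
  αd : (α * d).map φ = 0
  αβ : (α * β).map φ = φ g • (1 : Matrix (Finset (Fin c)) (Finset (Fin c)) A)

/-- the homology in degree `j` has dimension at least `r` -/
def Hge {ι : Type} [Fintype ι] (deg : ι → ℕ) (d : Matrix ι ι ℂ) (j r : ℕ) : Prop :=
  ∃ z : Fin r → ι → ℂ, (∀ k i, z k i ≠ 0 → deg i = j) ∧ (∀ k, d *ᵥ z k = 0) ∧
    ∀ (t : Fin r → ℂ) (w : ι → ℂ), ∑ k, t k • z k = d *ᵥ w → t = 0

/-- the homology of parity `false` has dimension more than `p` -/
def Big {ι : Type} [Fintype ι] (π : ι → Bool) (d : Matrix ι ι ℂ) (p : ℕ) : Prop :=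
  ∃ (α : Matrix (Fin (p + 1)) ι ℂ) (β : Matrix ι (Fin (p + 1)) ℂ), (∀ i k, β i k ≠ 0 → π i = false) ∧
    (∀ k i, α k i ≠ 0 → π i = false) ∧ d * β = 0 ∧ α * d = 0 ∧ α * β = 1

section tensor
variable {A Ω ι κ : Type} [CommRing A] [Fintype Ω] [LinearOrder Ω]

/-- the tensor product of a family of matrices -/
def tp (m : Ω → Matrix ι κ A) : Matrix (Ω → ι) (Ω → κ) A :=
  Matrix.of fun T T' => ∏ ω, m ω (T ω) (T' ω)

/-- the positions of the odd letters -/
def od (π : ι → Bool) (T : Ω → ι) : Finset Ω := univ.filter fun ω => π (T ω)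

/-- an odd matrix acting at one position -/
def Gam [DecidableEq ι] (π : ι → Bool) (ω : Ω) (m : Matrix ι ι A) : Matrix (Ω → ι) (Ω → ι) A :=
  Matrix.of fun T T' => (sg ω (od π T') : A) * tp (Function.update (fun _ => 1) ω m) T T'

/-- the differential of the tensor power -/
def DT (Ω : Type) [Fintype Ω] [LinearOrder Ω] [DecidableEq ι] (π : ι → Bool) (d : Matrix ι ι A) :
    Matrix (Ω → ι) (Ω → ι) A := ∑ ω : Ω, Gam π ω d

/-- the Koszul sign of a permutation of the odd positions `S` -/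
def ks (σ : Perm Ω) (S : Finset Ω) : ℤ :=
  ∏ a ∈ S, ∏ b ∈ S with a < b, if σ a < σ b then 1 else -1

/-- the matrix of a permutation -/
def pm (A : Type) [CommRing A] [DecidableEq ι] (π : ι → Bool) (σ : Perm Ω) :
    Matrix (Ω → ι) (Ω → ι) A :=
  Matrix.of fun T T' => if T' = T ∘ σ then (ks σ (od π T') : A) else 0

end tensor

/-- the Young symmetriser of a rectangle -/
def young {Ω : Type} [Fintype Ω] [DecidableEq Ω] {p q : ℕ} (E : Ω ≃ Fin p × Fin q) :
    MonoidAlgebra ℂ (Perm Ω) :=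
  (∑ σ : Perm Ω with ∀ ω, (E (σ ω)).1 = (E ω).1, MonoidAlgebra.single σ (1 : ℂ)) *
    ∑ σ : Perm Ω with ∀ ω, (E (σ ω)).2 = (E ω).2, MonoidAlgebra.single σ ((Perm.sign σ : ℤ) : ℂ)

end Pool.Agent.HCF
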