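import Pool.Agent.P.MP_f644fa_ag.YG3
import Pool.Agent.P.MP_f644fa_ag.Y0

/-! The section ring of a Fano manifold is Cohen-Macaulay. -/

noncomputable section
namespace Pool.Agent.HCF
open MvPolynomial Module Set

variable {M : ℕ} {I : Ideal (SS M)} {c n : ℕ}

theorem yg4_sqrt {V : Type} [NormedAddCommGroup V] [InnerProductSpace ℝ V] [FiniteDimensional ℝ V]
    {S : Set V} (hS : IsCompact S) {ι : Type} [Fintype ι] (u : ι → Sm S)
    (h : ∀ x, ∃ J, (u J).1 x ≠ 0) : ∃ σ : Sm S, star σ = σ ∧ σ ^ 2 * hp u u = 1 := by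
  refine exists_inv_sqrt hS _ fun x => ?_
  let ev : Sm S →+ ℂ := ⟨⟨fun a => a.1 x, rfl⟩, fun _ _ => rfl⟩
  have h1 : (hp u u).1 x = ((∑ J, Complex.normSq ((u J).1 x) : ℝ) : ℂ) := by
    change ev (hp u u) = _
    rw [hp, map_sum, Complex.ofReal_sum]
    refine Finset.sum_congr rfl fun J _ => ?_
    rw [Complex.normSq_eq_conj_mul_self]
    rfl
  rw [h1, Complex.ofReal_re, Complex.ofReal_im]
  obtain ⟨J, hJ⟩ := h x
  exact ⟨Finset.sum_pos' (fun _ _ => Complex.normSq_nonneg _)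
    ⟨J, Finset.mem_univ _, Complex.normSq_pos.2 hJ⟩, rfl⟩

theorem yg4_iov {m : ℤ} (l : Fin (n + 1) → secRing I) (hl : ∀ i, l i ∈ Gr (secRing I) 1)
    (z : Finset (Fin (n + 1)) → secRing I)
    (hz : ∀ J, z J ∈ Gr (secRing I) (m - J.card)) (J : Finset (Fin (n + 1))) :
    iov (secRing I) l z J ∈ Gr (secRing I) (m - J.card) := by
  rw [fock_iov]
  refine Submodule.sum_mem _ fun j _ => ?_
  rw [io_apply]
  by_cases hj : j ∈ J
  · rw [if_pos hj, smul_zero]
    exact zero_mem _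
  · rw [if_neg hj]
    have h1 : l j * (sg j J • z (insert j J)) ∈
        Gr (secRing I) (1 + (m - ((insert j J).card : ℕ))) :=
      IsHom.mul (hl j) (zsmul_mem (hz (insert j J)) (sg j J))
    have e : (1 : ℤ) + (m - ((insert j J).card : ℕ)) = m - J.card := by
      rw [Finset.card_insert_of_notMem hj]; push_cast; ring
    rwa [e] at h1

theorem kex_hom (hX : IsManifold I c) (hM : M = n + 1 + c) (hF : IsFano I c)
    (l : Fin (n + 1) → secRing I) (hl : ∀ i, l i ∈ Gr (secRing I) 1)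
    (hl' : ∀ x : cone I, ∃ i, (l i).1 x ≠ 0) (m : ℤ) (z : Finset (Fin (n + 1)) → secRing I)
    (he : z ∅ = 0) (hz : ∀ J, z J ∈ Gr (secRing I) (m - J.card)) (h0 : iov (secRing I) l z = 0) :
    ∃ y, iov (secRing I) l y = z := by
  obtain ⟨C, hC⟩ := exists_CR hX hM
  obtain ⟨s, hs, ⟨ω⟩⟩ := hC.fano_Wt hX hM hF
  obtain ⟨τ, -, hτ⟩ := yg4_sqrt (isCompact_Lk I) (fun i => rs I (l i)) fun y => hl' (toCone y)
  have hnat : ∀ y : Finset (Fin (n + 1)) → secRing I,
      (fun J => rs I (iov (secRing I) l y J)) =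
        iov (Sm (Lk I)) (fun i => rs I (l i)) fun J => rs I (y J) :=
    fun y => iov_nat (rs I).toRingHom.toAddMonoidHom (fun i v => map_mul (rs I) (l i) v) y
  obtain ⟨y', hy', hy0⟩ := ω.koszul_fun hM hs (fun i => rs I (l i))
    (fun i => hC.cf_rs hX (hl i)) hτ m (fun J => rs I (z J)) (by
      show rs I (z ∅) = 0
      rw [he, map_zero]) (fun J => hC.cf_rs hX (hz J)) (by
      rw [← hnat, h0]
      funext J
      exact map_zero (rs I))
  choose y hy hyy using fun J => hC.exists_rs' hX hM (hy' J)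
  refine ⟨y, funext fun J => ?_⟩
  have h1 : (fun J => rs I (y J)) = y' := funext hyy
  have h2 := hnat y
  rw [h1, hy0] at h2
  have h3 : rs I (iov (secRing I) l y J) = rs I (z J) := congrFun h2 J
  refine sub_eq_zero.1 (rs_inj hX (sub_mem (yg4_iov l hl y hy J) (hz J)) ?_)
  rw [map_sub, h3, sub_self]

theorem yg4_mono {a : secRing I} {m : ℕ} (h : a ∈ Gr (secRing I) m) :
    Dec a (Polynomial.monomial m a) := by
  refine ⟨fun i => ?_, by simp⟩
  rw [Polynomial.coeff_monomial]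
  split_ifs with hi
  · exact hi ▸ h
  · exact Submodule.zero_mem _

/-- the decomposition into components is a ring homomorphism -/
theorem yg4_dec (hX : IsManifold I c) (hM : M = n + 1 + c) (hn : 1 ≤ n) :
    ∃ D : secRing I →+* Polynomial (secRing I), ∀ a, Dec a (D a) := by
  choose D hD using exists_dec hX hM hn
  have hadd : ∀ a b, D (a + b) = D a + D b := fun a b =>
    (hD (a + b)).unique hX ⟨fun m => by
      rw [Polynomial.coeff_add]
      exact add_mem ((hD a).1 m) ((hD b).1 m), by rw [Polynomial.eval_add, (hD a).2, (hD b).2]⟩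
  refine ⟨⟨⟨⟨D, ?_⟩, fun a b => (hD (a * b)).unique hX ((hD a).mul (hD b))⟩, ?_, hadd⟩, hD⟩
  · exact (hD 1).unique hX (yg4_mono (m := 0) sec_isHom_one)
  · exact (hD 0).unique hX ⟨fun m => by
      rw [Polynomial.coeff_zero]
      exact zero_mem _, Polynomial.eval_zero⟩

theorem yg4_comp (hX : IsManifold I c) (hM : M = n + 1 + c) (hn : 1 ≤ n) :
    ∃ π : ℤ → secRing I →+ secRing I, (∀ m a, π m a ∈ Gr (secRing I) m) ∧
      (∀ m a, ∀ l ∈ Gr (secRing I) 1, π (m + 1) (l * a) = l * π m a) ∧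
      ∀ a (k : ℕ), ∃ N0 : ℕ, ∀ N, N0 ≤ N → ∑ m ∈ Finset.range N, π ((m : ℤ) - k) a = a := by
  obtain ⟨D, hD⟩ := yg4_dec hX hM hn
  let π : ℤ → secRing I →+ secRing I := fun m =>
    if 0 ≤ m then (Polynomial.lcoeff (secRing I) m.toNat).toAddMonoidHom.comp D.toAddMonoidHom
    else 0
  have h1 : ∀ (m : ℕ) a, π m a = (D a).coeff m := fun m a => by
    simp only [π, if_pos (Int.natCast_nonneg m), Int.toNat_natCast]
    rfl
  have h2 : ∀ m : ℤ, m < 0 → ∀ a, π m a = 0 := fun m hm a => by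
    simp only [π, if_neg (not_le.2 hm)]
    rfl
  refine ⟨π, fun m a => ?_, fun m a l hl => ?_, fun a k => ?_⟩
  · rcases lt_or_ge m 0 with h | h
    · rw [h2 m h]
      exact zero_mem _
    · obtain ⟨m, rfl⟩ := Int.eq_ofNat_of_zero_le h
      rw [h1]
      exact (hD a).1 m
  · have e : D l = Polynomial.monomial 1 l := (hD l).unique hX (yg4_mono (m := 1) hl)
    rcases lt_or_ge m 0 with h | h
    · rw [h2 m h, mul_zero]
      rcases lt_or_ge (m + 1) 0 with h' | h'
      · exact h2 _ h' _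
      · have e2 : m + 1 = ((0 : ℕ) : ℤ) := by omega
        rw [e2, h1, map_mul, e, Polynomial.mul_coeff_zero, Polynomial.coeff_monomial,
          if_neg one_ne_zero, zero_mul]
    · obtain ⟨m, rfl⟩ := Int.eq_ofNat_of_zero_le h
      rw [← Nat.cast_succ, h1, h1, map_mul, e, ← Polynomial.C_mul_X_eq_monomial, mul_assoc,
        Polynomial.coeff_C_mul, Polynomial.coeff_X_mul]
  · refine ⟨k + ((D a).natDegree + 1), fun N hN => ?_⟩
    obtain ⟨N', rfl⟩ := Nat.exists_eq_add_of_le (le_trans (Nat.le_add_right _ _) hN)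
    rw [Finset.sum_range_add, Finset.sum_eq_zero, zero_add]
    · conv_rhs => rw [← (hD a).2]
      rw [Polynomial.eval_eq_sum_range' (n := N') (by omega)]
      refine Finset.sum_congr rfl fun i _ => ?_
      rw [Nat.cast_add, add_sub_cancel_left, h1, one_pow, mul_one]
    · intro i hi
      have := Finset.mem_range.1 hi
      exact h2 _ (by omega) _

theorem kex_sec (hX : IsManifold I c) (hM : M = n + 1 + c) (hn : 1 ≤ n) (hF : IsFano I c)
    {L : Fin (n + 1) → Fin M → ℂ} (hL : Bpf I L) : KEx fun i => toSec I (lin (L i)) := by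
  intro z he h0
  obtain ⟨π, h1, h2, h3⟩ := yg4_comp hX hM hn
  have hl : ∀ i, toSec I (lin (L i)) ∈ Gr (secRing I) 1 := fun i => isHom_pf (lin_hom (L i))
  have hl' : ∀ x : cone I, ∃ i, (toSec I (lin (L i))).1 x ≠ 0 := fun x => by
    obtain ⟨i, hi⟩ := hL x.1 x.2
    exact ⟨i, by rw [← pf_apply] at hi; exact hi⟩
  have key : ∀ m : ℕ, ∃ y, iov (secRing I) (fun i => toSec I (lin (L i))) y =
      fun J => π ((m : ℤ) - J.card) (z J) := fun m => by
    refine kex_hom hX hM hF _ hl hl' m _ ?_ (fun J => h1 _ _) (funext fun J => ?_)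
    · show π _ (z ∅) = 0
      rw [he, map_zero]
    · have h4 := congrArg (π ((m : ℤ) - J.card)) (congrFun h0 J)
      rw [Pi.zero_apply, map_zero, fock_iov, map_sum] at h4
      rw [Pi.zero_apply, fock_iov, ← h4]
      refine Finset.sum_congr rfl fun j _ => ?_
      rw [io_apply, io_apply]
      by_cases hj : j ∈ J
      · rw [if_pos hj, if_pos hj, smul_zero, map_zero]
      · have e : (m : ℤ) - J.card = (m : ℤ) - ((insert j J).card : ℕ) + 1 := by
          rw [Finset.card_insert_of_notMem hj]; push_cast; ring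
        rw [if_neg hj, if_neg hj, smul_eq_mul, smul_eq_mul, e, h2 _ _ _ (hl j), map_zsmul]
  choose y hy using key
  choose N0 hN0 using fun J : Finset (Fin (n + 1)) => h3 (z J) J.card
  refine ⟨∑ m ∈ Finset.range (Finset.univ.sup N0), y m, funext fun J => ?_⟩
  rw [map_sum, Finset.sum_apply]
  simp only [hy]
  exact hN0 J _ (Finset.le_sup (Finset.mem_univ J))

theorem exists_vertex (hX : IsManifold I c) (hM : M = n + 1 + c) (hn : 1 ≤ n) :
    ∃ φ : secRing I →ₐ[ℂ] ℂ, ∀ f, φ (toSec I f) = eval 0 f := by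
  obtain ⟨D, hD⟩ := yg4_dec hX hM hn
  obtain ⟨x, hx⟩ := hX.nonempty
  let ψ : secRing I →+* ℂ := (sec1_ev ⟨x, hx⟩).comp (Polynomial.constantCoeff.comp D)
  have h1 : ∀ a, ψ a = ((D a).coeff 0).1 ⟨x, hx⟩ := fun _ => rfl
  have h2 : ∀ r : ℂ, ψ (algebraMap ℂ _ r) = r := fun r => by
    have h3 : algebraMap ℂ (secRing I) r ∈ Gr (secRing I) ((0 : ℕ) : ℤ) := by
      rw [Algebra.algebraMap_eq_smul_one]
      exact Submodule.smul_mem _ r sec_isHom_one
    rw [h1, (hD _).unique hX (yg4_mono h3), Polynomial.coeff_monomial, if_pos rfl]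
    rfl
  refine ⟨⟨ψ, h2⟩, fun f => ?_⟩
  have h4 : ψ.comp (toSec I).toRingHom = eval 0 := by
    refine ringHom_ext (fun r => ?_) fun j => ?_
    · rw [eval_C]
      exact (congrArg ψ ((toSec I).commutes r)).trans (h2 r)
    · have h5 : toSec I (X j) ∈ Gr (secRing I) ((1 : ℕ) : ℤ) := isHom_pf (isHomogeneous_X ℂ j)
      rw [eval_X]
      show ψ (toSec I (X j)) = 0
      rw [h1, (hD _).unique hX (yg4_mono h5), Polynomial.coeff_monomial, if_neg one_ne_zero]
      rfl
  exact RingHom.congr_fun h4 f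

end Pool.Agent.HCF
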