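import Pool.Agent.P.MP_f644fa_ag.Y0

/-! The acyclicity lemma. -/

noncomputable section
namespace Pool.Agent.HCF
open Finset Matrix Equiv

section abs
variable {τ A W : Type} [LinearOrder τ] [Fintype τ] [CommRing A] [AddCommGroup W] [Module A W]
  {l : τ → A} {D : W →ₗ[A] W} {F : ℕ → Submodule A W}

theorem ynit_nat (l : τ → A) (D : W →ₗ[A] W) (y : Finset τ → W) :
    (fun T => D (iov W l y T)) = iov W l fun T => D (y T) :=
  iov_nat D.toAddMonoidHom (fun j v => D.map_smul (l j) v) y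

theorem ynit_mem {p : Submodule A W} {y : Finset τ → W} (h : ∀ t T, l t • y T ∈ p)
    (T : Finset τ) : iov W l y T ∈ p := by
  rw [fock_iov]
  refine sum_mem fun j _ => ?_
  rw [io_apply]
  split_ifs
  · rw [smul_zero]
    exact zero_mem _
  · rw [smul_comm]
    exact zsmul_mem (h _ _) _

theorem ynit_pik (l : τ → A) (k : ℕ) (y : Finset τ → W) :
    iov W l (pik A W (k + 1) y) = pik A W k (iov W l y) := by
  have h1 : iov W l * pik A W (k + 1) = pik A W k * iov W l := by
    rw [iov, sum_mul, mul_sum]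
    exact sum_congr rfl fun j _ => by rw [smul_mul_assoc, mul_smul_comm, io_pik_succ]
  exact LinearMap.congr_fun h1 y

theorem ynit_pik_mem {p : Submodule A W} {y : Finset τ → W} (h : ∀ T, y T ∈ p) (k : ℕ)
    (T : Finset τ) : pik A W k y T ∈ p := by
  rw [pik_apply]
  split_ifs
  exacts [h T, zero_mem _]

theorem ynit_lift {p : Submodule A W} {k : ℕ} {γ : Finset τ → W} (hγ : Deg k γ)
    (h : ∀ T, γ T ∈ p.map D) : ∃ ζ, Deg k ζ ∧ (∀ T, ζ T ∈ p) ∧ γ = fun T => D (ζ T) := by
  choose ζ h1 h2 using h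
  refine ⟨pik A W k ζ, deg_pik k ζ, ynit_pik_mem h1 k, funext fun T => ?_⟩
  rw [pik_apply]
  split_ifs with h3
  · exact (h2 T).symm
  · rw [map_zero, hγ T h3]

section
variable (hD : ∀ i, ∀ x ∈ F (i + 1), D x ∈ F i) (hDD : ∀ x, D (D x) = 0)
  (hK : ∀ i (ζ : Finset τ → W), (∀ T, ζ T ∈ F i) → ζ ∅ = 0 → iov W l ζ = 0 →
    ∃ η, (∀ T, η T ∈ F i) ∧ iov W l η = ζ)
  (hn : ∀ i, Fintype.card τ ≤ i → ∀ x ∈ F i, x = 0)

include hK in
theorem ynit_kos {i k : ℕ} {ζ : Finset τ → W} (h : ∀ T, ζ T ∈ F i) (hd : Deg (k + 1) ζ)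
    (h0 : iov W l ζ = 0) : ∃ η, Deg (k + 2) η ∧ (∀ T, η T ∈ F i) ∧ iov W l η = ζ := by
  obtain ⟨η, h1, h2⟩ := hK i ζ h (hd ∅ (by simp)) h0
  exact ⟨pik A W (k + 2) η, deg_pik _ η, ynit_pik_mem h1 _, by rw [ynit_pik, h2, hd.pik_eq]⟩

include hD hDD hK hn in
theorem ynit_zig (j : ℕ) : ∀ i, Fintype.card τ ≤ i + (j + 1) →
    (∀ i', i < i' → ∀ x ∈ F i', D x = 0 → x ∈ (F (i' + 1)).map D) →
    ∀ ζ ζ' : Finset τ → W, Deg (j + 1) ζ → (∀ T, ζ T ∈ F i) → Deg j ζ' →
      (∀ T, ζ' T ∈ F (i + 1)) → (iov W l ζ = fun T => D (ζ' T)) →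
      ∃ η η' : Finset τ → W, Deg (j + 2) η ∧ (∀ T, η T ∈ F i) ∧ (∀ T, η' T ∈ F (i + 1)) ∧
        ζ = iov W l η + fun T => D (η' T) := by
  induction j with
  | zero =>
    intro i hi _ ζ ζ' d1 m1 _ m2 e
    obtain ⟨η, a, b, c⟩ := ynit_kos hK m1 d1 (e.trans (funext fun T => by
      rw [hn _ hi _ (m2 T), map_zero, Pi.zero_apply]))
    exact ⟨η, 0, a, b, fun _ => zero_mem _, funext fun T => by simp [c]⟩
  | succ j ih =>
    intro i hi hex ζ ζ' d1 m1 d2 m2 e
    have h0 : (fun T => D (iov W l ζ' T)) = 0 := by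
      rw [ynit_nat, ← e]
      exact LinearMap.congr_fun (iov_sq l) ζ
    obtain ⟨ζ'', d3, m3, e'⟩ := ynit_lift (d2.iov l) fun T => hex (i + 1) (Nat.lt_succ_self i) _
      (ynit_mem (fun t T => Submodule.smul_mem _ _ (m2 T)) T) (congrFun h0 T)
    obtain ⟨η, η', d4, m4, -, e4⟩ := ih (i + 1) (by omega) (fun i' h => hex i' (by omega))
      ζ' ζ'' d2 m2 d3 m3 e'
    obtain ⟨θ, a, b, c⟩ := ynit_kos hK (ζ := ζ - fun T => D (η T)) (k := j + 1)
      (fun T => sub_mem (m1 T) (hD i _ (m4 T)))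
      (fun T hT => by rw [Pi.sub_apply, d1 T hT, d4 T hT, map_zero, sub_zero]) (by
        rw [map_sub, e, ← ynit_nat, e4]
        funext T
        simp [hDD])
    exact ⟨θ, η, a, b, m4, by rw [c, sub_add_cancel]⟩

include hD hDD hK hn in
theorem ynit_one {i : ℕ} (hex : ∀ i', i < i' → ∀ x ∈ F i', D x = 0 → x ∈ (F (i' + 1)).map D)
    {x : W} (hx : x ∈ F i) (h : ∀ t, l t • x ∈ (F (i + 1)).map D) : x ∈ (F (i + 1)).map D := by
  rcases Nat.eq_zero_or_eq_succ_pred (Fintype.card τ) with h0 | h0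
  · rw [hn i (by omega) x hx]
    exact zero_mem _
  generalize (Fintype.card τ).pred = j at h0
  have d1 : Deg (j + 1) (Pi.single univ x : Finset τ → W) := fun T hT =>
    Pi.single_eq_of_ne (fun e => hT (by rw [e, card_univ, h0])) _
  have m1 : ∀ (p : Submodule A W) (r : A), r • x ∈ p → ∀ T,
      r • (Pi.single univ x : Finset τ → W) T ∈ p := fun p r hr T => by
    rw [Pi.single_apply]
    split_ifs
    · exact hr
    · rw [smul_zero]
      exact zero_mem _
  obtain ⟨ζ', d2, m2, e⟩ := ynit_lift (d1.iov l) (ynit_mem fun t => m1 _ _ (h t))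
  obtain ⟨η, η', d3, -, m3, e'⟩ := ynit_zig hD hDD hK hn j i (by omega) hex _ ζ' d1
    (fun T => by simpa using m1 _ 1 (by rwa [one_smul]) T) d2 m2 e
  have h1 : η = 0 := funext fun T => d3 T (by have := card_le_univ T; omega)
  have h2 := congrFun e' univ
  rw [h1, map_zero, zero_add, Pi.single_eq_same] at h2
  exact ⟨_, m3 univ, h2.symm⟩

end

omit [LinearOrder τ] in
theorem ynit_pow {p B : Submodule A W} (h : ∀ x ∈ p, (∀ t, l t • x ∈ B) → x ∈ B) :
    ∀ x ∈ p, (∀ t, ∃ K : ℕ, l t ^ K • x ∈ B) → x ∈ B := by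
  classical
  have key : ∀ s : Finset τ, ∀ x ∈ p, (∀ t ∈ s, ∃ K : ℕ, l t ^ K • x ∈ B) →
      (∀ t ∉ s, l t • x ∈ B) → x ∈ B := fun s => by
    induction s using Finset.induction_on with
    | empty => exact fun x hx _ h2 => h x hx fun t => h2 t (notMem_empty t)
    | insert a s _ ih =>
      intro x hx h1 h2
      obtain ⟨K, hK⟩ := h1 a (mem_insert_self a s)
      induction K with
      | zero => rwa [pow_zero, one_smul] at hK
      | succ K ihK =>
        refine ihK (ih _ (p.smul_mem _ hx) (fun t ht => ?_) fun t ht => ?_)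
        · obtain ⟨K', hK'⟩ := h1 t (mem_insert_of_mem ht)
          exact ⟨K', by rw [smul_comm]; exact B.smul_mem _ hK'⟩
        · by_cases e : t = a
          · rwa [e, smul_smul, ← pow_succ']
          · rw [smul_comm]
            exact B.smul_mem _ (h2 t (by simp [e, ht]))
  exact fun x hx h1 => key univ x hx (fun t _ => h1 t) fun t ht => absurd (mem_univ t) ht

theorem ynit_abs (hD : ∀ i, ∀ x ∈ F (i + 1), D x ∈ F i) (hDD : ∀ x, D (D x) = 0)
    (hK : ∀ i (ζ : Finset τ → W), (∀ T, ζ T ∈ F i) → ζ ∅ = 0 → iov W l ζ = 0 →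
      ∃ η, (∀ T, η T ∈ F i) ∧ iov W l η = ζ)
    (hn : ∀ i, Fintype.card τ ≤ i → ∀ x ∈ F i, x = 0)
    (ht : ∀ i t, ∀ x ∈ F i, D x = 0 → ∃ K : ℕ, l t ^ K • x ∈ (F (i + 1)).map D) (i : ℕ) :
    ∀ x ∈ F i, D x = 0 → x ∈ (F (i + 1)).map D := by
  have key : ∀ m i, Fintype.card τ ≤ i + m → ∀ x ∈ F i, D x = 0 → x ∈ (F (i + 1)).map D :=
    fun m => by
      induction m with
      | zero => exact fun i hi x hx _ => hn i hi x hx ▸ zero_mem _
      | succ m ih =>
        exact fun i hi x hx h0 => ynit_pow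
          (fun y hy => ynit_one hD hDD hK hn (fun i' h => ih i' (by omega)) hy) x hx
          fun t => ht i t x hx h0
  exact key _ i (Nat.le_add_left _ _)

end abs

variable {A J : Type} [CommRing A] [Fintype J] [DecidableEq J]

/-- the projection to degree `i` -/
def ynitP (A : Type) [CommRing A] (δ : J → ℕ) (i : ℕ) : Matrix J J A :=
  diagonal fun j => if δ j = i then 1 else 0

section
variable {δ : J → ℕ} {D E : Matrix J J A}

theorem ynitP_E (hE : DP δ δ E) (i : ℕ) : ynitP A δ i * E = E * ynitP A δ i := by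
  ext k j
  rw [ynitP, diagonal_mul, mul_diagonal, mul_comm]
  by_cases h : E k j = 0
  · simp [h]
  · rw [hE k j h]

theorem ynitP_D (hD : Low δ D) (i : ℕ) : D * ynitP A δ (i + 1) = ynitP A δ i * D := by
  ext k j
  rw [ynitP, ynitP, diagonal_mul, mul_diagonal, mul_comm]
  by_cases h : D k j = 0
  · simp [h]
  · simp [hD k j h]

theorem ynitP_D0 (hD : Low δ D) : D * ynitP A δ 0 = 0 := by
  ext k j
  rw [ynitP, mul_diagonal]
  by_cases h : D k j = 0
  · simp [h]
  · simp [hD k j h]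

theorem ynitP_mul (i i' : ℕ) :
    ynitP A δ i * ynitP A δ i' = if i = i' then ynitP A δ i else 0 := by
  rw [ynitP, ynitP, diagonal_mul_diagonal]
  split_ifs with h
  · subst h
    exact congrArg _ (funext fun j => by split_ifs <;> simp)
  · rw [← diagonal_zero]
    exact congrArg _ (funext fun j => by
      by_cases a : δ j = i <;> simp [a, h])

omit [Fintype J] in
theorem ynitP_sum {n : ℕ} (h : ∀ j, δ j < n) : ∑ i ∈ range n, ynitP A δ i = 1 := by
  ext k j
  rw [Matrix.sum_apply]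
  by_cases e : k = j
  · subst e
    simp [ynitP, h]
  · simp [ynitP, e]

end

theorem nit {τ : Type} [LinearOrder τ] [Fintype τ] {l : τ → A} (hl : KEx l) {δ : J → ℕ}
    (hδ : ∀ j, δ j < Fintype.card τ)
    {D E : Matrix J J A} (hD : Low δ D) (hDD : D * D = 0) (hE : DP δ δ E) (hEE : E * E = E)
    (hED : E * D = D * E)
    (ht : ∀ i, ∃ K : ℕ, ∀ z, E *ᵥ z = z → D *ᵥ z = 0 → ∃ y, D *ᵥ y = l i ^ K • z) :
    ∀ z, E *ᵥ z = z → D *ᵥ z = 0 → ∃ y, D *ᵥ y = z := by
  obtain ⟨Q, hQ⟩ : ∃ Q : ℕ → Matrix J J A, Q = fun i => ynitP A δ i * E := ⟨_, rfl⟩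
  have q1 : ∀ i, E * Q i = Q i := fun i => by
    simp only [hQ]
    rw [← Matrix.mul_assoc, ← ynitP_E hE, Matrix.mul_assoc, hEE]
  have q2 : ∀ i, Q i * E = Q i := fun i => by
    simp only [hQ]
    rw [Matrix.mul_assoc, hEE]
  have q3 : ∀ i, Q i * Q i = Q i := fun i => by
    have h := q1 i
    simp only [hQ] at h ⊢
    rw [Matrix.mul_assoc, h, ← Matrix.mul_assoc, ynitP_mul, if_pos rfl]
  have q4 : ∀ i, D * Q (i + 1) = Q i * D := fun i => by
    simp only [hQ]
    rw [← Matrix.mul_assoc, ynitP_D hD, Matrix.mul_assoc, Matrix.mul_assoc, hED]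
  have q5 : ∀ i, ∀ x ∈ LinearMap.range (Q i).mulVecLin, Q i *ᵥ x = x := by
    rintro i _ ⟨y, rfl⟩
    rw [mulVecLin_apply, mulVec_mulVec, q3]
  have key := ynit_abs (l := l) (D := D.mulVecLin) (F := fun i => LinearMap.range (Q i).mulVecLin)
    (by
      rintro i _ ⟨y, rfl⟩
      exact ⟨D *ᵥ y, by simp only [mulVecLin_apply, mulVec_mulVec, q4]⟩)
    (fun x => by simp only [mulVecLin_apply, mulVec_mulVec, hDD, zero_mulVec])
    (fun i ζ h1 h2 h3 => by
      have hn : ∀ (y : Finset τ → J → A) (j : J),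
          (fun T => iov (J → A) l y T j) = iov A l fun T => y T j := fun y j =>
        iov_nat (Pi.evalAddMonoidHom (fun _ => A) j) (fun _ _ => rfl) y
      choose y hy using fun j => hl (fun T => ζ T j) (congrFun h2 j) (by rw [← hn, h3]; rfl)
      have h4 : iov (J → A) l (fun T j => y j T) = ζ :=
        funext fun T => funext fun j => (congrFun (hn _ j) T).trans (congrFun (hy j) T)
      refine ⟨fun T => (Q i).mulVecLin fun j => y j T, fun T => ⟨_, rfl⟩, ?_⟩
      rw [← ynit_nat, h4]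
      exact funext fun T => q5 i _ (h1 T))
    (by
      rintro i hi _ ⟨y, rfl⟩
      have h0 : ynitP A δ i = 0 := by
        rw [ynitP, ← diagonal_zero]
        exact congrArg _ (funext fun j => if_neg (by have := hδ j; omega))
      simp only [hQ, h0, Matrix.zero_mul, mulVecLin_apply, zero_mulVec])
    (fun i t x hx h0 => by
      obtain ⟨K, hK⟩ := ht t
      obtain ⟨y, hy⟩ := hK x (by rw [← q5 i x hx, mulVec_mulVec, q1]) h0
      exact ⟨K, _, ⟨y, rfl⟩, by
        rw [mulVecLin_apply, mulVecLin_apply, mulVec_mulVec, q4, ← mulVec_mulVec, hy, mulVec_smul,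
          q5 i x hx]⟩)
  intro z hz h0
  have h1 : z = ∑ i ∈ range (Fintype.card τ), Q i *ᵥ z := by
    simp only [hQ]
    rw [← sum_mulVec, ← Matrix.sum_mul, ynitP_sum hδ, Matrix.one_mul, hz]
  have h2 : z ∈ LinearMap.range D.mulVecLin := by
    rw [h1]
    refine sum_mem fun i _ => LinearMap.map_le_range (key i _ ⟨z, rfl⟩ ?_)
    rw [mulVecLin_apply, mulVec_mulVec]
    cases i with
    | zero => simp only [hQ, ← Matrix.mul_assoc, ynitP_D0 hD, Matrix.zero_mul, zero_mulVec]
    | succ i => rw [q4, ← mulVec_mulVec, h0, mulVec_zero]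
  exact h2

theorem contr {δ : J → ℕ} {D E : Matrix J J A} (hD : Low δ D) (hDD : D * D = 0) (hE : DP δ δ E)
    (hEE : E * E = E) (hED : E * D = D * E)
    (hex : ∀ z, E *ᵥ z = z → D *ᵥ z = 0 → ∃ y, D *ᵥ y = z) : ∃ H, D * H + H * D = E := by
  have hcol : ∀ V : Matrix J J A, E * V = V → D * V = 0 → ∃ Y, D * Y = V := fun V h1 h2 => by
    choose y hy using fun j => hex (fun k => V k j) (funext fun k => congrFun (congrFun h1 k) j)
      (funext fun k => congrFun (congrFun h2 k) j)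
    exact ⟨Matrix.of fun k j => y j k, Matrix.ext fun k j => congrFun (hy j) k⟩
  have key : ∀ t, ∃ H, E * H = H ∧ ∀ i < t, (D * H + H * D) * ynitP A δ i = E * ynitP A δ i :=
    fun t => by
      induction t with
      | zero => exact ⟨0, Matrix.mul_zero _, fun i hi => absurd hi (Nat.not_lt_zero i)⟩
      | succ t ih =>
        obtain ⟨H, h1, h2⟩ := ih
        have e1 : E * ((E - (D * H + H * D)) * ynitP A δ t) =
            (E - (D * H + H * D)) * ynitP A δ t := by
          rw [← mul_assoc, mul_sub, mul_add, hEE, ← mul_assoc, ← mul_assoc, hED, h1,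
            mul_assoc D, h1]
        have e2 : D * ((E - (D * H + H * D)) * ynitP A δ t) = 0 := by
          have e3 : D * ((E - (D * H + H * D)) * ynitP A δ t) =
              (E - (D * H + H * D)) * (D * ynitP A δ t) := by
            rw [← mul_assoc, ← mul_assoc]
            refine congrArg (· * ynitP A δ t) ?_
            simp only [mul_sub, sub_mul, mul_add, add_mul, hED, ← mul_assoc D D, mul_assoc H D D,
              hDD, zero_mul, mul_zero, zero_add, add_zero, mul_assoc D H D]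
          rw [e3]
          cases t with
          | zero => rw [ynitP_D0 hD, mul_zero]
          | succ s =>
            rw [ynitP_D hD, ← mul_assoc, sub_mul, h2 s (Nat.lt_succ_self s), sub_self, zero_mul]
        obtain ⟨Y, hY⟩ := hcol _ e1 e2
        refine ⟨H + E * Y * ynitP A δ t, by
          rw [mul_add, h1, ← mul_assoc, ← mul_assoc, hEE], fun i hi => ?_⟩
        have e4 : ynitP A δ t * (D * ynitP A δ i) = 0 := by
          rw [← mul_assoc, ← ynitP_D hD, mul_assoc, ynitP_mul, if_neg (by omega), mul_zero]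
        have e5 : D * (E * Y * ynitP A δ t) = (E - (D * H + H * D)) * ynitP A δ t := by
          rw [← mul_assoc, ← mul_assoc, ← hED, mul_assoc E, hY, e1, mul_assoc, ynitP_mul,
            if_pos rfl]
        have e6 : (D * (H + E * Y * ynitP A δ t) + (H + E * Y * ynitP A δ t) * D) * ynitP A δ i =
            (D * H + H * D) * ynitP A δ i +
              (E - (D * H + H * D)) * (ynitP A δ t * ynitP A δ i) := by
          rw [mul_add D, e5, add_mul H, add_add_add_comm, add_mul, add_mul _ (_ * _ * D),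
            mul_assoc (E * Y * _), mul_assoc (E * Y), e4, mul_zero, add_zero, mul_assoc (E - _)]
        rw [e6, ynitP_mul]
        split_ifs with h
        · rw [h, ← add_mul, add_sub_cancel]
        · rw [mul_zero, add_zero, h2 i (by omega)]
  obtain ⟨H, -, h⟩ := key (univ.sup δ + 1)
  refine ⟨H, ?_⟩
  have h1 := ynitP_sum (A := A) fun j => Nat.lt_succ_of_le (le_sup (f := δ) (mem_univ j))
  rw [← mul_one (D * H + H * D), ← mul_one E, ← h1, mul_sum, mul_sum]
  exact sum_congr rfl fun i hi => h i (mem_range.1 hi)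

end Pool.Agent.HCF
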