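import Pool.Agent.P.MP_f644fa_ag.YYoung0

/-! The Young symmetriser of a rectangle and super vector spaces. -/

noncomputable section
namespace Pool.Agent.HCF
open Finset Matrix Equiv

variable {Ω κ : Type} [Fintype Ω] [DecidableEq Ω] [Fintype κ] [DecidableEq κ] {p q : ℕ}

theorem YYoung_mul (ρ : Perm Ω →* Matrix (Ω → κ) (Ω → κ) ℂ)
    (h1 : ∀ σ T T', ρ σ T T' ≠ 0 → T' = T ∘ σ) (y : MonoidAlgebra ℂ (Perm Ω)) (a b : Ω)
    (S T : Ω → κ) :
    MonoidAlgebra.lift ℂ _ (Perm Ω) ρ (y * MonoidAlgebra.single (swap a b) 1) S T =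
      MonoidAlgebra.lift ℂ _ (Perm Ω) ρ y S (T ∘ swap a b) * ρ (swap a b) (T ∘ swap a b) T := by
  rw [map_mul, MonoidAlgebra.lift_single, one_smul, Matrix.mul_apply]
  refine Finset.sum_eq_single _ (fun T' _ hT => ?_) fun h => absurd (mem_univ _) h
  by_cases h0 : ρ (swap a b) T' T = 0
  · rw [h0, mul_zero]
  · refine absurd (funext fun ω => ?_) hT
    rw [h1 _ _ _ h0]
    simp

omit [Fintype Ω] [Fintype κ] [DecidableEq κ] in
theorem YYoung_fix {T : Ω → κ} {a b : Ω} (h : T a = T b) : T ∘ swap a b = T :=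
  funext fun ω => apply_swap_eq_self h ω

omit [DecidableEq κ] in
theorem YYoung_colfun (π : κ → Bool) (hq : (univ.filter fun k => π k = true).card ≤ q) :
    ∃ col : κ → ℕ, (∀ k, π k = true → col k < q) ∧
      ∀ k k', π k = true → π k' = true → col k = col k' → k = k' := by
  classical
  have hm : ∀ k, π k = true → k ∈ univ.filter fun k => π k = true := fun k h => by simpa using h
  refine ⟨fun k => if h : π k = true then
    ((univ.filter fun k => π k = true).equivFin ⟨k, hm k h⟩ : ℕ) else 0,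
    fun k h => ?_, fun k k' h h' e => ?_⟩
  · simp only [h, dite_true]
    exact (Fin.is_lt _).trans_le hq
  · simp only [h, h', dite_true] at e
    exact congrArg Subtype.val ((univ.filter fun k => π k = true).equivFin.injective (Fin.ext e))

theorem young_zero (E : Ω ≃ Fin (p + 1) × Fin (q + 1)) (π : κ → Bool)
    (hp : (univ.filter fun k => π k = false).card ≤ p)
    (hq : (univ.filter fun k => π k = true).card ≤ q)
    (ρ : Perm Ω →* Matrix (Ω → κ) (Ω → κ) ℂ) (h1 : ∀ σ T T', ρ σ T T' ≠ 0 → T' = T ∘ σ)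
    (h2 : ∀ a b T, a ≠ b → T a = T b → ρ (swap a b) T T = if π (T a) then -1 else 1) :
    MonoidAlgebra.lift ℂ _ (Perm Ω) ρ (young E) = 0 := by
  obtain ⟨col, c1, c2⟩ := YYoung_colfun π hq
  ext S T
  rw [Matrix.zero_apply]
  obtain ⟨B, hB⟩ : ∃ B : (Ω → κ) → Finset Ω, ∀ T z,
      z ∈ B T ↔ π (T z) = true ∧ ((E z).2 : ℕ) ≠ col (T z) :=
    ⟨fun T => univ.filter fun z => π (T z) = true ∧ ((E z).2 : ℕ) ≠ col (T z), fun T z => by simp⟩
  induction hn : (B T).card using Nat.strong_induction_on generalizing T with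
  | _ n ih =>
  rcases (B T).eq_empty_or_nonempty with h0 | ⟨z, hz⟩
  · have ev : ∀ i : Fin (p + 1), π (T (E.symm (i, Fin.last q))) = false := fun i => by
      by_contra h
      rw [Bool.not_eq_false] at h
      have h3 := c1 _ h
      have h4 : E.symm (i, Fin.last q) ∈ B T := (hB _ _).2 ⟨h, by
        rw [Equiv.apply_symm_apply, Fin.val_last]
        omega⟩
      rw [h0] at h4
      exact absurd h4 (notMem_empty _)
    obtain ⟨i, -, i', -, hi, e⟩ := exists_ne_map_eq_of_card_lt_of_maps_to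
      (s := (univ : Finset (Fin (p + 1)))) (t := univ.filter fun k => π k = false)
      (by rw [card_univ, Fintype.card_fin]; omega)
      (f := fun i => T (E.symm (i, Fin.last q))) fun i _ => by simpa using ev i
    have hne : E.symm (i, Fin.last q) ≠ E.symm (i', Fin.last q) := fun h =>
      hi (congrArg Prod.fst (E.symm.injective h))
    have h3 := YYoung_mul ρ h1 (young E) (E.symm (i, Fin.last q)) (E.symm (i', Fin.last q)) S T
    rw [young_col E hne (by simp), YYoung_fix e, h2 _ _ _ hne e, ev i, map_neg,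
      Matrix.neg_apply] at h3
    simp only [Bool.false_eq_true, if_false, mul_one] at h3
    linear_combination (-1 / 2 : ℂ) * h3
  · obtain ⟨z1, z2⟩ := (hB _ _).1 hz
    have hj : (E z).2 ≠ ⟨col (T z), (c1 _ z1).trans (Nat.lt_succ_self q)⟩ := fun h =>
      z2 (congrArg Fin.val h)
    have h3 := congrArg (fun y => MonoidAlgebra.lift ℂ _ (Perm Ω) ρ y S T) (young_exch E _ hj)
    simp only [map_sum, Matrix.sum_apply] at h3
    rw [sum_congr rfl (g := fun u => -((if T u = T z then 1 else 0 : ℕ) : ℂ) *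
      MonoidAlgebra.lift ℂ _ (Perm Ω) ρ (young E) S T) fun u hu => ?_, ← sum_mul,
      sum_neg_distrib, ← Nat.cast_sum] at h3
    · generalize (∑ u with (E u).2 = ⟨col (T z), (c1 _ z1).trans (Nat.lt_succ_self q)⟩,
        if T u = T z then 1 else 0 : ℕ) = k at h3
      refine mul_left_cancel₀ (Nat.cast_add_one_ne_zero (R := ℂ) k) ?_
      linear_combination h3
    · have hu1 := (mem_filter.1 hu).2
      have hu2 : ((E u).2 : ℕ) = col (T z) := congrArg Fin.val hu1
      have hne : u ≠ z := fun h => hj (h ▸ hu1)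
      rw [YYoung_mul ρ h1]
      by_cases e : T u = T z
      · rw [YYoung_fix e, h2 _ _ _ hne e, e, z1]
        simp
      · have n1 : u ∉ B (T ∘ swap u z) := fun h => ((hB _ _).1 h).2 (by simpa using hu2)
        have sub : B (T ∘ swap u z) ⊆ B T := fun w hw => by
          by_cases w1 : w = u
          · exact absurd (w1 ▸ hw) n1
          by_cases w2 : w = z
          · exact w2 ▸ hz
          · have := (hB _ _).1 hw
            rw [Function.comp_apply, swap_apply_of_ne_of_ne w1 w2] at this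
            exact (hB _ _).2 this
        have lt : (B (T ∘ swap u z)).card < n := by
          rw [← hn]
          refine card_lt_card ((ssubset_iff_of_subset sub).2 ?_)
          by_cases o : π (T u) = true
          · exact ⟨u, (hB _ _).2 ⟨o, fun h => e (c2 _ _ o z1 (h.symm.trans hu2))⟩, n1⟩
          · exact ⟨z, hz, fun h => o (by simpa using ((hB _ _).1 h).1)⟩
        rw [ih _ lt _ rfl, if_neg e]
        simp

theorem young_ne (E : Ω ≃ Fin p × Fin q) (ρ : Perm Ω →* Matrix (Ω → Fin p) (Ω → Fin p) ℂ)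
    (h1 : ∀ σ T T', ρ σ T T' = if T' = T ∘ σ then 1 else 0) :
    MonoidAlgebra.lift ℂ _ (Perm Ω) ρ (young E) ≠ 0 := by
  intro h
  have h2 := congrFun (congrFun h fun ω => (E ω).1) fun ω => (E ω).1
  have hA : ∀ T', (∑ σ : Perm Ω with ∀ ω, (E (σ ω)).1 = (E ω).1, ρ σ) (fun ω => (E ω).1) T' =
      if T' = fun ω => (E ω).1 then
        ((univ.filter fun σ : Perm Ω => ∀ ω, (E (σ ω)).1 = (E ω).1).card : ℂ) else 0 := fun T' => by
    rw [Matrix.sum_apply, sum_congr rfl (g := fun _ => if T' = fun ω => (E ω).1 then 1 else 0)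
      fun σ hσ => ?_]
    · split_ifs <;> simp
    · have e : (fun ω => (E ω).1) ∘ σ = fun ω => (E ω).1 := funext (mem_filter.1 hσ).2
      rw [h1, e]
  have hB : (∑ σ : Perm Ω with ∀ ω, (E (σ ω)).2 = (E ω).2, ((Perm.sign σ : ℤ) : ℂ) • ρ σ)
      (fun ω => (E ω).1) (fun ω => (E ω).1) = 1 := by
    rw [Matrix.sum_apply, sum_eq_single 1 (fun σ hσ hne => ?_) fun h => absurd (by simp) h]
    · simp
    · rw [Matrix.smul_apply, h1, if_neg, smul_zero]
      intro e
      exact hne (Equiv.ext fun ω => E.injective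
        (Prod.ext (congrFun e ω).symm ((mem_filter.1 hσ).2 ω)))
  simp only [young, map_mul, map_sum, MonoidAlgebra.lift_single, one_smul] at h2
  rw [Matrix.mul_apply, Matrix.zero_apply, sum_eq_single (fun ω => (E ω).1)
    (fun T' _ hT => by rw [hA, if_neg hT, zero_mul]) fun h => absurd (mem_univ _) h, hA, hB,
    if_pos rfl, mul_one, Nat.cast_eq_zero, card_eq_zero] at h2
  exact absurd h2 (ne_empty_of_mem (a := 1) (by simp))

theorem exists_idem {G : Type} [Group G] [Fintype G] (y : MonoidAlgebra ℂ G) :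
    ∃ e u v : MonoidAlgebra ℂ G, e * e = e ∧ e = u * y ∧ y = v * e := by
  have : NeZero (Nat.card G : ℂ) := ⟨Nat.cast_ne_zero.2 Nat.card_pos.ne'⟩
  have : IsSemisimpleRing (MonoidAlgebra ℂ G) := inferInstance
  obtain ⟨e, he, h⟩ := IsSemisimpleRing.ideal_eq_span_idempotent (Ideal.span {y})
  obtain ⟨u, hu⟩ := Ideal.mem_span_singleton'.1 (h ▸ Ideal.mem_span_singleton_self e :
    e ∈ Ideal.span {y})
  obtain ⟨v, hv⟩ := Ideal.mem_span_singleton'.1 (h ▸ Ideal.mem_span_singleton_self y :
    y ∈ Ideal.span {e})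
  exact ⟨e, u, v, he, hu.symm, hv.symm⟩

end Pool.Agent.HCF
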