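import Pool.Agent.P.MP_f644fa_ag.YPm
import Pool.Agent.P.MP_f644fa_ag.YYoung
import Pool.Agent.P.MP_f644fa_ag.YNit

/-! The homology cannot jump at the vertex. -/

noncomputable section
namespace Pool.Agent.HCF
open Finset Matrix Equiv

theorem ysch_zero {A κ Ω : Type} [CommRing A] [Algebra ℂ A] [Fintype κ] [DecidableEq κ]
    [Fintype Ω] [LinearOrder Ω] {p q : ℕ} (E : Ω ≃ Fin (p + 1) × Fin (q + 1)) (π' : κ → Bool)
    (hp : (univ.filter fun k => π' k = false).card ≤ p)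
    (hq : (univ.filter fun k => π' k = true).card ≤ q) : act A Ω π' (young E) = 0 := by
  have h : act ℂ Ω π' (young E) = 0 := by
    unfold act
    refine young_zero E π' hp hq (pmH ℂ Ω π') ?_ ?_
    · intro σ T T' h
      by_contra hne
      apply h
      show pm ℂ π' σ T T' = 0
      simp only [pm, Matrix.of_apply, if_neg hne]
    · intro a b T hab hT
      exact pm_swap π' hab hT
  rw [← act_map π' (Algebra.ofId ℂ A), h]
  ext T T'
  simp

theorem ysch_ne {Ω : Type} [Fintype Ω] [LinearOrder Ω] {p q : ℕ} (E : Ω ≃ Fin p × Fin q) :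
    act ℂ Ω (fun _ : Fin p => false) (young E) ≠ 0 := by
  unfold act
  refine young_ne E (pmH ℂ Ω fun _ : Fin p => false) ?_
  intro σ T T'
  show pm ℂ (fun _ : Fin p => false) σ T T' = _
  simp [pm, od, ks]

theorem ysch_gen {A ι κ X τ Ω : Type} [CommRing A] [Algebra ℂ A] [Fintype ι] [DecidableEq ι]
    [Fintype κ] [DecidableEq κ] [LinearOrder τ] [Fintype τ] [Fintype Ω] [LinearOrder Ω]
    {c p q : ℕ} (E : Ω ≃ Fin (p + 1) × Fin (q + 1)) {l : τ → A} (hl : KEx l) {deg : ι → ℕ}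
    (hdeg : ∀ i, deg i ≤ c) {π : ι → Bool} {π' : κ → Bool} {d : Matrix ι ι A} (hd : Low deg d)
    (hd' : Od π d) (dd : d * d = 0) (hp : (univ.filter fun k => π' k = false).card ≤ p)
    (hq : (univ.filter fun k => π' k = true).card ≤ q) (g : X → A)
    (loc : ∀ x, ∃ (α : Matrix κ ι A) (β : Matrix ι κ A) (h : Matrix ι ι A), DP π' π α ∧ DP π π' β ∧
      d * h + h * d = g x • (1 : Matrix ι ι A) - β * α)
    (hns : ∀ 𝔞 : Ideal A, (∀ x, ∃ N : ℕ, g x ^ N ∈ 𝔞) → ∀ i, ∃ K : ℕ, l i ^ K ∈ 𝔞)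
    (hn : c * Fintype.card Ω < Fintype.card τ) (φ : A →ₐ[ℂ] ℂ) : ¬ Big π (d.map φ) p := by
  obtain ⟨e, u, v, hee, heu, hyv⟩ := exists_idem (young E)
  have he' : act A Ω π' e = 0 := by
    rw [heu, map_mul, ysch_zero E π' hp hq, mul_zero]
  let 𝔞 : Ideal A :=
    { carrier := {r | ∀ z, act A Ω π e *ᵥ z = z → DT Ω π d *ᵥ z = 0 → ∃ w, DT Ω π d *ᵥ w = r • z}
      add_mem' := by
        intro a b ha hb z h1 h2
        obtain ⟨w, hw⟩ := ha z h1 h2
        obtain ⟨w', hw'⟩ := hb z h1 h2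
        exact ⟨w + w', by rw [Matrix.mulVec_add, hw, hw', add_smul]⟩
      zero_mem' := fun z _ _ => ⟨0, by simp⟩
      smul_mem' := by
        intro a b hb z h1 h2
        obtain ⟨w, hw⟩ := hb z h1 h2
        exact ⟨a • w, by rw [Matrix.mulVec_smul, hw, smul_eq_mul, mul_smul]⟩ }
  have hg : ∀ x, ∃ N : ℕ, g x ^ N ∈ 𝔞 := by
    intro x
    obtain ⟨α, β, h, hα, hβ, hh⟩ := loc x
    have hP : DP π π (β * α) := by
      intro i j hij
      rw [Matrix.mul_apply] at hij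
      obtain ⟨k, -, hk⟩ := Finset.exists_ne_zero_of_sum_ne_zero hij
      exact (hβ i k (left_ne_zero_of_mul hk)).trans (hα k j (right_ne_zero_of_mul hk))
    obtain ⟨H, hH⟩ := DT_htp (Ω := Ω) hd' dd hP hh
    refine ⟨Fintype.card Ω, fun z h1 h2 => ⟨H *ᵥ z, ?_⟩⟩
    have h3 : tp (fun _ : Ω => β * α) *ᵥ z = 0 := by
      rw [← h1, ← tp_mul (fun _ : Ω => β) (fun _ : Ω => α), Matrix.mulVec_mulVec, Matrix.mul_assoc,
        ← act_tp π' hα e, he', Matrix.zero_mul, Matrix.mul_zero, Matrix.zero_mulVec]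
    have h4 := congrArg (fun m => m *ᵥ z) hH
    simp only [Matrix.add_mulVec, Matrix.sub_mulVec, ← Matrix.mulVec_mulVec, h2, h3,
      Matrix.mulVec_zero, add_zero, sub_zero, Matrix.smul_mulVec, Matrix.one_mulVec] at h4
    exact h4
  have hδ : ∀ T : Ω → ι, ∑ ω, deg (T ω) < Fintype.card τ := by
    intro T
    refine lt_of_le_of_lt ?_ hn
    calc ∑ ω, deg (T ω) ≤ ∑ _ω : Ω, c := Finset.sum_le_sum fun ω _ => hdeg _
      _ = c * Fintype.card Ω := by rw [Finset.sum_const, Finset.card_univ, smul_eq_mul, mul_comm]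
  have hEE : act A Ω π e * act A Ω π e = act A Ω π e := by rw [← map_mul, hee]
  have hex := nit hl hδ (DT_low (π := π) hd) (DT_sq hd' dd) (act_deg π deg e) hEE
    (act_DT π hd' e) (fun i => hns 𝔞 hg i)
  obtain ⟨H, hH⟩ := contr (DT_low (π := π) hd) (DT_sq hd' dd) (act_deg π deg e) hEE
    (act_DT π hd' e) hex
  rintro ⟨α, β, hβ, hα, hdβ, hαd, hαβ⟩
  have hH0 : DT Ω π (d.map φ) * H.map φ + H.map φ * DT Ω π (d.map φ) = act ℂ Ω π e := by
    have h1 : (DT Ω π d).map φ = DT Ω π (d.map φ) := DT_map (φ : A →+* ℂ) d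
    rw [← act_map π φ e, ← hH, ← h1]
    ext T T'
    simp [Matrix.mul_apply, map_sum]
  have hβ' : DP π (fun _ : Fin (p + 1) => false) β := fun i k h => hβ i k h
  have h1 : tp (fun _ : Ω => α) * act ℂ Ω π e * tp (fun _ : Ω => β) = 0 := by
    rw [← hH0, Matrix.mul_add, Matrix.add_mul, ← Matrix.mul_assoc, tp_DT hαd, Matrix.mul_assoc,
      Matrix.mul_assoc, Matrix.mul_assoc, DT_tp hβ' hdβ]
    simp
  rw [Matrix.mul_assoc, act_tp π hβ' e, ← Matrix.mul_assoc, tp_mul] at h1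
  simp only [hαβ, tp_one, Matrix.one_mul] at h1
  apply ysch_ne E
  rw [hyv, map_mul, h1, mul_zero]

theorem schur {A ι κ X τ : Type} [CommRing A] [Algebra ℂ A] [Fintype ι] [DecidableEq ι] [Fintype κ]
    [DecidableEq κ] [LinearOrder τ] [Fintype τ] {c p q : ℕ} {l : τ → A} (hl : KEx l) {deg : ι → ℕ}
    (hdeg : ∀ i, deg i ≤ c) {π : ι → Bool} {π' : κ → Bool} {d : Matrix ι ι A} (hd : Low deg d)
    (hd' : Od π d) (dd : d * d = 0) (hp : (univ.filter fun k => π' k = false).card ≤ p)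
    (hq : (univ.filter fun k => π' k = true).card ≤ q) (g : X → A)
    (loc : ∀ x, ∃ (α : Matrix κ ι A) (β : Matrix ι κ A) (h : Matrix ι ι A), DP π' π α ∧ DP π π' β ∧
      d * h + h * d = g x • (1 : Matrix ι ι A) - β * α)
    (hns : ∀ 𝔞 : Ideal A, (∀ x, ∃ N : ℕ, g x ^ N ∈ 𝔞) → ∀ i, ∃ K : ℕ, l i ^ K ∈ 𝔞)
    (hn : c * ((p + 1) * (q + 1)) < Fintype.card τ) (φ : A →ₐ[ℂ] ℂ) : ¬ Big π (d.map φ) p :=
  ysch_gen (Ω := Fin ((p + 1) * (q + 1))) finProdFinEquiv.symm hl hdeg hd hd' dd hp hq g loc hns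
    (by rwa [Fintype.card_fin]) φ

end Pool.Agent.HCF
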