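import Pool.Agent.P.MP_f644fa_ag.YSemi0

/-! Semicontinuity of the homology and the count of the Betti numbers. -/

noncomputable section
namespace Pool.Agent.HCF
open Finset Matrix Equiv

variable {ι : Type} [Fintype ι] [DecidableEq ι] {deg : ι → ℕ} {c : ℕ}

theorem YSemi_toggle (a : Fin c) (J : Finset (Fin c)) :
    (if a ∈ J then J.erase a else insert a J).card.bodd = !J.card.bodd := by
  split_ifs with h
  · rw [← Finset.card_erase_add_one h, Nat.bodd_succ, Bool.not_not]
  · rw [Finset.card_insert_of_notMem h, Nat.bodd_succ]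

theorem YSemi_toggle2 (a : Fin c) (J : Finset (Fin c)) :
    (if a ∈ (if a ∈ J then J.erase a else insert a J) then
      (if a ∈ J then J.erase a else insert a J).erase a
      else insert a (if a ∈ J then J.erase a else insert a J)) = J := by
  by_cases h : a ∈ J
  · simp [h]
  · simp [h]

theorem card_parity (hc : 1 ≤ c) (b : Bool) :
    (univ.filter fun J : Finset (Fin c) => J.card.bodd = b).card = 2 ^ (c - 1) := by
  have h1 : (univ.filter fun J : Finset (Fin c) => J.card.bodd = b).card =
      (univ.filter fun J : Finset (Fin c) => ¬ J.card.bodd = b).card := by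
    let a : Fin c := ⟨0, hc⟩
    refine Finset.card_nbij' (fun J => if a ∈ J then J.erase a else insert a J)
      (fun J => if a ∈ J then J.erase a else insert a J) (fun J hJ => ?_) (fun J hJ => ?_)
      (fun J _ => YSemi_toggle2 a J) (fun J _ => YSemi_toggle2 a J)
    · have h := (Finset.mem_filter.1 (Finset.mem_coe.1 hJ)).2
      refine Finset.mem_coe.2 (Finset.mem_filter.2 ⟨mem_univ _, ?_⟩)
      rw [YSemi_toggle, h]
      cases b <;> simp
    · have h := (Finset.mem_filter.1 (Finset.mem_coe.1 hJ)).2
      refine Finset.mem_coe.2 (Finset.mem_filter.2 ⟨mem_univ _, ?_⟩)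
      rw [YSemi_toggle]
      revert h
      cases b <;> cases J.card.bodd <;> simp
  have h2 := Finset.card_filter_add_card_filter_not (s := (univ : Finset (Finset (Fin c))))
    (fun J : Finset (Fin c) => J.card.bodd = b)
  rw [card_univ, Fintype.card_finset, Fintype.card_fin, ← h1] at h2
  obtain ⟨e, rfl⟩ : ∃ e, c = e + 1 := ⟨c - 1, by omega⟩
  rw [pow_succ] at h2
  rw [Nat.add_sub_cancel]
  omega

theorem YSemi_big {K : Type} [Fintype K] {π : ι → Bool} {d : Matrix ι ι ℂ} (hd : Od π d) {p : ℕ}
    (z : K → ι → ℂ) (hz : ∀ k i, z k i ≠ 0 → π i = false) (hcyc : ∀ k, d *ᵥ z k = 0)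
    (hind : ∀ (t : K → ℂ) (w : ι → ℂ), ∑ k, t k • z k = d *ᵥ w → t = 0)
    (hK : p + 1 ≤ Fintype.card K) : Big π d p := by
  obtain ⟨e⟩ : Nonempty (Fin (p + 1) ↪ K) :=
    Function.Embedding.nonempty_of_card_le (by rwa [Fintype.card_fin])
  let R : Submodule ℂ (ι → ℂ) := LinearMap.range d.mulVecLin
  have h1 : LinearIndependent ℂ fun k => R.mkQ (z k) := by
    rw [Fintype.linearIndependent_iff]
    intro t ht k
    have h2 : R.mkQ (∑ k, t k • z k) = 0 := by
      rw [map_sum]
      simpa only [map_smul] using ht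
    obtain ⟨w, hw⟩ := (Submodule.Quotient.mk_eq_zero R).1 h2
    exact congrFun (hind t w hw.symm) k
  have h2 := h1.comp e e.injective
  obtain ⟨g, hg⟩ := LinearMap.exists_leftInverse_of_injective
    (Fintype.linearCombination ℂ ((fun k => R.mkQ (z k)) ∘ e))
    (LinearMap.ker_eq_bot'.2 fun t ht => funext
      (Fintype.linearIndependent_iff.1 h2 t (by rwa [Fintype.linearCombination_apply] at ht)))
  let a0 : Matrix (Fin (p + 1)) ι ℂ := LinearMap.toMatrix' (g ∘ₗ R.mkQ)
  have ha : ∀ v, a0 *ᵥ v = g (R.mkQ v) := fun v => LinearMap.toMatrix'_mulVec _ v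
  have h3 : ∀ k i, ∑ i', a0 k i' * d i' i = 0 := fun k i => by
    have h4 : R.mkQ (d *ᵥ Pi.single i 1) = 0 :=
      (Submodule.Quotient.mk_eq_zero R).2 ⟨Pi.single i 1, rfl⟩
    have h5 := congrFun (ha (d *ᵥ Pi.single i 1)) k
    rw [h4, map_zero, Matrix.mulVec_single_one] at h5
    exact h5
  have h4 : ∀ k k', ∑ i, a0 k i * z (e k') i = (1 : Matrix _ _ ℂ) k k' := fun k k' => by
    have h5 := congrFun (ha (z (e k'))) k
    have h6 := congrFun (LinearMap.congr_fun hg (Pi.single k' 1)) k
    rw [LinearMap.comp_apply, Fintype.linearCombination_apply_single, one_smul] at h6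
    rw [Matrix.one_apply]
    refine h5.trans (h6.trans ?_)
    simp [Pi.single_apply]
  refine ⟨Matrix.of fun k i => if π i = false then a0 k i else 0, Matrix.of fun i k => z (e k) i,
    fun i k hik => hz _ i hik, fun k i hki => ?_, ?_, ?_, ?_⟩
  · by_contra h5
    exact hki (if_neg h5)
  · ext i k
    exact congrFun (hcyc (e k)) i
  · ext k i
    rw [Matrix.mul_apply, Matrix.zero_apply]
    by_cases h5 : π i = false
    · refine Finset.sum_eq_zero fun i' _ => ?_
      by_cases h6 : d i' i = 0
      · rw [h6, mul_zero]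
      · have h7 := hd i' i h6
        rw [h5] at h7
        rw [Matrix.of_apply, if_neg (by revert h7; cases π i' <;> simp), zero_mul]
    · rw [← h3 k i]
      refine Finset.sum_congr rfl fun i' _ => ?_
      by_cases h6 : d i' i = 0
      · rw [h6, mul_zero, mul_zero]
      · have h7 := hd i' i h6
        rw [Matrix.of_apply, if_pos (by revert h5 h7; cases π i' <;> cases π i <;> simp)]
  · ext k k'
    rw [Matrix.mul_apply, ← h4 k k']
    refine Finset.sum_congr rfl fun i _ => ?_
    by_cases h6 : z (e k') i = 0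
    · simp [h6]
    · rw [Matrix.of_apply, Matrix.of_apply, if_pos (hz _ i h6)]

theorem YSemi_sum (hc : 1 ≤ c) (b : Bool) :
    ∑ j ∈ (range (c + 1)).filter fun j => j.bodd = b, c.choose j = 2 ^ (c - 1) := by
  rw [← card_parity hc b, Finset.card_eq_sum_card_fiberwise (f := Finset.card)
    (t := (range (c + 1)).filter fun j => j.bodd = b)]
  · refine Finset.sum_congr rfl fun j hj => ?_
    have h1 : c.choose j = ((univ : Finset (Fin c)).powersetCard j).card := by
      rw [Finset.card_powersetCard, card_univ, Fintype.card_fin]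
    rw [h1]
    refine congrArg _ (Finset.ext fun J => ?_)
    simp only [Finset.mem_powersetCard, Finset.mem_filter, mem_univ, true_and, subset_univ]
    exact ⟨fun h => ⟨h ▸ (Finset.mem_filter.1 hj).2, h⟩, fun h => h.2⟩
  · intro J hJ
    refine Finset.mem_coe.2 (Finset.mem_filter.2 ⟨Finset.mem_range.2 ?_,
      (Finset.mem_filter.1 (Finset.mem_coe.1 hJ)).2⟩)
    have := Finset.card_le_univ J
    rw [Fintype.card_fin] at this
    omega

theorem big_of_hge {d : Matrix ι ι ℂ} (hd : Low deg d) (hc : 1 ≤ c)
    (h : ∀ j, Hge deg d j (c.choose j)) {j : ℕ} (hj : Hge deg d j (c.choose j + 1)) :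
    Big (fun i => xor (deg i).bodd j.bodd) d (2 ^ (c - 1)) := by
  let r : ℕ → ℕ := fun m => c.choose m + if m = j then 1 else 0
  have hr : ∀ m, Hge deg d m (r m) := fun m => by
    by_cases hm : m = j
    · subst hm
      simpa only [r, if_true] using hj
    · simpa only [r, if_neg hm, add_zero] using h m
  choose z hz1 hz2 hz3 using hr
  let s : Finset ℕ := insert j ((range (c + 1)).filter fun m => m.bodd = j.bodd)
  have hs : ∀ m ∈ s, m.bodd = j.bodd := fun m hm => by
    rcases Finset.mem_insert.1 hm with rfl | hm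
    · rfl
    · exact (Finset.mem_filter.1 hm).2
  refine YSemi_big (K := Σ m : s, Fin (r m)) (fun i i' hii => ?_) (fun k => z k.1 k.2)
    (fun k i hk => ?_) (fun k => hz2 _ _) (fun t w htw => ?_) ?_
  · show xor _ _ = !xor _ _
    rw [hd i i' hii, Nat.bodd_succ]
    cases (deg i).bodd <;> cases j.bodd <;> rfl
  · show xor _ _ = false
    rw [hz1 _ _ i hk, hs _ k.1.2, Bool.xor_self]
  · funext k
    refine congrFun (hz3 k.1 (fun k' => t ⟨k.1, k'⟩)
      (fun i => if deg i = k.1 + 1 then w i else 0) (funext fun i => ?_)) k.2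
    by_cases hi : deg i = k.1
    · have h1 := congrFun htw i
      rw [Finset.sum_apply, Fintype.sum_sigma, Finset.sum_eq_single k.1] at h1
      · rw [Finset.sum_apply, h1]
        refine Finset.sum_congr rfl fun i' _ => ?_
        show d i i' * w i' = d i i' * if deg i' = k.1 + 1 then w i' else 0
        by_cases h2 : d i i' = 0
        · rw [h2, zero_mul, zero_mul]
        · rw [if_pos (by rw [hd i i' h2, hi])]
      · intro m _ hm
        refine Finset.sum_eq_zero fun k' _ => ?_
        have h2 : z m k' i = 0 := by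
          by_contra h2
          exact hm (Subtype.ext ((hz1 _ _ i h2).symm.trans hi))
        simp [h2]
      · exact fun h2 => absurd (mem_univ _) h2
    · rw [Finset.sum_apply, Finset.sum_eq_zero]
      · refine (Finset.sum_eq_zero fun i' _ => ?_).symm
        show d i i' * (if deg i' = k.1 + 1 then w i' else 0) = 0
        by_cases h2 : d i i' = 0
        · rw [h2, zero_mul]
        · have h3 := hd i i' h2
          rw [if_neg (by omega), mul_zero]
      · intro k' _
        have h2 : z k.1 k' i = 0 := by
          by_contra h2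
          exact hi (hz1 _ _ i h2)
        simp [h2]
  · rw [Fintype.card_sigma]
    simp only [Fintype.card_fin]
    rw [Finset.sum_coe_sort s r, Finset.sum_add_distrib, Finset.sum_ite_eq' s j fun _ => 1,
      if_pos (Finset.mem_insert_self _ _), ← YSemi_sum hc j.bodd]
    exact Nat.add_le_add_right (Finset.sum_le_sum_of_subset (Finset.subset_insert _ _)) 1

end Pool.Agent.HCF
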