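import Pool.Agent.P.MP_f644fa_ag.YFin
import Pool.Agent.P.MP_f644fa_ag.YG4
import Pool.Agent.P.MP_f644fa_ag.YSch
import Pool.Agent.P.MP_f644fa_ag.YSemi

/-! The assembly. -/

noncomputable section
namespace Pool.Agent.HCF
open MvPolynomial Module Set

variable {M : ℕ} {I : Ideal (SS M)} {c n : ℕ}

theorem ci_of_kex (hX : IsManifold I c) (hM : M = n + 1 + c) (hc : 1 ≤ c) (hn1 : 1 ≤ n)
    (hn : c * (2 ^ (c - 1) + 1) ^ 2 ≤ n + c) {L : Fin (n + 1) → Fin M → ℂ} (hL : Bpf I L)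
    (hK : KEx fun i => toSec I (lin (L i))) :
    ∃ (f : Fin c → SS M) (d : Fin c → ℕ), (∀ i, (f i).IsHomogeneous (d i)) ∧
      I = Ideal.span (range f) := by
  have := hX.isDomain_sec
  obtain ⟨e, R, hR, hs⟩ := exists_res hX hM hn1 hL hK
  obtain ⟨φ, hφ⟩ := exists_vertex hX hM hn1
  have hmap : (R.d.map (toSec I).toRingHom).map φ.toRingHom = R.d.map (eval 0) := by
    ext1 i j
    exact hφ _
  have hmap' : R.d.map (aeval (0 : Fin M → ℂ) : SS M →ₐ[ℂ] ℂ) = R.d.map (eval 0) := by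
    ext1 i j
    exact congrFun (congrArg DFunLike.coe (coe_aeval_eq_eval (0 : Fin M → ℂ))) (R.d i j)
  have hlow0 : Low R.deg (R.d.map (eval 0)) := fun i j h =>
    R.low i j fun h0 => h (by rw [Matrix.map_apply, h0, map_zero])
  obtain ⟨x, hx⟩ := hX.nonempty
  have hge : ∀ j, Hge R.deg (R.d.map (eval 0)) j (c.choose j) := fun j => by
    obtain ⟨g, hg, ⟨F⟩⟩ := exists_LD hX R hR hs ⟨x, hx⟩
    rw [← hmap]
    exact F.hge (fun h0 => hg (hx.2 _ ((toSec_eq_zero hX).1 h0))) R.low R.dd φ.toRingHom j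
  have loc : ∀ x : {x : Fin M → ℂ // x ≠ 0}, ∃ g : SS M, eval x.1 g ≠ 0 ∧
      ∃ (α : Matrix (Finset (Fin c)) _ (SS M)) (β : Matrix _ (Finset (Fin c)) (SS M))
        (h : Matrix _ _ (SS M)), DP Finset.card R.deg α ∧ DP R.deg Finset.card β ∧
        R.d * h + h * R.d = g • (1 : Matrix _ _ (SS M)) - β * α := fun x => by
    by_cases hx : x.1 ∈ cone I
    · obtain ⟨g, hg, ⟨F⟩⟩ := exists_LD hX R hR hs ⟨x.1, hx⟩
      exact ⟨g, hg, F.α, F.β, F.h, F.α_deg, F.β_deg, F.htp⟩
    · obtain ⟨g, hgI, hg⟩ : ∃ g ∈ I, eval x.1 g ≠ 0 := by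
        by_contra h
        exact hx ⟨x.2, fun f hf => by_contra fun h' => h ⟨f, hf, h'⟩⟩
      obtain ⟨h, hh⟩ := R.htpy hR (F := g • 1) (fun k i h => by
          by_contra hne
          exact h (by rw [Matrix.smul_apply, Matrix.one_apply_ne (fun e => hne (by rw [e])),
            smul_zero])) (by simp) (fun v => by
          have h0 : (toSec I).toRingHom g = 0 := (toSec_eq_zero hX).2 hgI
          simp only [Cpx.aug, Matrix.smul_mulVec, Matrix.one_mulVec, Pi.smul_apply, smul_eq_mul,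
            map_mul, h0, zero_mul, Finset.sum_const_zero])
      exact ⟨g, hg, 0, 0, h, fun _ _ h => absurd rfl h, fun _ _ h => absurd rfl h, by
        rw [hh]; simp⟩
  choose g hg hF using loc
  have key : ∀ j, ¬ Hge R.deg (R.d.map (eval 0)) j (c.choose j + 1) := fun j hj => by
    have hb := big_of_hge hlow0 hc hge hj
    rw [← hmap'] at hb
    refine schur (π' := fun J : Finset (Fin c) => xor J.card.bodd j.bodd) (q := 2 ^ (c - 1))
      (kex_X M) R.deg_le R.low (fun i k h => by rw [R.low i k h]; simp) R.dd ?_ ?_ g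
      (fun x => ?_) (fun 𝔞 h i => poly_ns 𝔞 (fun x hx => ?_) i)
      (by rw [← pow_two, Fintype.card_fin]; omega) _ hb
    · rw [← card_parity hc j.bodd]
      refine le_of_eq (congrArg Finset.card (Finset.filter_congr fun J _ => ?_))
      cases J.card.bodd <;> cases j.bodd <;> simp
    · rw [← card_parity hc (!j.bodd)]
      refine le_of_eq (congrArg Finset.card (Finset.filter_congr fun J _ => ?_))
      cases J.card.bodd <;> cases j.bodd <;> simp
    · obtain ⟨α, β, h, h1, h2, h3⟩ := hF x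
      exact ⟨α, β, h, fun k i h => by simp only [h1 k i h], fun i k h => by simp only [h2 i k h], h3⟩
    · obtain ⟨N, hN⟩ := h ⟨x, hx⟩
      exact ⟨_, hN, by rw [map_pow]; exact pow_ne_zero _ (hg ⟨x, hx⟩)⟩
  have hA := sec_eq_pol hX hM hn1 φ hφ R hs (by simpa using key 0)
  exact gen_of_betti hX R hR hs hA (by simpa using key 1)

theorem main_large (hX : IsManifold I c) (hM : M = n + 1 + c) (hF : IsFano I c)
    (hn : c * (2 ^ (c - 1) + 1) ^ 2 ≤ n + c) :
    ∃ (f : Fin c → SS M) (d : Fin c → ℕ), (∀ i, (f i).IsHomogeneous (d i)) ∧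
      I = Ideal.span (range f) := by
  rcases Nat.eq_zero_or_pos c with rfl | hc
  · obtain ⟨x, hx⟩ := hX.nonempty
    obtain ⟨f, g, -, -, hg, h⟩ := hX.smooth x hx
    refine ⟨f, fun _ => 0, fun i => i.elim0, le_antisymm (fun a ha => ?_) ?_⟩
    · have h1 := h a ha
      rw [Set.range_eq_empty, Ideal.span_empty, Ideal.mem_bot] at h1 ⊢
      exact (mul_eq_zero.1 h1).resolve_left fun h0 => hg (by rw [h0, map_zero])
    · rw [Set.range_eq_empty, Ideal.span_empty]
      exact bot_le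
  obtain ⟨L, hL⟩ := hX.exists_bpf hM
  have hn1 : 1 ≤ n := by
    have h1 : 1 ≤ 2 ^ (c - 1) := Nat.one_le_two_pow
    have h2 : c * 2 ≤ c * (2 ^ (c - 1) + 1) ^ 2 := Nat.mul_le_mul_left _ (by nlinarith)
    omega
  exact ci_of_kex hX hM hc hn1 hn hL (kex_sec hX hM hn1 hF hL)

end Pool.Agent.HCF
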