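import Pool.Agent.P.MP_f644fa_ag.PG5
import Pool.Agent.P.MP_f644fa_ag.QF6
import Pool.Agent.P.MP_f644fa_ag.LMain
import Pool.Agent.P.MP_f644fa_ag.YMain

/-! Fano manifolds whose dimension is large with respect to the codimension. -/

noncomputable section
namespace Pool.Agent.HCF

variable {M : ℕ} {I : Ideal (SS M)} {c n : ℕ}

theorem main_poly (hX : IsManifold I c) (hM : M = n + 1 + c) (hF : IsFano I c)
    (hn : 10000 * c ^ 2 * (Nat.log 2 n + 1) ^ 3 ≤ n) :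
    ∃ (f : Fin c → SS M) (d : Fin c → ℕ), (∀ i, (f i).IsHomogeneous (d i)) ∧
      I = Ideal.span (Set.range f) := by
  rcases Nat.eq_zero_or_pos c with rfl | hc
  · exact lmain_zero hX
  obtain ⟨S, g, hN, β, h1, h2, h3, h4⟩ :=
    fano_num hX hM hF hc (Nat.lt_pow_succ_log_self one_lt_two n) (Nat.le_add_left 1 _) hn
  have h5 : 1 ≤ (Nat.log 2 n + 1) ^ 3 := Nat.one_le_pow _ _ (Nat.succ_pos _)
  have h8 : 2 * c ^ 2 < n := by nlinarith [Nat.pow_pos (n := 2) hc]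
  obtain ⟨f, h6, h7⟩ := Nsp.main ⟨hN.expl, hN.sub, hN.nm, hN.ne, h3⟩ hX hM (by omega) h1 h2
    (Or.inl h8) h4
  exact ⟨f, _, h6, h7⟩

end Pool.Agent.HCF
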