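import Pool.Agent.P.MP_f644fa_ag.Z0

/-! Elementary facts on lines. -/

noncomputable section
namespace Pool.Agent.HCF
open Finset Module MvPolynomial Filter Topology

variable {M : ℕ} {I : Ideal (SS M)} {c s n : ℕ} {x y : Fin M → ℂ}

theorem z1_ne : (![0, 1] : Fin 2 → ℂ) ≠ 0 := fun h => one_ne_zero (congrFun h 1)

theorem IsLine.pl (h : IsLine I x y) : Pl I x y := h.2

theorem Pl.cx (h : Pl I x y) (hy : y ≠ 0) : y ∈ Cx I x := ⟨hy, h⟩

theorem Pl.symm (h : Pl I x y) : Pl I y x := fun a b f hf => by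
  rw [add_comm]
  exact h b a f hf

theorem Pl.tang (h : Pl I x y) : y ∈ tangS I x := fun f hf =>
  dd_zero_of_eventually (Eventually.of_forall fun t => by simpa using h 1 t f hf)

theorem Pl.line_or (h : Pl I x y) (hx : x ≠ 0) : IsLine I x y ∨ ∃ t : ℂ, y = t • x := by
  by_cases h1 : LinearIndependent ℂ ![x, y]
  · exact Or.inl ⟨h1, h⟩
  · rw [LinearIndependent.pair_iff' hx] at h1
    obtain ⟨t, ht⟩ := not_forall.1 h1
    exact Or.inr ⟨t, (not_not.1 ht).symm⟩

theorem Pl.comb (h : Pl I x y) (a b a' b' : ℂ) : Pl I (a • x + b • y) (a' • x + b' • y) := by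
  intro s t f hf
  have e : s • (a • x + b • y) + t • (a' • x + b' • y) =
      (s * a + t * a') • x + (s * b + t * b') • y := by module
  rw [e]
  exact h _ _ f hf

theorem pl_smul (hX : IsManifold I c) (hx : x ∈ cone I) (t : ℂ) : Pl I x (t • x) := by
  intro a b
  have e : a • x + b • t • x = (a + b * t) • x := by module
  rw [e]
  exact basic0_ind hX (map_zero _) (fun a b ha hb => by rw [map_add, ha, hb, add_zero])
    fun d g hg hd => by rw [eval_smul_hom hd, hx.2 g hg, mul_zero]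

theorem IsLine.mem_left (h : IsLine I x y) : x ∈ cone I := by
  have h1 := h.mem lx2_ne
  rwa [pt_first] at h1

theorem IsLine.mem_right (h : IsLine I x y) : y ∈ cone I := by
  have h1 := h.mem z1_ne
  rwa [pt_last] at h1

theorem IsLine.mem_add (h : IsLine I x y) (t : ℂ) : x + t • y ∈ cone I := by
  have h1 := h.mem (p := ![1, t]) fun e => one_ne_zero (congrFun e 0)
  simpa [pt] using h1

theorem IsLine.repar (h : IsLine I x y) {p q : Fin 2 → ℂ} (hpq : p 0 * q 1 - p 1 * q 0 ≠ 0) :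
    IsLine I (pt x y p) (pt x y q) ∧ Kl I (pt x y p) (pt x y q) = Kl I x y := by
  have e : ∀ r : Fin 2 → ℂ, pt (pt x y p) (pt x y q) r = pt x y (r 0 • p + r 1 • q) := fun r => by
    simp only [pt, Pi.add_apply, Pi.smul_apply, smul_eq_mul]
    module
  have inj : ∀ a b : ℂ, a • p + b • q = 0 → a = 0 ∧ b = 0 := fun a b h0 => by
    have h1 : a * p 0 + b * q 0 = 0 := congrFun h0 0
    have h2 : a * p 1 + b * q 1 = 0 := congrFun h0 1
    exact ⟨(mul_eq_zero.1 (by linear_combination q 1 * h1 - q 0 * h2)).resolve_right hpq,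
      (mul_eq_zero.1 (by linear_combination p 0 * h2 - p 1 * h1)).resolve_right hpq⟩
  refine ⟨⟨LinearIndependent.pair_iff.2 fun a b h0 => inj a b ?_, h.pl.comb _ _ _ _⟩,
    le_antisymm (fun w hw r hr => ?_) fun w hw r hr => ?_⟩
  · by_contra h1
    exact (h.mem h1).1 ((e ![a, b]).symm.trans h0)
  · have h1 : ((r 0 * q 1 - r 1 * q 0) / (p 0 * q 1 - p 1 * q 0)) • p +
        ((p 0 * r 1 - p 1 * r 0) / (p 0 * q 1 - p 1 * q 0)) • q = r := by
      refine funext (Fin.forall_fin_two.2 ⟨?_, ?_⟩) <;>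
      · simp only [Pi.add_apply, Pi.smul_apply, smul_eq_mul]
        rw [div_mul_eq_mul_div, div_mul_eq_mul_div, ← add_div, div_eq_iff hpq]
        ring
    have h2 := hw ![(r 0 * q 1 - r 1 * q 0) / (p 0 * q 1 - p 1 * q 0),
      (p 0 * r 1 - p 1 * r 0) / (p 0 * q 1 - p 1 * q 0)] fun h0 => hr (by
        have h3 : (r 0 * q 1 - r 1 * q 0) / (p 0 * q 1 - p 1 * q 0) = 0 := congrFun h0 0
        have h4 : (p 0 * r 1 - p 1 * r 0) / (p 0 * q 1 - p 1 * q 0) = 0 := congrFun h0 1
        rw [← h1, h3, h4, zero_smul, zero_smul, add_zero])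
    rw [e] at h2
    rw [← h1]
    exact h2
  · rw [e]
    refine hw _ fun h0 => hr ?_
    exact funext (Fin.forall_fin_two.2 (inj _ _ h0))

theorem IsLine.symm (h : IsLine I x y) : IsLine I y x ∧ Kl I y x = Kl I x y := by
  have h1 := h.repar (p := ![0, 1]) (q := ![1, 0]) (by simp)
  rwa [pt_first, pt_last] at h1

theorem Kl_le_left (x y : Fin M → ℂ) : Kl I x y ≤ tangS I x := fun w hw => by
  have h1 := hw _ lx2_ne
  rwa [pt_first] at h1

theorem Kl_le_right (x y : Fin M → ℂ) : Kl I x y ≤ tangS I y := fun w hw => by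
  have h1 := hw _ z1_ne
  rwa [pt_last] at h1

/-- tangency off one point of the line is enough -/
theorem mem_Kl_of (hX : IsManifold I c) {w : Fin M → ℂ}
    (h : ∀ p : Fin 2 → ℂ, p 0 ≠ 0 → p 1 ≠ 0 → w ∈ tangS I (pt x y p)) : w ∈ Kl I x y := by
  have _ := hX
  intro p _ f hf
  have h1 : (X 0 * X 1 * rl x y (Dw w f) : B2) = 0 := MvPolynomial.funext fun q => by
    rw [map_mul, map_mul, eval_X, eval_X, eval_rl, eval_Dw, map_zero]
    by_cases h0 : q 0 = 0
    · rw [h0, zero_mul, zero_mul]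
    · by_cases h1 : q 1 = 0
      · rw [h1, mul_zero, zero_mul]
      · rw [mem_tangS.1 (h q h0 h1) f hf, mul_zero]
  have h2 := (mul_eq_zero.1 h1).resolve_left (mul_ne_zero (X_ne_zero _) (X_ne_zero _))
  have h3 := congrArg (eval p) h2
  rw [eval_rl, eval_Dw, map_zero] at h3
  exact h3

theorem Df.symm {u u' : Fin M → ℂ} (h : Df I x y u u') : Df I y x u' u := fun p hp => by
  have h1 := h ![p 1, p 0] fun h0 =>
    hp (funext (Fin.forall_fin_two.2 ⟨congrFun h0 1, congrFun h0 0⟩))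
  have e : pt x y ![p 1, p 0] = pt y x p := add_comm _ _
  rw [e, add_comm] at h1
  exact h1

theorem Df.sub {u u' w w' : Fin M → ℂ} (h : Df I x y u u') (h' : Df I x y w w') :
    Df I x y (u - w) (u' - w') := fun p hp => by
  have e : p 0 • (u - w) + p 1 • (u' - w') = (p 0 • u + p 1 • u') - (p 0 • w + p 1 • w') := by
    module
  rw [e]
  exact sub_mem (h p hp) (h' p hp)

theorem Df.left {u u' : Fin M → ℂ} (h : Df I x y u u') : u ∈ tangS I x := by
  have h1 := h _ lx2_ne
  rw [pt_first] at h1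
  simpa using h1

theorem Df.right {u u' : Fin M → ℂ} (h : Df I x y u u') : u' ∈ tangS I y := h.symm.left

theorem Df.kl (hX : IsManifold I c) {u' : Fin M → ℂ} (h : Df I x y 0 u') : u' ∈ Kl I x y :=
  mem_Kl_of hX fun p h0 h1 => by
    have h2 := h p fun e => h0 (congrFun e 0)
    rwa [smul_zero, zero_add, Submodule.smul_mem_iff _ h1] at h2

theorem exists_grad {η : Fin M → ℂ} (hX : IsManifold I c) (h : η ∈ Es I x) :
    ∃ f ∈ I, pv x (gr f) = η := by
  have h1 := hX.Es_le x h
  clear h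
  induction h1 using Submodule.span_induction with
  | mem v hv =>
    obtain ⟨f, d, hf, -, rfl⟩ := hv
    exact ⟨f, hf, rfl⟩
  | zero => exact ⟨0, zero_mem _, funext fun j => by simp [pv, gr]⟩
  | add a b _ _ ha hb =>
    obtain ⟨f, hf, rfl⟩ := ha
    obtain ⟨g, hg, rfl⟩ := hb
    exact ⟨f + g, add_mem hf hg, funext fun j => by simp [pv, gr]⟩
  | smul t a _ ha =>
    obtain ⟨f, hf, rfl⟩ := ha
    exact ⟨C t * f, I.mul_mem_left _ hf, funext fun j => by simp [pv, gr]⟩

theorem mem_Es {η : Fin M → ℂ} : η ∈ Es I x ↔ ∀ w ∈ tangS I x, ∑ j, η j * w j = 0 := Iff.rfl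

theorem dd_eq (f : SS M) (x w : Fin M → ℂ) : dd f x w = ∑ j, pv x (gr f) j * w j :=
  (dd_apply f x w).trans (sum_congr rfl fun _ _ => mul_comm _ _)

theorem Spn.smul (hX : IsManifold I c) (h : Spn I x) {t : ℂ} (ht : t ≠ 0) : Spn I (t • x) := by
  unfold Spn
  rw [hX.tang_smul x ht]
  refine le_trans h (Submodule.span_mono fun y hy => ?_)
  have h1 := Pl.comb hy t 0 0 1
  simpa using h1

theorem Spn.exists_line (hX : IsManifold I c) (hM : M = n + 1 + c) (hn : 1 ≤ n) (hx : x ∈ cone I)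
    (h : Spn I x) : ∃ y, IsLine I x y := by
  by_contra hc
  have h1 : tangS I x ≤ Submodule.span ℂ {x} := le_trans h (Submodule.span_le.2 fun y hy => by
    obtain ⟨t, rfl⟩ := (Pl.line_or hy hx.1).resolve_left fun e => hc ⟨y, e⟩
    exact Submodule.smul_mem _ t (Submodule.mem_span_singleton_self x))
  have h2 := Submodule.finrank_mono h1
  rw [finrank_span_singleton hx.1] at h2
  have h3 := hX.finrank_tang hx
  omega

theorem Spn.lines (hX : IsManifold I c) (hM : M = n + 1 + c) (hn : 1 ≤ n) (hx : x ∈ cone I)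
    (h : Spn I x) : tangS I x ≤ Submodule.span ℂ {y | IsLine I x y} := by
  obtain ⟨z, hz⟩ := h.exists_line hX hM hn hx
  have h1 : IsLine I x (x + z) := by
    have h2 := (hz.repar (p := ![1, 0]) (q := ![1, 1]) (by simp)).1
    simpa [pt] using h2
  have h2 : x ∈ Submodule.span ℂ {y | IsLine I x y} := by
    have h3 := sub_mem (Submodule.subset_span (R := ℂ) (s := {y | IsLine I x y}) h1)
      (Submodule.subset_span (R := ℂ) (s := {y | IsLine I x y}) hz)
    rwa [add_sub_cancel_right] at h3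
  refine le_trans h (Submodule.span_le.2 fun y hy => ?_)
  rcases Pl.line_or hy hx.1 with e | ⟨t, rfl⟩
  · exact Submodule.subset_span e
  · exact Submodule.smul_mem _ t h2

/-- a bilinear form that vanishes on the cone of lines -/
theorem Spn.bilin (h : Spn I x) (B : (Fin M → ℂ) →ₗ[ℂ] (Fin M → ℂ) →ₗ[ℂ] ℂ)
    (hB : ∀ v w, Pl I x v → Pl I x w → B v w = 0) :
    ∀ u ∈ tangS I x, ∀ w ∈ tangS I x, B u w = 0 := fun u hu w hw => by
  have h1 : ∀ v, Pl I x v → B v w = 0 := fun v hv =>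
    (Submodule.span_le (p := LinearMap.ker (B v))).2 (fun w' hw' => hB v w' hv hw') (h hw)
  exact (Submodule.span_le (p := LinearMap.ker (B.flip w))).2 h1 (h hu)

theorem hess_self (hX : IsManifold I c) {f : SS M} (hf : f ∈ I) {w : Fin M → ℂ}
    (hw : w ∈ tangS I x) : hess f x x w = 0 := by
  have h1 : ∀ g ∈ I, ∑ j, X j * pderiv j g ∈ I := basic0_ind hX (by simp)
    (fun a b ha hb => by
      simp only [map_add, mul_add, sum_add_distrib]
      exact add_mem ha hb)
    fun d g hg hd => by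
      rw [hd.sum_X_mul_pderiv]
      exact nsmul_mem hg d
  have h2 := mem_tangS.1 hw _ (h1 f hf)
  have h3 := mem_tangS.1 hw f hf
  rw [dd_sum] at h2
  simp only [dd_mul, dd_X, eval_X, sum_add_distrib] at h2
  have h4 : ∑ j, eval x (pderiv j f) * w j = 0 := (dd_eq f x w).symm.trans h3
  rw [h4, add_zero] at h2
  rw [hess_symm, hess_eq, Dw, dd_sum]
  simp only [dd_mul, dd_C, eval_C, mul_zero, add_zero]
  exact h2

theorem hess_pl {f : SS M} (hf : f ∈ I) (h : Pl I x y) : hess f x y y = 0 := by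
  rw [hess_eq]
  refine dd_zero_of_eventually (Eventually.of_forall fun t => ?_)
  have h1 : Pl I (x + t • y) y := by simpa using h.comb 1 t 0 1
  rw [eval_Dw]
  exact mem_tangS.1 h1.tang f hf

/-- a quadratic function is a polynomial -/
theorem quad_poly (B : (Fin M → ℂ) →ₗ[ℂ] (Fin M → ℂ) →ₗ[ℂ] ℂ) : ∃ P : SS M,
    (∀ v, eval v P = B v v) ∧ ∀ v u, dd P v u = B u v + B v u := by
  have e : ∀ u v, B u v = ∑ j, ∑ l, B (Pi.single j 1) (Pi.single l 1) * (u j * v l) := by
    intro u v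
    conv_lhs => rw [pi_eq_sum_univ' u, pi_eq_sum_univ' v]
    simp only [map_sum, map_smul, LinearMap.sum_apply, LinearMap.smul_apply, smul_eq_mul, mul_sum]
    rw [sum_comm]
    exact sum_congr rfl fun _ _ => sum_congr rfl fun _ _ => by ring
  refine ⟨∑ j, ∑ l, C (B (Pi.single j 1) (Pi.single l 1)) * (X j * X l), fun v => ?_,
    fun v u => ?_⟩
  · rw [e v v]
    simp only [map_sum, map_mul, eval_C, eval_X]
  · rw [e u v, e v u]
    simp only [dd_sum, dd_mul, dd_C, dd_X, eval_C, eval_X, mul_zero, add_zero, ← sum_add_distrib]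
    exact sum_congr rfl fun _ _ => sum_congr rfl fun _ _ => by ring

end Pool.Agent.HCF
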