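import Pool.Agent.P.MP_f644fa_ag.Z11a

/-! A criterion for free lines. -/

noncomputable section
namespace Pool.Agent.HCF
open Finset Module MvPolynomial Filter Topology

variable {M : ℕ} {I : Ideal (SS M)} {c s : ℕ} {x y : Fin M → ℂ}

theorem z11_ne (t : ℂ) : (![1, t] : Fin 2 → ℂ) ≠ 0 := fun h => by simpa using congrFun h 0

theorem z11_pt (x y : Fin M → ℂ) (t : ℂ) : pt x y ![1, t] = x + t • y := by simp [pt]

/-- a polynomial without term of degree `A + 1` -/
theorem z11_split (P : Polynomial ℂ) (A : ℕ) (h : P.coeff (A + 1) = 0) :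
    ∃ α β : Polynomial ℂ, α.natDegree ≤ A ∧ P = α + Polynomial.X ^ (A + 2) * β := by
  have h1 : ∀ d, (∑ k ∈ range (A + 1), Polynomial.monomial k (P.coeff k)).coeff d =
      if d < A + 1 then P.coeff d else 0 := fun d => by
    simp only [Polynomial.finsetSum_coeff, Polynomial.coeff_monomial, sum_ite_eq', mem_range]
  generalize ∑ k ∈ range (A + 1), Polynomial.monomial k (P.coeff k) = α at h1
  obtain ⟨β, hβ⟩ : Polynomial.X ^ (A + 2) ∣ P - α := Polynomial.X_pow_dvd_iff.2 fun d hd => by
    rw [Polynomial.coeff_sub, h1]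
    split_ifs with h2
    · exact sub_self _
    · rw [show d = A + 1 by omega, h, sub_zero]
  refine ⟨α, β, Polynomial.natDegree_le_iff_coeff_eq_zero.2 fun d hd => ?_, ?_⟩
  · rw [h1, if_neg (by omega)]
  · rw [← hβ]; ring

theorem z11_line (x y : Fin M → ℂ) (f : SS M) :
    ∃ P : Polynomial ℂ, ∀ t : ℂ, P.eval t = eval (x + t • y) f := by
  induction f using MvPolynomial.induction_on with
  | C a => exact ⟨Polynomial.C a, fun t => by simp⟩
  | add f g hf hg =>
    obtain ⟨a, ha⟩ := hf
    obtain ⟨b, hb⟩ := hg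
    exact ⟨a + b, fun t => by rw [Polynomial.eval_add, map_add, ha, hb]⟩
  | mul_X f j hf =>
    obtain ⟨a, ha⟩ := hf
    exact ⟨a * (Polynomial.C (x j) + Polynomial.X * Polynomial.C (y j)), fun t => by
      simp only [Polynomial.eval_add, Polynomial.eval_mul, Polynomial.eval_C, Polynomial.eval_X,
        ha, map_mul, eval_X, Pi.add_apply, Pi.smul_apply, smul_eq_mul]⟩

theorem Pos.free (hX : IsManifold I c) (hC : Can I c s) (hl : IsLine I x y) (h : Pos I x y) :
    Free I c s x y := by
  classical
  obtain ⟨a, e, hs, -, hmem, hind, hgen⟩ := hl.aff_frame hX hC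
  have ha : ∀ i, a i ≤ s := fun i =>
    hs ▸ single_le_sum (f := a) (fun _ _ => Nat.zero_le _) (mem_univ i)
  have h1 : ∀ (i : Fin c) (r : ℕ), (fun j => (e i j).coeff r) ∈ perp (Kl I x y) := by
    intro i r w hw
    have h2 : ∑ j, e i j * Polynomial.C (w j) = 0 := Polynomial.funext fun t => by
      have h3 := hw _ (z11_ne t)
      rw [z11_pt] at h3
      simpa [Polynomial.eval_finsetSum] using hmem i t w h3
    simpa using congrArg (fun P => P.coeff r) h2
  have h2 : LinearIndependent ℂ
      fun (q : Σ i : Fin c, Fin (a i + 1)) j => (e q.1 j).coeff q.2 := by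
    rw [Fintype.linearIndependent_iff]
    intro φ hφ
    obtain ⟨b, hb⟩ : ∃ b : Fin c → Polynomial ℂ, ∀ i, b i = ∑ r : Fin (a i + 1),
      Polynomial.C (φ ⟨i, r⟩) * Polynomial.X ^ (s + 1 - r) := ⟨_, fun _ => rfl⟩
    have h3 : ∀ j, (∑ i, b i * e i j).coeff (s + 1) = 0 := fun j => by
      have h4 := congrFun hφ j
      simp only [Finset.sum_apply, Pi.smul_apply, smul_eq_mul, Pi.zero_apply,
        Fintype.sum_sigma] at h4
      rw [← h4, Polynomial.finsetSum_coeff]
      refine sum_congr rfl fun i _ => ?_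
      rw [hb, sum_mul, Polynomial.finsetSum_coeff]
      refine sum_congr rfl fun r _ => ?_
      have h5 : s + 1 = r + (s + 1 - r) := by have := r.2; have := ha i; omega
      rw [mul_assoc, Polynomial.coeff_C_mul]
      conv_lhs => arg 2; arg 2; rw [h5]
      rw [Polynomial.coeff_X_pow_mul]
    choose α β hα hβ using fun j => z11_split _ s (h3 j)
    have h4 := h s α β hα fun t => by
      have h5 : (fun j => (α j).eval t + t ^ (s + 2) * (β j).eval t) =
          ∑ i, (b i).eval t • fun j => (e i j).eval t := by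
        funext j
        have h6 := congrArg (Polynomial.eval t) (hβ j)
        simp only [Polynomial.eval_finsetSum, Polynomial.eval_mul, Polynomial.eval_add,
          Polynomial.eval_pow, Polynomial.eval_X] at h6
        simp only [Finset.sum_apply, Pi.smul_apply, smul_eq_mul, h6]
      rw [h5]
      exact Submodule.sum_mem _ fun i _ => Submodule.smul_mem _ _ (hmem i t)
    obtain ⟨g, hg0, hg⟩ := hgen s α hα h4
    have h5 := pow_dvd_of_indep e hind (fun i => b i - g i) (s + 2) fun j => ⟨β j, by
      simp only [sub_mul, sum_sub_distrib, ← hg, hβ j]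
      ring⟩
    rintro ⟨i, r⟩
    have hr := r.2
    have hi := ha i
    have h6 := Polynomial.X_pow_dvd_iff.1 (h5 i) (s + 1 - r) (by omega)
    rw [Polynomial.coeff_sub, hg0 i _ (by omega), sub_zero, hb, Polynomial.finsetSum_coeff,
      sum_eq_single r (fun r' _ hne => ?_) (by simp)] at h6
    · simpa using h6
    · have h7 : (r' : ℕ) ≠ r := fun h8 => hne (Fin.ext h8)
      have hr' := r'.2
      rw [Polynomial.coeff_C_mul, Polynomial.coeff_X_pow, if_neg (by omega), mul_zero]
  have h3 := finrank_span_eq_card h2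
  have h4 : Submodule.span ℂ (Set.range fun (q : Σ i : Fin c, Fin (a i + 1)) j =>
      (e q.1 j).coeff q.2) ≤ perp (Kl I x y) :=
    Submodule.span_le.2 (by rintro _ ⟨q, rfl⟩; exact h1 q.1 q.2)
  have h5 := Submodule.finrank_mono h4
  have h6 := finrank_perp (Kl I x y)
  rw [h3] at h5
  simp only [Fintype.card_sigma, Fintype.card_fin, sum_add_distrib, hs, sum_const, card_univ,
    smul_eq_mul, mul_one] at h5 h6
  unfold Free
  omega

theorem pos_of_surj (hX : IsManifold I c) (hl : IsLine I x y)
    (h : ∀ u ∈ tangS I x, ∃ u', Df I x y u u') : Pos I x y := by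
  intro A α β hα hE t₀
  let B := finBasis ℂ (tangS I x)
  choose u' hu' using fun k => h (B k) (B k).2
  have ht : ∀ k (t : ℂ), (B k : Fin M → ℂ) + t • u' k ∈ tangS I (x + t • y) := fun k t => by
    have h1 := hu' k _ (z11_ne t)
    rw [z11_pt] at h1
    simpa using h1
  have h1 : ∀ k (t : ℂ), ∑ j, (α j).eval t * ((B k : Fin M → ℂ) + t • u' k) j = 0 := by
    intro k
    obtain ⟨L, hL⟩ : ∃ L : Fin M → Polynomial ℂ, ∀ j, L j =
      Polynomial.C ((B k : Fin M → ℂ) j) + Polynomial.C (u' k j) * Polynomial.X :=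
      ⟨_, fun _ => rfl⟩
    have hLe : ∀ j (t : ℂ), (L j).eval t = ((B k : Fin M → ℂ) + t • u' k) j := fun j t => by
      simp only [hL, Polynomial.eval_add, Polynomial.eval_mul, Polynomial.eval_C,
        Polynomial.eval_X, Pi.add_apply, Pi.smul_apply, smul_eq_mul, mul_comm t]
    have hLd : ∀ j, (L j).natDegree ≤ 1 := fun j => by
      rw [hL, add_comm]
      exact Polynomial.natDegree_linear_le
    have h2 : ∑ j, α j * L j = Polynomial.X ^ (A + 2) * (-∑ j, β j * L j) :=
      Polynomial.funext fun t => by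
        have h3 := hE t _ (ht k t)
        simp only [add_mul, sum_add_distrib, mul_assoc, ← mul_sum] at h3
        simp only [Polynomial.eval_finsetSum, Polynomial.eval_mul, Polynomial.eval_neg,
          Polynomial.eval_pow, Polynomial.eval_X, hLe]
        linear_combination h3
    have h3 : (∑ j, α j * L j).natDegree ≤ A + 1 :=
      Polynomial.natDegree_sum_le_of_forall_le _ _ fun j _ =>
        Polynomial.natDegree_mul_le.trans (add_le_add (hα j) (hLd j))
    have h4 : ∑ j, α j * L j = 0 := Polynomial.eq_zero_of_dvd_of_natDegree_lt ⟨_, h2⟩ (by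
      rw [Polynomial.natDegree_X_pow]; omega)
    intro t
    simpa only [Polynomial.eval_finsetSum, Polynomial.eval_mul, hLe, Polynomial.eval_zero]
      using congrArg (Polynomial.eval t) h4
  have hB : LinearIndependent ℂ fun k => (B k : Fin M → ℂ) :=
    B.linearIndependent.map' (tangS I x).subtype (Submodule.ker_subtype _)
  have h2 : ∀ᶠ t in 𝓝 (0 : ℂ), LinearIndependent ℂ fun k => (B k : Fin M → ℂ) + t • u' k := by
    have h3 : Continuous fun (t : ℂ) k => (B k : Fin M → ℂ) + t • u' k := by fun_prop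
    refine (h3.tendsto' 0 _ ?_).eventually hB.eventually
    simp
  have h3 : ∀ᶠ t in 𝓝 (0 : ℂ), (fun j => (α j).eval t) ∈ Es I (x + t • y) := by
    filter_upwards [h2] with t hi
    have h4 : Submodule.span ℂ (Set.range fun k => (B k : Fin M → ℂ) + t • u' k) =
        tangS I (x + t • y) := by
      refine Submodule.eq_of_le_of_finrank_eq
        (Submodule.span_le.2 (by rintro _ ⟨k, rfl⟩; exact ht k t)) ?_
      have h5 := hX.finrank_tang hl.mem_left
      have h6 := hX.finrank_tang (hl.mem_add t)
      rw [finrank_span_eq_card hi, Fintype.card_fin]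
      omega
    rw [Es, ← h4, mem_perp_span]
    rintro _ ⟨k, rfl⟩
    exact h1 k t
  obtain ⟨F⟩ := hX.exists_PF (hl.mem_add t₀)
  have h4 : ∀ l, ∑ j, (α j).eval t₀ * eval (x + t₀ • y) (F.t j l) = 0 := fun l => by
    choose P hP using fun j => z11_line x y (F.t j l)
    have h5 : ∑ j, α j * P j = 0 := by
      refine Polynomial.eq_zero_of_infinite_isRoot _ (infinite_of_mem_nhds (0 : ℂ) ?_)
      filter_upwards [h3] with t hi
      simpa only [Polynomial.IsRoot.def, Polynomial.eval_finsetSum, Polynomial.eval_mul, hP]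
        using hi _ (F.t_tan hX (hl.mem_add t₀) (hl.mem_add t) l)
    simpa only [Polynomial.eval_finsetSum, Polynomial.eval_mul, hP, Polynomial.eval_zero]
      using congrArg (Polynomial.eval t₀) h5
  intro v hv
  refine mul_left_cancel₀ F.δ_ne ?_
  rw [mul_zero, mul_sum]
  simp only [mul_left_comm (eval (x + t₀ • y) F.δ), ← F.t_fix hv, mul_sum]
  rw [sum_comm]
  simp only [← mul_assoc, ← sum_mul, h4, zero_mul, sum_const_zero]

end Pool.Agent.HCF
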