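import Pool.Agent.P.MP_f644fa_ag.Z8

/-! The codimension is at most the coindex. -/

noncomputable section
namespace Pool.Agent.HCF
open Finset Module MvPolynomial Filter Topology

variable {M : ℕ} {I : Ideal (SS M)} {c s n : ℕ} {g : SS M}

theorem z9_sum (ψ : (Fin M → ℂ) →ₗ[ℂ] ℂ) (v : Fin M → ℂ) :
    ∑ j, ψ (Pi.single j 1) * v j = ψ v := by
  classical
  conv_rhs => rw [pi_eq_sum_univ' v]
  rw [map_sum]
  exact sum_congr rfl fun j _ => by rw [map_smul, smul_eq_mul, mul_comm]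

theorem z9_hess_sum {ι : Type} [Fintype ι] (a : ι → ℂ) (f : ι → SS M) (x u w : Fin M → ℂ) :
    hess (∑ i, C (a i) * f i) x u w = ∑ i, a i * hess (f i) x u w := by
  simp only [hess_apply, map_sum, pderiv_C_mul, map_mul, eval_C, mul_sum]
  rw [sum_comm]
  refine (sum_congr rfl fun l _ => sum_comm).trans ?_
  rw [sum_comm]
  refine sum_congr rfl fun i _ => ?_
  rw [sum_comm]
  exact sum_congr rfl fun j _ => sum_congr rfl fun l _ => by ring

theorem sub_card_le (R : Submodule ℂ (Fin M → ℂ)) {y : Fin M → ℂ} {r : ℕ}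
    (h : LocCut {v | v ≠ 0 ∧ v ∈ R} y r) : M ≤ r + finrank ℂ R := by
  classical
  have hW : CCone {v : Fin M → ℂ | v ≠ 0 ∧ v ∈ R} := by
    refine ⟨fun v hv => hv.1, fun v hv t ht => ⟨smul_ne_zero ht hv.1, R.smul_mem t hv.2⟩,
      fun v hv hf => ⟨hv, ?_⟩⟩
    rw [← perp_perp R, mem_perp]
    intro η hη
    have h1 := hf (lin η) fun z hz => by
      rw [eval_lin]
      exact mem_perp.1 hη z hz.2
    rw [eval_lin] at h1
    simpa only [mul_comm] using h1
  obtain ⟨φ, hφ⟩ := R.subtype.exists_leftInverse_of_injective R.ker_subtype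
  let b := finBasis ℂ R
  have h1 := hW.card_le h (fun i j => (b.coord i ∘ₗ φ) (Pi.single j 1)) fun v hv => by
    by_contra hc
    refine hv.1 ?_
    have h2 : φ v = 0 := b.ext_elem fun i => by
      have h3 := not_not.1 (not_exists.1 hc i)
      rw [z9_sum (b.coord i ∘ₗ φ) v] at h3
      rw [map_zero, Finsupp.zero_apply]
      exact h3
    have h4 : φ v = ⟨v, hv.2⟩ := LinearMap.congr_fun hφ ⟨v, hv.2⟩
    rw [h4] at h2
    exact congrArg Subtype.val h2
  simpa using h1

/-- `s` test vectors for the normal space of the cone of lines -/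
theorem IsLine.exists_compl (hX : IsManifold I c) (hC : Can I c s) {x y : Fin M → ℂ}
    (hl : IsLine I x y) : ∃ e : Fin s → Fin M → ℂ, (∀ j, e j ∈ tangS I x) ∧
      tangS I x ≤ Kl I x y ⊔ Submodule.span ℂ (Set.range e) := by
  classical
  obtain ⟨Q, hQ⟩ := (Kl I x y).exists_isCompl
  have hK : Kl I x y ≤ tangS I x := Kl_le_left x y
  have h1 : Kl I x y ⊔ Q ⊓ tangS I x = tangS I x := by
    rw [← sup_inf_assoc_of_le Q hK, hQ.sup_eq_top, top_inf_eq]
  have h2 : Kl I x y ⊓ (Q ⊓ tangS I x) = ⊥ := by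
    rw [← inf_assoc, hQ.inf_eq_bot, bot_inf_eq]
  have h3 := Submodule.finrank_sup_add_finrank_inf_eq (Kl I x y) (Q ⊓ tangS I x)
  rw [h1, h2, finrank_bot] at h3
  have h4 := hl.le_Kl hX hC
  have h5 := hX.finrank_tang hl.mem_left
  have h6 : finrank ℂ (Q ⊓ tangS I x : Submodule ℂ (Fin M → ℂ)) ≤ s := by omega
  let b := finBasis ℂ (Q ⊓ tangS I x : Submodule ℂ (Fin M → ℂ))
  refine ⟨fun j => if h : (j : ℕ) < finrank ℂ (Q ⊓ tangS I x : Submodule ℂ (Fin M → ℂ)) then
    (b ⟨j, h⟩ : Fin M → ℂ) else 0, fun j => ?_, ?_⟩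
  · by_cases h : (j : ℕ) < finrank ℂ (Q ⊓ tangS I x : Submodule ℂ (Fin M → ℂ))
    · simp only [dif_pos h]
      exact (b ⟨j, h⟩).2.2
    · simp only [dif_neg h]
      exact zero_mem _
  · refine h1.ge.trans (sup_le_sup_left (fun u hu => ?_) _)
    have h7 : u = ∑ i, b.repr ⟨u, hu⟩ i • (b i : Fin M → ℂ) := by
      have h8 := congrArg Subtype.val (b.sum_repr ⟨u, hu⟩)
      rw [AddSubmonoidClass.coe_finsetSum] at h8
      exact h8.symm
    rw [h7]
    refine Submodule.sum_mem _ fun i _ => Submodule.smul_mem _ _ (Submodule.subset_span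
      ⟨⟨i, lt_of_lt_of_le i.2 h6⟩, ?_⟩)
    simp only [dif_pos i.2]

/-- a quadric that is singular at one point of the variety of lines has small rank -/
theorem big_radical (hX : IsManifold I c) (hC : Can I c s) {x y : Fin M → ℂ} (hl : IsLine I x y)
    (hf : ∀ v, IsLine I x v → Free I c s x v) (B : (Fin M → ℂ) →ₗ[ℂ] (Fin M → ℂ) →ₗ[ℂ] ℂ)
    (hs : ∀ u w, B u w = B w u) (h0 : ∀ v, Pl I x v → B v v = 0)
    (hz0 : ∀ w ∈ tangS I x, B x w = 0) (hy : ∀ w ∈ tangS I x, B y w = 0) :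
    ∃ R : Submodule ℂ (Fin M → ℂ), R ≤ tangS I x ∧ (∀ u ∈ R, ∀ w ∈ tangS I x, B u w = 0) ∧
      M ≤ 2 * s + c + finrank ℂ R := by
  classical
  obtain ⟨e, he, hT⟩ := hl.exists_compl hX hC
  obtain ⟨N, hN⟩ := (tangS I x).exists_isCompl
  let π := (tangS I x).projection N hN
  let R : Submodule ℂ (Fin M → ℂ) := tangS I x ⊓ ((tangS I x).dualAnnihilator).comap B
  have hR : ∀ u, u ∈ R ↔ u ∈ tangS I x ∧ ∀ w ∈ tangS I x, B u w = 0 := fun u => by
    simp only [R, Submodule.mem_inf, Submodule.mem_comap, Submodule.mem_dualAnnihilator]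
  obtain ⟨δ, hδ, hδ'⟩ := lin_inj (fun k : {k : Fin M → SS M // ∀ v, IsLine I x v →
      (∀ j, B v (e j) = 0) → B v (π (pv v k)) = 0} => k.1) y (by
    intro θ hθ
    have hc : ∀ u : Fin M → ℂ, (∀ v, (∀ j, B v (e j) = 0) → B v (π u) = 0) →
        u ∈ perp (Submodule.span ℂ {θ}) := fun u hu => by
      rw [mem_perp_span]
      rintro _ rfl
      have hp : ∀ v, pv v (fun l => (C (u l) : SS M)) = u := fun v => funext fun l => eval_C _
      have h1 := hθ ⟨fun l => C (u l), fun v _ hv => by rw [hp]; exact hu v hv⟩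
      simpa only [eval_C] using h1
    have h1 : Kl I x y ≤ perp (Submodule.span ℂ {θ}) := fun u hu => by
      obtain ⟨k, a, ha, hk, hk'⟩ := (hf y hl).field hX hC hl hu
      have h2 := hθ ⟨k, fun v hv _ => by
        rw [Submodule.projection_apply_of_mem_left hN (Kl_le_left x v (hk' v hv))]
        exact (hf v hv).quad hX hC hv B hs h0 (hk' v hv)⟩
      have h3 : a • u ∈ perp (Submodule.span ℂ {θ}) := by
        rw [mem_perp_span]
        rintro _ rfl
        rw [← hk]
        exact h2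
      exact (Submodule.smul_mem_iff _ ha).1 h3
    have h2 : Submodule.span ℂ (Set.range e) ≤ perp (Submodule.span ℂ {θ}) := by
      rw [Submodule.span_le]
      rintro _ ⟨j, rfl⟩
      refine hc _ fun v hv => ?_
      rw [Submodule.projection_apply_of_mem_left hN (he j)]
      exact hv j
    have h3 : N ≤ perp (Submodule.span ℂ {θ}) := fun u hu => hc u fun v _ => by
      rw [Submodule.projection_apply_of_mem_right hN hu, map_zero]
    have h4 : ⊤ ≤ perp (Submodule.span ℂ {θ}) :=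
      hN.sup_eq_top.ge.trans (sup_le (hT.trans (sup_le h1 h2)) h3)
    funext l
    have h5 := mem_perp_span.1 (h4 (Submodule.mem_top (x := Pi.single l 1))) θ rfl
    simpa [Pi.single_apply] using h5)
  have hev : ∀ v j, eval v (lin fun l => B (Pi.single l 1) (e j)) = B v (e j) := fun v j => by
    rw [eval_lin]
    exact z9_sum (B.flip (e j)) v
  obtain ⟨ν, hν, hne⟩ := hC
  have hcut : LocCut {v | v ≠ 0 ∧ v ∈ R} y (s + c + s) := by
    refine (hl.locCut hX hν hne).add (ι := Fin s) (by simp)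
      (fun j => lin fun l => B (Pi.single l 1) (e j)) δ hδ
      (fun j => (hev y j).trans (hy _ (he j))) fun v hv hvδ hve => ⟨hv.1, ?_⟩
    have hp : Pl I x v := hv.2
    refine (hR v).2 ⟨hp.tang, fun w hw => ?_⟩
    rcases hp.line_or hl.mem_left.1 with hv' | ⟨t, rfl⟩
    · have h1 := hδ' v hvδ (fun l => (B v ∘ₗ π) (Pi.single l 1)) fun k => by
        have h2 := z9_sum (B v ∘ₗ π) (pv v k.1)
        have h3 := k.2 v hv' fun j => (hev v j).symm.trans (hve j)
        rw [LinearMap.comp_apply, h3] at h2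
        exact (sum_congr rfl fun l _ => mul_comm _ _).trans h2
      have h4 := z9_sum (B v ∘ₗ π) w
      rw [LinearMap.comp_apply, Submodule.projection_apply_of_mem_left hN hw] at h4
      rw [← h4]
      exact sum_eq_zero fun l _ => by rw [congrFun h1 l, Pi.zero_apply, zero_mul]
    · rw [map_smul, LinearMap.smul_apply, hz0 w hw, smul_zero]
  have h1 := sub_card_le R hcut
  exact ⟨R, inf_le_left, fun u hu => ((hR u).1 hu).2, by omega⟩

theorem Good.codim_le (hX : IsManifold I c) (hM : M = n + 1 + c) (hC : Can I c s)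
    (hG : Good I c s g) (hn : 4 * s + 1 ≤ n)
    (hnd : ∀ η : Fin M → ℂ, (∀ y ∈ cone I, ∑ j, η j * y j = 0) → η = 0) {x : Fin M → ℂ}
    (hx : x ∈ cone I) (hg : eval x g ≠ 0) (hS : Spn I x) : c ≤ s := by
  classical
  by_contra hlt
  obtain ⟨y, hl⟩ := hS.exists_line hX hM (by omega) hx
  obtain ⟨f, g', hfI, hli, -, -⟩ := hX.smooth x hx
  obtain ⟨e, he, hT⟩ := hl.exists_compl hX hC
  let Φ : (Fin c → ℂ) →ₗ[ℂ] (Fin s → ℂ) :=
    Matrix.mulVecLin (Matrix.of fun j i => hess (f i) x y (e j))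
  have hker : LinearMap.ker Φ ≠ ⊥ := LinearMap.ker_ne_bot_of_finrank_lt (by simpa using hlt)
  obtain ⟨a, ha, ha0⟩ := Submodule.exists_mem_ne_zero_of_ne_bot hker
  have hFI : ∑ i, C (a i) * f i ∈ I := I.sum_mem fun i _ => I.mul_mem_left _ (hfI i)
  have hfree : ∀ v, IsLine I x v → Free I c s x v := hG x hx hg
  have hs := hess_symm (∑ i, C (a i) * f i) x
  have h0 : ∀ v, Pl I x v → hess (∑ i, C (a i) * f i) x v v = 0 := fun v hv => hess_pl hFI hv
  have hz0 : ∀ w ∈ tangS I x, hess (∑ i, C (a i) * f i) x x w = 0 := fun w hw =>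
    hess_self hX hFI hw
  have hy : ∀ w ∈ tangS I x, hess (∑ i, C (a i) * f i) x y w = 0 := fun w hw => by
    have h1 : Kl I x y ⊔ Submodule.span ℂ (Set.range e) ≤
        LinearMap.ker (hess (∑ i, C (a i) * f i) x y) := by
      refine sup_le (fun u hu => (hfree y hl).quad hX hC hl _ hs h0 hu) ?_
      rw [Submodule.span_le]
      rintro _ ⟨j, rfl⟩
      have h2 : ∑ i, hess (f i) x y (e j) * a i = 0 := congrFun (LinearMap.mem_ker.1 ha) j
      show hess (∑ i, C (a i) * f i) x y (e j) = 0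
      rw [z9_hess_sum, ← h2]
      exact sum_congr rfl fun i _ => mul_comm _ _
    exact h1 (hT hw)
  obtain ⟨R, hR, hRB, hd⟩ := big_radical hX hC hl hfree _ hs h0 hz0 hy
  have h1 := hS.bilin _ (zak hX hC hx hfree _ hs h0 hz0 R hR hRB (by omega))
  have h2 := hnd _ (hG.inj hX hM hC (by omega) hx hg hS ⟨_, hFI, rfl, h1⟩)
  refine ha0 (funext fun i => Fintype.linearIndependent_iff.1 hli a ?_ i)
  funext j
  have h3 := congrFun h2 j
  simpa [pv, gr, pderiv_C_mul] using h3

end Pool.Agent.HCF
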