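import Pool.Agent.P.MP_f644fa_ag.Z0
import Pool.Agent.P.MP_f644fa_ag.LMain

/-! The degree of the Gauss map. -/

noncomputable section
namespace Pool.Agent.HCF
open Finset Module

variable {M : ℕ} {I : Ideal (SS M)} {c n : ℕ}

theorem exists_can (hX : IsManifold I c) (hM : M = n + 1 + c) (hn : 1 ≤ n) {b : ℤ}
    (hb : CanonicalIs I c b) : ∃ s : ℕ, b + n + 1 = s ∧ Can I c s := by
  obtain ⟨ν, hν, hne⟩ := exists_nu hX hb
  obtain ⟨x, hx⟩ := hX.nonempty
  have hG := gr_sec hX hM hn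
  have hs0 : 0 ≤ b + M - c := by
    by_contra hlt
    have h := hG.Fm_neg (Tg (secRing I)) c (not_le.1 hlt)
    rw [show Hm (secRing I) c (b + M - c) = ⊥ from h, Submodule.mem_bot] at hν
    obtain ⟨J, hJ⟩ := hne ⟨x, hx⟩
    exact hJ (by rw [hν]; rfl)
  obtain ⟨s, hs⟩ := Int.eq_ofNat_of_zero_le hs0
  rw [hs] at hν
  exact ⟨s, by rw [← hs, hM]; push_cast; ring, ν, hν, hne⟩

end Pool.Agent.HCF
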