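import Pool.Agent.P.MP_f644fa_ag.Z1

/-! The union of the lines is closed. -/

noncomputable section
namespace Pool.Agent.HCF
open Finset Module MvPolynomial Filter Topology

variable {M : ℕ} {I : Ideal (SS M)} {c : ℕ}

theorem z10_mon_mem {σ : Type} [Fintype σ] {A : Ideal (MvPolynomial σ ℂ)} {K : ℕ}
    (hK : ∀ j : σ, (X j : MvPolynomial σ ℂ) ^ K ∈ A) (s : σ →₀ ℕ)
    (hs : Fintype.card σ * K < ∑ j, s j) : monomial s (1 : ℂ) ∈ A := by
  have h1 : ∃ j, K ≤ s j := by
    by_contra hc
    push Not at hc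
    have h2 : ∑ j, s j ≤ Fintype.card σ * K := by
      calc ∑ j, s j ≤ ∑ _j : σ, K := Finset.sum_le_sum fun j _ => (hc j).le
        _ = Fintype.card σ * K := by simp
    omega
  obtain ⟨j, hj⟩ := h1
  have h3 : s = Finsupp.single j K + (s - Finsupp.single j K) := by
    rw [add_tsub_cancel_of_le]
    exact Finsupp.single_le_iff.mpr hj
  rw [h3, monomial_single_add]
  exact Ideal.mul_mem_right _ _ (hK j)

theorem z10_comp {σ : Type} [Fintype σ] [DecidableEq σ] (f : MvPolynomial σ ℂ) (D : ℕ) :
    homogeneousComponent D f =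
      ∑ m : finsuppAntidiag (univ : Finset σ) D, C (coeff m.1 f) * monomial m.1 1 := by
  rw [Finset.sum_coe_sort (finsuppAntidiag (univ : Finset σ) D)
    fun m => C (coeff m f) * monomial m (1 : ℂ)]
  ext m
  simp only [coeff_homogeneousComponent, coeff_sum, coeff_C_mul, coeff_monomial, mul_ite, mul_one,
    mul_zero, Finset.sum_ite_eq', mem_finsuppAntidiag, subset_univ, and_true,
    Finsupp.degree_eq_sum]

theorem z10_map {σ R : Type} [CommRing R] (φ : R →+* ℂ) (P : MvPolynomial σ R) (i : ℕ) :
    map φ (homogeneousComponent i P) = homogeneousComponent i (map φ P) := by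
  ext m
  simp only [coeff_map, coeff_homogeneousComponent]
  split_ifs
  · rfl
  · exact map_zero φ

theorem z10_zero {σ : Type} [Fintype σ] (f : MvPolynomial σ ℂ) (v : σ → ℂ) :
    (∀ t : ℂ, eval (t • v) f = 0) ↔ ∀ i, eval v (homogeneousComponent i f) = 0 := by
  obtain ⟨P, h1, h2⟩ := lk1_poly f v
  constructor
  · intro h i
    have h3 : P = 0 := Polynomial.funext fun t => by rw [h1, h, Polynomial.eval_zero]
    rw [← h2, h3, Polynomial.coeff_zero]
  · intro h t
    have h3 : P = 0 := Polynomial.ext fun i => by rw [h2, h, Polynomial.coeff_zero]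
    rw [← h1, h3, Polynomial.eval_zero]

/-- forms with polynomial coefficients: having only the trivial zero is an open condition -/
theorem no_zero_open {τ σ ι : Type} [Fintype τ] [Fintype σ] [Fintype ι]
    (G : ι → MvPolynomial σ (MvPolynomial τ ℂ)) (d : ι → ℕ) (hG : ∀ i, (G i).IsHomogeneous (d i))
    (x : τ → ℂ) (h : ∀ v : σ → ℂ, (∀ i, eval v (map (eval x) (G i)) = 0) → v = 0) :
    ∃ δ : MvPolynomial τ ℂ, eval x δ ≠ 0 ∧ ∀ x', eval x' δ ≠ 0 →
      ∀ v : σ → ℂ, (∀ i, eval v (map (eval x') (G i)) = 0) → v = 0 := by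
  classical
  have h1 : ∀ l : σ, ∃ K : ℕ, (X l : MvPolynomial σ ℂ) ^ K ∈
      Ideal.span (Set.range fun i => map (eval x) (G i)) := fun l => by
    change X l ∈ (Ideal.span (Set.range fun i => map (eval x) (G i))).radical
    rw [← vanishingIdeal_zeroLocus_eq_radical (K := ℂ)]
    intro v hv
    rw [aeval_X, h v fun i => hv _ (Ideal.subset_span ⟨i, rfl⟩), Pi.zero_apply]
  choose K hK using h1
  have h2 : ∀ l : σ, (X l : MvPolynomial σ ℂ) ^ (univ.sup K) ∈
      Ideal.span (Set.range fun i => map (eval x) (G i)) := fun l => by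
    obtain ⟨e, he⟩ := Nat.exists_eq_add_of_le (Finset.le_sup (f := K) (mem_univ l))
    rw [he, pow_add]
    exact Ideal.mul_mem_right _ _ (hK l)
  set D := Fintype.card σ * univ.sup K + 1 with hD
  have h3 : ∀ m : finsuppAntidiag (univ : Finset σ) D, ∃ a : ι → MvPolynomial σ ℂ,
      ∑ i, a i * map (eval x) (G i) = monomial m.1 1 := fun m => by
    refine Ideal.mem_span_range_iff_exists_fun.1 (z10_mon_mem h2 m.1 ?_)
    have h4 : ∑ j, m.1 j = D := (mem_finsuppAntidiag.1 m.2).1
    omega
  choose a ha using h3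
  have h4 : ∀ (m : finsuppAntidiag (univ : Finset σ) D) (x' : τ → ℂ),
      map (eval x') (∑ i, map C (a m i) * G i) = ∑ i, a m i * map (eval x') (G i) := fun m x' => by
    rw [map_sum]
    refine sum_congr rfl fun i _ => ?_
    have h5 : (eval x').comp (C : ℂ →+* MvPolynomial τ ℂ) = RingHom.id ℂ :=
      RingHom.ext fun t => eval_C t
    rw [map_mul, MvPolynomial.map_map, h5, MvPolynomial.map_id]
  obtain ⟨δ, hδ, hδ'⟩ := lin_inj
    (fun m m' : finsuppAntidiag (univ : Finset σ) D => coeff m'.1 (∑ i, map C (a m i) * G i)) x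
    fun θ hθ => funext fun m => by
      have h5 := hθ m
      simp only [← coeff_map, h4, ha, coeff_monomial, ← Subtype.ext_iff, ite_mul, one_mul, zero_mul,
        Finset.sum_ite_eq, mem_univ, if_true] at h5
      exact h5
  refine ⟨δ, hδ, fun x' hx' v hv => funext fun l => ?_⟩
  have h5 := hδ' x' hx' (fun m => eval v (monomial m.1 1)) fun m => by
    have h6 := (z10_zero (map (eval x') (∑ i, map C (a m i) * G i)) v).1 (fun t => by
      rw [h4, map_sum]
      refine sum_eq_zero fun i _ => ?_
      rw [map_mul, lk1_smul ((hG i).map _), hv, mul_zero, mul_zero]) D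
    rw [z10_comp, map_sum] at h6
    rw [← h6]
    refine sum_congr rfl fun m' _ => ?_
    rw [map_mul, eval_C, coeff_map]
  have h6 := congrFun h5 ⟨Finsupp.single l D, mem_finsuppAntidiag.2 ⟨by simp, subset_univ _⟩⟩
  simp only [← X_pow_eq_monomial, map_pow, eval_X, Pi.zero_apply] at h6
  exact pow_eq_zero_iff (by omega) |>.1 h6

theorem z10_shift (f : SS M) (x v : Fin M → ℂ) :
    eval v (map (eval x) (aeval (fun j => C (X j) + X j : Fin M → MvPolynomial (Fin M) (SS M)) f)) =
      eval (x + v) f := by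
  induction f using MvPolynomial.induction_on with
  | C a => simp
  | add p q hp hq => simp only [map_add, hp, hq]
  | mul_X p k hp => simp only [map_mul, hp, aeval_X, map_add, map_C, map_X, eval_C, eval_X,
      Pi.add_apply]

theorem no_line_open (hX : IsManifold I c) {x : Fin M → ℂ} (hx : x ∈ cone I)
    (h : ¬∃ y, IsLine I x y) : ∃ δ : SS M, eval x δ ≠ 0 ∧
      ∀ x' ∈ cone I, (∃ y, IsLine I x' y) → eval x' δ = 0 := by
  obtain ⟨K, g, d, -, hI⟩ := hX.exists_gens
  obtain ⟨j, hj⟩ := Function.ne_iff.1 hx.1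
  rw [Pi.zero_apply] at hj
  let P : Fin K → MvPolynomial (Fin M) (SS M) := fun k => aeval (fun j => C (X j) + X j) (g k)
  have hP : ∀ k (x' v : Fin M → ℂ), eval v (map (eval x') (P k)) = eval (x' + v) (g k) :=
    fun k x' v => z10_shift (g k) x' v
  obtain ⟨δ, hδ, hδ'⟩ := no_zero_open (ι := Option (Σ k : Fin K, Fin ((P k).totalDegree + 1)))
    (fun o => o.elim (X j) fun q => homogeneousComponent q.2 (P q.1))
    (fun o => o.elim 1 fun q => q.2)
    (fun o => by
      cases o with
      | none => exact isHomogeneous_X _ j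
      | some q => exact homogeneousComponent_isHomogeneous _ _) x fun v hv => by
    have h0 : v j = 0 := by simpa using hv none
    have h1 : ∀ (t : ℂ) k, eval (x + t • v) (g k) = 0 := fun t k => by
      rw [← hP]
      refine (z10_zero _ v).2 (fun i => ?_) t
      rw [← z10_map]
      by_cases hi : i < (P k).totalDegree + 1
      · exact hv (some ⟨k, ⟨i, hi⟩⟩)
      · rw [homogeneousComponent_eq_zero _ _ (by omega), map_zero, map_zero]
    have h2 : ∀ t : ℂ, x + t • v ∈ cone I := fun t => by
      refine ⟨fun h3 => hj ?_, fun f hf => ?_⟩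
      · simpa [h0] using congrFun h3 j
      · rw [hI] at hf
        obtain ⟨a, rfl⟩ := Ideal.mem_span_range_iff_exists_fun.1 hf
        simp only [map_sum, map_mul, h1, mul_zero, sum_const_zero]
    have h3 : Pl I x v := fun a b f hf => by
      have h4 : X 0 * rl x v f = 0 := MvPolynomial.funext fun p => by
        rw [map_mul, eval_X, map_zero, eval_rl]
        by_cases hp : p 0 = 0
        · rw [hp, zero_mul]
        · have h5 : pt x v p = p 0 • (x + (p 1 / p 0) • v) := by
            rw [pt, smul_add, smul_smul, mul_div_cancel₀ _ hp]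
          rw [h5, (hX.smul_mem (h2 _) hp).2 f hf, mul_zero]
      have h5 := eval_rl x v ![a, b] f
      rw [(mul_eq_zero.1 h4).resolve_left (X_ne_zero 0), map_zero] at h5
      exact h5.symm
    obtain ⟨t, ht⟩ := (h3.line_or hx.1).resolve_left fun h4 => h ⟨v, h4⟩
    have h4 : t * x j = 0 := by rw [← h0, ht, Pi.smul_apply, smul_eq_mul]
    rw [ht, (mul_eq_zero.1 h4).resolve_right hj, zero_smul]
  refine ⟨δ * X j, by rw [map_mul, eval_X]; exact mul_ne_zero hδ hj, ?_⟩
  rintro x' hx' ⟨y, hy⟩
  by_contra h1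
  rw [map_mul, eval_X] at h1
  have h2 := hδ' x' (left_ne_zero_of_mul h1) (y - (y j / x' j) • x') fun o => by
    cases o with
    | none =>
      simp only [Option.elim, map_X, eval_X, Pi.sub_apply, Pi.smul_apply, smul_eq_mul]
      rw [div_mul_cancel₀ _ (right_ne_zero_of_mul h1), sub_self]
    | some q =>
      simp only [Option.elim]
      rw [z10_map]
      refine (z10_zero _ _).1 (fun t => ?_) _
      have h3 : x' + t • (y - (y j / x' j) • x') = (1 - t * (y j / x' j)) • x' + t • y := by
        module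
      rw [hP, h3]
      exact hy.2 _ _ _ (hI ▸ Ideal.subset_span ⟨q.1, rfl⟩)
  exact (LinearIndependent.pair_iff' hx'.1).1 hy.1 _ (sub_eq_zero.1 h2).symm

end Pool.Agent.HCF
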