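import Pool.Agent.P.MP_f644fa_ag.Basic0

/-! Polynomial frames. -/

noncomputable section
namespace Pool.Agent.HCF
open MvPolynomial Module

variable {M : ℕ} {I : Ideal (SS M)} {c : ℕ}

theorem IsManifold.exists_PF (hX : IsManifold I c) {x : Fin M → ℂ} (hx : x ∈ cone I) :
    Nonempty (PF I c x) := by
  classical
  obtain ⟨f, g, hf, hli, hg, hgm⟩ := hX.smooth x hx
  let J0 : Matrix (Fin c) (Fin M) ℂ := Matrix.of fun i j => eval x (pderiv j (f i))
  have hinj : LinearMap.ker (Matrix.vecMulLinear J0) = ⊥ := by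
    rw [LinearMap.ker_eq_bot]
    exact Matrix.vecMul_injective_iff.2 hli
  obtain ⟨r, hr⟩ := (Matrix.vecMulLinear J0).exists_leftInverse_of_injective hinj
  let E : Matrix (Fin M) (Fin c) ℂ := Matrix.of fun j k => r (Pi.single j 1) k
  have hE : J0 * E = 1 := by
    ext i k
    have h1 := congrFun (LinearMap.congr_fun hr (Pi.single i 1)) k
    have h2 : Matrix.vecMulLinear J0 (Pi.single i 1) = ∑ j, J0 i j • (Pi.single j 1 : Fin M → ℂ) := by
      funext j
      simp [Finset.sum_apply, Pi.single_apply]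
    rw [LinearMap.comp_apply, h2, map_sum] at h1
    simp only [map_smul, Finset.sum_apply, Pi.smul_apply, smul_eq_mul, LinearMap.id_apply] at h1
    rw [Matrix.mul_apply, Matrix.one_apply]
    simp only [E, Matrix.of_apply]
    rw [h1, Pi.single_apply]
    simp [eq_comm]
  let J : Matrix (Fin c) (Fin M) (SS M) := Matrix.of fun i j => pderiv j (f i)
  let E' : Matrix (Fin M) (Fin c) (SS M) := E.map C
  have hN : (J * E').map (eval x) = 1 := by
    rw [Matrix.map_mul, ← hE]
    congr 1
    ext j k
    simp [E']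
  refine ⟨⟨f, g, (J * E').det, fun k j => (E' * (J * E').adjugate) j k, hf, hg, ?_, hgm, ?_⟩⟩
  · rw [RingHom.map_det, RingHom.mapMatrix_apply, hN, Matrix.det_one]
    exact one_ne_zero
  · intro i k
    have := congrFun (congrFun (Matrix.mul_adjugate (J * E')) i) k
    rw [Matrix.mul_assoc, Matrix.mul_apply] at this
    simpa [J, Matrix.one_apply] using this

namespace PF
variable {x : Fin M → ℂ} (F : PF I c x)

theorem basic_t (j l : Fin M) :
    F.t j l = (if j = l then F.δ else 0) - ∑ i, F.b i j * pderiv l (F.f i) := by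
  simp [t, Matrix.sum_apply, Matrix.one_apply]

theorem J_t (i : Fin c) (l : Fin M) : ∑ j, pderiv j (F.f i) * F.t j l = 0 := by
  simp only [basic_t, mul_sub, Finset.sum_sub_distrib, Finset.mul_sum, ← mul_assoc]
  rw [Finset.sum_comm]
  simp only [← Finset.sum_mul, F.Jb]
  simp [mul_comm]

theorem tt : F.t * F.t = F.δ • F.t := by
  ext1 j l
  rw [Matrix.mul_apply]
  conv_lhs => arg 2; intro m; rw [basic_t F j m]
  simp only [sub_mul, Finset.sum_sub_distrib, Finset.sum_mul, mul_assoc]
  rw [Finset.sum_comm]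
  simp only [← Finset.mul_sum, J_t]
  simp

theorem t_der (hX : IsManifold I c) (hx : x ∈ cone I) (l : Fin M) :
    ∀ h ∈ I, ∑ j, F.t j l * pderiv j h ∈ I := by
  intro h hh
  let D : Derivation ℂ (SS M) (SS M) := ∑ j, F.t j l • pderiv j
  have hD : ∀ p, D p = ∑ j, F.t j l * pderiv j p := fun p => by
    have := map_sum (Derivation.coeFnAddMonoidHom (R := ℂ) (A := SS M) (M := SS M))
      (fun j => F.t j l • pderiv j) Finset.univ
    have h2 := congrFun this p
    rw [Finset.sum_apply] at h2
    exact h2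
  have hDf : ∀ i, D (F.f i) = 0 := fun i => by
    rw [hD, ← F.J_t i l]; simp only [mul_comm]
  obtain ⟨a, ha⟩ := Ideal.mem_span_range_iff_exists_fun.1 (F.g_mul h hh)
  have h1 := congrArg D ha
  simp only [map_sum, Derivation.leibniz, hDf, smul_eq_mul, mul_zero, zero_add] at h1
  have h2 : F.g * D h ∈ I := by
    rw [eq_sub_of_add_eq h1.symm]
    exact sub_mem (I.sum_mem fun i _ => I.mul_mem_right _ (F.f_mem i)) (I.mul_mem_right _ hh)
  rw [← hD]
  exact (hX.prime.mem_or_mem h2).resolve_left fun hg => F.g_ne (hx.2 _ hg)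

theorem t_tan (hX : IsManifold I c) (hx : x ∈ cone I) {y : Fin M → ℂ} (hy : y ∈ cone I)
    (l : Fin M) : (fun j => eval y (F.t j l)) ∈ tangS I y := by
  intro h hh
  have := hy.2 _ (F.t_der hX hx l h hh)
  simpa using this

theorem t_fix {y v : Fin M → ℂ} (hv : v ∈ tangS I y) (j : Fin M) :
    ∑ l, eval y (F.t j l) * v l = eval y F.δ * v j := by
  have h0 : ∀ i, ∑ l, eval y (pderiv l (F.f i)) * v l = 0 := fun i => by
    rw [← hv _ (F.f_mem i)]; simp only [mul_comm]
  simp only [basic_t, map_sub, map_sum, map_mul, sub_mul, Finset.sum_sub_distrib, Finset.sum_mul,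
    mul_assoc]
  rw [Finset.sum_comm]
  simp only [← Finset.mul_sum, h0]
  simp [apply_ite (eval y)]

theorem mem_cone {y : Fin M → ℂ} (hy : y ≠ 0) (hg : eval y F.g ≠ 0) :
    y ∈ cone I ↔ ∀ i, eval y (F.f i) = 0 := by
  refine ⟨fun h i => h.2 _ (F.f_mem i), fun h => ⟨hy, fun p hp => ?_⟩⟩
  obtain ⟨a, ha⟩ := Ideal.mem_span_range_iff_exists_fun.1 (F.g_mul p hp)
  have := congrArg (eval y) ha
  simp only [map_sum, map_mul, h, mul_zero, Finset.sum_const_zero] at this
  exact (mul_eq_zero.1 this.symm).resolve_left hg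

theorem mem_tang {y v : Fin M → ℂ} (hy : y ∈ cone I) (hg : eval y F.g ≠ 0) :
    v ∈ tangS I y ↔ ∀ i, ∑ j, v j * eval y (pderiv j (F.f i)) = 0 := by
  refine ⟨fun h i => h _ (F.f_mem i), fun h p hp => ?_⟩
  obtain ⟨a, ha⟩ := Ideal.mem_span_range_iff_exists_fun.1 (F.g_mul p hp)
  have h1 : ∀ j, eval y F.g * eval y (pderiv j p) =
      ∑ i, eval y (a i) * eval y (pderiv j (F.f i)) := by
    intro j
    have := congrArg (fun q => eval y (pderiv j q)) ha
    simp only [map_sum, Derivation.leibniz, smul_eq_mul, map_add, map_mul, hy.2 _ (F.f_mem _),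
      hy.2 _ hp, zero_mul, add_zero] at this
    exact this.symm
  apply mul_left_cancel₀ hg
  rw [mul_zero, Finset.mul_sum]
  simp only [mul_left_comm (eval y F.g), h1, Finset.mul_sum]
  rw [Finset.sum_comm]
  simp only [mul_left_comm (v _), ← Finset.mul_sum, h, mul_zero, Finset.sum_const_zero]

end PF

theorem IsManifold.finrank_tang (hX : IsManifold I c) {x : Fin M → ℂ} (hx : x ∈ cone I) :
    finrank ℂ (tangS I x) + c = M := by
  classical
  obtain ⟨F⟩ := hX.exists_PF hx
  let J0 : Matrix (Fin c) (Fin M) ℂ := Matrix.of fun i j => eval x (pderiv j (F.f i))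
  have hk : LinearMap.ker (Matrix.mulVecLin J0) = tangS I x := by
    ext v
    rw [F.mem_tang hx F.g_ne, LinearMap.mem_ker, funext_iff]
    simp [J0, Matrix.mulVec, dotProduct, mul_comm]
  have hr : LinearMap.range (Matrix.mulVecLin J0) = ⊤ := by
    rw [LinearMap.range_eq_top]
    intro w
    refine ⟨fun j => ∑ k, eval x (F.b k j) * ((eval x F.δ)⁻¹ * w k), funext fun i => ?_⟩
    have h1 : ∀ k, ∑ j, eval x (pderiv j (F.f i)) * eval x (F.b k j) =
        if i = k then eval x F.δ else 0 := fun k => by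
      simpa [apply_ite (eval x)] using congrArg (eval x) (F.Jb i k)
    simp only [J0, Matrix.mulVecLin_apply, Matrix.mulVec, dotProduct, Matrix.of_apply,
      Finset.mul_sum, ← mul_assoc]
    rw [Finset.sum_comm]
    simp only [← Finset.sum_mul, h1]
    simp [mul_inv_cancel₀ F.δ_ne]
  have := LinearMap.finrank_range_add_finrank_ker (Matrix.mulVecLin J0)
  rw [hk, hr] at this
  simp at this
  omega

theorem hasFDerivAt_eval (f : SS M) (x : Fin M → ℂ) :
    HasFDerivAt (fun y : Fin M → ℂ => eval y f)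
      (∑ j, eval x (pderiv j f) • (ContinuousLinearMap.proj j : (Fin M → ℂ) →L[ℂ] ℂ)) x := by
  classical
  induction f using MvPolynomial.induction_on with
  | C a =>
    simp only [eval_C]
    refine (hasFDerivAt_const (𝕜 := ℂ) a x).congr_fderiv ?_
    ext v
    simp
  | add p q hp hq =>
    simp only [map_add]
    refine (hp.add hq).congr_fderiv ?_
    ext v
    simp [add_mul, Finset.sum_add_distrib]
  | mul_X p k hp =>
    have := hp.mul (hasFDerivAt_apply (𝕜 := ℂ) k x)
    simp only [map_mul, eval_X]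
    refine this.congr_fderiv ?_
    ext v
    simp [Derivation.leibniz, pderiv_X, Pi.single_apply, apply_ite (eval x), add_mul,
      Finset.sum_add_distrib, Finset.mul_sum, mul_assoc]

theorem contDiff_eval (f : SS M) : ContDiff ℂ ⊤ fun y : Fin M → ℂ => eval y f := by
  induction f using MvPolynomial.induction_on with
  | C a => simpa using contDiff_const
  | add p q hp hq => simpa using hp.add hq
  | mul_X p k hp => simpa using hp.mul (contDiff_apply ℂ ℂ k)

end Pool.Agent.HCF
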