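import Pool.Agent.P.MP_f644fa_ag.Defs

/-! Polynomial functions on the cone, polynomial frames. -/

noncomputable section
namespace Pool.Agent.HCF
open MvPolynomial Module

variable {M : ℕ}

/-- the polynomial ring -/
abbrev SS (M : ℕ) := MvPolynomial (Fin M) ℂ

/-- the function defined by a polynomial -/
def pf (I : Ideal (SS M)) : SS M →ₐ[ℂ] (cone I → ℂ) := aeval fun j x => x.1 j

/-- the homogeneous coordinate ring, as a ring of functions -/
def Pol (I : Ideal (SS M)) : Subalgebra ℂ (cone I → ℂ) := (pf I).range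

/-- the tangent space as a subspace -/
def tangS (I : Ideal (SS M)) (x : Fin M → ℂ) : Submodule ℂ (Fin M → ℂ) where
  carrier := tang I x
  add_mem' {a b} ha hb f hf := by
    simp only [Pi.add_apply, add_mul, Finset.sum_add_distrib, ha f hf, hb f hf, add_zero]
  zero_mem' f _ := by simp
  smul_mem' c a ha f hf := by
    simp only [Pi.smul_apply, smul_eq_mul, mul_assoc, ← Finset.mul_sum, ha f hf, mul_zero]

/-- the linear form with coefficients `a` -/
def lin (a : Fin M → ℂ) : SS M := ∑ j, C (a j) * X j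

/-- A polynomial frame at `x`. -/
structure PF (I : Ideal (SS M)) (c : ℕ) (x : Fin M → ℂ) where
  f : Fin c → SS M
  g : SS M
  δ : SS M
  b : Fin c → Fin M → SS M
  f_mem : ∀ i, f i ∈ I
  g_ne : eval x g ≠ 0
  δ_ne : eval x δ ≠ 0
  g_mul : ∀ h ∈ I, g * h ∈ Ideal.span (Set.range f)
  Jb : ∀ i k, ∑ j, pderiv j (f i) * b k j = if i = k then δ else 0

variable {I : Ideal (SS M)} {c : ℕ}

/-- `δ` times the projection to the tangent space -/
def PF.t {x : Fin M → ℂ} (F : PF I c x) : Matrix (Fin M) (Fin M) (SS M) :=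
  F.δ • 1 - ∑ i, Matrix.of fun j l => F.b i j * pderiv l (F.f i)

theorem pf_apply (f : SS M) (x : cone I) : pf I f x = eval x.1 f := by
  induction f using MvPolynomial.induction_on with
  | C a => simp [pf]
  | add p q hp hq => rw [map_add, map_add, Pi.add_apply, hp, hq]
  | mul_X p j hp => rw [map_mul, map_mul, Pi.mul_apply, hp, pf, aeval_X, eval_X]

theorem pf_mem (f : SS M) : pf I f ∈ Pol I := ⟨f, rfl⟩

theorem Pol_le (I : Ideal (SS M)) : Pol I ≤ secRing I := by
  rintro _ ⟨f, rfl⟩ j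
  exact ⟨0, f, fun x => by rw [pow_zero, one_mul]; exact pf_apply f x⟩

theorem eval_lin (a x : Fin M → ℂ) : eval x (lin a) = ∑ j, a j * x j := by
  simp [lin]
theorem lin_hom (a : Fin M → ℂ) : (lin a).IsHomogeneous 1 :=
  IsHomogeneous.sum _ _ _ fun j _ => isHomogeneous_C_mul_X (a j) j

theorem eval_smul_hom {f : SS M} {d : ℕ} (h : f.IsHomogeneous d) (t : ℂ) (x : Fin M → ℂ) :
    eval (t • x) f = t ^ d * eval x f := by
  rw [eval_eq, eval_eq, Finset.mul_sum]
  refine Finset.sum_congr rfl fun s hs => ?_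
  simp only [Pi.smul_apply, smul_eq_mul, mul_pow, Finset.prod_mul_distrib,
    Finset.prod_pow_eq_pow_sum, ← h.degree_eq_sum_deg_support hs]
  ring

theorem isHom_pf {f : SS M} {d : ℕ} (h : f.IsHomogeneous d) : IsHom (d : ℤ) (pf I f) :=
  fun x y t e => by rw [pf_apply, pf_apply, e, eval_smul_hom h, zpow_natCast]

theorem IsHom.mul {d e : ℤ} {a b : cone I → ℂ} (ha : IsHom d a) (hb : IsHom e b) :
    IsHom (d + e) (a * b) := fun x y t h => by
  have ht : t ≠ 0 := fun h0 => y.2.1 (by rw [h, h0, zero_smul])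
  rw [Pi.mul_apply, Pi.mul_apply, ha x y t h, hb x y t h, zpow_add₀ ht]
  ring

theorem basic0_ind (hX : IsManifold I c) {P : SS M → Prop} (h0 : P 0)
    (hadd : ∀ a b, P a → P b → P (a + b))
    (h : ∀ d g, g ∈ I → g.IsHomogeneous d → P g) : ∀ f ∈ I, P f := fun f hf => by
  rw [← sum_homogeneousComponent f]
  exact Finset.sum_induction _ P hadd h0 fun i _ =>
    h i _ (hX.homog f hf i) (homogeneousComponent_isHomogeneous i f)

theorem IsManifold.smul_mem (hX : IsManifold I c) {x : Fin M → ℂ} (hx : x ∈ cone I) {t : ℂ}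
    (ht : t ≠ 0) : t • x ∈ cone I :=
  ⟨smul_ne_zero ht hx.1, basic0_ind hX (map_zero _)
    (fun a b ha hb => by rw [map_add, ha, hb, add_zero])
    fun d g hg hd => by rw [eval_smul_hom hd, hx.2 g hg, mul_zero]⟩

theorem basic0_tang (hX : IsManifold I c) (x : Fin M → ℂ) (t : ℂ) :
    tangS I x ≤ tangS I (t • x) := fun v hv =>
  basic0_ind hX (by simp)
    (fun a b ha hb => by simp only [map_add, mul_add, Finset.sum_add_distrib, ha, hb, add_zero])
    fun d g hg hd => by
      simp only [eval_smul_hom hd.pderiv, mul_left_comm _ (t ^ (d - 1)), ← Finset.mul_sum,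
        hv g hg, mul_zero]

theorem IsManifold.tang_smul (hX : IsManifold I c) (x : Fin M → ℂ) {t : ℂ} (ht : t ≠ 0) :
    tangS I (t • x) = tangS I x := by
  refine le_antisymm ?_ (basic0_tang hX x t)
  have h := basic0_tang hX (t • x) t⁻¹
  rwa [inv_smul_smul₀ ht] at h

/-- Euler's formula -/
theorem IsManifold.self_mem_tang (hX : IsManifold I c) {x : Fin M → ℂ} (hx : x ∈ cone I) :
    x ∈ tangS I x :=
  basic0_ind hX (by simp)
    (fun a b ha hb => by simp only [map_add, mul_add, Finset.sum_add_distrib, ha, hb, add_zero])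
    fun d g hg hd => by
      have h := congrArg (eval x) hd.sum_X_mul_pderiv
      rw [map_nsmul, hx.2 g hg, smul_zero, map_sum] at h
      simpa only [map_mul, eval_X] using h

theorem basic0_X (hX : IsManifold I c) : ∃ j, X j ∉ I := by
  obtain ⟨x, hx, h⟩ := hX.nonempty
  obtain ⟨j, hj⟩ := Function.ne_iff.1 hx
  exact ⟨j, fun hI => hj (by simpa using h _ hI)⟩

theorem IsManifold.pf_eq_zero (hX : IsManifold I c) {f : SS M} : pf I f = 0 ↔ f ∈ I := by
  refine ⟨fun h => ?_, fun h => funext fun x => (pf_apply f x).trans (x.2.2 f h)⟩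
  obtain ⟨j, hj⟩ := basic0_X hX
  have hp := hX.prime
  refine (hp.mem_or_mem (x := X j) ?_).resolve_left hj
  rw [← IsPrime.vanishingIdeal_zeroLocus (K := ℂ) I]
  intro x hx
  rw [map_mul, aeval_X]
  by_cases h0 : x = 0
  · rw [h0, Pi.zero_apply, zero_mul]
  · have h1 := (pf_apply f ⟨x, h0, hx⟩).symm.trans (congrFun h _)
    exact mul_eq_zero_of_right _ h1

/-- Nullstellensatz -/
theorem IsManifold.ns (hX : IsManifold I c) (A : Ideal (SS M)) (hI : I ≤ A)
    (h : ∀ x ∈ cone I, ∃ g ∈ A, eval x g ≠ 0) (j : Fin M) : ∃ K : ℕ, X j ^ K ∈ A := by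
  have _ := hX
  change X j ∈ A.radical
  rw [← vanishingIdeal_zeroLocus_eq_radical (K := ℂ) A]
  intro x hx
  rw [aeval_X]
  by_cases h0 : x = 0
  · rw [h0, Pi.zero_apply]
  · obtain ⟨g, hg, hg'⟩ := h x ⟨h0, fun f hf => hx f (hI hf)⟩
    exact absurd (hx g hg) hg'

theorem basic0_mem (hX : IsManifold I c) {f : SS M} (h : ∀ x : cone I, eval x.1 f = 0) : f ∈ I := by
  rw [← hX.pf_eq_zero]
  funext x
  rw [pf_apply, h, Pi.zero_apply]

theorem basic0_vanish (hX : IsManifold I c) {a : cone I → ℂ} (ha : a ∈ secRing I) {j : Fin M}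
    (hj : X j ∉ I) {k : ℕ} {p : SS M} (hp : ∀ x : cone I, x.1 j ^ k * a x = eval x.1 p)
    (hI : p ∈ I) : a = 0 := by
  funext x
  obtain ⟨l, hl⟩ := Function.ne_iff.1 x.2.1
  obtain ⟨k', p', hp'⟩ := ha l
  have h1 : X j ^ k * p' ∈ I := basic0_mem hX fun y => by
    rw [map_mul, map_pow, eval_X, ← hp', mul_left_comm, hp, y.2.2 p hI, mul_zero]
  have h2 := (hX.prime.mem_or_mem h1).resolve_left fun h => hj (hX.prime.mem_of_pow_mem k h)
  exact (mul_eq_zero.1 ((hp' x).trans (x.2.2 p' h2))).resolve_left (pow_ne_zero _ hl)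

theorem IsManifold.isDomain_sec (hX : IsManifold I c) : IsDomain (secRing I) := by
  have := hX.nonempty.to_subtype
  have : NoZeroDivisors (secRing I) := ⟨fun {a b} hab => by
    obtain ⟨j, hj⟩ := basic0_X hX
    obtain ⟨k, p, hp⟩ := a.2 j
    obtain ⟨l, q, hq⟩ := b.2 j
    have h1 : p * q ∈ I := basic0_mem hX fun x => by
      have h2 : a.1 x * b.1 x = 0 := congrFun (congrArg Subtype.val hab) x
      rw [map_mul, ← hp, ← hq, mul_mul_mul_comm, h2, mul_zero]
    exact (hX.prime.mem_or_mem h1).imp (fun h => Subtype.ext (basic0_vanish hX a.2 hj hp h))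
      fun h => Subtype.ext (basic0_vanish hX b.2 hj hq h)⟩
  exact NoZeroDivisors.to_isDomain _

theorem IsManifold.isDomain_Pol (hX : IsManifold I c) : IsDomain (Pol I) := by
  have := hX.isDomain_sec
  exact Function.Injective.isDomain (Subalgebra.inclusion (Pol_le I))
    (Subalgebra.inclusion_injective _)

theorem basic0_inj {a b : ℤ} (h : (2 : ℂ) ^ a = 2 ^ b) : a = b := by
  have h1 : (2 : ℝ) ^ a = 2 ^ b := by simpa [norm_zpow] using congrArg norm h
  exact zpow_right_injective₀ two_pos (by norm_num) h1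

theorem basic0_two (hX : IsManifold I c) {f : SS M} {m : ℤ}
    (h : ∀ x ∈ cone I, eval ((2 : ℂ) • x) f = 2 ^ m * eval x f) {e : ℕ} (he : (e : ℤ) ≠ m) :
    homogeneousComponent e f ∈ I := by
  have hs := sum_homogeneousComponent f
  generalize Finset.range (f.totalDegree + 1) = s at hs
  have h1 : ∑ i ∈ s, C ((2 : ℂ) ^ i - 2 ^ m) * homogeneousComponent i f ∈ I :=
    basic0_mem hX fun x => by
      have h2 := h x.1 x.2
      rw [← hs, map_sum, map_sum, Finset.mul_sum, ← sub_eq_zero, ← Finset.sum_sub_distrib] at h2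
      rw [map_sum, ← h2]
      refine Finset.sum_congr rfl fun i _ => ?_
      rw [map_mul, eval_C, eval_smul_hom (homogeneousComponent_isHomogeneous i f), sub_mul]
  have h2 : ∀ i, homogeneousComponent e (homogeneousComponent i f) =
      if e = i then homogeneousComponent i f else 0 := fun i =>
    homogeneousComponent_of_mem (homogeneousComponent_mem i f)
  by_cases hes : e ∈ s
  · have h3 := hX.homog _ h1 e
    simp only [map_sum, homogeneousComponent_C_mul, h2, mul_ite, mul_zero, Finset.sum_ite_eq,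
      if_pos hes] at h3
    have h4 : (2 : ℂ) ^ e - 2 ^ m ≠ 0 := sub_ne_zero.2 fun h5 =>
      he (basic0_inj ((zpow_natCast _ _).trans h5))
    exact (I.unit_mul_mem_iff_mem (h4.isUnit.map C)).1 h3
  · rw [← hs]
    simp only [map_sum, h2, Finset.sum_ite_eq, if_neg hes, zero_mem]

theorem basic0_rep (hX : IsManifold I c) {f : SS M} {d : ℕ}
    (h : ∀ x ∈ cone I, eval ((2 : ℂ) • x) f = 2 ^ (d : ℤ) * eval x f) :
    pf I f = pf I (homogeneousComponent d f) := by
  have h1 : ∀ e ≠ d, pf I (homogeneousComponent e f) = 0 := fun e he =>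
    hX.pf_eq_zero.2 (basic0_two hX h (by exact_mod_cast he))
  conv_lhs => rw [← sum_homogeneousComponent f, map_sum]
  refine Finset.sum_eq_single d (fun e _ he => h1 e he) fun hd => ?_
  rw [homogeneousComponent_eq_zero _ _ (by simpa using hd), map_zero]

theorem basic0_of_isHom (hX : IsManifold I c) {f : SS M} {m : ℤ} (h : IsHom m (pf I f)) :
    ∀ x ∈ cone I, eval ((2 : ℂ) • x) f = 2 ^ m * eval x f := fun x hx => by
  have h1 := h ⟨x, hx⟩ ⟨_, hX.smul_mem hx two_ne_zero⟩ 2 rfl
  rwa [pf_apply, pf_apply] at h1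

/-- a homogeneous polynomial function comes from a homogeneous polynomial -/
theorem IsManifold.hom_rep (hX : IsManifold I c) {f : SS M} {d : ℕ} (h : IsHom (d : ℤ) (pf I f)) :
    pf I f = pf I (homogeneousComponent d f) :=
  basic0_rep hX (basic0_of_isHom hX h)

theorem IsManifold.hom_neg (hX : IsManifold I c) {f : SS M} {m : ℤ} (hm : m < 0)
    (h : IsHom m (pf I f)) : pf I f = 0 := by
  rw [hX.pf_eq_zero, ← sum_homogeneousComponent f]
  exact sum_mem fun e _ => basic0_two hX (basic0_of_isHom hX h) (by omega)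

/-- homogeneity of a polynomial function can be tested with the factor `2` -/
theorem IsManifold.isHom_of_two (hX : IsManifold I c) {f : SS M} {d : ℕ}
    (h : ∀ x ∈ cone I, eval ((2 : ℂ) • x) f = 2 ^ d * eval x f) : IsHom (d : ℤ) (pf I f) := by
  rw [basic0_rep hX (d := d) (by simpa only [zpow_natCast] using h)]
  exact isHom_pf (homogeneousComponent_isHomogeneous d f)

end Pool.Agent.HCF
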