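import Pool.Agent.P.MP_f644fa_ag.CDefs

/-! Vector fields and the structure equations. -/

noncomputable section
namespace Pool.Agent.HCF
open Finset Module Matrix

variable {𝒜 : Type} [CommRing 𝒜] [Algebra ℂ 𝒜] [StarRing 𝒜] [StarModule ℂ 𝒜] {M n : ℕ}

theorem cj_cj (δ : Derivation ℂ 𝒜 𝒜) : cj (cj δ) = δ :=
  Derivation.ext fun f => by rw [cj_apply, cj_apply, star_star, star_star]

theorem cj_add (δ δ' : Derivation ℂ 𝒜 𝒜) : cj (δ + δ') = cj δ + cj δ' :=
  Derivation.ext fun f => by simp only [cj_apply, Derivation.add_apply, star_add]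

theorem cj_sub (δ δ' : Derivation ℂ 𝒜 𝒜) : cj (δ - δ') = cj δ - cj δ' :=
  Derivation.ext fun f => by simp only [cj_apply, Derivation.sub_apply, star_sub]

theorem cj_smul (f : 𝒜) (δ : Derivation ℂ 𝒜 𝒜) : cj (f • δ) = star f • cj δ :=
  Derivation.ext fun g => by
    simp only [cj_apply, Derivation.smul_apply, smul_eq_mul, star_mul']

theorem c0_cj_zero : cj (0 : Derivation ℂ 𝒜 𝒜) = 0 :=
  Derivation.ext fun f => by simp only [cj_apply, Derivation.zero_apply, star_zero]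

theorem cj_sum {ι : Type} (s : Finset ι) (δ : ι → Derivation ℂ 𝒜 𝒜) :
    cj (∑ i ∈ s, δ i) = ∑ i ∈ s, cj (δ i) := by
  induction s using Finset.cons_induction with
  | empty => exact c0_cj_zero
  | cons a s ha ih => rw [sum_cons, sum_cons, cj_add, ih]

theorem cj_lie (δ δ' : Derivation ℂ 𝒜 𝒜) : cj ⁅δ, δ'⁆ = ⁅cj δ, cj δ'⁆ :=
  Derivation.ext fun f => by
    simp only [cj_apply, Derivation.commutator_apply, star_sub, star_star]

omit [StarRing 𝒜] [StarModule ℂ 𝒜] in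
theorem c0_sum_apply {ι : Type} (s : Finset ι) (δ : ι → Derivation ℂ 𝒜 𝒜) (f : 𝒜) :
    (∑ i ∈ s, δ i) f = ∑ i ∈ s, δ i f := by
  induction s using Finset.cons_induction with
  | empty => rfl
  | cons a s ha ih => rw [sum_cons, sum_cons, Derivation.add_apply, ih]

omit [StarRing 𝒜] [StarModule ℂ 𝒜] in
theorem c0_lie_smul (a b : Derivation ℂ 𝒜 𝒜) (g : 𝒜) : ⁅a, g • b⁆ = g • ⁅a, b⁆ + a g • b :=
  Derivation.ext fun f => by
    simp only [Derivation.commutator_apply, Derivation.add_apply, Derivation.smul_apply,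
      smul_eq_mul, Derivation.leibniz]
    ring

namespace CR
variable {C : CR M n 𝒜} {δ δ' : Derivation ℂ 𝒜 𝒜}

theorem c0_eq (h : C.VF δ) :
    δ = ∑ m, (δ (C.x m) • C.W m + δ (star (C.x m)) • cj (C.W m)) := h

theorem VF.zero : C.VF 0 := by
  show _ = _
  simp only [Derivation.zero_apply, zero_smul, add_zero, sum_const_zero]

theorem VF.add (h : C.VF δ) (h' : C.VF δ') : C.VF (δ + δ') := by
  refine (congrArg₂ (· + ·) (c0_eq h) (c0_eq h')).trans ?_
  simp only [← sum_add_distrib, Derivation.add_apply, add_smul]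
  exact sum_congr rfl fun m _ => add_add_add_comm _ _ _ _

theorem VF.smul (h : C.VF δ) (f : 𝒜) : C.VF (f • δ) := by
  refine (congrArg (f • ·) (c0_eq h)).trans ?_
  simp only [smul_sum, Derivation.smul_apply, smul_add, smul_smul, smul_eq_mul]

theorem c0_neg (h : C.VF δ) : C.VF (-δ) := by
  rw [← neg_one_smul 𝒜 δ]
  exact h.smul _

theorem VF.sub (h : C.VF δ) (h' : C.VF δ') : C.VF (δ - δ') := by
  rw [sub_eq_add_neg]
  exact h.add (c0_neg h')

theorem VF.sum {ι : Type} (s : Finset ι) {d : ι → Derivation ℂ 𝒜 𝒜} (h : ∀ i ∈ s, C.VF (d i)) :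
    C.VF (∑ i ∈ s, d i) :=
  Finset.sum_induction d C.VF (fun _ _ ha hb => ha.add hb) VF.zero h

theorem VF.cj (h : C.VF δ) : C.VF (cj δ) := by
  refine (congrArg HCF.cj (c0_eq h)).trans ?_
  rw [cj_sum]
  refine sum_congr rfl fun m _ => ?_
  rw [cj_add, cj_smul, cj_smul, cj_cj, cj_apply, cj_apply, star_star, add_comm]

theorem c0_W (l : Fin M) : C.VF (C.W l) := C.vf_W l

theorem c0_lie_right {a : Derivation ℂ 𝒜 𝒜} (h1 : ∀ m, C.VF ⁅a, C.W m⁆)
    (h2 : ∀ m, C.VF ⁅a, cj (C.W m)⁆) (h : C.VF δ) : C.VF ⁅a, δ⁆ := by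
  rw [c0_eq h, lie_sum]
  refine VF.sum _ fun m _ => ?_
  rw [lie_add, c0_lie_smul, c0_lie_smul]
  exact (((h1 m).smul _).add ((c0_W m).smul _)).add (((h2 m).smul _).add ((c0_W m).cj.smul _))

theorem c0_skew (h : C.VF ⁅δ, δ'⁆) : C.VF ⁅δ', δ⁆ := by
  rw [← lie_skew]
  exact c0_neg h

theorem VF.lie (h : C.VF δ) (h' : C.VF δ') : C.VF ⁅δ, δ'⁆ := by
  refine c0_lie_right (fun m => c0_skew (c0_lie_right (C.vf_br m) (C.vf_br' m) h))
    (fun m => c0_skew (c0_lie_right (fun l => c0_skew (C.vf_br' l m)) (fun l => ?_) h)) h'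
  rw [← cj_lie]
  exact VF.cj (C.vf_br m l)

theorem VF.ext (h : C.VF δ) (h' : C.VF δ') (h1 : ∀ m, δ (C.x m) = δ' (C.x m))
    (h2 : ∀ m, δ (star (C.x m)) = δ' (star (C.x m))) : δ = δ' :=
  (c0_eq h).trans ((sum_congr rfl fun m _ => by rw [h1, h2]).trans (c0_eq h').symm)

theorem VF.tan (h : C.VF δ) : C.P *ᵥ (fun m => δ (C.x m)) = fun m => δ (C.x m) := by
  funext m
  have h0 : ∑ l, (star (C.x l) * δ (C.x l) + C.x l * δ (star (C.x l))) = 0 := by
    have h1 := congrArg δ C.x_norm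
    rw [Derivation.map_one_eq_zero, map_sum] at h1
    simpa only [Derivation.leibniz, smul_eq_mul] using h1
  have h2 : ∀ l, HCF.cj (C.W l) (C.x m) = -((2⁻¹ : ℂ) • (C.x l * C.x m)) := fun l => by
    rw [cj_apply, C.W_xb, star_neg, star_smul, star_mul', star_star, star_star]
    simp
  have h3 := DFunLike.congr_fun (c0_eq h) (C.x m)
  rw [c0_sum_apply] at h3
  have h4 : ∀ l ∈ (univ : Finset (Fin M)),
      (δ (C.x l) • C.W l + δ (star (C.x l)) • HCF.cj (C.W l)) (C.x m) =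
        C.P m l * δ (C.x l) - ((2⁻¹ : ℂ) • C.x m) *
          (star (C.x l) * δ (C.x l) + C.x l * δ (star (C.x l))) := fun l _ => by
    rw [Derivation.add_apply, Derivation.smul_apply, Derivation.smul_apply, h2, C.W_x]
    simp only [smul_eq_mul, Algebra.smul_def]
    ring
  rw [sum_congr rfl h4, sum_sub_distrib, ← mul_sum, h0, mul_zero, sub_zero] at h3
  exact h3.symm

variable (C)

theorem vf_T : C.VF C.T :=
  VF.sum _ fun l _ => ((c0_W l).smul _).sub ((c0_W l).cj.smul _)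

theorem vf_Z (l : Fin M) : C.VF (C.Z l) := (c0_W l).add (C.vf_T.smul _)

theorem vf_Zb (l : Fin M) : C.VF (C.Zb l) := (C.vf_Z l).cj

end CR

end Pool.Agent.HCF
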