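import Pool.Agent.P.MP_f644fa_ag.C0

/-! The projectors and the values of the vector fields on the coordinates. -/

noncomputable section
namespace Pool.Agent.HCF
open Finset Module Matrix

variable {𝒜 : Type} [CommRing 𝒜] [Algebra ℂ 𝒜] [StarRing 𝒜] [StarModule ℂ 𝒜] {M n : ℕ}

omit [StarRing 𝒜] [StarModule ℂ 𝒜] in
theorem c1_sum_apply {ι : Type} (s : Finset ι) (d : ι → Derivation ℂ 𝒜 𝒜) (f : 𝒜) :
    (∑ i ∈ s, d i) f = ∑ i ∈ s, d i f := by
  classical
  induction s using Finset.induction_on with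
  | empty => simp
  | insert a s ha ih => rw [Finset.sum_insert ha, Finset.sum_insert ha, Derivation.add_apply, ih]

namespace CR
variable (C : CR M n 𝒜)

theorem c1_P_star (j k : Fin M) : star (C.P j k) = C.P k j := by
  have := congrFun (congrFun C.P_star k) j
  simpa [Matrix.conjTranspose_apply] using this

theorem c1_P_x (j : Fin M) : ∑ k, C.P j k * C.x k = C.x j := by
  have := congrFun C.P_x j
  simpa [Matrix.mulVec, dotProduct] using this

theorem c1_xb_P (k : Fin M) : ∑ j, star (C.x j) * C.P j k = star (C.x k) := by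
  have h := congrArg star (C.c1_P_x k)
  rw [star_sum] at h
  rw [← h]
  refine Finset.sum_congr rfl fun j _ => ?_
  rw [star_mul, C.c1_P_star]

theorem xb_P : (fun j => star (C.x j)) ᵥ* C.P = fun j => star (C.x j) := by
  funext k
  simpa [Matrix.vecMul, dotProduct] using C.c1_xb_P k

theorem xx_star : C.xxᴴ = C.xx := by
  ext j k
  simp [xx, Matrix.conjTranspose_apply, mul_comm]

theorem xx_mul : C.xx * C.xx = C.xx := by
  ext j k
  simp only [xx, Matrix.mul_apply, Matrix.of_apply]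
  calc ∑ l, C.x j * star (C.x l) * (C.x l * star (C.x k))
      = C.x j * star (C.x k) * ∑ l, star (C.x l) * C.x l := by
        rw [Finset.mul_sum]
        exact Finset.sum_congr rfl fun l _ => by ring
    _ = _ := by rw [C.x_norm, mul_one]

theorem P_xx : C.P * C.xx = C.xx := by
  ext j k
  simp only [xx, Matrix.mul_apply, Matrix.of_apply]
  rw [← C.c1_P_x j, Finset.sum_mul]
  exact Finset.sum_congr rfl fun l _ => by ring

theorem xx_P : C.xx * C.P = C.xx := by
  have h := congrArg Matrix.conjTranspose C.P_xx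
  rwa [Matrix.conjTranspose_mul, C.xx_star, C.P_star] at h

theorem H_star : C.Hᴴ = C.H := by
  rw [H, Matrix.conjTranspose_sub, C.P_star, C.xx_star]

theorem H_mul : C.H * C.H = C.H := by
  rw [H, sub_mul, mul_sub, mul_sub, C.P_mul, C.P_xx, C.xx_P, C.xx_mul]
  abel

theorem P_H : C.P * C.H = C.H := by
  rw [H, mul_sub, C.P_mul, C.P_xx]

theorem H_P : C.H * C.P = C.H := by
  rw [H, sub_mul, C.P_mul, C.xx_P]

theorem c1_xx_x : C.xx *ᵥ C.x = C.x := by
  funext j
  simp only [xx, Matrix.mulVec, dotProduct, Matrix.of_apply]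
  calc ∑ l, C.x j * star (C.x l) * C.x l = C.x j * ∑ l, star (C.x l) * C.x l := by
        rw [Finset.mul_sum]
        exact Finset.sum_congr rfl fun l _ => by ring
    _ = _ := by rw [C.x_norm, mul_one]

theorem c1_xb_xx : (fun j => star (C.x j)) ᵥ* C.xx = fun j => star (C.x j) := by
  funext k
  simp only [xx, Matrix.vecMul, dotProduct, Matrix.of_apply]
  calc ∑ l, star (C.x l) * (C.x l * star (C.x k)) = (∑ l, star (C.x l) * C.x l) * star (C.x k) := by
        rw [Finset.sum_mul]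
        exact Finset.sum_congr rfl fun l _ => by ring
    _ = _ := by rw [C.x_norm, one_mul]

theorem H_x : C.H *ᵥ C.x = 0 := by
  rw [H, Matrix.sub_mulVec, C.P_x, C.c1_xx_x, sub_self]

theorem xb_H : (fun j => star (C.x j)) ᵥ* C.H = 0 := by
  rw [H, Matrix.vecMul_sub, C.xb_P, C.c1_xb_xx, sub_self]

theorem c1_xx_trace : C.xx.trace = 1 := by
  rw [← C.x_norm]
  simp only [Matrix.trace, Matrix.diag, xx, Matrix.of_apply]
  exact Finset.sum_congr rfl fun l _ => mul_comm _ _

theorem H_trace : C.H.trace = (n : ℕ) := by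
  rw [H, Matrix.trace_sub, C.P_trace, C.c1_xx_trace]
  push_cast
  ring

theorem Q_star : C.Qᴴ = C.Q := by
  rw [Q, Matrix.conjTranspose_sub, C.P_star, Matrix.conjTranspose_one]

theorem Q_mul : C.Q * C.Q = C.Q := by
  rw [Q, sub_mul, mul_sub, mul_sub, C.P_mul, one_mul, one_mul, mul_one]
  abel

theorem Q_x : C.Q *ᵥ C.x = 0 := by
  rw [Q, Matrix.sub_mulVec, C.P_x, Matrix.one_mulVec, sub_self]

theorem c1_xx_H : C.xx * C.H = 0 := by
  rw [H, mul_sub, C.xx_P, C.xx_mul, sub_self]

theorem c1_H_xx : C.H * C.xx = 0 := by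
  rw [H, sub_mul, C.P_xx, C.xx_mul, sub_self]

theorem Qxx_H : (C.Q - C.xx) * C.H = 0 := by
  rw [sub_mul, C.c1_xx_H, Q, sub_mul, one_mul, C.P_H, sub_self, sub_zero]

theorem H_Qxx : C.H * (C.Q - C.xx) = 0 := by
  rw [mul_sub, C.c1_H_xx, Q, mul_sub, mul_one, C.H_P, sub_self, sub_zero]

theorem Q_trace {c : ℕ} (hM : M = n + 1 + c) : C.Q.trace = (c : ℕ) := by
  rw [Q, Matrix.trace_sub, C.P_trace, Matrix.trace_one, Fintype.card_fin]
  rw [hM]
  push_cast
  ring

theorem c1_H_star (j k : Fin M) : star (C.H j k) = C.H k j := by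
  have := congrFun (congrFun C.H_star k) j
  simpa [Matrix.conjTranspose_apply] using this

theorem c1_Wb_x (l m : Fin M) : cj (C.W l) (C.x m) = -((2⁻¹ : ℂ) • (C.x l * C.x m)) := by
  rw [cj_apply, C.W_xb]
  simp

theorem T_x (m : Fin M) : C.T (C.x m) = Complex.I • C.x m := by
  rw [T, c1_sum_apply]
  have h : ∀ l, ((Complex.I • C.x l) • C.W l - (Complex.I • star (C.x l)) • cj (C.W l)) (C.x m) =
      Complex.I • (C.P m l * C.x l) := by
    intro l
    rw [Derivation.sub_apply, Derivation.smul_apply, Derivation.smul_apply, C.c1_Wb_x, C.W_x]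
    simp only [smul_eq_mul, Algebra.smul_def]
    ring
  rw [Finset.sum_congr rfl fun l _ => h l, ← Finset.smul_sum, C.c1_P_x]

theorem cj_T : cj C.T = C.T := by
  rw [T, cj_sum]
  refine Finset.sum_congr rfl fun l _ => ?_
  rw [cj_sub, cj_smul, cj_smul, cj_cj]
  simp only [star_smul, star_star, Complex.star_def, Complex.conj_I, neg_smul]
  abel

theorem T_star (f : 𝒜) : C.T (star f) = star (C.T f) := by
  have h : cj C.T f = C.T f := by rw [C.cj_T]
  rw [← h, cj_apply, star_star]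

theorem T_xb (m : Fin M) : C.T (star (C.x m)) = -(Complex.I • star (C.x m)) := by
  rw [C.T_star, C.T_x]
  simp

omit [StarRing 𝒜] [StarModule ℂ 𝒜] in
theorem c1_II (a b : 𝒜) : ((Complex.I / 2) • a) * (Complex.I • b) = -((2⁻¹ : ℂ) • (a * b)) := by
  rw [smul_mul_smul_comm, ← neg_smul]
  congr 1
  rw [div_mul_eq_mul_div, Complex.I_mul_I]
  ring

omit [StarRing 𝒜] [StarModule ℂ 𝒜] in
theorem c1_half (a : 𝒜) : (2⁻¹ : ℂ) • a + (2⁻¹ : ℂ) • a = a := by
  rw [← add_smul]
  norm_num

theorem Z_x (l m : Fin M) : C.Z l (C.x m) = C.H m l := by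
  rw [Z, Derivation.add_apply, Derivation.smul_apply, C.T_x, C.W_x, smul_eq_mul, c1_II]
  have h := c1_half (star (C.x l) * C.x m)
  simp only [H, xx, Matrix.sub_apply, Matrix.of_apply]
  linear_combination -h

theorem Z_xb (l m : Fin M) : C.Z l (star (C.x m)) = 0 := by
  rw [Z, Derivation.add_apply, Derivation.smul_apply, C.T_xb, C.W_xb, smul_eq_mul, mul_neg, c1_II]
  ring

theorem Zb_x (l m : Fin M) : C.Zb l (C.x m) = 0 := by
  rw [Zb, cj_apply, C.Z_xb, star_zero]

theorem Zb_xb (l m : Fin M) : C.Zb l (star (C.x m)) = C.H l m := by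
  rw [Zb, cj_apply, star_star, C.Z_x, C.c1_H_star]

theorem Zb_star (l : Fin M) (f : 𝒜) : C.Zb l (star f) = star (C.Z l f) := by
  rw [Zb, cj_apply, star_star]

theorem Z_star (l : Fin M) (f : 𝒜) : C.Z l (star f) = star (C.Zb l f) := by
  rw [Zb, cj_apply, star_star]

theorem W_eq (l : Fin M) : C.W l = C.Z l - ((Complex.I / 2) • star (C.x l)) • C.T := by
  rw [Z, add_sub_cancel_right]

theorem Wb_eq (l : Fin M) : cj (C.W l) = C.Zb l + ((Complex.I / 2) • C.x l) • C.T := by
  rw [C.W_eq l, cj_sub, cj_smul, C.cj_T, Zb, star_smul, star_star]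
  have h : star (Complex.I / 2) = -(Complex.I / 2) := by
    simp [neg_div]
  rw [h, neg_smul, neg_smul, sub_neg_eq_add]

theorem sum_x_Z : ∑ l, C.x l • C.Z l = 0 := by
  refine VF.ext (C := C) (VF.sum _ fun l _ => (C.vf_Z l).smul _) VF.zero (fun m => ?_) (fun m => ?_)
  · rw [c1_sum_apply, Derivation.zero_apply]
    have h := congrFun C.H_x m
    simp only [Matrix.mulVec, dotProduct, Pi.zero_apply] at h
    rw [← h]
    refine Finset.sum_congr rfl fun l _ => ?_
    rw [Derivation.smul_apply, C.Z_x, smul_eq_mul, mul_comm]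
  · rw [c1_sum_apply, Derivation.zero_apply]
    refine Finset.sum_eq_zero fun l _ => ?_
    rw [Derivation.smul_apply, C.Z_xb, smul_zero]

theorem sum_xb_Zb : ∑ l, star (C.x l) • C.Zb l = 0 := by
  have h := congrArg cj C.sum_x_Z
  rw [cj_sum] at h
  simp only [cj_smul] at h
  have h0 : cj (0 : Derivation ℂ 𝒜 𝒜) = 0 := by
    ext f
    simp [cj_apply]
  rw [h0] at h
  exact h

theorem sum_H_Z (k : Fin M) : ∑ l, C.H l k • C.Z l = C.Z k := by
  refine VF.ext (C := C) (VF.sum _ fun l _ => (C.vf_Z l).smul _) (C.vf_Z k) (fun m => ?_) (fun m => ?_)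
  · rw [c1_sum_apply, C.Z_x]
    have h := congrFun (congrFun C.H_mul m) k
    rw [← h, Matrix.mul_apply]
    refine Finset.sum_congr rfl fun l _ => ?_
    rw [Derivation.smul_apply, C.Z_x, smul_eq_mul, mul_comm]
  · rw [c1_sum_apply, C.Z_xb]
    refine Finset.sum_eq_zero fun l _ => ?_
    rw [Derivation.smul_apply, C.Z_xb, smul_zero]

theorem sum_H_Zb (k : Fin M) : ∑ l, C.H k l • C.Zb l = C.Zb k := by
  have h := congrArg cj (C.sum_H_Z k)
  rw [cj_sum] at h
  simp only [cj_smul, C.c1_H_star] at h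
  exact h

end CR

end Pool.Agent.HCF
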