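import Pool.Agent.P.MP_f644fa_ag.C1

/-! The second fundamental form, brackets, divergences. -/

noncomputable section
namespace Pool.Agent.HCF
open Finset Module Matrix

variable {𝒜 : Type} [CommRing 𝒜] [Algebra ℂ 𝒜] [StarRing 𝒜] [StarModule ℂ 𝒜] {M n : ℕ}

omit [StarRing 𝒜] [StarModule ℂ 𝒜] in
theorem c2_sum_apply {ι : Type} (s : Finset ι) (d : ι → Derivation ℂ 𝒜 𝒜) (f : 𝒜) :
    (∑ i ∈ s, d i) f = ∑ i ∈ s, d i f := by
  classical
  induction s using Finset.induction_on with
  | empty => simp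
  | insert a s ha ih => rw [Finset.sum_insert ha, Finset.sum_insert ha, Derivation.add_apply, ih]

omit [StarRing 𝒜] [StarModule ℂ 𝒜] in
theorem map_der_mul {l m k : Type} [Fintype m] (δ : Derivation ℂ 𝒜 𝒜) (A : Matrix l m 𝒜)
    (B : Matrix m k 𝒜) : (A * B).map δ = A.map δ * B + A * B.map δ := by
  ext a b
  simp only [Matrix.map_apply, Matrix.mul_apply, Matrix.add_apply, map_sum, Derivation.leibniz,
    smul_eq_mul, ← Finset.sum_add_distrib]
  exact Finset.sum_congr rfl fun i _ => by ring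

namespace CR
variable (C : CR M n 𝒜)

theorem c2_P_star (a b : Fin M) : star (C.P a b) = C.P b a := by
  have h := congrFun (congrFun C.P_star b) a
  rwa [Matrix.conjTranspose_apply] at h

theorem c2_H_star (a b : Fin M) : star (C.H a b) = C.H b a := by
  have h := congrFun (congrFun C.H_star b) a
  rwa [Matrix.conjTranspose_apply] at h

theorem c2_B_apply (j a b : Fin M) : C.B j a b = C.Z j (C.P a b) := rfl

theorem c2_xx_apply (a b : Fin M) : C.xx a b = C.x a * star (C.x b) := rfl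

theorem c2_H_apply (a b : Fin M) : C.H a b = C.P a b - C.xx a b := rfl

theorem c2_Zb_P (j a b : Fin M) : C.Zb j (C.P a b) = star (C.B j b a) := by
  rw [← C.c2_P_star b a, C.Zb_star, c2_B_apply]

theorem Zb_P (j : Fin M) : C.P.map (C.Zb j) = (C.B j)ᴴ := by
  ext a b
  rw [Matrix.map_apply, Matrix.conjTranspose_apply, c2_Zb_P]

theorem Zb_xx (j a b : Fin M) : C.Zb j (C.xx a b) = C.x a * C.H j b := by
  rw [c2_xx_apply, Derivation.leibniz, C.Zb_xb, C.Zb_x, smul_zero, add_zero, smul_eq_mul]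

theorem Z_xx (j a b : Fin M) : C.Z j (C.xx a b) = C.H a j * star (C.x b) := by
  rw [c2_xx_apply, Derivation.leibniz, C.Z_xb, C.Z_x, smul_zero, zero_add, smul_eq_mul, mul_comm]

theorem c2_Z_H (j a b : Fin M) : C.Z j (C.H a b) = C.B j a b - C.H a j * star (C.x b) := by
  rw [c2_H_apply C a b, map_sub, Z_xx, c2_B_apply]

theorem c2_Zb_H (j a b : Fin M) : C.Zb j (C.H a b) = star (C.B j b a) - C.x a * C.H j b := by
  rw [c2_H_apply C a b, map_sub, Zb_xx, c2_Zb_P]

theorem c2_tan {δ : Derivation ℂ 𝒜 𝒜} (h : C.VF δ) (a : Fin M) :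
    ∑ m, C.P a m * δ (C.x m) = δ (C.x a) := by
  have h1 := congrFun h.tan a
  simpa only [Matrix.mulVec, dotProduct] using h1

theorem c2_P_x (a : Fin M) : ∑ m, C.P a m * C.x m = C.x a := by
  have h1 := congrFun C.P_x a
  simpa only [Matrix.mulVec, dotProduct] using h1

theorem c2_P_H (a b : Fin M) : ∑ m, C.P a m * C.H m b = C.H a b := by
  have h1 := congrFun (congrFun C.P_H a) b
  rwa [Matrix.mul_apply] at h1

theorem c2_lie_Zb_Z_x (j k m : Fin M) :
    ⁅C.Zb j, C.Z k⁆ (C.x m) = star (C.B j k m) - C.x m * C.H j k := by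
  rw [Derivation.commutator_apply, C.Z_x, C.Zb_x, map_zero, sub_zero, c2_Zb_H]

theorem B_P (j : Fin M) : C.B j * C.P = C.B j := by
  have h : C.P * (C.B j)ᴴ = (C.B j)ᴴ := by
    ext a k
    have h1 := C.c2_tan ((C.vf_Zb j).lie (C.vf_Z k)) a
    simp only [c2_lie_Zb_Z_x, mul_sub, Finset.sum_sub_distrib, ← mul_assoc, ← Finset.sum_mul,
      c2_P_x, sub_left_inj] at h1
    simpa only [Matrix.mul_apply, Matrix.conjTranspose_apply] using h1
  have h2 := congrArg Matrix.conjTranspose h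
  rwa [Matrix.conjTranspose_mul, Matrix.conjTranspose_conjTranspose, C.P_star] at h2

theorem P_B (j : Fin M) : C.P * C.B j = 0 := by
  have h := map_der_mul (C.Z j) C.P C.P
  rw [C.P_mul] at h
  change C.B j = C.B j * C.P + C.P * C.B j at h
  rw [B_P] at h
  exact left_eq_add.mp h

theorem Q_B (j : Fin M) : C.Q * C.B j = C.B j := by
  rw [Q, Matrix.sub_mul, Matrix.one_mul, P_B, sub_zero]

theorem B_Q (j : Fin M) : C.B j * C.Q = 0 := by
  rw [Q, Matrix.mul_sub, Matrix.mul_one, B_P, sub_self]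

theorem c2_P_B (j a b : Fin M) : ∑ m, C.P a m * C.B j m b = 0 := by
  have h1 := congrFun (congrFun (C.P_B j) a) b
  rwa [Matrix.mul_apply] at h1

theorem B_symm (j k l : Fin M) : C.B j l k = C.B k l j := by
  have h0 : ∀ m, ⁅C.Z j, C.Z k⁆ (C.x m) =
      C.B j m k - C.H m j * star (C.x k) - (C.B k m j - C.H m k * star (C.x j)) := fun m => by
    rw [Derivation.commutator_apply, C.Z_x, C.Z_x, c2_Z_H, c2_Z_H]
  have h1 := C.c2_tan ((C.vf_Z j).lie (C.vf_Z k)) l
  simp only [h0, mul_sub, Finset.sum_sub_distrib, ← mul_assoc, ← Finset.sum_mul,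
    c2_P_H, c2_P_B] at h1
  linear_combination -h1

theorem c2_B_x (j a : Fin M) : ∑ m, C.B j a m * C.x m = 0 := by
  have h1 := congrArg (C.Z j) (C.c2_P_x a)
  simp only [map_sum, Derivation.leibniz, smul_eq_mul, C.Z_x, Finset.sum_add_distrib, c2_P_H,
    ← c2_B_apply] at h1
  rw [← add_eq_left.mp h1]
  exact Finset.sum_congr rfl fun m _ => mul_comm _ _

theorem B_x (j : Fin M) : C.B j *ᵥ C.x = 0 := by
  funext a
  simpa only [Matrix.mulVec, dotProduct, Pi.zero_apply] using C.c2_B_x j a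

theorem B_xx (j : Fin M) : C.B j * C.xx = 0 := by
  ext a b
  simp only [Matrix.mul_apply, c2_xx_apply, ← mul_assoc, ← Finset.sum_mul, c2_B_x, zero_mul,
    Matrix.zero_apply]

theorem B_H (j : Fin M) : C.B j * C.H = C.B j := by
  rw [H, Matrix.mul_sub, B_P, B_xx, sub_zero]

theorem sum_x_B (a b : Fin M) : ∑ j, C.x j * C.B j a b = 0 := by
  have h := congrArg (fun δ : Derivation ℂ 𝒜 𝒜 => δ (C.P a b)) C.sum_x_Z
  simpa only [c2_sum_apply, Derivation.smul_apply, smul_eq_mul, Derivation.zero_apply,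
    c2_B_apply] using h

theorem c2_T_xx (a b : Fin M) : C.T (C.xx a b) = 0 := by
  rw [c2_xx_apply, Derivation.leibniz, C.T_xb, C.T_x, smul_eq_mul, smul_eq_mul, mul_neg,
    mul_smul_comm, mul_smul_comm, mul_comm, neg_add_cancel]

theorem T_xx : C.xx.map C.T = 0 := by
  ext a b
  rw [Matrix.map_apply, c2_T_xx, Matrix.zero_apply]

theorem T_P : C.P.map C.T = 0 := by
  have h0 : ∀ k m, ⁅C.T, C.Z k⁆ (C.x m) = C.T (C.P m k) - Complex.I • C.H m k := fun k m => by
    rw [Derivation.commutator_apply, C.Z_x, C.T_x, Derivation.map_smul, C.Z_x]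
    rw [c2_H_apply C m k, map_sub, c2_T_xx, sub_zero]
  have h1 : C.P * C.P.map C.T = C.P.map C.T := by
    ext a k
    have h1 := C.c2_tan (C.vf_T.lie (C.vf_Z k)) a
    simp only [h0, mul_sub, Finset.sum_sub_distrib, mul_smul_comm, ← Finset.smul_sum, c2_P_H,
      sub_left_inj] at h1
    simpa only [Matrix.mul_apply, Matrix.map_apply] using h1
  have h2 := map_der_mul C.T C.P C.P
  rw [C.P_mul, h1] at h2
  have h3 : C.P.map C.T * C.P = 0 := right_eq_add.mp h2
  have h4 : (C.P.map C.T)ᴴ = C.P.map C.T := by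
    ext a b
    rw [Matrix.conjTranspose_apply, Matrix.map_apply, Matrix.map_apply, ← C.T_star, c2_P_star]
  have h5 := congrArg Matrix.conjTranspose h3
  rw [Matrix.conjTranspose_mul, h4, C.P_star, h1, Matrix.conjTranspose_zero] at h5
  exact h5

theorem c2_T_H (a b : Fin M) : C.T (C.H a b) = 0 := by
  have h := congrFun (congrFun C.T_P a) b
  rw [Matrix.map_apply, Matrix.zero_apply] at h
  rw [c2_H_apply, map_sub, h, c2_T_xx, sub_zero]

theorem T_H : C.H.map C.T = 0 := by
  ext a b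
  rw [Matrix.map_apply, c2_T_H, Matrix.zero_apply]

theorem Θ_star : C.Θᴴ = C.Θ := by
  ext j k
  simp only [Matrix.conjTranspose_apply, Θ, Matrix.of_apply, star_sum, star_mul, star_star]

theorem c2_B_H (j a b : Fin M) : ∑ l, C.B j a l * C.H l b = C.B j a b := by
  have h1 := congrFun (congrFun (C.B_H j) a) b
  rwa [Matrix.mul_apply] at h1

theorem c2_vf_smul {δ : Derivation ℂ 𝒜 𝒜} (h : C.VF δ) (c : ℂ) : C.VF (c • δ) := by
  have h1 := h.smul (c • (1 : 𝒜))
  rwa [smul_one_smul] at h1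

theorem c2_vf_neg {δ : Derivation ℂ 𝒜 𝒜} (h : C.VF δ) : C.VF (-δ) := by
  have h1 := (VF.zero (C := C)).sub h
  rwa [zero_sub] at h1

theorem lie_Zb_Zb (j k : Fin M) : ⁅C.Zb j, C.Zb k⁆ = C.x j • C.Zb k - C.x k • C.Zb j := by
  refine VF.ext ((C.vf_Zb j).lie (C.vf_Zb k))
    (((C.vf_Zb k).smul _).sub ((C.vf_Zb j).smul _)) (fun m => ?_) (fun m => ?_)
  · simp only [Derivation.commutator_apply, Derivation.sub_apply, Derivation.smul_apply, C.Zb_x,
      map_zero, smul_zero]
  · simp only [Derivation.commutator_apply, Derivation.sub_apply, Derivation.smul_apply, C.Zb_xb,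
      c2_Zb_H, smul_eq_mul]
    rw [C.B_symm j k m]
    ring

theorem lie_Zb_Z (j k : Fin M) : ⁅C.Zb j, C.Z k⁆ = ∑ l, star (C.B j k l) • C.Z l -
    ∑ l, C.B k j l • C.Zb l + (Complex.I • C.H j k) • C.T := by
  refine VF.ext ((C.vf_Zb j).lie (C.vf_Z k))
    (((VF.sum _ fun l _ => (C.vf_Z l).smul _).sub (VF.sum _ fun l _ => (C.vf_Zb l).smul _)).add
      (C.vf_T.smul _)) (fun m => ?_) (fun m => ?_)
  · have h : ∑ l, star (C.B j k l) * C.H m l = star (C.B j k m) := by
      rw [← C.c2_B_H j k m, star_sum]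
      exact Finset.sum_congr rfl fun l _ => by rw [star_mul, c2_H_star, mul_comm]
    rw [c2_lie_Zb_Z_x]
    simp only [Derivation.add_apply, Derivation.sub_apply, c2_sum_apply, Derivation.smul_apply,
      C.Z_x, C.Zb_x, C.T_x, smul_eq_mul, mul_zero, Finset.sum_const_zero, sub_zero, h,
      smul_mul_smul_comm, Complex.I_mul_I, neg_smul, one_smul]
    ring
  · simp only [Derivation.commutator_apply, Derivation.add_apply, Derivation.sub_apply,
      c2_sum_apply, Derivation.smul_apply, C.Z_xb, C.Zb_xb, C.T_xb, smul_eq_mul, mul_zero,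
      Finset.sum_const_zero, map_zero, c2_B_H, c2_Z_H, mul_neg,
      smul_mul_smul_comm, Complex.I_mul_I, neg_smul, one_smul]
    ring

theorem lie_T_Z (j : Fin M) : ⁅C.T, C.Z j⁆ = -(Complex.I • C.Z j) := by
  refine VF.ext (C.vf_T.lie (C.vf_Z j)) (C.c2_vf_neg (C.c2_vf_smul (C.vf_Z j) _))
    (fun m => ?_) (fun m => ?_)
  · simp only [Derivation.commutator_apply, Derivation.neg_apply, Derivation.smul_apply, C.Z_x,
      C.T_x, Derivation.map_smul, c2_T_H, zero_sub]
  · simp only [Derivation.commutator_apply, Derivation.neg_apply, Derivation.smul_apply, C.Z_xb,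
      C.T_xb, map_neg, Derivation.map_smul, map_zero, smul_zero, neg_zero, sub_zero]

theorem lie_T_Zb (j : Fin M) : ⁅C.T, C.Zb j⁆ = Complex.I • C.Zb j := by
  refine VF.ext (C.vf_T.lie (C.vf_Zb j)) (C.c2_vf_smul (C.vf_Zb j) _)
    (fun m => ?_) (fun m => ?_)
  · simp only [Derivation.commutator_apply, Derivation.smul_apply, C.Zb_x,
      C.T_x, Derivation.map_smul, map_zero, smul_zero, sub_zero]
  · simp only [Derivation.commutator_apply, Derivation.smul_apply, C.Zb_xb,
      C.T_xb, map_neg, Derivation.map_smul, c2_T_H, zero_sub, neg_neg]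

theorem c2_Wb_xb (l : Fin M) : cj (C.W l) (star (C.x l)) = C.W l (C.x l) := by
  rw [cj_apply, star_star, C.W_x, star_sub, c2_P_star, star_smul, star_mul, star_star]
  simp

theorem int_T (f : 𝒜) : C.int (C.T f) = 0 := by
  have h := C.div _ (C.vf_T.smul f)
  have h1 : ∑ l, (C.W l ((f • C.T) (C.x l)) + cj (C.W l) ((f • C.T) (star (C.x l)))) = C.T f := by
    simp only [Derivation.smul_apply, C.T_x, C.T_xb, smul_eq_mul, mul_neg, map_neg,
      Derivation.leibniz, Derivation.map_smul, c2_Wb_xb]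
    conv_rhs => rw [T]
    simp only [c2_sum_apply, Derivation.sub_apply, Derivation.smul_apply, smul_eq_mul]
    exact Finset.sum_congr rfl fun l _ => by ring
  rwa [h1] at h

theorem int_Z (k : Fin M) (f : 𝒜) : C.int (C.Z k f) = n * C.int (star (C.x k) * f) := by
  have h := C.div _ ((C.vf_Z k).smul f)
  have a1 : ∑ l, C.H l k * C.Z l f = C.Z k f := by
    have h2 := congrArg (fun δ : Derivation ℂ 𝒜 𝒜 => δ f) (C.sum_H_Z k)
    simpa only [c2_sum_apply, Derivation.smul_apply, smul_eq_mul] using h2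
  have a2 : ∑ l, star (C.x l) * C.H l k = 0 := by
    have h2 := congrFun C.xb_H k
    simpa only [Matrix.vecMul, dotProduct, Pi.zero_apply] using h2
  have a3 : ∑ l, C.B l l k = 0 := by
    have h2 := congrArg (C.Z k) C.P_trace
    rw [Derivation.map_natCast, Matrix.trace, map_sum] at h2
    rw [← h2]
    exact Finset.sum_congr rfl fun l _ => C.B_symm l k l
  have a4 : ∑ l, C.H l l = (n : 𝒜) := C.H_trace
  have h1 : ∑ l, (C.W l ((f • C.Z k) (C.x l)) + cj (C.W l) ((f • C.Z k) (star (C.x l)))) =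
      C.Z k f - (n : ℂ) • (star (C.x k) * f) := by
    have e : ∀ l, C.W l ((f • C.Z k) (C.x l)) + cj (C.W l) ((f • C.Z k) (star (C.x l))) =
        C.H l k * C.Z l f + f * C.B l l k - C.H l l * (star (C.x k) * f) -
          star (C.x l) * C.H l k * ((Complex.I / 2) • C.T f) := fun l => by
      simp only [Derivation.smul_apply, C.Z_x, C.Z_xb, smul_eq_mul, mul_zero, map_zero, add_zero]
      rw [C.W_eq]
      simp only [Derivation.sub_apply, Derivation.smul_apply, Derivation.leibniz, smul_eq_mul,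
        c2_T_H, c2_Z_H, Algebra.smul_def]
      ring
    simp only [e, Finset.sum_sub_distrib, Finset.sum_add_distrib, ← Finset.sum_mul,
      ← Finset.mul_sum, a1, a2, a3, a4]
    rw [Algebra.smul_def (n : ℂ), map_natCast]
    ring
  rw [h1, map_sub, map_smul, smul_eq_mul] at h
  exact sub_eq_zero.mp h

end CR

end Pool.Agent.HCF
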