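import Pool.Agent.P.MP_f644fa_ag.C3a

/-! First order operators. -/

noncomputable section
namespace Pool.Agent.HCF
open Finset Module Matrix

variable {𝒜 : Type} [CommRing 𝒜] [Algebra ℂ 𝒜] [StarRing 𝒜] [StarModule ℂ 𝒜] {M n : ℕ}
  {ι : Type} [Fintype ι] [DecidableEq ι]

theorem c3_alg {R : Type} [Ring R] [Algebra ℂ R] (z zb t a b : R) :
    (2 : ℂ) • ((z - a * t) * (zb + b * t) + (zb + b * t) * (z - a * t)) =
      (4 : ℂ) • (z * zb) + (4 : ℂ) • (b * z * t) - (4 : ℂ) • (a * zb * t) -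
        (4 : ℂ) • (a * b * (t * t)) +
      ((4 : ℂ) • ((z * b - b * z) * t) - (4 : ℂ) • (a * (t * zb - zb * t)) -
        (4 : ℂ) • (a * ((t * b - b * t) * t)) -
        (2 : ℂ) • ((z - a * t) * (zb + b * t) - (zb + b * t) * (z - a * t))) := by
  simp only [mul_add, add_mul, mul_sub, sub_mul, mul_assoc]
  module

namespace CR
variable {C : CR M n 𝒜} {L : End ℂ (ι → 𝒜)}

theorem d1_mE (A : Matrix ι ι 𝒜) : mE A ∈ D1 C.W ι :=
  Submodule.subset_span ⟨A, Or.inl rfl⟩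

theorem c3_W (A : Matrix ι ι 𝒜) (l : Fin M) : mE A * dE ι (C.W l) ∈ D1 C.W ι :=
  Submodule.subset_span ⟨A, Or.inr ⟨l, Or.inl rfl⟩⟩

theorem c3_Wb (A : Matrix ι ι 𝒜) (l : Fin M) : mE A * dE ι (cj (C.W l)) ∈ D1 C.W ι :=
  Submodule.subset_span ⟨A, Or.inr ⟨l, Or.inr rfl⟩⟩

theorem d1_left (A : Matrix ι ι 𝒜) (h : L ∈ D1 C.W ι) : mE A * L ∈ D1 C.W ι := by
  induction h using Submodule.span_induction with
  | mem x hx =>
    obtain ⟨B, rfl | ⟨l, rfl | rfl⟩⟩ := hx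
    · rw [← map_mul]; exact d1_mE _
    · rw [← mul_assoc, ← map_mul]; exact c3_W _ l
    · rw [← mul_assoc, ← map_mul]; exact c3_Wb _ l
  | zero => rw [mul_zero]; exact Submodule.zero_mem _
  | add x y _ _ hx hy => rw [mul_add]; exact Submodule.add_mem _ hx hy
  | smul c x _ hx => rw [mul_smul_comm]; exact Submodule.smul_mem _ c hx

theorem d1_right (A : Matrix ι ι 𝒜) (h : L ∈ D1 C.W ι) : L * mE A ∈ D1 C.W ι := by
  induction h using Submodule.span_induction with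
  | mem x hx =>
    obtain ⟨B, rfl | ⟨l, rfl | rfl⟩⟩ := hx
    · rw [← map_mul]; exact d1_mE _
    · rw [mul_assoc, dE_mE, mul_add, ← mul_assoc, ← map_mul, ← map_mul]
      exact Submodule.add_mem _ (c3_W _ l) (d1_mE _)
    · rw [mul_assoc, dE_mE, mul_add, ← mul_assoc, ← map_mul, ← map_mul]
      exact Submodule.add_mem _ (c3_Wb _ l) (d1_mE _)
  | zero => rw [zero_mul]; exact Submodule.zero_mem _
  | add x y _ _ hx hy => rw [add_mul]; exact Submodule.add_mem _ hx hy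
  | smul c x _ hx => rw [smul_mul_assoc]; exact Submodule.smul_mem _ c hx

theorem VF.d1 {δ : Derivation ℂ 𝒜 𝒜} (h : C.VF δ) : dE ι δ ∈ D1 C.W ι := by
  have h' : δ = ∑ m, (δ (C.x m) • C.W m + δ (star (C.x m)) • Pool.Agent.HCF.cj (C.W m)) := h
  rw [h', dE_sum]
  refine Submodule.sum_mem _ fun m _ => ?_
  rw [dE_add, dE_smul, dE_smul]
  exact Submodule.add_mem _ (c3_W _ m) (c3_Wb _ m)

theorem c3_comm (δ : Derivation ℂ 𝒜 𝒜) (A : Matrix ι ι 𝒜) {δ' : Derivation ℂ 𝒜 𝒜}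
    (h : C.VF δ') : (dE ι δ * mE A - mE A * dE ι δ) * dE ι δ' ∈ D1 C.W ι := by
  rw [dE_mE, add_sub_cancel_left]
  exact d1_left _ h.d1

theorem c3_sum_Z (C : CR M n 𝒜) (ι : Type) [Fintype ι] [DecidableEq ι] :
    ∑ l, mE (((Complex.I / 2) • C.x l) • (1 : Matrix ι ι 𝒜)) * dE ι (C.Z l) = 0 := by
  simp only [← dE_smul]
  rw [← dE_sum]
  have : ∑ l, ((Complex.I / 2) • C.x l) • C.Z l = (Complex.I / 2) • ∑ l, C.x l • C.Z l := by
    rw [Finset.smul_sum]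
    exact Finset.sum_congr rfl fun l _ => smul_assoc _ _ _
  rw [this, C.sum_x_Z, smul_zero, dE_zero]

theorem c3_sum_Zb (C : CR M n 𝒜) (ι : Type) [Fintype ι] [DecidableEq ι] :
    ∑ l, mE (((Complex.I / 2) • star (C.x l)) • (1 : Matrix ι ι 𝒜)) * dE ι (C.Zb l) = 0 := by
  simp only [← dE_smul]
  rw [← dE_sum]
  have : ∑ l, ((Complex.I / 2) • star (C.x l)) • C.Zb l =
      (Complex.I / 2) • ∑ l, star (C.x l) • C.Zb l := by
    rw [Finset.smul_sum]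
    exact Finset.sum_congr rfl fun l _ => smul_assoc _ _ _
  rw [this, C.sum_xb_Zb, smul_zero, dE_zero]

theorem c3_sum_ab (C : CR M n 𝒜) (ι : Type) [Fintype ι] [DecidableEq ι] :
    ∑ l, mE (((Complex.I / 2) • star (C.x l)) • (1 : Matrix ι ι 𝒜)) *
      mE (((Complex.I / 2) • C.x l) • (1 : Matrix ι ι 𝒜)) =
      (-(4 : ℂ)⁻¹) • (1 : End ℂ (ι → 𝒜)) := by
  simp only [← map_mul]
  rw [← map_sum]
  have h1 : ∀ l, (((Complex.I / 2) • star (C.x l)) • (1 : Matrix ι ι 𝒜)) *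
      (((Complex.I / 2) • C.x l) • (1 : Matrix ι ι 𝒜)) =
      (-(4 : ℂ)⁻¹) • ((star (C.x l) * C.x l) • (1 : Matrix ι ι 𝒜)) := by
    intro l
    have h2 : Complex.I / 2 * (Complex.I / 2) = -(4 : ℂ)⁻¹ := by
      linear_combination (4 : ℂ)⁻¹ * Complex.I_mul_I
    rw [smul_mul_smul_comm, mul_one, smul_mul_smul_comm, h2, smul_assoc]
  simp only [h1]
  rw [← Finset.smul_sum, ← Finset.sum_smul, C.x_norm, one_smul, map_smul, map_one]

theorem lap_d1 (C : CR M n 𝒜) (ι : Type) [Fintype ι] [DecidableEq ι] : Lap C.W ι -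
    ((4 : ℂ) • ∑ l, dE ι (C.Z l) * dE ι (C.Zb l) + dE ι C.T * dE ι C.T) ∈ D1 C.W ι := by
  set a : Fin M → End ℂ (ι → 𝒜) :=
    fun l => mE (((Complex.I / 2) • star (C.x l)) • (1 : Matrix ι ι 𝒜)) with ha
  set b : Fin M → End ℂ (ι → 𝒜) :=
    fun l => mE (((Complex.I / 2) • C.x l) • (1 : Matrix ι ι 𝒜)) with hb
  set t := dE ι C.T with ht
  set z : Fin M → End ℂ (ι → 𝒜) := fun l => dE ι (C.Z l) with hz
  set zb : Fin M → End ℂ (ι → 𝒜) := fun l => dE ι (C.Zb l) with hzb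
  have hW : ∀ l, dE ι (C.W l) = z l - a l * t := fun l => by
    rw [C.W_eq l, dE_sub, dE_smul]
  have hWb : ∀ l, dE ι (cj (C.W l)) = zb l + b l * t := fun l => by
    rw [C.Wb_eq l, dE_add, dE_smul]
  set r : Fin M → End ℂ (ι → 𝒜) := fun l =>
    (4 : ℂ) • ((z l * b l - b l * z l) * t) - (4 : ℂ) • (a l * (t * zb l - zb l * t)) -
        (4 : ℂ) • (a l * ((t * b l - b l * t) * t)) -
        (2 : ℂ) • ((z l - a l * t) * (zb l + b l * t) - (zb l + b l * t) * (z l - a l * t))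
    with hr
  have hrm : ∀ l, r l ∈ D1 C.W ι := fun l => by
    refine Submodule.sub_mem _ (Submodule.sub_mem _ (Submodule.sub_mem _ ?_ ?_) ?_) ?_
    · exact Submodule.smul_mem _ _ (c3_comm _ _ C.vf_T)
    · refine Submodule.smul_mem _ _ (d1_left _ ?_)
      have := VF.d1 (ι := ι) (C.vf_T.lie (C.vf_Zb l))
      rwa [dE_lie] at this
    · exact Submodule.smul_mem _ _ (d1_left _ (c3_comm _ _ C.vf_T))
    · refine Submodule.smul_mem _ _ ?_
      have := VF.d1 (ι := ι) (C := C) (C.vf_br' l l)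
      rwa [dE_lie, hW, hWb] at this
  have h1 : ∑ l, b l * z l = 0 := c3_sum_Z C ι
  have h2 : ∑ l, a l * zb l = 0 := c3_sum_Zb C ι
  have h3 : ∑ l, a l * b l = (-(4 : ℂ)⁻¹) • (1 : End ℂ (ι → 𝒜)) := c3_sum_ab C ι
  have key : Lap C.W ι = (4 : ℂ) • ∑ l, z l * zb l + (4 : ℂ) • ((∑ l, b l * z l) * t) -
      (4 : ℂ) • ((∑ l, a l * zb l) * t) - (4 : ℂ) • ((∑ l, a l * b l) * (t * t)) + ∑ l, r l := by
    simp only [Lap, Finset.sum_mul, Finset.smul_sum, ← Finset.sum_add_distrib,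
      ← Finset.sum_sub_distrib]
    refine Finset.sum_congr rfl fun l _ => ?_
    rw [hW, hWb, c3_alg]
  have h4 : Lap C.W ι - ((4 : ℂ) • ∑ l, z l * zb l + t * t) = ∑ l, r l := by
    rw [key, h1, h2, h3, smul_mul_assoc, one_mul, smul_smul, zero_mul]
    have : (4 : ℂ) * -(4 : ℂ)⁻¹ = -1 := by norm_num
    rw [this]
    module
  rw [h4]
  exact Submodule.sum_mem _ fun l _ => hrm l

end CR

end Pool.Agent.HCF
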