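import Pool.Agent.P.MP_f644fa_ag.C2

/-! Operators on sections, adjoints, first order operators, anticommutation relations. -/

noncomputable section
namespace Pool.Agent.HCF
open Finset Module Matrix

variable {𝒜 : Type} [CommRing 𝒜] [Algebra ℂ 𝒜] [StarRing 𝒜] [StarModule ℂ 𝒜] {M n : ℕ}
  {ι : Type} [Fintype ι] [DecidableEq ι]

theorem dE_mE (δ : Derivation ℂ 𝒜 𝒜) (A : Matrix ι ι 𝒜) :
    dE ι δ * mE A = mE A * dE ι δ + mE (A.map δ) := by
  refine LinearMap.ext fun w => funext fun J => ?_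
  simp only [Module.End.mul_apply, LinearMap.add_apply, mE_apply, dE_apply, Pi.add_apply,
    Matrix.mulVec, dotProduct, map_sum, Derivation.leibniz, smul_eq_mul, Matrix.map_apply,
    ← Finset.sum_add_distrib]
  exact Finset.sum_congr rfl fun K _ => by ring
theorem dE_mulVec (δ : Derivation ℂ 𝒜 𝒜) (A : Matrix ι ι 𝒜) (w : ι → 𝒜) :
    dE ι δ (A *ᵥ w) = A *ᵥ dE ι δ w + A.map δ *ᵥ w := LinearMap.congr_fun (dE_mE δ A) w
theorem dE_fsmul (δ : Derivation ℂ 𝒜 𝒜) (f : 𝒜) (w : ι → 𝒜) :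
    dE ι δ (f • w) = f • dE ι δ w + δ f • w := by
  funext J
  simp only [dE_apply, Pi.add_apply, Pi.smul_apply, smul_eq_mul, Derivation.leibniz]
  ring
theorem dE_zero : dE ι (0 : Derivation ℂ 𝒜 𝒜) = 0 := LinearMap.ext fun _ => funext fun _ => rfl
theorem dE_add (δ δ' : Derivation ℂ 𝒜 𝒜) : dE ι (δ + δ') = dE ι δ + dE ι δ' := LinearMap.ext fun _ => funext fun _ => rfl
theorem dE_sub (δ δ' : Derivation ℂ 𝒜 𝒜) : dE ι (δ - δ') = dE ι δ - dE ι δ' := LinearMap.ext fun _ => funext fun _ => rfl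
theorem dE_smul (f : 𝒜) (δ : Derivation ℂ 𝒜 𝒜) :
    dE ι (f • δ) = mE (f • (1 : Matrix ι ι 𝒜)) * dE ι δ := by
  refine LinearMap.ext fun w => ?_
  rw [Module.End.mul_apply, mE_apply, Matrix.smul_mulVec, Matrix.one_mulVec]
  rfl
theorem dE_csmul (c : ℂ) (δ : Derivation ℂ 𝒜 𝒜) : dE ι (c • δ) = c • dE ι δ := LinearMap.ext fun _ => funext fun _ => rfl
theorem dE_sum {κ : Type} (s : Finset κ) (δ : κ → Derivation ℂ 𝒜 𝒜) :
    dE ι (∑ i ∈ s, δ i) = ∑ i ∈ s, dE ι (δ i) := by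
  classical
  induction s using Finset.induction_on with
  | empty => rw [Finset.sum_empty, Finset.sum_empty, dE_zero]
  | insert a s ha ih => rw [Finset.sum_insert ha, Finset.sum_insert ha, dE_add, ih]
theorem dE_lie (δ δ' : Derivation ℂ 𝒜 𝒜) :
    dE ι ⁅δ, δ'⁆ = dE ι δ * dE ι δ' - dE ι δ' * dE ι δ :=   LinearMap.ext fun w => funext fun J => Derivation.commutator_apply (w J)
theorem map_smul_one (δ : Derivation ℂ 𝒜 𝒜) (f : 𝒜) :
    (f • (1 : Matrix ι ι 𝒜)).map δ = δ f • (1 : Matrix ι ι 𝒜) := by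
  ext i j
  by_cases h : i = j <;> simp [h]

theorem hp_mulVec (A : Matrix ι ι 𝒜) (u w : ι → 𝒜) : hp (A *ᵥ u) w = hp u (Aᴴ *ᵥ w) := by
  simp only [hp, Matrix.mulVec, dotProduct, star_sum, star_mul', Matrix.conjTranspose_apply,
    Finset.sum_mul, Finset.mul_sum]
  rw [Finset.sum_comm]
  exact Finset.sum_congr rfl fun _ _ => Finset.sum_congr rfl fun _ _ => by ring
theorem hp_add_left (u u' w : ι → 𝒜) : hp (u + u') w = hp u w + hp u' w := by
  simp only [hp, Pi.add_apply, star_add, add_mul, Finset.sum_add_distrib]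
theorem hp_add_right (u w w' : ι → 𝒜) : hp u (w + w') = hp u w + hp u w' := by
  simp only [hp, Pi.add_apply, mul_add, Finset.sum_add_distrib]
theorem hp_smul_left (f : 𝒜) (u w : ι → 𝒜) : hp (f • u) w = star f * hp u w := by
  simp only [hp, Pi.smul_apply, smul_eq_mul, star_mul', Finset.mul_sum, mul_assoc]
theorem hp_smul_right (f : 𝒜) (u w : ι → 𝒜) : hp u (f • w) = f * hp u w := by
  simp only [hp, Pi.smul_apply, smul_eq_mul, Finset.mul_sum, mul_left_comm]
theorem hp_sum_left {κ : Type} (s : Finset κ) (u : κ → ι → 𝒜) (w : ι → 𝒜) :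
    hp (∑ i ∈ s, u i) w = ∑ i ∈ s, hp (u i) w := by
  simp only [hp, Finset.sum_apply, star_sum, Finset.sum_mul]
  exact Finset.sum_comm
theorem hp_sum_right {κ : Type} (s : Finset κ) (u : ι → 𝒜) (w : κ → ι → 𝒜) :
    hp u (∑ i ∈ s, w i) = ∑ i ∈ s, hp u (w i) := by
  simp only [hp, Finset.sum_apply, Finset.mul_sum]
  exact Finset.sum_comm
theorem star_hp (u w : ι → 𝒜) : star (hp u w) = hp w u := by
  simp only [hp, star_sum, star_mul', star_star, mul_comm]
theorem der_hp (δ : Derivation ℂ 𝒜 𝒜) (u w : ι → 𝒜) :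
    δ (hp u w) = hp (dE ι (cj δ) u) w + hp u (dE ι δ w) := by
  simp only [hp, map_sum, Derivation.leibniz, smul_eq_mul, dE_apply, cj_apply, star_star,
    ← Finset.sum_add_distrib]
  exact Finset.sum_congr rfl fun K _ => by ring

namespace CR
variable (C : CR M n 𝒜)

theorem ip_add_left (u u' w : ι → 𝒜) : C.ip (u + u') w = C.ip u w + C.ip u' w := by
  simp only [ip, ipE, hp_add_left, map_add]
theorem ip_add_right (u w w' : ι → 𝒜) : C.ip u (w + w') = C.ip u w + C.ip u w' := by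
  simp only [ip, ipE, hp_add_right, map_add]
theorem ip_sub_left (u u' w : ι → 𝒜) : C.ip (u - u') w = C.ip u w - C.ip u' w := by
  rw [eq_sub_iff_add_eq, ← ip_add_left, sub_add_cancel]
theorem ip_sub_right (u w w' : ι → 𝒜) : C.ip u (w - w') = C.ip u w - C.ip u w' := by
  rw [eq_sub_iff_add_eq, ← ip_add_right, sub_add_cancel]
theorem ip_smul_left (c : ℂ) (u w : ι → 𝒜) : C.ip (c • u) w = star c * C.ip u w := by
  simp only [ip, ipE, hp, Pi.smul_apply, star_smul, smul_mul_assoc, ← Finset.smul_sum, map_smul,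
    smul_eq_mul]
theorem ip_smul_right (c : ℂ) (u w : ι → 𝒜) : C.ip u (c • w) = c * C.ip u w := by
  simp only [ip, ipE, hp, Pi.smul_apply, mul_smul_comm, ← Finset.smul_sum, map_smul,
    smul_eq_mul]
theorem ip_zero_left (w : ι → 𝒜) : C.ip 0 w = 0 := by
  simp only [ip, ipE, hp, Pi.zero_apply, star_zero, zero_mul, Finset.sum_const_zero, map_zero]
theorem ip_zero_right (w : ι → 𝒜) : C.ip w 0 = 0 := by
  simp only [ip, ipE, hp, Pi.zero_apply, mul_zero, Finset.sum_const_zero, map_zero]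
theorem ip_sum_left {κ : Type} (s : Finset κ) (u : κ → ι → 𝒜) (w : ι → 𝒜) :
    C.ip (∑ i ∈ s, u i) w = ∑ i ∈ s, C.ip (u i) w := by
  simp only [ip, ipE, hp_sum_left, map_sum]
theorem ip_sum_right {κ : Type} (s : Finset κ) (u : ι → 𝒜) (w : κ → ι → 𝒜) :
    C.ip u (∑ i ∈ s, w i) = ∑ i ∈ s, C.ip u (w i) := by
  simp only [ip, ipE, hp_sum_right, map_sum]
theorem star_ip (u w : ι → 𝒜) : star (C.ip u w) = C.ip w u := by
  simp only [ip, ipE, ← C.int_star, star_hp]
theorem ip_mulVec (A : Matrix ι ι 𝒜) (u w : ι → 𝒜) : C.ip (A *ᵥ u) w = C.ip u (Aᴴ *ᵥ w) := by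
  simp only [ip, ipE, hp_mulVec]
theorem nrm_nonneg (w : ι → 𝒜) : 0 ≤ C.nrm w := by
  simp only [nrm, ip, ipE, hp, map_sum, Complex.re_sum]
  exact Finset.sum_nonneg fun J _ => C.int_nonneg _
theorem eq_zero_of_nrm {w : ι → 𝒜} (h : C.nrm w = 0) : w = 0 := by
  simp only [nrm, ip, ipE, hp, map_sum, Complex.re_sum] at h
  funext J
  exact C.int_def _ ((Finset.sum_eq_zero_iff_of_nonneg fun J _ => C.int_nonneg _).1 h J
    (Finset.mem_univ J))
theorem nrm_add (u w : ι → 𝒜) : C.nrm (u + w) = C.nrm u + C.nrm w + 2 * (C.ip u w).re := by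
  have h : (C.ip w u).re = (C.ip u w).re := by rw [← star_ip]; rfl
  simp only [nrm, ip_add_left, ip_add_right, Complex.add_re, h]
  ring
theorem nrm_sub (u w : ι → 𝒜) : C.nrm (u - w) = C.nrm u + C.nrm w - 2 * (C.ip u w).re := by
  have h : (C.ip w u).re = (C.ip u w).re := by rw [← star_ip]; rfl
  simp only [nrm, ip_sub_left, ip_sub_right, Complex.sub_re, h]
  ring
theorem nrm_smul (c : ℝ) (w : ι → 𝒜) : C.nrm ((c : ℂ) • w) = c ^ 2 * C.nrm w := by
  rw [nrm, nrm, ip_smul_left, ip_smul_right, Complex.star_def, Complex.conj_ofReal,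
    Complex.re_ofReal_mul, Complex.re_ofReal_mul]
  ring

variable {C} {L L' L₁ L₁' : End ℂ (ι → 𝒜)}

theorem Adj.symm (h : C.Adj L L') : C.Adj L' L := fun u w => by
  rw [← star_ip, ← h, star_ip]
theorem Adj.add (h : C.Adj L L') (h₁ : C.Adj L₁ L₁') : C.Adj (L + L₁) (L' + L₁') := fun u w => by
  rw [LinearMap.add_apply, LinearMap.add_apply, ip_add_left, ip_add_right, h, h₁]
theorem Adj.sub (h : C.Adj L L') (h₁ : C.Adj L₁ L₁') : C.Adj (L - L₁) (L' - L₁') := fun u w => by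
  rw [LinearMap.sub_apply, LinearMap.sub_apply, ip_sub_left, ip_sub_right, h, h₁]
theorem Adj.neg (h : C.Adj L L') : C.Adj (-L) (-L') := fun u w => by
  rw [LinearMap.neg_apply, LinearMap.neg_apply, ← zero_sub, ← zero_sub (L' w), ip_sub_left,
    ip_sub_right, h, ip_zero_left, ip_zero_right]
theorem Adj.mul (h : C.Adj L L') (h₁ : C.Adj L₁ L₁') : C.Adj (L * L₁) (L₁' * L') := fun u w => by
  rw [Module.End.mul_apply, Module.End.mul_apply, h, h₁]
theorem Adj.smul (h : C.Adj L L') (c : ℂ) : C.Adj (c • L) (star c • L') := fun u w => by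
  rw [LinearMap.smul_apply, LinearMap.smul_apply, ip_smul_left, ip_smul_right, h]
theorem Adj.sum {κ : Type} (s : Finset κ) {N N' : κ → End ℂ (ι → 𝒜)}
    (h : ∀ i ∈ s, C.Adj (N i) (N' i)) : C.Adj (∑ i ∈ s, N i) (∑ i ∈ s, N' i) := fun u w => by
  rw [LinearMap.sum_apply, LinearMap.sum_apply, ip_sum_left, ip_sum_right]
  exact Finset.sum_congr rfl fun i hi => h i hi u w
theorem Adj.unique (h : C.Adj L L') (h₁ : C.Adj L L₁') : L' = L₁' := by
  refine LinearMap.ext fun w => sub_eq_zero.1 (C.eq_zero_of_nrm ?_)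
  rw [nrm, ip_sub_right, ← h, ← h₁, sub_self, Complex.zero_re]
theorem adj_one : C.Adj (1 : End ℂ (ι → 𝒜)) 1 := fun _ _ => rfl
theorem adj_mE (A : Matrix ι ι 𝒜) : C.Adj (mE A) (mE Aᴴ) := fun u w => C.ip_mulVec A u w
theorem adj_T : C.Adj (dE ι C.T) (-dE ι C.T) := fun u w => by
  have h := C.int_T (hp u w)
  rw [der_hp, cj_T, map_add] at h
  rw [LinearMap.neg_apply, ← zero_sub, ip_sub_right, ip_zero_right, zero_sub]
  exact eq_neg_of_add_eq_zero_left h
theorem adj_Zb (k : Fin M) : C.Adj (dE ι (C.Zb k))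
    (-dE ι (C.Z k) + mE (((n : ℂ) • star (C.x k)) • (1 : Matrix ι ι 𝒜))) := fun u w => by
  have h := C.int_Z k (hp u w)
  rw [der_hp, map_add] at h
  rw [LinearMap.add_apply, LinearMap.neg_apply, neg_add_eq_sub, ip_sub_right, mE_apply,
    Matrix.smul_mulVec, Matrix.one_mulVec, smul_assoc, ip_smul_right, eq_sub_iff_add_eq]
  simp only [ip, ipE, hp_smul_right]
  exact h
theorem Wt.adj_Za {s : ℝ} (ω : C.Wt s) (a : ℕ) (k : Fin M) : C.Adj (ω.Za a ι k) (ω.Y a ι k) := by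
  have h := (adj_Zb (C := C) (ι := ι) k).add
    (adj_mE ((((a : ℂ) / 2) • star (ω.φ k)) • (1 : Matrix ι ι 𝒜)))
  have e : star ((a : ℂ) / 2) = (a : ℂ) / 2 := by simp
  rw [Matrix.conjTranspose_smul, Matrix.conjTranspose_one, star_smul, star_star, e, add_assoc,
    ← map_add, ← add_smul] at h
  exact h
theorem Wt.adj_Da {s : ℝ} (ω : C.Wt s) (a : ℕ) (Φ : Car2 M ι 𝒜) :
    C.Adj (ω.Da Φ a) (ω.δa Φ a) := by
  refine Adj.sum _ fun j _ => ?_
  have h := (adj_mE (C := C) (Φ.F.e j)).mul (ω.adj_Za (ι := ι) a j)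
  have h1 : (Φ.F.i j).map (C.Z j) = 0 := by
    ext b d
    have h2 := congrFun (congrFun (Φ.F.const (C.Zb j) j) d) b
    rw [Matrix.map_apply, Matrix.zero_apply] at h2
    rw [Matrix.map_apply, Car.i, Matrix.conjTranspose_apply, Z_star, h2, star_zero,
      Matrix.zero_apply]
  have e : ω.Y a ι j * mE (Φ.F.i j) = mE (Φ.F.i j) * ω.Y a ι j := by
    have h3 := dE_mE (C.Z j) (Φ.F.i j)
    rw [h1, map_zero, add_zero] at h3
    rw [Wt.Y, add_mul, mul_add, ← map_mul, ← map_mul, Matrix.smul_mul, Matrix.mul_smul, one_mul,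
      mul_one]
    congr 1
    exact (Commute.neg_left h3).eq
  rw [← e]
  exact h

end CR

end Pool.Agent.HCF
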