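import Pool.Agent.P.MP_f644fa_ag.C3

/-! Anticommutation relations; the operators `D`, `K` and their commutator. -/

noncomputable section
namespace Pool.Agent.HCF
open Finset Module Matrix

variable {𝒜 : Type} [CommRing 𝒜] [Algebra ℂ 𝒜] [StarRing 𝒜] [StarModule ℂ 𝒜] {M n : ℕ}
  {ι : Type} [Fintype ι] [DecidableEq ι]

omit [Algebra ℂ 𝒜] [StarRing 𝒜] [StarModule ℂ 𝒜] [DecidableEq ι] in
theorem c4_bil (u v : Fin M → Matrix ι ι 𝒜) (a b : Fin M → 𝒜) :
    (∑ j, a j • u j) * (∑ k, b k • v k) + (∑ k, b k • v k) * (∑ j, a j • u j) =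
      ∑ j, ∑ k, (a j * b k) • (u j * v k + v k * u j) := by
  rw [Finset.sum_mul_sum, Finset.sum_mul_sum, Finset.sum_comm (f := fun k j => b k • v k * a j • u j),
    ← Finset.sum_add_distrib]
  refine Finset.sum_congr rfl fun j _ => ?_
  rw [← Finset.sum_add_distrib]
  refine Finset.sum_congr rfl fun k _ => ?_
  rw [smul_mul_smul_comm, smul_mul_smul_comm, mul_comm (b k), smul_add]

omit [StarRing 𝒜] [StarModule ℂ 𝒜] [Fintype ι] [DecidableEq ι] in
theorem c4_map_sum (δ : Derivation ℂ 𝒜 𝒜) {κ : Type} (s : Finset κ) (u : κ → Matrix ι ι 𝒜) :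
    (∑ j ∈ s, u j).map δ = ∑ j ∈ s, (u j).map δ := by
  ext p q
  simp only [Matrix.map_apply, Matrix.sum_apply, map_sum]

omit [StarRing 𝒜] [StarModule ℂ 𝒜] [Fintype ι] [DecidableEq ι] in
theorem c4_map_smul (δ : Derivation ℂ 𝒜 𝒜) (a : 𝒜) {u : Matrix ι ι 𝒜} (h : u.map δ = 0) :
    (a • u).map δ = δ a • u := by
  ext p q
  have h1 : δ (u p q) = 0 := congrFun (congrFun h p) q
  simp only [Matrix.map_apply, Matrix.smul_apply, smul_eq_mul, Derivation.leibniz, h1, mul_zero,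
    zero_add, mul_comm]

omit [StarRing 𝒜] [StarModule ℂ 𝒜] [DecidableEq ι] in
theorem c4_map_mul (δ : Derivation ℂ 𝒜 𝒜) {u v : Matrix ι ι 𝒜} (hu : u.map δ = 0)
    (hv : v.map δ = 0) : (u * v).map δ = 0 := by
  ext p q
  have h1 : ∀ p q, δ (u p q) = 0 := fun p q => congrFun (congrFun hu p) q
  have h2 : ∀ p q, δ (v p q) = 0 := fun p q => congrFun (congrFun hv p) q
  simp only [Matrix.map_apply, Matrix.mul_apply, map_sum, Derivation.leibniz, h1, h2, smul_zero,
    add_zero, Finset.sum_const_zero, Matrix.zero_apply]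

namespace Car
variable (F : Car M ι 𝒜)

theorem i_star (j : Fin M) : (F.i j)ᴴ = F.e j := by
  rw [i, conjTranspose_conjTranspose]
theorem const_i (δ : Derivation ℂ 𝒜 𝒜) (j : Fin M) : (F.i j).map δ = 0 := by
  ext p q
  have h1 : cj δ (F.e j q p) = 0 := congrFun (congrFun (F.const (cj δ) j) q) p
  rw [cj_apply, star_eq_zero] at h1
  exact h1
theorem ii (j k : Fin M) : F.i j * F.i k + F.i k * F.i j = 0 := by
  have h := congrArg conjTranspose (F.ee k j)
  rwa [conjTranspose_add, conjTranspose_mul, conjTranspose_mul, conjTranspose_zero] at h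
theorem ie' (j k : Fin M) : F.i j * F.e k + F.e k * F.i j = if j = k then 1 else 0 := by
  exact F.ie j k
theorem ev_star (a : Fin M → 𝒜) : (F.ev a)ᴴ = F.il fun j => star (a j) := by
  simp only [ev, il, i, conjTranspose_sum, conjTranspose_smul]
theorem il_star (a : Fin M → 𝒜) : (F.il a)ᴴ = F.ev fun j => star (a j) := by
  simp only [ev, il, i, conjTranspose_sum, conjTranspose_smul, conjTranspose_conjTranspose]
theorem ev_ev (a b : Fin M → 𝒜) : F.ev a * F.ev b + F.ev b * F.ev a = 0 := by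
  simp only [ev, c4_bil, F.ee, smul_zero, Finset.sum_const_zero]
theorem ev_sq (a : Fin M → 𝒜) : F.ev a * F.ev a = 0 := by
  have h := F.ev_ev a a
  rw [← two_smul ℂ] at h
  have h2 := congrArg (fun u => (2 : ℂ)⁻¹ • u) h
  simpa only [smul_smul, inv_mul_cancel₀ (two_ne_zero (α := ℂ)), one_smul, smul_zero] using h2
theorem il_il (a b : Fin M → 𝒜) : F.il a * F.il b + F.il b * F.il a = 0 := by
  simp only [il, c4_bil, F.ii, smul_zero, Finset.sum_const_zero]
theorem il_ev (a b : Fin M → 𝒜) :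
    F.il a * F.ev b + F.ev b * F.il a = (∑ j, a j * b j) • 1 := by
  simp only [il, ev, c4_bil, F.ie', smul_ite, smul_zero, Finset.sum_ite_eq, Finset.mem_univ,
    if_true, Finset.sum_smul]
omit [StarModule ℂ 𝒜] in
theorem c4_e (k : Fin M) : F.e k = F.ev (Pi.single k 1) := by
  simp [ev, Pi.single_apply, ite_smul]
omit [StarModule ℂ 𝒜] in
theorem c4_i (k : Fin M) : F.i k = F.il (Pi.single k 1) := by
  simp [il, Pi.single_apply, ite_smul]

theorem il_e (a : Fin M → 𝒜) (k : Fin M) : F.il a * F.e k + F.e k * F.il a = a k • 1 := by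
  rw [F.c4_e, il_ev]
  simp [Pi.single_apply]
theorem i_ev (k : Fin M) (b : Fin M → 𝒜) : F.i k * F.ev b + F.ev b * F.i k = b k • 1 := by
  rw [F.c4_i, il_ev]
  simp [Pi.single_apply]
theorem map_ev (δ : Derivation ℂ 𝒜 𝒜) (a : Fin M → 𝒜) :
    (F.ev a).map δ = F.ev fun j => δ (a j) := by
  simp only [ev, c4_map_sum, c4_map_smul δ _ (F.const δ _)]
theorem map_il (δ : Derivation ℂ 𝒜 𝒜) (a : Fin M → 𝒜) :
    (F.il a).map δ = F.il fun j => δ (a j) := by
  simp only [il, c4_map_sum, c4_map_smul δ _ (F.const_i δ _)]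
theorem map_dG (δ : Derivation ℂ 𝒜 𝒜) (A : Matrix (Fin M) (Fin M) 𝒜) :
    (F.dG A).map δ = F.dG (A.map δ) := by
  simp only [dG, c4_map_sum, c4_map_smul δ _ (c4_map_mul δ (F.const δ _) (F.const_i δ _)),
    Matrix.map_apply]
theorem dG_eq (A : Matrix (Fin M) (Fin M) 𝒜) : F.dG A = ∑ j, F.e j * F.il (A j) := by
  simp only [dG, il, Finset.mul_sum, mul_smul_comm]
theorem dG_eq' (A : Matrix (Fin M) (Fin M) 𝒜) :
    F.dG A = ∑ k, F.ev (fun j => A j k) * F.i k := by
  rw [dG, Finset.sum_comm]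
  simp only [ev, Finset.sum_mul, smul_mul_assoc]
theorem N_eq : F.N = ∑ j, F.e j * F.i j := by
  simp [N, dG, Matrix.one_apply, ite_smul]
theorem dG_zero : F.dG 0 = 0 := by
  simp [dG]
theorem dG_add (A B : Matrix (Fin M) (Fin M) 𝒜) : F.dG (A + B) = F.dG A + F.dG B := by
  simp only [dG, Matrix.add_apply, add_smul, Finset.sum_add_distrib]
theorem dG_sub (A B : Matrix (Fin M) (Fin M) 𝒜) : F.dG (A - B) = F.dG A - F.dG B := by
  simp only [dG, Matrix.sub_apply, sub_smul, Finset.sum_sub_distrib]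
theorem dG_smul (f : 𝒜) (A : Matrix (Fin M) (Fin M) 𝒜) : F.dG (f • A) = f • F.dG A := by
  simp only [dG, Matrix.smul_apply, smul_eq_mul, mul_smul, Finset.smul_sum]
theorem dG_star (A : Matrix (Fin M) (Fin M) 𝒜) : (F.dG A)ᴴ = F.dG Aᴴ := by
  rw [dG, dG, Finset.sum_comm]
  simp only [conjTranspose_sum, conjTranspose_smul, conjTranspose_mul, i,
    conjTranspose_conjTranspose, conjTranspose_apply]
theorem dG_rank_one (a b : Fin M → 𝒜) :
    F.dG (Matrix.of fun j k => a j * b k) = F.ev a * F.il b := by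
  simp only [dG, ev, il, Finset.sum_mul_sum, smul_mul_smul_comm, Matrix.of_apply]
theorem dG_ev (A : Matrix (Fin M) (Fin M) 𝒜) (a : Fin M → 𝒜) :
    F.dG A * F.ev a - F.ev a * F.dG A = F.ev (A *ᵥ a) := by
  rw [dG_eq, Finset.sum_mul, Finset.mul_sum, ← Finset.sum_sub_distrib]
  conv_rhs => rw [ev]
  refine Finset.sum_congr rfl fun j _ => ?_
  have h1 := eq_sub_of_add_eq (F.il_ev (A j) a)
  have h2 : F.e j * F.ev a = -(F.ev a * F.e j) := by
    rw [F.c4_e]
    exact eq_neg_of_add_eq_zero_left (F.ev_ev _ _)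
  rw [mul_assoc, h1, mul_sub, ← mul_assoc (F.e j), h2, mul_smul_comm, mul_one, neg_mul,
    mul_assoc, sub_neg_eq_add, add_sub_cancel_right]
  rfl
theorem dG_il (A : Matrix (Fin M) (Fin M) 𝒜) (a : Fin M → 𝒜) :
    F.dG A * F.il a - F.il a * F.dG A = -F.il (a ᵥ* A) := by
  rw [dG_eq', Finset.sum_mul, Finset.mul_sum, ← Finset.sum_sub_distrib]
  conv_rhs => rw [il, ← Finset.sum_neg_distrib]
  refine Finset.sum_congr rfl fun k _ => ?_
  have h1 := eq_sub_of_add_eq (F.il_ev a fun j => A j k)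
  have h2 : F.i k * F.il a = -(F.il a * F.i k) := by
    rw [F.c4_i]
    exact eq_neg_of_add_eq_zero_left (F.il_il _ _)
  rw [mul_assoc, h2, ← mul_assoc (F.il a), h1, sub_mul, smul_mul_assoc, one_mul, mul_neg,
    mul_assoc, sub_sub_eq_add_sub, neg_add_cancel, zero_sub]
  rfl
omit [StarModule ℂ 𝒜] in
theorem c4_dG_mul (A B : Matrix (Fin M) (Fin M) 𝒜) :
    F.dG (A * B) = ∑ m, F.ev (fun j => A j m) * F.il (B m) := by
  simp only [dG, ev, il, Finset.sum_mul_sum, smul_mul_smul_comm, Matrix.mul_apply,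
    Finset.sum_smul]
  rw [Finset.sum_comm (f := fun m j => ∑ k, (A j m * B m k) • (F.e j * F.i k))]
  exact Finset.sum_congr rfl fun j _ => Finset.sum_comm

theorem dG_dG (A B : Matrix (Fin M) (Fin M) 𝒜) :
    F.dG A * F.dG B - F.dG B * F.dG A = F.dG (A * B - B * A) := by
  rw [dG_sub, c4_dG_mul, F.dG_eq (B * A), F.dG_eq B, Finset.sum_mul, Finset.mul_sum,
    ← Finset.sum_sub_distrib, ← Finset.sum_sub_distrib]
  refine Finset.sum_congr rfl fun j _ => ?_
  have h1 := F.dG_ev A (Pi.single j 1)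
  have h2 := F.dG_il A (B j)
  have e1 : A *ᵥ Pi.single j 1 = fun l => A l j := by
    funext l
    simp
  have e2 : B j ᵥ* A = (B * A) j := rfl
  rw [← F.c4_e, e1] at h1
  rw [e2] at h2
  rw [← h1, ← neg_eq_iff_eq_neg.2 h2]
  noncomm_ring
/-- a projector gives a sum of squares -/
theorem dG_proj {A : Matrix (Fin M) (Fin M) 𝒜} (h : Aᴴ = A) (h2 : A * A = A) :
    F.dG A = ∑ m, (F.il (A m))ᴴ * F.il (A m) := by
  conv_lhs => rw [← h2, c4_dG_mul]
  refine Finset.sum_congr rfl fun m _ => ?_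
  rw [il_star]
  congr 2
  funext j
  exact (congrFun (congrFun h j) m).symm
theorem sum_il_ev {A : Matrix (Fin M) (Fin M) 𝒜} (h : Aᴴ = A) (h2 : A * A = A) :
    ∑ m, F.il (A m) * (F.il (A m))ᴴ = A.trace • 1 - F.dG A := by
  rw [F.dG_proj h h2, eq_sub_iff_add_eq, ← Finset.sum_add_distrib]
  conv_rhs => rw [← h2, Matrix.trace, Finset.sum_smul]
  refine Finset.sum_congr rfl fun m _ => ?_
  rw [il_star, il_ev, Matrix.diag_apply, Matrix.mul_apply]
  congr 1
  exact Finset.sum_congr rfl fun j _ => congrArg _ (congrFun (congrFun h j) m)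
end Car

namespace Car2
variable (Φ : Car2 M ι 𝒜)
theorem c3 (j k : Fin M) : Φ.F.i j * Φ.G.e k = Φ.G.e k * Φ.F.i j := by
  have h := congrArg conjTranspose (Φ.c2 j k)
  rw [conjTranspose_mul, conjTranspose_mul, Car.i_star] at h
  exact h.symm
theorem c4 (j k : Fin M) : Φ.F.i j * Φ.G.i k = Φ.G.i k * Φ.F.i j := by
  have h := congrArg conjTranspose (Φ.c1 j k)
  rw [conjTranspose_mul, conjTranspose_mul] at h
  exact h.symm
theorem e_dG (j : Fin M) (A : Matrix (Fin M) (Fin M) 𝒜) :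
    Φ.F.e j * Φ.G.dG A = Φ.G.dG A * Φ.F.e j := by
  exact Commute.sum_right _ _ _ fun a _ => Commute.sum_right _ _ _ fun b _ =>
    (Commute.mul_right (Φ.c1 j a) (Φ.c2 j b)).smul_right _
theorem i_dG (j : Fin M) (A : Matrix (Fin M) (Fin M) 𝒜) :
    Φ.F.i j * Φ.G.dG A = Φ.G.dG A * Φ.F.i j := by
  exact Commute.sum_right _ _ _ fun a _ => Commute.sum_right _ _ _ fun b _ =>
    (Commute.mul_right (Φ.c3 j a) (Φ.c4 j b)).smul_right _
theorem ev_il (a b : Fin M → 𝒜) : Φ.F.ev a * Φ.G.il b = Φ.G.il b * Φ.F.ev a := by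
  exact Commute.sum_left _ _ _ fun j _ => Commute.smul_left
    (Commute.sum_right _ _ _ fun k _ => Commute.smul_right (Φ.c2 j k) _) _
theorem il_il (a b : Fin M → 𝒜) : Φ.F.il a * Φ.G.il b = Φ.G.il b * Φ.F.il a := by
  exact Commute.sum_left _ _ _ fun j _ => Commute.smul_left
    (Commute.sum_right _ _ _ fun k _ => Commute.smul_right (Φ.c4 j k) _) _
theorem ev_dG (a : Fin M → 𝒜) (A : Matrix (Fin M) (Fin M) 𝒜) :
    Φ.F.ev a * Φ.G.dG A = Φ.G.dG A * Φ.F.ev a := by
  exact Commute.sum_left _ _ _ fun j _ => Commute.smul_left (Φ.e_dG j A) _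
theorem il_dG (a : Fin M → 𝒜) (A : Matrix (Fin M) (Fin M) 𝒜) :
    Φ.F.il a * Φ.G.dG A = Φ.G.dG A * Φ.F.il a := by
  exact Commute.sum_left _ _ _ fun j _ => Commute.smul_left (Φ.i_dG j A) _
theorem dG_dG (A B : Matrix (Fin M) (Fin M) 𝒜) : Φ.F.dG A * Φ.G.dG B = Φ.G.dG B * Φ.F.dG A := by
  exact Commute.sum_left _ _ _ fun j _ => Commute.sum_left _ _ _ fun k _ =>
    Commute.smul_left (Commute.mul_left (Φ.e_dG j B) (Φ.i_dG k B)) _
end Car2

end Pool.Agent.HCF
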