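import Pool.Agent.P.MP_f644fa_ag.C5b

/-! The operator `D` on the subbundle. -/

noncomputable section
namespace Pool.Agent.HCF
open Finset Module Matrix

variable {𝒜 : Type} [CommRing 𝒜] [Algebra ℂ 𝒜] [StarRing 𝒜] [StarModule ℂ 𝒜] {M n : ℕ}
  {ι : Type} [Fintype ι] [DecidableEq ι]

omit [StarModule ℂ 𝒜] in
theorem c5_il_vecMul (F : Car M ι 𝒜) (a : Fin M → 𝒜) (A : Matrix (Fin M) (Fin M) 𝒜) :
    F.il (a ᵥ* A) = ∑ m, a m • F.il (A m) := by
  simp only [Car.il, Matrix.vecMul, dotProduct, Finset.sum_smul, Finset.smul_sum, smul_smul]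
  exact Finset.sum_comm

omit [StarRing 𝒜] [StarModule ℂ 𝒜] in
theorem c5_der_inv (δ : Derivation ℂ 𝒜 𝒜) {σ τ : 𝒜} (h : σ * τ = 1) :
    δ σ = -(σ * σ * δ τ) := by
  have h1 : δ (σ * τ) = 0 := by rw [h]; exact δ.map_one_eq_zero
  rw [δ.leibniz, smul_eq_mul, smul_eq_mul] at h1
  linear_combination σ * h1 - δ σ * h

namespace CR
variable (C : CR M n 𝒜) (Φ : Car2 M ι 𝒜)

variable {C Φ} {w : ι → 𝒜} {r k : ℕ} {p : ℤ}

/-- annihilation by a normal vector -/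
theorem Ann.il_nor (h : C.Ann Φ w) {a : Fin M → 𝒜} (ha : a ᵥ* C.Q = a) :
    Φ.F.il a *ᵥ w = 0 := by
  rw [← ha, c5_il_vecMul, Matrix.sum_mulVec]
  refine Finset.sum_eq_zero fun m _ => ?_
  rw [Matrix.smul_mulVec, h.nor m, smul_zero]

/-- annihilation by a tangent vector in the second family -/
theorem Ann.il_tan (h : C.Ann Φ w) {a : Fin M → 𝒜} (ha : C.P *ᵥ a = a) :
    Φ.G.il a *ᵥ w = 0 := by
  rw [← ha, ← Matrix.vecMul_transpose C.P a, c5_il_vecMul, Matrix.sum_mulVec]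
  refine Finset.sum_eq_zero fun m _ => ?_
  have h1 : Φ.G.il (C.Pᵀ m) *ᵥ w = 0 := h.tan m
  rw [Matrix.smul_mulVec, h1, smul_zero]

theorem Ann.C0 (h : C.Ann Φ w) : C.C0 Φ *ᵥ w = 0 := by
  have h1 : (C.A Φ)ᴴ *ᵥ w = 0 := by
    rw [A_star, Matrix.sum_mulVec]
    refine Finset.sum_eq_zero fun j _ => ?_
    rw [← Matrix.mulVec_mulVec, Car.dG_eq, Matrix.sum_mulVec]
    have h2 : ∀ a, (Φ.G.e a * Φ.G.il (((C.B j)ᵀ)ᴴ a)) *ᵥ w = 0 := by
      intro a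
      have h3 : C.P *ᵥ (((C.B j)ᵀ)ᴴ a) = ((C.B j)ᵀ)ᴴ a := by
        funext c
        have h4 : (C.P * (C.B j)ᴴ) c a = (C.B j)ᴴ c a := by
          have h5 := congrArg Matrix.conjTranspose (C.B_P j)
          rw [Matrix.conjTranspose_mul, C.P_star] at h5
          rw [h5]
        simpa [Matrix.mulVec, dotProduct, Matrix.mul_apply, Matrix.conjTranspose_apply] using h4
      rw [← Matrix.mulVec_mulVec, h.il_tan h3, Matrix.mulVec_zero]
    rw [Finset.sum_eq_zero fun a _ => h2 a, Matrix.mulVec_zero]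
  rw [CR.C0, Matrix.sub_mulVec, h1, Matrix.neg_mulVec, ← Matrix.mulVec_mulVec, h.ex,
    Matrix.mulVec_zero, neg_zero, sub_zero]

theorem Ann.D (h : C.Ann Φ w) : C.Ann Φ (C.D Φ w) := by
  have h1 := congrArg (fun L : End ℂ (ι → 𝒜) => L w) (C.K_D Φ)
  simp only [LinearMap.sub_apply, Module.End.mul_apply, mE_apply] at h1
  rw [(C.ann_iff Φ w).1 h, map_zero, sub_zero, h.C0] at h1
  exact (C.ann_iff Φ _).2 h1

theorem Ann.DD (h : C.Ann Φ w) : C.D Φ (C.D Φ w) = 0 := by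
  have h1 := congrArg (fun L : End ℂ (ι → 𝒜) => L w) (C.D_sq Φ)
  simp only [Module.End.mul_apply, mE_apply] at h1
  rw [h1, h.D.ex]

theorem Bs.dG_H (h : C.Bs Φ r k p w) : Φ.F.dG C.H *ᵥ w = ((r : ℂ) - 1) • w := by
  have h1 : C.H = 1 - C.Q - C.xx := by rw [CR.H, CR.Q, sub_sub_cancel]
  have h2 : Φ.F.dG C.Q *ᵥ w = 0 := by
    rw [Car.dG_eq, Matrix.sum_mulVec]
    refine Finset.sum_eq_zero fun m _ => ?_
    rw [← Matrix.mulVec_mulVec, h.ann.nor m, Matrix.mulVec_zero]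
  have h3 : Φ.F.dG C.xx *ᵥ w = w := by
    have h4 := Φ.F.il_ev (fun j => star (C.x j)) C.x
    rw [C.x_norm, one_smul] at h4
    have h5 : Φ.F.dG C.xx = Φ.F.ev C.x * Φ.F.il fun j => star (C.x j) :=
      Φ.F.dG_rank_one C.x fun j => star (C.x j)
    rw [h5, eq_sub_of_add_eq' h4, Matrix.sub_mulVec, ← Matrix.mulVec_mulVec, h.ann.ex,
      Matrix.mulVec_zero, sub_zero, Matrix.one_mulVec]
  have h6 : Φ.F.dG 1 *ᵥ w = (r : ℂ) • w := h.num
  rw [h1, Car.dG_sub, Car.dG_sub, Matrix.sub_mulVec, Matrix.sub_mulVec, h2, h3, h6, sub_zero,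
    sub_smul, one_smul]

theorem Bs.D (h : C.Bs Φ r k p w) : C.Bs Φ (r + 1) k (p + 1) (C.D Φ w) := by
  refine ⟨h.ann.D, ?_, ?_, ?_⟩
  · have h1 := congrArg (fun L : End ℂ (ι → 𝒜) => L w) (C.N_D Φ)
    simp only [LinearMap.add_apply, Module.End.mul_apply, mE_apply] at h1
    rw [h1, h.num, map_smul, Nat.cast_add, Nat.cast_one, add_smul, one_smul]
  · have h1 := congrArg (fun L : End ℂ (ι → 𝒜) => L w) (C.N'_D Φ)
    simp only [Module.End.mul_apply, mE_apply] at h1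
    rw [h1, h.num', map_smul]
  · have h1 := congrArg (fun L : End ℂ (ι → 𝒜) => L w) (C.T_D Φ)
    simp only [LinearMap.add_apply, Module.End.mul_apply, LinearMap.smul_apply] at h1
    rw [h1, h.wt, map_smul, Int.cast_add, Int.cast_one, mul_add, mul_one, add_smul]

theorem Bs.zero : C.Bs Φ r k p 0 :=
  ⟨(C.ann_iff Φ _).2 (Matrix.mulVec_zero _), by rw [Matrix.mulVec_zero, smul_zero],
    by rw [Matrix.mulVec_zero, smul_zero], by rw [map_zero, smul_zero]⟩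

theorem Bs.add {w' : ι → 𝒜} (h : C.Bs Φ r k p w) (h' : C.Bs Φ r k p w') :
    C.Bs Φ r k p (w + w') :=
  ⟨(C.ann_iff Φ _).2 (by
      rw [Matrix.mulVec_add, (C.ann_iff Φ _).1 h.ann, (C.ann_iff Φ _).1 h'.ann, add_zero]),
    by rw [Matrix.mulVec_add, h.num, h'.num, smul_add],
    by rw [Matrix.mulVec_add, h.num', h'.num', smul_add],
    by rw [map_add, h.wt, h'.wt, smul_add]⟩

theorem Bs.smul (h : C.Bs Φ r k p w) (c : ℂ) : C.Bs Φ r k p (c • w) :=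
  ⟨(C.ann_iff Φ _).2 (by rw [Matrix.mulVec_smul, (C.ann_iff Φ _).1 h.ann, smul_zero]),
    by rw [Matrix.mulVec_smul, h.num, smul_comm],
    by rw [Matrix.mulVec_smul, h.num', smul_comm],
    by rw [map_smul, h.wt, smul_comm]⟩

theorem Bs.fsmul (h : C.Bs Φ r k p w) {f : 𝒜} {e : ℤ} (hf : C.T f = (Complex.I * e) • f) :
    C.Bs Φ r k (p + e) (f • w) :=
  ⟨(C.ann_iff Φ _).2 (by rw [Matrix.mulVec_smul, (C.ann_iff Φ _).1 h.ann, smul_zero]),
    by rw [Matrix.mulVec_smul, h.num, smul_comm],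
    by rw [Matrix.mulVec_smul, h.num', smul_comm],
    by rw [dE_fsmul, h.wt, hf, smul_comm f, smul_assoc, Int.cast_add, mul_add, add_smul]⟩

theorem Wt.c5_Zb_σ {s : ℝ} (ω : C.Wt s) (j : Fin M) :
    C.Zb j ω.σ = -((2⁻¹ : ℂ) • (ω.σ * star (ω.φ j))) := by
  rw [c5_der_inv (C.Zb j) ω.στ, ω.Zb_τ, mul_smul_comm, mul_assoc, ← mul_assoc ω.σ ω.τ, ω.στ,
    one_mul]

theorem Wt.c5_Zb_pow {s : ℝ} (ω : C.Wt s) (j : Fin M) (a : ℕ) :
    C.Zb j (ω.σ ^ a) = -(((a : ℂ) / 2) • (ω.σ ^ a * star (ω.φ j))) := by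
  induction a with
  | zero => simp
  | succ a ih =>
    rw [pow_succ, Derivation.leibniz, ih, ω.c5_Zb_σ, smul_eq_mul, smul_eq_mul]
    have h1 : (((a + 1 : ℕ) : ℂ) / 2) = 2⁻¹ + (a : ℂ) / 2 := by push_cast; ring
    rw [h1, add_smul]
    simp only [Algebra.smul_def]
    ring


/-- the weighted operator is conjugate to the unweighted one -/
theorem Wt.Da_conj {s : ℝ} (ω : C.Wt s) (a : ℕ) (w : ι → 𝒜) :
    ω.Da Φ a (ω.σ ^ a • w) = ω.σ ^ a • C.D Φ w := by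
  simp only [Wt.Da, CR.D, LinearMap.sum_apply, Module.End.mul_apply, mE_apply, Finset.smul_sum]
  refine Finset.sum_congr rfl fun j _ => ?_
  rw [← Matrix.mulVec_smul]
  refine congrArg _ ?_
  simp only [Wt.Za, LinearMap.add_apply, mE_apply]
  rw [dE_fsmul, ω.c5_Zb_pow, Matrix.smul_mulVec, Matrix.one_mulVec, smul_smul, neg_smul,
    smul_mul_assoc, mul_comm (star (ω.φ j)), neg_add_cancel_right]

theorem Wt.T_σ {s : ℝ} (ω : C.Wt s) : C.T ω.σ = 0 := by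
  rw [c5_der_inv C.T ω.στ, ω.T_τ, mul_zero, neg_zero]

end CR

end Pool.Agent.HCF
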