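import Pool.Agent.P.MP_f644fa_ag.C4

/-! The operators `D`, `K` and their commutator. -/

noncomputable section
namespace Pool.Agent.HCF
open Finset Module Matrix

variable {𝒜 : Type} [CommRing 𝒜] [Algebra ℂ 𝒜] [StarRing 𝒜] [StarModule ℂ 𝒜] {M n : ℕ}
  {ι : Type} [Fintype ι] [DecidableEq ι]

namespace CR
variable (C : CR M n 𝒜) (Φ : Car2 M ι 𝒜)

theorem A_eq : C.A Φ = ∑ j, Φ.G.dG (C.B j)ᵀ * Φ.F.i j := by
  unfold A Car.dG
  refine Finset.sum_congr rfl fun j _ => ?_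
  rw [Finset.sum_comm, Finset.sum_mul]
  refine Finset.sum_congr rfl fun b _ => ?_
  rw [Finset.sum_mul]
  refine Finset.sum_congr rfl fun a _ => ?_
  rw [smul_mul_assoc, Matrix.transpose_apply]

theorem A_star : (C.A Φ)ᴴ = ∑ j, Φ.F.e j * Φ.G.dG ((C.B j)ᵀ)ᴴ := by
  rw [A_eq, Matrix.conjTranspose_sum]
  refine Finset.sum_congr rfl fun j _ => ?_
  rw [Matrix.conjTranspose_mul, Car.i_star, Car.dG_star]

theorem c5a_Pt_star : C.Pᵀᴴ = C.Pᵀ := by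
  ext a b
  have h := congrFun (congrFun C.P_star b) a
  simpa [Matrix.conjTranspose_apply] using h

theorem c5a_Pt_mul : C.Pᵀ * C.Pᵀ = C.Pᵀ := by
  rw [← Matrix.transpose_mul, C.P_mul]

theorem K_star : (C.K Φ)ᴴ = C.K Φ := by
  unfold K
  rw [Matrix.conjTranspose_add, Matrix.conjTranspose_add, Matrix.conjTranspose_one, Car.dG_star,
    Car.dG_star, Matrix.conjTranspose_sub, C.Q_star, C.xx_star, c5a_Pt_star]

theorem c5a_ev : (Φ.F.ev C.x)ᴴ * Φ.F.ev C.x = 1 - Φ.F.dG C.xx := by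
  have h := Φ.F.il_ev (fun j => star (C.x j)) C.x
  rw [C.x_norm, one_smul] at h
  have h2 : Φ.F.dG C.xx = Φ.F.ev C.x * Φ.F.il fun j => star (C.x j) :=
    Φ.F.dG_rank_one C.x fun j => star (C.x j)
  rw [Car.ev_star, h2, ← h, add_sub_cancel_right]

theorem K_eq : C.K Φ = (Φ.F.ev C.x)ᴴ * Φ.F.ev C.x + ∑ m, (Φ.F.il (C.Q m))ᴴ * Φ.F.il (C.Q m) +
    ∑ l, (Φ.G.il fun b => C.P b l)ᴴ * Φ.G.il fun b => C.P b l := by
  have h1 := Φ.F.dG_proj C.Q_star C.Q_mul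
  have h2 : Φ.G.dG C.Pᵀ = ∑ l, (Φ.G.il fun b => C.P b l)ᴴ * Φ.G.il fun b => C.P b l :=
    Φ.G.dG_proj C.c5a_Pt_star C.c5a_Pt_mul
  rw [c5a_ev, ← h1, ← h2, K, Car.dG_sub]
  abel

theorem c5a_sq (L : Matrix ι ι 𝒜) (w : ι → 𝒜) :
    (C.ip ((Lᴴ * L) *ᵥ w) w).re = C.nrm (L *ᵥ w) := by
  rw [← Matrix.mulVec_mulVec, C.ip_mulVec, Matrix.conjTranspose_conjTranspose]
  rfl

theorem c5a_re (w : ι → 𝒜) : (C.ip (C.K Φ *ᵥ w) w).re = C.nrm (Φ.F.ev C.x *ᵥ w) +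
    ∑ m, C.nrm (Φ.F.il (C.Q m) *ᵥ w) + ∑ l, C.nrm ((Φ.G.il fun b => C.P b l) *ᵥ w) := by
  rw [K_eq, Matrix.add_mulVec, Matrix.add_mulVec, Matrix.sum_mulVec, Matrix.sum_mulVec,
    C.ip_add_left, C.ip_add_left, C.ip_sum_left, C.ip_sum_left, Complex.add_re, Complex.add_re,
    Complex.re_sum, Complex.re_sum]
  simp only [c5a_sq]

theorem K_nonneg (w : ι → 𝒜) : 0 ≤ (C.ip (C.K Φ *ᵥ w) w).re := by
  rw [c5a_re]
  exact add_nonneg (add_nonneg (C.nrm_nonneg _) (Finset.sum_nonneg fun _ _ => C.nrm_nonneg _))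
    (Finset.sum_nonneg fun _ _ => C.nrm_nonneg _)

theorem ann_of_re {w : ι → 𝒜} (h : (C.ip (C.K Φ *ᵥ w) w).re = 0) : C.Ann Φ w := by
  rw [c5a_re] at h
  have h1 := C.nrm_nonneg (Φ.F.ev C.x *ᵥ w)
  have h2 : 0 ≤ ∑ m, C.nrm (Φ.F.il (C.Q m) *ᵥ w) := Finset.sum_nonneg fun _ _ => C.nrm_nonneg _
  have h3 : 0 ≤ ∑ l, C.nrm ((Φ.G.il fun b => C.P b l) *ᵥ w) :=
    Finset.sum_nonneg fun _ _ => C.nrm_nonneg _
  have h2' : ∑ m, C.nrm (Φ.F.il (C.Q m) *ᵥ w) = 0 := by linarith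
  have h3' : ∑ l, C.nrm ((Φ.G.il fun b => C.P b l) *ᵥ w) = 0 := by linarith
  refine ⟨C.eq_zero_of_nrm (by linarith), fun m => C.eq_zero_of_nrm ?_,
    fun l => C.eq_zero_of_nrm ?_⟩
  · exact (Finset.sum_eq_zero_iff_of_nonneg fun _ _ => C.nrm_nonneg _).1 h2' m (mem_univ m)
  · exact (Finset.sum_eq_zero_iff_of_nonneg fun _ _ => C.nrm_nonneg _).1 h3' l (mem_univ l)

theorem ann_iff (w : ι → 𝒜) : C.Ann Φ w ↔ C.K Φ *ᵥ w = 0 := by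
  constructor
  · intro h
    rw [K_eq, Matrix.add_mulVec, Matrix.add_mulVec, Matrix.sum_mulVec, Matrix.sum_mulVec]
    simp only [← Matrix.mulVec_mulVec, h.ex, h.nor, h.tan, Matrix.mulVec_zero,
      Finset.sum_const_zero, add_zero]
  · intro h
    apply ann_of_re
    rw [h, C.ip_zero_left, Complex.zero_re]

omit [StarRing 𝒜] [StarModule ℂ 𝒜] in
theorem c5a_map_one {κ : Type} [DecidableEq κ] (δ : Derivation ℂ 𝒜 𝒜) :
    (1 : Matrix κ κ 𝒜).map δ = 0 := by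
  ext a b
  by_cases h : a = b <;> simp [h]

theorem T_K : (C.K Φ).map C.T = 0 := by
  have h1 : (C.Q - C.xx).map C.T = 0 := by
    rw [Q, Matrix.map_sub _ (map_sub C.T), Matrix.map_sub _ (map_sub C.T), c5a_map_one, C.T_P,
      C.T_xx, sub_zero, sub_zero]
  have h2 : C.Pᵀ.map C.T = 0 := by
    rw [Matrix.transpose_map, C.T_P, Matrix.transpose_zero]
  rw [K, Matrix.map_add _ (map_add C.T), Matrix.map_add _ (map_add C.T), c5a_map_one,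
    Car.map_dG, Car.map_dG, h1, h2, Car.dG_zero, Car.dG_zero, add_zero, add_zero]

theorem c5a_N (F : Car M ι 𝒜) (A : Matrix (Fin M) (Fin M) 𝒜) : F.N * F.dG A = F.dG A * F.N := by
  have h := F.dG_dG 1 A
  rw [one_mul, mul_one, sub_self, Car.dG_zero, sub_eq_zero] at h
  exact h

theorem N_K : Φ.F.N * C.K Φ = C.K Φ * Φ.F.N := by
  have h : Φ.F.N * Φ.G.dG C.Pᵀ = Φ.G.dG C.Pᵀ * Φ.F.N := Φ.dG_dG 1 _
  rw [K, mul_add, mul_add, add_mul, add_mul, mul_one, one_mul, c5a_N, h]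

theorem N'_K : Φ.G.N * C.K Φ = C.K Φ * Φ.G.N := by
  have h : Φ.G.N * Φ.F.dG (C.Q - C.xx) = Φ.F.dG (C.Q - C.xx) * Φ.G.N := (Φ.dG_dG _ 1).symm
  rw [K, mul_add, mul_add, add_mul, add_mul, mul_one, one_mul, c5a_N, h]

end CR

end Pool.Agent.HCF
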