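import Pool.Agent.P.MP_f644fa_ag.C5a

/-! The operators `D`, `K` and their commutator. -/

noncomputable section
namespace Pool.Agent.HCF
open Finset Module Matrix

variable {𝒜 : Type} [CommRing 𝒜] [Algebra ℂ 𝒜] [StarRing 𝒜] [StarModule ℂ 𝒜] {M n : ℕ}
  {ι : Type} [Fintype ι] [DecidableEq ι]

theorem c5b_two {V : Type} [AddCommGroup V] [Module ℂ V] {a b : V} (h : a + a = b + b) : a = b := by
  rw [← two_smul ℂ a, ← two_smul ℂ b] at h
  exact smul_right_injective V two_ne_zero h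

omit [StarRing 𝒜] [StarModule ℂ 𝒜] in
theorem c5b_map_one {κ : Type} [DecidableEq κ] (δ : Derivation ℂ 𝒜 𝒜) :
    (1 : Matrix κ κ 𝒜).map δ = 0 := by
  ext a b
  by_cases h : a = b
  · subst h; simp
  · simp [Matrix.one_apply_ne h]

omit [StarRing 𝒜] [StarModule ℂ 𝒜] in
theorem c5b_map_add {κ : Type} (δ : Derivation ℂ 𝒜 𝒜) (A B : Matrix κ κ 𝒜) :
    (A + B).map δ = A.map δ + B.map δ := by
  ext a b; simp

theorem c5b_neg_mul {V : Type} [AddCommGroup V] [Module ℂ V] (a b : End ℂ V) :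
    -a * b = -(a * b) := LinearMap.ext fun _ => rfl

namespace Car
variable (F : Car M ι 𝒜)

omit [StarModule ℂ 𝒜] in
theorem c5b_ev_zero : F.ev 0 = 0 := by simp [ev]

omit [StarModule ℂ 𝒜] in
theorem c5b_ev_neg (a : Fin M → 𝒜) : F.ev (-a) = -F.ev a := by simp [ev]

omit [StarModule ℂ 𝒜] in
theorem c5b_ev_single (j : Fin M) : F.ev (Pi.single j 1) = F.e j := by
  simp [ev, Pi.single_apply]

theorem c5b_e_ev (j : Fin M) (a : Fin M → 𝒜) : F.e j * F.ev a = -(F.ev a * F.e j) := by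
  have h := F.ev_ev (Pi.single j 1) a
  rw [c5b_ev_single] at h
  exact eq_neg_of_add_eq_zero_left h

theorem c5b_dG_e (A : Matrix (Fin M) (Fin M) 𝒜) (j : Fin M) :
    F.dG A * F.e j = F.e j * F.dG A + F.ev fun m => A m j := by
  have h := F.dG_ev A (Pi.single j 1)
  rw [c5b_ev_single] at h
  have e : A *ᵥ Pi.single j 1 = fun m => A m j := by
    ext m; simp
  rw [← e, ← h]; abel

theorem c5b_dG_neg (A : Matrix (Fin M) (Fin M) 𝒜) : F.dG (-A) = -F.dG A := by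
  rw [← zero_sub, dG_sub, dG_zero, zero_sub]

theorem c5b_dG_sum {κ : Type} (s : Finset κ) (A : κ → Matrix (Fin M) (Fin M) 𝒜) :
    F.dG (∑ i ∈ s, A i) = ∑ i ∈ s, F.dG (A i) := by
  classical
  induction s using Finset.induction_on with
  | empty => simp [dG_zero]
  | insert a s ha ih => rw [sum_insert ha, sum_insert ha, dG_add, ih]

omit [StarModule ℂ 𝒜] in
/-- a symmetric form is killed -/
theorem c5b_sym (c : Fin M → Fin M → 𝒜) (h : ∀ j m, c j m = c m j) :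
    ∑ j, ∑ m, c j m • (F.e j * F.e m) = 0 := by
  refine c5b_two ?_
  rw [add_zero]
  nth_rewrite 2 [sum_comm]
  rw [← sum_add_distrib]
  refine sum_eq_zero fun j _ => ?_
  rw [← sum_add_distrib]
  refine sum_eq_zero fun m _ => ?_
  rw [h m j, ← smul_add, F.ee, smul_zero]

end Car

namespace CR
variable (C : CR M n 𝒜) (Φ : Car2 M ι 𝒜)

theorem c5b_D_mE (A : Matrix ι ι 𝒜) : C.D Φ * mE A =
    ∑ j, mE (Φ.F.e j * A) * dE ι (C.Zb j) + mE (∑ j, Φ.F.e j * A.map (C.Zb j)) := by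
  rw [D, sum_mul, map_sum, ← sum_add_distrib]
  refine sum_congr rfl fun j _ => ?_
  rw [mul_assoc, dE_mE, mul_add, map_mul, map_mul, mul_assoc]

theorem c5b_mE_D (A : Matrix ι ι 𝒜) :
    mE A * C.D Φ = ∑ j, mE (A * Φ.F.e j) * dE ι (C.Zb j) := by
  rw [D, mul_sum]
  refine sum_congr rfl fun j _ => ?_
  rw [map_mul, mul_assoc]

theorem c5b_dE_e (δ : Derivation ℂ 𝒜 𝒜) (j : Fin M) :
    dE ι δ * mE (Φ.F.e j) = mE (Φ.F.e j) * dE ι δ := by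
  rw [dE_mE, Φ.F.const, map_zero, add_zero]

theorem c5b_mE_smul (A : Matrix ι ι 𝒜) (f : 𝒜) (δ : Derivation ℂ 𝒜 𝒜) :
    mE A * dE ι (f • δ) = mE (f • A) * dE ι δ := by
  rw [dE_smul, ← mul_assoc, ← map_mul, Matrix.mul_smul, mul_one]

theorem D_ev : C.D Φ * mE (Φ.F.ev C.x) = -(mE (Φ.F.ev C.x) * C.D Φ) := by
  have h : ∀ j, (Φ.F.ev C.x).map (C.Zb j) = 0 := fun j => by
    rw [Car.map_ev]
    simp only [Zb_x]
    exact Φ.F.c5b_ev_zero
  rw [c5b_D_mE, c5b_mE_D, ← sum_neg_distrib]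
  simp only [h, mul_zero, sum_const_zero, map_zero, add_zero, Car.c5b_e_ev, map_neg, c5b_neg_mul]

theorem D_sq : C.D Φ * C.D Φ = mE (Φ.F.ev C.x) * C.D Φ := by
  have h1 : C.D Φ * C.D Φ =
      ∑ j, ∑ k, mE (Φ.F.e j * Φ.F.e k) * (dE ι (C.Zb j) * dE ι (C.Zb k)) := by
    rw [D, sum_mul_sum]
    refine sum_congr rfl fun j _ => sum_congr rfl fun k _ => ?_
    rw [map_mul, mul_assoc, ← mul_assoc (dE ι (C.Zb j)), c5b_dE_e, mul_assoc, mul_assoc]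
  have h2 : C.D Φ * C.D Φ =
      -∑ j, ∑ k, mE (Φ.F.e j * Φ.F.e k) * (dE ι (C.Zb k) * dE ι (C.Zb j)) := by
    rw [h1, sum_comm, ← sum_neg_distrib]
    refine sum_congr rfl fun j _ => ?_
    rw [← sum_neg_distrib]
    refine sum_congr rfl fun k _ => ?_
    rw [eq_neg_of_add_eq_zero_left (Φ.F.ee k j), map_neg, c5b_neg_mul]
  have h3 : ∑ j, ∑ k, mE (C.x j • (Φ.F.e j * Φ.F.e k)) * dE ι (C.Zb k) =
      mE (Φ.F.ev C.x) * C.D Φ := by
    rw [c5b_mE_D, sum_comm]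
    refine sum_congr rfl fun k _ => ?_
    rw [← sum_mul, ← map_sum, Car.ev, sum_mul]
    simp only [Matrix.smul_mul]
  have h4 : ∑ j, ∑ k, mE (C.x k • (Φ.F.e j * Φ.F.e k)) * dE ι (C.Zb j) =
      -(mE (Φ.F.ev C.x) * C.D Φ) := by
    rw [c5b_mE_D, ← sum_neg_distrib]
    refine sum_congr rfl fun j _ => ?_
    rw [← c5b_neg_mul, ← map_neg, ← Car.c5b_e_ev, ← sum_mul, ← map_sum, Car.ev, mul_sum]
    simp only [Matrix.mul_smul]
  refine c5b_two ?_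
  nth_rewrite 2 [h2]
  rw [h1, ← sub_eq_add_neg, ← sub_neg_eq_add, ← h4, ← h3, ← sum_sub_distrib, ← sum_sub_distrib]
  refine sum_congr rfl fun j _ => ?_
  rw [← sum_sub_distrib, ← sum_sub_distrib]
  refine sum_congr rfl fun k _ => ?_
  rw [← mul_sub, ← dE_lie, lie_Zb_Zb, dE_sub, mul_sub, c5b_mE_smul, c5b_mE_smul]

theorem c5b_K_e (j : Fin M) :
    C.K Φ * Φ.F.e j = Φ.F.e j * C.K Φ + Φ.F.ev fun m => (C.Q - C.xx) m j := by
  rw [K, add_mul, add_mul, mul_add, mul_add, Car.c5b_dG_e, Φ.e_dG, one_mul, mul_one]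
  abel

theorem c5b_hor : ∑ j, mE (Φ.F.ev fun m => (C.Q - C.xx) m j) * dE ι (C.Zb j) = 0 := by
  have h : ∀ m, ∑ j, (C.Q - C.xx) m j • C.Zb j = 0 := fun m => by
    have e : ∀ j, (C.Q - C.xx) m j • C.Zb j = ∑ l, ((C.Q - C.xx) m j * C.H j l) • C.Zb l :=
      fun j => by
        conv_lhs => rw [← C.sum_H_Zb j, smul_sum]
        simp only [smul_smul]
    simp only [e]
    rw [sum_comm]
    refine sum_eq_zero fun l _ => ?_
    rw [← sum_smul, ← Matrix.mul_apply, Qxx_H, Matrix.zero_apply, zero_smul]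
  simp only [Car.ev, map_sum, sum_mul]
  rw [sum_comm]
  refine sum_eq_zero fun m _ => ?_
  simp only [← c5b_mE_smul]
  rw [← mul_sum, ← dE_sum, h, dE_zero, mul_zero]

theorem c5b_map_K (j : Fin M) : (C.K Φ).map (C.Zb j) =
    -Φ.F.dG (C.B j)ᴴ - Φ.F.ev C.x * Φ.F.il (C.H j) + Φ.G.dG ((C.B j)ᵀ)ᴴ := by
  have h1 : (C.Q - C.xx).map (C.Zb j) = -(C.B j)ᴴ - Matrix.of fun a b => C.x a * C.H j b := by
    rw [← Zb_P, ← zero_sub, ← c5b_map_one (κ := Fin M) (C.Zb j)]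
    ext a b
    simp [Q, Zb_xx]
  have h2 : C.Pᵀ.map (C.Zb j) = ((C.B j)ᵀ)ᴴ := by
    rw [Matrix.transpose_map, Zb_P]; rfl
  rw [K, c5b_map_add, c5b_map_add, c5b_map_one, Car.map_dG, Car.map_dG, h1, h2, Car.dG_sub,
    Car.c5b_dG_neg, Car.dG_rank_one, zero_add]

theorem c5b_eB : ∑ j, Φ.F.e j * Φ.F.dG (C.B j)ᴴ = 0 := by
  have h : ∀ j, Φ.F.e j * Φ.F.dG (C.B j)ᴴ =
      ∑ l, (∑ m, star (C.B j l m) • (Φ.F.e j * Φ.F.e m)) * Φ.F.i l := fun j => by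
    rw [Car.dG, sum_comm, mul_sum]
    refine sum_congr rfl fun l _ => ?_
    rw [mul_sum, sum_mul]
    refine sum_congr rfl fun m _ => ?_
    rw [Matrix.mul_smul, Matrix.smul_mul, mul_assoc, Matrix.conjTranspose_apply]
  simp only [h]
  rw [sum_comm]
  refine sum_eq_zero fun l _ => ?_
  rw [← sum_mul, Φ.F.c5b_sym (fun j m => star (C.B j l m)) fun j m => by rw [C.B_symm j m l],
    zero_mul]

theorem c5b_H_ev : Φ.F.ev C.x * Φ.F.dG C.H = Φ.F.dG C.H * Φ.F.ev C.x := by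
  have h := Φ.F.dG_ev C.H C.x
  rw [H_x, Car.c5b_ev_zero] at h
  exact (sub_eq_zero.1 h).symm

theorem K_D : mE (C.K Φ) * C.D Φ - C.D Φ * mE (C.K Φ) = mE (C.C0 Φ) := by
  have h1 : ∑ j, Φ.F.e j * (Φ.F.ev C.x * Φ.F.il (C.H j)) = -(Φ.F.dG C.H * Φ.F.ev C.x) := by
    rw [← c5b_H_ev, Car.dG_eq, mul_sum, ← sum_neg_distrib]
    refine sum_congr rfl fun j _ => ?_
    rw [← mul_assoc, Car.c5b_e_ev, neg_mul, mul_assoc]
  have h2 : ∑ j, Φ.F.e j * (C.K Φ).map (C.Zb j) = -C.C0 Φ := by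
    simp only [c5b_map_K, mul_add, mul_sub, mul_neg, sum_add_distrib, sum_sub_distrib,
      sum_neg_distrib]
    rw [c5b_eB, h1, ← A_star, C0]
    abel
  rw [c5b_D_mE, c5b_mE_D, h2, map_neg]
  simp only [c5b_K_e, map_add, add_mul, sum_add_distrib, c5b_hor]
  abel

theorem c5b_Qxx_x : (C.Q - C.xx) *ᵥ C.x = -C.x := by
  have h : C.xx *ᵥ C.x = C.x := by
    ext a
    simp only [xx, Matrix.mulVec, dotProduct, Matrix.of_apply, mul_assoc]
    rw [← mul_sum, C.x_norm, mul_one]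
  rw [Matrix.sub_mulVec, Q_x, h, zero_sub]

theorem c5b_QB (m : Fin M) : ∑ j, (C.Q - C.xx) m j • ((C.B j)ᵀ)ᴴ = 0 := by
  ext a b
  have h1 : (C.Q - C.xx)ᴴ = C.Q - C.xx := by rw [Matrix.conjTranspose_sub, Q_star, xx_star]
  have h2 : C.B b * (C.Q - C.xx) = 0 := by rw [mul_sub, B_Q, B_xx, sub_zero]
  have h3 := congrArg star (congrFun (congrFun h2 a) m)
  rw [Matrix.mul_apply, star_sum, Matrix.zero_apply, star_zero] at h3
  rw [Matrix.sum_apply, Matrix.zero_apply, ← h3]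
  refine sum_congr rfl fun j _ => ?_
  rw [Matrix.smul_apply, Matrix.conjTranspose_apply, Matrix.transpose_apply, star_mul,
    ← Matrix.conjTranspose_apply (C.Q - C.xx), h1, smul_eq_mul, C.B_symm j b a]

theorem c5b_PB (j : Fin M) : C.Pᵀ * ((C.B j)ᵀ)ᴴ - ((C.B j)ᵀ)ᴴ * C.Pᵀ = -((C.B j)ᵀ)ᴴ := by
  have h : (C.Pᵀ)ᴴ = C.Pᵀ := congrArg Matrix.transpose C.P_star
  rw [← h, ← Matrix.conjTranspose_mul, ← Matrix.conjTranspose_mul, ← Matrix.transpose_mul,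
    ← Matrix.transpose_mul, P_B, B_P, Matrix.transpose_zero, Matrix.conjTranspose_zero, zero_sub]

theorem K_C0 : C.K Φ * C.C0 Φ - C.C0 Φ * C.K Φ = -C.C0 Φ := by
  have h1 : C.K Φ * Φ.F.dG C.H = Φ.F.dG C.H * C.K Φ := by
    have h := Φ.F.dG_dG (C.Q - C.xx) C.H
    rw [Qxx_H, H_Qxx, sub_zero, Car.dG_zero, sub_eq_zero] at h
    rw [K, add_mul, add_mul, mul_add, mul_add, h, Φ.dG_dG, one_mul, mul_one]
  have h2 : C.K Φ * Φ.F.ev C.x = Φ.F.ev C.x * C.K Φ - Φ.F.ev C.x := by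
    have h := Φ.F.dG_ev (C.Q - C.xx) C.x
    rw [c5b_Qxx_x, Car.c5b_ev_neg, sub_eq_iff_eq_add] at h
    rw [K, add_mul, add_mul, mul_add, mul_add, h, Φ.ev_dG, one_mul, mul_one]
    abel
  have h3 : ∀ j, C.K Φ * Φ.G.dG ((C.B j)ᵀ)ᴴ =
      Φ.G.dG ((C.B j)ᵀ)ᴴ * C.K Φ - Φ.G.dG ((C.B j)ᵀ)ᴴ := fun j => by
    have h := Φ.G.dG_dG C.Pᵀ ((C.B j)ᵀ)ᴴ
    rw [c5b_PB, Car.c5b_dG_neg, sub_eq_iff_eq_add] at h
    rw [K, add_mul, add_mul, mul_add, mul_add, h, Φ.dG_dG, one_mul, mul_one]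
    abel
  have h4 : ∑ j, (Φ.F.ev fun m => (C.Q - C.xx) m j) * Φ.G.dG ((C.B j)ᵀ)ᴴ = 0 := by
    simp only [Car.ev, sum_mul]
    rw [sum_comm]
    refine sum_eq_zero fun m _ => ?_
    have e : ∀ j, ((C.Q - C.xx) m j • Φ.F.e m) * Φ.G.dG ((C.B j)ᵀ)ᴴ =
        Φ.F.e m * Φ.G.dG ((C.Q - C.xx) m j • ((C.B j)ᵀ)ᴴ) := fun j => by
      rw [Car.dG_smul, Matrix.smul_mul, Matrix.mul_smul]
    simp only [e]
    rw [← mul_sum, ← Car.c5b_dG_sum, c5b_QB, Car.dG_zero, mul_zero]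
  have h5 : C.K Φ * (C.A Φ)ᴴ = (C.A Φ)ᴴ * C.K Φ - (C.A Φ)ᴴ := by
    rw [A_star, mul_sum, sum_mul, ← sum_sub_distrib]
    refine Eq.trans ?_ (add_zero _)
    rw [← h4, ← sum_add_distrib]
    refine sum_congr rfl fun j _ => ?_
    rw [← mul_assoc, c5b_K_e, add_mul, mul_assoc, h3, mul_sub, mul_assoc]
  rw [C0, mul_sub, mul_neg, ← mul_assoc, h1, mul_assoc, h2, h5]
  noncomm_ring

theorem c5b_map_N (F : Car M ι 𝒜) (δ : Derivation ℂ 𝒜 𝒜) : F.N.map δ = 0 := by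
  rw [Car.N, Car.map_dG, c5b_map_one, Car.dG_zero]

theorem N_D : mE Φ.F.N * C.D Φ = C.D Φ * mE Φ.F.N + C.D Φ := by
  have h : ∀ j, Φ.F.N * Φ.F.e j = Φ.F.e j * Φ.F.N + Φ.F.e j := fun j => by
    rw [Car.N, Car.c5b_dG_e]
    congr 1
    rw [← Φ.F.c5b_ev_single]
    congr 1
    ext m
    rw [Matrix.one_apply, Pi.single_apply]
  rw [c5b_D_mE, c5b_mE_D]
  simp only [c5b_map_N, mul_zero, sum_const_zero, map_zero, add_zero, h, map_add, add_mul,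
    sum_add_distrib]
  rfl

theorem N'_D : mE Φ.G.N * C.D Φ = C.D Φ * mE Φ.G.N := by
  rw [c5b_D_mE, c5b_mE_D]
  simp only [c5b_map_N, mul_zero, sum_const_zero, map_zero, add_zero]
  simp only [Car.N, Φ.e_dG]

theorem T_D : dE ι C.T * C.D Φ = C.D Φ * dE ι C.T + Complex.I • C.D Φ := by
  rw [D, mul_sum, sum_mul, smul_sum, ← sum_add_distrib]
  refine sum_congr rfl fun j _ => ?_
  have h := dE_lie (ι := ι) C.T (C.Zb j)
  rw [lie_T_Zb, dE_csmul, eq_sub_iff_add_eq] at h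
  rw [← mul_assoc, c5b_dE_e, mul_assoc, ← h, mul_add, mul_smul_comm, mul_assoc, add_comm]

theorem D_fsmul (f : 𝒜) (w : ι → 𝒜) :
    C.D Φ (f • w) = f • C.D Φ w + Φ.F.ev (fun j => C.Zb j f) *ᵥ w := by
  rw [D, LinearMap.sum_apply, LinearMap.sum_apply, Car.ev, Matrix.sum_mulVec, smul_sum,
    ← sum_add_distrib]
  refine sum_congr rfl fun j _ => ?_
  rw [Module.End.mul_apply, Module.End.mul_apply, mE_apply, mE_apply, dE_fsmul, Matrix.mulVec_add,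
    Matrix.mulVec_smul, Matrix.mulVec_smul, Matrix.smul_mulVec]

end CR

end Pool.Agent.HCF
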