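import Pool.Agent.P.MP_f644fa_ag.C6a

/-! There are no harmonic forms. -/

noncomputable section
namespace Pool.Agent.HCF
open Finset Module Matrix

variable {𝒜 : Type} [CommRing 𝒜] [Algebra ℂ 𝒜] [StarRing 𝒜] [StarModule ℂ 𝒜] {M n : ℕ}
  {ι : Type} [Fintype ι] [DecidableEq ι]

namespace CR
variable {C : CR M n 𝒜} {Φ : Car2 M ι 𝒜} {s : ℝ} {w : ι → 𝒜} {r k : ℕ} {p : ℤ}

theorem c6_nrm_mulVec (A : Matrix ι ι 𝒜) (w : ι → 𝒜) :
    C.nrm (A *ᵥ w) = (C.ip w ((Aᴴ * A) *ᵥ w)).re := by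
  rw [nrm, ip_mulVec, mulVec_mulVec]

theorem c6_nrm_neg (w : ι → 𝒜) : C.nrm (-w) = C.nrm w := by
  have := C.nrm_smul (-1) w
  simpa using this

theorem c6_re_ip (u v : ι → 𝒜) : (C.ip u v).re = (C.ip v u).re := by
  rw [← C.star_ip u v]; rfl

theorem c6_ev_il (h : C.Ann Φ w) : (Φ.F.ev C.x * (Φ.F.ev C.x)ᴴ) *ᵥ w = w := by
  have h1 := Φ.F.il_ev (fun j => star (C.x j)) C.x
  rw [C.x_norm, one_smul] at h1
  have h2 := congrArg (· *ᵥ w) h1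
  simp only [add_mulVec, one_mulVec, ← mulVec_mulVec, h.ex, mulVec_zero, zero_add] at h2
  rw [Car.ev_star, ← mulVec_mulVec, h2]

theorem c6_ev_A (h : C.Ann Φ w) : Φ.F.ev C.x *ᵥ (C.A Φ *ᵥ w) = 0 := by
  have h1 : ∀ j, Φ.F.ev C.x *ᵥ ((Φ.G.dG (C.B j)ᵀ * Φ.F.i j) *ᵥ w) =
      (C.x j • Φ.G.dG (C.B j)ᵀ) *ᵥ w := by
    intro j
    have h2 := congrArg (· *ᵥ w) (Φ.F.i_ev j C.x)
    simp only [add_mulVec, smul_mulVec, one_mulVec, ← mulVec_mulVec, h.ex, mulVec_zero,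
      zero_add] at h2
    rw [mulVec_mulVec, ← mul_assoc, Φ.ev_dG, mul_assoc, ← mulVec_mulVec, ← mulVec_mulVec, h2,
      mulVec_smul, smul_mulVec]
  rw [A_eq, sum_mulVec, mulVec_sum]
  simp only [h1]
  rw [← sum_mulVec]
  have h3 : ∑ j, C.x j • Φ.G.dG (C.B j)ᵀ = 0 := by
    simp only [Car.dG, smul_sum, smul_smul, transpose_apply]
    rw [sum_comm]
    refine sum_eq_zero fun a _ => ?_
    rw [sum_comm]
    refine sum_eq_zero fun b _ => ?_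
    rw [← sum_smul, C.sum_x_B, zero_smul]
  rw [h3, zero_mulVec]

theorem c6_y_eq (w : ι → 𝒜) (a b : Fin M) :
    C.y Φ w a b = ∑ j, C.B j a b • Φ.F.i j *ᵥ w := by
  simp only [y, Car.il, sum_mulVec, smul_mulVec]

theorem c6_A_eq (w : ι → 𝒜) :
    C.A Φ *ᵥ w = ∑ a, ∑ b, (Φ.G.e b * Φ.G.i a) *ᵥ C.y Φ w a b := by
  simp only [c6_y_eq, A, sum_mulVec, smul_mulVec, mulVec_sum, mulVec_smul, mulVec_mulVec]
  rw [sum_comm]
  refine sum_congr rfl fun a _ => ?_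
  rw [sum_comm]

theorem c6_y_tr (w : ι → 𝒜) : ∑ a, C.y Φ w a a = 0 := by
  simp only [c6_y_eq]
  rw [sum_comm]
  refine sum_eq_zero fun j _ => ?_
  have : ∑ a, C.B j a a = 0 := by
    have h1 : (C.B j).trace = 0 := by
      rw [← C.B_P j, trace_mul_comm, C.P_B, trace_zero]
    exact h1
  rw [← sum_smul, this, zero_smul]

theorem c6_Q_y (w : ι → 𝒜) (a b : Fin M) : ∑ a', C.Q a a' • C.y Φ w a' b = C.y Φ w a b := by
  simp only [c6_y_eq, smul_sum, smul_smul]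
  rw [sum_comm]
  refine sum_congr rfl fun j _ => ?_
  rw [← sum_smul, ← mul_apply, C.Q_B]

theorem c6_y_P (w : ι → 𝒜) (a b : Fin M) : ∑ b', C.P b' b • C.y Φ w a b' = C.y Φ w a b := by
  simp only [c6_y_eq, smul_sum, smul_smul]
  rw [sum_comm]
  refine sum_congr rfl fun j _ => ?_
  rw [← sum_smul]
  simp only [mul_comm (C.P _ b)]
  rw [← mul_apply, C.B_P]

theorem c6_il_y (h : C.Ann Φ w) (l a b : Fin M) :
    Φ.G.il (fun b => C.P b l) *ᵥ C.y Φ w a b = 0 := by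
  rw [y, mulVec_mulVec, ← Φ.il_il, ← mulVec_mulVec, h.tan, mulVec_zero]

theorem c6_nrm_v (h : C.Ann Φ w) (a : Fin M) :
    C.nrm (∑ b, Φ.G.e b *ᵥ C.y Φ w a b) = ∑ b, C.nrm (C.y Φ w a b) := by
  have h1 : ∑ b, Φ.G.e b *ᵥ C.y Φ w a b = ∑ b, Φ.G.ev (C.P b) *ᵥ C.y Φ w a b := by
    simp only [Car.ev, sum_mulVec, smul_mulVec]
    rw [sum_comm]
    refine sum_congr rfl fun b _ => ?_
    simp only [← mulVec_smul]
    rw [← mulVec_sum, c6_y_P]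
  have h2 : ∀ b, (Φ.G.ev (C.P b))ᴴ *ᵥ (∑ b, Φ.G.e b *ᵥ C.y Φ w a b) = C.y Φ w a b := by
    intro b
    have h3 : (fun j => star (C.P b j)) = fun j => C.P j b := by
      funext j
      rw [← conjTranspose_apply, C.P_star]
    rw [Car.ev_star, h3, mulVec_sum]
    refine Eq.trans (sum_congr rfl fun b' _ => ?_) (c6_y_P w a b)
    have h4 := congrArg (· *ᵥ C.y Φ w a b') (Φ.G.il_e (fun j => C.P j b) b')
    simpa only [add_mulVec, smul_mulVec, one_mulVec, ← mulVec_mulVec, c6_il_y h, mulVec_zero,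
      add_zero] using h4
  have h5 : C.ip (∑ b, Φ.G.ev (C.P b) *ᵥ C.y Φ w a b) (∑ b, Φ.G.e b *ᵥ C.y Φ w a b) =
      ∑ b, C.ip (C.y Φ w a b) (C.y Φ w a b) := by
    rw [ip_sum_left]
    refine sum_congr rfl fun b _ => ?_
    rw [ip_mulVec, h2]
  rw [← h1] at h5
  simp only [nrm, h5, Complex.re_sum]

theorem c6_A_eq' (w : ι → 𝒜) :
    C.A Φ *ᵥ w = -∑ a, Φ.G.il (C.Qᵀ a) *ᵥ ∑ b, Φ.G.e b *ᵥ C.y Φ w a b := by
  have h1 : ∀ a b, (Φ.G.e b * Φ.G.i a) *ᵥ C.y Φ w a b =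
      (if a = b then C.y Φ w a b else 0) - Φ.G.i a *ᵥ (Φ.G.e b *ᵥ C.y Φ w a b) := by
    intro a b
    rw [eq_sub_of_add_eq' (Φ.G.ie' a b), sub_mulVec, mulVec_mulVec]
    split_ifs <;> simp
  have h2 : ∑ a, Φ.G.il (C.Qᵀ a) *ᵥ ∑ b, Φ.G.e b *ᵥ C.y Φ w a b =
      ∑ a, ∑ b, Φ.G.i a *ᵥ (Φ.G.e b *ᵥ C.y Φ w a b) := by
    simp only [Car.il, sum_mulVec, smul_mulVec, transpose_apply]
    rw [sum_comm]
    refine sum_congr rfl fun a _ => ?_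
    simp only [← mulVec_smul]
    rw [← mulVec_sum, ← mulVec_sum]
    refine congrArg _ ?_
    simp only [smul_sum, ← mulVec_smul]
    rw [sum_comm]
    refine sum_congr rfl fun b _ => ?_
    rw [← mulVec_sum, c6_Q_y]
  rw [c6_A_eq, h2]
  simp only [h1, sum_sub_distrib, sum_ite_eq, mem_univ, if_true, c6_y_tr, zero_sub]

theorem c6_proj_bound (G : Car M ι 𝒜) {S : Matrix (Fin M) (Fin M) 𝒜} (h : Sᴴ = S)
    (h2 : S * S = S) {c : ℕ} (hc : S.trace = (c : ℕ)) (v : Fin M → ι → 𝒜) :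
    C.nrm (∑ a, G.il (S a) *ᵥ v a) ≤ c * ∑ a, C.nrm (v a) := by
  obtain ⟨u, hu⟩ : ∃ u, u = ∑ a, G.il (S a) *ᵥ v a := ⟨_, rfl⟩
  rw [← hu]
  have h1 : C.nrm u = ∑ a, (C.ip ((G.il (S a))ᴴ *ᵥ u) (v a)).re := by
    have : C.ip (∑ a, G.il (S a) *ᵥ v a) u = ∑ a, C.ip (v a) ((G.il (S a))ᴴ *ᵥ u) := by
      rw [ip_sum_left]
      exact sum_congr rfl fun a _ => C.ip_mulVec _ _ _
    rw [← hu] at this
    rw [nrm, this, Complex.re_sum]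
    exact sum_congr rfl fun a _ => c6_re_ip _ _
  have h3 : ∑ a, C.nrm ((G.il (S a))ᴴ *ᵥ u) ≤ c * C.nrm u := by
    have e1 : ∑ a, C.nrm ((G.il (S a))ᴴ *ᵥ u) =
        (C.ip u ((∑ a, G.il (S a) * (G.il (S a))ᴴ) *ᵥ u)).re := by
      rw [sum_mulVec, ip_sum_right, Complex.re_sum]
      refine sum_congr rfl fun a _ => ?_
      rw [c6_nrm_mulVec, conjTranspose_conjTranspose]
    have e2 : (C.ip u (G.dG S *ᵥ u)).re = ∑ a, C.nrm (G.il (S a) *ᵥ u) := by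
      rw [G.dG_proj h h2, sum_mulVec, ip_sum_right, Complex.re_sum]
      exact sum_congr rfl fun a _ => (c6_nrm_mulVec _ _).symm
    have e3 : ((c : 𝒜) • (1 : Matrix ι ι 𝒜)) *ᵥ u = (c : ℂ) • u := by
      rw [smul_mulVec, one_mulVec, Nat.cast_smul_eq_nsmul, Nat.cast_smul_eq_nsmul]
    have e4 : 0 ≤ ∑ a, C.nrm (G.il (S a) *ᵥ u) := sum_nonneg fun a _ => C.nrm_nonneg _
    rw [e1, G.sum_il_ev h h2, hc, sub_mulVec, e3, ip_sub_right, ip_smul_right, Complex.sub_re, e2]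
    have e5 : ((c : ℂ) * C.ip u u).re = c * C.nrm u := by simp [nrm]
    rw [e5]
    linarith
  have hV : 0 ≤ ∑ a, C.nrm (v a) := sum_nonneg fun a _ => C.nrm_nonneg _
  rcases Nat.eq_zero_or_pos c with rfl | hc0
  · have h4 : ∀ a, (G.il (S a))ᴴ *ᵥ u = 0 := by
      intro a
      refine C.eq_zero_of_nrm (le_antisymm ?_ (C.nrm_nonneg _))
      have := single_le_sum (f := fun a => C.nrm ((G.il (S a))ᴴ *ᵥ u))
        (fun a _ => C.nrm_nonneg _) (mem_univ a)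
      simp only [Nat.cast_zero, zero_mul] at h3
      exact this.trans h3
    rw [h1]
    simp [h4, ip_zero_left]
  · have h4 : 0 ≤ ∑ a, C.nrm ((G.il (S a))ᴴ *ᵥ u - ((c : ℝ) : ℂ) • v a) :=
      sum_nonneg fun a _ => C.nrm_nonneg _
    have h5 : ∀ a, C.nrm ((G.il (S a))ᴴ *ᵥ u - ((c : ℝ) : ℂ) • v a) =
        C.nrm ((G.il (S a))ᴴ *ᵥ u) + (c : ℝ) ^ 2 * C.nrm (v a) -
          2 * c * (C.ip ((G.il (S a))ᴴ *ᵥ u) (v a)).re := by
      intro a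
      rw [nrm_sub, nrm_smul, ip_smul_right, Complex.re_ofReal_mul, mul_assoc]
    simp only [h5, sum_sub_distrib, sum_add_distrib, ← mul_sum] at h4
    rw [← h1] at h4
    have hc' : (0 : ℝ) < c := by exact_mod_cast hc0
    refine le_of_mul_le_mul_left ?_ hc'
    nlinarith

theorem Bs.nrm_C0 (h : C.Bs Φ r k p w) :
    C.nrm ((C.C0 Φ)ᴴ *ᵥ w) = ((r : ℝ) - 1) ^ 2 * C.nrm w + C.nrm (C.A Φ *ᵥ w) := by
  have e : (C.C0 Φ)ᴴ *ᵥ w =
      -(((((r : ℝ) - 1 : ℝ)) : ℂ) • ((Φ.F.ev C.x)ᴴ *ᵥ w) + C.A Φ *ᵥ w) := by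
    rw [C0, conjTranspose_sub, conjTranspose_neg, conjTranspose_mul, conjTranspose_conjTranspose,
      Car.dG_star, C.H_star, sub_mulVec, neg_mulVec, ← mulVec_mulVec, h.dG_H, mulVec_smul]
    push_cast
    abel
  have e1 : C.nrm ((Φ.F.ev C.x)ᴴ *ᵥ w) = C.nrm w := by
    rw [c6_nrm_mulVec, conjTranspose_conjTranspose, c6_ev_il h.ann, nrm]
  have e2 : C.ip ((Φ.F.ev C.x)ᴴ *ᵥ w) (C.A Φ *ᵥ w) = 0 := by
    rw [ip_mulVec, conjTranspose_conjTranspose, c6_ev_A h.ann, ip_zero_right]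
  rw [e, c6_nrm_neg, nrm_add, nrm_smul, e1, ip_smul_left, e2]
  simp

theorem Ann.nrm_A {c : ℕ} (hM : M = n + 1 + c) (h : C.Ann Φ w) :
    C.nrm (C.A Φ *ᵥ w) ≤ c * ∑ a, ∑ b, C.nrm (C.y Φ w a b) := by
  have h1 : C.Qᵀᴴ = C.Qᵀ := by
    ext a b
    rw [conjTranspose_apply, transpose_apply, transpose_apply, ← conjTranspose_apply, C.Q_star]
  have h2 : C.Qᵀ * C.Qᵀ = C.Qᵀ := by rw [← transpose_mul, C.Q_mul]
  have h3 : C.Qᵀ.trace = (c : ℕ) := by rw [trace_transpose, C.Q_trace hM]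
  have h4 := c6_proj_bound (C := C) Φ.G h1 h2 h3 fun a => ∑ b, Φ.G.e b *ᵥ C.y Φ w a b
  rw [c6_A_eq', c6_nrm_neg]
  simpa only [c6_nrm_v h] using h4

theorem Bs.A_zero (h : C.Bs Φ r 0 p w) : C.A Φ *ᵥ w = 0 := by
  have h1 : ∑ a, C.nrm (Φ.G.i a *ᵥ w) = 0 := by
    have e : (C.ip w (Φ.G.N *ᵥ w)).re = ∑ a, C.nrm (Φ.G.i a *ᵥ w) := by
      rw [Car.N_eq, sum_mulVec, ip_sum_right, Complex.re_sum]
      refine sum_congr rfl fun a _ => ?_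
      rw [c6_nrm_mulVec, Car.i_star]
    rw [← e, h.num']
    simp [ip_zero_right]
  have h2 : ∀ a, Φ.G.i a *ᵥ w = 0 := fun a =>
    C.eq_zero_of_nrm ((sum_eq_zero_iff_of_nonneg fun a _ => C.nrm_nonneg _).1 h1 a (mem_univ a))
  simp only [A, sum_mulVec, smul_mulVec, mul_assoc, ← Φ.c4, ← mulVec_mulVec, h2, mulVec_zero,
    smul_zero, sum_const_zero]

/-- there are no harmonic forms -/
theorem Wt.vanish {c : ℕ} (hM : M = n + 1 + c) (ω : C.Wt s) {a : ℕ}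
    (ha : c + 1 ≤ a ∨ k = 0 ∧ 1 ≤ a) (h : C.Bs Φ r k p w) (hr : 2 ≤ r)
    (hp : (a : ℝ) * s + r - 1 < p + n) (h1 : ω.Da Φ a w = 0)
    (h2 : ω.δa Φ a w + (C.C0 Φ)ᴴ *ᵥ w = 0) : w = 0 := by
  have e1 := ω.ineq a h
  have e2 : ω.δa Φ a w = -((C.C0 Φ)ᴴ *ᵥ w) := eq_neg_of_add_eq_zero_left h2
  have e0 : C.nrm (0 : ι → 𝒜) = 0 := by simp [nrm, ip_zero_left]
  rw [h1, e2, c6_nrm_neg, h.nrm_C0, e0] at e1
  have hY : 0 ≤ ∑ a, ∑ b, C.nrm (C.y Φ w a b) :=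
    sum_nonneg fun a _ => sum_nonneg fun b _ => C.nrm_nonneg _
  have e3 : C.nrm (C.A Φ *ᵥ w) ≤ ((a : ℝ) - 1) * ∑ a, ∑ b, C.nrm (C.y Φ w a b) := by
    rcases ha with ha | ⟨rfl, ha⟩
    · refine (h.ann.nrm_A hM).trans (mul_le_mul_of_nonneg_right ?_ hY)
      have : (c : ℝ) + 1 ≤ a := by exact_mod_cast ha
      linarith
    · rw [h.A_zero, e0]
      have : (1 : ℝ) ≤ a := by exact_mod_cast ha
      exact mul_nonneg (by linarith) hY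
  have hN := C.nrm_nonneg w
  have hr' : (2 : ℝ) ≤ r := by exact_mod_cast hr
  refine C.eq_zero_of_nrm (le_antisymm ?_ hN)
  by_contra hlt
  have e4 : 0 < ((p : ℝ) + n - a * s - (r - 1)) * ((r - 1) * C.nrm w) :=
    mul_pos (by linarith) (mul_pos (by linarith) (not_le.1 hlt))
  nlinarith

end CR

end Pool.Agent.HCF
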