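import Pool.Agent.P.MP_f644fa_ag.C5

/-! The Bochner-Kodaira-Nakano inequality. -/

noncomputable section
namespace Pool.Agent.HCF
open Finset Module Matrix

variable {𝒜 : Type} [CommRing 𝒜] [Algebra ℂ 𝒜] [StarRing 𝒜] [StarModule ℂ 𝒜] {M n : ℕ}
  {ι : Type} [Fintype ι] [DecidableEq ι]

omit [StarRing 𝒜] [StarModule ℂ 𝒜] in
theorem c6a_m_comm (f : 𝒜) (A : Matrix ι ι 𝒜) :
    mE (f • (1 : Matrix ι ι 𝒜)) * mE A = mE A * mE (f • (1 : Matrix ι ι 𝒜)) := by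
  rw [← map_mul, ← map_mul, smul_mul_assoc, one_mul, mul_smul_comm, mul_one]

omit [StarRing 𝒜] [StarModule ℂ 𝒜] [Fintype ι] [DecidableEq ι] in
theorem c6a_neg_mul (a b : End ℂ (ι → 𝒜)) : -a * b = -(a * b) := neg_mul a b

omit [StarRing 𝒜] [StarModule ℂ 𝒜] [Fintype ι] [DecidableEq ι] in
theorem c6a_mul_neg (a b : End ℂ (ι → 𝒜)) : a * -b = -(a * b) := mul_neg a b

theorem c6a_dm (δ : Derivation ℂ 𝒜 𝒜) (f : 𝒜) : dE ι δ * mE (f • (1 : Matrix ι ι 𝒜)) =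
    mE (f • (1 : Matrix ι ι 𝒜)) * dE ι δ + mE (δ f • (1 : Matrix ι ι 𝒜)) := by
  rw [dE_mE, map_smul_one]

theorem c6a_const {δ : Derivation ℂ 𝒜 𝒜} {A : Matrix ι ι 𝒜} (h : A.map δ = 0) :
    dE ι δ * mE A = mE A * dE ι δ := by
  rw [dE_mE, h, map_zero, add_zero]

theorem c6a_dE_smul (f : 𝒜) (δ : Derivation ℂ 𝒜 𝒜) (w : ι → 𝒜) :
    dE ι (f • δ) w = f • dE ι δ w := by
  rw [dE_smul, Module.End.mul_apply, mE_apply, Matrix.smul_mulVec, Matrix.one_mulVec]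

omit [StarModule ℂ 𝒜] in
theorem c6a_dG_csmul (F : Car M ι 𝒜) (c : ℂ) (A : Matrix (Fin M) (Fin M) 𝒜) :
    F.dG (c • A) = c • F.dG A := by
  simp only [Car.dG, Finset.smul_sum, Matrix.smul_apply, smul_assoc]

omit [StarModule ℂ 𝒜] in
theorem c6a_dG_vec (F : Car M ι 𝒜) (A : Matrix (Fin M) (Fin M) 𝒜) (u : ι → 𝒜) :
    F.dG A *ᵥ u = ∑ j, ∑ k, A j k • (F.e j * F.i k) *ᵥ u := by
  simp only [Car.dG, Matrix.sum_mulVec, Matrix.smul_mulVec]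

theorem c6a_dG_gram (F : Car M ι 𝒜) {κ : Type} [Fintype κ] (ρ : κ → Fin M → 𝒜) :
    F.dG (Matrix.of fun j k => ∑ a, star (ρ a j) * ρ a k) =
      ∑ a, (F.il (ρ a))ᴴ * F.il (ρ a) := by
  simp only [Car.il_star, ← Car.dG_rank_one]
  simp only [Car.dG, Matrix.of_apply, Finset.sum_smul]
  rw [Finset.sum_comm (s := (Finset.univ : Finset κ))]
  exact Finset.sum_congr rfl fun j _ => Finset.sum_comm

omit [StarModule ℂ 𝒜] in
theorem c6a_il_vecMul (F : Car M ι 𝒜) (a : Fin M → 𝒜) (A : Matrix (Fin M) (Fin M) 𝒜) :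
    F.il (a ᵥ* A) = ∑ m, a m • F.il (A m) := by
  simp only [Car.il, Matrix.vecMul, dotProduct, Finset.sum_smul, Finset.smul_sum, smul_smul]
  exact Finset.sum_comm

namespace CR
variable {C : CR M n 𝒜} {Φ : Car2 M ι 𝒜} {s : ℝ} {w : ι → 𝒜} {r k : ℕ} {p : ℤ}

theorem c6a_Y (ω : C.Wt s) (a : ℕ) (k : Fin M) {A : Matrix ι ι 𝒜}
    (h : ∀ δ : Derivation ℂ 𝒜 𝒜, A.map δ = 0) : ω.Y a ι k * mE A = mE A * ω.Y a ι k := by
  rw [Wt.Y, add_mul, mul_add, c6a_neg_mul, c6a_mul_neg, c6a_const (h _), c6a_m_comm]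

theorem c6a_Za (ω : C.Wt s) (a : ℕ) (k : Fin M) {A : Matrix ι ι 𝒜}
    (h : ∀ δ : Derivation ℂ 𝒜 𝒜, A.map δ = 0) : ω.Za a ι k * mE A = mE A * ω.Za a ι k := by
  rw [Wt.Za, add_mul, mul_add, c6a_const (h _), c6a_m_comm]

theorem c6a_gram {κ : Type} [Fintype κ] (ρ : κ → Fin M → 𝒜) (w : ι → 𝒜) :
    (C.ip w (Φ.F.dG (Matrix.of fun j k => ∑ a, star (ρ a j) * ρ a k) *ᵥ w)).re =
      ∑ a, C.nrm (Φ.F.il (ρ a) *ᵥ w) := by
  rw [c6a_dG_gram, Matrix.sum_mulVec, ip_sum_right, Complex.re_sum]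
  refine Finset.sum_congr rfl fun a _ => ?_
  rw [← Matrix.mulVec_mulVec, ← ip_mulVec, nrm]

theorem c6a_nor (C : CR M n 𝒜) (j l : Fin M) :
    (fun k => star (C.B j k l)) ᵥ* C.Q = fun k => star (C.B j k l) := by
  funext m
  have h1 := congrFun (congrFun (C.Q_B j) m) l
  have h2 : ∀ k, C.Q k m = star (C.Q m k) := fun k =>
    (congrFun (congrFun C.Q_star k) m).symm
  rw [← h1, Matrix.mul_apply, star_sum]
  simp only [Matrix.vecMul, dotProduct, h2, star_mul]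

theorem c6a_dG_Bs (h : C.Ann Φ w) (l : Fin M) : Φ.F.dG (C.B l)ᴴ *ᵥ w = 0 := by
  rw [Car.dG_eq, Matrix.sum_mulVec]
  refine Finset.sum_eq_zero fun j _ => ?_
  have h1 : Φ.F.il ((C.B l)ᴴ j) *ᵥ w = 0 := h.il_nor (c6a_nor C l j)
  rw [← Matrix.mulVec_mulVec, h1, Matrix.mulVec_zero]

theorem c6a_il_Q (h : C.Ann Φ w) (l m : Fin M) :
    Φ.F.il (C.Q m) *ᵥ dE ι (C.Z l) w = Φ.F.il (fun k => C.B k m l) *ᵥ w := by
  have h1 := dE_mulVec (C.Z l) (Φ.F.il (C.Q m)) w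
  have h2 : (Φ.F.il fun j => C.Z l (C.Q m j)) = -Φ.F.il fun k => C.B k m l := by
    simp only [Car.il, ← Finset.sum_neg_distrib, ← neg_smul]
    refine Finset.sum_congr rfl fun k _ => ?_
    rw [C.B_symm k l m, CR.Q, CR.B, Matrix.sub_apply, map_sub, Matrix.map_apply, Matrix.one_apply]
    split_ifs <;> simp
  rw [h.nor m, map_zero, Car.map_il, h2, Matrix.neg_mulVec, ← sub_eq_add_neg] at h1
  exact sub_eq_zero.1 h1.symm

theorem c6a_Zterm (h : C.Ann Φ w) :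
    ∑ j, ∑ k, ∑ l, star (C.B j k l) • (Φ.F.e j * Φ.F.i k) *ᵥ dE ι (C.Z l) w =
      Φ.F.dG C.Θ *ᵥ w := by
  rw [c6a_dG_vec]
  refine Finset.sum_congr rfl fun j _ => ?_
  have h1 : ∀ l, ∑ k, star (C.B j k l) • (Φ.F.e j * Φ.F.i k) *ᵥ dE ι (C.Z l) w =
      ∑ m, ∑ k, (star (C.B j m l) * C.B k m l) • (Φ.F.e j * Φ.F.i k) *ᵥ w := fun l => by
    have h2 : ∑ k, star (C.B j k l) • (Φ.F.e j * Φ.F.i k) *ᵥ dE ι (C.Z l) w =
        Φ.F.e j *ᵥ Φ.F.il (fun k => star (C.B j k l)) *ᵥ dE ι (C.Z l) w := by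
      simp only [Car.il, Matrix.sum_mulVec, Matrix.smul_mulVec, Matrix.mulVec_sum,
        Matrix.mulVec_smul, Matrix.mulVec_mulVec]
    rw [h2, ← c6a_nor C j l, c6a_il_vecMul, Matrix.sum_mulVec, Matrix.mulVec_sum]
    refine Finset.sum_congr rfl fun m _ => ?_
    rw [Matrix.smul_mulVec, c6a_il_Q h]
    simp only [Car.il, Matrix.sum_mulVec, Matrix.smul_mulVec, Matrix.mulVec_sum,
      Matrix.mulVec_smul, Matrix.mulVec_mulVec, Finset.smul_sum, smul_smul]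
  rw [Finset.sum_comm]
  simp only [h1, CR.Θ, Matrix.of_apply, Finset.sum_smul]
  rw [Finset.sum_comm, Finset.sum_comm (s := (Finset.univ : Finset (Fin M)))
    (f := fun k m => ∑ l, (star (C.B j m l) * C.B k m l) • (Φ.F.e j * Φ.F.i k) *ᵥ w)]
  exact Finset.sum_congr rfl fun m _ => Finset.sum_comm

theorem c6a_Zbterm :
    ∑ j, ∑ k, ∑ l, C.B k j l • (Φ.F.e j * Φ.F.i k) *ᵥ dE ι (C.Zb l) w =
      ∑ l, Φ.F.dG (C.B l) *ᵥ dE ι (C.Zb l) w := by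
  simp only [c6a_dG_vec]
  rw [Finset.sum_comm (s := (Finset.univ : Finset (Fin M)))
    (f := fun l j => ∑ k, C.B l j k • (Φ.F.e j * Φ.F.i k) *ᵥ dE ι (C.Zb l) w)]
  refine Finset.sum_congr rfl fun j _ => ?_
  rw [Finset.sum_comm]
  exact Finset.sum_congr rfl fun l _ => Finset.sum_congr rfl fun k _ => by rw [C.B_symm k l j]

theorem Wt.comm (ω : C.Wt s) (a : ℕ) (j k : Fin M) :
    ω.Za a ι j * ω.Y a ι k - ω.Y a ι k * ω.Za a ι j = -dE ι ⁅C.Zb j, C.Z k⁆ +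
      mE (((n : ℂ) • C.H j k + ((a : ℂ) / 2) • (C.Zb j (ω.φ k) + star (C.Zb k (ω.φ j)))) •
        (1 : Matrix ι ι 𝒜)) := by
  have h1 := c6a_dm (ι := ι) (C.Zb j) ((n : ℂ) • star (C.x k) + ((a : ℂ) / 2) • ω.φ k)
  have h2 := c6a_dm (ι := ι) (C.Z k) (((a : ℂ) / 2) • star (ω.φ j))
  have h3 := c6a_m_comm (((a : ℂ) / 2) • star (ω.φ j))
    (((n : ℂ) • star (C.x k) + ((a : ℂ) / 2) • ω.φ k) • (1 : Matrix ι ι 𝒜))
  have h4 : (n : ℂ) • C.H j k + ((a : ℂ) / 2) • (C.Zb j (ω.φ k) + star (C.Zb k (ω.φ j))) =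
      C.Zb j ((n : ℂ) • star (C.x k) + ((a : ℂ) / 2) • ω.φ k) +
        C.Z k (((a : ℂ) / 2) • star (ω.φ j)) := by
    rw [map_add, Derivation.map_smul, Derivation.map_smul, Derivation.map_smul, Zb_xb, Z_star,
      smul_add, add_assoc]
  rw [h4, add_smul (C.Zb j _), map_add mE, dE_lie, Wt.Za, Wt.Y, eq_sub_of_add_eq' h1.symm,
    eq_sub_of_add_eq' h2.symm, add_mul, mul_add, mul_add, add_mul, mul_add, mul_add, h3]
  simp only [c6a_mul_neg, c6a_neg_mul]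
  abel

theorem Wt.boch (ω : C.Wt s) (a : ℕ) (Φ : Car2 M ι 𝒜) :
    ω.δa Φ a * ω.Da Φ a + ω.Da Φ a * ω.δa Φ a = ∑ j, ω.Y a ι j * ω.Za a ι j +
      ∑ j, ∑ k, mE (Φ.F.e j * Φ.F.i k) *
        (ω.Za a ι j * ω.Y a ι k - ω.Y a ι k * ω.Za a ι j) := by
  have h1 : ∀ j k, mE (Φ.F.i k) * ω.Y a ι k * (mE (Φ.F.e j) * ω.Za a ι j) =
      (if k = j then ω.Y a ι k * ω.Za a ι j else 0) -
        mE (Φ.F.e j * Φ.F.i k) * (ω.Y a ι k * ω.Za a ι j) := fun j k => by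
    rw [mul_assoc, ← mul_assoc (ω.Y a ι k), c6a_Y ω a k fun δ => Φ.F.const δ j, mul_assoc,
      ← mul_assoc (mE _), ← map_mul, eq_sub_of_add_eq (Φ.F.ie' k j), map_sub, sub_mul]
    split_ifs <;> simp
  have h2 : ∀ j k, mE (Φ.F.e j) * ω.Za a ι j * (mE (Φ.F.i k) * ω.Y a ι k) =
      mE (Φ.F.e j * Φ.F.i k) * (ω.Za a ι j * ω.Y a ι k) := fun j k => by
    rw [mul_assoc, ← mul_assoc (ω.Za a ι j), c6a_Za ω a j fun δ => Φ.F.const_i δ k, mul_assoc,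
      ← mul_assoc (mE _), ← map_mul]
  rw [Wt.δa, Wt.Da, Finset.sum_mul_sum, Finset.sum_mul_sum, Finset.sum_comm]
  simp only [h1, h2, mul_sub, Finset.sum_sub_distrib, Finset.sum_ite_eq', Finset.mem_univ, if_true]
  abel

theorem ip_dG_Θ (w : ι → 𝒜) :
    (C.ip w (Φ.F.dG C.Θ *ᵥ w)).re = ∑ a, ∑ b, C.nrm (C.y Φ w a b) := by
  have h1 := c6a_gram (C := C) (Φ := Φ) (fun (z : Fin M × Fin M) k => C.B k z.1 z.2) w
  simp only [Fintype.sum_prod_type] at h1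
  exact h1

theorem ip_dG_gram {κ : Type} [Fintype κ] (ρ : κ → Fin M → 𝒜) (w : ι → 𝒜) :
    0 ≤ (C.ip w (Φ.F.dG (Matrix.of fun j k => ∑ a, star (ρ a j) * ρ a k) *ᵥ w)).re := by
  rw [c6a_gram]
  exact Finset.sum_nonneg fun a _ => C.nrm_nonneg _

theorem Bs.bracket (h : C.Bs Φ r k p w) :
    C.ip w ((∑ j, ∑ k, mE (Φ.F.e j * Φ.F.i k) * dE ι ⁅C.Zb j, C.Z k⁆) w) =
      C.ip w (Φ.F.dG C.Θ *ᵥ w) - p * C.ip w (Φ.F.dG C.H *ᵥ w) := by
  have h1 : (∑ j, ∑ k, mE (Φ.F.e j * Φ.F.i k) * dE ι ⁅C.Zb j, C.Z k⁆) w =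
      Φ.F.dG C.Θ *ᵥ w - ∑ l, Φ.F.dG (C.B l) *ᵥ dE ι (C.Zb l) w -
        (p : ℂ) • Φ.F.dG C.H *ᵥ w := by
    rw [← c6a_Zterm h.ann, ← c6a_Zbterm, c6a_dG_vec]
    simp only [LinearMap.sum_apply, Finset.smul_sum, ← Finset.sum_sub_distrib]
    refine Finset.sum_congr rfl fun j _ => Finset.sum_congr rfl fun k _ => ?_
    rw [Module.End.mul_apply, mE_apply, lie_Zb_Z, dE_add, dE_sub, dE_sum, dE_sum,
      LinearMap.add_apply, LinearMap.sub_apply, LinearMap.sum_apply, LinearMap.sum_apply]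
    simp only [c6a_dE_smul, Matrix.mulVec_add, Matrix.mulVec_sub, Matrix.mulVec_sum,
      Matrix.mulVec_smul, h.wt, Finset.sum_sub_distrib]
    rw [sub_eq_add_neg _ ((p : ℂ) • _), smul_assoc, smul_comm (C.H j k), smul_smul, ← mul_assoc,
      Complex.I_mul_I, neg_one_mul, neg_smul]
  rw [h1, ip_sub_right, ip_sub_right, ip_smul_right, ip_sum_right, Finset.sum_eq_zero, sub_zero]
  intro l _
  rw [← star_ip, ip_mulVec, Car.dG_star, c6a_dG_Bs h.ann, ip_zero_right, star_zero]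

theorem Wt.ineq (ω : C.Wt s) (a : ℕ) (h : C.Bs Φ r k p w) :
    ((p : ℝ) + n - a * s) * ((r : ℝ) - 1) * C.nrm w +
      ((a : ℝ) - 1) * ∑ a, ∑ b, C.nrm (C.y Φ w a b) ≤
        C.nrm (ω.Da Φ a w) + C.nrm (ω.δa Φ a w) := by
  obtain ⟨U, hU⟩ : ∃ U : Matrix (Fin M) (Fin M) 𝒜, U = Matrix.of fun j k => C.Zb j (ω.φ k) :=
    ⟨_, rfl⟩
  let _ := ω.fin
  have e1 : C.nrm (ω.Da Φ a w) + C.nrm (ω.δa Φ a w) =
      (C.ip w ((ω.δa Φ a * ω.Da Φ a + ω.Da Φ a * ω.δa Φ a) w)).re := by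
    rw [LinearMap.add_apply, ip_add_right, Module.End.mul_apply, Module.End.mul_apply,
      ← ω.adj_Da a Φ w, ← (ω.adj_Da a Φ).symm w, Complex.add_re, nrm, nrm]
  have e2 : 0 ≤ (C.ip w ((∑ j, ω.Y a ι j * ω.Za a ι j) w)).re := by
    rw [LinearMap.sum_apply, ip_sum_right, Complex.re_sum]
    refine Finset.sum_nonneg fun j _ => ?_
    rw [Module.End.mul_apply, ← ω.adj_Za a j]
    exact C.nrm_nonneg _
  have e3 : (∑ j, ∑ k, mE (Φ.F.e j * Φ.F.i k) *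
      (ω.Za a ι j * ω.Y a ι k - ω.Y a ι k * ω.Za a ι j)) w =
      Φ.F.dG ((n : ℂ) • C.H + ((a : ℂ) / 2) • (U + Uᴴ)) *ᵥ w -
        (∑ j, ∑ k, mE (Φ.F.e j * Φ.F.i k) * dE ι ⁅C.Zb j, C.Z k⁆) w := by
    rw [c6a_dG_vec]
    simp only [LinearMap.sum_apply, ← Finset.sum_sub_distrib]
    refine Finset.sum_congr rfl fun j _ => Finset.sum_congr rfl fun k _ => ?_
    rw [ω.comm, mul_add, c6a_mul_neg, LinearMap.add_apply, LinearMap.neg_apply, neg_add_eq_sub,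
      ← map_mul, mE_apply, mul_smul_comm, mul_one, Matrix.smul_mulVec, hU]
    rfl
  have e4 : U = C.Θ + (Matrix.of fun j k => ∑ a, star (ω.r a j) * ω.r a k) - (s : ℂ) • C.H +
      ∑ l, ω.φ l • (C.B l)ᴴ := by
    ext j k
    rw [hU, Matrix.of_apply, ω.curv]
    simp only [Matrix.add_apply, Matrix.sub_apply, Matrix.smul_apply, Matrix.of_apply,
      Matrix.sum_apply, Matrix.conjTranspose_apply, smul_eq_mul]
    congr 1
    exact Finset.sum_congr rfl fun l _ => by rw [C.B_symm j l k, mul_comm]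
  have e5 : Φ.F.dG (∑ l, ω.φ l • (C.B l)ᴴ) *ᵥ w = 0 := by
    have : ∀ t : Finset (Fin M), Φ.F.dG (∑ l ∈ t, ω.φ l • (C.B l)ᴴ) *ᵥ w = 0 := fun t => by
      induction t using Finset.induction_on with
      | empty => rw [Finset.sum_empty, Car.dG_zero, Matrix.zero_mulVec]
      | insert l t hl ih =>
        rw [Finset.sum_insert hl, Car.dG_add, Matrix.add_mulVec, ih, Car.dG_smul,
          Matrix.smul_mulVec, c6a_dG_Bs h.ann, smul_zero, add_zero]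
    exact this _
  have e6 : C.ip w (Φ.F.dG C.H *ᵥ w) = ((r : ℂ) - 1) * C.ip w w := by
    rw [h.dG_H, ip_smul_right]
  have e7 : (C.ip w w).im = 0 := by
    have := congrArg Complex.im (C.star_ip w w)
    rw [Complex.star_def, Complex.conj_im] at this
    linarith
  have e8 : ∑ a, ∑ b, C.nrm (C.y Φ w a b) - s * ((r : ℝ) - 1) * C.nrm w ≤
      (C.ip w (Φ.F.dG U *ᵥ w)).re := by
    have h1 := ip_dG_gram (C := C) (Φ := Φ) ω.r w
    rw [e4, Car.dG_add, Car.dG_sub, Car.dG_add, c6a_dG_csmul, Matrix.add_mulVec, e5, add_zero,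
      Matrix.sub_mulVec, Matrix.add_mulVec, Matrix.smul_mulVec, ip_sub_right, ip_add_right,
      ip_smul_right, e6, Complex.sub_re, Complex.add_re, ip_dG_Θ, nrm]
    simp only [Complex.mul_re, Complex.natCast_re, Complex.natCast_im, Complex.sub_re,
      Complex.one_re, Complex.sub_im, Complex.one_im, e7, zero_mul, sub_zero, mul_zero,
      Complex.ofReal_re, Complex.ofReal_im]
    linarith
  have e9 : C.ip w (Φ.F.dG Uᴴ *ᵥ w) = star (C.ip w (Φ.F.dG U *ᵥ w)) := by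
    rw [← Car.dG_star, ← ip_mulVec, star_ip]
  rw [e1, ω.boch, LinearMap.add_apply, ip_add_right, e3, ip_sub_right, h.bracket, Car.dG_add,
    c6a_dG_csmul, c6a_dG_csmul, Car.dG_add, Matrix.add_mulVec, Matrix.smul_mulVec,
    Matrix.smul_mulVec, Matrix.add_mulVec, ip_add_right, ip_smul_right, ip_smul_right,
    ip_add_right, e9, e6, Complex.star_def, Complex.add_conj, Complex.add_re, Complex.sub_re,
    Complex.sub_re, ip_dG_Θ, nrm]
  rw [nrm] at e8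
  have e10 := mul_le_mul_of_nonneg_left e8 (Nat.cast_nonneg (α := ℝ) a)
  simp only [Complex.mul_re, Complex.natCast_re, Complex.natCast_im, Complex.sub_re,
    Complex.one_re, Complex.sub_im, Complex.one_im, e7, zero_mul, sub_zero, mul_zero,
    Complex.add_re, Complex.ofReal_re, Complex.ofReal_im, Complex.intCast_re, Complex.intCast_im,
    Complex.div_ofNat_re, Complex.div_ofNat_im]
  linarith

end CR

end Pool.Agent.HCF
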