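import Pool.Agent.P.MP_f644fa_ag.C4

/-! The weight defined by a nowhere vanishing top conormal form. -/

noncomputable section
namespace Pool.Agent.HCF
open Finset Module Matrix

variable {𝒜 : Type} [CommRing 𝒜] [Algebra ℂ 𝒜] [StarRing 𝒜] [StarModule ℂ 𝒜] {M n : ℕ}
  {κ : Type} [Fintype κ] [DecidableEq κ]

namespace CR
variable (C : CR M n 𝒜) (G : Car M κ 𝒜)

theorem c7_Pt_star : C.Pᵀᴴ = C.Pᵀ := by
  ext i j
  have := congrFun (congrFun C.P_star j) i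
  simpa [conjTranspose_apply] using this

theorem c7_Qt_star : C.Qᵀᴴ = C.Qᵀ := by
  ext i j
  have := congrFun (congrFun C.Q_star j) i
  simpa [conjTranspose_apply] using this

theorem c7_dG_tan {ν : κ → 𝒜} (ht : ∀ l, G.il (fun b => C.P b l) *ᵥ ν = 0)
    {A : Matrix (Fin M) (Fin M) 𝒜} (hA : A * C.Pᵀ = A) : G.dG A *ᵥ ν = 0 := by
  have h : ∀ j, G.il (A j) = ∑ l, A j l • G.il (fun b => C.P b l) := by
    intro j
    simp only [Car.il, Finset.smul_sum, smul_smul]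
    rw [Finset.sum_comm]
    refine Finset.sum_congr rfl fun b _ => ?_
    rw [← Finset.sum_smul]
    have := congrFun (congrFun hA j) b
    rw [Matrix.mul_apply] at this
    rw [← this]
    rfl
  rw [G.dG_eq, Matrix.sum_mulVec]
  refine Finset.sum_eq_zero fun j _ => ?_
  rw [← Matrix.mulVec_mulVec, h, Matrix.sum_mulVec]
  simp only [Matrix.smul_mulVec, ht, smul_zero, Finset.sum_const_zero, Matrix.mulVec_zero]

theorem c7_dG_P {ν : κ → 𝒜} (ht : ∀ l, G.il (fun b => C.P b l) *ᵥ ν = 0) :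
    G.dG C.Pᵀ *ᵥ ν = 0 :=
  C.c7_dG_tan G ht (by rw [← transpose_mul, C.P_mul])

theorem top_nor {c : ℕ} (hM : M = n + 1 + c) {ν : κ → 𝒜}
    (ht : ∀ l, G.il (fun b => C.P b l) *ᵥ ν = 0) (hN : G.N *ᵥ ν = (c : ℂ) • ν) (a : Fin M) :
    G.ev (fun b => C.Q a b) *ᵥ ν = 0 := by
  have h1 := G.sum_il_ev C.c7_Qt_star (by rw [← transpose_mul, C.Q_mul])
  have h2 : ∀ m, (G.il (C.Qᵀ m))ᴴ = G.ev (fun b => C.Q m b) := by
    intro m
    rw [G.il_star]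
    congr 1
    funext b
    exact congrFun (congrFun C.Q_star m) b
  have h3 : G.dG C.Qᵀ *ᵥ ν = (c : ℂ) • ν := by
    have : C.Qᵀ = 1 - C.Pᵀ := by rw [Q, transpose_sub, transpose_one]
    rw [this, G.dG_sub, Matrix.sub_mulVec, C.c7_dG_P G ht, sub_zero]
    exact hN
  have h4 : ∑ m, C.ip (G.ev (fun b => C.Q m b) *ᵥ ν) (G.ev (fun b => C.Q m b) *ᵥ ν) = 0 := by
    have : ∀ m, C.ip (G.ev (fun b => C.Q m b) *ᵥ ν) (G.ev (fun b => C.Q m b) *ᵥ ν) =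
        C.ip ν ((G.il (C.Qᵀ m) * (G.il (C.Qᵀ m))ᴴ) *ᵥ ν) := by
      intro m
      rw [← h2, C.ip_mulVec, conjTranspose_conjTranspose, Matrix.mulVec_mulVec]
    simp only [this]
    rw [← C.ip_sum_right, ← Matrix.sum_mulVec, h1, Matrix.sub_mulVec, h3, trace_transpose,
      C.Q_trace hM, Matrix.smul_mulVec, Matrix.one_mulVec, Nat.cast_smul_eq_nsmul,
      Nat.cast_smul_eq_nsmul, sub_self, C.ip_zero_right]
  have h5 : ∑ m, C.nrm (G.ev (fun b => C.Q m b) *ᵥ ν) = 0 := by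
    simp only [nrm]
    rw [← Complex.re_sum, h4, Complex.zero_re]
  exact C.eq_zero_of_nrm
    ((Finset.sum_eq_zero_iff_of_nonneg fun m _ => C.nrm_nonneg _).1 h5 a (Finset.mem_univ a))

theorem c7_dG_nor {ν : κ → 𝒜} (hn : ∀ a, G.ev (fun b => C.Q a b) *ᵥ ν = 0)
    {A : Matrix (Fin M) (Fin M) 𝒜} (hA : C.Qᵀ * A = A) : G.dG A *ᵥ ν = A.trace • ν := by
  have h : ∀ k, G.ev (fun j => A j k) = ∑ m, A m k • G.ev (fun b => C.Q m b) := by
    intro k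
    simp only [Car.ev, Finset.smul_sum, smul_smul]
    rw [Finset.sum_comm]
    refine Finset.sum_congr rfl fun b _ => ?_
    rw [← Finset.sum_smul]
    have := congrFun (congrFun hA b) k
    rw [Matrix.mul_apply] at this
    rw [← this]
    congr 1
    exact Finset.sum_congr rfl fun m _ => mul_comm _ _
  have h0 : ∀ k, G.ev (fun j => A j k) *ᵥ ν = 0 := by
    intro k
    rw [h, Matrix.sum_mulVec]
    simp only [Matrix.smul_mulVec, hn, smul_zero, Finset.sum_const_zero]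
  rw [G.dG_eq', Matrix.sum_mulVec, Matrix.trace, Finset.sum_smul]
  refine Finset.sum_congr rfl fun k _ => ?_
  rw [eq_sub_of_add_eq' (G.i_ev k fun j => A j k), Matrix.sub_mulVec, ← Matrix.mulVec_mulVec, h0,
    Matrix.mulVec_zero, sub_zero, Matrix.smul_mulVec, Matrix.one_mulVec]
  rfl

theorem hp_perp {c : ℕ} (hM : M = n + 1 + c) {ν : κ → 𝒜}
    (ht : ∀ l, G.il (fun b => C.P b l) *ᵥ ν = 0) (hN : G.N *ᵥ ν = (c : ℂ) • ν) (j k : Fin M) :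
    hp ν (G.dG (C.B k)ᵀ *ᵥ ν) = 0 ∧
      hp (G.dG (C.B j)ᵀ *ᵥ ν) (G.dG (C.B k)ᵀ *ᵥ ν) = C.Θ j k * hp ν ν ∧
      hp (G.dG (C.B j)ᵀ *ᵥ ν) (dE κ (C.Z k) ν) = -(C.Θ j k * hp ν ν) := by
  have hU : ∀ j, (C.B j)ᵀᴴ * C.Pᵀ = (C.B j)ᵀᴴ := fun j => by
    rw [← C.c7_Pt_star, ← conjTranspose_mul, ← transpose_mul, C.B_P]
  have hU' : C.Qᵀ * (C.B j)ᵀᴴ = (C.B j)ᵀᴴ := by
    rw [← C.c7_Qt_star, ← conjTranspose_mul, ← transpose_mul, C.Q_B]
  have h0 : ∀ j, G.dG (C.B j)ᵀᴴ *ᵥ ν = 0 := fun j => C.c7_dG_tan G ht (hU j)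
  have h2 : hp (G.dG (C.B j)ᵀ *ᵥ ν) (G.dG (C.B k)ᵀ *ᵥ ν) = C.Θ j k * hp ν ν := by
    have e1 := C.c7_dG_tan G ht (A := (C.B k)ᵀ * (C.B j)ᵀᴴ) (by rw [Matrix.mul_assoc, hU])
    have e2 := C.c7_dG_nor G (C.top_nor G hM ht hN) (A := (C.B j)ᵀᴴ * (C.B k)ᵀ)
      (by rw [← Matrix.mul_assoc, hU'])
    have e3 : ((C.B j)ᵀᴴ * (C.B k)ᵀ).trace = C.Θ j k := by
      simp [Matrix.trace, Matrix.mul_apply, Θ]
    rw [hp_mulVec, G.dG_star, Matrix.mulVec_mulVec, eq_add_of_sub_eq (G.dG_dG _ _), G.dG_sub,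
      Matrix.add_mulVec, Matrix.sub_mulVec, e1, e2, ← Matrix.mulVec_mulVec, h0, Matrix.mulVec_zero,
      sub_zero, add_zero, e3, hp_smul_right]
  refine ⟨?_, h2, ?_⟩
  · rw [← star_hp, hp_mulVec, G.dG_star, h0]
    simp [hp]
  · have e1 : G.dG C.Pᵀ *ᵥ dE κ (C.Z k) ν = -(G.dG (C.B k)ᵀ *ᵥ ν) := by
      have := dE_mulVec (C.Z k) (G.dG C.Pᵀ) ν
      rw [C.c7_dG_P G ht, map_zero, G.map_dG] at this
      exact eq_neg_of_add_eq_zero_left this.symm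
    have e2 : G.dG C.Pᵀ *ᵥ (G.dG (C.B j)ᵀ *ᵥ ν) = G.dG (C.B j)ᵀ *ᵥ ν := by
      rw [Matrix.mulVec_mulVec, eq_add_of_sub_eq (G.dG_dG _ _), ← transpose_mul, ← transpose_mul,
        C.B_P, C.P_B, transpose_zero, sub_zero, Matrix.add_mulVec, ← Matrix.mulVec_mulVec,
        C.c7_dG_P G ht, Matrix.mulVec_zero, add_zero]
    rw [← e2, hp_mulVec, G.dG_star, C.c7_Pt_star, e1, ← h2, ← neg_one_smul 𝒜, hp_smul_right,
      neg_one_mul]

theorem exists_Wt {c s : ℕ} (hM : M = n + 1 + c) {ν : κ → 𝒜}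
    (ht : ∀ l, G.il (fun b => C.P b l) *ᵥ ν = 0) (hN : G.N *ᵥ ν = (c : ℂ) • ν)
    (hZ : ∀ j, dE κ (C.Zb j) ν = 0) (hT : dE κ C.T ν = (Complex.I * s) • ν) {σ : 𝒜}
    (hσ : star σ = σ) (h1 : σ ^ 2 * hp ν ν = 1) : Nonempty (C.Wt s) := by
  obtain ⟨u, hu⟩ : ∃ u : 𝒜, u = algebraMap ℂ 𝒜 2⁻¹ := ⟨_, rfl⟩
  have hu2 : 2 * u = 1 := by
    rw [hu, ← map_ofNat (algebraMap ℂ 𝒜) 2, ← map_mul, mul_inv_cancel₀ two_ne_zero, map_one]
  have z1 : ∀ w : κ → 𝒜, hp 0 w = 0 := fun w => by simp [hp]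
  have z2 : ∀ w : κ → 𝒜, hp w 0 = 0 := fun w => by simp [hp]
  have d1 : ∀ δ : Derivation ℂ 𝒜 𝒜, σ ^ 2 * δ (hp ν ν) + hp ν ν * (2 * σ * δ σ) = 0 := by
    intro δ
    have := congrArg δ h1
    rw [Derivation.map_one_eq_zero, Derivation.leibniz, pow_two, Derivation.leibniz] at this
    simp only [smul_eq_mul] at this
    linear_combination this
  have d2 : ∀ δ : Derivation ℂ 𝒜 𝒜, δ (σ * hp ν ν) = u * (σ * δ (hp ν ν)) := by
    intro δ
    rw [Derivation.leibniz]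
    simp only [smul_eq_mul]
    linear_combination (u * σ * hp ν ν) * d1 δ - (σ * δ (hp ν ν) + hp ν ν * δ σ) * hu2 -
      (u * σ * δ (hp ν ν) + 2 * u * hp ν ν * δ σ) * h1
  have d3 : ∀ δ : Derivation ℂ 𝒜 𝒜, δ (σ ^ 2) = -(σ ^ 2 * (σ ^ 2 * δ (hp ν ν))) := by
    intro δ
    rw [pow_two σ, Derivation.leibniz]
    simp only [smul_eq_mul]
    linear_combination (σ ^ 2) * d1 δ - (2 * σ * δ σ) * h1
  have hT' : dE κ C.T ν = algebraMap ℂ 𝒜 (Complex.I * s) • ν := by rw [hT, algebraMap_smul]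
  have tρ : C.T (hp ν ν) = 0 := by
    rw [der_hp, C.cj_T, hT', hp_smul_left, hp_smul_right, ← algebraMap_star_comm, ← add_mul,
      ← map_add]
    simp
  have zρ : ∀ j, C.Zb j (hp ν ν) = hp (dE κ (C.Z j) ν) ν := fun j => by
    rw [der_hp, hZ, z2, add_zero, Zb, cj_cj]
  obtain ⟨φ, hφ⟩ : ∃ φ : Fin M → 𝒜, ∀ k, φ k = σ ^ 2 * hp ν (dE κ (C.Z k) ν) := ⟨_, fun _ => rfl⟩
  have sφ : ∀ j, star (φ j) = σ ^ 2 * hp (dE κ (C.Z j) ν) ν := fun j => by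
    rw [hφ, star_mul', star_pow, hσ, star_hp]
  refine ⟨⟨κ, inferInstance, σ, σ * hp ν ν, φ,
    fun a k => (σ • (dE κ (C.Z k) ν + (-φ k) • ν + G.dG (C.B k)ᵀ *ᵥ ν)) a,
    by linear_combination h1, by rw [d2, tρ, mul_zero, mul_zero], fun j => ?_, fun j k => ?_⟩⟩
  · rw [d2, zρ, sφ, Algebra.smul_def, ← hu]
    linear_combination (-(u * σ * hp (dE κ (C.Z j) ν) ν)) * h1
  · have e1 : dE κ (C.Zb j) (dE κ (C.Z k) ν) = ∑ l, star (C.B j k l) • dE κ (C.Z l) ν +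
        (-((s : ℂ) • C.H j k)) • ν := by
      have := congrArg (fun L : End ℂ (κ → 𝒜) => L ν) (dE_lie (ι := κ) (C.Zb j) (C.Z k))
      simp only [LinearMap.sub_apply, Module.End.mul_apply, hZ, map_zero, sub_zero] at this
      rw [← this, C.lie_Zb_Z, dE_add, dE_sub, dE_sum, dE_sum]
      simp only [dE_smul, LinearMap.add_apply, LinearMap.sub_apply, LinearMap.sum_apply,
        Module.End.mul_apply, hZ, map_zero, Finset.sum_const_zero, sub_zero, mE_apply,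
        Matrix.smul_mulVec, Matrix.one_mulVec, hT', smul_smul]
      congr 2
      rw [Algebra.smul_def, Algebra.smul_def, mul_right_comm, ← map_mul, ← mul_assoc,
        Complex.I_mul_I, neg_one_mul, map_neg, neg_mul]
    obtain ⟨p1, p2, p3⟩ := C.hp_perp G hM ht hN j k
    obtain ⟨p4, -, -⟩ := C.hp_perp G hM ht hN j j
    obtain ⟨-, -, p5⟩ := C.hp_perp G hM ht hN k j
    have p4' := congrArg star p4
    rw [star_hp, star_zero] at p4'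
    have p5' := congrArg star p5
    have hΘ : star (C.Θ k j) = C.Θ j k := congrFun (congrFun C.Θ_star j) k
    rw [star_hp, star_neg, star_mul', star_hp, hΘ] at p5'
    have e2 : ∑ l, star (C.B j k l) * φ l =
        σ ^ 2 * ∑ l, star (C.B j k l) * hp ν (dE κ (C.Z l) ν) := by
      rw [Finset.mul_sum]
      exact Finset.sum_congr rfl fun l _ => by rw [hφ]; ring
    change _ = _ + hp (σ • (dE κ (C.Z j) ν + (-φ j) • ν + G.dG (C.B j)ᵀ *ᵥ ν))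
      (σ • (dE κ (C.Z k) ν + (-φ k) • ν + G.dG (C.B k)ᵀ *ᵥ ν)) - _ + _
    have e3 : C.Zb j (φ k) = σ ^ 2 * C.Zb j (hp ν (dE κ (C.Z k) ν)) +
        hp ν (dE κ (C.Z k) ν) * C.Zb j (σ ^ 2) := by
      rw [hφ, Derivation.leibniz]
      simp only [smul_eq_mul]
    have e4 : cj (C.Zb j) = C.Z j := by rw [Zb, cj_cj]
    rw [e3, d3, zρ, der_hp, e4, e1, e2]
    simp only [hp_add_left, hp_add_right, hp_smul_left, hp_smul_right, hp_sum_right, star_neg, hσ,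
      p1, p2, p3, p4', p5', sφ]
    rw [hφ k, Complex.ofReal_natCast]
    linear_combination (C.Θ j k - (s : ℂ) • C.H j k -
      σ ^ 4 * hp (dE κ (C.Z j) ν) ν * hp ν (dE κ (C.Z k) ν)) * h1

end CR

end Pool.Agent.HCF
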