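import Pool.Agent.P.MP_f644fa_ag.C8a

/-! Solving the Cauchy-Riemann equation. -/

noncomputable section
namespace Pool.Agent.HCF
open Finset Module Matrix

variable {𝒜 : Type} [CommRing 𝒜] [Algebra ℂ 𝒜] [StarRing 𝒜] [StarModule ℂ 𝒜] {M n : ℕ}
  {ι : Type} [Fintype ι] [DecidableEq ι]

theorem c8_N_star (F : Car M ι 𝒜) : F.Nᴴ = F.N := by
  rw [Car.N, F.dG_star, conjTranspose_one]

theorem c8_N_map (F : Car M ι 𝒜) (δ : Derivation ℂ 𝒜 𝒜) : F.N.map δ = 0 := by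
  rw [Car.N, F.map_dG]
  have : (1 : Matrix (Fin M) (Fin M) 𝒜).map δ = 0 := by
    ext i j
    by_cases h : i = j <;> simp [Matrix.one_apply, h]
  rw [this, F.dG_zero]

theorem c8_comm_map {δ : Derivation ℂ 𝒜 𝒜} {A : Matrix ι ι 𝒜} (h : A.map δ = 0) :
    Commute (dE ι δ) (mE A) := by
  have := dE_mE (ι := ι) δ A
  rw [h, map_zero, add_zero] at this
  exact this

theorem c8_comm_mE {A B : Matrix ι ι 𝒜} (h : A * B = B * A) :
    Commute (mE A : End ℂ (ι → 𝒜)) (mE B) := by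
  have : (mE (A * B) : End ℂ (ι → 𝒜)) = mE (B * A) := by rw [h]
  rw [map_mul, map_mul] at this
  exact this

omit [StarRing 𝒜] [StarModule ℂ 𝒜] [Fintype ι] [DecidableEq ι] in
theorem c8_comm_pair {X D E : End ℂ (ι → 𝒜)} {c : ℂ} (h1 : X * D = D * X + c • D)
    (h2 : X * E = E * X - c • E) : Commute X (D * E + E * D) := by
  have e1 : X * (D * E) = D * E * X := by
    rw [← mul_assoc, h1, add_mul, mul_assoc, h2, mul_sub, smul_mul_assoc, mul_smul_comm,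
      sub_add_cancel, mul_assoc]
  have e2 : X * (E * D) = E * D * X := by
    rw [← mul_assoc, h2, sub_mul, mul_assoc, h1, mul_add, smul_mul_assoc, mul_smul_comm,
      add_sub_cancel_right, mul_assoc]
  exact Commute.add_right e1 e2

namespace CR
variable {C : CR M n 𝒜} {s : ℝ} (ω : C.Wt s) (Φ : Car2 M ι 𝒜) (a : ℕ)

theorem c8_adj_T (p : ℤ) : C.Adj (dE ι C.T - (Complex.I * p) • (1 : End ℂ (ι → 𝒜)))
    (-(dE ι C.T - (Complex.I * p) • 1)) := by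
  have h := (adj_T (C := C) (ι := ι)).sub (adj_one.smul (Complex.I * p))
  have e : star (Complex.I * (p : ℂ)) = -(Complex.I * p) := by simp
  have e2 : -dE ι C.T - (-(Complex.I * p)) • (1 : End ℂ (ι → 𝒜)) =
      -(dE ι C.T - (Complex.I * p) • 1) := by module
  rw [e, e2] at h
  exact h

theorem c8_adj_N (F : Car M ι 𝒜) (r : ℕ) :
    C.Adj (mE F.N - (r : ℂ) • (1 : End ℂ (ι → 𝒜))) (mE F.N - (r : ℂ) • 1) := by
  have h := (adj_mE (C := C) F.N).sub (adj_one.smul (r : ℂ))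
  rw [c8_N_star, star_natCast] at h
  exact h

theorem c8_adj_K : C.Adj (mE (C.K Φ)) (mE (C.K Φ)) := by
  have h := adj_mE (C := C) (C.K Φ)
  rwa [C.K_star] at h

theorem Wt.L_adj (r k : ℕ) (p : ℤ) : C.Adj (ω.L Φ a r k p) (ω.L Φ a r k p) := by
  have h1 := ω.adj_D0 Φ a
  have h2 := ((h1.mul h1.symm).add (h1.symm.mul h1)).smul (4 : ℂ)
  have e : star (4 : ℂ) = 4 := by simp
  rw [e] at h2
  have h3 := (c8_adj_T (C := C) (ι := ι) p).mul (c8_adj_T p)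
  have key : ∀ X : End ℂ (ι → 𝒜), -X * -X = X * X := fun X => neg_mul_neg X X
  rw [key] at h3
  exact (((h2.sub h3).add (c8_adj_K Φ)).add ((c8_adj_N _ r).mul (c8_adj_N _ r))).add
    ((c8_adj_N _ k).mul (c8_adj_N _ k))

theorem Wt.L_re (r k : ℕ) (p : ℤ) (w : ι → 𝒜) : (C.ip (ω.L Φ a r k p w) w).re =
    4 * (C.nrm (ω.D0s Φ a w) + C.nrm (ω.D0 Φ a w)) + C.nrm (dE ι C.T w - (Complex.I * p) • w) +
      (C.ip (C.K Φ *ᵥ w) w).re + C.nrm (Φ.F.N *ᵥ w - (r : ℂ) • w) +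
      C.nrm (Φ.G.N *ᵥ w - (k : ℂ) • w) := by
  have h1 := ω.adj_D0 Φ a
  have e1 := h1 (ω.D0s Φ a w) w
  have e2 := h1.symm (ω.D0 Φ a w) w
  have e3 := c8_adj_T (C := C) (ι := ι) p ((dE ι C.T - (Complex.I * p) • (1 : End ℂ (ι → 𝒜))) w) w
  have e4 := c8_adj_N (C := C) Φ.F r ((mE Φ.F.N - (r : ℂ) • (1 : End ℂ (ι → 𝒜))) w) w
  have e5 := c8_adj_N (C := C) Φ.G k ((mE Φ.G.N - (k : ℂ) • (1 : End ℂ (ι → 𝒜))) w) w
  rw [LinearMap.neg_apply, ← neg_one_smul ℂ, C.ip_smul_right] at e3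
  have e0 : ω.L Φ a r k p w = (4 : ℂ) • (ω.D0 Φ a (ω.D0s Φ a w) + ω.D0s Φ a (ω.D0 Φ a w)) -
      (dE ι C.T - (Complex.I * p) • (1 : End ℂ (ι → 𝒜)))
        ((dE ι C.T - (Complex.I * p) • (1 : End ℂ (ι → 𝒜))) w) + C.K Φ *ᵥ w +
      (mE Φ.F.N - (r : ℂ) • (1 : End ℂ (ι → 𝒜))) ((mE Φ.F.N - (r : ℂ) • (1 : End ℂ (ι → 𝒜))) w) +
      (mE Φ.G.N - (k : ℂ) • (1 : End ℂ (ι → 𝒜))) ((mE Φ.G.N - (k : ℂ) • (1 : End ℂ (ι → 𝒜))) w) :=
    rfl
  rw [e0, C.ip_add_left, C.ip_add_left, C.ip_add_left, C.ip_sub_left, C.ip_smul_left,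
    C.ip_add_left, e1, e2, e3, e4, e5]
  have f1 : (dE ι C.T - (Complex.I * p) • (1 : End ℂ (ι → 𝒜))) w =
    dE ι C.T w - (Complex.I * p) • w := rfl
  have f2 : (mE Φ.F.N - (r : ℂ) • (1 : End ℂ (ι → 𝒜))) w = Φ.F.N *ᵥ w - (r : ℂ) • w := rfl
  have f3 : (mE Φ.G.N - (k : ℂ) • (1 : End ℂ (ι → 𝒜))) w = Φ.G.N *ᵥ w - (k : ℂ) • w := rfl
  rw [f1, f2, f3]
  have e : star (4 : ℂ) = ((4 : ℝ) : ℂ) := by simp
  rw [e, Complex.add_re, Complex.add_re, Complex.add_re, Complex.sub_re, Complex.re_ofReal_mul,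
    Complex.add_re, neg_one_mul, Complex.neg_re, sub_neg_eq_add]
  rfl

theorem c8_Da_d1 : ω.Da Φ a ∈ D1 C.W ι :=
  Submodule.sum_mem _ fun j _ => d1_left _ (Submodule.add_mem _ (C.vf_Zb j).d1 (d1_mE _))

theorem c8_δa_d1 : ω.δa Φ a ∈ D1 C.W ι :=
  Submodule.sum_mem _ fun j _ => d1_left _
    (Submodule.add_mem _ (Submodule.neg_mem _ (C.vf_Z j).d1) (d1_mE _))

theorem c8_one_d1 : (1 : End ℂ (ι → 𝒜)) ∈ D1 C.W ι := by
  have := d1_mE (C := C) (1 : Matrix ι ι 𝒜)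
  rwa [map_one] at this

theorem c8_N_d1 (F : Car M ι 𝒜) (r : ℂ) :
    (mE F.N - r • (1 : End ℂ (ι → 𝒜))) * (mE F.N - r • 1) ∈ D1 C.W ι := by
  have e : mE F.N - r • (1 : End ℂ (ι → 𝒜)) = mE (F.N - r • 1) := by
    rw [map_sub, map_smul, map_one]
  rw [e]
  exact d1_left _ (d1_mE _)

theorem c8_boch_d1 : ω.δa Φ a * ω.Da Φ a + ω.Da Φ a * ω.δa Φ a +
    ∑ l, dE ι (C.Z l) * dE ι (C.Zb l) ∈ D1 C.W ι := by
  rw [ω.boch a Φ, add_right_comm, ← Finset.sum_add_distrib]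
  refine Submodule.add_mem _ (Submodule.sum_mem _ fun j _ => ?_)
    (Submodule.sum_mem _ fun j _ => Submodule.sum_mem _ fun k _ => d1_left _ ?_)
  · have key : ∀ Z Zb m m' : End ℂ (ι → 𝒜),
        (-Z + m) * (Zb + m') + Z * Zb = -(Z * m') + m * Zb + m * m' := by
      intro Z Zb m m'
      have k1 : ∀ X Y : End ℂ (ι → 𝒜), -X * Y = -(X * Y) := fun X Y => neg_mul X Y
      rw [add_mul, mul_add, mul_add, k1, k1]; abel
    rw [Wt.Y, Wt.Za, key]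
    exact Submodule.add_mem _ (Submodule.add_mem _
      (Submodule.neg_mem _ (d1_right _ (C.vf_Z j).d1)) (d1_left _ (C.vf_Zb j).d1))
      (d1_left _ (d1_mE _))
  · rw [ω.comm]
    exact Submodule.add_mem _ (Submodule.neg_mem _ ((C.vf_Zb j).lie (C.vf_Z k)).d1) (d1_mE _)

theorem Wt.L_d1 (r k : ℕ) (p : ℤ) : ω.L Φ a r k p + Lap C.W ι ∈ D1 C.W ι := by
  have h1 := lap_d1 C ι
  have h2 := c8_boch_d1 ω Φ a
  have h3 := c8_Da_d1 ω Φ a
  have h4 := c8_δa_d1 ω Φ a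
  have h5 : ω.D0 Φ a * ω.D0s Φ a + ω.D0s Φ a * ω.D0 Φ a +
      ∑ l, dE ι (C.Z l) * dE ι (C.Zb l) ∈ D1 C.W ι := by
    have key : ∀ D E c c' S : End ℂ (ι → 𝒜), (D + c) * (E + c') + (E + c') * (D + c) + S =
        (E * D + D * E + S) + (D * c' + c * E + c * c' + E * c + c' * D + c' * c) := by
      intro D E c c' S; noncomm_ring
    rw [Wt.D0, Wt.D0s, key]
    exact Submodule.add_mem _ h2 (Submodule.add_mem _ (Submodule.add_mem _ (Submodule.add_mem _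
      (Submodule.add_mem _ (Submodule.add_mem _ (d1_right _ h3) (d1_left _ h4))
      (d1_left _ (d1_mE _))) (d1_right _ h4)) (d1_left _ h3)) (d1_left _ (d1_mE _)))
  have h6 : dE ι C.T * dE ι C.T - (dE ι C.T - (Complex.I * p) • (1 : End ℂ (ι → 𝒜))) *
      (dE ι C.T - (Complex.I * p) • 1) ∈ D1 C.W ι := by
    have key : ∀ (T : End ℂ (ι → 𝒜)) (c : ℂ), T * T - (T - c • 1) * (T - c • 1) =
        c • T + c • T - (c * c) • 1 := by
      intro T c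
      simp only [mul_sub, sub_mul, smul_mul_assoc, mul_smul_comm, mul_one, one_mul, smul_sub,
        smul_smul]
      abel
    rw [key]
    exact Submodule.sub_mem _ (Submodule.add_mem _ (Submodule.smul_mem _ _ C.vf_T.d1)
      (Submodule.smul_mem _ _ C.vf_T.d1)) (Submodule.smul_mem _ _ c8_one_d1)
  have h7 := Submodule.add_mem _ (Submodule.add_mem _ (Submodule.add_mem _ (Submodule.add_mem _
    (Submodule.add_mem _ h1 (Submodule.smul_mem _ (4 : ℂ) h5)) h6) (d1_mE (C.K Φ)))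
    (c8_N_d1 Φ.F (r : ℂ))) (c8_N_d1 Φ.G (k : ℂ))
  have key : ∀ La S TT X Tp K N N' : End ℂ (ι → 𝒜), (4 : ℂ) • X - Tp + K + N + N' + La =
      La - ((4 : ℂ) • S + TT) + (4 : ℂ) • (X + S) + (TT - Tp) + K + N + N' := by
    intro La S TT X Tp K N N'
    rw [smul_add]; abel
  rw [Wt.L, key _ (∑ l, dE ι (C.Z l) * dE ι (C.Zb l)) (dE ι C.T * dE ι C.T)]
  exact h7

theorem c8_comm_L {X : End ℂ (ι → 𝒜)} (r k : ℕ) (p : ℤ)
    (h1 : Commute X (ω.D0 Φ a * ω.D0s Φ a + ω.D0s Φ a * ω.D0 Φ a)) (h2 : Commute X (dE ι C.T))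
    (h3 : Commute X (mE (C.K Φ))) (h4 : Commute X (mE Φ.F.N)) (h5 : Commute X (mE Φ.G.N)) :
    Commute X (ω.L Φ a r k p) := by
  have h0 : ∀ c : ℂ, Commute X (c • (1 : End ℂ (ι → 𝒜))) := fun c =>
    (Commute.one_right X).smul_right c
  exact ((((h1.smul_right _).sub_right ((h2.sub_right (h0 _)).mul_right
    (h2.sub_right (h0 _)))).add_right h3).add_right
    ((h4.sub_right (h0 _)).mul_right (h4.sub_right (h0 _)))).add_right
    ((h5.sub_right (h0 _)).mul_right (h5.sub_right (h0 _)))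

theorem c8_pow (w : ι → 𝒜) : ω.σ ^ a • ω.τ ^ a • w = w := by
  rw [smul_smul, ← mul_pow, ω.στ, one_pow, one_smul]

theorem c8_pow' (w : ι → 𝒜) : ω.τ ^ a • ω.σ ^ a • w = w := by
  rw [smul_smul, ← mul_pow, mul_comm, ω.στ, one_pow, one_smul]

variable {Φ a}

theorem c8_D0 {w : ι → 𝒜} (h : C.Ann Φ w) : ω.D0 Φ a w = ω.Da Φ a w := by
  rw [Wt.D0, LinearMap.add_apply, mE_apply, h.C0, add_zero]

theorem c8_ann {X : End ℂ (ι → 𝒜)} (hX : mE (C.K Φ) * X = X * mE (C.K Φ)) {w : ι → 𝒜}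
    (h : C.Ann Φ w) : C.Ann Φ (X w) := by
  rw [C.ann_iff] at h ⊢
  have := LinearMap.congr_fun hX w
  rw [Module.End.mul_apply, Module.End.mul_apply, mE_apply, mE_apply, h, map_zero] at this
  exact this

theorem c8_D0D0 {w : ι → 𝒜} (h : C.Ann Φ w) : ω.D0 Φ a (ω.D0 Φ a w) = 0 := by
  have h1 : C.Ann Φ (ω.τ ^ a • w) := by
    rw [C.ann_iff] at h ⊢
    rw [Matrix.mulVec_smul, h, smul_zero]
  rw [c8_D0 ω (c8_ann (ω.K_D0 Φ a) h), c8_D0 ω h, ← c8_pow ω a w, ω.Da_conj, ω.Da_conj, h1.DD,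
    smul_zero]

/-- there are no harmonic forms -/
def Wt.NoHarm (Φ : Car2 M ι 𝒜) (a r k : ℕ) (p : ℤ) : Prop :=
  ∀ w, C.Bs Φ r k p w → ω.Da Φ a w = 0 → ω.δa Φ a w + (C.C0 Φ)ᴴ *ᵥ w = 0 → w = 0

theorem c8_inj {k r : ℕ} {p : ℤ} (hv : ω.NoHarm Φ a r k p) {w : ι → 𝒜}
    (h : ω.L Φ a r k p w = 0) : w = 0 := by
  have e := ω.L_re Φ a r k p w
  rw [h, C.ip_zero_left, Complex.zero_re] at e
  have n1 := C.nrm_nonneg (ω.D0s Φ a w)
  have n2 := C.nrm_nonneg (ω.D0 Φ a w)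
  have n3 := C.nrm_nonneg (dE ι C.T w - (Complex.I * p) • w)
  have n4 := C.K_nonneg Φ w
  have n5 := C.nrm_nonneg (Φ.F.N *ᵥ w - (r : ℂ) • w)
  have n6 := C.nrm_nonneg (Φ.G.N *ᵥ w - (k : ℂ) • w)
  have hA : C.Ann Φ w := C.ann_of_re Φ (by linarith)
  have hB : C.Bs Φ r k p w := ⟨hA, sub_eq_zero.1 (C.eq_zero_of_nrm (by linarith)),
    sub_eq_zero.1 (C.eq_zero_of_nrm (by linarith)), sub_eq_zero.1 (C.eq_zero_of_nrm (by linarith))⟩
  have z1 : ω.D0s Φ a w = 0 := C.eq_zero_of_nrm (by linarith)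
  have z2 : ω.D0 Φ a w = 0 := C.eq_zero_of_nrm (by linarith)
  exact hv w hB (by rw [← c8_D0 ω hA, z2]) z1

theorem Wt.solve_a {k r : ℕ} {p : ℤ} (hv : ω.NoHarm Φ a (r + 1) k (p + 1))
    {w : ι → 𝒜} (h : C.Bs Φ (r + 1) k (p + 1) w)
    (h0 : ω.Da Φ a w = 0) : ∃ v, C.Bs Φ r k p v ∧ ω.Da Φ a v = w := by
  have hinj : ∀ u, ω.L Φ a (r + 1) k (p + 1) u = 0 → u = 0 := fun u hu =>
    c8_inj ω hv hu
  obtain ⟨g, u, hg, hu⟩ := C.ell ι (ω.L Φ a (r + 1) k (p + 1)) (ω.L_adj Φ a _ _ _) (fun u => by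
    have e := ω.L_re Φ a (r + 1) k (p + 1) u
    have n1 := C.nrm_nonneg (ω.D0s Φ a u)
    have n2 := C.nrm_nonneg (ω.D0 Φ a u)
    have n3 := C.nrm_nonneg (dE ι C.T u - (Complex.I * (p + 1 : ℤ)) • u)
    have n4 := C.K_nonneg Φ u
    have n5 := C.nrm_nonneg (Φ.F.N *ᵥ u - ((r + 1 : ℕ) : ℂ) • u)
    have n6 := C.nrm_nonneg (Φ.G.N *ᵥ u - (k : ℂ) • u)
    change 0 ≤ (C.ip _ _).re
    linarith) (ω.L_d1 Φ a _ _ _) w
  rw [hinj g hg, zero_add] at hu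
  have eig : ∀ (X : End ℂ (ι → 𝒜)) (z : ℂ), Commute X (ω.L Φ a (r + 1) k (p + 1)) →
      X w = z • w → X u = z • u := by
    intro X z hX hw
    refine sub_eq_zero.1 (hinj _ ?_)
    have := LinearMap.congr_fun hX.eq u
    rw [Module.End.mul_apply, Module.End.mul_apply, ← hu] at this
    rw [map_sub, map_smul, ← this, ← hu, hw, sub_self]
  have cTK : Commute (dE ι C.T) (mE (C.K Φ)) := c8_comm_map (C.T_K Φ)
  have cTN : Commute (dE ι C.T) (mE Φ.F.N) := c8_comm_map (c8_N_map _ _)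
  have cTN' : Commute (dE ι C.T) (mE Φ.G.N) := c8_comm_map (c8_N_map _ _)
  have cNK : Commute (mE Φ.F.N : End ℂ (ι → 𝒜)) (mE (C.K Φ)) := c8_comm_mE (C.N_K Φ)
  have cN'K : Commute (mE Φ.G.N : End ℂ (ι → 𝒜)) (mE (C.K Φ)) := c8_comm_mE (C.N'_K Φ)
  have cNN : Commute (mE Φ.F.N : End ℂ (ι → 𝒜)) (mE Φ.G.N) := c8_comm_mE (Φ.dG_dG 1 1)
  have uK : mE (C.K Φ) u = (0 : ℂ) • u := eig _ _ (c8_comm_L ω Φ a _ _ _
    (c8_comm_pair (c := 0) (by rw [ω.K_D0, zero_smul, add_zero])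
      (by rw [ω.K_D0s, zero_smul, sub_zero])) cTK.symm (Commute.refl _) cNK.symm cN'K.symm)
    (by rw [mE_apply, (C.ann_iff Φ w).1 h.ann, zero_smul])
  have uN : mE Φ.F.N u = ((r + 1 : ℕ) : ℂ) • u := eig _ _ (c8_comm_L ω Φ a _ _ _
    (c8_comm_pair (c := 1) (by rw [ω.N_D0, one_smul]) (by rw [ω.N_D0s, one_smul]))
    cTN.symm cNK (Commute.refl _) cNN) h.num
  have uN' : mE Φ.G.N u = (k : ℂ) • u := eig _ _ (c8_comm_L ω Φ a _ _ _
    (c8_comm_pair (c := 0) (by rw [ω.N'_D0, zero_smul, add_zero])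
      (by rw [ω.N'_D0s, zero_smul, sub_zero])) cTN'.symm cN'K cNN.symm (Commute.refl _)) h.num'
  have uT : dE ι C.T u = (Complex.I * (p + 1 : ℤ)) • u := eig _ _ (c8_comm_L ω Φ a _ _ _
    (c8_comm_pair (ω.T_D0 Φ a) (ω.T_D0s Φ a)) (Commute.refl _) cTK cTN cTN') h.wt
  rw [zero_smul] at uK
  have hA : C.Ann Φ u := (C.ann_iff Φ u).2 uK
  have hA' : C.Ann Φ (ω.D0s Φ a u) := c8_ann (ω.K_D0s Φ a) hA
  have e0 : w = (4 : ℂ) • (ω.D0 Φ a (ω.D0s Φ a u) + ω.D0s Φ a (ω.D0 Φ a u)) := by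
    rw [hu, Wt.L]
    simp only [LinearMap.add_apply, LinearMap.sub_apply, LinearMap.smul_apply,
      Module.End.mul_apply, Module.End.one_apply, uK, uN, uN', uT, sub_self, map_zero, smul_zero,
      add_zero, sub_zero]
  have e1 : ω.D0 Φ a (ω.D0s Φ a (ω.D0 Φ a u)) = 0 := by
    have : ω.D0 Φ a w = 0 := by rw [c8_D0 ω h.ann, h0]
    rw [e0, map_smul, map_add, c8_D0D0 ω hA', zero_add] at this
    exact (smul_eq_zero.1 this).resolve_left (by norm_num)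
  have e2 : ω.D0s Φ a (ω.D0 Φ a u) = 0 := by
    refine C.eq_zero_of_nrm ?_
    rw [nrm, ← ω.adj_D0 Φ a, e1, C.ip_zero_left, Complex.zero_re]
  have hB : C.Bs Φ r k p (ω.D0s Φ a u) := by
    refine ⟨hA', ?_, ?_, ?_⟩
    · have := LinearMap.congr_fun (ω.N_D0s Φ a) u
      rw [LinearMap.sub_apply, Module.End.mul_apply, Module.End.mul_apply, uN, map_smul,
        mE_apply] at this
      rw [this, Nat.cast_succ, add_smul, one_smul, add_sub_cancel_right]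
    · have := LinearMap.congr_fun (ω.N'_D0s Φ a) u
      rw [Module.End.mul_apply, Module.End.mul_apply, uN', map_smul, mE_apply] at this
      exact this
    · have := LinearMap.congr_fun (ω.T_D0s Φ a) u
      rw [LinearMap.sub_apply, Module.End.mul_apply, Module.End.mul_apply, uT, map_smul,
        LinearMap.smul_apply] at this
      rw [this, ← sub_smul]
      congr 1
      push_cast; ring
  refine ⟨(4 : ℂ) • ω.D0s Φ a u, hB.smul 4, ?_⟩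
  rw [map_smul, ← c8_D0 ω hA', e0, e2, add_zero]

theorem Wt.solve_of {k r : ℕ} {p : ℤ} (hv : ω.NoHarm Φ a (r + 1) k (p + 1))
    {w : ι → 𝒜} (h : C.Bs Φ (r + 1) k (p + 1) w)
    (h0 : C.D Φ w = 0) : ∃ v, C.Bs Φ r k p v ∧ C.D Φ v = w := by
  have t1 : C.T (ω.σ ^ a) = (Complex.I * (0 : ℤ)) • ω.σ ^ a := by
    rw [Derivation.leibniz_pow, ω.T_σ]; simp
  have t2 : C.T (ω.τ ^ a) = (Complex.I * (0 : ℤ)) • ω.τ ^ a := by
    rw [Derivation.leibniz_pow, ω.T_τ]; simp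
  have h1 := h.fsmul t1
  rw [add_zero] at h1
  obtain ⟨v, hv, hv'⟩ := ω.solve_a hv h1 (by rw [ω.Da_conj, h0, smul_zero])
  have h2 := hv.fsmul t2
  rw [add_zero] at h2
  refine ⟨_, h2, ?_⟩
  rw [← c8_pow ω a v, ω.Da_conj] at hv'
  rw [← c8_pow' ω a (C.D Φ _), hv', c8_pow']

include ω in
theorem Wt.solve {c k r : ℕ} {p : ℤ} (hM : M = n + 1 + c) (ha : c + 1 ≤ a ∨ k = 0 ∧ 1 ≤ a)
    (hr : 1 ≤ r) (hp : (a : ℝ) * s + r - 1 < p + n) {w : ι → 𝒜} (h : C.Bs Φ (r + 1) k (p + 1) w)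
    (h0 : C.D Φ w = 0) : ∃ v, C.Bs Φ r k p v ∧ C.D Φ v = w :=
  ω.solve_of (a := a)
    (fun _ hB h1 h2 => ω.vanish hM ha hB (by omega) (by push_cast; linarith) h1 h2) h h0

end CR

end Pool.Agent.HCF
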