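import Pool.Agent.P.MP_f644fa_ag.C6

/-! Solving the Cauchy-Riemann equation. -/

noncomputable section
namespace Pool.Agent.HCF
open Finset Module Matrix

variable {𝒜 : Type} [CommRing 𝒜] [Algebra ℂ 𝒜] [StarRing 𝒜] [StarModule ℂ 𝒜] {M n : ℕ}
  {ι : Type} [Fintype ι] [DecidableEq ι]

namespace CR
variable {C : CR M n 𝒜} {s : ℝ} (ω : C.Wt s) (Φ : Car2 M ι 𝒜) (a : ℕ)

/-- the part of the operator that commutes with `K` -/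
def Wt.D0 : End ℂ (ι → 𝒜) := ω.Da Φ a + mE (C.C0 Φ)
/-- its adjoint -/
def Wt.D0s : End ℂ (ι → 𝒜) := ω.δa Φ a + mE (C.C0 Φ)ᴴ
/-- the elliptic operator -/
def Wt.L (r k : ℕ) (p : ℤ) : End ℂ (ι → 𝒜) :=
  (4 : ℂ) • (ω.D0 Φ a * ω.D0s Φ a + ω.D0s Φ a * ω.D0 Φ a) -
    (dE ι C.T - (Complex.I * p) • 1) * (dE ι C.T - (Complex.I * p) • 1) + mE (C.K Φ) +
    (mE Φ.F.N - (r : ℂ) • 1) * (mE Φ.F.N - (r : ℂ) • 1) +
    (mE Φ.G.N - (k : ℂ) • 1) * (mE Φ.G.N - (k : ℂ) • 1)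

/-- multiplication by `σ ^ a` -/
def Wt.c8a_S (ι : Type) [Fintype ι] [DecidableEq ι] : End ℂ (ι → 𝒜) :=
  mE (ω.σ ^ a • (1 : Matrix ι ι 𝒜))

theorem Wt.c8a_cancel {X Y : End ℂ (ι → 𝒜)} (h : X * ω.c8a_S a ι = Y * ω.c8a_S a ι) : X = Y := by
  have e : ω.c8a_S a ι * mE (ω.τ ^ a • (1 : Matrix ι ι 𝒜)) = 1 := by
    rw [Wt.c8a_S, ← map_mul, smul_mul_smul_comm, one_mul, ← mul_pow, ω.στ, one_pow, one_smul,
      map_one]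
  rw [← mul_one X, ← mul_one Y, ← e, ← mul_assoc, ← mul_assoc, h]

theorem Wt.c8a_Da : ω.Da Φ a * ω.c8a_S a ι = ω.c8a_S a ι * C.D Φ := by
  refine LinearMap.ext fun w => ?_
  simp only [Wt.c8a_S, Module.End.mul_apply, mE_apply, Matrix.smul_mulVec, Matrix.one_mulVec]
  exact ω.Da_conj a w

theorem Wt.c8a_mE (X : Matrix ι ι 𝒜) : mE X * ω.c8a_S a ι = ω.c8a_S a ι * mE X := by
  rw [Wt.c8a_S, ← map_mul, ← map_mul, Matrix.mul_smul, Matrix.smul_mul, mul_one, one_mul]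

theorem Wt.c8a_T : dE ι C.T * ω.c8a_S a ι = ω.c8a_S a ι * dE ι C.T := by
  rw [Wt.c8a_S, dE_mE, map_smul_one, Derivation.leibniz_pow, ω.T_σ]
  simp

theorem Wt.c8a_wt {X : End ℂ (ι → 𝒜)} {c : ℂ} (hS : X * ω.c8a_S a ι = ω.c8a_S a ι * X)
    (hK : X * mE (C.K Φ) = mE (C.K Φ) * X) (hD : X * C.D Φ = C.D Φ * X + c • C.D Φ) :
    X * ω.D0 Φ a = ω.D0 Φ a * X + c • ω.D0 Φ a := by
  have h1 : X * ω.Da Φ a = ω.Da Φ a * X + c • ω.Da Φ a := ω.c8a_cancel a (by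
    rw [mul_assoc, ω.c8a_Da, ← mul_assoc, hS, mul_assoc, hD, add_mul, mul_assoc, hS,
      ← mul_assoc (ω.Da Φ a), smul_mul_assoc, ω.c8a_Da, mul_add, mul_smul_comm, mul_assoc])
  have h2 : X * mE (C.C0 Φ) = mE (C.C0 Φ) * X + c • mE (C.C0 Φ) := by
    rw [← C.K_D Φ, mul_sub, sub_mul, ← mul_assoc, hK, mul_assoc, hD, ← mul_assoc X, hD, add_mul,
      mul_assoc _ X, hK, mul_add, mul_smul_comm, smul_mul_assoc, smul_sub, mul_assoc, mul_assoc]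
    abel
  rw [Wt.D0, mul_add, add_mul, h1, h2, smul_add]
  abel

theorem Wt.adj_D0 : C.Adj (ω.D0 Φ a) (ω.D0s Φ a) := (ω.adj_Da a Φ).add (adj_mE _)
theorem Wt.K_D0 : mE (C.K Φ) * ω.D0 Φ a = ω.D0 Φ a * mE (C.K Φ) := by
  have h1 : mE (C.K Φ) * ω.Da Φ a - ω.Da Φ a * mE (C.K Φ) = mE (C.C0 Φ) := ω.c8a_cancel a (by
    rw [sub_mul, mul_assoc, ω.c8a_Da, ← mul_assoc, ω.c8a_mE, mul_assoc (ω.Da Φ a), ω.c8a_mE,
      ← mul_assoc (ω.Da Φ a), ω.c8a_Da, ω.c8a_mE, mul_assoc, mul_assoc, ← mul_sub, C.K_D])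
  have h2 := congrArg mE (C.K_C0 Φ)
  rw [map_sub, map_mul, map_mul, map_neg] at h2
  rw [Wt.D0, mul_add, add_mul, sub_eq_iff_eq_add.1 h1, sub_eq_iff_eq_add.1 h2]
  abel
theorem Wt.N_D0 : mE Φ.F.N * ω.D0 Φ a = ω.D0 Φ a * mE Φ.F.N + ω.D0 Φ a := by
  have := ω.c8a_wt Φ a (c := 1) (ω.c8a_mE a Φ.F.N)
    (by rw [← map_mul, ← map_mul, C.N_K]) (by rw [one_smul, C.N_D])
  rwa [one_smul] at this
theorem Wt.N'_D0 : mE Φ.G.N * ω.D0 Φ a = ω.D0 Φ a * mE Φ.G.N := by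
  have := ω.c8a_wt Φ a (c := 0) (ω.c8a_mE a Φ.G.N)
    (by rw [← map_mul, ← map_mul, C.N'_K]) (by rw [zero_smul, add_zero, C.N'_D])
  rwa [zero_smul, add_zero] at this
theorem Wt.T_D0 : dE ι C.T * ω.D0 Φ a = ω.D0 Φ a * dE ι C.T + Complex.I • ω.D0 Φ a :=
  ω.c8a_wt Φ a (ω.c8a_T a) (by rw [dE_mE, C.T_K, map_zero, add_zero]) (C.T_D Φ)

theorem c8a_adj_N (F : Car M ι 𝒜) : C.Adj (mE F.N) (mE F.N) := by
  have := adj_mE (C := C) F.N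
  rwa [Car.N, F.dG_star, conjTranspose_one] at this

theorem Wt.K_D0s : mE (C.K Φ) * ω.D0s Φ a = ω.D0s Φ a * mE (C.K Φ) := by
  have hK := adj_mE (C := C) (C.K Φ)
  rw [C.K_star] at hK
  exact ((ω.adj_D0 Φ a).mul hK).unique (ω.K_D0 Φ a ▸ hK.mul (ω.adj_D0 Φ a))
theorem Wt.N_D0s : mE Φ.F.N * ω.D0s Φ a = ω.D0s Φ a * mE Φ.F.N - ω.D0s Φ a :=
  eq_sub_of_add_eq ((((ω.adj_D0 Φ a).mul (c8a_adj_N _)).add (ω.adj_D0 Φ a)).unique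
    (ω.N_D0 Φ a ▸ (c8a_adj_N _).mul (ω.adj_D0 Φ a)))
theorem Wt.N'_D0s : mE Φ.G.N * ω.D0s Φ a = ω.D0s Φ a * mE Φ.G.N :=
  ((ω.adj_D0 Φ a).mul (c8a_adj_N _)).unique (ω.N'_D0 Φ a ▸ (c8a_adj_N _).mul (ω.adj_D0 Φ a))
theorem Wt.T_D0s : dE ι C.T * ω.D0s Φ a = ω.D0s Φ a * dE ι C.T - Complex.I • ω.D0s Φ a := by
  have := (((ω.adj_D0 Φ a).mul adj_T).add ((ω.adj_D0 Φ a).smul Complex.I)).unique
    (ω.T_D0 Φ a ▸ adj_T.mul (ω.adj_D0 Φ a))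
  rw [Complex.star_def, Complex.conj_I] at this
  refine LinearMap.ext fun w => ?_
  have h2 := LinearMap.congr_fun this w
  simp only [LinearMap.add_apply, Module.End.mul_apply, LinearMap.neg_apply, LinearMap.smul_apply,
    map_neg, _root_.neg_smul, LinearMap.sub_apply] at h2 ⊢
  linear_combination -h2

end CR

end Pool.Agent.HCF
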