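import Mathlib

/-! The exterior algebra in coordinates, with values in a module. -/

noncomputable section
namespace Pool.Agent.HCF
open Finset

section defs
variable {σ : Type} [LinearOrder σ]

/-- the sign -/
def sg (j : σ) (J : Finset σ) : ℤ := (-1) ^ (J.filter (· < j)).card

variable (R : Type) [CommRing R] (N : Type) [AddCommGroup N] [Module R N]

/-- exterior multiplication by a basis vector -/
def ep (j : σ) : Module.End R (Finset σ → N) where
  toFun y J := if j ∈ J then sg j J • y (J.erase j) else 0
  map_add' a b := by ext J; by_cases h : j ∈ J <;> simp [h]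
  map_smul' c a := by ext J; by_cases h : j ∈ J <;> simp [h, smul_comm c]

/-- contraction with a basis vector -/
def io (j : σ) : Module.End R (Finset σ → N) where
  toFun y J := if j ∈ J then 0 else sg j J • y (insert j J)
  map_add' a b := by ext J; by_cases h : j ∈ J <;> simp [h]
  map_smul' c a := by ext J; by_cases h : j ∈ J <;> simp [h, smul_comm c]

/-- the projection to degree `k` -/
def pik (k : ℕ) : Module.End R (Finset σ → N) where
  toFun y J := if J.card = k then y J else 0
  map_add' a b := by ext J; by_cases h : J.card = k <;> simp [h]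
  map_smul' c a := by ext J; by_cases h : J.card = k <;> simp [h]

variable {R} [Fintype σ]

/-- exterior multiplication by a vector -/
def epv (a : σ → R) : Module.End R (Finset σ → N) := ∑ j, a j • ep R N j

/-- contraction with a vector (bilinear pairing) -/
def iov (a : σ → R) : Module.End R (Finset σ → N) := ∑ j, a j • io R N j

/-- the operator `∑ t j l • ep l * io j` -/
def kt (t : Matrix σ σ R) : Module.End R (Finset σ → N) :=
  ∑ l, ep R N l * iov N fun j => t j l

variable (R) in
/-- the number operator -/
def num : Module.End R (Finset σ → N) := ∑ j, ep R N j * io R N j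

variable {N}

/-- `y` has degree `k` -/
def Deg (k : ℕ) (y : Finset σ → N) : Prop := ∀ J, J.card ≠ k → y J = 0

/-- `y` has only components of degree at most `r` -/
def Lev (r : ℕ) (y : Finset σ → N) : Prop := ∀ J, r < J.card → y J = 0

/-- `y` has only components of degree at least `r` -/
def Up (r : ℕ) (y : Finset σ → N) : Prop := ∀ J, J.card < r → y J = 0

end defs

variable {σ : Type} [LinearOrder σ] {R : Type} [CommRing R] {N : Type} [AddCommGroup N] [Module R N]

theorem ep_apply (j : σ) (y : Finset σ → N) (J : Finset σ) :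
    ep R N j y J = if j ∈ J then sg j J • y (J.erase j) else 0 := rfl
theorem io_apply (j : σ) (y : Finset σ → N) (J : Finset σ) :
    io R N j y J = if j ∈ J then 0 else sg j J • y (insert j J) := rfl
theorem pik_apply (k : ℕ) (y : Finset σ → N) (J : Finset σ) :
    pik R N k y J = if J.card = k then y J else 0 := rfl

theorem sg_mul_self (j : σ) (J : Finset σ) : sg j J * sg j J = 1 := by
  rw [sg, ← mul_pow]; simp

theorem sg_insert_self (j : σ) (J : Finset σ) : sg j (insert j J) = sg j J := by
  rw [sg, sg, filter_insert, if_neg (lt_irrefl j)]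

theorem sg_erase_self (j : σ) (J : Finset σ) : sg j (J.erase j) = sg j J := by
  by_cases h : j ∈ J
  · rw [← sg_insert_self, insert_erase h]
  · rw [erase_eq_of_notMem h]

theorem fock_sg_insert (j : σ) {k : σ} {J : Finset σ} (h : k ∉ J) :
    sg j (insert k J) = if k < j then -sg j J else sg j J := by
  rw [sg, sg, filter_insert]
  split_ifs with h1
  · rw [card_insert_of_notMem (fun h2 => h (mem_filter.1 h2).1), pow_succ]; ring
  · rfl

theorem fock_sg_erase (j : σ) {k : σ} {J : Finset σ} (h : k ∈ J) :
    sg j (J.erase k) = if k < j then -sg j J else sg j J := by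
  have h1 := fock_sg_insert j (notMem_erase k J)
  rw [insert_erase h] at h1
  rw [h1]
  split_ifs <;> simp


theorem ep_sq (j : σ) : ep R N j * ep R N j = 0 := by
  ext y J
  simp [ep_apply]

theorem io_sq (j : σ) : io R N j * io R N j = 0 := by
  ext y J
  simp [io_apply]

theorem ep_ep (j k : σ) : ep R N j * ep R N k + ep R N k * ep R N j = 0 := by
  rcases eq_or_ne j k with rfl | hne
  · rw [ep_sq, add_zero]
  refine LinearMap.ext fun y => funext fun J => ?_
  show ep R N j (ep R N k y) J + ep R N k (ep R N j y) J = 0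
  simp only [ep_apply, mem_erase, ne_eq, hne, hne.symm, not_false_eq_true, true_and]
  by_cases hj : j ∈ J <;> by_cases hk : k ∈ J <;>
    simp only [hj, hk, if_true, if_false, smul_zero, add_zero]
  rw [fock_sg_erase k hj, fock_sg_erase j hk, erase_right_comm (a := k), smul_smul, smul_smul,
    ← add_smul]
  rcases lt_or_gt_of_ne hne with h | h <;> simp [h, h.not_gt, mul_comm]

theorem io_io (j k : σ) : io R N j * io R N k + io R N k * io R N j = 0 := by
  rcases eq_or_ne j k with rfl | hne
  · rw [io_sq, add_zero]
  refine LinearMap.ext fun y => funext fun J => ?_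
  show io R N j (io R N k y) J + io R N k (io R N j y) J = 0
  simp only [io_apply, mem_insert, hne, hne.symm, false_or]
  by_cases hj : j ∈ J <;> by_cases hk : k ∈ J <;>
    simp only [hj, hk, if_true, if_false, smul_zero, add_zero]
  rw [fock_sg_insert k hj, fock_sg_insert j hk, insert_comm k j, smul_smul, smul_smul,
    ← add_smul]
  rcases lt_or_gt_of_ne hne with h | h <;> simp [h, h.not_gt, mul_comm]

theorem io_ep (j k : σ) :
    io R N j * ep R N k + ep R N k * io R N j = if j = k then 1 else 0 := by
  refine LinearMap.ext fun y => funext fun J => ?_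
  show io R N j (ep R N k y) J + ep R N k (io R N j y) J = _
  rcases eq_or_ne j k with rfl | hne
  · rw [if_pos rfl]
    show _ = y J
    by_cases hj : j ∈ J
    · simp [ep_apply, io_apply, hj, sg_erase_self, smul_smul, sg_mul_self]
    · simp [ep_apply, io_apply, hj, sg_insert_self, smul_smul, sg_mul_self]
  rw [if_neg hne]
  show _ = 0
  simp only [io_apply, ep_apply, mem_insert, mem_erase, ne_eq, hne, hne.symm, false_or,
    not_false_eq_true, true_and]
  by_cases hj : j ∈ J <;> by_cases hk : k ∈ J <;>
    simp only [hj, hk, if_true, if_false, smul_zero, add_zero]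
  rw [fock_sg_insert k hj, fock_sg_erase j hk, erase_insert_of_ne hne, smul_smul, smul_smul,
    ← add_smul]
  rcases lt_or_gt_of_ne hne with h | h <;> simp [h, h.not_gt, mul_comm]


/-- naturality for additive maps of the values -/
theorem ep_nat {R' N' : Type} [CommRing R'] [AddCommGroup N'] [Module R' N'] (f : N →+ N')
    (j : σ) (y : Finset σ → N) : (fun J => f (ep R N j y J)) = ep R' N' j fun J => f (y J) := by
  funext J
  rw [ep_apply, ep_apply]
  split_ifs
  · rw [map_zsmul]
  · rw [map_zero]

theorem io_nat {R' N' : Type} [CommRing R'] [AddCommGroup N'] [Module R' N'] (f : N →+ N')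
    (j : σ) (y : Finset σ → N) : (fun J => f (io R N j y J)) = io R' N' j fun J => f (y J) := by
  funext J
  rw [io_apply, io_apply]
  split_ifs
  · rw [map_zero]
  · rw [map_zsmul]


theorem ep_single (j : σ) (J : Finset σ) (h : j ∉ J) (v : N) :
    ep R N j (Pi.single J v) = sg j J • Pi.single (insert j J) v := by
  funext K
  rw [ep_apply, Pi.smul_apply]
  by_cases hK : K = insert j J
  · subst hK
    rw [if_pos (mem_insert_self j J), erase_insert h, sg_insert_self, Pi.single_eq_same,
      Pi.single_eq_same]
  · rw [Pi.single_eq_of_ne hK, smul_zero]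
    split_ifs with h1
    · rw [Pi.single_eq_of_ne, smul_zero]
      rintro rfl
      exact hK (insert_erase h1).symm
    · rfl


theorem Deg.ep {k : ℕ} {y : Finset σ → N} (h : Deg k y) (j : σ) : Deg (k + 1) (ep R N j y) := by
  intro J hJ
  rw [ep_apply]
  split_ifs with h1
  · rw [h _ (by have := card_erase_add_one h1; omega), smul_zero]
  · rfl

theorem Deg.io {k : ℕ} {y : Finset σ → N} (h : Deg (k + 1) y) (j : σ) : Deg k (io R N j y) := by
  intro J hJ
  rw [io_apply]
  split_ifs with h1
  · rfl
  · rw [h _ (by rw [card_insert_of_notMem h1]; omega), smul_zero]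

theorem Deg.io_zero {y : Finset σ → N} (h : Deg 0 y) (j : σ) : HCF.io R N j y = 0 := by
  funext J
  rw [io_apply]
  split_ifs with h1
  · rfl
  · rw [h _ (by rw [card_insert_of_notMem h1]; omega), smul_zero]; rfl

theorem Lev.io {r : ℕ} {y : Finset σ → N} (h : Lev (r + 1) y) (j : σ) : Lev r (io R N j y) := by
  intro J hJ
  rw [io_apply]
  split_ifs with h1
  · rfl
  · rw [h _ (by rw [card_insert_of_notMem h1]; omega), smul_zero]

theorem Lev.io_zero {y : Finset σ → N} (h : Lev 0 y) (j : σ) : HCF.io R N j y = 0 := by
  funext J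
  rw [io_apply]
  split_ifs with h1
  · rfl
  · rw [h _ (by rw [card_insert_of_notMem h1]; omega), smul_zero]; rfl

theorem Up.ep {r : ℕ} {y : Finset σ → N} (h : Up r y) (j : σ) : Up (r + 1) (ep R N j y) := by
  intro J hJ
  rw [ep_apply]
  split_ifs with h1
  · rw [h _ (by have := card_erase_add_one h1; omega), smul_zero]
  · rfl

theorem deg_pik (k : ℕ) (y : Finset σ → N) : Deg k (pik R N k y) := fun J hJ => by
  rw [pik_apply, if_neg hJ]

theorem Deg.pik_eq {k : ℕ} {y : Finset σ → N} (h : Deg k y) : pik R N k y = y := by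
  funext J
  rw [pik_apply]
  split_ifs with h1
  · rfl
  · exact (h J h1).symm

theorem io_pik_succ (j : σ) (k : ℕ) : io R N j * pik R N (k + 1) = pik R N k * io R N j := by
  refine LinearMap.ext fun y => funext fun J => ?_
  show io R N j (pik R N (k + 1) y) J = pik R N k (io R N j y) J
  rw [pik_apply, io_apply, io_apply, pik_apply]
  by_cases hj : j ∈ J
  · simp [hj]
  · by_cases hk : J.card = k <;> simp [hj, hk, card_insert_of_notMem hj]

theorem io_pik_zero (j : σ) : io R N j * pik R N 0 = 0 :=
  LinearMap.ext fun y => Deg.io_zero (R := R) (deg_pik (R := R) 0 y) j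


variable [Fintype σ]

theorem lev_card (y : Finset σ → N) : Lev (Fintype.card σ) y := fun J hJ =>
  absurd (card_le_univ J) (by omega)

theorem Up.eq_zero {y : Finset σ → N} (h : Up (Fintype.card σ + 1) y) : y = 0 :=
  funext fun J => h J (Nat.lt_succ_of_le (card_le_univ J))

theorem num_apply (y : Finset σ → N) (J : Finset σ) : num R N y J = J.card • y J := by
  have h : ∀ j, (ep R N j * io R N j) y J = if j ∈ J then y J else 0 := fun j => by
    show ep R N j (io R N j y) J = _
    by_cases hj : j ∈ J
    · simp [ep_apply, io_apply, hj, sg_erase_self, smul_smul, sg_mul_self]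
    · simp [ep_apply, hj]
  rw [num, LinearMap.sum_apply, Finset.sum_apply]
  simp only [h]
  rw [sum_ite_mem, univ_inter, sum_const]

theorem sum_pik : ∑ k ∈ range (Fintype.card σ + 1), pik (σ := σ) R N k = 1 := by
  refine LinearMap.ext fun y => funext fun J => ?_
  rw [LinearMap.sum_apply, Finset.sum_apply]
  simp only [pik_apply]
  rw [sum_ite_eq, if_pos (mem_range.2 (Nat.lt_succ_of_le (card_le_univ J)))]
  rfl

omit [LinearOrder σ] in
theorem fock_bil {E : Type} [Semiring E] [Algebra R E] (a b : σ → R) (u v : σ → E) :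
    (∑ j, a j • u j) * (∑ k, b k • v k) + (∑ k, b k • v k) * (∑ j, a j • u j) =
      ∑ j, ∑ k, (a j * b k) • (u j * v k + v k * u j) := by
  rw [sum_mul_sum, sum_mul_sum, sum_comm (f := fun k j => b k • v k * a j • u j), ← sum_add_distrib]
  refine sum_congr rfl fun j _ => ?_
  rw [← sum_add_distrib]
  refine sum_congr rfl fun k _ => ?_
  rw [smul_mul_smul_comm, smul_mul_smul_comm, smul_add, mul_comm (b k)]

omit [Fintype σ] in
theorem fock_sq {E : Type} [Ring E] [Algebra R E] (a : σ → R) (u : σ → E)
    (h1 : ∀ j, u j * u j = 0) (h2 : ∀ j k, u j * u k + u k * u j = 0) (s : Finset σ) :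
    (∑ j ∈ s, a j • u j) * (∑ j ∈ s, a j • u j) = 0 := by
  induction s using Finset.induction_on with
  | empty => simp
  | insert j s hj ih =>
    have h3 : a j • u j * (∑ k ∈ s, a k • u k) + (∑ k ∈ s, a k • u k) * a j • u j = 0 := by
      rw [mul_sum, sum_mul, ← sum_add_distrib]
      refine sum_eq_zero fun k _ => ?_
      rw [smul_mul_smul_comm, smul_mul_smul_comm, mul_comm (a k), ← smul_add, h2, smul_zero]
    rw [sum_insert hj, add_mul, mul_add, mul_add, ih, smul_mul_smul_comm, h1, smul_zero, zero_add,
      add_zero, h3]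


theorem epv_epv (a b : σ → R) : epv N a * epv N b + epv N b * epv N a = 0 := by
  refine (fock_bil a b (ep R N) (ep R N)).trans ?_
  simp [ep_ep]

theorem iov_iov (a b : σ → R) : iov N a * iov N b + iov N b * iov N a = 0 := by
  refine (fock_bil a b (io R N) (io R N)).trans ?_
  simp [io_io]

theorem iov_epv (a b : σ → R) :
    iov N a * epv N b + epv N b * iov N a = (∑ j, a j * b j) • 1 := by
  refine (fock_bil a b (io R N) (ep R N)).trans ?_
  rw [sum_smul]
  simp [io_ep]

theorem epv_sq (a : σ → R) : epv N a * epv N a = 0 := fock_sq a _ ep_sq ep_ep _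

theorem iov_sq (a : σ → R) : iov N a * iov N a = 0 := fock_sq a _ io_sq io_io _

theorem epv_single (j : σ) : epv N (Pi.single j (1 : R)) = ep R N j := by
  simp [epv, Pi.single_apply]

theorem iov_single (j : σ) : iov N (Pi.single j (1 : R)) = io R N j := by
  simp [iov, Pi.single_apply]

theorem epv_add (a b : σ → R) : epv N (a + b) = epv N a + epv N b := by
  simp [epv, add_smul, sum_add_distrib]

theorem iov_add (a b : σ → R) : iov N (a + b) = iov N a + iov N b := by
  simp [iov, add_smul, sum_add_distrib]

theorem epv_smul (c : R) (a : σ → R) : epv N (c • a) = c • epv N a := by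
  simp [epv, smul_sum, smul_smul]

theorem iov_smul (c : R) (a : σ → R) : iov N (c • a) = c • iov N a := by
  simp [iov, smul_sum, smul_smul]

theorem epv_sum {ι : Type} (s : Finset ι) (a : ι → σ → R) :
    epv N (∑ i ∈ s, a i) = ∑ i ∈ s, epv N (a i) := by
  simp only [epv, Finset.sum_apply, sum_smul]
  exact sum_comm

theorem iov_sum {ι : Type} (s : Finset ι) (a : ι → σ → R) :
    iov N (∑ i ∈ s, a i) = ∑ i ∈ s, iov N (a i) := by
  simp only [iov, Finset.sum_apply, sum_smul]
  exact sum_comm

theorem fock_epv (a : σ → R) (y : Finset σ → N) (J : Finset σ) :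
    epv N a y J = ∑ j, a j • ep R N j y J := by
  rw [epv, LinearMap.sum_apply, Finset.sum_apply]; rfl

theorem fock_iov (a : σ → R) (y : Finset σ → N) (J : Finset σ) :
    iov N a y J = ∑ j, a j • io R N j y J := by
  rw [iov, LinearMap.sum_apply, Finset.sum_apply]; rfl


theorem epv_nat {R' N' : Type} [CommRing R'] [AddCommGroup N'] [Module R' N'] (f : N →+ N')
    {a : σ → R} {a' : σ → R'} (h : ∀ j v, f (a j • v) = a' j • f v) (y : Finset σ → N) :
    (fun J => f (epv N a y J)) = epv N' a' fun J => f (y J) := by
  funext J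
  rw [fock_epv, fock_epv, map_sum]
  refine sum_congr rfl fun j _ => ?_
  rw [h, ← ep_nat (R := R) f j y]

theorem iov_nat {R' N' : Type} [CommRing R'] [AddCommGroup N'] [Module R' N'] (f : N →+ N')
    {a : σ → R} {a' : σ → R'} (h : ∀ j v, f (a j • v) = a' j • f v) (y : Finset σ → N) :
    (fun J => f (iov N a y J)) = iov N' a' fun J => f (y J) := by
  funext J
  rw [fock_iov, fock_iov, map_sum]
  refine sum_congr rfl fun j _ => ?_
  rw [h, ← io_nat (R := R) f j y]


theorem Deg.epv {k : ℕ} {y : Finset σ → N} (h : Deg k y) (a : σ → R) :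
    Deg (k + 1) (epv N a y) := fun J hJ => by
  rw [fock_epv]
  exact sum_eq_zero fun j _ => by rw [h.ep j J hJ, smul_zero]

theorem Deg.iov {k : ℕ} {y : Finset σ → N} (h : Deg (k + 1) y) (a : σ → R) :
    Deg k (iov N a y) := fun J hJ => by
  rw [fock_iov]
  exact sum_eq_zero fun j _ => by rw [h.io j J hJ, smul_zero]

theorem Lev.iov {r : ℕ} {y : Finset σ → N} (h : Lev (r + 1) y) (a : σ → R) :
    Lev r (iov N a y) := fun J hJ => by
  rw [fock_iov]
  exact sum_eq_zero fun j _ => by rw [h.io j J hJ, smul_zero]

theorem Lev.iov_zero {y : Finset σ → N} (h : Lev 0 y) (a : σ → R) : HCF.iov N a y = 0 := by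
  funext J
  rw [fock_iov]
  exact sum_eq_zero fun j _ => by rw [h.io_zero j, Pi.zero_apply, smul_zero]

theorem Up.epv {r : ℕ} {y : Finset σ → N} (h : Up r y) (a : σ → R) :
    Up (r + 1) (epv N a y) := fun J hJ => by
  rw [fock_epv]
  exact sum_eq_zero fun j _ => by rw [h.ep j J hJ, smul_zero]

theorem iov_pik {y : Finset σ → N} {a : σ → R} (h : iov N a y = 0) (k : ℕ) :
    iov N a (pik R N k y) = 0 := by
  cases k with
  | zero =>
    funext J
    rw [fock_iov]
    exact sum_eq_zero fun j _ => by rw [(deg_pik 0 y).io_zero j, Pi.zero_apply, smul_zero]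
  | succ k =>
    have h1 : iov N a * pik R N (k + 1) = pik R N k * iov N a := by
      rw [iov, sum_mul, mul_sum]
      exact sum_congr rfl fun j _ => by rw [smul_mul_assoc, mul_smul_comm, io_pik_succ]
    have h2 : iov N a (pik R N (k + 1) y) = pik R N k (iov N a y) := LinearMap.congr_fun h1 y
    rw [h2, h, map_zero]


/-- the vacuum is cyclic -/
theorem cyc (p : Submodule R (Finset σ → N)) (h0 : ∀ v, Pi.single ∅ v ∈ p)
    (h1 : ∀ j, ∀ y ∈ p, ep R N j y ∈ p) : p = ⊤ := by
  have key : ∀ (J : Finset σ) (v : N), Pi.single J v ∈ p := by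
    intro J
    induction J using Finset.induction_on with
    | empty => exact h0
    | insert j J hj ih =>
      intro v
      have h2 := zsmul_mem (h1 j _ (ih v)) (sg j J)
      rwa [ep_single j J hj, smul_smul, sg_mul_self, one_smul] at h2
  refine eq_top_iff.2 fun y _ => ?_
  rw [← univ_sum_single y]
  exact sum_mem fun J _ => key J _


end Pool.Agent.HCF
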