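import Pool.Agent.P.MP_f644fa_ag.C8
import Pool.Agent.P.MP_f644fa_ag.C7
import Pool.Agent.P.MP_f644fa_ag.Fock

/-! The Koszul complex of holomorphic sections is exact. -/

noncomputable section
namespace Pool.Agent.HCF
open Finset Module Matrix

/-- the zigzag in a double complex -/
theorem zigzag {τ R W : Type} [LinearOrder τ] [Fintype τ] [CommRing R] [AddCommGroup W] [Module R W]
    (l l' : τ → R) (hl : ∑ i, l i * l' i = 1) (D : W →+ W) (hD : ∀ i w, D (l i • w) = l i • D w)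
    (K : ℕ → Finset τ → AddSubgroup W)
    (hκ : ∀ r z, (∀ J, z J ∈ K r J) → ∀ J, iov W l z J ∈ K r J)
    (hη : ∀ r z, (∀ J, z J ∈ K r J) → ∀ J, epv W l' z J ∈ K r J)
    (hK : ∀ r J, ∀ w ∈ K r J, D w ∈ K (r + 1) J) (hDD : ∀ r J, ∀ w ∈ K r J, D (D w) = 0)
    (j₀ : ℕ) (hex : ∀ r J, r + j₀ + 2 ≤ J.card → ∀ w ∈ K (r + 1) J, D w = 0 → ∃ v ∈ K r J, D v = w)
    (z : Finset τ → W) (hu₀ : Up j₀ z)
    (hz : ∀ J, z J ∈ K 0 J) (h1 : ∀ J, D (z J) = 0) (h2 : iov W l z = 0) :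
    ∃ y, (∀ J, y J ∈ K 0 J) ∧ (∀ J, D (y J) = 0) ∧ iov W l y = z := by
  have nat : ∀ y : Finset τ → W, (fun J => D (iov W l y J)) = iov W l fun J => D (y J) :=
    fun y => iov_nat D hD y
  have upi : ∀ (j : ℕ) (y : Finset τ → W), Up (j + 1) y → Up j (iov W l y) := by
    intro j y hy J hJ
    rw [iov, LinearMap.sum_apply, Finset.sum_apply]
    refine Finset.sum_eq_zero fun i _ => ?_
    rw [LinearMap.smul_apply, Pi.smul_apply, io_apply]
    split_ifs with hi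
    · exact smul_zero _
    · rw [hy _ (by rw [Finset.card_insert_of_notMem hi]; omega), smul_zero, smul_zero]
  have key : ∀ d j : ℕ, Fintype.card τ + 1 ≤ j + d → ∀ (r : ℕ) (z : Finset τ → W), r + j₀ ≤ j →
      Up j z → (∀ J, z J ∈ K r J) → (∀ J, D (z J) = 0) → iov W l z = 0 →
      ∃ y, Up (j + 1) y ∧ (∀ J, y J ∈ K r J) ∧ (∀ J, D (y J) = 0) ∧ iov W l y = z := by
    intro d
    induction d with
    | zero =>
      intro j hj r z _ hu _ _ _
      have hu' : Up (Fintype.card τ + 1) z := fun J hJ => hu J (by omega)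
      exact ⟨0, fun _ _ => rfl, fun J => zero_mem _, fun J => map_zero D,
        by rw [map_zero, hu'.eq_zero]⟩
    | succ d ih =>
      intro j hj r z hr hu hz h1 h2
      have e : iov W l (epv W l' z) = z := by
        have := LinearMap.congr_fun (iov_epv (N := W) l l') z
        simpa [hl, h2] using this
      have hu' : Up (j + 1) fun J => D (epv W l' z J) := fun J hJ => by
        show D (epv W l' z J) = 0
        rw [hu.epv l' J hJ, map_zero]
      have h2' : iov W l (fun J => D (epv W l' z J)) = 0 := by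
        rw [← nat, e]
        exact funext h1
      obtain ⟨y', hy0, hy1, hy2, hy3⟩ := ih (j + 1) (by omega) (r + 1) _ (by omega) hu'
        (fun J => hK r J _ (hη r z hz J)) (fun J => hDD r J _ (hη r z hz J)) h2'
      have hv : ∀ J, ∃ v, (J.card < j + 1 + 1 → v = 0) ∧ v ∈ K r J ∧ D v = y' J := fun J => by
        by_cases hJ : J.card < j + 1 + 1
        · exact ⟨0, fun _ => rfl, zero_mem _, by rw [map_zero, hy0 J hJ]⟩
        · obtain ⟨v, h3, h4⟩ := hex r J (by omega) (y' J) (hy1 J) (hy2 J)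
          exact ⟨v, fun h => absurd h hJ, h3, h4⟩
      choose v hv0 hv1 hv2 using hv
      refine ⟨epv W l' z - iov W l v, fun J hJ => ?_,
        fun J => sub_mem (hη r z hz J) (hκ r v hv1 J), fun J => ?_, ?_⟩
      · rw [Pi.sub_apply, hu.epv l' J hJ, upi (j + 1) v hv0 J hJ, sub_zero]
      · have h3 := congrFun (nat v) J
        have h4 : (fun J => D (v J)) = y' := funext hv2
        rw [h4, hy3] at h3
        rw [Pi.sub_apply, map_sub, sub_eq_zero]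
        exact h3.symm
      · have h5 : iov W l (iov W l v) = 0 := LinearMap.congr_fun (iov_sq (N := W) l) v
        rw [map_sub, e, h5, sub_zero]
  obtain ⟨y, -, h⟩ := key (Fintype.card τ + 1) j₀ (by omega) 0 z (by omega) hu₀ hz h1 h2
  exact ⟨y, h⟩

variable {𝒜 : Type} [CommRing 𝒜] [Algebra ℂ 𝒜] [StarRing 𝒜] [StarModule ℂ 𝒜] {M n : ℕ}
  {ι : Type} [Fintype ι] [DecidableEq ι]

namespace CR
variable {C : CR M n 𝒜} {Φ : Car2 M ι 𝒜} {k : ℕ} {m : ℤ}

omit [StarModule ℂ 𝒜] in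
theorem c9a_il_vac (F : Car M ι 𝒜) {v : ι → 𝒜} (h : ∀ j, F.i j *ᵥ v = 0) (a : Fin M → 𝒜) :
    F.il a *ᵥ v = 0 := by
  simp [Car.il, Matrix.sum_mulVec, Matrix.smul_mulVec, h]

omit [StarModule ℂ 𝒜] in
theorem c9a_ev_csmul (F : Car M ι 𝒜) (c : ℂ) (a : Fin M → 𝒜) :
    F.ev (fun j => c • a j) = c • F.ev a := by
  simp [Car.ev, Finset.smul_sum]

omit [StarModule ℂ 𝒜] in
theorem c9a_il_csmul (F : Car M ι 𝒜) (c : ℂ) (a : Fin M → 𝒜) :
    F.il (fun j => c • a j) = c • F.il a := by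
  simp [Car.il, Finset.smul_sum]

theorem c9a_il_ev (C : CR M n 𝒜) (F : Car M ι 𝒜) (v : ι → 𝒜) :
    (F.ev C.x)ᴴ *ᵥ (F.ev C.x *ᵥ v) + F.ev C.x *ᵥ ((F.ev C.x)ᴴ *ᵥ v) = v := by
  rw [F.ev_star, Matrix.mulVec_mulVec, Matrix.mulVec_mulVec, ← Matrix.add_mulVec, F.il_ev,
    C.x_norm, one_smul, Matrix.one_mulVec]

theorem c9a_D_apply (C : CR M n 𝒜) (Φ : Car2 M ι 𝒜) (v : ι → 𝒜) :
    C.D Φ v = ∑ j, Φ.F.e j *ᵥ dE ι (C.Zb j) v := by
  simp [CR.D, LinearMap.sum_apply, mE_apply]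

theorem c9a_D_ev (C : CR M n 𝒜) (Φ : Car2 M ι 𝒜) (v : ι → 𝒜) :
    C.D Φ (Φ.F.ev C.x *ᵥ v) = -(Φ.F.ev C.x *ᵥ C.D Φ v) :=
  LinearMap.congr_fun (C.D_ev Φ) v

theorem c9a_vac_of_N (C : CR M n 𝒜) (F : Car M ι 𝒜) {v : ι → 𝒜} (h : F.N *ᵥ v = 0) (j : Fin M) :
    F.i j *ᵥ v = 0 := by
  have e : C.ip v (F.N *ᵥ v) = ∑ j, C.ip (F.i j *ᵥ v) (F.i j *ᵥ v) := by
    rw [F.N_eq, Matrix.sum_mulVec, C.ip_sum_right]
    refine Finset.sum_congr rfl fun j _ => ?_
    rw [C.ip_mulVec, F.i_star, Matrix.mulVec_mulVec]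
  rw [h, C.ip_zero_right] at e
  have e2 : ∑ j, C.nrm (F.i j *ᵥ v) = 0 := by
    have := congrArg Complex.re e
    rw [Complex.re_sum] at this
    exact this.symm
  exact C.eq_zero_of_nrm
    ((Finset.sum_eq_zero_iff_of_nonneg fun j _ => C.nrm_nonneg _).1 e2 j (Finset.mem_univ j))

theorem V0.emb {v : ι → 𝒜} (h : C.V0 Φ k m v) : C.Bs Φ 1 k (m + 1) (Φ.F.ev C.x *ᵥ v) ∧
    C.D Φ (Φ.F.ev C.x *ᵥ v) = 0 ∧ (Φ.F.ev C.x)ᴴ *ᵥ (Φ.F.ev C.x *ᵥ v) = v := by
  have hN : Φ.F.N *ᵥ v = 0 := by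
    rw [Φ.F.N_eq, Matrix.sum_mulVec]
    refine Finset.sum_eq_zero fun j _ => ?_
    rw [← Matrix.mulVec_mulVec, h.vac, Matrix.mulVec_zero]
  refine ⟨⟨⟨?_, fun a => ?_, fun l => ?_⟩, ?_, ?_, ?_⟩, ?_, ?_⟩
  · rw [Matrix.mulVec_mulVec, Φ.F.ev_sq, Matrix.zero_mulVec]
  · have e := eq_sub_of_add_eq (Φ.F.il_ev (C.Q a) C.x)
    have e0 : ∑ j, C.Q a j * C.x j = 0 := congrFun C.Q_x a
    rw [Matrix.mulVec_mulVec, e, e0, zero_smul, Matrix.sub_mulVec, ← Matrix.mulVec_mulVec,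
      c9a_il_vac Φ.F h.vac, Matrix.mulVec_zero, Matrix.zero_mulVec, sub_zero]
  · rw [Matrix.mulVec_mulVec, ← Φ.ev_il, ← Matrix.mulVec_mulVec, h.tan, Matrix.mulVec_zero]
  · have e := eq_add_of_sub_eq (Φ.F.dG_ev 1 C.x)
    rw [Matrix.mulVec_mulVec, Car.N, e, Matrix.add_mulVec, ← Matrix.mulVec_mulVec, ← Car.N, hN,
      Matrix.one_mulVec, Matrix.mulVec_zero, add_zero, Nat.cast_one, one_smul]
  · rw [Matrix.mulVec_mulVec, Car.N, ← Φ.ev_dG, ← Matrix.mulVec_mulVec, ← Car.N, h.num',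
      Matrix.mulVec_smul]
  · rw [dE_mulVec, h.wt, Φ.F.map_ev]
    simp only [C.T_x]
    rw [c9a_ev_csmul, Matrix.mulVec_smul, Matrix.smul_mulVec, ← add_smul]
    congr 1
    push_cast
    ring
  · rw [c9a_D_ev, c9a_D_apply]
    simp [h.hol]
  · have e := c9a_il_ev C Φ.F v
    have e0 : (Φ.F.ev C.x)ᴴ *ᵥ v = 0 := by rw [Φ.F.ev_star]; exact c9a_il_vac Φ.F h.vac _
    rwa [e0, Matrix.mulVec_zero, add_zero] at e

theorem Bs.v0 {w : ι → 𝒜} (h : C.Bs Φ 1 k (m + 1) w) (h0 : C.D Φ w = 0) :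
    C.V0 Φ k m ((Φ.F.ev C.x)ᴴ *ᵥ w) := by
  have hw : Φ.F.ev C.x *ᵥ ((Φ.F.ev C.x)ᴴ *ᵥ w) = w := by
    have e := c9a_il_ev C Φ.F w
    rwa [h.ann.ex, Matrix.mulVec_zero, zero_add] at e
  have hN : Φ.F.N *ᵥ ((Φ.F.ev C.x)ᴴ *ᵥ w) = 0 := by
    have e := eq_add_of_sub_eq (Φ.F.dG_il 1 fun j => star (C.x j))
    rw [Φ.F.ev_star, Matrix.mulVec_mulVec, Car.N, e, Matrix.add_mulVec, ← Matrix.mulVec_mulVec,
      ← Car.N, h.num, Matrix.vecMul_one, Nat.cast_one, one_smul, Matrix.neg_mulVec,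
      neg_add_cancel]
  have vac := c9a_vac_of_N C Φ.F hN
  refine ⟨vac, fun l => ?_, ?_, ?_, ?_⟩
  · rw [Φ.F.ev_star, Matrix.mulVec_mulVec, ← Φ.il_il, ← Matrix.mulVec_mulVec, h.ann.tan,
      Matrix.mulVec_zero]
  · rw [Φ.F.ev_star, Matrix.mulVec_mulVec, Car.N, ← Φ.il_dG, ← Matrix.mulVec_mulVec, ← Car.N,
      h.num', Matrix.mulVec_smul]
  · generalize (Φ.F.ev C.x)ᴴ *ᵥ w = v at hw vac
    have vu : ∀ j k, Φ.F.i k *ᵥ dE ι (C.Zb j) v = 0 := by
      intro j k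
      have e := dE_mulVec (C.Zb j) (Φ.F.i k) v
      rw [vac, map_zero, Φ.F.const_i, Matrix.zero_mulVec, add_zero] at e
      exact e.symm
    have h1 : Φ.F.ev C.x *ᵥ C.D Φ v = 0 := by
      rw [← hw, c9a_D_ev, neg_eq_zero] at h0
      exact h0
    have h2 : (Φ.F.ev C.x)ᴴ *ᵥ C.D Φ v = 0 := by
      rw [c9a_D_apply, Matrix.mulVec_sum, Φ.F.ev_star]
      have e : ∀ j, Φ.F.il (fun j => star (C.x j)) *ᵥ (Φ.F.e j *ᵥ dE ι (C.Zb j) v)
          = star (C.x j) • dE ι (C.Zb j) v := by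
        intro j
        rw [Matrix.mulVec_mulVec, eq_sub_of_add_eq (Φ.F.il_e (fun j => star (C.x j)) j),
          Matrix.sub_mulVec, ← Matrix.mulVec_mulVec, c9a_il_vac Φ.F (vu j), Matrix.mulVec_zero,
          sub_zero, Matrix.smul_mulVec, Matrix.one_mulVec]
      rw [Finset.sum_congr rfl fun j _ => e j]
      funext J
      have := congrFun (LinearMap.congr_fun (congrArg (dE ι) C.sum_xb_Zb) v) J
      rw [dE_sum, dE_zero, LinearMap.sum_apply, Finset.sum_apply] at this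
      rw [Finset.sum_apply]
      exact this
    have h3 : C.D Φ v = 0 := by
      have e := c9a_il_ev C Φ.F (C.D Φ v)
      rw [h1, h2, Matrix.mulVec_zero, Matrix.mulVec_zero, add_zero] at e
      exact e.symm
    intro k
    have h4 : Φ.F.i k *ᵥ C.D Φ v = dE ι (C.Zb k) v := by
      rw [c9a_D_apply, Matrix.mulVec_sum]
      have e : ∀ j, Φ.F.i k *ᵥ (Φ.F.e j *ᵥ dE ι (C.Zb j) v)
          = if k = j then dE ι (C.Zb j) v else 0 := by
        intro j
        rw [Matrix.mulVec_mulVec, eq_sub_of_add_eq (Φ.F.ie' k j), Matrix.sub_mulVec,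
          ← Matrix.mulVec_mulVec, vu, Matrix.mulVec_zero, sub_zero]
        split_ifs
        · exact Matrix.one_mulVec _
        · exact Matrix.zero_mulVec _
      rw [Finset.sum_congr rfl fun j _ => e j, Finset.sum_ite_eq, if_pos (Finset.mem_univ k)]
    rw [← h4, h3, Matrix.mulVec_zero]
  · rw [Φ.F.ev_star, dE_mulVec, h.wt, Φ.F.map_il]
    simp only [C.T_xb, ← neg_smul]
    rw [c9a_il_csmul, Matrix.mulVec_smul, Matrix.smul_mulVec, ← add_smul]
    congr 1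
    push_cast
    ring

/-- the groups of the double complex -/
def c9aK (C : CR M n 𝒜) (Φ : Car2 M ι 𝒜) (r k : ℕ) (p : ℤ) : AddSubgroup (ι → 𝒜) where
  carrier := {w | C.Bs Φ r k p w}
  zero_mem' := Bs.zero
  add_mem' := fun h h' => Bs.add h h'
  neg_mem' := fun {w} h => by
    have := Bs.smul h (-1)
    rwa [neg_one_smul] at this

theorem koszul_of (j₀ : ℕ) (hs : ∀ (r j : ℕ) (w : ι → 𝒜), r + j₀ + 2 ≤ j → j ≤ n + 1 →
      C.Bs Φ (r + 1 + 1) k (m - j + r + 1 + 1) w → C.D Φ w = 0 →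
      ∃ v, C.Bs Φ (r + 1) k (m - j + r + 1) v ∧ C.D Φ v = w)
    (l : Fin (n + 1) → 𝒜) (hl : ∀ i j, C.Zb j (l i) = 0) (hl' : ∀ i, C.T (l i) = Complex.I • l i)
    {lam : 𝒜} (hlam : lam * ∑ i, star (l i) * l i = 1)
    (z : Finset (Fin (n + 1)) → ι → 𝒜) (hu : Up j₀ z) (hz : ∀ J, C.V0 Φ k (m - J.card) (z J))
    (h0 : iov (ι → 𝒜) l z = 0) :
    ∃ y, (∀ J, C.V0 Φ k (m - J.card) (y J)) ∧ iov (ι → 𝒜) l y = z := by
  have hT : C.T lam = 0 := by
    have hS : C.T (∑ i, star (l i) * l i) = 0 := by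
      rw [map_sum]
      refine Finset.sum_eq_zero fun i _ => ?_
      rw [Derivation.leibniz, C.T_star, hl']
      simp [mul_comm]
    have h1 := congrArg C.T hlam
    rw [Derivation.leibniz, hS, Derivation.map_one_eq_zero, smul_zero, zero_add, smul_eq_mul] at h1
    calc C.T lam = (lam * ∑ i, star (l i) * l i) * C.T lam := by rw [hlam, one_mul]
      _ = 0 := by rw [mul_assoc, h1, mul_zero]
  have hp : ∀ i, C.T (l i) = (Complex.I * ((1 : ℤ) : ℂ)) • l i := fun i => by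
    rw [hl', Int.cast_one, mul_one]
  have hq : ∀ i, C.T (lam * star (l i)) = (Complex.I * ((-1 : ℤ) : ℂ)) • (lam * star (l i)) := by
    intro i
    rw [Derivation.leibniz, hT, C.T_star, hl']
    simp
  have hsum : ∑ i, l i * (lam * star (l i)) = 1 := by
    rw [← hlam, Finset.mul_sum]
    exact Finset.sum_congr rfl fun i _ => by ring
  have nat : ∀ (A : Matrix ι ι 𝒜) (y : Finset (Fin (n + 1)) → ι → 𝒜),
      (fun J => A *ᵥ iov (ι → 𝒜) l y J) = iov (ι → 𝒜) l fun J => A *ᵥ y J := fun A y =>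
    iov_nat (Matrix.mulVecLin A).toAddMonoidHom (fun j v => Matrix.mulVec_smul A (l j) v) y
  obtain ⟨y, hy1, hy2, hy3⟩ := zigzag l (fun i => lam * star (l i)) hsum (C.D Φ).toAddMonoidHom
    (fun i w => by
      show C.D Φ (l i • w) = l i • C.D Φ w
      rw [C.D_fsmul]
      simp [hl, Car.ev])
    (fun r J => c9aK C Φ (r + 1) k (m - J.card + r + 1))
    (fun r z hz J => by
      rw [iov, LinearMap.sum_apply, Finset.sum_apply]
      refine sum_mem fun j _ => ?_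
      rw [LinearMap.smul_apply, Pi.smul_apply, io_apply]
      split_ifs with hj
      · rw [smul_zero]; exact zero_mem _
      · rw [smul_comm]
        refine zsmul_mem ?_ _
        have h1 := Bs.fsmul (hz (insert j J)) (hp j)
        rw [Finset.card_insert_of_notMem hj] at h1
        have e : m - ((J.card + 1 : ℕ) : ℤ) + r + 1 + 1 = m - J.card + r + 1 := by
          push_cast; ring
        rw [e] at h1
        exact h1)
    (fun r z hz J => by
      rw [epv, LinearMap.sum_apply, Finset.sum_apply]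
      refine sum_mem fun j _ => ?_
      rw [LinearMap.smul_apply, Pi.smul_apply, ep_apply]
      split_ifs with hj
      · rw [smul_comm]
        refine zsmul_mem ?_ _
        have h1 := Bs.fsmul (hz (J.erase j)) (hq j)
        have e : m - ((J.erase j).card : ℤ) + r + 1 + -1 = m - J.card + r + 1 := by
          rw [← Finset.card_erase_add_one hj]
          push_cast; ring
        rw [e] at h1
        exact h1
      · rw [smul_zero]; exact zero_mem _)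
    (fun r J w hw => by
      have h1 := Bs.D hw
      have e : m - (J.card : ℤ) + r + 1 + 1 = m - J.card + ((r + 1 : ℕ) : ℤ) + 1 := by
        push_cast; ring
      rw [e] at h1
      exact h1)
    (fun r J w hw => Ann.DD (Bs.ann hw))
    j₀ (fun r J hr w hw hw0 => by
      have hJ : J.card ≤ n + 1 := by simpa using Finset.card_le_univ J
      have e : m - J.card + ((r + 1 : ℕ) : ℤ) + 1 = m - (J.card : ℤ) + r + 1 + 1 := by
        push_cast; ring
      have h1 : C.Bs Φ (r + 1 + 1) k (m - J.card + ((r + 1 : ℕ) : ℤ) + 1) w := hw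
      rw [e] at h1
      exact hs r J.card w hr hJ h1 hw0)
    (fun J => Φ.F.ev C.x *ᵥ z J) (fun J hJ => by
      show Φ.F.ev C.x *ᵥ z J = 0
      rw [hu J hJ, Matrix.mulVec_zero])
    (fun J => by
      have h1 := (hz J).emb.1
      have e : m - (J.card : ℤ) + 1 = m - J.card + ((0 : ℕ) : ℤ) + 1 := by
        push_cast; ring
      rw [e] at h1
      exact h1)
    (fun J => (hz J).emb.2.1)
    (by rw [← nat, h0]; funext J; exact Matrix.mulVec_zero _)
  refine ⟨fun J => (Φ.F.ev C.x)ᴴ *ᵥ y J, fun J => ?_, ?_⟩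
  · have h1 : C.Bs Φ 1 k (m - J.card + ((0 : ℕ) : ℤ) + 1) (y J) := hy1 J
    rw [Nat.cast_zero, add_zero] at h1
    exact h1.v0 (hy2 J)
  · rw [← nat, hy3]
    funext J
    exact (hz J).emb.2.2

theorem Wt.koszul {s c a : ℕ} (ω : C.Wt s) (hM : M = n + 1 + c) (ha : c + 1 ≤ a ∨ k = 0 ∧ 1 ≤ a)
    (l : Fin (n + 1) → 𝒜) (hl : ∀ i j, C.Zb j (l i) = 0) (hl' : ∀ i, C.T (l i) = Complex.I • l i)
    {lam : 𝒜} (hlam : lam * ∑ i, star (l i) * l i = 1) (hm : (a : ℤ) * s + 1 ≤ m)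
    (z : Finset (Fin (n + 1)) → ι → 𝒜) (hz : ∀ J, C.V0 Φ k (m - J.card) (z J))
    (h0 : iov (ι → 𝒜) l z = 0) :
    ∃ y, (∀ J, C.V0 Φ k (m - J.card) (y J)) ∧ iov (ι → 𝒜) l y = z :=
  koszul_of 0 (fun r j w _ hj h1 h2 => ω.solve hM ha (Nat.le_add_left 1 r) (by
      have h3 : (a : ℝ) * s + 1 ≤ m := by exact_mod_cast hm
      have h4 : (j : ℝ) ≤ n + 1 := by exact_mod_cast hj
      push_cast
      linarith) h1 h2) l hl hl' hlam z (fun _ h => absurd h (Nat.not_lt_zero _)) hz h0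

end CR

end Pool.Agent.HCF
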