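import Mathlib

/-! The abstract calculus on the link of the cone: a star ring of functions with derivations. -/

noncomputable section
namespace Pool.Agent.HCF
open Finset Module Matrix

variable {𝒜 : Type} [CommRing 𝒜] [Algebra ℂ 𝒜] [StarRing 𝒜] [StarModule ℂ 𝒜]

/-- the conjugate derivation -/
def cj (δ : Derivation ℂ 𝒜 𝒜) : Derivation ℂ 𝒜 𝒜 :=
  Derivation.mk'
    { toFun := fun f => star (δ (star f))
      map_add' := fun a b => by simp
      map_smul' := fun c a => by simp }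
    fun a b => by simp [mul_comm, add_comm]

theorem cj_apply (δ : Derivation ℂ 𝒜 𝒜) (f : 𝒜) : cj δ f = star (δ (star f)) := rfl

/-- a derivation acting on sections of a trivial bundle -/
def dE (ι : Type) (δ : Derivation ℂ 𝒜 𝒜) : End ℂ (ι → 𝒜) where
  toFun w J := δ (w J)
  map_add' a b := by ext J; simp
  map_smul' c a := by ext J; simp

omit [StarRing 𝒜] [StarModule ℂ 𝒜] in
theorem dE_apply {ι : Type} (δ : Derivation ℂ 𝒜 𝒜) (w : ι → 𝒜) (J : ι) : dE ι δ w J = δ (w J) := rfl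

/-- a matrix acting on sections of a trivial bundle -/
def mE {ι : Type} [Fintype ι] [DecidableEq ι] : Matrix ι ι 𝒜 →ₐ[ℂ] End ℂ (ι → 𝒜) where
  toFun A := (Matrix.toLin' A).restrictScalars ℂ
  map_one' := LinearMap.ext fun w => by simp
  map_mul' A B := LinearMap.ext fun w => by simp
  map_zero' := LinearMap.ext fun w => by simp
  map_add' A B := LinearMap.ext fun w => by simp [Matrix.add_mulVec]
  commutes' c := LinearMap.ext fun w => by
    simp [Algebra.algebraMap_eq_smul_one, Matrix.smul_mulVec]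

omit [StarRing 𝒜] [StarModule ℂ 𝒜] in
theorem mE_apply {ι : Type} [Fintype ι] [DecidableEq ι] (A : Matrix ι ι 𝒜) (w : ι → 𝒜) :
    mE A w = A *ᵥ w := rfl

/-- the pointwise Hermitian product -/
def hp {ι : Type} [Fintype ι] (u w : ι → 𝒜) : 𝒜 := ∑ J, star (u J) * w J

/-- the `L²` product -/
def ipE (int : 𝒜 →ₗ[ℂ] ℂ) {ι : Type} [Fintype ι] (u w : ι → 𝒜) : ℂ := int (hp u w)

variable {M : ℕ}

/-- `δ` is a vector field: it is given by its values on the coordinates -/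
def IsVF (x : Fin M → 𝒜) (W : Fin M → Derivation ℂ 𝒜 𝒜) (δ : Derivation ℂ 𝒜 𝒜) : Prop :=
  δ = ∑ m, (δ (x m) • W m + δ (star (x m)) • cj (W m))

/-- operators of order at most one -/
def D1 (W : Fin M → Derivation ℂ 𝒜 𝒜) (ι : Type) [Fintype ι] [DecidableEq ι] :
    Submodule ℂ (End ℂ (ι → 𝒜)) :=
  Submodule.span ℂ {L | ∃ A : Matrix ι ι 𝒜, L = mE A ∨
    ∃ l, L = mE A * dE ι (W l) ∨ L = mE A * dE ι (cj (W l))}

/-- the Laplace type operator of the ambient frame -/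
def Lap (W : Fin M → Derivation ℂ 𝒜 𝒜) (ι : Type) : End ℂ (ι → 𝒜) :=
  ∑ l, (2 : ℂ) • (dE ι (W l) * dE ι (cj (W l)) + dE ι (cj (W l)) * dE ι (W l))

/-- The calculus on the link. -/
structure CR (M n : ℕ) (𝒜 : Type) [CommRing 𝒜] [Algebra ℂ 𝒜] [StarRing 𝒜] [StarModule ℂ 𝒜] where
  x : Fin M → 𝒜
  P : Matrix (Fin M) (Fin M) 𝒜
  W : Fin M → Derivation ℂ 𝒜 𝒜
  int : 𝒜 →ₗ[ℂ] ℂ
  x_norm : ∑ j, star (x j) * x j = 1
  P_star : Pᴴ = P
  P_mul : P * P = P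
  P_x : P *ᵥ x = x
  P_trace : P.trace = (n + 1 : ℕ)
  W_x : ∀ l m, W l (x m) = P m l - (2⁻¹ : ℂ) • (star (x l) * x m)
  W_xb : ∀ l m, W l (star (x m)) = -((2⁻¹ : ℂ) • (star (x l) * star (x m)))
  vf_W : ∀ l, IsVF x W (W l)
  vf_br : ∀ l m, IsVF x W ⁅W l, W m⁆
  vf_br' : ∀ l m, IsVF x W ⁅W l, cj (W m)⁆
  int_star : ∀ f, int (star f) = star (int f)
  int_nonneg : ∀ f, 0 ≤ (int (star f * f)).re
  int_def : ∀ f, (int (star f * f)).re = 0 → f = 0
  div : ∀ δ, IsVF x W δ → int (∑ l, (W l (δ (x l)) + cj (W l) (δ (star (x l))))) = 0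
  ell : ∀ (ι : Type) [Fintype ι] [DecidableEq ι] (L : End ℂ (ι → 𝒜)),
    (∀ u w, ipE int (L u) w = ipE int u (L w)) → (∀ u, 0 ≤ (ipE int (L u) u).re) →
      L + Lap W ι ∈ D1 W ι → ∀ u, ∃ h w, L h = 0 ∧ u = h + L w

namespace CR
variable {n : ℕ} (C : CR M n 𝒜)

/-- vector fields -/
def VF (δ : Derivation ℂ 𝒜 𝒜) : Prop := IsVF C.x C.W δ
/-- the generator of the circle action -/
def T : Derivation ℂ 𝒜 𝒜 :=
  ∑ l, ((Complex.I • C.x l) • C.W l - (Complex.I • star (C.x l)) • cj (C.W l))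
/-- horizontal holomorphic vector fields -/
def Z (l : Fin M) : Derivation ℂ 𝒜 𝒜 := C.W l + ((Complex.I / 2) • star (C.x l)) • C.T
/-- horizontal antiholomorphic vector fields -/
def Zb (l : Fin M) : Derivation ℂ 𝒜 𝒜 := cj (C.Z l)
/-- the projector to the line of `x` -/
def xx : Matrix (Fin M) (Fin M) 𝒜 := Matrix.of fun j k => C.x j * star (C.x k)
/-- the horizontal projector -/
def H : Matrix (Fin M) (Fin M) 𝒜 := C.P - C.xx
/-- the normal projector -/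
def Q : Matrix (Fin M) (Fin M) 𝒜 := 1 - C.P
/-- the second fundamental form -/
def B (k : Fin M) : Matrix (Fin M) (Fin M) 𝒜 := C.P.map (C.Z k)
/-- its square -/
def Θ : Matrix (Fin M) (Fin M) 𝒜 :=
  Matrix.of fun j k => ∑ m, ∑ l, star (C.B j m l) * C.B k m l
/-- the `L²` product -/
def ip {ι : Type} [Fintype ι] (u w : ι → 𝒜) : ℂ := ipE C.int u w
/-- the square of the norm -/
def nrm {ι : Type} [Fintype ι] (w : ι → 𝒜) : ℝ := (C.ip w w).re
/-- adjoint operators -/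
def Adj {ι : Type} [Fintype ι] (L L' : End ℂ (ι → 𝒜)) : Prop := ∀ u w, C.ip (L u) w = C.ip u (L' w)

/-- A weight: `τ` is the norm of a section of `O(s)` with values in the top conormal forms. -/
structure Wt (s : ℝ) where
  κ : Type
  fin : Fintype κ
  σ : 𝒜
  τ : 𝒜
  φ : Fin M → 𝒜
  r : κ → Fin M → 𝒜
  στ : σ * τ = 1
  T_τ : C.T τ = 0
  Zb_τ : ∀ j, C.Zb j τ = (2⁻¹ : ℂ) • (τ * star (φ j))
  curv : ∀ j k, C.Zb j (φ k) = C.Θ j k + ∑ a, star (r a j) * r a k - (s : ℂ) • C.H j k +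
    ∑ l, star (C.B j k l) * φ l

end CR

/-- constant matrices with canonical anticommutation relations -/
structure Car (M : ℕ) (ι : Type) [Fintype ι] [DecidableEq ι] (𝒜 : Type) [CommRing 𝒜] [Algebra ℂ 𝒜]
    [StarRing 𝒜] where
  e : Fin M → Matrix ι ι 𝒜
  const : ∀ (δ : Derivation ℂ 𝒜 𝒜) j, (e j).map δ = 0
  ee : ∀ j k, e j * e k + e k * e j = 0
  ie : ∀ j k, (e j)ᴴ * e k + e k * (e j)ᴴ = if j = k then 1 else 0

namespace Car
variable {ι : Type} [Fintype ι] [DecidableEq ι] (F : Car M ι 𝒜)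
/-- annihilation -/
def i (j : Fin M) : Matrix ι ι 𝒜 := (F.e j)ᴴ
/-- creation of a vector -/
def ev (a : Fin M → 𝒜) : Matrix ι ι 𝒜 := ∑ j, a j • F.e j
/-- annihilation, linear in the coefficients -/
def il (a : Fin M → 𝒜) : Matrix ι ι 𝒜 := ∑ j, a j • F.i j
/-- second quantisation -/
def dG (A : Matrix (Fin M) (Fin M) 𝒜) : Matrix ι ι 𝒜 := ∑ j, ∑ k, A j k • (F.e j * F.i k)
/-- the number operator -/
def N : Matrix ι ι 𝒜 := F.dG 1
end Car

/-- two commuting families -/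
structure Car2 (M : ℕ) (ι : Type) [Fintype ι] [DecidableEq ι] (𝒜 : Type) [CommRing 𝒜] [Algebra ℂ 𝒜]
    [StarRing 𝒜] where
  F : Car M ι 𝒜
  G : Car M ι 𝒜
  c1 : ∀ j k, F.e j * G.e k = G.e k * F.e j
  c2 : ∀ j k, F.e j * G.i k = G.i k * F.e j

namespace CR
variable {n : ℕ} (C : CR M n 𝒜) {ι : Type} [Fintype ι] [DecidableEq ι] (Φ : Car2 M ι 𝒜)

/-- the three annihilation conditions -/
structure Ann (w : ι → 𝒜) : Prop where
  ex : Φ.F.ev C.x *ᵥ w = 0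
  nor : ∀ m, Φ.F.il (C.Q m) *ᵥ w = 0
  tan : ∀ l, Φ.G.il (fun b => C.P b l) *ᵥ w = 0

/-- forms `x ∧ u`, `u` of type `(0, r - 1)` with values in the `k`-th exterior power, weight `p` -/
structure Bs (r k : ℕ) (p : ℤ) (w : ι → 𝒜) : Prop where
  ann : C.Ann Φ w
  num : Φ.F.N *ᵥ w = (r : ℂ) • w
  num' : Φ.G.N *ᵥ w = (k : ℂ) • w
  wt : dE ι C.T w = (Complex.I * p) • w

/-- holomorphic sections of the `k`-th exterior power of weight `m` -/
structure V0 (k : ℕ) (m : ℤ) (v : ι → 𝒜) : Prop where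
  vac : ∀ j, Φ.F.i j *ᵥ v = 0
  tan : ∀ l, Φ.G.il (fun b => C.P b l) *ᵥ v = 0
  num' : Φ.G.N *ᵥ v = (k : ℂ) • v
  hol : ∀ j, dE ι (C.Zb j) v = 0
  wt : dE ι C.T v = (Complex.I * m) • v

/-- the Cauchy-Riemann operator -/
def D : End ℂ (ι → 𝒜) := ∑ j, mE (Φ.F.e j) * dE ι (C.Zb j)
/-- the operator whose kernel is the subbundle -/
def K : Matrix ι ι 𝒜 := 1 + Φ.F.dG (C.Q - C.xx) + Φ.G.dG C.Pᵀ
/-- the second fundamental form of the subbundle -/
def A : Matrix ι ι 𝒜 := ∑ j, ∑ a, ∑ b, C.B j a b • (Φ.G.e b * Φ.G.i a * Φ.F.i j)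
/-- the commutator of `K` and `D` -/
def C0 : Matrix ι ι 𝒜 := -(Φ.F.dG C.H * Φ.F.ev C.x) - (C.A Φ)ᴴ
/-- the components of the curvature term -/
def y (w : ι → 𝒜) (a b : Fin M) : ι → 𝒜 := Φ.F.il (fun k => C.B k a b) *ᵥ w

variable {C} {s : ℝ} (ω : C.Wt s) (a : ℕ)

/-- weighted antiholomorphic derivatives -/
def Wt.Za (ι : Type) [Fintype ι] [DecidableEq ι] (j : Fin M) : End ℂ (ι → 𝒜) :=
  dE ι (C.Zb j) + mE ((((a : ℂ) / 2) • star (ω.φ j)) • (1 : Matrix ι ι 𝒜))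
/-- their adjoints -/
def Wt.Y (ι : Type) [Fintype ι] [DecidableEq ι] (k : Fin M) : End ℂ (ι → 𝒜) :=
  -dE ι (C.Z k) + mE (((n : ℂ) • star (C.x k) + ((a : ℂ) / 2) • ω.φ k) • (1 : Matrix ι ι 𝒜))
/-- the weighted Cauchy-Riemann operator -/
def Wt.Da : End ℂ (ι → 𝒜) := ∑ j, mE (Φ.F.e j) * ω.Za a ι j
/-- its adjoint on the trivial bundle -/
def Wt.δa : End ℂ (ι → 𝒜) := ∑ k, mE (Φ.F.i k) * ω.Y a ι k

end CR

end Pool.Agent.HCF
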