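import Pool.Agent.P.MP_f644fa_ag.Chart0

/-! Linear forms without common zero. -/

noncomputable section
namespace Pool.Agent.HCF
open MvPolynomial Module Set Filter Topology

variable {M : ℕ} {I : Ideal (SS M)} {c n : ℕ}

/-- `n + 1` linear forms without common zero on the cone -/
def Bpf (I : Ideal (SS M)) {n : ℕ} (L : Fin (n + 1) → Fin M → ℂ) : Prop :=
  ∀ x ∈ cone I, ∃ i, eval x (lin (L i)) ≠ 0

theorem chart_dim_piece {x : Fin M → ℂ} (D : Chart I n x) {j : ℕ}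
    (T : (Fin j → ℂ) →L[ℂ] Fin M → ℂ) :
    dimH ((fun z : (Fin (n + 1) → ℂ) × (Fin j → ℂ) => D.ψ z.1 + T z.2) '' (D.U ×ˢ univ)) ≤
      ((2 * (n + 1 + j) : ℕ) : ENNReal) := by
  have hO : IsOpen (D.U ×ˢ (univ : Set (Fin j → ℂ))) := D.U_open.prod isOpen_univ
  refine (dimH_image_le_of_locally_lipschitzOn ?_).trans ((dimH_mono (subset_univ _)).trans ?_)
  · intro z hz
    have h1 : ContDiffAt ℂ 1 D.ψ z.1 := D.smooth.contDiffAt (D.U_open.mem_nhds hz.1)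
    have h2 : ContDiffAt ℂ 1
        (fun z : (Fin (n + 1) → ℂ) × (Fin j → ℂ) => D.ψ z.1 + T z.2) z :=
      (h1.comp z contDiffAt_fst).add (T.contDiff.contDiffAt.comp z contDiffAt_snd)
    obtain ⟨K, t, ht, hK⟩ := h2.exists_lipschitzOnWith
    exact ⟨K, t, mem_nhdsWithin_of_mem_nhds ht, hK⟩
  · rw [Real.dimH_univ_eq_finrank, Module.finrank_prod, Module.finrank_pi_fintype,
      Module.finrank_pi_fintype]
    simp only [Complex.finrank_real_complex, Finset.sum_const, Finset.card_univ, Fintype.card_fin,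
      smul_eq_mul]
    exact Nat.cast_le.2 (by omega)

theorem chart_exists_out (hX : IsManifold I c) (hM : M = n + 1 + c) {j : ℕ} (hj : j < c)
    (Λ : Submodule ℂ (Fin M → ℂ)) (hΛ : finrank ℂ Λ = j) :
    ∃ v, v ∉ Λ ∧ ∀ x ∈ cone I, ∀ l ∈ Λ, v ≠ x + l := by
  classical
  let e : (Fin j → ℂ) ≃ₗ[ℂ] Λ := LinearEquiv.ofFinrankEq _ _ (by simp [hΛ])
  let T : (Fin j → ℂ) →L[ℂ] Fin M → ℂ := LinearMap.toContinuousLinearMap (Λ.subtype ∘ₗ e.toLinearMap)
  have hT : ∀ l ∈ Λ, ∃ a, T a = l := fun l hl =>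
    ⟨e.symm ⟨l, hl⟩, by simp [T]⟩
  let D : ∀ x : cone I, Chart I n x.1 := fun x => (hX.exists_chart hM x.2).some
  obtain ⟨s, hs, hcov⟩ := TopologicalSpace.countable_cover_nhds
    (f := fun x : cone I => (Subtype.val ⁻¹' (D x).W : Set (cone I)))
    (fun x => ((D x).W_open.preimage continuous_subtype_val).mem_nhds (D x).mem)
  let P : cone I → Set (Fin M → ℂ) := fun x =>
    (fun z : (Fin (n + 1) → ℂ) × (Fin j → ℂ) => (D x).ψ z.1 + T z.2) '' ((D x).U ×ˢ univ)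
  have h1 : dimH (range T ∪ ⋃ x ∈ s, P x) ≤ ((2 * (n + 1 + j) : ℕ) : ENNReal) := by
    rw [dimH_union, dimH_bUnion hs]
    refine max_le ?_ (iSup₂_le fun x _ => chart_dim_piece (D x) T)
    refine T.lipschitz.dimH_range_le.trans ?_
    rw [Real.dimH_univ_eq_finrank, Module.finrank_pi_fintype]
    simp only [Complex.finrank_real_complex, Finset.sum_const, Finset.card_univ, Fintype.card_fin,
      smul_eq_mul]
    exact Nat.cast_le.2 (by omega)
  have h2 : range T ∪ ⋃ x ∈ s, P x ≠ univ := by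
    intro h
    rw [h, Real.dimH_univ_eq_finrank, Module.finrank_pi_fintype] at h1
    simp only [Complex.finrank_real_complex, Finset.sum_const, Finset.card_univ, Fintype.card_fin,
      smul_eq_mul] at h1
    have := Nat.cast_le.1 h1
    omega
  obtain ⟨v, hv⟩ := (ne_univ_iff_exists_notMem _).1 h2
  refine ⟨v, fun h => hv (Or.inl (hT v h)), fun x hx l hl h => hv (Or.inr ?_)⟩
  have hx' : (⟨x, hx⟩ : cone I) ∈ ⋃ y ∈ s, (Subtype.val ⁻¹' (D y).W : Set (cone I)) :=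
    hcov ▸ mem_univ _
  obtain ⟨y, hy, hxy⟩ := mem_iUnion₂.1 hx'
  obtain ⟨a, ha⟩ := hT l hl
  refine mem_iUnion₂.2 ⟨y, hy, ⟨((D y).π x, a), ⟨(D y).π_mem x ⟨hx, hxy⟩, mem_univ _⟩, ?_⟩⟩
  simp only [(D y).ψπ x ⟨hx, hxy⟩, ha, h]

theorem IsManifold.exists_avoid (hX : IsManifold I c) (hM : M = n + 1 + c) (j : ℕ) (hj : j ≤ c) :
    ∃ Λ : Submodule ℂ (Fin M → ℂ), finrank ℂ Λ = j ∧ ∀ x ∈ cone I, x ∉ Λ := by
  induction j with
  | zero => exact ⟨⊥, finrank_bot _ _, fun x hx h => hx.1 ((Submodule.mem_bot ℂ).1 h)⟩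
  | succ j ih =>
    obtain ⟨Λ, hΛ, hav⟩ := ih (by omega)
    obtain ⟨v, hv, hv'⟩ := chart_exists_out hX hM (by omega : j < c) Λ hΛ
    refine ⟨Λ ⊔ Submodule.span ℂ {v}, by rw [Submodule.finrank_sup_span_singleton hv, hΛ], ?_⟩
    intro x hx h
    obtain ⟨l, hl, w, hw, rfl⟩ := Submodule.mem_sup.1 h
    obtain ⟨t, rfl⟩ := Submodule.mem_span_singleton.1 hw
    by_cases ht : t = 0
    · exact hav _ hx (by simpa [ht] using hl)
    · refine hv' _ (hX.smul_mem hx (inv_ne_zero ht)) (-(t⁻¹ • l))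
        (Λ.neg_mem (Λ.smul_mem _ hl)) ?_
      rw [smul_add, smul_smul, inv_mul_cancel₀ ht, one_smul]
      abel

theorem IsManifold.exists_bpf (hX : IsManifold I c) (hM : M = n + 1 + c) :
    ∃ L : Fin (n + 1) → Fin M → ℂ, Bpf I L := by
  classical
  obtain ⟨Λ, hΛ, hav⟩ := hX.exists_avoid hM c le_rfl
  have hq : finrank ℂ ((Fin M → ℂ) ⧸ Λ) = finrank ℂ (Fin (n + 1) → ℂ) := by
    have := Λ.finrank_quotient_add_finrank
    simp only [Module.finrank_fintype_fun_eq_card, Fintype.card_fin] at this ⊢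
    omega
  let e : ((Fin M → ℂ) ⧸ Λ) ≃ₗ[ℂ] (Fin (n + 1) → ℂ) := LinearEquiv.ofFinrankEq _ _ hq
  let φ : (Fin M → ℂ) →ₗ[ℂ] (Fin (n + 1) → ℂ) := e.toLinearMap ∘ₗ Λ.mkQ
  refine ⟨fun i j => φ (Pi.single j 1) i, fun x hx => ?_⟩
  by_contra hcon
  push Not at hcon
  have h0 : φ x = 0 := by
    funext i
    have h1 := hcon i
    rw [eval_lin] at h1
    have h2 : x = ∑ j, x j • (Pi.single j (1 : ℂ) : Fin M → ℂ) := by
      funext k
      simp [Finset.sum_apply, Pi.single_apply]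
    rw [h2, map_sum, Finset.sum_apply, Pi.zero_apply, ← h1]
    refine Finset.sum_congr rfl fun j _ => ?_
    rw [map_smul, Pi.smul_apply, smul_eq_mul, mul_comm]
  refine hav x hx ((Submodule.Quotient.mk_eq_zero Λ).1 ?_)
  exact e.injective (h0.trans (map_zero e).symm)

/-- the linear forms as elements of the coordinate ring -/
def linP (I : Ideal (SS M)) {ι : Type} (L : ι → Fin M → ℂ) (i : ι) : Pol I := ⟨_, pf_mem (lin (L i))⟩

/-- the linear map given by the linear forms -/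
def prj {ι : Type} (L : ι → Fin M → ℂ) (x : Fin M → ℂ) : ι → ℂ := fun i => eval x (lin (L i))

theorem Bpf.norm_le (hX : IsManifold I c) {L : Fin (n + 1) → Fin M → ℂ} (h : Bpf I L) :
    ∃ C : ℝ, 0 ≤ C ∧ ∀ x ∈ cone I, ‖x‖ ≤ C * ‖prj L x‖ := by
  have hc : Continuous (prj L) := continuous_pi fun i => (contDiff_eval _).continuous
  let K : Set (Fin M → ℂ) := Metric.sphere 0 1 ∩ ⋂ f ∈ I, {x | eval x f = 0}
  have hK : IsCompact K := (isCompact_sphere _ _).inter_right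
    (isClosed_biInter fun f _ => isClosed_eq (contDiff_eval f).continuous continuous_const)
  obtain ⟨m, hm, hle⟩ := hK.exists_forall_le' (f := fun x => ‖prj L x‖) hc.norm.continuousOn
    (a := 0) (by
      intro x hx
      have hx1 : ‖x‖ = 1 := by simpa using hx.1
      have hx0 : x ≠ 0 := by
        rintro rfl
        simp at hx1
      obtain ⟨i, hi⟩ := h x ⟨hx0, fun f hf => mem_iInter₂.1 hx.2 f hf⟩
      exact norm_pos_iff.2 fun h0 => hi (congrFun h0 i))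
  refine ⟨m⁻¹, (inv_pos.2 hm).le, fun x hx => ?_⟩
  have hn : 0 < ‖x‖ := norm_pos_iff.2 hx.1
  have ht : ((‖x‖⁻¹ : ℝ) : ℂ) ≠ 0 := Complex.ofReal_ne_zero.2 (inv_pos.2 hn).ne'
  have hy := hX.smul_mem hx ht
  have hnt : ‖((‖x‖⁻¹ : ℝ) : ℂ)‖ = ‖x‖⁻¹ := by
    rw [Complex.norm_real, Real.norm_eq_abs, abs_of_pos (inv_pos.2 hn)]
  have h1 := hle (((‖x‖⁻¹ : ℝ) : ℂ) • x) ⟨by
    rw [mem_sphere_zero_iff_norm, norm_smul, hnt, inv_mul_cancel₀ hn.ne'],
    mem_iInter₂.2 fun f hf => hy.2 f hf⟩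
  have h2 : prj L (((‖x‖⁻¹ : ℝ) : ℂ) • x) = ((‖x‖⁻¹ : ℝ) : ℂ) • prj L x := by
    funext i
    simp only [prj, Pi.smul_apply, smul_eq_mul]
    rw [eval_smul_hom (lin_hom _), pow_one]
  simp only [h2, norm_smul, hnt] at h1
  rw [le_inv_mul_iff₀ hm, mul_comm]
  exact (le_inv_mul_iff₀ hn).1 h1

end Pool.Agent.HCF
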