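import Pool.Agent.P.MP_f644fa_ag.Basic

/-! Holomorphic charts, linear forms without common zero, density. -/

noncomputable section
namespace Pool.Agent.HCF
open MvPolynomial Module Set Filter Topology

variable {M : ℕ} {I : Ideal (SS M)} {c n : ℕ}

/-- A holomorphic chart of the cone at `x`, inverse to a linear projection. -/
structure Chart (I : Ideal (SS M)) (n : ℕ) (x : Fin M → ℂ) where
  U : Set (Fin (n + 1) → ℂ)
  W : Set (Fin M → ℂ)
  ψ : (Fin (n + 1) → ℂ) → Fin M → ℂ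
  π : (Fin M → ℂ) →L[ℂ] Fin (n + 1) → ℂ
  U_open : IsOpen U
  W_open : IsOpen W
  mem : x ∈ W
  smooth : ContDiffOn ℂ 1 ψ U
  ψ_mem : ∀ u ∈ U, ψ u ∈ cone I ∩ W
  πψ : ∀ u ∈ U, π (ψ u) = u
  π_mem : ∀ y ∈ cone I ∩ W, π y ∈ U
  ψπ : ∀ y ∈ cone I ∩ W, ψ (π y) = y
  tan : ∀ v ∈ tangS I x, fderiv ℂ ψ (π x) (π v) = v

/-- a linear map that is injective on the kernel of `J` and completes it to an equivalence -/
theorem chart0_lin {E P Q : Type} [NormedAddCommGroup E] [NormedSpace ℂ E] [FiniteDimensional ℂ E]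
    [NormedAddCommGroup P] [NormedSpace ℂ P] [FiniteDimensional ℂ P] [NormedAddCommGroup Q]
    [NormedSpace ℂ Q] [FiniteDimensional ℂ Q] (J : E →L[ℂ] Q) (T : Submodule ℂ E)
    (hT : ∀ v, J v = 0 → v ∈ T) (h1 : finrank ℂ T = finrank ℂ P)
    (h2 : finrank ℂ E = finrank ℂ (P × Q)) :
    ∃ (π : E →L[ℂ] P) (L : E ≃L[ℂ] P × Q), (L : E →L[ℂ] P × Q) = π.prod J := by
  obtain ⟨e⟩ := FiniteDimensional.nonempty_linearEquiv_of_finrank_eq h1
  obtain ⟨g, hg⟩ := LinearMap.exists_extend (e : T →ₗ[ℂ] P)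
  have hinj : Function.Injective (g.prod (J : E →ₗ[ℂ] Q)) := by
    rw [injective_iff_map_eq_zero]
    intro v hv
    have h3 : g v = 0 := congrArg Prod.fst hv
    have h4 : J v = 0 := congrArg Prod.snd hv
    have h5 : e ⟨v, hT v h4⟩ = 0 := (LinearMap.congr_fun hg ⟨v, hT v h4⟩).symm.trans h3
    exact congrArg Subtype.val (e.map_eq_zero_iff.1 h5)
  exact ⟨LinearMap.toContinuousLinearMap g,
    (LinearMap.linearEquivOfInjective _ hinj h2).toContinuousLinearEquiv,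
    ContinuousLinearMap.ext fun v => rfl⟩

theorem IsManifold.exists_chart (hX : IsManifold I c) (hM : M = n + 1 + c) {x : Fin M → ℂ}
    (hx : x ∈ cone I) : Nonempty (Chart I n x) := by
  obtain ⟨F⟩ := hX.exists_PF hx
  obtain ⟨J, hJ⟩ : ∃ J : (Fin M → ℂ) →L[ℂ] Fin c → ℂ, J = ContinuousLinearMap.pi fun i =>
      ∑ j, eval x (pderiv j (F.f i)) • (ContinuousLinearMap.proj j : (Fin M → ℂ) →L[ℂ] ℂ) :=
    ⟨_, rfl⟩
  have hJT : ∀ v, J v = 0 ↔ v ∈ tangS I x := fun v => by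
    rw [F.mem_tang hx F.g_ne, funext_iff]
    refine forall_congr' fun i => ?_
    simp [hJ, mul_comm]
  have hr := hX.finrank_tang hx
  obtain ⟨π, L, hL⟩ := chart0_lin (P := Fin (n + 1) → ℂ) J (tangS I x) (fun v => (hJT v).1)
    (by rw [finrank_fin_fun]; omega) (by simp [finrank_prod, hM])
  obtain ⟨Φ, hΦ⟩ : ∃ Φ : (Fin M → ℂ) → (Fin (n + 1) → ℂ) × (Fin c → ℂ),
      Φ = fun y => (π y, fun i => eval y (F.f i)) := ⟨_, rfl⟩
  have hc : ContDiff ℂ 1 Φ := by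
    rw [hΦ]
    exact π.contDiff.prodMk (contDiff_pi.2 fun i => (contDiff_eval _).of_le le_top)
  have hd : HasFDerivAt Φ (L : (Fin M → ℂ) →L[ℂ] _) x := by
    rw [hΦ, hL, hJ]
    exact π.hasFDerivAt.prodMk (hasFDerivAt_pi.2 fun i => hasFDerivAt_eval _ _)
  obtain ⟨e, he, hxs⟩ : ∃ e : OpenPartialHomeomorph (Fin M → ℂ)
      ((Fin (n + 1) → ℂ) × (Fin c → ℂ)), ⇑e = Φ ∧ x ∈ e.source :=
    ⟨hc.contDiffAt.toOpenPartialHomeomorph Φ hd one_ne_zero, rfl,
      hc.contDiffAt.mem_toOpenPartialHomeomorph_source hd one_ne_zero⟩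
  have hd' : HasFDerivAt e (L : (Fin M → ℂ) →L[ℂ] _) (e.symm (e x)) := by
    rw [e.left_inv hxs, he]; exact hd
  have hs : ContDiffAt ℂ 1 e.symm (e x) :=
    e.contDiffAt_symm (e.map_source hxs) hd' (by rw [he]; exact hc.contDiffAt)
  obtain ⟨V, hV, hVo, hxV⟩ := eventually_nhds_iff.1 (hs.eventually (by simp))
  have h0 : ∀ y ∈ cone I, e y = (π y, 0) := fun y hy => by
    rw [he, hΦ]
    exact Prod.ext rfl (funext fun i => hy.2 _ (F.f_mem i))
  obtain ⟨W, hW⟩ : ∃ W : Set (Fin M → ℂ),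
      W = (e.source ∩ e ⁻¹' V) ∩ ({y | eval y F.g ≠ 0} ∩ {y | y ≠ 0}) := ⟨_, rfl⟩
  have hWo : IsOpen W := by
    rw [hW]
    exact (e.isOpen_inter_preimage hVo).inter
      ((isOpen_ne_fun (contDiff_eval _).continuous continuous_const).inter isOpen_ne)
  have hWs : ∀ y ∈ W, y ∈ e.source ∧ e y ∈ V ∧ eval y F.g ≠ 0 ∧ y ≠ 0 := fun y hy => by
    rw [hW] at hy
    exact ⟨hy.1.1, hy.1.2, hy.2.1, hy.2.2⟩
  have hinv : ∀ u : Fin (n + 1) → ℂ, (u, 0) ∈ e.target → Φ (e.symm (u, 0)) = (u, 0) :=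
    fun u hu => he ▸ e.right_inv hu
  refine ⟨⟨{u | (u, 0) ∈ e.target ∩ e.symm ⁻¹' W}, W, fun u => e.symm (u, 0), π,
    (e.isOpen_inter_preimage_symm hWo).preimage (Continuous.prodMk_left 0), hWo, ?_, ?_, ?_, ?_,
    ?_, ?_, ?_⟩⟩
  · rw [hW]
    exact ⟨⟨hxs, hxV⟩, F.g_ne, hx.1⟩
  · intro u hu
    have h1 := (hWs _ hu.2).2.1
    rw [e.right_inv hu.1] at h1
    exact ((hV _ h1).comp u (contDiffAt_id.prodMk contDiffAt_const)).contDiffWithinAt
  · intro u hu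
    obtain ⟨-, -, h1, h2⟩ := hWs _ hu.2
    refine ⟨(F.mem_cone h2 h1).2 fun i => ?_, hu.2⟩
    have h3 := hinv u hu.1
    rw [hΦ] at h3
    exact congrFun (congrArg Prod.snd h3) i
  · intro u hu
    have h3 := hinv u hu.1
    rw [hΦ] at h3
    exact congrArg Prod.fst h3
  · intro y hy
    have h1 := (hWs _ hy.2).1
    show (π y, 0) ∈ e.target ∩ e.symm ⁻¹' W
    rw [← h0 y hy.1]
    exact ⟨e.map_source h1, by rw [mem_preimage, e.left_inv h1]; exact hy.2⟩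
  · intro y hy
    show e.symm (π y, 0) = y
    rw [← h0 y hy.1, e.left_inv (hWs _ hy.2).1]
  · intro v hv
    have h1 := e.hasFDerivAt_symm (e.map_source hxs) hd'
    rw [h0 x hx] at h1
    have h2 : HasFDerivAt (fun u : Fin (n + 1) → ℂ => e.symm (u, 0)) _ (π x) :=
      h1.comp (π x) (hasFDerivAt_prodMk_left (π x) (0 : Fin c → ℂ))
    rw [h2.fderiv]
    have h3 : L v = (π v, 0) := by
      have := ContinuousLinearMap.ext_iff.1 hL v
      exact this.trans (Prod.ext rfl ((hJT v).2 hv))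
    show L.symm (π v, 0) = v
    rw [← h3, L.symm_apply_apply]

end Pool.Agent.HCF
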