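import Pool.Agent.P.MP_f644fa_ag.Dat0

/-! Formal properties of the graded trace. -/

noncomputable section
namespace Pool.Agent.HCF
open Finset Module PowerSeries
open scoped Kronecker

variable {M n : ℕ} {X R RR : Type} [CommRing R] [Algebra ℂ R] [CommRing RR] [Algebra ℂ RR]
  {S : NS0 M n X R RR} {I I' I'' : Type} [Fintype I] [Fintype I'] [Fintype I'']

theorem dat_sc_apply (S : NS0 M n X R RR) {J : Type} (w : J → ℕ) (ω : J → R) (A : J) :
    S.sc w ω A = (2 : ℂ) ^ w A • S.s1 (ω A) := rfl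

theorem dat_grd_top (S : NS0 M n X R RR) : Grd S.s1.toLinearMap ⊤ := grd_top S.gen S.s1 S.s1_x

theorem Dat.grd (D : Dat S I) : Grd (S.sc D.w) D.V :=
  ((dat_grd_top S).pi D.w).sub (fun _ _ _ _ => Submodule.mem_top) D.inv

theorem Dat.Ok.comm {D : Dat S I} {T : Matrix I I ℂ} (h : D.Ok T) (ω : I → R) :
    cst R T (S.sc D.w ω) = S.sc D.w (cst R T ω) := by
  funext A
  rw [dat_sc_apply, cst_apply, cst_apply, map_sum, smul_sum]
  refine sum_congr rfl fun B _ => ?_
  by_cases hT : T A B = 0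
  · simp [hT]
  · rw [dat_sc_apply, h.wt A B hT, map_smul, smul_comm]

theorem Dat.Ok.one [DecidableEq I] (D : Dat S I) : D.Ok 1 := by
  refine ⟨fun ω hω => by rw [cst_one]; exact hω, fun A B h => ?_⟩
  by_cases hAB : A = B
  · rw [hAB]
  · exact absurd (Matrix.one_apply_ne hAB) h

theorem Dat.Ok.mul {D : Dat S I} {T T' : Matrix I I ℂ} (h : D.Ok T) (h' : D.Ok T') :
    D.Ok (T * T') := by
  refine ⟨fun ω hω => by rw [cst_mul]; exact h.map _ (h'.map _ hω), fun A B hAB => ?_⟩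
  rw [Matrix.mul_apply] at hAB
  obtain ⟨C, -, hC⟩ := exists_ne_zero_of_sum_ne_zero hAB
  exact (h.wt A C (left_ne_zero_of_mul hC)).trans (h'.wt C B (right_ne_zero_of_mul hC))

theorem Dat.Ok.smul {D : Dat S I} {T : Matrix I I ℂ} (h : D.Ok T) (c : ℂ) : D.Ok (c • T) := by
  refine ⟨fun ω hω => ?_, fun A B hAB => ?_⟩
  · rw [cst_smul, LinearMap.smul_apply]
    exact D.G.smul_of_tower_mem c (h.map ω hω)
  · refine h.wt A B fun h0 => hAB ?_
    rw [Matrix.smul_apply, h0, smul_zero]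

theorem dat_cst_zero (N : Type) [AddCommGroup N] [Module ℂ N] (J J' : Type) [Fintype J'] :
    cst N (0 : Matrix J J' ℂ) = 0 := by
  ext1 y
  funext A
  simp [cst_apply]

theorem dat_cst_sum (N : Type) [AddCommGroup N] [Module ℂ N] {J J' : Type} [Fintype J'] {ι : Type}
    (s : Finset ι) (T : ι → Matrix J J' ℂ) : cst N (∑ i ∈ s, T i) = ∑ i ∈ s, cst N (T i) := by
  classical
  induction s using Finset.induction_on with
  | empty => rw [sum_empty, sum_empty, dat_cst_zero]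
  | insert a s ha ih => rw [sum_insert ha, sum_insert ha, cst_add, ih]

theorem Dat.Ok.sum {ι : Type} (s : Finset ι) {D : Dat S I} {T : ι → Matrix I I ℂ}
    (h : ∀ i ∈ s, D.Ok (T i)) : D.Ok (∑ i ∈ s, T i) := by
  refine ⟨fun ω hω => ?_, fun A B hAB => ?_⟩
  · rw [dat_cst_sum, LinearMap.sum_apply]
    exact D.G.sum_mem fun i hi => (h i hi).map ω hω
  · rw [Matrix.sum_apply] at hAB
    obtain ⟨i, hi, hC⟩ := exists_ne_zero_of_sum_ne_zero hAB
    exact (h i hi).wt A B hC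

theorem Dat.Ok.kron {D : Dat S I} {D' : Dat S I'} {T : Matrix I I ℂ} {T' : Matrix I' I' ℂ}
    (h : D.Ok T) (h' : D'.Ok T') : (D.tensor D').Ok (T ⊗ₖ T') := by
  refine ⟨fun ω hω => ⟨fun B => ?_, fun A => ?_⟩, fun q q' hq => ?_⟩
  · have e : (fun A => cst R (T ⊗ₖ T') ω (A, B)) =
        cst R T (∑ B', T' B B' • fun A => ω (A, B')) := by
      have e1 : (∑ B', T' B B' • fun A => ω (A, B')) =
          fun A' => cst R T' (fun B' => ω (A', B')) B := by
        funext A'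
        rw [cst_apply, Finset.sum_apply]
        rfl
      funext A
      rw [cst_kron, e1]
    rw [e]
    exact h.map _ (D.G.sum_mem fun B' _ => D.G.smul_of_tower_mem _ (hω.1 B'))
  · have e : (fun B => cst R (T ⊗ₖ T') ω (A, B)) =
        ∑ A', T A A' • cst R T' (fun B => ω (A', B)) := by
      funext B
      rw [cst_kron, cst_apply, Finset.sum_apply]
      rfl
    rw [e]
    exact D'.G.sum_mem fun A' _ => D'.G.smul_of_tower_mem _ (h'.map _ (hω.2 A'))
  · have hq' : T q.1 q'.1 * T' q.2 q'.2 ≠ 0 := hq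
    show D.w q.1 + D'.w q.2 = D.w q'.1 + D'.w q'.2
    rw [h.wt _ _ (left_ne_zero_of_mul hq'), h'.wt _ _ (right_ne_zero_of_mul hq')]

theorem Dat.Ok.swM [DecidableEq I] (D : Dat S I) : (D.tensor D).Ok (swM I) := by
  refine ⟨fun ω hω => ⟨fun B => ?_, fun A => ?_⟩, fun q q' hq => ?_⟩
  · have e : (fun A => cst R (HCF.swM I) ω (A, B)) = fun A => ω (B, A) := by
      funext A
      rw [cst_swM]
      rfl
    rw [e]
    exact hω.2 B
  · have e : (fun B => cst R (HCF.swM I) ω (A, B)) = fun B => ω (B, A) := by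
      funext B
      rw [cst_swM]
      rfl
    rw [e]
    exact hω.1 A
  · have hq' : q' = q.swap := by
      by_contra hne
      exact hq (if_neg hne)
    subst hq'
    exact add_comm _ _

theorem dat_cst_piM (N : Type) [AddCommGroup N] [Module ℂ N] (k : ℕ) (y : Finset (Fin M) → N)
    (J : Finset (Fin M)) : cst N (piM (Fin M) k) y J = if J.card = k then y J else 0 := by
  rw [piM, cst_diagonal]
  split_ifs <;> simp

theorem dat_diag_wt {d : Finset (Fin M) → ℂ} (A B : Finset (Fin M))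
    (h : Matrix.diagonal d A B ≠ 0) : A.card = B.card := by
  by_cases hAB : A = B
  · rw [hAB]
  · exact absurd (Matrix.diagonal_apply_ne d hAB) h

theorem dat_piM_mem (S : NS0 M n X R RR) (k : ℕ) {ω : Finset (Fin M) → R} (hω : ω ∈ S.lamG) :
    cst R (piM (Fin M) k) ω ∈ S.lamG := by
  intro p v hv
  have e : (fun J => S.ev p (cst R (piM (Fin M) k) ω J)) = pik ℂ ℂ k fun J => S.ev p (ω J) := by
    funext J
    rw [dat_cst_piM, pik_apply]
    split_ifs <;> simp
  rw [e]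
  exact iov_pik (hω p v hv) k

theorem NS.ok_piM (S : NS M n X R RR) (k : ℕ) : S.lam.Ok (piM (Fin M) k) :=
  ⟨fun _ hω => dat_piM_mem S.toNS0 k hω, fun A B h => dat_diag_wt A B h⟩

theorem dat_parM (M : ℕ) (ε : ℂ) :
    parM (Fin M) ε = ∑ k ∈ range (M + 1), ε ^ k • piM (Fin M) k := by
  ext A B
  rw [Matrix.sum_apply]
  by_cases hAB : A = B
  · subst hAB
    have hA : A.card ∈ range (M + 1) := by
      have := A.card_le_univ
      rw [Fintype.card_fin] at this
      exact mem_range.2 (Nat.lt_succ_of_le this)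
    rw [sum_eq_single_of_mem A.card hA]
    · simp [parM, piM]
    · intro k _ hk
      simp [piM, hk.symm]
  · simp [parM, piM, Matrix.diagonal_apply_ne _ hAB]

theorem NS.ok_parM (S : NS M n X R RR) (ε : ℂ) : S.lam.Ok (parM (Fin M) ε) := by
  rw [dat_parM]
  exact Dat.Ok.sum _ fun k _ => (S.ok_piM k).smul _

theorem dat_maps {D : Dat S I} {T : Matrix I I ℂ} (h : D.Ok T) (m : ℤ) :
    ∀ w ∈ D.V ⊓ Eg (S.sc D.w) m, cst R T w ∈ D.V ⊓ Eg (S.sc D.w) m :=
  mapsTo_inf (s := S.sc D.w) (T := cst R T) (p := D.V) h.map (fun w _ => h.comm w) m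

theorem dat_coeff (D : Dat S I) (T : Matrix I I ℂ) (m : ℕ) :
    coeff m (D.chi T) = trOn (D.V ⊓ Eg (S.sc D.w) m) (cst R T) := by
  rw [Dat.chi, HCF.chi, coeff_mk]

theorem Dat.chi_smul {D : Dat S I} {T : Matrix I I ℂ} (h : D.Ok T) (c : ℂ) :
    D.chi (c • T) = C c * D.chi T := by
  ext m
  rw [coeff_C_mul, dat_coeff, dat_coeff, cst_smul]
  exact trOn_smul (dat_maps h m) c

theorem Dat.chi_sum {ι : Type} (s : Finset ι) {D : Dat S I} {T : ι → Matrix I I ℂ}
    (h : ∀ i ∈ s, D.Ok (T i)) : D.chi (∑ i ∈ s, T i) = ∑ i ∈ s, D.chi (T i) := by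
  ext m
  rw [map_sum, dat_coeff, dat_cst_sum, trOn_sum s fun i hi => dat_maps (h i hi) m]
  exact sum_congr rfl fun i _ => (dat_coeff D (T i) m).symm

theorem dat_cst_mul (N : Type) [AddCommGroup N] [Module ℂ N] (T T' : Matrix I I ℂ) :
    cst N (T * T') = (cst N T : End ℂ (I → N)) * (cst N T' : End ℂ (I → N)) :=
  LinearMap.ext fun y => cst_mul T T' y

theorem Dat.chi_comm {D : Dat S I} {T T' : Matrix I I ℂ} (h : D.Ok T) (h' : D.Ok T') :
    D.chi (T * T') = D.chi (T' * T) := by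
  ext m
  rw [dat_coeff, dat_coeff, dat_cst_mul, dat_cst_mul]
  exact trOn_comm (dat_maps h m) (dat_maps h' m)

theorem Dat.chi_zero (D : Dat S I) : D.chi 0 = 0 := by
  have h := Dat.chi_sum (∅ : Finset Unit) (D := D) (T := fun _ => 0) (by simp)
  rwa [sum_empty, sum_empty] at h

theorem dat_reindex {D : Dat S I} {D' : Dat S I'} {T : Matrix I I ℂ} {T' : Matrix I' I' ℂ}
    (h : D.Ok T) (e : I' ≃ I) (hw : ∀ A, D'.w A = D.w (e A))
    (hG : ∀ ω : I → R, (fun A => ω (e A)) ∈ D'.G ↔ ω ∈ D.G) (hT : ∀ A B, T' A B = T (e A) (e B)) :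
    D'.chi T' = D.chi T := by
  have hV : D.V.map (LinearMap.funLeft ℂ R e) = D'.V := by
    ext η
    constructor
    · rintro ⟨ω, hω, rfl⟩
      exact (hG ω).2 hω
    · intro hη
      have e1 : (fun A => (fun B => η (e.symm B)) (e A)) = η := by
        funext A
        simp
      refine ⟨fun B => η (e.symm B), (hG _).1 ?_, e1⟩
      rw [e1]
      exact hη
  rw [Dat.chi, Dat.chi, ← hV]
  refine chi_congr D.grd _ h.map (fun w _ => h.comm w) (fun w _ => ?_) (fun w _ => ?_)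
    fun w _ hw0 => ?_
  · funext A
    rw [dat_sc_apply, hw]
    rfl
  · funext A
    rw [cst_apply, LinearMap.funLeft_apply, cst_apply, ← e.sum_comp]
    exact sum_congr rfl fun B _ => by rw [hT]; rfl
  · funext B
    have := congrFun hw0 (e.symm B)
    rwa [LinearMap.funLeft_apply, e.apply_symm_apply] at this

theorem dat_unit_mem (D : Dat S I) (ω : I × Unit → R) :
    ω ∈ (D.tensor (Dat.one S)).G ↔ (fun A => ω (A, ())) ∈ D.G :=
  ⟨fun h => h.1 (), fun h => ⟨fun _ => h, fun _ => trivial⟩⟩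

theorem Dat.chi_unit {D : Dat S I} {T : Matrix I I ℂ} (h : D.Ok T) :
    (D.tensor (Dat.one S)).chi (T ⊗ₖ 1) = D.chi T := by
  refine dat_reindex h (Equiv.prodPUnit I) (fun A => rfl) (fun ω => dat_unit_mem D _) fun A B => ?_
  show T A.1 B.1 * (1 : Matrix Unit Unit ℂ) A.2 B.2 = T A.1 B.1
  rw [Subsingleton.elim A.2 B.2, Matrix.one_apply_eq, mul_one]

theorem Dat.chi_unit' {E : Dat S I'} {D : Dat S I} {T₁ : Matrix I' I' ℂ} {T : Matrix I I ℂ}
    (h₁ : E.Ok T₁) (h : D.Ok T) :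
    (E.tensor (D.tensor (Dat.one S))).chi (T₁ ⊗ₖ (T ⊗ₖ 1)) = (E.tensor D).chi (T₁ ⊗ₖ T) := by
  refine dat_reindex (h₁.kron h) ((Equiv.refl I').prodCongr (Equiv.prodPUnit I)) (fun A => rfl)
    (fun ω => ⟨fun hω => ⟨fun B => hω.1 (B, ()), fun A => (dat_unit_mem D _).1 (hω.2 A)⟩,
      fun hω => ⟨fun B => hω.1 B.1, fun A => (dat_unit_mem D _).2 (hω.2 A)⟩⟩) fun A B => ?_
  show T₁ A.1 B.1 * (T A.2.1 B.2.1 * (1 : Matrix Unit Unit ℂ) A.2.2 B.2.2) =
    T₁ A.1 B.1 * T A.2.1 B.2.1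
  rw [Subsingleton.elim A.2.2 B.2.2, Matrix.one_apply_eq, mul_one]

theorem dat_mem_Eg (S : NS0 M n X R RR) {J : Type} (w : J → ℕ) (m : ℤ) (ω : J → R) :
    ω ∈ Eg (S.sc w) m ↔ ∀ A, ω A ∈ Eg S.s1.toLinearMap (m - w A) := by
  have h := pi_inf_Eg w S.s1.toLinearMap ⊤ m
  constructor
  · intro hω A
    have h1 : ω ∈ Submodule.pi Set.univ (fun _ : J => (⊤ : Submodule ℂ R)) ⊓
        Eg (piOp (fun i => 2 ^ w i) S.s1.toLinearMap) m := ⟨fun _ _ => Submodule.mem_top, hω⟩
    rw [h] at h1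
    exact (h1 A trivial).2
  · intro hω
    have h1 : ω ∈ Submodule.pi Set.univ fun i => (⊤ : Submodule ℂ R) ⊓
        Eg S.s1.toLinearMap (m - w i) := fun A _ => ⟨Submodule.mem_top, hω A⟩
    rw [← h] at h1
    exact h1.2

theorem dat_map_piM (S : NS M n X R RR) (k : ℕ) (m : ℤ) :
    (S.lam.V ⊓ Eg (S.sc S.lam.w) m).map (cst R (piM (Fin M) k)) = S.Hm k (m - k) := by
  ext η
  constructor
  · rintro ⟨ω, ⟨hω, hE⟩, rfl⟩
    refine ⟨dat_piM_mem S.toNS0 k hω, fun J hJ => ?_, fun J => ?_⟩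
    · rw [dat_cst_piM, if_neg hJ]
    · rw [dat_cst_piM]
      split_ifs with hJ
      · have := (dat_mem_Eg S.toNS0 S.lam.w m ω).1 hE J
        rw [← hJ]
        exact this
      · exact Submodule.zero_mem _
  · rintro ⟨hη, hD, hE⟩
    refine ⟨η, ⟨hη, (dat_mem_Eg S.toNS0 S.lam.w m η).2 fun J => ?_⟩, ?_⟩
    · by_cases hJ : J.card = k
      · have := hE J
        rw [← hJ] at this
        exact this
      · rw [hD J hJ]
        exact Submodule.zero_mem _
    · funext J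
      rw [dat_cst_piM]
      split_ifs with hJ
      · rfl
      · exact (hD J hJ).symm

theorem dat_Hm_neg (S : NS0 M n X R RR) (k : ℕ) {m : ℤ} (hm : m < 0) : S.Hm k m = ⊥ := by
  rw [eq_bot_iff]
  rintro η ⟨-, -, hE⟩
  rw [Submodule.mem_bot]
  funext J
  have h1 : η J ∈ (⊤ : Submodule ℂ R) ⊓ Eg S.s1.toLinearMap m := ⟨Submodule.mem_top, hE J⟩
  rw [(dat_grd_top S).neg hm] at h1
  exact h1

theorem NS.chi_piM (S : NS M n X R RR) (k : ℕ) :
    S.lam.chi (piM (Fin M) k) = PowerSeries.X ^ k * S.HS k := by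
  ext m
  have := S.lam.grd.fin m
  have h2 : ∀ w ∈ S.lam.V ⊓ Eg (S.sc S.lam.w) m,
      cst R (piM (Fin M) k) (cst R (piM (Fin M) k) w) = cst R (piM (Fin M) k) w := by
    intro w _
    funext J
    rw [dat_cst_piM, dat_cst_piM]
    split_ifs <;> rfl
  rw [dat_coeff, trOn_proj (dat_maps (S.ok_piM k) m) h2, dat_map_piM, coeff_X_pow_mul']
  split_ifs with hk
  · rw [NS0.HS, coeff_mk, Nat.cast_sub hk]
  · rw [dat_Hm_neg S.toNS0 k (by omega), finrank_bot, Nat.cast_zero]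

theorem dat_map_one (S : NS0 M n X R RR) (m : ℤ) :
    (S.Hm 0 m).map (LinearMap.funLeft ℂ R fun _ : Unit => (∅ : Finset (Fin M))) =
      (Dat.one S).V ⊓ Eg (S.sc (Dat.one S).w) m := by
  ext η
  constructor
  · rintro ⟨ω, ⟨-, -, hE⟩, rfl⟩
    refine ⟨trivial, (dat_mem_Eg S _ m _).2 fun A => ?_⟩
    have := hE ∅
    rw [← sub_zero m] at this
    exact this
  · rintro ⟨-, hE⟩
    have h0 := (dat_mem_Eg S _ m _).1 hE ()
    have h1 : η () ∈ Eg S.s1.toLinearMap m := by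
      rw [← sub_zero m]
      exact h0
    have hz : ∀ J : Finset (Fin M), J ≠ ∅ → (Pi.single ∅ (η ()) : Finset (Fin M) → R) J = 0 :=
      fun J hJ => Pi.single_eq_of_ne hJ _
    refine ⟨Pi.single ∅ (η ()), ⟨fun p v _ => Lev.iov_zero (fun J hJ => ?_) v, fun J hJ => ?_,
      fun J => ?_⟩, ?_⟩
    · show S.ev p _ = 0
      rw [hz J (card_pos.1 hJ).ne_empty, map_zero]
    · exact hz J fun h => hJ (by rw [h, card_empty])
    · by_cases hJ : J = ∅
      · rw [hJ, Pi.single_eq_same]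
        exact h1
      · rw [hz J hJ]
        exact Submodule.zero_mem _
    · funext A
      rw [LinearMap.funLeft_apply, Pi.single_eq_same]

theorem NS.chi_one (S : NS M n X R RR) : (Dat.one S.toNS0).chi 1 = S.HS 0 := by
  ext m
  have := (Dat.one S.toNS0).grd.fin m
  have e1 : cst R (1 : Matrix Unit Unit ℂ) = (1 : End ℂ (Unit → R)) :=
    LinearMap.ext fun y => cst_one y
  rw [dat_coeff, e1, trOn_one, NS0.HS, coeff_mk, ← dat_map_one]
  congr 1
  have hi : Function.Injective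
      ((LinearMap.funLeft ℂ R fun _ : Unit => (∅ : Finset (Fin M))).domRestrict (S.Hm 0 m)) := by
    rw [injective_iff_map_eq_zero]
    rintro ⟨ω, hω⟩ h0
    refine Subtype.ext (funext fun J => ?_)
    by_cases hJ : J = ∅
    · rw [hJ]
      exact congrFun h0 ()
    · exact hω.2.1 J fun h => hJ (card_eq_zero.1 h)
  rw [← LinearMap.range_domRestrict]
  exact LinearMap.finrank_range_of_inj hi

end Pool.Agent.HCF
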