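import Pool.Agent.P.MP_f644fa_ag.NDefs

/-! Tensor products, the conormal forms, formal properties of the graded trace. -/

noncomputable section
namespace Pool.Agent.HCF
open Finset Module PowerSeries
open scoped Kronecker

section cst
variable {N : Type} [AddCommGroup N] [Module ℂ N] {I I' I'' : Type} [Fintype I'] [Fintype I'']

theorem cst_mul (T : Matrix I I' ℂ) (T' : Matrix I' I'' ℂ) (y : I'' → N) :
    cst N (T * T') y = cst N T (cst N T' y) := by
  funext A
  simp only [cst_apply, Matrix.mul_apply, sum_smul, smul_sum, mul_smul]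
  exact sum_comm
theorem cst_one [DecidableEq I'] (y : I' → N) : cst N (1 : Matrix I' I' ℂ) y = y := by
  funext A
  simp [cst_apply, Matrix.one_apply]
theorem cst_add (T T' : Matrix I I' ℂ) : cst N (T + T') = cst N T + cst N T' := by
  refine LinearMap.ext fun y => funext fun A => ?_
  simp [cst_apply, add_smul, sum_add_distrib]
theorem cst_smul (c : ℂ) (T : Matrix I I' ℂ) : cst N (c • T) = c • cst N T := by
  refine LinearMap.ext fun y => funext fun A => ?_
  simp [cst_apply, smul_sum, mul_smul]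
theorem cst_diagonal [DecidableEq I'] (d : I' → ℂ) (y : I' → N) (A : I') :
    cst N (Matrix.diagonal d) y A = d A • y A := by
  simp [cst_apply, Matrix.diagonal_apply]
theorem cst_swM [DecidableEq I'] (y : I' × I' → N) (q : I' × I') :
    cst N (swM I') y q = y q.swap := by
  simp [cst_apply, swM]
theorem cst_kron {J J' : Type} [Fintype J'] (T : Matrix I I' ℂ) (T' : Matrix J J' ℂ)
    (y : I' × J' → N) (A : I) (B : J) :
    cst N (T ⊗ₖ T') y (A, B) = cst N T (fun A' => cst N T' (fun B' => y (A', B')) B) A := by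
  simp only [cst_apply, Fintype.sum_prod_type, Matrix.kroneckerMap_apply, smul_sum, mul_smul]
end cst

variable {M n : ℕ} {X R RR : Type} [CommRing R] [Algebra ℂ R] [CommRing RR] [Algebra ℂ RR]
  {S : NS0 M n X R RR} {I I' I'' : Type} [Fintype I] [Fintype I'] [Fintype I'']

theorem Dat.tG_inv (D : Dat S I) (D' : Dat S I') :
    ∀ ω ∈ D.tG D', S.sc (fun q => D.w q.1 + D'.w q.2) ω ∈ D.tG D' := by
  intro ω h
  refine ⟨fun B => ?_, fun A => ?_⟩
  · have := D.G.smul_of_tower_mem ((2 : ℂ) ^ D'.w B) (D.inv _ (h.1 B))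
    refine (congrArg (· ∈ D.G) (funext fun A => ?_)).mp this
    show (2 : ℂ) ^ D'.w B • (2 : ℂ) ^ D.w A • S.s1 (ω (A, B))
      = (2 : ℂ) ^ (D.w A + D'.w B) • S.s1 (ω (A, B))
    rw [smul_smul, pow_add, mul_comm]
  · have := D'.G.smul_of_tower_mem ((2 : ℂ) ^ D.w A) (D'.inv _ (h.2 A))
    refine (congrArg (· ∈ D'.G) (funext fun B => ?_)).mp this
    show (2 : ℂ) ^ D.w A • (2 : ℂ) ^ D'.w B • S.s1 (ω (A, B))
      = (2 : ℂ) ^ (D.w A + D'.w B) • S.s1 (ω (A, B))
    rw [smul_smul, pow_add]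

omit [Algebra ℂ R] in
theorem dat0_kron1 (π : Matrix I I R) (π' : Matrix I' I' R) (ω : I × I' → R) (A : I) (B : I') :
    (π ⊗ₖ π').mulVec ω (A, B) = π.mulVec (fun A' => π'.mulVec (fun B' => ω (A', B')) B) A := by
  simp only [Matrix.mulVec, dotProduct, Fintype.sum_prod_type, Matrix.kroneckerMap_apply, mul_sum,
    mul_assoc]

omit [Algebra ℂ R] in
theorem dat0_kron2 (π : Matrix I I R) (π' : Matrix I' I' R) (ω : I × I' → R) (A : I) (B : I') :
    (π ⊗ₖ π').mulVec ω (A, B) = π'.mulVec (fun B' => π.mulVec (fun A' => ω (A', B')) A) B := by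
  simp only [Matrix.mulVec, dotProduct, Fintype.sum_prod_type_right, Matrix.kroneckerMap_apply,
    mul_sum, mul_assoc, mul_left_comm (π' B _)]

theorem Dat.tG_loc (D : Dat S I) (D' : Dat S I') (p : X) :
    ∃ (g : R) (π : Matrix (I × I') (I × I') R), S.ev p g ≠ 0 ∧ (∀ ω, π.mulVec ω ∈ D.tG D') ∧
      ∀ ω ∈ D.tG D', π.mulVec ω = g • ω := by
  obtain ⟨g, π, h1, h2, h3⟩ := D.loc p
  obtain ⟨g', π', h1', h2', h3'⟩ := D'.loc p
  refine ⟨g * g', π ⊗ₖ π', by rw [map_mul]; exact mul_ne_zero h1 h1', fun ω => ⟨fun B => ?_,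
    fun A => ?_⟩, fun ω h => funext fun ⟨A, B⟩ => ?_⟩
  · simp only [dat0_kron1]
    exact h2 _
  · simp only [dat0_kron2]
    exact h2' _
  · have e : (fun A' => π'.mulVec (fun B' => ω (A', B')) B) = g' • fun A' => ω (A', B) :=
      funext fun A' => by rw [h3' _ (h.2 A')]; rfl
    rw [dat0_kron1, e, Matrix.mulVec_smul, h3 _ (h.1 B)]
    simp only [Pi.smul_apply, smul_eq_mul]
    ring

/-- the tensor product -/
def Dat.tensor (D : Dat S I) (D' : Dat S I') : Dat S (I × I') where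
  w q := D.w q.1 + D'.w q.2
  G := D.tG D'
  inv := D.tG_inv D'
  loc := D.tG_loc D'

theorem NS0.lamG_inv (S : NS0 M n X R RR) : ∀ ω ∈ S.lamG, S.sc Finset.card ω ∈ S.lamG := by
  intro ω h p v hv
  have h1 := h (S.dbl p) v ((S.T_dbl p).symm ▸ hv)
  have e : (fun J => S.ev p (S.sc Finset.card ω J))
      = fun J => (2 : ℂ) ^ J.card * S.ev (S.dbl p) (ω J) := funext fun J => by
    show S.ev p ((2 : ℂ) ^ J.card • S.s1 (ω J)) = _
    rw [map_smul, S.ev_dbl, smul_eq_mul]
  rw [e]
  funext J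
  have h2 := congrFun h1 J
  simp only [iov, LinearMap.sum_apply, LinearMap.smul_apply, Finset.sum_apply, Pi.smul_apply,
    io_apply, Pi.zero_apply] at h2 ⊢
  refine Eq.trans ?_ ((congrArg ((2 : ℂ) ^ (J.card + 1) * ·) h2).trans (mul_zero _))
  rw [mul_sum]
  refine sum_congr rfl fun j _ => ?_
  by_cases hj : j ∈ J
  · simp [hj]
  · simp only [if_neg hj, card_insert_of_notMem hj, smul_eq_mul, zsmul_eq_mul]
    ring

theorem dat0_nat (S : NS0 M n X R RR) (q : X) (a : Fin M → R) (ω : Finset (Fin M) → R) :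
    (fun J => S.ev q (iov R a ω J)) = iov ℂ (fun j => S.ev q (a j)) fun J => S.ev q (ω J) :=
  iov_nat (S.ev q : R →+* ℂ).toAddMonoidHom (fun j v => map_mul (S.ev q) (a j) v) ω

theorem Frame.iov_t {p : X} (F : Frame S p) {ω : Finset (Fin M) → R} (h : ω ∈ S.lamG) (l : Fin M) :
    iov R (fun j => F.t j l) ω = 0 :=
  funext fun J => S.sep _ fun q =>
    (congrFun (dat0_nat S q _ ω) J).trans (congrFun (h q _ (F.t_tan q l)) J)

theorem Frame.iov_ev {p : X} (F : Frame S p) {ω : Finset (Fin M) → R}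
    (h : ∀ l, iov R (fun j => F.t j l) ω = 0) (q : X) :
    ∀ v ∈ S.T q, S.ev q F.δ • iov ℂ v (fun J => S.ev q (ω J)) = 0 := by
  intro v hv
  have e : S.ev q F.δ • v = ∑ l, v l • fun j => S.ev q (F.t j l) := by
    funext j
    have h1 : ∀ l, S.ev q (F.t j l)
        = (if j = l then S.ev q F.δ else 0) - ∑ i, S.ev q (F.b i j) * S.ev q (F.J i l) := fun l => by
      rw [F.t_eq]
      by_cases e : j = l <;> simp [Matrix.sum_apply, e]
    have h2 : ∑ l, v l * ∑ i, S.ev q (F.b i j) * S.ev q (F.J i l) = 0 := by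
      simp only [mul_sum]
      rw [sum_comm]
      refine sum_eq_zero fun i _ => ?_
      rw [← mul_zero (S.ev q (F.b i j)), ← F.J_tan q v hv i, mul_sum]
      exact sum_congr rfl fun l _ => by ring
    simp only [Finset.sum_apply, Pi.smul_apply, smul_eq_mul, h1, mul_sub, sum_sub_distrib, h2]
    simp [mul_comm]
  rw [← LinearMap.smul_apply, ← iov_smul, e, iov_sum, LinearMap.sum_apply]
  refine sum_eq_zero fun l _ => ?_
  rw [iov_smul, LinearMap.smul_apply, ← dat0_nat, h l]
  simp only [Pi.zero_apply, map_zero]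
  exact smul_zero _

theorem NS.lamG_loc (S : NS M n X R RR) (p : X) :
    ∃ (g : R) (π : Matrix (Finset (Fin M)) (Finset (Fin M)) R), S.ev p g ≠ 0 ∧
      (∀ ω, π.mulVec ω ∈ S.lamG) ∧ ∀ ω ∈ S.lamG, π.mulVec ω = g • ω := by
  obtain ⟨F⟩ := S.frame p
  refine ⟨F.δ * ((-1) ^ M * (M.factorial : R) * F.δ ^ M),
    LinearMap.toMatrix' (F.δ • lad R F.t F.δ 1 M), ?_, fun ω q v hv => ?_, fun ω h => ?_⟩
  · simp only [map_mul, map_pow, map_neg, map_one, map_natCast]
    exact mul_ne_zero F.ne (mul_ne_zero (mul_ne_zero (by simp)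
      (Nat.cast_ne_zero.2 M.factorial_ne_zero)) (pow_ne_zero _ F.ne))
  · have h1 := F.iov_ev (ω := lad R F.t F.δ 1 M ω) (fun l => by
      simpa only [Fintype.card_fin] using iov_lad F.tt l ω) q v hv
    rw [← map_smul] at h1
    rw [LinearMap.toMatrix'_mulVec, ← h1]
    refine congrArg _ (funext fun J => ?_)
    simp only [LinearMap.smul_apply, Pi.smul_apply, smul_eq_mul, map_mul]
  · rw [LinearMap.toMatrix'_mulVec, LinearMap.smul_apply, lad_of_ker F.δ M (F.iov_t h), smul_smul]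

/-- the exterior algebra of the conormal bundle -/
def NS.lam (S : NS M n X R RR) : Dat S.toNS0 (Finset (Fin M)) where
  w := Finset.card
  G := S.lamG
  inv := S.lamG_inv
  loc := S.lamG_loc

end Pool.Agent.HCF
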