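import Mathlib

/-! Projective manifolds given by their homogeneous ideal, the section ring, the canonical class. -/

noncomputable section
namespace Pool.Agent.HCF
open MvPolynomial

variable {M : ℕ}

/-- The affine cone over `X = V(I) ⊆ ℙ^(M-1)`, without its vertex. -/
def cone (I : Ideal (MvPolynomial (Fin M) ℂ)) : Set (Fin M → ℂ) :=
  {x | x ≠ 0 ∧ ∀ f ∈ I, eval x f = 0}

/-- The tangent space of the affine cone at `x`. -/
def tang (I : Ideal (MvPolynomial (Fin M) ℂ)) (x : Fin M → ℂ) : Set (Fin M → ℂ) :=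
  {v | ∀ f ∈ I, ∑ j, v j * eval x (pderiv j f) = 0}

/-- `I` is the homogeneous ideal of a smooth irreducible projective variety of codimension `c`:
a homogeneous prime ideal with a projective zero which, near each such zero, is generated by `c`
of its elements with linearly independent differentials (Jacobian criterion). -/
structure IsManifold (I : Ideal (MvPolynomial (Fin M) ℂ)) (c : ℕ) : Prop where
  prime : I.IsPrime
  homog : ∀ f ∈ I, ∀ d, homogeneousComponent d f ∈ I
  nonempty : (cone I).Nonempty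
  smooth : ∀ x ∈ cone I, ∃ (f : Fin c → MvPolynomial (Fin M) ℂ) (g : MvPolynomial (Fin M) ℂ),
    (∀ i, f i ∈ I) ∧ LinearIndependent ℂ (fun i j => eval x (pderiv j (f i))) ∧ eval x g ≠ 0 ∧
      ∀ h ∈ I, g * h ∈ Ideal.span (Set.range f)

/-- The section ring `⨁ H⁰(X, O(m))`: functions on the punctured cone that are regular on each
standard chart, that is, become polynomial after multiplication by a power of the coordinate. -/
def secRing (I : Ideal (MvPolynomial (Fin M) ℂ)) : Subalgebra ℂ (cone I → ℂ) where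
  carrier := {a | ∀ j, ∃ (k : ℕ) (p : MvPolynomial (Fin M) ℂ), ∀ x : cone I,
    x.1 j ^ k * a x = eval x.1 p}
  mul_mem' := fun {a b} ha hb j => by
    obtain ⟨k, p, hp⟩ := ha j
    obtain ⟨l, q, hq⟩ := hb j
    exact ⟨k + l, p * q, fun x => by rw [map_mul, ← hp, ← hq, Pi.mul_apply]; ring⟩
  add_mem' := fun {a b} ha hb j => by
    obtain ⟨k, p, hp⟩ := ha j
    obtain ⟨l, q, hq⟩ := hb j
    exact ⟨k + l, X j ^ l * p + X j ^ k * q, fun x => by
      simp only [map_add, map_mul, map_pow, eval_X, ← hp, ← hq, Pi.add_apply]; ring⟩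
  algebraMap_mem' := fun r j => ⟨0, C r, fun x => by simp⟩

/-- `a` is homogeneous of degree `m`; in the section ring these are the sections of `O(m)`. -/
def IsHom {I : Ideal (MvPolynomial (Fin M) ℂ)} (m : ℤ) (a : cone I → ℂ) : Prop :=
  ∀ (x y : cone I) (t : ℂ), y.1 = t • x.1 → a y = t ^ m * a x

/-- `K_X = b H`, through the adjunction formula `det (N^*(1)) = O(-(b + M - c))`: the top exterior
power of the conormal space of the cone has a nowhere vanishing regular generator that is
homogeneous of degree `b + M - c`. -/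
def CanonicalIs (I : Ideal (MvPolynomial (Fin M) ℂ)) (c : ℕ) (b : ℤ) : Prop :=
  ∃ ν : cone I → (Fin M → ℂ) [⋀^Fin c]→ₗ[ℂ] ℂ, (∀ x, ν x ≠ 0) ∧
    (∀ x v i, v i ∈ tang I x.1 → ν x v = 0) ∧
    ∀ v, (fun x => ν x v) ∈ secRing I ∧ IsHom (b + M - c) fun x => ν x v

end Pool.Agent.HCF
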