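import Pool.Agent.P.MP_f644fa_ag.Dat
import Pool.Agent.P.MP_f644fa_ag.Loc

/-! The Koszul complex of the diagonal with trivial coefficients. -/

noncomputable section
namespace Pool.Agent.HCF
open Finset Module

variable {M n : ℕ} {X R RR : Type} [CommRing R] [Algebra ℂ R] [CommRing RR] [Algebra ℂ RR]
  {S : NS0 M n X R RR}

theorem NS0.mu_u (S : NS0 M n X R RR) (j : Fin M) : S.mu (S.u j) = 0 := by
  rw [NS0.u, map_sub, S.mu_inl, S.mu_inr, sub_self]

theorem NS0.diag1_ind (S : NS0 M n X R RR) (p : Submodule ℂ RR)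
    (h : ∀ a b, S.inl a * S.inr b ∈ p) : p = ⊤ := by
  let q : Submodule ℂ RR := Submodule.span ℂ {r | ∃ a b, S.inl a * S.inr b = r}
  have hq : q ≤ p := Submodule.span_le.2 fun _ ⟨a, b, e⟩ => e ▸ h a b
  have hm : ∀ a b, ∀ r ∈ q, r * (S.inl a * S.inr b) ∈ q := fun a b r hr => by
    induction hr using Submodule.span_induction with
    | mem r hr =>
      obtain ⟨a', b', rfl⟩ := hr
      exact Submodule.subset_span ⟨a' * a, b' * b, by rw [map_mul, map_mul]; ring⟩
    | zero => rw [zero_mul]; exact q.zero_mem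
    | add r r' _ _ h1 h2 => rw [add_mul]; exact q.add_mem h1 h2
    | smul c r _ h1 => rw [smul_mul_assoc]; exact q.smul_mem c h1
  refine top_unique fun r _ => hq ?_
  obtain ⟨P, rfl⟩ := S.gen2 r
  induction P using MvPolynomial.induction_on with
  | C c =>
    exact Submodule.subset_span ⟨algebraMap ℂ R c, 1, by simp⟩
  | add P Q h1 h2 => rw [map_add]; exact q.add_mem (h1 trivial) (h2 trivial)
  | mul_X P j h1 =>
    rw [map_mul, MvPolynomial.aeval_X]
    rcases j with j | j
    · simpa using hm (S.x j) 1 _ (h1 trivial)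
    · simpa using hm 1 (S.x j) _ (h1 trivial)

theorem NS0.diag1_sub (S : NS0 M n X R RR) (b : R) :
    S.inr b - S.inl b ∈ Ideal.span (Set.range S.u) := by
  obtain ⟨P, rfl⟩ := S.gen b
  induction P using MvPolynomial.induction_on with
  | C c => simp
  | add P Q h1 h2 =>
    rw [map_add, map_add, map_add, add_sub_add_comm]
    exact Ideal.add_mem _ h1 h2
  | mul_X P j h1 =>
    rw [map_mul, MvPolynomial.aeval_X, map_mul, map_mul]
    have h2 := Ideal.sub_mem _ (Ideal.mul_mem_right (S.inr (S.x j)) _ h1)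
      (Ideal.mul_mem_left _ (S.inl (MvPolynomial.aeval S.x P))
        (Ideal.subset_span (Set.mem_range_self (f := S.u) j)))
    refine (congrArg (· ∈ Ideal.span (Set.range S.u)) ?_).mp h2
    rw [NS0.u]
    ring

theorem NS0.sub_mem (S : NS0 M n X R RR) (r : RR) :
    r - S.inl (S.mu r) ∈ Ideal.span (Set.range S.u) := by
  have h := S.diag1_ind (((Ideal.span (Set.range S.u)).restrictScalars ℂ).comap
    (LinearMap.id - (S.inl.comp S.mu).toLinearMap)) fun a b => by
      change S.inl a * S.inr b - S.inl (S.mu (S.inl a * S.inr b)) ∈ Ideal.span (Set.range S.u)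
      rw [map_mul, S.mu_inl, S.mu_inr, map_mul, ← mul_sub]
      exact Ideal.mul_mem_left _ _ (S.diag1_sub b)
  exact (h ▸ Submodule.mem_top : r ∈ ((Ideal.span (Set.range S.u)).restrictScalars ℂ).comap
    (LinearMap.id - (S.inl.comp S.mu).toLinearMap))

theorem NS0.ker_mu (S : NS0 M n X R RR) {r : RR} (h : S.mu r = 0) :
    r ∈ Ideal.span (Set.range S.u) := by
  have := S.sub_mem r
  rwa [h, map_zero, sub_zero] at this

/-- the ring of the square is spanned by products -/
theorem NS0.ind2 (S : NS0 M n X R RR) (p : Submodule ℂ RR) (h : ∀ a b, S.inl a * S.inr b ∈ p) :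
    p = ⊤ := by
  exact S.diag1_ind p h

theorem Frame.diag1_D {p : X} (F : Frame S p) (l j : Fin M) :
    F.D l (S.u j) = S.inl (F.t j l) := by
  rw [NS0.u, map_sub, F.D_inl, F.D_inr, sub_zero]

theorem Frame.inj {p : X} (F : Frame S p) : ∃ k : ℕ, ∀ z : Finset (Fin M) → RR,
    iov RR S.u z = 0 → (∀ J, S.mu (z J) = 0) → ∃ b, S.inl F.δ ^ k • z = iov RR S.u b := by
  have := noeth S.gen2
  obtain ⟨k, hk⟩ := loc_thm S.u (S.inl F.δ) F.D (by
    ext j l
    have h := congrArg S.inl (congrFun (congrFun F.tt j) l)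
    simpa [Matrix.mul_apply, F.diag1_D] using h) fun j => by
      have h1 : ∀ i, ∑ l, S.u l * S.inl (F.J i l) ∈ Ideal.span (Set.range S.u) ^ 2 := fun i => by
        rw [← sub_zero (∑ l, _), ← F.a_u i, ← sum_sub_distrib, sq]
        refine Ideal.sum_mem _ fun l _ => ?_
        rw [← mul_sub]
        exact Ideal.mul_mem_mul (Ideal.subset_span ⟨l, rfl⟩)
          (S.ker_mu (by rw [map_sub, S.mu_inl, F.mu_a, sub_self]))
      have h2 : ∑ l, S.u l * F.D l (S.u j) - S.inl F.δ * S.u j =
          -∑ i, S.inl (F.b i j) * ∑ l, S.u l * S.inl (F.J i l) := by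
        simp only [F.diag1_D, F.t_eq, Matrix.sub_apply, Matrix.smul_apply, Matrix.sum_apply,
          Matrix.of_apply, Matrix.one_apply, smul_eq_mul, mul_ite, mul_one, mul_zero, map_sub,
          map_sum, map_mul, mul_sub, sum_sub_distrib, apply_ite S.inl, map_zero, sum_ite_eq,
          mem_univ, if_true, mul_sum]
        rw [sum_comm, mul_comm (S.u j), sub_sub_cancel_left]
        exact congrArg Neg.neg (sum_congr rfl fun i _ => sum_congr rfl fun l _ => by ring)
      rw [h2]
      exact neg_mem (Ideal.sum_mem _ fun i _ => Ideal.mul_mem_left _ _ (h1 i))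
  exact ⟨k, fun z h1 h2 => hk z h1 fun J => S.ker_mu (h2 J)⟩

theorem diag1_apply {σ O N : Type} [LinearOrder σ] [Fintype σ] [CommRing O] [AddCommGroup N]
    [Module O N] (v : σ → O) (y : Finset σ → N) (J : Finset σ) :
    iov N v y J = ∑ j, v j • io O N j y J := by
  simp [iov]

theorem diag1_wt {σ : Type} [LinearOrder σ] [Fintype σ] (w : ℕ → ℂ) (v : σ → ℂ)
    (y : Finset σ → ℂ) (J : Finset σ) :
    iov ℂ v (fun J => w J.card • y J) J = w (J.card + 1) • iov ℂ v y J := by
  rw [diag1_apply, diag1_apply, smul_sum]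
  refine sum_congr rfl fun j _ => ?_
  rw [io_apply, io_apply]
  by_cases h : j ∈ J
  · simp [h]
  · rw [if_neg h, if_neg h, card_insert_of_notMem h, smul_comm (sg j J), smul_comm]

theorem NS0.diag1_wt_mem {γ : Finset (Fin M) → R} (h : γ ∈ S.lamG) (w : ℕ → ℂ) :
    (fun J => w J.card • γ J) ∈ S.lamG := fun p v hv => by
  funext J
  simp only [map_smul]
  rw [diag1_wt, h p v hv]
  simp

theorem NS0.diag1_iov_mem {γ : Finset (Fin M) → R} (h : γ ∈ S.lamG) (b : Fin M → R) :
    iov R b γ ∈ S.lamG := fun p v hv => by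
  have h1 := iov_nat (S.ev p).toAddMonoidHom (a := b) (a' := fun j => S.ev p (b j))
    (fun j r => map_mul (S.ev p) _ _) γ
  have h2 := LinearMap.congr_fun (iov_iov (N := ℂ) v fun j => S.ev p (b j)) fun J => S.ev p (γ J)
  rw [LinearMap.add_apply, Module.End.mul_apply, Module.End.mul_apply, h p v hv, map_zero,
    add_zero] at h2
  exact (congrArg (iov ℂ v) h1).trans h2

theorem Frame.diag1_num {p : X} (F : Frame S p) {γ : Finset (Fin M) → R} (h : γ ∈ S.lamG) :
    F.δ • num R R γ = ∑ i, epv R (F.J i) (iov R (F.b i) γ) := by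
  have h1 : kt R F.t γ = 0 := by
    simp only [kt, LinearMap.sum_apply, Module.End.mul_apply, F.iov_t h, map_zero, sum_const_zero]
  rw [F.t_eq, kt_sub, kt_smul, kt_one, kt_sum, LinearMap.sub_apply, sub_eq_zero] at h1
  simpa only [kt_rank_one, LinearMap.sum_apply, Module.End.mul_apply, LinearMap.smul_apply] using h1

theorem Frame.surj_lev {p : X} (F : Frame S p) (r : ℕ) : ∀ γ ∈ S.lamG, Lev r γ →
    ∃ z : Finset (Fin M) → RR, iov RR S.u z = 0 ∧ ∀ J, S.mu (z J) = F.δ ^ r * γ J := by
  induction r with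
  | zero =>
    exact fun γ _ h => ⟨fun J => S.inl (γ J),
      Lev.iov_zero (fun J hJ => by rw [h J hJ, map_zero]) _, fun J => by simp [S.mu_inl]⟩
  | succ r ih =>
    intro γ hγ h
    have h1 := NS0.diag1_wt_mem hγ fun k => (k : ℂ)⁻¹
    set γ' : Finset (Fin M) → R := fun J => (J.card : ℂ)⁻¹ • γ J with hγ'
    have h2 : Lev (r + 1) γ' := fun J hJ => by simp [hγ', h J hJ]
    choose z hz hm using fun i => ih _ (NS0.diag1_iov_mem h1 (F.b i)) (h2.iov (F.b i))
    refine ⟨(fun J => S.inl (F.δ ^ (r + 1) * pik R R 0 γ J)) + ∑ i, epv RR (F.a i) (z i), ?_,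
      fun J => ?_⟩
    · rw [map_add, map_sum, Lev.iov_zero (fun J hJ => by simp [pik_apply, hJ.ne']) _, zero_add]
      refine sum_eq_zero fun i _ => ?_
      have h3 := LinearMap.congr_fun (iov_epv (N := RR) S.u (F.a i)) (z i)
      rwa [LinearMap.add_apply, Module.End.mul_apply, Module.End.mul_apply, hz, map_zero, add_zero,
        F.a_u, zero_smul] at h3
    · have h3 : ∀ i, S.mu (epv RR (F.a i) (z i) J) =
          F.δ ^ r * epv R (F.J i) (iov R (F.b i) γ') J := fun i => by
        have h4 := epv_nat S.mu.toAddMonoidHom (a := F.a i) (a' := F.J i)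
          (fun j v => by rw [← F.mu_a]; exact map_mul S.mu _ _) (z i)
        have h5 : (fun J => S.mu.toAddMonoidHom (z i J)) = F.δ ^ r • iov R (F.b i) γ' :=
          funext (hm i)
        rw [h5, map_smul] at h4
        exact congrFun h4 J
      have h6 := congrFun (F.diag1_num h1) J
      rw [Finset.sum_apply, Pi.smul_apply, num_apply] at h6
      rw [Pi.add_apply, Finset.sum_apply, map_add, map_sum, S.mu_inl, sum_congr rfl fun i _ => h3 i,
        ← mul_sum, ← h6, pik_apply]
      by_cases hJ : J.card = 0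
      · simp [hJ]
      · have hc : (J.card : ℂ) ≠ 0 := Nat.cast_ne_zero.2 hJ
        rw [if_neg hJ, hγ', ← Nat.cast_smul_eq_nsmul ℂ, smul_inv_smul₀ hc, smul_eq_mul]
        ring

theorem NS.mu_mem (S : NS M n X R RR) {z : Finset (Fin M) → RR} (hz : iov RR S.u z = 0) :
    (fun J => S.mu (z J)) ∈ S.lamG := by
  intro p v hv
  obtain ⟨F⟩ := S.frame p
  refine (smul_eq_zero.1 (F.iov_ev (ω := fun J => S.mu (z J)) (fun l => ?_) p v hv)).resolve_left F.ne
  funext J
  have h1 := congrArg (fun r => S.mu (F.D l r)) (congrFun hz J)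
  simp only [diag1_apply, map_sum, smul_eq_mul, Derivation.leibniz, map_add, map_mul, NS0.mu_u,
    zero_mul, zero_add, F.diag1_D, S.mu_inl, Pi.zero_apply, map_zero] at h1
  rw [diag1_apply, Pi.zero_apply, ← h1]
  refine sum_congr rfl fun j _ => ?_
  rw [smul_eq_mul, mul_comm]
  exact congrArg (· * F.t j l) (congrFun (io_nat (R' := R) S.mu.toAddMonoidHom j z) J).symm

/-- the differential acts in each component -/
theorem iov_comp {σ O I : Type} [LinearOrder σ] [Fintype σ] [CommRing O] (u : σ → O)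
    (z : Finset σ → I → O) (q : I) :
    (fun J => iov (I → O) u z J q) = iov O u fun J => z J q := by
  exact iov_nat (Pi.evalAddMonoidHom (fun _ : I => O) q) (fun _ _ => rfl) z

theorem NS0.tensInj (S : NS0 M n X R RR) (I I' : Type) : TensInj (S.β I I') := by
  classical
  intro ι ι' f g hf hg
  refine linearIndependent_iff''.2 fun s c hc h q => ?_
  by_contra hq
  have hs : q ∈ s := by_contra fun h => hq (hc q h)
  rw [sum_subset subset_product (fun q _ h => by rw [hc q h, zero_smul]), sum_product_right] at h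
  refine hq (linearIndependent_iff'.1 hf _ (fun i => c (i, q.2)) ?_ q.1 (mem_image_of_mem _ hs))
  funext A
  refine S.sep _ fun p => ?_
  have h1 := linearIndependent_iff'.1 hg (s.image Prod.snd)
    (fun i' => ∑ i ∈ s.image Prod.fst, c (i, i') * S.ev p (f i A)) (by
      funext B
      have h2 := congrArg (S.sl p) (congrFun h (A, B))
      simp only [Finset.sum_apply, Pi.smul_apply, map_sum, map_smul, NS0.β_apply, map_mul,
        S.sl_inl, S.sl_inr, Pi.zero_apply, map_zero, ← Algebra.smul_def, smul_smul] at h2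
      simpa only [Finset.sum_apply, Pi.smul_apply, sum_smul, Pi.zero_apply] using h2)
    q.2 (mem_image_of_mem _ hs)
  simpa only [Finset.sum_apply, Pi.smul_apply, map_sum, map_smul, smul_eq_mul] using h1

end Pool.Agent.HCF
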