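import Pool.Agent.P.MP_f644fa_ag.Diag1

/-! The Koszul complex of the diagonal with coefficients, locally. -/

noncomputable section
namespace Pool.Agent.HCF
open Finset Module

variable {M n : ℕ} {X R RR : Type} [CommRing R] [Algebra ℂ R] [CommRing RR] [Algebra ℂ RR]
  {I I' : Type} [Fintype I] [Fintype I']

theorem diag2_β_mem {S : NS0 M n X R RR} (D : Dat S I) (D' : Dat S I') {ω : I → R} {η : I' → R}
    (hω : ω ∈ D.G) (hη : η ∈ D'.G) : S.β I I' ω η ∈ D.MM D' :=
  Submodule.subset_span ⟨ω, hω, η, hη, rfl⟩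

theorem Dat.MM_eq {S : NS0 M n X R RR} (D : Dat S I) (D' : Dat S I') :
    (D.MM D').restrictScalars ℂ = Submodule.map₂ (S.β I I') D.V D'.V := by
  apply le_antisymm
  · have key : ∀ r : RR, ∀ y ∈ Submodule.map₂ (S.β I I') D.V D'.V,
        r • y ∈ Submodule.map₂ (S.β I I') D.V D'.V := by
      let p : Submodule ℂ RR :=
        { carrier := {r | ∀ y ∈ Submodule.map₂ (S.β I I') D.V D'.V,
            r • y ∈ Submodule.map₂ (S.β I I') D.V D'.V}
          add_mem' := fun ha hb y hy => by
            rw [add_smul]; exact Submodule.add_mem _ (ha y hy) (hb y hy)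
          zero_mem' := fun y _ => by rw [zero_smul]; exact Submodule.zero_mem _
          smul_mem' := fun c r hr y hy => by
            rw [smul_assoc]; exact Submodule.smul_mem _ c (hr y hy) }
      have hp : p = ⊤ := by
        apply S.ind2
        intro a b y hy
        have hle : Submodule.map₂ (S.β I I') D.V D'.V ≤
            (Submodule.map₂ (S.β I I') D.V D'.V).comap
              ((LinearMap.lsmul RR (I × I' → RR) (S.inl a * S.inr b)).restrictScalars ℂ) := by
          rw [Submodule.map₂_le]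
          intro ω hω η hη
          have e : (S.inl a * S.inr b) • S.β I I' ω η = S.β I I' (a • ω) (b • η) := by
            funext q
            simp only [Pi.smul_apply, NS0.β_apply, smul_eq_mul, map_mul]
            ring
          show (S.inl a * S.inr b) • S.β I I' ω η ∈ Submodule.map₂ (S.β I I') D.V D'.V
          rw [e]
          exact Submodule.apply_mem_map₂ _ (D.G.smul_mem a hω) (D'.G.smul_mem b hη)
        exact hle hy
      intro r
      have : r ∈ p := hp ▸ Submodule.mem_top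
      exact this
    intro y hy
    have hy' : y ∈ Submodule.span RR {y | ∃ ω ∈ D.G, ∃ η ∈ D'.G, S.β I I' ω η = y} := hy
    clear hy
    induction hy' using Submodule.span_induction with
    | mem x hx =>
      obtain ⟨ω, hω, η, hη, rfl⟩ := hx
      exact Submodule.apply_mem_map₂ _ hω hη
    | zero => exact Submodule.zero_mem _
    | add x y _ _ hx hy => exact Submodule.add_mem _ hx hy
    | smul r x _ hx => exact key r x hx
  · rw [Submodule.map₂_le]
    intro ω hω η hη
    exact diag2_β_mem D D' hω hη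

theorem Dat.mu_MM {S : NS0 M n X R RR} (D : Dat S I) (D' : Dat S I') {y : I × I' → RR}
    (h : y ∈ D.MM D') : (fun q => S.mu (y q)) ∈ D.tG D' := by
  have hy' : y ∈ Submodule.span RR {y | ∃ ω ∈ D.G, ∃ η ∈ D'.G, S.β I I' ω η = y} := h
  clear h
  induction hy' using Submodule.span_induction with
  | mem x hx =>
    obtain ⟨ω, hω, η, hη, rfl⟩ := hx
    refine ⟨fun B => ?_, fun A => ?_⟩
    · have e : (fun A => S.mu (S.β I I' ω η (A, B))) = η B • ω := by
        funext A
        simp only [NS0.β_apply, map_mul, S.mu_inl, S.mu_inr, Pi.smul_apply, smul_eq_mul]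
        ring
      show (fun A => S.mu (S.β I I' ω η (A, B))) ∈ D.G
      rw [e]; exact D.G.smul_mem _ hω
    · have e : (fun B => S.mu (S.β I I' ω η (A, B))) = ω A • η := by
        funext B
        simp only [NS0.β_apply, map_mul, S.mu_inl, S.mu_inr, Pi.smul_apply, smul_eq_mul]
      show (fun B => S.mu (S.β I I' ω η (A, B))) ∈ D'.G
      rw [e]; exact D'.G.smul_mem _ hη
  | zero =>
    have e : (fun q => S.mu ((0 : I × I' → RR) q)) = 0 := by funext q; simp
    rw [e]; exact Submodule.zero_mem _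
  | add x y _ _ hx hy =>
    have e : (fun q => S.mu ((x + y) q)) = (fun q => S.mu (x q)) + fun q => S.mu (y q) := by
      funext q; simp
    rw [e]; exact Submodule.add_mem _ hx hy
  | smul r x _ hx =>
    have e : (fun q => S.mu ((r • x) q)) = S.mu r • fun q => S.mu (x q) := by
      funext q; simp
    rw [e]; exact Submodule.smul_mem _ _ hx

/-- the local projector on the square -/
theorem Dat.MM_loc {S : NS0 M n X R RR} (D : Dat S I) (D' : Dat S I') (p : X) :
    ∃ (g g' : R) (π : (I × I' → RR) →ₗ[RR] I × I' → RR), S.ev p g ≠ 0 ∧ S.ev p g' ≠ 0 ∧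
      (∀ y, π y ∈ D.MM D') ∧ (∀ y ∈ D.MM D', π y = (S.inl g * S.inr g') • y) ∧
      ∀ y, (fun q => S.mu (y q)) ∈ D.tG D' → ∀ q, S.mu (π y q) = g * g' * S.mu (y q) := by
  classical
  obtain ⟨g, π₁, hg, h1, h1'⟩ := D.loc p
  obtain ⟨g', π₂, hg', h2, h2'⟩ := D'.loc p
  let P : Matrix (I × I') (I × I') RR :=
    Matrix.of fun q q' => S.inl (π₁ q.1 q'.1) * S.inr (π₂ q.2 q'.2)
  have hP : ∀ y q, P.mulVecLin y q =
      ∑ q', S.inl (π₁ q.1 q'.1) * S.inr (π₂ q.2 q'.2) * y q' := fun y q => rfl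
  refine ⟨g, g', P.mulVecLin, hg, hg', fun y => ?_, fun y hy => ?_, fun y hy q => ?_⟩
  · have e : P.mulVecLin y = ∑ q' : I × I', y q' • S.β I I' (π₁.mulVec (Pi.single q'.1 1))
        (π₂.mulVec (Pi.single q'.2 1)) := by
      funext q
      rw [hP, Finset.sum_apply]
      refine sum_congr rfl fun q' _ => ?_
      simp only [Pi.smul_apply, NS0.β_apply, Matrix.mulVec_single_one, Matrix.col_apply,
        smul_eq_mul]
      ring
    rw [e]
    exact Submodule.sum_mem _ fun q' _ =>
      Submodule.smul_mem _ _ (diag2_β_mem D D' (h1 _) (h2 _))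
  · have hy' : y ∈ Submodule.span RR {y | ∃ ω ∈ D.G, ∃ η ∈ D'.G, S.β I I' ω η = y} := hy
    clear hy
    induction hy' using Submodule.span_induction with
    | mem x hx =>
      obtain ⟨ω, hω, η, hη, rfl⟩ := hx
      funext q
      have e1 : ∑ A, π₁ q.1 A * ω A = g * ω q.1 := congrFun (h1' ω hω) q.1
      have e2 : ∑ B, π₂ q.2 B * η B = g' * η q.2 := congrFun (h2' η hη) q.2
      have e3 : S.inl (g * ω q.1) * S.inr (g' * η q.2) =
          ∑ q' : I × I', S.inl (π₁ q.1 q'.1) * S.inr (π₂ q.2 q'.2) * S.β I I' ω η q' := by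
        rw [← e1, ← e2, map_sum, map_sum, sum_mul_sum, Fintype.sum_prod_type]
        refine sum_congr rfl fun A _ => sum_congr rfl fun B _ => ?_
        simp only [NS0.β_apply, map_mul]
        ring
      rw [hP, ← e3]
      simp only [Pi.smul_apply, NS0.β_apply, map_mul, smul_eq_mul]
      ring
    | zero => simp
    | add x y _ _ hx hy => rw [map_add, hx, hy, smul_add]
    | smul r x _ hx => rw [map_smul, hx, smul_comm]
  · have e2 : ∀ A, ∑ B, π₂ q.2 B * S.mu (y (A, B)) = g' * S.mu (y (A, q.2)) := fun A =>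
      congrFun (h2' _ (hy.2 A)) q.2
    have e1 : ∑ A, π₁ q.1 A * S.mu (y (A, q.2)) = g * S.mu (y (q.1, q.2)) :=
      congrFun (h1' _ (hy.1 q.2)) q.1
    rw [hP, map_sum, Fintype.sum_prod_type]
    have e3 : ∀ A, ∑ B, S.mu (S.inl (π₁ q.1 A) * S.inr (π₂ q.2 B) * y (A, B)) =
        g' * (π₁ q.1 A * S.mu (y (A, q.2))) := by
      intro A
      rw [mul_left_comm, ← e2, mul_sum]
      refine sum_congr rfl fun B _ => ?_
      simp only [map_mul, S.mu_inl, S.mu_inr]
      ring
    simp only [e3]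
    rw [← mul_sum, e1]
    ring

theorem diag2_mem_KK {S : NS0 M n X R RR} (D : Dat S I) (D' : Dat S I')
    {z : Finset (Fin M) → I × I' → RR} : z ∈ D.KK D' ↔ ∀ J, z J ∈ D.MM D' := by
  simp [Dat.KK, Submodule.mem_pi]

theorem diag2_ep {S : NS0 M n X R RR} (D : Dat S I) (D' : Dat S I')
    {z : Finset (Fin M) → I × I' → RR} (hz : z ∈ D.KK D') (j : Fin M) :
    ep RR (I × I' → RR) j z ∈ D.KK D' := by
  rw [diag2_mem_KK] at hz ⊢
  intro J
  rw [ep_apply]
  split_ifs
  · exact zsmul_mem (hz _) _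
  · exact Submodule.zero_mem _

theorem diag2_io {S : NS0 M n X R RR} (D : Dat S I) (D' : Dat S I')
    {z : Finset (Fin M) → I × I' → RR} (hz : z ∈ D.KK D') (j : Fin M) :
    io RR (I × I' → RR) j z ∈ D.KK D' := by
  rw [diag2_mem_KK] at hz ⊢
  intro J
  rw [io_apply]
  split_ifs
  · exact Submodule.zero_mem _
  · exact zsmul_mem (hz _) _

/-- cycles are killed by the ideal of the diagonal, up to boundaries -/
theorem Dat.KK_kill {S : NS0 M n X R RR} (D : Dat S I) (D' : Dat S I') {r : RR} (hr : S.mu r = 0)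
    {z : Finset (Fin M) → I × I' → RR} (hz : z ∈ D.KK D') (h0 : iov (I × I' → RR) S.u z = 0) :
    ∃ b ∈ D.KK D', iov (I × I' → RR) S.u b = r • z := by
  obtain ⟨c, hc⟩ := Ideal.mem_span_range_iff_exists_fun.1 (S.ker_mu hr)
  refine ⟨epv (I × I' → RR) c z, ?_, ?_⟩
  · rw [epv, LinearMap.sum_apply]
    exact Submodule.sum_mem _ fun j _ => Submodule.smul_mem _ _ (diag2_ep D D' hz j)
  · have h := LinearMap.congr_fun (iov_epv (N := I × I' → RR) S.u c) z
    rw [LinearMap.add_apply, Module.End.mul_apply, Module.End.mul_apply, h0, map_zero, add_zero,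
      LinearMap.smul_apply, Module.End.one_apply] at h
    rw [h, ← hc]
    exact congrArg (· • z) (sum_congr rfl fun j _ => mul_comm _ _)

theorem Dat.KK_d {S : NS0 M n X R RR} (D : Dat S I) (D' : Dat S I')
    {z : Finset (Fin M) → I × I' → RR} (hz : z ∈ D.KK D') :
    iov (I × I' → RR) S.u z ∈ D.KK D' := by
  rw [iov, LinearMap.sum_apply]
  exact Submodule.sum_mem _ fun j _ => Submodule.smul_mem _ _ (diag2_io D D' hz j)

theorem diag2_nat {N : Type} [AddCommGroup N] [Module RR N] (π : N →ₗ[RR] N) (u : Fin M → RR)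
    (z : Finset (Fin M) → N) :
    iov N u (fun J => π (z J)) = fun J => π (iov N u z J) :=
  (iov_nat π.toAddMonoidHom (fun j v => π.map_smul (u j) v) z).symm

variable {S : NS M n X R RR}

theorem NS.loc_inj (D : Dat S.toNS0 I) (D' : Dat S.toNS0 I') (p : X) : ∃ g : R, S.ev p g ≠ 0 ∧
    ∀ z ∈ D.KK D', iov (I × I' → RR) S.u z = 0 → S.muh _ z = 0 →
      ∃ b ∈ D.KK D', iov (I × I' → RR) S.u b = S.inl g • z := by
  obtain ⟨F⟩ := S.frame p
  obtain ⟨k, hk⟩ := F.inj
  obtain ⟨g, g', π, hg, hg', h1, h2, -⟩ := D.MM_loc D' p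
  refine ⟨F.δ ^ k * g * g', ?_, fun z hz h0 hm => ?_⟩
  · rw [map_mul, map_mul, map_pow]
    exact mul_ne_zero (mul_ne_zero (pow_ne_zero _ F.ne) hg) hg'
  · have hq : ∀ q : I × I', ∃ b, S.inl F.δ ^ k • (fun J => z J q) = iov RR S.u b := by
      intro q
      refine hk _ ?_ fun J => congrFun hm (J, q)
      rw [← iov_comp, h0]
      rfl
    choose b hb using hq
    have hb' : iov (I × I' → RR) S.u (fun J q => b q J) = S.inl F.δ ^ k • z := by
      funext J q
      have h := congrFun (iov_comp S.u (fun J q => b q J) q) J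
      rw [h]
      exact (congrFun (hb q) J).symm
    obtain ⟨b', hb'1, hb'2⟩ := D.KK_kill D'
      (r := S.inl F.δ ^ k * S.inl g * (S.inl g' - S.inr g'))
      (by rw [map_mul, map_sub, S.mu_inl, S.mu_inr, sub_self, mul_zero]) hz h0
    refine ⟨(fun J => π fun q => b q J) + b', Submodule.add_mem _
      ((diag2_mem_KK D D').2 fun J => h1 _) hb'1, ?_⟩
    rw [map_add, hb'2, diag2_nat π S.u fun J q => b q J, hb']
    funext J
    rw [Pi.add_apply, Pi.smul_apply, Pi.smul_apply, Pi.smul_apply, map_smul,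
      h2 _ ((diag2_mem_KK D D').1 hz J), smul_smul, ← add_smul, map_mul, map_mul, map_pow]
    exact congrArg (· • z J) (by ring)

theorem NS.loc_surj (D : Dat S.toNS0 I) (D' : Dat S.toNS0 I') (p : X) : ∃ g : R, S.ev p g ≠ 0 ∧
    ∀ γ ∈ (S.lam.tensor (D.tensor D')).G,
      ∃ z ∈ D.KK D', iov (I × I' → RR) S.u z = 0 ∧ S.muh _ z = g • γ := by
  obtain ⟨F⟩ := S.frame p
  obtain ⟨g, g', π, hg, hg', h1, -, h3⟩ := D.MM_loc D' p
  refine ⟨g * g' * F.δ ^ Fintype.card (Fin M), ?_, fun γ hγ => ?_⟩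
  · rw [map_mul, map_mul, map_pow]
    exact mul_ne_zero (mul_ne_zero hg hg') (pow_ne_zero _ F.ne)
  · have hq : ∀ q : I × I', ∃ z : Finset (Fin M) → RR, iov RR S.u z = 0 ∧
        ∀ J, S.mu (z J) = F.δ ^ Fintype.card (Fin M) * γ (J, q) := fun q =>
      F.surj_lev _ (fun J => γ (J, q)) (hγ.1 q) (lev_card _)
    choose z hz hz' using hq
    have h0 : iov (I × I' → RR) S.u (fun J q => z q J) = 0 := by
      funext J q
      have h := congrFun (iov_comp S.u (fun J q => z q J) q) J
      rw [h]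
      exact congrFun (hz q) J
    refine ⟨fun J => π fun q => z q J, (diag2_mem_KK D D').2 fun J => h1 _, ?_, ?_⟩
    · rw [diag2_nat π S.u fun J q => z q J, h0]
      funext J
      exact π.map_zero
    · funext Q
      have hm : (fun q => S.mu (z q Q.1)) ∈ D.tG D' := by
        have e : (fun q => S.mu (z q Q.1)) =
            F.δ ^ Fintype.card (Fin M) • fun q => γ (Q.1, q) := by
          funext q; exact hz' q Q.1
        rw [e]
        exact Submodule.smul_mem _ _ (hγ.2 Q.1)
      have h := h3 (fun q => z q Q.1) hm Q.2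
      show S.mu (π (fun q => z q Q.1) Q.2) = g * g' * F.δ ^ Fintype.card (Fin M) * γ Q
      rw [h, hz', mul_assoc (g * g')]

theorem NS.muh_mem (D : Dat S.toNS0 I) (D' : Dat S.toNS0 I') {z : Finset (Fin M) → I × I' → RR}
    (hz : z ∈ D.KK D') (h0 : iov (I × I' → RR) S.u z = 0) :
    S.muh _ z ∈ (S.lam.tensor (D.tensor D')).G := by
  refine ⟨fun q => ?_, fun J => D.mu_MM D' ((diag2_mem_KK D D').1 hz J)⟩
  refine S.mu_mem (z := fun J => z J q) ?_
  rw [← iov_comp, h0]
  rfl

end Pool.Agent.HCF
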