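import Pool.Agent.P.MP_f644fa_ag.Diag2

/-! The homology of the Koszul complex of the diagonal in large degrees. -/

noncomputable section
namespace Pool.Agent.HCF
open Finset Module

variable {M n : ℕ} {X R RR : Type} [CommRing R] [Algebra ℂ R] [CommRing RR] [Algebra ℂ RR]
  {I I' : Type} [Fintype I] [Fintype I']

theorem diag3_iov {σ O K : Type} [LinearOrder σ] [Fintype σ] [CommRing O] (u : σ → O)
    (z : Finset σ → K → O) (J : Finset σ) (q : K) :
    iov (K → O) u z J q = ∑ j, u j * if j ∈ J then 0 else sg j J • z (insert j J) q := by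
  simp only [iov, LinearMap.sum_apply, LinearMap.smul_apply, Finset.sum_apply, Pi.smul_apply,
    io_apply, smul_eq_mul]
  refine sum_congr rfl fun j _ => ?_
  split_ifs <;> rfl

theorem diag3_s2_u (S : NS0 M n X R RR) (j : Fin M) : S.s2 (S.u j) = 2 * S.u j := by
  rw [NS0.u, map_sub, S.s2_inl, S.s2_inr, S.s1_x, map_mul, map_mul, map_ofNat, map_ofNat, mul_sub]

theorem diag3_mu_s2 (S : NS0 M n X R RR) (r : RR) : S.mu (S.s2 r) = S.s1 (S.mu r) := by
  have h := S.ind2 (LinearMap.eqLocus (S.mu.comp S.s2).toLinearMap (S.s1.comp S.mu).toLinearMap)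
    fun a b => by
      show S.mu (S.s2 _) = S.s1 (S.mu _)
      simp only [map_mul, S.s2_inl, S.s2_inr, S.mu_inl, S.mu_inr]
  have h1 : r ∈ LinearMap.eqLocus (S.mu.comp S.s2).toLinearMap (S.s1.comp S.mu).toLinearMap :=
    h.symm ▸ Submodule.mem_top
  exact h1

theorem diag3_muh_smul {K : Type} (S : NS0 M n X R RR) (r : RR) (z : Finset (Fin M) → K → RR) :
    S.muh K (r • z) = S.mu r • S.muh K z :=
  funext fun q => map_mul S.mu r (z q.1 q.2)

theorem diag3_muh_d {K : Type} (S : NS0 M n X R RR) (z : Finset (Fin M) → K → RR) :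
    S.muh K (S.dd K z) = 0 := by
  funext q
  show S.mu (iov (K → RR) S.u z q.1 q.2) = 0
  rw [diag3_iov, map_sum]
  exact sum_eq_zero fun j _ => by rw [map_mul, S.mu_u, zero_mul]

theorem Dat.grd_MM {S : NS0 M n X R RR} (D : Dat S I) (D' : Dat S I') :
    Grd (S.sc2 (D.tensor D').w) ((D.MM D').restrictScalars ℂ) := by
  rw [D.MM_eq D']
  refine Grd.map₂ _ D.grd D'.grd fun a _ b _ => funext fun q => ?_
  show (2 : ℂ) ^ (D.w q.1 + D'.w q.2) • S.s2 (S.inl (a q.1) * S.inr (b q.2)) =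
    S.inl ((2 : ℂ) ^ D.w q.1 • S.s1 (a q.1)) * S.inr ((2 : ℂ) ^ D'.w q.2 • S.s1 (b q.2))
  rw [map_mul, S.s2_inl, S.s2_inr, map_smul, map_smul, smul_mul_smul_comm, pow_add]

theorem Dat.KK_eq {S : NS0 M n X R RR} (D : Dat S I) (D' : Dat S I') :
    (D.KK D').restrictScalars ℂ =
      Submodule.pi Set.univ fun _ => (D.MM D').restrictScalars ℂ := rfl

theorem Dat.grd_KK {S : NS0 M n X R RR} (D : Dat S I) (D' : Dat S I') :
    Grd (S.sK (D.tensor D').w) ((D.KK D').restrictScalars ℂ) :=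
  Grd.pi Finset.card (D.grd_MM D')

theorem NS0.dd_sK (S : NS0 M n X R RR) (w : I → ℕ) (z : Finset (Fin M) → I → RR) :
    S.dd I (S.sK w z) = S.sK w (S.dd I z) := by
  funext J q
  show iov (I → RR) S.u (S.sK w z) J q =
    (2 : ℂ) ^ J.card • (2 : ℂ) ^ w q • S.s2 (iov (I → RR) S.u z J q)
  rw [diag3_iov, diag3_iov, map_sum, smul_sum, smul_sum]
  refine sum_congr rfl fun j _ => ?_
  by_cases h : j ∈ J
  · simp [h]
  · rw [if_neg h, if_neg h]
    show S.u j * (sg j J • (2 : ℂ) ^ (insert j J).card • (2 : ℂ) ^ w q • S.s2 (z (insert j J) q)) = _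
    rw [card_insert_of_notMem h, map_mul, diag3_s2_u, map_zsmul, pow_succ]
    simp only [Algebra.smul_def, map_mul, map_pow, map_ofNat]
    ring

theorem NS0.muh_sK (S : NS0 M n X R RR) (w : I → ℕ) (z : Finset (Fin M) → I → RR) :
    S.muh I (S.sK w z) = S.sc (fun q => q.1.card + w q.2) (S.muh I z) := by
  funext q
  show S.mu ((2 : ℂ) ^ q.1.card • (2 : ℂ) ^ w q.2 • S.s2 (z q.1 q.2)) =
    (2 : ℂ) ^ (q.1.card + w q.2) • S.s1 (S.mu (z q.1 q.2))
  rw [map_smul, map_smul, diag3_mu_s2, smul_smul, pow_add]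

variable {S : NS M n X R RR}

theorem NS.core_inj (D : Dat S.toNS0 I) (D' : Dat S.toNS0 I') : ∃ m₀ : ℕ, ∀ m ≥ m₀,
    (D.KK D').restrictScalars ℂ ⊓ Eg (S.sK (D.tensor D').w) (m : ℕ) ⊓ LinearMap.ker (S.dd _) ⊓
      LinearMap.ker (S.muh _) =
      ((D.KK D').restrictScalars ℂ ⊓ Eg (S.sK (D.tensor D').w) (m : ℕ)).map (S.dd _) := by
  have hN := noeth S.gen2
  have hg := D.grd_KK D'
  let N₁ : Submodule RR (Finset (Fin M) → I × I' → RR) :=
    { carrier := {z | z ∈ D.KK D' ∧ iov (I × I' → RR) S.u z = 0 ∧ S.muh _ z = 0}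
      add_mem' := fun ha hb => ⟨add_mem ha.1 hb.1, by rw [map_add, ha.2.1, hb.2.1, add_zero],
        by rw [map_add, ha.2.2, hb.2.2, add_zero]⟩
      zero_mem' := ⟨zero_mem _, map_zero _, map_zero _⟩
      smul_mem' := fun r z hz => ⟨Submodule.smul_mem _ r hz.1,
        by rw [map_smul, hz.2.1, smul_zero], by rw [diag3_muh_smul, hz.2.2, smul_zero]⟩ }
  let N₂ := (D.KK D').map (iov (I × I' → RR) S.u)
  let A : Ideal R :=
    { carrier := {g | ∀ z ∈ N₁, S.inl g • z ∈ N₂}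
      add_mem' := fun ha hb z hz => by
        rw [map_add, add_smul]
        exact add_mem (ha z hz) (hb z hz)
      zero_mem' := fun z _ => by
        rw [map_zero, zero_smul]
        exact zero_mem _
      smul_mem' := fun r g hg z hz => by
        rw [smul_eq_mul, map_mul, mul_smul]
        exact Submodule.smul_mem _ _ (hg z hz) }
  have hA := S.ns A fun p => by
    obtain ⟨g, h1, h2⟩ := NS.loc_inj D D' p
    exact ⟨g, fun z hz => h2 z hz.1 hz.2.1 hz.2.2, h1⟩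
  have hk : ∀ j, ∃ K : ℕ, ∀ z ∈ N₁,
      Sum.elim (fun j => S.inl (S.x j)) (fun j => S.inr (S.x j)) j ^ K • z ∈ N₂ := by
    rintro (j | j)
    · obtain ⟨K, hK⟩ := hA j
      exact ⟨K, fun z hz => by simpa only [Sum.elim_inl, ← map_pow] using hK z hz⟩
    · obtain ⟨K, hK⟩ := hA j
      refine ⟨K, fun z hz => ?_⟩
      have h1 := D.KK_kill D' (r := S.inr (S.x j ^ K) - S.inl (S.x j ^ K))
        (by rw [map_sub, S.mu_inl, S.mu_inr, sub_self]) hz.1 hz.2.1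
      have h2 := add_mem (show _ ∈ N₂ from h1) (hK z hz)
      rw [← add_smul, sub_add_cancel] at h2
      simpa only [Sum.elim_inr, ← map_pow] using h2
  have k1 : ∀ z ∈ N₁, S.sK (D.tensor D').w z ∈ N₁ := by
    intro z hz
    refine ⟨hg.inv z hz.1, (S.dd_sK _ z).trans ?_, ?_⟩
    · rw [show S.dd _ z = 0 from hz.2.1, map_zero]
    · rw [S.muh_sK, hz.2.2, map_zero]
  have k2 : ∀ z ∈ N₂, S.sK (D.tensor D').w z ∈ N₂ := by
    rintro _ ⟨b, hb, rfl⟩
    exact ⟨_, hg.inv b hb, S.dd_sK _ b⟩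
  obtain ⟨m₀, hm⟩ := fin_len S.gen2 N₁ N₂ (IsNoetherian.noetherian N₁) hk (S.sK (D.tensor D').w)
    k1 k2
  refine ⟨m₀, fun m h => ?_⟩
  have e := hg.map_inf (s' := S.sK (D.tensor D').w) (S.dd _) (fun w _ => S.dd_sK _ w) (m : ℕ)
  apply le_antisymm
  · intro z hz
    rw [← e]
    exact ⟨hm m h z ⟨hz.1.1.1, hz.1.2, hz.2⟩ hz.1.1.2, hz.1.1.2⟩
  · intro z hz
    have h1 := (e.ge hz).2
    obtain ⟨b, hb, rfl⟩ := hz
    refine ⟨⟨⟨D.KK_d D' hb.1, h1⟩, ?_⟩, diag3_muh_d S.toNS0 b⟩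
    exact LinearMap.congr_fun (iov_sq (N := I × I' → RR) S.u) b

theorem NS.core_surj (D : Dat S.toNS0 I) (D' : Dat S.toNS0 I') : ∃ m₀ : ℕ, ∀ m ≥ m₀,
    ((D.KK D').restrictScalars ℂ ⊓ Eg (S.sK (D.tensor D').w) (m : ℕ) ⊓
      LinearMap.ker (S.dd _)).map (S.muh _) = (S.lam.tensor (D.tensor D')).V ⊓
        Eg (S.sc (S.lam.tensor (D.tensor D')).w) (m : ℕ) := by
  have hN := noeth S.gen
  have hg := D.grd_KK D'
  have hi : ∀ z ∈ (D.KK D').restrictScalars ℂ ⊓ LinearMap.ker (S.dd (I × I')),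
      S.sK (D.tensor D').w z ∈ (D.KK D').restrictScalars ℂ ⊓ LinearMap.ker (S.dd (I × I')) :=
    fun z hz => ⟨hg.inv z hz.1, (S.dd_sK _ z).trans (by
      rw [show S.dd _ z = 0 from hz.2, map_zero])⟩
  let N₂ : Submodule R (Finset (Fin M) × I × I' → R) :=
    { carrier := {γ | ∃ z ∈ D.KK D', iov (I × I' → RR) S.u z = 0 ∧ S.muh _ z = γ}
      add_mem' := fun ⟨a, a1, a2, a3⟩ ⟨b, b1, b2, b3⟩ => ⟨a + b, add_mem a1 b1,
        by rw [map_add, a2, b2, add_zero], by rw [map_add, a3, b3]⟩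
      zero_mem' := ⟨0, zero_mem _, map_zero _, map_zero _⟩
      smul_mem' := fun r _ ⟨a, a1, a2, a3⟩ => ⟨S.inl r • a, Submodule.smul_mem _ _ a1,
        by rw [map_smul, a2, smul_zero], by rw [diag3_muh_smul, a3, S.mu_inl]⟩ }
  let A : Ideal R :=
    { carrier := {g | ∀ γ ∈ (S.lam.tensor (D.tensor D')).G, g • γ ∈ N₂}
      add_mem' := fun ha hb z hz => by
        rw [add_smul]
        exact add_mem (ha z hz) (hb z hz)
      zero_mem' := fun z _ => by
        rw [zero_smul]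
        exact zero_mem _
      smul_mem' := fun r g hg z hz => by
        rw [smul_eq_mul, mul_smul]
        exact Submodule.smul_mem _ _ (hg z hz) }
  have hA := S.ns A fun p => by
    obtain ⟨g, h1, h2⟩ := NS.loc_surj D D' p
    exact ⟨g, h2, h1⟩
  obtain ⟨m₀, hm⟩ := fin_len S.gen (S.lam.tensor (D.tensor D')).G N₂ (IsNoetherian.noetherian _)
    hA (S.sc (S.lam.tensor (D.tensor D')).w) (S.lam.tensor (D.tensor D')).inv
    fun _ ⟨a, a1, a2, a3⟩ => ⟨_, (hi a ⟨a1, a2⟩).1, (hi a ⟨a1, a2⟩).2, a3 ▸ S.muh_sK _ a⟩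
  refine ⟨m₀, fun m h => ?_⟩
  rw [inf_right_comm, ← (hg.sub inf_le_left hi).map_inf
    (s' := S.sc (S.lam.tensor (D.tensor D')).w) (S.muh _) (fun w _ => S.muh_sK _ w) (m : ℕ)]
  apply le_antisymm
  · rintro _ ⟨⟨z, hz, rfl⟩, h2⟩
    exact ⟨NS.muh_mem D D' hz.1 hz.2, h2⟩
  · intro γ hγ
    obtain ⟨z, z1, z2, z3⟩ := hm m h γ hγ.1 hγ.2
    exact ⟨⟨z, ⟨z1, z2⟩, z3⟩, hγ.2⟩

end Pool.Agent.HCF
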