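import Mathlib

open Polynomial Finset

namespace Pool.Agent.HCF

lemma fe_ev (t z : ℂ) (p : ℂ[X][X]) : p.evalEval t z = (p.map (evalRingHom t)).eval z :=
  (map_evalRingHom_eval t z p).symm

lemma fe_ext {F G : ℂ[X][X]} (h : ∀ t z, F.evalEval t z = G.evalEval t z) : F = G := by
  ext1 n
  apply Polynomial.funext
  intro t
  have : F.map (evalRingHom t) = G.map (evalRingHom t) := by
    apply Polynomial.funext
    intro z
    rw [← fe_ev, ← fe_ev, h]
  have h2 := congrArg (fun p => coeff p n) this
  simpa using h2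

lemma fe_ext0 {F G : ℂ[X][X]} (h : ∀ t, t ≠ 0 → ∀ z, F.evalEval t z = G.evalEval t z) : F = G := by
  have : C X * F = C X * G := by
    apply fe_ext
    intro t z
    rw [evalEval_mul, evalEval_mul, evalEval_C, eval_X]
    by_cases ht : t = 0
    · simp [ht]
    · rw [h t ht]
  exact mul_left_cancel₀ (by simp) this

lemma fe_comp (t z : ℂ) (F q : ℂ[X][X]) :
    (F.comp q).evalEval t z = F.evalEval t (q.evalEval t z) := by
  rw [fe_ev, fe_ev, fe_ev, map_comp, eval_comp]

lemma fe_map (t z : ℂ) (F : ℂ[X][X]) (q : ℂ[X]) :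
    (F.map (compRingHom q)).evalEval t z = F.evalEval (q.eval t) z := by
  rw [fe_ev, fe_ev, Polynomial.map_map]
  congr 2
  ext1
  · ext; simp
  · simp

lemma fe_swap (t z : ℂ) (F : ℂ[X][X]) : (Bivariate.swap F).evalEval z t = F.evalEval t z := by
  have := Bivariate.aevalAeval_swap z t F
  rwa [coe_aevalAeval_eq_evalEval, coe_aevalAeval_eq_evalEval] at this

def FEq (F : ℂ[X][X]) : Prop :=
  ∀ t z : ℂ, F.evalEval t z * F.evalEval t (-z) = F.evalEval (t ^ 2) (-z ^ 2)

lemma FEq.of_ne {F : ℂ[X][X]} (h : ∀ t, t ≠ 0 → ∀ z : ℂ,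
    F.evalEval t z * F.evalEval t (-z) = F.evalEval (t ^ 2) (-z ^ 2)) : FEq F := by
  have : F * F.comp (-X) = (F.map (compRingHom (X ^ 2))).comp (-X ^ 2) := by
    apply fe_ext0
    intro t ht z
    rw [evalEval_mul, fe_comp, fe_comp, fe_map]
    simpa [evalEval_pow] using h t ht z
  intro t z
  have h2 := congrArg (evalEval t z) this
  rw [evalEval_mul, fe_comp, fe_comp, fe_map] at h2
  simpa [evalEval_pow] using h2

/-- a nonzero polynomial whose root set is closed under both square roots has no nonzero root -/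
lemma fe_noroot {q : ℂ[X]} (h0 : q.eval 0 ≠ 0) (h : ∀ b : ℂ, q.eval (b ^ 2) = 0 → q.eval b = 0)
    (a : ℂ) : q.eval a ≠ 0 := by
  classical
  have hq : q ≠ 0 := by rintro rfl; simp at h0
  have hs : ∀ a : ℂ, ∃ b : ℂ, b ^ 2 = a := fun a => IsAlgClosed.exists_pow_nat_eq a two_pos
  choose r hr using hs
  set R := q.roots.toFinset with hR
  have hmem : ∀ x, x ∈ R ↔ q.eval x = 0 := by
    intro x; simp [hR, hq]
  have hcard : #(R ×ˢ ({1, -1} : Finset ℂ)) ≤ #R := by
    apply card_le_card_of_injOn (fun p => p.2 * r p.1)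
    · intro p hp
      simp only [coe_product, Set.mem_prod, mem_coe, mem_insert, mem_singleton] at hp
      rw [mem_coe, hmem]
      apply h
      have : (p.2 * r p.1) ^ 2 = p.1 := by
        rcases hp.2 with h1 | h1 <;> simp [h1, hr]
      rw [this]; exact (hmem _).1 hp.1
    · intro p hp p' hp' he
      simp only [coe_product, Set.mem_prod, mem_coe, mem_insert, mem_singleton] at hp hp'
      have e1 : (p.2 * r p.1) ^ 2 = p.1 := by
        rcases hp.2 with h1 | h1 <;> simp [h1, hr]
      have e2 : (p'.2 * r p'.1) ^ 2 = p'.1 := by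
        rcases hp'.2 with h1 | h1 <;> simp [h1, hr]
      have e3 : p.1 = p'.1 := by
        rw [← e1, ← e2]; simp only at he; rw [he]
      have hne : r p.1 ≠ 0 := by
        intro hz
        have := hr p.1
        rw [hz] at this
        apply h0
        have h5 := (hmem _).1 hp.1
        rw [← this] at h5
        simpa using h5
      simp only at he
      rw [← e3] at he
      exact Prod.ext e3 (mul_right_cancel₀ hne he)
  have h2 : #({1, -1} : Finset ℂ) = 2 := by
    rw [card_pair]; norm_num
  rw [card_product, h2] at hcard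
  have h3 : #R = 0 := by omega
  intro ha
  have := (hmem a).2 ha
  rw [card_eq_zero.1 h3] at this
  simp at this

lemma fe_coprime {f : ℂ[X]} (h0 : f.eval 0 ≠ 0)
    (h : ∀ z : ℂ, f.eval z * f.eval (-z) = f.eval (-z ^ 2)) : IsCoprime f (f.comp (-X)) := by
  classical
  have hq : f ≠ 0 := by rintro rfl; simp at h0
  set R := f.roots.toFinset with hR
  have hmem : ∀ x, x ∈ R ↔ f.eval x = 0 := by
    intro x; simp [hR, hq]
  have hinj : Set.InjOn (fun w : ℂ => -w ^ 2) R := by
    apply injOn_of_surjOn_of_card_le _ _ _ le_rfl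
    · intro w hw
      rw [mem_coe, hmem] at hw ⊢
      rw [← h, hw, zero_mul]
    · intro v hv
      rw [mem_coe, hmem] at hv
      obtain ⟨w, hw⟩ := IsAlgClosed.exists_pow_nat_eq (-v) two_pos
      have e : -w ^ 2 = v := by rw [hw, neg_neg]
      have := h w
      rw [e, hv, mul_eq_zero] at this
      rcases this with h1 | h1
      · exact ⟨w, by rw [mem_coe, hmem]; exact h1, e⟩
      · exact ⟨-w, by rw [mem_coe, hmem]; exact h1, by simpa using e⟩
  rw [Polynomial.isCoprime_iff_aeval_ne_zero_of_isAlgClosed (k := ℂ) ℂ]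
  intro a
  by_contra hc
  push Not at hc
  obtain ⟨h1, h2⟩ := hc
  simp only [coe_aeval_eq_eval, eval_comp, eval_neg, eval_X] at h1 h2
  have := hinj (x₁ := a) (by rw [mem_coe, hmem]; exact h1) (x₂ := -a)
    (by rw [mem_coe, hmem]; exact h2) (by simp)
  have ha : a = 0 := by
    have : (2 : ℂ) * a = 0 := by linear_combination this
    simpa using this
  exact h0 (ha ▸ h1)

/-- the value at `t = 0` divides a solution of the functional equation -/
lemma FEq.dvd {F : ℂ[X][X]} (h : FEq F) (h0 : F.evalEval 0 0 ≠ 0) :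
    ∃ G : ℂ[X][X], F = (F.map (evalRingHom 0)).map C * G := by
  set f := F.map (evalRingHom 0) with hf
  have hfe : ∀ z, f.eval z = F.evalEval 0 z := fun z => (fe_ev 0 z F).symm
  have hff : ∀ z : ℂ, f.eval z * f.eval (-z) = f.eval (-z ^ 2) := by
    intro z
    rw [hfe, hfe, hfe, h 0 z]; simp
  have hcop := fe_coprime (by rw [hfe]; exact h0) hff
  have hdv : f ∣ f.comp (-X ^ 2) := by
    refine ⟨f.comp (-X), ?_⟩
    apply Polynomial.funext
    intro z
    simp [eval_comp, hff]
  set G := Bivariate.swap F with hG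
  have hG0 : G.coeff 0 = f := by
    apply Polynomial.funext
    intro z
    rw [hfe, ← fe_swap, ← hG, fe_ev, ← coeff_zero_eq_eval_zero, coeff_map]
    simp
  have hid : G * G.map (compRingHom (-X)) = (expand ℂ[X] 2 G).map (compRingHom (-X ^ 2)) := by
    apply fe_ext
    intro z t
    rw [evalEval_mul, fe_map, fe_map, expand_eq_comp_X_pow, fe_comp, hG, fe_swap, fe_swap, fe_swap]
    simpa [evalEval_pow] using h t z
  have hall : ∀ i, f ∣ G.coeff i := by
    intro i
    induction i using Nat.strong_induction_on with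
    | _ i ih =>
      rcases Nat.eq_zero_or_pos i with rfl | hi
      · rw [hG0]
      have hc := congrArg (fun p => coeff p i) hid
      simp only [coeff_mul, coeff_map, coeff_expand two_pos] at hc
      have hr : f ∣ (compRingHom (-X ^ 2)) (if 2 ∣ i then G.coeff (i / 2) else 0) := by
        split_ifs
        · obtain ⟨u, hu⟩ := ih (i / 2) (by omega)
          rw [hu, map_mul]
          exact Dvd.dvd.mul_right hdv _
        · simp
      rw [← hc, ← Finset.add_sum_erase _ _ (a := (i, 0)) (by simp)] at hr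
      have hrest : f ∣ ∑ x ∈ (antidiagonal i).erase (i, 0),
          G.coeff x.1 * (compRingHom (-X)) (G.coeff x.2) := by
        apply Finset.dvd_sum
        intro x hx
        rw [mem_erase, HasAntidiagonal.mem_antidiagonal] at hx
        refine Dvd.dvd.mul_right (ih _ ?_) _
        by_contra hge
        apply hx.1
        ext <;> simp <;> omega
      have h3 := (dvd_add_left hrest).1 hr
      simp only [hG0] at h3
      exact hcop.dvd_of_dvd_mul_right h3
  obtain ⟨G1, hG1⟩ := (C_dvd_iff_dvd_coeff f G).2 hall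
  refine ⟨Bivariate.swap G1, ?_⟩
  rw [← Bivariate.swap_C, ← map_mul, ← hG1, hG, Bivariate.swap_swap_apply]

end Pool.Agent.HCF
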