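import Pool.Agent.P.MP_f644fa_ag.FE1

open Polynomial Finset

namespace Pool.Agent.HCF

/-- rescaling by the first Newton slope -/
lemma fe_rescale {F : ℂ[X][X]} (h0 : F.coeff 0 = 1) (hd : F.natDegree ≠ 0) :
    ∃ (L g : ℕ) (G : ℂ[X][X]), 0 < L ∧ G.natDegree = F.natDegree ∧ G.coeff 0 = 1 ∧
      (G.map (evalRingHom 0)).natDegree ≠ 0 ∧
      ∀ t z : ℂ, F.evalEval (t ^ L) z = G.evalEval t (t ^ g * z) := by
  classical
  have hF : F ≠ 0 := by rintro rfl; simp at hd
  set T := F.support.erase 0 with hT
  have hne : T.Nonempty := ⟨F.natDegree, by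
    rw [hT, mem_erase]; exact ⟨hd, natDegree_mem_support_of_nonzero hF⟩⟩
  obtain ⟨L, hL, hmin⟩ := T.exists_min_image
    (fun k => ((F.coeff k).natTrailingDegree : ℚ) / k) hne
  rw [hT, mem_erase, mem_support_iff] at hL
  have hLpos : 0 < L := Nat.pos_of_ne_zero hL.1
  set g := (F.coeff L).natTrailingDegree with hg
  have hdvd : ∀ k, X ^ (k * g) ∣ expand ℂ L (F.coeff k) := by
    intro k
    by_cases hk : k = 0
    · simp [hk]
    by_cases hc : F.coeff k = 0
    · simp [hc]
    have hk' : k ∈ T := by rw [hT, mem_erase, mem_support_iff]; exact ⟨hk, hc⟩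
    have h1 := hmin k hk'
    have hkq : (0 : ℚ) < k := by exact_mod_cast Nat.pos_of_ne_zero hk
    have hLq : (0 : ℚ) < L := by exact_mod_cast hLpos
    rw [div_le_div_iff₀ hLq hkq] at h1
    have h2 : g * k ≤ (F.coeff k).natTrailingDegree * L := by exact_mod_cast h1
    rw [X_pow_dvd_iff]
    intro d hd'
    rw [coeff_expand hLpos]
    split_ifs with hh
    · apply coeff_eq_zero_of_lt_natTrailingDegree
      obtain ⟨e, rfl⟩ := hh
      rw [Nat.mul_div_cancel_left _ hLpos]
      by_contra hge
      push Not at hge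
      have := Nat.mul_le_mul_right L hge
      nlinarith
    · rfl
  choose u hu using hdvd
  set G : ℂ[X][X] := ∑ k ∈ range (F.natDegree + 1), monomial k (u k) with hG
  have huz : ∀ k, u k = 0 ↔ F.coeff k = 0 := by
    intro k
    constructor
    · intro h
      have := hu k
      rw [h, mul_zero] at this
      exact (expand_eq_zero hLpos).1 this
    · intro h
      have := hu k
      rw [h, map_zero] at this
      exact (mul_eq_zero.1 this.symm).resolve_left (pow_ne_zero _ X_ne_zero)
  have hGc : ∀ k, G.coeff k = u k := by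
    intro k
    rw [hG, finsetSum_coeff]
    simp only [coeff_monomial]
    rw [Finset.sum_ite_eq' ]
    split_ifs with hk
    · rfl
    · symm
      rw [huz]
      apply coeff_eq_zero_of_natDegree_lt
      simp at hk; omega
  have hsupp : G.support = F.support := by
    ext k
    rw [mem_support_iff, mem_support_iff, hGc, Ne, huz]
  refine ⟨L, g, G, hLpos, ?_, ?_, ?_, ?_⟩
  · rw [natDegree, natDegree, degree, degree, hsupp]
  · have := hu 0
    rw [h0] at this
    simp at this
    rw [hGc, ← this]
  · intro hz
    have h1 : (G.map (evalRingHom 0)).coeff L = 0 :=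
      coeff_eq_zero_of_natDegree_lt (by omega)
    rw [coeff_map, hGc] at h1
    have h2 := congrArg (fun p => coeff p (L * g)) (hu L)
    rw [coeff_expand_mul' hLpos] at h2
    have h3 : (X ^ (L * g) * u L).coeff (L * g) = (u L).coeff 0 := by
      have := coeff_X_pow_mul (u L) (L * g) 0
      simpa using this
    rw [h3, coeff_zero_eq_eval_zero] at h2
    have h4 : (F.coeff L).coeff g ≠ 0 := by
      rw [hg]
      exact trailingCoeff_nonzero_iff_nonzero.2 hL.2
    apply h4
    rw [h2]
    simpa using h1
  · intro t z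
    conv_lhs => rw [F.as_sum_range]
    rw [hG, evalEval_finsetSum, evalEval_finsetSum]
    apply Finset.sum_congr rfl
    intro k _
    rw [← C_mul_X_pow_eq_monomial, ← C_mul_X_pow_eq_monomial, evalEval_mul, evalEval_mul,
      evalEval_C, evalEval_C, evalEval_pow, evalEval_pow, evalEval_X, evalEval_X]
    have := congrArg (eval t) (hu k)
    rw [expand_eval] at this
    rw [this, eval_mul, eval_pow, eval_X, mul_pow, ← pow_mul, mul_comm g k]
    ring

lemma fe_split {f : ℂ[X]} (h0 : f.eval 0 = 1) :
    ∃ m : Multiset ℂ, m.card = f.natDegree ∧ ∀ z, f.eval z = (m.map fun a => 1 + a * z).prod := by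
  have hf : f ≠ 0 := by rintro rfl; simp at h0
  have hs := IsAlgClosed.splits f
  have he : ∀ z, f.eval z = f.leadingCoeff * (f.roots.map fun a => z - a).prod := by
    intro z
    conv_lhs => rw [hs.eq_prod_roots]
    rw [eval_mul, eval_C, eval_multiset_prod, Multiset.map_map]
    simp
  have hr : ∀ a ∈ f.roots, a ≠ 0 := by
    intro a ha h
    rw [mem_roots hf, h, IsRoot, h0] at ha
    exact one_ne_zero ha
  refine ⟨f.roots.map fun a => -a⁻¹, by rw [Multiset.card_map, hs.natDegree_eq_card_roots], ?_⟩
  intro z
  have h1 := he 0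
  rw [h0] at h1
  rw [he z, Multiset.map_map]
  have : (f.roots.map fun a => z - a).prod = (f.roots.map fun a => (0 : ℂ) - a).prod *
      (f.roots.map ((fun a => 1 + a * z) ∘ fun a => -a⁻¹)).prod := by
    rw [← Multiset.prod_map_mul]
    congr 1
    apply Multiset.map_congr rfl
    intro a ha
    have := hr a ha
    simp only [Function.comp]
    field_simp
    ring
  rw [this, ← mul_assoc, ← h1, one_mul]

lemma fe_ev0 (t : ℂ) (F : ℂ[X][X]) : F.evalEval t 0 = (F.coeff 0).eval t := by
  rw [fe_ev, ← coeff_zero_eq_eval_zero, coeff_map]; simp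

/-- structure of the solutions of the functional equation -/
theorem fe_struct (d : ℕ) : ∀ F : ℂ[X][X], F.natDegree ≤ d → F.coeff 0 = 1 → FEq F →
    ∃ (L : ℕ) (m : Multiset (ℂ × ℕ)), 0 < L ∧ m.card = F.natDegree ∧
      ∀ t z : ℂ, F.evalEval (t ^ L) z = (m.map fun p => 1 + p.1 * t ^ p.2 * z).prod := by
  induction d with
  | zero =>
    intro F hd h0 _
    refine ⟨1, 0, one_pos, by simp; omega, ?_⟩
    intro t z
    rw [eq_C_of_natDegree_le_zero hd, h0]
    simp
  | succ d ih =>
    intro F hd h0 hF
    by_cases hz : F.natDegree = 0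
    · exact ih F (by omega) h0 hF
    obtain ⟨L, g, G, hL, hdeg, hG0, hnc, hev⟩ := fe_rescale h0 hz
    have hG : FEq G := by
      apply FEq.of_ne
      intro t ht z
      have e : ∀ w : ℂ, G.evalEval t w = F.evalEval (t ^ L) (w / t ^ g) := by
        intro w
        rw [hev]; congr 1; field_simp
      have e2 : ∀ w : ℂ, G.evalEval (t ^ 2) w = F.evalEval ((t ^ 2) ^ L) (w / (t ^ 2) ^ g) := by
        intro w
        rw [hev]; congr 1; field_simp
      rw [e, e, e2, neg_div, hF]
      congr 1
      · ring
      · rw [div_pow, neg_div]; ring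
    have h00 : G.evalEval 0 0 = 1 := by rw [fe_ev0, hG0]; simp
    obtain ⟨G1, hG1⟩ := hG.dvd (by rw [h00]; exact one_ne_zero)
    set f := G.map (evalRingHom 0) with hf
    have hfe : ∀ z, f.eval z = G.evalEval 0 z := fun z => (fe_ev 0 z G).symm
    have hf0 : f.eval 0 = 1 := by rw [hfe, h00]
    have hfz : f ≠ 0 := by rintro h; rw [h] at hf0; simp at hf0
    have hGev : ∀ t z, G.evalEval t z = f.eval z * G1.evalEval t z := by
      intro t z
      conv_lhs => rw [hG1]
      rw [evalEval_mul, evalEval_map_C]
    have hGz : G ≠ 0 := by rintro h; rw [h] at hG0; simp at hG0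
    have hG1z : G1 ≠ 0 := by rintro h; rw [h, mul_zero] at hG1; exact hGz hG1
    have hdeg1 : G.natDegree = f.natDegree + G1.natDegree := by
      conv_lhs => rw [hG1]
      rw [natDegree_mul ((Polynomial.map_ne_zero_iff C_injective).2 hfz) hG1z,
        natDegree_map_eq_of_injective C_injective]
    have hG10 : G1.coeff 0 = 1 := by
      apply Polynomial.funext
      intro t
      have := hGev t 0
      rw [fe_ev0, fe_ev0, hG0, hf0, one_mul] at this
      exact this.symm
    have hff : ∀ z : ℂ, f.eval z * f.eval (-z) = f.eval (-z ^ 2) := by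
      intro z
      rw [hfe, hfe, hfe, hG 0 z]; simp
    have hFE1 : FEq G1 := by
      have hp : (f.comp (-X ^ 2)).map C * (G1 * G1.comp (-X)) =
          (f.comp (-X ^ 2)).map C * (G1.map (compRingHom (X ^ 2))).comp (-X ^ 2) := by
        apply fe_ext
        intro t z
        rw [evalEval_mul, evalEval_mul, evalEval_mul, fe_comp, fe_comp, fe_map, evalEval_map_C]
        have := hG t z
        rw [hGev, hGev, hGev] at this
        simp only [eval_comp, evalEval_neg, evalEval_pow, evalEval_X, eval_neg, eval_pow, eval_X]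
        rw [← this, ← hff]
        ring
      have hnz : (f.comp (-X ^ 2)).map (C : ℂ →+* ℂ[X]) ≠ 0 := by
        rw [Polynomial.map_ne_zero_iff C_injective]
        intro h
        have := congrArg (eval 0) h
        simp [eval_comp, hf0] at this
      have hp2 := mul_left_cancel₀ hnz hp
      intro t z
      have h2 := congrArg (evalEval t z) hp2
      rw [evalEval_mul, fe_comp, fe_comp, fe_map] at h2
      simpa [evalEval_pow] using h2
    obtain ⟨L1, m1, hL1, hc1, hm1⟩ := ih G1 (by omega) hG10 hFE1
    obtain ⟨m0, hc0, hm0⟩ := fe_split hf0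
    refine ⟨L1 * L, m0.map (fun a => (a, L1 * g)) + m1.map (fun p => (p.1, p.2 + L1 * g)),
      Nat.mul_pos hL1 hL, by simp [hc0, hc1]; omega, ?_⟩
    intro t z
    rw [pow_mul, hev, hGev, hm0, hm1, Multiset.map_add, Multiset.prod_add, Multiset.map_map,
      Multiset.map_map]
    congr 2
    · apply Multiset.map_congr rfl
      intro a _
      simp only [Function.comp]
      rw [← pow_mul]; ring
    · apply Multiset.map_congr rfl
      intro a _
      simp only [Function.comp]
      rw [← pow_mul]; ring

end Pool.Agent.HCF
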