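import Pool.Agent.P.MP_f644fa_ag.FE2

open Polynomial Finset

namespace Pool.Agent.HCF

lemma fe_mult (m : Multiset (ℂ × ℕ)) (hm : ∀ p ∈ m, p.2 ≠ 0) :
    (m.map fun p => (1 - C p.1 * X ^ p.2 : ℂ[X])).prod ≠ 0 ∧
    rootMultiplicity 1 (m.map fun p => (1 - C p.1 * X ^ p.2 : ℂ[X])).prod ≤
      (m.filter fun p => p.1 = 1).card := by
  classical
  induction m using Multiset.induction_on with
  | empty => simp [rootMultiplicity_eq_zero]
  | cons p m ih =>
    obtain ⟨h1, h2⟩ := ih (fun q hq => hm q (Multiset.mem_cons_of_mem hq))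
    have hp : p.2 ≠ 0 := hm p (Multiset.mem_cons_self _ _)
    have h3 : (1 - C p.1 * X ^ p.2 : ℂ[X]) ≠ 0 := by
      intro h
      have := congrArg (eval 0) h
      simp [hp] at this
    rw [Multiset.map_cons, Multiset.prod_cons]
    refine ⟨mul_ne_zero h3 h1, ?_⟩
    rw [rootMultiplicity_mul (mul_ne_zero h3 h1), Multiset.filter_cons]
    split_ifs with h4
    · have : rootMultiplicity 1 (1 - C p.1 * X ^ p.2 : ℂ[X]) ≤ 1 := by
        by_contra hc
        push Not at hc
        rw [one_lt_rootMultiplicity_iff_isRoot h3] at hc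
        have := hc.2
        simp [h4, hp, derivative_X_pow] at this
      simp only [Multiset.card_add, Multiset.card_singleton]
      omega
    · have : rootMultiplicity 1 (1 - C p.1 * X ^ p.2 : ℂ[X]) = 0 := by
        apply rootMultiplicity_eq_zero
        simp [sub_eq_zero, Ne.symm h4]
      simp only [Multiset.card_add, Multiset.card_zero]
      omega

/-- a solution vanishing to order `c` along `z = -t` at `t = 1` is a product of `c` binomials -/
lemma fe_prod {c : ℕ} {F : ℂ[X][X]} (hd : F.natDegree ≤ c) (h0 : F.coeff 0 = 1) (hF : FEq F)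
    (hv : (1 - X) ^ c ∣ F.eval (-X)) :
    ∃ b : Fin c → ℕ, Monotone b ∧ F = ∏ j, (1 + C (X ^ b j) * X) := by
  classical
  obtain ⟨L, m, hL, hc, hm⟩ := fe_struct c F hd h0 hF
  have hexp : expand ℂ L (F.eval (-X)) =
      ((m.map fun p => (p.1, p.2 + L)).map fun p => (1 - C p.1 * X ^ p.2 : ℂ[X])).prod := by
    apply Polynomial.funext
    intro t
    rw [expand_eval, eval_multiset_prod, Multiset.map_map, Multiset.map_map]
    have : (F.eval (-X)).eval (t ^ L) = F.evalEval (t ^ L) (-t ^ L) := by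
      have := fe_comp (t ^ L) 0 F (C (-X))
      rw [evalEval_C] at this
      simp only [eval_neg, eval_X] at this
      rw [← this, comp_C, evalEval_C]
    rw [this, hm]
    congr 1
    apply Multiset.map_congr rfl
    intro p _
    simp only [Function.comp, eval_sub, eval_one, eval_mul, eval_C, eval_pow, eval_X]
    ring
  obtain ⟨hnz, hle⟩ := fe_mult (m.map fun p => (p.1, p.2 + L)) (by
    intro p hp
    obtain ⟨q, _, rfl⟩ := Multiset.mem_map.1 hp
    simp only; omega)
  rw [← hexp] at hnz hle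
  have hge : c ≤ rootMultiplicity 1 (expand ℂ L (F.eval (-X))) := by
    rw [le_rootMultiplicity_iff hnz]
    obtain ⟨u, hu⟩ := hv
    rw [hu, map_mul, map_pow]
    refine Dvd.dvd.mul_right (pow_dvd_pow_of_dvd ?_ _) _
    rw [dvd_iff_isRoot]
    simp
  have hfc := Multiset.card_le_card
    (Multiset.filter_le (fun p : ℂ × ℕ => p.1 = 1) (m.map fun p => (p.1, p.2 + L)))
  have hcard : m.card = c := by
    rw [Multiset.card_map] at hfc
    omega
  have hone : ∀ p ∈ m, p.1 = 1 := by
    have : (m.map fun p => (p.1, p.2 + L)).filter (fun p : ℂ × ℕ => p.1 = 1) =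
        m.map fun p => (p.1, p.2 + L) := by
      apply Multiset.eq_of_le_of_card_le (Multiset.filter_le _ _)
      rw [Multiset.card_map]; omega
    rw [Multiset.filter_eq_self] at this
    intro p hp
    exact this (p.1, p.2 + L) (Multiset.mem_map_of_mem (fun p : ℂ × ℕ => (p.1, p.2 + L)) hp)
  obtain ⟨v, hv'⟩ : ∃ v : Fin c → ℂ × ℕ, m = univ.val.map v := by
    subst hcard
    refine ⟨fun i => m.toList.get (Fin.cast (by simp) i), ?_⟩
    rw [Fin.univ_val_map]
    conv_lhs => rw [← Multiset.coe_toList m]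
    congr 1
    apply List.ext_get <;> simp
  have hv1 : ∀ j, (v j).1 = 1 := fun j => hone _ (by rw [hv']; simp)
  have hm2 : ∀ t z : ℂ, F.evalEval (t ^ L) z = ∏ j, (1 + t ^ (v j).2 * z) := by
    intro t z
    rw [hm, hv', Multiset.map_map]
    simp [Finset.prod, hv1]
  have hpoly : F.map (compRingHom (X ^ L)) = ∏ j, (1 + C (X ^ (v j).2) * X) := by
    apply fe_ext
    intro t z
    rw [fe_map, evalEval_prod]
    simp [hm2, evalEval_C]
  have hco : ∀ (s : Finset (Fin c)) (a : Fin c → ℂ[X]),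
      (∏ j ∈ s, (1 + C (a j) * X : ℂ[X][X])).coeff 0 = 1 ∧
      (∏ j ∈ s, (1 + C (a j) * X : ℂ[X][X])).coeff 1 = ∑ j ∈ s, a j := by
    intro s a
    induction s using Finset.induction_on with
    | empty => simp [coeff_one]
    | insert j s hj ih =>
      rw [prod_insert hj, sum_insert hj, add_mul, one_mul, mul_assoc, coeff_add, coeff_add,
        coeff_C_mul, coeff_C_mul, ih.1, ih.2, coeff_X_mul_zero, coeff_X_mul, ih.1]
      constructor <;> ring
  have hdiv : ∀ j, L ∣ (v j).2 := by
    intro j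
    have h1 := congrArg (fun p => coeff (coeff p 1) (v j).2) hpoly
    simp only [(hco _ _).2, coeff_map, coe_compRingHom_apply, ← expand_eq_comp_X_pow,
      coeff_expand hL, finsetSum_coeff, coeff_X_pow] at h1
    by_contra hn
    rw [if_neg hn, Finset.sum_boole] at h1
    have h2 : #{i | (v j).2 = (v i).2} = 0 := by exact_mod_cast h1.symm
    rw [card_eq_zero] at h2
    have : j ∈ ({i | (v j).2 = (v i).2} : Finset (Fin c)) := by simp
    rw [h2] at this
    simp at this
  choose b hb using hdiv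
  refine ⟨b ∘ Tuple.sort b, Tuple.monotone_sort b, ?_⟩
  have : ∏ j, (1 + C (X ^ (b ∘ Tuple.sort b) j) * X : ℂ[X][X]) = ∏ j, (1 + C (X ^ b j) * X) :=
    Equiv.prod_comp (Tuple.sort b) (fun j => (1 + C (X ^ b j) * X : ℂ[X][X]))
  rw [this]
  apply fe_ext
  intro t z
  obtain ⟨w, rfl⟩ := IsAlgClosed.exists_pow_nat_eq t hL
  rw [hm2, evalEval_prod]
  simp [evalEval_C, hb, pow_mul]

lemma fe_coeff {c : ℕ} (b : Fin c → ℕ) (k : ℕ) :
    (∏ j, (1 + C (X ^ b j) * X : ℂ[X][X])).coeff k =
      ∑ J ∈ powersetCard k (univ : Finset (Fin c)), X ^ (∑ j ∈ J, b j) := by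
  classical
  rw [Finset.prod_one_add, finsetSum_coeff, powersetCard_eq_filter, sum_filter]
  apply Finset.sum_congr rfl
  intro J _
  rw [prod_mul_distrib, prod_const, ← map_prod, prod_pow_eq_pow_sum, coeff_C_mul, coeff_X_pow]
  split_ifs <;> simp_all

/-- the content step -/
lemma fe_content {H : ℂ[X][X]} (h0 : (H.coeff 0).eval 0 ≠ 0)
    (h : ∀ t z : ℂ, H.evalEval (t ^ 2) (-z ^ 2) * (H.coeff 0).eval t ^ 2 =
      (H.coeff 0).eval (t ^ 2) * (H.evalEval t z * H.evalEval t (-z))) :
    ∃ F : ℂ[X][X], H = C (H.coeff 0) * F ∧ F.coeff 0 = 1 ∧ FEq F := by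
  classical
  have hH : H ≠ 0 := by rintro rfl; simp at h0
  set g := H.content
  set G := H.primPart
  have hHG : H = C g * G := H.eq_C_content_mul_primPart
  have hprim : G.IsPrimitive := H.isPrimitive_primPart
  have hg : g ≠ 0 := by rintro h; rw [h] at hHG; simp at hHG; exact hH hHG
  set q := G.coeff 0 with hq
  have hc0 : H.coeff 0 = g * q := by rw [hHG, coeff_C_mul]
  have hev : ∀ t z, H.evalEval t z = g.eval t * G.evalEval t z := by
    intro t z
    conv_lhs => rw [hHG]
    rw [evalEval_mul, evalEval_C]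
  have hp : C (g.comp (X ^ 2) * g ^ 2) *
        ((G.map (compRingHom (X ^ 2))).comp (-X ^ 2) * C q ^ 2) =
      C (g.comp (X ^ 2) * g ^ 2) * (C (q.comp (X ^ 2)) * (G * G.comp (-X))) := by
    apply fe_ext
    intro t z
    have := h t z
    rw [hev, hev, hev, hc0] at this
    simp only [evalEval_mul, evalEval_C, fe_comp, fe_map, evalEval_pow, evalEval_neg, evalEval_X,
      eval_mul, eval_pow, eval_comp, eval_X] at this ⊢
    linear_combination this
  have hnz : C (g.comp (X ^ 2) * g ^ 2) ≠ (0 : ℂ[X][X]) := by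
    rw [Ne, C_eq_zero]
    refine mul_ne_zero ?_ (pow_ne_zero _ hg)
    rw [← expand_eq_comp_X_pow]
    exact (expand_ne_zero two_pos).2 hg
  have hp2 := mul_left_cancel₀ hnz hp
  have hfun : ∀ t z : ℂ, G.evalEval (t ^ 2) (-z ^ 2) * q.eval t ^ 2 =
      q.eval (t ^ 2) * (G.evalEval t z * G.evalEval t (-z)) := by
    intro t z
    have h2 := congrArg (evalEval t z) hp2
    simpa only [evalEval_mul, evalEval_C, fe_comp, fe_map, evalEval_pow, evalEval_neg, evalEval_X,
      eval_mul, eval_pow, eval_comp, eval_X] using h2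
  have hq0 : q.eval 0 ≠ 0 := by
    intro hz
    apply h0
    rw [hc0, eval_mul, hz, mul_zero]
  have hnr := fe_noroot hq0 (by
    intro b hb
    by_contra hne
    have hz : G.map (evalRingHom (b ^ 2)) = 0 := by
      apply Polynomial.funext
      intro w
      obtain ⟨z, hz⟩ := IsAlgClosed.exists_pow_nat_eq (-w) two_pos
      have := hfun b z
      rw [hb, zero_mul, hz, neg_neg, fe_ev] at this
      simpa [hne] using this
    have hdv : C (X - C (b ^ 2)) ∣ G := by
      rw [C_dvd_iff_dvd_coeff]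
      intro i
      rw [dvd_iff_isRoot]
      have := congrArg (fun p => coeff p i) hz
      simpa using this
    exact not_isUnit_X_sub_C _ (hprim _ hdv))
  have hqd : q.degree = 0 := by
    by_contra hd
    obtain ⟨a, ha⟩ := IsAlgClosed.exists_root q hd
    exact hnr a ha
  obtain ⟨κ, hκ⟩ : ∃ κ, q = C κ := ⟨_, eq_C_of_degree_eq_zero hqd⟩
  have hκ0 : κ ≠ 0 := by rw [hκ] at hq0; simpa using hq0
  refine ⟨C (C κ⁻¹) * G, ?_, ?_, ?_⟩
  · rw [hc0, hκ, ← mul_assoc, ← C_mul, mul_assoc g, ← C_mul, mul_inv_cancel₀ hκ0]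
    simpa using hHG
  · rw [coeff_C_mul, ← hq, hκ, ← C_mul, inv_mul_cancel₀ hκ0, C_1]
  · intro t z
    have := hfun t z
    rw [hκ] at this
    simp only [eval_C, evalEval_mul, evalEval_C] at this ⊢
    field_simp
    have h3 : κ * (G.evalEval t z * G.evalEval t (-z)) =
        κ * (κ * G.evalEval (t ^ 2) (-z ^ 2)) := by linear_combination -this
    have := mul_left_cancel₀ hκ0 h3
    linear_combination this

end Pool.Agent.HCF
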