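import Pool.Agent.P.MP_f644fa_ag.G1a

/-! The tangent spaces of the link. -/

noncomputable section
namespace Pool.Agent.HCF
open MvPolynomial Module Set Filter Topology MeasureTheory
open scoped ContDiff InnerProductSpace
open Pool.Agent.Wein (Ret Tan IsSubmanifold)

variable {M : ℕ} {I : Ideal (SS M)} {c n : ℕ}

/-- a curve in the cone with a prescribed tangent vector -/
theorem g1_curve (hX : IsManifold I c) (hM : M = n + 1 + c) {y v : VV M} (hy : y.ofLp ∈ cone I)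
    (hv : v.ofLp ∈ tangS I y.ofLp) :
    ∃ γ : ℝ → VV M, γ 0 = y ∧ (∀ᶠ t in 𝓝 (0 : ℝ), (γ t).ofLp ∈ cone I) ∧ HasDerivAt γ v 0 := by
  obtain ⟨C⟩ := hX.exists_chart hM hy
  have hyU : C.π y.ofLp ∈ C.U := C.π_mem _ ⟨hy, C.mem⟩
  have hl : HasDerivAt (fun s : ℝ => C.π y.ofLp + s • C.π v.ofLp) (C.π v.ofLp) 0 := by
    simpa using ((hasDerivAt_id (0 : ℝ)).smul_const (C.π v.ofLp)).const_add (C.π y.ofLp)
  have hd : DifferentiableAt ℂ C.ψ (C.π y.ofLp) :=
    ((C.smooth.differentiableOn (by simp)) _ hyU).differentiableAt (C.U_open.mem_nhds hyU)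
  have h0 : C.π y.ofLp + (0 : ℝ) • C.π v.ofLp = C.π y.ofLp := by simp
  have hψ : HasFDerivAt C.ψ ((fderiv ℂ C.ψ (C.π y.ofLp)).restrictScalars ℝ)
      (C.π y.ofLp + (0 : ℝ) • C.π v.ofLp) := by
    rw [h0]
    exact hd.hasFDerivAt.restrictScalars ℝ
  have h1 := hψ.comp_hasDerivAt (0 : ℝ) hl
  rw [ContinuousLinearMap.coe_restrictScalars', C.tan _ hv] at h1
  have h2 := ((PiLp.continuousLinearEquiv 2 ℝ
    (fun _ : Fin M => ℂ)).symm.hasFDerivAt).comp_hasDerivAt (0 : ℝ) h1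
  refine ⟨_, ?_, ?_, h2⟩
  · simp [C.ψπ _ ⟨hy, C.mem⟩]
  · have h3 : ∀ᶠ s in 𝓝 (0 : ℝ), C.π y.ofLp + s • C.π v.ofLp ∈ C.U :=
      hl.continuousAt.eventually (C.U_open.mem_nhds (by simpa using hyU))
    filter_upwards [h3] with s hs
    exact (C.ψ_mem _ hs).1

theorem tan_Lk (hX : IsManifold I c) (hM : M = n + 1 + c) {y : VV M} (hy : y ∈ Lk I) (v : VV M) :
    v ∈ Tan (Lk I) y ↔ v.ofLp ∈ tangS I y.ofLp ∧ ⟪y, v⟫_ℝ = 0 := by
  constructor
  · intro hv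
    refine ⟨fun f hf => ?_, ?_⟩
    · have h := Pool.Agent.Wein.Tan.fderiv_congr hv (g := fun _ => (0 : ℂ))
        ((contDiff_evalV f).differentiable (by simp) y) (differentiableAt_const _)
        (Eventually.of_forall fun z hz => hz.1.2 f hf)
      rw [fderiv_evalV] at h
      simpa using h
    · obtain ⟨γ, h0, hS, hd⟩ := hv
      have h1 := hd.norm_sq
      have h2 : (fun t => ‖γ t‖ ^ 2) =ᶠ[𝓝 0] fun _ => (1 : ℝ) := by
        filter_upwards [hS] with t ht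
        rw [ht.2, one_pow]
      have h3 := h1.unique ((hasDerivAt_const (0 : ℝ) (1 : ℝ)).congr_of_eventuallyEq h2)
      rw [h0] at h3
      linarith
  · rintro ⟨hv, hyv⟩
    obtain ⟨γ, h0, hS, hd⟩ := g1_curve hX hM hy.1 hv
    have hn : ‖γ 0‖ ^ 2 = 1 := by rw [h0, hy.2, one_pow]
    have h1 := hd.norm_sq
    rw [h0, hyv, mul_zero] at h1
    have h2 := (h1.sqrt (by rw [hn]; exact one_ne_zero)).inv
      (by rw [hn, Real.sqrt_one]; exact one_ne_zero)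
    have h3 := h2.smul hd
    refine ⟨fun t => (√(‖γ t‖ ^ 2))⁻¹ • γ t, ?_, ?_, ?_⟩
    · simp [h0, hy.2]
    · filter_upwards [hS] with t ht
      have hne : γ t ≠ 0 := fun h => ht.1 (by rw [h]; rfl)
      have hp : 0 < ‖γ t‖ := norm_pos_iff.2 hne
      rw [Real.sqrt_sq hp.le]
      refine ⟨?_, ?_⟩
      · have h4 := hX.smul_mem ht (t := ((‖γ t‖⁻¹ : ℝ) : ℂ))
          (Complex.ofReal_ne_zero.2 (inv_ne_zero hp.ne'))
        exact h4
      · rw [norm_smul, norm_inv, norm_norm, inv_mul_cancel₀ hp.ne']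
    · refine h3.congr_deriv ?_
      simp [h0, hy.2]

theorem rank_Lk (hX : IsManifold I c) (hM : M = n + 1 + c) (R : Ret (VV M)) (hR : R.S = Lk I) :
    ∀ y ∈ R.S, finrank ℝ (LinearMap.range (R.P y : VV M →ₗ[ℝ] VV M)) = 2 * n + 1 := by
  intro y hy
  have hy' : y ∈ Lk I := hR ▸ hy
  let e : VV M ≃ₗ[ℝ] (Fin M → ℂ) := WithLp.linearEquiv 2 ℝ (Fin M → ℂ)
  let T : Submodule ℝ (VV M) := ((tangS I y.ofLp).restrictScalars ℝ).comap e.toLinearMap
  have hT : finrank ℝ T = 2 * (n + 1) := by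
    have h1 : finrank ℝ T = finrank ℝ ((tangS I y.ofLp).restrictScalars ℝ) :=
      (e.ofSubmodule' _).finrank_eq
    have h2 : finrank ℝ ((tangS I y.ofLp).restrictScalars ℝ) = 2 * finrank ℂ (tangS I y.ofLp) :=
      finrank_real_of_complex (tangS I y.ofLp)
    have h3 := hX.finrank_tang hy'.1
    omega
  have hy0 : y ≠ 0 := fun h => hy'.1.1 (by rw [h]; rfl)
  have hle : (ℝ ∙ y) ≤ T := (Submodule.span_singleton_le_iff_mem _ _).2 (hX.self_mem_tang hy'.1)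
  have hr : LinearMap.range (R.P y : VV M →ₗ[ℝ] VV M) = (ℝ ∙ y)ᗮ ⊓ T := by
    ext v
    have h1 : v ∈ LinearMap.range (R.P y : VV M →ₗ[ℝ] VV M) ↔ R.P y v = v :=
      ⟨by rintro ⟨w, rfl⟩; exact R.P_idem hy w, fun h => ⟨v, h⟩⟩
    rw [h1, ← R.mem_tan hy, hR, tan_Lk hX hM hy', Submodule.mem_inf,
      Submodule.mem_orthogonal_singleton_iff_inner_right, and_comm]
    rfl
  have h4 := Submodule.finrank_add_inf_finrank_orthogonal hle
  rw [finrank_span_singleton hy0, hT] at h4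
  rw [hr]
  omega

theorem exists_link (hX : IsManifold I c) (hM : M = n + 1 + c) :
    ∃ (R : Ret (VV M)) (μ : Measure (VV M)), R.S = Lk I ∧ HT.IsVol R.S (2 * n + 1) μ := by
  obtain ⟨R, hR⟩ := Pool.Agent.Wein.exists_ret (Lk I) (isSubmanifold_Lk hX) (isCompact_Lk I)
  obtain ⟨μ, hμ⟩ := HT.exists_vol R.compact (HT.exists_chart R (rank_Lk hX hM R hR))
  exact ⟨R, μ, hR, hμ⟩

end Pool.Agent.HCF
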