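import Pool.Agent.P.MP_f644fa_ag.Chart
import Pool.Agent.P.MP_65ad7c_ag.HVol

/-! The link of the cone is a compact submanifold. -/

noncomputable section
namespace Pool.Agent.HCF
open MvPolynomial Module Set Filter Topology MeasureTheory
open scoped ContDiff InnerProductSpace
open Pool.Agent.Wein (Ret Tan IsSubmanifold)

/-- the ambient space -/
abbrev VV (M : ℕ) := EuclideanSpace ℂ (Fin M)

instance (M : ℕ) : MeasurableSpace (VV M) := borel _
instance (M : ℕ) : BorelSpace (VV M) := ⟨rfl⟩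

variable {M : ℕ} {I : Ideal (SS M)} {c n : ℕ}

/-- the link -/
def Lk (I : Ideal (SS M)) : Set (VV M) := {y | y.ofLp ∈ cone I ∧ ‖y‖ = 1}

/-- the coordinates as a real linear map -/
def g1aL (M : ℕ) : VV M →L[ℝ] (Fin M → ℂ) :=
  ((EuclideanSpace.equiv (Fin M) ℂ : VV M →L[ℂ] (Fin M → ℂ))).restrictScalars ℝ

theorem g1aL_apply (y : VV M) : g1aL M y = y.ofLp := rfl

theorem contDiff_evalV (f : SS M) : ContDiff ℝ ∞ fun y : VV M => eval y.ofLp f :=
  (((contDiff_eval f).restrict_scalars ℝ).of_le le_top).comp (g1aL M).contDiff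

theorem fderiv_evalV (f : SS M) (y v : VV M) :
    fderiv ℝ (fun y : VV M => eval y.ofLp f) y v = ∑ j, v j * eval y.ofLp (pderiv j f) := by
  have h : HasFDerivAt (fun y : VV M => eval y.ofLp f) _ y :=
    ((hasFDerivAt_eval f y.ofLp).restrictScalars ℝ).comp y (g1aL M).hasFDerivAt
  rw [h.fderiv]
  simp [g1aL_apply, mul_comm]

theorem isCompact_Lk (I : Ideal (SS M)) : IsCompact (Lk I) := by
  have e : Lk I = Metric.sphere (0 : VV M) 1 ∩ ⋂ f ∈ I, {y : VV M | eval y.ofLp f = 0} := by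
    ext y
    simp only [Lk, cone, mem_ofPred_eq, mem_inter_iff, mem_sphere_zero_iff_norm, mem_iInter]
    refine ⟨fun h => ⟨h.2, h.1.2⟩, fun h => ⟨⟨fun h0 => ?_, h.2⟩, h.1⟩⟩
    have h1 : y = 0 := by ext j; exact congrFun h0 j
    have h2 := h.1
    rw [h1, norm_zero] at h2
    exact zero_ne_one h2
  rw [e]
  exact (isCompact_sphere _ _).inter_right (isClosed_biInter fun f _ =>
    isClosed_eq (contDiff_evalV f).continuous continuous_const)

/-- the local equations of the link -/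
def g1aPhi (f : Fin c → SS M) (y : VV M) : (Fin c → ℂ) × ℝ :=
  (fun i => eval y.ofLp (f i), ‖y‖ ^ 2 - 1)

theorem g1a_smooth (f : Fin c → SS M) : ContDiff ℝ ∞ (g1aPhi f) :=
  (contDiff_pi.2 fun i => contDiff_evalV (f i)).prodMk
    ((contDiff_norm_sq ℝ).sub contDiff_const)

theorem g1a_fderiv (f : Fin c → SS M) (y v : VV M) :
    fderiv ℝ (g1aPhi f) y v =
      (fun i => ∑ j, v j * eval y.ofLp (pderiv j (f i)), 2 * ⟪y, v⟫_ℝ) := by
  have h1 : HasFDerivAt (fun y : VV M => fun i => eval y.ofLp (f i))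
      (ContinuousLinearMap.pi fun i => fderiv ℝ (fun y : VV M => eval y.ofLp (f i)) y) y :=
    hasFDerivAt_pi.2 fun i => ((contDiff_evalV (f i)).differentiable (by simp) y).hasFDerivAt
  have h2 : HasFDerivAt (fun y : VV M => ‖y‖ ^ 2 - 1) (2 • innerSL ℝ y) y :=
    (hasStrictFDerivAt_norm_sq y).hasFDerivAt.sub_const 1
  have h : HasFDerivAt (g1aPhi f) _ y := h1.prodMk h2
  rw [h.fderiv]
  refine Prod.ext (funext fun i => fderiv_evalV (f i) y v) ?_
  simp

theorem g1a_surj (hX : IsManifold I c) {x : VV M} (hx : x ∈ Lk I) (F : PF I c x.ofLp) :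
    Function.Surjective (fderiv ℝ (g1aPhi F.f) x) := by
  rintro ⟨w, s⟩
  let v0 : VV M := WithLp.toLp 2 fun j => ∑ k, w k / eval x.ofLp F.δ * eval x.ofLp (F.b k j)
  have h0 : ∀ i, ∑ j, v0 j * eval x.ofLp (pderiv j (F.f i)) = w i := fun i => by
    have h1 : ∀ k, ∑ j, eval x.ofLp (pderiv j (F.f i)) * eval x.ofLp (F.b k j)
        = if i = k then eval x.ofLp F.δ else 0 := fun k => by
      have h2 := congrArg (eval x.ofLp) (F.Jb i k)
      rw [map_sum, apply_ite (eval x.ofLp), map_zero] at h2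
      simpa only [map_mul] using h2
    calc ∑ j, v0 j * eval x.ofLp (pderiv j (F.f i))
        = ∑ k, w k / eval x.ofLp F.δ *
            ∑ j, eval x.ofLp (pderiv j (F.f i)) * eval x.ofLp (F.b k j) := by
          simp only [v0, Finset.sum_mul, Finset.mul_sum]
          rw [Finset.sum_comm]
          exact Finset.sum_congr rfl fun k _ => Finset.sum_congr rfl fun j _ => by ring
      _ = w i := by
          simp only [h1, mul_ite, mul_zero, Finset.sum_ite_eq, Finset.mem_univ, if_true]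
          exact div_mul_cancel₀ _ F.δ_ne
  refine ⟨v0 + ((s - 2 * ⟪x, v0⟫_ℝ) / 2) • x, ?_⟩
  rw [map_add, map_smul, g1a_fderiv, g1a_fderiv]
  refine Prod.ext (funext fun i => ?_) ?_
  · have h3 : ∑ j, x j * eval x.ofLp (pderiv j (F.f i)) = 0 :=
      hX.self_mem_tang hx.1 (F.f i) (F.f_mem i)
    simp only [Prod.fst_add, Prod.smul_fst, Pi.add_apply, Pi.smul_apply, h0, h3, smul_zero,
      add_zero]
  · simp only [Prod.snd_add, Prod.smul_snd, smul_eq_mul, real_inner_self_eq_norm_sq, hx.2]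
    ring

theorem isSubmanifold_Lk (hX : IsManifold I c) : IsSubmanifold (Lk I) := by
  intro x hx
  obtain ⟨F⟩ := hX.exists_PF hx.1
  obtain ⟨R, hR⟩ := (fderiv ℝ (g1aPhi F.f) x).exists_rightInverse_of_surjective
    (LinearMap.range_eq_top.2 (g1a_surj hX hx F))
  let e := toEuclidean (E := (Fin c → ℂ) × ℝ)
  have hc : Continuous fun y : VV M => ((fderiv ℝ (g1aPhi F.f) y).comp R).det :=
    ContinuousLinearMap.continuous_det.comp
      (((g1a_smooth F.f).continuous_fderiv (by simp)).clm_comp continuous_const)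
  have hx0 : x ≠ 0 := fun h => by
    have h2 := hx.2
    rw [h, norm_zero] at h2
    exact zero_ne_one h2
  refine ⟨_, fun y => e (g1aPhi F.f y),
    {y | y ≠ 0} ∩ ({y | eval y.ofLp F.g ≠ 0} ∩ {y | ((fderiv ℝ (g1aPhi F.f) y).comp R).det ≠ 0}),
    isOpen_ne.inter ((isOpen_ne_fun (contDiff_evalV F.g).continuous continuous_const).inter
      (isOpen_ne_fun hc continuous_const)), ⟨hx0, F.g_ne, ?_⟩,
    (e.contDiff.comp (g1a_smooth F.f)).contDiffOn, fun y hy => ?_, fun y hy => ?_⟩
  · show ((fderiv ℝ (g1aPhi F.f) x).comp R).det ≠ 0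
    rw [hR]
    simp [ContinuousLinearMap.det]
  · have h1 : HasFDerivAt (fun y => e (g1aPhi F.f y)) _ y :=
      e.toContinuousLinearMap.hasFDerivAt.comp y
        ((g1a_smooth F.f).differentiable (by simp) y).hasFDerivAt
    rw [h1.fderiv]
    have h2 : Function.Surjective ((fderiv ℝ (g1aPhi F.f) y).comp R) :=
      (((fderiv ℝ (g1aPhi F.f) y).comp R).toContinuousLinearEquivOfDetNeZero hy.2.2).surjective
    exact e.surjective.comp (Function.Surjective.of_comp (g := R) h2)
  · have hy0 : y.ofLp ≠ 0 := fun h => hy.1 (by ext j; exact congrFun h j)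
    rw [map_eq_zero_iff e e.injective, g1aPhi, Prod.mk_eq_zero, _root_.funext_iff, sub_eq_zero,
      pow_eq_one_iff_of_nonneg (norm_nonneg y) two_ne_zero]
    exact and_congr_left' (F.mem_cone hy0 hy.2.1)

end Pool.Agent.HCF
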