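import Pool.Agent.P.MP_f644fa_ag.G2a
import Pool.Agent.P.MP_f644fa_ag.C0

/-! Wirtinger derivatives on a compact submanifold. -/

noncomputable section
namespace Pool.Agent.HCF
open Module Set Filter Topology MeasureTheory
open scoped ContDiff InnerProductSpace
open Pool.Agent.Wein (Ret Tan)

variable {M : ℕ}

/-- the coordinate functions -/
def xA (S : Set (EuclideanSpace ℂ (Fin M))) (j : Fin M) : Sm S :=
  res S (fun y => y j) ((EuclideanSpace.proj j : _ →L[ℂ] ℂ).restrictScalars ℝ).contDiff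

/-- the tangential Wirtinger derivatives -/
def WA (R : Ret (EuclideanSpace ℂ (Fin M))) (l : Fin M) : Derivation ℂ (Sm R.S) (Sm R.S) :=
  (2⁻¹ : ℂ) • (pdA R (EuclideanSpace.single l 1) -
    Complex.I • pdA R (EuclideanSpace.single l Complex.I))

theorem g2_cj_csmul {𝒜 : Type} [CommRing 𝒜] [Algebra ℂ 𝒜] [StarRing 𝒜] [StarModule ℂ 𝒜] (c : ℂ)
    (δ : Derivation ℂ 𝒜 𝒜) : cj (c • δ) = star c • cj δ := by
  ext f
  simp [cj_apply]

theorem g2_sub_eq {𝒜 : Type} [CommRing 𝒜] [Algebra ℂ 𝒜] (c : ℂ) (δ δ' : Derivation ℂ 𝒜 𝒜) :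
    δ - c • δ' = δ + (-c) • δ' := by
  ext f
  simp [sub_eq_add_neg]

theorem g2_lie {𝒜 : Type} [CommRing 𝒜] [Algebra ℂ 𝒜] (a b c d : ℂ)
    (X Y X' Y' : Derivation ℂ 𝒜 𝒜) : ⁅a • (X + b • Y), c • (X' + d • Y')⁆ =
      (a * c) • ⁅X, X'⁆ + (a * c * d) • ⁅X, Y'⁆ + (a * b * c) • ⁅Y, X'⁆ +
        (a * b * c * d) • ⁅Y, Y'⁆ := by
  simp only [smul_lie, lie_smul, add_lie, lie_add]
  module

theorem g2_sum_apply {𝒜 ι : Type} [CommRing 𝒜] [Algebra ℂ 𝒜] (s : Finset ι)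
    (δ : ι → Derivation ℂ 𝒜 𝒜) (f : 𝒜) : (∑ i ∈ s, δ i) f = ∑ i ∈ s, δ i f := by
  classical
  induction s using Finset.induction_on with
  | empty => simp
  | insert a s ha ih => simp [Finset.sum_insert ha, ih]

theorem g2_ptVF_lie {V : Type} [NormedAddCommGroup V] [InnerProductSpace ℝ V] (R : Ret V)
    (a b c d : ℂ) (v w v' w' : V) :
    PtVF R ⁅a • (pdA R v + b • pdA R w), c • (pdA R v' + d • pdA R w')⁆ := by
  rw [g2_lie]
  exact ((((ptVF_lie R _ _).csmul _).add ((ptVF_lie R _ _).csmul _)).add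
    ((ptVF_lie R _ _).csmul _)).add ((ptVF_lie R _ _).csmul _)

theorem g2_WA (R : Ret (EuclideanSpace ℂ (Fin M))) (l : Fin M) : WA R l =
    (2⁻¹ : ℂ) • (pdA R (EuclideanSpace.single l 1) +
      (-Complex.I) • pdA R (EuclideanSpace.single l Complex.I)) := by
  rw [WA, g2_sub_eq]

theorem g2_decomp (u : EuclideanSpace ℂ (Fin M)) :
    u = ∑ m, ((u m).re • EuclideanSpace.single m (1 : ℂ) +
      (u m).im • EuclideanSpace.single m Complex.I) := by
  ext j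
  simp [Finset.sum_apply, Pi.single_apply, Finset.sum_add_distrib]

theorem cj_WA (R : Ret (EuclideanSpace ℂ (Fin M))) (l : Fin M) : cj (WA R l) =
    (2⁻¹ : ℂ) • (pdA R (EuclideanSpace.single l 1) +
      Complex.I • pdA R (EuclideanSpace.single l Complex.I)) := by
  rw [g2_WA, g2_cj_csmul, cj_add, g2_cj_csmul, cj_pdA, cj_pdA]
  simp only [star_inv₀, star_ofNat, star_neg, Complex.star_def, Complex.conj_I, neg_neg]

/-- the value of `∑ a_m W_m + conj a_m conj W_m` -/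
theorem sum_WA (R : Ret (EuclideanSpace ℂ (Fin M))) {f : Sm R.S} {g : EuclideanSpace ℂ (Fin M) → ℂ}
    (h : Ext f g) (x : R.S) (u : EuclideanSpace ℂ (Fin M)) :
    ∑ m, (u m * (WA R m f).1 x + star (u m) * (cj (WA R m) f).1 x) =
      fderiv ℝ g x (R.P x u) := by
  conv_rhs => rw [g2_decomp u]
  rw [map_sum, map_sum]
  refine Finset.sum_congr rfl fun m _ => ?_
  have h1 := (pdA_ext R (EuclideanSpace.single m 1) h).eq x
  have h2 := (pdA_ext R (EuclideanSpace.single m Complex.I) h).eq x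
  have e1 : (WA R m f).1 x = 2⁻¹ * ((pdA R (EuclideanSpace.single m 1) f).1 x -
      Complex.I * (pdA R (EuclideanSpace.single m Complex.I) f).1 x) := rfl
  have e2 : (cj (WA R m) f).1 x = 2⁻¹ * ((pdA R (EuclideanSpace.single m 1) f).1 x +
      Complex.I * (pdA R (EuclideanSpace.single m Complex.I) f).1 x) := by
    rw [cj_WA]
    rfl
  rw [e1, e2, h1, h2, map_add, map_add, map_smul, map_smul, map_smul, map_smul,
    Complex.real_smul, Complex.real_smul, Complex.re_eq_add_conj, Complex.im_eq_sub_conj,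
    Complex.star_def]
  field_simp
  ring_nf
  simp only [Complex.I_sq]
  ring

theorem PtVF.isVF {R : Ret (EuclideanSpace ℂ (Fin M))} {δ : Derivation ℂ (Sm R.S) (Sm R.S)}
    (h : PtVF R δ) : IsVF (xA R.S) (WA R) δ := by
  refine Derivation.ext fun f => Subtype.ext (funext fun x => ?_)
  obtain ⟨u, v, hu, hv, hδ⟩ := h x
  obtain ⟨g, hg⟩ := exists_ext f
  have h1 : ∀ m, (δ (xA R.S m)).1 x = u m + Complex.I * v m := by
    intro m
    let L : EuclideanSpace ℂ (Fin M) →L[ℝ] ℂ :=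
      (EuclideanSpace.proj m : _ →L[ℂ] ℂ).restrictScalars ℝ
    rw [hδ (xA R.S m) L ⟨L.contDiff, fun _ => rfl⟩, L.fderiv]
    rfl
  have h2 : ∀ m, (δ (star (xA R.S m))).1 x = star (u m) + Complex.I * star (v m) := by
    intro m
    let L : EuclideanSpace ℂ (Fin M) →L[ℝ] ℂ := (Complex.conjCLE : ℂ →L[ℝ] ℂ).comp
      ((EuclideanSpace.proj m : _ →L[ℂ] ℂ).restrictScalars ℝ)
    rw [hδ (star (xA R.S m)) L ⟨L.contDiff, fun _ => rfl⟩, L.fderiv]
    rfl
  have h3 : ((∑ m, (δ (xA R.S m) • WA R m + δ (star (xA R.S m)) • cj (WA R m))) f).1 x =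
      ∑ m, ((δ (xA R.S m)).1 x * (WA R m f).1 x +
        (δ (star (xA R.S m))).1 x * (cj (WA R m) f).1 x) := by
    rw [g2_sum_apply, AddSubmonoidClass.coe_finsetSum, Finset.sum_apply]
    rfl
  have hu' := sum_WA R hg x u
  have hv' := sum_WA R hg x v
  rw [hu] at hu'
  rw [hv] at hv'
  rw [h3, hδ f g hg, ← hu', ← hv', Finset.mul_sum, ← Finset.sum_add_distrib]
  refine Finset.sum_congr rfl fun m _ => ?_
  rw [h1, h2]
  ring

theorem g2_ptVF_WA (R : Ret (EuclideanSpace ℂ (Fin M))) (l : Fin M) : PtVF R (WA R l) := by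
  rw [g2_WA]
  exact ((ptVF_pdA R _).add ((ptVF_pdA R _).csmul _)).csmul _

theorem g2_ptVF_cj_WA (R : Ret (EuclideanSpace ℂ (Fin M))) (l : Fin M) :
    PtVF R (cj (WA R l)) := by
  rw [cj_WA]
  exact ((ptVF_pdA R _).add ((ptVF_pdA R _).csmul _)).csmul _

theorem IsVF.ptVF {R : Ret (EuclideanSpace ℂ (Fin M))} {δ : Derivation ℂ (Sm R.S) (Sm R.S)}
    (h : IsVF (xA R.S) (WA R) δ) : PtVF R δ := by
  rw [show δ = _ from h]
  exact PtVF.sum _ fun m _ => ((g2_ptVF_WA R m).smul _).add ((g2_ptVF_cj_WA R m).smul _)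

theorem vf_WA (R : Ret (EuclideanSpace ℂ (Fin M))) (l m : Fin M) : IsVF (xA R.S) (WA R) (WA R l) ∧
    IsVF (xA R.S) (WA R) ⁅WA R l, WA R m⁆ ∧ IsVF (xA R.S) (WA R) ⁅WA R l, cj (WA R m)⁆ := by
  refine ⟨(g2_ptVF_WA R l).isVF, PtVF.isVF ?_, PtVF.isVF ?_⟩
  · rw [g2_WA, g2_WA]
    exact g2_ptVF_lie R _ _ _ _ _ _ _ _
  · rw [cj_WA, g2_WA]
    exact g2_ptVF_lie R _ _ _ _ _ _ _ _

end Pool.Agent.HCF
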