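import Pool.Agent.P.MP_f644fa_ag.CDefs
import Pool.Agent.P.MP_65ad7c_ag.HVol

/-! The ring of smooth functions on a compact submanifold of `ℂ^M`, and its vector fields. -/

noncomputable section
namespace Pool.Agent.HCF
open Module Set Filter Topology MeasureTheory
open scoped ContDiff InnerProductSpace
open Pool.Agent.Wein (Ret Tan)

section sm
variable {V : Type} [NormedAddCommGroup V] [InnerProductSpace ℝ V]

/-- smooth functions on `S` -/
def Sm (S : Set V) : StarSubalgebra ℂ (S → ℂ) where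
  carrier := {f | ∃ g : V → ℂ, ContDiff ℝ ∞ g ∧ ∀ x : S, f x = g x}
  mul_mem' := fun ⟨g, hg, h⟩ ⟨g', hg', h'⟩ => ⟨g * g', hg.mul hg', fun x => by simp [h x, h' x]⟩
  add_mem' := fun ⟨g, hg, h⟩ ⟨g', hg', h'⟩ => ⟨g + g', hg.add hg', fun x => by simp [h x, h' x]⟩
  algebraMap_mem' r := ⟨fun _ => r, contDiff_const, fun _ => rfl⟩
  star_mem' := fun ⟨g, hg, h⟩ =>
    ⟨fun x => Complex.conjCLE (g x), Complex.conjCLE.contDiff.comp hg, fun x => by simp [h x]⟩

/-- `g` is a smooth extension of `f` -/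
structure Ext {S : Set V} (f : Sm S) (g : V → ℂ) : Prop where
  smooth : ContDiff ℝ ∞ g
  eq : ∀ x : S, f.1 x = g x

theorem exists_ext {S : Set V} (f : Sm S) : ∃ g, Ext f g :=
  let ⟨g, h1, h2⟩ := f.2
  ⟨g, h1, h2⟩

/-- the restriction of a smooth function -/
def res (S : Set V) (g : V → ℂ) (hg : ContDiff ℝ ∞ g) : Sm S := ⟨fun x => g x, g, hg, fun _ => rfl⟩

theorem ext_res (S : Set V) (g : V → ℂ) (hg : ContDiff ℝ ∞ g) : Ext (res S g hg) g :=
  ⟨hg, fun _ => rfl⟩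

theorem g2a_diff {g : V → ℂ} (hg : ContDiff ℝ ∞ g) (x : V) : DifferentiableAt ℝ g x :=
  (hg.differentiable (by simp)) x

theorem g2a_congr (R : Ret V) {f : Sm R.S} {g g' : V → ℂ} (h : Ext f g) (h' : Ext f g')
    {x : V} (hx : x ∈ R.S) {u : V} (hu : R.P x u = u) : fderiv ℝ g x u = fderiv ℝ g' x u :=
  Wein.Tan.fderiv_congr ((R.mem_tan hx u).2 hu) (g2a_diff h.smooth x) (g2a_diff h'.smooth x)
    (Eventually.of_forall fun y hy => (h.eq ⟨y, hy⟩).symm.trans (h'.eq ⟨y, hy⟩))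

theorem g2a_smooth (R : Ret V) (v : V) {g : V → ℂ} (hg : ContDiff ℝ ∞ g) :
    ContDiff ℝ ∞ fun x => fderiv ℝ g x (R.P x v) :=
  (hg.fderiv_right (m := ∞) (by simp)).clm_apply (R.P_smooth.clm_apply contDiff_const)

theorem g2a_add {S : Set V} {f f' : Sm S} {g g' : V → ℂ} (h : Ext f g) (h' : Ext f' g') :
    Ext (f + f') (g + g') :=
  ⟨h.smooth.add h'.smooth, fun x => by
    show f.1 x + f'.1 x = g x + g' x
    rw [h.eq, h'.eq]⟩

theorem g2a_mul {S : Set V} {f f' : Sm S} {g g' : V → ℂ} (h : Ext f g) (h' : Ext f' g') :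
    Ext (f * f') (g * g') :=
  ⟨h.smooth.mul h'.smooth, fun x => by
    show f.1 x * f'.1 x = g x * g' x
    rw [h.eq, h'.eq]⟩

theorem g2a_smul {S : Set V} {f : Sm S} {g : V → ℂ} (h : Ext f g) (c : ℂ) :
    Ext (c • f) (c • g) :=
  ⟨h.smooth.const_smul c, fun x => by
    show c * f.1 x = c * g x
    rw [h.eq]⟩

theorem g2a_star {S : Set V} {f : Sm S} {g : V → ℂ} (h : Ext f g) :
    Ext (star f) fun x => Complex.conjCLE (g x) :=
  ⟨Complex.conjCLE.contDiff.comp h.smooth, fun x => by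
    show star (f.1 x) = _
    rw [h.eq]; rfl⟩

/-- the derivative along the tangential part of `v`, through a chosen extension -/
def g2a_D (R : Ret V) (v : V) (f : Sm R.S) : Sm R.S :=
  res R.S (fun x => fderiv ℝ (exists_ext f).choose x (R.P x v))
    (g2a_smooth R v (exists_ext f).choose_spec.smooth)

theorem g2a_D_ext (R : Ret V) (v : V) {f : Sm R.S} {g : V → ℂ} (h : Ext f g) :
    Ext (g2a_D R v f) fun x => fderiv ℝ g x (R.P x v) :=
  ⟨g2a_smooth R v h.smooth, fun x =>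
    g2a_congr R (exists_ext f).choose_spec h x.2 (R.P_idem x.2 v)⟩

theorem exists_pdA (R : Ret V) (v : V) : ∃ δ : Derivation ℂ (Sm R.S) (Sm R.S),
    ∀ f g, Ext f g → Ext (δ f) fun x => fderiv ℝ g x (R.P x v) := by
  refine ⟨Derivation.mk'
    { toFun := g2a_D R v
      map_add' := fun a b => ?_
      map_smul' := fun c a => ?_ } fun a b => ?_, fun f g h => g2a_D_ext R v h⟩
  · obtain ⟨g, hg⟩ := exists_ext a
    obtain ⟨g', hg'⟩ := exists_ext b
    refine Subtype.ext (funext fun x => ?_)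
    show (g2a_D R v (a + b)).1 x = (g2a_D R v a).1 x + (g2a_D R v b).1 x
    rw [(g2a_D_ext R v (g2a_add hg hg')).eq, (g2a_D_ext R v hg).eq, (g2a_D_ext R v hg').eq,
      fderiv_add (g2a_diff hg.smooth x) (g2a_diff hg'.smooth x)]
    rfl
  · obtain ⟨g, hg⟩ := exists_ext a
    refine Subtype.ext (funext fun x => ?_)
    show (g2a_D R v (c • a)).1 x = c * (g2a_D R v a).1 x
    rw [(g2a_D_ext R v (g2a_smul hg c)).eq, (g2a_D_ext R v hg).eq,
      fderiv_const_smul (g2a_diff hg.smooth x)]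
    rfl
  · obtain ⟨g, hg⟩ := exists_ext a
    obtain ⟨g', hg'⟩ := exists_ext b
    refine Subtype.ext (funext fun x => ?_)
    show (g2a_D R v (a * b)).1 x = a.1 x * (g2a_D R v b).1 x + b.1 x * (g2a_D R v a).1 x
    rw [(g2a_D_ext R v (g2a_mul hg hg')).eq, (g2a_D_ext R v hg).eq, (g2a_D_ext R v hg').eq,
      fderiv_mul (g2a_diff hg.smooth x) (g2a_diff hg'.smooth x), hg.eq, hg'.eq]
    rfl

/-- the derivative in the direction of the tangential part of `v` -/
def pdA (R : Ret V) (v : V) : Derivation ℂ (Sm R.S) (Sm R.S) := (exists_pdA R v).choose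

theorem pdA_ext (R : Ret V) (v : V) {f : Sm R.S} {g : V → ℂ} (h : Ext f g) :
    Ext (pdA R v f) fun x => fderiv ℝ g x (R.P x v) := (exists_pdA R v).choose_spec f g h

/-- `δ` is at each point the derivative along a complex tangent vector -/
def PtVF (R : Ret V) (δ : Derivation ℂ (Sm R.S) (Sm R.S)) : Prop :=
  ∀ x : R.S, ∃ u v : V, R.P x u = u ∧ R.P x v = v ∧ ∀ f g, Ext f g →
    (δ f).1 x = fderiv ℝ g x u + Complex.I * fderiv ℝ g x v

theorem cj_pdA (R : Ret V) (v : V) : cj (pdA R v) = pdA R v := by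
  refine Derivation.ext fun f => Subtype.ext (funext fun x => ?_)
  obtain ⟨g, hg⟩ := exists_ext f
  show star ((pdA R v (star f)).1 x) = (pdA R v f).1 x
  rw [(pdA_ext R v (g2a_star hg)).eq, (pdA_ext R v hg).eq]
  have h : fderiv ℝ (fun x => Complex.conjCLE (g x)) x =
      (Complex.conjCLE : ℂ →L[ℝ] ℂ).comp (fderiv ℝ g x) :=
    (Complex.conjCLE.hasFDerivAt.comp (x : V) (g2a_diff hg.smooth x).hasFDerivAt).fderiv
  rw [h]
  simp

theorem ptVF_pdA (R : Ret V) (v : V) : PtVF R (pdA R v) := fun x =>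
  ⟨R.P x v, 0, R.P_idem x.2 v, map_zero _, fun f g h => by
    rw [(pdA_ext R v h).eq, map_zero, mul_zero, add_zero]⟩

theorem g2a_DP (R : Ret V) {x : V} (hx : x ∈ R.S) {a : V} (ha : R.P x a = a) (w : V) :
    fderiv ℝ R.P x a (R.P x w) + R.P x (fderiv ℝ R.P x a w) = fderiv ℝ R.P x a w := by
  have hP : Differentiable ℝ R.P := R.P_smooth.differentiable (by simp)
  have h1 := (hP x).hasFDerivAt.clm_apply (R.hasFDerivAt_P_apply x w)
  have h2 := R.hasFDerivAt_P_apply x w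
  have h3 := Wein.Tan.fderiv_congr ((R.mem_tan hx a).2 ha) h1.differentiableAt h2.differentiableAt
    (Eventually.of_forall fun y hy => R.P_idem hy w)
  rw [h1.fderiv, h2.fderiv] at h3
  simpa [add_comm] using h3

theorem g2a_second (R : Ret V) {g : V → ℂ} (hg : ContDiff ℝ ∞ g) (x a w : V) :
    fderiv ℝ (fun y => fderiv ℝ g y (R.P y w)) x a =
      fderiv ℝ (fderiv ℝ g) x a (R.P x w) + fderiv ℝ g x (fderiv ℝ R.P x a w) := by
  have hD : Differentiable ℝ (fderiv ℝ g) :=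
    (hg.fderiv_right (m := ∞) (by simp)).differentiable (by simp)
  have h1 := (hD x).hasFDerivAt.clm_apply (R.hasFDerivAt_P_apply x w)
  rw [h1.fderiv]
  simp [add_comm]

theorem ptVF_lie (R : Ret V) (v w : V) : PtVF R ⁅pdA R v, pdA R w⁆ := by
  intro x
  refine ⟨fderiv ℝ R.P x (R.P x v) w - fderiv ℝ R.P x (R.P x w) v, 0, ?_, map_zero _,
    fun f g h => ?_⟩
  · have h1 := g2a_DP R x.2 (R.P_idem x.2 v) w
    have h2 := g2a_DP R x.2 (R.P_idem x.2 w) v
    rw [R.DP_comm x (R.P x w) (R.P x v)] at h2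
    rw [map_sub, eq_sub_of_add_eq' h1, eq_sub_of_add_eq' h2]
    abel
  · have hsym : IsSymmSndFDerivAt ℝ g x :=
      h.smooth.contDiffAt.isSymmSndFDerivAt (by
        rw [minSmoothness_of_isRCLikeNormedField]; exact ENat.LEInfty.out)
    rw [Derivation.commutator_apply]
    show (pdA R v (pdA R w f)).1 x - (pdA R w (pdA R v f)).1 x = _
    rw [(pdA_ext R v (pdA_ext R w h)).eq, (pdA_ext R w (pdA_ext R v h)).eq,
      g2a_second R h.smooth, g2a_second R h.smooth, hsym.eq (R.P x v) (R.P x w), map_sub, map_zero]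
    ring

theorem PtVF.add {R : Ret V} {δ δ' : Derivation ℂ (Sm R.S) (Sm R.S)} (h : PtVF R δ)
    (h' : PtVF R δ') : PtVF R (δ + δ') := by
  intro x
  obtain ⟨u, v, hu, hv, e⟩ := h x
  obtain ⟨u', v', hu', hv', e'⟩ := h' x
  refine ⟨u + u', v + v', by rw [map_add, hu, hu'], by rw [map_add, hv, hv'], fun f g hg => ?_⟩
  show (δ f).1 x + (δ' f).1 x = _
  rw [e f g hg, e' f g hg, map_add, map_add]
  ring

theorem g2a_key {R : Ret V} {δ δ' : Derivation ℂ (Sm R.S) (Sm R.S)} (h : PtVF R δ)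
    (c : R.S → ℂ) (hc : ∀ f x, (δ' f).1 x = c x * (δ f).1 x) : PtVF R δ' := by
  intro x
  obtain ⟨u, v, hu, hv, e⟩ := h x
  refine ⟨(c x).re • u - (c x).im • v, (c x).im • u + (c x).re • v,
    by rw [map_sub, map_smul, map_smul, hu, hv], by rw [map_add, map_smul, map_smul, hu, hv],
    fun f g hg => ?_⟩
  rw [hc, e f g hg, map_sub, map_add, map_smul, map_smul, map_smul, map_smul]
  simp only [Complex.real_smul]
  have h1 := Complex.re_add_im (c x)
  have h2 := Complex.I_mul_I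
  linear_combination (-(fderiv ℝ g x u + Complex.I * fderiv ℝ g x v)) * h1 +
    ((c x).im : ℂ) * fderiv ℝ g x v * h2

theorem PtVF.csmul {R : Ret V} {δ : Derivation ℂ (Sm R.S) (Sm R.S)} (h : PtVF R δ) (c : ℂ) :
    PtVF R (c • δ) := g2a_key h (fun _ => c) fun _ _ => rfl

theorem PtVF.smul {R : Ret V} {δ : Derivation ℂ (Sm R.S) (Sm R.S)} (h : PtVF R δ) (f : Sm R.S) :
    PtVF R (f • δ) := g2a_key h f.1 fun _ _ => rfl

theorem PtVF.sum {R : Ret V} {ι : Type} (s : Finset ι) {δ : ι → Derivation ℂ (Sm R.S) (Sm R.S)}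
    (h : ∀ i ∈ s, PtVF R (δ i)) : PtVF R (∑ i ∈ s, δ i) := by
  classical
  induction s using Finset.induction_on with
  | empty =>
    intro x
    refine ⟨0, 0, map_zero _, map_zero _, fun f g _ => ?_⟩
    rw [Finset.sum_empty, map_zero, mul_zero, add_zero]
    rfl
  | insert a s ha ih =>
    rw [Finset.sum_insert ha]
    exact (h a (Finset.mem_insert_self a s)).add
      (ih fun i hi => h i (Finset.mem_insert_of_mem hi))

variable [FiniteDimensional ℝ V]

/-- a function that is smooth near a compact set -/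
theorem mem_Sm_of_open {S O : Set V} (hS : IsCompact S) (hO : IsOpen O) (h : S ⊆ O) {g : V → ℂ}
    (hg : ContDiffOn ℝ ∞ g O) : (fun x : S => g x) ∈ Sm S := by
  obtain ⟨K, hK, hSK, hKO⟩ := exists_compact_between hS hO h
  obtain ⟨χ, hχ, h0, h1⟩ : ∃ χ : V → ℝ, ContDiff ℝ ∞ χ ∧ (∀ x ∈ (interior K)ᶜ, χ x = 0) ∧
      ∀ x ∈ S, χ x = 1 := by
    obtain ⟨χ, h0, h1, -⟩ := exists_contMDiffMap_zero_one_of_isClosed (n := ⊤)
      (modelWithCornersSelf ℝ V) (isOpen_interior (s := K)).isClosed_compl hS.isClosed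
      (Set.disjoint_left.2 fun x hx hx' => hx (hSK hx'))
    exact ⟨χ, χ.contMDiff.contDiff, fun x hx => h0 hx, fun x hx => h1 hx⟩
  refine ⟨fun x => χ x • g x, ?_, fun x => by simp [h1 x x.2]⟩
  refine contDiff_iff_contDiffAt.2 fun x => ?_
  by_cases hx : x ∈ O
  · exact hχ.contDiffAt.smul (hg.contDiffAt (hO.mem_nhds hx))
  · have hxK : x ∈ Kᶜ := fun hk => hx (hKO hk)
    refine (contDiffAt_const (c := (0 : ℂ))).congr_of_eventuallyEq ?_
    filter_upwards [hK.isClosed.isOpen_compl.mem_nhds hxK] with y hy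
    rw [h0 y fun hy' => hy (interior_subset hy'), zero_smul]

theorem exists_inv_sqrt {S : Set V} (hS : IsCompact S) (f : Sm S)
    (h : ∀ x, 0 < (f.1 x).re ∧ (f.1 x).im = 0) : ∃ σ : Sm S, star σ = σ ∧ σ ^ 2 * f = 1 := by
  obtain ⟨g, hg⟩ := exists_ext f
  have hre : ContDiff ℝ ∞ fun x => (g x).re := Complex.reCLM.contDiff.comp hg.smooth
  have hO : IsOpen {x | 0 < (g x).re} := isOpen_lt continuous_const hre.continuous
  have hσ : ContDiffOn ℝ ∞ (fun x => (((Real.sqrt (g x).re)⁻¹ : ℝ) : ℂ)) {x | 0 < (g x).re} :=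
    Complex.ofRealCLM.contDiff.comp_contDiffOn
      ((hre.contDiffOn.sqrt fun x hx => ne_of_gt hx).inv fun x hx => (Real.sqrt_pos.2 hx).ne')
  refine ⟨⟨_, mem_Sm_of_open hS hO (fun x hx => ?_) hσ⟩, Subtype.ext (funext fun x => ?_),
    Subtype.ext (funext fun x => ?_)⟩
  · have h1 := (h ⟨x, hx⟩).1
    rwa [hg.eq] at h1
  · exact Complex.conj_ofReal _
  · obtain ⟨h1, h2⟩ := h x
    show (((Real.sqrt (g x).re)⁻¹ : ℝ) : ℂ) ^ 2 * f.1 x = 1
    rw [← hg.eq x]
    have h3 : f.1 x = ((f.1 x).re : ℂ) := Complex.ext rfl h2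
    have h4 : ((Real.sqrt (f.1 x).re)⁻¹) ^ 2 * (f.1 x).re = 1 := by
      rw [inv_pow, Real.sq_sqrt h1.le, inv_mul_cancel₀ h1.ne']
    nth_rewrite 2 [h3]
    exact_mod_cast h4

end sm

end Pool.Agent.HCF
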