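import Pool.Agent.P.MP_f644fa_ag.G3a

/-! The elliptic theorem for the ring of smooth functions. -/

noncomputable section
namespace Pool.Agent.HCF
open Module Set Filter Topology MeasureTheory
open scoped ContDiff InnerProductSpace
open Pool.Agent.Wein (Ret Tan)

variable {M m : ℕ} {R : Ret (VV M)} {μ : Measure (VV M)} {int : Sm R.S →ₗ[ℂ] ℂ}

theorem g3_comp {ι : Type} [Fintype ι] (f : HT.CF (VV M) (EuclideanSpace ℂ ι)) (J : ι) :
    ContDiff ℝ ∞ fun x => f.1 x J :=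
  ((EuclideanSpace.proj J : _ →L[ℂ] ℂ).restrictScalars ℝ).contDiff.comp f.smooth

/-- components of a vector valued function -/
def g3_map (R : Ret (VV M)) (ι : Type) [Fintype ι] :
    HT.CF (VV M) (EuclideanSpace ℂ ι) →ₗ[ℂ] (ι → Sm R.S) where
  toFun f J := res R.S (fun x => f.1 x J) (g3_comp f J)
  map_add' _ _ := rfl
  map_smul' _ _ := rfl

/-- the dictionary between the two models of sections -/
theorem exists_dict (R : Ret (VV M)) (ι : Type) [Fintype ι] :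
    ∃ Ψ : HT.Sec R.S (EuclideanSpace ℂ ι) ≃ₗ[ℂ] (ι → Sm R.S),
      ∀ (f : HT.CF (VV M) (EuclideanSpace ℂ ι)) (J : ι),
        Ext (Ψ (HT.Sec.mk R.S f) J) fun x => f.1 x J := by
  have hk : HT.Z0 R.S (EuclideanSpace ℂ ι) = LinearMap.ker (g3_map R ι) := by
    ext f
    constructor
    · intro h
      funext J
      refine Subtype.ext (funext fun x => ?_)
      change f.1 x J = 0
      rw [h x x.2]
      rfl
    · intro h x hx
      ext J
      exact congrArg (fun u : ι → Sm R.S => (u J).1 ⟨x, hx⟩) h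
  have hs : Function.Surjective (g3_map R ι) := fun u => by
    choose g hg using fun J => exists_ext (u J)
    refine ⟨HT.CF.mk (fun x => WithLp.toLp 2 fun J => g J x)
      ((contDiff_piLp 2).2 fun J => (hg J).smooth), funext fun J => ?_⟩
    exact Subtype.ext (funext fun x => ((hg J).eq x).symm)
  exact ⟨(Submodule.quotEquivOfEq _ _ hk).trans ((g3_map R ι).quotKerEquivOfSurjective hs),
    fun f J => ext_res _ _ (g3_comp f J)⟩

section dict
variable {ι : Type} [Fintype ι] {Ψ : HT.Sec R.S (EuclideanSpace ℂ ι) ≃ₗ[ℂ] (ι → Sm R.S)}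
  (hΨ : ∀ (f : HT.CF (VV M) (EuclideanSpace ℂ ι)) (J : ι),
    Ext (Ψ (HT.Sec.mk R.S f) J) fun x => f.1 x J)
include hΨ

theorem g3_ip (hμ : HT.IsVol R.S m μ) (hi : ∀ f g, Ext f g → int f = ∫ x, g x ∂μ)
    (u w : HT.Sec R.S (EuclideanSpace ℂ ι)) : HT.Sec.ip μ u w = ipE int (Ψ u) (Ψ w) := by
  obtain ⟨f, rfl⟩ := u.exists_mk
  obtain ⟨g, rfl⟩ := w.exists_mk
  rw [HT.Sec.ip_mk hμ]
  refine (hi _ _ ⟨f.smooth.inner ℂ g.smooth, fun x => ?_⟩).symm
  rw [PiLp.inner_apply, hp, AddSubmonoidClass.coe_finsetSum, Finset.sum_apply]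
  refine Finset.sum_congr rfl fun J _ => ?_
  change star ((Ψ (HT.Sec.mk R.S f) J).1 x) * (Ψ (HT.Sec.mk R.S g) J).1 x = _
  rw [(hΨ f J).eq x, (hΨ g J).eq x, mul_comm]
  rfl

theorem g3_pd (v : VV M) :
    Ψ.symm.conjAlgEquiv ℂ (dE ι (pdA R v)) = HT.Sec.pd R (EuclideanSpace ℂ ι) v := by
  refine HT.Sec.ext_mk fun f => ?_
  refine Ψ.symm_apply_eq.2 (funext fun J => Subtype.ext (funext fun x => ?_))
  refine ((pdA_ext R v (hΨ f J)).eq x).trans (Eq.trans ?_ ((hΨ (HT.CF.pd R v f) J).eq x).symm)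
  have h := ((EuclideanSpace.proj J : _ →L[ℂ] ℂ).restrictScalars ℝ).hasFDerivAt.comp (x : VV M)
    (f.diff x).hasFDerivAt
  exact congrArg (· (R.P x v)) h.fderiv

theorem g3_mE [DecidableEq ι] (A : Matrix ι ι (Sm R.S)) :
    ∃ B : VV M → EuclideanSpace ℂ ι →L[ℂ] EuclideanSpace ℂ ι, ContDiff ℝ ∞ B ∧
      Ψ.symm.conjAlgEquiv ℂ (mE A) = HT.Sec.mul R.S B := by
  choose g hg using fun I J => exists_ext (A I J)
  have hB : ContDiff ℝ ∞ fun x => ∑ I, ∑ J, g I J x •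
      (EuclideanSpace.proj J : EuclideanSpace ℂ ι →L[ℂ] ℂ).smulRight
        (EuclideanSpace.single I (1 : ℂ)) :=
    ContDiff.sum fun I _ => ContDiff.sum fun J _ => (hg I J).smooth.smul contDiff_const
  refine ⟨_, hB, HT.Sec.ext_mk fun f => ?_⟩
  rw [HT.Sec.mul_mk hB]
  refine Ψ.symm_apply_eq.2 (funext fun I => Subtype.ext (funext fun x => ?_))
  refine Eq.trans ?_ ((hΨ _ I).eq x).symm
  change (∑ J, A I J * Ψ (HT.Sec.mk R.S f) J).1 x = _
  rw [AddSubmonoidClass.coe_finsetSum, Finset.sum_apply]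
  have h : ∀ J, (A I J * Ψ (HT.Sec.mk R.S f) J).1 x = g I J x * f.1 x J := fun J => by
    rw [← (hg I J).eq x, ← (hΨ f J).eq x]
    rfl
  simp [h, Pi.single_apply]

end dict

theorem g3_dE {𝒜 ι E : Type} [CommRing 𝒜] [Algebra ℂ 𝒜] [Semiring E] [Algebra ℂ E]
    (T : End ℂ (ι → 𝒜) ≃ₐ[ℂ] E) (a b : ℂ) (δ δ' : Derivation ℂ 𝒜 𝒜) :
    T (dE ι (a • (δ + b • δ'))) = a • (T (dE ι δ) + b • T (dE ι δ')) ∧
      T (dE ι (a • (δ - b • δ'))) = a • (T (dE ι δ) + (-b) • T (dE ι δ')) := by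
  rw [← map_smul, ← map_smul, ← map_add, ← map_add, ← map_smul, ← map_smul]
  refine ⟨rfl, congrArg T (LinearMap.ext fun w => funext fun J => ?_)⟩
  simp [dE_apply, sub_eq_add_neg]

theorem g3_lap {E : Type} [Semiring E] [Algebra ℂ E] (X Y : E) :
    (2 : ℂ) • ((2⁻¹ : ℂ) • (X + (-Complex.I) • Y) * (2⁻¹ : ℂ) • (X + Complex.I • Y) +
      (2⁻¹ : ℂ) • (X + Complex.I • Y) * (2⁻¹ : ℂ) • (X + (-Complex.I) • Y)) = Y * Y + X * X := by
  simp only [smul_mul_assoc, mul_smul_comm, add_mul, mul_add]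
  match_scalars
  all_goals first | ring1 | linear_combination (-1 : ℂ) * Complex.I_mul_I

theorem g3_smul {F A : Type} [NormedAddCommGroup F] [InnerProductSpace ℂ F] [Fintype A]
    {b : OrthonormalBasis A ℝ (VV M)} {L : End ℂ (HT.Sec R.S F)} (h : HT.IsD1 R b L) (c : ℂ) :
    HT.IsD1 R b (c • L) := by
  have h1 := h.mul_left (M := fun _ => c • (1 : F →L[ℂ] F)) contDiff_const
  rwa [HT.Sec.mul_smul' c contDiff_const, HT.Sec.mul_one', smul_mul_assoc, one_mul] at h1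

theorem intA_ell (hμ : HT.IsVol R.S m μ) (hi : ∀ f g, Ext f g → int f = ∫ x, g x ∂μ)
    (ι : Type) [Fintype ι] [DecidableEq ι] (L : End ℂ (ι → Sm R.S))
    (h1 : ∀ u w, ipE int (L u) w = ipE int u (L w)) (h2 : ∀ u, 0 ≤ (ipE int (L u) u).re)
    (h3 : L + Lap (WA R) ι ∈ D1 (WA R) ι) (u : ι → Sm R.S) :
    ∃ h w, L h = 0 ∧ u = h + L w := by
  obtain ⟨Ψ, hΨ⟩ := exists_dict R ι
  obtain ⟨b, hb⟩ := exists_onb M
  have hp := g3_pd hΨ
  have hm := g3_mE hΨ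
  have hTa : ∀ X v, Ψ (Ψ.symm.conjAlgEquiv ℂ X v) = X (Ψ v) := fun X v => Ψ.apply_symm_apply _
  generalize Ψ.symm.conjAlgEquiv ℂ = T at hp hm hTa
  have hW : ∀ l, T (dE ι (WA R l)) = (2⁻¹ : ℂ) • (HT.Sec.pd R _ (b (l, false)) +
      (-Complex.I) • HT.Sec.pd R _ (b (l, true))) := fun l => by
    rw [← hp (b (l, false)), ← hp (b (l, true)), (hb l).1, (hb l).2]
    exact (g3_dE T _ _ _ _).2
  have hW' : ∀ l, T (dE ι (cj (WA R l))) = (2⁻¹ : ℂ) • (HT.Sec.pd R _ (b (l, false)) +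
      Complex.I • HT.Sec.pd R _ (b (l, true))) := fun l => by
    rw [cj_WA, ← hp (b (l, false)), ← hp (b (l, true)), (hb l).1, (hb l).2]
    exact (g3_dE T _ _ _ _).1
  have hD : ∀ X ∈ D1 (WA R) ι, HT.IsD1 R b (T X) := fun X hX => by
    induction hX using Submodule.span_induction with
    | mem X hX =>
      obtain ⟨A, hA⟩ := hX
      obtain ⟨B, hB, e⟩ := hm A
      rcases hA with rfl | ⟨l, rfl | rfl⟩
      · rw [e]
        exact HT.IsD1.mul hB
      · rw [map_mul, e, hW]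
        exact (g3_smul ((HT.IsD1.pd _).add (g3_smul (HT.IsD1.pd _) _)) _).mul_left hB
      · rw [map_mul, e, hW']
        exact (g3_smul ((HT.IsD1.pd _).add (g3_smul (HT.IsD1.pd _) _)) _).mul_left hB
    | zero => rw [map_zero]; exact HT.IsD1.zero
    | add X Y _ _ hX hY => rw [map_add]; exact hX.add hY
    | smul c X _ hX => rw [map_smul]; exact g3_smul hX c
  have hLap : T (Lap (WA R) ι) = ∑ a, HT.Sec.pd R _ (b a) * HT.Sec.pd R _ (b a) := by
    rw [Lap, map_sum, Fintype.sum_prod_type]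
    refine Finset.sum_congr rfl fun l _ => ?_
    rw [map_smul, map_add, map_mul, map_mul, hW, hW', Fintype.sum_bool]
    exact g3_lap _ _
  obtain ⟨h, w, e1, e2⟩ := HT.ell R hμ b (T L)
    (fun u w => by rw [g3_ip hΨ hμ hi, g3_ip hΨ hμ hi, hTa, hTa, h1])
    (fun u => by rw [g3_ip hΨ hμ hi, hTa]; exact h2 _)
    (by rw [← hLap, ← map_add]; exact hD _ h3) (Ψ.symm u)
  refine ⟨Ψ h, Ψ w, by rw [← hTa, e1, map_zero], ?_⟩
  rw [← hTa, ← map_add, ← e2, Ψ.apply_symm_apply]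

end Pool.Agent.HCF
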