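import Pool.Agent.P.MP_f644fa_ag.G1
import Pool.Agent.P.MP_f644fa_ag.G2
import Pool.Agent.P.MP_65ad7c_ag.HEll

/-! Integration, the divergence theorem and the elliptic theorem for the ring of smooth functions. -/

noncomputable section
namespace Pool.Agent.HCF
open Module Set Filter Topology MeasureTheory
open scoped ContDiff InnerProductSpace
open Pool.Agent.Wein (Ret Tan)

variable {M m : ℕ} {R : Ret (VV M)} {μ : Measure (VV M)}

theorem g3a_congr (hμ : HT.IsVol R.S m μ) {f : Sm R.S} {g g' : VV M → ℂ} (h : Ext f g)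
    (h' : Ext f g') : ∫ x, g x ∂μ = ∫ x, g' x ∂μ := by
  refine integral_congr_ae ?_
  filter_upwards [hμ.ae_mem] with x hx
  exact (h.eq ⟨x, hx⟩).symm.trans (h'.eq ⟨x, hx⟩)

theorem exists_int (hμ : HT.IsVol R.S m μ) :
    ∃ int : Sm R.S →ₗ[ℂ] ℂ, ∀ f g, Ext f g → int f = ∫ x, g x ∂μ := by
  choose e he using fun f : Sm R.S => exists_ext f
  refine ⟨⟨⟨fun f => ∫ x, e f x ∂μ, fun f f' => ?_⟩, fun c f => ?_⟩,
    fun f g h => g3a_congr hμ (he f) h⟩
  · have h1 : Ext (f + f') fun x => e f x + e f' x :=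
      ⟨(he f).smooth.add (he f').smooth, fun x => by
        rw [← (he f).eq x, ← (he f').eq x]; rfl⟩
    rw [g3a_congr hμ (he _) h1]
    exact integral_add (hμ.integrable R.compact (he f).smooth.continuous)
      (hμ.integrable R.compact (he f').smooth.continuous)
  · have h1 : Ext (c • f) fun x => c • e f x :=
      ⟨(he f).smooth.const_smul c, fun x => by rw [← (he f).eq x]; rfl⟩
    show ∫ x, e (c • f) x ∂μ = c • ∫ x, e f x ∂μ
    rw [g3a_congr hμ (he _) h1]
    exact integral_smul c _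

variable {int : Sm R.S →ₗ[ℂ] ℂ}

theorem g3a_star {f : Sm R.S} {g : VV M → ℂ} (h : Ext f g) :
    Ext (star f) fun x => starRingEnd ℂ (g x) :=
  ⟨Complex.conjCLE.contDiff.comp h.smooth, fun x => by rw [← h.eq x]; rfl⟩

theorem intA_star (hi : ∀ f g, Ext f g → int f = ∫ x, g x ∂μ) (f : Sm R.S) :
    int (star f) = star (int f) := by
  obtain ⟨g, hg⟩ := exists_ext f
  rw [hi _ _ (g3a_star hg), hi _ _ hg, integral_conj]
  rfl

theorem g3a_sq (hi : ∀ f g, Ext f g → int f = ∫ x, g x ∂μ) {f : Sm R.S} {g : VV M → ℂ}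
    (hg : Ext f g) : (int (star f * f)).re = ∫ x, ‖g x‖ ^ 2 ∂μ := by
  have h1 : Ext (star f * f) fun x => starRingEnd ℂ (g x) * g x :=
    ⟨(g3a_star hg).smooth.mul hg.smooth, fun x => by rw [← hg.eq x]; rfl⟩
  have h2 : ∀ x, starRingEnd ℂ (g x) * g x = ((‖g x‖ ^ 2 : ℝ) : ℂ) := fun x => by
    rw [Complex.conj_mul', Complex.ofReal_pow]
  rw [hi _ _ h1]
  simp only [h2]
  rw [integral_complex_ofReal, Complex.ofReal_re]

theorem intA_nonneg (hi : ∀ f g, Ext f g → int f = ∫ x, g x ∂μ) (f : Sm R.S) :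
    0 ≤ (int (star f * f)).re := by
  obtain ⟨g, hg⟩ := exists_ext f
  rw [g3a_sq hi hg]
  exact integral_nonneg fun x => by positivity

theorem intA_def (hμ : HT.IsVol R.S m μ) (hi : ∀ f g, Ext f g → int f = ∫ x, g x ∂μ) (f : Sm R.S)
    (h : (int (star f * f)).re = 0) : f = 0 := by
  obtain ⟨g, hg⟩ := exists_ext f
  have hc : Continuous fun x => ‖g x‖ ^ 2 := hg.smooth.continuous.norm.pow 2
  rw [g3a_sq hi hg, integral_eq_zero_iff_of_nonneg (fun x => by positivity)
    (hμ.integrable R.compact hc)] at h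
  refine Subtype.ext (funext fun x => ?_)
  have h1 := hμ.eq_zero hc.continuousOn h x x.2
  rw [hg.eq x]
  exact norm_eq_zero.1 (pow_eq_zero_iff two_ne_zero |>.1 h1)

/-- the real orthonormal basis `e_l`, `i e_l` -/
theorem exists_onb (M : ℕ) : ∃ b : OrthonormalBasis (Fin M × Bool) ℝ (VV M),
    ∀ l, b (l, false) = EuclideanSpace.single l 1 ∧
      b (l, true) = EuclideanSpace.single l Complex.I := by
  refine ⟨(Pi.orthonormalBasis fun _ : Fin M =>
    Complex.orthonormalBasisOneI.reindex finTwoEquiv).reindex (Equiv.sigmaEquivProd _ _),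
    fun l => ⟨?_, ?_⟩⟩
  · rw [OrthonormalBasis.reindex_apply, Pi.orthonormalBasis_apply]
    simp [finTwoEquiv]
  · rw [OrthonormalBasis.reindex_apply, Pi.orthonormalBasis_apply]
    simp [finTwoEquiv]

theorem g3a_inner (l : Fin M) (x : VV M) :
    ⟪(EuclideanSpace.single l 1 : VV M), x⟫_ℝ = (x l).re ∧
      ⟪(EuclideanSpace.single l Complex.I : VV M), x⟫_ℝ = (x l).im := by
  constructor
  · rw [PiLp.inner_apply, Finset.sum_eq_single l]
    · simp
    · intro j _ hj
      simp [hj]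
    · simp
  · rw [PiLp.inner_apply, Finset.sum_eq_single l]
    · simp
    · intro j _ hj
      simp [hj]
    · simp

/-- a real linear coordinate -/
def g3a_co (v : VV M) : VV M →L[ℝ] ℂ := Complex.ofRealCLM.comp (innerSL ℝ v)

theorem g3a_co_apply (v x : VV M) : g3a_co v x = ((⟪v, x⟫_ℝ : ℝ) : ℂ) := rfl

theorem intA_div (hμ : HT.IsVol R.S m μ) (hi : ∀ f g, Ext f g → int f = ∫ x, g x ∂μ)
    (δ : Derivation ℂ (Sm R.S) (Sm R.S)) (h : IsVF (xA R.S) (WA R) δ) :
    int (∑ l, (WA R l (δ (xA R.S l)) + cj (WA R l) (δ (star (xA R.S l))))) = 0 := by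
  obtain ⟨b, hb⟩ := exists_onb M
  let y : Fin M × Bool → Sm R.S := fun a => res R.S (g3a_co (b a)) (g3a_co (b a)).contDiff
  choose f hf using fun a => exists_ext (δ (y a))
  have e1 : ∀ l, xA R.S l = y (l, false) + Complex.I • y (l, true) := fun l =>
    Subtype.ext (funext fun x => by
      show x.1 l = g3a_co (b (l, false)) x + Complex.I * g3a_co (b (l, true)) x
      rw [g3a_co_apply, g3a_co_apply, (hb l).1, (hb l).2, (g3a_inner l x).1, (g3a_inner l x).2,
        mul_comm, Complex.re_add_im])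
  have e2 : ∀ l, star (xA R.S l) = y (l, false) - Complex.I • y (l, true) := fun l =>
    Subtype.ext (funext fun x => by
      show starRingEnd ℂ (x.1 l) = g3a_co (b (l, false)) x - Complex.I * g3a_co (b (l, true)) x
      rw [g3a_co_apply, g3a_co_apply, (hb l).1, (hb l).2, (g3a_inner l x).1, (g3a_inner l x).2]
      apply Complex.ext <;> simp)
  have e3 : ∑ l, (WA R l (δ (xA R.S l)) + cj (WA R l) (δ (star (xA R.S l)))) =
      ∑ a, pdA R (b a) (δ (y a)) := by
    rw [Fintype.sum_prod_type]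
    refine Finset.sum_congr rfl fun l _ => ?_
    rw [Fintype.sum_bool, cj_WA, e2, e1, WA, (hb l).1, (hb l).2]
    simp only [map_add, map_sub, Derivation.map_smul, Derivation.smul_apply, Derivation.add_apply,
      Derivation.sub_apply]
    match_scalars
    all_goals ring_nf
    all_goals simp
  have e4 : Ext (∑ a, pdA R (b a) (δ (y a))) fun x => ∑ a, fderiv ℝ (f a) x (R.P x (b a)) := by
    refine ⟨ContDiff.sum fun a _ => (pdA_ext R (b a) (hf a)).smooth, fun x => ?_⟩
    rw [AddSubmonoidClass.coe_finsetSum, Finset.sum_apply]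
    exact Finset.sum_congr rfl fun a _ => (pdA_ext R (b a) (hf a)).eq x
  rw [e3, hi _ _ e4]
  refine hμ.div R b f (fun a => (hf a).smooth) fun x hx a => ?_
  obtain ⟨u, v, hu, hv, huv⟩ := h.ptVF ⟨x, hx⟩
  have e5 : ∀ a, f a x = ((⟪b a, u⟫_ℝ : ℝ) : ℂ) + Complex.I * ((⟪b a, v⟫_ℝ : ℝ) : ℂ) := fun a => by
    have h1 := huv (y a) _ (ext_res R.S (g3a_co (b a)) (g3a_co (b a)).contDiff)
    rw [(hf a).eq ⟨x, hx⟩, ContinuousLinearMap.fderiv] at h1
    exact h1
  have e6 : ∀ w : VV M, R.P x w = w →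
      ∑ a', ((⟪R.P x (b a), b a'⟫_ℝ : ℝ) : ℂ) * ((⟪b a', w⟫_ℝ : ℝ) : ℂ) = ((⟪b a, w⟫_ℝ : ℝ) : ℂ) :=
    fun w hw => by
      have h1 := b.sum_inner_mul_inner (R.P x (b a)) w
      rw [R.P_symm hx (b a) w, hw] at h1
      exact_mod_cast h1
  simp only [e5, mul_add, Finset.sum_add_distrib, mul_left_comm _ Complex.I, ← Finset.mul_sum]
  rw [e6 u hu, e6 v hv]

end Pool.Agent.HCF
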