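import Pool.Agent.P.MP_f644fa_ag.G4a

/-! The calculus on the link of the cone. -/

noncomputable section
namespace Pool.Agent.HCF
open Module Set Filter Topology MeasureTheory Matrix
open scoped ContDiff InnerProductSpace
open Pool.Agent.Wein (Ret Tan)

variable {M : ℕ} {I : Ideal (SS M)} {c n : ℕ}

/-- What is used about the calculus on the link. -/
structure Geo (I : Ideal (SS M)) {n : ℕ} {S : Set (VV M)} (C : CR M n (Sm S)) : Prop where
  x : ∀ j y, (C.x j).1 y = y.1 j
  P_tan : ∀ (y : S) l, (fun j => (C.P j l).1 y) ∈ tangS I y.1.ofLp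
  P_fix : ∀ (y : S), ∀ v ∈ tangS I y.1.ofLp, ∀ j, ∑ l, (C.P j l).1 y * v l = v j
  T : ∀ f g, Ext f g → ∀ y : S, (C.T f).1 y = fderiv ℝ g y (Complex.I • y.1)
  Zb : ∀ f g, Ext f g → ∀ y : S, (∀ j, (C.Zb j f).1 y = 0) → ∀ v : VV M,
    v.ofLp ∈ tangS I y.1.ofLp → ⟪y.1, v⟫_ℂ = 0 →
      fderiv ℝ g y (Complex.I • v) = Complex.I * fderiv ℝ g y v

theorem g4_ext {S : Set (VV M)} {f g : Sm S} (h : ∀ x, f.1 x = g.1 x) : f = g :=
  Subtype.ext (funext h)

/-- evaluation at a point -/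
def g4ev {S : Set (VV M)} (x : S) : Sm S →+* ℂ where
  toFun f := f.1 x
  map_one' := rfl
  map_mul' _ _ := rfl
  map_zero' := rfl
  map_add' _ _ := rfl

theorem g4_sum {S : Set (VV M)} {ι : Type} (s : Finset ι) (f : ι → Sm S) (x : S) :
    (∑ i ∈ s, f i).1 x = ∑ i ∈ s, (f i).1 x := map_sum (g4ev x) f s

theorem g4_dsum {S : Set (VV M)} {ι : Type} (s : Finset ι)
    (δ : ι → Derivation ℂ (Sm S) (Sm S)) (f : Sm S) : (∑ i ∈ s, δ i) f = ∑ i ∈ s, δ i f := by
  classical
  induction s using Finset.induction_on with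
  | empty => simp
  | insert a s ha ih => rw [Finset.sum_insert ha, Finset.sum_insert ha, Derivation.add_apply, ih]

theorem g4_nat {S : Set (VV M)} (k : ℕ) (x : S) : ((k : Sm S)).1 x = k := map_natCast (g4ev x) k

theorem g4_re (y v : VV M) : ⟪y, v⟫_ℝ = (⟪y, v⟫_ℂ).re := by
  simp [PiLp.inner_apply, Complex.re_sum]

theorem g4_inner (y v : VV M) : ⟪y, v⟫_ℂ = ∑ j, star (y j) * v j := by
  simp [PiLp.inner_apply, mul_comm]

theorem g4_x_ext (S : Set (VV M)) (m : Fin M) : Ext (xA S m) fun y => y m := ext_res _ _ _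

theorem g4_fx (m : Fin M) (y v : VV M) : fderiv ℝ (fun y : VV M => y m) y v = v m := by
  have h := ((EuclideanSpace.proj m : VV M →L[ℂ] ℂ).restrictScalars ℝ).fderiv (x := y)
  have h' : fderiv ℝ (fun y : VV M => y m) y = _ := h
  rw [h']
  rfl

theorem g4_xb_ext (S : Set (VV M)) (m : Fin M) : Ext (star (xA S m)) fun y => star (y m) :=
  ⟨Complex.conjCLE.contDiff.comp
    ((EuclideanSpace.proj m : VV M →L[ℂ] ℂ).restrictScalars ℝ).contDiff, fun _ => rfl⟩

theorem g4_fxb (m : Fin M) (y v : VV M) :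
    fderiv ℝ (fun y : VV M => star (y m)) y v = star (v m) := by
  have h := ((Complex.conjCLE : ℂ →L[ℝ] ℂ).comp
    ((EuclideanSpace.proj m : VV M →L[ℂ] ℂ).restrictScalars ℝ)).fderiv (x := y)
  have h' : fderiv ℝ (fun y : VV M => star (y m)) y = _ := h
  rw [h']
  rfl

theorem g4_WA (R : Ret (VV M)) (l : Fin M) {f : Sm R.S} {g : VV M → ℂ} (h : Ext f g) (y : R.S) :
    (WA R l f).1 y = 2⁻¹ * (fderiv ℝ g y (R.P y (EuclideanSpace.single l 1)) -
      Complex.I * fderiv ℝ g y (R.P y (EuclideanSpace.single l Complex.I))) := by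
  rw [← (pdA_ext R _ h).eq y, ← (pdA_ext R _ h).eq y]
  rfl

section
variable (hX : IsManifold I c) (hM : M = n + 1 + c) {R : Ret (VV M)} (hR : R.S = Lk I)
  {y : VV M} (hy : y ∈ R.S)
include hX hM hR hy

theorem g4_sa (u v : VV M) : ⟪PT R y u, v⟫_ℂ = ⟪u, PT R y v⟫_ℂ := by
  have h1 := PT_orth hX hM hR hy v (PT_mem hX hM hR hy u)
  have h2 := PT_orth hX hM hR hy u (PT_mem hX hM hR hy v)
  rw [inner_sub_right, sub_eq_zero] at h1 h2
  rw [h1, ← inner_conj_symm u, h2, inner_conj_symm]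

theorem g4_self : y.ofLp ∈ tangS I y.ofLp := hX.self_mem_tang (show y ∈ Lk I from hR ▸ hy).1

theorem g4_Pfix {v : VV M} (hv : v.ofLp ∈ tangS I y.ofLp) (h0 : (⟪y, v⟫_ℂ).re = 0) :
    R.P y v = v := by
  have h := PT_fix hX hM hR hy hv
  rwa [PT, g4_re, h0, zero_smul, add_zero] at h

theorem g4_P1 (l m : Fin M) : R.P y (EuclideanSpace.single l 1) m =
    (PA R m l).1 ⟨y, hy⟩ - ((y l).re : ℂ) * y m := by
  have h : (PA R m l).1 ⟨y, hy⟩ = R.P y (EuclideanSpace.single l 1) m +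
      (⟪y, (EuclideanSpace.single l 1 : VV M)⟫_ℝ • y) m := rfl
  rw [h, g4_re, EuclideanSpace.inner_single_right]
  simp

theorem g4_PI (l m : Fin M) : R.P y (EuclideanSpace.single l Complex.I) m =
    Complex.I * (PA R m l).1 ⟨y, hy⟩ - ((y l).im : ℂ) * y m := by
  have h0 : (EuclideanSpace.single l Complex.I : VV M) =
      Complex.I • EuclideanSpace.single l 1 := by
    ext j
    by_cases h : j = l <;> simp [h]
  have h1 : PT R y (EuclideanSpace.single l Complex.I) m = Complex.I * (PA R m l).1 ⟨y, hy⟩ := by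
    rw [h0, PT_smul hX hM hR hy]
    rfl
  have h : PT R y (EuclideanSpace.single l Complex.I) m =
      R.P y (EuclideanSpace.single l Complex.I) m +
      (⟪y, (EuclideanSpace.single l Complex.I : VV M)⟫_ℝ • y) m := rfl
  rw [← h1, h, g4_re, EuclideanSpace.inner_single_right]
  simp

theorem g4_trace : ∑ j, (PA R j j).1 ⟨y, hy⟩ = ((n + 1 : ℕ) : ℂ) := by
  let A : Matrix (Fin M) (Fin M) ℂ := Matrix.of fun j k => (PA R j k).1 ⟨y, hy⟩
  have hA : ∀ v : Fin M → ℂ, Matrix.toLin' A v = (PT R y (WithLp.toLp 2 v)).ofLp := fun v => by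
    funext j
    exact (PT_eq hX hM hR hy (WithLp.toLp 2 v) j).symm
  have hp : LinearMap.IsProj (tangS I y.ofLp) (Matrix.toLin' A) :=
    ⟨fun v => hA v ▸ PT_mem hX hM hR hy _, fun v hv => by
      rw [hA, PT_fix hX hM hR hy (v := WithLp.toLp 2 v) hv]⟩
  have h1 := hp.trace
  rw [Matrix.trace_toLin'_eq] at h1
  have h2 := hX.finrank_tang (show y ∈ Lk I from hR ▸ hy).1
  have h3 : finrank ℂ (tangS I y.ofLp) = n + 1 := by omega
  rw [h3] at h1
  exact h1

end

theorem exists_CR0 (hX : IsManifold I c) (hM : M = n + 1 + c) {R : Ret (VV M)} (hR : R.S = Lk I)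
    {μ : Measure (VV M)} {m : ℕ} (hμ : HT.IsVol R.S m μ) :
    ∃ C : CR M n (Sm R.S), C.x = xA R.S ∧ C.P = PA R ∧ C.W = WA R := by
  obtain ⟨int, hi⟩ := exists_int hμ
  refine ⟨⟨xA R.S, PA R, WA R, int, ?_, ?_, ?_, ?_, ?_, ?_, ?_, fun l => (vf_WA R l l).1,
    fun l k => (vf_WA R l k).2.1, fun l k => (vf_WA R l k).2.2, intA_star hi, intA_nonneg hi,
    intA_def hμ hi, intA_div hμ hi, fun ι _ _ L h1 h2 h3 u => intA_ell hμ hi ι L h1 h2 h3 u⟩,
    rfl, rfl, rfl⟩
  · refine g4_ext fun y => ?_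
    rw [g4_sum]
    have h : ‖y.1‖ = 1 := (show y.1 ∈ Lk I from hR ▸ y.2).2
    have h2 : ⟪y.1, y.1⟫_ℂ = 1 := by rw [inner_self_eq_norm_sq_to_K, h]; simp
    rw [g4_inner] at h2
    exact h2
  · refine Matrix.ext fun j k => g4_ext fun y => ?_
    have h := g4_sa hX hM hR y.2 (EuclideanSpace.single j 1) (EuclideanSpace.single k 1)
    rw [EuclideanSpace.inner_single_right, EuclideanSpace.inner_single_left, map_one, one_mul,
      one_mul] at h
    exact h
  · refine Matrix.ext fun j k => g4_ext fun y => ?_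
    rw [Matrix.mul_apply, g4_sum]
    have h := PT_eq hX hM hR y.2 (PT R y.1 (EuclideanSpace.single k 1)) j
    rw [PT_fix hX hM hR y.2 (PT_mem hX hM hR y.2 _)] at h
    exact h.symm
  · funext j
    refine g4_ext fun y => ?_
    have h := PT_eq hX hM hR y.2 y.1 j
    rw [PT_fix hX hM hR y.2 (g4_self hX hM hR y.2)] at h
    rw [Matrix.mulVec, dotProduct, g4_sum]
    exact h.symm
  · refine g4_ext fun y => ?_
    rw [Matrix.trace, g4_sum, g4_nat]
    exact g4_trace hX hM hR y.2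
  · intro l k
    refine g4_ext fun y => ?_
    rw [g4_WA R l (g4_x_ext R.S k), g4_fx, g4_fx, g4_P1 hX hM hR y.2, g4_PI hX hM hR y.2]
    show _ = (PA R k l).1 y - (2⁻¹ : ℂ) * (star (y.1 l) * y.1 k)
    have h : star (y.1 l) = ((y.1 l).re : ℂ) - ((y.1 l).im : ℂ) * Complex.I := by
      apply Complex.ext <;> simp
    rw [h]
    linear_combination (-(2⁻¹ : ℂ) * (PA R k l).1 y) * Complex.I_mul_I
  · intro l k
    refine g4_ext fun y => ?_
    rw [g4_WA R l (g4_xb_ext R.S k), g4_fxb, g4_fxb, g4_P1 hX hM hR y.2, g4_PI hX hM hR y.2]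
    show _ = -((2⁻¹ : ℂ) * (star (y.1 l) * star (y.1 k)))
    have h : star (y.1 l) = ((y.1 l).re : ℂ) - ((y.1 l).im : ℂ) * Complex.I := by
      apply Complex.ext <;> simp
    rw [h]
    simp only [star_sub, star_mul', Complex.star_def, Complex.conj_ofReal, Complex.conj_I]
    linear_combination ((2⁻¹ : ℂ) * (starRingEnd ℂ) ((PA R k l).1 y)) * Complex.I_mul_I

theorem geo_of (hX : IsManifold I c) (hM : M = n + 1 + c) {R : Ret (VV M)} (hR : R.S = Lk I)
    (C : CR M n (Sm R.S)) (h1 : C.x = xA R.S) (h2 : C.P = PA R) (h3 : C.W = WA R) :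
    Geo I C := by
  refine ⟨fun j y => by rw [h1]; rfl, fun y l => ?_, fun y v hv j => ?_, fun f g h y => ?_,
    fun f g h y hz v hv h0 => ?_⟩
  · rw [h2]
    exact PT_mem hX hM hR y.2 (EuclideanSpace.single l 1)
  · have h := PT_eq hX hM hR y.2 (WithLp.toLp 2 v) j
    rw [PT_fix hX hM hR y.2 (v := WithLp.toLp 2 v) hv] at h
    rw [h2]
    exact h.symm
  · have hs := sum_WA R h y (Complex.I • y.1)
    rw [g4_Pfix hX hM hR y.2 (v := Complex.I • y.1)
      ((tangS I _).smul_mem _ (g4_self hX hM hR y.2))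
      (by rw [inner_smul_right, inner_self_eq_norm_sq_to_K]; simp [pow_two])] at hs
    rw [← hs, CR.T, g4_dsum, g4_sum, h1, h3]
    refine Finset.sum_congr rfl fun l _ => ?_
    show Complex.I * y.1 l * (WA R l f).1 y - Complex.I * star (y.1 l) * (cj (WA R l) f).1 y =
      Complex.I * y.1 l * (WA R l f).1 y + star (Complex.I * y.1 l) * (cj (WA R l) f).1 y
    simp only [star_mul', Complex.star_def, Complex.conj_I]
    ring
  · have hb : ∀ j, (cj (WA R j) f).1 y =
        -(star (Complex.I / 2) * star ((C.T (star f)).1 y)) * y.1 j := fun j => by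
      have e : (C.Zb j f).1 y = star ((C.W j (star f)).1 y +
          Complex.I / 2 * star ((C.x j).1 y) * (C.T (star f)).1 y) := rfl
      rw [hz j, h1, h3, star_add, star_mul', star_mul', star_star] at e
      have e2 : (cj (WA R j) f).1 y = star ((WA R j (star f)).1 y) := rfl
      have e3 : (xA R.S j).1 y = y.1 j := rfl
      rw [e2, ← e3]
      linear_combination -e
    have hv0 : ∑ j, star (v j) * y.1 j = 0 := by
      rw [← g4_inner, ← inner_conj_symm, h0, map_zero]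
    have hb0 : ∑ j, star (v j) * (cj (WA R j) f).1 y = 0 := by
      simp only [hb]
      rw [show ∑ j, star (v j) * (-(star (Complex.I / 2) * star ((C.T (star f)).1 y)) * y.1 j) =
        -(star (Complex.I / 2) * star ((C.T (star f)).1 y)) * ∑ j, star (v j) * y.1 j from by
          rw [Finset.mul_sum]; exact Finset.sum_congr rfl fun j _ => by ring, hv0, mul_zero]
    have s1 := sum_WA R h y v
    have s2 := sum_WA R h y (Complex.I • v)
    rw [g4_Pfix hX hM hR y.2 hv (by rw [h0]; rfl), Finset.sum_add_distrib, hb0, add_zero] at s1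
    rw [g4_Pfix hX hM hR y.2 (v := Complex.I • v) ((tangS I _).smul_mem _ hv)
      (by rw [inner_smul_right, h0, mul_zero]; rfl), Finset.sum_add_distrib] at s2
    have t1 : ∑ m, (Complex.I • v) m * (WA R m f).1 y =
        Complex.I * ∑ m, v m * (WA R m f).1 y := by
      rw [Finset.mul_sum]
      exact Finset.sum_congr rfl fun j _ => mul_assoc _ _ _
    have t2 : ∑ m, star ((Complex.I • v) m) * (cj (WA R m) f).1 y =
        star Complex.I * ∑ m, star (v m) * (cj (WA R m) f).1 y := by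
      rw [Finset.mul_sum]
      refine Finset.sum_congr rfl fun j _ => ?_
      rw [← mul_assoc, ← star_mul']
      rfl
    rw [← s2, t1, t2, hb0, s1, mul_zero, add_zero]

theorem exists_CR (hX : IsManifold I c) (hM : M = n + 1 + c) :
    ∃ C : CR M n (Sm (Lk I)), Geo I C := by
  obtain ⟨R, μ, hR, hμ⟩ := exists_link hX hM
  obtain ⟨C, h1, h2, h3⟩ := exists_CR0 hX hM hR hμ
  have h := geo_of hX hM hR C h1 h2 h3
  rw [← hR]
  exact ⟨C, h⟩

end Pool.Agent.HCF
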