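import Pool.Agent.P.MP_f644fa_ag.G3
import Pool.Agent.P.MP_f644fa_ag.C1

/-! The calculus on the link of the cone. -/

noncomputable section
namespace Pool.Agent.HCF
open Module Set Filter Topology MeasureTheory Matrix
open scoped ContDiff InnerProductSpace
open Pool.Agent.Wein (Ret Tan)

variable {M : ℕ} {I : Ideal (SS M)} {c n : ℕ}

/-- the orthogonal projection to the tangent space of the cone -/
def PT (R : Ret (VV M)) (y v : VV M) : VV M := R.P y v + ⟪y, v⟫_ℝ • y

/-- its matrix -/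
def PA (R : Ret (VV M)) : Matrix (Fin M) (Fin M) (Sm R.S) := Matrix.of fun j k =>
  res R.S (fun y => PT R y (EuclideanSpace.single k 1) j)
    (((EuclideanSpace.proj j : _ →L[ℂ] ℂ).restrictScalars ℝ).contDiff.comp
      ((R.P_smooth.clm_apply contDiff_const).add
        ((contDiff_id.inner ℝ contDiff_const).smul contDiff_id)))

theorem g4a_re (w v : VV M) : ⟪w, v⟫_ℝ = (⟪w, v⟫_ℂ).re := by
  simp [PiLp.inner_apply, Complex.inner, Complex.re_sum]

theorem g4a_add (R : Ret (VV M)) (y v w : VV M) : PT R y (v + w) = PT R y v + PT R y w := by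
  simp only [PT, map_add, inner_add_right, add_smul]
  abel

section
variable (hX : IsManifold I c) (hM : M = n + 1 + c) {R : Ret (VV M)} (hR : R.S = Lk I)
  {y : VV M} (hy : y ∈ R.S)
include hX hM hR hy

theorem g4a_tan (v : VV M) :
    R.P y v = v ↔ v.ofLp ∈ tangS I y.ofLp ∧ ⟪y, v⟫_ℝ = 0 := by
  rw [← R.mem_tan hy, hR]
  exact tan_Lk hX hM (hR ▸ hy) v

omit hM in
theorem g4a_self : y.ofLp ∈ tangS I y.ofLp :=
  hX.self_mem_tang (show y ∈ Lk I from hR ▸ hy).1

theorem PT_mem (v : VV M) : (PT R y v).ofLp ∈ tangS I y.ofLp := by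
  have h1 := ((g4a_tan hX hM hR hy _).1 (R.P_idem hy v)).1
  rw [PT, WithLp.ofLp_add, WithLp.ofLp_smul]
  exact add_mem h1 (Submodule.smul_of_tower_mem _ _ (g4a_self hX hR hy))

theorem PT_fix {v : VV M} (hv : v.ofLp ∈ tangS I y.ofLp) : PT R y v = v := by
  have hn : ‖y‖ = 1 := (show y ∈ Lk I from hR ▸ hy).2
  have h0 : R.P y y = 0 := by
    refine ext_inner_right ℝ fun u => ?_
    rw [R.P_symm hy, inner_zero_left]
    exact ((g4a_tan hX hM hR hy _).1 (R.P_idem hy u)).2
  have h1 : R.P y (v - ⟪y, v⟫_ℝ • y) = v - ⟪y, v⟫_ℝ • y := by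
    refine (g4a_tan hX hM hR hy _).2 ⟨?_, ?_⟩
    · rw [WithLp.ofLp_sub, WithLp.ofLp_smul]
      exact sub_mem hv (Submodule.smul_of_tower_mem _ _ (g4a_self hX hR hy))
    · rw [inner_sub_right, real_inner_smul_right, real_inner_self_eq_norm_sq, hn]
      ring
  rw [map_sub, map_smul, h0, smul_zero, sub_zero] at h1
  rw [PT, h1, sub_add_cancel]

theorem g4a_orth (v : VV M) {w : VV M} (hw : w.ofLp ∈ tangS I y.ofLp) :
    ⟪w, v - PT R y v⟫_ℝ = 0 := by
  have h1 : ⟪w, PT R y v⟫_ℝ = ⟪PT R y w, v⟫_ℝ := by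
    simp only [PT, inner_add_left, inner_add_right, real_inner_smul_left, real_inner_smul_right,
      R.P_symm hy, real_inner_comm y w]
    ring
  rw [inner_sub_right, h1, PT_fix hX hM hR hy hw, sub_self]

theorem PT_orth (v : VV M) {w : VV M} (hw : w.ofLp ∈ tangS I y.ofLp) :
    ⟪w, v - PT R y v⟫_ℂ = 0 := by
  have h1 := g4a_orth hX hM hR hy v hw
  have h2 := g4a_orth hX hM hR hy v (w := Complex.I • w) (by
    rw [WithLp.ofLp_smul]
    exact Submodule.smul_mem _ _ hw)
  rw [g4a_re] at h1 h2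
  rw [inner_smul_left] at h2
  generalize ⟪w, v - PT R y v⟫_ℂ = z at h1 h2
  refine Complex.ext h1 ?_
  simpa using h2

theorem PT_smul (a : ℂ) (v : VV M) : PT R y (a • v) = a • PT R y v := by
  have hd : (PT R y (a • v) - a • PT R y v).ofLp ∈ tangS I y.ofLp := by
    rw [WithLp.ofLp_sub, WithLp.ofLp_smul]
    exact sub_mem (PT_mem hX hM hR hy _) (Submodule.smul_mem _ _ (PT_mem hX hM hR hy _))
  have h1 := PT_orth hX hM hR hy (a • v) hd
  have h2 := PT_orth hX hM hR hy v hd
  have e : a • (v - PT R y v) - (a • v - PT R y (a • v)) = PT R y (a • v) - a • PT R y v := by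
    rw [smul_sub]
    abel
  refine sub_eq_zero.1 ((inner_self_eq_zero (𝕜 := ℂ)).1 ?_)
  nth_rewrite 2 [← e]
  rw [inner_sub_right, inner_smul_right, h1, h2, mul_zero, sub_zero]

theorem PT_eq (v : VV M) (j : Fin M) : PT R y v j = ∑ k, (PA R j k).1 ⟨y, hy⟩ * v k := by
  let L : VV M →ₗ[ℂ] VV M :=
    { toFun := PT R y
      map_add' := g4a_add R y
      map_smul' := PT_smul hX hM hR hy }
  have e : v = ∑ k, v k • EuclideanSpace.single k (1 : ℂ) := by
    ext i
    simp [Pi.single_apply]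
  have h1 : L v = ∑ k, v k • L (EuclideanSpace.single k (1 : ℂ)) := by
    conv_lhs => rw [e]
    simp only [map_sum, map_smul]
  have h2 : PT R y v j = ∑ k, v k * PT R y (EuclideanSpace.single k (1 : ℂ)) j := by
    have h3 := congrArg (fun u : VV M => u j) h1
    simpa [L] using h3
  rw [h2]
  exact Finset.sum_congr rfl fun k _ => mul_comm _ _
end

end Pool.Agent.HCF
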