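import Pool.Agent.P.MP_f644fa_ag.Wedge

/-! Graded domains and modules of forms (abstract setting for the splitting of the conormal module). -/

noncomputable section
namespace Pool.Agent.HCF
open Finset Module

variable {A : Type} [CommRing A] [Algebra ℂ A] {σ : Type} [LinearOrder σ] [Fintype σ]

/-- the properties of the grading that are used -/
structure GR (G : ℤ → Submodule ℂ A) : Prop where
  one : 1 ∈ G 0
  mul : ∀ {d e a b}, a ∈ G d → b ∈ G e → a * b ∈ G (d + e)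
  neg : ∀ d < 0, G d = ⊥
  zero : ∀ a ∈ G 0, ∃ r : ℂ, a = algebraMap ℂ A r
  fin : ∀ d, FiniteDimensional ℂ (G d)
  disj : ∀ {d e a}, a ∈ G d → a ∈ G e → a ≠ 0 → d = e
  dvd : ∀ {d a b}, a * b ∈ G d → a * b ≠ 0 → ∃ e, a ∈ G e ∧ b ∈ G (d - e)

/-- forms of degree `k` with coefficients of degree `d` that are killed by the vector fields in `T` -/
def Fm (G : ℤ → Submodule ℂ A) (T : Set (σ → A)) (k : ℕ) (d : ℤ) : Submodule ℂ (Finset σ → A) where
  carrier := {ω | (∀ v ∈ T, iov A v ω = 0) ∧ Deg k ω ∧ ∀ J, ω J ∈ G d}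
  add_mem' ha hb := ⟨fun v hv => by rw [map_add, ha.1 v hv, hb.1 v hv, add_zero],
    fun J h => by simp [ha.2.1 J h, hb.2.1 J h], fun J => Submodule.add_mem _ (ha.2.2 J) (hb.2.2 J)⟩
  zero_mem' := ⟨fun _ _ => map_zero _, fun _ _ => rfl, fun _ => Submodule.zero_mem _⟩
  smul_mem' c _ ha := ⟨fun v hv => by rw [LinearMap.map_smul_of_tower, ha.1 v hv, smul_zero],
    fun J h => by simp [ha.2.1 J h], fun J => Submodule.smul_mem _ c (ha.2.2 J)⟩

/-- one-forms, as vectors -/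
def Vm (G : ℤ → Submodule ℂ A) (T : Set (σ → A)) (d : ℤ) : Submodule ℂ (σ → A) where
  carrier := {τ | (∀ v ∈ T, ∑ j, v j * τ j = 0) ∧ ∀ j, τ j ∈ G d}
  add_mem' ha hb := ⟨fun v hv => by
      simp only [Pi.add_apply, mul_add, sum_add_distrib, ha.1 v hv, hb.1 v hv, add_zero],
    fun j => Submodule.add_mem _ (ha.2 j) (hb.2 j)⟩
  zero_mem' := ⟨fun _ _ => by simp, fun _ => Submodule.zero_mem _⟩
  smul_mem' c _ ha := ⟨fun v hv => by
      simp only [Pi.smul_apply, mul_smul_comm, ← smul_sum, ha.1 v hv, smul_zero],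
    fun j => Submodule.smul_mem _ c (ha.2 j)⟩

end Pool.Agent.HCF
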