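import Pool.Agent.P.MP_f644fa_ag.Gaga
import Pool.Agent.P.MP_f644fa_ag.GDefs

/-! The section ring. -/

noncomputable section
namespace Pool.Agent.HCF
open MvPolynomial Module Set

variable {M : ℕ} {I : Ideal (SS M)} {c n : ℕ}

/-- the elements of degree `d` of a ring of functions on the cone -/
def Gr (O : Subalgebra ℂ (cone I → ℂ)) (d : ℤ) : Submodule ℂ O where
  carrier := {a | IsHom d a.1}
  add_mem' ha hb x y t h := by simp [ha x y t h, hb x y t h, mul_add]
  zero_mem' x y t h := by simp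
  smul_mem' r a ha x y t h := by
    have := ha x y t h
    simp only [SetLike.val_smul, Pi.smul_apply, smul_eq_mul, this]; ring

theorem mem_Gr {O : Subalgebra ℂ (cone I → ℂ)} {d : ℤ} {a : O} : a ∈ Gr O d ↔ IsHom d a.1 := Iff.rfl

/-- almost integral elements of a factorial ring -/
theorem dvd_of_pow {A : Type} [CommRing A] [IsDomain A] [UniqueFactorizationMonoid A] {D r : A}
    (hD : D ≠ 0) (h : ∀ j : ℕ, D ^ j ∣ D * r ^ j) : D ∣ r := by
  obtain ⟨a, b, e, hab, h1, h2⟩ := UniqueFactorizationMonoid.exists_reduced_factors D hD r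
  have he : e ≠ 0 := by
    rintro rfl
    exact hD (by rw [← h1, zero_mul])
  have h3 : ∀ j : ℕ, a ^ j ∣ D := fun j => by
    have h4 := h j
    have h5 : D ^ j = e ^ j * a ^ j := by rw [← h1, mul_pow]
    have h6 : D * r ^ j = e ^ j * (D * b ^ j) := by rw [← h2]; ring
    rw [h5, h6, mul_dvd_mul_iff_left (pow_ne_zero j he)] at h4
    exact (hab.pow (m := j) (n := j)).dvd_of_dvd_mul_right h4
  have hu : IsUnit a := by
    by_contra hu
    obtain ⟨k, hk⟩ := FiniteMultiplicity.of_not_isUnit hu hD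
    exact hk (h3 _)
  rw [← h1, ← h2]
  exact mul_dvd_mul_left e hu.dvd

theorem sec_hol_pow {g : cone I → ℂ} (hg : Hol g) (j : ℕ) : Hol (g ^ j) := by
  induction j with
  | zero => rw [pow_zero]; exact hol_of_mem_sec (one_mem _)
  | succ j ih => rw [pow_succ]; exact ih.mul hg

theorem sec_isHom_one : IsHom 0 (1 : cone I → ℂ) := fun x y t h => by simp

theorem sec_isHom_pow {g : cone I → ℂ} {m : ℤ} (hg : IsHom m g) (j : ℕ) :
    IsHom (m * j) (g ^ j) := by
  induction j with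
  | zero => simpa using sec_isHom_one
  | succ j ih =>
    rw [pow_succ, Nat.cast_succ, mul_add, mul_one]
    exact ih.mul hg

theorem sec_gaga_nat (hX : IsManifold I c) (hM : M = n + 1 + c)
    [UniqueFactorizationMonoid (secRing I)] {g : cone I → ℂ} (hg : Hol g) {m : ℕ}
    (hm : IsHom (m : ℤ) g) : g ∈ secRing I := by
  have := hX.isDomain_sec
  obtain ⟨D, hD, h⟩ := exists_den hX hM
  have h1 : ∀ j : ℕ, pf I D * g ^ j ∈ secRing I := fun j =>
    Pol_le I (h (m * j) _ (sec_hol_pow hg j) (by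
      rw [Nat.cast_mul]; exact sec_isHom_pow hm j))
  let D' : secRing I := ⟨pf I D, Pol_le I (pf_mem D)⟩
  let r : secRing I := ⟨pf I D * g, by simpa using h1 1⟩
  have hD' : D' ≠ 0 := fun h0 => hD (hX.pf_eq_zero.1 (congrArg Subtype.val h0))
  obtain ⟨a, ha⟩ := dvd_of_pow (r := r) hD' fun j => ⟨⟨_, h1 j⟩, by
    apply Subtype.ext
    change pf I D * (pf I D * g) ^ j = pf I D ^ j * (pf I D * g ^ j)
    ring⟩
  have h2 : pf I D * g = pf I D * a.1 := congrArg Subtype.val ha
  have h3 : g - a.1 = 0 := hX.eq_zero_of_mul hM hD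
    (hg.cont.sub (continuous_of_mem_sec a.2)) (by rw [mul_sub, h2, sub_self])
  rw [sub_eq_zero.1 h3]
  exact a.2

theorem sec_exists_poly (f : SS M) (x : Fin M → ℂ) : ∃ P : Polynomial ℂ,
    (∀ t, P.eval t = eval (t • x) f) ∧ ∀ d, P.coeff d = eval x (homogeneousComponent d f) := by
  refine ⟨∑ d ∈ Finset.range (f.totalDegree + 1),
    Polynomial.monomial d (eval x (homogeneousComponent d f)), fun t => ?_, fun d => ?_⟩
  · conv_rhs => rw [← sum_homogeneousComponent f]
    rw [Polynomial.eval_finsetSum, map_sum]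
    refine Finset.sum_congr rfl fun d _ => ?_
    rw [Polynomial.eval_monomial, eval_smul_hom (homogeneousComponent_isHomogeneous d f), mul_comm]
  · rw [Polynomial.finsetSum_coeff]
    simp only [Polynomial.coeff_monomial, Finset.sum_ite_eq', Finset.mem_range]
    split_ifs with h
    · rfl
    · rw [homogeneousComponent_eq_zero d f (by omega), map_zero]

theorem gaga (hX : IsManifold I c) (hM : M = n + 1 + c) [UniqueFactorizationMonoid (secRing I)]
    {g : cone I → ℂ} (hg : Hol g) {m : ℤ} (hm : IsHom m g) : g ∈ secRing I := by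
  intro j
  have h1 : Hol (pf I (X j ^ (-m).toNat) * g) :=
    (hol_of_mem_sec (Pol_le I (pf_mem _))).mul hg
  have h2 : IsHom (m.toNat : ℤ) (pf I (X j ^ (-m).toNat) * g) := by
    have h3 := (isHom_pf (I := I) (isHomogeneous_X_pow (R := ℂ) j (-m).toNat)).mul hm
    have h4 : (((-m).toNat : ℕ) : ℤ) + m = m.toNat := by omega
    rwa [h4] at h3
  obtain ⟨k, p, hp⟩ := sec_gaga_nat hX hM h1 h2 j
  refine ⟨k + (-m).toNat, p, fun x => ?_⟩
  rw [← hp x, Pi.mul_apply, pf_apply, map_pow, eval_X]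
  ring

theorem exists_den_hom (hX : IsManifold I c) (hM : M = n + 1 + c) : ∃ (D : SS M) (e : ℕ), D ∉ I ∧
    D.IsHomogeneous e ∧
    ∀ (m : ℕ) (g : cone I → ℂ), Hol g → IsHom (m : ℤ) g → pf I D * g ∈ Pol I := by
  obtain ⟨D, hD, h⟩ := exists_den hX hM
  have h1 : ∃ e, homogeneousComponent e D ∉ I := by
    by_contra h1
    apply hD
    rw [← sum_homogeneousComponent D]
    exact Ideal.sum_mem _ fun e _ => by_contra fun h2 => h1 ⟨e, h2⟩
  obtain ⟨e, he⟩ := h1
  refine ⟨_, e, he, homogeneousComponent_isHomogeneous e D, fun m g hg hm => ?_⟩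
  obtain ⟨p, hp⟩ := h m g hg hm
  refine ⟨homogeneousComponent (e + m) p, funext fun x => ?_⟩
  obtain ⟨P, hP1, hP2⟩ := sec_exists_poly D x.1
  obtain ⟨Q, hQ1, hQ2⟩ := sec_exists_poly p x.1
  have h2 : P * Polynomial.C (g x) * Polynomial.X ^ m = Q := by
    apply Polynomial.eq_of_infinite_eval_eq
    refine ((Set.finite_singleton (0 : ℂ)).infinite_compl).mono fun t ht => ?_
    have ht' : t ≠ 0 := ht
    have h3 := congrFun hp ⟨t • x.1, hX.smul_mem x.2 ht'⟩
    have h4 := hm x ⟨t • x.1, hX.smul_mem x.2 ht'⟩ t rfl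
    change pf I p _ = _ at h3
    rw [Pi.mul_apply, pf_apply, pf_apply, h4, zpow_natCast] at h3
    change Polynomial.eval t _ = Polynomial.eval t Q
    rw [Polynomial.eval_mul, Polynomial.eval_mul, Polynomial.eval_C, Polynomial.eval_pow,
      Polynomial.eval_X, hP1, hQ1, h3]
    ring
  have h5 := congrArg (fun R => Polynomial.coeff R (e + m)) h2
  simp only [Polynomial.coeff_mul_X_pow, Polynomial.coeff_mul_C, hP2, hQ2] at h5
  change pf I _ x = _
  rw [Pi.mul_apply, pf_apply, pf_apply, h5]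

theorem sec_fin_of {V W : Type} [AddCommGroup V] [Module ℂ V] [AddCommGroup W] [Module ℂ W]
    (p : Submodule ℂ V) (q : Submodule ℂ W) (hq : FiniteDimensional ℂ q) (f : V →ₗ[ℂ] W)
    (h1 : ∀ a ∈ p, f a ∈ q) (h2 : ∀ a ∈ p, f a = 0 → a = 0) : FiniteDimensional ℂ p := by
  refine Module.Finite.of_injective (f.restrict h1) ((injective_iff_map_eq_zero _).2 fun a ha => ?_)
  exact Subtype.ext (h2 a.1 a.2 (congrArg Subtype.val ha))

theorem sec_fin_deg (k : ℕ) :
    FiniteDimensional ℂ ((restrictTotalDegree (Fin M) ℂ k).map (pf I).toLinearMap) :=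
  inferInstance

theorem sec_mem_deg (hX : IsManifold I c) {d : ℤ} {g : cone I → ℂ} (hg : g ∈ Pol I)
    (h : IsHom d g) : g ∈ (restrictTotalDegree (Fin M) ℂ d.toNat).map (pf I).toLinearMap := by
  obtain ⟨f, rfl⟩ := hg
  rcases lt_or_ge d 0 with hd | hd
  · exact ⟨0, zero_mem _, (map_zero _).trans (hX.hom_neg hd h).symm⟩
  · obtain ⟨k, rfl⟩ := Int.eq_ofNat_of_zero_le hd
    refine ⟨homogeneousComponent k f, ?_, (hX.hom_rep h).symm⟩
    rw [SetLike.mem_coe, mem_restrictTotalDegree, Int.toNat_natCast]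
    exact (homogeneousComponent_isHomogeneous k f).totalDegree_le

theorem fin_Gr_Pol (hX : IsManifold I c) (d : ℤ) : FiniteDimensional ℂ (Gr (Pol I) d) :=
  sec_fin_of (V := Pol I) (Gr (Pol I) d) _ (sec_fin_deg (I := I) d.toNat) (Pol I).val.toLinearMap
    (fun a ha => sec_mem_deg hX a.2 ha) fun _ _ h => Subtype.ext h

theorem fin_Gr_nat (hX : IsManifold I c) (hM : M = n + 1 + c) (d : ℕ) :
    FiniteDimensional ℂ (Gr (secRing I) d) := by
  obtain ⟨D, e, hD, he, h⟩ := exists_den_hom hX hM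
  exact sec_fin_of (V := secRing I) (Gr (secRing I) d) _ (sec_fin_deg (I := I) ((e : ℤ) + d).toNat)
    (LinearMap.mulLeft ℂ (pf I D) ∘ₗ (secRing I).val.toLinearMap)
    (fun a ha => sec_mem_deg hX (h d _ (hol_of_mem_sec a.2) ha) ((isHom_pf he).mul ha))
    fun a _ h1 => Subtype.ext (hX.eq_zero_of_mul hM hD (continuous_of_mem_sec a.2) h1)

theorem sec_const {A : Type} [CommRing A] [IsDomain A] [Algebra ℂ A] (p : Submodule ℂ A)
    (hp : FiniteDimensional ℂ p) (h1 : 1 ∈ p) {a : A} (ha : ∀ b ∈ p, a * b ∈ p) :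
    ∃ r : ℂ, a = algebraMap ℂ _ r := by
  have : Nontrivial p := ⟨⟨⟨1, h1⟩, 0, fun h => one_ne_zero (congrArg Subtype.val h)⟩⟩
  let φ : Module.End ℂ p := (LinearMap.mulLeft ℂ a).restrict ha
  obtain ⟨r, hr⟩ := Module.End.exists_eigenvalue φ
  obtain ⟨v, hv⟩ := hr.exists_hasEigenvector
  have h1 : a * v.1 = r • v.1 := congrArg Subtype.val hv.apply_eq_smul
  have h2 : v.1 ≠ 0 := fun h => hv.2 (Subtype.ext h)
  rw [Algebra.smul_def] at h1
  exact ⟨r, mul_right_cancel₀ h2 h1⟩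

theorem Gr_zero (hX : IsManifold I c) (hM : M = n + 1 + c) :
    ∀ a ∈ Gr (secRing I) 0, ∃ r : ℂ, a = algebraMap ℂ _ r := by
  intro a ha
  have := hX.isDomain_sec
  refine sec_const (A := secRing I) (Gr (secRing I) 0) (fin_Gr_nat hX hM 0) sec_isHom_one
    fun b hb => ?_
  have h := IsHom.mul ha hb
  rw [add_zero] at h
  exact h

theorem Gr_neg (hX : IsManifold I c) (hM : M = n + 1 + c) (hn : 1 ≤ n) {d : ℤ} (hd : d < 0) :
    Gr (secRing I) d = ⊥ := by
  rw [eq_bot_iff]
  intro a ha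
  obtain ⟨L, hL⟩ := hX.exists_bpf hM
  have hI := hL.indep hX hM
  obtain ⟨K, hK⟩ : ∃ K : ℕ, (1 : ℤ) * K + d = 0 := ⟨(-d).toNat, by omega⟩
  have hK0 : K ≠ 0 := by omega
  have h1 : ∀ i, ∃ r : ℂ, pf I (lin (L i)) ^ K * a.1 = algebraMap ℂ _ r := fun i => by
    have h2 := (sec_isHom_pow (isHom_pf (I := I) (lin_hom (L i))) K).mul ha
    rw [Nat.cast_one, hK] at h2
    obtain ⟨r, hr⟩ := Gr_zero hX hM
      (⟨pf I (lin (L i)), Pol_le I (pf_mem _)⟩ ^ K * a) h2
    exact ⟨r, congrArg Subtype.val hr⟩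
  choose r hr using h1
  have hne : (0 : Fin (n + 1)) ≠ Fin.last n := fun h => by
    have := congrArg Fin.val h
    simp at this
    omega
  have h3 : (C (r 0) * X (Fin.last n) ^ K - C (r (Fin.last n)) * X 0 ^ K :
      MvPolynomial (Fin (n + 1)) ℂ) = 0 := by
    apply hI.eq_zero_of_aeval_eq_zero
    simp only [map_sub, map_mul, map_pow, aeval_C, aeval_X]
    apply Subtype.ext
    change algebraMap ℂ _ (r 0) * pf I (lin (L (Fin.last n))) ^ K -
      algebraMap ℂ _ (r (Fin.last n)) * pf I (lin (L 0)) ^ K = 0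
    rw [← hr, ← hr]
    ring
  have h4 : r 0 = 0 := by
    have h5 := congrArg (eval (Pi.single (Fin.last n) (1 : ℂ))) h3
    simpa [Pi.single_eq_of_ne hne, hK0] using h5
  have h6 : lin (L 0) ^ K ∉ I := fun h => by
    have h7 := hX.pf_eq_zero.2 (hX.prime.mem_of_pow_mem K h)
    exact hI.ne_zero 0 (Subtype.ext h7)
  have h8 := hr 0
  rw [h4, map_zero, ← map_pow] at h8
  exact Subtype.ext (hX.eq_zero_of_mul hM h6 (continuous_of_mem_sec a.2) h8)

end Pool.Agent.HCF
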