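import Pool.Agent.P.MP_f644fa_ag.G4
import Pool.Agent.P.MP_f644fa_ag.Sec

/-! Sections of `O(m)` are the Cauchy-Riemann functions of weight `m` on the link. -/

noncomputable section
namespace Pool.Agent.HCF
open MvPolynomial Module Set Filter Topology
open scoped ContDiff InnerProductSpace

variable {M : ℕ} {I : Ideal (SS M)} {c n : ℕ}

/-- a point of the link as a point of the cone -/
def toCone (y : Lk I) : cone I := ⟨y.1.ofLp, y.2.1⟩

theorem g5a_den {k : Fin M → ℕ} {y : Fin M → ℂ} (hy : y ≠ 0) :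
    ∑ j, star (y j) ^ k j * y j ^ k j ≠ 0 := by
  have e : ∀ j, star (y j) ^ k j * y j ^ k j = ((Complex.normSq (y j ^ k j) : ℝ) : ℂ) := fun j => by
    rw [← star_pow, Complex.normSq_eq_conj_mul_self]
    rfl
  simp only [e, ← Complex.ofReal_sum, Ne, Complex.ofReal_eq_zero,
    Finset.sum_eq_zero_iff_of_nonneg fun i _ => Complex.normSq_nonneg (y i ^ k i),
    Complex.normSq_eq_zero]
  exact fun h => hy (funext fun i => eq_zero_of_pow_eq_zero (h i (Finset.mem_univ i)))

theorem res_mem {a : cone I → ℂ} (h : a ∈ secRing I) : (fun y : Lk I => a (toCone y)) ∈ Sm (Lk I) := by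
  choose k p hp using h
  have hc : ∀ j, ContDiff ℝ ∞ fun y : VV M => y j := fun j =>
    ((EuclideanSpace.proj j : _ →L[ℂ] ℂ).restrictScalars ℝ).contDiff
  have hs : ∀ j, ContDiff ℝ ∞ fun y : VV M => star (y j) := fun j =>
    Complex.conjCLE.contDiff.comp (hc j)
  have hne : ∀ y : VV M, y ∈ ({0}ᶜ : Set (VV M)) → y.ofLp ≠ 0 := fun y hy h0 =>
    hy (by ext j; exact congrFun h0 j)
  have h1 := mem_Sm_of_open (isCompact_Lk I) isOpen_compl_singleton
    (fun y hy h0 => hy.1.1 (by rw [mem_singleton_iff.1 h0]; rfl))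
    (g := fun y : VV M => (∑ j, star (y j) ^ k j * eval y.ofLp (p j)) *
      (∑ j, star (y j) ^ k j * y j ^ k j)⁻¹)
    ((ContDiff.sum fun j _ => ((hs j).pow _).mul (contDiff_evalV _)).contDiffOn.mul
      ((ContDiff.sum fun j _ => ((hs j).pow _).mul ((hc j).pow _)).contDiffOn.inv
        fun y hy => g5a_den (hne y hy)))
  have e : (fun y : Lk I => a (toCone y)) = fun y : Lk I =>
      (∑ j, star (y.1 j) ^ k j * eval y.1.ofLp (p j)) *
        (∑ j, star (y.1 j) ^ k j * y.1 j ^ k j)⁻¹ := by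
    funext y
    rw [eq_mul_inv_iff_mul_eq₀ (g5a_den y.2.1.1), Finset.mul_sum]
    refine Finset.sum_congr rfl fun j _ => ?_
    have h2 : y.1 j ^ k j * a (toCone y) = eval y.1.ofLp (p j) := hp j (toCone y)
    rw [← h2]
    ring
  rw [e]
  exact h1

/-- restriction to the link -/
def rs (I : Ideal (SS M)) : secRing I →ₐ[ℂ] Sm (Lk I) where
  toFun a := ⟨fun y => a.1 (toCone y), res_mem a.2⟩
  map_one' := rfl
  map_mul' _ _ := rfl
  map_zero' := rfl
  map_add' _ _ := rfl
  commutes' _ := rfl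

theorem rs_apply (a : secRing I) (y : Lk I) : (rs I a).1 y = a.1 (toCone y) := rfl

theorem exists_toCone (hX : IsManifold I c) (x : cone I) :
    ∃ (y : Lk I) (t : ℝ), 0 < t ∧ x.1 = (t : ℂ) • (toCone y).1 := by
  have h0 : (WithLp.toLp 2 x.1 : VV M) ≠ 0 := fun h => x.2.1 (congrArg WithLp.ofLp h)
  have h1 : 0 < ‖(WithLp.toLp 2 x.1 : VV M)‖ := norm_pos_iff.2 h0
  have h2 : ((‖(WithLp.toLp 2 x.1 : VV M)‖ : ℝ) : ℂ) ≠ 0 := Complex.ofReal_ne_zero.2 h1.ne'
  refine ⟨⟨((‖(WithLp.toLp 2 x.1 : VV M)‖ : ℝ) : ℂ)⁻¹ • WithLp.toLp 2 x.1,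
    hX.smul_mem x.2 (inv_ne_zero h2), ?_⟩, _, h1, ?_⟩
  · rw [norm_smul, norm_inv, Complex.norm_real, norm_norm, inv_mul_cancel₀ h1.ne']
  · exact (smul_inv_smul₀ h2 x.1).symm

theorem rs_inj (hX : IsManifold I c) {m : ℤ} {a : secRing I} (ha : a ∈ Gr (secRing I) m)
    (h : rs I a = 0) : a = 0 := by
  refine Subtype.ext (funext fun x => ?_)
  obtain ⟨y, t, -, e⟩ := exists_toCone hX x
  have h1 : a.1 (toCone y) = 0 := by rw [← rs_apply, h]; rfl
  rw [mem_Gr.1 ha _ _ _ e, h1, mul_zero]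
  rfl

variable {C : CR M n (Sm (Lk I))}

theorem g5a_chain {𝒜 : Type} [CommRing 𝒜] [Algebra ℂ 𝒜] (δ : Derivation ℂ 𝒜 𝒜) (x : Fin M → 𝒜)
    (p : SS M) : δ (aeval x p) = ∑ j, aeval x (pderiv j p) * δ (x j) := by
  induction p using MvPolynomial.induction_on with
  | C r => simp
  | add p q hp hq => simp only [map_add, hp, hq, add_mul, Finset.sum_add_distrib]
  | mul_X p j hp =>
    simp only [map_mul, aeval_X, Derivation.leibniz, hp, smul_eq_mul, map_add, add_mul,
      Finset.sum_add_distrib, Finset.mul_sum, mul_assoc]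
    refine congrArg₂ _ ?_ rfl
    rw [Finset.sum_eq_single j]
    · simp
    · intro i _ hi
      simp [pderiv_X_of_ne hi.symm]
    · simp

theorem g5a_aeval (h : Geo I C) (p : SS M) (y : Lk I) :
    (aeval C.x p : Sm (Lk I)).1 y = eval y.1.ofLp p := by
  induction p using MvPolynomial.induction_on with
  | C r => simp
  | add p q hp hq => rw [map_add, map_add, ← hp, ← hq]; rfl
  | mul_X p j hp => rw [map_mul, map_mul, aeval_X, eval_X, ← hp, ← h.x]; rfl

theorem g5a_rep (h : Geo I C) {a : secRing I} {j : Fin M} {k : ℕ} {p : SS M}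
    (hp : ∀ x : cone I, x.1 j ^ k * a.1 x = eval x.1 p) : C.x j ^ k * rs I a = aeval C.x p := by
  refine Subtype.ext (funext fun y => ?_)
  rw [g5a_aeval h, ← show y.1 j ^ k * a.1 (toCone y) = eval y.1.ofLp p from hp (toCone y), ← h.x]
  rfl

theorem g5a_zero (h : Geo I C) {f : Sm (Lk I)} (hf : ∀ j, ∃ k : ℕ, C.x j ^ k * f = 0) : f = 0 := by
  refine Subtype.ext (funext fun y => ?_)
  obtain ⟨j, hj⟩ := Function.ne_iff.1 y.2.1.1
  obtain ⟨k, hk⟩ := hf j
  have h1 : (C.x j).1 y ^ k * f.1 y = 0 := congrFun (congrArg Subtype.val hk) y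
  rw [h.x] at h1
  exact (mul_eq_zero.1 h1).resolve_left (pow_ne_zero k hj)

theorem Geo.Zb_rs (h : Geo I C) (a : secRing I) (j : Fin M) : C.Zb j (rs I a) = 0 := by
  refine g5a_zero h fun l => ?_
  obtain ⟨k, p, hp⟩ := a.2 l
  have h1 := congrArg (C.Zb j) (g5a_rep h hp)
  simp only [g5a_chain, Derivation.leibniz, Derivation.leibniz_pow, C.Zb_x, mul_zero, smul_zero,
    add_zero, Finset.sum_const_zero, smul_eq_mul] at h1
  exact ⟨k, h1⟩

theorem Geo.T_rs (h : Geo I C) (hX : IsManifold I c) {m : ℤ} {a : secRing I}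
    (ha : a ∈ Gr (secRing I) m) : C.T (rs I a) = (Complex.I * m) • rs I a := by
  rw [← sub_eq_zero]
  refine g5a_zero h fun l => ?_
  obtain ⟨k, p, hp⟩ := a.2 l
  obtain ⟨d, hd⟩ : ∃ d : ℕ, (d : ℤ) = (m.natAbs + k : ℕ) + m :=
    ⟨_, Int.toNat_of_nonneg (by omega)⟩
  have hp' : ∀ x : cone I, x.1 l ^ (m.natAbs + k) * a.1 x = eval x.1 (X l ^ m.natAbs * p) :=
    fun x => by rw [map_mul, map_pow, eval_X, ← hp, pow_add, mul_assoc]
  generalize m.natAbs + k = K at hd hp'
  generalize X l ^ m.natAbs * p = q at hp'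
  have h1 : IsHom (d : ℤ) (pf I q) := by
    have h2 := (isHom_pf (I := I) ((isHomogeneous_X ℂ l).pow K)).mul (mem_Gr.1 ha)
    rw [one_mul, ← hd] at h2
    have e : pf I q = pf I (X l ^ K) * a.1 := funext fun x => by
      rw [Pi.mul_apply, pf_apply, pf_apply, map_pow, eval_X, hp']
    rwa [e]
  have h3 := g5a_rep h (a := a) (j := l) (k := K) (p := homogeneousComponent d q) fun x => by
    rw [hp', ← pf_apply, ← pf_apply, ← hX.hom_rep h1]
  have h4 : C.T (aeval C.x (homogeneousComponent d q)) =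
      (Complex.I * d) • aeval C.x (homogeneousComponent d q) := by
    have h5 := congrArg (aeval C.x) (homogeneousComponent_isHomogeneous d q).sum_X_mul_pderiv
    simp only [map_sum, map_mul, aeval_X, map_nsmul] at h5
    rw [g5a_chain, mul_smul, Nat.cast_smul_eq_nsmul, ← h5, Finset.smul_sum]
    exact Finset.sum_congr rfl fun j _ => by rw [C.T_x, mul_smul_comm, mul_comm]
  have h6 : C.T (C.x l ^ K) = (Complex.I * K) • C.x l ^ K := by
    clear hd hp' h1 h3
    induction K with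
    | zero => simp
    | succ K ih =>
      rw [pow_succ, Derivation.leibniz, ih, C.T_x]
      simp only [smul_eq_mul, mul_smul_comm, Nat.cast_succ, mul_add, mul_one, add_smul]
      rw [add_comm, mul_comm (C.x l)]
  have h7 : (d : ℂ) = K + m := by exact_mod_cast congrArg (Int.cast : ℤ → ℂ) hd
  rw [← h3, Derivation.leibniz, h6, h7, mul_add, add_smul, smul_eq_mul, smul_eq_mul,
    mul_smul_comm, mul_comm (rs I a), add_comm, add_right_inj] at h4
  exact ⟨K, by rw [mul_sub, h4, mul_smul_comm, sub_self]⟩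

end Pool.Agent.HCF
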