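import Pool.Agent.P.MP_f644fa_ag.Gaga0

/-! Holomorphic homogeneous functions on the cone are regular. -/

noncomputable section
namespace Pool.Agent.HCF
open MvPolynomial Module Set Filter Topology

variable {M : ℕ} {I : Ideal (SS M)} {c n : ℕ}

theorem gaga_base (L : Fin (n + 1) → Fin M → ℂ) (x : Fin M → ℂ) (p : MvPolynomial (Fin (n + 1)) ℂ) :
    eval x (aeval (fun i => lin (L i)) p) = eval (prj L x) p := by
  induction p using MvPolynomial.induction_on with
  | C a => simp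
  | add p q hp hq => simp only [map_add, hp, hq]
  | mul_X p i hp => simp only [map_mul, hp, aeval_X, eval_X, prj]

/-- a polynomial over the base as a polynomial on the cone -/
def gaga_up (L : Fin (n + 1) → Fin M → ℂ) (y : SS M)
    (q : Polynomial (MvPolynomial (Fin (n + 1)) ℂ)) : SS M :=
  q.eval₂ (aeval (fun i => lin (L i)) : MvPolynomial (Fin (n + 1)) ℂ →ₐ[ℂ] SS M).toRingHom y

theorem gaga_eval_up (L : Fin (n + 1) → Fin M → ℂ) (y : SS M)
    (q : Polynomial (MvPolynomial (Fin (n + 1)) ℂ)) (x : Fin M → ℂ) :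
    eval x (gaga_up L y q) = (spec (prj L x) q).eval (eval x y) := by
  rw [gaga_up, Polynomial.hom_eval₂, spec, Polynomial.eval_map]
  congr 1
  exact RingHom.ext fun p => gaga_base L x p

open Classical in
/-- extension by zero -/
def gaga_ext (g : cone I → ℂ) (z : Fin M → ℂ) : ℂ := if h : z ∈ cone I then g ⟨z, h⟩ else 0

theorem gaga_ext_mem (g : cone I → ℂ) {z : Fin M → ℂ} (h : z ∈ cone I) :
    gaga_ext g z = g ⟨z, h⟩ := dif_pos h

variable {L : Fin (n + 1) → Fin M → ℂ}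

/-- the point of the fibre -/
def gaga_pt (A : Cov I L) (b : Fin (n + 1) → ℂ) (η : ℂ) : Fin M → ℂ :=
  fun j => (spec b (A.Q j)).eval η / eval b A.δ

open Classical in
/-- twisted power sums -/
def gaga_t (A : Cov I L) (g : cone I → ℂ) (i : ℕ) (b : Fin (n + 1) → ℂ) : ℂ :=
  if eval b A.Δ ≠ 0 then
    ((spec b A.μ).roots.map fun η => gaga_ext g (gaga_pt A b η) * η ^ i).sum else 0

theorem gaga_diff_eval {e : ℕ} (p : MvPolynomial (Fin e) ℂ) :
    Differentiable ℂ fun b : Fin e → ℂ => eval b p :=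
  fun b => (hasFDerivAt_eval p b).differentiableAt

theorem gaga_t_diff (A : Cov I L) {g : cone I → ℂ} (hg : Hol g) (i : ℕ) (b₀ : Fin (n + 1) → ℂ)
    (hb : eval b₀ A.Δ ≠ 0) : DifferentiableAt ℂ (gaga_t A g i) b₀ := by
  obtain ⟨U, η, hU, hb₀, hη, hr⟩ := exists_roots A.monic (A.sep b₀ hb)
  have hO : IsOpen (U ∩ {b | eval b A.Δ ≠ 0}) :=
    hU.inter (isOpen_ne_fun (gaga_diff_eval A.Δ).continuous continuous_const)
  have hroot : ∀ k, ∀ b ∈ U, (spec b A.μ).IsRoot (η k b) := by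
    intro k b hbU
    refine Polynomial.isRoot_of_mem_roots ?_
    rw [spec, hr b hbU]
    exact Multiset.mem_map.2 ⟨k, Finset.mem_univ_val k, rfl⟩
  have h1 : ∀ k, DifferentiableOn ℂ (fun b => gaga_ext g (gaga_pt A b (η k b)))
      (U ∩ {b | eval b A.Δ ≠ 0}) := by
    intro k
    refine hg.comp _ _ (fun b => gaga_pt A b (η k b)) _ hO ?_ ?_
    · refine differentiableOn_pi.2 fun j => ?_
      have a1 : DifferentiableOn ℂ (fun b => (spec b (A.Q j)).eval (η k b))
          (U ∩ {b | eval b A.Δ ≠ 0}) :=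
        (differentiable_spec (A.Q j)).comp_differentiableOn
          (differentiableOn_id.prodMk ((hη k).mono inter_subset_left))
      have a2 : DifferentiableOn ℂ (fun b : Fin (n + 1) → ℂ => (eval b A.δ)⁻¹)
          (U ∩ {b | eval b A.Δ ≠ 0}) :=
        (gaga_diff_eval A.δ).differentiableOn.inv fun b hb => A.δ_ne b hb.2
      exact (a1.mul a2).congr fun b _ => div_eq_mul_inv _ _
    · intro b hb
      have hm := (A.fib b (η k b) hb.2 (hroot k b hb.1)).1
      exact ⟨hm, gaga_ext_mem g hm⟩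
  have h2 : DifferentiableOn ℂ (fun b => ∑ k, gaga_ext g (gaga_pt A b (η k b)) * η k b ^ i)
      (U ∩ {b | eval b A.Δ ≠ 0}) :=
    DifferentiableOn.fun_sum fun k _ => (h1 k).mul (((hη k).mono inter_subset_left).pow i)
  have h3 : DifferentiableOn ℂ (gaga_t A g i) (U ∩ {b | eval b A.Δ ≠ 0}) := by
    refine h2.congr fun b hb => ?_
    have hb2 : eval b A.Δ ≠ 0 := hb.2
    rw [gaga_t, if_pos hb2, spec, hr b hb.1, Multiset.map_map]
    rfl
  exact h3.differentiableAt (hO.mem_nhds ⟨hb₀, hb⟩)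

theorem gaga_t_growth (hX : IsManifold I c) (hL : Bpf I L) (A : Cov I L) {g : cone I → ℂ}
    (hg : Hol g) {m : ℕ} (hm : IsHom (m : ℤ) g) (i : ℕ) :
    ∃ (C : ℝ) (E : ℕ), 0 ≤ C ∧ ∀ b, ‖gaga_t A g i b‖ ≤ C * (1 + ‖b‖) ^ E := by
  obtain ⟨C₁, h₁, hC₁⟩ := bound_of_hom hX hg.cont hm
  obtain ⟨C₂, h₂, hC₂⟩ := hL.norm_le hX
  obtain ⟨C₃, E, h₃, hC₃⟩ := root_growth A.monic
  refine ⟨A.μ.natDegree * (C₁ * C₂ ^ m * C₃ ^ i), m + E * i, by positivity, fun b => ?_⟩
  rw [gaga_t]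
  split_ifs with hb
  · have hk : ∀ η ∈ (spec b A.μ).roots, ‖gaga_ext g (gaga_pt A b η) * η ^ i‖ ≤
        C₁ * C₂ ^ m * C₃ ^ i * (1 + ‖b‖) ^ (m + E * i) := by
      intro η hη
      have hr := Polynomial.isRoot_of_mem_roots hη
      obtain ⟨hm1, hm2⟩ := A.fib b η hb hr
      have a1 : ‖gaga_pt A b η‖ ≤ C₂ * (1 + ‖b‖) := by
        refine (hC₂ _ hm1).trans (mul_le_mul_of_nonneg_left ?_ h₂)
        rw [hm2]
        linarith
      have a2 : ‖gaga_ext g (gaga_pt A b η)‖ ≤ C₁ * (C₂ * (1 + ‖b‖)) ^ m := by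
        rw [gaga_ext_mem g (z := gaga_pt A b η) hm1]
        exact (hC₁ _).trans
          (mul_le_mul_of_nonneg_left (pow_le_pow_left₀ (norm_nonneg _) a1 m) h₁)
      have a3 : ‖η‖ ^ i ≤ (C₃ * (1 + ‖b‖) ^ E) ^ i :=
        pow_le_pow_left₀ (norm_nonneg _) (hC₃ b η hr) i
      rw [norm_mul, norm_pow]
      refine (mul_le_mul a2 a3 (by positivity) (by positivity)).trans (le_of_eq ?_)
      rw [mul_pow, mul_pow, pow_add, pow_mul]
      ring
    refine (norm_multiset_sum_le _).trans ?_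
    refine (Multiset.sum_le_card_nsmul _
      (C₁ * C₂ ^ m * C₃ ^ i * (1 + ‖b‖) ^ (m + E * i)) ?_).trans ?_
    · intro r hr
      obtain ⟨z, hz, rfl⟩ := Multiset.mem_map.1 hr
      obtain ⟨η, hη, rfl⟩ := Multiset.mem_map.1 hz
      exact hk η hη
    · rw [Multiset.card_map, Multiset.card_map, nsmul_eq_mul, mul_assoc (A.μ.natDegree : ℝ)]
      refine mul_le_mul_of_nonneg_right ?_ (by positivity)
      exact_mod_cast (Polynomial.card_roots' _).trans Polynomial.natDegree_map_le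
  · rw [norm_zero]
    positivity

theorem gaga_poly (hX : IsManifold I c) (hL : Bpf I L) (A : Cov I L) {g : cone I → ℂ}
    (hg : Hol g) {m : ℕ} (hm : IsHom (m : ℤ) g) (i : ℕ) :
    ∃ p : MvPolynomial (Fin (n + 1)) ℂ, ∀ b, eval b A.Δ ^ 2 * gaga_t A g i b = eval b p := by
  obtain ⟨C, E, h₁, hC⟩ := gaga_t_growth hX hL A hg hm i
  obtain ⟨C', E', h₂, hC'⟩ := eval_growth A.Δ
  refine poly_of_growth (differentiable_sq_mul A.Δ (gaga_t_diff A hg i) hC)
    (C := C' ^ 2 * C) (E := E' * 2 + E) fun b => ?_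
  rw [norm_mul, norm_pow]
  refine (mul_le_mul (pow_le_pow_left₀ (norm_nonneg _) (hC' b) 2) (hC b) (norm_nonneg _)
    (by positivity)).trans (le_of_eq ?_)
  rw [mul_pow, pow_add, pow_mul]
  ring

/-- a universal denominator -/
theorem exists_den (hX : IsManifold I c) (hM : M = n + 1 + c) : ∃ D : SS M, D ∉ I ∧
    ∀ (m : ℕ) (g : cone I → ℂ), Hol g → IsHom (m : ℤ) g → pf I D * g ∈ Pol I := by
  obtain ⟨L, hL⟩ := hX.exists_bpf hM
  obtain ⟨A⟩ := hL.exists_cov hX hM
  obtain ⟨ν, hν⟩ := lagrange A.μ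
  refine ⟨aeval (fun i => lin (L i)) A.Δ ^ 3 * gaga_up L A.y A.μ.derivative, fun hD => ?_,
    fun m g hg hm => ?_⟩
  · obtain ⟨x, hx, hΔ⟩ := A.ne
    have h := hx.2 _ hD
    rw [map_mul, map_pow, gaga_base, gaga_eval_up, spec, ← Polynomial.derivative_map] at h
    refine mul_ne_zero (pow_ne_zero 3 hΔ) ?_ h
    have h2 := (A.sep _ hΔ).aeval_derivative_ne_zero (x := eval x A.y)
      (by rw [Polynomial.coe_aeval_eq_eval]; exact A.root x hx)
    rwa [Polynomial.coe_aeval_eq_eval] at h2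
  · choose p hp using gaga_poly hX hL A hg hm
    refine ⟨aeval (fun i => lin (L i)) A.Δ * ∑ i ∈ Finset.range A.μ.natDegree,
      aeval (fun i => lin (L i)) (p i) * gaga_up L A.y (ν i), funext fun x => ?_⟩
    change pf I _ x = pf I _ x * g x
    simp only [pf_apply, map_mul, map_pow, map_sum, gaga_base, gaga_eval_up, ← hp]
    by_cases hb : eval (prj L x.1) A.Δ = 0
    · simp [hb]
    · have e : gaga_pt A (prj L x.1) (eval x.1 A.y) = x.1 := by
        funext j
        rw [gaga_pt, ← A.back x.1 x.2 j, mul_div_cancel_left₀ _ (A.δ_ne _ hb)]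
      have h := hν (eval (prj L x.1)) (fun η => gaga_ext g (gaga_pt A (prj L x.1) η))
        (eval x.1 A.y) (A.monic.map _) (A.sep _ hb) (A.root x.1 x.2)
      rw [e, gaga_ext_mem g x.2, Polynomial.derivative_map] at h
      simp only [gaga_t, if_pos hb, spec, mul_assoc, ← Finset.mul_sum]
      rw [← h]
      ring

end Pool.Agent.HCF
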