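import Pool.Agent.P.MP_f644fa_ag.Liouv0

/-! Holomorphic dependence of simple roots. -/

noncomputable section
namespace Pool.Agent.HCF
open MvPolynomial Set Filter Topology

theorem liouv_mono {x C : ℝ} (hx : 0 ≤ x) (hC : 0 ≤ C) {E E' : ℕ} (h : E ≤ E') :
    C * (1 + x) ^ E ≤ C * (1 + x) ^ E' :=
  mul_le_mul_of_nonneg_left (pow_le_pow_right₀ (by linarith) h) hC

theorem eval_growth {e : ℕ} (p : MvPolynomial (Fin e) ℂ) :
    ∃ (C : ℝ) (E : ℕ), 0 ≤ C ∧ ∀ b, ‖eval b p‖ ≤ C * (1 + ‖b‖) ^ E := by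
  induction p using MvPolynomial.induction_on with
  | C a => exact ⟨‖a‖, 0, norm_nonneg _, fun b => by simp⟩
  | add p q hp hq =>
    obtain ⟨C, E, hC, h⟩ := hp
    obtain ⟨C', E', hC', h'⟩ := hq
    refine ⟨C + C', E + E', by positivity, fun b => ?_⟩
    rw [map_add, add_mul]
    exact (norm_add_le _ _).trans (add_le_add
      ((h b).trans (liouv_mono (norm_nonneg b) hC (Nat.le_add_right _ _)))
      ((h' b).trans (liouv_mono (norm_nonneg b) hC' (Nat.le_add_left _ _))))
  | mul_X p i hp =>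
    obtain ⟨C, E, hC, h⟩ := hp
    refine ⟨C, E + 1, hC, fun b => ?_⟩
    rw [map_mul, eval_X, norm_mul, pow_succ, ← mul_assoc]
    exact mul_le_mul (h b) ((norm_le_pi_norm b i).trans (by linarith)) (norm_nonneg _)
      (by positivity)

theorem root_growth {e : ℕ} {μ : Polynomial (MvPolynomial (Fin e) ℂ)} (hμ : μ.Monic) :
    ∃ (C : ℝ) (E : ℕ), 0 ≤ C ∧ ∀ b η, (μ.map (eval b)).IsRoot η → ‖η‖ ≤ C * (1 + ‖b‖) ^ E := by
  choose C E hC h using fun i => eval_growth (μ.coeff i)
  have hs : 0 ≤ ∑ i ∈ Finset.range μ.natDegree, C i := Finset.sum_nonneg fun i _ => hC i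
  refine ⟨∑ i ∈ Finset.range μ.natDegree, C i + 1, ∑ i ∈ Finset.range μ.natDegree, E i,
    by positivity, fun b η hη => ?_⟩
  have hm := hμ.map (eval b)
  have h1 := (hη.norm_lt_cauchyBound hm.ne_zero).le
  rw [Polynomial.cauchyBound, hm.leadingCoeff, nnnorm_one, div_one, hμ.natDegree_map] at h1
  set B := (1 + ‖b‖) ^ ∑ i ∈ Finset.range μ.natDegree, E i with hB
  have hB1 : 1 ≤ B := one_le_pow₀ (by linarith [norm_nonneg b])
  have h2 : (Finset.range μ.natDegree).sup (fun i => ‖(μ.map (eval b)).coeff i‖₊) ≤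
      ⟨(∑ i ∈ Finset.range μ.natDegree, C i) * B, by positivity⟩ := by
    refine Finset.sup_le fun i hi => ?_
    change ‖(μ.map (eval b)).coeff i‖ ≤ (∑ i ∈ Finset.range μ.natDegree, C i) * B
    rw [Polynomial.coeff_map]
    refine ((h i b).trans (liouv_mono (norm_nonneg b) (hC i)
      (Finset.single_le_sum (f := E) (fun _ _ => Nat.zero_le _) hi))).trans ?_
    exact mul_le_mul_of_nonneg_right (Finset.single_le_sum (f := C) (fun j _ => hC j) hi)
      (by linarith)
  have h3 : ‖η‖ ≤ (∑ i ∈ Finset.range μ.natDegree, C i) * B + 1 :=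
    NNReal.coe_le_coe.2 (h1.trans (add_le_add h2 le_rfl))
  linarith

theorem liouv_contDiff_eval {e : ℕ} (p : MvPolynomial (Fin e) ℂ) :
    ContDiff ℂ 1 fun b : Fin e → ℂ => eval b p := by
  induction p using MvPolynomial.induction_on with
  | C a => simpa using contDiff_const
  | add p q hp hq => simpa using hp.add hq
  | mul_X p i hp => simpa using hp.mul (contDiff_apply ℂ ℂ i)

theorem liouv_contDiff {e : ℕ} (q : Polynomial (MvPolynomial (Fin e) ℂ)) :
    ContDiff ℂ 1 fun z : (Fin e → ℂ) × ℂ => (q.map (eval z.1)).eval z.2 := by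
  induction q using Polynomial.induction_on' with
  | add p q hp hq => simpa using hp.add hq
  | monomial n a =>
    simpa using ((liouv_contDiff_eval a).comp contDiff_fst).mul (contDiff_snd.pow n)

theorem differentiable_spec {e : ℕ} (q : Polynomial (MvPolynomial (Fin e) ℂ)) :
    Differentiable ℂ fun z : (Fin e → ℂ) × ℂ => (q.map (eval z.1)).eval z.2 :=
  (liouv_contDiff q).differentiable one_ne_zero

theorem liouv_root {e : ℕ} (μ : Polynomial (MvPolynomial (Fin e) ℂ)) {b₀ : Fin e → ℂ}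
    (h : (μ.map (eval b₀)).Separable) {a : ℂ} (ha : (μ.map (eval b₀)).eval a = 0) :
    ∃ η : (Fin e → ℂ) → ℂ, η b₀ = a ∧
      ∀ᶠ b in 𝓝 b₀, DifferentiableAt ℂ η b ∧ (μ.map (eval b)).eval (η b) = 0 := by
  have hc := (liouv_contDiff μ).contDiffAt (x := (b₀, a))
  have hne : (μ.map (eval b₀)).derivative.eval a ≠ 0 := by
    have := h.eval₂_derivative_ne_zero (RingHom.id ℂ) (x := a) (by simpa using ha)
    simpa using this
  have h1 : HasFDerivAt (fun y : ℂ => (μ.map (eval b₀)).eval y)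
      (fderiv ℂ (fun z : (Fin e → ℂ) × ℂ => (μ.map (eval z.1)).eval z.2) (b₀, a) ∘L
        .inr ℂ (Fin e → ℂ) ℂ) a :=
    (differentiable_spec μ (b₀, a)).hasFDerivAt.comp a (hasFDerivAt_prodMk_right b₀ a)
  have h2 := h1.unique (((μ.map (eval b₀)).hasDerivAt a).hasFDerivAt_equiv hne)
  have hi : (fderiv ℂ (fun z : (Fin e → ℂ) × ℂ => (μ.map (eval z.1)).eval z.2) (b₀, a) ∘L
      .inr ℂ (Fin e → ℂ) ℂ).IsInvertible := by
    rw [h2]
    exact ContinuousLinearMap.isInvertible_equiv
  refine ⟨hc.implicitFunction one_ne_zero hi, hc.implicitFunction_apply_self one_ne_zero hi, ?_⟩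
  filter_upwards [(hc.contDiffAt_implicitFunction one_ne_zero hi).eventually (by simp),
    hc.eventually_apply_implicitFunction one_ne_zero hi] with b h3 h4
  exact ⟨h3.differentiableAt one_ne_zero, h4.trans ha⟩

/-- simple roots depend holomorphically on the parameters -/
theorem exists_roots {e : ℕ} {μ : Polynomial (MvPolynomial (Fin e) ℂ)} (hμ : μ.Monic)
    {b₀ : Fin e → ℂ} (h : (μ.map (eval b₀)).Separable) :
    ∃ (U : Set (Fin e → ℂ)) (η : Fin μ.natDegree → (Fin e → ℂ) → ℂ), IsOpen U ∧ b₀ ∈ U ∧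
      (∀ i, DifferentiableOn ℂ (η i) U) ∧
      ∀ b ∈ U, (μ.map (eval b)).roots = Finset.univ.val.map fun i => η i b := by
  classical
  have hcard : (μ.map (eval b₀)).roots.toFinset.card = μ.natDegree := by
    rw [Multiset.toFinset_card_of_nodup (Polynomial.nodup_roots h),
      IsAlgClosed.card_roots_eq_natDegree, hμ.natDegree_map]
  let a := (Finset.equivFinOfCardEq hcard).symm
  choose η h0 hη using fun i => liouv_root μ h (a := (a i).1)
    (Polynomial.isRoot_of_mem_roots (Multiset.mem_toFinset.1 (a i).2))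
  have hinj : ∀ᶠ b in 𝓝 b₀, ∀ i j, i ≠ j → η i b ≠ η j b := by
    refine eventually_all.2 fun i => eventually_all.2 fun j => ?_
    by_cases hij : i = j
    · exact Eventually.of_forall fun _ h' => (h' hij).elim
    · have h1 : η i b₀ ≠ η j b₀ := by
        rw [h0, h0]
        exact fun h' => hij (a.injective (Subtype.ext h'))
      have h2 := ((hη i).self_of_nhds.1.continuousAt.sub
        (hη j).self_of_nhds.1.continuousAt).eventually_ne (sub_ne_zero.2 h1)
      filter_upwards [h2] with b hb _ using sub_ne_zero.1 hb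
  obtain ⟨U, hU, hUo, hb₀⟩ := eventually_nhds_iff.1 ((eventually_all.2 hη).and hinj)
  refine ⟨U, η, hUo, hb₀, fun i b hb => ((hU b hb).1 i).1.differentiableWithinAt, fun b hb => ?_⟩
  have hi : Function.Injective fun i => η i b := fun i j hij =>
    by_contra fun h' => (hU b hb).2 i j h' hij
  refine Polynomial.roots_eq_of_natDegree_le_card_of_ne_zero (S := Finset.univ.map ⟨_, hi⟩)
    (fun x hx => ?_) (by simp [hμ.natDegree_map]) (hμ.map _).ne_zero
  obtain ⟨i, _, rfl⟩ := Finset.mem_map.1 hx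
  exact ((hU b hb).1 i).2

end Pool.Agent.HCF
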