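import Pool.Agent.P.MP_f644fa_ag.Prim
import Pool.Agent.P.MP_f644fa_ag.Liouv

/-! Holomorphic homogeneous functions on the cone are regular. -/

noncomputable section
namespace Pool.Agent.HCF
open MvPolynomial Module Set Filter Topology

variable {M : ℕ} {I : Ideal (SS M)} {c n : ℕ}

/-- holomorphic functions on the cone -/
structure Hol (g : cone I → ℂ) : Prop where
  cont : Continuous g
  comp : ∀ (e : ℕ) (U : Set (Fin e → ℂ)) (γ : (Fin e → ℂ) → Fin M → ℂ) (h : (Fin e → ℂ) → ℂ),
    IsOpen U → DifferentiableOn ℂ γ U → (∀ u ∈ U, ∃ hu : γ u ∈ cone I, h u = g ⟨γ u, hu⟩) →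
      DifferentiableOn ℂ h U

theorem Hol.mul {g g' : cone I → ℂ} (h : Hol g) (h' : Hol g') : Hol (g * g') := by
  classical
  refine ⟨h.cont.mul h'.cont, fun e U γ k hU hγ hk => ?_⟩
  have a1 := h.comp e U γ (fun u => if hu : γ u ∈ cone I then g ⟨γ u, hu⟩ else 0) hU hγ
    fun u hu => by
      obtain ⟨hm, -⟩ := hk u hu
      exact ⟨hm, dif_pos hm⟩
  have a2 := h'.comp e U γ (fun u => if hu : γ u ∈ cone I then g' ⟨γ u, hu⟩ else 0) hU hγ
    fun u hu => by
      obtain ⟨hm, -⟩ := hk u hu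
      exact ⟨hm, dif_pos hm⟩
  refine (a1.mul a2).congr fun u hu => ?_
  obtain ⟨hm, e⟩ := hk u hu
  simp only [e, Pi.mul_apply, dif_pos hm]

theorem hol_of_mem_sec {a : cone I → ℂ} (h : a ∈ secRing I) : Hol a := by
  refine ⟨continuous_of_mem_sec h, fun e U γ k hU hγ hk u₀ hu₀ => ?_⟩
  obtain ⟨hm₀, -⟩ := hk u₀ hu₀
  obtain ⟨j, hj⟩ := Function.ne_iff.1 hm₀.1
  obtain ⟨r, p, hp⟩ := h j
  have hγj : DifferentiableOn ℂ (fun u => γ u j) U := differentiableOn_pi.1 hγ j
  have hO : IsOpen (U ∩ (fun u => γ u j) ⁻¹' {0}ᶜ) :=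
    hγj.continuousOn.isOpen_inter_preimage hU isOpen_compl_singleton
  have a1 : DifferentiableOn ℂ (fun u => eval (γ u) p) U :=
    Differentiable.comp_differentiableOn (g := fun y : Fin M → ℂ => eval y p)
      (fun y => (hasFDerivAt_eval p y).differentiableAt) hγ
  have a2 : DifferentiableOn ℂ (fun u => (γ u j ^ r)⁻¹) (U ∩ (fun u => γ u j) ⁻¹' {0}ᶜ) :=
    ((hγj.mono inter_subset_left).pow r).inv fun u hu => pow_ne_zero r hu.2
  have a3 : DifferentiableOn ℂ k (U ∩ (fun u => γ u j) ⁻¹' {0}ᶜ) := by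
    refine ((a1.mono inter_subset_left).mul a2).congr fun u hu => ?_
    obtain ⟨hm, e⟩ := hk u hu.1
    have hne : γ u j ^ r ≠ 0 := pow_ne_zero r hu.2
    have := hp ⟨γ u, hm⟩
    simp only at this
    change k u = eval (γ u) p * (γ u j ^ r)⁻¹
    rw [e, ← this]
    field_simp
  exact (a3.differentiableAt (hO.mem_nhds ⟨hu₀, hj⟩)).differentiableWithinAt

theorem bound_of_hom (hX : IsManifold I c) {g : cone I → ℂ} (hg : Continuous g) {m : ℕ}
    (hm : IsHom (m : ℤ) g) : ∃ C : ℝ, 0 ≤ C ∧ ∀ x : cone I, ‖g x‖ ≤ C * ‖x.1‖ ^ m := by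
  have hS : IsCompact (Metric.sphere (0 : Fin M → ℂ) 1 ∩ ⋂ f ∈ I, {z | eval z f = 0}) :=
    (isCompact_sphere _ _).inter_right (isClosed_biInter fun f _ =>
      isClosed_eq (contDiff_eval f).continuous continuous_const)
  have hK : IsCompact {x : cone I | ‖x.1‖ = 1} := by
    rw [Subtype.isCompact_iff]
    refine (congrArg IsCompact ?_).mp hS
    ext z
    simp only [mem_inter_iff, mem_sphere_zero_iff_norm, mem_iInter, mem_ofPred_eq, mem_image]
    constructor
    · rintro ⟨h1, h2⟩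
      refine ⟨⟨z, ?_, h2⟩, h1, rfl⟩
      rintro rfl
      simp at h1
    · rintro ⟨x, h1, rfl⟩
      exact ⟨h1, x.2.2⟩
  obtain ⟨C, hC⟩ := hK.exists_bound_of_continuousOn hg.continuousOn
  refine ⟨max C 0, le_max_right _ _, fun x => ?_⟩
  have h0 : ‖x.1‖ ≠ 0 := norm_ne_zero_iff.2 x.2.1
  have h1 : (‖x.1‖ : ℂ) ≠ 0 := Complex.ofReal_ne_zero.2 h0
  have hy := hX.smul_mem x.2 (inv_ne_zero h1)
  have e := hm ⟨_, hy⟩ x ‖x.1‖ (by simp only [smul_smul, mul_inv_cancel₀ h1, one_smul])
  have hb := hC ⟨_, hy⟩ (by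
    simp only [mem_ofPred_eq, norm_smul, norm_inv, Complex.norm_real, norm_norm,
      inv_mul_cancel₀ h0])
  rw [e, norm_mul, zpow_natCast, norm_pow, Complex.norm_real, norm_norm, mul_comm]
  exact mul_le_mul_of_nonneg_right (hb.trans (le_max_left _ _)) (by positivity)

theorem gaga0_map {B : Type} [CommRing B] (φ : B →+* ℂ) (i : ℕ) (μ : Polynomial B) :
    (Polynomial.divX^[i] μ).map φ = Polynomial.divX^[i] (μ.map φ) := by
  induction i generalizing μ with
  | zero => rfl
  | succ i ih =>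
    rw [Function.iterate_succ_apply, Function.iterate_succ_apply, ih]
    refine congrArg _ (Polynomial.ext fun k => ?_)
    simp only [Polynomial.coeff_map, Polynomial.coeff_divX]

theorem gaga0_div (η₀ : ℂ) (d : ℕ) : ∀ p : Polynomial ℂ, p.natDegree ≤ d →
    (Polynomial.X - Polynomial.C η₀) * ∑ i ∈ Finset.range d,
      Polynomial.C ((Polynomial.divX^[i + 1] p).eval η₀) * Polynomial.X ^ i =
        p - Polynomial.C (p.eval η₀) := by
  induction d with
  | zero =>
    intro p hp
    rw [Polynomial.eq_C_of_natDegree_le_zero hp]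
    simp
  | succ d ih =>
    intro p hp
    have hq : p.divX.natDegree ≤ d := by
      rw [Polynomial.natDegree_divX_eq_natDegree_tsub_one]
      omega
    have h1 := ih _ hq
    have h2 := Polynomial.divX_mul_X_add p
    have h3 : p.eval η₀ = p.divX.eval η₀ * η₀ + p.coeff 0 := by
      conv_lhs => rw [← h2]
      simp
    rw [Finset.sum_range_succ', h3, map_add, map_mul]
    have h4 : ∑ i ∈ Finset.range d, Polynomial.C ((Polynomial.divX^[i + 1 + 1] p).eval η₀) *
        Polynomial.X ^ (i + 1) = (∑ i ∈ Finset.range d,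
          Polynomial.C ((Polynomial.divX^[i + 1] p.divX).eval η₀) * Polynomial.X ^ i) *
            Polynomial.X := by
      rw [Finset.sum_mul]
      refine Finset.sum_congr rfl fun i _ => ?_
      rw [Function.iterate_succ_apply _ (i + 1), pow_succ, mul_assoc]
    rw [h4]
    simp only [zero_add, Function.iterate_one, pow_zero, mul_one]
    linear_combination Polynomial.X * h1 + h2

/-- Lagrange interpolation in terms of twisted power sums -/
theorem lagrange {B : Type} [CommRing B] (μ : Polynomial B) : ∃ ν : ℕ → Polynomial B,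
    ∀ (φ : B →+* ℂ) (G : ℂ → ℂ) (η₀ : ℂ), (μ.map φ).Monic → (μ.map φ).Separable →
      (μ.map φ).IsRoot η₀ → G η₀ * (μ.map φ).derivative.eval η₀ =
        ∑ i ∈ Finset.range μ.natDegree,
          ((μ.map φ).roots.map fun η => G η * η ^ i).sum * ((ν i).map φ).eval η₀ := by
  refine ⟨fun i => Polynomial.divX^[i + 1] μ, fun φ G η₀ hm hs hr => ?_⟩
  simp only [gaga0_map]
  have h1 := gaga0_div η₀ μ.natDegree (μ.map φ) Polynomial.natDegree_map_le
  set p := μ.map φ with hp
  set P := ∑ i ∈ Finset.range μ.natDegree,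
      Polynomial.C ((Polynomial.divX^[i + 1] p).eval η₀) * Polynomial.X ^ i with hP
  have h2 : p.derivative.eval η₀ = P.eval η₀ := by
    have := congrArg (fun q => (Polynomial.derivative q).eval η₀) h1
    simpa using this.symm
  have h3 : ∀ η, p.IsRoot η → η ≠ η₀ → P.eval η = 0 := by
    intro η hη hne
    have := congrArg (Polynomial.eval η) h1
    rw [Polynomial.eval_mul, Polynomial.eval_sub, Polynomial.eval_sub, Polynomial.eval_C,
      Polynomial.eval_C, Polynomial.eval_X, hη.eq_zero, hr.eq_zero, sub_zero] at this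
    exact (mul_eq_zero.1 this).resolve_left (sub_ne_zero.2 hne)
  let s : Finset ℂ := ⟨p.roots, Polynomial.nodup_roots hs⟩
  have h4 : ∀ f : ℂ → ℂ, (p.roots.map f).sum = ∑ η ∈ s, f η := fun f => rfl
  have h5 : ∀ η, ∑ i ∈ Finset.range μ.natDegree,
      G η * η ^ i * (Polynomial.divX^[i + 1] p).eval η₀ = G η * P.eval η := by
    intro η
    rw [hP, Polynomial.eval_finsetSum, Finset.mul_sum]
    refine Finset.sum_congr rfl fun i _ => ?_
    rw [Polynomial.eval_mul, Polynomial.eval_C, Polynomial.eval_pow, Polynomial.eval_X]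
    ring
  simp only [h4, Finset.sum_mul]
  rw [Finset.sum_comm, Finset.sum_congr rfl fun η _ => h5 η, h2]
  have hmem : η₀ ∈ s := (Polynomial.mem_roots hm.ne_zero).2 hr
  refine (Finset.sum_eq_single_of_mem (f := fun η => G η * P.eval η) η₀ hmem
    fun η hη hne => ?_).symm
  rw [h3 η (Polynomial.isRoot_of_mem_roots hη) hne, mul_zero]

end Pool.Agent.HCF
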