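import Pool.Agent.P.MP_f644fa_ag.Diag3

/-! The trace identities. -/

noncomputable section
namespace Pool.Agent.HCF
open Finset Module PowerSeries
open scoped Kronecker

section aux
variable {σ O W : Type} [LinearOrder σ] [Fintype σ] [CommRing O] [Algebra ℂ O] [AddCommGroup W]
  [Module ℂ W] [Module O W] [IsScalarTower ℂ O W]

omit [Algebra ℂ O] [Module ℂ W] [IsScalarTower ℂ O W] in
theorem ident_iov_apply (u : σ → O) (z : Finset σ → W) (J : Finset σ) :
    iov W u z J = ∑ j, u j • io O W j z J := by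
  simp [iov, LinearMap.sum_apply, Finset.sum_apply]

theorem ident_comm (u : σ → O) (τ : End ℂ W) (η κ : ℂ)
    (h : ∀ j y, τ (u j • y) = η • u j • τ y) (z : Finset σ → W) :
    iov W u (piOp (fun J : Finset σ => (κ * η) ^ J.card) τ z) =
      κ • piOp (fun J : Finset σ => (κ * η) ^ J.card) τ (iov W u z) := by
  funext J
  rw [ident_iov_apply, Pi.smul_apply, piOp_apply, ident_iov_apply, map_sum, Finset.smul_sum,
    Finset.smul_sum]
  refine Finset.sum_congr rfl fun j _ => ?_
  rw [h, io_apply, io_apply]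
  by_cases hj : j ∈ J
  · simp [hj]
  · rw [if_neg hj, if_neg hj, piOp_apply, card_insert_of_notMem hj, map_zsmul, smul_smul κ,
      smul_smul, smul_comm (sg j J), smul_comm (u j)]
    congr 1
    ring

omit [Algebra ℂ O] [Module ℂ W] [IsScalarTower ℂ O W] in
theorem ident_iov_mem (u : σ → O) (G : Submodule O W) {z : Finset σ → W} (hz : ∀ J, z J ∈ G)
    (J : Finset σ) : iov W u z J ∈ G := by
  rw [ident_iov_apply]
  refine G.sum_mem fun j _ => G.smul_mem _ ?_
  rw [io_apply]
  split_ifs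
  · exact G.zero_mem
  · exact zsmul_mem (hz _) _

omit [Algebra ℂ O] [Module ℂ W] [IsScalarTower ℂ O W] [Fintype σ] in
theorem ident_ep_mem (i : σ) (G : Submodule O W) {z : Finset σ → W} (hz : ∀ J, z J ∈ G)
    (J : Finset σ) : ep O W i z J ∈ G := by
  rw [ep_apply]
  split_ifs
  · exact zsmul_mem (hz _) _
  · exact G.zero_mem

omit [Algebra ℂ O] [Module ℂ W] [IsScalarTower ℂ O W] in
theorem ident_homotopy (u : σ → O) (i : σ) {z : Finset σ → W} (hz : iov W u z = 0) :
    iov W u (ep O W i z) = u i • z := by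
  have h := LinearMap.congr_fun (iov_epv (N := W) u (Pi.single i (1 : O))) z
  rw [epv_single] at h
  simpa [hz, Pi.single_apply] using h

end aux

section cstaux
variable {O O' : Type} [CommRing O] [Algebra ℂ O] [CommRing O'] [Algebra ℂ O'] {I : Type}
  [Fintype I]

theorem ident_cst_smul (T : Matrix I I ℂ) (r : O) (y : I → O) :
    cst O T (r • y) = r • cst O T y := by
  funext A
  simp [cst_apply, Finset.mul_sum]

theorem ident_cst_map (f : O →ₐ[ℂ] O') (T : Matrix I I ℂ) (y : I → O) (A : I) :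
    f (cst O T y A) = cst O' T (fun B => f (y B)) A := by
  simp [cst_apply]

theorem ident_cst_sc (f : O →ₐ[ℂ] O) (w : I → ℕ) (T : Matrix I I ℂ)
    (hw : ∀ A B, T A B ≠ 0 → w A = w B) (y : I → O) :
    cst O T (piOp (fun A => 2 ^ w A) f.toLinearMap y) =
      piOp (fun A => 2 ^ w A) f.toLinearMap (cst O T y) := by
  funext A
  simp only [cst_apply, piOp_apply, map_sum, map_smul, Finset.smul_sum]
  refine Finset.sum_congr rfl fun B _ => ?_
  by_cases h : T A B = 0
  · simp [h]
  · rw [hw A B h, smul_comm]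

end cstaux

variable {M n : ℕ} {X R RR : Type} [CommRing R] [Algebra ℂ R] [CommRing RR] [Algebra ℂ RR]
  {I I' : Type} [Fintype I] [Fintype I'] {S : NS M n X R RR}

theorem NS.ident (D : Dat S.toNS0 I) (D' : Dat S.toNS0 I') (η : ℂ) (τ : End ℂ (I × I' → RR))
    (T : Matrix (I × I') (I × I') ℂ) (h1 : ∀ y ∈ D.MM D', τ y ∈ D.MM D')
    (h2 : ∀ y, τ (S.sc2 (D.tensor D').w y) = S.sc2 (D.tensor D').w (τ y))
    (h3 : ∀ j y, τ (S.u j • y) = η • S.u j • τ y)
    (h4 : ∀ y, (fun q => S.mu (τ y q)) = cst R T fun q => S.mu (y q)) :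
    PEq ((1 + C (-η) * PowerSeries.X) ^ M *
        chi (S.sc2 (D.tensor D').w) ((D.MM D').restrictScalars ℂ) τ)
      ((S.lam.tensor (D.tensor D')).chi (parM (Fin M) (-η) ⊗ₖ T)) := by
  obtain ⟨m₁, hm₁⟩ := NS.core_inj D D'
  obtain ⟨m₂, hm₂⟩ := NS.core_surj D D'
  have hk := chi_koszul (Fin M) (-η) (D.grd_MM D') (T := τ) h1 fun w _ => h2 w
  rw [Fintype.card_fin, ← D.KK_eq D'] at hk
  rw [← hk]
  refine PEq.of_coeff (max m₁ m₂) fun m hm => ?_
  haveI := (D.grd_KK D').fin m
  have hτ : ∀ z ∈ (D.KK D').restrictScalars ℂ,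
      piOp (fun J : Finset (Fin M) => (-η) ^ J.card) τ z ∈ (D.KK D').restrictScalars ℂ := by
    intro z hz J _
    exact (D.MM D').smul_of_tower_mem _ (h1 _ (hz J trivial))
  have hc : ∀ z, piOp (fun J : Finset (Fin M) => (-η) ^ J.card) τ (S.sK (D.tensor D').w z) =
      S.sK (D.tensor D').w (piOp (fun J : Finset (Fin M) => (-η) ^ J.card) τ z) := by
    intro z
    funext J
    simp only [NS0.sK, piOp_apply, map_smul, h2]
    rw [smul_comm]
  have key := hopf (p := (D.KK D').restrictScalars ℂ ⊓ Eg (S.sK (D.tensor D').w) (m : ℕ))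
    (d := S.dd _) (τ := piOp (fun J : Finset (Fin M) => (-η) ^ J.card) τ)
    (τ' := cst R (parM (Fin M) (-η) ⊗ₖ T)) (S.muh _) (mapsTo_inf hτ (fun z _ => hc z) _)
    (fun z _ => by
      have := ident_comm S.u τ η (-1) h3 z
      simp only [neg_mul, one_mul, neg_smul, one_smul] at this
      exact this)
    (fun z _ => by
      funext ⟨J, q⟩
      rw [cst_kron, parM, cst_diagonal]
      have := congrFun (h4 (z J)) q
      change S.mu (((-η) ^ J.card • τ (z J)) q) = _
      rw [Pi.smul_apply, map_smul, this]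
      rfl)
    (hm₁ m (le_of_max_le_left hm))
  rw [hm₂ m (le_of_max_le_right hm)] at key
  simp only [Dat.chi, chi, coeff_mk]
  exact key

omit [Fintype I] [Fintype I'] in
theorem ident_sc2_β (S : NS0 M n X R RR) (w : I → ℕ) (w' : I' → ℕ) (a : I → R) (b : I' → R) :
    S.sc2 (fun q : I × I' => w q.1 + w' q.2) (S.β I I' a b) = S.β I I' (S.sc w a) (S.sc w' b) := by
  funext q
  simp only [NS0.sc2, NS0.sc, piOp_apply, NS0.β_apply, AlgHom.toLinearMap_apply, map_mul,
    S.s2_inl, S.s2_inr, map_smul, pow_add, smul_mul_smul_comm]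

theorem ident_cst_β (S : NS0 M n X R RR) (T : Matrix I I ℂ) (T' : Matrix I' I' ℂ) (a : I → R)
    (b : I' → R) : cst RR (T ⊗ₖ T') (S.β I I' a b) = S.β I I' (cst R T a) (cst R T' b) := by
  funext ⟨A, B⟩
  simp only [cst_apply, NS0.β_apply, Fintype.sum_prod_type, Matrix.kroneckerMap_apply, map_sum,
    map_smul, Finset.sum_mul_sum, smul_mul_smul_comm]

theorem NS.ident1 {D : Dat S.toNS0 I} {D' : Dat S.toNS0 I'} {T : Matrix I I ℂ}
    {T' : Matrix I' I' ℂ} (h : D.Ok T) (h' : D'.Ok T') :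
    PEq ((1 - PowerSeries.X) ^ M * (D.chi T * D'.chi T'))
      ((S.lam.tensor (D.tensor D')).chi (parM (Fin M) (-1) ⊗ₖ (T ⊗ₖ T'))) := by
  have key := NS.ident D D' 1 (cst RR (T ⊗ₖ T')) (T ⊗ₖ T')
    (fun y hy => by
      induction hy using Submodule.span_induction with
      | mem y hy =>
        obtain ⟨a, ha, b, hb, rfl⟩ := hy
        rw [ident_cst_β]
        exact Submodule.subset_span ⟨_, h.map a ha, _, h'.map b hb, rfl⟩
      | zero => rw [map_zero]; exact Submodule.zero_mem _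
      | add a b _ _ ha hb => rw [map_add]; exact Submodule.add_mem _ ha hb
      | smul r a _ ha => rw [ident_cst_smul]; exact Submodule.smul_mem _ _ ha)
    (fun y => ident_cst_sc S.s2 _ _ (h.kron h').wt y)
    (fun j y => by rw [ident_cst_smul, one_smul])
    (fun y => funext fun q => ident_cst_map S.mu _ y q)
  have e := chi_prod (s'' := S.sc2 (D.tensor D').w) (T'' := cst RR (T ⊗ₖ T')) (T := cst R T)
    (T' := cst R T') (S.tensInj I I') D.grd D'.grd
    (fun a _ b _ => ident_sc2_β S.toNS0 D.w D'.w a b) h.map (fun w _ => h.comm w) h'.map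
    (fun w _ => h'.comm w) fun a _ b _ => ident_cst_β S.toNS0 T T' a b
  rw [D.MM_eq D', e] at key
  have e1 : (1 + C (-1 : ℂ) * PowerSeries.X : ℂ⟦X⟧) = 1 - PowerSeries.X := by
    rw [map_neg, map_one]; ring
  rw [e1] at key
  exact key

theorem ident_ext (S : NS0 M n X R RR) {O : Type} [CommRing O] [Algebra ℂ O] {f g : RR →ₐ[ℂ] O}
    (h1 : ∀ a, f (S.inl a) = g (S.inl a)) (h2 : ∀ a, f (S.inr a) = g (S.inr a)) (r : RR) :
    f r = g r := by
  have h := S.ind2 (LinearMap.eqLocus f.toLinearMap g.toLinearMap) fun a b => by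
    simp [LinearMap.mem_eqLocus, h1, h2]
  have hr : r ∈ LinearMap.eqLocus f.toLinearMap g.toLinearMap := h ▸ Submodule.mem_top
  exact hr

/-- the exchange of the factors composed with a constant operator -/
def identSw (S : NS0 M n X R RR) (T : Matrix (I × I) (I × I) ℂ) : End ℂ (I × I → RR) where
  toFun y q := S.fl (cst RR T y q.swap)
  map_add' a b := by funext q; simp
  map_smul' c a := by funext q; simp

theorem identSw_apply (S : NS0 M n X R RR) (T : Matrix (I × I) (I × I) ℂ) (y : I × I → RR)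
    (q : I × I) : identSw S T y q = S.fl (cst RR T y q.swap) := rfl

theorem identSw_smul (S : NS0 M n X R RR) (T : Matrix (I × I) (I × I) ℂ) (r : RR)
    (y : I × I → RR) : identSw S T (r • y) = S.fl r • identSw S T y := by
  funext q
  simp [identSw_apply, ident_cst_smul]

theorem identSw_β (S : NS0 M n X R RR) (T : Matrix I I ℂ) (a b : I → R) :
    identSw S (T ⊗ₖ T) (S.β I I a b) = S.β I I (cst R T b) (cst R T a) := by
  funext q
  rw [identSw_apply, ident_cst_β, NS0.β_apply, NS0.β_apply, map_mul, S.fl_inl, S.fl_inr, mul_comm]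
  rfl

theorem NS.ident2 [DecidableEq I] {D : Dat S.toNS0 I} {T : Matrix I I ℂ} (h : D.Ok T) :
    PEq ((1 + PowerSeries.X) ^ M * ex2 (D.chi (T * T)))
      ((S.lam.tensor (D.tensor D)).chi (1 ⊗ₖ (swM I * (T ⊗ₖ T)))) := by
  have hs : ∀ r, S.fl (S.s2 r) = S.s2 (S.fl r) :=
    ident_ext S.toNS0 (f := S.fl.comp S.s2) (g := S.s2.comp S.fl)
      (fun a => by simp [S.s2_inl, S.s2_inr, S.fl_inl])
      fun a => by simp [S.s2_inl, S.s2_inr, S.fl_inr]
  have hm : ∀ r, S.mu (S.fl r) = S.mu r :=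
    ident_ext S.toNS0 (f := S.mu.comp S.fl) (g := S.mu)
      (fun a => by simp [S.mu_inl, S.mu_inr, S.fl_inl])
      fun a => by simp [S.mu_inl, S.mu_inr, S.fl_inr]
  have key := NS.ident D D (-1) (identSw S.toNS0 (T ⊗ₖ T)) (swM I * (T ⊗ₖ T))
    (fun y hy => by
      induction hy using Submodule.span_induction with
      | mem y hy =>
        obtain ⟨a, ha, b, hb, rfl⟩ := hy
        rw [identSw_β]
        exact Submodule.subset_span ⟨_, h.map b hb, _, h.map a ha, rfl⟩
      | zero => rw [map_zero]; exact Submodule.zero_mem _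
      | add a b _ _ ha hb => rw [map_add]; exact Submodule.add_mem _ ha hb
      | smul r a _ ha => rw [identSw_smul]; exact Submodule.smul_mem _ _ ha)
    (fun y => by
      funext q
      rw [identSw_apply, NS0.sc2, ident_cst_sc S.s2 _ _ (h.kron h).wt y]
      simp only [piOp_apply, map_smul, AlgHom.toLinearMap_apply, hs, identSw_apply]
      congr 2
      exact add_comm _ _)
    (fun j y => by
      rw [identSw_smul, NS0.u, map_sub, S.fl_inl, S.fl_inr, neg_one_smul, ← neg_smul, neg_sub])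
    (fun y => by
      funext q
      rw [identSw_apply, hm, cst_mul, cst_swM, ident_cst_map])
  have e := chi_swap (s'' := S.sc2 (D.tensor D).w) (T'' := identSw S.toNS0 (T ⊗ₖ T))
    (T := cst R T) (S.tensInj I I) D.grd (fun a _ b _ => ident_sc2_β S.toNS0 D.w D.w a b) h.map
    (fun w _ => h.comm w) fun a _ b _ => identSw_β S.toNS0 T a b
  have e2 : cst R T * cst R T = cst R (T * T) := LinearMap.ext fun y => (cst_mul T T y).symm
  have e3 : parM (Fin M) 1 = 1 := by simp [parM]
  rw [D.MM_eq D, e, e2, neg_neg, map_one, one_mul, e3] at key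
  exact key

theorem ident_exact {S : NS0 M n X R RR} (D : Dat S I) : ∃ m₀ : ℕ, ∀ m ≥ m₀,
    ∀ z : Finset (Fin (n + 1)) → I → R, (∀ J, z J ∈ D.V ⊓ Eg (S.sc D.w) ((m : ℕ) - J.card)) →
      iov (I → R) S.l z = 0 →
        ∃ y, (∀ J, y J ∈ D.V ⊓ Eg (S.sc D.w) ((m : ℕ) - J.card)) ∧ iov (I → R) S.l y = z := by
  haveI := noeth S.gen
  set K : Submodule R (Finset (Fin (n + 1)) → I → R) := Submodule.pi Set.univ fun _ => D.G with hK
  set s : End ℂ (Finset (Fin (n + 1)) → I → R) := piOp (fun J => 2 ^ J.card) (S.sc D.w) with hs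
  have hl : ∀ j y, S.sc D.w (S.l j • y) = (2 : ℂ) • S.l j • S.sc D.w y := by
    intro j y
    funext A
    simp only [NS0.sc, piOp_apply, Pi.smul_apply, smul_eq_mul, AlgHom.toLinearMap_apply, map_mul,
      S.s1_l, mul_smul_comm]
    rw [smul_comm (2 : ℂ), two_smul, mul_assoc, two_mul]
  have hd : ∀ z, iov (I → R) S.l (s z) = s (iov (I → R) S.l z) := by
    intro z
    have := ident_comm S.l (S.sc D.w) 2 1 hl z
    simp only [one_mul, one_smul] at this
    exact this
  have hsK : ∀ z ∈ K, s z ∈ K := fun z hz J _ =>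
    D.G.smul_of_tower_mem _ (D.inv _ (hz J trivial))
  let A : Ideal R :=
    { carrier := {g | ∀ z ∈ K ⊓ LinearMap.ker (iov (I → R) S.l), g • z ∈ K.map (iov (I → R) S.l)}
      add_mem' := fun {a b} ha hb z hz => by
        rw [add_smul]; exact Submodule.add_mem _ (ha z hz) (hb z hz)
      zero_mem' := fun z _ => by rw [zero_smul]; exact Submodule.zero_mem _
      smul_mem' := fun c a ha z hz => by
        rw [smul_eq_mul, mul_smul]; exact Submodule.smul_mem _ _ (ha z hz) }
  have hA : ∀ i, S.l i ∈ A := fun i z hz =>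
    ⟨ep R _ i z, fun J _ => ident_ep_mem i D.G (fun J => hz.1 J trivial) J,
      ident_homotopy S.l i hz.2⟩
  obtain ⟨m₀, hm₀⟩ := fin_len S.gen (K ⊓ LinearMap.ker (iov (I → R) S.l))
    (K.map (iov (I → R) S.l)) (IsNoetherian.noetherian _)
    (S.ns A fun p => (S.bpf p).imp' S.l fun i hi => ⟨hA i, hi⟩) s
    (fun z hz => ⟨hsK z hz.1, by
      have h0 : iov (I → R) S.l z = 0 := hz.2
      change iov (I → R) S.l (s z) = 0
      rw [hd, h0, map_zero]⟩)
    (fun z hz => by
      obtain ⟨y, hy, rfl⟩ := hz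
      exact ⟨s y, hsK y hy, hd y⟩)
  refine ⟨m₀, fun m hm z hz h0 => ?_⟩
  have hp := pi_inf_Eg (fun J : Finset (Fin (n + 1)) => J.card) (S.sc D.w) D.V (m : ℕ)
  have hz' : z ∈ Submodule.pi Set.univ (fun _ => D.V) ⊓ Eg s (m : ℕ) := by
    rw [hs, hp]
    exact fun J _ => hz J
  obtain ⟨y, hy, e⟩ := hm₀ m hm z ⟨hz'.1, h0⟩ hz'.2
  have hg := (D.grd.pi fun J : Finset (Fin (n + 1)) => J.card).map_inf (s' := s)
    ((iov (I → R) S.l).restrictScalars ℂ) (fun z _ => hd z) (m : ℕ)
  have hz2 : z ∈ (Submodule.pi Set.univ fun _ => D.V).map ((iov (I → R) S.l).restrictScalars ℂ) ⊓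
      Eg s (m : ℕ) := ⟨⟨y, hy, e⟩, hz'.2⟩
  rw [hg, hp] at hz2
  obtain ⟨y', hy', e'⟩ := hz2
  exact ⟨y', fun J => hy' J trivial, e'⟩

/-- rationality, with the order of the pole -/
theorem Dat.rat {S : NS0 M n X R RR} {D : Dat S I} {T : Matrix I I ℂ} (h : D.Ok T) :
    ∃ g : Polynomial ℂ, (g : ℂ⟦X⟧) = (1 - PowerSeries.X) ^ (n + 1) * D.chi T := by
  obtain ⟨m₀, hm₀⟩ := ident_exact D
  have e1 : (1 + C (-1 : ℂ) * PowerSeries.X : ℂ⟦X⟧) = 1 - PowerSeries.X := by
    rw [map_neg, map_one]; ring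
  have hl : ∀ j y, S.sc D.w (S.l j • y) = (2 : ℂ) • S.l j • S.sc D.w y := by
    intro j y
    funext A
    simp only [NS0.sc, piOp_apply, Pi.smul_apply, smul_eq_mul, AlgHom.toLinearMap_apply, map_mul,
      S.s1_l, mul_smul_comm]
    rw [smul_comm (2 : ℂ), two_smul, mul_assoc, two_mul]
  have key : PEq ((1 - PowerSeries.X) ^ (n + 1) * D.chi T) 0 := by
    refine PEq.of_coeff m₀ fun m hm => ?_
    have hc := coeff_koszul (Fin (n + 1)) (-1)
      (fun k => trOn (D.V ⊓ Eg (S.sc D.w) k) (cst R T))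
      (fun k hk => by rw [D.grd.neg hk, trOn_bot]) m
    rw [Fintype.card_fin, e1] at hc
    rw [map_zero]
    refine hc.trans ?_
    haveI := fun J : Finset (Fin (n + 1)) => D.grd.fin' ((m : ℕ) - J.card)
    refine euler S.l (fun J => D.V ⊓ Eg (S.sc D.w) ((m : ℕ) - J.card))
      (fun J => mapsTo_inf h.map (fun w _ => h.comm w) _) (fun i w => ident_cst_smul T _ w)
      (fun z hz => ?_) (hm₀ m hm)
    have hp := pi_inf_Eg (fun J : Finset (Fin (n + 1)) => J.card) (S.sc D.w) D.V (m : ℕ)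
    have hz' : z ∈ Submodule.pi Set.univ (fun _ => D.V) ⊓
        Eg (piOp (fun J : Finset (Fin (n + 1)) => 2 ^ J.card) (S.sc D.w)) (m : ℕ) := by
      rw [hp]
      exact fun J _ => hz J
    have h2 := mapsTo_inf (T := (iov (I → R) S.l).restrictScalars ℂ)
      (p := Submodule.pi Set.univ fun _ => D.V)
      (s := piOp (fun J : Finset (Fin (n + 1)) => 2 ^ J.card) (S.sc D.w))
      (fun z hz J _ => ident_iov_mem S.l D.G (fun J => hz J trivial) J)
      (fun z _ => by
        have := ident_comm S.l (S.sc D.w) 2 1 hl z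
        simp only [one_mul, one_smul] at this
        exact this) _ z hz'
    rw [hp] at h2
    exact fun J => h2 J trivial
  obtain ⟨g, hg⟩ := key
  exact ⟨g, by rw [hg, zero_add]⟩

end Pool.Agent.HCF
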