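import Pool.Agent.P.MP_f644fa_ag.LDefs

/-! Linear algebra: orthogonals, dual fields. -/

noncomputable section
namespace Pool.Agent.HCF
open Finset Module

variable {σ σ0 σ1 : Type} [Fintype σ] [Fintype σ0] [Fintype σ1]

theorem finrank_perp (B : Submodule ℂ (σ → ℂ)) :
    finrank ℂ (perp B) + finrank ℂ B = Fintype.card σ := by
  classical
  have h : perp B = B.dualAnnihilator.map (dotProductEquiv ℂ σ).symm.toLinearMap := by
    rw [← Submodule.comap_equiv_eq_map_symm]
    ext v
    rw [Submodule.mem_comap, Submodule.mem_dualAnnihilator]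
    rfl
  rw [h, LinearEquiv.finrank_map_eq, add_comm, Subspace.finrank_add_finrank_dualAnnihilator_eq]
  simp

theorem perp_perp (B : Submodule ℂ (σ → ℂ)) : perp (perp B) = B := by
  symm
  refine Submodule.eq_of_le_of_finrank_eq (fun b hb v hv => ?_) ?_
  · simpa only [mul_comm] using hv b hb
  · have h1 := finrank_perp B
    have h2 := finrank_perp (perp B)
    omega

theorem le_perp_comm {A B : Submodule ℂ (σ → ℂ)} : A ≤ perp B ↔ B ≤ perp A := by
  constructor <;> intro h b hb a ha <;> simpa only [mul_comm] using h ha b hb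

theorem perp_anti {A B : Submodule ℂ (σ → ℂ)} (h : A ≤ B) : perp B ≤ perp A := fun _ hv a ha =>
  hv a (h ha)

theorem mem_perp_span {s : Set (σ → ℂ)} {v : σ → ℂ} :
    v ∈ perp (Submodule.span ℂ s) ↔ ∀ b ∈ s, ∑ j, v j * b j = 0 := by
  refine ⟨fun h b hb => h b (Submodule.subset_span hb), fun h b hb => ?_⟩
  induction hb using Submodule.span_induction with
  | mem b hb => exact h b hb
  | zero => simp
  | add a b _ _ ha hb => simp only [Pi.add_apply, mul_add, sum_add_distrib, ha, hb, add_zero]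
  | smul c a _ ha =>
    simp only [Pi.smul_apply, smul_eq_mul, mul_left_comm _ c, ← mul_sum, ha, mul_zero]

/-- the span of the rows is the orthogonal of the common kernel -/
theorem span_eq_perp {ι : Type} (v : ι → σ → ℂ) (K : Submodule ℂ (σ → ℂ))
    (h : ∀ θ, θ ∈ K ↔ ∀ i, ∑ j, v i j * θ j = 0) : Submodule.span ℂ (Set.range v) = perp K := by
  have hK : K = perp (Submodule.span ℂ (Set.range v)) := by
    ext θ
    rw [h, mem_perp_span]
    constructor
    · rintro h1 _ ⟨i, rfl⟩
      simpa only [mul_comm] using h1 i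
    · intro h1 i
      simpa only [mul_comm] using h1 _ ⟨i, rfl⟩
  rw [hK, perp_perp]

/-- dual fields -/
theorem dual_fields {R ι : Type} [CommRing R] [Algebra ℂ R] [Fintype ι] [DecidableEq ι]
    (e : R →ₐ[ℂ] ℂ) (v : ι → σ → R) (h : LinearIndependent ℂ fun k j => e (v k j)) :
    ∃ (δ : R) (u : ι → σ → R), e δ ≠ 0 ∧
      ∀ k k', ∑ j, v k j * u k' j = if k = k' then δ else 0 := by
  classical
  let J0 : Matrix ι σ ℂ := Matrix.of fun i j => e (v i j)
  have hinj : LinearMap.ker (Matrix.vecMulLinear J0) = ⊥ := by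
    rw [LinearMap.ker_eq_bot]
    exact Matrix.vecMul_injective_iff.2 h
  obtain ⟨r, hr⟩ := (Matrix.vecMulLinear J0).exists_leftInverse_of_injective hinj
  let E : Matrix σ ι ℂ := Matrix.of fun j k => r (Pi.single j 1) k
  have hE : J0 * E = 1 := by
    ext i k
    have h1 := congrFun (LinearMap.congr_fun hr (Pi.single i 1)) k
    have h2 : Matrix.vecMulLinear J0 (Pi.single i 1) =
        ∑ j, J0 i j • (Pi.single j 1 : σ → ℂ) := by
      funext j
      simp [Finset.sum_apply, Pi.single_apply]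
    rw [LinearMap.comp_apply, h2, map_sum] at h1
    simp only [map_smul, Finset.sum_apply, Pi.smul_apply, smul_eq_mul, LinearMap.id_apply] at h1
    rw [Matrix.mul_apply, Matrix.one_apply]
    simp only [E, Matrix.of_apply]
    rw [h1, Pi.single_apply]
    simp [eq_comm]
  let J : Matrix ι σ R := Matrix.of v
  let E' : Matrix σ ι R := E.map (algebraMap ℂ R)
  have hN : (J * E').map (e : R →+* ℂ) = 1 := by
    rw [Matrix.map_mul, ← hE]
    refine congrArg₂ (· * ·) rfl ?_
    ext j k
    simp [E']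
  refine ⟨(J * E').det, fun k j => (E' * (J * E').adjugate) j k, ?_, ?_⟩
  · have h3 : e (J * E').det = (e : R →+* ℂ) (J * E').det := rfl
    rw [h3, RingHom.map_det, RingHom.mapMatrix_apply, hN, Matrix.det_one]
    exact one_ne_zero
  · intro i k
    have := congrFun (congrFun (Matrix.mul_adjugate (J * E')) i) k
    rw [Matrix.mul_assoc, Matrix.mul_apply] at this
    simpa [J, Matrix.one_apply] using this

theorem la0_pair {ι : Type} [Fintype ι] (g : ι → ℂ) (v : ι → σ → ℂ) (u : σ → ℂ) :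
    ∑ j, (∑ k, g k • v k) j * u j = ∑ k, g k * ∑ j, v k j * u j := by
  simp only [Finset.sum_apply, Pi.smul_apply, smul_eq_mul, sum_mul, mul_sum, mul_assoc]
  exact sum_comm

theorem indep_of_dual {ι : Type} [Fintype ι] [DecidableEq ι] {v u : ι → σ → ℂ} {δ : ℂ}
    (hδ : δ ≠ 0) (h : ∀ k k', ∑ j, v k j * u k' j = if k = k' then δ else 0) :
    LinearIndependent ℂ v := by
  rw [Fintype.linearIndependent_iff]
  intro g hg k'
  have h1 : ∑ j, (∑ k, g k • v k) j * u k' j = 0 := by
    rw [hg]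
    simp
  rw [la0_pair, sum_congr rfl fun k _ => by rw [h k k']] at h1
  simpa [hδ] using h1

/-- expansion in a family with dual vectors -/
theorem expand_of_dual {ι : Type} [Fintype ι] [DecidableEq ι] {v u : ι → σ → ℂ} {δ : ℂ}
    (h : ∀ k k', ∑ j, v k j * u k' j = if k = k' then δ else 0) {w : σ → ℂ}
    (hw : w ∈ Submodule.span ℂ (Set.range v)) : δ • w = ∑ k, (∑ j, w j * u k j) • v k := by
  obtain ⟨g, rfl⟩ := (Submodule.mem_span_range_iff_exists_fun ℂ).1 hw
  rw [smul_sum]
  refine sum_congr rfl fun k' _ => ?_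
  rw [la0_pair, sum_congr rfl fun k _ => by rw [h k k'], smul_smul]
  simp [mul_comm]

/-- a basis of the span among the vectors of a family -/
theorem exists_sel {ι : Type} (v : ι → σ → ℂ) {τ : ℕ}
    (h : finrank ℂ (Submodule.span ℂ (Set.range v)) = τ) :
    ∃ s : Fin τ → ι, Function.Injective s ∧ LinearIndependent ℂ (fun k => v (s k)) ∧
      Submodule.span ℂ (Set.range fun k => v (s k)) = Submodule.span ℂ (Set.range v) := by
  classical
  obtain ⟨b, hb, hs, hi⟩ := exists_linearIndependent ℂ (Set.range v)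
  have hfin : b.Finite := hi.set_finite_of_isNoetherian
  have := hfin.fintype
  have hc : Fintype.card b = τ := by
    rw [← h, ← hs, finrank_span_set_eq_card hi, Set.toFinset_card]
  let q : Fin τ ≃ b := (Fintype.equivFinOfCardEq hc).symm
  choose s hs' using fun k : Fin τ => hb (q k).2
  have hv : (fun k => v (s k)) = (fun x : b => (x : σ → ℂ)) ∘ q := funext hs'
  have hli : LinearIndependent ℂ fun k => v (s k) := by
    rw [hv]
    exact hi.comp q q.injective
  refine ⟨s, fun k k' hk => hli.injective (congrArg v hk), hli, ?_⟩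
  rw [hv, q.surjective.range_comp, Subtype.range_coe, hs]

/-- orthogonals of a subspace, of its part in some coordinates and of its projection to the
other coordinates -/
theorem perp_spl {e0 : σ0 → σ} {e1 : σ1 → σ} (i0 : Function.Injective e0)
    (i1 : Function.Injective e1) (cover : ∀ j, (∃ a, e0 a = j) ∨ ∃ b, e1 b = j)
    (disj : ∀ a b, e0 a ≠ e1 b) {B : Submodule ℂ (σ → ℂ)} {A : Submodule ℂ (σ0 → ℂ)}
    {C : Submodule ℂ (σ1 → ℂ)}
    (hA : ∀ θ : σ → ℂ, (∀ b, θ (e1 b) = 0) → (θ ∈ B ↔ (fun a => θ (e0 a)) ∈ A))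
    (hC : ∀ ξ, ξ ∈ C ↔ ∃ θ ∈ B, ∀ b, θ (e1 b) = ξ b) :
    (∀ v0, v0 ∈ perp A ↔ ∃ v ∈ perp B, ∀ a, v (e0 a) = v0 a) ∧
      ∀ v : σ → ℂ, (∀ a, v (e0 a) = 0) → (v ∈ perp B ↔ (fun b => v (e1 b)) ∈ perp C) := by
  classical
  have hbij : Function.Bijective (Sum.elim e0 e1) := by
    refine ⟨i0.sumElim i1 disj, fun j => ?_⟩
    rcases cover j with ⟨a, ha⟩ | ⟨b, hb⟩
    · exact ⟨Sum.inl a, ha⟩
    · exact ⟨Sum.inr b, hb⟩
  have split : ∀ f : σ → ℂ, ∑ j, f j = ∑ a, f (e0 a) + ∑ b, f (e1 b) := fun f => by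
    rw [← hbij.sum_comp f, Fintype.sum_sum_type]
    rfl
  have ext0 : ∀ x : σ0 → ℂ, ∃ θ : σ → ℂ, (∀ b, θ (e1 b) = 0) ∧ ∀ a, θ (e0 a) = x a := fun x =>
    ⟨Function.extend e0 x 0,
      fun b => Function.extend_apply' _ _ _ fun ⟨a, ha⟩ => disj a b ha,
      fun a => i0.extend_apply _ _ a⟩
  refine ⟨fun v0 => ⟨fun hv => ?_, ?_⟩, fun v hv => ⟨fun h ξ hξ => ?_, fun h θ hθ => ?_⟩⟩
  · have hP : perp ((perp B).map (LinearMap.funLeft ℂ ℂ e0)) ≤ A := by
      intro x hx
      obtain ⟨θ, h1, h0⟩ := ext0 x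
      have hθ : θ ∈ perp (perp B) := by
        intro v hv'
        have := hx _ (Submodule.mem_map_of_mem hv')
        rw [split]
        simpa [h1, h0, LinearMap.funLeft_apply] using this
      rw [perp_perp] at hθ
      have := (hA θ h1).1 hθ
      rwa [funext h0] at this
    have h2 := perp_anti hP hv
    rw [perp_perp] at h2
    obtain ⟨v, hv', rfl⟩ := h2
    exact ⟨v, hv', fun a => rfl⟩
  · rintro ⟨v, hv, h0⟩ x hx
    obtain ⟨θ, h1, h2⟩ := ext0 x
    have hθ : θ ∈ B := (hA θ h1).2 (by rwa [funext h2])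
    have := hv θ hθ
    rw [split] at this
    simpa [h1, h2, h0] using this
  · obtain ⟨θ, hθ, h1⟩ := (hC ξ).1 hξ
    have := h θ hθ
    rw [split] at this
    simpa [hv, h1] using this
  · have := h _ ((hC fun b => θ (e1 b)).2 ⟨θ, hθ, fun _ => rfl⟩)
    rw [split]
    simpa [hv] using this

end Pool.Agent.HCF
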