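import Pool.Agent.P.MP_f644fa_ag.Num

/-! Subbundles of trivial bundles, their exterior algebras, the mixed square. -/

noncomputable section
namespace Pool.Agent.HCF
open Finset Module PowerSeries
open scoped Kronecker

/-- the orthogonal for the standard bilinear pairing -/
def perp {σ : Type} [Fintype σ] (B : Submodule ℂ (σ → ℂ)) : Submodule ℂ (σ → ℂ) where
  carrier := {v | ∀ b ∈ B, ∑ j, v j * b j = 0}
  add_mem' ha hb b h := by
    simp only [Pi.add_apply, add_mul, sum_add_distrib, ha b h, hb b h, add_zero]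
  zero_mem' b _ := by simp
  smul_mem' c a ha b h := by
    simp only [Pi.smul_apply, smul_eq_mul, mul_assoc, ← mul_sum, ha b h, mul_zero]

theorem mem_perp {σ : Type} [Fintype σ] {B : Submodule ℂ (σ → ℂ)} {v : σ → ℂ} :
    v ∈ perp B ↔ ∀ b ∈ B, ∑ j, v j * b j = 0 := Iff.rfl

/-- forms of degree `k` that are killed by `T` -/
def Kf {σ : Type} [LinearOrder σ] [Fintype σ] (T : Submodule ℂ (σ → ℂ)) (k : ℕ) :
    Submodule ℂ (Finset σ → ℂ) where
  carrier := {y | Deg k y ∧ ∀ v ∈ T, iov ℂ v y = 0}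
  add_mem' ha hb := ⟨fun J h => by simp [ha.1 J h, hb.1 J h],
    fun v hv => by rw [map_add, ha.2 v hv, hb.2 v hv, add_zero]⟩
  zero_mem' := ⟨fun _ _ => rfl, fun _ _ => map_zero _⟩
  smul_mem' c _ ha := ⟨fun J h => by simp [ha.1 J h],
    fun v hv => by rw [map_smul, ha.2 v hv, smul_zero]⟩

theorem mem_Kf {σ : Type} [LinearOrder σ] [Fintype σ] {T : Submodule ℂ (σ → ℂ)} {k : ℕ}
    {y : Finset σ → ℂ} : y ∈ Kf T k ↔ Deg k y ∧ ∀ v ∈ T, iov ℂ v y = 0 := Iff.rfl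

/-- forms of degree `k` -/
def degS (σ R : Type) [CommRing R] (k : ℕ) : Submodule R (Finset σ → R) where
  carrier := {y | ∀ J : Finset σ, J.card ≠ k → y J = 0}
  add_mem' ha hb J h := by simp [ha J h, hb J h]
  zero_mem' _ _ := rfl
  smul_mem' c _ ha J h := by simp [ha J h]

variable {M n : ℕ} {X R RR X' R' RR' Q : Type} [CommRing R] [Algebra ℂ R] [CommRing RR]
  [Algebra ℂ RR] [CommRing R'] [Algebra ℂ R'] [CommRing RR'] [Algebra ℂ RR'] [CommRing Q]
  [Algebra ℂ Q]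

/-- the value of a vector at a point -/
def NS0.val (S : NS0 M n X R RR) {I : Type} (p : X) (ω : I → R) : I → ℂ := fun i => S.ev p (ω i)

theorem NS0.val_apply (S : NS0 M n X R RR) {I : Type} (p : X) (ω : I → R) (i : I) :
    S.val p ω i = S.ev p (ω i) := rfl

/-- the Hilbert series of a graded submodule -/
def NS0.hs (S : NS0 M n X R RR) {I : Type} (w : I → ℕ) (G : Submodule R (I → R)) : ℂ⟦X⟧ :=
  chi (S.sc w) (G.restrictScalars ℂ) 1

/-- `t` is `δ` times a projector onto `T`, near `p` -/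
def NS0.Prj (S : NS0 M n X R RR) {σ : Type} [Fintype σ] (T : X → Submodule ℂ (σ → ℂ)) (p : X)
    (δ : R) (t : Matrix σ σ R) : Prop :=
  S.ev p δ ≠ 0 ∧ (∀ q l, (fun j => S.ev q (t j l)) ∈ T q) ∧
    ∀ q, ∀ v ∈ T q, ∀ j, ∑ l, S.ev q (t j l) * v l = S.ev q δ * v j

/-- A subbundle of a trivial graded bundle, given by its annihilator `T`. -/
structure Sub (S : NS0 M n X R RR) (σ : Type) [Fintype σ] where
  w : σ → ℕ
  T : X → Submodule ℂ (σ → ℂ)
  T_dbl : ∀ p, ∀ v ∈ T p, (fun j => 2 ^ w j * v j) ∈ T (S.dbl p)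
  loc : ∀ p, ∃ δ t, S.Prj T p δ t

variable {S : NS0 M n X R RR} {σ σ0 σ1 : Type} [LinearOrder σ] [Fintype σ] [LinearOrder σ0]
  [Fintype σ0] [LinearOrder σ1] [Fintype σ1]

/-- the weight of a basis form -/
def Sub.wt (B : Sub S σ) (J : Finset σ) : ℕ := ∑ j ∈ J, B.w j

/-- sections of the exterior algebra -/
def Sub.lamG (B : Sub S σ) : Submodule R (Finset σ → R) where
  carrier := {ω | ∀ p, ∀ v ∈ B.T p, iov ℂ v (S.val p ω) = 0}
  add_mem' {a b} ha hb p v hv := by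
    have h : S.val p (a + b) = S.val p a + S.val p b := by ext J; simp [NS0.val]
    rw [h, map_add, ha p v hv, hb p v hv, add_zero]
  zero_mem' p v _ := by
    have h : S.val p (0 : Finset σ → R) = 0 := by ext J; simp [NS0.val]
    rw [h, map_zero]
  smul_mem' c a ha p v hv := by
    have h : S.val p (c • a) = S.ev p c • S.val p a := by ext J; simp [NS0.val]
    rw [h, map_smul, ha p v hv, smul_zero]

theorem Sub.mem_lamG {B : Sub S σ} {ω : Finset σ → R} :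
    ω ∈ B.lamG ↔ ∀ p, ∀ v ∈ B.T p, iov ℂ v (S.val p ω) = 0 := Iff.rfl

/-- `B` is an extension of `B1` (projection to the coordinates `e1`) by `B0` (the part in the
coordinates `e0`). -/
structure Spl (B : Sub S σ) (B0 : Sub S σ0) (B1 : Sub S σ1) (e0 : σ0 ↪o σ) (e1 : σ1 ↪o σ) :
    Prop where
  cover : ∀ j, (∃ a, e0 a = j) ∨ ∃ b, e1 b = j
  disj : ∀ a b, e0 a ≠ e1 b
  w0 : ∀ a, B0.w a = B.w (e0 a)
  w1 : ∀ b, B1.w b = B.w (e1 b)
  t0 : ∀ p v0, v0 ∈ B0.T p ↔ ∃ v ∈ B.T p, ∀ a, v (e0 a) = v0 a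
  t1 : ∀ p v, (∀ a, v (e0 a) = 0) → (v ∈ B.T p ↔ (fun b => v (e1 b)) ∈ B1.T p)

/-- The ring `Q` of functions on the product of the manifold and of a closed subcone. -/
structure NS2 (S : NS M n X R RR) (S' : NS0 M n X' R' RR') (Q : Type) [CommRing Q]
    [Algebra ℂ Q] where
  pt : X' → X
  pt_dbl : ∀ p, pt (S'.dbl p) = S.dbl (pt p)
  res : R →ₐ[ℂ] R'
  res_x : ∀ j, res (S.x j) = S'.x j
  ev_res : ∀ p a, S'.ev p (res a) = S.ev (pt p) a
  T_pt : ∀ p, S'.T p = S.T (pt p)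
  inl : R →ₐ[ℂ] Q
  inr : R' →ₐ[ℂ] Q
  gen2 : Function.Surjective (MvPolynomial.aeval
    (Sum.elim (fun j => inl (S.x j)) fun j => inr (S'.x j)) :
      MvPolynomial (Fin M ⊕ Fin M) ℂ →ₐ[ℂ] Q)
  s2 : Q →ₐ[ℂ] Q
  s2_inl : ∀ a, s2 (inl a) = inl (S.s1 a)
  s2_inr : ∀ a, s2 (inr a) = inr (S'.s1 a)
  mu : Q →ₐ[ℂ] R'
  mu_inl : ∀ a, mu (inl a) = res a
  mu_inr : ∀ a, mu (inr a) = a
  sl : X → Q →ₐ[ℂ] R'
  sl_inl : ∀ p a, sl p (inl a) = algebraMap ℂ R' (S.ev p a)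
  sl_inr : ∀ p a, sl p (inr a) = a
  frame : ∀ p : X', ∃ (F : Frame S.toNS0 (pt p)) (a : Fin F.c → Fin M → Q)
    (D : Fin M → Derivation ℂ Q Q), (∀ i, ∑ j, (inl (S.x j) - inr (S'.x j)) * a i j = 0) ∧
      (∀ i j, mu (a i j) = res (F.J i j)) ∧ (∀ l j, D l (inl (S.x j)) = inl (F.t j l)) ∧
        ∀ l r, D l (inr r) = 0

section two
variable {S : NS M n X R RR} {S' : NS0 M n X' R' RR'} (N : NS2 S S' Q) {I I' : Type} [Fintype I]
  [Fintype I']

/-- `E` is the restriction of `D` to the subcone -/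
structure NS2.IsRes (D : Dat S.toNS0 I) (E : Dat S' I) : Prop where
  w : E.w = D.w
  map : ∀ ω ∈ D.G, (fun i => N.res (ω i)) ∈ E.G
  loc : ∀ p, ∃ (g : R) (π : Matrix I I R), S.ev (N.pt p) g ≠ 0 ∧ (∀ ω, π.mulVec ω ∈ D.G) ∧
    (∀ ω ∈ D.G, π.mulVec ω = g • ω) ∧ ∀ ω ∈ E.G, (π.map N.res).mulVec ω = N.res g • ω

/-- the equations of the diagonal -/
def NS2.u (j : Fin M) : Q := N.inl (S.x j) - N.inr (S'.x j)

/-- the exterior product of two sections -/
def NS2.β (I I' : Type) : (I → R) →ₗ[ℂ] (I' → R') →ₗ[ℂ] I × I' → Q :=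
  LinearMap.mk₂ ℂ (fun ω η q => N.inl (ω q.1) * N.inr (η q.2))
    (fun _ _ _ => by ext q; simp [add_mul]) (fun _ _ _ => by ext q; simp)
    (fun _ _ _ => by ext q; simp [mul_add]) (fun _ _ _ => by ext q; simp)

theorem NS2.β_apply {I I' : Type} (ω : I → R) (η : I' → R') (q : I × I') :
    N.β I I' ω η q = N.inl (ω q.1) * N.inr (η q.2) := rfl

/-- sections of the exterior tensor product -/
def NS2.MM (D : Dat S.toNS0 I) (D' : Dat S' I') : Submodule Q (I × I' → Q) :=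
  Submodule.span Q {y | ∃ ω ∈ D.G, ∃ η ∈ D'.G, N.β I I' ω η = y}

/-- the Koszul complex of the diagonal -/
def NS2.KK (D : Dat S.toNS0 I) (D' : Dat S' I') : Submodule Q (Finset (Fin M) → I × I' → Q) :=
  Submodule.pi Set.univ fun _ => N.MM D D'

/-- restriction to the diagonal -/
def NS2.muh (I : Type) : (Finset (Fin M) → I → Q) →ₗ[ℂ] Finset (Fin M) × I → R' where
  toFun z q := N.mu (z q.1 q.2)
  map_add' a b := by ext q; simp
  map_smul' c a := by ext q; simp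

/-- the differential -/
def NS2.dd (I : Type) : End ℂ (Finset (Fin M) → I → Q) := (iov (I → Q) N.u).restrictScalars ℂ

/-- scaling on the square -/
def NS2.sc2 {I : Type} (w : I → ℕ) : End ℂ (I → Q) := piOp (fun A => 2 ^ w A) N.s2.toLinearMap

/-- scaling on the Koszul complex -/
def NS2.sK {I : Type} (w : I → ℕ) : End ℂ (Finset (Fin M) → I → Q) :=
  piOp (fun J => 2 ^ J.card) (N.sc2 w)

end two

end Pool.Agent.HCF
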