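import Pool.Agent.P.MP_f644fa_ag.LG1a

/-! The cone of lines through a point has few local equations. -/

noncomputable section
namespace Pool.Agent.HCF
open Finset Module MvPolynomial

variable {M : ℕ} {I : Ideal (SS M)} {c n : ℕ}

theorem lg1_form (e : ℕ) (θ : Fin (e + 1) → ℂ) : ∃ F : B2, F.IsHomogeneous e ∧
    (∀ p : Fin 2 → ℂ, eval p F = ∑ i : Fin (e + 1), p 0 ^ (e - i) * p 1 ^ (i : ℕ) * θ i) ∧
      (F = 0 → θ = 0) := by
  refine ⟨toP Unit (e + 1) (fun q => θ (ofLex q).1) (), toP_hom _ _, fun p => eval_toP _ p (),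
    fun h => ?_⟩
  have h1 : toP Unit (e + 1) (fun q => θ (ofLex q).1) = toP Unit (e + 1) 0 := by
    rw [map_zero]
    funext u
    exact h
  funext i
  exact congrFun (toP_inj h1) (toLex (i, ()))

theorem IsLine.locCut (hX : IsManifold I c) {s : ℕ} {ν : Finset (Fin M) → secRing I}
    (hν : ν ∈ Hm (secRing I) c s) (hne : ∀ x : cone I, ∃ J, (ν J).1 x ≠ 0)
    {x y : Fin M → ℂ} (hl : IsLine I x y) : LocCut (Cx I x) y (s + c) := by
  classical
  obtain ⟨K, h, d, hd, hI⟩ := hX.exists_gens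
  obtain ⟨ι, _, q, a, hcard, ht⟩ := hl.tests hX hν hne hd hI
  choose sb hsb using fun (p : Fin 2 → ℂ) (f : SS M) => exists_subst x p f
  choose Fc hFc0 hFc using fun k => exists_coeff x (hd k)
  have hmem : ∀ k, h k ∈ I := fun k => hI ▸ Ideal.subset_span ⟨k, rfl⟩
  let R := ({p : Fin 2 → ℂ // p ≠ 0} × {r : Fin K → SS M // ∑ k, r k * h k = 0}) ⊕ (Fin K ⊕ ι)
  let P : R → Fin 2 → ℂ := Sum.elim (fun u => u.1.1) (Sum.elim (fun _ => ![1, 0]) q)
  let w : R → Fin K → SS M := Sum.elim (fun u k => sb u.1.1 (u.2.1 k))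
    (Sum.elim (fun k₀ k => if k = k₀ then 1 else 0) fun i k => C (a i k))
  let v : R → (Σ k : Fin K, Fin (d k + 1 + 1)) → SS M := fun ρ j =>
    w ρ j.1 * C (P ρ 0 ^ (d j.1 + 1 - j.2) * P ρ 1 ^ (j.2 : ℕ))
  have hv : ∀ ρ (y' : Fin M → ℂ) (θ : (Σ k : Fin K, Fin (d k + 1 + 1)) → ℂ),
      ∑ j, eval y' (v ρ j) * θ j = ∑ k, eval y' (w ρ k) *
        ∑ i : Fin (d k + 1 + 1), P ρ 0 ^ (d k + 1 - i) * P ρ 1 ^ (i : ℕ) * θ ⟨k, i⟩ := by
    intro ρ y' θ
    rw [Fintype.sum_sigma]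
    refine Finset.sum_congr rfl fun k _ => ?_
    rw [Finset.mul_sum]
    refine Finset.sum_congr rfl fun i _ => ?_
    simp only [v, map_mul, eval_C]
    ring
  have hw : ∀ (y' : Fin M → ℂ) (k₀ : Fin K) (u : Fin K → ℂ),
      ∑ k, eval y' (w (Sum.inr (Sum.inl k₀)) k) * u k = u k₀ := by
    intro y' k₀ u
    rw [Finset.sum_eq_single k₀]
    · simp [w]
    · intro k _ hk
      simp [w, hk]
    · intro hk
      exact absurd (Finset.mem_univ _) hk
  obtain ⟨δ, hδ, hδ'⟩ := lin_inj v y (by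
    intro θ hθ
    choose F hF1 hF2 hF3 using fun k => lg1_form (d k + 1) (fun i => θ ⟨k, i⟩)
    have hθ' : ∀ ρ, ∑ k, eval y (w ρ k) * eval (P ρ) (F k) = 0 := by
      intro ρ
      rw [← hθ ρ, hv]
      exact Finset.sum_congr rfl fun k _ => by rw [hF2]
    have hF : F = 0 := by
      refine ht F hF1 (fun p hp r hr => ?_) (fun k => ?_) (fun i => ?_)
      · rw [← hθ' (Sum.inl (⟨p, hp⟩, ⟨r, hr⟩))]
        exact Finset.sum_congr rfl fun k _ => by rw [← hsb]; rfl
      · have h1 := hθ' (Sum.inr (Sum.inl k))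
        rw [hw] at h1
        exact h1
      · rw [← hθ' (Sum.inr (Sum.inr i))]
        exact Finset.sum_congr rfl fun k _ => by simp [w, P]
    funext j
    exact congrFun (hF3 j.1 (congrFun hF j.1)) j.2)
  obtain ⟨j, hj⟩ := Function.ne_iff.mp hl.mem_Cx.1
  refine LocCut.of_card hcard.le (fun i => ∑ k, C (a i k) * sb (q i) (h k)) (δ * X j) ?_ ?_ ?_
  · rw [map_mul, eval_X]
    exact mul_ne_zero hδ hj
  · intro i
    rw [map_sum]
    refine Finset.sum_eq_zero fun k _ => ?_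
    rw [map_mul, hsb, pt, hl.2 _ _ _ (hmem k), mul_zero]
  · intro y' h1 h2
    rw [map_mul, eval_X] at h1
    have h3 := hδ' y' (left_ne_zero_of_mul h1) (fun j => eval y' (Fc j.1 j.2)) (by
      intro ρ
      rw [hv]
      have h4 : ∑ k, eval y' (w ρ k) * eval (pt x y' (P ρ)) (h k) = 0 := by
        rcases ρ with ⟨p, r⟩ | k₀ | i
        · have h5 := congrArg (eval (pt x y' p.1)) r.2
          rw [map_sum, map_zero] at h5
          rw [← h5]
          exact Finset.sum_congr rfl fun k _ => by rw [map_mul, ← hsb p.1 (r.1 k)]; rfl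
        · rw [hw]
          have h5 := hl.2 1 0 _ (hmem k₀)
          rw [one_smul, zero_smul, add_zero] at h5
          exact (congrArg (fun z => eval z (h k₀)) (pt_first x y')).trans h5
        · rw [← h2 i, map_sum]
          exact Finset.sum_congr rfl fun k _ => by rw [map_mul, hsb]; rfl
      rw [← h4]
      exact Finset.sum_congr rfl fun k _ => by rw [hFc])
    refine ⟨fun h0 => right_ne_zero_of_mul h1 (by rw [h0]; rfl), fun α β f hf => ?_⟩
    have h6 : ∀ k, eval (α • x + β • y') (h k) = 0 := by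
      intro k
      refine (hFc k y' ![α, β]).trans (Finset.sum_eq_zero fun i _ => ?_)
      have h7 : eval y' (Fc k i) = 0 := congrFun h3 ⟨k, i⟩
      rw [h7, mul_zero]
    rw [hI] at hf
    have h8 : Ideal.span (Set.range h) ≤ RingHom.ker (eval (α • x + β • y')) := by
      rw [Ideal.span_le]
      rintro _ ⟨k, rfl⟩
      exact h6 k
    exact h8 hf

end Pool.Agent.HCF
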