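import Pool.Agent.P.MP_f644fa_ag.LG0

/-! Sections of the normal bundle on a line are determined by few values. -/

noncomputable section
namespace Pool.Agent.HCF
open Finset Module MvPolynomial

variable {M : ℕ} {I : Ideal (SS M)} {c n : ℕ}

theorem lg1a_fun {K : ℕ} (G : Fin K → Fin M → ℂ) (F : Fin K → ℂ)
    (h : ∀ a : Fin K → ℂ, ∑ k, a k • G k = 0 → ∑ k, a k * F k = 0) :
    ∃ Λ : (Fin M → ℂ) →ₗ[ℂ] ℂ, ∀ k, Λ (G k) = F k := by
  have h1 : Fintype.linearCombination ℂ F ∈
      LinearMap.range (Fintype.linearCombination ℂ G).dualMap := by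
    rw [LinearMap.range_dualMap_eq_dualAnnihilator_ker, Submodule.mem_dualAnnihilator]
    exact fun a ha => h a ha
  obtain ⟨Λ, hΛ⟩ := h1
  refine ⟨Λ, fun k => ?_⟩
  have h2 := LinearMap.congr_fun hΛ (Pi.single k 1)
  rwa [LinearMap.dualMap_apply, Fintype.linearCombination_apply_single,
    Fintype.linearCombination_apply_single, one_smul, one_smul] at h2

theorem lg1a_ne (r : ℂ) : (![1, r] : Fin 2 → ℂ) ≠ 0 := fun h => one_ne_zero (congrFun h 0)

theorem IsLine.tests (hX : IsManifold I c) {s : ℕ} {ν : Finset (Fin M) → secRing I}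
    (hν : ν ∈ Hm (secRing I) c s) (hne : ∀ x : cone I, ∃ J, (ν J).1 x ≠ 0)
    {x y : Fin M → ℂ} (hl : IsLine I x y) {K : ℕ} {h : Fin K → SS M} {d : Fin K → ℕ}
    (hd : ∀ k, (h k).IsHomogeneous (d k + 1)) (hI : I = Ideal.span (Set.range h)) :
    ∃ (ι : Type) (_ : Fintype ι) (q : ι → Fin 2 → ℂ) (a : ι → Fin K → ℂ),
      Fintype.card ι = s + c ∧ ∀ F : Fin K → B2, (∀ k, (F k).IsHomogeneous (d k + 1)) →
        (∀ p, p ≠ 0 → ∀ r : Fin K → SS M, ∑ k, r k * h k = 0 →
          ∑ k, eval (pt x y p) (r k) * eval p (F k) = 0) →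
        (∀ k, eval ![1, 0] (F k) = 0) → (∀ i, ∑ k, a i k * eval (q i) (F k) = 0) → F = 0 := by
  classical
  obtain ⟨a, η, hη, hs⟩ := hl.frame hX hν hne
  have hB := hX.pgen_Es.pb hl
  have hG : ∀ p, p ≠ 0 → Submodule.span ℂ (Set.range fun k => pv (pt x y p) (gr (h k))) =
      Es I (pt x y p) := fun p hp => hX.span_gens hI (hl.mem hp)
  have hcf : ∀ p i, ∃ u : Fin K → ℂ, p ≠ 0 →
      ∑ k, u k • pv (pt x y p) (gr (h k)) = pv p (η i) := fun p i => by
    by_cases hp : p = 0
    · exact ⟨0, fun h0 => absurd hp h0⟩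
    · have h1 := (hη.1 i).2 p hp
      beta_reduce at h1
      rw [← hG p hp, Submodule.mem_span_range_iff_exists_fun] at h1
      exact h1.imp fun _ hu _ => hu
  choose cf hcf using hcf
  refine ⟨Σ i : Fin c, Fin (a i + 1), inferInstance, fun r => ![1, ((r.2 : ℕ) + 1 : ℕ)],
    fun r => cf ![1, ((r.2 : ℕ) + 1 : ℕ)] r.1, by simp [Finset.sum_add_distrib, hs],
    fun F hF hsyz h0 ht => ?_⟩
  have hΛ : ∀ p, ∃ Λ : (Fin M → ℂ) →ₗ[ℂ] ℂ, p ≠ 0 →
      ∀ k, Λ (pv (pt x y p) (gr (h k))) = eval p (F k) := fun p => by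
    by_cases hp : p = 0
    · exact ⟨0, fun h0 => absurd hp h0⟩
    · exact (lg1a_fun _ _ fun u hu => hX.syz hI (hl.mem hp) (hsyz p hp) hu).imp fun _ hu _ => hu
  choose Λ hΛ using hΛ
  have hκ : ∀ p, p ≠ 0 → ∀ i, Λ p (pv p (η i)) = ∑ k, cf p i k * eval p (F k) := fun p hp i => by
    rw [← hcf p i hp, map_sum]
    exact Finset.sum_congr rfl fun k _ => by rw [map_smul, hΛ p hp, smul_eq_mul]
  have hz : ∀ i p, p ≠ 0 → Λ p (pv p (η i)) = 0 := fun i => by
    obtain ⟨f, hf, -, hf'⟩ := form_of_regular (fun p => Λ p (pv p (η i))) ((a i + 1 : ℕ) : ℤ)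
      (fun p hp t ht => by
        have hp' : t • p ≠ 0 := smul_ne_zero ht hp
        have e1 : ∑ k, (cf (t • p) i k * t ^ d k) • pv (pt x y p) (gr (h k)) =
            t ^ a i • pv p (η i) := by
          have e2 : t ^ a i • pv p (η i) = pv (t • p) (η i) :=
            funext fun j => (b2_eval_smul ((hη.1 i).1 j) t p).symm
          rw [e2, ← hcf _ i hp', pt_smul]
          refine Finset.sum_congr rfl fun k _ => ?_
          rw [mul_smul]
          congr 1
          exact funext fun j => (eval_smul_hom (hd k).pderiv t _).symm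
        have e3 := congrArg (Λ p) e1
        rw [map_sum, map_smul, smul_eq_mul] at e3
        rw [hκ _ hp', zpow_natCast, pow_succ', mul_assoc, ← e3, Finset.mul_sum]
        refine Finset.sum_congr rfl fun k _ => ?_
        rw [map_smul, hΛ p hp, smul_eq_mul, b2_eval_smul (hF k)]
        ring)
      (fun p hp => by
        obtain ⟨σ, -, h1, -⟩ := exists_sel (fun k => pv (pt x y p) (gr (h k))) (τ := c)
          (by rw [hG p hp]; exact hB.rank p hp)
        obtain ⟨δ, u, hδ, hu⟩ := dual_fields (aeval p : B2 →ₐ[ℂ] ℂ)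
          (fun k j => rl x y (gr (h (σ k)) j)) (by
            simp only [aeval_eq_eval, eval_rl]
            exact h1)
        rw [aeval_eq_eval] at hδ
        refine ⟨δ * δ, δ * ∑ k, (∑ j, η i j * u k j) * F (σ k), by
          rw [map_mul]; exact mul_ne_zero hδ hδ, fun q hq => ?_⟩
        rw [map_mul, map_mul, mul_assoc]
        by_cases h2 : eval q δ = 0
        · rw [h2, zero_mul, zero_mul]
        have h3 : ∀ k k', ∑ j, pv (pt x y q) (gr (h (σ k))) j * pv q (u k') j =
            if k = k' then eval q δ else 0 := fun k k' => by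
          have h4 := congrArg (eval q) (hu k k')
          rw [map_sum, apply_ite (eval q), map_zero] at h4
          simpa only [map_mul, eval_rl, pv_apply] using h4
        have h5 : Submodule.span ℂ (Set.range fun k => pv (pt x y q) (gr (h (σ k)))) =
            Es I (pt x y q) := by
          refine Submodule.eq_of_le_of_finrank_eq ?_ ?_
          · rw [← hG q hq]
            exact Submodule.span_mono (by rintro _ ⟨k, rfl⟩; exact ⟨σ k, rfl⟩)
          · rw [finrank_span_eq_card (indep_of_dual h2 h3), Fintype.card_fin]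
            exact (hB.rank q hq).symm
        have h6 := congrArg (Λ q) (expand_of_dual h3 (h5.ge ((hη.1 i).2 q hq)))
        rw [map_smul, smul_eq_mul, map_sum] at h6
        rw [h6, map_sum]
        congr 1
        refine Finset.sum_congr rfl fun k _ => ?_
        rw [map_smul, hΛ q hq, smul_eq_mul, map_mul, map_sum]
        simp only [map_mul, pv_apply])
    have h1 : f = 0 := hom_eq_zero (hf (Int.natCast_nonneg _)) fun r hr => by
      rw [hf' _ (lg1a_ne _), hκ _ (lg1a_ne _)]
      cases r with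
      | zero => exact Finset.sum_eq_zero fun k _ => by rw [Nat.cast_zero, h0, mul_zero]
      | succ r => exact ht ⟨i, r, by rw [Int.toNat_natCast] at hr; omega⟩
    intro p hp
    rw [← hf' p hp, h1, map_zero]
  funext k
  refine b2_ext fun p hp => ?_
  have h1 : Es I (pt x y p) ≤ LinearMap.ker (Λ p) := by
    have h2 := hB.span_frame hη hp
    beta_reduce at h2
    rw [← h2, Submodule.span_le]
    rintro _ ⟨i, rfl⟩
    exact hz i p hp
  rw [← hΛ p hp, Pi.zero_apply, map_zero]
  exact h1 (hG p hp ▸ Submodule.subset_span ⟨k, rfl⟩)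

end Pool.Agent.HCF
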