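import Pool.Agent.P.MP_f644fa_ag.LI0

/-! The mixed square. -/

noncomputable section
namespace Pool.Agent.HCF
open Finset Module MvPolynomial

variable {M : ℕ} {I : Ideal (SS M)} {c n : ℕ}

theorem li1_pfW (W : Set (Fin M → ℂ)) (f : SS M) (x : W) : pfW W f x = eval x.1 f := by
  induction f using MvPolynomial.induction_on with
  | C a => simp [pfW]
  | add f g hf hg => rw [map_add, map_add, Pi.add_apply, hf, hg]
  | mul_X f j hf => rw [map_mul, map_mul, Pi.mul_apply, hf, pfW, aeval_X, eval_X]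

theorem li1_pf2W (W W' : Set (Fin M → ℂ)) (f : MvPolynomial (Fin M ⊕ Fin M) ℂ) (p : W × W') :
    pf2W W W' f p = eval (Sum.elim p.1.1 p.2.1) f := by
  induction f using MvPolynomial.induction_on with
  | C a => simp [pf2W]
  | add f g hf hg => simp only [map_add, Pi.add_apply, hf, hg]
  | mul_X f j hf =>
    rw [map_mul, map_mul, Pi.mul_apply, hf]
    rcases j with j | j <;> simp [pf2W]

theorem li1_mem {W : Set (Fin M → ℂ)} {a : W → ℂ} :
    a ∈ PolW W ↔ ∃ f : SS M, ∀ x : W, a x = eval x.1 f := by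
  constructor
  · rintro ⟨f, rfl⟩
    exact ⟨f, fun x => li1_pfW W f x⟩
  · rintro ⟨f, hf⟩
    have h : a = pfW W f := funext fun x => by rw [hf, li1_pfW]
    rw [h]
    exact ⟨f, rfl⟩

theorem li1_mem2 {W W' : Set (Fin M → ℂ)} {a : W × W' → ℂ} : a ∈ Pol2W W W' ↔
    ∃ f : MvPolynomial (Fin M ⊕ Fin M) ℂ, ∀ p : W × W',
      a p = eval (Sum.elim p.1.1 p.2.1) f := by
  constructor
  · rintro ⟨f, rfl⟩
    exact ⟨f, fun x => li1_pf2W W W' f x⟩
  · rintro ⟨f, hf⟩
    have h : a = pf2W W W' f := funext fun x => by rw [hf, li1_pf2W]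
    rw [h]
    exact ⟨f, rfl⟩

section maps
variable {W : Set (Fin M → ℂ)}

theorem li1_res (hs : W ⊆ cone I) : ∀ a ∈ Pol I, a ∘ Set.inclusion hs ∈ PolW W := by
  intro a ha
  obtain ⟨f, hf⟩ := nsInst0_mem.1 ha
  exact li1_mem.2 ⟨f, fun x => hf _⟩

theorem li1_inl : ∀ a ∈ Pol I, a ∘ (Prod.fst : cone I × W → cone I) ∈ Pol2W (cone I) W := by
  intro a ha
  obtain ⟨f, hf⟩ := nsInst0_mem.1 ha
  refine li1_mem2.2 ⟨rename Sum.inl f, fun x => ?_⟩
  rw [Function.comp_apply, hf, eval_rename]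
  rfl

theorem li1_inr : ∀ a ∈ PolW W, a ∘ (Prod.snd : cone I × W → W) ∈ Pol2W (cone I) W := by
  intro a ha
  obtain ⟨f, hf⟩ := li1_mem.1 ha
  refine li1_mem2.2 ⟨rename Sum.inr f, fun x => ?_⟩
  rw [Function.comp_apply, hf, eval_rename]
  rfl

theorem li1_s2 {d : cone I → cone I} {d' : W → W} (hd : ∀ p, (d p).1 = (2 : ℂ) • p.1)
    (hd' : ∀ p, (d' p).1 = (2 : ℂ) • p.1) :
    ∀ a ∈ Pol2W (cone I) W, a ∘ Prod.map d d' ∈ Pol2W (cone I) W := by
  intro a ha
  obtain ⟨f, hf⟩ := li1_mem2.1 ha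
  refine li1_mem2.2 ⟨aeval (fun j => C 2 * X j) f, fun x => ?_⟩
  rw [Function.comp_apply, hf, nsInst0_eval_aeval]
  congr 2
  funext j
  rcases j with j | j <;> simp [hd, hd']

theorem li1_mu (hs : W ⊆ cone I) :
    ∀ a ∈ Pol2W (cone I) W, a ∘ (fun p : W => (Set.inclusion hs p, p)) ∈ PolW W := by
  intro a ha
  obtain ⟨f, hf⟩ := li1_mem2.1 ha
  refine li1_mem.2 ⟨rename (Sum.elim id id) f, fun x => ?_⟩
  rw [Function.comp_apply, hf, eval_rename]
  congr 2
  funext j
  rcases j with j | j <;> rfl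

theorem li1_sl (p : cone I) : ∀ a ∈ Pol2W (cone I) W, a ∘ (fun q : W => (p, q)) ∈ PolW W := by
  intro a ha
  obtain ⟨f, hf⟩ := li1_mem2.1 ha
  refine li1_mem.2 ⟨aeval (Sum.elim (fun j => C (p.1 j)) X) f, fun x => ?_⟩
  rw [Function.comp_apply, hf, nsInst0_eval_aeval]
  congr 2
  funext j
  rcases j with j | j <;> simp

theorem li1_rho (hs : W ⊆ cone I) :
    ∀ a ∈ Pol2 I, a ∘ Prod.map id (Set.inclusion hs) ∈ Pol2W (cone I) W := by
  intro a ha
  obtain ⟨f, hf⟩ := nsInst0_mem2.1 ha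
  exact li1_mem2.2 ⟨f, fun x => hf _⟩

end maps

/-- the class of a polynomial on the mixed square -/
def li1_q (I : Ideal (SS M)) (W : Set (Fin M → ℂ)) :
    MvPolynomial (Fin M ⊕ Fin M) ℂ →ₐ[ℂ] Pol2W (cone I) W := (pf2W (cone I) W).rangeRestrict

theorem li1_q_surj (W : Set (Fin M → ℂ)) : Function.Surjective (li1_q I W) :=
  (pf2W (cone I) W).rangeRestrict_surjective

theorem li1_q_apply {W : Set (Fin M → ℂ)} (H : MvPolynomial (Fin M ⊕ Fin M) ℂ)
    (p : cone I × W) : (li1_q I W H).1 p = eval (Sum.elim p.1.1 p.2.1) H := li1_pf2W _ _ H p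

theorem li1_der (D : Derivation ℂ (Pol2 I) (Pol2 I)) (v : Fin M → SS M)
    (hl : ∀ j, D (nsInst_q2 I (X (Sum.inl j))) = nsInst_q2 I (rename Sum.inl (v j)))
    (hr : ∀ j, D (nsInst_q2 I (X (Sum.inr j))) = 0) (H : MvPolynomial (Fin M ⊕ Fin M) ℂ) :
    D (nsInst_q2 I H) = nsInst_q2 I (nsInst_d v H) := by
  induction H using MvPolynomial.induction_on with
  | C a =>
    rw [derivation_C, map_zero, ← algebraMap_eq, AlgHom.commutes]
    exact D.map_algebraMap a
  | add f g hf hg => simp only [map_add, hf, hg]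
  | mul_X f j hf =>
    rw [map_mul, Derivation.leibniz, Derivation.leibniz, hf, smul_eq_mul, smul_eq_mul,
      smul_eq_mul, smul_eq_mul, map_add, map_mul, map_mul]
    rcases j with j | j
    · rw [hl, nsInst_d_inl]
    · rw [hr, nsInst_d_inr, map_zero]

theorem li1_ker (D : Derivation ℂ (Pol2 I) (Pol2 I)) (v : Fin M → SS M)
    (hl : ∀ j, D (nsInst_q2 I (X (Sum.inl j))) = nsInst_q2 I (rename Sum.inl (v j)))
    (hr : ∀ j, D (nsInst_q2 I (X (Sum.inr j))) = 0) (W : Set (Fin M → ℂ))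
    (H : MvPolynomial (Fin M ⊕ Fin M) ℂ) (hH : li1_q I W H = 0) :
    li1_q I W (nsInst_d v H) = 0 := by
  refine Subtype.ext (funext fun p => ?_)
  have h1 : nsInst_q2 I (rename Sum.inl (nsInst_sp p.2.1 H)) = 0 := by
    refine Subtype.ext (funext fun x => ?_)
    rw [nsInst_q2_apply, eval_rename]
    change eval x.1.1 _ = 0
    rw [nsInst_eval_sp, ← li1_q_apply (I := I) H (x.1, p.2), hH]
    rfl
  have h2 := li1_der D v hl hr (rename Sum.inl (nsInst_sp p.2.1 H))
  rw [h1, map_zero] at h2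
  have h3 := congrFun (congrArg Subtype.val h2) (p.1, p.1)
  rw [nsInst_q2_apply, ← nsInst_eval_sp, nsInst_sp_d, nsInst_sp_inl] at h3
  rw [li1_q_apply, ← nsInst_eval_sp, nsInst_sp_d]
  exact h3.symm

theorem exists_NS2 (S : NS M n (cone I) (Pol I) (Pol2 I)) (h0 : Expl I S.toNS0)
    (h1 : ∀ a p, (S.inl a).1 p = a.1 p.1) (h2 : ∀ a p, (S.inr a).1 p = a.1 p.2)
    (h3 : ∀ a p, (S.mu a).1 p = a.1 (p, p)) {W : Set (Fin M → ℂ)} (hs : W ⊆ cone I)
    (S' : NS0 M n W (PolW W) (Pol2W W W)) (h' : Expl I S') :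
    ∃ N : NS2 S S' (Pol2W (cone I) W), ∀ p, (N.pt p).1 = p.1 := by
  have hs1 : ∀ (a : Pol I) (y : cone I), (S.s1 a).1 y = a.1 (S.dbl y) := fun a y => by
    rw [← h0.ev, S.ev_dbl, h0.ev]
  have hs1' : ∀ (a : PolW W) (y : W), (S'.s1 a).1 y = a.1 (S'.dbl y) := fun a y => by
    rw [← h'.ev, S'.ev_dbl, h'.ev]
  have el : ∀ j, pb _ _ _ (li1_inl (W := W)) (S.x j) = li1_q I W (X (Sum.inl j)) := fun j =>
    Subtype.ext (funext fun y => by rw [li1_q_apply, eval_X]; exact h0.x j y.1)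
  have er : ∀ j, pb _ _ _ (li1_inr (I := I)) (S'.x j) = li1_q I W (X (Sum.inr j)) := fun j =>
    Subtype.ext (funext fun y => by rw [li1_q_apply, eval_X]; exact h'.x j y.2)
  refine ⟨{
    pt := Set.inclusion hs
    pt_dbl := fun p => Subtype.ext ((h'.dbl p).trans (h0.dbl (Set.inclusion hs p)).symm)
    res := pb _ _ _ (li1_res hs)
    res_x := fun j => Subtype.ext (funext fun p => (h0.x j _).trans (h'.x j p).symm)
    ev_res := fun p a => (h'.ev p _).trans (h0.ev (Set.inclusion hs p) a).symm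
    T_pt := fun p => (h'.T p).trans (h0.T (Set.inclusion hs p)).symm
    inl := pb _ _ _ li1_inl
    inr := pb _ _ _ li1_inr
    gen2 := ?_
    s2 := pb _ _ _ (li1_s2 h0.dbl h'.dbl)
    s2_inl := fun a => Subtype.ext (funext fun p => (hs1 a p.1).symm)
    s2_inr := fun a => Subtype.ext (funext fun p => (hs1' a p.2).symm)
    mu := pb _ _ _ (li1_mu hs)
    mu_inl := fun _ => rfl
    mu_inr := fun _ => rfl
    sl := fun p => pb _ _ _ (li1_sl p)
    sl_inl := fun p a => Subtype.ext (funext fun q => (h0.ev p a).symm)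
    sl_inr := fun _ _ => rfl
    frame := fun p => ?_ }, fun _ => rfl⟩
  · have h : (aeval (Sum.elim (fun j => pb _ _ _ (li1_inl (W := W)) (S.x j))
        fun j => pb _ _ _ (li1_inr (I := I)) (S'.x j)) :
        MvPolynomial (Fin M ⊕ Fin M) ℂ →ₐ[ℂ] Pol2W (cone I) W) = li1_q I W := by
      refine MvPolynomial.algHom_ext fun j => ?_
      rw [aeval_X]
      rcases j with j | j
      · exact el j
      · exact er j
    rw [h]
    exact li1_q_surj W
  · obtain ⟨F⟩ := S.frame (Set.inclusion hs p)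
    choose v hv using fun l j => nsInst_q_surj (F.t j l)
    have e1 : ∀ j, nsInst_q2 I (X (Sum.inl j)) = S.inl (S.x j) := fun j =>
      Subtype.ext (funext fun y => by rw [nsInst_q2_apply, eval_X, h1, h0.x]; rfl)
    have e2 : ∀ j, nsInst_q2 I (X (Sum.inr j)) = S.inr (S.x j) := fun j =>
      Subtype.ext (funext fun y => by rw [nsInst_q2_apply, eval_X, h2, h0.x]; rfl)
    have e3 : ∀ f, nsInst_q2 I (rename Sum.inl f) = S.inl (nsInst_q I f) := fun f =>
      Subtype.ext (funext fun y => by rw [h1, nsInst_q_apply, nsInst_q2_apply, eval_rename]; rfl)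
    have hk := fun l => li1_ker (F.D l) (v l)
      (fun j => by rw [e1, e3, hv, F.D_inl]) (fun j => by rw [e2, F.D_inr]) W
    let ρ := pb _ _ _ (li1_rho hs)
    refine ⟨F, fun i j => ρ (F.a i j),
      fun l => Derivation.liftOfSurjective (li1_q_surj W) (hk l), fun i => ?_, fun i j => ?_,
      fun l j => ?_, fun l r => ?_⟩
    · have h := congrArg ρ (F.a_u i)
      rw [map_sum, map_zero] at h
      rw [← h]
      refine Finset.sum_congr rfl fun j _ => ?_
      have g1 : ρ (S.inl (S.x j)) = pb _ _ _ (li1_inl (W := W)) (S.x j) :=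
        Subtype.ext (funext fun y => h1 _ _)
      have g2 : ρ (S.inr (S.x j)) = pb _ _ _ (li1_inr (I := I)) (S'.x j) :=
        Subtype.ext (funext fun y => ((h2 _ _).trans (h0.x j _)).trans (h'.x j y.2).symm)
      rw [map_mul, NS0.u, map_sub, g1, g2]
    · rw [← F.mu_a]
      exact Subtype.ext (funext fun y => (h3 _ _).symm)
    · rw [el, Derivation.liftOfSurjective_apply, nsInst_d_inl, ← hv]
      refine Subtype.ext (funext fun y => ?_)
      rw [li1_q_apply, eval_rename]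
      exact (nsInst_q_apply _ y.1).symm
    · obtain ⟨f, hf⟩ := li1_mem.1 r.2
      have h : pb _ _ _ (li1_inr (I := I)) r = li1_q I W (rename Sum.inr f) :=
        Subtype.ext (funext fun y => by rw [li1_q_apply, eval_rename]; exact hf y.2)
      rw [h, Derivation.liftOfSurjective_apply, nsInst_d_rename, map_zero]

end Pool.Agent.HCF
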