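import Pool.Agent.P.MP_f644fa_ag.LA0

/-! Closed cones, local equations, linear systems with polynomial coefficients. -/

noncomputable section
namespace Pool.Agent.HCF
open Finset Module MvPolynomial

variable {τ σ : Type} [Fintype τ] [Fintype σ]

/-- a Zariski closed cone without its vertex -/
structure CCone (W : Set (τ → ℂ)) : Prop where
  ne : ∀ y ∈ W, y ≠ 0
  smul : ∀ y ∈ W, ∀ t : ℂ, t ≠ 0 → t • y ∈ W
  closed : ∀ y, y ≠ 0 → (∀ f : MvPolynomial τ ℂ, (∀ z ∈ W, eval z f = 0) → eval y f = 0) → y ∈ W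

/-- near `y₀`, the common zeros of `r` polynomials that vanish at `y₀` lie in `W` -/
def LocCut (W : Set (τ → ℂ)) (y₀ : τ → ℂ) (r : ℕ) : Prop :=
  ∃ (h : Fin r → MvPolynomial τ ℂ) (δ : MvPolynomial τ ℂ), eval y₀ δ ≠ 0 ∧
    (∀ i, eval y₀ (h i) = 0) ∧ ∀ y, eval y δ ≠ 0 → (∀ i, eval y (h i) = 0) → y ∈ W

/-- the value of a polynomial vector -/
def pv {ι : Type} (y : τ → ℂ) (u : ι → MvPolynomial τ ℂ) : ι → ℂ := fun j => eval y (u j)

theorem pv_apply {ι : Type} (y : τ → ℂ) (u : ι → MvPolynomial τ ℂ) (j : ι) :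
    pv y u j = eval y (u j) := rfl

theorem LocCut.of_card {W : Set (τ → ℂ)} {y₀ : τ → ℂ} {r : ℕ} {ι : Type} [Fintype ι]
    (hr : Fintype.card ι ≤ r) (h : ι → MvPolynomial τ ℂ) (δ : MvPolynomial τ ℂ)
    (h0 : eval y₀ δ ≠ 0) (h1 : ∀ i, eval y₀ (h i) = 0)
    (h2 : ∀ y, eval y δ ≠ 0 → (∀ i, eval y (h i) = 0) → y ∈ W) : LocCut W y₀ r := by
  obtain ⟨e⟩ : Nonempty (ι ↪ Fin r) :=
    Function.Embedding.nonempty_of_card_le (by rwa [Fintype.card_fin])
  refine ⟨Function.extend e h fun _ => 0, δ, h0, fun k => ?_, fun y hy hk => h2 y hy fun i => ?_⟩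
  · by_cases hk : ∃ i, e i = k
    · obtain ⟨i, rfl⟩ := hk
      rw [e.injective.extend_apply]
      exact h1 i
    · rw [Function.extend_apply' _ _ _ hk, map_zero]
  · have := hk (e i)
    rwa [e.injective.extend_apply] at this

theorem LocCut.add {G W : Set (τ → ℂ)} {y₀ : τ → ℂ} {r e : ℕ} (hG : LocCut G y₀ r) {ι : Type}
    [Fintype ι] (he : Fintype.card ι ≤ e) (h : ι → MvPolynomial τ ℂ) (δ : MvPolynomial τ ℂ)
    (h0 : eval y₀ δ ≠ 0) (h1 : ∀ i, eval y₀ (h i) = 0)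
    (h2 : ∀ y ∈ G, eval y δ ≠ 0 → (∀ i, eval y (h i) = 0) → y ∈ W) : LocCut W y₀ (r + e) := by
  obtain ⟨h', δ', g0, g1, g2⟩ := hG
  refine LocCut.of_card (ι := Fin r ⊕ ι) ?_ (Sum.elim h' h) (δ' * δ) ?_ ?_ fun y hy hi => ?_
  · rw [Fintype.card_sum, Fintype.card_fin]
    exact Nat.add_le_add_left he r
  · rw [map_mul]
    exact mul_ne_zero g0 h0
  · rintro (i | i)
    · exact g1 i
    · exact h1 i
  · rw [map_mul] at hy
    exact h2 y (g2 y (left_ne_zero_of_mul hy) fun i => hi (Sum.inl i)) (right_ne_zero_of_mul hy)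
      fun i => hi (Sum.inr i)

/-- a subset that is locally given by equations is closed -/
theorem CCone.sub {G W : Set (τ → ℂ)} (hG : CCone G) (hW : W ⊆ G)
    (hs : ∀ y ∈ W, ∀ t : ℂ, t ≠ 0 → t • y ∈ W)
    (hc : ∀ y ∈ G, y ∉ W → ∃ f : MvPolynomial τ ℂ, eval y f ≠ 0 ∧ ∀ z ∈ W, eval z f = 0) :
    CCone W := by
  refine ⟨fun y hy => hG.ne y (hW hy), hs, fun y hy H => ?_⟩
  by_contra hn
  obtain ⟨f, h1, h2⟩ := hc y (hG.closed y hy fun f hf => H f fun z hz => hf z (hW hz)) hn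
  exact h1 (H f h2)

/-- independence is an open condition -/
theorem lk0_dual {ρ : ℕ} (v : Fin ρ → σ → MvPolynomial τ ℂ) (y₁ : τ → ℂ)
    (h : LinearIndependent ℂ fun k => pv y₁ (v k)) :
    ∃ (δ : MvPolynomial τ ℂ) (u : Fin ρ → σ → MvPolynomial τ ℂ), eval y₁ δ ≠ 0 ∧
      (∀ k k', ∑ j, v k j * u k' j = if k = k' then δ else 0) ∧
      ∀ y, eval y δ ≠ 0 → finrank ℂ (Submodule.span ℂ (Set.range fun k => pv y (v k))) = ρ := by
  obtain ⟨δ, u, h0, h1⟩ := dual_fields (aeval y₁ : MvPolynomial τ ℂ →ₐ[ℂ] ℂ) v h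
  refine ⟨δ, u, h0, h1, fun y hy => ?_⟩
  have h2 : LinearIndependent ℂ fun k => pv y (v k) := by
    refine indep_of_dual (u := fun k => pv y (u k)) hy fun k k' => ?_
    have := congrArg (eval y) (h1 k k')
    rw [map_sum, apply_ite (eval y), map_zero] at this
    rw [← this]
    exact sum_congr rfl fun j _ => (map_mul _ _ _).symm
  rw [finrank_span_eq_card h2, Fintype.card_fin]

omit [Fintype τ] in
theorem lk0_orth {ι : Type} (v : ι → σ → ℂ) (θ : σ → ℂ) (h : ∀ i, ∑ j, v i j * θ j = 0)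
    {w : σ → ℂ} (hw : w ∈ Submodule.span ℂ (Set.range v)) : ∑ j, w j * θ j = 0 := by
  have h1 : θ ∈ perp (Submodule.span ℂ (Set.range v)) := by
    rw [mem_perp_span]
    rintro _ ⟨i, rfl⟩
    rw [← h i]
    exact sum_congr rfl fun j _ => mul_comm _ _
  rw [← h1 w hw]
  exact sum_congr rfl fun j _ => mul_comm _ _

/-- injectivity is an open condition -/
theorem lin_inj {ι : Type} (v : ι → σ → MvPolynomial τ ℂ) (y₁ : τ → ℂ)
    (h : ∀ θ : σ → ℂ, (∀ i, ∑ j, eval y₁ (v i j) * θ j = 0) → θ = 0) :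
    ∃ δ : MvPolynomial τ ℂ, eval y₁ δ ≠ 0 ∧ ∀ y, eval y δ ≠ 0 → ∀ θ : σ → ℂ,
      (∀ i, ∑ j, eval y (v i j) * θ j = 0) → θ = 0 := by
  classical
  have h1 : Submodule.span ℂ (Set.range fun i => pv y₁ (v i)) = perp ⊥ :=
    span_eq_perp _ _ fun θ => ⟨fun hθ i => by rw [(Submodule.mem_bot ℂ).1 hθ]; simp,
      fun hθ => (Submodule.mem_bot ℂ).2 (h θ hθ)⟩
  have h2 : finrank ℂ (Submodule.span ℂ (Set.range fun i => pv y₁ (v i))) = Fintype.card σ := by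
    rw [h1, ← finrank_perp (⊥ : Submodule ℂ (σ → ℂ)), finrank_bot, add_zero]
  obtain ⟨s, -, hs, -⟩ := exists_sel _ h2
  obtain ⟨δ, u, h0, -, h3⟩ := lk0_dual (fun k => v (s k)) y₁ hs
  refine ⟨δ, h0, fun y hy θ hθ => ?_⟩
  have h4 : Submodule.span ℂ (Set.range fun k => pv y (v (s k))) = ⊤ :=
    Submodule.eq_top_of_finrank_eq (by rw [h3 y hy, finrank_fintype_fun_eq_card])
  funext l
  have h5 := lk0_orth (fun k => pv y (v (s k))) θ (fun k => hθ (s k)) (w := Pi.single l 1)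
    (by rw [h4]; exact Submodule.mem_top)
  simpa [Pi.single_apply] using h5

/-- a polynomial solution of a linear system whose rank is maximal at `y₁` -/
theorem lin_sol (U : Set (τ → ℂ)) {ι : Type} (v : ι → σ → MvPolynomial τ ℂ)
    (c : ι → MvPolynomial τ ℂ) (ρ : ℕ)
    (hle : ∀ y ∈ U, finrank ℂ (Submodule.span ℂ (Set.range fun i => pv y (v i))) ≤ ρ)
    (y₁ : τ → ℂ) (h1 : finrank ℂ (Submodule.span ℂ (Set.range fun i => pv y₁ (v i))) = ρ) :
    ∃ (δ : MvPolynomial τ ℂ) (β : σ → MvPolynomial τ ℂ) (s : Fin ρ → ι), Function.Injective s ∧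
      eval y₁ δ ≠ 0 ∧ (∀ k, ∑ j, v (s k) j * β j = δ * c (s k)) ∧
      ∀ y ∈ U, eval y δ ≠ 0 → ∀ θ : σ → ℂ, (∀ i, ∑ j, eval y (v i j) * θ j = eval y (c i)) →
        ∀ i, ∑ j, eval y (v i j) * eval y (β j) = eval y δ * eval y (c i) := by
  obtain ⟨s, hs0, hs, -⟩ := exists_sel _ h1
  obtain ⟨δ, u, h0, hu, h3⟩ := lk0_dual (fun k => v (s k)) y₁ hs
  have hβ : ∀ k, ∑ j, v (s k) j * (∑ k', c (s k') * u k' j) = δ * c (s k) := by
    intro k
    have e : ∀ j, v (s k) j * (∑ k', c (s k') * u k' j)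
        = ∑ k', c (s k') * (v (s k) j * u k' j) := fun j => by
      rw [mul_sum]
      exact sum_congr rfl fun k' _ => by ring
    rw [sum_congr rfl fun j _ => e j, sum_comm]
    simp only [← mul_sum, hu, mul_ite, mul_zero, sum_ite_eq, mem_univ, if_true]
    exact mul_comm _ _
  refine ⟨δ, fun j => ∑ k', c (s k') * u k' j, s, hs0, h0, hβ, fun y hy hδ θ hθ i => ?_⟩
  have h4 : Submodule.span ℂ (Set.range fun k => pv y (v (s k)))
      = Submodule.span ℂ (Set.range fun i => pv y (v i)) := by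
    refine Submodule.eq_of_le_of_finrank_le (Submodule.span_mono ?_) ?_
    · rintro _ ⟨k, rfl⟩
      exact ⟨s k, rfl⟩
    · rw [h3 y hδ]
      exact hle y hy
  have key : ∀ i, ∑ j, pv y (v i) j * (eval y (∑ k', c (s k') * u k' j) - eval y δ * θ j)
      = ∑ j, eval y (v i j) * eval y (∑ k', c (s k') * u k' j) - eval y δ * eval y (c i) := by
    intro i
    rw [← hθ i, mul_sum, ← sum_sub_distrib]
    exact sum_congr rfl fun j _ => by rw [pv_apply]; ring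
  have h5 := lk0_orth (fun k => pv y (v (s k)))
    (fun j => eval y (∑ k', c (s k') * u k' j) - eval y δ * θ j) (fun k => by
      rw [key, ← map_mul, ← hβ k, map_sum, sub_eq_zero]
      exact sum_congr rfl fun j _ => (map_mul _ _ _).symm) (w := pv y (v i))
    (by rw [h4]; exact Submodule.subset_span ⟨i, rfl⟩)
  rw [key] at h5
  exact sub_eq_zero.1 h5

/-- a local frame of a family of constant rank -/
theorem basis_near (U : Set (τ → ℂ)) (T : (τ → ℂ) → Submodule ℂ (σ → ℂ)) {ρ : ℕ}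
    (hρ : ∀ y ∈ U, finrank ℂ (T y) = ρ) {y₀ : τ → ℂ} (h0 : y₀ ∈ U)
    (hg : T y₀ ≤ Submodule.span ℂ
      {v | ∃ u : σ → MvPolynomial τ ℂ, (∀ y ∈ U, pv y u ∈ T y) ∧ v = pv y₀ u}) :
    ∃ (v : Fin ρ → σ → MvPolynomial τ ℂ) (δ : MvPolynomial τ ℂ), eval y₀ δ ≠ 0 ∧
      (∀ y ∈ U, ∀ k, pv y (v k) ∈ T y) ∧ ∀ y ∈ U, eval y δ ≠ 0 →
        T y ≤ Submodule.span ℂ (Set.range fun k => pv y (v k)) := by
  have h1 : Submodule.span ℂ (Set.range fun u : {u : σ → MvPolynomial τ ℂ //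
      ∀ y ∈ U, pv y u ∈ T y} => pv y₀ u.1) = T y₀ := by
    refine le_antisymm (Submodule.span_le.2 ?_) (hg.trans (Submodule.span_mono ?_))
    · rintro _ ⟨u, rfl⟩
      exact u.2 y₀ h0
    · rintro _ ⟨u, hu, rfl⟩
      exact ⟨⟨u, hu⟩, rfl⟩
  obtain ⟨s, -, hs, -⟩ := exists_sel _ (h1.symm ▸ hρ y₀ h0 :
    finrank ℂ (Submodule.span ℂ (Set.range fun u : {u : σ → MvPolynomial τ ℂ //
      ∀ y ∈ U, pv y u ∈ T y} => pv y₀ u.1)) = ρ)
  obtain ⟨δ, u, g0, -, h3⟩ := lk0_dual (fun k => (s k).1) y₀ hs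
  refine ⟨fun k => (s k).1, δ, g0, fun y hy k => (s k).2 y hy, fun y hy hδ => ?_⟩
  refine (Submodule.eq_of_le_of_finrank_le (Submodule.span_le.2 ?_) ?_).ge
  · rintro _ ⟨k, rfl⟩
    exact (s k).2 y hy
  · rw [h3 y hδ, hρ y hy]

end Pool.Agent.HCF
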