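import Pool.Agent.P.MP_f644fa_ag.LK0

/-! Krull's height theorem for cones. -/

noncomputable section
namespace Pool.Agent.HCF
open Finset Module MvPolynomial

variable {τ : Type} [Fintype τ]

/-- Nullstellensatz -/
theorem CCone.ns {W : Set (τ → ℂ)} (hW : CCone W) (A : Ideal (MvPolynomial τ ℂ))
    (h0 : ∀ f, (∀ z ∈ W, eval z f = 0) → f ∈ A) (h : ∀ z ∈ W, ∃ g ∈ A, eval z g ≠ 0) (j : τ) :
    ∃ K : ℕ, X j ^ K ∈ A := by
  change X j ∈ A.radical
  rw [← vanishingIdeal_zeroLocus_eq_radical (K := ℂ) A]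
  intro x hx
  rw [aeval_X]
  by_cases hx0 : x = 0
  · rw [hx0, Pi.zero_apply]
  · obtain ⟨g, hg, hg'⟩ := h x (hW.closed x hx0 fun f hf => hx f (h0 f hf))
    exact absurd (hx g hg) hg'

omit [Fintype τ] in
theorem lk1_smul {f : MvPolynomial τ ℂ} {d : ℕ} (h : f.IsHomogeneous d) (t : ℂ) (x : τ → ℂ) :
    eval (t • x) f = t ^ d * eval x f := by
  rw [eval_eq, eval_eq, Finset.mul_sum]
  refine Finset.sum_congr rfl fun s hs => ?_
  simp only [Pi.smul_apply, smul_eq_mul, mul_pow, Finset.prod_mul_distrib,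
    Finset.prod_pow_eq_pow_sum, ← h.degree_eq_sum_deg_support hs]
  ring

omit [Fintype τ] in
theorem lk1_poly (f : MvPolynomial τ ℂ) (x : τ → ℂ) : ∃ P : Polynomial ℂ,
    (∀ t, P.eval t = eval (t • x) f) ∧ ∀ d, P.coeff d = eval x (homogeneousComponent d f) := by
  refine ⟨∑ d ∈ Finset.range (f.totalDegree + 1),
    Polynomial.monomial d (eval x (homogeneousComponent d f)), fun t => ?_, fun d => ?_⟩
  · conv_rhs => rw [← sum_homogeneousComponent f]
    rw [Polynomial.eval_finsetSum, map_sum]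
    refine Finset.sum_congr rfl fun d _ => ?_
    rw [Polynomial.eval_monomial, lk1_smul (homogeneousComponent_isHomogeneous d f), mul_comm]
  · rw [Polynomial.finsetSum_coeff]
    simp only [Polynomial.coeff_monomial, Finset.sum_ite_eq', Finset.mem_range]
    split_ifs with h
    · rfl
    · rw [homogeneousComponent_eq_zero d f (by omega), map_zero]

theorem lk1_ext {P Q : Polynomial ℂ} (h : ∀ t : ℂ, t ≠ 0 → P.eval t = Q.eval t) : P = Q :=
  Polynomial.eq_of_infinite_eval_eq _ _
    ((Set.finite_singleton (0 : ℂ)).infinite_compl.mono fun t ht => h t ht)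

theorem CCone.comp {W : Set (τ → ℂ)} (hW : CCone W) {f : MvPolynomial τ ℂ}
    (h : ∀ z ∈ W, eval z f = 0) (d : ℕ) : ∀ z ∈ W, eval z (homogeneousComponent d f) = 0 := by
  intro z hz
  obtain ⟨P, h1, h2⟩ := lk1_poly f z
  have h3 : P = 0 := lk1_ext fun t ht => by
    rw [h1, h _ (hW.smul z hz t ht), Polynomial.eval_zero]
  rw [← h2, h3, Polynomial.coeff_zero]

/-- on a fibre, high powers of the coordinates are polynomials of lower degree -/
theorem lk1_pow {W : Set (τ → ℂ)} (hW : CCone W) {ι : Type} [Fintype ι] (L : ι → τ → ℂ)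
    (hL : ∀ y ∈ W, ∃ i, ∑ j, L i j * y j ≠ 0) (b : ι → ℂ) : ∃ (K : ℕ) (p : τ → MvPolynomial τ ℂ),
      (∀ j, (p j).totalDegree ≤ K) ∧ ∀ j, ∀ y ∈ W, (∀ i, ∑ j, L i j * y j = b i) →
        y j ^ (K + 1) = eval y (p j) := by
  obtain ⟨l, hl⟩ : ∃ l : ι → MvPolynomial τ ℂ, ∀ i y, eval y (l i) = ∑ j, L i j * y j :=
    ⟨fun i => ∑ j, C (L i j) * X j, fun i y => by simp⟩
  have h1 : ∀ j, ∃ K : ℕ, X j ^ K ∈ vanishingIdeal ℂ W ⊔ Ideal.span (Set.range l) := fun j =>
    hW.ns _ (fun f hf => Ideal.mem_sup_left (mem_vanishingIdeal_iff.2 hf)) (fun z hz => by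
      obtain ⟨i, hi⟩ := hL z hz
      exact ⟨l i, Ideal.mem_sup_right (Ideal.subset_span ⟨i, rfl⟩), by rwa [hl]⟩) j
  choose k hk using h1
  have h2 : ∀ j, ∃ g : ι → MvPolynomial τ ℂ, ∀ y ∈ W,
      y j ^ (univ.sup k + 1) = ∑ i, eval y (g i) * ∑ j, L i j * y j := fun j => by
    have h3 : k j ≤ univ.sup k + 1 := (Finset.le_sup (f := k) (mem_univ j)).trans (Nat.le_succ _)
    obtain ⟨w, hw, a, ha, e⟩ := Submodule.mem_sup.1 (Ideal.pow_mem_of_pow_mem _ (hk j) h3)
    obtain ⟨g, rfl⟩ := Ideal.mem_span_range_iff_exists_fun.1 ha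
    refine ⟨g, fun y hy => ?_⟩
    have h4 := congrArg (eval y) e
    have h5 : eval y w = 0 := hw y hy
    rw [map_add, h5, zero_add, map_pow, eval_X, map_sum] at h4
    rw [← h4]
    exact Finset.sum_congr rfl fun i _ => by rw [map_mul, hl]
  choose g hg using h2
  refine ⟨univ.sup k, fun j => ∑ i, homogeneousComponent (univ.sup k) (g j i) * C (b i),
    fun j => totalDegree_finsetSum_le fun i _ => (totalDegree_mul _ _).trans ?_,
    fun j y hy hb => ?_⟩
  · rw [totalDegree_C, add_zero]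
    exact (homogeneousComponent_isHomogeneous _ _).totalDegree_le
  · choose P hP hP' using fun i => lk1_poly (g j i) y
    have h6 : Polynomial.monomial (univ.sup k + 1) (y j ^ (univ.sup k + 1)) =
        ∑ i, P i * Polynomial.C (b i) * Polynomial.X := lk1_ext fun t ht => by
      have h7 := hg j _ (hW.smul y hy t ht)
      rw [Polynomial.eval_monomial, Polynomial.eval_finsetSum, ← mul_pow, mul_comm]
      refine h7.trans (Finset.sum_congr rfl fun i _ => ?_)
      rw [Polynomial.eval_mul, Polynomial.eval_mul, Polynomial.eval_C, Polynomial.eval_X, hP,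
        ← hb i, mul_assoc, Finset.sum_mul]
      refine congrArg _ (Finset.sum_congr rfl fun j _ => ?_)
      rw [Pi.smul_apply, smul_eq_mul]
      ring
    have h8 := congrArg (fun R : Polynomial ℂ => R.coeff (univ.sup k + 1)) h6
    simp only [Polynomial.coeff_monomial, if_true, Polynomial.finsetSum_coeff,
      Polynomial.coeff_mul_X, Polynomial.coeff_mul_C, hP'] at h8
    rw [h8, map_sum]
    exact Finset.sum_congr rfl fun i _ => by rw [map_mul, eval_C]

theorem lk1_red {B : Type} [CommRing B] [Algebra ℂ B] (ρ : MvPolynomial τ ℂ →ₐ[ℂ] B) {K : ℕ}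
    {p : τ → MvPolynomial τ ℂ} (hp : ∀ j, (p j).totalDegree ≤ K)
    (h : ∀ j, ρ (X j ^ (K + 1)) = ρ (p j)) (m : ℕ) : ∀ f : MvPolynomial τ ℂ, f.totalDegree ≤ m →
      ρ f ∈ (restrictTotalDegree τ ℂ (Fintype.card τ * K)).map ρ.toLinearMap := by
  induction m using Nat.strong_induction_on with
  | _ m ih =>
    intro f hf
    rw [f.as_sum, map_sum]
    refine Submodule.sum_mem _ fun s hs => ?_
    have h1 : (s.sum fun _ e => e) ≤ m := (le_totalDegree hs).trans hf
    by_cases h2 : ∀ j, s j ≤ K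
    · refine ⟨_, ?_, rfl⟩
      rw [SetLike.mem_coe, mem_restrictTotalDegree]
      refine (totalDegree_monomial_le _ _).trans ?_
      rw [Finsupp.sum_fintype _ _ fun _ => rfl]
      exact (Finset.sum_le_card_nsmul _ _ K fun j _ => h2 j).trans_eq (by simp)
    · obtain ⟨j, hj⟩ := not_forall.1 h2
      obtain ⟨s', rfl⟩ : ∃ s', s = s' + Finsupp.single j (K + 1) :=
        ⟨_, (tsub_add_cancel_of_le (Finsupp.single_le_iff.2 (by omega))).symm⟩
      rw [Finsupp.sum_add_index' (fun _ => rfl) (fun _ _ _ => rfl),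
        Finsupp.sum_single_index rfl] at h1
      rw [monomial_add_single, map_mul, h, ← map_mul]
      refine ih ((s'.sum fun _ e => e) + K) (by omega) _ ((totalDegree_mul _ _).trans ?_)
      exact add_le_add (totalDegree_monomial_le _ _) (hp j)

/-- the fibres of a linear projection without base points are finite -/
theorem CCone.fibre {W : Set (τ → ℂ)} (hW : CCone W) {ι : Type} [Fintype ι] (L : ι → τ → ℂ)
    (hL : ∀ y ∈ W, ∃ i, ∑ j, L i j * y j ≠ 0) (b : ι → ℂ) (j : τ) :
    ∃ q : Polynomial ℂ, q ≠ 0 ∧ ∀ y ∈ W, (∀ i, ∑ j, L i j * y j = b i) → q.eval (y j) = 0 := by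
  obtain ⟨K, p, hp, h⟩ := lk1_pow hW L hL b
  let ρ : MvPolynomial τ ℂ →ₐ[ℂ] ({y // y ∈ W ∧ ∀ i, ∑ j, L i j * y j = b i} → ℂ) :=
    aeval fun j y => y.1 j
  have hρ : ∀ f y, ρ f y = eval y.1 f := fun f y => by
    induction f using MvPolynomial.induction_on with
    | C a => simp [ρ]
    | add p q hp hq => rw [map_add, map_add, Pi.add_apply, hp, hq]
    | mul_X p j hp => rw [map_mul, map_mul, Pi.mul_apply, hp, aeval_X, eval_X]
  have h1 : ρ.range.toSubmodule =
      (restrictTotalDegree τ ℂ (Fintype.card τ * K)).map ρ.toLinearMap := by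
    refine le_antisymm ?_ ?_
    · rintro _ ⟨f, rfl⟩
      exact lk1_red ρ hp (fun j => funext fun y => by
        rw [hρ, hρ, map_pow, eval_X, h j y.1 y.2.1 y.2.2]) _ f le_rfl
    · rintro _ ⟨f, -, rfl⟩
      exact ⟨f, rfl⟩
  have h2 : ρ.range.toSubmodule.FG := by
    rw [h1]
    exact (Module.Finite.iff_fg.1 inferInstance).map _
  obtain ⟨q, hq, hq'⟩ := IsIntegral.of_mem_of_fg ρ.range h2 (ρ (X j)) ⟨X j, rfl⟩
  refine ⟨q, hq.ne_zero, fun y hy hb => ?_⟩
  have h3 := Polynomial.aeval_algHom_apply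
    (Pi.evalAlgHom ℂ (fun _ : {y // y ∈ W ∧ ∀ i, ∑ j, L i j * y j = b i} => ℂ) ⟨y, hy, hb⟩)
    (ρ (X j)) q
  rw [Polynomial.aeval_def (R := ℂ) (ρ (X j)), hq', map_zero, Pi.evalAlgHom_apply, hρ, eval_X,
    Polynomial.coe_aeval_eq_eval] at h3
  exact h3

theorem card_le_height (y₀ : τ → ℂ) :
    (Fintype.card τ : ℕ∞) ≤ (RingHom.ker (eval y₀ : MvPolynomial τ ℂ →+* ℂ)).height := by
  classical
  let φ : Finset τ → MvPolynomial τ ℂ →ₐ[ℂ] MvPolynomial τ ℂ := fun s =>
    aeval fun j => if j ∈ s then C (y₀ j) else X j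
  have hp : ∀ s, (RingHom.ker (φ s)).IsPrime := fun s => RingHom.ker_isPrime _
  have h1 : ∀ s : Finset τ, (s.card : ℕ∞) ≤ (RingHom.ker (φ s)).height := fun s => by
    induction s using Finset.induction_on with
    | empty => simp
    | insert a s ha ih =>
      have e : (φ (insert a s)).comp (φ s) = φ (insert a s) := algHom_ext fun j => by
        by_cases hj : j ∈ s
        · simp [φ, hj]
        · simp [φ, hj]
      have hlt : RingHom.ker (φ s) < RingHom.ker (φ (insert a s)) := by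
        refine lt_of_le_of_ne (fun f hf => ?_) fun h => ?_
        · rw [RingHom.mem_ker] at hf ⊢
          rw [← e, AlgHom.comp_apply, hf, map_zero]
        · have h2 : X a - C (y₀ a) ∈ RingHom.ker (φ (insert a s)) := by
            simp [RingHom.mem_ker, φ]
          rw [← h, RingHom.mem_ker] at h2
          have h3 := congrArg (eval fun _ => y₀ a + 1) h2
          simp [φ, ha] at h3
      have := hp s
      have := hp (insert a s)
      rw [Finset.card_insert_of_notMem ha, Nat.cast_succ]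
      exact (add_le_add_left ih 1).trans (Ideal.height_add_one_le_of_lt_of_isPrime hlt)
  refine (h1 univ).trans (Ideal.height_mono fun f hf => ?_)
  have e : (aeval y₀).comp (φ univ) = aeval y₀ := algHom_ext fun j => by simp [φ]
  rw [RingHom.mem_ker] at hf ⊢
  change aeval y₀ f = 0
  rw [← e, AlgHom.comp_apply, hf, map_zero]

theorem CCone.card_le {W : Set (τ → ℂ)} (hW : CCone W) {y₀ : τ → ℂ} {r : ℕ}
    (h : LocCut W y₀ r) {ι : Type} [Fintype ι] (L : ι → τ → ℂ)
    (hL : ∀ y ∈ W, ∃ i, ∑ j, L i j * y j ≠ 0) : Fintype.card τ ≤ r + Fintype.card ι := by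
  classical
  obtain ⟨g, δ, h0, h1, h2⟩ := h
  obtain ⟨l, hl⟩ : ∃ l : ι → MvPolynomial τ ℂ, ∀ i y,
      eval y (l i) = ∑ j, L i j * y j - ∑ j, L i j * y₀ j :=
    ⟨fun i => ∑ j, C (L i j) * X j - C (∑ j, L i j * y₀ j), fun i y => by
      rw [map_sub, eval_C]
      simp⟩
  have hm : RingHom.ker (eval y₀ : MvPolynomial τ ℂ →+* ℂ) ∈
      (Ideal.span ((univ.image g ∪ univ.image l : Finset (MvPolynomial τ ℂ)) :
        Set (MvPolynomial τ ℂ))).minimalPrimes := by
    refine ⟨⟨RingHom.ker_isPrime _, Ideal.span_le.2 fun f hf => ?_⟩, fun P hP hle => ?_⟩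
    · rcases Finset.mem_union.1 hf with hf | hf
      · obtain ⟨i, -, rfl⟩ := Finset.mem_image.1 hf
        exact h1 i
      · obtain ⟨i, -, rfl⟩ := Finset.mem_image.1 hf
        exact (hl i y₀).trans (sub_self _)
    have h3 : ∀ j, X j - C (y₀ j) ∈ P := fun j => by
      obtain ⟨q, hq, hq'⟩ := hW.fibre L hL (fun i => ∑ j, L i j * y₀ j) j
      obtain ⟨q1, e, hq1⟩ := q.exists_eq_pow_rootMultiplicity_mul_and_not_dvd hq (y₀ j)
      have ev : ∀ (y : τ → ℂ) (u : Polynomial ℂ),
          eval y (Polynomial.aeval (X j : MvPolynomial τ ℂ) u) = u.eval (y j) := fun y u => by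
        have h4 := Polynomial.aeval_algHom_apply (aeval y : MvPolynomial τ ℂ →ₐ[ℂ] ℂ) (X j) u
        rw [aeval_X, Polynomial.coe_aeval_eq_eval] at h4
        exact h4.symm
      have h5 : δ * Polynomial.aeval (X j : MvPolynomial τ ℂ) q ∈ P := by
        refine (hP.1.radical_le_iff.2 hP.2) ?_
        rw [← vanishingIdeal_zeroLocus_eq_radical (K := ℂ)]
        intro y hy
        change eval y _ = 0
        rw [map_mul, ev]
        by_cases hδ : eval y δ = 0
        · rw [hδ, zero_mul]
        · refine mul_eq_zero_of_right _ (hq' y (h2 y hδ fun i => hy _ (Ideal.subset_span ?_))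
            fun i => sub_eq_zero.1 ((hl i y).symm.trans (hy _ (Ideal.subset_span ?_))))
          · exact Finset.mem_union_left _ (Finset.mem_image_of_mem g (mem_univ i))
          · exact Finset.mem_union_right _ (Finset.mem_image_of_mem l (mem_univ i))
      have h6 := (hP.1.mem_or_mem h5).resolve_left fun h => h0 (hle h)
      rw [e, map_mul, map_pow, map_sub, Polynomial.aeval_X, Polynomial.aeval_C] at h6
      refine hP.1.mem_of_pow_mem _ ((hP.1.mem_or_mem h6).resolve_right fun h => hq1 ?_)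
      exact Polynomial.dvd_iff_isRoot.2 ((ev y₀ q1).symm.trans (hle h))
    have h7 : ∀ f : MvPolynomial τ ℂ, f - C (eval y₀ f) ∈ P := fun f => by
      induction f using MvPolynomial.induction_on with
      | C a => simp
      | add f f' hf hf' =>
        rw [show f + f' - C (eval y₀ (f + f')) = (f - C (eval y₀ f)) + (f' - C (eval y₀ f')) by
          rw [map_add, map_add]; ring]
        exact add_mem hf hf'
      | mul_X f j hf =>
        rw [show f * X j - C (eval y₀ (f * X j)) =
            (f - C (eval y₀ f)) * X j + C (eval y₀ f) * (X j - C (y₀ j)) by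
          rw [map_mul, map_mul, eval_X]; ring]
        exact add_mem (P.mul_mem_right _ hf) (P.mul_mem_left _ (h3 j))
    intro f hf
    have h8 := h7 f
    rwa [RingHom.mem_ker.1 hf, map_zero, sub_zero] at h8
  have h9 := (card_le_height y₀).trans (Ideal.height_le_card_of_mem_minimalPrimes_span_finset hm)
  have h10 : Fintype.card τ ≤ (univ.image g ∪ univ.image l).card := by exact_mod_cast h9
  refine h10.trans ((Finset.card_union_le _ _).trans (add_le_add ?_ ?_))
  · exact Finset.card_image_le.trans_eq (by simp)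
  · exact Finset.card_image_le

end Pool.Agent.HCF
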