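import Pool.Agent.P.MP_f644fa_ag.LSub

/-! The first congruence for an arbitrary subbundle. -/

noncomputable section
namespace Pool.Agent.HCF
open Finset Module PowerSeries
open scoped Kronecker

variable {M n : ℕ} {X R RR : Type} [CommRing R] [Algebra ℂ R] [CommRing RR] [Algebra ℂ RR]
  {σ : Type} [LinearOrder σ] [Fintype σ]

theorem ln1_ok {S : NS0 M n X R RR} (B : Sub S σ) (hw : ∀ j, B.w j = 0)
    {G : Matrix (Finset σ × Finset σ) (Finset σ × Finset σ) ℂ}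
    (hk : ∀ v y, Kil v y → Kil v (cst ℂ G y)) : (B.lam.tensor B.lam).Ok G := by
  have h0 : ∀ q, (B.lam.tensor B.lam).w q = 0 := fun q => by
    change B.wt q.1 + B.wt q.2 = 0
    simp [Sub.wt, hw]
  refine ⟨fun ω hω => ?_, fun q q' _ => by rw [h0, h0]⟩
  have e : ∀ p q, S.ev p (cst R G ω q) = cst ℂ G (fun q => S.ev p (ω q)) q := fun p q => by
    simp only [cst_apply, map_sum, map_smul]
  have k : ∀ p, ∀ v ∈ B.T p, Kil v (cst ℂ G fun q => S.ev p (ω q)) := fun p v hv =>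
    hk v _ ⟨fun A => hω.1 A p v hv, fun A => hω.2 A p v hv⟩
  refine ⟨fun A p v hv => ?_, fun A p v hv => ?_⟩
  · have e1 : S.val p (fun A' => cst R G ω (A', A)) =
        fun A' => cst ℂ G (fun q => S.ev p (ω q)) (A', A) := funext fun A' => e p _
    rw [e1]
    exact (k p v hv).1 A
  · have e1 : S.val p (fun A' => cst R G ω (A, A')) =
        fun A' => cst ℂ G (fun q => S.ev p (ω q)) (A, A') := funext fun A' => e p _
    rw [e1]
    exact (k p v hv).2 A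

theorem ln1_piM_sq (k : ℕ) : piM σ k * piM σ k = piM σ k := by
  unfold piM
  rw [Matrix.diagonal_mul_diagonal]
  refine congrArg Matrix.diagonal (funext fun J => ?_)
  split_ifs <;> simp

theorem ln1_chi_ssw {S : NS0 M n X R RR} (B : Sub S σ) (hw : ∀ j, B.w j = 0) {I : Type} [Fintype I]
    {E : Dat S I} {T : Matrix I I ℂ} (h : E.Ok T) (k : ℕ) :
    C ((-1) ^ k) * (E.tensor (B.lam.tensor B.lam)).chi
        (T ⊗ₖ (swM _ * (piM σ k ⊗ₖ piM σ k))) =
      ∑ q ∈ antidiagonal (2 * k), C ((-1) ^ q.2) * (E.tensor (B.lam.tensor B.lam)).chi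
        (T ⊗ₖ (piM σ q.1 ⊗ₖ piM σ q.2)) := by
  obtain ⟨G, G', h1, h2, h3, h4, h5, h6, h7⟩ := exists_conj σ
  have oG := ln1_ok B hw h6
  have oG' := ln1_ok B hw h7
  have oP : ∀ a b, (B.lam.tensor B.lam).Ok (piM σ a ⊗ₖ piM σ b) := fun a b =>
    (B.ok_piM a).kron (B.ok_piM b)
  have oPar : (B.lam.tensor B.lam).Ok (1 ⊗ₖ parM σ (-1)) :=
    (Dat.Ok.one _).kron (B.ok_parM _)
  have es : sswM σ = G * (1 ⊗ₖ parM σ (-1)) * G' := by
    rw [← h3, mul_assoc, h1, mul_one]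
  have os : (B.lam.tensor B.lam).Ok (sswM σ) := by
    rw [es]
    exact (oG.mul oPar).mul oG'
  have ot : (B.lam.tensor B.lam).Ok (totM σ (2 * k)) := by
    rw [num0_tot]
    exact Dat.Ok.sum _ fun q _ => oP _ _
  have e1 : (E.tensor (B.lam.tensor B.lam)).chi (T ⊗ₖ (sswM σ * totM σ (2 * k))) =
      C ((-1) ^ k) * (E.tensor (B.lam.tensor B.lam)).chi
        (T ⊗ₖ (swM _ * (piM σ k ⊗ₖ piM σ k))) := by
    rw [num0_tot, Finset.mul_sum, num0_chi_sum h _ fun q _ => os.mul (oP _ _),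
      Finset.sum_eq_single (k, k)]
    · rw [num0_dia, num0_chi_smul h ((Dat.Ok.swM _).mul (oP _ _))]
    · intro q hq hne
      have hab : q.1 ≠ q.2 := fun e => by
        rw [HasAntidiagonal.mem_antidiagonal] at hq
        exact hne (Prod.ext (by change q.1 = k; omega) (by change q.2 = k; omega))
      rw [← num0_idem, ← mul_assoc, num0_chi_comm h (os.mul (oP _ _)) (oP _ _), num0_off hab,
        Matrix.kronecker_zero, Dat.chi_zero]
    · intro hk
      exact absurd (HasAntidiagonal.mem_antidiagonal.2 (two_mul k).symm) hk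
  rw [← e1, es, mul_assoc, num0_comm h5, mul_assoc, num0_chi_comm h oG (oPar.mul (ot.mul oG')),
    mul_assoc, mul_assoc, h2, mul_one, num0_tot, Finset.mul_sum,
    num0_chi_sum h _ fun q _ => oPar.mul (oP _ _)]
  refine Finset.sum_congr rfl fun q _ => ?_
  rw [num0_par, num0_chi_smul h (oP _ _)]

theorem Sub.num1 {S : NS M n X R RR} {c : ℕ} (hM : M = n + 1 + c) (B : Sub S.toNS0 σ)
    (hw : ∀ j, B.w j = 0) (g : ℕ → Polynomial ℂ) (g₀ : Polynomial ℂ)
    (hg : ∀ k, Nm n (g k) (B.lam.chi (piM σ k))) (h₀ : Nm n g₀ (S.HS 0)) (k : ℕ) :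
    (1 - Polynomial.X) ^ (n + 1 - c) ∣ (-1) ^ k * Polynomial.expand ℂ 2 (g k) * g₀ ^ 2 -
      Polynomial.expand ℂ 2 g₀ * ∑ q ∈ antidiagonal (2 * k), (-1) ^ q.2 * g q.1 * g q.2 := by
  have hle : (1 - Polynomial.X : Polynomial ℂ) ^ (n + 1 - c) ∣ (1 - Polynomial.X) ^ (n + 1) :=
    pow_dvd_pow _ (Nat.sub_le _ _)
  have ok1 : S.lam.Ok 1 := Dat.Ok.one _
  obtain ⟨Λ, hΛ⟩ := num_rat ok1
  have h3 : (1 - Polynomial.X : Polynomial ℂ) ^ (n + 1 - c) ∣
      Polynomial.expand ℂ 2 g₀ * (1 + Polynomial.X) ^ c - Λ := by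
    refine hle.trans (Nm.dvd (h₀.ex2 c) hΛ ?_)
    have e := NS.ident2 (S := S) (Dat.Ok.one (Dat.one S.toNS0))
    rw [num_sw_unit, num_unit2 S ok1, mul_one, S.chi_one] at e
    rw [← hM]
    exact e
  have okq : ∀ q : ℕ × ℕ, (B.lam.tensor B.lam).Ok (piM σ q.1 ⊗ₖ piM σ q.2) :=
    fun q => (B.ok_piM q.1).kron (B.ok_piM q.2)
  choose N hN using fun q : ℕ × ℕ => num_rat (ok1.kron (okq q))
  choose N' hN' using fun q : ℕ × ℕ => num_rat (okq q)
  have h1 : (1 - Polynomial.X : Polynomial ℂ) ^ (n + 1 - c) ∣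
      (-1) ^ k * (Polynomial.expand ℂ 2 (g k) * (1 + Polynomial.X) ^ c) -
        ∑ q ∈ antidiagonal (2 * k), (-1) ^ q.2 * N q := by
    have e := NS.ident2 (S := S) (B.ok_piM k)
    rw [ln1_piM_sq] at e
    have a1 := (hg k).ex2 c
    rw [← hM] at a1
    have a2 := num_sign (num_peq a1 e) k
    rw [ln1_chi_ssw B hw ok1 k] at a2
    exact hle.trans (Nm.dvd a2 (num_sum _ fun q _ => num_sign (hN q) q.2) (PEq.refl _))
  have h2 : ∀ q ∈ antidiagonal (2 * k), (1 - Polynomial.X : Polynomial ℂ) ^ (n + 1 - c) ∣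
      (-1) ^ q.2 * N q * g₀ ^ 2 - Λ * ((-1) ^ q.2 * g q.1 * g q.2) := by
    intro q _
    have b1 := NS.mult hM ok1 (okq q) hΛ (hN' q) (hN q) h₀
    have b2 := NS.mult hM (B.ok_piM q.1) (B.ok_piM q.2) (hg q.1) (hg q.2) (hN' q) h₀
    have b3 := (b1.mul_left ((-1) ^ q.2 * g₀)).add (b2.mul_left ((-1) ^ q.2 * Λ))
    refine (num_dvd ?_).1 b3
    ring
  have h2' := dvd_sum h2
  rw [sum_sub_distrib, ← sum_mul, ← mul_sum] at h2'
  refine (num_cop 0 c (n + 1 - c)).dvd_of_dvd_mul_left ?_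
  have b4 := ((h1.mul_right (g₀ ^ 2)).add h2').sub (h3.mul_right
    (∑ q ∈ antidiagonal (2 * k), (-1) ^ q.2 * g q.1 * g q.2))
  refine (num_dvd ?_).1 b4
  ring

end Pool.Agent.HCF
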