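import Pool.Agent.P.MP_f644fa_ag.LM1a
import Pool.Agent.P.MP_f644fa_ag.LN1
import Pool.Agent.P.MP_f644fa_ag.LS1
import Pool.Agent.P.MP_f644fa_ag.LG1

/-! The Chern roots are integers. -/

noncomputable section
namespace Pool.Agent.HCF
open Finset Module Polynomial

variable {M : ℕ} {I : Ideal (SS M)} {c n : ℕ}

theorem Nx.roots (hX : IsManifold I (c + 1)) (hM : M = n + 1 + (c + 1)) {s : ℕ}
    {ν : Finset (Fin M) → secRing I} (hν : ν ∈ Hm (secRing I) (c + 1) s)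
    (hne : ∀ x : cone I, ∃ J, (ν J).1 x ≠ 0) {S : NS M n (cone I) (Pol I) (Pol2 I)}
    {g : ℕ → ℂ[X]} (h : Nx I (c + 1) n s S g) (hi : 2 * s + 2 * (c + 1) + 1 ≤ n)
    {x y : Fin M → ℂ} (hl : IsLine I x y) :
    ∃ β : Fin (c + 1) → ℕ, Monotone β ∧ ∑ j, β j ≤ s ∧ ∀ k, (1 - X) ^ (n + 1 - (c + 1)) ∣
      g k - g 0 * ∑ J ∈ powersetCard k (univ : Finset (Fin (c + 1))), X ^ (∑ j ∈ J, β j) := by
  obtain ⟨φ, hφ, hy⟩ := hl.exists_phi
  have hx : x ∈ cone I := by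
    have := hl.mem (p := ![1, 0]) fun e => one_ne_zero (congrFun e 0)
    rwa [pt_first] at this
  obtain ⟨S', N, hS', hN⟩ := h.sub (Gx I x φ) ccone_Gx fun z hz => Cx_sub x hz.1
  obtain ⟨B, hw, hT⟩ := (hX.pgen_Ep c).exists_sub h.expl
  have hgt : ∀ k, c + 1 < k → B.lam.chi (piM (FS M) k) = 0 := fun k hk => by
    refine B.chi_gt (r := c + 1) (fun p => ?_) hk
    have h1 := finrank_perp (Ep I c p.1)
    rw [(hX.pgen_Ep c).rank p.1 p.2, Nat.choose_succ_self_right] at h1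
    rw [hT]
    exact h1.ge
  choose ε₀ hε₀ using fun k => num_rat (B.ok_piM k)
  let ε : ℕ → ℂ[X] := fun k => if c + 1 < k then 0 else ε₀ k
  have hε : ∀ k, Nm n (ε k) (B.lam.chi (piM (FS M) k)) := fun k => by
    by_cases hk : c + 1 < k
    · rw [hgt k hk]
      exact ⟨0, by simp [ε, hk]⟩
    · simp only [ε, if_neg hk]
      exact hε₀ k
  obtain ⟨π, hπ, hπz, heq⟩ :=
    h.lines_eq hX hM hν hne hw hT hε hx (fun z hz => Gx_line hφ hz) N hS' hN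
  have hle : (1 - X : ℂ[X]) ^ (n + 1 - (c + 1)) ∣ (1 - X) ^ (n + 1) :=
    pow_dvd_pow _ (Nat.sub_le _ _)
  refine s1_poly (γ := s + 1) g ε π (by omega) h.ne h.gt (fun k hk => if_pos hk) hπz
    (fun hd => ?_) (S.num1 hM g h.nm) (B.num1 hM hw ε (g 0) hε (h.nm 0)) (hle.trans h.top)
    (hle.trans (Nm.dvd (hε 0) (h.nm 0) ?_)) (hle.trans (Nm.dvd (hε 1) (h.nm c) ?_)) heq
  · have := hS'.order ccone_Gx ((hl.locCut hX hν hne).gx hy) hπ hd
    omega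
  · rw [B.chi_zero, S.chi_one]
    exact PEq.refl _
  · rw [chi_Ep h.expl hw hT]
    exact PEq.refl _

end Pool.Agent.HCF
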