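import Pool.Agent.P.MP_f644fa_ag.LX2

/-! The normal bundle on a line. -/

noncomputable section
namespace Pool.Agent.HCF
open Finset Module MvPolynomial

variable {M : ℕ} {I : Ideal (SS M)} {c n : ℕ}

theorem lx3_wedge_hom {σ : Type} [LinearOrder σ] [Fintype σ] {k : ℕ} {v : Fin k → σ → B2}
    {β : Fin k → ℕ} (hv : ∀ i j, (v i j).IsHomogeneous (β i)) (J : Finset σ) :
    (wedge B2 k v J).IsHomogeneous (∑ i, β i) := by
  induction k generalizing J with
  | zero =>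
    rw [wedge_zero, Pi.single_apply, Fin.sum_univ_zero]
    split_ifs
    · exact isHomogeneous_one _ _
    · exact isHomogeneous_zero _ _ _
  | succ k ih =>
    rw [wedge_succ, fock_epv, Fin.sum_univ_succ]
    refine IsHomogeneous.sum _ _ _ fun j _ => ?_
    rw [smul_eq_mul]
    refine (hv 0 j).mul ?_
    rw [ep_apply]
    split_ifs
    · exact (homogeneousSubmodule (Fin 2) ℂ _).toAddSubgroup.zsmul_mem
        (ih (v := Fin.tail v) (β := fun i => β i.succ) (fun i j => hv i.succ j) _) _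
    · exact isHomogeneous_zero _ _ _

theorem lx3_ne10 : (![1, 0] : Fin 2 → ℂ) ≠ 0 := fun h => one_ne_zero (congrFun h 0)

theorem lx3_ne01 : (![0, 1] : Fin 2 → ℂ) ≠ 0 := fun h => one_ne_zero (congrFun h 1)

theorem lx3_onto {σ : Type} [Fintype σ] {B : (Fin 2 → ℂ) → Submodule ℂ (σ → ℂ)} {r d : ℕ}
    (hB : PB B r) {a : Fin r → ℕ} {ω : Fin r → σ → B2} (h : IsFr B a ω) (ha : ∀ i, a i ≤ d)
    {p : Fin 2 → ℂ} (hp : p ≠ 0) (ξ : σ → ℂ) :
    ξ ∈ B p ↔ ∃ θ ∈ cSec B (d + 1), pv p (toP σ (d + 1) θ) = ξ := by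
  constructor
  · intro hξ
    rw [← hB.span_frame h hp] at hξ
    obtain ⟨t, ht⟩ := (Submodule.mem_span_range_iff_exists_fun ℂ).1 hξ
    choose m hm hm1 using fun i => exists_hom_one (d - a i) hp
    have hN : (∑ i, (t i • m i) • ω i) ∈ Sec B d :=
      Nn_le_Sec h.1 d ⟨fun i => t i • m i, fun i =>
        ⟨fun _ => (homogeneousSubmodule (Fin 2) ℂ _).smul_mem _ (hm i),
          fun hlt => absurd (ha i) (not_le.2 hlt)⟩, rfl⟩
    obtain ⟨θ, hθ⟩ := toP_surj hN.1
    refine ⟨θ, mem_cSec.2 fun q hq => hθ ▸ hN.2 q hq, ?_⟩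
    rw [hθ, ← ht]
    funext K
    simp [pv, Finset.sum_apply, hm1]
  · rintro ⟨θ, hθ, rfl⟩
    exact mem_cSec.1 hθ p hp

theorem IsLine.frame_Ep (hX : IsManifold I (c + 1)) {s : ℕ} {ν : Finset (Fin M) → secRing I}
    (hν : ν ∈ Hm (secRing I) (c + 1) s) (hne : ∀ x : cone I, ∃ J, (ν J).1 x ≠ 0)
    {x y : Fin M → ℂ} (hl : IsLine I x y) :
    ∃ (a : Fin (c + 1) → ℕ) (ω : Fin (c + 1) → FS M → B2),
      IsFr (fun p => Ep I c (pt x y p)) (fun i => s - a i) ω ∧ ∑ i, a i = s := by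
  obtain ⟨a, η, hη, hs⟩ := hl.frame hX hν hne
  have e : ∀ (i : Fin (c + 1)) (p : Fin 2 → ℂ),
      pv p (wedge B2 c fun k => η (i.succAbove k)) =
        wedge ℂ c fun k => pv p (η (i.succAbove k)) := fun i p =>
    wedge_map (eval p) fun k => η (i.succAbove k)
  refine ⟨a, fun i => wedge B2 c fun k => η (i.succAbove k), ⟨fun i => ⟨fun J => ?_, fun p hp => ?_⟩,
    fun p hp => ?_⟩, hs⟩
  · have h1 : s - a i = ∑ k : Fin c, a (i.succAbove k) := by
      rw [← hs, Fin.sum_univ_succAbove a i, Nat.add_sub_cancel_left]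
    show (wedge B2 c (fun k => η (i.succAbove k)) J).IsHomogeneous (s - a i)
    rw [h1]
    exact lx3_wedge_hom (fun k j => (hη.1 (i.succAbove k)).1 j) J
  · have h1 : (wedge ℂ c fun k => pv p (η (i.succAbove k))) ∈ Kf (tangS I (pt x y p)) c :=
      wedge_mem_Kf fun k => (hη.1 (i.succAbove k)).2 p hp
    rw [← e] at h1
    exact h1
  · have h1 := wedge_omit_indep (hη.2 p hp)
    simp only [← e] at h1
    exact h1

theorem IsLine.facts_Ep (hX : IsManifold I (c + 1)) {s : ℕ} {ν : Finset (Fin M) → secRing I}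
    (hν : ν ∈ Hm (secRing I) (c + 1) s) (hne : ∀ x : cone I, ∃ J, (ν J).1 x ≠ 0)
    {x y : Fin M → ℂ} (hl : IsLine I x y) :
    finrank ℂ (cSec (fun p => Ep I c (pt x y p)) (s + 1)) = s + (c + 1) ∧
      finrank ℂ (cSec (fun p => Ep I c (pt x y p)) s) = s ∧
      (∀ ξ, ξ ∈ Ep I c y ↔ ∃ θ ∈ cSec (fun p => Ep I c (pt x y p)) (s + 1),
        ∀ K, θ (toLex (Fin.last s, K)) = ξ K) ∧
      ∀ ξ, ξ ∈ Ep I c x ↔ ∃ θ ∈ cSec (fun p => Ep I c (pt x y p)) (s + 1),
        ∀ K, θ (toLex (0, K)) = ξ K := by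
  obtain ⟨a, ω, hω, hs⟩ := hl.frame_Ep hX hν hne
  have hB : PB (fun p => Ep I c (pt x y p)) (c + 1) := by
    have := (hX.pgen_Ep c).pb hl
    rwa [Nat.choose_succ_self_right] at this
  have ha : ∀ i, a i ≤ s := fun i =>
    hs ▸ Finset.single_le_sum (fun j _ => Nat.zero_le (a j)) (Finset.mem_univ i)
  have hr : ∀ d, finrank ℂ (cSec (fun p => Ep I c (pt x y p)) (d + 1)) =
      ∑ i, (d + 1 - (s - a i)) := fun d => by
    rw [finrank_cSec, hB.sec_eq hω, finrank_Nn (hω.2 _ lx3_ne10)]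
  refine ⟨?_, ?_, fun ξ => ?_, fun ξ => ?_⟩
  · rw [hr, Finset.sum_congr rfl fun i _ => show s + 1 - (s - a i) = a i + 1 by
      have := ha i; omega, Finset.sum_add_distrib, hs]
    simp
  · cases s with
    | zero => exact finrank_cSec_zero _
    | succ s =>
      rw [hr, Finset.sum_congr rfl fun i _ => show s + 1 - (s + 1 - a i) = a i by
        have := ha i; omega, hs]
  · have h1 := lx3_onto hB hω (fun i => Nat.sub_le s (a i)) lx3_ne01 ξ
    simp only [pt_last, pv_toP_last] at h1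
    exact h1.trans (exists_congr fun θ => and_congr_right fun _ => funext_iff)
  · have h1 := lx3_onto hB hω (fun i => Nat.sub_le s (a i)) lx3_ne10 ξ
    simp only [pt_first, pv_toP_first] at h1
    exact h1.trans (exists_congr fun θ => and_congr_right fun _ => funext_iff)

end Pool.Agent.HCF
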