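import Pool.Agent.P.MP_f644fa_ag.LM0
import Pool.Agent.P.MP_f644fa_ag.LX3
import Pool.Agent.P.MP_f644fa_ag.LW
import Pool.Agent.P.MP_f644fa_ag.LConst
import Pool.Agent.P.MP_f644fa_ag.LT4

/-! The equation on the family of lines through a point. -/

noncomputable section
namespace Pool.Agent.HCF
open Finset Module Polynomial

variable {M : ℕ} {I : Ideal (SS M)} {c n : ℕ}

theorem lm1a_spl {X R RR σ σ0 σ1 : Type} [CommRing R] [Algebra ℂ R] [CommRing RR] [Algebra ℂ RR]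
    {S : NS0 M n X R RR} [LinearOrder σ] [Fintype σ] [LinearOrder σ0] [Fintype σ0]
    [LinearOrder σ1] [Fintype σ1] {B : Sub S σ} {B0 : Sub S σ0} {B1 : Sub S σ1} {e0 : σ0 ↪o σ}
    {e1 : σ1 ↪o σ} (cover : ∀ j, (∃ a, e0 a = j) ∨ ∃ b, e1 b = j) (disj : ∀ a b, e0 a ≠ e1 b)
    (w0 : ∀ a, B0.w a = B.w (e0 a)) (w1 : ∀ b, B1.w b = B.w (e1 b))
    {E : X → Submodule ℂ (σ → ℂ)} {E0 : X → Submodule ℂ (σ0 → ℂ)} {E1 : X → Submodule ℂ (σ1 → ℂ)}
    (hT : ∀ p, B.T p = perp (E p)) (hT0 : ∀ p, B0.T p = perp (E0 p))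
    (hT1 : ∀ p, B1.T p = perp (E1 p))
    (hA : ∀ p (θ : σ → ℂ), (∀ b, θ (e1 b) = 0) → (θ ∈ E p ↔ (fun a => θ (e0 a)) ∈ E0 p))
    (hC : ∀ p ξ, ξ ∈ E1 p ↔ ∃ θ ∈ E p, ∀ b, θ (e1 b) = ξ b) : Spl B B0 B1 e0 e1 := by
  have key := fun p => perp_spl e0.injective e1.injective cover disj (hA p) (hC p)
  exact ⟨cover, disj, w0, w1, fun p v0 => by rw [hT, hT0]; exact (key p).1 v0,
    fun p v hv => by rw [hT, hT1]; exact (key p).2 v hv⟩

theorem Nx.lines_eq (hX : IsManifold I (c + 1)) (hM : M = n + 1 + (c + 1)) {s : ℕ}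
    {ν : Finset (Fin M) → secRing I} (hν : ν ∈ Hm (secRing I) (c + 1) s)
    (hne : ∀ x : cone I, ∃ J, (ν J).1 x ≠ 0) {S : NS M n (cone I) (Pol I) (Pol2 I)}
    {g : ℕ → ℂ[X]} (h : Nx I (c + 1) n s S g) {B : Sub S.toNS0 (FS M)} (hw : ∀ j, B.w j = 0)
    (hT : ∀ z, B.T z = perp (Ep I c z.1)) {ε : ℕ → ℂ[X]}
    (hε : ∀ k, Nm n (ε k) (B.lam.chi (piM (FS M) k))) {x : Fin M → ℂ} (hx : x ∈ cone I)
    {W : Set (Fin M → ℂ)} (hl : ∀ y ∈ W, IsLine I x y) {S' : NS0 M n W (PolW W) (Pol2W W W)}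
    (N : NS2 S S' (Pol2W (cone I) W)) (h' : Expl I S') (hN : ∀ p, (N.pt p).1 = p.1) :
    ∃ π : ℕ → ℂ[X], Nm n (π 0) ((Dat.one S').chi 1) ∧ (∀ k, s < k → π k = 0) ∧
      ∀ k, (1 - X) ^ (n + 1 - (c + 1)) ∣ ∑ q ∈ antidiagonal k, ε q.1 * (X ^ q.2 * π q.2) -
        g 0 * ∑ q ∈ antidiagonal k, C ((c + 1).choose q.1 : ℂ) * X ^ (s * q.1) * π q.2 := by
  classical
  have hP := hX.pgen_Ep c
  rw [Nat.choose_succ_self_right] at hP
  have hF := fun y (hy : y ∈ W) => (hl y hy).facts_Ep hX hν hne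
  obtain ⟨P', wP', TP'⟩ := hP.exists_subP h' hl (d := s + 1) (w₀ := s)
    (fun y hy => (hF y hy).1) le_rfl
  obtain ⟨Pl, wPl, TPl⟩ := hP.exists_subP h' hl (d := s) (w₀ := s)
    (fun y hy => (hF y hy).2.1) (by omega)
  obtain ⟨Pm, wPm, TPm⟩ := hP.exists_subP h' hl (d := s) (w₀ := s - 1)
    (fun y hy => (hF y hy).2.1) (by omega)
  obtain ⟨e0, e0', e1, e1', he0, he0', he1, he1'⟩ := exists_emb (FS M) s
  have s1 : Spl P' Pl (B.res N) e0 e1 := by
    refine lm1a_spl (fun j => ?_) (fun a b => ?_) (fun a => ?_) (fun b => ?_) TP' TPl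
      (E1 := fun p => Ep I c p.1) (fun p => ?_) (fun p θ hθ => ?_) fun p ξ => ?_
    · obtain ⟨i, K⟩ := j
      refine Fin.lastCases (Or.inr ⟨K, he1 K⟩) (fun i => Or.inl ⟨toLex (i, K), he0 _⟩) i
    · rw [he0, he1]
      exact fun e => (Fin.castSucc_lt_last _).ne (congrArg (fun q => (ofLex q).1) e)
    · rw [wPl, wP', he0]
      rfl
    · rw [wP', he1]
      exact (hw b).trans (Nat.sub_self s).symm
    · exact (hT _).trans (by rw [hN])
    · simp only [he0]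
      exact (hP.pb (hl _ p.2)).mem_castSucc fun K => by rw [← he1]; exact hθ K
    · simp only [he1]
      exact (hF _ p.2).2.2.1 ξ
  have s2 : Spl P' Pm (Sub.const S' (perp (Ep I c x)) s) e0' e1' := by
    refine lm1a_spl (fun j => ?_) (fun a b => ?_) (fun a => ?_) (fun b => ?_) TP' TPm
      (E1 := fun _ => Ep I c x) (fun p => rfl) (fun p θ hθ => ?_) fun p ξ => ?_
    · obtain ⟨i, K⟩ := j
      refine Fin.cases (Or.inr ⟨K, he1' K⟩) (fun i => Or.inl ⟨toLex (i, K), he0' _⟩) i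
    · rw [he0', he1']
      exact fun e => Fin.succ_ne_zero _ (congrArg (fun q => (ofLex q).1) e)
    · rw [wPm, wP', he0']
      change s - 1 - ((ofLex a).1 : ℕ) = s - (((ofLex a).1 : ℕ) + 1)
      omega
    · rw [wP', he1']
      rfl
    · simp only [he0']
      exact (hP.pb (hl _ p.2)).mem_succ fun K => by rw [← he1']; exact hθ K
    · simp only [he1']
      exact (hF _ p.2).2.2.2 ξ
  have hsh : ∀ k, Pl.lam.chi (piM _ k) = PowerSeries.X ^ (1 * k) * Pm.lam.chi (piM _ k) :=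
    Sub.chi_shift (funext fun y => (TPl y).trans (TPm y).symm) fun j => by
      have := (ofLex j).1.2
      rw [wPl, wPm]
      omega
  have hex : ∀ k, ∃ π : ℂ[X], Nm n π (Pm.lam.chi (piM _ k)) ∧ (s < k → π = 0) := fun k => by
    by_cases hk : s < k
    · refine ⟨0, ⟨0, ?_⟩, fun _ => rfl⟩
      rw [Pm.chi_gt (r := s) (fun p => ?_) hk]
      · simp
      · have h1 := finrank_perp (cSec (fun q => Ep I c (pt x p.1 q)) s)
        rw [(hF _ p.2).2.1] at h1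
        rw [TPm]
        exact h1.ge
    · obtain ⟨π, hπ⟩ := num_rat (Pm.ok_piM k)
      exact ⟨π, hπ, fun h => absurd h hk⟩
  choose π hπ hπ0 using hex
  refine ⟨π, Pm.chi_zero ▸ hπ 0, hπ0, fun k => ?_⟩
  choose μ hμ using fun q : ℕ × ℕ => num_rat (((B.res N).ok_piM q.1).kron (Pl.ok_piM q.2))
  have hm : ∀ q : ℕ × ℕ, (1 - X) ^ (n + 1 - (c + 1)) ∣ μ q * g 0 - ε q.1 * (X ^ q.2 * π q.2) :=
    fun q => (B.isRes N).mult hM (B.ok_piM q.1) ((B.res N).ok_piM q.1) (Pl.ok_piM q.2) (hε q.1)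
      (by
        have := num_mul (hπ q.2) (X ^ q.2)
        rw [hsh, one_mul]
        simpa using this) (hμ q) (h.nm 0)
  have hc : finrank ℂ (perp (Ep I c x)) + (c + 1) = Fintype.card (FS M) := by
    rw [← hP.rank x hx]
    exact finrank_perp _
  have h2 : ∀ q : ℕ × ℕ, Nm n (C ((c + 1).choose q.1 : ℂ) * X ^ (s * q.1) * π q.2)
      (((Sub.const S' (perp (Ep I c x)) s).lam.tensor Pm.lam).chi
        (Matrix.kroneckerMap (· * ·) (piM _ q.1) (piM _ q.2))) := fun q => by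
    have := num_mul (hπ q.2) (C ((c + 1).choose q.1 : ℂ) * X ^ (s * q.1))
    rw [Sub.chi_const S' _ s hc (Pm.ok_piM q.2)]
    rwa [Polynomial.coe_mul, Polynomial.coe_C, Polynomial.coe_pow, Polynomial.coe_X] at this
  have h3 := Nm.dvd (num_sum (antidiagonal k) fun q _ => hμ q) (num_sum (antidiagonal k)
    fun q _ => h2 q) ((s1.chi k).symm.trans (s2.chi k))
  have h4 := (((pow_dvd_pow _ (Nat.sub_le (n + 1) (c + 1))).trans h3).mul_left (g 0)).sub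
    (dvd_sum (s := antidiagonal k) fun q _ => hm q)
  refine (num_dvd ?_).1 h4
  rw [sum_sub_distrib, ← sum_mul]
  ring

end Pool.Agent.HCF
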