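import Pool.Agent.P.MP_f644fa_ag.LK0
import Pool.Agent.P.MP_f644fa_ag.B2A
import Pool.Agent.P.MP_f644fa_ag.Basic0

/-! Binary forms. -/

noncomputable section
namespace Pool.Agent.HCF
open Finset Module MvPolynomial

/-- polynomials in two variables -/
abbrev B2 := MvPolynomial (Fin 2) ℂ

/-- the linear form that vanishes at `p` -/
def lp (p : Fin 2 → ℂ) : B2 := C (p 1) * X 0 - C (p 0) * X 1

theorem lp_hom (p : Fin 2 → ℂ) : (lp p).IsHomogeneous 1 :=
  (isHomogeneous_C_mul_X (p 1) 0).sub (isHomogeneous_C_mul_X (p 0) 1)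

theorem lp0_eval (p q : Fin 2 → ℂ) : eval q (lp p) = p 1 * q 0 - p 0 * q 1 := by
  simp [lp]

theorem lp0_ne {p : Fin 2 → ℂ} (h : p ≠ 0) : p 0 ≠ 0 ∨ p 1 ≠ 0 := by
  by_contra hc
  push Not at hc
  exact h (funext (Fin.forall_fin_two.2 hc))

theorem lp_ne {p : Fin 2 → ℂ} (h : p ≠ 0) : lp p ≠ 0 := fun h0 => by
  have h1 := lp0_eval p ![1, 0]
  have h2 := lp0_eval p ![0, 1]
  rw [h0, map_zero] at h1 h2
  rcases lp0_ne h with h3 | h3
  · exact h3 (by simpa using h2)
  · exact h3 (by simpa using h1.symm)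

theorem eval_lp_self (p : Fin 2 → ℂ) : eval p (lp p) = 0 := by
  rw [lp0_eval]; ring

theorem eval_lp_eq_zero {p q : Fin 2 → ℂ} (hp : p ≠ 0) (h : eval q (lp p) = 0) :
    ∃ t : ℂ, q = t • p := by
  rw [lp0_eval] at h
  rcases lp0_ne hp with h3 | h3
  · refine ⟨q 0 / p 0, funext (Fin.forall_fin_two.2 ⟨?_, ?_⟩)⟩
    · rw [Pi.smul_apply, smul_eq_mul]; field_simp
    · rw [Pi.smul_apply, smul_eq_mul]; field_simp; linear_combination -h
  · refine ⟨q 1 / p 1, funext (Fin.forall_fin_two.2 ⟨?_, ?_⟩)⟩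
    · rw [Pi.smul_apply, smul_eq_mul]; field_simp; linear_combination h
    · rw [Pi.smul_apply, smul_eq_mul]; field_simp

theorem b2_eval_smul {f : B2} {d : ℕ} (h : f.IsHomogeneous d) (t : ℂ) (p : Fin 2 → ℂ) :
    eval (t • p) f = t ^ d * eval p f := eval_smul_hom h t p

theorem b2_ext {f g : B2} (h : ∀ p, p ≠ 0 → eval p f = eval p g) : f = g := by
  refine mul_left_cancel₀ (X_ne_zero (R := ℂ) (0 : Fin 2)) (MvPolynomial.funext fun p => ?_)
  rw [map_mul, map_mul, eval_X]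
  by_cases hp : p = 0
  · rw [hp, Pi.zero_apply, zero_mul, zero_mul]
  · rw [h p hp]

theorem b2_zero_off {f : B2} {p₀ : Fin 2 → ℂ} (h0 : p₀ ≠ 0)
    (h : ∀ p, eval p (lp p₀) ≠ 0 → eval p f = 0) : f = 0 := by
  refine (mul_eq_zero.1 (MvPolynomial.funext fun p => ?_)).resolve_left (lp_ne h0)
  rw [map_mul, map_zero]
  by_cases hp : eval p (lp p₀) = 0
  · rw [hp, zero_mul]
  · rw [h p hp, mul_zero]

theorem hom_zero_eq {f : B2} (h : f.IsHomogeneous 0) {p : Fin 2 → ℂ} (h0 : eval p f = 0) :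
    f = 0 := by
  rw [← totalDegree_zero_iff_isHomogeneous, totalDegree_eq_zero_iff_eq_C] at h
  rw [h, eval_C] at h0
  rw [h, h0, map_zero]

theorem lp0_comp (a l : B2) (hl : l.IsHomogeneous 1) (d : ℕ) :
    homogeneousComponent (d + 1) (a * l) = homogeneousComponent d a * l := by
  conv_lhs => rw [← sum_homogeneousComponent a, Finset.sum_mul, map_sum]
  have h1 : ∀ e, homogeneousComponent (d + 1) (homogeneousComponent e a * l) =
      if d = e then homogeneousComponent e a * l else 0 := by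
    intro e
    have h2 : homogeneousComponent e a * l ∈ homogeneousSubmodule (Fin 2) ℂ (e + 1) :=
      (homogeneousComponent_isHomogeneous e a).mul hl
    rw [homogeneousComponent_of_mem h2]
    simp only [Nat.add_right_cancel_iff]
  simp only [h1]
  rw [Finset.sum_ite_eq]
  split_ifs with h
  · rfl
  · rw [homogeneousComponent_eq_zero, zero_mul]
    simp only [Finset.mem_range] at h
    omega

theorem lp0_sub {l : B2} {u : Fin 2 → B2} (hu : ∀ j, l ∣ X j - u j) (g : B2) :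
    l ∣ g - aeval u g := by
  induction g using MvPolynomial.induction_on with
  | C a => simp
  | add f g hf hg =>
    rw [map_add, add_sub_add_comm]
    exact dvd_add hf hg
  | mul_X f j hf =>
    have e : f * X j - aeval u (f * X j) = (f - aeval u f) * X j + aeval u f * (X j - u j) := by
      rw [map_mul, aeval_X]; ring
    rw [e]
    exact dvd_add (hf.mul_right _) ((hu j).mul_left _)

theorem lp_dvd {f : B2} {d : ℕ} (h : f.IsHomogeneous (d + 1)) {p : Fin 2 → ℂ} (hp : p ≠ 0)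
    (h0 : eval p f = 0) : ∃ f' : B2, f'.IsHomogeneous d ∧ f = lp p * f' := by
  obtain ⟨m, hm⟩ : ∃ m : B2, ∀ j, lp p ∣ X j - C (p j) * m := by
    rcases lp0_ne hp with h3 | h3
    · have e : (C (p 0) : B2) * C (p 0)⁻¹ = 1 := by rw [← map_mul, mul_inv_cancel₀ h3, map_one]
      refine ⟨C (p 0)⁻¹ * X 0, Fin.forall_fin_two.2 ⟨⟨0, ?_⟩, ⟨-C (p 0)⁻¹, ?_⟩⟩⟩
      · linear_combination (-X 0) * e
      · rw [lp]; linear_combination (-X 1) * e
    · have e : (C (p 1) : B2) * C (p 1)⁻¹ = 1 := by rw [← map_mul, mul_inv_cancel₀ h3, map_one]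
      refine ⟨C (p 1)⁻¹ * X 1, Fin.forall_fin_two.2 ⟨⟨C (p 1)⁻¹, ?_⟩, ⟨0, ?_⟩⟩⟩
      · rw [lp]; linear_combination (-X 0) * e
      · linear_combination (-X 1) * e
  have h1 : aeval (fun j => C (p j) * m) f = 0 := MvPolynomial.funext fun y => by
    have e : (fun j => eval y (C (p j) * m)) = eval y m • p := funext fun j => by
      rw [map_mul, eval_C, Pi.smul_apply, smul_eq_mul, mul_comm]
    have e2 : eval y (aeval (fun j => C (p j) * m) f) = eval (fun j => eval y (C (p j) * m)) f := by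
      rw [aeval_eq_bind₁, ← coe_aeval_eq_eval, ← coe_aeval_eq_eval]
      exact aeval_bind₁ _ _ _
    rw [e2, e, b2_eval_smul h, h0, mul_zero, map_zero]
  obtain ⟨g, hg⟩ := lp0_sub hm f
  rw [h1, sub_zero] at hg
  refine ⟨homogeneousComponent d g, homogeneousComponent_isHomogeneous d g, ?_⟩
  rw [mul_comm, ← lp0_comp g _ (lp_hom p), mul_comm, ← hg, homogeneousComponent_of_mem h, if_pos rfl]

theorem exists_hom_one (d : ℕ) {p : Fin 2 → ℂ} (hp : p ≠ 0) :
    ∃ m : B2, m.IsHomogeneous d ∧ eval p m = 1 := by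
  obtain ⟨j, hj⟩ : ∃ j, p j ≠ 0 := Function.ne_iff.1 hp
  refine ⟨C (p j ^ d)⁻¹ * X j ^ d, (isHomogeneous_X_pow j d).C_mul _, ?_⟩
  rw [map_mul, eval_C, map_pow, eval_X, inv_mul_cancel₀ (pow_ne_zero d hj)]

/-- a form with too many zeros -/
theorem hom_eq_zero {f : B2} {d : ℕ} (h : f.IsHomogeneous d)
    (h0 : ∀ r : ℕ, r ≤ d → eval ![1, (r : ℂ)] f = 0) : f = 0 := by
  induction d generalizing f with
  | zero => exact hom_zero_eq h (h0 0 le_rfl)
  | succ d ih =>
    obtain ⟨g, hg, e⟩ := lp_dvd h (p := ![1, ((d + 1 : ℕ) : ℂ)])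
      (fun h1 => one_ne_zero (congrFun h1 0)) (h0 _ le_rfl)
    rw [e, ih hg fun r hr => ?_, mul_zero]
    have h1 := h0 r (hr.trans (Nat.le_succ d))
    rw [e, map_mul, lp0_eval] at h1
    refine (mul_eq_zero.1 h1).resolve_left fun h2 => ?_
    have h3 : ((d + 1 : ℕ) : ℂ) = r := by simpa [sub_eq_zero] using h2
    have h4 : d + 1 = r := by exact_mod_cast h3
    omega

theorem lp0_two {f : B2} {d : ℤ}
    (h : ∀ q, q ≠ 0 → eval ((2 : ℂ) • q) f = (2 : ℂ) ^ d * eval q f) {e : ℕ} (he : (e : ℤ) ≠ d) :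
    homogeneousComponent e f = 0 := by
  have h1 : ∑ k ∈ Finset.range (f.totalDegree + 1), ((2 : ℂ) ^ k) • homogeneousComponent k f =
      ((2 : ℂ) ^ d) • f := b2_ext fun q hq => by
    rw [smul_eval, ← h q hq, map_sum]
    conv_rhs => rw [← sum_homogeneousComponent f, map_sum]
    exact Finset.sum_congr rfl fun k _ => by
      rw [smul_eval, b2_eval_smul (homogeneousComponent_isHomogeneous k f)]
  by_cases hk : e ∈ Finset.range (f.totalDegree + 1)
  · have h2 := congrArg (homogeneousComponent e) h1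
    rw [map_sum, map_smul, Finset.sum_eq_single_of_mem e hk fun k _ hne => by
      rw [map_smul, homogeneousComponent_of_mem (homogeneousComponent_isHomogeneous k f),
        if_neg hne.symm, smul_zero], map_smul,
      homogeneousComponent_of_mem (homogeneousComponent_isHomogeneous e f), if_pos rfl,
      ← sub_eq_zero, ← sub_smul] at h2
    refine (smul_eq_zero.1 h2).resolve_left fun h3 => he (basic0_inj ?_)
    rw [zpow_natCast]
    exact sub_eq_zero.1 h3
  · exact homogeneousComponent_eq_zero e f (by simpa [Nat.lt_succ_iff] using hk)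

/-- a homogeneous function on the punctured plane that is regular at every point is a form -/
theorem form_of_regular (κ : (Fin 2 → ℂ) → ℂ) (d : ℤ)
    (hκ : ∀ p, p ≠ 0 → ∀ t : ℂ, t ≠ 0 → κ (t • p) = t ^ d * κ p)
    (hr : ∀ p, p ≠ 0 → ∃ D P : B2, eval p D ≠ 0 ∧ ∀ q, q ≠ 0 → eval q D * κ q = eval q P) :
    ∃ f : B2, (0 ≤ d → f.IsHomogeneous d.toNat) ∧ (d < 0 → f = 0) ∧
      ∀ q, q ≠ 0 → eval q f = κ q := by
  let A : Ideal B2 :=
    { carrier := {D | ∃ P : B2, ∀ q, q ≠ 0 → eval q D * κ q = eval q P}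
      zero_mem' := ⟨0, fun q _ => by simp⟩
      add_mem' := by
        rintro D D' ⟨P, hP⟩ ⟨P', hP'⟩
        exact ⟨P + P', fun q hq => by rw [map_add, map_add, add_mul, hP q hq, hP' q hq]⟩
      smul_mem' := by
        rintro r D ⟨P, hP⟩
        exact ⟨r * P, fun q hq => by rw [smul_eq_mul, map_mul, map_mul, mul_assoc, hP q hq]⟩ }
  have h1 : ∀ j, ∃ K : ℕ, X j ^ K ∈ A := fun j => by
    change X j ∈ A.radical
    rw [← vanishingIdeal_zeroLocus_eq_radical (K := ℂ) A]
    intro x hx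
    rw [aeval_X]
    by_cases h0 : x = 0
    · rw [h0, Pi.zero_apply]
    · obtain ⟨D, P, hD, hP⟩ := hr x h0
      exact absurd (hx D ⟨P, hP⟩) hD
  obtain ⟨K, P, hP⟩ := h1 0
  obtain ⟨K', P', hP'⟩ := h1 1
  have h2 : X 1 ^ K' * P = X 0 ^ K * P' := b2_ext fun q hq => by
    rw [map_mul, map_mul, ← hP q hq, ← hP' q hq]
    ring
  have h3 : ¬ (X 0 : B2) ∣ X 1 ^ K' := by
    rintro ⟨g, hg⟩
    have := congrArg (eval ![(0 : ℂ), 1]) hg
    simp at this
  obtain ⟨f, hf⟩ := (X_prime (R := ℂ) (i := (0 : Fin 2))).pow_dvd_of_dvd_mul_left K h3 ⟨P', h2⟩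
  have h4 : P' = X 1 ^ K' * f := by
    refine mul_left_cancel₀ (pow_ne_zero K (X_ne_zero (R := ℂ) (0 : Fin 2))) ?_
    rw [← h2, hf]
    ring
  have h5 : ∀ q, q ≠ 0 → eval q f = κ q := fun q hq => by
    rcases lp0_ne hq with h | h
    · have h6 := hP q hq
      rw [hf, map_mul, map_pow, eval_X] at h6
      exact (mul_left_cancel₀ (pow_ne_zero K h) h6).symm
    · have h6 := hP' q hq
      rw [h4, map_mul, map_pow, eval_X] at h6
      exact (mul_left_cancel₀ (pow_ne_zero K' h) h6).symm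
  have h6 : ∀ q, q ≠ 0 → eval ((2 : ℂ) • q) f = (2 : ℂ) ^ d * eval q f := fun q hq => by
    rw [h5 _ (smul_ne_zero two_ne_zero hq), h5 q hq, hκ q hq 2 two_ne_zero]
  refine ⟨f, fun hd => ?_, fun hd => ?_, h5⟩
  · rw [← sum_homogeneousComponent f]
    refine IsHomogeneous.sum _ _ _ fun e _ => ?_
    by_cases he : (e : ℤ) = d
    · rw [← he, Int.toNat_natCast]
      exact homogeneousComponent_isHomogeneous e f
    · rw [lp0_two h6 he]
      exact isHomogeneous_zero _ _ _
  · rw [← sum_homogeneousComponent f]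
    exact Finset.sum_eq_zero fun e _ => lp0_two h6 (by omega)

end Pool.Agent.HCF
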