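import Pool.Agent.P.MP_f644fa_ag.LP0

/-! Subbundles of a trivial bundle on the projective line. -/

noncomputable section
namespace Pool.Agent.HCF
open Finset Module MvPolynomial

variable {σ ι : Type} [Fintype σ] [Fintype ι]

/-- sections of degree `d` -/
def Sec (B : (Fin 2 → ℂ) → Submodule ℂ (σ → ℂ)) (d : ℕ) : Submodule ℂ (σ → B2) where
  carrier := {η | (∀ j, (η j).IsHomogeneous d) ∧ ∀ p, p ≠ 0 → pv p η ∈ B p}
  add_mem' {a b} ha hb := ⟨fun j => (ha.1 j).add (hb.1 j), fun p hp => by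
    have h : pv p (a + b) = pv p a + pv p b := by ext j; simp [pv]
    rw [h]; exact add_mem (ha.2 p hp) (hb.2 p hp)⟩
  zero_mem' := ⟨fun _ => isHomogeneous_zero _ _ _, fun p _ => by
    have h : pv p (0 : σ → B2) = 0 := by ext j; simp [pv]
    rw [h]; exact zero_mem _⟩
  smul_mem' c a ha := ⟨fun j => (homogeneousSubmodule (Fin 2) ℂ d).smul_mem c (ha.1 j),
    fun p hp => by
      have h : pv p (c • a) = c • pv p a := by ext j; simp [pv]
      rw [h]; exact Submodule.smul_mem _ _ (ha.2 p hp)⟩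

theorem mem_Sec {B : (Fin 2 → ℂ) → Submodule ℂ (σ → ℂ)} {d : ℕ} {η : σ → B2} :
    η ∈ Sec B d ↔ (∀ j, (η j).IsHomogeneous d) ∧ ∀ p, p ≠ 0 → pv p η ∈ B p := Iff.rfl

/-- combinations of degree `d` of vectors `τ i` of degree `a i` -/
def Nn (a : ι → ℕ) (τ : ι → σ → B2) (d : ℕ) : Submodule ℂ (σ → B2) where
  carrier := {η | ∃ g : ι → B2, (∀ i, (a i ≤ d → (g i).IsHomogeneous (d - a i)) ∧
    (d < a i → g i = 0)) ∧ η = ∑ i, g i • τ i}
  add_mem' := by
    rintro _ _ ⟨g, hg, rfl⟩ ⟨g', hg', rfl⟩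
    exact ⟨g + g', fun i => ⟨fun h => ((hg i).1 h).add ((hg' i).1 h),
      fun h => by simp [(hg i).2 h, (hg' i).2 h]⟩, by simp [add_smul, sum_add_distrib]⟩
  zero_mem' := ⟨0, fun _ => ⟨fun _ => isHomogeneous_zero _ _ _, fun _ => rfl⟩, by simp⟩
  smul_mem' := by
    rintro c _ ⟨g, hg, rfl⟩
    exact ⟨c • g, fun i => ⟨fun h => (homogeneousSubmodule (Fin 2) ℂ _).smul_mem c ((hg i).1 h),
      fun h => by simp [(hg i).2 h]⟩, by simp [smul_sum]⟩

theorem mem_Nn {a : ι → ℕ} {τ : ι → σ → B2} {d : ℕ} {η : σ → B2} :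
    η ∈ Nn a τ d ↔ ∃ g : ι → B2, (∀ i, (a i ≤ d → (g i).IsHomogeneous (d - a i)) ∧
      (d < a i → g i = 0)) ∧ η = ∑ i, g i • τ i := Iff.rfl

/-- a subbundle of rank `c` -/
structure PB (B : (Fin 2 → ℂ) → Submodule ℂ (σ → ℂ)) (c : ℕ) : Prop where
  smul : ∀ p (t : ℂ), t ≠ 0 → B (t • p) = B p
  rank : ∀ p, p ≠ 0 → finrank ℂ (B p) = c
  closed : ∀ (η : σ → B2) p₀, p₀ ≠ 0 → (∀ p, eval p (lp p₀) ≠ 0 → pv p η ∈ B p) → pv p₀ η ∈ B p₀

/-- sections that are independent at every point -/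
def IsFr (B : (Fin 2 → ℂ) → Submodule ℂ (σ → ℂ)) (a : ι → ℕ) (η : ι → σ → B2) : Prop :=
  (∀ i, η i ∈ Sec B (a i)) ∧ ∀ p, p ≠ 0 → LinearIndependent ℂ fun i => pv p (η i)

variable {B : (Fin 2 → ℂ) → Submodule ℂ (σ → ℂ)} {c : ℕ} {a : ι → ℕ} {τ : ι → σ → B2}

theorem lp1_pv_smul (p : Fin 2 → ℂ) (m : B2) (η : σ → B2) :
    pv p (m • η) = eval p m • pv p η := by
  ext j; simp [pv]

theorem lp1_pv_sub (p : Fin 2 → ℂ) (η η' : σ → B2) : pv p (η - η') = pv p η - pv p η' := by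
  ext j; simp [pv]

theorem lp1_pv_sum (p : Fin 2 → ℂ) (g : ι → B2) (τ : ι → σ → B2) :
    pv p (∑ i, g i • τ i) = ∑ i, eval p (g i) • pv p (τ i) := by
  ext j; simp [pv, Finset.sum_apply]

theorem Nn_le_Sec (h : ∀ i, τ i ∈ Sec B (a i)) (d : ℕ) : Nn a τ d ≤ Sec B d := by
  rintro _ ⟨g, hg, rfl⟩
  refine ⟨fun j => ?_, fun p hp => ?_⟩
  · rw [Finset.sum_apply]
    refine IsHomogeneous.sum _ _ _ fun i _ => ?_
    rw [Pi.smul_apply, smul_eq_mul]
    rcases le_or_gt (a i) d with hi | hi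
    · have h1 := ((hg i).1 hi).mul ((h i).1 j)
      rwa [Nat.sub_add_cancel hi] at h1
    · rw [(hg i).2 hi, zero_mul]
      exact isHomogeneous_zero _ _ _
  · rw [lp1_pv_sum]
    exact Submodule.sum_mem _ fun i _ => Submodule.smul_mem _ _ ((h i).2 p hp)

theorem Nn_pv {d : ℕ} {η : σ → B2} (h : η ∈ Nn a τ d) (p : Fin 2 → ℂ) :
    pv p η ∈ Submodule.span ℂ (Set.range fun i => pv p (τ i)) := by
  obtain ⟨g, -, rfl⟩ := h
  rw [lp1_pv_sum]
  exact Submodule.sum_mem _ fun i _ => Submodule.smul_mem _ _ (Submodule.subset_span ⟨i, rfl⟩)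

theorem Nn_mul {d e : ℕ} {η : σ → B2} (h : η ∈ Nn a τ d) {m : B2} (hm : m.IsHomogeneous e) :
    m • η ∈ Nn a τ (e + d) := by
  obtain ⟨g, hg, rfl⟩ := h
  refine ⟨fun i => m * g i, fun i => ⟨fun hi => ?_, fun hi => ?_⟩, ?_⟩
  · rcases le_or_gt (a i) d with h1 | h1
    · have h2 := hm.mul ((hg i).1 h1)
      have h3 : e + (d - a i) = e + d - a i := by omega
      rwa [h3] at h2
    · show (m * g i).IsHomogeneous _
      rw [(hg i).2 h1, mul_zero]
      exact isHomogeneous_zero _ _ _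
  · show m * g i = 0
    rw [(hg i).2 (by omega), mul_zero]
  · rw [Finset.smul_sum]
    exact Finset.sum_congr rfl fun i _ => (mul_smul _ _ _).symm

theorem Nn_snoc {j : ℕ} (a : Fin j → ℕ) (τ : Fin j → σ → B2) (a' : ℕ) (τ' : σ → B2) (d : ℕ) :
    Nn a τ d ≤ Nn (Fin.snoc (α := fun _ => ℕ) a a') (Fin.snoc (α := fun _ => σ → B2) τ τ') d := by
  rintro _ ⟨g, hg, rfl⟩
  refine ⟨Fin.snoc (α := fun _ => B2) g 0, fun i => ?_, ?_⟩
  · refine Fin.lastCases ?_ (fun k => ?_) i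
    · rw [Fin.snoc_last, Fin.snoc_last]
      exact ⟨fun _ => isHomogeneous_zero _ _ _, fun _ => rfl⟩
    · rw [Fin.snoc_castSucc, Fin.snoc_castSucc]
      exact hg k
  · rw [Fin.sum_univ_castSucc]
    simp

theorem PB.of_mul (hB : PB B c) {η : σ → B2} {d : ℕ} (hη : ∀ j, (η j).IsHomogeneous d)
    {p₀ : Fin 2 → ℂ} (h0 : p₀ ≠ 0) (h : lp p₀ • η ∈ Sec B (d + 1)) : η ∈ Sec B d := by
  have key : ∀ p, eval p (lp p₀) ≠ 0 → pv p η ∈ B p := by
    intro p hp
    have hp0 : p ≠ 0 := by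
      rintro rfl
      apply hp
      simp [lp]
    have h1 := h.2 p hp0
    rw [lp1_pv_smul] at h1
    exact (Submodule.smul_mem_iff _ hp).1 h1
  refine ⟨hη, fun p hp => ?_⟩
  by_cases hl : eval p (lp p₀) = 0
  · obtain ⟨t, rfl⟩ := eval_lp_eq_zero h0 hl
    have ht : t ≠ 0 := by
      rintro rfl
      exact hp (zero_smul _ _)
    have h1 : pv (t • p₀) η = t ^ d • pv p₀ η := by
      ext j
      simp only [pv, Pi.smul_apply, smul_eq_mul]
      exact b2_eval_smul (hη j) t p₀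
    rw [h1, hB.smul p₀ t ht]
    exact Submodule.smul_mem _ _ (hB.closed η p₀ h0 key)
  · exact key p hl

/-- a section of minimal new degree that depends on the `τ i` at one point is a combination -/
theorem PB.dep_mem (hB : PB B c) (hτ : ∀ i, τ i ∈ Sec B (a i)) {d : ℕ} (ha : ∀ i, a i ≤ d)
    (h : ∀ d', d' + 1 = d → Sec B d' ≤ Nn a τ d') {η : σ → B2} (hη : η ∈ Sec B d)
    {p : Fin 2 → ℂ} (hp : p ≠ 0)
    (hd : pv p η ∈ Submodule.span ℂ (Set.range fun i => pv p (τ i))) : η ∈ Nn a τ d := by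
  obtain ⟨cf, hcf⟩ := (Submodule.mem_span_range_iff_exists_fun ℂ).1 hd
  choose m hm hm1 using fun i => exists_hom_one (d - a i) hp
  have hζ : (∑ i, (cf i • m i) • τ i) ∈ Nn a τ d :=
    ⟨fun i => cf i • m i, fun i => ⟨fun _ =>
      (homogeneousSubmodule (Fin 2) ℂ _).smul_mem (cf i) (hm i),
      fun hi => absurd (ha i) (not_le.2 hi)⟩, rfl⟩
  have hs : η - ∑ i, (cf i • m i) • τ i ∈ Sec B d := sub_mem hη (Nn_le_Sec hτ d hζ)
  have hv : pv p (η - ∑ i, (cf i • m i) • τ i) = 0 := by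
    rw [lp1_pv_sub, lp1_pv_sum, ← hcf, sub_eq_zero]
    refine Finset.sum_congr rfl fun i _ => ?_
    rw [smul_eval, hm1, mul_one]
  have hN : η - ∑ i, (cf i • m i) • τ i ∈ Nn a τ d := by
    generalize η - ∑ i, (cf i • m i) • τ i = ξ at hs hv
    have hv' : ∀ j, eval p (ξ j) = 0 := fun j => congrFun hv j
    cases d with
    | zero =>
      have h0 : ξ = 0 := funext fun j => hom_zero_eq (hs.1 j) (hv' j)
      rw [h0]
      exact zero_mem _
    | succ d' =>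
      choose ξ' h1 h2 using fun j => lp_dvd (hs.1 j) hp (hv' j)
      have h3 : ξ = lp p • ξ' := funext fun j => h2 j
      have h4 : ξ' ∈ Sec B d' := hB.of_mul h1 hp (h3 ▸ hs)
      have h5 := Nn_mul (h d' rfl h4) (lp_hom p)
      rw [add_comm, ← h3] at h5
      exact h5
  have h6 := add_mem hN hζ
  rwa [sub_add_cancel] at h6

/-- the allowed coefficients -/
def lp1_W (e d : ℕ) : Submodule ℂ B2 :=
  if e ≤ d then homogeneousSubmodule (Fin 2) ℂ (d - e) else ⊥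

theorem lp1_mem_W {e d : ℕ} {g : B2} :
    g ∈ lp1_W e d ↔ (e ≤ d → g.IsHomogeneous (d - e)) ∧ (d < e → g = 0) := by
  unfold lp1_W
  split_ifs with h
  · exact ⟨fun hg => ⟨fun _ => hg, fun h' => absurd h (not_le.2 h')⟩, fun hg => hg.1 h⟩
  · rw [Submodule.mem_bot]
    exact ⟨fun hg => ⟨fun h' => absurd h' h, fun _ => hg⟩, fun hg => hg.2 (not_le.1 h)⟩

theorem lp1_rank_W (e d : ℕ) : finrank ℂ (lp1_W e d) = d + 1 - e := by
  unfold lp1_W
  by_cases h : e ≤ d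
  · rw [if_pos h, b2_rank]
    have h1 : 2 + (d - e) - 1 = d - e + 1 := by omega
    rw [h1, Nat.choose_succ_self_right]
    omega
  · rw [if_neg h, finrank_bot]
    omega

theorem lp1_fin_W (e d : ℕ) : Module.Finite ℂ (lp1_W e d) := by
  by_cases h : e ≤ d
  · exact Module.finite_of_finrank_pos (by rw [lp1_rank_W]; omega)
  · unfold lp1_W
    rw [if_neg h]
    infer_instance

/-- the combination map -/
def lp1_phi (a : ι → ℕ) (τ : ι → σ → B2) (d : ℕ) :
    (∀ i, lp1_W (a i) d) →ₗ[ℂ] σ → B2 where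
  toFun g := ∑ i, (g i : B2) • τ i
  map_add' g g' := by simp [add_smul, sum_add_distrib]
  map_smul' t g := by simp [smul_sum]

theorem finrank_Nn {p : Fin 2 → ℂ} (h : LinearIndependent ℂ fun i => pv p (τ i)) (d : ℕ) :
    finrank ℂ (Nn a τ d) = ∑ i, (d + 1 - a i) := by
  classical
  have hr : LinearMap.range (lp1_phi a τ d) = Nn a τ d := by
    ext η
    constructor
    · rintro ⟨g, rfl⟩
      exact ⟨fun i => g i, fun i => lp1_mem_W.1 (g i).2, rfl⟩
    · rintro ⟨g, hg, rfl⟩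
      exact ⟨fun i => ⟨g i, lp1_mem_W.2 (hg i)⟩, rfl⟩
  obtain ⟨δ, u, hδ, hu⟩ := dual_fields (aeval p : B2 →ₐ[ℂ] ℂ) τ h
  have hδ0 : δ ≠ 0 := by
    rintro rfl
    exact hδ (map_zero _)
  have hi : Function.Injective (lp1_phi a τ d) := by
    rw [injective_iff_map_eq_zero]
    intro g hg
    ext k : 1
    have h1 : ∀ j, ∑ i, (g i : B2) * τ i j = 0 := fun j => by
      have h2 := congrFun hg j
      simpa [lp1_phi, Finset.sum_apply] using h2
    have h3 : ∑ j, (∑ i, (g i : B2) * τ i j) * u k j = (g k : B2) * δ := by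
      simp only [Finset.sum_mul, mul_assoc]
      rw [Finset.sum_comm]
      simp only [← Finset.mul_sum, hu]
      simp
    simp only [h1, zero_mul, Finset.sum_const_zero] at h3
    exact Subtype.ext ((mul_eq_zero.1 h3.symm).resolve_right hδ0)
  haveI := fun i => lp1_fin_W (a i) d
  rw [← hr, LinearMap.finrank_range_of_inj hi, Module.finrank_pi_fintype]
  exact Finset.sum_congr rfl fun i _ => lp1_rank_W _ _

end Pool.Agent.HCF
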