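import Pool.Agent.P.MP_f644fa_ag.LP1

/-! Grothendieck's splitting theorem. -/

noncomputable section
namespace Pool.Agent.HCF
open Finset Module MvPolynomial

variable {σ : Type} [Fintype σ] {B : (Fin 2 → ℂ) → Submodule ℂ (σ → ℂ)} {c : ℕ}

theorem PB.exists_frame (hB : PB B c) {p₀ : Fin 2 → ℂ} (h0 : p₀ ≠ 0)
    (hg : B p₀ ≤ Submodule.span ℂ {v | ∃ d, ∃ η ∈ Sec B d, v = pv p₀ η}) :
    ∃ (a : Fin c → ℕ) (η : Fin c → σ → B2), IsFr B a η := by
  classical
  have key : ∀ j, j ≤ c → ∃ (a : Fin j → ℕ) (η : Fin j → σ → B2), IsFr B a η ∧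
      ∀ d, (∃ i, d < a i) → Sec B d ≤ Nn a η d := by
    intro j
    induction j with
    | zero =>
      intro _
      exact ⟨Fin.elim0, Fin.elim0, ⟨fun i => i.elim0, fun p _ => linearIndependent_empty_type⟩,
        fun d ⟨i, _⟩ => i.elim0⟩
    | succ j ih =>
      intro hj
      obtain ⟨a, η, hf, hinv⟩ := ih (Nat.le_of_succ_le hj)
      have hex : ∃ d, ¬ Sec B d ≤ Nn a η d := by
        by_contra hno
        have hle : B p₀ ≤ Submodule.span ℂ (Set.range fun i => pv p₀ (η i)) := by
          refine hg.trans (Submodule.span_le.2 ?_)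
          rintro _ ⟨d, θ, hθ, rfl⟩
          exact Nn_pv (not_not.1 (fun h => hno ⟨d, h⟩) hθ) p₀
        have h1 := Submodule.finrank_mono hle
        rw [hB.rank p₀ h0, finrank_span_eq_card (hf.2 p₀ h0), Fintype.card_fin] at h1
        omega
      have hmin : ∀ d, d < Nat.find hex → Sec B d ≤ Nn a η d := fun d hd =>
        not_not.1 (Nat.find_min hex hd)
      have ha : ∀ i, a i ≤ Nat.find hex := fun i =>
        not_lt.1 fun h => Nat.find_spec hex (hinv _ ⟨i, h⟩)
      obtain ⟨θ, hθ, hθ'⟩ := SetLike.not_le_iff_exists.1 (Nat.find_spec hex)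
      refine ⟨Fin.snoc (α := fun _ => ℕ) a (Nat.find hex),
        Fin.snoc (α := fun _ => σ → B2) η θ, ⟨fun i => ?_, fun p hp => ?_⟩, fun d hd => ?_⟩
      · refine Fin.lastCases ?_ (fun i => ?_) i
        · simpa only [Fin.snoc_last] using hθ
        · simpa only [Fin.snoc_castSucc] using hf.1 i
      · have e : (fun i => pv p (Fin.snoc (α := fun _ => σ → B2) η θ i)) =
            Fin.snoc (α := fun _ => σ → ℂ) (fun i => pv p (η i)) (pv p θ) := by
          funext i
          refine Fin.lastCases ?_ (fun i => ?_) i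
          · simp only [Fin.snoc_last]
          · simp only [Fin.snoc_castSucc]
        rw [e, linearIndependent_finSnoc]
        exact ⟨hf.2 p hp, fun hd => hθ' (hB.dep_mem hf.1 ha
          (fun d' hd' => hmin d' (by omega)) hθ hp hd)⟩
      · obtain ⟨i, hi⟩ := hd
        have hd : d < Nat.find hex := by
          revert hi
          refine Fin.lastCases ?_ (fun i => ?_) i
          · simp only [Fin.snoc_last]; exact id
          · simp only [Fin.snoc_castSucc]; exact fun h => h.trans_le (ha i)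
        exact (hmin d hd).trans (Nn_snoc a η _ θ d)
  obtain ⟨a, η, h, -⟩ := key c le_rfl
  exact ⟨a, η, h⟩

theorem PB.span_frame (hB : PB B c) {a : Fin c → ℕ} {η : Fin c → σ → B2} (h : IsFr B a η)
    {p : Fin 2 → ℂ} (hp : p ≠ 0) : Submodule.span ℂ (Set.range fun i => pv p (η i)) = B p := by
  refine Submodule.eq_of_le_of_finrank_eq (Submodule.span_le.2 ?_) ?_
  · rintro _ ⟨i, rfl⟩
    exact (h.1 i).2 p hp
  · rw [hB.rank p hp, finrank_span_eq_card (h.2 p hp), Fintype.card_fin]

omit [Fintype σ] in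
theorem lp2_pv_smul {θ : σ → B2} {d : ℕ} (h : ∀ j, (θ j).IsHomogeneous d) (t : ℂ)
    (p : Fin 2 → ℂ) : pv (t • p) θ = t ^ d • pv p θ := by
  funext j
  exact b2_eval_smul (h j) t p

theorem PB.sec_eq (hB : PB B c) {a : Fin c → ℕ} {η : Fin c → σ → B2} (h : IsFr B a η) (d : ℕ) :
    Sec B d = Nn a η d := by
  classical
  refine le_antisymm (fun θ hθ => ?_) (Nn_le_Sec h.1 d)
  have hex : ∀ p : Fin 2 → ℂ, ∃ κ : Fin c → ℂ, p ≠ 0 → ∑ i, κ i • pv p (η i) = pv p θ := by
    intro p
    by_cases hp : p = 0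
    · exact ⟨0, fun h => absurd hp h⟩
    · have := hθ.2 p hp
      rw [← hB.span_frame h hp, Submodule.mem_span_range_iff_exists_fun] at this
      obtain ⟨κ, hκ⟩ := this
      exact ⟨κ, fun _ => hκ⟩
  choose κ hκ using hex
  have hform : ∀ i, ∃ f : B2, (0 ≤ (d : ℤ) - a i → f.IsHomogeneous ((d : ℤ) - a i).toNat) ∧
      ((d : ℤ) - a i < 0 → f = 0) ∧ ∀ q, q ≠ 0 → eval q f = κ q i := by
    intro i
    refine form_of_regular (fun p => κ p i) _ (fun p hp t ht => ?_) (fun p hp => ?_)
    · have h1 := hκ (t • p) (smul_ne_zero ht hp)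
      rw [lp2_pv_smul hθ.1, ← hκ p hp, smul_sum] at h1
      have h2 : ∑ k, (κ (t • p) k * t ^ a k) • pv p (η k) = ∑ k, (t ^ d * κ p k) • pv p (η k) := by
        simp only [mul_smul]
        rw [← h1]
        exact sum_congr rfl fun k _ => by rw [lp2_pv_smul (h.1 k).1]
      have h3 := Fintype.linearIndependent_iffₛ.1 (h.2 p hp) _ _ h2 i
      rw [zpow_sub₀ ht, zpow_natCast, zpow_natCast, div_mul_eq_mul_div, eq_div_iff (pow_ne_zero _ ht)]
      exact h3
    · obtain ⟨δ, u, hδ, hu⟩ := dual_fields (aeval p : B2 →ₐ[ℂ] ℂ) η (h.2 p hp)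
      refine ⟨δ, ∑ j, θ j * u i j, hδ, fun q hq => ?_⟩
      have h1 : ∀ j, eval q (θ j) = ∑ k, κ q k * eval q (η k j) := fun j => by
        have := congrFun (hκ q hq) j
        simpa [pv, Finset.sum_apply] using this.symm
      have h2 : ∀ k, ∑ j, eval q (η k j) * eval q (u i j) = if k = i then eval q δ else 0 := by
        intro k
        have := congrArg (eval q) (hu k i)
        rw [map_sum, apply_ite (eval q), map_zero] at this
        simpa only [map_mul] using this
      rw [map_sum]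
      simp only [map_mul, h1, sum_mul, mul_assoc]
      rw [sum_comm]
      simp only [← mul_sum, h2, mul_ite, mul_zero, sum_ite_eq', mem_univ, if_true]
      exact mul_comm _ _
  choose f hf using hform
  refine ⟨f, fun i => ⟨fun hi => ?_, fun hi => (hf i).2.1 (by omega)⟩, ?_⟩
  · have := (hf i).1 (by omega)
    rwa [Int.toNat_sub] at this
  · funext j
    refine b2_ext fun q hq => ?_
    have := congrFun (hκ q hq) j
    simp only [Finset.sum_apply, Pi.smul_apply, smul_eq_mul, pv] at this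
    simp only [Finset.sum_apply, Pi.smul_apply, smul_eq_mul, map_sum, map_mul]
    rw [← this]
    exact sum_congr rfl fun k _ => by rw [(hf k).2.2 q hq]

end Pool.Agent.HCF
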