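import Pool.Agent.P.MP_f644fa_ag.LP1

/-! Sections on the projective line in terms of their coefficients. -/

noncomputable section
namespace Pool.Agent.HCF
open Finset Module MvPolynomial

variable {σ : Type} [Fintype σ]

/-- the vector of forms of degree `d - 1` with coefficients `θ` -/
def toP (σ : Type) (d : ℕ) : (Fin d ×ₗ σ → ℂ) →ₗ[ℂ] σ → B2 where
  toFun θ K := ∑ i : Fin d, θ (toLex (i, K)) • (X 0 ^ (d - 1 - i) * X 1 ^ (i : ℕ))
  map_add' a b := by ext1 K; simp [add_smul, sum_add_distrib]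
  map_smul' c a := by ext1 K; simp [smul_sum, smul_smul]

theorem toP_apply (d : ℕ) (θ : Fin d ×ₗ σ → ℂ) (K : σ) :
    toP σ d θ K = ∑ i : Fin d, θ (toLex (i, K)) • (X 0 ^ (d - 1 - i) * X 1 ^ (i : ℕ)) := rfl

/-- coefficients of the sections of degree `d - 1` -/
def cSec (B : (Fin 2 → ℂ) → Submodule ℂ (σ → ℂ)) (d : ℕ) : Submodule ℂ (Fin d ×ₗ σ → ℂ) :=
  (Sec B (d - 1)).comap (toP σ d)

variable {B B' : (Fin 2 → ℂ) → Submodule ℂ (σ → ℂ)} {c d : ℕ}

theorem eval_toP (θ : Fin d ×ₗ σ → ℂ) (p : Fin 2 → ℂ) (K : σ) :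
    pv p (toP σ d θ) K = ∑ i : Fin d, p 0 ^ (d - 1 - i) * p 1 ^ (i : ℕ) * θ (toLex (i, K)) := by
  rw [pv_apply, toP_apply, map_sum]
  refine sum_congr rfl fun i _ => ?_
  rw [smul_eval, map_mul, map_pow, map_pow, eval_X, eval_X, mul_comm]

theorem toP_hom (θ : Fin d ×ₗ σ → ℂ) (K : σ) : (toP σ d θ K).IsHomogeneous (d - 1) := by
  rw [toP_apply]
  refine IsHomogeneous.sum _ _ _ fun i _ => ?_
  refine (homogeneousSubmodule (Fin 2) ℂ (d - 1)).smul_mem _ ?_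
  have h1 : (X 0 ^ (d - 1 - i) * X 1 ^ (i : ℕ) : B2).IsHomogeneous (d - 1 - i + i) :=
    (isHomogeneous_X_pow _ _).mul (isHomogeneous_X_pow _ _)
  have h2 : d - 1 - i + i = d - 1 := by have := i.2; omega
  rw [h2] at h1
  exact h1

theorem toP_inj : Function.Injective (toP σ d) := by
  rw [injective_iff_map_eq_zero]
  intro θ hθ
  have key : ∀ K, (fun i : Fin d => θ (toLex (i, K))) = 0 := fun K => by
    refine Matrix.eq_zero_of_forall_index_sum_pow_mul_eq_zero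
      (f := fun j : Fin d => ((j : ℕ) : ℂ)) ?_ fun j => ?_
    · intro a b hab
      exact Fin.ext (Nat.cast_injective (R := ℂ) hab)
    · have h := eval_toP θ ![1, ((j : ℕ) : ℂ)] K
      rw [hθ] at h
      simpa [pv] using h.symm
  funext q
  exact congrFun (key (ofLex q).2) (ofLex q).1

theorem lp3_mono (m : Fin 2 →₀ ℕ) (a : ℂ) :
    (monomial m a : B2) = a • (X 0 ^ m 0 * X 1 ^ m 1) := by
  rw [monomial_eq, Finsupp.prod_fintype _ _ (by simp), Fin.prod_univ_two, smul_eq_C_mul]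

theorem lp3_surj {f : B2} (h : f.IsHomogeneous d) :
    ∃ a : Fin (d + 1) → ℂ, ∑ i : Fin (d + 1), a i • (X 0 ^ (d - i) * X 1 ^ (i : ℕ) : B2) = f := by
  let S : Submodule ℂ B2 :=
    Submodule.span ℂ (Set.range fun i : Fin (d + 1) => (X 0 ^ (d - i) * X 1 ^ (i : ℕ) : B2))
  have hf : f ∈ S := by
    rw [f.as_sum]
    refine S.sum_mem fun m hm => ?_
    have hd : m 0 + m 1 = d := by
      have h1 := h (mem_support_iff.1 hm)
      rw [Finsupp.weight_apply, Finsupp.sum_fintype _ _ (by simp), Fin.sum_univ_two] at h1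
      simpa using h1
    rw [lp3_mono]
    refine S.smul_mem _ (Submodule.subset_span ⟨⟨m 1, by omega⟩, ?_⟩)
    have h0 : d - m 1 = m 0 := by omega
    simp only [h0]
  exact (Submodule.mem_span_range_iff_exists_fun ℂ).1 hf

theorem toP_surj {η : σ → B2} (h : ∀ K, (η K).IsHomogeneous d) : ∃ θ, toP σ (d + 1) θ = η := by
  choose a ha using fun K => lp3_surj (h K)
  refine ⟨fun q => a (ofLex q).2 (ofLex q).1, funext fun K => ?_⟩
  rw [toP_apply, ← ha K]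
  rfl

theorem mem_cSec {θ : Fin d ×ₗ σ → ℂ} :
    θ ∈ cSec B d ↔ ∀ p, p ≠ 0 → pv p (toP σ d θ) ∈ B p :=
  ⟨fun h => h.2, fun h => ⟨toP_hom θ, h⟩⟩

theorem finrank_cSec (B : (Fin 2 → ℂ) → Submodule ℂ (σ → ℂ)) (d : ℕ) :
    finrank ℂ (cSec B (d + 1)) = finrank ℂ (Sec B d) := by
  have h : (cSec B (d + 1)).map (toP σ (d + 1)) = Sec B d :=
    Submodule.map_comap_eq_self fun η hη => toP_surj hη.1
  rw [← h]
  exact (Submodule.equivMapOfInjective _ toP_inj _).finrank_eq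

theorem finrank_cSec_zero (B : (Fin 2 → ℂ) → Submodule ℂ (σ → ℂ)) :
    finrank ℂ (cSec B 0) = 0 := by
  refine finrank_zero_iff_forall_zero.2 fun θ => Subtype.ext (funext fun q => ?_)
  exact (ofLex q).1.elim0

theorem pv_toP_first (θ : Fin (d + 1) ×ₗ σ → ℂ) :
    pv ![1, 0] (toP σ (d + 1) θ) = fun K => θ (toLex (0, K)) := by
  funext K
  rw [eval_toP, Fin.sum_univ_succ]
  simp

theorem pv_toP_last (θ : Fin (d + 1) ×ₗ σ → ℂ) :
    pv ![0, 1] (toP σ (d + 1) θ) = fun K => θ (toLex (Fin.last d, K)) := by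
  funext K
  rw [eval_toP, Fin.sum_univ_castSucc, sum_eq_zero]
  · simp
  · intro i _
    have hi : d + 1 - 1 - (i.castSucc : ℕ) ≠ 0 := by
      have := i.2
      rw [Fin.val_castSucc]
      omega
    simp only [Matrix.cons_val_zero, zero_pow hi, zero_mul]

theorem lp3_div (hB : PB B c) {η η' : σ → B2} (j : Fin 2)
    (h : ∀ p, pv p η = p j • pv p η') :
    (∀ p, p ≠ 0 → pv p η ∈ B p) ↔ ∀ p, p ≠ 0 → pv p η' ∈ B p := by
  refine ⟨fun H => ?_, fun H p hp => h p ▸ (B p).smul_mem _ (H p hp)⟩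
  have H1 : ∀ p, p j ≠ 0 → pv p η' ∈ B p := fun p hp => by
    have h1 := H p fun h0 => hp (by rw [h0]; rfl)
    rw [h p] at h1
    exact ((B p).smul_mem_iff hp).1 h1
  intro p₀ h0
  by_cases hj : p₀ j = 0
  · refine hB.closed η' p₀ h0 fun p hp => H1 p fun hpj => hp ?_
    fin_cases j
    · simp only [Fin.zero_eta] at hj hpj
      simp [lp, hj, hpj]
    · simp only [Fin.mk_one] at hj hpj
      simp [lp, hj, hpj]
  · exact H1 p₀ hj

theorem PB.mem_castSucc (hB : PB B c) {θ : Fin (d + 1) ×ₗ σ → ℂ}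
    (h : ∀ K, θ (toLex (Fin.last d, K)) = 0) : θ ∈ cSec B (d + 1) ↔
      (fun q : Fin d ×ₗ σ => θ (toLex ((ofLex q).1.castSucc, (ofLex q).2))) ∈ cSec B d := by
  rw [mem_cSec, mem_cSec]
  refine lp3_div hB 0 fun p => funext fun K => ?_
  rw [Pi.smul_apply, eval_toP, eval_toP, Fin.sum_univ_castSucc, h, mul_zero, add_zero,
    smul_eq_mul, mul_sum]
  refine sum_congr rfl fun i _ => ?_
  have hi : d + 1 - 1 - (i.castSucc : ℕ) = d - 1 - i + 1 := by
    have := i.2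
    rw [Fin.val_castSucc]
    omega
  rw [hi, Fin.val_castSucc, pow_succ]
  simp only [ofLex_toLex]
  ring

theorem PB.mem_succ (hB : PB B c) {θ : Fin (d + 1) ×ₗ σ → ℂ}
    (h : ∀ K, θ (toLex (0, K)) = 0) : θ ∈ cSec B (d + 1) ↔
      (fun q : Fin d ×ₗ σ => θ (toLex ((ofLex q).1.succ, (ofLex q).2))) ∈ cSec B d := by
  rw [mem_cSec, mem_cSec]
  refine lp3_div hB 1 fun p => funext fun K => ?_
  rw [Pi.smul_apply, eval_toP, eval_toP, Fin.sum_univ_succ, h, mul_zero, zero_add,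
    smul_eq_mul, mul_sum]
  refine sum_congr rfl fun i _ => ?_
  have hi : d + 1 - 1 - (i.succ : ℕ) = d - 1 - i := by
    rw [Fin.val_succ]
    omega
  rw [hi, Fin.val_succ, pow_succ]
  simp only [ofLex_toLex]
  ring

/-- sections that vanish at the first point -/
theorem PB.finrank_van (hB : PB B c) (K₀ : Submodule ℂ (Fin (d + 1) ×ₗ σ → ℂ))
    (h : ∀ θ, θ ∈ K₀ ↔ θ ∈ cSec B (d + 1) ∧ ∀ K, θ (toLex (0, K)) = 0) :
    finrank ℂ K₀ = finrank ℂ (cSec B d) := by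
  let r : (Fin (d + 1) ×ₗ σ → ℂ) →ₗ[ℂ] Fin d ×ₗ σ → ℂ :=
    LinearMap.funLeft ℂ ℂ fun q : Fin d ×ₗ σ => toLex ((ofLex q).1.succ, (ofLex q).2)
  have hr : ∀ θ ∈ K₀, r θ ∈ cSec B d := fun θ hθ =>
    (hB.mem_succ ((h θ).1 hθ).2).1 ((h θ).1 hθ).1
  refine (LinearEquiv.ofBijective (r.restrict hr) ⟨?_, ?_⟩).finrank_eq
  · rw [injective_iff_map_eq_zero]
    intro θ hθ
    refine Subtype.ext (funext fun q => ?_)
    obtain ⟨⟨i, K⟩, rfl⟩ := toLex.surjective q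
    induction i using Fin.cases with
    | zero => exact ((h θ).1 θ.2).2 K
    | succ i => exact congrFun (congrArg Subtype.val hθ) (toLex (i, K))
  · intro θ'
    let θ : Fin (d + 1) ×ₗ σ → ℂ := fun q =>
      Fin.cases (motive := fun _ => ℂ) 0 (fun i => θ'.1 (toLex (i, (ofLex q).2))) (ofLex q).1
    have h0 : ∀ K, θ (toLex (0, K)) = 0 := fun K => rfl
    have h1 : r θ = θ'.1 := rfl
    refine ⟨⟨θ, (h θ).2 ⟨(hB.mem_succ h0).2 θ'.2, h0⟩⟩, Subtype.ext h1⟩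

theorem cSec_scale {t : ℂ} (ht : t ≠ 0) (h : ∀ p, B' p = B ![p 0, t * p 1])
    {θ : Fin d ×ₗ σ → ℂ} (hθ : θ ∈ cSec B d) :
    (fun q : Fin d ×ₗ σ => t ^ ((ofLex q).1 : ℕ) * θ q) ∈ cSec B' d := by
  rw [mem_cSec] at hθ ⊢
  intro p hp
  have h1 : (![p 0, t * p 1] : Fin 2 → ℂ) ≠ 0 := fun h0 => hp (by
    have a0 : p 0 = 0 := congrFun h0 0
    have a1 : t * p 1 = 0 := congrFun h0 1
    funext j
    fin_cases j
    · exact a0
    · exact (mul_eq_zero.1 a1).resolve_left ht)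
  have h2 := hθ _ h1
  have h3 : pv p (toP σ d fun q : Fin d ×ₗ σ => t ^ ((ofLex q).1 : ℕ) * θ q) =
      pv ![p 0, t * p 1] (toP σ d θ) := by
    funext K
    rw [eval_toP, eval_toP]
    refine sum_congr rfl fun i _ => ?_
    simp only [ofLex_toLex, Matrix.cons_val_zero, Matrix.cons_val_one, mul_pow]
    ring
  rw [h, h3]
  exact h2

/-- extension by zero -/
def pad (σ : Type) (d e : ℕ) : (Fin d ×ₗ σ → ℂ) →ₗ[ℂ] Fin (d + e) ×ₗ σ → ℂ where
  toFun θ q := if h : ((ofLex q).1 : ℕ) < d then θ (toLex (⟨_, h⟩, (ofLex q).2)) else 0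
  map_add' a b := by ext q; by_cases h : ((ofLex q).1 : ℕ) < d <;> simp [h]
  map_smul' c a := by ext q; by_cases h : ((ofLex q).1 : ℕ) < d <;> simp [h]

theorem pad_apply (e : ℕ) (θ : Fin d ×ₗ σ → ℂ) (q : Fin (d + e) ×ₗ σ) : pad σ d e θ q =
    if h : ((ofLex q).1 : ℕ) < d then θ (toLex (⟨_, h⟩, (ofLex q).2)) else 0 := rfl

theorem pad_inj (e : ℕ) : Function.Injective (pad σ d e) := by
  intro a b hab
  funext q
  have h := congrFun hab (toLex (Fin.castAdd e (ofLex q).1, (ofLex q).2))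
  have hq : ((ofLex (toLex (Fin.castAdd e (ofLex q).1, (ofLex q).2))).1 : ℕ) < d := (ofLex q).1.2
  rw [pad_apply, pad_apply, dif_pos hq, dif_pos hq] at h
  exact h

theorem lp3_pad_zero (θ : Fin d ×ₗ σ → ℂ) : pad σ d 0 θ = θ := by
  funext q
  have hq : ((ofLex q).1 : ℕ) < d := (ofLex q).1.2
  rw [pad_apply, dif_pos hq]
  rfl

theorem lp3_pad_last (e : ℕ) (θ : Fin d ×ₗ σ → ℂ) (K : σ) :
    pad σ d (e + 1) θ (toLex (Fin.last (d + e), K)) = 0 := by
  rw [pad_apply, dif_neg]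
  exact Nat.not_lt.2 (Nat.le_add_right d e)

theorem lp3_pad_cast (e : ℕ) (θ : Fin d ×ₗ σ → ℂ) (q : Fin (d + e) ×ₗ σ) :
    pad σ d (e + 1) θ (toLex ((ofLex q).1.castSucc, (ofLex q).2)) = pad σ d e θ q := rfl

theorem PB.mem_pad (hB : PB B c) (e : ℕ) {θ : Fin d ×ₗ σ → ℂ} :
    pad σ d e θ ∈ cSec B (d + e) ↔ θ ∈ cSec B d := by
  induction e with
  | zero => rw [lp3_pad_zero]; rfl
  | succ e ih => exact (hB.mem_castSucc (lp3_pad_last e θ)).trans ih

/-- the top coefficients vanish if they are killed by test vectors -/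
theorem PB.tri (hB : PB B c) {ι : Type} (b : ι → σ → ℂ)
    (hb : ∀ ξ ∈ B ![0, 1], (∀ k, ∑ l, b k l * ξ l = 0) → ξ = 0) (e : ℕ)
    {θ : Fin (d + e) ×ₗ σ → ℂ} (hθ : θ ∈ cSec B (d + e))
    (h : ∀ (m : Fin e) k, ∑ l, b k l * θ (toLex (Fin.natAdd d m, l)) = 0) :
    ∃ θ', θ = pad σ d e θ' := by
  induction e with
  | zero => exact ⟨θ, (lp3_pad_zero θ).symm⟩
  | succ e ih =>
    have hne : (![0, 1] : Fin 2 → ℂ) ≠ 0 := fun h0 => one_ne_zero (congrFun h0 1)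
    have h1 := mem_cSec.1 hθ _ hne
    have h2 := pv_toP_last (d := d + e) θ
    have h3 : (fun K => θ (toLex (Fin.last (d + e), K))) = 0 :=
      hb _ (h2 ▸ h1) fun k => h (Fin.last e) k
    have h4 : ∀ K, θ (toLex (Fin.last (d + e), K)) = 0 := congrFun h3
    obtain ⟨θ', hθ'⟩ := ih ((hB.mem_castSucc (d := d + e) h4).1 hθ) fun m k => h m.castSucc k
    refine ⟨θ', funext fun q => ?_⟩
    obtain ⟨⟨i, K⟩, rfl⟩ := toLex.surjective q
    induction i using Fin.lastCases (n := d + e) with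
    | last => exact (h4 K).trans (lp3_pad_last e θ' K).symm
    | cast i => exact congrFun hθ' (toLex (i, K))

theorem exists_emb (σ : Type) [LinearOrder σ] (d : ℕ) :
    ∃ (e0 e0' : Fin d ×ₗ σ ↪o Fin (d + 1) ×ₗ σ) (e1 e1' : σ ↪o Fin (d + 1) ×ₗ σ),
      (∀ q, e0 q = toLex ((ofLex q).1.castSucc, (ofLex q).2)) ∧
      (∀ q, e0' q = toLex ((ofLex q).1.succ, (ofLex q).2)) ∧
      (∀ K, e1 K = toLex (Fin.last d, K)) ∧ ∀ K, e1' K = toLex (0, K) := by
  have A : ∀ f : Fin d → Fin (d + 1), StrictMono f → StrictMono fun q : Fin d ×ₗ σ =>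
      (toLex (f (ofLex q).1, (ofLex q).2) : Fin (d + 1) ×ₗ σ) := fun f hf a b hab => by
    rw [Prod.Lex.toLex_lt_toLex]
    rcases Prod.Lex.lt_iff.1 hab with h | ⟨h1, h2⟩
    · exact Or.inl (hf h)
    · exact Or.inr ⟨congrArg f h1, h2⟩
  have E : ∀ i : Fin (d + 1), StrictMono fun K : σ => (toLex (i, K) : Fin (d + 1) ×ₗ σ) :=
    fun i a b hab => Prod.Lex.toLex_lt_toLex.2 (Or.inr ⟨rfl, hab⟩)
  exact ⟨OrderEmbedding.ofStrictMono _ (A _ Fin.strictMono_castSucc),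
    OrderEmbedding.ofStrictMono _ (A _ Fin.strictMono_succ),
    OrderEmbedding.ofStrictMono _ (E _), OrderEmbedding.ofStrictMono _ (E _),
    fun _ => rfl, fun _ => rfl, fun _ => rfl, fun _ => rfl⟩

end Pool.Agent.HCF
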