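import Pool.Agent.P.MP_f644fa_ag.LS0

/-! The equation on the family of lines forces integral roots. -/

noncomputable section
namespace Pool.Agent.HCF
open Finset PowerSeries

theorem ls1a_chain (c : ℕ) (s : ℂ) (φ : Polynomial ℂ) (n : ℕ) : ∀ (g : Polynomial ℂ)
    (a : Fin c → ℕ), g ≠ 0 → g.natDegree = n →
    g.comp (Polynomial.X - 1) * φ = g * ∏ j, (Polynomial.X - Polynomial.C (s - a j)) →
    ∃ b : Fin c → ℕ, ∑ j, b j = n + ∑ j, a j ∧
      φ = ∏ j, (Polynomial.X - Polynomial.C (s - b j)) := by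
  classical
  induction n with
  | zero =>
    intro g a hg hn h
    rw [Polynomial.eq_C_of_natDegree_eq_zero hn] at h hg
    rw [Polynomial.C_comp] at h
    exact ⟨a, (zero_add _).symm, mul_left_cancel₀ hg h⟩
  | succ n ih =>
    intro g a hg hn h
    obtain ⟨r0, hr0⟩ := Complex.exists_root
      (Polynomial.natDegree_pos_iff_degree_pos.1 (show 0 < g.natDegree by omega))
    obtain ⟨r, hr, hmax⟩ := exists_max_image g.roots.toFinset Complex.re
      ⟨r0, Multiset.mem_toFinset.2 ((Polynomial.mem_roots hg).2 hr0)⟩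
    have hroot : g.IsRoot r := (Polynomial.mem_roots hg).1 (Multiset.mem_toFinset.1 hr)
    have hne : g.eval (r + 1) ≠ 0 := fun h1 => by
      have := hmax (r + 1) (Multiset.mem_toFinset.2 ((Polynomial.mem_roots hg).2 h1))
      simp only [Complex.add_re, Complex.one_re] at this
      linarith
    have h1 := congrArg (Polynomial.eval (r + 1)) h
    simp only [Polynomial.eval_mul, Polynomial.eval_comp, Polynomial.eval_sub, Polynomial.eval_X,
      Polynomial.eval_one, add_sub_cancel_right, hroot.eq_zero, zero_mul, Polynomial.eval_prod,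
      Polynomial.eval_C] at h1
    obtain ⟨j, -, hj⟩ := prod_eq_zero_iff.1 ((mul_eq_zero.1 h1.symm).resolve_left hne)
    have hs : s - a j = r + 1 := (sub_eq_zero.1 hj).symm
    obtain ⟨g1, rfl⟩ := Polynomial.dvd_iff_isRoot.2 hroot
    have hg1 : g1 ≠ 0 := right_ne_zero_of_mul hg
    have hd : g1.natDegree = n := by
      rw [Polynomial.natDegree_mul (Polynomial.X_sub_C_ne_zero r) hg1,
        Polynomial.natDegree_X_sub_C] at hn
      omega
    have e1 : ∏ i, (Polynomial.X - Polynomial.C (s - (Function.update a j (a j + 1) i : ℕ))) =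
        (Polynomial.X - Polynomial.C r) *
          ∏ i ∈ univ.erase j, (Polynomial.X - Polynomial.C (s - a i)) := by
      rw [← mul_prod_erase univ _ (mem_univ j), Function.update_self]
      refine congrArg₂ _ ?_ (prod_congr rfl fun i hi => ?_)
      · rw [Nat.cast_succ, ← sub_sub, hs, add_sub_cancel_right]
      · rw [Function.update_of_ne (ne_of_mem_erase hi)]
    obtain ⟨b, hb, hφ⟩ := ih g1 (Function.update a j (a j + 1)) hg1 hd (by
      refine mul_left_cancel₀ (Polynomial.X_sub_C_ne_zero (r + 1)) ?_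
      rw [← mul_prod_erase univ _ (mem_univ j), hs] at h
      rw [e1]
      simp only [Polynomial.mul_comp, Polynomial.sub_comp, Polynomial.X_comp, Polynomial.C_comp,
        map_add, map_one] at h ⊢
      linear_combination h)
    refine ⟨b, ?_, hφ⟩
    rw [hb, sum_update_of_mem (mem_univ j), ← add_sum_erase univ a (mem_univ j),
      sdiff_singleton_eq_erase]
    omega

/-- chains of roots -/
theorem chain_roots (c : ℕ) (s : ℂ) (g φ : Polynomial ℂ) (hg : g ≠ 0)
    (h : g.comp (Polynomial.X - 1) * φ = g * (Polynomial.X - Polynomial.C s) ^ c) :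
    ∃ b : Fin c → ℕ, ∑ j, b j = g.natDegree ∧
      φ = ∏ j, (Polynomial.X - Polynomial.C (s - b j)) := by
  simpa using ls1a_chain c s φ _ g (fun _ => 0) hg rfl (by simpa using h)

theorem ls1a_conv {R : Type} [CommRing R] (A B : ℕ → R) {c s : ℕ} (hA : ∀ k, c < k → A k = 0)
    (hB : ∀ k, s < k → B k = 0) :
    (∑ k ∈ range (c + 1), A k) * ∑ k ∈ range (s + 1), B k =
      ∑ k ∈ range (c + s + 1), ∑ q ∈ antidiagonal k, A q.1 * B q.2 := by
  simp only [Nat.sum_antidiagonal_eq_sum_range_succ (fun i j => A i * B j)]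
  rw [sum_range_diag_flip (c + s + 1) fun i j => A i * B j, sum_mul,
    ← sum_subset (range_subset_range.2 (show c + 1 ≤ c + s + 1 by omega))]
  · refine sum_congr rfl fun m hm => ?_
    have := mem_range.1 hm
    rw [← mul_sum, sum_subset (range_subset_range.2 (show s + 1 ≤ c + s + 1 - m by omega))]
    intro k _ hk
    exact hB k (by simpa using hk)
  · intro m _ hm
    simp only [hA m (by simpa using hm), zero_mul, sum_const_zero]

/-- the coefficients of `gz` as polynomials -/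
def ls1aP (n : ℕ) (f : ℕ → ℂ⟦X⟧) (i : ℕ) : Polynomial ℂ :=
  ∑ e ∈ range (i + 1), Polynomial.monomial e
    (∑ k ∈ range (n + 1), (-1) ^ k * coeff (i - e) (f k) * (-(k : ℂ)) ^ e / e.factorial)

theorem ls1a_eval (n : ℕ) (f : ℕ → ℂ⟦X⟧) (i : ℕ) (ζ : ℂ) :
    (ls1aP n f i).eval ζ = coeff i (gz n f ζ) := by
  simp only [ls1aP, gz, Polynomial.eval_finsetSum, Polynomial.eval_monomial, map_sum, sum_mul]
  rw [sum_comm]
  refine sum_congr rfl fun k _ => ?_
  rw [mul_assoc, coeff_C_mul, mul_comm (f k), coeff_mul,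
    Nat.sum_antidiagonal_eq_sum_range_succ_mk, mul_sum]
  refine sum_congr rfl fun e _ => ?_
  rw [coeff_ex, ← neg_mul, mul_pow]
  ring

theorem ls1a_coeff (n : ℕ) (f : ℕ → ℂ⟦X⟧) (i e : ℕ) : (ls1aP n f i).coeff e = if e ≤ i then
    ∑ k ∈ range (n + 1), (-1) ^ k * coeff (i - e) (f k) * (-(k : ℂ)) ^ e / e.factorial else 0 := by
  simp only [ls1aP, Polynomial.finsetSum_coeff, Polynomial.coeff_monomial, sum_ite_eq',
    mem_range, Nat.lt_succ_iff]

theorem ls1a_low {s γ : ℕ} (π : ℕ → ℂ⟦X⟧) (hπ : ∀ k, s < k → π k = 0)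
    (h0 : ¬ (X : ℂ⟦X⟧) ^ (γ + 1) ∣ π 0) : ∃ m, m ≤ γ + s ∧ ls1aP s π m ≠ 0 ∧
      (ls1aP s π m).natDegree ≤ s ∧ ∀ i < m, ls1aP s π i = 0 := by
  classical
  rw [X_pow_dvd_iff] at h0
  push Not at h0
  obtain ⟨i0, hi0, hc0⟩ := h0
  have hex : ∃ t, ∃ k, coeff t (π k) ≠ 0 := ⟨i0, 0, hc0⟩
  have ht : Nat.find hex ≤ γ := (Nat.find_min' hex ⟨0, hc0⟩).trans (by omega)
  have hmin : ∀ i < Nat.find hex, ∀ k, coeff i (π k) = 0 := fun i hi k => by
    by_contra h
    exact Nat.find_min hex hi ⟨k, h⟩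
  obtain ⟨k0, hk0⟩ := Nat.find_spec hex
  generalize Nat.find hex = t at *
  have h1 : ∃ o ≤ s, ls1aP s π (t + o) ≠ 0 := by
    by_contra hc
    push Not at hc
    have hk : k0 ≤ s := by
      by_contra h
      exact hk0 (by rw [hπ k0 (not_le.1 h), map_zero])
    have := vdm_zero (fun k => (-1) ^ k * coeff t (π k)) (fun o ho => ?_) k0 hk
    · exact mul_ne_zero (pow_ne_zero _ (by norm_num)) hk0 this
    · have h2 := ls1a_coeff s π (t + o) o
      rw [hc o ho, Polynomial.coeff_zero, if_pos (by omega), add_tsub_cancel_right, ← sum_div,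
        eq_comm, div_eq_zero_iff] at h2
      have h3 := h2.resolve_right (Nat.cast_ne_zero.2 (Nat.factorial_ne_zero o))
      refine (mul_eq_zero.1 (Eq.trans ?_ h3)).resolve_left
        (pow_ne_zero o (show (-1 : ℂ) ≠ 0 by norm_num))
      rw [mul_sum]
      refine sum_congr rfl fun k _ => ?_
      rw [neg_pow (k : ℂ)]
      ring
  obtain ⟨o, ho, hne⟩ := h1
  have hex2 : ∃ m, ls1aP s π m ≠ 0 := ⟨_, hne⟩
  have hm : Nat.find hex2 ≤ t + o := Nat.find_min' hex2 hne
  refine ⟨Nat.find hex2, by omega, Nat.find_spec hex2, ?_,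
    fun i hi => not_not.1 (Nat.find_min hex2 hi)⟩
  rw [Polynomial.natDegree_le_iff_coeff_eq_zero]
  intro e he
  rw [ls1a_coeff]
  split_ifs with h
  · refine sum_eq_zero fun k _ => ?_
    rw [hmin _ (by omega) k, mul_zero, zero_mul, zero_div]
  · rfl

theorem ls1a_mul {a b : ℂ⟦X⟧} {m n : ℕ} (ha : ∀ i < m, coeff i a = 0)
    (hb : ∀ i < n, coeff i b = 0) : coeff (m + n) (a * b) = coeff m a * coeff n b := by
  obtain ⟨a', rfl⟩ := X_pow_dvd_iff.2 ha
  obtain ⟨b', rfl⟩ := X_pow_dvd_iff.2 hb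
  have e : ∀ (k : ℕ) (p : ℂ⟦X⟧), coeff k (X ^ k * p) = constantCoeff p := fun k p => by
    simpa using coeff_X_pow_mul p k 0
  rw [mul_mul_mul_comm, ← pow_add, e, e, e, map_mul]

theorem ls1a_main {c s L : ℕ} (π φ : ℕ → ℂ⟦X⟧) (hπ : ∀ k, s < k → π k = 0)
    (hφ : ∀ k, c < k → φ k = 0)
    (h : ∀ k, (X : ℂ⟦X⟧) ^ L ∣ ∑ q ∈ antidiagonal k, φ q.1 * (ex q.2 * π q.2) -
      ∑ q ∈ antidiagonal k, C (c.choose q.1 : ℂ) * ex (s * q.1 : ℕ) * π q.2) (ζ : ℂ) :
    (X : ℂ⟦X⟧) ^ L ∣ gz c φ ζ * gz s π (ζ - 1) - (1 - ex (s - ζ)) ^ c * gz s π ζ := by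
  have e : (1 - ex (s - ζ)) ^ c =
      gz c (fun k => C (c.choose k : ℂ) * ex (s * k : ℕ)) ζ := by
    rw [sub_eq_neg_add, add_pow, gz]
    refine sum_congr rfl fun k _ => ?_
    rw [neg_pow, ex_pow, show (k : ℂ) * (s - ζ) = (s * k : ℕ) + -(k * ζ) by push_cast; ring,
      ex_add]
    simp only [map_pow, map_neg, map_one, map_natCast]
    ring
  rw [e, gz, gz, gz, gz, ls1a_conv _ _ (fun k hk => by rw [hφ k hk, mul_zero, zero_mul])
    (fun k hk => by rw [hπ k hk, mul_zero, zero_mul]),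
    ls1a_conv _ _ (fun k hk => by
      rw [Nat.choose_eq_zero_of_lt hk, Nat.cast_zero, map_zero, zero_mul, mul_zero, zero_mul])
    (fun k hk => by rw [hπ k hk, mul_zero, zero_mul]), ← sum_sub_distrib]
  refine dvd_sum fun k _ => ?_
  refine (Dvd.dvd.mul_left (h k) (C ((-1) ^ k) * ex (-(k * ζ)))).trans (dvd_of_eq ?_)
  rw [mul_sub, mul_sum, mul_sum]
  refine congrArg₂ _ (sum_congr rfl fun q hq => ?_) (sum_congr rfl fun q hq => ?_)
  · rw [← mem_antidiagonal.1 hq, show -(((q.1 + q.2 : ℕ) : ℂ) * ζ) = -(q.1 * ζ) + -(q.2 * ζ) by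
      push_cast; ring, show -((q.2 : ℂ) * (ζ - 1)) = -(q.2 * ζ) + q.2 by ring, ex_add, ex_add,
      pow_add, map_mul]
    ring
  · rw [← mem_antidiagonal.1 hq, show -(((q.1 + q.2 : ℕ) : ℂ) * ζ) = -(q.1 * ζ) + -(q.2 * ζ) by
      push_cast; ring, ex_add, pow_add, map_mul]
    ring

theorem lines_roots {c s γ L : ℕ} (π φ : ℕ → ℂ⟦X⟧) (hπ : ∀ k, s < k → π k = 0)
    (hφ : ∀ k, c < k → φ k = 0) (h0 : ¬ (X : ℂ⟦X⟧) ^ (γ + 1) ∣ π 0) (hL : γ + s + c < L)
    (h : ∀ k, (X : ℂ⟦X⟧) ^ L ∣ ∑ q ∈ antidiagonal k, φ q.1 * (ex q.2 * π q.2) -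
      ∑ q ∈ antidiagonal k, C (c.choose q.1 : ℂ) * ex (s * q.1 : ℕ) * π q.2) :
    ∃ b : Fin c → ℕ, ∑ j, b j ≤ s ∧ Ch c φ fun j => s - b j := by
  obtain ⟨m, hm, hG, hdeg, hlow⟩ := ls1a_low π hπ h0
  have hz : ∀ ζ, ∀ i < m, coeff i (gz s π ζ) = 0 := fun ζ i hi => by
    rw [← ls1a_eval, hlow i hi, Polynomial.eval_zero]
  have hu : ∀ ζ : ℂ, (∀ i < c, coeff i ((1 - ex (s - ζ)) ^ c) = 0) ∧
      coeff c ((1 - ex (s - ζ)) ^ c) = (ζ - s) ^ c := fun ζ => by
    obtain ⟨u, h1, h2⟩ := one_sub_ex (s - ζ)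
    rw [h1, mul_pow]
    refine ⟨X_pow_dvd_iff.1 (dvd_mul_right _ _), ?_⟩
    have := coeff_X_pow_mul (u ^ c) c 0
    rw [zero_add] at this
    rw [this, coeff_zero_eq_constantCoeff, map_pow, h2, neg_sub]
  have key : ∀ i ≤ c, (∀ j < i, ls1aP c φ j = 0) → ∀ ζ : ℂ,
      (ls1aP s π m).eval (ζ - 1) * (ls1aP c φ i).eval ζ =
        (ls1aP s π m).eval ζ * coeff i ((1 - ex (s - ζ)) ^ c) := by
    intro i hi hj ζ
    have h1 := X_pow_dvd_iff.1 (ls1a_main π φ hπ hφ h ζ) (i + m) (by omega)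
    rw [map_sub, ls1a_mul (fun j h2 => by rw [← ls1a_eval, hj j h2, Polynomial.eval_zero]) (hz _),
      ls1a_mul (fun j h2 => (hu ζ).1 j (by omega)) (hz _), sub_eq_zero] at h1
    rw [ls1a_eval, ls1a_eval, ls1a_eval, mul_comm, h1, mul_comm]
  have hF : ∀ i < c, ls1aP c φ i = 0 := by
    intro i
    induction i using Nat.strong_induction_on with
    | _ i ih =>
      intro hi
      have h1 : ls1aP s π m * (ls1aP c φ i).comp (Polynomial.X + 1) = 0 :=
        Polynomial.funext fun ζ => by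
          have := key i hi.le (fun j hj => ih j hj (by omega)) (ζ + 1)
          rw [(hu _).1 i hi, mul_zero, add_sub_cancel_right] at this
          simpa [Polynomial.eval_comp] using this
      have h2 := (mul_eq_zero.1 h1).resolve_left hG
      refine Polynomial.funext fun ζ => ?_
      have := congrArg (Polynomial.eval (ζ - 1)) h2
      simpa [Polynomial.eval_comp] using this
  obtain ⟨b, hb, hφ'⟩ := chain_roots c s (ls1aP s π m) (ls1aP c φ c) hG
    (Polynomial.funext fun ζ => by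
      have := key c le_rfl hF ζ
      rw [(hu ζ).2] at this
      simp only [Polynomial.eval_mul, Polynomial.eval_comp, Polynomial.eval_sub, Polynomial.eval_X,
        Polynomial.eval_one, Polynomial.eval_pow, Polynomial.eval_C]
      exact this)
  refine ⟨b, hb.trans_le hdeg, fun ζ => ⟨fun i hi => ?_, ?_⟩⟩
  · rw [← ls1a_eval, hF i hi, Polynomial.eval_zero]
  · rw [← ls1a_eval, hφ', Polynomial.eval_prod]
    simp only [Polynomial.eval_sub, Polynomial.eval_X, Polynomial.eval_C]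

end Pool.Agent.HCF
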