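import Pool.Agent.P.MP_f644fa_ag.LA0

/-! The exterior algebra of a subbundle. -/

noncomputable section
namespace Pool.Agent.HCF
open Finset Module PowerSeries
open scoped Kronecker

variable {M n : ℕ} {X R RR X' R' RR' Q : Type} [CommRing R] [Algebra ℂ R] [CommRing RR]
  [Algebra ℂ RR] [CommRing R'] [Algebra ℂ R'] [CommRing RR'] [Algebra ℂ RR'] [CommRing Q]
  [Algebra ℂ Q]
variable {S : NS0 M n X R RR} {σ : Type} [LinearOrder σ] [Fintype σ]

theorem NS0.val_iov (S : NS0 M n X R RR) (q : X) (a : σ → R) (ω : Finset σ → R) :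
    S.val q (iov R a ω) = iov ℂ (S.val q a) (S.val q ω) :=
  iov_nat (S.ev q : R →+* ℂ).toAddMonoidHom (fun j v => map_mul (S.ev q) (a j) v) ω

theorem NS0.val_epv (S : NS0 M n X R RR) (q : X) (a : σ → R) (ω : Finset σ → R) :
    S.val q (epv R a ω) = epv ℂ (S.val q a) (S.val q ω) :=
  epv_nat (S.ev q : R →+* ℂ).toAddMonoidHom (fun j v => map_mul (S.ev q) (a j) v) ω

theorem NS0.val_inj (S : NS0 M n X R RR) {I : Type} {ω η : I → R}
    (h : ∀ q, S.val q ω = S.val q η) : ω = η := by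
  funext i
  refine sub_eq_zero.1 (S.sep _ fun q => ?_)
  rw [map_sub, sub_eq_zero]
  exact congrFun (h q) i

theorem NS0.val_sc (S : NS0 M n X R RR) {I : Type} (w : I → ℕ) (ω : I → R) (q : X) (i : I) :
    S.val q (S.sc w ω) i = 2 ^ w i * S.val (S.dbl q) ω i := by
  show S.ev q ((2 : ℂ) ^ w i • S.s1 (ω i)) = _
  rw [map_smul, S.ev_dbl, smul_eq_mul]
  rfl

theorem lsub_val_mulVec (S : NS0 M n X R RR) {I : Type} [Fintype I] (q : X) (π : Matrix I I R)
    (ω : I → R) : S.val q (π.mulVec ω) = (π.map (S.ev q)).mulVec (S.val q ω) := by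
  funext i
  simp only [NS0.val, Matrix.mulVec, dotProduct, map_sum, map_mul, Matrix.map_apply]

theorem lsub_val_smul (S : NS0 M n X R RR) {I : Type} (q : X) (g : R) (ω : I → R) :
    S.val q (g • ω) = S.ev q g • S.val q ω := by
  funext i
  simp only [NS0.val, Pi.smul_apply, smul_eq_mul, map_mul]

theorem lsub_val_zero (S : NS0 M n X R RR) {I : Type} (q : X) : S.val q (0 : I → R) = 0 := by
  funext i
  simp only [NS0.val, Pi.zero_apply, map_zero]

theorem lsub_kt_nat {A B : Type} [CommRing A] [CommRing B] (f : A →+* B) (t : Matrix σ σ A)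
    (y : Finset σ → A) : (fun J => f (kt A t y J)) = kt B (t.map f) fun J => f (y J) := by
  funext J
  rw [kt, kt, LinearMap.sum_apply, LinearMap.sum_apply, Finset.sum_apply, Finset.sum_apply,
    map_sum]
  refine sum_congr rfl fun l _ => ?_
  have h1 := congrFun (ep_nat (R := A) (R' := B) f.toAddMonoidHom l
    (iov A (fun j => t j l) y)) J
  have h2 : (fun J => f (iov A (fun j => t j l) y J)) =
      iov B (fun j => f (t j l)) fun J => f (y J) :=
    iov_nat f.toAddMonoidHom (fun j v => map_mul f (t j l) v) y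
  refine h1.trans ?_
  exact congrArg (fun z => ep B B l z J) h2

theorem lsub_lad_nat {A B : Type} [CommRing A] [CommRing B] (f : A →+* B) (t : Matrix σ σ A)
    (δ : A) (a r : ℕ) (y : Finset σ → A) :
    (fun J => f (lad A t δ a r y J)) = lad B (t.map f) (f δ) a r fun J => f (y J) := by
  induction r with
  | zero => rfl
  | succ r ih =>
    rw [lad, lad, Module.End.mul_apply, Module.End.mul_apply, ← ih, LinearMap.sub_apply,
      LinearMap.sub_apply, ← lsub_kt_nat]
    funext J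
    simp only [Pi.sub_apply, LinearMap.smul_apply, Module.End.one_apply, Pi.smul_apply,
      smul_eq_mul, map_sub, map_mul, map_natCast]

theorem NS0.Prj.tt {T : X → Submodule ℂ (σ → ℂ)} {p : X} {δ : R} {t : Matrix σ σ R}
    (h : S.Prj T p δ t) : t * t = δ • t := by
  ext j l
  refine sub_eq_zero.1 (S.sep _ fun q => ?_)
  rw [map_sub, sub_eq_zero, Matrix.mul_apply, map_sum, Matrix.smul_apply, smul_eq_mul, map_mul]
  simp only [map_mul]
  exact h.2.2 q _ (h.2.1 q l) j

/-- the columns of `t` kill the forms killed by `T`, and conversely up to `δ` -/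
theorem NS0.Prj.iov_col {B : Sub S σ} {p : X} {δ : R} {t : Matrix σ σ R} (h : S.Prj B.T p δ t)
    {ω : Finset σ → R} (hω : ω ∈ B.lamG) (l : σ) : iov R (fun j => t j l) ω = 0 := by
  refine S.val_inj fun q => ?_
  rw [S.val_iov, lsub_val_zero]
  exact hω q _ (h.2.1 q l)

theorem NS0.Prj.smul_mem {B : Sub S σ} {p : X} {δ : R} {t : Matrix σ σ R} (h : S.Prj B.T p δ t)
    {ω : Finset σ → R} (hω : ∀ l, iov R (fun j => t j l) ω = 0) : δ • ω ∈ B.lamG := by
  intro q v hv
  have e : S.ev q δ • v = ∑ l, v l • S.val q fun j => t j l := by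
    funext j
    simp only [Finset.sum_apply, Pi.smul_apply, smul_eq_mul, NS0.val]
    rw [← h.2.2 q v hv j]
    exact sum_congr rfl fun l _ => mul_comm _ _
  rw [lsub_val_smul, map_smul, ← LinearMap.smul_apply, ← iov_smul, e, iov_sum, LinearMap.sum_apply]
  refine sum_eq_zero fun l _ => ?_
  rw [iov_smul, LinearMap.smul_apply, ← S.val_iov, hω l, lsub_val_zero, smul_zero]

theorem Sub.lamG_inv (B : Sub S σ) : ∀ ω ∈ B.lamG, S.sc B.wt ω ∈ B.lamG := by
  intro ω h p v hv
  have h1 := h (S.dbl p) _ (B.T_dbl p v hv)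
  funext J
  have h2 := congrFun h1 J
  rw [fock_iov, Pi.zero_apply] at h2 ⊢
  refine Eq.trans ?_ ((congrArg ((2 : ℂ) ^ B.wt J * ·) h2).trans (mul_zero _))
  rw [mul_sum]
  refine sum_congr rfl fun j _ => ?_
  rw [io_apply, io_apply]
  by_cases hj : j ∈ J
  · simp [hj]
  · have e : B.wt (insert j J) = B.w j + B.wt J := sum_insert hj
    rw [if_neg hj, if_neg hj, S.val_sc, e]
    simp only [smul_eq_mul, zsmul_eq_mul]
    ring

theorem Sub.lamG_locp (B : Sub S σ) (p : X) :
    ∃ (g : R) (π : Matrix (Finset σ) (Finset σ) R), S.ev p g ≠ 0 ∧ (∀ ω, π.mulVec ω ∈ B.lamG) ∧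
      ∀ q (y : Finset σ → ℂ), (∀ v ∈ B.T q, iov ℂ v y = 0) →
        (π.map (S.ev q)).mulVec y = S.ev q g • y := by
  obtain ⟨δ, t, h⟩ := B.loc p
  refine ⟨δ * ((-1) ^ Fintype.card σ * ((Fintype.card σ).factorial : R) * δ ^ Fintype.card σ),
    LinearMap.toMatrix' (δ • lad R t δ 1 (Fintype.card σ)), ?_, fun ω => ?_, fun q y hy => ?_⟩
  · simp only [map_mul, map_pow, map_neg, map_one, map_natCast]
    exact mul_ne_zero h.1 (mul_ne_zero (mul_ne_zero (by simp)
      (Nat.cast_ne_zero.2 (Nat.factorial_ne_zero _))) (pow_ne_zero _ h.1))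
  · rw [LinearMap.toMatrix'_mulVec, LinearMap.smul_apply]
    exact h.smul_mem fun l => iov_lad h.tt l ω
  · have e : (LinearMap.toMatrix' (δ • lad R t δ 1 (Fintype.card σ))).map (S.ev q) =
        LinearMap.toMatrix' (S.ev q δ • lad ℂ (t.map (S.ev q : R →+* ℂ)) ((S.ev q : R →+* ℂ) δ) 1
          (Fintype.card σ)) := by
      ext J K
      have h1 := congrFun (lsub_lad_nat (S.ev q : R →+* ℂ) t δ 1 (Fintype.card σ)
        (Pi.single K 1)) J
      have h2 : (fun J => (S.ev q : R →+* ℂ) ((Pi.single K 1 : Finset σ → R) J)) =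
          Pi.single K 1 := by
        funext L
        by_cases hL : L = K
        · subst hL
          simp
        · simp [Pi.single_eq_of_ne hL]
      rw [h2] at h1
      rw [Matrix.map_apply, LinearMap.toMatrix'_apply, LinearMap.toMatrix'_apply,
        LinearMap.smul_apply, LinearMap.smul_apply, Pi.smul_apply, Pi.smul_apply, smul_eq_mul,
        smul_eq_mul, map_mul, ← h1]
      rfl
    rw [e, LinearMap.toMatrix'_mulVec, LinearMap.smul_apply,
      lad_of_ker (t := t.map (S.ev q : R →+* ℂ)) _ _ (fun l => hy _ (h.2.1 q l)), smul_smul]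
    simp only [map_mul, map_pow, map_neg, map_one, map_natCast, RingHom.coe_coe]

theorem lsub_loc_mem {B : Sub S σ} {g : R} {π : Matrix (Finset σ) (Finset σ) R}
    (h : ∀ q (y : Finset σ → ℂ), (∀ v ∈ B.T q, iov ℂ v y = 0) →
      (π.map (S.ev q)).mulVec y = S.ev q g • y) : ∀ ω ∈ B.lamG, π.mulVec ω = g • ω :=
  fun ω hω => S.val_inj fun q => by
    rw [lsub_val_mulVec, lsub_val_smul]
    exact h q _ (hω q)

theorem Sub.lamG_loc (B : Sub S σ) (p : X) :
    ∃ (g : R) (π : Matrix (Finset σ) (Finset σ) R), S.ev p g ≠ 0 ∧ (∀ ω, π.mulVec ω ∈ B.lamG) ∧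
      ∀ ω ∈ B.lamG, π.mulVec ω = g • ω := by
  obtain ⟨g, π, h1, h2, h3⟩ := B.lamG_locp p
  exact ⟨g, π, h1, h2, lsub_loc_mem h3⟩

/-- the exterior algebra of the subbundle -/
def Sub.lam (B : Sub S σ) : Dat S (Finset σ) where
  w := B.wt
  G := B.lamG
  inv := B.lamG_inv
  loc := B.lamG_loc

theorem Sub.ok_piM (B : Sub S σ) (k : ℕ) : B.lam.Ok (piM σ k) := by
  refine ⟨fun ω hω p v hv => ?_, fun J K h => ?_⟩
  · have e : S.val p (cst R (piM σ k) ω) = pik ℂ ℂ k (S.val p ω) := by
      funext J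
      rw [NS0.val_apply, piM, cst_diagonal, pik_apply]
      split_ifs <;> simp [NS0.val]
    rw [e]
    exact iov_pik (hω p v hv) k
  · by_cases hJ : J = K
    · rw [hJ]
    · exact absurd (Matrix.diagonal_apply_ne _ hJ) h

theorem lsub_parM (ε : ℂ) :
    parM σ ε = ∑ k ∈ range (Fintype.card σ + 1), ε ^ k • piM σ k := by
  ext A B
  rw [Matrix.sum_apply]
  by_cases hAB : A = B
  · subst hAB
    have hA : A.card ∈ range (Fintype.card σ + 1) :=
      mem_range.2 (Nat.lt_succ_of_le A.card_le_univ)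
    rw [sum_eq_single_of_mem A.card hA]
    · simp [parM, piM]
    · intro k _ hk
      simp [piM, hk.symm]
  · simp [parM, piM, Matrix.diagonal_apply_ne _ hAB]

theorem Sub.ok_parM (B : Sub S σ) (ε : ℂ) : B.lam.Ok (parM σ ε) := by
  rw [lsub_parM]
  exact Dat.Ok.sum _ fun k _ => (B.ok_piM k).smul _

/-- a family of constant rank that is spanned by polynomial sections has local projectors -/
theorem NS0.loc_of_gen {σ : Type} [Fintype σ] (S : NS0 M n X R RR) (T : X → Submodule ℂ (σ → ℂ))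
    {τ : ℕ} (hτ : ∀ p, finrank ℂ (T p) = τ)
    (hg : ∀ p, T p ≤ Submodule.span ℂ {v | ∃ u : σ → R, (∀ q, S.val q u ∈ T q) ∧ v = S.val p u})
    (p : X) : ∃ δ t, S.Prj T p δ t := by
  have hsp : Submodule.span ℂ (Set.range fun u : {u : σ → R // ∀ q, S.val q u ∈ T q} =>
      S.val p u.1) = T p := by
    refine le_antisymm (Submodule.span_le.2 ?_) ((hg p).trans (Submodule.span_mono ?_))
    · rintro _ ⟨u, rfl⟩
      exact u.2 p
    · rintro _ ⟨u, hu, rfl⟩
      exact ⟨⟨u, hu⟩, rfl⟩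
  obtain ⟨s, -, hs, -⟩ := exists_sel (fun u : {u : σ → R // ∀ q, S.val q u ∈ T q} =>
    S.val p u.1) (τ := τ) (by rw [hsp]; exact hτ p)
  obtain ⟨δ, u, hδ, hu⟩ := dual_fields (S.ev p) (fun k => (s k).1) hs
  refine ⟨δ * δ, Matrix.of fun j l => δ * ∑ k, (s k).1 j * u k l, ?_, fun q l => ?_,
    fun q w hw j => ?_⟩
  · rw [map_mul]
    exact mul_ne_zero hδ hδ
  · have e : (fun j => S.ev q ((Matrix.of fun j l => δ * ∑ k, (s k).1 j * u k l) j l)) =
        ∑ k, (S.ev q δ * S.ev q (u k l)) • S.val q (s k).1 := by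
      funext j
      simp only [Matrix.of_apply, map_mul, map_sum, Finset.sum_apply, Pi.smul_apply, smul_eq_mul,
        NS0.val, mul_sum]
      exact sum_congr rfl fun k _ => by ring
    rw [e]
    exact (T q).sum_mem fun k _ => (T q).smul_mem _ ((s k).2 q)
  · simp only [Matrix.of_apply, map_mul, map_sum]
    by_cases h0 : S.ev q δ = 0
    · simp [h0]
    have hq : ∀ k k', ∑ j, S.val q (s k).1 j * S.val q (u k') j =
        if k = k' then S.ev q δ else 0 := fun k k' => by
      have h1 := congrArg (S.ev q) (hu k k')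
      rw [map_sum, apply_ite (S.ev q), map_zero] at h1
      rw [← h1]
      exact sum_congr rfl fun j _ => (map_mul (S.ev q) _ _).symm
    have hi := indep_of_dual h0 hq
    have hT : Submodule.span ℂ (Set.range fun k => S.val q (s k).1) = T q := by
      refine Submodule.eq_of_le_of_finrank_eq (Submodule.span_le.2 ?_) ?_
      · rintro _ ⟨k, rfl⟩
        exact (s k).2 q
      · rw [finrank_span_eq_card hi, Fintype.card_fin, hτ]
    have h2 := congrFun (expand_of_dual hq (w := w) (by rw [hT]; exact hw)) j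
    simp only [Pi.smul_apply, smul_eq_mul, Finset.sum_apply, NS0.val] at h2
    rw [mul_assoc, h2]
    simp only [mul_sum, sum_mul]
    rw [sum_comm]
    exact sum_congr rfl fun k _ => sum_congr rfl fun l _ => by ring

theorem NS0.const_loc {σ : Type} [Fintype σ] (S : NS0 M n X R RR) (T₀ : Submodule ℂ (σ → ℂ))
    (p : X) : ∃ δ t, S.Prj (fun _ => T₀) p δ t := by
  refine S.loc_of_gen (fun _ => T₀) (fun _ => rfl) (fun q v hv => Submodule.subset_span ?_) p
  have e : ∀ r, S.val r (fun j => algebraMap ℂ R (v j)) = v := fun r =>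
    funext fun j => (S.ev r).commutes (v j)
  exact ⟨fun j => algebraMap ℂ R (v j), fun r => by rw [e]; exact hv, (e q).symm⟩

/-- a constant subbundle -/
def Sub.const {σ : Type} [Fintype σ] (S : NS0 M n X R RR) (T₀ : Submodule ℂ (σ → ℂ)) (d : ℕ) :
    Sub S σ where
  w _ := d
  T _ := T₀
  T_dbl _ _ hv := T₀.smul_mem (2 ^ d) hv
  loc := S.const_loc T₀

theorem NS.sub0_loc (S : NS M n X R RR) (p : X) : ∃ δ t, S.toNS0.Prj S.T p δ t := by
  obtain ⟨F⟩ := S.frame p
  refine ⟨F.δ, F.t, F.ne, F.t_tan, fun q v hv j => ?_⟩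
  have h1 : ∀ l, S.ev q (F.t j l)
      = (if j = l then S.ev q F.δ else 0) - ∑ i, S.ev q (F.b i j) * S.ev q (F.J i l) := fun l => by
    rw [F.t_eq]
    by_cases e : j = l <;> simp [Matrix.sum_apply, e]
  have h2 : ∑ l, (∑ i, S.ev q (F.b i j) * S.ev q (F.J i l)) * v l = 0 := by
    simp only [sum_mul]
    rw [sum_comm]
    refine sum_eq_zero fun i _ => ?_
    rw [← mul_zero (S.ev q (F.b i j)), ← F.J_tan q v hv i, mul_sum]
    exact sum_congr rfl fun l _ => by ring
  simp only [h1, sub_mul, sum_sub_distrib, h2]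
  simp

/-- the conormal bundle, with weights zero -/
def NS.sub0 (S : NS M n X R RR) : Sub S.toNS0 (Fin M) where
  w _ := 0
  T := S.T
  T_dbl p v hv := by simpa [S.T_dbl] using hv
  loc := S.sub0_loc

section two
variable {S : NS M n X R RR} {S' : NS0 M n X' R' RR'}

theorem Sub.res_loc {σ : Type} [Fintype σ] (B : Sub S.toNS0 σ) (N : NS2 S S' Q) (p : X') :
    ∃ δ t, S'.Prj (fun q => B.T (N.pt q)) p δ t := by
  obtain ⟨δ, t, h1, h2, h3⟩ := B.loc (N.pt p)
  refine ⟨N.res δ, t.map N.res, by rw [N.ev_res]; exact h1, fun q l => ?_, fun q v hv j => ?_⟩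
  · simp only [Matrix.map_apply, N.ev_res]
    exact h2 _ l
  · simp only [Matrix.map_apply, N.ev_res]
    exact h3 _ v hv j

/-- the restriction of a subbundle to the subcone -/
def Sub.res {σ : Type} [Fintype σ] (B : Sub S.toNS0 σ) (N : NS2 S S' Q) : Sub S' σ where
  w := B.w
  T q := B.T (N.pt q)
  T_dbl p v hv := by rw [N.pt_dbl]; exact B.T_dbl _ v hv
  loc := B.res_loc N

theorem Sub.isRes (B : Sub S.toNS0 σ) (N : NS2 S S' Q) : N.IsRes B.lam (B.res N).lam := by
  refine ⟨rfl, fun ω hω p v hv => ?_, fun p => ?_⟩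
  · have e : S'.val p (fun i => N.res (ω i)) = S.val (N.pt p) ω :=
      funext fun i => N.ev_res p (ω i)
    rw [e]
    exact hω _ v hv
  · obtain ⟨g, π, h1, h2, h3⟩ := B.lamG_locp (N.pt p)
    refine ⟨g, π, h1, h2, lsub_loc_mem h3, lsub_loc_mem (B := B.res N) fun q y hy => ?_⟩
    have e : (π.map N.res).map (S'.ev q) = π.map (S.ev (N.pt q)) := by
      ext J K
      exact N.ev_res q _
    rw [e, N.ev_res]
    exact h3 _ y hy

theorem NS2.isRes_one (N : NS2 S S' Q) : N.IsRes (Dat.one S.toNS0) (Dat.one S') := by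
  refine ⟨rfl, fun _ _ => trivial, fun p => ⟨1, 1, by simp, fun _ => trivial, fun ω _ => by simp,
    fun ω _ => ?_⟩⟩
  rw [Matrix.map_one _ (map_zero _) (map_one _), map_one, one_smul, Matrix.one_mulVec]

theorem NS2.lamG_loc (N : NS2 S S' Q) (p : X') :
    ∃ (g : R') (π : Matrix (Finset (Fin M)) (Finset (Fin M)) R'), S'.ev p g ≠ 0 ∧
      (∀ ω, π.mulVec ω ∈ S'.lamG) ∧ ∀ ω ∈ S'.lamG, π.mulVec ω = g • ω := by
  have e : S'.lamG = (S.sub0.res N).lamG := by
    ext ω
    constructor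
    · intro h q v hv
      exact h q v (by rw [N.T_pt]; exact hv)
    · intro h q v hv
      rw [N.T_pt] at hv
      exact h q v hv
  rw [e]
  exact (S.sub0.res N).lamG_loc p

/-- the exterior algebra of the conormal bundle on the subcone -/
def NS2.lam (N : NS2 S S' Q) : Dat S' (Finset (Fin M)) where
  w := Finset.card
  G := S'.lamG
  inv := S'.lamG_inv
  loc := N.lamG_loc

theorem NS2.ok_parM (N : NS2 S S' Q) (ε : ℂ) : N.lam.Ok (parM (Fin M) ε) := by
  rw [dat_parM]
  refine Dat.Ok.sum _ fun k _ => Dat.Ok.smul ?_ _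
  exact ⟨fun _ hω => dat_piM_mem S' k hω, fun A B h => dat_diag_wt A B h⟩

end two

end Pool.Agent.HCF
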