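import Pool.Agent.P.MP_f644fa_ag.LSub

/-! The Koszul complex of the diagonal on the mixed square, trivial coefficients. -/

noncomputable section
namespace Pool.Agent.HCF
open Finset Module

variable {M n : ℕ} {X R RR X' R' RR' Q : Type} [CommRing R] [Algebra ℂ R] [CommRing RR]
  [Algebra ℂ RR] [CommRing R'] [Algebra ℂ R'] [CommRing RR'] [Algebra ℂ RR'] [CommRing Q]
  [Algebra ℂ Q]
variable {S : NS M n X R RR} {S' : NS0 M n X' R' RR'} (N : NS2 S S' Q) {I I' : Type} [Fintype I]
  [Fintype I']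

theorem NS2.mu_u (j : Fin M) : N.mu (N.u j) = 0 := by
  rw [NS2.u, map_sub, N.mu_inl, N.mu_inr, N.res_x, sub_self]

theorem NS2.ind2 (p : Submodule ℂ Q) (h : ∀ a b, N.inl a * N.inr b ∈ p) : p = ⊤ := by
  let q : Submodule ℂ Q := Submodule.span ℂ {r | ∃ a b, N.inl a * N.inr b = r}
  have hq : q ≤ p := Submodule.span_le.2 fun _ ⟨a, b, e⟩ => e ▸ h a b
  have hm : ∀ a b, ∀ r ∈ q, r * (N.inl a * N.inr b) ∈ q := fun a b r hr => by
    induction hr using Submodule.span_induction with
    | mem r hr =>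
      obtain ⟨a', b', rfl⟩ := hr
      exact Submodule.subset_span ⟨a' * a, b' * b, by rw [map_mul, map_mul]; ring⟩
    | zero => rw [zero_mul]; exact q.zero_mem
    | add r r' _ _ h1 h2 => rw [add_mul]; exact q.add_mem h1 h2
    | smul c r _ h1 => rw [smul_mul_assoc]; exact q.smul_mem c h1
  refine top_unique fun r _ => hq ?_
  obtain ⟨P, rfl⟩ := N.gen2 r
  induction P using MvPolynomial.induction_on with
  | C c =>
    exact Submodule.subset_span ⟨algebraMap ℂ R c, 1, by simp⟩
  | add P Q h1 h2 => rw [map_add]; exact q.add_mem (h1 trivial) (h2 trivial)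
  | mul_X P j h1 =>
    rw [map_mul, MvPolynomial.aeval_X]
    rcases j with j | j
    · simpa using hm (S.x j) 1 _ (h1 trivial)
    · simpa using hm 1 (S'.x j) _ (h1 trivial)

theorem NS2.lt1_sub (a : R) :
    N.inl a - N.inr (N.res a) ∈ Ideal.span (Set.range N.u) := by
  obtain ⟨P, rfl⟩ := S.gen a
  induction P using MvPolynomial.induction_on with
  | C c => simp
  | add P Q h1 h2 =>
    rw [map_add, map_add, map_add, map_add, add_sub_add_comm]
    exact Ideal.add_mem _ h1 h2
  | mul_X P j h1 =>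
    rw [map_mul, MvPolynomial.aeval_X, map_mul, map_mul, map_mul, N.res_x]
    have h2 := Ideal.add_mem _ (Ideal.mul_mem_right (N.inr (S'.x j)) _ h1)
      (Ideal.mul_mem_left _ (N.inl (MvPolynomial.aeval S.x P))
        (Ideal.subset_span (Set.mem_range_self (f := N.u) j)))
    refine (congrArg (· ∈ Ideal.span (Set.range N.u)) ?_).mp h2
    rw [NS2.u]
    ring

theorem NS2.lt1_sub_mem (r : Q) : r - N.inr (N.mu r) ∈ Ideal.span (Set.range N.u) := by
  have h := N.ind2 (((Ideal.span (Set.range N.u)).restrictScalars ℂ).comap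
    (LinearMap.id - (N.inr.comp N.mu).toLinearMap)) fun a b => by
      change N.inl a * N.inr b - N.inr (N.mu (N.inl a * N.inr b)) ∈ Ideal.span (Set.range N.u)
      rw [map_mul, N.mu_inl, N.mu_inr, map_mul, ← sub_mul]
      exact Ideal.mul_mem_right _ _ (N.lt1_sub a)
  exact (h ▸ Submodule.mem_top : r ∈ ((Ideal.span (Set.range N.u)).restrictScalars ℂ).comap
    (LinearMap.id - (N.inr.comp N.mu).toLinearMap))

theorem NS2.ker_mu {r : Q} (h : N.mu r = 0) : r ∈ Ideal.span (Set.range N.u) := by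
  have := N.lt1_sub_mem r
  rwa [h, map_zero, sub_zero] at this

theorem lt1_bd {σ O : Type} [LinearOrder σ] [Fintype σ] [CommRing O] (u : σ → O)
    {z : Finset σ → O} (hz : iov O u z = 0) {c : O} (hc : c ∈ Ideal.span (Set.range u)) :
    ∃ b, c • z = iov O u b := by
  induction hc using Submodule.span_induction with
  | mem r hr =>
    obtain ⟨j, rfl⟩ := hr
    exact ⟨ep O O j z, by rw [loc_anti, hz, map_zero, sub_zero]⟩
  | zero => exact ⟨0, by rw [zero_smul, map_zero]⟩
  | add r r' _ _ h1 h2 =>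
    obtain ⟨b, hb⟩ := h1
    obtain ⟨b', hb'⟩ := h2
    exact ⟨b + b', by rw [add_smul, map_add, hb, hb']⟩
  | smul c r _ h1 =>
    obtain ⟨b, hb⟩ := h1
    exact ⟨c • b, by rw [map_smul, ← hb, smul_assoc]⟩

theorem NS2.inj (p : X') : ∃ g : R', S'.ev p g ≠ 0 ∧ ∀ z : Finset (Fin M) → Q,
    iov Q N.u z = 0 → (∀ J, N.mu (z J) = 0) → ∃ b, N.inr g • z = iov Q N.u b := by
  obtain ⟨F, a, D, ha, hm, hD, hD0⟩ := N.frame p
  have hDu : ∀ l j, D l (N.u j) = N.inl (F.t j l) := fun l j => by
    rw [NS2.u, map_sub, hD, hD0, sub_zero]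
  have ha' : ∀ i, ∑ j, N.u j * a i j = 0 := ha
  have := noeth N.gen2
  obtain ⟨k, hk⟩ := loc_thm N.u (N.inl F.δ) D (by
    ext j l
    have h := congrArg N.inl (congrFun (congrFun F.tt j) l)
    simpa [Matrix.mul_apply, hDu] using h) fun j => by
      have h1 : ∀ i, ∑ l, N.u l * N.inl (F.J i l) ∈ Ideal.span (Set.range N.u) ^ 2 := fun i => by
        rw [← sub_zero (∑ l, _), ← ha' i, ← sum_sub_distrib, sq]
        refine Ideal.sum_mem _ fun l _ => ?_
        rw [← mul_sub]
        exact Ideal.mul_mem_mul (Ideal.subset_span ⟨l, rfl⟩)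
          (N.ker_mu (by rw [map_sub, N.mu_inl, hm, sub_self]))
      have h2 : ∑ l, N.u l * D l (N.u j) - N.inl F.δ * N.u j =
          -∑ i, N.inl (F.b i j) * ∑ l, N.u l * N.inl (F.J i l) := by
        simp only [hDu, F.t_eq, Matrix.sub_apply, Matrix.smul_apply, Matrix.sum_apply,
          Matrix.of_apply, Matrix.one_apply, smul_eq_mul, mul_ite, mul_one, mul_zero, map_sub,
          map_sum, map_mul, mul_sub, sum_sub_distrib, apply_ite N.inl, map_zero, sum_ite_eq,
          mem_univ, if_true, mul_sum]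
        rw [sum_comm, mul_comm (N.u j), sub_sub_cancel_left]
        exact congrArg Neg.neg (sum_congr rfl fun i _ => sum_congr rfl fun l _ => by ring)
      rw [h2]
      exact neg_mem (Ideal.sum_mem _ fun i _ => Ideal.mul_mem_left _ _ (h1 i))
  refine ⟨N.res (F.δ ^ k), by rw [N.ev_res, map_pow]; exact pow_ne_zero _ F.ne,
    fun z h1 h2 => ?_⟩
  obtain ⟨b, hb⟩ := hk z h1 fun J => N.ker_mu (h2 J)
  obtain ⟨b', hb'⟩ := lt1_bd N.u h1 (N.lt1_sub (F.δ ^ k))
  refine ⟨b - b', ?_⟩
  rw [map_sub, ← hb, ← hb', ← sub_smul, map_pow N.inl, sub_sub_cancel]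

theorem NS2.lt1_iov_t {p : X} (F : Frame S.toNS0 p) {ω : Finset (Fin M) → R'} (h : ω ∈ S'.lamG)
    (l : Fin M) : iov R' (fun j => N.res (F.t j l)) ω = 0 :=
  funext fun J => S'.sep _ fun q =>
    (congrFun (dat0_nat S' q _ ω) J).trans (congrFun (h q _ (by
      rw [N.T_pt]
      simpa only [N.ev_res] using F.t_tan (N.pt q) l)) J)

theorem NS2.lt1_num {p : X} (F : Frame S.toNS0 p) {γ : Finset (Fin M) → R'} (h : γ ∈ S'.lamG) :
    N.res F.δ • num R' R' γ =
      ∑ i, epv R' (fun j => N.res (F.J i j)) (iov R' (fun j => N.res (F.b i j)) γ) := by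
  have h0 : (Matrix.of fun j l => N.res (F.t j l)) = N.res F.δ • (1 : Matrix (Fin M) (Fin M) R') -
      ∑ i, Matrix.of fun j l => N.res (F.b i j) * N.res (F.J i l) := by
    ext j l
    rw [F.t_eq]
    by_cases e : j = l <;> simp [Matrix.sum_apply, e]
  have h1 : kt R' (Matrix.of fun j l => N.res (F.t j l)) γ = 0 := by
    simp only [kt, LinearMap.sum_apply, Module.End.mul_apply, Matrix.of_apply,
      N.lt1_iov_t F h, map_zero, sum_const_zero]
  rw [h0, kt_sub, kt_smul, kt_one, kt_sum, LinearMap.sub_apply, sub_eq_zero] at h1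
  simpa only [kt_rank_one, LinearMap.sum_apply, Module.End.mul_apply, LinearMap.smul_apply] using h1

theorem NS2.lt1_lev {p : X} (F : Frame S.toNS0 p) (a : Fin F.c → Fin M → Q)
    (ha : ∀ i, ∑ j, N.u j * a i j = 0) (hm : ∀ i j, N.mu (a i j) = N.res (F.J i j)) (r : ℕ) :
    ∀ γ ∈ S'.lamG, Lev r γ → ∃ z : Finset (Fin M) → Q, iov Q N.u z = 0 ∧
      ∀ J, N.mu (z J) = N.res F.δ ^ r * γ J := by
  induction r with
  | zero =>
    exact fun γ _ h => ⟨fun J => N.inr (γ J),
      Lev.iov_zero (fun J hJ => by rw [h J hJ, map_zero]) _, fun J => by simp [N.mu_inr]⟩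
  | succ r ih =>
    intro γ hγ h
    have h1 := NS0.diag1_wt_mem hγ fun k => (k : ℂ)⁻¹
    set γ' : Finset (Fin M) → R' := fun J => (J.card : ℂ)⁻¹ • γ J with hγ'
    have h2 : Lev (r + 1) γ' := fun J hJ => by simp [hγ', h J hJ]
    choose z hz hz' using fun i => ih _ (NS0.diag1_iov_mem h1 fun j => N.res (F.b i j))
      (h2.iov fun j => N.res (F.b i j))
    refine ⟨(fun J => N.inr (N.res F.δ ^ (r + 1) * pik R' R' 0 γ J)) + ∑ i, epv Q (a i) (z i), ?_,
      fun J => ?_⟩
    · rw [map_add, map_sum, Lev.iov_zero (fun J hJ => by simp [pik_apply, hJ.ne']) _, zero_add]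
      refine sum_eq_zero fun i _ => ?_
      have h3 := LinearMap.congr_fun (iov_epv (N := Q) N.u (a i)) (z i)
      rwa [LinearMap.add_apply, Module.End.mul_apply, Module.End.mul_apply, hz, map_zero, add_zero,
        ha, zero_smul] at h3
    · have h3 : ∀ i, N.mu (epv Q (a i) (z i) J) = N.res F.δ ^ r *
          epv R' (fun j => N.res (F.J i j)) (iov R' (fun j => N.res (F.b i j)) γ') J := fun i => by
        have h4 := epv_nat N.mu.toAddMonoidHom (a := a i) (a' := fun j => N.res (F.J i j))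
          (fun j v => by rw [← hm]; exact map_mul N.mu _ _) (z i)
        have h5 : (fun J => N.mu.toAddMonoidHom (z i J)) =
            N.res F.δ ^ r • iov R' (fun j => N.res (F.b i j)) γ' := funext (hz' i)
        rw [h5, map_smul] at h4
        exact congrFun h4 J
      have h6 := congrFun (N.lt1_num F h1) J
      rw [Finset.sum_apply, Pi.smul_apply, num_apply] at h6
      rw [Pi.add_apply, Finset.sum_apply, map_add, map_sum, N.mu_inr,
        sum_congr rfl fun i _ => h3 i, ← mul_sum, ← h6, pik_apply]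
      by_cases hJ : J.card = 0
      · simp [hJ]
      · have hc : (J.card : ℂ) ≠ 0 := Nat.cast_ne_zero.2 hJ
        rw [if_neg hJ, hγ', ← Nat.cast_smul_eq_nsmul ℂ, smul_inv_smul₀ hc, smul_eq_mul]
        ring

theorem NS2.surj (p : X') : ∃ g : R', S'.ev p g ≠ 0 ∧ ∀ γ ∈ S'.lamG,
    ∃ z : Finset (Fin M) → Q, iov Q N.u z = 0 ∧ ∀ J, N.mu (z J) = g * γ J := by
  obtain ⟨F, a, D, ha, hm, -, -⟩ := N.frame p
  refine ⟨N.res F.δ ^ Fintype.card (Fin M), ?_, fun γ hγ =>
    N.lt1_lev F a ha hm _ γ hγ (lev_card _)⟩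
  rw [map_pow, N.ev_res]
  exact pow_ne_zero _ F.ne

theorem NS2.mu_mem {z : Finset (Fin M) → Q} (hz : iov Q N.u z = 0) :
    (fun J => N.mu (z J)) ∈ S'.lamG := by
  intro p v hv
  obtain ⟨F, a, D, -, -, hD, hD0⟩ := N.frame p
  have hDu : ∀ l j, D l (N.u j) = N.inl (F.t j l) := fun l j => by
    rw [NS2.u, map_sub, hD, hD0, sub_zero]
  have h0 : ∀ l, iov R' (fun j => N.res (F.t j l)) (fun J => N.mu (z J)) = 0 := fun l => by
    funext J
    have h1 := congrArg (fun r => N.mu (D l r)) (congrFun hz J)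
    simp only [diag1_apply, map_sum, smul_eq_mul, Derivation.leibniz, map_add, map_mul, NS2.mu_u,
      zero_mul, zero_add, hDu, N.mu_inl, Pi.zero_apply, map_zero] at h1
    rw [diag1_apply, Pi.zero_apply, ← h1]
    refine sum_congr rfl fun j _ => ?_
    rw [smul_eq_mul, mul_comm]
    exact congrArg (· * N.res (F.t j l))
      (congrFun (io_nat (R' := R') N.mu.toAddMonoidHom j z) J).symm
  rw [N.T_pt] at hv
  refine (smul_eq_zero.1 (?_ : S.ev (N.pt p) F.δ •
    iov ℂ v (fun J => S'.ev p (N.mu (z J))) = 0)).resolve_left F.ne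
  have e : S.ev (N.pt p) F.δ • v = ∑ l, v l • fun j => S'.ev p (N.res (F.t j l)) := by
    funext j
    have h1 : ∀ l, S'.ev p (N.res (F.t j l)) = (if j = l then S.ev (N.pt p) F.δ else 0) -
        ∑ i, S.ev (N.pt p) (F.b i j) * S.ev (N.pt p) (F.J i l) := fun l => by
      rw [N.ev_res, F.t_eq]
      by_cases e : j = l <;> simp [Matrix.sum_apply, e]
    have h2 : ∑ l, v l * ∑ i, S.ev (N.pt p) (F.b i j) * S.ev (N.pt p) (F.J i l) = 0 := by
      simp only [mul_sum]
      rw [sum_comm]
      refine sum_eq_zero fun i _ => ?_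
      rw [← mul_zero (S.ev (N.pt p) (F.b i j)), ← F.J_tan (N.pt p) v hv i, mul_sum]
      exact sum_congr rfl fun l _ => by ring
    simp only [Finset.sum_apply, Pi.smul_apply, smul_eq_mul, h1, mul_sub, sum_sub_distrib, h2]
    simp [mul_comm]
  rw [← LinearMap.smul_apply, ← iov_smul, e, iov_sum, LinearMap.sum_apply]
  refine sum_eq_zero fun l _ => ?_
  rw [iov_smul, LinearMap.smul_apply, ← dat0_nat, h0 l]
  simp only [Pi.zero_apply, map_zero]
  exact smul_zero _

theorem NS2.tensInj (I I' : Type) : TensInj (N.β I I') := by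
  classical
  intro ι ι' f g hf hg
  refine linearIndependent_iff''.2 fun s c hc h q => ?_
  by_contra hq
  have hs : q ∈ s := by_contra fun h => hq (hc q h)
  rw [sum_subset subset_product (fun q _ h => by rw [hc q h, zero_smul]), sum_product_right] at h
  refine hq (linearIndependent_iff'.1 hf _ (fun i => c (i, q.2)) ?_ q.1 (mem_image_of_mem _ hs))
  funext A
  refine S.sep _ fun p => ?_
  have h1 := linearIndependent_iff'.1 hg (s.image Prod.snd)
    (fun i' => ∑ i ∈ s.image Prod.fst, c (i, i') * S.ev p (f i A)) (by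
      funext B
      have h2 := congrArg (N.sl p) (congrFun h (A, B))
      simp only [Finset.sum_apply, Pi.smul_apply, map_sum, map_smul, NS2.β_apply, map_mul,
        N.sl_inl, N.sl_inr, Pi.zero_apply, map_zero, ← Algebra.smul_def, smul_smul] at h2
      simpa only [Finset.sum_apply, Pi.smul_apply, sum_smul, Pi.zero_apply] using h2)
    q.2 (mem_image_of_mem _ hs)
  simpa only [Finset.sum_apply, Pi.smul_apply, map_sum, map_smul, smul_eq_mul] using h1

end Pool.Agent.HCF
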