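import Pool.Agent.P.MP_f644fa_ag.LT1

/-! The Koszul complex of the diagonal on the mixed square, with coefficients, locally. -/

noncomputable section
namespace Pool.Agent.HCF
open Finset Module

variable {M n : ℕ} {X R RR X' R' RR' Q : Type} [CommRing R] [Algebra ℂ R] [CommRing RR]
  [Algebra ℂ RR] [CommRing R'] [Algebra ℂ R'] [CommRing RR'] [Algebra ℂ RR'] [CommRing Q]
  [Algebra ℂ Q]
variable {S : NS M n X R RR} {S' : NS0 M n X' R' RR'} (N : NS2 S S' Q) {I I' : Type} [Fintype I]
  [Fintype I']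

theorem lt2_β_mem (D : Dat S.toNS0 I) (D' : Dat S' I') {ω : I → R} {η : I' → R'}
    (hω : ω ∈ D.G) (hη : η ∈ D'.G) : N.β I I' ω η ∈ N.MM D D' :=
  Submodule.subset_span ⟨ω, hω, η, hη, rfl⟩

theorem lt2_mem_KK (D : Dat S.toNS0 I) (D' : Dat S' I')
    {z : Finset (Fin M) → I × I' → Q} : z ∈ N.KK D D' ↔ ∀ J, z J ∈ N.MM D D' := by
  simp [NS2.KK, Submodule.mem_pi]

theorem lt2_ep (D : Dat S.toNS0 I) (D' : Dat S' I')
    {z : Finset (Fin M) → I × I' → Q} (hz : z ∈ N.KK D D') (j : Fin M) :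
    ep Q (I × I' → Q) j z ∈ N.KK D D' := by
  rw [lt2_mem_KK] at hz ⊢
  intro J
  rw [ep_apply]
  split_ifs
  · exact zsmul_mem (hz _) _
  · exact Submodule.zero_mem _

theorem lt2_io (D : Dat S.toNS0 I) (D' : Dat S' I')
    {z : Finset (Fin M) → I × I' → Q} (hz : z ∈ N.KK D D') (j : Fin M) :
    io Q (I × I' → Q) j z ∈ N.KK D D' := by
  rw [lt2_mem_KK] at hz ⊢
  intro J
  rw [io_apply]
  split_ifs
  · exact Submodule.zero_mem _
  · exact zsmul_mem (hz _) _

theorem lt2_nat {V : Type} [AddCommGroup V] [Module Q V] (π : V →ₗ[Q] V) (u : Fin M → Q)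
    (z : Finset (Fin M) → V) :
    iov V u (fun J => π (z J)) = fun J => π (iov V u z J) :=
  (iov_nat π.toAddMonoidHom (fun j v => π.map_smul (u j) v) z).symm

theorem lt2_comp {J : Type} (u : Fin M → Q) (z : Finset (Fin M) → J → Q) (q : J) :
    (fun A => iov (J → Q) u z A q) = iov Q u fun A => z A q :=
  iov_nat (Pi.evalAddMonoidHom (fun _ : J => Q) q) (fun _ _ => rfl) z

theorem NS2.MM_eq (D : Dat S.toNS0 I) (D' : Dat S' I') :
    (N.MM D D').restrictScalars ℂ = Submodule.map₂ (N.β I I') D.V D'.V := by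
  apply le_antisymm
  · have key : ∀ r : Q, ∀ y ∈ Submodule.map₂ (N.β I I') D.V D'.V,
        r • y ∈ Submodule.map₂ (N.β I I') D.V D'.V := by
      let p : Submodule ℂ Q :=
        { carrier := {r | ∀ y ∈ Submodule.map₂ (N.β I I') D.V D'.V,
            r • y ∈ Submodule.map₂ (N.β I I') D.V D'.V}
          add_mem' := fun ha hb y hy => by
            rw [add_smul]; exact Submodule.add_mem _ (ha y hy) (hb y hy)
          zero_mem' := fun y _ => by rw [zero_smul]; exact Submodule.zero_mem _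
          smul_mem' := fun c r hr y hy => by
            rw [smul_assoc]; exact Submodule.smul_mem _ c (hr y hy) }
      have hp : p = ⊤ := by
        apply N.ind2
        intro a b y hy
        have hle : Submodule.map₂ (N.β I I') D.V D'.V ≤
            (Submodule.map₂ (N.β I I') D.V D'.V).comap
              ((LinearMap.lsmul Q (I × I' → Q) (N.inl a * N.inr b)).restrictScalars ℂ) := by
          rw [Submodule.map₂_le]
          intro ω hω η hη
          have e : (N.inl a * N.inr b) • N.β I I' ω η = N.β I I' (a • ω) (b • η) := by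
            funext q
            simp only [Pi.smul_apply, NS2.β_apply, smul_eq_mul, map_mul]
            ring
          show (N.inl a * N.inr b) • N.β I I' ω η ∈ Submodule.map₂ (N.β I I') D.V D'.V
          rw [e]
          exact Submodule.apply_mem_map₂ _ (D.G.smul_mem a hω) (D'.G.smul_mem b hη)
        exact hle hy
      intro r
      have : r ∈ p := hp ▸ Submodule.mem_top
      exact this
    intro y hy
    have hy' : y ∈ Submodule.span Q {y | ∃ ω ∈ D.G, ∃ η ∈ D'.G, N.β I I' ω η = y} := hy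
    clear hy
    induction hy' using Submodule.span_induction with
    | mem x hx =>
      obtain ⟨ω, hω, η, hη, rfl⟩ := hx
      exact Submodule.apply_mem_map₂ _ hω hη
    | zero => exact Submodule.zero_mem _
    | add x y _ _ hx hy => exact Submodule.add_mem _ hx hy
    | smul r x _ hx => exact key r x hx
  · rw [Submodule.map₂_le]
    intro ω hω η hη
    exact lt2_β_mem N D D' hω hη

theorem NS2.KK_kill (D : Dat S.toNS0 I) (D' : Dat S' I') {r : Q} (hr : N.mu r = 0)
    {z : Finset (Fin M) → I × I' → Q} (hz : z ∈ N.KK D D') (h0 : iov (I × I' → Q) N.u z = 0) :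
    ∃ b ∈ N.KK D D', iov (I × I' → Q) N.u b = r • z := by
  obtain ⟨c, hc⟩ := Ideal.mem_span_range_iff_exists_fun.1 (N.ker_mu hr)
  refine ⟨epv (I × I' → Q) c z, ?_, ?_⟩
  · rw [epv, LinearMap.sum_apply]
    exact Submodule.sum_mem _ fun j _ => Submodule.smul_mem _ _ (lt2_ep N D D' hz j)
  · have h := LinearMap.congr_fun (iov_epv (N := I × I' → Q) N.u c) z
    rw [LinearMap.add_apply, Module.End.mul_apply, Module.End.mul_apply, h0, map_zero, add_zero,
      LinearMap.smul_apply, Module.End.one_apply] at h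
    rw [h, ← hc]
    exact congrArg (· • z) (sum_congr rfl fun j _ => mul_comm _ _)

theorem NS2.KK_d (D : Dat S.toNS0 I) (D' : Dat S' I') {z : Finset (Fin M) → I × I' → Q}
    (hz : z ∈ N.KK D D') : iov (I × I' → Q) N.u z ∈ N.KK D D' := by
  rw [iov, LinearMap.sum_apply]
  exact Submodule.sum_mem _ fun j _ => Submodule.smul_mem _ _ (lt2_io N D D' hz j)

variable {N} {D : Dat S.toNS0 I} {E : Dat S' I}

theorem NS2.IsRes.mu_MM (h : N.IsRes D E) (D' : Dat S' I') {y : I × I' → Q}
    (hy : y ∈ N.MM D D') : (fun q => N.mu (y q)) ∈ E.tG D' := by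
  have hy' : y ∈ Submodule.span Q {y | ∃ ω ∈ D.G, ∃ η ∈ D'.G, N.β I I' ω η = y} := hy
  clear hy
  induction hy' using Submodule.span_induction with
  | mem x hx =>
    obtain ⟨ω, hω, η, hη, rfl⟩ := hx
    refine ⟨fun B => ?_, fun A => ?_⟩
    · have e : (fun A => N.mu (N.β I I' ω η (A, B))) = η B • fun A => N.res (ω A) := by
        funext A
        simp only [NS2.β_apply, map_mul, N.mu_inl, N.mu_inr, Pi.smul_apply, smul_eq_mul]
        ring
      show (fun A => N.mu (N.β I I' ω η (A, B))) ∈ E.G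
      rw [e]; exact E.G.smul_mem _ (h.map ω hω)
    · have e : (fun B => N.mu (N.β I I' ω η (A, B))) = N.res (ω A) • η := by
        funext B
        simp only [NS2.β_apply, map_mul, N.mu_inl, N.mu_inr, Pi.smul_apply, smul_eq_mul]
      show (fun B => N.mu (N.β I I' ω η (A, B))) ∈ D'.G
      rw [e]; exact D'.G.smul_mem _ hη
  | zero =>
    have e : (fun q => N.mu ((0 : I × I' → Q) q)) = 0 := by funext q; simp
    rw [e]; exact Submodule.zero_mem _
  | add x y _ _ hx hy =>
    have e : (fun q => N.mu ((x + y) q)) = (fun q => N.mu (x q)) + fun q => N.mu (y q) := by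
      funext q; simp
    rw [e]; exact Submodule.add_mem _ hx hy
  | smul r x _ hx =>
    have e : (fun q => N.mu ((r • x) q)) = N.mu r • fun q => N.mu (x q) := by
      funext q; simp
    rw [e]; exact Submodule.smul_mem _ _ hx

theorem lt2_loc (h : N.IsRes D E) (D' : Dat S' I') (p : X') :
    ∃ (g : R) (g' : R') (π : (I × I' → Q) →ₗ[Q] I × I' → Q), S.ev (N.pt p) g ≠ 0 ∧
      S'.ev p g' ≠ 0 ∧ (∀ y, π y ∈ N.MM D D') ∧
      (∀ y ∈ N.MM D D', π y = (N.inl g * N.inr g') • y) ∧
      ∀ y, (fun q => N.mu (y q)) ∈ E.tG D' → ∀ q, N.mu (π y q) = N.res g * g' * N.mu (y q) := by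
  classical
  obtain ⟨g, π₁, hg, h1, h1', h1''⟩ := h.loc p
  obtain ⟨g', π₂, hg', h2, h2'⟩ := D'.loc p
  let P : Matrix (I × I') (I × I') Q :=
    Matrix.of fun q q' => N.inl (π₁ q.1 q'.1) * N.inr (π₂ q.2 q'.2)
  have hP : ∀ y q, P.mulVecLin y q =
      ∑ q', N.inl (π₁ q.1 q'.1) * N.inr (π₂ q.2 q'.2) * y q' := fun y q => rfl
  refine ⟨g, g', P.mulVecLin, hg, hg', fun y => ?_, fun y hy => ?_, fun y hy q => ?_⟩
  · have e : P.mulVecLin y = ∑ q' : I × I', y q' • N.β I I' (π₁.mulVec (Pi.single q'.1 1))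
        (π₂.mulVec (Pi.single q'.2 1)) := by
      funext q
      rw [hP, Finset.sum_apply]
      refine sum_congr rfl fun q' _ => ?_
      simp only [Pi.smul_apply, NS2.β_apply, Matrix.mulVec_single_one, Matrix.col_apply,
        smul_eq_mul]
      ring
    rw [e]
    exact Submodule.sum_mem _ fun q' _ =>
      Submodule.smul_mem _ _ (lt2_β_mem N D D' (h1 _) (h2 _))
  · have hy' : y ∈ Submodule.span Q {y | ∃ ω ∈ D.G, ∃ η ∈ D'.G, N.β I I' ω η = y} := hy
    clear hy
    induction hy' using Submodule.span_induction with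
    | mem x hx =>
      obtain ⟨ω, hω, η, hη, rfl⟩ := hx
      funext q
      have e1 : ∑ A, π₁ q.1 A * ω A = g * ω q.1 := congrFun (h1' ω hω) q.1
      have e2 : ∑ B, π₂ q.2 B * η B = g' * η q.2 := congrFun (h2' η hη) q.2
      have e3 : N.inl (g * ω q.1) * N.inr (g' * η q.2) =
          ∑ q' : I × I', N.inl (π₁ q.1 q'.1) * N.inr (π₂ q.2 q'.2) * N.β I I' ω η q' := by
        rw [← e1, ← e2, map_sum, map_sum, sum_mul_sum, Fintype.sum_prod_type]
        refine sum_congr rfl fun A _ => sum_congr rfl fun B _ => ?_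
        simp only [NS2.β_apply, map_mul]
        ring
      rw [hP, ← e3]
      simp only [Pi.smul_apply, NS2.β_apply, map_mul, smul_eq_mul]
      ring
    | zero => simp
    | add x y _ _ hx hy => rw [map_add, hx, hy, smul_add]
    | smul r x _ hx => rw [map_smul, hx, smul_comm]
  · have e2 : ∀ A, ∑ B, π₂ q.2 B * N.mu (y (A, B)) = g' * N.mu (y (A, q.2)) := fun A =>
      congrFun (h2' _ (hy.2 A)) q.2
    have e1 : ∑ A, N.res (π₁ q.1 A) * N.mu (y (A, q.2)) = N.res g * N.mu (y (q.1, q.2)) :=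
      congrFun (h1'' _ (hy.1 q.2)) q.1
    rw [hP, map_sum, Fintype.sum_prod_type]
    have e3 : ∀ A, ∑ B, N.mu (N.inl (π₁ q.1 A) * N.inr (π₂ q.2 B) * y (A, B)) =
        g' * (N.res (π₁ q.1 A) * N.mu (y (A, q.2))) := by
      intro A
      rw [mul_left_comm, ← e2, mul_sum]
      refine sum_congr rfl fun B _ => ?_
      simp only [map_mul, N.mu_inl, N.mu_inr]
      ring
    simp only [e3]
    rw [← mul_sum, e1]
    ring

theorem NS2.IsRes.loc_inj (h : N.IsRes D E) (D' : Dat S' I') (p : X') : ∃ g : R', S'.ev p g ≠ 0 ∧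
    ∀ z ∈ N.KK D D', iov (I × I' → Q) N.u z = 0 → N.muh _ z = 0 →
      ∃ b ∈ N.KK D D', iov (I × I' → Q) N.u b = N.inr g • z := by
  obtain ⟨δ, hδ, hk⟩ := N.inj p
  obtain ⟨g, g', π, hg, hg', h1, h2, -⟩ := lt2_loc h D' p
  refine ⟨δ * N.res g * g', ?_, fun z hz h0 hm => ?_⟩
  · rw [map_mul, map_mul, N.ev_res]
    exact mul_ne_zero (mul_ne_zero hδ hg) hg'
  · have hq : ∀ q : I × I', ∃ b, N.inr δ • (fun J => z J q) = iov Q N.u b := by
      intro q
      refine hk _ ?_ fun J => congrFun hm (J, q)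
      rw [← lt2_comp, h0]
      rfl
    choose b hb using hq
    have hb' : iov (I × I' → Q) N.u (fun J q => b q J) = N.inr δ • z := by
      funext J q
      have h := congrFun (lt2_comp N.u (fun J q => b q J) q) J
      rw [h]
      exact (congrFun (hb q) J).symm
    obtain ⟨b', hb'1, hb'2⟩ := N.KK_kill D D'
      (r := N.inr δ * N.inr g' * (N.inr (N.res g) - N.inl g))
      (by rw [map_mul, map_sub, N.mu_inl, N.mu_inr (N.res g), sub_self, mul_zero]) hz h0
    refine ⟨(fun J => π fun q => b q J) + b', Submodule.add_mem _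
      ((lt2_mem_KK N D D').2 fun J => h1 _) hb'1, ?_⟩
    rw [map_add, hb'2, lt2_nat π N.u fun J q => b q J, hb']
    funext J
    rw [Pi.add_apply, Pi.smul_apply, Pi.smul_apply, Pi.smul_apply, map_smul,
      h2 _ ((lt2_mem_KK N D D').1 hz J), smul_smul, ← add_smul, map_mul, map_mul]
    exact congrArg (· • z J) (by ring)

theorem NS2.IsRes.loc_surj (h : N.IsRes D E) (D' : Dat S' I') (p : X') : ∃ g : R', S'.ev p g ≠ 0 ∧
    ∀ γ ∈ (N.lam.tensor (E.tensor D')).G,
      ∃ z ∈ N.KK D D', iov (I × I' → Q) N.u z = 0 ∧ N.muh _ z = g • γ := by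
  obtain ⟨δ, hδ, hk⟩ := N.surj p
  obtain ⟨g, g', π, hg, hg', h1, -, h3⟩ := lt2_loc h D' p
  refine ⟨N.res g * g' * δ, ?_, fun γ hγ => ?_⟩
  · rw [map_mul, map_mul, N.ev_res]
    exact mul_ne_zero (mul_ne_zero hg hg') hδ
  · have hq : ∀ q : I × I', ∃ z : Finset (Fin M) → Q, iov Q N.u z = 0 ∧
        ∀ J, N.mu (z J) = δ * γ (J, q) := fun q => hk (fun J => γ (J, q)) (hγ.1 q)
    choose z hz hz' using hq
    have h0 : iov (I × I' → Q) N.u (fun J q => z q J) = 0 := by
      funext J q
      have h := congrFun (lt2_comp N.u (fun J q => z q J) q) J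
      rw [h]
      exact congrFun (hz q) J
    refine ⟨fun J => π fun q => z q J, (lt2_mem_KK N D D').2 fun J => h1 _, ?_, ?_⟩
    · rw [lt2_nat π N.u fun J q => z q J, h0]
      funext J
      exact π.map_zero
    · funext W
      have hm : (fun q => N.mu (z q W.1)) ∈ E.tG D' := by
        have e : (fun q => N.mu (z q W.1)) = δ • fun q => γ (W.1, q) := by
          funext q; exact hz' q W.1
        rw [e]
        exact Submodule.smul_mem _ _ (hγ.2 W.1)
      have h := h3 (fun q => z q W.1) hm W.2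
      show N.mu (π (fun q => z q W.1) W.2) = N.res g * g' * δ * γ W
      rw [h, hz', mul_assoc (N.res g * g')]

theorem NS2.IsRes.muh_mem (h : N.IsRes D E) (D' : Dat S' I') {z : Finset (Fin M) → I × I' → Q}
    (hz : z ∈ N.KK D D') (h0 : iov (I × I' → Q) N.u z = 0) :
    N.muh _ z ∈ (N.lam.tensor (E.tensor D')).G := by
  refine ⟨fun q => ?_, fun J => h.mu_MM D' ((lt2_mem_KK N D D').1 hz J)⟩
  refine N.mu_mem (z := fun J => z J q) ?_
  rw [← lt2_comp, h0]
  rfl

end Pool.Agent.HCF
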