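import Pool.Agent.P.MP_f644fa_ag.LT2

/-! The homology of the Koszul complex of the diagonal on the mixed square in large degrees. -/

noncomputable section
namespace Pool.Agent.HCF
open Finset Module

variable {M n : ℕ} {X R RR X' R' RR' Q : Type} [CommRing R] [Algebra ℂ R] [CommRing RR]
  [Algebra ℂ RR] [CommRing R'] [Algebra ℂ R'] [CommRing RR'] [Algebra ℂ RR'] [CommRing Q]
  [Algebra ℂ Q]
variable {S : NS M n X R RR} {S' : NS0 M n X' R' RR'} (N : NS2 S S' Q) {I I' : Type} [Fintype I]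
  [Fintype I']

theorem NS2.s1_res (a : R) : S'.s1 (N.res a) = N.res (S.s1 a) := by
  rw [← sub_eq_zero]
  refine S'.sep _ fun p => ?_
  rw [map_sub, S'.ev_dbl, N.ev_res, N.ev_res, N.pt_dbl, S.ev_dbl, sub_self]

theorem lt3_s2_u (j : Fin M) : N.s2 (N.u j) = 2 * N.u j := by
  rw [NS2.u, map_sub, N.s2_inl, N.s2_inr, S.s1_x, S'.s1_x, map_mul, map_mul, map_ofNat, map_ofNat,
    mul_sub]

theorem lt3_mu_s2 (r : Q) : N.mu (N.s2 r) = S'.s1 (N.mu r) := by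
  have h := N.ind2 (LinearMap.eqLocus (N.mu.comp N.s2).toLinearMap (S'.s1.comp N.mu).toLinearMap)
    fun a b => by
      show N.mu (N.s2 _) = S'.s1 (N.mu _)
      simp only [map_mul, N.s2_inl, N.s2_inr, N.mu_inl, N.mu_inr, N.s1_res]
  have h1 : r ∈ LinearMap.eqLocus (N.mu.comp N.s2).toLinearMap (S'.s1.comp N.mu).toLinearMap :=
    h.symm ▸ Submodule.mem_top
  exact h1

theorem lt3_muh_smul {K : Type} (r : Q) (z : Finset (Fin M) → K → Q) :
    N.muh K (r • z) = N.mu r • N.muh K z :=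
  funext fun q => map_mul N.mu r (z q.1 q.2)

theorem lt3_muh_d {K : Type} (z : Finset (Fin M) → K → Q) : N.muh K (N.dd K z) = 0 := by
  funext q
  show N.mu (iov (K → Q) N.u z q.1 q.2) = 0
  rw [diag3_iov, map_sum]
  exact sum_eq_zero fun j _ => by rw [map_mul, N.mu_u, zero_mul]

theorem NS2.dd_sK (w : I → ℕ) (z : Finset (Fin M) → I → Q) :
    N.dd I (N.sK w z) = N.sK w (N.dd I z) := by
  funext J q
  show iov (I → Q) N.u (N.sK w z) J q =
    (2 : ℂ) ^ J.card • (2 : ℂ) ^ w q • N.s2 (iov (I → Q) N.u z J q)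
  rw [diag3_iov, diag3_iov, map_sum, smul_sum, smul_sum]
  refine sum_congr rfl fun j _ => ?_
  by_cases h : j ∈ J
  · simp [h]
  · rw [if_neg h, if_neg h]
    show N.u j * (sg j J • (2 : ℂ) ^ (insert j J).card • (2 : ℂ) ^ w q • N.s2 (z (insert j J) q)) = _
    rw [card_insert_of_notMem h, map_mul, lt3_s2_u, map_zsmul, pow_succ]
    simp only [Algebra.smul_def, map_mul, map_pow, map_ofNat]
    ring

theorem NS2.muh_sK (w : I → ℕ) (z : Finset (Fin M) → I → Q) :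
    N.muh I (N.sK w z) = S'.sc (fun q => q.1.card + w q.2) (N.muh I z) := by
  funext q
  show N.mu ((2 : ℂ) ^ q.1.card • (2 : ℂ) ^ w q.2 • N.s2 (z q.1 q.2)) =
    (2 : ℂ) ^ (q.1.card + w q.2) • S'.s1 (N.mu (z q.1 q.2))
  rw [map_smul, map_smul, lt3_mu_s2, smul_smul, pow_add]

theorem NS2.KK_eq (D : Dat S.toNS0 I) (D' : Dat S' I') :
    (N.KK D D').restrictScalars ℂ =
      Submodule.pi Set.univ fun _ => (N.MM D D').restrictScalars ℂ := rfl

variable {N} {D : Dat S.toNS0 I} {E : Dat S' I}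

theorem NS2.IsRes.grd_MM (h : N.IsRes D E) (D' : Dat S' I') :
    Grd (N.sc2 (E.tensor D').w) ((N.MM D D').restrictScalars ℂ) := by
  rw [N.MM_eq D D']
  refine Grd.map₂ _ D.grd D'.grd fun a _ b _ => funext fun q => ?_
  show (2 : ℂ) ^ (E.w q.1 + D'.w q.2) • N.s2 (N.inl (a q.1) * N.inr (b q.2)) =
    N.inl ((2 : ℂ) ^ D.w q.1 • S.s1 (a q.1)) * N.inr ((2 : ℂ) ^ D'.w q.2 • S'.s1 (b q.2))
  rw [map_mul, N.s2_inl, N.s2_inr, map_smul, map_smul, smul_mul_smul_comm, pow_add, h.w]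

theorem NS2.IsRes.grd_KK (h : N.IsRes D E) (D' : Dat S' I') :
    Grd (N.sK (E.tensor D').w) ((N.KK D D').restrictScalars ℂ) :=
  Grd.pi Finset.card (h.grd_MM D')

theorem NS2.IsRes.core_inj (h : N.IsRes D E) (D' : Dat S' I') : ∃ m₀ : ℕ, ∀ m ≥ m₀,
    (N.KK D D').restrictScalars ℂ ⊓ Eg (N.sK (E.tensor D').w) (m : ℕ) ⊓ LinearMap.ker (N.dd _) ⊓
      LinearMap.ker (N.muh _) =
      ((N.KK D D').restrictScalars ℂ ⊓ Eg (N.sK (E.tensor D').w) (m : ℕ)).map (N.dd _) := by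
  have hN := noeth N.gen2
  have hg := h.grd_KK D'
  let N₁ : Submodule Q (Finset (Fin M) → I × I' → Q) :=
    { carrier := {z | z ∈ N.KK D D' ∧ iov (I × I' → Q) N.u z = 0 ∧ N.muh _ z = 0}
      add_mem' := fun ha hb => ⟨add_mem ha.1 hb.1, by rw [map_add, ha.2.1, hb.2.1, add_zero],
        by rw [map_add, ha.2.2, hb.2.2, add_zero]⟩
      zero_mem' := ⟨zero_mem _, map_zero _, map_zero _⟩
      smul_mem' := fun r z hz => ⟨Submodule.smul_mem _ r hz.1,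
        by rw [map_smul, hz.2.1, smul_zero], by rw [lt3_muh_smul, hz.2.2, smul_zero]⟩ }
  let N₂ := (N.KK D D').map (iov (I × I' → Q) N.u)
  let A : Ideal R' :=
    { carrier := {g | ∀ z ∈ N₁, N.inr g • z ∈ N₂}
      add_mem' := fun ha hb z hz => by
        rw [map_add, add_smul]
        exact add_mem (ha z hz) (hb z hz)
      zero_mem' := fun z _ => by
        rw [map_zero, zero_smul]
        exact zero_mem _
      smul_mem' := fun r g hg z hz => by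
        rw [smul_eq_mul, map_mul, mul_smul]
        exact Submodule.smul_mem _ _ (hg z hz) }
  have hA := S'.ns A fun p => by
    obtain ⟨g, h1, h2⟩ := h.loc_inj D' p
    exact ⟨g, fun z hz => h2 z hz.1 hz.2.1 hz.2.2, h1⟩
  have hk : ∀ j, ∃ K : ℕ, ∀ z ∈ N₁,
      Sum.elim (fun j => N.inl (S.x j)) (fun j => N.inr (S'.x j)) j ^ K • z ∈ N₂ := by
    rintro (j | j)
    · obtain ⟨K, hK⟩ := hA j
      refine ⟨K, fun z hz => ?_⟩
      have h1 := N.KK_kill D D' (r := N.inl (S.x j ^ K) - N.inr (S'.x j ^ K))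
        (by rw [map_sub, N.mu_inl, N.mu_inr, map_pow, N.res_x, sub_self]) hz.1 hz.2.1
      have h2 := add_mem (show _ ∈ N₂ from h1) (hK z hz)
      rw [← add_smul, sub_add_cancel] at h2
      simpa only [Sum.elim_inl, ← map_pow] using h2
    · obtain ⟨K, hK⟩ := hA j
      exact ⟨K, fun z hz => by simpa only [Sum.elim_inr, ← map_pow] using hK z hz⟩
  have k1 : ∀ z ∈ N₁, N.sK (E.tensor D').w z ∈ N₁ := by
    intro z hz
    refine ⟨hg.inv z hz.1, (N.dd_sK _ z).trans ?_, ?_⟩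
    · rw [show N.dd _ z = 0 from hz.2.1, map_zero]
    · rw [N.muh_sK, hz.2.2, map_zero]
  have k2 : ∀ z ∈ N₂, N.sK (E.tensor D').w z ∈ N₂ := by
    rintro _ ⟨b, hb, rfl⟩
    exact ⟨_, hg.inv b hb, N.dd_sK _ b⟩
  obtain ⟨m₀, hm⟩ := fin_len N.gen2 N₁ N₂ (IsNoetherian.noetherian N₁) hk (N.sK (E.tensor D').w)
    k1 k2
  refine ⟨m₀, fun m hm0 => ?_⟩
  have e := hg.map_inf (s' := N.sK (E.tensor D').w) (N.dd _) (fun w _ => N.dd_sK _ w) (m : ℕ)
  apply le_antisymm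
  · intro z hz
    rw [← e]
    exact ⟨hm m hm0 z ⟨hz.1.1.1, hz.1.2, hz.2⟩ hz.1.1.2, hz.1.1.2⟩
  · intro z hz
    have h1 := (e.ge hz).2
    obtain ⟨b, hb, rfl⟩ := hz
    refine ⟨⟨⟨N.KK_d D D' hb.1, h1⟩, ?_⟩, lt3_muh_d N b⟩
    exact LinearMap.congr_fun (iov_sq (N := I × I' → Q) N.u) b

theorem NS2.IsRes.core_surj (h : N.IsRes D E) (D' : Dat S' I') : ∃ m₀ : ℕ, ∀ m ≥ m₀,
    ((N.KK D D').restrictScalars ℂ ⊓ Eg (N.sK (E.tensor D').w) (m : ℕ) ⊓
      LinearMap.ker (N.dd _)).map (N.muh _) = (N.lam.tensor (E.tensor D')).V ⊓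
        Eg (S'.sc (N.lam.tensor (E.tensor D')).w) (m : ℕ) := by
  have hN := noeth S'.gen
  have hg := h.grd_KK D'
  have hi : ∀ z ∈ (N.KK D D').restrictScalars ℂ ⊓ LinearMap.ker (N.dd (I × I')),
      N.sK (E.tensor D').w z ∈ (N.KK D D').restrictScalars ℂ ⊓ LinearMap.ker (N.dd (I × I')) :=
    fun z hz => ⟨hg.inv z hz.1, (N.dd_sK _ z).trans (by
      rw [show N.dd _ z = 0 from hz.2, map_zero])⟩
  let N₂ : Submodule R' (Finset (Fin M) × I × I' → R') :=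
    { carrier := {γ | ∃ z ∈ N.KK D D', iov (I × I' → Q) N.u z = 0 ∧ N.muh _ z = γ}
      add_mem' := fun ⟨a, a1, a2, a3⟩ ⟨b, b1, b2, b3⟩ => ⟨a + b, add_mem a1 b1,
        by rw [map_add, a2, b2, add_zero], by rw [map_add, a3, b3]⟩
      zero_mem' := ⟨0, zero_mem _, map_zero _, map_zero _⟩
      smul_mem' := fun r _ ⟨a, a1, a2, a3⟩ => ⟨N.inr r • a, Submodule.smul_mem _ _ a1,
        by rw [map_smul, a2, smul_zero], by rw [lt3_muh_smul, a3, N.mu_inr]⟩ }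
  let A : Ideal R' :=
    { carrier := {g | ∀ γ ∈ (N.lam.tensor (E.tensor D')).G, g • γ ∈ N₂}
      add_mem' := fun ha hb z hz => by
        rw [add_smul]
        exact add_mem (ha z hz) (hb z hz)
      zero_mem' := fun z _ => by
        rw [zero_smul]
        exact zero_mem _
      smul_mem' := fun r g hg z hz => by
        rw [smul_eq_mul, mul_smul]
        exact Submodule.smul_mem _ _ (hg z hz) }
  have hA := S'.ns A fun p => by
    obtain ⟨g, h1, h2⟩ := h.loc_surj D' p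
    exact ⟨g, h2, h1⟩
  obtain ⟨m₀, hm⟩ := fin_len S'.gen (N.lam.tensor (E.tensor D')).G N₂ (IsNoetherian.noetherian _)
    hA (S'.sc (N.lam.tensor (E.tensor D')).w) (N.lam.tensor (E.tensor D')).inv
    fun _ ⟨a, a1, a2, a3⟩ => ⟨_, (hi a ⟨a1, a2⟩).1, (hi a ⟨a1, a2⟩).2, a3 ▸ N.muh_sK _ a⟩
  refine ⟨m₀, fun m hm0 => ?_⟩
  rw [inf_right_comm, ← (hg.sub inf_le_left hi).map_inf
    (s' := S'.sc (N.lam.tensor (E.tensor D')).w) (N.muh _) (fun w _ => N.muh_sK _ w) (m : ℕ)]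
  apply le_antisymm
  · rintro _ ⟨⟨z, hz, rfl⟩, h2⟩
    exact ⟨h.muh_mem D' hz.1 hz.2, h2⟩
  · intro γ hγ
    obtain ⟨z, z1, z2, z3⟩ := hm m hm0 γ hγ.1 hγ.2
    exact ⟨⟨z, ⟨z1, z2⟩, z3⟩, hγ.2⟩

end Pool.Agent.HCF
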