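import Pool.Agent.P.MP_f644fa_ag.LG1

/-! Incomplete systems of generators and the locus where a covector extends. -/

noncomputable section
namespace Pool.Agent.HCF
open Finset Module MvPolynomial

variable {M : ℕ} {I : Ideal (SS M)} {c n : ℕ}

/-- forms in `I` whose gradients are independent along the cone -/
structure Gen (I : Ideal (SS M)) {j : ℕ} (b : Fin j → ℕ) (f : Fin j → SS M) : Prop where
  mem : ∀ i, f i ∈ I
  hom : ∀ i, (f i).IsHomogeneous (b i + 1)
  ind : ∀ z ∈ cone I, LinearIndependent ℂ fun i => pv z (gr (f i))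

/-- the gradients on a line -/
def dF {j : ℕ} (x y : Fin M → ℂ) (f : Fin j → SS M) (i : Fin j) : Fin M → B2 :=
  fun l => rl x y (gr (f i) l)

/-- on every line the sections of degree `d` are combinations of the gradients -/
def Sat (I : Ideal (SS M)) {j : ℕ} (b : Fin j → ℕ) (f : Fin j → SS M) (d : ℕ) : Prop :=
  ∀ x y, IsLine I x y → Sec (fun p => Es I (pt x y p)) d ≤ Nn b (dF x y f) d

/-- the span of the gradients -/
def Sp {j : ℕ} (f : Fin j → SS M) (z : Fin M → ℂ) : Submodule ℂ (Fin M → ℂ) :=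
  Submodule.span ℂ (Set.range fun i => pv z (gr (f i)))

/-- lines through `x` on which the covector `ξ` extends to a section of degree `a` -/
def Wl (I : Ideal (SS M)) (x φ ξ : Fin M → ℂ) (a : ℕ) : Set (Fin M → ℂ) :=
  {y | y ∈ Gx I x φ ∧ ∃ θ ∈ cSec (fun p => Es I (pt x y p)) (a + 1), ∀ l, θ (toLex (0, l)) = ξ l}

variable {j a : ℕ} {b : Fin j → ℕ} {f : Fin j → SS M}

theorem lv0_le {V : Type} [AddCommGroup V] [Module ℂ V] [FiniteDimensional ℂ V] {v : Fin j → V}
    (h : LinearIndependent ℂ v) {P : Submodule ℂ V} (hP : ∀ i, v i ∈ P) : j ≤ finrank ℂ P := by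
  have h1 := Submodule.finrank_mono (Submodule.span_le.2 (Set.range_subset_iff.2 hP))
  rwa [finrank_span_eq_card h, Fintype.card_fin] at h1

theorem Gen.le (hX : IsManifold I c) (h : Gen I b f) : j ≤ c := by
  obtain ⟨z, hz⟩ := hX.nonempty
  exact (lv0_le (h.ind z hz) fun i => gr_mem_Es (h.mem i) z).trans (hX.pgen_Es.rank z hz).le

theorem lv0_smul (h : Gen I b f) (z : Fin M → ℂ) (t : ℂ) : Sp f (t • z) ≤ Sp f z := by
  refine Submodule.span_le.2 (Set.range_subset_iff.2 fun i => ?_)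
  have h1 : pv (t • z) (gr (f i)) = t ^ (b i + 1 - 1) • pv z (gr (f i)) :=
    funext fun l => eval_smul_hom (h.hom i).pderiv t z
  rw [h1]
  exact Submodule.smul_mem _ _ (Submodule.subset_span ⟨i, rfl⟩)

theorem Gen.sp_smul (h : Gen I b f) (z : Fin M → ℂ) {t : ℂ} (ht : t ≠ 0) :
    Sp f (t • z) = Sp f z := by
  refine le_antisymm (lv0_smul h z t) ?_
  have h1 := lv0_smul h (t • z) t⁻¹
  rwa [inv_smul_smul₀ ht] at h1

theorem pv_dF (x y : Fin M → ℂ) (p : Fin 2 → ℂ) (i : Fin j) :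
    pv p (dF x y f i) = pv (pt x y p) (gr (f i)) := pv_rl x y p (gr (f i))

theorem lv0_sp (x y : Fin M → ℂ) (p : Fin 2 → ℂ) :
    Submodule.span ℂ (Set.range fun i => pv p (dF x y f i)) = Sp f (pt x y p) := by
  simp only [pv_dF, Sp]

theorem lv0_sec (h : Gen I b f) (x y : Fin M → ℂ) (i : Fin j) :
    dF x y f i ∈ Sec (fun p => Es I (pt x y p)) (b i) := gr_mem_Sec (h.mem i) (h.hom i) x y

/-- a section of degree `a` that depends on the gradients at one point of a line does so at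
every point -/
theorem Gen.dep (hX : IsManifold I c) (h : Gen I b f) (hb : ∀ i, b i ≤ a)
    (hs : ∀ d < a, Sat I b f d) {x y : Fin M → ℂ} (hl : IsLine I x y) {η : Fin M → B2}
    (hη : η ∈ Sec (fun p => Es I (pt x y p)) a) {p : Fin 2 → ℂ} (hp : p ≠ 0)
    (hd : pv p η ∈ Sp f (pt x y p)) : η ∈ Nn b (dF x y f) a ∧ ∀ q, pv q η ∈ Sp f (pt x y q) := by
  have h1 : η ∈ Nn b (dF x y f) a :=
    (hX.pgen_Es.pb hl).dep_mem (lv0_sec h x y) hb (fun d' hd' => hs d' (by omega) x y hl) hη hp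
      (by rw [lv0_sp]; exact hd)
  refine ⟨h1, fun q => ?_⟩
  rw [← lv0_sp]
  exact Nn_pv h1 q

theorem Gen.finrank_cSec (hX : IsManifold I c) (h : Gen I b f) (hs : ∀ d < a, Sat I b f d)
    {x y : Fin M → ℂ} (hl : IsLine I x y) :
    finrank ℂ (cSec (fun p => Es I (pt x y p)) a) = ∑ i, (a - b i) := by
  have _ := hX
  cases a with
  | zero => simp only [finrank_cSec_zero, Nat.zero_sub, sum_const_zero]
  | succ d =>
    have hp : (![1, 0] : Fin 2 → ℂ) ≠ 0 := fun e => one_ne_zero (congrFun e 0)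
    rw [HCF.finrank_cSec, le_antisymm (hs d (Nat.lt_succ_self d) x y hl)
      (Nn_le_Sec (lv0_sec h x y) d)]
    refine finrank_Nn (p := ![1, 0]) ?_ d
    simp only [pv_dF]
    exact h.ind _ (hl.mem hp)

end Pool.Agent.HCF
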