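import Pool.Agent.P.MP_f644fa_ag.LV0

/-! The extension locus is closed and the extension is locally polynomial. -/

noncomputable section
namespace Pool.Agent.HCF
open Finset Module MvPolynomial

variable {M : ℕ} {I : Ideal (SS M)} {c n : ℕ} {j a : ℕ} {b : Fin j → ℕ} {f : Fin j → SS M}

theorem lv1_char (hX : IsManifold I c) {x y : Fin M → ℂ} (hl : IsLine I x y) (d : ℕ)
    (θ : Fin d ×ₗ Fin M → ℂ) : θ ∈ cSec (fun p => Es I (pt x y p)) d ↔
      ∀ u : Fin d ×ₗ Fin M → SS M,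
        (∀ y', IsLine I x y' → pv y' u ∈ perp (cSec (fun p => Es I (pt x y' p)) d)) →
          ∑ q, eval y (u q) * θ q = 0 := by
  refine ⟨fun h u hu => mem_perp.1 (hu y hl) θ h, fun h => ?_⟩
  rw [← perp_perp (cSec (fun p => Es I (pt x y p)) d)]
  refine perp_anti (hX.pgen_Es.cSec_gen hl d) (mem_perp_span.2 ?_)
  rintro _ ⟨u, hu, rfl⟩
  rw [← h u hu]
  exact sum_congr rfl fun q _ => mul_comm _ _

theorem lv1_row {σ : Type} [Fintype σ] [DecidableEq σ] (y : Fin M → ℂ) (q₀ : σ) (θ : σ → ℂ) :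
    ∑ q, eval y ((Pi.single q₀ 1 : σ → SS M) q) * θ q = θ q₀ := by
  rw [sum_eq_single q₀]
  · simp
  · intro q _ hq
    simp [Pi.single_eq_of_ne hq]
  · simp

theorem Gen.wl_loc (hX : IsManifold I c) (h : Gen I b f) (hs : ∀ d < a, Sat I b f d)
    {x φ : Fin M → ℂ} (hφ : ∑ l, φ l * x l ≠ 0) (ξ : Fin M → ℂ) {y₁ : Fin M → ℂ}
    (h1 : y₁ ∈ Gx I x φ) : ∃ (δ : SS M) (β : Fin (a + 1) ×ₗ Fin M → SS M), eval y₁ δ ≠ 0 ∧
      ∀ y ∈ Wl I x φ ξ a, eval y δ ≠ 0 → pv y β ∈ cSec (fun p => Es I (pt x y p)) (a + 1) ∧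
        ∀ l, eval y (β (toLex (0, l))) = eval y δ * ξ l := by
  classical
  let ι₀ := {u : Fin (a + 1) ×ₗ Fin M → SS M //
    ∀ y', IsLine I x y' → pv y' u ∈ perp (cSec (fun p => Es I (pt x y' p)) (a + 1))}
  let v : ι₀ ⊕ Fin M → Fin (a + 1) ×ₗ Fin M → SS M :=
    Sum.elim (fun u => u.1) fun l => Pi.single (toLex (0, l)) 1
  let r : ι₀ ⊕ Fin M → SS M := Sum.elim (fun _ => 0) fun l => C (ξ l)
  have hρ : ∀ y ∈ Gx I x φ, finrank ℂ (Submodule.span ℂ (Set.range fun i => pv y (v i))) =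
      Fintype.card (Fin (a + 1) ×ₗ Fin M) - ∑ i, (a - b i) := by
    intro y hy
    have hl := Gx_line hφ hy
    obtain ⟨K, hK⟩ : ∃ K : Submodule ℂ (Fin (a + 1) ×ₗ Fin M → ℂ), ∀ θ, θ ∈ K ↔
        θ ∈ cSec (fun p => Es I (pt x y p)) (a + 1) ∧ ∀ l, θ (toLex (0, l)) = 0 :=
      ⟨cSec (fun p => Es I (pt x y p)) (a + 1) ⊓
        ⨅ l, LinearMap.ker (LinearMap.proj (toLex (0, l))), fun θ => by
          simp [Submodule.mem_iInf]⟩
    have h2 := (hX.pgen_Es.pb hl).finrank_van K hK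
    rw [h.finrank_cSec hX hs hl] at h2
    have h3 := finrank_perp K
    rw [span_eq_perp _ K fun θ => ?_]
    · omega
    · rw [hK, lv1_char hX hl, Sum.forall]
      exact and_congr ⟨fun h0 u => h0 u.1 u.2, fun h0 u hu => h0 ⟨u, hu⟩⟩
        (forall_congr' fun l => by rw [← lv1_row y (toLex (0, l)) θ]; rfl)
  obtain ⟨δ, β, -, -, hδ, -, hβ⟩ := lin_sol (Gx I x φ) v r _ (fun y hy => (hρ y hy).le) y₁
    (hρ y₁ h1)
  refine ⟨δ, β, hδ, ?_⟩
  rintro y ⟨hy, θ, hθ, h0⟩ hyδ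
  have hl := Gx_line hφ hy
  have h4 := hβ y hy hyδ θ (by
    rintro (u | l)
    · exact ((lv1_char hX hl _ θ).1 hθ u.1 u.2).trans (map_zero _).symm
    · exact (lv1_row y (toLex (0, l)) θ).trans ((h0 l).trans (eval_C _).symm))
  refine ⟨(lv1_char hX hl _ _).2 fun u hu => ?_, fun l => ?_⟩
  · exact (h4 (Sum.inl ⟨u, hu⟩)).trans (by simp [r])
  · exact (lv1_row y (toLex (0, l)) fun q => eval y (β q)).symm.trans
      ((h4 (Sum.inr l)).trans (by simp [r]))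

theorem Gen.wl_ccone (hX : IsManifold I c) (h : Gen I b f) (hs : ∀ d < a, Sat I b f d)
    {x φ : Fin M → ℂ} (hφ : ∑ l, φ l * x l ≠ 0) (ξ : Fin M → ℂ) : CCone (Wl I x φ ξ a) := by
  refine ccone_Gx.sub (fun y hy => hy.1) ?_ fun y hy hn => ?_
  · rintro y ⟨hy, θ, hθ, h0⟩ t ht
    exact ⟨ccone_Gx.smul y hy t ht, _,
      cSec_scale ht (fun p => congrArg (Es I) (pt_smul_right x y t p)) hθ, fun l => by simp [h0]⟩
  obtain ⟨δ, β, hδ, hβ⟩ := h.wl_loc hX hs hφ ξ hy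
  by_contra hc
  have key : ∀ g : SS M, (∀ z ∈ Wl I x φ ξ a, eval z δ ≠ 0 → eval z g = 0) → eval y g = 0 := by
    intro g hg
    by_contra h0
    refine hc ⟨δ * g, by rw [map_mul]; exact mul_ne_zero hδ h0, fun z hz => ?_⟩
    rw [map_mul]
    by_cases hz' : eval z δ = 0
    · rw [hz', zero_mul]
    · rw [hg z hz hz', mul_zero]
  refine hn ⟨hy, (eval y δ)⁻¹ • pv y β, Submodule.smul_mem _ _
    ((lv1_char hX (Gx_line hφ hy) _ _).2 fun u hu => ?_), fun l => ?_⟩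
  · have := key (∑ q, u q * β q) fun z hz hz' => by
      simp only [map_sum, map_mul]
      exact mem_perp.1 (hu z (Gx_line hφ hz.1)) _ (hβ z hz hz').1
    simp only [map_sum, map_mul] at this
    exact this
  · have := key (β (toLex (0, l)) - δ * C (ξ l)) fun z hz hz' => by
      rw [map_sub, map_mul, eval_C, (hβ z hz hz').2, sub_self]
    rw [map_sub, map_mul, eval_C, sub_eq_zero] at this
    rw [Pi.smul_apply, pv_apply, this, smul_eq_mul, inv_mul_cancel_left₀ hδ]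

end Pool.Agent.HCF
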