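import Pool.Agent.P.MP_f644fa_ag.LSub

/-! A local projector that is adapted to an extension. -/

noncomputable section
namespace Pool.Agent.HCF
open Finset Module

variable {M n : ℕ} {X R RR : Type} [CommRing R] [Algebra ℂ R] [CommRing RR] [Algebra ℂ RR]
  {S : NS0 M n X R RR} {σ σ0 σ1 : Type} [LinearOrder σ] [Fintype σ] [LinearOrder σ0] [Fintype σ0]
  [LinearOrder σ1] [Fintype σ1]

section aux
open Matrix
variable {A A' : Type} [CommRing A] [CommRing A']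

/-- projection to some coordinates -/
def lw0_P (A : Type) [CommRing A] {ι : Type} (e : ι → σ) : Matrix ι σ A :=
  Matrix.of fun a j => if e a = j then 1 else 0

theorem lw0_P_map (f : A →+* A') {ι : Type} (e : ι → σ) : (lw0_P A e).map f = lw0_P A' e := by
  ext a j
  simp only [lw0_P, Matrix.map_apply, Matrix.of_apply]
  split_ifs <;> simp

theorem lw0_PT_map (f : A →+* A') {ι : Type} (e : ι → σ) :
    (lw0_P A e)ᵀ.map f = (lw0_P A' e)ᵀ := by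
  rw [Matrix.transpose_map, lw0_P_map]

theorem lw0_P_mulVec {ι : Type} (e : ι → σ) (v : σ → A) :
    lw0_P A e *ᵥ v = fun a => v (e a) := by
  ext a
  simp [lw0_P, Matrix.mulVec, dotProduct]

theorem lw0_PT_not {ι : Type} [Fintype ι] (e : ι → σ) (x : ι → A) {j : σ} (h : ∀ b, e b ≠ j) :
    ((lw0_P A e)ᵀ *ᵥ x) j = 0 := by
  simp [lw0_P, Matrix.mulVec, dotProduct, h]

theorem lw0_PT_self {ι : Type} [Fintype ι] [DecidableEq ι] {e : ι → σ} (he : Function.Injective e)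
    (x : ι → A) (b : ι) : ((lw0_P A e)ᵀ *ᵥ x) (e b) = x b := by
  simp [lw0_P, Matrix.mulVec, dotProduct, he.eq_iff]

/-- the auxiliary endomorphism -/
def lw0_Y (e0 : σ0 → σ) (τ : Matrix σ σ A) (W : Matrix σ σ0 A) (δ0 : A) (t0 : Matrix σ0 σ0 A) :
    Matrix σ0 σ0 A := lw0_P A e0 * (τ * W) + (δ0 • 1 - t0)

/-- the lift -/
def lw0_L (e0 : σ0 → σ) (τ : Matrix σ σ A) (W : Matrix σ σ0 A) (δ0 : A) (t0 : Matrix σ0 σ0 A) :
    Matrix σ σ0 A := δ0 • (τ * (W * (lw0_Y e0 τ W δ0 t0).adjugate))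

/-- the adapted projector -/
def lw0_t (e0 : σ0 → σ) (e1 : σ1 → σ) (L : Matrix σ σ0 A) (g δ1 : A) (t1 : Matrix σ1 σ1 A) :
    Matrix σ σ A :=
  δ1 • (L * lw0_P A e0) + (lw0_P A e1)ᵀ * (t1 * (lw0_P A e1 * (g • 1 - L * lw0_P A e0)))

theorem lw0_smul_map (f : A →+* A') {ι κ : Type} (a : A) (N : Matrix ι κ A) :
    (a • N).map f = f a • N.map f := by
  ext i j
  simp

theorem lw0_Y_map (f : A →+* A') (e0 : σ0 → σ) (τ : Matrix σ σ A) (W : Matrix σ σ0 A) (δ0 : A)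
    (t0 : Matrix σ0 σ0 A) :
    (lw0_Y e0 τ W δ0 t0).map f = lw0_Y e0 (τ.map f) (W.map f) (f δ0) (t0.map f) := by
  rw [lw0_Y, lw0_Y, Matrix.map_add _ (map_add f), Matrix.map_sub _ (map_sub f), Matrix.map_mul,
    Matrix.map_mul, lw0_P_map, lw0_smul_map, Matrix.map_one _ (map_zero f) (map_one f)]

theorem lw0_L_map (f : A →+* A') (e0 : σ0 → σ) (τ : Matrix σ σ A) (W : Matrix σ σ0 A) (δ0 : A)
    (t0 : Matrix σ0 σ0 A) :
    (lw0_L e0 τ W δ0 t0).map f = lw0_L e0 (τ.map f) (W.map f) (f δ0) (t0.map f) := by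
  have h := f.map_adjugate (lw0_Y e0 τ W δ0 t0)
  simp only [RingHom.mapMatrix_apply] at h
  rw [lw0_L, lw0_L, lw0_smul_map, Matrix.map_mul, Matrix.map_mul, h, lw0_Y_map]

theorem lw0_t_map (f : A →+* A') (e0 : σ0 → σ) (e1 : σ1 → σ) (L : Matrix σ σ0 A) (g δ1 : A)
    (t1 : Matrix σ1 σ1 A) :
    (lw0_t e0 e1 L g δ1 t1).map f = lw0_t e0 e1 (L.map f) (f g) (f δ1) (t1.map f) := by
  rw [lw0_t, lw0_t, Matrix.map_add _ (map_add f), lw0_smul_map, Matrix.map_mul, Matrix.map_mul,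
    Matrix.map_mul, Matrix.map_mul, Matrix.map_sub _ (map_sub f), Matrix.map_mul, lw0_PT_map,
    lw0_P_map, lw0_P_map, lw0_smul_map, Matrix.map_one _ (map_zero f) (map_one f)]

theorem lw0_t_mulVec (e0 : σ0 → σ) (e1 : σ1 → σ) (L : Matrix σ σ0 A) (g δ1 : A)
    (t1 : Matrix σ1 σ1 A) (v : σ → A) :
    lw0_t e0 e1 L g δ1 t1 *ᵥ v = δ1 • (L *ᵥ fun a => v (e0 a)) +
      (lw0_P A e1)ᵀ *ᵥ (t1 *ᵥ fun b => (g • v - L *ᵥ fun a => v (e0 a)) (e1 b)) := by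
  rw [lw0_t, Matrix.add_mulVec, Matrix.smul_mulVec, ← Matrix.mulVec_mulVec, ← Matrix.mulVec_mulVec,
    ← Matrix.mulVec_mulVec, ← Matrix.mulVec_mulVec, Matrix.sub_mulVec, Matrix.smul_mulVec,
    Matrix.one_mulVec, ← Matrix.mulVec_mulVec, lw0_P_mulVec, lw0_P_mulVec]

theorem lw0_Y_mulVec (e0 : σ0 → σ) (τ : Matrix σ σ A) (W : Matrix σ σ0 A) (δ0 : A)
    (t0 : Matrix σ0 σ0 A) (u : σ0 → A) :
    lw0_Y e0 τ W δ0 t0 *ᵥ u = (fun a => (τ *ᵥ (W *ᵥ u)) (e0 a)) + (δ0 • u - t0 *ᵥ u) := by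
  rw [lw0_Y, Matrix.add_mulVec, Matrix.sub_mulVec, Matrix.smul_mulVec, Matrix.one_mulVec,
    ← Matrix.mulVec_mulVec, ← Matrix.mulVec_mulVec, lw0_P_mulVec]

theorem lw0_L_mulVec (e0 : σ0 → σ) (τ : Matrix σ σ A) (W : Matrix σ σ0 A) (δ0 : A)
    (t0 : Matrix σ0 σ0 A) (u : σ0 → A) :
    lw0_L e0 τ W δ0 t0 *ᵥ u = δ0 • (τ *ᵥ (W *ᵥ ((lw0_Y e0 τ W δ0 t0).adjugate *ᵥ u))) := by
  rw [lw0_L, Matrix.smul_mulVec, ← Matrix.mulVec_mulVec, ← Matrix.mulVec_mulVec]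

/-- the lift is a lift -/
theorem lw0_L_lift {e0 : σ0 → σ} {τ : Matrix σ σ ℂ} (W : Matrix σ σ0 ℂ) {δ0 : ℂ}
    {t0 : Matrix σ0 σ0 ℂ} {T0 : Submodule ℂ (σ0 → ℂ)}
    (h1 : ∀ x, (fun a => (τ *ᵥ x) (e0 a)) ∈ T0) (h2 : ∀ u, t0 *ᵥ u ∈ T0)
    (h3 : ∀ u ∈ T0, t0 *ᵥ u = δ0 • u) {v : σ0 → ℂ} (hv : v ∈ T0) (a : σ0) :
    (lw0_L e0 τ W δ0 t0 *ᵥ v) (e0 a) = (δ0 * (lw0_Y e0 τ W δ0 t0).det) * v a := by
  rw [lw0_L_mulVec]
  set u := (lw0_Y e0 τ W δ0 t0).adjugate *ᵥ v with hu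
  have e : (fun a => (τ *ᵥ (W *ᵥ u)) (e0 a)) + (δ0 • u - t0 *ᵥ u) =
      (lw0_Y e0 τ W δ0 t0).det • v := by
    rw [← lw0_Y_mulVec, hu, Matrix.mulVec_mulVec, Matrix.mul_adjugate, Matrix.smul_mulVec,
      Matrix.one_mulVec]
  have m : δ0 • u ∈ T0 := by
    have : δ0 • u = (lw0_Y e0 τ W δ0 t0).det • v - (fun a => (τ *ᵥ (W *ᵥ u)) (e0 a)) + t0 *ᵥ u := by
      rw [← e]; abel
    rw [this]
    exact T0.add_mem (T0.sub_mem (T0.smul_mem _ hv) (h1 _)) (h2 _)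
  have e2 := congrFun (h3 _ m) a
  have e3 := congrFun e a
  rw [Matrix.mulVec_smul] at e2
  simp only [Pi.add_apply, Pi.sub_apply, Pi.smul_apply, smul_eq_mul] at e2 e3 ⊢
  linear_combination δ0 * e3 + e2

theorem lw0_det_ne {e0 : σ0 → σ} {τ : Matrix σ σ ℂ} {W : Matrix σ σ0 ℂ} {δ δ0 : ℂ}
    {t0 : Matrix σ0 σ0 ℂ} {T0 : Submodule ℂ (σ0 → ℂ)} (hδ : δ ≠ 0) (hδ0 : δ0 ≠ 0)
    (h1 : ∀ u, τ *ᵥ (W *ᵥ u) = δ • (W *ᵥ u)) (h0 : ∀ u a, (W *ᵥ u) (e0 a) = (t0 *ᵥ u) a)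
    (h2 : ∀ u, t0 *ᵥ u ∈ T0) (h3 : ∀ u ∈ T0, t0 *ᵥ u = δ0 • u) :
    (lw0_Y e0 τ W δ0 t0).det ≠ 0 := by
  intro hd
  obtain ⟨u, hu, e⟩ := Matrix.exists_mulVec_eq_zero_iff.2 hd
  rw [lw0_Y_mulVec, h1] at e
  have e1 : δ0 • u = (1 - δ) • (t0 *ᵥ u) := by
    ext a
    have := congrFun e a
    simp only [Pi.add_apply, Pi.sub_apply, Pi.smul_apply, smul_eq_mul, h0, Pi.zero_apply] at this ⊢
    linear_combination this
  have m : u ∈ T0 := by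
    rw [← T0.smul_mem_iff hδ0, e1]
    exact T0.smul_mem _ (h2 u)
  rw [h3 u m] at e1
  apply hu
  ext a
  have := congrFun e1 a
  simp only [Pi.smul_apply, smul_eq_mul] at this
  have h4 : δ * δ0 * u a = 0 := by linear_combination this
  exact (mul_eq_zero.1 h4).resolve_left (mul_ne_zero hδ hδ0)

theorem lw0_mem {ι κ : Type} [Fintype κ] {N : Matrix ι κ ℂ} {T : Submodule ℂ (ι → ℂ)}
    (h : ∀ l, (fun j => N j l) ∈ T) (u : κ → ℂ) : N *ᵥ u ∈ T := by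
  have : N *ᵥ u = ∑ l, u l • fun j => N j l := by
    ext j
    simp [Matrix.mulVec, dotProduct, mul_comm]
  rw [this]
  exact T.sum_mem fun l _ => T.smul_mem _ (h l)

theorem lw0_prj {ι : Type} [Fintype ι] [DecidableEq ι] {T : X → Submodule ℂ (ι → ℂ)} {p : X}
    {δ : R} {t : Matrix ι ι R} : S.Prj T p δ t ↔ S.ev p δ ≠ 0 ∧
      (∀ q u, t.map (S.ev q : R →+* ℂ) *ᵥ u ∈ T q) ∧
      ∀ q, ∀ v ∈ T q, t.map (S.ev q : R →+* ℂ) *ᵥ v = S.ev q δ • v := by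
  refine and_congr_right fun _ => and_congr ⟨fun h q u => lw0_mem (h q) u, fun h q l => ?_⟩
    ⟨fun h q v hv => funext fun j => h q v hv j, fun h q v hv j => congrFun (h q v hv) j⟩
  have := h q (Pi.single l 1)
  rwa [Matrix.mulVec_single_one] at this

end aux

open Matrix in
theorem Spl.adapted {B : Sub S σ} {B0 : Sub S σ0} {B1 : Sub S σ1} {e0 : σ0 ↪o σ} {e1 : σ1 ↪o σ}
    (h : Spl B B0 B1 e0 e1) (p : X) :
    ∃ δ t, S.Prj B.T p δ t ∧ ∀ a b, t (e0 a) (e1 b) = 0 := by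
  obtain ⟨δ, τ, hτ⟩ := B.loc p
  obtain ⟨δ0, t0, ht0⟩ := B0.loc p
  obtain ⟨δ1, t1, ht1⟩ := B1.loc p
  choose w hw hw' using fun l => (h.t0 p _).1 (ht0.2.1 p l)
  rw [lw0_prj] at hτ ht0 ht1
  obtain ⟨hδ, a1, a2⟩ := hτ
  obtain ⟨hδ0, b1, b2⟩ := ht0
  obtain ⟨hδ1, c1, c2⟩ := ht1
  let W0 : Matrix σ σ0 ℂ := Matrix.of fun j l => w l j
  let W : Matrix σ σ0 R := W0.map (algebraMap ℂ R)
  have hW : ∀ q, W.map (S.ev q : R →+* ℂ) = W0 := fun q => by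
    ext j l
    simp [W]
  have hdet : ∀ q, S.ev q (lw0_Y e0 τ W δ0 t0).det = (lw0_Y e0 (τ.map (S.ev q : R →+* ℂ)) W0
      (S.ev q δ0) (t0.map (S.ev q : R →+* ℂ))).det := fun q => by
    have := (S.ev q : R →+* ℂ).map_det (lw0_Y e0 τ W δ0 t0)
    rw [RingHom.mapMatrix_apply, lw0_Y_map, hW] at this
    exact this
  have hL : ∀ q u, (lw0_L e0 τ W δ0 t0).map (S.ev q : R →+* ℂ) *ᵥ u ∈ B.T q := fun q u => by
    rw [lw0_L_map, lw0_L_mulVec]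
    exact (B.T q).smul_mem _ (a1 q _)
  have hL' : ∀ q, ∀ v ∈ B0.T q, ∀ a, ((lw0_L e0 τ W δ0 t0).map (S.ev q : R →+* ℂ) *ᵥ v) (e0 a) =
      S.ev q (δ0 * (lw0_Y e0 τ W δ0 t0).det) * v a := fun q v hv a => by
    rw [lw0_L_map, map_mul, hdet, hW]
    exact lw0_L_lift W0 (fun x => (h.t0 q _).2 ⟨_, a1 q x, fun _ => rfl⟩) (b1 q) (b2 q) hv a
  have hg : S.ev p (δ0 * (lw0_Y e0 τ W δ0 t0).det) ≠ 0 := by
    rw [map_mul, hdet]
    refine mul_ne_zero hδ0 (lw0_det_ne hδ hδ0 (fun u => a2 p _ (lw0_mem hw u)) (fun u a => ?_)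
      (b1 p) (b2 p))
    simp [W0, Matrix.mulVec, dotProduct, hw']
  generalize lw0_L e0 τ W δ0 t0 = L at hL hL'
  generalize δ0 * (lw0_Y e0 τ W δ0 t0).det = g at hL' hg
  refine ⟨δ1 * g, lw0_t e0 e1 L g δ1 t1, lw0_prj.2 ⟨?_, fun q u => ?_, fun q v hv => ?_⟩,
    fun a b => ?_⟩
  · rw [map_mul]
    exact mul_ne_zero hδ1 hg
  · rw [lw0_t_map, lw0_t_mulVec]
    refine (B.T q).add_mem ((B.T q).smul_mem _ (hL q _)) ?_
    rw [h.t1 q _ fun a => lw0_PT_not e1 _ fun b => (h.disj a b).symm]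
    simp only [lw0_PT_self e1.injective]
    exact c1 q _
  · rw [lw0_t_map, lw0_t_mulVec]
    have m0 : (fun a => v (e0 a)) ∈ B0.T q := (h.t0 q _).2 ⟨v, hv, fun _ => rfl⟩
    set y := (S.ev q : R →+* ℂ) g • v - L.map (S.ev q : R →+* ℂ) *ᵥ fun a => v (e0 a) with hy
    have y0 : ∀ a, y (e0 a) = 0 := fun a => by
      rw [hy, Pi.sub_apply, hL' q _ m0 a]
      simp
    have m1 : (fun b => y (e1 b)) ∈ B1.T q :=
      (h.t1 q y y0).1 ((B.T q).sub_mem ((B.T q).smul_mem _ hv) (hL q _))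
    have e : (lw0_P ℂ e1)ᵀ *ᵥ (fun b => y (e1 b)) = y := by
      ext j
      rcases h.cover j with ⟨a, rfl⟩ | ⟨b, rfl⟩
      · rw [y0, lw0_PT_not e1 _ fun b => (h.disj a b).symm]
      · rw [lw0_PT_self e1.injective]
    rw [c2 q _ m1, Matrix.mulVec_smul, e, hy, smul_sub, map_mul, mul_smul]
    exact add_sub_cancel _ _
  · have e : lw0_t e0 e1 L g δ1 t1 (e0 a) (e1 b) =
        (lw0_t e0 e1 L g δ1 t1 *ᵥ Pi.single (e1 b) 1) (e0 a) := by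
      rw [Matrix.mulVec_single_one]; rfl
    have z : (fun a => (Pi.single (e1 b) 1 : σ → R) (e0 a)) = 0 :=
      funext fun a => Pi.single_eq_of_ne (h.disj a b) _
    rw [e, lw0_t_mulVec, z, Matrix.mulVec_zero, smul_zero, zero_add]
    exact lw0_PT_not e1 _ fun b => (h.disj a b).symm

end Pool.Agent.HCF
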