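import Pool.Agent.P.MP_f644fa_ag.LP3
import Pool.Agent.P.MP_f644fa_ag.LA1
import Pool.Agent.P.MP_f644fa_ag.Sec2

/-! Lines on the manifold, the bundles on it. -/

noncomputable section
namespace Pool.Agent.HCF
open Finset Module MvPolynomial

variable {M : ℕ} {I : Ideal (SS M)} {c n : ℕ}

/-- the point of the plane spanned by `x` and `y` with coordinates `p` -/
def pt (x y : Fin M → ℂ) (p : Fin 2 → ℂ) : Fin M → ℂ := p 0 • x + p 1 • y

/-- `x` and `y` span a line on the variety -/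
def IsLine (I : Ideal (SS M)) (x y : Fin M → ℂ) : Prop :=
  LinearIndependent ℂ ![x, y] ∧ ∀ a b : ℂ, ∀ f ∈ I, eval (a • x + b • y) f = 0

/-- restriction of polynomials to the plane -/
def rl (x y : Fin M → ℂ) : SS M →ₐ[ℂ] B2 := aeval fun j => C (x j) * X 0 + C (y j) * X 1

/-- the conormal space -/
def Es (I : Ideal (SS M)) (z : Fin M → ℂ) : Submodule ℂ (Fin M → ℂ) := perp (tangS I z)

/-- subsets, with a linear order -/
def FS (M : ℕ) : Type := Finset (Fin M)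

instance instFintypeFS (M : ℕ) : Fintype (FS M) := inferInstanceAs (Fintype (Finset (Fin M)))

instance instLinearOrderFS (M : ℕ) : LinearOrder (FS M) :=
  LinearOrder.lift' (Fintype.equivFin (FS M)) (Fintype.equivFin (FS M)).injective

/-- conormal forms of degree `k` at a point -/
def Ep (I : Ideal (SS M)) (k : ℕ) (z : Fin M → ℂ) : Submodule ℂ (FS M → ℂ) := Kf (tangS I z) k

/-- A homogeneous subbundle of rank `r` on the cone whose annihilator is spanned by polynomial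
fields. -/
structure PGen (I : Ideal (SS M)) {σ : Type} [Fintype σ]
    (Bz : (Fin M → ℂ) → Submodule ℂ (σ → ℂ)) (r : ℕ) : Prop where
  gen : ∀ z ∈ cone I, perp (Bz z) ≤ Submodule.span ℂ
    {v | ∃ u : σ → SS M, (∀ z' ∈ cone I, pv z' u ∈ perp (Bz z')) ∧ v = pv z u}
  smul : ∀ z (t : ℂ), t ≠ 0 → Bz (t • z) = Bz z
  rank : ∀ z ∈ cone I, finrank ℂ (Bz z) = r

/-- the gradient -/
def gr (f : SS M) : Fin M → SS M := fun l => pderiv l f

/-- points on the lines through `x` -/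
def Cx (I : Ideal (SS M)) (x : Fin M → ℂ) : Set (Fin M → ℂ) :=
  {y | y ≠ 0 ∧ ∀ a b : ℂ, ∀ f ∈ I, eval (a • x + b • y) f = 0}

/-- a hyperplane section of the cone of lines through `x` -/
def Gx (I : Ideal (SS M)) (x φ : Fin M → ℂ) : Set (Fin M → ℂ) :=
  {y | y ∈ Cx I x ∧ ∑ j, φ j * y j = 0}

theorem eval_rl (x y : Fin M → ℂ) (p : Fin 2 → ℂ) (f : SS M) :
    eval p (rl x y f) = eval (pt x y p) f := by
  induction f using MvPolynomial.induction_on with
  | C a => simp [rl]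
  | add f g hf hg => rw [map_add, map_add, map_add, hf, hg]
  | mul_X f j hf =>
    rw [map_mul, map_mul, map_mul, hf, rl, aeval_X]
    simp [pt, mul_comm]

theorem rl_hom (x y : Fin M → ℂ) {f : SS M} {d : ℕ} (h : f.IsHomogeneous d) :
    (rl x y f).IsHomogeneous d := by
  have := h.aeval (fun j => (C (x j) * X 0 + C (y j) * X 1 : B2)) (n := 1)
    fun j => (isHomogeneous_C_mul_X _ _).add (isHomogeneous_C_mul_X _ _)
  rwa [one_mul] at this

theorem pt_first (x y : Fin M → ℂ) : pt x y ![1, 0] = x := by simp [pt]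
theorem pt_last (x y : Fin M → ℂ) : pt x y ![0, 1] = y := by simp [pt]
theorem pt_smul (x y : Fin M → ℂ) (t : ℂ) (p : Fin 2 → ℂ) : pt x y (t • p) = t • pt x y p := by
  simp [pt, smul_smul]
theorem pt_smul_right (x y : Fin M → ℂ) (t : ℂ) (p : Fin 2 → ℂ) :
    pt x (t • y) p = pt x y ![p 0, t * p 1] := by
  simp [pt, smul_smul, mul_comm]

/-- evaluation at a point of the plane is polynomial in `y` -/
theorem exists_subst (x : Fin M → ℂ) (p : Fin 2 → ℂ) (f : SS M) :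
    ∃ g : SS M, ∀ y, eval y g = eval (pt x y p) f := by
  induction f using MvPolynomial.induction_on with
  | C a => exact ⟨C a, fun y => by simp⟩
  | add f g hf hg =>
    obtain ⟨a, ha⟩ := hf
    obtain ⟨b, hb⟩ := hg
    exact ⟨a + b, fun y => by rw [map_add, map_add, ha, hb]⟩
  | mul_X f j hf =>
    obtain ⟨a, ha⟩ := hf
    exact ⟨a * (C (p 0 * x j) + C (p 1) * X j), fun y => by simp [ha, pt]⟩

theorem IsLine.mem {x y : Fin M → ℂ} (h : IsLine I x y) {p : Fin 2 → ℂ} (hp : p ≠ 0) :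
    pt x y p ∈ cone I := by
  refine ⟨fun h0 => hp ?_, h.2 _ _⟩
  have := LinearIndependent.pair_iff.1 h.1 _ _ h0
  funext i
  fin_cases i
  exacts [this.1, this.2]

theorem IsLine.mem_Cx {x y : Fin M → ℂ} (h : IsLine I x y) : y ∈ Cx I x :=
  ⟨h.1.ne_zero 1, h.2⟩

theorem IsLine.exists_phi {x y : Fin M → ℂ} (h : IsLine I x y) :
    ∃ φ : Fin M → ℂ, ∑ j, φ j * x j ≠ 0 ∧ y ∈ Gx I x φ := by
  obtain ⟨k, hk⟩ := Function.ne_iff.1 h.mem_Cx.1
  have h1 : ∃ l, y k * x l - y l * x k ≠ 0 := by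
    by_contra h2
    refine hk (LinearIndependent.pair_iff.1 h.1 (y k) (-x k) (funext fun l => ?_)).1
    have h3 := not_not.1 (not_exists.1 h2 l)
    simp only [Pi.add_apply, Pi.smul_apply, smul_eq_mul, Pi.zero_apply]
    linear_combination h3
  obtain ⟨l, hl⟩ := h1
  have e : ∀ v : Fin M → ℂ, ∑ j, (Pi.single l (y k) - Pi.single k (y l) : Fin M → ℂ) j * v j
      = y k * v l - y l * v k := fun v => by
    simp [sub_mul, Pi.single_apply]
  exact ⟨_, (e x).trans_ne hl, h.mem_Cx, (e y).trans (by ring)⟩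

theorem Gx_line {x φ y : Fin M → ℂ} (hφ : ∑ j, φ j * x j ≠ 0) (hy : y ∈ Gx I x φ) :
    IsLine I x y := by
  refine ⟨LinearIndependent.pair_iff.2 fun a b h => ?_, hy.1.2⟩
  have h1 : ∑ j, φ j * (a • x + b • y) j = a * ∑ j, φ j * x j + b * ∑ j, φ j * y j := by
    simp only [Pi.add_apply, Pi.smul_apply, smul_eq_mul, mul_add, sum_add_distrib, mul_sum,
      mul_left_comm]
  rw [h, hy.2] at h1
  have ha : a = 0 := by simpa [hφ] using h1
  rw [ha, zero_smul, zero_add] at h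
  exact ⟨ha, (smul_eq_zero.1 h).resolve_right hy.1.1⟩

theorem Cx_sub (x : Fin M → ℂ) : Cx I x ⊆ cone I :=
  fun _ hy => ⟨hy.1, fun f hf => by simpa using hy.2 0 1 f hf⟩

theorem Cx_symm {x y : Fin M → ℂ} (hx : x ≠ 0) (h : y ∈ Cx I x) : x ∈ Cx I y :=
  ⟨hx, fun a b f hf => by rw [add_comm]; exact h.2 b a f hf⟩

theorem Cx_line {x y : Fin M → ℂ} (hx : x ≠ 0) (h : y ∈ Cx I x) :
    IsLine I x y ∨ ∃ t : ℂ, t ≠ 0 ∧ y = t • x := by
  by_cases h1 : LinearIndependent ℂ ![x, y]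
  · exact Or.inl ⟨h1, h.2⟩
  · rw [LinearIndependent.pair_iff' hx] at h1
    obtain ⟨t, ht⟩ := not_forall.1 h1
    have e := (not_not.1 ht).symm
    exact Or.inr ⟨t, fun h0 => h.1 (by rw [e, h0, zero_smul]), e⟩

theorem ccone_Cx {x : Fin M → ℂ} : CCone (Cx I x) := by
  refine ⟨fun y hy => hy.1, fun y hy t ht => ⟨smul_ne_zero ht hy.1, fun a b f hf => ?_⟩,
    fun y hy h => ⟨hy, fun a b f hf => ?_⟩⟩
  · rw [smul_smul]
    exact hy.2 _ _ f hf
  · obtain ⟨g, hg⟩ := exists_subst x ![a, b] f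
    exact (hg y).symm.trans (h g fun z hz => (hg z).trans (hz.2 a b f hf))

theorem ccone_Gx {x φ : Fin M → ℂ} : CCone (Gx I x φ) := by
  refine ccone_Cx.sub (fun y hy => hy.1) (fun y hy t ht => ⟨ccone_Cx.smul y hy.1 t ht, ?_⟩)
    fun y hy h => ⟨lin φ, fun h0 => h ⟨hy, (eval_lin φ y).symm.trans h0⟩,
      fun z hz => (eval_lin φ z).trans hz.2⟩
  simp only [Pi.smul_apply, smul_eq_mul, mul_left_comm _ t, ← mul_sum, hy.2, mul_zero]

theorem IsManifold.ccone (hX : IsManifold I c) : CCone (cone I) :=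
  ⟨fun _ hy => hy.1, fun _ hy _ ht => hX.smul_mem hy ht,
    fun _ hy h => ⟨hy, fun f hf => h f fun _ hz => hz.2 f hf⟩⟩

theorem IsManifold.locCut (hX : IsManifold I c) {z : Fin M → ℂ} (hz : z ∈ cone I) :
    LocCut (cone I) z c := by
  obtain ⟨F⟩ := hX.exists_PF hz
  obtain ⟨j, hj⟩ := Function.ne_iff.1 hz.1
  refine ⟨F.f, F.g * X j, ?_, fun i => hz.2 _ (F.f_mem i), fun y hy h => ?_⟩
  · rw [map_mul, eval_X]
    exact mul_ne_zero F.g_ne hj
  · rw [map_mul, eval_X] at hy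
    exact (F.mem_cone (Function.ne_iff.2 ⟨j, right_ne_zero_of_mul hy⟩)
      (left_ne_zero_of_mul hy)).2 h

theorem LocCut.gx {x φ y : Fin M → ℂ} {r : ℕ} (h : LocCut (Cx I x) y r) (hy : y ∈ Gx I x φ) :
    LocCut (Gx I x φ) y (r + 1) :=
  h.add (ι := Unit) (by simp) (fun _ => lin φ) 1 (by simp) (fun _ => (eval_lin φ y).trans hy.2)
    fun z hz _ h1 => ⟨hz, (eval_lin φ z).symm.trans (h1 ())⟩

end Pool.Agent.HCF
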