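import Pool.Agent.P.MP_f644fa_ag.LX1
import Pool.Agent.P.MP_f644fa_ag.LP2

/-! The splitting type of the conormal bundle on a line. -/

noncomputable section
namespace Pool.Agent.HCF
open Finset Module MvPolynomial

variable {M : ℕ} {I : Ideal (SS M)} {c n : ℕ}

theorem lx2_wedge_hom {k : ℕ} {v : Fin k → Fin M → B2} {β : Fin k → ℕ}
    (hv : ∀ i j, (v i j).IsHomogeneous (β i)) (J : Finset (Fin M)) :
    (wedge B2 k v J).IsHomogeneous (∑ i, β i) := by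
  induction k generalizing J with
  | zero =>
    rw [wedge_zero, Pi.single_apply, Fin.sum_univ_zero]
    split_ifs
    · exact isHomogeneous_one _ _
    · exact isHomogeneous_zero _ _ _
  | succ k ih =>
    rw [wedge_succ, Fin.sum_univ_succ, epv, LinearMap.sum_apply, Finset.sum_apply]
    refine IsHomogeneous.sum _ _ _ fun j _ => ?_
    rw [LinearMap.smul_apply, Pi.smul_apply, smul_eq_mul, ep_apply]
    refine (hv 0 j).mul ?_
    split_ifs
    · exact zsmul_mem (S := Submodule ℂ B2) (K := homogeneousSubmodule (Fin 2) ℂ _)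
        (ih (v := Fin.tail v) (β := fun i => β i.succ) (fun i => hv i.succ) _) _
    · exact isHomogeneous_zero _ _ _

theorem lx2_ne : (![1, 0] : Fin 2 → ℂ) ≠ 0 := fun h => one_ne_zero (congrFun h 0)

theorem lx2_nonneg (κ : (Fin 2 → ℂ) → ℂ) (d : ℤ) (h0 : ∀ p, p ≠ 0 → κ p ≠ 0)
    (hκ : ∀ p, p ≠ 0 → ∀ t : ℂ, t ≠ 0 → κ (t • p) = t ^ d * κ p)
    (hr : ∀ p, p ≠ 0 → ∃ D P : B2, eval p D ≠ 0 ∧ ∀ q, q ≠ 0 → eval q D * κ q = eval q P) :
    0 ≤ d := by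
  obtain ⟨f, -, h1, h2⟩ := form_of_regular κ d hκ hr
  by_contra hd
  refine h0 _ lx2_ne ?_
  rw [← h2 _ lx2_ne, h1 (not_le.1 hd), map_zero]

theorem IsLine.frame (hX : IsManifold I c) {s : ℕ} {ν : Finset (Fin M) → secRing I}
    (hν : ν ∈ Hm (secRing I) c s) (hne : ∀ x : cone I, ∃ J, (ν J).1 x ≠ 0)
    {x y : Fin M → ℂ} (hl : IsLine I x y) : ∃ (a : Fin c → ℕ) (η : Fin c → Fin M → B2),
      IsFr (fun p => Es I (pt x y p)) a η ∧ ∑ i, a i = s := by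
  have hB := hX.pgen_Es.pb hl
  obtain ⟨a, η, hfr⟩ := hB.exists_frame lx2_ne ((hX.Es_le _).trans (Submodule.span_mono (by
    rintro _ ⟨f, d, hf, hd, rfl⟩
    exact ⟨d, _, gr_mem_Sec hf hd x y, (pv_rl x y _ _).symm⟩)))
  refine ⟨a, η, hfr, ?_⟩
  have hW := lx2_wedge_hom (v := η) (β := a) fun i j => (hfr.1 i).1 j
  have hκ : ∀ p : Fin 2 → ℂ, ∃ κ : ℂ, ∀ hp : p ≠ 0, κ ≠ 0 ∧ ∀ J, eval p (wedge B2 c η J)
      = κ * (ν J).1 ⟨pt x y p, hl.mem hp⟩ := by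
    intro p
    by_cases hp : p = 0
    · exact ⟨0, fun h => (h hp).elim⟩
    have h1 : (fun J => (ν J).1 ⟨pt x y p, hl.mem hp⟩) ∈ Kf (tangS I (pt x y p)) c :=
      ⟨fun J hJ => by simp only [hν.2.1 J hJ]; rfl,
        (kill_iff hX (Pol_le I) ν).1 hν.1 ⟨pt x y p, hl.mem hp⟩⟩
    have h2 : (fun J => (ν J).1 ⟨pt x y p, hl.mem hp⟩) ≠ 0 := by
      obtain ⟨J, hJ⟩ := hne ⟨pt x y p, hl.mem hp⟩
      exact fun h => hJ (congrFun h J)
    have h3 : wedge ℂ c (fun i => pv p (η i)) ∈ Kf (tangS I (pt x y p)) c :=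
      wedge_mem_Kf fun i => (hfr.1 i).2 p hp
    obtain ⟨κ, hκ⟩ := Kf_top ((hX.finrank_tang (hl.mem hp)).trans (Fintype.card_fin M).symm)
      h1 h2 h3
    refine ⟨κ, fun _ => ⟨?_, fun J => ?_⟩⟩
    · rintro rfl
      exact wedge0_field _ (hfr.2 p hp) (hκ.trans (zero_smul _ _))
    · exact (congrFun (wedge_map (eval p) η) J).trans (congrFun hκ J)
  choose κ hκ using hκ
  have hh : ∀ p, p ≠ 0 → ∀ t : ℂ, t ≠ 0 → κ (t • p) * t ^ s = t ^ (∑ i, a i) * κ p := by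
    intro p hp t ht
    have htp : t • p ≠ 0 := smul_ne_zero ht hp
    obtain ⟨J, hJ⟩ := hne ⟨pt x y p, hl.mem hp⟩
    have h1 := (hκ _ htp).2 J
    have h2 : (ν J).1 ⟨pt x y (t • p), hl.mem htp⟩
        = t ^ (s : ℤ) * (ν J).1 ⟨pt x y p, hl.mem hp⟩ := hν.2.2 J _ _ t (pt_smul x y t p)
    rw [b2_eval_smul (hW J), (hκ p hp).2 J, h2, zpow_natCast] at h1
    refine mul_right_cancel₀ hJ ?_
    rw [mul_assoc, mul_assoc, h1]
  have hr : ∀ p, p ≠ 0 → ∃ D P : B2, eval p D ≠ 0 ∧ ∀ q, q ≠ 0 → eval q D * κ q = eval q P := by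
    intro p hp
    obtain ⟨J, hJ⟩ := hne ⟨pt x y p, hl.mem hp⟩
    obtain ⟨j, hj⟩ := Function.ne_iff.1 (hl.mem hp).1
    obtain ⟨k, P, hP⟩ := (ν J).2 j
    refine ⟨rl x y P, rl x y (X j ^ k) * wedge B2 c η J, ?_, fun q hq => ?_⟩
    · rw [eval_rl, ← hP ⟨pt x y p, hl.mem hp⟩]
      exact mul_ne_zero (pow_ne_zero _ hj) hJ
    · rw [map_mul, eval_rl, eval_rl, ← hP ⟨pt x y q, hl.mem hq⟩, (hκ q hq).2 J, map_pow, eval_X]
      ring
  have h1 : 0 ≤ ((∑ i, a i : ℕ) : ℤ) - s := by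
    refine lx2_nonneg κ _ (fun p hp => (hκ p hp).1) (fun p hp t ht => ?_) hr
    rw [zpow_sub₀ ht, zpow_natCast, zpow_natCast, div_mul_eq_mul_div, ← hh p hp t ht,
      mul_div_cancel_right₀ _ (pow_ne_zero _ ht)]
  have h2 : 0 ≤ (s : ℤ) - ((∑ i, a i : ℕ) : ℤ) := by
    refine lx2_nonneg (fun p => (κ p)⁻¹) _ (fun p hp => inv_ne_zero (hκ p hp).1)
      (fun p hp t ht => ?_) fun p hp => ?_
    · have h3 := hh p hp t ht
      have h4 := (hκ p hp).1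
      have h5 := (hκ _ (smul_ne_zero ht hp)).1
      rw [zpow_sub₀ ht, zpow_natCast, zpow_natCast]
      field_simp
      linear_combination -h3
    · obtain ⟨D, P, hD, h⟩ := hr p hp
      refine ⟨P, D, ?_, fun q hq => ?_⟩
      · rw [← h p hp]
        exact mul_ne_zero hD (hκ p hp).1
      · rw [← h q hq, mul_inv_cancel_right₀ (hκ q hq).1]
  omega

theorem IsLine.finrank_Es (hX : IsManifold I c) {s : ℕ} {ν : Finset (Fin M) → secRing I}
    (hν : ν ∈ Hm (secRing I) c s) (hne : ∀ x : cone I, ∃ J, (ν J).1 x ≠ 0)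
    {x y : Fin M → ℂ} (hl : IsLine I x y) {d : ℕ} (hd : s ≤ d) :
    finrank ℂ (cSec (fun p => Es I (pt x y p)) d) + s = c * d := by
  obtain ⟨a, η, hfr, hs⟩ := hl.frame hX hν hne
  cases d with
  | zero =>
    rw [finrank_cSec_zero]
    omega
  | succ e =>
    have h1 : ∀ i, a i ≤ e + 1 := fun i =>
      ((single_le_sum (fun i _ => Nat.zero_le (a i)) (mem_univ i)).trans hs.le).trans hd
    rw [finrank_cSec, (hX.pgen_Es.pb hl).sec_eq hfr, finrank_Nn (hfr.2 _ lx2_ne), ← hs,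
      ← sum_add_distrib, sum_congr rfl fun i _ => Nat.sub_add_cancel (h1 i)]
    simp

end Pool.Agent.HCF
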