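import Pool.Agent.P.MP_f644fa_ag.Fock

/-! Ladder arguments. -/

noncomputable section
namespace Pool.Agent.HCF
open Finset

variable {σ : Type} [LinearOrder σ] [Fintype σ] {R : Type} [CommRing R] {N : Type}
  [AddCommGroup N] [Module R N]

/-- `lad t δ a r = (kt t - (a + r - 1) δ) ⋯ (kt t - (a + 1) δ) (kt t - a δ)` -/
def lad (N : Type) [AddCommGroup N] [Module R N] (t : Matrix σ σ R) (δ : R) (a : ℕ) :
    ℕ → Module.End R (Finset σ → N)
  | 0 => 1
  | r + 1 => (kt N t - ((a + r : ℕ) * δ) • 1) * lad N t δ a r

theorem lad_realize : True := by have := @lad.eq_def; trivial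

theorem ladder_iov_ep (v : σ → R) (l : σ) :
    iov N v * ep R N l = v l • 1 - ep R N l * iov N v := by
  have h := iov_epv (N := N) v (Pi.single l (1 : R))
  rw [epv_single] at h
  have h2 : ∑ j, v j * (Pi.single l (1 : R) : σ → R) j = v l := by
    rw [Finset.sum_eq_single l]
    · simp
    · intro b _ hb; simp [Pi.single_eq_of_ne hb]
    · intro h; exact absurd (Finset.mem_univ l) h
  rw [h2] at h
  exact eq_sub_of_add_eq h

theorem ladder_aux (v w : σ → R) (l : σ) :
    iov N v * (ep R N l * iov N w) = ep R N l * iov N w * iov N v + v l • iov N w := by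
  have h3 : iov N v * iov N w = -(iov N w * iov N v) := eq_neg_of_add_eq_zero_left (iov_iov v w)
  rw [← mul_assoc, ladder_iov_ep, sub_mul, mul_assoc, h3, smul_mul_assoc, one_mul, mul_assoc]
  have : ep R N l * -(iov N w * iov N v) = -(ep R N l * (iov N w * iov N v)) :=
    LinearMap.ext fun y => by simp [Module.End.mul_apply]
  rw [this]
  abel

theorem iov_kt (t : Matrix σ σ R) (v : σ → R) :
    iov N v * kt N t = kt N t * iov N v + iov N (t.mulVec v) := by
  have h1 : t.mulVec v = ∑ l, v l • fun j => t j l := by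
    ext j
    simp [Matrix.mulVec, dotProduct, Finset.sum_apply, mul_comm]
  rw [h1, iov_sum, kt, Finset.mul_sum, Finset.sum_mul, ← Finset.sum_add_distrib]
  refine Finset.sum_congr rfl fun l _ => ?_
  rw [iov_smul]
  exact ladder_aux v (fun j => t j l) l

theorem kt_one : kt N (1 : Matrix σ σ R) = num R N := by
  rw [kt, num]
  refine Finset.sum_congr rfl fun l _ => ?_
  have : (fun j => (1 : Matrix σ σ R) j l) = Pi.single l (1 : R) := by
    ext j
    simp [Matrix.one_apply, Pi.single_apply]
  rw [this, iov_single]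

theorem iov_num (v : σ → R) : iov N v * num R N = num R N * iov N v + iov N v := by
  have h := iov_kt (N := N) (1 : Matrix σ σ R) v
  rwa [kt_one, Matrix.one_mulVec] at h

/-- a rank one matrix: `t j l = b j * a l` -/
theorem kt_rank_one (b a : σ → R) :
    kt N (Matrix.of fun j l => b j * a l) = epv N a * iov N b := by
  rw [kt, epv, Finset.sum_mul]
  refine Finset.sum_congr rfl fun l _ => ?_
  have : (fun j => (Matrix.of fun j l => b j * a l) j l) = a l • b := by
    ext j
    simp [mul_comm]
  rw [this, iov_smul, mul_smul_comm, smul_mul_assoc]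

theorem kt_add (t t' : Matrix σ σ R) : kt N (t + t') = kt N t + kt N t' := by
  rw [kt, kt, kt, ← Finset.sum_add_distrib]
  refine Finset.sum_congr rfl fun l _ => ?_
  have : (fun j => (t + t') j l) = (fun j => t j l) + fun j => t' j l := rfl
  rw [this, iov_add, mul_add]

theorem ladder_kt_smul (c : R) (t : Matrix σ σ R) : kt N (c • t) = c • kt N t := by
  rw [kt, kt, Finset.smul_sum]
  refine Finset.sum_congr rfl fun l _ => ?_
  have : (fun j => (c • t) j l) = c • fun j => t j l := rfl
  rw [this, iov_smul, mul_smul_comm]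

theorem kt_sub (t t' : Matrix σ σ R) : kt N (t - t') = kt N t - kt N t' := by
  rw [eq_sub_iff_add_eq, ← kt_add, sub_add_cancel]
theorem kt_smul (c : R) (t : Matrix σ σ R) : kt N (c • t) = c • kt N t := ladder_kt_smul c t
theorem kt_sum {ι : Type} (s : Finset ι) (t : ι → Matrix σ σ R) :
    kt N (∑ i ∈ s, t i) = ∑ i ∈ s, kt N (t i) := by
  classical
  induction s using Finset.induction_on with
  | empty =>
    have := kt_smul (N := N) (0 : R) (0 : Matrix σ σ R)
    simpa using this
  | insert a s ha ih => rw [Finset.sum_insert ha, Finset.sum_insert ha, kt_add, ih]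

omit [LinearOrder σ] [Fintype σ] in
theorem ladder_comm (X : Module.End R (Finset σ → N)) (c d : R) :
    (X - c • 1) * (X - d • 1) = (X - d • 1) * (X - c • 1) := by
  simp only [mul_sub, sub_mul, smul_mul_assoc, mul_smul_comm, one_mul, mul_one, smul_sub,
    smul_smul, mul_comm c d]
  abel

theorem ladder_succ (t : Matrix σ σ R) (δ : R) (a r : ℕ) :
    lad N t δ a (r + 1) = (kt N t - ((a : R) * δ) • 1) * lad N t δ (a + 1) r := by
  induction r with
  | zero => simp [lad]
  | succ r ih =>
    rw [lad, ih, ← mul_assoc, ladder_comm, mul_assoc]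
    have : a + (r + 1) = a + 1 + r := by ring
    rw [this]
    rfl

theorem ladder_col {t : Matrix σ σ R} {δ : R} (h : t * t = δ • t) (l : σ) :
    iov N (fun j => t j l) * kt N t =
      kt N t * iov N (fun j => t j l) + δ • iov N fun j => t j l := by
  rw [iov_kt, ← iov_smul]
  have : t.mulVec (fun j => t j l) = δ • fun j => t j l := by
    ext j
    have := congrFun (congrFun h j) l
    simpa [Matrix.mul_apply, Matrix.mulVec, dotProduct] using this
  rw [this]

theorem ladder_shift {t : Matrix σ σ R} {δ : R} (h : t * t = δ • t) (l : σ) (a r : ℕ) :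
    iov N (fun j => t j l) * lad N t δ (a + 1) r = lad N t δ a r * iov N fun j => t j l := by
  induction r with
  | zero => simp [lad]
  | succ r ih =>
    have h1 : iov N (fun j => t j l) * (kt N t - (((a + 1 + r : ℕ) : R) * δ) • 1) =
        (kt N t - (((a + r : ℕ) : R) * δ) • 1) * iov N fun j => t j l := by
      rw [mul_sub, sub_mul, ladder_col h, mul_smul_comm, smul_mul_assoc, mul_one, one_mul]
      have : ((a + 1 + r : ℕ) : R) * δ = ((a + r : ℕ) : R) * δ + δ := by push_cast; ring
      rw [this, add_smul]
      abel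
    rw [lad, lad, ← mul_assoc, h1, mul_assoc, ih, mul_assoc]

theorem ladder_kt_zero {t : Matrix σ σ R} {y : Finset σ → N}
    (hy : ∀ l, iov N (fun j => t j l) y = 0) : kt N t y = 0 := by
  rw [kt, LinearMap.sum_apply]
  refine Finset.sum_eq_zero fun l _ => ?_
  rw [Module.End.mul_apply, hy l, map_zero]

theorem lad_zero_of_lev {t : Matrix σ σ R} {δ : R} (h : t * t = δ • t) (r : ℕ)
    {y : Finset σ → N} (hy : Lev r y) : lad N t δ 0 (r + 1) y = 0 := by
  induction r generalizing y with
  | zero =>
    rw [ladder_succ]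
    simp only [lad, Nat.cast_zero, zero_mul, zero_smul, sub_zero, mul_one]
    exact ladder_kt_zero fun l => hy.iov_zero _
  | succ r ih =>
    rw [ladder_succ]
    simp only [Nat.cast_zero, zero_mul, zero_smul, sub_zero]
    rw [Module.End.mul_apply]
    refine ladder_kt_zero fun l => ?_
    rw [← Module.End.mul_apply, ladder_shift h, Module.End.mul_apply]
    exact ih (hy.iov _)

/-- the spectrum of `kt t` -/
theorem lad_zero {t : Matrix σ σ R} {δ : R} (h : t * t = δ • t) :
    lad N t δ 0 (Fintype.card σ + 1) = 0 :=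
  LinearMap.ext fun y => lad_zero_of_lev h _ (lev_card y)

/-- the projector to the forms killed by the columns of `t` -/
theorem iov_lad {t : Matrix σ σ R} {δ : R} (h : t * t = δ • t) (l : σ) (y : Finset σ → N) :
    iov N (fun j => t j l) (lad N t δ 1 (Fintype.card σ) y) = 0 := by
  have h1 := ladder_shift (N := N) h l 0 (Fintype.card σ)
  rw [zero_add] at h1
  rw [← Module.End.mul_apply, h1, Module.End.mul_apply]
  have hpos : 0 < Fintype.card σ := Fintype.card_pos_iff.2 ⟨l⟩
  obtain ⟨n, hn⟩ : ∃ n, Fintype.card σ = n + 1 := ⟨Fintype.card σ - 1, by omega⟩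
  have h2 := lev_card y
  rw [hn] at h2 ⊢
  exact lad_zero_of_lev h n (h2.iov _)

theorem lad_of_ker {t : Matrix σ σ R} (δ : R) (r : ℕ) {y : Finset σ → N}
    (hy : ∀ l, iov N (fun j => t j l) y = 0) :
    lad N t δ 1 r y = ((-1) ^ r * (r.factorial : R) * δ ^ r) • y := by
  induction r with
  | zero => simp [lad]
  | succ r ih =>
    rw [lad, Module.End.mul_apply, ih, map_smul, LinearMap.sub_apply, ladder_kt_zero hy,
      LinearMap.smul_apply, Module.End.one_apply, zero_sub, ← neg_smul, smul_smul,
      Nat.factorial_succ]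
    congr 1
    push_cast
    ring

theorem ladder_top {K : Type} [Field K] [CharZero K] {k : ℕ} (hk : 0 < k) {y : Finset σ → K}
    (hy : Deg k y) (h : ∀ v : σ → K, iov K v y = 0) : y = 0 := by
  have h1 : num K K y = 0 := by
    rw [← kt_one]
    exact ladder_kt_zero fun l => h _
  ext J
  by_cases hJ : J.card = k
  · have h2 := num_apply (R := K) y J
    rw [h1, hJ, nsmul_eq_mul] at h2
    have h3 : (k : K) ≠ 0 := Nat.cast_ne_zero.2 hk.ne'
    exact (mul_eq_zero.1 h2.symm).resolve_left h3
  · exact hy J hJ

theorem ladder_ind {K : Type} [Field K] [CharZero K] (c : ℕ) :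
    ∀ (T : Submodule K (σ → K)) (k : ℕ), Fintype.card σ ≤ Module.finrank K T + c → c < k →
      ∀ y : Finset σ → K, Deg k y → (∀ v ∈ T, iov K v y = 0) → y = 0 := by
  induction c with
  | zero =>
    intro T k hT hk y hy h
    have h1 : T = ⊤ := by
      apply Submodule.eq_top_of_finrank_eq
      have h2 := Submodule.finrank_le T
      rw [Module.finrank_fintype_fun_eq_card] at h2 ⊢
      omega
    exact ladder_top hk hy fun v => h v (h1 ▸ Submodule.mem_top)
  | succ c ih =>
    intro T k hT hk y hy h
    by_cases h1 : T = ⊤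
    · exact ladder_top (by omega) hy fun v => h v (h1 ▸ Submodule.mem_top)
    obtain ⟨b, hb⟩ : ∃ b, b ∉ T := by
      by_contra hc
      push Not at hc
      exact h1 (Submodule.eq_top_iff'.2 hc)
    have hlt : T < T ⊔ Submodule.span K {b} :=
      lt_of_le_of_ne le_sup_left fun he => hb
        (he ▸ Submodule.mem_sup_right (Submodule.mem_span_singleton_self b))
    have hr := Submodule.finrank_lt_finrank_of_lt hlt
    have hT' : Fintype.card σ ≤ Module.finrank K (T ⊔ Submodule.span K {b} :
        Submodule K (σ → K)) + c := by omega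
    have key : ∀ z : Finset σ → K, (∀ v ∈ T, iov K v z = 0) → iov K b z = 0 →
        ∀ v ∈ T ⊔ Submodule.span K {b}, iov K v z = 0 := by
      intro z hz hbz v hv
      obtain ⟨u, hu, w, hw, rfl⟩ := Submodule.mem_sup.1 hv
      obtain ⟨a, rfl⟩ := Submodule.mem_span_singleton.1 hw
      rw [iov_add, iov_smul, LinearMap.add_apply, LinearMap.smul_apply, hz u hu, hbz, smul_zero,
        add_zero]
    obtain ⟨m, rfl⟩ : ∃ m, k = m + 1 := ⟨k - 1, by omega⟩
    have h2 : iov K b y = 0 := by
      refine ih _ m hT' (by omega) _ (hy.iov b) (key _ (fun v hv => ?_) ?_)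
      · have h3 := LinearMap.congr_fun (iov_iov (N := K) v b) y
        rw [LinearMap.add_apply, Module.End.mul_apply, Module.End.mul_apply, h v hv, map_zero,
          add_zero] at h3
        exact h3
      · exact LinearMap.congr_fun (iov_sq (N := K) b) y
    exact ih _ (m + 1) hT' (by omega) y hy (key y h h2)

/-- no forms of degree above the codimension -/
theorem deg_gt_eq_zero {K : Type} [Field K] [CharZero K] (T : Submodule K (σ → K)) {c k : ℕ}
    (hT : Fintype.card σ ≤ Module.finrank K T + c) (hk : c < k) {y : Finset σ → K} (hy : Deg k y)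
    (h : ∀ v ∈ T, iov K v y = 0) : y = 0 :=
  ladder_ind c T k hT hk y hy h

end Pool.Agent.HCF
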