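import Pool.Agent.Lib.SCV.Smooth

/-! Entire functions of polynomial growth, holomorphic dependence of simple roots. -/

noncomputable section
namespace Pool.Agent.HCF
open MvPolynomial Set Filter Topology

theorem liouv0_one (E : ℕ) : ∀ (f : ℂ → ℂ), Differentiable ℂ f → ∀ C : ℝ,
    (∀ z, ‖f z‖ ≤ C * (1 + ‖z‖) ^ E) →
    ∃ p : Polynomial ℂ, p.natDegree ≤ E ∧ ∀ z, f z = p.eval z := by
  induction E with
  | zero =>
    intro f hf C h
    obtain ⟨c, hc⟩ := hf.exists_const_forall_eq_of_bounded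
      (isBounded_iff_forall_norm_le.2 ⟨C, by
        rintro _ ⟨z, rfl⟩
        simpa using h z⟩)
    exact ⟨Polynomial.C c, by simp, by simpa using hc⟩
  | succ E ih =>
    intro f hf C h
    have hC : 0 ≤ C := by
      have := (norm_nonneg _).trans (h 0)
      simpa using this
    have hg : Differentiable ℂ (dslope f 0) :=
      differentiableOn_univ.1 ((Complex.differentiableOn_dslope univ_mem).2 hf.differentiableOn)
    obtain ⟨M, hM⟩ := (isCompact_closedBall (0 : ℂ) 1).exists_bound_of_continuousOn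
      hg.continuous.continuousOn
    have hM0 : 0 ≤ M := (norm_nonneg _).trans (hM 0 (by simp))
    have hfz : ∀ z, z * dslope f 0 z = f z - f 0 := fun z => by
      simpa using sub_smul_dslope f 0 z
    obtain ⟨p, hp, hpz⟩ := ih _ hg (4 * C + M) fun z => by
      have h1 : 1 ≤ (1 + ‖z‖) ^ E := one_le_pow₀ (by simp)
      rcases le_total ‖z‖ 1 with hz | hz
      · have := hM z (by simpa using hz)
        nlinarith
      · have h0 : ‖f 0‖ ≤ C := by simpa using h 0
        have h2 : ‖z‖ * ‖dslope f 0 z‖ ≤ C * (1 + ‖z‖) ^ (E + 1) + C := by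
          rw [← norm_mul, hfz]
          exact (norm_sub_le _ _).trans (add_le_add (h z) h0)
        have h3 : C * (1 + ‖z‖) ^ (E + 1) + C ≤ ‖z‖ * (4 * C * (1 + ‖z‖) ^ E) := by
          have h4 : C ≤ C * (1 + ‖z‖) ^ E := le_mul_of_one_le_right hC h1
          have h5 : 0 ≤ C * (1 + ‖z‖) ^ E := hC.trans h4
          rw [pow_succ]
          nlinarith
        have h6 := le_of_mul_le_mul_left (h2.trans h3) (by linarith)
        nlinarith
    refine ⟨Polynomial.C (f 0) + Polynomial.X * p, ?_, fun z => ?_⟩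
    · refine (Polynomial.natDegree_add_le _ _).trans (max_le (by simp) ?_)
      refine Polynomial.natDegree_mul_le.trans ?_
      rw [Polynomial.natDegree_X]
      omega
    · simp [← hpz, hfz]

theorem liouv0_cons {e : ℕ} (z : ℂ) (b : Fin e → ℂ) :
    1 + ‖(Fin.cons z b : Fin (e + 1) → ℂ)‖ ≤ (1 + ‖z‖) * (1 + ‖b‖) := by
  have h : ‖(Fin.cons z b : Fin (e + 1) → ℂ)‖ ≤ ‖z‖ + ‖b‖ := by
    refine (pi_norm_le_iff_of_nonneg (by positivity)).2 fun i => ?_
    refine Fin.cases ?_ (fun j => ?_) i
    · simp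
    · simpa using (norm_le_pi_norm b j).trans (le_add_of_nonneg_left (norm_nonneg z))
  nlinarith [mul_nonneg (norm_nonneg z) (norm_nonneg b)]

/-- Liouville -/
theorem poly_of_growth {e : ℕ} {u : (Fin e → ℂ) → ℂ} (hu : Differentiable ℂ u) {C : ℝ} {E : ℕ}
    (h : ∀ b, ‖u b‖ ≤ C * (1 + ‖b‖) ^ E) : ∃ p : MvPolynomial (Fin e) ℂ, ∀ b, u b = eval b p := by
  induction e generalizing C with
  | zero => exact ⟨MvPolynomial.C (u 0), fun b => by rw [eval_C, Subsingleton.elim b 0]⟩
  | succ e ih =>
    have hC : 0 ≤ C := by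
      have := (norm_nonneg _).trans (h 0)
      simpa using this
    have hb : ∀ (z : ℂ) (b : Fin e → ℂ),
        ‖u (Fin.cons z b)‖ ≤ C * ((1 + ‖z‖) ^ E * (1 + ‖b‖) ^ E) := fun z b => by
      refine (h _).trans (mul_le_mul_of_nonneg_left ?_ hC)
      rw [← mul_pow]
      exact pow_le_pow_left₀ (by positivity) (liouv0_cons z b) E
    have h1 : ∀ z : ℂ, ∃ q : MvPolynomial (Fin e) ℂ, ∀ b, u (Fin.cons z b) = eval b q := fun z =>
      ih (u := fun b => u (Fin.cons z b)) (C := C * (1 + ‖z‖) ^ E)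
        (hu.comp (differentiable_pi.2 fun i => by
          refine Fin.cases ?_ (fun j => ?_) i
          · simp
          · simpa using differentiable_apply j))
        fun b => by rw [mul_assoc]; exact hb z b
    choose q hq using h1
    refine ⟨∑ i ∈ Finset.range (E + 1), rename Fin.succ (q i) *
      Polynomial.aeval (X 0) (Lagrange.basis (Finset.range (E + 1)) (fun i : ℕ => (i : ℂ)) i),
      fun b => ?_⟩
    obtain ⟨p, hp, hpz⟩ := liouv0_one E (fun z => u (Fin.cons z (Fin.tail b)))
      (hu.comp (differentiable_pi.2 fun i => by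
          refine Fin.cases ?_ (fun j => ?_) i
          · simp
          · simp))
      (C * (1 + ‖Fin.tail b‖) ^ E) fun z => (hb z _).trans_eq (by ring)
    have h2 := Lagrange.eq_interpolate (s := Finset.range (E + 1)) (v := fun i : ℕ => (i : ℂ))
      (f := p) (Nat.cast_injective (R := ℂ)).injOn
      (Polynomial.degree_le_natDegree.trans_lt (by
        rw [Finset.card_range]
        exact_mod_cast Nat.lt_succ_of_le hp))
    have h3 := hpz (b 0)
    rw [Fin.cons_self_tail] at h3
    rw [h3, h2, Lagrange.interpolate_apply, Polynomial.eval_finsetSum, map_sum]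
    refine Finset.sum_congr rfl fun i _ => ?_
    rw [Polynomial.eval_mul, Polynomial.eval_C, map_mul, eval_rename, ← hpz, hq]
    congr 1
    have h4 := Polynomial.aeval_algHom_apply (MvPolynomial.aeval (R := ℂ) b) (X 0)
      (Lagrange.basis (Finset.range (E + 1)) (fun i : ℕ => (i : ℂ)) i)
    rw [aeval_X] at h4
    exact h4

/-- a removable singularity theorem -/
theorem differentiable_sq_mul {e : ℕ} (Δ : MvPolynomial (Fin e) ℂ) {t : (Fin e → ℂ) → ℂ}
    (ht : ∀ b, eval b Δ ≠ 0 → DifferentiableAt ℂ t b) {C : ℝ} {E : ℕ}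
    (h : ∀ b, ‖t b‖ ≤ C * (1 + ‖b‖) ^ E) :
    Differentiable ℂ fun b => eval b Δ ^ 2 * t b := by
  intro b
  have hΔ : DifferentiableAt ℂ (fun b : Fin e → ℂ => eval b Δ) b :=
    (AnalyticOnNhd.eval_mvPolynomial Δ b (mem_univ _)).differentiableAt
  by_cases h0 : eval b Δ = 0
  · have h1 : (fun x : Fin e → ℂ => eval x Δ) =O[𝓝 b] fun x => x - b := by
      simpa [h0] using hΔ.isBigO_sub
    have h2 : (fun x : Fin e → ℂ => eval x Δ) =o[𝓝 b] fun _ => (1 : ℝ) := by
      rw [Asymptotics.isLittleO_one_iff, ← h0]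
      exact hΔ.continuousAt
    have hc : ContinuousAt (fun x : Fin e → ℂ => C * (1 + ‖x‖) ^ E) b := by fun_prop
    have h3 : t =O[𝓝 b] fun _ => (1 : ℝ) :=
      (Asymptotics.IsBigO.of_bound' (Eventually.of_forall fun x =>
        (h x).trans (le_abs_self _))).trans (hc.tendsto.isBigO_one ℝ)
    have h4 := h1.norm_right.mul_isLittleO (h2.mul_isBigO h3)
    refine (HasFDerivAt.of_isLittleO (f' := 0) ?_).differentiableAt
    refine Asymptotics.IsLittleO.of_norm_right (h4.congr (fun x => ?_) fun x => ?_)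
    · simp [h0, sq, mul_assoc]
    · simp
  · exact (hΔ.pow 2).mul (ht b h0)

end Pool.Agent.HCF
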