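import Pool.Agent.P.MP_f644fa_ag.Prod
import Pool.Agent.P.MP_f644fa_ag.Ladder

/-! The abstract setting for the numerical identities. -/

noncomputable section
namespace Pool.Agent.HCF
open Finset Module PowerSeries
open scoped Kronecker

/-- The coordinate ring `R` of the cone and the ring `RR` of its square. -/
structure NS0 (M n : ℕ) (X R RR : Type) [CommRing R] [Algebra ℂ R] [CommRing RR] [Algebra ℂ RR] where
  x : Fin M → R
  gen : Function.Surjective (MvPolynomial.aeval x : MvPolynomial (Fin M) ℂ →ₐ[ℂ] R)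
  s1 : R →ₐ[ℂ] R
  s1_x : ∀ j, s1 (x j) = 2 * x j
  inl : R →ₐ[ℂ] RR
  inr : R →ₐ[ℂ] RR
  gen2 : Function.Surjective (MvPolynomial.aeval (Sum.elim (fun j => inl (x j)) fun j => inr (x j)) :
    MvPolynomial (Fin M ⊕ Fin M) ℂ →ₐ[ℂ] RR)
  s2 : RR →ₐ[ℂ] RR
  s2_inl : ∀ a, s2 (inl a) = inl (s1 a)
  s2_inr : ∀ a, s2 (inr a) = inr (s1 a)
  mu : RR →ₐ[ℂ] R
  mu_inl : ∀ a, mu (inl a) = a
  mu_inr : ∀ a, mu (inr a) = a
  fl : RR →ₐ[ℂ] RR
  fl_inl : ∀ a, fl (inl a) = inr a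
  fl_inr : ∀ a, fl (inr a) = inl a
  ev : X → R →ₐ[ℂ] ℂ
  sep : ∀ a, (∀ p, ev p a = 0) → a = 0
  sl : X → RR →ₐ[ℂ] R
  sl_inl : ∀ p a, sl p (inl a) = algebraMap ℂ R (ev p a)
  sl_inr : ∀ p a, sl p (inr a) = a
  ns : ∀ I : Ideal R, (∀ p, ∃ g ∈ I, ev p g ≠ 0) → ∀ j, ∃ K : ℕ, x j ^ K ∈ I
  T : X → Submodule ℂ (Fin M → ℂ)
  dbl : X → X
  ev_dbl : ∀ p a, ev p (s1 a) = ev (dbl p) a
  T_dbl : ∀ p, T (dbl p) = T p
  l : Fin (n + 1) → R
  s1_l : ∀ i, s1 (l i) = 2 * l i
  bpf : ∀ p, ∃ i, ev p (l i) ≠ 0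

variable {M n : ℕ} {X R RR : Type} [CommRing R] [Algebra ℂ R] [CommRing RR] [Algebra ℂ RR]

/-- the equations of the diagonal -/
def NS0.u (S : NS0 M n X R RR) (j : Fin M) : RR := S.inl (S.x j) - S.inr (S.x j)

/-- A local frame at the point `p`. -/
structure Frame (S : NS0 M n X R RR) (p : X) where
  c : ℕ
  δ : R
  t : Matrix (Fin M) (Fin M) R
  J : Fin c → Fin M → R
  b : Fin c → Fin M → R
  a : Fin c → Fin M → RR
  D : Fin M → Derivation ℂ RR RR
  ne : S.ev p δ ≠ 0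
  t_eq : t = δ • 1 - ∑ i, Matrix.of fun j l => b i j * J i l
  tt : t * t = δ • t
  t_tan : ∀ q l, (fun j => S.ev q (t j l)) ∈ S.T q
  J_tan : ∀ q, ∀ v ∈ S.T q, ∀ i, ∑ l, v l * S.ev q (J i l) = 0
  a_u : ∀ i, ∑ j, S.u j * a i j = 0
  mu_a : ∀ i j, S.mu (a i j) = J i j
  D_inl : ∀ l j, D l (S.inl (S.x j)) = S.inl (t j l)
  D_inr : ∀ l r, D l (S.inr r) = 0

/-- the setting with local frames -/
structure NS (M n : ℕ) (X R RR : Type) [CommRing R] [Algebra ℂ R] [CommRing RR] [Algebra ℂ RR]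
    extends NS0 M n X R RR where
  frame : ∀ p, Nonempty (Frame toNS0 p)

/-- the operator given by a constant matrix -/
def cst (N : Type) [AddCommGroup N] [Module ℂ N] {I I' : Type} [Fintype I'] (T : Matrix I I' ℂ) :
    (I' → N) →ₗ[ℂ] I → N where
  toFun y A := ∑ B, T A B • y B
  map_add' a b := by ext A; simp [sum_add_distrib]
  map_smul' c a := by ext A; simp [smul_sum, smul_comm c]

theorem cst_apply {N : Type} [AddCommGroup N] [Module ℂ N] {I I' : Type} [Fintype I']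
    (T : Matrix I I' ℂ) (y : I' → N) (A : I) : cst N T y A = ∑ B, T A B • y B := rfl

/-- the scaling operator -/
def NS0.sc (S : NS0 M n X R RR) {I : Type} (w : I → ℕ) : End ℂ (I → R) :=
  piOp (fun A => 2 ^ w A) S.s1.toLinearMap

/-- The sections of a subbundle of a trivial bundle. -/
structure Dat (S : NS0 M n X R RR) (I : Type) [Fintype I] where
  w : I → ℕ
  G : Submodule R (I → R)
  inv : ∀ ω ∈ G, S.sc w ω ∈ G
  loc : ∀ p, ∃ (g : R) (π : Matrix I I R), S.ev p g ≠ 0 ∧ (∀ ω, π.mulVec ω ∈ G) ∧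
    ∀ ω ∈ G, π.mulVec ω = g • ω

variable {S : NS0 M n X R RR} {I I' : Type} [Fintype I] [Fintype I']

/-- the sections, as a complex subspace -/
def Dat.V (D : Dat S I) : Submodule ℂ (I → R) := D.G.restrictScalars ℂ

/-- a constant endomorphism of the bundle -/
structure Dat.Ok (D : Dat S I) (T : Matrix I I ℂ) : Prop where
  map : ∀ ω ∈ D.G, cst R T ω ∈ D.G
  wt : ∀ A B, T A B ≠ 0 → D.w A = D.w B

/-- the graded trace -/
def Dat.chi (D : Dat S I) (T : Matrix I I ℂ) : ℂ⟦X⟧ := HCF.chi (S.sc D.w) D.V (cst R T)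

/-- the trivial bundle -/
def Dat.one (S : NS0 M n X R RR) : Dat S Unit where
  w _ := 0
  G := ⊤
  inv _ _ := trivial
  loc p := ⟨1, 1, by simp, fun _ => trivial, fun ω _ => by simp⟩

/-- sections of the tensor product -/
def Dat.tG (D : Dat S I) (D' : Dat S I') : Submodule R (I × I' → R) where
  carrier := {ω | (∀ B, (fun A => ω (A, B)) ∈ D.G) ∧ ∀ A, (fun B => ω (A, B)) ∈ D'.G}
  add_mem' ha hb := ⟨fun B => D.G.add_mem (ha.1 B) (hb.1 B), fun A => D'.G.add_mem (ha.2 A) (hb.2 A)⟩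
  zero_mem' := ⟨fun _ => D.G.zero_mem, fun _ => D'.G.zero_mem⟩
  smul_mem' c _ ha := ⟨fun B => D.G.smul_mem c (ha.1 B), fun A => D'.G.smul_mem c (ha.2 A)⟩

/-- forms that are killed by tangent vectors -/
def NS0.lamG (S : NS0 M n X R RR) : Submodule R (Finset (Fin M) → R) where
  carrier := {ω | ∀ p, ∀ v ∈ S.T p, iov ℂ v (fun J => S.ev p (ω J)) = 0}
  add_mem' {a b} ha hb p v hv := by
    have h : (fun J => S.ev p ((a + b) J)) = (fun J => S.ev p (a J)) + fun J => S.ev p (b J) := by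
      ext J; simp
    rw [h, map_add, ha p v hv, hb p v hv, add_zero]
  zero_mem' p v _ := by
    have h : (fun J => S.ev p ((0 : Finset (Fin M) → R) J)) = 0 := by ext J; simp
    rw [h, map_zero]
  smul_mem' c a ha p v hv := by
    have h : (fun J => S.ev p ((c • a) J)) = S.ev p c • fun J => S.ev p (a J) := by ext J; simp
    rw [h, map_smul, ha p v hv, smul_zero]

/-- conormal forms of degree `k` with coefficients of degree `m` -/
def NS0.Hm (S : NS0 M n X R RR) (k : ℕ) (m : ℤ) : Submodule ℂ (Finset (Fin M) → R) where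
  carrier := {ω | ω ∈ S.lamG ∧ Deg k ω ∧ ∀ J, ω J ∈ Eg S.s1.toLinearMap m}
  add_mem' ha hb := ⟨S.lamG.add_mem ha.1 hb.1, fun J h => by simp [ha.2.1 J h, hb.2.1 J h],
    fun J => Submodule.add_mem _ (ha.2.2 J) (hb.2.2 J)⟩
  zero_mem' := ⟨S.lamG.zero_mem, fun _ _ => rfl, fun _ => Submodule.zero_mem _⟩
  smul_mem' c _ ha := ⟨S.lamG.smul_of_tower_mem c ha.1, fun J h => by simp [ha.2.1 J h],
    fun J => Submodule.smul_mem _ c (ha.2.2 J)⟩

/-- their Hilbert series -/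
def NS0.HS (S : NS0 M n X R RR) (k : ℕ) : ℂ⟦X⟧ :=
  PowerSeries.mk fun m => (finrank ℂ (S.Hm k m) : ℂ)

/-- the projector to degree `k` -/
def piM (σ : Type) [DecidableEq σ] (k : ℕ) : Matrix (Finset σ) (Finset σ) ℂ :=
  Matrix.diagonal fun J => if J.card = k then 1 else 0

/-- the operator `ε ^ degree` -/
def parM (σ : Type) [DecidableEq σ] (ε : ℂ) : Matrix (Finset σ) (Finset σ) ℂ :=
  Matrix.diagonal fun J => ε ^ J.card

/-- the exchange of the two factors -/
def swM (I : Type) [DecidableEq I] : Matrix (I × I) (I × I) ℂ :=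
  Matrix.of fun q q' => if q' = q.swap then 1 else 0

/-- the exterior product of two sections -/
def NS0.β (S : NS0 M n X R RR) (I I' : Type) : (I → R) →ₗ[ℂ] (I' → R) →ₗ[ℂ] I × I' → RR :=
  LinearMap.mk₂ ℂ (fun ω η q => S.inl (ω q.1) * S.inr (η q.2))
    (fun _ _ _ => by ext q; simp [add_mul]) (fun _ _ _ => by ext q; simp)
    (fun _ _ _ => by ext q; simp [mul_add]) (fun _ _ _ => by ext q; simp)

theorem NS0.β_apply (S : NS0 M n X R RR) {I I' : Type} (ω : I → R) (η : I' → R) (q : I × I') :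
    S.β I I' ω η q = S.inl (ω q.1) * S.inr (η q.2) := rfl

/-- sections of the exterior tensor product -/
def Dat.MM (D : Dat S I) (D' : Dat S I') : Submodule RR (I × I' → RR) :=
  Submodule.span RR {y | ∃ ω ∈ D.G, ∃ η ∈ D'.G, S.β I I' ω η = y}

/-- the Koszul complex of the diagonal -/
def Dat.KK (D : Dat S I) (D' : Dat S I') : Submodule RR (Finset (Fin M) → I × I' → RR) :=
  Submodule.pi Set.univ fun _ => D.MM D'

/-- restriction to the diagonal -/
def NS0.muh (S : NS0 M n X R RR) (I : Type) :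
    (Finset (Fin M) → I → RR) →ₗ[ℂ] Finset (Fin M) × I → R where
  toFun z q := S.mu (z q.1 q.2)
  map_add' a b := by ext q; simp
  map_smul' c a := by ext q; simp

/-- the differential -/
def NS0.dd (S : NS0 M n X R RR) (I : Type) : End ℂ (Finset (Fin M) → I → RR) :=
  (iov (I → RR) S.u).restrictScalars ℂ

/-- scaling on the square -/
def NS0.sc2 (S : NS0 M n X R RR) {I : Type} (w : I → ℕ) : End ℂ (I → RR) :=
  piOp (fun A => 2 ^ w A) S.s2.toLinearMap

/-- scaling on the Koszul complex -/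
def NS0.sK (S : NS0 M n X R RR) {I : Type} (w : I → ℕ) : End ℂ (Finset (Fin M) → I → RR) :=
  piOp (fun J => 2 ^ J.card) (S.sc2 w)

end Pool.Agent.HCF
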