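import Pool.Agent.P.MP_f644fa_ag.Sec2
import Pool.Agent.P.MP_f644fa_ag.NDefs

/-! The abstract numerical setting holds for a projective manifold. -/

noncomputable section
namespace Pool.Agent.HCF
open MvPolynomial Module Set

variable {M : ℕ} {I : Ideal (SS M)} {c n : ℕ}

/-- the function on the square of the cone defined by a polynomial -/
def pf2 (I : Ideal (SS M)) : MvPolynomial (Fin M ⊕ Fin M) ℂ →ₐ[ℂ] (cone I × cone I → ℂ) :=
  aeval (Sum.elim (fun j p => p.1.1 j) fun j p => p.2.1 j)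

/-- polynomial functions on the square -/
def Pol2 (I : Ideal (SS M)) : Subalgebra ℂ (cone I × cone I → ℂ) := (pf2 I).range

/-- pull-back of functions -/
def pb {Y Y' : Type} (O : Subalgebra ℂ (Y → ℂ)) (O' : Subalgebra ℂ (Y' → ℂ)) (φ : Y' → Y)
    (h : ∀ a ∈ O, a ∘ φ ∈ O') : O →ₐ[ℂ] O' where
  toFun a := ⟨a.1 ∘ φ, h a.1 a.2⟩
  map_one' := rfl
  map_mul' _ _ := rfl
  map_zero' := rfl
  map_add' _ _ := rfl
  commutes' _ := rfl

theorem nsInst0_pf2_apply (f : MvPolynomial (Fin M ⊕ Fin M) ℂ) (p : cone I × cone I) :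
    pf2 I f p = eval (Sum.elim p.1.1 p.2.1) f := by
  induction f using MvPolynomial.induction_on with
  | C a => simp [pf2]
  | add f g hf hg => simp only [map_add, Pi.add_apply, hf, hg]
  | mul_X f j hf =>
    rw [map_mul, map_mul, Pi.mul_apply, hf]
    rcases j with j | j <;> simp [pf2]

theorem nsInst0_mem {a : cone I → ℂ} : a ∈ Pol I ↔ ∃ f : SS M, ∀ x : cone I, a x = eval x.1 f := by
  constructor
  · rintro ⟨f, rfl⟩
    exact ⟨f, fun x => pf_apply f x⟩
  · rintro ⟨f, hf⟩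
    have h : a = pf I f := funext fun x => by rw [hf, pf_apply]
    rw [h]
    exact pf_mem f

theorem nsInst0_mem2 {a : cone I × cone I → ℂ} : a ∈ Pol2 I ↔
    ∃ f : MvPolynomial (Fin M ⊕ Fin M) ℂ, ∀ p : cone I × cone I,
      a p = eval (Sum.elim p.1.1 p.2.1) f := by
  constructor
  · rintro ⟨f, rfl⟩
    exact ⟨f, fun x => nsInst0_pf2_apply f x⟩
  · rintro ⟨f, hf⟩
    have h : a = pf2 I f := funext fun x => by rw [hf, nsInst0_pf2_apply]
    rw [h]
    exact ⟨f, rfl⟩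

theorem nsInst0_eval_aeval {σ τ : Type} (x : τ → ℂ) (g : σ → MvPolynomial τ ℂ)
    (f : MvPolynomial σ ℂ) : eval x (aeval g f) = eval (fun j => eval x (g j)) f := by
  induction f using MvPolynomial.induction_on with
  | C a => simp
  | add f g hf hg => simp only [map_add, hf, hg]
  | mul_X f j hf => simp only [map_mul, hf, aeval_X, eval_X]

/-- the point `2 x` -/
def nsInst0_dbl (hX : IsManifold I c) (p : cone I) : cone I :=
  ⟨(2 : ℂ) • p.1, hX.smul_mem p.2 two_ne_zero⟩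

theorem nsInst0_s1 (hX : IsManifold I c) : ∀ a ∈ Pol I, a ∘ nsInst0_dbl hX ∈ Pol I := by
  intro a ha
  obtain ⟨f, hf⟩ := nsInst0_mem.1 ha
  refine nsInst0_mem.2 ⟨aeval (fun j => C 2 * X j) f, fun x => ?_⟩
  rw [Function.comp_apply, hf, nsInst0_eval_aeval]
  congr 2
  funext j
  simp [nsInst0_dbl]

theorem nsInst0_inl : ∀ a ∈ Pol I, a ∘ (Prod.fst : cone I × cone I → cone I) ∈ Pol2 I := by
  intro a ha
  obtain ⟨f, hf⟩ := nsInst0_mem.1 ha
  refine nsInst0_mem2.2 ⟨rename Sum.inl f, fun x => ?_⟩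
  rw [Function.comp_apply, hf, eval_rename]
  rfl

theorem nsInst0_inr : ∀ a ∈ Pol I, a ∘ (Prod.snd : cone I × cone I → cone I) ∈ Pol2 I := by
  intro a ha
  obtain ⟨f, hf⟩ := nsInst0_mem.1 ha
  refine nsInst0_mem2.2 ⟨rename Sum.inr f, fun x => ?_⟩
  rw [Function.comp_apply, hf, eval_rename]
  rfl

theorem nsInst0_s2 (hX : IsManifold I c) : ∀ a ∈ Pol2 I,
    a ∘ Prod.map (nsInst0_dbl hX) (nsInst0_dbl hX) ∈ Pol2 I := by
  intro a ha
  obtain ⟨f, hf⟩ := nsInst0_mem2.1 ha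
  refine nsInst0_mem2.2 ⟨aeval (fun j => C 2 * X j) f, fun x => ?_⟩
  rw [Function.comp_apply, hf, nsInst0_eval_aeval]
  congr 2
  funext j
  rcases j with j | j <;> simp [nsInst0_dbl]

theorem nsInst0_mu : ∀ a ∈ Pol2 I, a ∘ (fun p : cone I => (p, p)) ∈ Pol I := by
  intro a ha
  obtain ⟨f, hf⟩ := nsInst0_mem2.1 ha
  refine nsInst0_mem.2 ⟨rename (Sum.elim id id) f, fun x => ?_⟩
  rw [Function.comp_apply, hf, eval_rename]
  congr 2
  funext j
  rcases j with j | j <;> rfl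

theorem nsInst0_fl : ∀ a ∈ Pol2 I, a ∘ (Prod.swap : cone I × cone I → cone I × cone I) ∈ Pol2 I := by
  intro a ha
  obtain ⟨f, hf⟩ := nsInst0_mem2.1 ha
  refine nsInst0_mem2.2 ⟨rename Sum.swap f, fun x => ?_⟩
  rw [Function.comp_apply, hf, eval_rename]
  congr 2
  funext j
  rcases j with j | j <;> rfl

theorem nsInst0_sl (p : cone I) : ∀ a ∈ Pol2 I, a ∘ (fun q : cone I => (p, q)) ∈ Pol I := by
  intro a ha
  obtain ⟨f, hf⟩ := nsInst0_mem2.1 ha
  refine nsInst0_mem.2 ⟨aeval (Sum.elim (fun j => C (p.1 j)) X) f, fun x => ?_⟩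
  rw [Function.comp_apply, hf, nsInst0_eval_aeval]
  congr 2
  funext j
  rcases j with j | j <;> simp

/-- the coordinate functions -/
def nsInst0_x (I : Ideal (SS M)) (j : Fin M) : Pol I := ⟨_, pf_mem (X j)⟩

theorem nsInst0_x_apply (j : Fin M) (p : cone I) : (nsInst0_x I j).1 p = p.1 j := by
  simp [nsInst0_x, pf]

theorem nsInst0_aeval (f : SS M) : (aeval (nsInst0_x I) f : Pol I) = ⟨pf I f, pf_mem f⟩ := by
  have h : (Pol I).val.comp (aeval (nsInst0_x I)) = pf I := by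
    refine MvPolynomial.algHom_ext fun j => ?_
    simp [nsInst0_x]
  exact Subtype.ext (DFunLike.congr_fun h f)

/-- evaluation at a point -/
def nsInst0_ev (p : cone I) : Pol I →ₐ[ℂ] ℂ := (Pi.evalAlgHom ℂ (fun _ : cone I => ℂ) p).comp (Pol I).val

/-- divided differences -/
theorem exists_divdiff (f : SS M) : ∃ a : Fin M → MvPolynomial (Fin M ⊕ Fin M) ℂ,
    ∑ j, (X (Sum.inl j) - X (Sum.inr j)) * a j = rename Sum.inl f - rename Sum.inr f ∧
      ∀ j, rename (Sum.elim id id) (a j) = pderiv j f := by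
  induction f using MvPolynomial.induction_on with
  | C a => exact ⟨0, by simp, fun j => by simp⟩
  | add f g hf hg =>
    obtain ⟨a, ha, ha'⟩ := hf
    obtain ⟨b, hb, hb'⟩ := hg
    refine ⟨a + b, ?_, fun j => by simp [ha', hb']⟩
    simp only [Pi.add_apply, mul_add, Finset.sum_add_distrib, ha, hb, map_add]
    ring
  | mul_X f k hf =>
    obtain ⟨a, ha, ha'⟩ := hf
    refine ⟨fun j => a j * X (Sum.inl k) + if j = k then rename Sum.inr f else 0, ?_, fun j => ?_⟩
    · simp only [mul_add, Finset.sum_add_distrib, ← mul_assoc, ← Finset.sum_mul, ha, mul_ite,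
        mul_zero, Finset.sum_ite_eq', Finset.mem_univ, if_true, map_mul, rename_X]
      ring
    · have h : rename (Sum.elim id id) (rename (Sum.inr : Fin M → Fin M ⊕ Fin M) f) = f := by
        rw [rename_rename]
        exact DFunLike.congr_fun rename_id f
      by_cases hj : j = k
      · subst hj
        simp [ha', h, mul_comm, add_comm]
      · simp [ha', hj, Ne.symm hj, mul_comm]

theorem exists_NS0 (hX : IsManifold I c) {L : Fin (n + 1) → Fin M → ℂ} (hL : Bpf I L) :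
    ∃ S : NS0 M n (cone I) (Pol I) (Pol2 I), (∀ j p, (S.x j).1 p = p.1 j) ∧
      (∀ a p, (S.inl a).1 p = a.1 p.1) ∧ (∀ a p, (S.inr a).1 p = a.1 p.2) ∧
      (∀ a p, (S.mu a).1 p = a.1 (p, p)) ∧ (∀ p a, S.ev p a = a.1 p) ∧
      (∀ p, S.T p = tangS I p.1) ∧ ∀ p, (S.dbl p).1 = (2 : ℂ) • p.1 := by
  refine ⟨{
    x := nsInst0_x I
    gen := ?_
    s1 := pb _ _ _ (nsInst0_s1 hX)
    s1_x := ?_
    inl := pb _ _ _ nsInst0_inl
    inr := pb _ _ _ nsInst0_inr
    gen2 := ?_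
    s2 := pb _ _ _ (nsInst0_s2 hX)
    s2_inl := fun _ => rfl
    s2_inr := fun _ => rfl
    mu := pb _ _ _ nsInst0_mu
    mu_inl := fun _ => rfl
    mu_inr := fun _ => rfl
    fl := pb _ _ _ nsInst0_fl
    fl_inl := fun _ => rfl
    fl_inr := fun _ => rfl
    ev := nsInst0_ev
    sep := fun a h => Subtype.ext (funext h)
    sl := fun p => pb _ _ _ (nsInst0_sl p)
    sl_inl := fun _ _ => rfl
    sl_inr := fun _ _ => rfl
    ns := ?_
    T := fun p => tangS I p.1
    dbl := nsInst0_dbl hX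
    ev_dbl := fun _ _ => rfl
    T_dbl := fun p => hX.tang_smul p.1 two_ne_zero
    l := linP I L
    s1_l := ?_
    bpf := ?_ }, nsInst0_x_apply, fun _ _ => rfl, fun _ _ => rfl, fun _ _ => rfl,
      fun _ _ => rfl, fun _ => rfl, fun _ => rfl⟩
  · rintro ⟨a, f, rfl⟩
    exact ⟨f, nsInst0_aeval f⟩
  · intro j
    refine Subtype.ext (funext fun p => ?_)
    change (nsInst0_x I j).1 (nsInst0_dbl hX p) = 2 * (nsInst0_x I j).1 p
    rw [nsInst0_x_apply, nsInst0_x_apply]
    rfl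
  · rintro ⟨a, f, rfl⟩
    have h : (Pol2 I).val.comp (aeval (Sum.elim
        (fun j => pb _ _ _ nsInst0_inl (nsInst0_x I j))
        fun j => pb _ _ _ nsInst0_inr (nsInst0_x I j))) = pf2 I := by
      refine MvPolynomial.algHom_ext fun j => ?_
      rw [AlgHom.comp_apply, aeval_X, pf2, aeval_X]
      rcases j with j | j
      · exact funext fun p => nsInst0_x_apply j p.1
      · exact funext fun p => nsInst0_x_apply j p.2
    exact ⟨f, Subtype.ext (DFunLike.congr_fun h f)⟩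
  · intro A hA j
    obtain ⟨K, hK⟩ := hX.ns (A.comap (aeval (nsInst0_x I) : SS M →ₐ[ℂ] Pol I)) (fun f hf => by
      rw [Ideal.mem_comap, nsInst0_aeval]
      have h0 : (⟨pf I f, pf_mem f⟩ : Pol I) = 0 := Subtype.ext (hX.pf_eq_zero.2 hf)
      rw [h0]
      exact A.zero_mem) (fun x hx => by
      obtain ⟨⟨g, f, rfl⟩, hg, hne⟩ := hA ⟨x, hx⟩
      refine ⟨f, ?_, ?_⟩
      · rw [Ideal.mem_comap, nsInst0_aeval]
        exact hg
      · rw [← pf_apply f ⟨x, hx⟩]
        exact hne) j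
    refine ⟨K, ?_⟩
    rw [Ideal.mem_comap, map_pow, aeval_X] at hK
    exact hK
  · intro i
    refine Subtype.ext (funext fun p => ?_)
    change pf I (lin (L i)) (nsInst0_dbl hX p) = 2 * pf I (lin (L i)) p
    rw [pf_apply, pf_apply]
    exact (eval_smul_hom (lin_hom (L i)) 2 p.1).trans (by rw [pow_one])
  · intro p
    obtain ⟨i, hi⟩ := hL p.1 p.2
    refine ⟨i, ?_⟩
    rw [← pf_apply] at hi
    exact hi

end Pool.Agent.HCF
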