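import Pool.Agent.P.MP_f644fa_ag.Swap0
import Pool.Agent.P.MP_f644fa_ag.Dat0

/-! The exchange of two exterior algebras is conjugate to the parity of the second one. -/

noncomputable section
namespace Pool.Agent.HCF
open Finset Module
open scoped Kronecker

/-- the exchange with Koszul signs -/
def sswM (σ : Type) [DecidableEq σ] : Matrix (Finset σ × Finset σ) (Finset σ × Finset σ) ℂ :=
  Matrix.of fun q q' => if q' = q.swap then (-1) ^ (q.1.card * q.2.card) else 0

/-- the projector to total degree `k` -/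
def totM (σ : Type) [DecidableEq σ] (k : ℕ) :
    Matrix (Finset σ × Finset σ) (Finset σ × Finset σ) ℂ :=
  Matrix.diagonal fun q => if q.1.card + q.2.card = k then 1 else 0

/-- killed by contraction with `v` in both factors -/
def Kil {σ : Type} [LinearOrder σ] [Fintype σ] (v : σ → ℂ) (y : Finset σ × Finset σ → ℂ) : Prop :=
  (∀ B, iov ℂ v (fun A => y (A, B)) = 0) ∧ ∀ A, iov ℂ v (fun B => y (A, B)) = 0

section aux
open scoped Matrix
variable {σ : Type} [LinearOrder σ] [Fintype σ]

/-- the matrix of exterior multiplication -/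
def swap_E (j : σ) : Matrix (Finset σ) (Finset σ) ℂ := LinearMap.toMatrix' (ep ℂ ℂ j)

/-- the matrix of contraction -/
def swap_I (j : σ) : Matrix (Finset σ) (Finset σ) ℂ := LinearMap.toMatrix' (io ℂ ℂ j)

theorem swap_E_mulVec (j : σ) (y : Finset σ → ℂ) : swap_E j *ᵥ y = ep ℂ ℂ j y :=
  LinearMap.toMatrix'_mulVec _ _

theorem swap_I_mulVec (j : σ) (y : Finset σ → ℂ) : swap_I j *ᵥ y = io ℂ ℂ j y :=
  LinearMap.toMatrix'_mulVec _ _

theorem swap_E_apply (j : σ) (A A' : Finset σ) :
    swap_E j A A' = if j ∈ A then (if A.erase j = A' then (sg j A : ℂ) else 0) else 0 := by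
  simp only [swap_E, LinearMap.toMatrix'_apply, ep_apply]
  split_ifs <;> simp_all

theorem swap_I_apply (j : σ) (A A' : Finset σ) :
    swap_I j A A' = if j ∈ A then 0 else (if insert j A = A' then (sg j A : ℂ) else 0) := by
  simp only [swap_I, LinearMap.toMatrix'_apply, io_apply]
  split_ifs <;> simp_all

theorem swap_E_card {j : σ} {A A' : Finset σ} (h : swap_E j A A' ≠ 0) :
    A.card = A'.card + 1 := by
  rw [swap_E_apply] at h
  split_ifs at h with h1 h2
  · rw [← h2, card_erase_add_one h1]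
  · exact absurd rfl h
  · exact absurd rfl h

theorem swap_I_card {j : σ} {A A' : Finset σ} (h : swap_I j A A' ≠ 0) :
    A.card + 1 = A'.card := by
  rw [swap_I_apply] at h
  split_ifs at h with h1 h2
  · exact absurd rfl h
  · rw [← h2, card_insert_of_notMem h1]
  · exact absurd rfl h

theorem swap_EE (j k : σ) : swap_E j * swap_E k + swap_E k * swap_E j = 0 := by
  simp only [swap_E, ← LinearMap.toMatrix'_mul, ← map_add, ep_ep, map_zero]

theorem swap_II (j k : σ) : swap_I j * swap_I k + swap_I k * swap_I j = 0 := by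
  simp only [swap_I, ← LinearMap.toMatrix'_mul, ← map_add, io_io, map_zero]

theorem swap_IE (j k : σ) :
    swap_I j * swap_E k + swap_E k * swap_I j = if j = k then 1 else 0 := by
  simp only [swap_I, swap_E, ← LinearMap.toMatrix'_mul, ← map_add, io_ep]
  split_ifs
  · exact LinearMap.toMatrix'_one
  · exact map_zero _

theorem swap_PP : parM σ (-1) * parM σ (-1) = 1 := by
  simp only [parM, Matrix.diagonal_mul_diagonal, ← mul_pow]
  simp

theorem swap_PE (j : σ) : parM σ (-1) * swap_E j = -(swap_E j * parM σ (-1)) := by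
  ext A A'
  simp only [parM, Matrix.diagonal_mul, Matrix.mul_diagonal, Matrix.neg_apply]
  by_cases h : swap_E j A A' = 0
  · simp [h]
  · rw [swap_E_card h]; ring

theorem swap_PI (j : σ) : parM σ (-1) * swap_I j = -(swap_I j * parM σ (-1)) := by
  ext A A'
  simp only [parM, Matrix.diagonal_mul, Matrix.mul_diagonal, Matrix.neg_apply]
  by_cases h : swap_I j A A' = 0
  · simp [h]
  · rw [← swap_I_card h]; ring

/-- action on the first factor -/
def swap_L (T : Matrix (Finset σ) (Finset σ) ℂ) :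
    Matrix (Finset σ × Finset σ) (Finset σ × Finset σ) ℂ :=
  T ⊗ₖ (1 : Matrix (Finset σ) (Finset σ) ℂ)

/-- twisted action on the second factor -/
def swap_R (T : Matrix (Finset σ) (Finset σ) ℂ) :
    Matrix (Finset σ × Finset σ) (Finset σ × Finset σ) ℂ :=
  parM σ (-1) ⊗ₖ T

theorem swap_LL {T T' : Matrix (Finset σ) (Finset σ) ℂ} {P : Prop} [Decidable P]
    (h : T * T' + T' * T = if P then 1 else 0) :
    swap_L T * swap_L T' + swap_L T' * swap_L T = if P then 1 else 0 := by
  simp only [swap_L, ← Matrix.mul_kronecker_mul, ← Matrix.add_kronecker, h, mul_one]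
  split_ifs
  · exact Matrix.one_kronecker_one
  · exact Matrix.zero_kronecker _

theorem swap_RR {T T' : Matrix (Finset σ) (Finset σ) ℂ} {P : Prop} [Decidable P]
    (h : T * T' + T' * T = if P then 1 else 0) :
    swap_R T * swap_R T' + swap_R T' * swap_R T = if P then 1 else 0 := by
  simp only [swap_R, ← Matrix.mul_kronecker_mul, ← Matrix.kronecker_add, h, swap_PP]
  split_ifs
  · exact Matrix.one_kronecker_one
  · exact Matrix.kronecker_zero _

theorem swap_LL0 {T T' : Matrix (Finset σ) (Finset σ) ℂ} (h : T * T' + T' * T = 0) :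
    swap_L T * swap_L T' + swap_L T' * swap_L T = 0 := by
  simpa using swap_LL (P := False) (T := T) (T' := T') (by simpa using h)

theorem swap_RR0 {T T' : Matrix (Finset σ) (Finset σ) ℂ} (h : T * T' + T' * T = 0) :
    swap_R T * swap_R T' + swap_R T' * swap_R T = 0 := by
  simpa using swap_RR (P := False) (T := T) (T' := T') (by simpa using h)

theorem swap_LR {T : Matrix (Finset σ) (Finset σ) ℂ} (T' : Matrix (Finset σ) (Finset σ) ℂ)
    (h : parM σ (-1) * T = -(T * parM σ (-1))) :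
    swap_L T * swap_R T' + swap_R T' * swap_L T = 0 := by
  simp only [swap_L, swap_R, ← Matrix.mul_kronecker_mul, h, mul_one, one_mul,
    ← Matrix.add_kronecker, add_neg_cancel, Matrix.zero_kronecker]

theorem swap_RL {T : Matrix (Finset σ) (Finset σ) ℂ} (T' : Matrix (Finset σ) (Finset σ) ℂ)
    (h : parM σ (-1) * T = -(T * parM σ (-1))) :
    swap_R T' * swap_L T + swap_L T * swap_R T' = 0 := by
  rw [add_comm]; exact swap_LR T' h

theorem swap_L_mulVec (T : Matrix (Finset σ) (Finset σ) ℂ) (y : Finset σ × Finset σ → ℂ)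
    (A B : Finset σ) : (swap_L T *ᵥ y) (A, B) = (T *ᵥ fun A => y (A, B)) A := by
  simp [swap_L, Matrix.mulVec, dotProduct, Fintype.sum_prod_type, Matrix.one_apply]

theorem swap_R_mulVec (T : Matrix (Finset σ) (Finset σ) ℂ) (y : Finset σ × Finset σ → ℂ)
    (A B : Finset σ) :
    (swap_R T *ᵥ y) (A, B) = (-1) ^ A.card * (T *ᵥ fun B => y (A, B)) B := by
  simp only [swap_R, parM, Matrix.mulVec, dotProduct, Fintype.sum_prod_type,
    Matrix.kroneckerMap_apply, Matrix.diagonal_apply, mul_sum]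
  rw [sum_eq_single A]
  · simp [mul_assoc]
  · intro b _ hb
    simp [Ne.symm hb]
  · simp

theorem swap_S_mul (M : Matrix (Finset σ × Finset σ) (Finset σ × Finset σ) ℂ)
    (q q' : Finset σ × Finset σ) :
    (sswM σ * M) q q' = (-1) ^ (q.1.card * q.2.card) * M q.swap q' := by
  simp [sswM, Matrix.mul_apply]

theorem swap_mul_S (M : Matrix (Finset σ × Finset σ) (Finset σ × Finset σ) ℂ)
    (q q' : Finset σ × Finset σ) :
    (M * sswM σ) q q' = M q q'.swap * (-1) ^ (q'.1.card * q'.2.card) := by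
  simp only [sswM, Matrix.mul_apply, Matrix.of_apply]
  rw [sum_eq_single q'.swap]
  · simp [mul_comm]
  · intro b _ hb
    rw [if_neg, mul_zero]
    intro h
    exact hb (by rw [h]; simp)
  · simp

theorem swap_SL (j : σ) : sswM σ * swap_L (swap_E j) = swap_R (swap_E j) * sswM σ := by
  ext ⟨A, B⟩ ⟨A', B'⟩
  rw [swap_S_mul, swap_mul_S]
  simp only [swap_L, swap_R, parM, Prod.swap, Matrix.kroneckerMap_apply, Matrix.one_apply,
    Matrix.diagonal_apply]
  by_cases h1 : A = B'
  · by_cases h : swap_E j B A' = 0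
    · simp [h]
    · subst h1
      rw [swap_E_card h]
      simp only [if_true]
      ring
  · simp [h1]

theorem swap_SR (j : σ) : sswM σ * swap_R (swap_E j) = swap_L (swap_E j) * sswM σ := by
  ext ⟨A, B⟩ ⟨A', B'⟩
  rw [swap_S_mul, swap_mul_S]
  simp only [swap_L, swap_R, parM, Prod.swap, Matrix.kroneckerMap_apply, Matrix.one_apply,
    Matrix.diagonal_apply]
  by_cases h1 : B = A'
  · by_cases h : swap_E j A B' = 0
    · simp [h]
    · subst h1
      rw [swap_E_card h]
      simp only [if_true]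
      have h2 : ((-1 : ℂ) ^ B.card) * (-1) ^ B.card = 1 := by rw [← mul_pow]; simp
      rw [add_mul, pow_add, one_mul, mul_comm B.card]
      linear_combination (-1) ^ (B'.card * B.card) * swap_E j A B' * h2
  · simp [h1]

/-- the parity of the second factor -/
def swap_P (σ : Type) [LinearOrder σ] : Matrix (Finset σ × Finset σ) (Finset σ × Finset σ) ℂ :=
  (1 : Matrix (Finset σ) (Finset σ) ℂ) ⊗ₖ parM σ (-1)

theorem swap_PL (T : Matrix (Finset σ) (Finset σ) ℂ) :
    swap_P σ * swap_L T = swap_L T * swap_P σ := by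
  simp only [swap_P, swap_L, ← Matrix.mul_kronecker_mul, mul_one, one_mul]

theorem swap_PR (j : σ) :
    swap_P σ * swap_R (swap_E j) = -(swap_R (swap_E j) * swap_P σ) := by
  rw [eq_neg_iff_add_eq_zero]
  simp only [swap_P, swap_R, ← Matrix.mul_kronecker_mul, mul_one, one_mul, swap_PE,
    ← Matrix.kronecker_add, neg_add_cancel, Matrix.kronecker_zero]

/-- the total degree -/
def swap_N (σ : Type) [LinearOrder σ] : Matrix (Finset σ × Finset σ) (Finset σ × Finset σ) ℂ :=
  Matrix.diagonal fun q => ((q.1.card + q.2.card : ℕ) : ℂ)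

theorem swap_N_iff (M : Matrix (Finset σ × Finset σ) (Finset σ × Finset σ) ℂ) :
    Commute (swap_N σ) M ↔
      ∀ q q', M q q' ≠ 0 → q.1.card + q.2.card = q'.1.card + q'.2.card := by
  rw [Commute, SemiconjBy, ← Matrix.ext_iff]
  refine forall_congr' fun q => forall_congr' fun q' => ?_
  simp only [swap_N, Matrix.diagonal_mul, Matrix.mul_diagonal]
  constructor
  · intro h h0
    rw [mul_comm] at h
    exact_mod_cast mul_left_cancel₀ h0 h
  · intro h
    by_cases h0 : M q q' = 0
    · simp [h0]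
    · rw [h h0, mul_comm]

theorem swap_N_LR (j : σ) : Commute (swap_N σ) (swap_L (swap_E j) * swap_R (swap_I j)) := by
  rw [swap_N_iff]
  rintro ⟨A, B⟩ ⟨A', B'⟩ h
  simp only [swap_L, swap_R, ← Matrix.mul_kronecker_mul, one_mul, parM, Matrix.mul_diagonal,
    Matrix.kroneckerMap_apply] at h
  have h1 := swap_E_card (left_ne_zero_of_mul (left_ne_zero_of_mul h))
  have h2 := swap_I_card (right_ne_zero_of_mul h)
  simp only
  omega

theorem swap_N_RL (j : σ) : Commute (swap_N σ) (swap_R (swap_E j) * swap_L (swap_I j)) := by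
  rw [swap_N_iff]
  rintro ⟨A, B⟩ ⟨A', B'⟩ h
  simp only [swap_L, swap_R, ← Matrix.mul_kronecker_mul, mul_one, parM, Matrix.diagonal_mul,
    Matrix.kroneckerMap_apply] at h
  have h1 := swap_I_card (right_ne_zero_of_mul (left_ne_zero_of_mul h))
  have h2 := swap_E_card (right_ne_zero_of_mul h)
  simp only
  omega

theorem swap_comm_inv {E : Type} [Ring E] {a U V : E} (h1 : U * V = 1) (h2 : V * U = 1)
    (h : Commute a U) : Commute a V := by
  have : a * V = V * (U * a) * V := by rw [← mul_assoc V, h2, one_mul]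
  rw [Commute, SemiconjBy, this, ← h.eq, mul_assoc, mul_assoc, h1, mul_one]

/-- the vacuum projector -/
def swap_vac (σ : Type) [LinearOrder σ] : Matrix (Finset σ × Finset σ) (Finset σ × Finset σ) ℂ :=
  Matrix.single (∅, ∅) (∅, ∅) 1

theorem swap_mul_vac (M : Matrix (Finset σ × Finset σ) (Finset σ × Finset σ) ℂ)
    (q q' : Finset σ × Finset σ) :
    (M * swap_vac σ) q q' = if q' = (∅, ∅) then M q (∅, ∅) else 0 := by
  split_ifs with h
  · subst h
    simp [swap_vac]
  · exact Matrix.mul_single_apply_of_ne _ _ _ _ _ h _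

theorem swap_I_empty (j : σ) (A : Finset σ) : swap_I j A ∅ = 0 := by
  by_contra h
  simpa using swap_I_card h

theorem swap_L_vac (j : σ) : swap_L (swap_I j) * swap_vac σ = 0 := by
  ext ⟨A, B⟩ q'
  simp [swap_mul_vac, swap_L, swap_I_empty]

theorem swap_R_vac (j : σ) : swap_R (swap_I j) * swap_vac σ = 0 := by
  ext ⟨A, B⟩ q'
  simp [swap_mul_vac, swap_R, swap_I_empty]

theorem swap_S_vac : sswM σ * swap_vac σ = swap_vac σ := by
  ext ⟨A, B⟩ q'
  rw [swap_S_mul]
  simp only [swap_vac, Matrix.single_apply, Prod.swap, Prod.mk.injEq]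
  by_cases h : ∅ = A ∧ ∅ = B
  · obtain ⟨rfl, rfl⟩ := h
    simp
  · rw [if_neg (fun h' => h ⟨h'.1.2, h'.1.1⟩), if_neg (fun h' => h h'.1), mul_zero]

theorem swap_P_vac : swap_P σ * swap_vac σ = swap_vac σ := by
  ext ⟨A, B⟩ q'
  rw [swap_mul_vac]
  simp only [swap_vac, swap_P, parM, Matrix.single_apply, Prod.mk.injEq,
    Matrix.kroneckerMap_apply, Matrix.one_apply, Matrix.diagonal_apply]
  by_cases h1 : A = ∅ <;> by_cases h2 : B = ∅ <;> by_cases h3 : q' = (∅, ∅) <;>
    simp [h1, h2, h3, eq_comm]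

/-- the product of two vectors, linear in the first -/
def swap_t1 (z : Finset σ → ℂ) : (Finset σ → ℂ) →ₗ[ℂ] Finset σ × Finset σ → ℂ where
  toFun w q := w q.1 * z q.2
  map_add' a b := by ext q; simp [add_mul]
  map_smul' c a := by ext q; simp [mul_assoc]

/-- the product of two vectors, linear in the second -/
def swap_t2 (w : Finset σ → ℂ) : (Finset σ → ℂ) →ₗ[ℂ] Finset σ × Finset σ → ℂ where
  toFun z q := w q.1 * z q.2
  map_add' a b := by ext q; simp [mul_add]
  map_smul' c a := by ext q; simp [mul_left_comm]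

theorem swap_cyc {X : Matrix (Finset σ × Finset σ) (Finset σ × Finset σ) ℂ}
    (h0 : X * swap_vac σ = 0) (h1 : ∀ j, ∃ Y, X * swap_L (swap_E j) = Y * X)
    (h2 : ∀ j, ∃ Y, X * swap_R (swap_E j) = Y * X) : X = 0 := by
  have key : ∀ {T y}, (∃ Y, X * T = Y * X) → X *ᵥ y = 0 → X *ᵥ (T *ᵥ y) = 0 := by
    rintro T y ⟨Y, hY⟩ hy
    rw [Matrix.mulVec_mulVec, hY, ← Matrix.mulVec_mulVec, hy, Matrix.mulVec_zero]
  have hv : ∀ q, X q (∅, ∅) = 0 := fun q => by
    have := congrFun (congrFun h0 q) (∅, ∅)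
    simpa [swap_mul_vac] using this
  have s2 : (LinearMap.ker X.mulVecLin).comap (swap_t2 (Pi.single ∅ 1)) = ⊤ := by
    refine cyc _ (fun v => ?_) fun j z hz => ?_
    · have : swap_t2 (Pi.single ∅ 1) (Pi.single (∅ : Finset σ) v) = Pi.single (∅, ∅) v := by
        ext ⟨A, B⟩
        by_cases hA : A = ∅ <;> by_cases hB : B = ∅ <;> simp [swap_t2, hA, hB]
      rw [Submodule.mem_comap, this, LinearMap.mem_ker]
      ext q
      simp [hv]
    · have : swap_t2 (Pi.single ∅ 1) (ep ℂ ℂ j z) =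
          swap_R (swap_E j) *ᵥ swap_t2 (Pi.single ∅ 1) z := by
        ext ⟨A, B⟩
        rw [swap_R_mulVec, swap_E_mulVec]
        by_cases hA : A = ∅
        · simp [swap_t2, hA]
        · simp [swap_t2, hA, ep_apply]
      rw [Submodule.mem_comap, this]
      exact key (h2 j) hz
  have s1 : ∀ z, (LinearMap.ker X.mulVecLin).comap (swap_t1 z) = ⊤ := by
    intro z
    refine cyc _ (fun v => ?_) fun j w hw => ?_
    · have : swap_t1 z (Pi.single (∅ : Finset σ) v) = swap_t2 (Pi.single ∅ 1) (v • z) := by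
        ext ⟨A, B⟩
        by_cases hA : A = ∅ <;> simp [swap_t1, swap_t2, hA]
      rw [Submodule.mem_comap, this, ← Submodule.mem_comap, s2]
      trivial
    · have : swap_t1 z (ep ℂ ℂ j w) = swap_L (swap_E j) *ᵥ swap_t1 z w := by
        ext ⟨A, B⟩
        rw [swap_L_mulVec, swap_E_mulVec]
        by_cases hA : j ∈ A <;> simp [swap_t1, hA, ep_apply, mul_assoc]
      rw [Submodule.mem_comap, this]
      exact key (h1 j) hw
  ext q ⟨A, B⟩
  have h : Pi.single A 1 ∈ (LinearMap.ker X.mulVecLin).comap (swap_t1 (Pi.single B 1)) := by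
    rw [s1]; trivial
  have h3 : swap_t1 (Pi.single B 1) (Pi.single A 1) = Pi.single (A, B) 1 := by
    ext ⟨A', B'⟩
    by_cases hA : A' = A <;> by_cases hB : B' = B <;> simp [swap_t1, hA, hB]
  rw [Submodule.mem_comap, h3, LinearMap.mem_ker] at h
  simpa using congrFun h q

omit [LinearOrder σ] in
theorem swap_cst (G : Matrix (Finset σ × Finset σ) (Finset σ × Finset σ) ℂ)
    (y : Finset σ × Finset σ → ℂ) : cst ℂ G y = G *ᵥ y := rfl

theorem swap_iov (v : σ → ℂ) (y : Finset σ → ℂ) (A : Finset σ) :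
    iov ℂ v y A = ∑ j, v j * io ℂ ℂ j y A := by
  simp [iov, LinearMap.sum_apply, Finset.sum_apply]

theorem swap_kil (v : σ → ℂ) (y : Finset σ × Finset σ → ℂ) :
    Kil v y ↔ (∑ j, v j • swap_L (swap_I j)) *ᵥ y = 0 ∧ (∑ j, v j • swap_R (swap_I j)) *ᵥ y = 0 := by
  have e1 : ∀ A B, ((∑ j, v j • swap_L (swap_I j)) *ᵥ y) (A, B) =
      iov ℂ v (fun A => y (A, B)) A := fun A B => by
    simp only [Matrix.sum_mulVec, Matrix.smul_mulVec, Finset.sum_apply, Pi.smul_apply,
      swap_L_mulVec, swap_I_mulVec, swap_iov, smul_eq_mul]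
  have e2 : ∀ A B, ((∑ j, v j • swap_R (swap_I j)) *ᵥ y) (A, B) =
      (-1) ^ A.card * iov ℂ v (fun B => y (A, B)) B := fun A B => by
    simp only [Matrix.sum_mulVec, Matrix.smul_mulVec, Finset.sum_apply, Pi.smul_apply,
      swap_R_mulVec, swap_I_mulVec, swap_iov, smul_eq_mul, mul_sum, mul_left_comm]
  constructor
  · rintro ⟨h1, h2⟩
    refine ⟨funext fun ⟨A, B⟩ => ?_, funext fun ⟨A, B⟩ => ?_⟩
    · rw [e1, h1]; rfl
    · rw [e2, h2]; simp
  · rintro ⟨h1, h2⟩
    refine ⟨fun B => funext fun A => ?_, fun A => funext fun B => ?_⟩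
    · rw [← e1, h1]; rfl
    · have := e2 A B
      rw [h2] at this
      simpa using this.symm

omit [LinearOrder σ] in
theorem swap_pres {I : Type} [Fintype I] [DecidableEq I] {a b : σ → Matrix I I ℂ}
    {U V : Matrix I I ℂ} {c : ℂ} (hUV : U * V = 1) (hVU : V * U = 1)
    (h1 : ∀ j, U * a j = (a j - c • b j) * U) (h2 : ∀ j, U * b j = b j * U) (v : σ → ℂ)
    {y : I → ℂ} (ha : (∑ j, v j • a j) *ᵥ y = 0) (hb : (∑ j, v j • b j) *ᵥ y = 0) :
    ((∑ j, v j • a j) *ᵥ (U *ᵥ y) = 0 ∧ (∑ j, v j • b j) *ᵥ (U *ᵥ y) = 0) ∧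
      (∑ j, v j • a j) *ᵥ (V *ᵥ y) = 0 ∧ (∑ j, v j • b j) *ᵥ (V *ᵥ y) = 0 := by
  have g2 : U * ∑ j, v j • b j = (∑ j, v j • b j) * U := by
    simp only [mul_sum, sum_mul, mul_smul_comm, smul_mul_assoc, h2]
  have g1 : U * ∑ j, v j • a j = (∑ j, v j • a j - c • ∑ j, v j • b j) * U := by
    simp only [mul_sum, sum_mul, mul_smul_comm, smul_mul_assoc, h1, sub_mul, smul_sub,
      sum_sub_distrib, smul_sum, smul_comm c]
  generalize ∑ j, v j • a j = S at *
  generalize ∑ j, v j • b j = T at *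
  have k1 : S * U = U * S + c • (U * T) := by
    rw [g1, g2, sub_mul, smul_mul_assoc, sub_add_cancel]
  have k2 : T * V = V * T := (swap_comm_inv hUV hVU g2.symm).eq
  have k3 : S * V = V * S - c • (V * T) := by
    have : S * V = V * (U * S) * V := by rw [← mul_assoc V, hVU, one_mul]
    rw [this, g1, mul_assoc, mul_assoc, hUV, mul_one, mul_sub, mul_smul_comm]
  simp only [Matrix.mulVec_mulVec, k1, k2, k3, ← g2, Matrix.add_mulVec, Matrix.sub_mulVec,
    Matrix.smul_mulVec]
  simp [← Matrix.mulVec_mulVec, ha, hb]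

end aux

theorem exists_conj (σ : Type) [LinearOrder σ] [Fintype σ] :
    ∃ G G' : Matrix (Finset σ × Finset σ) (Finset σ × Finset σ) ℂ, G * G' = 1 ∧ G' * G = 1 ∧
      sswM σ * G = G * (1 ⊗ₖ parM σ (-1)) ∧
      (∀ q q', G q q' ≠ 0 → q.1.card + q.2.card = q'.1.card + q'.2.card) ∧
      (∀ q q', G' q q' ≠ 0 → q.1.card + q.2.card = q'.1.card + q'.2.card) ∧
      (∀ v y, Kil v y → Kil v (cst ℂ G y)) ∧ ∀ v y, Kil v y → Kil v (cst ℂ G' y) := by
  obtain ⟨U, V, hUV, hVU, hi1, hi2, he1, he2, hN, hv⟩ :=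
    exists_unip (fun j : σ => swap_L (swap_E j)) (fun j => swap_L (swap_I j))
      (fun j => swap_R (swap_E j)) (fun j => swap_R (swap_I j))
      (fun j k => swap_LL0 (swap_EE j k)) (fun j k => swap_RR0 (swap_II j k))
      (fun j k => swap_LL (swap_IE j k)) (fun j k => swap_RR (swap_IE j k))
      (fun j k => swap_LR _ (swap_PE j)) (fun j k => swap_LR _ (swap_PI j))
      (fun j k => swap_LR _ (swap_PE j)) (-(1 / 2))
  obtain ⟨U', V', hUV', hVU', hi1', hi2', he1', he2', hN', hv'⟩ :=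
    exists_unip (fun j : σ => swap_R (swap_E j)) (fun j => swap_R (swap_I j))
      (fun j => swap_L (swap_E j)) (fun j => swap_L (swap_I j))
      (fun j k => swap_RR0 (swap_EE j k)) (fun j k => swap_LL0 (swap_II j k))
      (fun j k => swap_RR (swap_IE j k)) (fun j k => swap_LL (swap_IE j k))
      (fun j k => swap_RL _ (swap_PE k)) (fun j k => swap_RL _ (swap_PI k))
      (fun j k => swap_RL _ (swap_PI k)) 1
  have cU := hN _ swap_N_LR
  have cU' := hN' _ swap_N_RL
  have g1 : ∀ j, U' * U * swap_L (swap_E j) =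
      (swap_L (swap_E j) + swap_R (swap_E j)) * (U' * U) := fun j => by
    rw [mul_assoc, he1, ← mul_assoc, he2', one_smul, mul_assoc]
  have g2 : ∀ j, U' * U * swap_R (swap_E j) =
      ((1 / 2 : ℂ) • (swap_R (swap_E j) - swap_L (swap_E j))) * (U' * U) := fun j => by
    rw [mul_assoc, he2, ← mul_assoc, mul_add, mul_smul_comm, he1', he2', one_smul,
      ← smul_mul_assoc, ← add_mul, mul_assoc]
    congr 1
    module
  refine ⟨U' * U, V * V', ?_, ?_, ?_, (swap_N_iff _).1 (cU'.mul_right cU),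
    (swap_N_iff _).1 ((swap_comm_inv hUV hVU cU).mul_right (swap_comm_inv hUV' hVU' cU')),
    fun v y hy => ?_, fun v y hy => ?_⟩
  · rw [mul_assoc, ← mul_assoc U, hUV, one_mul, hUV']
  · rw [mul_assoc, ← mul_assoc V', hVU', one_mul, hVU]
  · rw [← sub_eq_zero]
    change sswM σ * (U' * U) - U' * U * swap_P σ = 0
    have hG : U' * U * swap_vac σ = swap_vac σ := by
      rw [mul_assoc, hv _ swap_R_vac, hv' _ swap_L_vac]
    generalize U' * U = G at g1 g2 hG
    refine swap_cyc ?_ (fun j => ⟨swap_L (swap_E j) + swap_R (swap_E j), ?_⟩)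
      fun j => ⟨-((1 / 2 : ℂ) • (swap_R (swap_E j) - swap_L (swap_E j))), ?_⟩
    · rw [sub_mul, mul_assoc, hG, swap_S_vac, mul_assoc, swap_P_vac, hG, sub_self]
    · rw [sub_mul, mul_assoc, g1, mul_assoc G, swap_PL, ← mul_assoc G, g1, ← mul_assoc, mul_add,
        swap_SL, swap_SR]
      noncomm_ring
    · rw [sub_mul, mul_assoc, g2, mul_assoc G, swap_PR, mul_neg, ← mul_assoc G, g2, ← mul_assoc,
        mul_smul_comm, mul_sub, swap_SL, swap_SR]
      simp only [smul_mul_assoc, mul_sub, sub_mul, neg_mul, smul_sub, mul_assoc]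
      abel
  · rw [swap_kil] at hy
    have h1 := (swap_pres hUV hVU hi1 hi2 v hy.1 hy.2).1
    have h2 := (swap_pres hUV' hVU' hi1' hi2' v h1.2 h1.1).1
    rw [swap_kil, swap_cst, ← Matrix.mulVec_mulVec]
    exact h2.symm
  · rw [swap_kil] at hy
    have h1 := (swap_pres hUV' hVU' hi1' hi2' v hy.2 hy.1).2
    have h2 := (swap_pres hUV hVU hi1 hi2 v h1.2 h1.1).2
    rw [swap_kil, swap_cst, ← Matrix.mulVec_mulVec]
    exact h2

end Pool.Agent.HCF
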