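import Pool.Agent.P.MP_f644fa_ag.Ident
import Pool.Agent.P.MP_f644fa_ag.Swap

/-! The two congruences between the numerators of the Hilbert series. -/

noncomputable section
namespace Pool.Agent.HCF
open Finset Module PowerSeries
open scoped Kronecker

variable {M n : ℕ} {X R RR : Type} [CommRing R] [Algebra ℂ R] [CommRing RR] [Algebra ℂ RR]
  {I I' : Type} [Fintype I] [Fintype I'] {S : NS M n X R RR}

/-- `g` is the numerator of `f`, up to a multiple of the denominator -/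
def Nm (n : ℕ) (g : Polynomial ℂ) (f : ℂ⟦X⟧) : Prop :=
  ∃ p : Polynomial ℂ, (g : ℂ⟦X⟧) = (1 - PowerSeries.X) ^ (n + 1) * (f + (p : ℂ⟦X⟧))

theorem Nm.dvd {g g' : Polynomial ℂ} {f f' : ℂ⟦X⟧} (h : Nm n g f) (h' : Nm n g' f')
    (e : PEq f f') : (1 - Polynomial.X) ^ (n + 1) ∣ g - g' := by
  obtain ⟨p, hp⟩ := h
  obtain ⟨p', hp'⟩ := h'
  obtain ⟨r, hr⟩ := e
  refine ⟨r + p - p', Polynomial.coe_injective ℂ ?_⟩
  push_cast
  rw [hp, hp', hr]
  ring

theorem Nm.prod {g g' : Polynomial ℂ} {f f' : ℂ⟦X⟧} (h : Nm n g f) (h' : Nm n g' f') (c : ℕ) :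
    Nm n (g * g' * (1 - Polynomial.X) ^ c)
      ((1 - PowerSeries.X) ^ (n + 1 + c) * (f * f')) := by
  obtain ⟨p, hp⟩ := h
  obtain ⟨p', hp'⟩ := h'
  refine ⟨(1 - Polynomial.X) ^ c * (g * p' + p * g' - (1 - Polynomial.X) ^ (n + 1) * (p * p')), ?_⟩
  push_cast
  rw [hp, hp', pow_add _ (n + 1) c]
  ring

theorem Nm.ex2 {g : Polynomial ℂ} {f : ℂ⟦X⟧} (h : Nm n g f) (c : ℕ) :
    Nm n (Polynomial.expand ℂ 2 g * (1 + Polynomial.X) ^ c)
      ((1 + PowerSeries.X) ^ (n + 1 + c) * ex2 f) := by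
  obtain ⟨p, hp⟩ := h
  refine ⟨(1 + Polynomial.X) ^ (n + 1 + c) * Polynomial.expand ℂ 2 p, ?_⟩
  have e : HCF.ex2 ((1 - PowerSeries.X) ^ (n + 1) : ℂ⟦X⟧) =
      (1 - PowerSeries.X) ^ (n + 1) * (1 + PowerSeries.X) ^ (n + 1) := by
    have e1 := ex2_coe ((1 - Polynomial.X) ^ (n + 1))
    rw [map_pow, map_sub, map_one, Polynomial.expand_X] at e1
    push_cast at e1
    rw [e1, ← mul_pow]
    ring
  push_cast
  rw [← ex2_coe g, hp, ex2_mul, ex2_add, ex2_coe p, e, pow_add _ (n + 1) c]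
  ring

section mat
variable {σ : Type} [DecidableEq σ] [Fintype σ]

theorem num0_pi (a b : ℕ) : piM σ a ⊗ₖ piM σ b =
    Matrix.diagonal fun q : Finset σ × Finset σ =>
      if q.1.card = a ∧ q.2.card = b then (1 : ℂ) else 0 := by
  rw [piM, piM, Matrix.diagonal_kronecker_diagonal]
  refine congrArg Matrix.diagonal (funext fun q => ?_)
  by_cases h1 : q.1.card = a <;> by_cases h2 : q.2.card = b <;> simp [h1, h2]

theorem num0_tot (m : ℕ) : totM σ m = ∑ q ∈ antidiagonal m, piM σ q.1 ⊗ₖ piM σ q.2 := by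
  ext x y
  simp only [num0_pi, totM, Matrix.sum_apply, Matrix.diagonal_apply]
  by_cases h : x = y
  · simp only [if_pos h]
    have e : ∀ q : ℕ × ℕ, (x.1.card = q.1 ∧ x.2.card = q.2) ↔ (x.1.card, x.2.card) = q :=
      fun q => (Prod.ext_iff (x := (x.1.card, x.2.card)) (y := q)).symm
    simp only [e, Finset.sum_ite_eq, HasAntidiagonal.mem_antidiagonal]
  · simp [h]

theorem num0_par (a b : ℕ) : (1 ⊗ₖ parM σ (-1)) * (piM σ a ⊗ₖ piM σ b) =
    ((-1 : ℂ) ^ b) • (piM σ a ⊗ₖ piM σ b) := by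
  rw [← Matrix.mul_kronecker_mul, one_mul, ← Matrix.kronecker_smul]
  refine congrArg (fun A => piM σ a ⊗ₖ A) ?_
  rw [parM, piM, Matrix.diagonal_mul_diagonal, ← Matrix.diagonal_smul]
  refine congrArg Matrix.diagonal (funext fun J => ?_)
  by_cases h : J.card = b <;> simp [h]

theorem num0_idem (a b : ℕ) :
    (piM σ a ⊗ₖ piM σ b) * (piM σ a ⊗ₖ piM σ b) = piM σ a ⊗ₖ piM σ b := by
  rw [num0_pi, Matrix.diagonal_mul_diagonal]
  refine congrArg Matrix.diagonal (funext fun q => ?_)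
  split_ifs <;> simp

theorem num0_off {a b : ℕ} (h : a ≠ b) :
    (piM σ a ⊗ₖ piM σ b) * (sswM σ * (piM σ a ⊗ₖ piM σ b)) = 0 := by
  ext x y
  rw [num0_pi, Matrix.diagonal_mul, Matrix.mul_diagonal, sswM, Matrix.of_apply, Matrix.zero_apply]
  split_ifs with h1 h2 h3
  · subst h2
    exact absurd (h1.1.symm.trans h3.2) h
  all_goals simp

theorem num0_dia (k : ℕ) : sswM σ * (piM σ k ⊗ₖ piM σ k) =
    ((-1 : ℂ) ^ k) • (swM _ * (piM σ k ⊗ₖ piM σ k)) := by
  ext x y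
  rw [Matrix.smul_apply, num0_pi, Matrix.mul_diagonal, Matrix.mul_diagonal, sswM, swM,
    Matrix.of_apply, Matrix.of_apply, smul_eq_mul]
  split_ifs with h1 h2
  · subst h1
    have h3 : x.2.card = k := h2.1
    have h4 : x.1.card = k := h2.2
    rw [h3, h4, mul_one, mul_one, mul_one]
    rcases Nat.even_or_odd k with hk | hk
    · rw [hk.neg_one_pow, (hk.mul_right k).neg_one_pow]
    · rw [hk.neg_one_pow, (hk.mul hk).neg_one_pow]
  all_goals simp

theorem num0_comm {G : Matrix (Finset σ × Finset σ) (Finset σ × Finset σ) ℂ}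
    (h : ∀ q q', G q q' ≠ 0 → q.1.card + q.2.card = q'.1.card + q'.2.card) (m : ℕ) :
    G * totM σ m = totM σ m * G := by
  ext x y
  rw [totM, Matrix.mul_diagonal, Matrix.diagonal_mul]
  by_cases h0 : G x y = 0
  · rw [h0, zero_mul, mul_zero]
  · rw [h x y h0, mul_comm]

end mat

theorem num0_ok {G : Matrix (Finset (Fin M) × Finset (Fin M)) (Finset (Fin M) × Finset (Fin M)) ℂ}
    (h : ∀ q q', G q q' ≠ 0 → q.1.card + q.2.card = q'.1.card + q'.2.card)
    (hk : ∀ v y, Kil v y → Kil v (cst ℂ G y)) : (S.lam.tensor S.lam).Ok G := by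
  refine ⟨fun ω hω => ?_, h⟩
  have e : ∀ p q, S.ev p (cst R G ω q) = cst ℂ G (fun q => S.ev p (ω q)) q := fun p q => by
    simp only [cst_apply, map_sum, map_smul]
  have k : ∀ p, ∀ v ∈ S.T p, Kil v (cst ℂ G fun q => S.ev p (ω q)) := fun p v hv =>
    hk v _ ⟨fun B => hω.1 B p v hv, fun A => hω.2 A p v hv⟩
  refine ⟨fun B p v hv => ?_, fun A p v hv => ?_⟩
  · simp only [e]
    exact (k p v hv).1 B
  · simp only [e]
    exact (k p v hv).2 A

section phi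
variable {S₀ : NS0 M n X R RR} {E : Dat S₀ I} {L : Dat S₀ I'} {T : Matrix I I ℂ}

theorem num0_chi_comm (h : E.Ok T) {A B : Matrix I' I' ℂ} (hA : L.Ok A) (hB : L.Ok B) :
    (E.tensor L).chi (T ⊗ₖ (A * B)) = (E.tensor L).chi (T ⊗ₖ (B * A)) := by
  classical
  have e := Dat.chi_comm (h.kron hA) ((Dat.Ok.one E).kron hB)
  rwa [← Matrix.mul_kronecker_mul, ← Matrix.mul_kronecker_mul, mul_one, one_mul] at e

theorem num0_chi_smul (h : E.Ok T) {A : Matrix I' I' ℂ} (hA : L.Ok A) (c : ℂ) :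
    (E.tensor L).chi (T ⊗ₖ (c • A)) = C c * (E.tensor L).chi (T ⊗ₖ A) := by
  rw [Matrix.kronecker_smul, Dat.chi_smul (h.kron hA)]

theorem num0_chi_sum (h : E.Ok T) {ι : Type} (s : Finset ι) {A : ι → Matrix I' I' ℂ}
    (hA : ∀ i ∈ s, L.Ok (A i)) :
    (E.tensor L).chi (T ⊗ₖ ∑ i ∈ s, A i) = ∑ i ∈ s, (E.tensor L).chi (T ⊗ₖ A i) := by
  have e : T ⊗ₖ ∑ i ∈ s, A i = ∑ i ∈ s, T ⊗ₖ A i := by
    ext x y
    simp only [Matrix.kroneckerMap_apply, Matrix.sum_apply, Finset.mul_sum]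
  rw [e, Dat.chi_sum s fun i hi => h.kron (hA i hi)]

end phi

theorem NS.chi_ssw {E : Dat S.toNS0 I} {T : Matrix I I ℂ} (h : E.Ok T) (k : ℕ) :
    C ((-1) ^ k) * (E.tensor (S.lam.tensor S.lam)).chi
        (T ⊗ₖ (swM _ * (piM (Fin M) k ⊗ₖ piM (Fin M) k))) =
      ∑ q ∈ antidiagonal (2 * k), C ((-1) ^ q.2) * (E.tensor (S.lam.tensor S.lam)).chi
        (T ⊗ₖ (piM (Fin M) q.1 ⊗ₖ piM (Fin M) q.2)) := by
  obtain ⟨G, G', h1, h2, h3, h4, h5, h6, h7⟩ := exists_conj (Fin M)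
  have oG := num0_ok (S := S) h4 h6
  have oG' := num0_ok (S := S) h5 h7
  have oP : ∀ a b, (S.lam.tensor S.lam).Ok (piM (Fin M) a ⊗ₖ piM (Fin M) b) := fun a b =>
    (S.ok_piM a).kron (S.ok_piM b)
  have oPar : (S.lam.tensor S.lam).Ok (1 ⊗ₖ parM (Fin M) (-1)) :=
    (Dat.Ok.one _).kron (S.ok_parM _)
  have es : sswM (Fin M) = G * (1 ⊗ₖ parM (Fin M) (-1)) * G' := by
    rw [← h3, mul_assoc, h1, mul_one]
  have os : (S.lam.tensor S.lam).Ok (sswM (Fin M)) := by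
    rw [es]
    exact (oG.mul oPar).mul oG'
  have ot : (S.lam.tensor S.lam).Ok (totM (Fin M) (2 * k)) := by
    rw [num0_tot]
    exact Dat.Ok.sum _ fun q _ => oP _ _
  have e1 : (E.tensor (S.lam.tensor S.lam)).chi (T ⊗ₖ (sswM (Fin M) * totM (Fin M) (2 * k))) =
      C ((-1) ^ k) * (E.tensor (S.lam.tensor S.lam)).chi
        (T ⊗ₖ (swM _ * (piM (Fin M) k ⊗ₖ piM (Fin M) k))) := by
    rw [num0_tot, Finset.mul_sum, num0_chi_sum h _ fun q _ => os.mul (oP _ _),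
      Finset.sum_eq_single (k, k)]
    · rw [num0_dia, num0_chi_smul h ((Dat.Ok.swM _).mul (oP _ _))]
    · intro q hq hne
      have hab : q.1 ≠ q.2 := fun e => by
        rw [HasAntidiagonal.mem_antidiagonal] at hq
        exact hne (Prod.ext (by change q.1 = k; omega) (by change q.2 = k; omega))
      rw [← num0_idem, ← mul_assoc, num0_chi_comm h (os.mul (oP _ _)) (oP _ _), num0_off hab,
        Matrix.kronecker_zero, Dat.chi_zero]
    · intro hk
      exact absurd (HasAntidiagonal.mem_antidiagonal.2 (two_mul k).symm) hk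
  rw [← e1, es, mul_assoc, num0_comm h5, mul_assoc, num0_chi_comm h oG (oPar.mul (ot.mul oG')),
    mul_assoc, mul_assoc, h2, mul_one, num0_tot, Finset.mul_sum,
    num0_chi_sum h _ fun q _ => oPar.mul (oP _ _)]
  refine Finset.sum_congr rfl fun q _ => ?_
  rw [num0_par, num0_chi_smul h (oP _ _)]

theorem NS.mult {c : ℕ} (hM : M = n + 1 + c) {D : Dat S.toNS0 I} {D' : Dat S.toNS0 I'}
    {T : Matrix I I ℂ} {T' : Matrix I' I' ℂ} (h : D.Ok T) (h' : D'.Ok T')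
    {g g' g'' g₀ : Polynomial ℂ} (hg : Nm n g (D.chi T)) (hg' : Nm n g' (D'.chi T'))
    (hg'' : Nm n g'' ((D.tensor D').chi (T ⊗ₖ T'))) (h₀ : Nm n g₀ (S.HS 0)) :
    (1 - Polynomial.X) ^ (n + 1 - c) ∣ g'' * g₀ - g * g' := by
  have e1 := NS.ident1 h h'
  have e2 := NS.ident1 (h.kron h') (Dat.Ok.one (Dat.one S.toNS0))
  rw [Dat.chi_unit' (S.ok_parM _) (h.kron h'), NS.chi_one] at e2
  have e3 := e2.trans e1.symm
  have hd := (hg''.prod h₀ c).dvd (hg.prod hg' c) (by rw [← hM]; exact e3)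
  rw [← sub_mul] at hd
  rcases le_total c (n + 1) with hc | hc
  · have hne : (1 - Polynomial.X : Polynomial ℂ) ^ c ≠ 0 := by
      refine pow_ne_zero _ fun e => ?_
      have := congrArg (Polynomial.eval 0) e
      simp at this
    rw [← mul_dvd_mul_iff_right hne, ← pow_add, Nat.sub_add_cancel hc]
    exact hd
  · rw [Nat.sub_eq_zero_of_le hc, pow_zero]
    exact one_dvd _

end Pool.Agent.HCF
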