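import Pool.Agent.P.MP_f644fa_ag.LV0

/-! Restriction to the lines through a point; generators of small degree. -/

noncomputable section
namespace Pool.Agent.HCF
open Finset Module Polynomial

variable {M : ℕ} {A A' : Type} [CommRing A] [Algebra ℂ A] [CommRing A'] [Algebra ℂ A']

/-- restriction to the line `ξ + s y` -/
def lnA (ξ : Fin M → A) (y : Fin M → ℂ) : SS M →ₐ[ℂ] A[X] :=
  MvPolynomial.aeval fun l => C (ξ l) + C (algebraMap ℂ A (y l)) * X

/-- the polynomial with the roots `0` and `t a` -/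
def Gm {k : ℕ} (t : Fin k → A) : A[X] := X * ∏ a, (X - C (t a))

theorem lnA_map (ρ : A →ₐ[ℂ] A') (ξ : Fin M → A) (y : Fin M → ℂ) (φ : SS M) :
    (lnA ξ y φ).map (ρ : A →+* A') = lnA (fun l => ρ (ξ l)) y φ := by
  induction φ using MvPolynomial.induction_on with
  | C a => simp [lnA]
  | add p q hp hq => rw [map_add, map_add, Polynomial.map_add, hp, hq]
  | mul_X p j hp =>
    rw [map_mul, map_mul, Polynomial.map_mul, hp]
    simp [lnA]

theorem lnA_eval (x y : Fin M → ℂ) (s : ℂ) (φ : SS M) :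
    (lnA x y φ).eval s = MvPolynomial.eval (x + s • y) φ := by
  induction φ using MvPolynomial.induction_on with
  | C a => simp [lnA]
  | add p q hp hq => rw [map_add, map_add, eval_add, hp, hq]
  | mul_X p j hp =>
    rw [map_mul, map_mul, eval_mul, hp, lnA, MvPolynomial.aeval_X, MvPolynomial.eval_X]
    simp only [eval_add, eval_C, eval_mul, eval_X, Pi.add_apply, Pi.smul_apply, smul_eq_mul,
      Algebra.algebraMap_self, RingHom.id_apply, mul_comm s]

theorem lnA_zero (x y : Fin M → ℂ) (φ : SS M) :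
    (lnA x y φ).eval 0 = MvPolynomial.eval x φ := by
  rw [lnA_eval, zero_smul, add_zero]

theorem lnA_deg (ξ : Fin M → A) (y : Fin M → ℂ) {φ : SS M} {d : ℕ} (h : φ.IsHomogeneous d) :
    (lnA ξ y φ).natDegree ≤ d ∧
      (lnA ξ y φ).coeff d = algebraMap ℂ A (MvPolynomial.eval y φ) := by
  classical
  have key : ∀ s ∈ φ.support,
      (lnA ξ y (MvPolynomial.monomial s (φ.coeff s))).natDegree ≤ d ∧
      (lnA ξ y (MvPolynomial.monomial s (φ.coeff s))).coeff d =
        algebraMap ℂ A (MvPolynomial.eval y (MvPolynomial.monomial s (φ.coeff s))) := by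
    intro s hs
    have hd : d = ∑ l ∈ s.support, s l := h.degree_eq_sum_deg_support hs
    have h1 : ∀ l, (C (ξ l) + C (algebraMap ℂ A (y l)) * X : A[X]).natDegree ≤ 1 := fun l => by
      rw [add_comm]
      exact natDegree_linear_le
    have h2 : ∀ u : Finset (Fin M),
        (∏ l ∈ u, (C (ξ l) + C (algebraMap ℂ A (y l)) * X : A[X]) ^ s l).natDegree ≤
          ∑ l ∈ u, s l ∧
        (∏ l ∈ u, (C (ξ l) + C (algebraMap ℂ A (y l)) * X : A[X]) ^ s l).coeff (∑ l ∈ u, s l) =
          ∏ l ∈ u, algebraMap ℂ A (y l) ^ s l := by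
      intro u
      induction u using Finset.induction_on with
      | empty => simp
      | insert l u hl ih =>
        have h3 := natDegree_pow_le_of_le (s l) (h1 l)
        have h4 := coeff_pow_of_natDegree_le (m := s l) (h1 l)
        rw [mul_one] at h3 h4
        rw [prod_insert hl, sum_insert hl, prod_insert hl]
        refine ⟨natDegree_mul_le.trans (add_le_add h3 ih.1), ?_⟩
        rw [coeff_mul_add_eq_of_natDegree_le h3 ih.1, h4, ih.2]
        simp
    rw [lnA, MvPolynomial.aeval_monomial, MvPolynomial.eval_monomial, Finsupp.prod, Finsupp.prod,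
      Polynomial.algebraMap_apply, hd]
    refine ⟨(natDegree_C_mul_le _ _).trans (h2 _).1, ?_⟩
    rw [coeff_C_mul, (h2 _).2, map_mul, map_prod]
    simp only [map_pow]
  refine ⟨?_, ?_⟩
  · rw [φ.as_sum, map_sum]
    exact natDegree_sum_le_of_forall_le _ _ fun s hs => (key s hs).1
  · conv_lhs => rw [φ.as_sum, map_sum, finsetSum_coeff]
    conv_rhs => rw [φ.as_sum, map_sum, map_sum]
    exact sum_congr rfl fun s hs => (key s hs).2

theorem lnA_smul (x y : Fin M → ℂ) {φ : SS M} {d : ℕ} (h : φ.IsHomogeneous d) {u : ℂ}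
    (hu : u ≠ 0) : lnA (u • x) y φ = C (u ^ d) * (lnA x y φ).comp (C u⁻¹ * X) := by
  refine Polynomial.funext fun s => ?_
  rw [eval_mul, eval_C, eval_comp, lnA_eval, lnA_eval, ← eval_smul_hom h, smul_add, smul_smul]
  simp [← mul_assoc, mul_inv_cancel₀ hu]

omit [Algebra ℂ A] in
theorem Gm_monic {k : ℕ} (t : Fin k → A) : (Gm t).Monic :=
  monic_X.mul (monic_prod_of_monic _ _ fun _ _ => monic_X_sub_C _)

omit [Algebra ℂ A] in
theorem Gm_natDegree [Nontrivial A] {k : ℕ} (t : Fin k → A) : (Gm t).natDegree = k + 1 := by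
  rw [Gm, monic_X.natDegree_mul (monic_prod_of_monic _ _ fun _ _ => monic_X_sub_C _),
    natDegree_X, natDegree_prod_of_monic _ _ fun _ _ => monic_X_sub_C _]
  simp [add_comm]

omit [Algebra ℂ A] [Algebra ℂ A'] in
theorem Gm_map (ρ : A →+* A') {k : ℕ} (t : Fin k → A) :
    (Gm t).map ρ = Gm fun a => ρ (t a) := by
  simp [Gm, Polynomial.map_prod]

theorem Gm_smul {k : ℕ} (t : Fin k → ℂ) {u : ℂ} (hu : u ≠ 0) :
    C (u ^ (k + 1)) * (Gm t).comp (C u⁻¹ * X) = Gm (u • t) := by
  refine Polynomial.funext fun s => ?_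
  have e : ∏ a, (s - u * t a) = u ^ k * ∏ a, (u⁻¹ * s - t a) := by
    have e1 : ∀ a, s - u * t a = u * (u⁻¹ * s - t a) := fun a => by
      rw [mul_sub, ← mul_assoc, mul_inv_cancel₀ hu, one_mul]
    simp only [e1, prod_mul_distrib, prod_const, card_univ, Fintype.card_fin]
  simp only [Gm, eval_mul, eval_C, eval_comp, eval_X, eval_prod, eval_sub, Pi.smul_apply,
    smul_eq_mul, e]
  have e2 : u * u⁻¹ = 1 := mul_inv_cancel₀ hu
  linear_combination (u ^ k * s * ∏ a, (u⁻¹ * s - t a)) * e2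

omit [Algebra ℂ A] in
theorem Gm_cons {k : ℕ} (t : Fin k → A) : Gm (Fin.cons 0 t : Fin (k + 1) → A) = Gm t * X := by
  simp only [Gm, Fin.prod_univ_succ, Fin.cons_zero, Fin.cons_succ, map_zero, sub_zero]
  ring

theorem Gm_coprime {k : ℕ} (t : Fin k → ℂ) {p : ℂ[X]} (h0 : p.eval 0 ≠ 0)
    (h : ∀ a, p.eval (t a) ≠ 0) : IsCoprime (Gm t) p := by
  have key : ∀ z : ℂ, p.eval z ≠ 0 → IsCoprime (X - C z) p := fun z hz =>
    (irreducible_X_sub_C z).coprime_iff_not_dvd.2 fun hd => hz (dvd_iff_isRoot.1 hd)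
  refine IsCoprime.mul_left ?_ (IsCoprime.prod_left fun a _ => key _ (h a))
  simpa using key 0 h0

theorem pg_roots {k : ℕ} : ∀ {G : ℂ[X]}, G ≠ 0 → k ≤ G.natDegree →
    ∃ t : Fin k → ℂ, ∏ a, (X - C (t a)) ∣ G := by
  induction k with
  | zero => exact fun _ _ => ⟨fun a => a.elim0, by simp⟩
  | succ k ih =>
    intro G hG hk
    obtain ⟨z, hz⟩ := IsAlgClosed.exists_root G
      (ne_of_gt (natDegree_pos_iff_degree_pos.1 (by omega)))
    obtain ⟨G', rfl⟩ := dvd_iff_isRoot.2 hz
    have h1 : G' ≠ 0 := right_ne_zero_of_mul hG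
    rw [natDegree_mul (X_sub_C_ne_zero z) h1, natDegree_X_sub_C] at hk
    obtain ⟨t, ht⟩ := ih h1 (by omega)
    refine ⟨Fin.cons z t, ?_⟩
    simp only [Fin.prod_univ_succ, Fin.cons_zero, Fin.cons_succ]
    exact mul_dvd_mul_left _ ht

omit [Algebra ℂ A] in
/-- pseudo-division -/
theorem pg_pdiv {Γ : A[X]} {d : ℕ} (hΓ : Γ.natDegree ≤ d) (p : A[X]) :
    ∃ (N : ℕ) (q r : A[X]), C (Γ.coeff d ^ N) * p = Γ * q + r ∧ ∀ m, d ≤ m → r.coeff m = 0 := by
  have key : ∀ (e : ℕ) (p : A[X]), (∀ m, d + e ≤ m → p.coeff m = 0) →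
      ∃ (N : ℕ) (q r : A[X]), C (Γ.coeff d ^ N) * p = Γ * q + r ∧
        ∀ m, d ≤ m → r.coeff m = 0 := by
    intro e
    induction e with
    | zero => exact fun p hp => ⟨0, 0, p, by simp, hp⟩
    | succ e ih =>
      intro p hp
      obtain ⟨N, q, r, h1, h2⟩ := ih (C (Γ.coeff d) * p - C (p.coeff (d + e)) * (Γ * X ^ e))
        fun m hm => by
          rw [coeff_sub, coeff_C_mul, coeff_C_mul, coeff_mul_X_pow', if_pos (by omega)]
          rcases hm.eq_or_lt with rfl | hm
          · rw [Nat.add_sub_cancel, mul_comm, sub_self]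
          · rw [hp m (by omega), coeff_eq_zero_of_natDegree_lt (by omega : Γ.natDegree < m - e)]
            simp
      refine ⟨N + 1, q + C (Γ.coeff d ^ N) * C (p.coeff (d + e)) * X ^ e, r, ?_, h2⟩
      rw [pow_succ, map_mul]
      linear_combination h1
  exact key (p.natDegree + 1) p fun m hm => coeff_eq_zero_of_natDegree_lt (by omega)

omit [Algebra ℂ A] in
/-- a generator of the fibre of an ideal extends to a neighbourhood with the same degree -/
theorem pg_gen (ρ : A →+* ℂ) (J : Ideal A[X]) {g : A[X]} (hg : g ∈ J) {e : ℕ}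
    (hd : g.natDegree ≤ e) (h1 : ρ (g.coeff e) ≠ 0) {γ : A[X]} (hγ : γ ∈ J)
    (hG : (γ.map ρ).Monic) {k : ℕ} (hk : (γ.map ρ).natDegree = k) (hke : k ≤ e) :
    ∃ Γ ∈ J, Γ.natDegree ≤ k ∧ ρ (Γ.coeff k) ≠ 0 := by
  have key : ∀ i d, d + i = e → k ≤ d → ∃ Γ ∈ J, Γ.natDegree ≤ d ∧ ρ (Γ.coeff d) ≠ 0 := by
    intro i
    induction i with
    | zero =>
      rintro d rfl -
      exact ⟨g, hg, hd, h1⟩
    | succ i ih =>
      intro d h2 h3
      obtain ⟨Γ, g1, g2, g3⟩ := ih (d + 1) (by omega) (by omega)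
      obtain ⟨N, q, r, e1, e2⟩ := pg_pdiv g2 (γ * X ^ (d - k))
      have hr : r.natDegree ≤ d := natDegree_le_iff_coeff_eq_zero.2 fun m hm => e2 m hm
      have e3 := congrArg (Polynomial.map ρ) e1
      simp only [Polynomial.map_mul, Polynomial.map_add, map_C, Polynomial.map_pow, map_X,
        map_pow] at e3
      have hm : (γ.map ρ * X ^ (d - k)).Monic := hG.mul (monic_X_pow _)
      have hn : (γ.map ρ * X ^ (d - k)).natDegree = d := by
        rw [hG.natDegree_mul (monic_X_pow _), natDegree_X_pow, hk]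
        omega
      have hq : q.map ρ = 0 := by
        by_contra hq
        have h5 : d + 1 ≤ (Γ.map ρ).natDegree :=
          le_natDegree_of_ne_zero (by rw [coeff_map]; exact g3)
        have h6 : Γ.map ρ ≠ 0 := fun h => by
          rw [h, natDegree_zero] at h5
          omega
        have h7 : (Γ.map ρ * q.map ρ).natDegree ≤ d := by
          rw [← sub_eq_iff_eq_add.2 e3, ← C_pow]
          exact (natDegree_sub_le _ _).trans
            (max_le ((natDegree_C_mul_le _ _).trans hn.le) (natDegree_map_le.trans hr))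
        rw [natDegree_mul h6 hq] at h7
        omega
      refine ⟨r, ?_, hr, ?_⟩
      · rw [← sub_eq_iff_eq_add'.2 e1]
        exact J.sub_mem (J.mul_mem_left _ (J.mul_mem_right _ hγ)) (J.mul_mem_right _ g1)
      · rw [hq, mul_zero, zero_add, ← C_pow] at e3
        have h8 := hm.coeff_natDegree
        rw [hn] at h8
        rw [← coeff_map, ← e3, coeff_C_mul, h8, mul_one]
        exact pow_ne_zero _ g3
  exact key (e - k) k (by omega) le_rfl

end Pool.Agent.HCF
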