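import Pool.Agent.P.MP_f644fa_ag.PG0

/-! Local frames that extend an incomplete system of generators. -/

noncomputable section
namespace Pool.Agent.HCF
open Finset Module MvPolynomial

variable {M : ℕ} {I : Ideal (SS M)} {c : ℕ}

theorem pg1_mul {x : Fin M → ℂ} (a : SS M) {φ : SS M} (h : eval x φ = 0) :
    pv x (gr (a * φ)) = eval x a • pv x (gr φ) := by
  funext l
  simp [pv, gr, Derivation.leibniz, h]

theorem pg1_sum {x : Fin M → ℂ} {ι : Type} [Fintype ι] (a h : ι → SS M)
    (h0 : ∀ i, eval x (h i) = 0) :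
    pv x (gr (∑ i, a i * h i)) = ∑ i, eval x (a i) • pv x (gr (h i)) := by
  rw [← sum_congr rfl fun i _ => pg1_mul (a i) (h0 i)]
  funext l
  simp only [pv, gr, map_sum, Finset.sum_apply]

theorem pg1_dual {ι : Type} [Fintype ι] [DecidableEq ι] {p : Fin M → ℂ} {h : ι → SS M}
    (hi : LinearIndependent ℂ fun i => pv p (gr (h i))) :
    ∃ (δ : SS M) (u : ι → Fin M → SS M), eval p δ ≠ 0 ∧
      ∀ i i', ∑ l, pderiv l (h i) * u i' l = if i = i' then δ else 0 :=
  dual_fields (aeval p) (fun i l => pderiv l (h i)) hi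

theorem IsManifold.frame_of_indep (hX : IsManifold I c) {h : Fin c → SS M} (hm : ∀ i, h i ∈ I)
    {p : Fin M → ℂ} (hp : p ∈ cone I) (hi : LinearIndependent ℂ fun i => pv p (gr (h i))) :
    ∃ δ : SS M, eval p δ ≠ 0 ∧ ∀ φ ∈ I, δ * φ ∈ Ideal.span (Set.range h) := by
  classical
  obtain ⟨F, g, h1, -, h2, h3⟩ := hX.smooth p hp
  choose a ha using fun i => Ideal.mem_span_range_iff_exists_fun.1 (h3 (h i) (hm i))
  let A : Matrix (Fin c) (Fin c) (SS M) := Matrix.of a
  have hd : eval p A.det ≠ 0 := by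
    rw [RingHom.map_det]
    intro h0
    obtain ⟨w, hw, e⟩ := Matrix.exists_vecMul_eq_zero_iff.2 h0
    refine hw (funext fun i => ?_)
    have h4 : ∑ i, (w i * eval p g) • pv p (gr (h i)) = 0 := by
      have h5 : ∀ i, (w i * eval p g) • pv p (gr (h i)) =
          ∑ k, (w i * eval p (a i k)) • pv p (gr (F k)) := fun i => by
        rw [mul_smul, ← pg1_mul g (hp.2 _ (hm i)), ← ha i, pg1_sum _ _ fun k => hp.2 _ (h1 k),
          smul_sum]
        exact sum_congr rfl fun k _ => smul_smul _ _ _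
      simp only [h5]
      rw [sum_comm]
      refine sum_eq_zero fun k _ => ?_
      have h6 : ∑ i, w i * eval p (a i k) = 0 := congrFun e k
      rw [← sum_smul, h6, zero_smul]
    exact (mul_eq_zero.1 (Fintype.linearIndependent_iff.1 hi _ h4 i)).resolve_right h2
  have hF : ∀ k, A.det * F k ∈ Ideal.span (Set.range h) := fun k => by
    have h4 : A.mulVec F = fun i => g * h i := funext fun i => ha i
    have h5 := congrFun (congrArg (A.adjugate.mulVec ·) h4) k
    simp only [Matrix.mulVec_mulVec, Matrix.adjugate_mul, Matrix.smul_mulVec, Matrix.one_mulVec,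
      Pi.smul_apply, smul_eq_mul] at h5
    have h6 : ∑ i, A.adjugate k i * (g * h i) ∈ Ideal.span (Set.range h) :=
      Ideal.sum_mem _ fun i _ => Ideal.mul_mem_left _ _
        (Ideal.mul_mem_left _ _ (Ideal.subset_span ⟨i, rfl⟩))
    rw [h5]
    exact h6
  refine ⟨A.det * g, by rw [map_mul]; exact mul_ne_zero hd h2, fun φ hφ => ?_⟩
  obtain ⟨b, hb⟩ := Ideal.mem_span_range_iff_exists_fun.1 (h3 φ hφ)
  rw [mul_assoc, ← hb, mul_sum]
  exact Ideal.sum_mem _ fun k _ => by
    rw [mul_left_comm]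
    exact Ideal.mul_mem_left _ _ (hF k)

theorem IsManifold.complete (hX : IsManifold I c) {p : Fin M → ℂ} (hp : p ∈ cone I) (r : ℕ) :
    ∀ (j : ℕ) (hj : j + r = c) (f : Fin j → SS M), (∀ i, f i ∈ I) →
      (LinearIndependent ℂ fun i => pv p (gr (f i))) →
      ∃ H : Fin c → SS M, (∀ i : Fin j, H ⟨i, by omega⟩ = f i) ∧ (∀ i, H i ∈ I) ∧
        LinearIndependent ℂ fun i => pv p (gr (H i)) := by
  induction r with
  | zero =>
    intro j hj f h1 h2
    obtain rfl : j = c := hj
    exact ⟨f, fun _ => rfl, h1, h2⟩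
  | succ r ih =>
    intro j hj f h1 h2
    obtain ⟨φ, g1, g2⟩ : ∃ φ ∈ I, pv p (gr φ) ∉ Sp f p := by
      by_contra hn
      push Not at hn
      have h3 : Es I p ≤ Sp f p := (hX.Es_le p).trans (Submodule.span_le.2 (by
        rintro _ ⟨φ, d, g1, -, rfl⟩
        exact hn φ g1))
      have h4 := Submodule.finrank_mono h3
      rw [hX.pgen_Es.rank p hp, Sp, finrank_span_eq_card h2, Fintype.card_fin] at h4
      omega
    obtain ⟨H, k1, k2, k3⟩ := ih (j + 1) (by omega) (Fin.snoc (α := fun _ => SS M) f φ)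
      (fun i => by
        refine Fin.lastCases ?_ (fun i => ?_) i
        · rwa [Fin.snoc_last]
        · rw [Fin.snoc_castSucc]
          exact h1 i) (by
        have e : (fun i => pv p (gr (Fin.snoc (α := fun _ => SS M) f φ i))) =
            Fin.snoc (α := fun _ => Fin M → ℂ) (fun i => pv p (gr (f i))) (pv p (gr φ)) := by
          funext i
          refine Fin.lastCases ?_ (fun i => ?_) i
          · rw [Fin.snoc_last, Fin.snoc_last]
          · rw [Fin.snoc_castSucc, Fin.snoc_castSucc]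
        rw [e]
        exact linearIndependent_finSnoc.2 ⟨h2, g2⟩)
    refine ⟨H, fun i => ?_, k2, k3⟩
    have := k1 i.castSucc
    rwa [Fin.snoc_castSucc] at this

theorem pg1_sep (P : Finset (Fin M → ℂ)) (p : Fin M → ℂ) :
    ∃ a : SS M, eval p a = 1 ∧ ∀ p' ∈ P, p' ≠ p → eval p' a = 0 := by
  classical
  have h1 : ∀ p' : Fin M → ℂ, ∃ a : SS M, eval p a = 1 ∧ (p' ≠ p → eval p' a = 0) := by
    intro p'
    by_cases h : p' = p
    · exact ⟨1, map_one _, fun h' => absurd h h'⟩
    · obtain ⟨l, hl⟩ := Function.ne_iff.1 h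
      refine ⟨C (p l - p' l)⁻¹ * (X l - C (p' l)), ?_, fun _ => by simp⟩
      simp only [map_mul, map_sub, eval_C, eval_X]
      exact inv_mul_cancel₀ (sub_ne_zero.2 hl.symm)
  choose a h2 h3 using h1
  refine ⟨∏ p' ∈ P, a p', by simp [h2], fun p' hp' h => ?_⟩
  rw [map_prod]
  exact prod_eq_zero hp' (h3 p' h)

variable {j : ℕ} {b : Fin j → ℕ} {f : Fin j → SS M}

/-- one frame for finitely many points -/
theorem Gen.multi (hX : IsManifold I c) (hf : Gen I b f) (hj : j ≤ c) (P : Finset (Fin M → ℂ))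
    (hP : ∀ p ∈ P, p ∈ cone I) :
    ∃ (H : Fin c → SS M) (δ : SS M), (∀ i : Fin j, H ⟨i, by omega⟩ = f i) ∧ (∀ i, H i ∈ I) ∧
      (∀ p ∈ P, eval p δ ≠ 0) ∧ ∀ φ ∈ I, δ * φ ∈ Ideal.span (Set.range H) := by
  classical
  choose a a1 a2 using pg1_sep P
  choose K k1 k2 k3 using fun p : P =>
    hX.complete (hP p.1 p.2) (c - j) j (by omega) f hf.mem (hf.ind _ (hP p.1 p.2))
  have hs : ∀ (p : P) {V : Type} [AddCommGroup V] [Module ℂ V] (v : P → V),
      ∑ p' : P, eval p.1 (a p'.1) • v p' = v p := fun p V _ _ v => by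
    rw [sum_eq_single p, a1, one_smul]
    · intro p' _ h
      rw [a2 p'.1 p.1 p.2 fun e => h (Subtype.ext e.symm), zero_smul]
    · exact fun h => absurd (mem_univ p) h
  let H : Fin c → SS M := fun i => if h : i.1 < j then f ⟨i, h⟩ else ∑ p : P, a p.1 * K p i
  have hH : ∀ i, H i ∈ I := fun i => by
    by_cases h : i.1 < j
    · simp only [H, dif_pos h]
      exact hf.mem _
    · simp only [H, dif_neg h]
      exact Ideal.sum_mem _ fun p _ => Ideal.mul_mem_left _ _ (k2 p i)
  have hi : ∀ p : P, LinearIndependent ℂ fun i => pv p.1 (gr (H i)) := fun p => by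
    have e : (fun i => pv p.1 (gr (H i))) = fun i => pv p.1 (gr (K p i)) := by
      funext i
      by_cases h : i.1 < j
      · simp only [H, dif_pos h]
        rw [← k1 p ⟨i, h⟩]
      · simp only [H, dif_neg h]
        rw [pg1_sum _ _ fun p' => (hP p.1 p.2).2 _ (k2 p' i), hs p]
    rw [e]
    exact k3 p
  choose δ d1 d2 using fun p : P => hX.frame_of_indep hH (hP p.1 p.2) (hi p)
  refine ⟨H, ∑ p : P, a p.1 * δ p, fun i => dif_pos i.2, hH, fun p hp => ?_, fun φ hφ => ?_⟩
  · have h1 := hs ⟨p, hp⟩ fun p' => eval p (δ p')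
    simp only [smul_eq_mul] at h1
    simp only [map_sum, map_mul]
    rw [h1]
    exact d1 ⟨p, hp⟩
  · rw [sum_mul]
    exact Ideal.sum_mem _ fun p _ => by
      rw [mul_assoc]
      exact Ideal.mul_mem_left _ _ (d2 p φ hφ)

/-- local equations for the locus where a gradient depends on the given ones -/
theorem Gen.ztest (hX : IsManifold I c) (hf : Gen I b f) (hj : j ≤ c) {g : SS M} (hg : g ∈ I)
    {x₀ : Fin M → ℂ} (h0 : x₀ ∈ cone I) :
    ∃ (q : {i : Fin c // j ≤ i.1} → SS M) (δ : SS M), eval x₀ δ ≠ 0 ∧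
      (∀ x, pv x (gr g) ∈ Sp f x → ∀ i, eval x (q i) = 0) ∧
      ∀ x ∈ cone I, eval x δ ≠ 0 → (∀ i, eval x (q i) = 0) → pv x (gr g) ∈ Sp f x := by
  classical
  obtain ⟨H, k1, k2, k3⟩ := hX.complete h0 (c - j) j (by omega) f hf.mem (hf.ind _ h0)
  obtain ⟨δ, d1, d2⟩ := hX.frame_of_indep k2 h0 k3
  obtain ⟨δ', u, d3, d4⟩ := pg1_dual k3
  have hu : ∀ x i i', ∑ l, pv x (gr (H i)) l * eval x (u i' l) =
      if i = i' then eval x δ' else 0 := fun x i i' => by
    have := congrArg (eval x) (d4 i i')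
    rw [map_sum, apply_ite (eval x), map_zero] at this
    rw [← this]
    exact sum_congr rfl fun l _ => (map_mul (eval x) _ _).symm
  have hq : ∀ x i', eval x (∑ l, pderiv l g * u i' l) = ∑ l, pv x (gr g) l * eval x (u i' l) :=
    fun x i' => by
      rw [map_sum]
      exact sum_congr rfl fun l _ => map_mul (eval x) _ _
  have hp : ∀ {ι : Type} [Fintype ι] (w : ι → ℂ) (v : ι → Fin M → ℂ) (z : Fin M → ℂ),
      ∑ l, (∑ i, w i • v i) l * z l = ∑ i, w i * ∑ l, v i l * z l := fun w v z => by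
    simp only [Finset.sum_apply, Pi.smul_apply, smul_eq_mul, sum_mul, mul_sum, mul_assoc]
    exact sum_comm
  refine ⟨fun i => ∑ l, pderiv l g * u i.1 l, δ * δ', by rw [map_mul]; exact mul_ne_zero d1 d3,
    fun x hx i => ?_, fun x hx hδ h => ?_⟩
  · obtain ⟨w, hw⟩ := (Submodule.mem_span_range_iff_exists_fun ℂ).1 hx
    rw [hq, ← hw, hp]
    refine sum_eq_zero fun i' _ => ?_
    rw [← k1 i', hu, if_neg, mul_zero]
    intro e
    have h1 := i.2
    have h2 := i'.2
    rw [← e] at h1
    exact absurd h1 (not_le.2 h2)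
  · rw [map_mul] at hδ
    obtain ⟨a, ha⟩ := Ideal.mem_span_range_iff_exists_fun.1 (d2 g hg)
    have h1 := pg1_sum (x := x) a H fun i => hx.2 _ (k2 i)
    rw [ha, pg1_mul _ (hx.2 _ hg)] at h1
    rw [← Submodule.smul_mem_iff _ (left_ne_zero_of_mul hδ), h1]
    refine Submodule.sum_mem _ fun i _ => ?_
    by_cases hi : i.1 < j
    · refine Submodule.smul_mem _ _ (Submodule.subset_span ⟨⟨i, hi⟩, ?_⟩)
      simp only [← k1 ⟨i, hi⟩]
    · have h2 := hp (fun i => eval x (a i)) (fun i => pv x (gr (H i))) fun l => eval x (u i l)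
      have h3 := h ⟨i, not_lt.1 hi⟩
      rw [hq] at h3
      simp only [← h1, hu, mul_ite, mul_zero, sum_ite_eq', mem_univ, if_true, Pi.smul_apply,
        smul_eq_mul, mul_assoc, ← mul_sum, h3] at h2
      rw [(mul_eq_zero.1 h2.symm).resolve_right (right_ne_zero_of_mul hδ), zero_smul]
      exact Submodule.zero_mem _

/-- a form whose gradient is independent of the others does not vanish on their zero set -/
theorem pg1_point {g : SS M} {z : Fin M → ℂ} (h0 : ∀ i, eval z (f i) = 0)
    (hi : LinearIndependent ℂ fun i => pv z (gr (f i))) (hg : pv z (gr g) ∉ Sp f z) :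
    ∃ y, (∀ i, eval y (f i) = 0) ∧ eval y g ≠ 0 := by
  classical
  by_contra hn
  push Not at hn
  have h1 : g ∈ (Ideal.span (Set.range f)).radical := by
    rw [← vanishingIdeal_zeroLocus_eq_radical (K := ℂ)]
    exact fun y hy => hn y fun i => hy _ (Ideal.subset_span ⟨i, rfl⟩)
  obtain ⟨N, hN⟩ := h1
  have h2 : LinearIndependent ℂ fun o : Option (Fin j) => pv z (gr (o.elim g f)) := by
    have e : (fun o : Option (Fin j) => pv z (gr (o.elim g f))) =
        fun o => Option.casesOn' o (pv z (gr g)) fun i => pv z (gr (f i)) := by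
      funext o
      cases o <;> rfl
    rw [e]
    exact hi.option hg
  obtain ⟨δ, u, d1, d2⟩ := pg1_dual h2
  obtain ⟨D, hD⟩ : ∃ D : Derivation ℂ (SS M) (SS M), ∀ φ, D φ = ∑ l, pderiv l φ * u none l := by
    refine ⟨∑ l, u none l • pderiv l, fun φ => ?_⟩
    have h3 := congrFun (map_sum (Derivation.coeFnAddMonoidHom (R := ℂ) (A := SS M) (M := SS M))
      (fun l => u none l • pderiv l) univ) φ
    rw [Finset.sum_apply] at h3
    exact h3.trans (sum_congr rfl fun l _ => mul_comm _ _)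
  have hDg : D g = δ := by
    rw [hD]
    simpa using d2 none none
  have hDf : ∀ φ ∈ Ideal.span (Set.range f), D φ ∈ Ideal.span (Set.range f) := fun φ hφ => by
    obtain ⟨a, rfl⟩ := Ideal.mem_span_range_iff_exists_fun.1 hφ
    rw [map_sum]
    refine Ideal.sum_mem _ fun i _ => ?_
    have e : D (f i) = 0 := by
      rw [hD]
      simpa using d2 (some i) none
    rw [Derivation.leibniz, e, smul_zero, zero_add, smul_eq_mul]
    exact Ideal.mul_mem_right _ _ (Ideal.subset_span ⟨i, rfl⟩)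
  have key : ∀ (N : ℕ) (a : SS M), eval z a ≠ 0 → a * g ^ N ∉ Ideal.span (Set.range f) := by
    intro N
    induction N with
    | zero =>
      intro a ha h
      obtain ⟨w, hw⟩ := Ideal.mem_span_range_iff_exists_fun.1 h
      rw [pow_zero, mul_one] at hw
      exact ha (by rw [← hw, map_sum]; simp [h0])
    | succ N ih =>
      intro a ha h
      refine ih (a * a * δ * ((N + 1 : ℕ) : SS M)) ?_ ?_
      · simp only [map_mul, map_natCast]
        exact mul_ne_zero (mul_ne_zero (mul_ne_zero ha ha) d1) (Nat.cast_ne_zero.2 N.succ_ne_zero)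
      · have h3 := Ideal.sub_mem _ (Ideal.mul_mem_left _ a (hDf _ h)) (Ideal.mul_mem_left _ (D a) h)
        rw [Derivation.leibniz, Derivation.leibniz_pow, hDg] at h3
        convert h3 using 1
        simp only [smul_eq_mul, nsmul_eq_mul, Nat.add_sub_cancel]
        ring
  exact key N 1 (by simp) (by rwa [one_mul])

end Pool.Agent.HCF
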