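import Pool.Agent.P.MP_f644fa_ag.PG1

/-! Multisecant lines through a point and the normal field they define. -/

noncomputable section
namespace Pool.Agent.HCF
open Finset Module Polynomial

variable {M : ℕ} {I : Ideal (SS M)} {c : ℕ} {y : Fin M → ℂ} {g : SS M} {e k : ℕ}

/-- the line through `x` in the direction `y` meets the cone in `k` further points -/
def Sc (I : Ideal (SS M)) (y x : Fin M → ℂ) (k : ℕ) : Prop :=
  ∃ t : Fin k → ℂ, ∀ φ ∈ I, Gm t ∣ lnA x y φ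

/-- the residue along the line is the derivative in the direction `v` -/
def Nv (I : Ideal (SS M)) (y x : Fin M → ℂ) (G : ℂ[X]) (v : Fin M → ℂ) : Prop :=
  ∀ φ ∈ I, ∀ q, lnA x y φ = G * q →
    q.eval 0 = ∑ l, v l * MvPolynomial.eval x (MvPolynomial.pderiv l φ)

theorem lnA_ev {τ : Type} (ξ : Fin M → MvPolynomial τ ℂ) (y : Fin M → ℂ) (w : τ → ℂ) (φ : SS M) :
    (lnA ξ y φ).map (MvPolynomial.eval w) = lnA (fun l => MvPolynomial.eval w (ξ l)) y φ :=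
  lnA_map (MvPolynomial.aeval w) ξ y φ

theorem lnA_evX (x y : Fin M → ℂ) (φ : SS M) :
    (lnA MvPolynomial.X y φ).map (MvPolynomial.eval x) = lnA x y φ := by
  rw [lnA_ev]
  simp only [MvPolynomial.eval_X]

theorem pg2_eq {G p : ℂ[X]} (hG : G.Monic) {d : ℕ} (hd : G.natDegree = d) (h : G ∣ p)
    (hp : p.natDegree ≤ d) : p = C (p.coeff d) * G := by
  have h1 := eq_leadingCoeff_mul_of_monic_of_dvd_of_natDegree_le hG h (hd ▸ hp)
  have h2 := congrArg (coeff · d) h1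
  simp only [coeff_C_mul] at h2
  rw [← hd, hG.coeff_natDegree, mul_one, hd] at h2
  rw [h2]
  exact h1

theorem pg2_loc (hg : g ∈ I) (he : g.IsHomogeneous e) (hy : MvPolynomial.eval y g = 1)
    {x₀ : Fin M → ℂ} (h0 : x₀ ∈ cone I) (hk : ¬Sc I y x₀ k) :
    ∃ k₀ ≤ k, ∃ Γ : (SS M)[X], Γ.natDegree ≤ k₀ ∧ MvPolynomial.eval x₀ (Γ.coeff k₀) ≠ 0 ∧
      ∀ (x : Fin M → ℂ) (G : ℂ[X]), (∀ φ ∈ I, G ∣ lnA x y φ) →
        G ∣ Γ.map (MvPolynomial.eval x) := by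
  let J : Ideal (SS M)[X] := I.map (lnA (A := SS M) MvPolynomial.X y).toRingHom
  have hJ : ∀ φ ∈ I, lnA MvPolynomial.X y φ ∈ J := fun φ h => Ideal.mem_map_of_mem _ h
  have hle : ∀ (x : Fin M → ℂ) (G : ℂ[X]), (∀ φ ∈ I, G ∣ lnA x y φ) → ∀ γ ∈ J,
      G ∣ γ.map (MvPolynomial.eval x) := fun x G h γ hγ => by
    have h1 : J ≤ (Ideal.span {G}).comap (mapRingHom (MvPolynomial.eval x)) :=
      Ideal.map_le_iff_le_comap.2 fun φ hφ => Ideal.mem_span_singleton.2 (by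
        change G ∣ (lnA MvPolynomial.X y φ).map (MvPolynomial.eval x)
        rw [lnA_evX]
        exact h φ hφ)
    exact Ideal.mem_span_singleton.1 (h1 hγ)
  let J₀ : Ideal ℂ[X] := J.map (mapRingHom (MvPolynomial.eval x₀))
  have hJ₀ : ∀ φ ∈ I, lnA x₀ y φ ∈ J₀ := fun φ h => by
    rw [← lnA_evX]
    exact Ideal.mem_map_of_mem (mapRingHom (MvPolynomial.eval x₀)) (hJ φ h)
  obtain ⟨g1, g2⟩ := lnA_deg x₀ y he
  have g3 : lnA x₀ y g ≠ 0 := fun h => by simp [h, hy] at g2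
  obtain ⟨G₀, hG₀⟩ := (IsPrincipalIdealRing.principal J₀).principal
  have hd₀ : ∀ p, p ∈ J₀ ↔ G₀ ∣ p := fun p => by
    rw [hG₀]
    exact Ideal.mem_span_singleton
  have hne : G₀ ≠ 0 := fun h => g3 (zero_dvd_iff.1 (h ▸ (hd₀ _).1 (hJ₀ g hg)))
  have hm := monic_mul_leadingCoeff_inv hne
  have hsurj : Function.Surjective (mapRingHom (MvPolynomial.eval x₀ : SS M →+* ℂ)) :=
    Polynomial.map_surjective _ fun a => ⟨MvPolynomial.C a, MvPolynomial.eval_C a⟩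
  obtain ⟨γ, hγ, eγ⟩ := (Ideal.mem_map_iff_of_surjective _ hsurj).1
    ((hd₀ (G₀ * C G₀.leadingCoeff⁻¹)).2 (dvd_mul_right _ _))
  rw [coe_mapRingHom] at eγ
  have hn : (γ.map (MvPolynomial.eval x₀)).natDegree = G₀.natDegree := by
    rw [eγ, natDegree_mul_leadingCoeff_inv _ hne]
  obtain ⟨k1, k2⟩ := lnA_deg (MvPolynomial.X : Fin M → SS M) y he
  obtain ⟨Γ, k3, k4, k5⟩ := pg_gen (MvPolynomial.eval x₀) J (hJ g hg) k1 (by simp [k2, hy]) hγ
    (eγ ▸ hm) hn ((natDegree_le_of_dvd ((hd₀ _).1 (hJ₀ g hg)) g3).trans g1)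
  refine ⟨G₀.natDegree, ?_, Γ, k4, k5, fun x G h => hle x G h Γ k3⟩
  by_contra hlt
  obtain ⟨G₁, e1⟩ := hle x₀ X (fun φ hφ => X_dvd_iff.2 (by
    rw [coeff_zero_eq_eval_zero, lnA_zero]
    exact h0.2 φ hφ)) γ hγ
  have h1 : G₁ ≠ 0 := fun h => hm.ne_zero (by rw [← eγ, e1, h, mul_zero])
  rw [e1, natDegree_mul X_ne_zero h1, natDegree_X] at hn
  obtain ⟨t, ht⟩ := pg_roots h1 (k := k) (by omega)
  refine hk ⟨t, fun φ hφ => ?_⟩
  have h2 : Gm t ∣ G₀ * C G₀.leadingCoeff⁻¹ := by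
    rw [← eγ, e1]
    exact mul_dvd_mul_left _ ht
  exact ((isUnit_C.2 (IsUnit.mk0 _ (inv_ne_zero (leadingCoeff_ne_zero.2 hne)))).dvd_mul_right.1
    h2).trans ((hd₀ _).1 (hJ₀ φ hφ))

theorem pg2_closed (hg : g ∈ I) (he : g.IsHomogeneous e) (hy : MvPolynomial.eval y g = 1)
    {x₀ : Fin M → ℂ} (h0 : x₀ ∈ cone I) (hk : ¬Sc I y x₀ k) :
    ∃ δ : SS M, MvPolynomial.eval x₀ δ ≠ 0 ∧ ∀ x, Sc I y x k → MvPolynomial.eval x δ = 0 := by
  obtain ⟨k₀, h1, Γ, h2, h3, h4⟩ := pg2_loc hg he hy h0 hk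
  refine ⟨_, h3, fun x ⟨t, ht⟩ => ?_⟩
  have h5 := eq_zero_of_dvd_of_natDegree_lt (h4 x _ ht)
    (by rw [Gm_natDegree]; exact Nat.lt_succ_of_le ((natDegree_map_le.trans h2).trans h1))
  rw [← coeff_map, h5, coeff_zero]

theorem pg2_rat (hg : g ∈ I) (he : g.IsHomogeneous e) (hy : MvPolynomial.eval y g = 1)
    {x₀ : Fin M → ℂ} (h0 : x₀ ∈ cone I) (hk : Sc I y x₀ k) (hk' : ¬Sc I y x₀ (k + 1)) :
    ∃ Γ : (SS M)[X], Γ.natDegree ≤ k + 1 ∧ MvPolynomial.eval x₀ (Γ.coeff (k + 1)) ≠ 0 ∧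
      ∀ (x : Fin M → ℂ) (t : Fin k → ℂ), (∀ φ ∈ I, Gm t ∣ lnA x y φ) →
        Γ.map (MvPolynomial.eval x) = C (MvPolynomial.eval x (Γ.coeff (k + 1))) * Gm t := by
  obtain ⟨k₀, h1, Γ, h2, h3, h4⟩ := pg2_loc hg he hy h0 hk'
  obtain ⟨t, ht⟩ := hk
  have h5 : Γ.map (MvPolynomial.eval x₀) ≠ 0 := fun h => h3 (by rw [← coeff_map, h, coeff_zero])
  have h6 := (natDegree_le_of_dvd (h4 x₀ _ ht) h5).trans (natDegree_map_le.trans h2)
  rw [Gm_natDegree] at h6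
  obtain rfl : k₀ = k + 1 := le_antisymm h1 h6
  refine ⟨Γ, h2, h3, fun x t ht => ?_⟩
  rw [← coeff_map]
  exact pg2_eq (Gm_monic t) (Gm_natDegree t) (h4 x _ ht) (natDegree_map_le.trans h2)

theorem pg2_hom {x : Fin M → ℂ} {t : Fin k → ℂ} {φ : SS M} {d : ℕ} (hd : φ.IsHomogeneous d)
    {q : ℂ[X]} (h : lnA x y φ = Gm t * q) {u : ℂ} (hu : u ≠ 0) :
    lnA (u • x) y φ = Gm (u • t) * (C (u ^ d / u ^ (k + 1)) * q.comp (C u⁻¹ * X)) := by
  have e : u ^ d = u ^ (k + 1) * (u ^ d / u ^ (k + 1)) := by field_simp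
  rw [lnA_smul x y hd hu, h, mul_comp, ← Gm_smul t hu]
  nth_rewrite 1 [e]
  rw [map_mul]
  ring

theorem pg2_smul (hX : IsManifold I c) {x : Fin M → ℂ} {t : Fin k → ℂ}
    (h : ∀ φ ∈ I, Gm t ∣ lnA x y φ) {u : ℂ} (hu : u ≠ 0) :
    ∀ φ ∈ I, Gm (u • t) ∣ lnA (u • x) y φ := by
  refine basic0_ind hX (by simp) (fun a b ha hb => by rw [map_add]; exact dvd_add ha hb)
    fun d φ hφ hd => ?_
  obtain ⟨q, hq⟩ := h φ hφ
  exact ⟨_, pg2_hom hd hq hu⟩

theorem pg2_pair {ι : Type} [Fintype ι] (w : ι → ℂ) (v : ι → Fin M → ℂ) (z : Fin M → ℂ) :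
    ∑ l, z l * (∑ i, w i • v i) l = ∑ i, w i * ∑ l, z l * v i l := by
  simp only [Finset.sum_apply, Pi.smul_apply, smul_eq_mul, mul_sum, mul_left_comm (z _)]
  exact sum_comm

/-- a vector killed by a frame is tangent -/
theorem pg2_tan {x₀ x w : Fin M → ℂ} (F : PF I c x₀) (hx : x ∈ cone I)
    (h0 : MvPolynomial.eval x F.g ≠ 0) (h : ∀ i, ∑ l, w l * pv x (gr (F.f i)) l = 0) :
    w ∈ tangS I x := fun φ hφ => by
  obtain ⟨a, ha⟩ := Ideal.mem_span_range_iff_exists_fun.1 (F.g_mul φ hφ)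
  have h1 := pg2_pair (fun i => MvPolynomial.eval x (a i)) (fun i => pv x (gr (F.f i))) w
  rw [← pg1_sum a F.f fun i => hx.2 _ (F.f_mem i), ha, pg1_mul _ (hx.2 φ hφ)] at h1
  simp only [h, mul_zero, sum_const_zero, Pi.smul_apply, smul_eq_mul, mul_left_comm (w _),
    ← mul_sum] at h1
  exact (mul_eq_zero.1 h1).resolve_left h0

theorem pg2_dual {x₀ : Fin M → ℂ} (F : PF I c x₀) (x : Fin M → ℂ) (w : Fin c → ℂ) (i : Fin c) :
    ∑ l, (∑ i', w i' • pv x (F.b i')) l * pv x (gr (F.f i)) l =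
      w i * MvPolynomial.eval x F.δ := by
  have h1 : ∀ i', ∑ l, pv x (gr (F.f i)) l * pv x (F.b i') l =
      if i = i' then MvPolynomial.eval x F.δ else 0 := fun i' => by
    have := congrArg (MvPolynomial.eval x) (F.Jb i i')
    rw [map_sum, apply_ite (MvPolynomial.eval x), map_zero] at this
    rw [← this]
    exact sum_congr rfl fun l _ => (map_mul (MvPolynomial.eval x) _ _).symm
  rw [lx1_comm, pg2_pair]
  simp [h1]

theorem exists_Nv (hX : IsManifold I c) {x : Fin M → ℂ} (hx : x ∈ cone I) {G : ℂ[X]} (hG : G ≠ 0)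
    (h : ∀ φ ∈ I, G ∣ lnA x y φ) : ∃ v, Nv I y x G v := by
  obtain ⟨F⟩ := hX.exists_PF hx
  choose q hq using fun i => h _ (F.f_mem i)
  refine ⟨∑ i, ((q i).eval 0 / MvPolynomial.eval x F.δ) • pv x (F.b i), fun φ hφ p hp => ?_⟩
  obtain ⟨a, ha⟩ := Ideal.mem_span_range_iff_exists_fun.1 (F.g_mul φ hφ)
  have h1 := pg2_pair (fun i => MvPolynomial.eval x (a i)) (fun i => pv x (gr (F.f i)))
    (∑ i, ((q i).eval 0 / MvPolynomial.eval x F.δ) • pv x (F.b i))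
  rw [← pg1_sum a F.f fun i => hx.2 _ (F.f_mem i), ha, pg1_mul _ (hx.2 φ hφ)] at h1
  simp only [pg2_dual, div_mul_cancel₀ _ F.δ_ne] at h1
  have h2 := congrArg (lnA x y) ha
  simp only [map_sum, map_mul, hq, hp, mul_left_comm _ G, ← mul_sum] at h2
  have h3 := congrArg (eval 0) (mul_left_cancel₀ hG h2)
  simp only [eval_finsetSum, eval_mul, lnA_zero] at h3
  refine mul_left_cancel₀ F.g_ne ?_
  rw [← h3, ← h1, mul_sum]
  exact sum_congr rfl fun l _ => by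
    rw [Pi.smul_apply, smul_eq_mul, mul_left_comm]
    rfl

/-- the normal field on the locus of the lines of highest secancy -/
theorem exists_field (hX : IsManifold I c) (hg : g ∈ I) (he : g.IsHomogeneous e)
    (hy : MvPolynomial.eval y g = 1) {W : Set (Fin M → ℂ)} (h1 : W ⊆ cone I)
    (h2 : ∀ x ∈ W, Sc I y x k) (h3 : ∀ x ∈ W, ¬Sc I y x (k + 1))
    (h4 : ∀ x ∈ W, (2 : ℂ) • x ∈ W) :
    ∃ v : (Fin M → ℂ) → Fin M → ℂ, (∀ x ∈ W, v x ∉ tangS I x) ∧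
      (∀ x ∈ W, ∀ φ ∈ I, lnA x y φ = 0 → ∑ l, v x l * pv x (gr φ) l = 0) ∧
      (∀ x ∈ W, (2 : ℂ) ^ k • v ((2 : ℂ) • x) - v x ∈ tangS I x) ∧
      ∀ x₀ ∈ W, ∃ (δ : SS M) (u : Fin M → SS M), MvPolynomial.eval x₀ δ ≠ 0 ∧
        ∀ x ∈ W, pv x u - MvPolynomial.eval x δ • v x ∈ tangS I x := by
  classical
  choose! t ht using h2
  choose! v hv using fun x (hx : x ∈ W) => exists_Nv hX (h1 hx) (Gm_monic (t x)).ne_zero (ht x hx)
  refine ⟨v, fun x hx h => h3 x hx ⟨Fin.cons 0 (t x), fun φ hφ => ?_⟩, fun x hx φ hφ h => ?_,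
    fun x hx => ?_, fun x₀ hx₀ => ?_⟩
  · obtain ⟨q, hq⟩ := ht x hx φ hφ
    rw [Gm_cons, hq]
    refine mul_dvd_mul_left _ (X_dvd_iff.2 ?_)
    rw [coeff_zero_eq_eval_zero, hv x hx φ hφ q hq]
    exact h φ hφ
  · exact (hv x hx φ hφ 0 (by rw [h, mul_zero])).symm.trans eval_zero
  · obtain ⟨Γ, -, g2, g3⟩ := pg2_rat hg he hy (h1 (h4 x hx)) ⟨_, ht _ (h4 x hx)⟩ (h3 _ (h4 x hx))
    have e1 : Gm ((2 : ℂ) • t x) = Gm (t ((2 : ℂ) • x)) := mul_left_cancel₀ (C_ne_zero.2 g2)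
      ((g3 _ _ (pg2_smul hX (ht x hx) two_ne_zero)).symm.trans (g3 _ _ (ht _ (h4 x hx))))
    refine basic0_ind hX (by simp) (fun a b ha hb => ?_) fun d φ hφ hd => ?_
    · simp only [map_add, mul_add, sum_add_distrib, ha, hb, add_zero]
    rcases d with _ | d
    · rw [MvPolynomial.totalDegree_eq_zero_iff_eq_C.1
        ((MvPolynomial.totalDegree_zero_iff_isHomogeneous _).2 hd)]
      simp
    obtain ⟨q, hq⟩ := ht x hx φ hφ
    have e2 := hv _ (h4 x hx) φ hφ _ (e1 ▸ pg2_hom hd hq two_ne_zero)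
    have e3 : ∀ l, MvPolynomial.eval ((2 : ℂ) • x) (MvPolynomial.pderiv l φ) =
        2 ^ d * MvPolynomial.eval x (MvPolynomial.pderiv l φ) := fun l =>
      eval_smul_hom (hd.pderiv (i := l)) 2 x
    simp only [eval_mul, eval_C, eval_comp, eval_X, mul_zero, hv x hx φ hφ q hq, e3,
      mul_left_comm _ ((2 : ℂ) ^ d), ← mul_sum] at e2
    simp only [Pi.sub_apply, Pi.smul_apply, smul_eq_mul, sub_mul, sum_sub_distrib, mul_assoc,
      ← mul_sum]
    field_simp at e2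
    refine mul_left_cancel₀ (pow_ne_zero (d + 1) (two_ne_zero (α := ℂ))) ?_
    linear_combination -e2
  · obtain ⟨Γ, g1, g2, g3⟩ := pg2_rat hg he hy (h1 hx₀) ⟨_, ht _ hx₀⟩ (h3 _ hx₀)
    obtain ⟨F⟩ := hX.exists_PF (h1 hx₀)
    choose N q r k1 k2 using fun i => pg_pdiv g1 (lnA MvPolynomial.X y (F.f i))
    obtain ⟨δ, hδ⟩ : ∃ δ, δ = Γ.coeff (k + 1) := ⟨_, rfl⟩
    rw [← hδ] at g2 g3 k1
    have key : ∀ x ∈ W, ∀ i, MvPolynomial.eval x (δ * (q i).coeff 0) =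
        MvPolynomial.eval x δ ^ N i * ∑ l, v x l * pv x (gr (F.f i)) l := fun x hx i => by
      obtain ⟨p, hp⟩ := ht x hx _ (F.f_mem i)
      have e1 := congrArg (Polynomial.map (MvPolynomial.eval x)) (k1 i)
      rw [Polynomial.map_mul, Polynomial.map_add, Polynomial.map_mul, map_C, lnA_evX, hp,
        g3 x _ (ht x hx), map_pow] at e1
      have e2 : (r i).map (MvPolynomial.eval x) = 0 := by
        refine eq_zero_of_dvd_of_degree_lt (p := Gm (t x))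
          ⟨C (MvPolynomial.eval x δ ^ N i) * p -
            C (MvPolynomial.eval x δ) * (q i).map (MvPolynomial.eval x), by
              linear_combination -e1⟩ ?_
        rw [degree_eq_natDegree (Gm_monic (t x)).ne_zero, Gm_natDegree]
        exact (degree_lt_iff_coeff_zero _ _).2 fun m hm => by rw [coeff_map, k2 i m hm, map_zero]
      have e3 : C (MvPolynomial.eval x δ) * (q i).map (MvPolynomial.eval x) =
          C (MvPolynomial.eval x δ ^ N i) * p :=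
        mul_left_cancel₀ (Gm_monic (t x)).ne_zero (by linear_combination -e1 - e2)
      have e4 := congrArg (coeff · 0) e3
      simp only [coeff_C_mul, coeff_map] at e4
      rw [map_mul, e4, coeff_zero_eq_eval_zero, hv x hx _ (F.f_mem i) p hp]
      rfl
    refine ⟨F.g * (F.δ * δ ^ ∑ i, N i),
      fun l => F.g * ∑ i, δ ^ (∑ i' ∈ univ.erase i, N i') * (δ * (q i).coeff 0) * F.b i l, ?_,
      fun x hx => ?_⟩
    · rw [map_mul, map_mul, map_pow]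
      exact mul_ne_zero F.g_ne (mul_ne_zero F.δ_ne (pow_ne_zero _ g2))
    have e1 : pv x (fun l => F.g * ∑ i, δ ^ (∑ i' ∈ univ.erase i, N i') * (δ * (q i).coeff 0) *
        F.b i l) = MvPolynomial.eval x F.g • ∑ i, MvPolynomial.eval x
          (δ ^ (∑ i' ∈ univ.erase i, N i') * (δ * (q i).coeff 0)) • pv x (F.b i) := by
      funext l
      simp only [pv, map_mul, map_sum, Pi.smul_apply, Finset.sum_apply, smul_eq_mul]
    rw [e1, map_mul, mul_smul, ← smul_sub]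
    by_cases h0 : MvPolynomial.eval x F.g = 0
    · rw [h0, zero_smul]
      exact Submodule.zero_mem _
    refine Submodule.smul_mem _ _ (pg2_tan F (h1 hx) h0 fun i => ?_)
    simp only [Pi.sub_apply, sub_mul, sum_sub_distrib]
    rw [pg2_dual, map_mul, key x hx, map_mul, map_pow, map_pow, ← add_sum_erase _ _ (mem_univ i),
      pow_add]
    simp only [Pi.smul_apply, smul_eq_mul, mul_assoc, ← mul_sum]
    ring

end Pool.Agent.HCF
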