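import Pool.Agent.P.MP_f644fa_ag.PG2
import Pool.Agent.P.MP_f644fa_ag.LK2

/-! The loci of multisecant lines are large closed cones. -/

noncomputable section
namespace Pool.Agent.HCF
open Finset Module Polynomial

variable {M : ℕ} {I : Ideal (SS M)} {c j : ℕ}

/-- the points where the gradient of `g` depends on those of the `f i` -/
def Zg (I : Ideal (SS M)) (f : Fin j → SS M) (g : SS M) : Set (Fin M → ℂ) :=
  {x | x ∈ cone I ∧ pv x (gr g) ∈ Sp f x}

/-- those that lie on a multisecant line through `y` on which the `f i` vanish -/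
def Wk (I : Ideal (SS M)) (y : Fin M → ℂ) (f : Fin j → SS M) (g : SS M) (k : ℕ) :
    Set (Fin M → ℂ) :=
  {x | x ∈ Zg I f g ∧ (∀ i, lnA x y (f i) = 0) ∧ Sc I y x k}

variable {y : Fin M → ℂ} {g : SS M} {m k : ℕ} {b : Fin j → ℕ} {f : Fin j → SS M}

theorem pg3_card (hj : j ≤ c) : Fintype.card {i : Fin c // j ≤ i.1} = c - j := by
  rw [Fintype.card_subtype]
  rcases hj.eq_or_lt with rfl | h
  · rw [filter_false_of_mem fun i _ => not_le.2 i.2, card_empty, Nat.sub_self]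
  · have e : (univ.filter fun i : Fin c => j ≤ i.1) = Ici ⟨j, h⟩ := by
      ext i
      simp [Fin.le_def]
    rw [e, Fin.card_Ici]

theorem pg3_ev {τ : Type} (ξ : Fin M → MvPolynomial τ ℂ) (y : Fin M → ℂ) (w : τ → ℂ) (φ : SS M)
    (s : MvPolynomial τ ℂ) : MvPolynomial.eval w ((lnA ξ y φ).eval s) =
      MvPolynomial.eval ((fun l => MvPolynomial.eval w (ξ l)) + MvPolynomial.eval w s • y) φ := by
  rw [← lnA_eval, ← lnA_ev, eval_map, eval₂_hom]

theorem pg3_ln (hf : Gen I b f) (h0 : ∀ i, MvPolynomial.eval y (f i) = 0) {τ : Type}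
    (ξ : Fin M → MvPolynomial τ ℂ) (w : τ → ℂ) :
    (∀ p : Σ i : Fin j, Fin (b i + 1),
      MvPolynomial.eval w ((lnA ξ y (f p.1)).coeff p.2) = 0) ↔
    ∀ i, lnA (fun l => MvPolynomial.eval w (ξ l)) y (f i) = 0 := by
  refine ⟨fun h i => Polynomial.ext fun a => ?_, fun h p => ?_⟩
  · obtain ⟨h1, h2⟩ := lnA_deg (fun l => MvPolynomial.eval w (ξ l)) y (hf.hom i)
    rcases lt_trichotomy a (b i + 1) with ha | rfl | ha
    · rw [← lnA_ev, coeff_map]
      exact h ⟨i, a, ha⟩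
    · rw [h2, h0, map_zero, coeff_zero]
    · exact coeff_eq_zero_of_natDegree_lt (h1.trans_lt ha)
  · rw [← coeff_map, lnA_ev, h, coeff_zero]

theorem pg3_ln_smul (hf : Gen I b f) {x : Fin M → ℂ} (h : ∀ i, lnA x y (f i) = 0) {u : ℂ}
    (hu : u ≠ 0) (i : Fin j) : lnA (u • x) y (f i) = 0 := by
  rw [lnA_smul x y (hf.hom i) hu, h, zero_comp, mul_zero]

theorem Gen.ccone_Zg (hX : IsManifold I c) (hf : Gen I b f) (hg : g ∈ I)
    (he : g.IsHomogeneous (m + 1)) : CCone (Zg I f g) := by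
  refine hX.ccone.sub (fun _ h => h.1) (fun x hx t ht => ⟨hX.smul_mem hx.1 ht, ?_⟩)
    fun x hx hn => ?_
  · have e : pv (t • x) (gr g) = t ^ m • pv x (gr g) :=
      funext fun l => eval_smul_hom (he.pderiv (i := l)) t x
    rw [hf.sp_smul x ht, e]
    exact Submodule.smul_mem _ _ hx.2
  · obtain ⟨q, δ, h1, h2, h3⟩ := hf.ztest hX (hf.le hX) hg hx
    obtain ⟨i, hi⟩ := not_forall.1 fun h => hn ⟨hx, h3 x hx h1 h⟩
    exact ⟨q i, hi, fun z hz => h2 z hz.2 i⟩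

theorem Gen.locCut_Zg (hX : IsManifold I c) (hf : Gen I b f) (hg : g ∈ I) {x : Fin M → ℂ}
    (hx : x ∈ Zg I f g) : LocCut (Zg I f g) x (c + (c - j)) := by
  obtain ⟨q, δ, h1, h2, h3⟩ := hf.ztest hX (hf.le hX) hg hx.1
  exact (hX.locCut hx.1).add (pg3_card (hf.le hX)).le q δ h1 (h2 x hx.2)
    fun z hz h4 h5 => ⟨hz, h3 z hz h4 h5⟩

theorem Gen.wk_zero (hX : IsManifold I c) (hf : Gen I b f) (hg : g ∈ I)
    (he : g.IsHomogeneous (m + 1)) (hy : MvPolynomial.eval y g = 1)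
    (h0 : ∀ i, MvPolynomial.eval y (f i) = 0) (hM : c + (c - j) + ∑ i, (b i + 1) < M)
    (hZ : (Zg I f g).Nonempty) : (Wk I y f g 0).Nonempty := by
  obtain ⟨z, hz⟩ := hZ
  have hy0 : y ≠ 0 := fun h => by
    have h1 := eval_smul_hom he 0 y
    rw [zero_smul, ← h, hy] at h1
    simp at h1
  have e : ∀ x : Fin M → ℂ, (fun l => MvPolynomial.eval x (MvPolynomial.X l : SS M)) = x :=
    fun x => funext fun l => MvPolynomial.eval_X l
  have hC : CCone {x : Fin M → ℂ | x ≠ 0 ∧ ∀ i, lnA x y (f i) = 0} :=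
    ⟨fun _ h => h.1, fun x hx t ht => ⟨smul_ne_zero ht hx.1, pg3_ln_smul hf hx.2 ht⟩,
      fun x hx h => ⟨hx, e x ▸ (pg3_ln hf h0 MvPolynomial.X x).1 fun p => h _ fun w hw =>
        (pg3_ln hf h0 MvPolynomial.X w).2 (by rw [e]; exact hw.2) p⟩⟩
  obtain ⟨l, hl⟩ := Function.ne_iff.1 hy0
  have hc : LocCut {x : Fin M → ℂ | x ≠ 0 ∧ ∀ i, lnA x y (f i) = 0} y (∑ i, (b i + 1)) := by
    refine LocCut.of_card (ι := Σ i : Fin j, Fin (b i + 1)) (by simp)
      (fun p => (lnA MvPolynomial.X y (f p.1)).coeff p.2) (MvPolynomial.X l) (by simpa using hl)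
      ((pg3_ln hf h0 MvPolynomial.X y).2 fun i => Polynomial.funext fun s => ?_)
      fun x h1 h2 => ⟨fun h => h1 (by simp [h]), e x ▸ (pg3_ln hf h0 MvPolynomial.X x).1 h2⟩
    have e1 : y + s • y = (1 + s) • y := by rw [add_smul, one_smul]
    rw [e, lnA_eval, e1, eval_smul_hom (hf.hom i), h0, mul_zero, eval_zero]
  obtain ⟨x, h1, h2⟩ := (hf.ccone_Zg hX hg he).meet hC (hf.locCut_Zg hX hg hz) hc (by simpa using hM)
  refine ⟨x, h1, h2.2, fun a => a.elim0, fun φ hφ => ?_⟩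
  rw [Gm, Fintype.prod_empty, mul_one, X_dvd_iff, coeff_zero_eq_eval_zero, lnA_zero]
  exact h1.1.2 φ hφ

theorem Gen.ccone_Wk (hX : IsManifold I c) (hf : Gen I b f) (hg : g ∈ I)
    (he : g.IsHomogeneous (m + 1)) (hy : MvPolynomial.eval y g = 1) : CCone (Wk I y f g k) := by
  have hZ := hf.ccone_Zg hX hg he
  refine hZ.sub (fun _ h => h.1) (fun x hx t ht => ?_) fun x hx hn => ?_
  · obtain ⟨h1, h2, s, h3⟩ := hx
    exact ⟨hZ.smul x h1 t ht, pg3_ln_smul hf h2 ht, _, pg2_smul hX h3 ht⟩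
  · by_cases h : ∀ i, lnA x y (f i) = 0
    · obtain ⟨δ, h1, h2⟩ := pg2_closed hg he hy hx.1 (k := k) fun h' => hn ⟨hx, h, h'⟩
      exact ⟨δ, h1, fun z hz => h2 z hz.2.2⟩
    · obtain ⟨i, hi⟩ := not_forall.1 h
      refine ⟨(lnA MvPolynomial.X y (f i)).coeff (lnA x y (f i)).natDegree, ?_, fun z hz => ?_⟩
      · rw [← coeff_map, lnA_evX]
        exact leadingCoeff_ne_zero.2 hi
      · rw [← coeff_map, lnA_evX, hz.2.1, coeff_zero]

theorem Gen.wk_top (hX : IsManifold I c) (hf : Gen I b f) (hg : g ∈ I)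
    (he : g.IsHomogeneous (m + 1)) (hy : MvPolynomial.eval y g = 1) :
    ¬(Wk I y f g m).Nonempty := by
  rintro ⟨x, h1, h2, t, ht⟩
  obtain ⟨v, hv⟩ := exists_Nv hX h1.1 (Gm_monic t).ne_zero ht
  obtain ⟨g1, g2⟩ := lnA_deg x y he
  have e := pg2_eq (Gm_monic t) (Gm_natDegree t) (ht g hg) g1
  rw [g2, hy, map_one, map_one, mul_comm] at e
  have h3 : (1 : ℂ[X]).eval 0 = ∑ l, v l * pv x (gr g) l := hv g hg 1 e
  obtain ⟨w, hw⟩ := (Submodule.mem_span_range_iff_exists_fun ℂ).1 h1.2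
  have h4 : ∀ i, ∑ l, v l * pv x (gr (f i)) l = 0 := fun i =>
    (hv _ (hf.mem i) 0 (by rw [h2, mul_zero])).symm.trans eval_zero
  rw [← hw, pg2_pair] at h3
  simp [h4] at h3

theorem Gen.wk_large (hX : IsManifold I c) (hf : Gen I b f) (hg : g ∈ I)
    (he : g.IsHomogeneous (m + 1)) (hy : MvPolynomial.eval y g = 1)
    (h0 : ∀ i, MvPolynomial.eval y (f i) = 0) (hne : (Wk I y f g k).Nonempty) {ι : Type}
    [Fintype ι] (L : ι → Fin M → ℂ) (hL : ∀ x ∈ Wk I y f g k, ∃ i, ∑ l, L i l * x l ≠ 0) :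
    M + k ≤ ∑ i, (b i + 1) + (c - j) * (k + 1) + (c - j) + Fintype.card ι := by
  classical
  obtain ⟨x₀, h1, h2, t₀, h3⟩ := hne
  have hj := hf.le hX
  have hW := hf.ccone_Wk hX hg he hy (k := k)
  have hroot : ∀ {x : Fin M → ℂ} {t : Fin k → ℂ} {φ : SS M}, Gm t ∣ lnA x y φ → ∀ a,
      MvPolynomial.eval (x + t a • y) φ = 0 := fun {x t φ} ⟨q, hq⟩ a => by
    rw [← lnA_eval, hq, Gm, eval_mul, eval_mul, eval_prod,
      prod_eq_zero (mem_univ a) (by simp), mul_zero, zero_mul]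
  have hgy : ∀ s : ℂ, MvPolynomial.eval (s • y) g = 0 → s = 0 := fun s h => by
    rw [eval_smul_hom he, hy, mul_one] at h
    exact pow_eq_zero_iff (Nat.succ_ne_zero m) |>.1 h
  let ξ : Fin M → MvPolynomial (Fin M ⊕ Fin k) ℂ := fun l => MvPolynomial.X (Sum.inl l)
  let θ : Fin k → MvPolynomial (Fin M ⊕ Fin k) ℂ := fun a => MvPolynomial.X (Sum.inr a)
  have eξ : ∀ w : Fin M ⊕ Fin k → ℂ, (fun l => MvPolynomial.eval w (ξ l)) = w ∘ Sum.inl :=
    fun w => funext fun l => MvPolynomial.eval_X _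
  have eθ : ∀ (w : Fin M ⊕ Fin k → ℂ) a, MvPolynomial.eval w (θ a) = w (Sum.inr a) :=
    fun w a => MvPolynomial.eval_X _
  have ev : ∀ (w : Fin M ⊕ Fin k → ℂ) φ a, MvPolynomial.eval w ((lnA ξ y φ).eval (θ a)) =
      MvPolynomial.eval (w ∘ Sum.inl + w (Sum.inr a) • y) φ := fun w φ a => by
    rw [pg3_ev, eξ, eθ]
  have ev0 : ∀ (w : Fin M ⊕ Fin k → ℂ) φ, MvPolynomial.eval w ((lnA ξ y φ).eval 0) =
      MvPolynomial.eval (w ∘ Sum.inl) φ := fun w φ => by
    rw [pg3_ev, eξ, map_zero, zero_smul, add_zero]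
  set V : Set (Fin M ⊕ Fin k → ℂ) := {w | w ≠ 0 ∧ (w ∘ Sum.inl = 0 ∨ w ∘ Sum.inl ∈ Wk I y f g k) ∧
    ∀ a, MvPolynomial.eval (w ∘ Sum.inl + w (Sum.inr a) • y) g = 0} with hV
  have hC : CCone V := by
    refine ⟨fun _ h => h.1, fun w hw u hu => ⟨smul_ne_zero hu hw.1, lk2_smul hW _ w hw.2.1 u hu,
      fun a => ?_⟩, fun w hw h => ⟨hw, lk2_cl hW V _ (fun w hw => hw.2.1) w h, fun a => ?_⟩⟩
    · have e : (u • w) ∘ Sum.inl + (u • w) (Sum.inr a) • y =
          u • (w ∘ Sum.inl + w (Sum.inr a) • y) := by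
        rw [smul_add, smul_smul]
        rfl
      rw [e, eval_smul_hom he, hw.2.2, mul_zero]
    · rw [← ev]
      exact h _ fun z hz => (ev z g a).trans (hz.2.2 a)
  have hP : ∀ a, x₀ + t₀ a • y ∈ cone I := fun a => by
    refine ⟨fun h => ?_, fun φ hφ => hroot (h3 φ hφ) a⟩
    have e : x₀ = (-t₀ a) • y := by rw [neg_smul, eq_neg_iff_add_eq_zero, h]
    have e1 := hgy _ (e ▸ h1.1.2 g hg)
    exact h1.1.1 (by rw [e, e1, zero_smul])
  obtain ⟨H, δ, k1, k2, k3, k4⟩ := hf.multi hX hj (insert x₀ (univ.image fun a => x₀ + t₀ a • y))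
    fun p hp => by
      rcases mem_insert.1 hp with rfl | hp
      · exact h1.1
      · obtain ⟨a, -, rfl⟩ := mem_image.1 hp
        exact hP a
  obtain ⟨q, δ', d1, d2, d3⟩ := hf.ztest hX hj hg h1.1
  obtain ⟨l₀, hl₀⟩ := Function.ne_iff.1 h1.1.1
  have hrem : ∀ (w : Fin M ⊕ Fin k → ℂ) φ, (lnA ξ y φ %ₘ Gm θ).map (MvPolynomial.eval w) =
      lnA (w ∘ Sum.inl) y φ %ₘ Gm (w ∘ Sum.inr) := fun w φ => by
    rw [map_modByMonic _ (Gm_monic θ), lnA_ev, Gm_map, eξ]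
    simp only [eθ]
    rfl
  have hcut : LocCut V (Sum.elim x₀ t₀) (∑ i, (b i + 1) + (c - j) * (k + 1) + (c - j)) := by
    refine LocCut.of_card (ι := ((Σ i : Fin j, Fin (b i + 1)) ⊕
        {i : Fin c // j ≤ i.1} × Fin (k + 1)) ⊕ {i : Fin c // j ≤ i.1}) (by simp [pg3_card hj])
      (Sum.elim (Sum.elim (fun p => (lnA ξ y (f p.1)).coeff p.2)
        fun p => (lnA ξ y (H p.1.1) %ₘ Gm θ).coeff p.2) fun i => (lnA ξ y (q i)).eval 0)
      ((lnA ξ y (MvPolynomial.X l₀ * δ' * δ)).eval 0 * ∏ a, (lnA ξ y δ).eval (θ a)) ?_ ?_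
      fun w hδ hw => ?_
    · rw [map_mul, map_prod, ev0, map_mul, map_mul, MvPolynomial.eval_X]
      refine mul_ne_zero (mul_ne_zero (mul_ne_zero hl₀ d1) (k3 _ (mem_insert_self _ _)))
        (prod_ne_zero_iff.2 fun a _ => ?_)
      rw [ev]
      exact k3 _ (mem_insert_of_mem (mem_image_of_mem _ (mem_univ a)))
    · rintro ((p | p) | i)
      · exact (pg3_ln hf h0 ξ _).2 (by rw [eξ]; exact h2) p
      · rw [Sum.elim_inl, Sum.elim_inr, ← coeff_map, hrem, Sum.elim_comp_inl, Sum.elim_comp_inr,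
          (modByMonic_eq_zero_iff_dvd (Gm_monic _)).2 (h3 _ (k2 _)), coeff_zero]
      · exact (ev0 _ _).trans (d2 x₀ h1.2 i)
    · rw [map_mul, map_prod, ev0, map_mul, map_mul, MvPolynomial.eval_X] at hδ
      have a1 := left_ne_zero_of_mul hδ
      have a2 := prod_ne_zero_iff.1 (right_ne_zero_of_mul hδ)
      have a3 := (pg3_ln hf h0 ξ w).1 fun p => hw (Sum.inl (Sum.inl p))
      rw [eξ] at a3
      have a4 : ∀ i, Gm (w ∘ Sum.inr) ∣ lnA (w ∘ Sum.inl) y (H i) := fun i => by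
        by_cases hi : i.1 < j
        · have e : H i = f ⟨i, hi⟩ := k1 ⟨i, hi⟩
          rw [e, a3]
          exact dvd_zero _
        · refine (modByMonic_eq_zero_iff_dvd (Gm_monic _)).1 (Polynomial.ext fun a => ?_)
          by_cases ha : a < k + 1
          · rw [← hrem, coeff_map]
            exact hw (Sum.inl (Sum.inr (⟨i, not_lt.1 hi⟩, ⟨a, ha⟩)))
          · refine coeff_eq_zero_of_degree_lt ((degree_modByMonic_lt _ (Gm_monic _)).trans_le ?_)
            rw [degree_eq_natDegree (Gm_monic _).ne_zero, Gm_natDegree]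
            exact_mod_cast not_lt.1 ha
      have a5 : ∀ φ ∈ I, Gm (w ∘ Sum.inr) ∣ lnA (w ∘ Sum.inl) y φ := fun φ hφ => by
        refine (Gm_coprime (p := lnA (w ∘ Sum.inl) y δ) _ ?_ fun a => ?_).dvd_of_dvd_mul_left ?_
        · rw [lnA_zero]
          exact right_ne_zero_of_mul a1
        · rw [lnA_eval]
          exact fun h => a2 a (mem_univ a) ((ev w δ a).trans h)
        · obtain ⟨a, ha⟩ := Ideal.mem_span_range_iff_exists_fun.1 (k4 φ hφ)
          rw [← map_mul, ← ha, map_sum]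
          exact dvd_sum fun i _ => by
            rw [map_mul]
            exact (a4 i).mul_left _
      have a6 : w ∘ Sum.inl ≠ 0 := fun h =>
        left_ne_zero_of_mul (left_ne_zero_of_mul a1) (congrFun h l₀)
      have a7 : w ∘ Sum.inl ∈ cone I := ⟨a6, fun φ hφ => by
        obtain ⟨p, hp⟩ := a5 φ hφ
        rw [← lnA_zero _ y, hp, Gm]
        simp⟩
      refine ⟨fun h => a6 (by rw [h]; rfl), Or.inr ⟨⟨a7, d3 _ a7
        (right_ne_zero_of_mul (left_ne_zero_of_mul a1)) fun i => ?_⟩, a3, _, a5⟩,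
        hroot (a5 g hg)⟩
      exact (ev0 w _).symm.trans (hw (Sum.inr i))
  have := hC.card_le hcut (fun i => Sum.elim (L i) 0) fun w hw => by
    rcases hw.2.1 with h | h
    · refine absurd (_root_.funext fun p => ?_) hw.1
      rcases p with l | a
      · exact congrFun h l
      · exact hgy _ (by simpa [h] using hw.2.2 a)
    · obtain ⟨i, hi⟩ := hL _ h
      exact ⟨i, by simpa [Fintype.sum_sum_type] using hi⟩
  simpa using this

end Pool.Agent.HCF
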