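import Pool.Agent.P.MP_f644fa_ag.LFil

/-! A quotient line bundle together with a flag of line subbundles. -/

noncomputable section
namespace Pool.Agent.HCF
open Finset Module PowerSeries

variable {M n : ℕ} {X R RR : Type} [CommRing R] [Algebra ℂ R] [CommRing RR] [Algebra ℂ RR]
  {S : NS0 M n X R RR} {σ : Type} [LinearOrder σ] [Fintype σ]

omit [LinearOrder σ] in
theorem pg4_dbl (B : Sub S σ) (hw : ∀ j, B.w j = 0) (q : X) : B.T q ≤ B.T (S.dbl q) :=
  fun v hv => by simpa [hw] using B.T_dbl q v hv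

omit [LinearOrder σ] in
theorem Sub.exists_quot (B : Sub S σ) (hw : ∀ j, B.w j = 0) {τ : ℕ}
    (hτ : ∀ p, finrank ℂ (B.T p) = τ) (v : X → σ → ℂ) (a : ℕ) (v1 : ∀ q, v q ∉ B.T q)
    (v2 : ∀ q, (2 : ℂ) ^ a • v (S.dbl q) - v q ∈ B.T (S.dbl q))
    (v3 : ∀ p, ∃ (g : R) (u : σ → R), S.ev p g ≠ 0 ∧ ∀ q, S.val q u - S.ev q g • v q ∈ B.T q) :
    ∃ B' : Sub S σ, (∀ j, B'.w j = 0) ∧ (∀ q, B'.T q = B.T q ⊔ ℂ ∙ v q) ∧
      ∀ q, finrank ℂ (B'.T q) = τ + 1 := by
  have hr : ∀ q, finrank ℂ ↥(B.T q ⊔ ℂ ∙ v q) = τ + 1 := fun q => by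
    rw [Submodule.finrank_sup_span_singleton (v1 q), hτ]
  have hv : ∀ q, v q ∈ B.T q ⊔ ℂ ∙ v q := fun q =>
    Submodule.mem_sup_right (Submodule.mem_span_singleton_self _)
  refine ⟨⟨fun _ => 0, fun q => B.T q ⊔ ℂ ∙ v q, fun q x hx => ?_, ?_⟩, fun _ => rfl,
    fun _ => rfl, hr⟩
  · have h1 : B.T q ⊔ ℂ ∙ v q ≤ B.T (S.dbl q) ⊔ ℂ ∙ v (S.dbl q) := by
      refine sup_le ((pg4_dbl B hw q).trans le_sup_left) ((Submodule.span_singleton_le_iff_mem _ _).2 ?_)
      have h2 := Submodule.sub_mem _ (Submodule.smul_mem _ ((2 : ℂ) ^ a) (hv (S.dbl q)))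
        (Submodule.mem_sup_left (v2 q))
      rwa [sub_sub_cancel] at h2
    simpa using h1 hx
  · refine S.loc_of_gen _ hr fun p => ?_
    obtain ⟨δ, t, g1, g2, g3⟩ := B.loc p
    have h1 : B.T p ≤ Submodule.span ℂ {x | ∃ u : σ → R,
        (∀ q, S.val q u ∈ B.T q ⊔ ℂ ∙ v q) ∧ x = S.val p u} := fun x hx => by
      have e : S.ev p δ • x = ∑ l, x l • S.val p fun j => t j l := by
        funext j
        rw [Pi.smul_apply, smul_eq_mul, ← g3 p x hx j, Finset.sum_apply]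
        exact sum_congr rfl fun l _ => mul_comm _ _
      rw [← Submodule.smul_mem_iff _ g1, e]
      exact Submodule.sum_mem _ fun l _ => Submodule.smul_mem _ _ (Submodule.subset_span
        ⟨_, fun q => Submodule.mem_sup_left (g2 q l), rfl⟩)
    refine sup_le h1 ((Submodule.span_singleton_le_iff_mem _ _).2 ?_)
    obtain ⟨g, u, k1, k2⟩ := v3 p
    have h4 : S.val p u ∈ Submodule.span ℂ {x | ∃ u : σ → R,
        (∀ q, S.val q u ∈ B.T q ⊔ ℂ ∙ v q) ∧ x = S.val p u} := Submodule.subset_span ⟨u, fun q => by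
      have h3 := Submodule.add_mem _ (Submodule.mem_sup_left (k2 q))
        (Submodule.smul_mem _ (S.ev q g) (hv q))
      rwa [sub_add_cancel] at h3, rfl⟩
    have h2 := Submodule.sub_mem _ h4 (h1 (k2 p))
    rwa [sub_sub_cancel, Submodule.smul_mem_iff _ k1] at h2

theorem pg4_shift (B : Sub S σ) (hw : ∀ j, B.w j = 0) (a k : ℕ) :
    S.hs (fun _ => a) (B.lamG ⊓ degS σ R k) = PowerSeries.X ^ a * B.lam.chi (piM σ k) := by
  have hE : ∀ m : ℤ, (B.lamG ⊓ degS σ R k).restrictScalars ℂ ⊓ Eg (S.sc fun _ => a) m =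
      (B.lamG ⊓ degS σ R k).restrictScalars ℂ ⊓ Eg (S.sc B.wt) (m - a) := fun m => by
    ext ω
    rw [Submodule.mem_inf, Submodule.mem_inf, dat_mem_Eg, dat_mem_Eg]
    simp only [lfil_wt hw, Nat.cast_zero, sub_zero]
  ext m
  rw [Sub.chi_piM, coeff_X_pow_mul', lsub1_coeff, hE]
  split_ifs with hk
  · rw [lsub1_coeff, Nat.cast_sub hk]
  · rw [(lsub1_grd B k).neg (by omega), trOn_bot]

theorem pg4_anti (a b : σ → ℂ) (y : Finset σ → ℂ) :
    iov ℂ a (iov ℂ b y) + iov ℂ b (iov ℂ a y) = 0 :=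
  LinearMap.congr_fun (iov_iov (N := ℂ) a b) y

theorem pg4_mem {B B' : Sub S σ} {v : X → σ → ℂ} (hT : ∀ q, B'.T q = B.T q ⊔ ℂ ∙ v q)
    {ω : Finset σ → R} : ω ∈ B'.lamG ↔ ω ∈ B.lamG ∧ ∀ q, iov ℂ (v q) (S.val q ω) = 0 := by
  refine ⟨fun h => ⟨fun q x hx => h q x ?_, fun q => h q _ ?_⟩, fun h q x hx => ?_⟩
  · rw [hT]
    exact Submodule.mem_sup_left hx
  · rw [hT]
    exact Submodule.mem_sup_right (Submodule.mem_span_singleton_self _)
  · rw [hT] at hx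
    obtain ⟨x, hx', z, hz, rfl⟩ := Submodule.mem_sup.1 hx
    obtain ⟨s, rfl⟩ := Submodule.mem_span_singleton.1 hz
    rw [iov_add, iov_smul, LinearMap.add_apply, LinearMap.smul_apply, h.1 q x hx', h.2, smul_zero,
      add_zero]

theorem Sub.quot {B B' : Sub S σ} (hw : ∀ j, B.w j = 0) (hw' : ∀ j, B'.w j = 0) {v : X → σ → ℂ}
    (hT : ∀ q, B'.T q = B.T q ⊔ ℂ ∙ v q) (a : ℕ) (v1 : ∀ q, v q ∉ B.T q)
    (v2 : ∀ q, (2 : ℂ) ^ a • v (S.dbl q) - v q ∈ B.T (S.dbl q))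
    (v3 : ∀ p, ∃ (g : R) (u : σ → R), S.ev p g ≠ 0 ∧ ∀ q, S.val q u - S.ev q g • v q ∈ B.T q)
    (k : ℕ) : PEq (B.lam.chi (piM σ (k + 1)))
      (B'.lam.chi (piM σ (k + 1)) + PowerSeries.X ^ a * B'.lam.chi (piM σ k)) := by
  have e : B'.wt = B.wt := funext fun J => by rw [lfil_wt hw, lfil_wt hw']
  have hs := S.ses B.wt (fun _ => a) 0 (B.lamG ⊓ degS σ R (k + 1)) (B'.lamG ⊓ degS σ R (k + 1))
    (B'.lamG ⊓ degS σ R k) (fun q => iov ℂ (v q))
    (fun ω h => ⟨B.lamG_inv ω h.1, fun J hJ => by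
      rw [dat_sc_apply, h.2 J hJ, map_zero, smul_zero]⟩)
    (fun ω h => ⟨fun q x hx => by
        have e1 : S.val q (S.sc (fun _ => a) ω) = (2 : ℂ) ^ a • S.val (S.dbl q) ω :=
          funext fun J => S.val_sc _ ω q J
        rw [e1, map_smul, h.1 _ x (pg4_dbl B' hw' q hx), smul_zero],
      fun J hJ => by rw [dat_sc_apply, h.2 J hJ, map_zero, smul_zero]⟩)
    (fun ω => ⟨fun h => ⟨⟨((pg4_mem hT).1 h.1).1, h.2⟩, ((pg4_mem hT).1 h.1).2⟩,
      fun h => ⟨(pg4_mem hT).2 ⟨h.1.1, h.2⟩, h.1.2⟩⟩)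
    (fun ω h q J => by
      have h1 := h.1 _ _ (v2 q)
      rw [pow_zero, one_mul, lfil_val_sc hw, ← smul_eq_mul, ← Pi.smul_apply,
        ← LinearMap.smul_apply, ← iov_smul, ← sub_add_cancel ((2 : ℂ) ^ a • v (S.dbl q)) (v q),
        iov_add, LinearMap.add_apply, h1, zero_add])
    (fun p => by
      obtain ⟨g, u, k1, k2⟩ := v3 p
      refine ⟨g, k1, fun ω h => ?_⟩
      have key : ∀ q, S.val q (iov R u ω) = S.ev q g • iov ℂ (v q) (S.val q ω) := fun q => by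
        rw [S.val_iov, ← sub_add_cancel (S.val q u) (S.ev q g • v q), iov_add,
          LinearMap.add_apply, h.1 q _ (k2 q), zero_add, iov_smul, LinearMap.smul_apply]
      refine ⟨iov R u ω, ⟨(pg4_mem hT).2 ⟨fun q x hx => ?_, fun q => ?_⟩, Deg.iov h.2 u⟩, key⟩
      · have h1 := pg4_anti x (v q) (S.val q ω)
        rw [h.1 q x hx, map_zero, add_zero] at h1
        rw [key, map_smul, h1, smul_zero]
      · have h1 : iov ℂ (v q) (iov ℂ (v q) (S.val q ω)) = 0 :=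
          LinearMap.congr_fun (iov_sq (N := ℂ) (v q)) _
        rw [key, map_smul, h1, smul_zero])
    (fun p => by
      classical
      obtain ⟨g, u, k1, k2⟩ := v3 p
      obtain ⟨δ, t, g1, g2, g3⟩ := B.loc p
      let η : σ → σ → R := fun j l => (if l = j then δ else 0) - t j l
      have hη : ∀ j q (x : σ → ℂ), ∑ l, x l * S.val q (η j) l =
          S.ev q δ * x j - ∑ l, S.ev q (t j l) * x l := fun j q x => by
        simp only [η, NS0.val_apply, map_sub, apply_ite (S.ev q), map_zero, sub_mul,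
          sum_sub_distrib, ite_mul, zero_mul, sum_ite_eq', mem_univ, if_true, mul_comm (x _)]
      have hη0 : ∀ j q, ∀ x ∈ B.T q, ∑ l, x l * S.val q (η j) l = 0 := fun j q x hx => by
        rw [hη, g3 q x hx, sub_self]
      obtain ⟨j, hj⟩ : ∃ j, ∑ l, v p l * S.val p (η j) l ≠ 0 := by
        by_contra hn
        push Not at hn
        have e1 : S.ev p δ • v p = ∑ l, v p l • fun j => S.ev p (t j l) := by
          funext j
          have h1 := hn j
          rw [hη, sub_eq_zero] at h1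
          rw [Pi.smul_apply, smul_eq_mul, h1, Finset.sum_apply]
          exact sum_congr rfl fun l _ => mul_comm _ _
        refine v1 p ((Submodule.smul_mem_iff _ g1).1 ?_)
        rw [e1]
        exact Submodule.sum_mem _ fun l _ => Submodule.smul_mem _ _ (g2 p l)
      have hG : ∀ q, S.ev q (∑ l, u l * η j l) = S.ev q g * ∑ l, v q l * S.val q (η j) l :=
        fun q => by
          have h1 := hη0 j q _ (k2 q)
          simp only [Pi.sub_apply, Pi.smul_apply, smul_eq_mul, sub_mul, sum_sub_distrib,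
            mul_assoc, ← mul_sum, sub_eq_zero] at h1
          rw [← h1, map_sum]
          exact sum_congr rfl fun l _ => map_mul (S.ev q) _ _
      refine ⟨∑ l, u l * η j l, by rw [hG]; exact mul_ne_zero k1 hj, fun γ h => ?_⟩
      have key : ∀ q (x : σ → ℂ), iov ℂ x (S.val q γ) = 0 →
          iov ℂ x (S.val q (g • epv R (η j) γ)) =
            (S.ev q g * ∑ l, x l * S.val q (η j) l) • S.val q γ := fun q x hx => by
        have h1 := lfil_iov x (S.val q (η j)) (S.val q γ)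
        rw [hx, map_zero, add_zero] at h1
        rw [lfil_val_smul, map_smul, S.val_epv, h1, smul_smul]
      refine ⟨g • epv R (η j) γ, ⟨fun q x hx => ?_, Submodule.smul_mem _ _ (Deg.epv h.2 _)⟩,
        fun q => ?_⟩
      · rw [key q x (((pg4_mem hT).1 h.1).1 q x hx), hη0 j q x hx, mul_zero, zero_smul]
      · rw [key q _ (((pg4_mem hT).1 h.1).2 q), hG])
  rwa [pow_zero, one_mul, one_mul, pg4_shift B' hw', ← B.chi_piM, ← e, ← B'.chi_piM] at hs

theorem Sub.quot_fil (B : Sub S σ) (hw : ∀ j, B.w j = 0) {c τ : ℕ}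
    (hτ : ∀ p, finrank ℂ (B.T p) = τ) (hc : Fintype.card σ ≤ τ + (c + 1)) (v : X → σ → ℂ)
    (r : ℕ) (θ : ℕ → X → σ → ℂ) (d : ℕ → ℕ) (v1 : ∀ q, v q ∉ B.T q)
    (v2 : ∀ q, (2 : ℂ) ^ d r • v (S.dbl q) - v q ∈ B.T (S.dbl q))
    (v3 : ∀ p, ∃ (g : R) (u : σ → R), S.ev p g ≠ 0 ∧ ∀ q, S.val q u - S.ev q g • v q ∈ B.T q)
    (h0 : ∀ i < r, ∀ q, ∑ l, θ i q l * v q l = 0)
    (h1 : ∀ i < r, ∀ q, θ i q ∈ perp (B.T q))
    (h2 : ∀ i < r, ∀ q, θ i q ∉ Submodule.span ℂ {v | ∃ i' < i, v = θ i' q})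
    (h3 : ∀ i < r, ∀ q, θ i (S.dbl q) - (2 : ℂ) ^ d i • θ i q ∈
      Submodule.span ℂ {v | ∃ i' < i, v = θ i' q})
    (h4 : ∀ i < r, ∀ p, ∃ (g : R) (u : σ → R), S.ev p g ≠ 0 ∧ ∀ q,
      S.val q u - S.ev q g • θ i q ∈ Submodule.span ℂ {v | ∃ i' < i, v = θ i' q}) :
    ∃ ψ : ℕ → ℕ → Polynomial ℂ, (∀ k, Nm n (ψ 0 k) (B.lam.chi (piM σ k))) ∧
      (∀ i < r + 1, ∀ k, (1 - Polynomial.X) ^ (n + 1) ∣ Polynomial.X ^ d i * ψ i k -
        Polynomial.X ^ d i * ψ (i + 1) k - ψ (i + 1) (k + 1)) ∧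
      (∀ i < r + 1, ψ (i + 1) 0 = 0) ∧ ∀ i k, c + 1 < k → ψ i k = 0 := by
  obtain ⟨B', hw', hT, hr⟩ := B.exists_quot hw hτ v (d r) v1 v2 v3
  obtain ⟨ψ, p0, rel, z0, zt⟩ := B'.fil hw' (c := c) (fun p => by rw [hr]; omega) r θ d
    (fun i hi q x hx => by
      rw [hT] at hx
      obtain ⟨x, hx', z, hz, rfl⟩ := Submodule.mem_sup.1 hx
      obtain ⟨s, rfl⟩ := Submodule.mem_span_singleton.1 hz
      simp only [Pi.add_apply, Pi.smul_apply, smul_eq_mul, mul_add, sum_add_distrib,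
        mul_left_comm _ s, ← mul_sum, h0 i hi q, h1 i hi q x hx', mul_zero, add_zero]) h2 h3 h4
  let sh : ℕ → ℕ → Polynomial ℂ := fun i k =>
    Nat.casesOn k 0 fun k => Polynomial.X ^ d r * ψ i k
  have s0 : ∀ i, sh i 0 = 0 := fun _ => rfl
  have s1 : ∀ i k, sh i (k + 1) = Polynomial.X ^ d r * ψ i k := fun _ _ => rfl
  refine ⟨fun i k => if i ≤ r then ψ i k + sh i k else sh r k, fun k => ?_, fun i hi k => ?_,
    fun i hi => ?_, fun i k hk => ?_⟩
  · simp only [if_pos (Nat.zero_le r)]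
    rcases k with _ | k
    · have := p0 0
      rwa [s0, add_zero, B.chi_zero, ← B'.chi_zero]
    · have a1 := num_mul (p0 k) (Polynomial.X ^ d r)
      rw [Polynomial.coe_pow, Polynomial.coe_X] at a1
      exact num_peq (lfil_add (p0 (k + 1)) a1) (Sub.quot hw hw' hT (d r) v1 v2 v3 k).symm
  · rcases Nat.lt_succ_iff_lt_or_eq.1 hi with h | rfl
    · simp only [if_pos h.le, if_pos (Nat.succ_le_of_lt h)]
      rcases k with _ | k
      · have := rel i h 0
        rwa [s0, s0, s1, z0 i h, mul_zero, add_zero, add_zero, add_zero, ← z0 i h]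
      · have := dvd_add (rel i h (k + 1)) ((rel i h k).mul_left (Polynomial.X ^ d r))
        rw [s1, s1, s1]
        convert this using 1
        ring
    · simp only [if_pos le_rfl, if_neg (Nat.not_succ_le_self i), s1]
      convert dvd_zero _ using 1
      ring
  · by_cases h : i + 1 ≤ r
    · simp only [if_pos h, s0, z0 i h, add_zero]
    · simp only [if_neg h, s0]
  · obtain ⟨k, rfl⟩ : ∃ k', k = k' + 1 := ⟨k - 1, by omega⟩
    simp only [s1, zt _ (k + 1) (by omega), zt _ k (by omega), mul_zero, add_zero, ite_self]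

end Pool.Agent.HCF
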