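import Pool.Agent.P.MP_f644fa_ag.PG3
import Pool.Agent.P.MP_f644fa_ag.PG4
import Pool.Agent.P.MP_f644fa_ag.LM2
import Pool.Agent.P.MP_f644fa_ag.LM3

/-! Numerical splitting implies complete intersection: the secant argument. -/

noncomputable section
namespace Pool.Agent.HCF
open Finset Module

variable {M : ℕ} {I : Ideal (SS M)} {c n : ℕ}

/-- no fewer than `ρ` linear forms are without a common zero on `W` -/
def BigW (W : Set (Fin M → ℂ)) (ρ : ℕ) : Prop :=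
  ∀ (e : ℕ) (L : Fin e → Fin M → ℂ), (∀ x ∈ W, ∃ i, ∑ l, L i l * x l ≠ 0) → ρ ≤ e

open MvPolynomial in
theorem CCone.indep_of_big {W : Set (Fin M → ℂ)} (hW : CCone W) {ρ : ℕ} (h : BigW W (ρ + 1)) :
    ∃ (e : ℕ) (L : Fin e → Fin M → ℂ), ρ + 1 ≤ e ∧
      ∀ f : MvPolynomial (Fin e) ℂ, (∀ y ∈ W, eval (fun i => ∑ j, L i j * y j) f = 0) → f = 0 := by
  classical
  have hex : ∃ ρ : ℕ, ∃ L : Fin ρ → Fin M → ℂ, ∀ y ∈ W, ∃ i, ∑ j, L i j * y j ≠ 0 := by
    refine ⟨M, fun i => Pi.single i 1, fun y hy => ?_⟩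
    obtain ⟨j, hj⟩ := Function.ne_iff.1 (hW.ne y hy)
    exact ⟨j, by simpa [Pi.single_apply] using hj⟩
  have hmin := fun m => Nat.find_min hex (m := m)
  obtain ⟨L, hL⟩ := Nat.find_spec hex
  generalize Nat.find hex = e at hmin L hL
  have h5 := h e L hL
  obtain ⟨n, rfl⟩ : ∃ n, e = n + 1 := ⟨e - 1, by omega⟩
  refine ⟨n + 1, L, h5, fun f hf => ?_⟩
  by_contra hf0
  have h1 : (X 0 * f : MvPolynomial (Fin (n + 1)) ℂ) ≠ 0 := mul_ne_zero (X_ne_zero 0) hf0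
  obtain ⟨b, hb⟩ : ∃ b, eval b (X 0 * f : MvPolynomial (Fin (n + 1)) ℂ) ≠ 0 := by
    by_contra k
    push Not at k
    exact h1 (MvPolynomial.funext fun x => by rw [k x, map_zero])
  rw [map_mul, eval_X] at hb
  have hb0 := left_ne_zero_of_mul hb
  refine hmin n (by omega) ⟨fun k j => b 0 * L k.succ j - b k.succ * L 0 j, fun y hy => ?_⟩
  by_contra hall
  push Not at hall
  have e : ∀ k : Fin n, b 0 * ∑ j, L k.succ j * y j = b k.succ * ∑ j, L 0 j * y j := fun k => by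
    have := hall k
    rw [← sub_eq_zero, mul_sum, mul_sum, ← sum_sub_distrib, ← this]
    exact sum_congr rfl fun j _ => by ring
  have ha : ∑ j, L 0 j * y j ≠ 0 := fun k => by
    obtain ⟨i, hi⟩ := hL y hy
    revert hi
    refine Fin.cases (fun hi => hi k) (fun i hi => hi ?_) i
    have := e i
    rw [k, mul_zero] at this
    exact (mul_eq_zero.1 this).resolve_left hb0
  have h2 := hf _ (hW.smul y hy (b 0 / ∑ j, L 0 j * y j) (div_ne_zero hb0 ha))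
  have h3 : (fun i => ∑ j, L i j * ((b 0 / ∑ j, L 0 j * y j) • y) j) = b := by
    ext i
    have : ∑ j, L i j * ((b 0 / ∑ j, L 0 j * y j) • y) j =
        (b 0 / ∑ j, L 0 j * y j) * ∑ j, L i j * y j := by
      rw [mul_sum]
      exact sum_congr rfl fun j _ => by rw [Pi.smul_apply, smul_eq_mul]; ring
    rw [this, div_mul_eq_mul_div, div_eq_iff ha]
    exact Fin.cases rfl e i
  rw [h3] at h2
  exact right_ne_zero_of_mul hb h2

open MvPolynomial in
theorem Expl.order_big {W : Set (Fin M → ℂ)} {O : Subalgebra ℂ (W → ℂ)} {RR : Type} [CommRing RR]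
    [Algebra ℂ RR] {S : NS0 M n W O RR} (h : Expl I S) (hW : CCone W) {ρ : ℕ}
    (hc : BigW W (ρ + 1)) {g : Polynomial ℂ} (hg : Nm n g ((Dat.one S).chi 1)) {e : ℕ}
    (he : (1 - Polynomial.X) ^ e ∣ g) : e + ρ ≤ n := by
  obtain ⟨ρ', L, h1, h3⟩ := hW.indep_of_big hc
  have hl : ∀ i, S.s1 (aeval S.x (lin (L i))) = 2 * aeval S.x (lin (L i)) := by
    intro i
    simp only [lin, map_sum, map_mul, aeval_C, aeval_X, AlgHom.commutes, S.s1_x, mul_sum]
    exact sum_congr rfl fun j _ => mul_left_comm _ _ _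
  have hi : AlgebraicIndependent ℂ fun i => (aeval S.x (lin (L i)) : O) := by
    rw [algebraicIndependent_iff]
    intro f hf
    refine h3 f fun y hy => ?_
    have h4 := congrArg (S.ev ⟨y, hy⟩) hf
    rw [map_zero, ← AlgHom.comp_apply, comp_aeval] at h4
    simp only [h.ev_aeval, eval_lin] at h4
    exact h4
  have := S.order_le _ hl hi (by omega) hg he
  omega

open Polynomial

/-- the numerical data: the classes of the exterior powers split -/
structure Nsp (I : Ideal (SS M)) (c n : ℕ) (S : NS M n (cone I) (Pol I) (Pol2 I))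
    (g : ℕ → ℂ[X]) (β : Fin c → ℕ) : Prop where
  expl : Expl I S.toNS0
  sub : ∀ W : Set (Fin M → ℂ), CCone W → W ⊆ cone I →
    ∃ (S' : NS0 M n W (PolW W) (Pol2W W W)) (N : NS2 S S' (Pol2W (cone I) W)),
      Expl I S' ∧ ∀ p, (N.pt p).1 = p.1
  nm : ∀ k, Nm n (g k) (S.HS k)
  ne : (g 0).eval 1 ≠ 0
  spl : ∀ k, (1 - X) ^ (n + 1 - c) ∣
    g k - g 0 * ∑ J ∈ powersetCard k (univ : Finset (Fin c)), X ^ (∑ j ∈ J, β j)

variable {S : NS M n (cone I) (Pol I) (Pol2 I)} {g : ℕ → ℂ[X]} {β : Fin c → ℕ}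

theorem Nsp.root (h : Nsp I c n S g β) (hM : M = n + 1 + c) {W : Set (Fin M → ℂ)} (hW : CCone W)
    (hWs : W ⊆ cone I) (hb : BigW W (2 * c + 1)) {j a : ℕ} (hj : j < c) (d : ℕ → ℕ)
    (d1 : ∀ i : Fin c, i.val < j → d i = β i) (d2 : d j = a)
    (hfil : ∀ (S' : NS0 M n W (PolW W) (Pol2W W W)) (B : Sub S' (Fin M)), Expl I S' →
      (∀ l, B.w l = 0) → (∀ q, B.T q = tangS I q.1) →
      ∃ ψ : ℕ → ℕ → ℂ[X], (∀ k, Nm n (ψ 0 k) (B.lam.chi (piM (Fin M) k))) ∧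
        (∀ i < j + 1, ∀ k, (1 - X) ^ (n + 1) ∣ X ^ d i * ψ i k - X ^ d i * ψ (i + 1) k -
          ψ (i + 1) (k + 1)) ∧ (∀ i < j + 1, ψ (i + 1) 0 = 0) ∧ ∀ i k, c < k → ψ i k = 0) :
    ∃ i : Fin c, j ≤ i.val ∧ β i = a := by
  obtain ⟨S', N, hS', hpt⟩ := h.sub W hW hWs
  have hT : ∀ q, (S.sub0.res N).T q = tangS I q.1 := fun q => by
    rw [← hpt q]
    exact h.expl.T (N.pt q)
  obtain ⟨ψ, p0, rel, z0, zt⟩ := hfil S' (S.sub0.res N) hS' (fun _ => rfl) hT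
  have ok1 : (Dat.one S').Ok 1 := Dat.Ok.one _
  obtain ⟨π, hπ⟩ := num_rat ok1
  have h0 := hS'.order_big hW hb hπ (e := 0) (by simp)
  refine s2_root (γ := n - 2 * c) (L := n + 1 - c) hj β d d1 d2 ψ π (fun k => ?_)
    (fun i hi' k => (pow_dvd_pow _ (Nat.sub_le _ _)).trans (rel i hi' k)) z0 zt (fun he => ?_)
    (by omega)
  · have m := (S.sub0.isRes N).mult hM (S.sub0.ok_piM k) ((S.sub0.res N).ok_piM k) ok1
      (g := g k) (g'' := ψ 0 k) (by rw [S.chi_sub0]; exact h.nm k) hπ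
      (by rw [Dat.chi_unit ((S.sub0.res N).ok_piM k)]; exact p0 k) (h.nm 0)
    refine dvd_cancel h.ne ?_
    have e := dvd_add m ((h.spl k).mul_right π)
    rwa [show ∀ A : ℂ[X], ψ 0 k * g 0 - g k * π + (g k - g 0 * A) * π = (ψ 0 k - π * A) * g 0 from
      fun A => by ring] at e
  · have := hS'.order_big hW hb hπ he
    omega

theorem pg5_fil (hX : IsManifold I c) {W : Set (Fin M → ℂ)} (hWs : W ⊆ cone I)
    {O : Subalgebra ℂ (W → ℂ)} {RR : Type} [CommRing RR] [Algebra ℂ RR] {S' : NS0 M n W O RR}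
    (hS' : Expl I S') (B : Sub S' (Fin M)) (hw : ∀ l, B.w l = 0)
    (hT : ∀ q, B.T q = tangS I q.1) {j a : ℕ} (hj : j < c) {b : Fin j → ℕ} {f : Fin j → SS M}
    (hf : Gen I b f) {v : (Fin M → ℂ) → Fin M → ℂ} (v1 : ∀ x ∈ W, v x ∉ tangS I x)
    (v0 : ∀ x ∈ W, ∀ i, ∑ l, v x l * pv x (gr (f i)) l = 0)
    (v2 : ∀ x ∈ W, (2 : ℂ) ^ a • v ((2 : ℂ) • x) - v x ∈ tangS I x)
    (v3 : ∀ x₀ ∈ W, ∃ (δ : SS M) (u : Fin M → SS M), MvPolynomial.eval x₀ δ ≠ 0 ∧
      ∀ x ∈ W, pv x u - MvPolynomial.eval x δ • v x ∈ tangS I x) (d : ℕ → ℕ)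
    (d1 : ∀ i : Fin j, d i = b i) (d2 : d j = a) :
    ∃ ψ : ℕ → ℕ → ℂ[X], (∀ k, Nm n (ψ 0 k) (B.lam.chi (piM (Fin M) k))) ∧
      (∀ i < j + 1, ∀ k, (1 - X) ^ (n + 1) ∣ X ^ d i * ψ i k - X ^ d i * ψ (i + 1) k -
        ψ (i + 1) (k + 1)) ∧ (∀ i < j + 1, ψ (i + 1) 0 = 0) ∧ ∀ i k, c < k → ψ i k = 0 := by
  obtain ⟨c, rfl⟩ : ∃ c', c = c' + 1 := ⟨c - 1, by omega⟩
  let Θ : ℕ → W → Fin M → ℂ := fun i q => if h : i < j then pv q.1 (gr (f ⟨i, h⟩)) else 0
  have e1 : ∀ i (h : i < j) (q : W), Θ i q = pv q.1 (gr (f ⟨i, h⟩)) := fun i h q => dif_pos h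
  refine B.quot_fil hw (τ := M - (c + 1)) (fun p => ?_) (by rw [Fintype.card_fin]; omega)
    (fun q => v q.1) j Θ d (fun q => ?_) (fun q => ?_) (fun p => ?_) (fun i hi q => ?_)
    (fun i hi q => ?_) (fun i hi q => ?_) (fun i hi q => ?_) fun i hi p => ?_
  · rw [hT]
    exact Nat.eq_sub_of_add_eq (hX.finrank_tang (hWs p.2))
  · rw [hT]
    exact v1 _ q.2
  · rw [hT, hS'.dbl, hX.tang_smul _ two_ne_zero, d2]
    exact v2 _ q.2
  · obtain ⟨δ, u, h1, h2⟩ := v3 _ p.2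
    refine ⟨MvPolynomial.aeval S'.x δ, fun l => MvPolynomial.aeval S'.x (u l), ?_, fun q => ?_⟩
    · rwa [hS'.ev_aeval]
    · rw [hS'.val_aeval, hS'.ev_aeval, hT]
      exact h2 _ q.2
  · rw [e1 i hi, lx1_comm]
    exact v0 _ q.2 _
  · rw [hT, e1 i hi]
    exact gr_mem_Es (hf.mem _) _
  · exact lm2_ind (hf.ind _ (hWs q.2)) (fun i => Θ i q) (fun i => e1 i i.2 q) ⟨i, hi⟩
  · have e : Θ i (S'.dbl q) = (2 : ℂ) ^ d i • Θ i q := by
      rw [e1 i hi, e1 i hi, hS'.dbl, d1 ⟨i, hi⟩]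
      exact funext fun l => eval_smul_hom (hf.hom _).pderiv 2 _
    rw [e, sub_self]
    exact Submodule.zero_mem _
  · refine ⟨1, fun l => MvPolynomial.aeval S'.x (gr (f ⟨i, hi⟩) l), by simp, fun q => ?_⟩
    rw [hS'.val_aeval, map_one, one_smul, e1 i hi, sub_self]
    exact Submodule.zero_mem _

theorem pg5_arith {c n j r σ B K s : ℕ} (h1 : j + (r + 1) = c) (h2 : σ + (r + 1) * B ≤ s)
    (h3 : σ ≤ j * B) (h4 : s ≤ n) (h5 : K ≤ B) (hn : 2 * c ^ 2 < n ∨ s + 2 * c < n + B) :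
    σ + r * K + 2 * c < n := by
  have h6 : r * K ≤ r * B := Nat.mul_le_mul_left r h5
  have h7 : (r + 1) * B = r * B + B := Nat.succ_mul r B
  rcases hn with hn | hn
  · by_cases hB : 2 * c < B
    · omega
    · have h8 : (j + r) * B ≤ (j + r) * (2 * c) := Nat.mul_le_mul_left _ (not_lt.1 hB)
      have h9 : (j + r) * (2 * c) + 2 * c = 2 * c ^ 2 := by rw [← h1]; ring
      rw [add_mul] at h8
      omega
  · omega

theorem pg5_sum (hβ : Monotone β) {j : ℕ} (hj : j < c) :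
    ∑ i : Fin j, β ⟨i, i.2.trans hj⟩ + (c - j) * β ⟨j, hj⟩ ≤ ∑ i, β i ∧
      ∑ i : Fin j, β ⟨i, i.2.trans hj⟩ ≤ j * β ⟨j, hj⟩ := by
  constructor
  · obtain ⟨r, rfl⟩ := Nat.exists_eq_add_of_le hj.le
    rw [Fin.sum_univ_add, Nat.add_sub_cancel_left]
    refine add_le_add le_rfl ?_
    have := card_nsmul_le_sum (univ : Finset (Fin r)) (fun i => β (Fin.natAdd j i)) (β ⟨j, hj⟩)
      fun i _ => hβ (Nat.le_add_right j i)
    simpa using this
  · have := sum_le_card_nsmul (univ : Finset (Fin j)) (fun i => β ⟨i, i.2.trans hj⟩) (β ⟨j, hj⟩)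
      fun i _ => hβ i.2.le
    simpa using this

theorem Nsp.step (h : Nsp I c n S g β) (hX : IsManifold I c) (hM : M = n + 1 + c)
    (hG : GR (Gr (secRing I))) (hβ : Monotone β) (hs : ∑ i, β i ≤ n)
    (hn : 2 * c ^ 2 < n ∨ ∀ i, ∑ i, β i + 2 * c < n + β i)
    (hH : (1 - PowerSeries.X) ^ M *
      PowerSeries.mk (fun m : ℕ => (finrank ℂ (Gr (secRing I) m) : ℂ)) =
        ∏ i, (1 - PowerSeries.X ^ (β i + 1))) {j : ℕ} (hj : j < c) {b : Fin j → ℕ}
    (hb : ∀ i : Fin j, b i = β ⟨i, i.2.trans hj⟩) {f : Fin j → SS M} (hf : Gen I b f) :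
    ∃ f', Gen I (Fin.snoc (α := fun _ => ℕ) b (β ⟨j, hj⟩)) (Fin.snoc (α := fun _ => SS M) f f') := by
  classical
  obtain ⟨m, hm, p₀, p1, p2, z, hz, p3⟩ : ∃ m ≤ β ⟨j, hj⟩, ∃ p ∈ I, p.IsHomogeneous (m + 1) ∧
      ∃ z ∈ cone I, pv z (gr p) ∉ Sp f z := by
    by_contra hcon
    push Not at hcon
    have : ∀ m : ℕ, FiniteDimensional ℂ (Gr (secRing I) m) := fun m => hG.fin m
    refine b2_trunc (fun m : ℕ => Gr (secRing I) m) (toSec I) (fun m f hf => isHom_pf hf) β hj b hb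
      f hf.hom (fun i => (toSec_eq_zero hX).2 (hf.mem i)) (fun m hm p hp h0 => ?_) hH
    have hpI : p ∈ I := (toSec_eq_zero hX).1 h0
    obtain ⟨a, ha, e⟩ := lm3_coef hX hf (dP_mem hpI hp).2 (fun z => by
      rw [lm3_val]
      exact hcon m hm p hpI hp z.1 z.2)
    refine ⟨a, fun i => ⟨fun h => ?_, fun h => ?_⟩, fun l => ?_⟩
    · have := ha i
      rwa [← Nat.cast_sub h] at this
    · have := ha i
      rw [hG.neg _ (by omega)] at this
      exact this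
    · have := congrFun e l
      simpa [Finset.sum_apply] using this
  obtain ⟨y, h0, hy₀⟩ := pg1_point (fun i => hz.2 _ (hf.mem i)) (hf.ind z hz) p3
  obtain ⟨p, hp, he, hy⟩ : ∃ p ∈ I, p.IsHomogeneous (m + 1) ∧ MvPolynomial.eval y p = 1 :=
    ⟨MvPolynomial.C (MvPolynomial.eval y p₀)⁻¹ * p₀, I.mul_mem_left _ p1, p2.C_mul _, by
      rw [map_mul, MvPolynomial.eval_C, inv_mul_cancel₀ hy₀]⟩
  let d : ℕ → ℕ → ℕ := fun a i => if h : i < j then b ⟨i, h⟩ else a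
  have d1 : ∀ a (i : Fin j), d a i = b i := fun a i => dif_pos i.2
  have d2 : ∀ a, d a j = a := fun a => dif_neg (lt_irrefl j)
  have d3 : ∀ a (i : Fin c), i.val < j → d a i = β i := fun a i hi =>
    (d1 a ⟨i, hi⟩).trans (hb ⟨i, hi⟩)
  obtain ⟨s1, s2⟩ := pg5_sum hβ hj
  obtain ⟨r, hr⟩ : ∃ r, c - j = r + 1 := ⟨c - j - 1, by omega⟩
  have s3 : ∑ i, (b i + 1) = ∑ i : Fin j, β ⟨i, i.2.trans hj⟩ + j := by
    simp [sum_add_distrib, hb]
  rw [hr] at s1
  have ar : ∀ K ≤ β ⟨j, hj⟩, ∑ i : Fin j, β ⟨i, i.2.trans hj⟩ + r * K + 2 * c < n := fun K hK =>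
    pg5_arith (by omega) s1 s2 hs hK (hn.imp_right fun h => h _)
  have a0 := ar 0 (Nat.zero_le _)
  have hZ : ¬(Zg I f p).Nonempty := fun hZ => by
    have w0 := hf.wk_zero hX hp he hy h0 (by omega) hZ
    have hex : ∃ k, ¬(Wk I y f p k).Nonempty := ⟨m, hf.wk_top hX hp he hy⟩
    have w1 := Nat.find_spec hex
    have w2 := fun k => Nat.find_min hex (m := k)
    have w3 := Nat.find_min' hex (hf.wk_top hX hp he hy)
    generalize Nat.find hex = k at w1 w2 w3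
    rcases k with _ | k
    · exact w1 w0
    have hW := hf.ccone_Wk hX hp he hy (k := k)
    have hWs : Wk I y f p k ⊆ cone I := fun _ h => h.1.1
    obtain ⟨v, v1, v0, v2, v3⟩ := exists_field hX hp he hy hWs (fun _ h => h.2.2)
      (fun x hx h => w1 ⟨x, hx.1, hx.2.1, h⟩) fun x hx => hW.smul x hx 2 two_ne_zero
    obtain ⟨i, i1, i2⟩ := h.root hM hW hWs (fun e L hL => by
        have h1 := hf.wk_large hX hp he hy h0 (not_not.1 (w2 k k.lt_succ_self)) L hL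
        have h2 := ar (k + 1) (by omega)
        rw [hr, s3, Fintype.card_fin, Nat.succ_mul r] at h1
        omega) hj (d k) (d3 k) (d2 k) fun S' B hS' hw hT =>
      pg5_fil hX hWs hS' B hw hT hj hf v1 (fun x hx i => v0 x hx _ (hf.mem i) (hx.2.1 i)) v2 v3
        (d k) (d1 k) (d2 k)
    have := hβ (show (⟨j, hj⟩ : Fin c) ≤ i from i1)
    omega
  have hZ' : ∀ x ∈ cone I, pv x (gr p) ∉ Sp f x := fun x hx h => hZ ⟨x, hx, h⟩
  obtain ⟨i, i1, i2⟩ := h.root hM hX.ccone le_rfl (fun e L hL => by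
      have h1 := hX.ccone.card_le (hX.locCut hz) L hL
      rw [Fintype.card_fin, Fintype.card_fin] at h1
      omega) hj (d m) (d3 m) (d2 m) fun S' B hS' hw hT =>
    lm2_fil hX le_rfl hS' B hw hT hf (θ := fun x => pv x (gr p)) (fun x _ => gr_mem_Es hp x) hZ'
      (fun x _ => by
        have e : pv ((2 : ℂ) • x) (gr p) = (2 : ℂ) ^ m • pv x (gr p) :=
          funext fun l => eval_smul_hom (he.pderiv (i := l)) 2 x
        rw [e, sub_self]
        exact Submodule.zero_mem _)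
      (fun _ _ => ⟨1, gr p, by simp, fun x _ => by
        rw [map_one, one_smul, sub_self]
        exact Submodule.zero_mem _⟩) (d m) (d1 m) (d2 m)
  have hle := hβ (show (⟨j, hj⟩ : Fin c) ≤ i from i1)
  obtain rfl : m = β ⟨j, hj⟩ := by omega
  refine ⟨p, fun i => ?_, fun i => ?_, fun x hx => ?_⟩
  · refine Fin.lastCases ?_ (fun i => ?_) i
    · rwa [Fin.snoc_last]
    · rw [Fin.snoc_castSucc]
      exact hf.mem i
  · refine Fin.lastCases ?_ (fun i => ?_) i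
    · rwa [Fin.snoc_last, Fin.snoc_last]
    · rw [Fin.snoc_castSucc, Fin.snoc_castSucc]
      exact hf.hom i
  · have e : (fun i => pv x (gr (Fin.snoc (α := fun _ => SS M) f p i))) =
        Fin.snoc (α := fun _ => Fin M → ℂ) (fun i => pv x (gr (f i))) (pv x (gr p)) := by
      funext i
      refine Fin.lastCases ?_ (fun i => ?_) i
      · rw [Fin.snoc_last, Fin.snoc_last]
      · rw [Fin.snoc_castSucc, Fin.snoc_castSucc]
    rw [e]
    exact linearIndependent_finSnoc.2 ⟨hf.ind x hx, hZ' x hx⟩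

theorem Nsp.main (h : Nsp I c n S g β) (hX : IsManifold I c) (hM : M = n + 1 + c) (hn1 : 1 ≤ n)
    (hβ : Monotone β) (hs : ∑ i, β i ≤ n)
    (hn : 2 * c ^ 2 < n ∨ ∀ i, ∑ i, β i + 2 * c < n + β i)
    (hH : (1 - PowerSeries.X) ^ M *
      PowerSeries.mk (fun m : ℕ => (finrank ℂ (Gr (secRing I) m) : ℂ)) =
        ∏ i, (1 - PowerSeries.X ^ (β i + 1))) :
    ∃ f : Fin c → SS M, (∀ i, (f i).IsHomogeneous (β i + 1)) ∧ I = Ideal.span (Set.range f) := by
  have hG := gr_sec hX hM hn1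
  have key : ∀ (j : ℕ) (hj : j ≤ c), ∃ f : Fin j → SS M,
      Gen I (fun i => β ⟨i, lt_of_lt_of_le i.2 hj⟩) f := by
    intro j
    induction j with
    | zero => exact fun _ => ⟨fun i => i.elim0, fun i => i.elim0, fun i => i.elim0,
        fun _ _ => linearIndependent_empty_type⟩
    | succ j ih =>
      intro hj
      obtain ⟨f, hf⟩ := ih (by omega)
      obtain ⟨f', h1⟩ := h.step hX hM hG hβ hs hn hH hj (fun _ => rfl) hf
      refine ⟨Fin.snoc (α := fun _ => SS M) f f', ?_⟩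
      convert h1 using 1
      funext i
      refine Fin.lastCases ?_ (fun i => ?_) i
      · rw [Fin.snoc_last]
        rfl
      · rw [Fin.snoc_castSucc]
        rfl
  obtain ⟨f, hf⟩ := key c le_rfl
  exact hf.final hX hG hH

end Pool.Agent.HCF
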