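import Mathlib

/-! The primitive element over a normal domain. -/

noncomputable section
namespace Pool.Agent.HCF

open Polynomial in
/-- common denominator of finitely many polynomials -/
theorem prim0_clear {B K ι : Type} [CommRing B] [IsDomain B] [Field K] [Algebra B K]
    [IsFractionRing B K] [Finite ι] (q : ι → K[X]) :
    ∃ (δ : B) (Q : ι → B[X]), δ ≠ 0 ∧ ∀ j, (Q j).map (algebraMap B K) = δ • q j := by
  classical
  have := Fintype.ofFinite ι
  choose b hb h using fun j => IsLocalization.integerNormalization_spec (nonZeroDivisors B) (q j)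
  refine ⟨∏ j, b j, fun j => (∏ i ∈ Finset.univ.erase j, b i) •
    IsLocalization.integerNormalization (nonZeroDivisors B) (q j),
    Finset.prod_ne_zero_iff.2 fun j _ => nonZeroDivisors.ne_zero (hb j), fun j => ?_⟩
  rw [Polynomial.map_smul, h, algebraMap_smul, smul_smul,
    Finset.prod_erase_mul _ _ (Finset.mem_univ j)]

/-- primitive element over a normal domain -/
theorem exists_prim {B R ι : Type} [CommRing B] [IsDomain B] [IsIntegrallyClosed B] [CharZero B]
    [CommRing R] [IsDomain R] [Algebra B R] [FaithfulSMul B R] [Module.Finite B R] [Finite ι]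
    (x : ι → R) : ∃ (y : R) (δ Δ : B) (Q : ι → Polynomial B) (U V : Polynomial B), δ ≠ 0 ∧ Δ ≠ 0 ∧
      (∀ j, algebraMap B R δ * x j = Polynomial.aeval y (Q j)) ∧
      U * minpoly B y + V * (minpoly B y).derivative = Polynomial.C Δ := by
  let K := FractionRing B
  let L := FractionRing R
  let _ : Algebra K L := FractionRing.liftAlgebra B L
  have : IsScalarTower B K L := FractionRing.isScalarTower_liftAlgebra B L
  have : Module.Finite K L := inferInstance
  have : CharZero K := inferInstance
  obtain ⟨α, hα⟩ := Field.exists_primitive_element K L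
  obtain ⟨⟨y, ⟨_, d, hd, rfl⟩⟩, hy⟩ :=
    IsLocalization.surj (Algebra.algebraMapSubmonoid R (nonZeroDivisors B)) α
  simp only at hy
  have hd0 : algebraMap B K d ≠ 0 :=
    (map_ne_zero_iff _ (IsFractionRing.injective B K)).2 (nonZeroDivisors.ne_zero hd)
  have hαy : α = (algebraMap B K d)⁻¹ • algebraMap R L y := by
    rw [← hy, ← IsScalarTower.algebraMap_apply, IsScalarTower.algebraMap_apply B K L, mul_comm,
      ← Algebra.smul_def, smul_smul, inv_mul_cancel₀ hd0, one_smul]
  have hq : ∀ j, ∃ q : Polynomial K, Polynomial.aeval (algebraMap R L y) q = algebraMap R L (x j) := by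
    intro j
    have h1 : algebraMap R L (x j) ∈ Algebra.adjoin K {α} := by
      rw [← IntermediateField.adjoin_simple_toSubalgebra_of_isAlgebraic
        (IsAlgebraic.of_finite K α), hα]
      trivial
    have h2 : Algebra.adjoin K {α} ≤ Algebra.adjoin K {algebraMap R L y} := by
      rw [Algebra.adjoin_le_iff, Set.singleton_subset_iff, hαy]
      exact Subalgebra.smul_mem _ (Algebra.self_mem_adjoin_singleton K _) _
    have h3 := h2 h1
    rw [Algebra.adjoin_singleton_eq_range_aeval] at h3
    exact h3
  choose q hq using hq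
  obtain ⟨δ, Q, hδ, hQ⟩ := prim0_clear (B := B) q
  obtain ⟨a, b, hab⟩ : (minpoly K (algebraMap R L y)).Separable :=
    Algebra.IsSeparable.isSeparable K _
  rw [minpoly.isIntegrallyClosed_eq_field_fractions K L
    (Algebra.IsIntegral.isIntegral (R := B) y)] at hab
  obtain ⟨Δ, P, hΔ, hP⟩ := prim0_clear (B := B) (fun i : Bool => cond i a b)
  refine ⟨y, δ, Δ, Q, P true, P false, hδ, hΔ, fun j => ?_, ?_⟩
  · apply IsFractionRing.injective R L
    rw [← Polynomial.aeval_algebraMap_apply, ← Polynomial.aeval_map_algebraMap K, hQ,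
      ← algebraMap_smul K, map_smul, hq, algebraMap_smul, map_mul, ← IsScalarTower.algebraMap_apply,
      Algebra.smul_def]
  · apply Polynomial.map_injective _ (IsFractionRing.injective B K)
    rw [Polynomial.map_add, Polynomial.map_mul, Polynomial.map_mul, hP, hP,
      ← Polynomial.derivative_map, cond_true, cond_false, smul_mul_assoc, smul_mul_assoc,
      ← smul_add, hab, Polynomial.map_C, ← algebraMap_smul K, Polynomial.smul_eq_C_mul, mul_one]

end Pool.Agent.HCF
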