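import Pool.Agent.P.MP_f644fa_ag.Trdeg
import Pool.Agent.P.MP_f644fa_ag.Prim0

/-! The primitive element and the parametrisation of the fibres. -/

noncomputable section
namespace Pool.Agent.HCF
open MvPolynomial Module Set

variable {M : ℕ} {I : Ideal (SS M)} {c n : ℕ}

/-- specialisation of the coefficients -/
def spec {n : ℕ} (b : Fin n → ℂ) (q : Polynomial (MvPolynomial (Fin n) ℂ)) : Polynomial ℂ :=
  q.map (eval b)

/-- The description of the cone as a branched covering. -/
structure Cov (I : Ideal (SS M)) {n : ℕ} (L : Fin (n + 1) → Fin M → ℂ) where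
  y : SS M
  μ : Polynomial (MvPolynomial (Fin (n + 1)) ℂ)
  δ : MvPolynomial (Fin (n + 1)) ℂ
  Δ : MvPolynomial (Fin (n + 1)) ℂ
  Q : Fin M → Polynomial (MvPolynomial (Fin (n + 1)) ℂ)
  monic : μ.Monic
  δ_ne : ∀ b, eval b Δ ≠ 0 → eval b δ ≠ 0
  sep : ∀ b, eval b Δ ≠ 0 → (spec b μ).Separable
  root : ∀ x ∈ cone I, (spec (prj L x) μ).IsRoot (eval x y)
  back : ∀ x ∈ cone I, ∀ j, eval (prj L x) δ * x j = (spec (prj L x) (Q j)).eval (eval x y)
  fib : ∀ b η, eval b Δ ≠ 0 → (spec b μ).IsRoot η →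
    (fun j => (spec b (Q j)).eval η / eval b δ) ∈ cone I ∧
      prj L (fun j => (spec b (Q j)).eval η / eval b δ) = b
  ne : ∃ x ∈ cone I, eval (prj L x) Δ ≠ 0

theorem prim_smul (hX : IsManifold I c) {z : Fin M → ℂ} (hz : ∀ f ∈ I, eval z f = 0) (t : ℂ) :
    ∀ f ∈ I, eval (t • z) f = 0 := by
  intro f hf
  rw [← sum_homogeneousComponent f, map_sum]
  refine Finset.sum_eq_zero fun d _ => ?_
  rw [eval_smul_hom (homogeneousComponent_isHomogeneous d f), hz _ (hX.homog f hf d), mul_zero]

theorem prim_spec {k : ℕ} (b : Fin k → ℂ) (η : ℂ) (Q : Fin M → Polynomial (MvPolynomial (Fin k) ℂ))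
    (f : SS M) : (spec b (aeval Q f)).eval η = eval (fun j => (spec b (Q j)).eval η) f := by
  induction f using MvPolynomial.induction_on with
  | C a => simp [spec]
  | add p q hp hq =>
    simp only [spec] at hp hq ⊢
    simp only [map_add, Polynomial.map_add, Polynomial.eval_add, hp, hq]
  | mul_X p j hp =>
    simp only [spec] at hp ⊢
    simp only [map_mul, Polynomial.map_mul, Polynomial.eval_mul, hp, aeval_X, eval_X]

theorem prim_lin {ι : Type} (L : ι → Fin M → ℂ) (p : MvPolynomial ι ℂ) (x : cone I) :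
    (aeval (linP I L) p : Pol I).1 x = eval (prj L x.1) p := by
  induction p using MvPolynomial.induction_on with
  | C a => simp
  | add p q hp hq =>
    rw [map_add, map_add, ← hp, ← hq]
    rfl
  | mul_X p j hp =>
    rw [map_mul, map_mul, ← hp, aeval_X, eval_X]
    exact congrArg (_ * ·) (pf_apply (lin (L j)) x)

theorem Bpf.exists_cov (hX : IsManifold I c) (hM : M = n + 1 + c) {L : Fin (n + 1) → Fin M → ℂ}
    (h : Bpf I L) : Nonempty (Cov I L) := by
  let _ : Algebra (MvPolynomial (Fin (n + 1)) ℂ) (Pol I) :=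
    (aeval (linP I L) : MvPolynomial (Fin (n + 1)) ℂ →ₐ[ℂ] Pol I).toRingHom.toAlgebra
  have : Module.Finite (MvPolynomial (Fin (n + 1)) ℂ) (Pol I) := h.finite hX
  have hinj : Function.Injective (algebraMap (MvPolynomial (Fin (n + 1)) ℂ) (Pol I)) :=
    h.indep hX hM
  have : FaithfulSMul (MvPolynomial (Fin (n + 1)) ℂ) (Pol I) :=
    (faithfulSMul_iff_algebraMap_injective _ _).2 hinj
  have := hX.isDomain_Pol
  obtain ⟨⟨_, y, rfl⟩, δ, Δ, Q, U, V, hδ, hΔ, hQ, hUV⟩ :=
    exists_prim (B := MvPolynomial (Fin (n + 1)) ℂ) fun j : Fin M => (⟨_, pf_mem (X j)⟩ : Pol I)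
  set y0 : Pol I := ⟨_, y, rfl⟩ with hy0
  have hal : ∀ p (x : cone I), (algebraMap (MvPolynomial (Fin (n + 1)) ℂ) (Pol I) p).1 x =
      eval (prj L x.1) p := fun p x => prim_lin L p x
  have hev : ∀ (q : Polynomial (MvPolynomial (Fin (n + 1)) ℂ)) (x : cone I),
      (Polynomial.aeval y0 q).1 x = (spec (prj L x.1) q).eval (eval x.1 y) := by
    intro q x
    induction q using Polynomial.induction_on' with
    | add p q hp hq =>
      simp only [spec] at hp hq ⊢
      rw [map_add, Polynomial.map_add, Polynomial.eval_add, ← hp, ← hq]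
      rfl
    | monomial k a =>
      rw [Polynomial.aeval_monomial, spec, Polynomial.map_monomial, Polynomial.eval_monomial,
        ← hal, ← pf_apply]
      rfl
  have hint : IsIntegral (MvPolynomial (Fin (n + 1)) ℂ) y0 := Algebra.IsIntegral.isIntegral y0
  have hback : ∀ x ∈ cone I, ∀ j,
      eval (prj L x) δ * x j = (spec (prj L x) (Q j)).eval (eval x y) := fun x hx j => by
    rw [← hev (Q j) ⟨x, hx⟩, ← hQ, ← hal δ ⟨x, hx⟩]
    refine congrArg (_ * ·) ?_
    exact ((pf_apply (X j) ⟨x, hx⟩).trans (eval_X j)).symm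
  have hker : ∀ (q : Polynomial (MvPolynomial (Fin (n + 1)) ℂ)),
      (∀ x ∈ cone I, (spec (prj L x) q).eval (eval x y) = 0) → ∀ b η,
      (spec b (minpoly (MvPolynomial (Fin (n + 1)) ℂ) y0)).IsRoot η → (spec b q).eval η = 0 := by
    intro q hq b η hr
    have h0 : Polynomial.aeval y0 q = 0 := Subtype.ext (funext fun x => (hev q x).trans (hq _ x.2))
    obtain ⟨r, rfl⟩ := minpoly.isIntegrallyClosed_dvd hint h0
    rw [spec, Polynomial.map_mul, Polynomial.eval_mul]
    exact mul_eq_zero_of_left hr _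
  have hz : ∀ x ∈ cone I, (fun j => (spec (prj L x) (Q j)).eval (eval x y)) =
      eval (prj L x) δ • x := fun x hx => funext fun j => (hback x hx j).symm
  refine ⟨⟨y, minpoly _ y0, δ, δ * Δ * X 0, Q, minpoly.monic hint, fun b hb h0 => hb ?_,
    fun b hb => ?_, fun x hx => ?_, hback, fun b η hb hr => ?_, ?_⟩⟩
  · rw [map_mul, map_mul, h0, zero_mul, zero_mul]
  · have h1 : eval b Δ ≠ 0 := fun h0 => hb (by rw [map_mul, map_mul, h0, mul_zero, zero_mul])
    have h2 := congrArg (Polynomial.map (eval b)) hUV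
    rw [Polynomial.map_add, Polynomial.map_mul, Polynomial.map_mul, Polynomial.map_C,
      ← Polynomial.derivative_map] at h2
    refine ⟨Polynomial.C (eval b Δ)⁻¹ * U.map (eval b),
      Polynomial.C (eval b Δ)⁻¹ * V.map (eval b), ?_⟩
    rw [spec, mul_assoc, mul_assoc, ← mul_add, h2, ← map_mul, inv_mul_cancel₀ h1, map_one]
  · rw [Polynomial.IsRoot, ← hev _ ⟨x, hx⟩, minpoly.aeval]
    rfl
  · have h1 : eval b δ ≠ 0 := fun h0 => hb (by rw [map_mul, map_mul, h0, zero_mul, zero_mul])
    have h2 : b 0 ≠ 0 := fun h0 => hb (by rw [map_mul, eval_X, h0, mul_zero])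
    have e : (fun j => (spec b (Q j)).eval η / eval b δ) =
        (eval b δ)⁻¹ • fun j => (spec b (Q j)).eval η := by
      funext j
      rw [Pi.smul_apply, smul_eq_mul, div_eq_inv_mul]
    have h3 : prj L (fun j => (spec b (Q j)).eval η / eval b δ) = b := by
      funext i
      have h4 := hker (aeval Q (lin (L i)) - Polynomial.C (δ * X i)) (fun x hx => by
        have h5 := prim_spec (prj L x) (eval x y) Q (lin (L i))
        rw [hz x hx, eval_smul_hom (lin_hom _), pow_one] at h5
        simp only [spec] at h5 ⊢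
        rw [Polynomial.map_sub, Polynomial.eval_sub, h5, Polynomial.map_C, Polynomial.eval_C,
          map_mul, eval_X, prj, sub_self]) b η hr
      have h5 := prim_spec b η Q (lin (L i))
      simp only [spec] at h4 h5
      rw [Polynomial.map_sub, Polynomial.eval_sub, h5, Polynomial.map_C, Polynomial.eval_C,
        map_mul, eval_X, sub_eq_zero] at h4
      rw [e, prj, eval_smul_hom (lin_hom _), pow_one]
      simp only [spec]
      rw [h4, inv_mul_cancel_left₀ h1]
    refine ⟨⟨fun h0 => h2 ?_, ?_⟩, h3⟩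
    · rw [← h3, h0, prj, eval_lin]
      simp
    · rw [e]
      refine prim_smul hX (fun f hf => ?_) _
      rw [← prim_spec]
      refine hker _ (fun x hx => ?_) b η hr
      rw [prim_spec, hz x hx]
      exact prim_smul hX hx.2 _ f hf
  · by_contra hn
    refine mul_ne_zero (mul_ne_zero hδ hΔ) (X_ne_zero 0) (hinj ?_)
    rw [map_zero]
    refine Subtype.ext (funext fun x => (hal _ x).trans ?_)
    by_contra h0
    exact hn ⟨x.1, x.2, h0⟩

end Pool.Agent.HCF
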