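import Pool.Agent.P.MP_f644fa_ag.Prod0

/-! Modules of finite length. -/

noncomputable section
namespace Pool.Agent.HCF
open Finset Module PowerSeries

variable {W W' W'' : Type} [AddCommGroup W] [Module ℂ W] [AddCommGroup W'] [Module ℂ W']
  [AddCommGroup W''] [Module ℂ W'']

section alg
variable {O : Type} [CommRing O] [Algebra ℂ O] {τ : Type} [Fintype τ] {ξ : τ → O}

theorem prod_mono (α : τ →₀ ℕ) (c : ℂ) :
    MvPolynomial.aeval ξ (MvPolynomial.monomial α c) = c • ∏ j, ξ j ^ α j := by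
  rw [MvPolynomial.aeval_monomial, Finsupp.prod_fintype _ _ fun _ => pow_zero _, Algebra.smul_def]

theorem prod_span [Module O W] [IsScalarTower ℂ O W]
    (gen : Function.Surjective (MvPolynomial.aeval ξ : MvPolynomial τ ℂ →ₐ[ℂ] O))
    (N₁ N₂ : Submodule O W) (hfg : N₁.FG) (hk : ∀ j, ∃ K : ℕ, ∀ w ∈ N₁, ξ j ^ K • w ∈ N₂) :
    ∃ V : Submodule ℂ W, FiniteDimensional ℂ V ∧ ∀ w ∈ N₁, w ∈ V ⊔ N₂.restrictScalars ℂ := by
  classical
  obtain ⟨S, rfl⟩ := hfg
  choose K hK using hk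
  let f : (∀ j, Fin (K j)) × S → W := fun a => (∏ j, ξ j ^ (a.1 j : ℕ)) • (a.2 : W)
  refine ⟨Submodule.span ℂ (Set.range f), FiniteDimensional.span_of_finite ℂ (Set.finite_range f),
    fun w hw => ?_⟩
  have key : ∀ o : O, o • w ∈ Submodule.span ℂ (Set.range f) ⊔ N₂.restrictScalars ℂ := by
    induction hw using Submodule.span_induction with
    | mem v hv =>
      intro o
      obtain ⟨p, rfl⟩ := gen o
      induction p using MvPolynomial.induction_on' with
      | monomial α c =>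
        rw [prod_mono, smul_assoc]
        refine Submodule.smul_mem _ _ ?_
        by_cases h : ∀ j, α j < K j
        · exact Submodule.mem_sup_left (Submodule.subset_span ⟨(fun j => ⟨α j, h j⟩, ⟨v, hv⟩), rfl⟩)
        · push Not at h
          obtain ⟨j, hj⟩ := h
          obtain ⟨r, hr⟩ : ξ j ^ K j ∣ ∏ j, ξ j ^ α j :=
            (pow_dvd_pow _ hj).trans (Finset.dvd_prod_of_mem (fun j => ξ j ^ α j) (mem_univ j))
          rw [hr, mul_comm, mul_smul]
          exact Submodule.mem_sup_right (N₂.smul_mem r (hK j v (Submodule.subset_span hv)))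
      | add p q hp hq =>
        rw [map_add, add_smul]
        exact Submodule.add_mem _ hp hq
    | zero =>
      intro o
      rw [smul_zero]
      exact Submodule.zero_mem _
    | add x y _ _ hx hy =>
      intro o
      rw [smul_add]
      exact Submodule.add_mem _ (hx o) (hy o)
    | smul a x _ hx =>
      intro o
      rw [← mul_smul]
      exact hx _
  simpa using key 1

/-- a module of finite length vanishes in large degree -/
theorem fin_len [Module O W] [IsScalarTower ℂ O W]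
    (gen : Function.Surjective (MvPolynomial.aeval ξ : MvPolynomial τ ℂ →ₐ[ℂ] O))
    (N₁ N₂ : Submodule O W) (hfg : N₁.FG) (hk : ∀ j, ∃ K : ℕ, ∀ w ∈ N₁, ξ j ^ K • w ∈ N₂)
    (s : End ℂ W) (h₁ : ∀ w ∈ N₁, s w ∈ N₁) (h₂ : ∀ w ∈ N₂, s w ∈ N₂) :
    ∃ m₀ : ℕ, ∀ m ≥ m₀, ∀ w ∈ N₁, w ∈ Eg s (m : ℕ) → w ∈ N₂ := by
  obtain ⟨V, hV, hle⟩ := prod_span gen N₁ N₂ hfg hk
  let N := N₂.restrictScalars ℂ
  let t : End ℂ (W ⧸ N) := N.mapQ N s fun w hw => h₂ w hw
  let U : Submodule ℂ (W ⧸ N) := (N₁.restrictScalars ℂ).map N.mkQ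
  have hU : U ≤ V.map N.mkQ := by
    rintro _ ⟨w, hw, rfl⟩
    obtain ⟨v, hv, n, hn, rfl⟩ := Submodule.mem_sup.1 (hle w hw)
    refine ⟨v, hv, ?_⟩
    rw [map_add, Submodule.mkQ_apply N n, (Submodule.Quotient.mk_eq_zero N).2 hn, add_zero]
  have : FiniteDimensional ℂ U := Submodule.finiteDimensional_of_le hU
  have ht : ∀ x ∈ U, t x ∈ U := by
    rintro _ ⟨w, hw, rfl⟩
    exact ⟨s w, h₁ w hw, rfl⟩
  have hinj : Function.Injective fun m : ℕ => (2 : ℂ) ^ m := fun a b h => by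
    have h1 : (2 : ℂ) ^ a = 2 ^ b := h
    have h2 : (2 : ℕ) ^ a = 2 ^ b := by exact_mod_cast h1
    exact Nat.pow_right_injective le_rfl h2
  obtain ⟨b, hb⟩ := ((End.finite_hasEigenvalue (t.restrict ht)).preimage hinj.injOn).bddAbove
  refine ⟨b + 1, fun m hm w hw he => ?_⟩
  by_contra h0
  have h3 : End.HasEigenvalue (t.restrict ht) ((2 : ℂ) ^ m) := by
    refine End.hasEigenvalue_of_hasEigenvector (x := ⟨N.mkQ w, w, hw, rfl⟩) ⟨?_, fun h => h0 ?_⟩
    · refine End.mem_eigenspace_iff.2 (Subtype.ext ?_)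
      have h4 := congrArg N.mkQ (mem_Eg.1 he)
      rw [map_smul, zpow_natCast] at h4
      exact h4
    · exact (Submodule.Quotient.mk_eq_zero N).1 (congrArg Subtype.val h)
  have := hb h3
  omega

theorem grd_top (gen : Function.Surjective (MvPolynomial.aeval ξ : MvPolynomial τ ℂ →ₐ[ℂ] O))
    (s : O →ₐ[ℂ] O) (hs : ∀ j, s (ξ j) = 2 * ξ j) : Grd s.toLinearMap ⊤ := by
  have h1 : Submodule.span ℂ (Set.range fun α : τ →₀ ℕ => ∏ j, ξ j ^ α j) = ⊤ := by
    refine eq_top_iff.2 fun o _ => ?_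
    obtain ⟨p, rfl⟩ := gen o
    induction p using MvPolynomial.induction_on' with
    | monomial α c =>
      rw [prod_mono]
      exact Submodule.smul_mem _ _ (Submodule.subset_span ⟨α, rfl⟩)
    | add p q hp hq =>
      rw [map_add]
      exact Submodule.add_mem _ (hp trivial) (hq trivial)
  rw [← h1]
  refine Grd.of_span _ (fun α => Finsupp.degree α) (fun α => mem_Eg.2 ?_) fun m =>
    (Finsupp.finite_of_degree_le m).subset fun α h => le_of_eq h
  rw [AlgHom.toLinearMap_apply, map_prod, Finsupp.degree_eq_sum, zpow_natCast, Algebra.smul_def,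
    map_pow, ← Finset.prod_pow_eq_pow_sum, ← Finset.prod_mul_distrib]
  refine Finset.prod_congr rfl fun j _ => ?_
  rw [map_pow, hs, mul_pow, map_ofNat]

theorem noeth (gen : Function.Surjective (MvPolynomial.aeval ξ : MvPolynomial τ ℂ →ₐ[ℂ] O)) :
    IsNoetherianRing O :=
  isNoetherianRing_of_surjective (MvPolynomial τ ℂ) O
    (MvPolynomial.aeval ξ : MvPolynomial τ ℂ →ₐ[ℂ] O).toRingHom gen

end alg

end Pool.Agent.HCF
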