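import Pool.Agent.P.MP_f644fa_ag.Graded

/-! Graded traces on tensor products; modules of finite length. -/

noncomputable section
namespace Pool.Agent.HCF
open Finset Module PowerSeries

variable {W W' W'' : Type} [AddCommGroup W] [Module ℂ W] [AddCommGroup W'] [Module ℂ W']
  [AddCommGroup W''] [Module ℂ W'']

/-- `β` induces an injective map on the tensor product -/
def TensInj (β : W →ₗ[ℂ] W' →ₗ[ℂ] W'') : Prop :=
  ∀ (ι ι' : Type) (f : ι → W) (g : ι' → W'), LinearIndependent ℂ f → LinearIndependent ℂ g →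
    LinearIndependent ℂ fun q : ι × ι' => β (f q.1) (g q.2)

theorem prod0_indep (s : End ℂ W) : iSupIndep fun m : ℕ => Eg s m := by
  have hi : Function.Injective fun m : ℕ => (2 : ℂ) ^ (m : ℤ) := by
    intro a b hab
    simp only [zpow_natCast] at hab
    have h2 : (2 : ℕ) ^ a = 2 ^ b := by exact_mod_cast hab
    exact Nat.pow_right_injective le_rfl h2
  exact (End.eigenspaces_iSupIndep s).comp hi

/-- a homogeneous basis -/
theorem Grd.exists_basis {s : End ℂ W} {p : Submodule ℂ W} (h : Grd s p) :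
    ∃ (r : ℕ → ℕ) (b : (Σ m, Fin (r m)) → W), LinearIndependent ℂ b ∧
      ∀ m : ℕ, Submodule.span ℂ (Set.range fun i => b ⟨m, i⟩) = p ⊓ Eg s m := by
  have hf := h.fin
  let f : ∀ m : ℕ, Fin (finrank ℂ ↥(p ⊓ Eg s m)) → W := fun m i =>
    (finBasis ℂ ↥(p ⊓ Eg s m) i : W)
  have hs : ∀ m : ℕ, Submodule.span ℂ (Set.range (f m)) = p ⊓ Eg s m := fun m => by
    have h1 := congrArg (Submodule.map (p ⊓ Eg s m).subtype) (finBasis ℂ ↥(p ⊓ Eg s m)).span_eq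
    rw [Submodule.map_span, Submodule.map_top, Submodule.range_subtype, ← Set.range_comp] at h1
    exact h1
  refine ⟨fun m => finrank ℂ ↥(p ⊓ Eg s m), fun x => f x.1 x.2, ?_, hs⟩
  refine linearIndependent_iUnion_finite (f := f) (fun m => ?_) fun m t _ hm => ?_
  · exact (finBasis ℂ ↥(p ⊓ Eg s m)).linearIndependent.map' _ (Submodule.ker_subtype _)
  · simp only [hs]
    exact ((prod0_indep s).mono fun m => inf_le_right).disjoint_biSup hm

theorem prod0_basis {s : End ℂ W} {p : Submodule ℂ W} (h : Grd s p) :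
    ∃ (ι : Type) (b : ι → W) (deg : ι → ℕ) (F : ℕ → Finset ι), LinearIndependent ℂ b ∧
      (∀ i m, i ∈ F m ↔ deg i = m) ∧ (∀ i, b i ∈ Eg s (deg i)) ∧
      Submodule.span ℂ (Set.range b) = p := by
  classical
  obtain ⟨r, b, hb, hs⟩ := h.exists_basis
  have hm : ∀ x : Σ m, Fin (r m), b x ∈ p ⊓ Eg s x.1 := fun x =>
    hs x.1 ▸ Submodule.subset_span ⟨x.2, rfl⟩
  refine ⟨_, b, Sigma.fst, fun m => univ.image (Sigma.mk m), hb, fun x m => ?_,
    fun x => (hm x).2, le_antisymm ?_ ?_⟩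
  · simp only [mem_image, mem_univ, true_and]
    constructor
    · rintro ⟨i, rfl⟩
      rfl
    · rintro rfl
      exact ⟨x.2, rfl⟩
  · exact Submodule.span_le.2 (by rintro _ ⟨x, rfl⟩; exact (hm x).1)
  · refine h.span.trans (iSup_le fun m => ?_)
    rw [← hs m]
    exact Submodule.span_mono (by rintro _ ⟨i, rfl⟩; exact ⟨_, rfl⟩)

theorem prod0_inf {ι : Type} {s : End ℂ W} {b : ι → W} {deg : ι → ℕ} {F : ℕ → Finset ι}
    (hF : ∀ i m, i ∈ F m ↔ deg i = m) (hb : ∀ i, b i ∈ Eg s (deg i)) (m : ℕ) :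
    Submodule.span ℂ (Set.range b) ⊓ Eg s m = Submodule.span ℂ (b '' F m) := by
  have h1 : Submodule.span ℂ (b '' F m) ≤ Eg s m := Submodule.span_le.2 (by
    rintro _ ⟨i, hi, rfl⟩
    rw [← (hF i m).1 hi]
    exact hb i)
  refine le_antisymm ?_ (le_inf (Submodule.span_mono (Set.image_subset_range _ _)) h1)
  have h2 : Submodule.span ℂ (Set.range b) ≤
      Submodule.span ℂ (b '' F m) ⊔ ⨆ (j : ℕ) (_ : j ≠ m), Eg s j := Submodule.span_le.2 (by
    rintro _ ⟨i, rfl⟩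
    by_cases hi : deg i = m
    · exact Submodule.mem_sup_left (Submodule.subset_span ⟨i, (hF i m).2 hi, rfl⟩)
    · exact Submodule.mem_sup_right (Submodule.mem_iSup_of_mem (deg i)
        (Submodule.mem_iSup_of_mem hi (hb i))))
  refine (inf_le_inf_right _ h2).trans ?_
  rw [sup_inf_assoc_of_le _ h1, (prod0_indep s m).symm.eq_bot, sup_bot_eq]

theorem prod0_tr {ι : Type} {b : ι → W} (hb : LinearIndependent ℂ b) (S : Finset ι) {T : End ℂ W}
    (A : ι → ι → ℂ) (h : ∀ i ∈ S, T (b i) = ∑ j ∈ S, A j i • b j) :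
    trOn (Submodule.span ℂ (b '' S)) T = ∑ i ∈ S, A i i := by
  have h1 := trOn_basis (b := fun i : S => b i) (hb.comp _ Subtype.val_injective) (T := T)
    (fun j i => A j i) fun i => by rw [h i i.2, sum_coe_sort S fun j => A j i • b j]
  rw [sum_coe_sort S fun i => A i i] at h1
  rw [← h1, Set.image_eq_range]
  rfl

theorem prod0_mat {ι : Type} {s T : End ℂ W} {b : ι → W} {deg : ι → ℕ} {F : ℕ → Finset ι}
    (hF : ∀ i m, i ∈ F m ↔ deg i = m) (hb : ∀ i, b i ∈ Eg s (deg i))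
    (h : ∀ w ∈ Submodule.span ℂ (Set.range b), T w ∈ Submodule.span ℂ (Set.range b))
    (hc : ∀ w ∈ Submodule.span ℂ (Set.range b), T (s w) = s (T w)) :
    ∃ A : ι → ι → ℂ, (∀ j i, deg j ≠ deg i → A j i = 0) ∧
      ∀ i, T (b i) = ∑ j ∈ F (deg i), A j i • b j := by
  have h1 : ∀ i, ∃ c : ι → ℂ, ∑ j ∈ F (deg i), c j • b j = T (b i) := fun i => by
    rw [← Submodule.mem_span_image_finset_iff_exists_fun', ← prod0_inf hF hb]
    exact mapsTo_inf h hc _ _ ⟨Submodule.subset_span ⟨i, rfl⟩, hb i⟩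
  choose c hc' using h1
  refine ⟨fun j i => if deg j = deg i then c i j else 0, fun j i hij => if_neg hij, fun i => ?_⟩
  rw [← hc' i]
  exact sum_congr rfl fun j hj => by simp only [if_pos ((hF j _).1 hj)]

theorem prod0_span {ι ι' : Type} (β : W →ₗ[ℂ] W' →ₗ[ℂ] W'') (b : ι → W) (b' : ι' → W') :
    Submodule.map₂ β (Submodule.span ℂ (Set.range b)) (Submodule.span ℂ (Set.range b')) =
      Submodule.span ℂ (Set.range fun x : ι × ι' => β (b x.1) (b' x.2)) := by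
  rw [Submodule.map₂_span_span]
  congr 1
  ext w
  constructor
  · rintro ⟨_, ⟨i, rfl⟩, _, ⟨j, rfl⟩, rfl⟩
    exact ⟨(i, j), rfl⟩
  · rintro ⟨x, rfl⟩
    exact ⟨_, ⟨x.1, rfl⟩, _, ⟨x.2, rfl⟩, rfl⟩

theorem prod0_Eg {ι ι' : Type} {s : End ℂ W} {s' : End ℂ W'} {s'' : End ℂ W''}
    {β : W →ₗ[ℂ] W' →ₗ[ℂ] W''} {b : ι → W} {b' : ι' → W'} {deg : ι → ℕ} {deg' : ι' → ℕ}
    (hb : ∀ i, b i ∈ Eg s (deg i)) (hb' : ∀ i, b' i ∈ Eg s' (deg' i))
    (hs : ∀ a ∈ Submodule.span ℂ (Set.range b), ∀ c ∈ Submodule.span ℂ (Set.range b'),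
      s'' (β a c) = β (s a) (s' c)) (x : ι × ι') :
    β (b x.1) (b' x.2) ∈ Eg s'' ((deg x.1 + deg' x.2 : ℕ) : ℤ) := by
  rw [mem_Eg, hs _ (Submodule.subset_span ⟨x.1, rfl⟩) _ (Submodule.subset_span ⟨x.2, rfl⟩),
    mem_Eg.1 (hb x.1), mem_Eg.1 (hb' x.2)]
  simp only [map_smul, LinearMap.smul_apply, smul_smul, zpow_natCast, pow_add, mul_comm]

theorem prod0_fib {ι ι' : Type} {deg : ι → ℕ} {deg' : ι' → ℕ} {F : ℕ → Finset ι}
    {F' : ℕ → Finset ι'} (hF : ∀ i m, i ∈ F m ↔ deg i = m) (hF' : ∀ i m, i ∈ F' m ↔ deg' i = m) :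
    ∃ S : ℕ → Finset (ι × ι'), (∀ x m, x ∈ S m ↔ deg x.1 + deg' x.2 = m) ∧
      ∀ (m : ℕ) (g : ι × ι' → ℂ), ∑ x ∈ S m, g x =
        ∑ u ∈ antidiagonal m, ∑ i ∈ F u.1, ∑ j ∈ F' u.2, g (i, j) := by
  classical
  refine ⟨fun m => (antidiagonal m).biUnion fun u => F u.1 ×ˢ F' u.2, fun x m => ?_,
    fun m g => ?_⟩
  · simp only [mem_biUnion, HasAntidiagonal.mem_antidiagonal, mem_product, hF, hF']
    constructor
    · rintro ⟨u, hu, h1, h2⟩
      omega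
    · intro hx
      exact ⟨(deg x.1, deg' x.2), hx, rfl, rfl⟩
  · rw [sum_biUnion]
    · exact sum_congr rfl fun u _ => sum_product _ _ _
    · intro u _ v _ huv
      refine disjoint_left.2 fun x h1 h2 => huv ?_
      simp only [mem_product, hF, hF'] at h1 h2
      exact Prod.ext (h1.1.symm.trans h2.1) (h1.2.symm.trans h2.2)

theorem prod0_sum {ι ι' : Type} (β : W →ₗ[ℂ] W' →ₗ[ℂ] W'') (b : ι → W) (b' : ι' → W')
    {U : Finset ι} {U' : Finset ι'} {S : Finset (ι × ι')} {c : ι → ℂ} {c' : ι' → ℂ}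
    (hS : U ×ˢ U' ⊆ S) (h : ∀ i ∉ U, c i = 0) (h' : ∀ i ∉ U', c' i = 0) :
    β (∑ j ∈ U, c j • b j) (∑ j ∈ U', c' j • b' j) =
      ∑ x ∈ S, (c x.1 * c' x.2) • β (b x.1) (b' x.2) := by
  rw [← sum_subset hS fun x _ hx => ?_, sum_product]
  · simp only [map_sum, LinearMap.sum_apply, map_smul, LinearMap.smul_apply, smul_sum, smul_smul]
    rw [sum_comm]
    exact sum_congr rfl fun i _ => sum_congr rfl fun j _ => by rw [mul_comm]
  · rw [mem_product, not_and_or] at hx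
    rcases hx with hx | hx
    · rw [h _ hx, zero_mul, zero_smul]
    · rw [h' _ hx, mul_zero, zero_smul]

theorem Grd.map₂ {s : End ℂ W} {s' : End ℂ W'} {s'' : End ℂ W''} {p : Submodule ℂ W}
    {q : Submodule ℂ W'} (β : W →ₗ[ℂ] W' →ₗ[ℂ] W'') (hp : Grd s p) (hq : Grd s' q)
    (hs : ∀ a ∈ p, ∀ b ∈ q, s'' (β a b) = β (s a) (s' b)) :
    Grd s'' (Submodule.map₂ β p q) := by
  obtain ⟨ι, b, deg, F, -, hF, hb, rfl⟩ := prod0_basis hp
  obtain ⟨ι', b', deg', F', -, hF', hb', rfl⟩ := prod0_basis hq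
  obtain ⟨S, hS, -⟩ := prod0_fib hF hF'
  rw [prod0_span]
  refine Grd.of_span _ (fun x => deg x.1 + deg' x.2) (prod0_Eg hb hb' hs) fun m => ?_
  exact (S m).finite_toSet.subset fun x hx => (hS x m).2 hx

theorem chi_prod {s T : End ℂ W} {s' T' : End ℂ W'} {s'' T'' : End ℂ W''} {p : Submodule ℂ W}
    {q : Submodule ℂ W'} {β : W →ₗ[ℂ] W' →ₗ[ℂ] W''} (hβ : TensInj β) (hp : Grd s p) (hq : Grd s' q)
    (hs : ∀ a ∈ p, ∀ b ∈ q, s'' (β a b) = β (s a) (s' b))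
    (h : ∀ w ∈ p, T w ∈ p) (hc : ∀ w ∈ p, T (s w) = s (T w))
    (h' : ∀ w ∈ q, T' w ∈ q) (hc' : ∀ w ∈ q, T' (s' w) = s' (T' w))
    (hT : ∀ a ∈ p, ∀ b ∈ q, T'' (β a b) = β (T a) (T' b)) :
    chi s'' (Submodule.map₂ β p q) T'' = chi s p T * chi s' q T' := by
  obtain ⟨ι, b, deg, F, hl, hF, hb, rfl⟩ := prod0_basis hp
  obtain ⟨ι', b', deg', F', hl', hF', hb', rfl⟩ := prod0_basis hq
  obtain ⟨S, hS, hsum⟩ := prod0_fib hF hF'
  obtain ⟨A, hA0, hA⟩ := prod0_mat hF hb h hc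
  obtain ⟨A', hA0', hA'⟩ := prod0_mat hF' hb' h' hc'
  ext m
  rw [prod0_span, coeff_mul]
  simp only [chi, coeff_mk]
  rw [prod0_inf hS (prod0_Eg hb hb' hs), prod0_tr (hβ _ _ _ _ hl hl') (S m)
    (fun y x => A y.1 x.1 * A' y.2 x.2) fun x hx => ?_, hsum]
  · refine sum_congr rfl fun u _ => ?_
    rw [prod0_inf hF hb, prod0_inf hF' hb',
      prod0_tr hl _ A fun i hi => by rw [hA i, (hF i _).1 hi],
      prod0_tr hl' _ A' fun i hi => by rw [hA' i, (hF' i _).1 hi], sum_mul_sum]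
  · rw [hT _ (Submodule.subset_span ⟨x.1, rfl⟩) _ (Submodule.subset_span ⟨x.2, rfl⟩), hA, hA']
    refine prod0_sum β b b' (fun y hy => ?_) (fun i hi => hA0 _ _ fun e => hi ((hF _ _).2 e))
      fun i hi => hA0' _ _ fun e => hi ((hF' _ _).2 e)
    rw [mem_product, hF, hF'] at hy
    rw [hS, hy.1, hy.2, ← hS]
    exact hx

/-- the substitution `X ↦ X ^ 2` -/
def ex2 (f : ℂ⟦X⟧) : ℂ⟦X⟧ := PowerSeries.mk fun m => if 2 ∣ m then coeff (m / 2) f else 0

theorem prod0_ex2 (f : ℂ⟦X⟧) : ex2 f = PowerSeries.expand 2 two_ne_zero f := by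
  ext m
  rw [ex2, coeff_mk, PowerSeries.coeff_expand]

theorem ex2_mul (f g : ℂ⟦X⟧) : ex2 (f * g) = ex2 f * ex2 g := by
  simp only [prod0_ex2, map_mul]
theorem ex2_add (f g : ℂ⟦X⟧) : ex2 (f + g) = ex2 f + ex2 g := by
  simp only [prod0_ex2, map_add]
theorem ex2_coe (p : Polynomial ℂ) : ex2 p = (Polynomial.expand ℂ 2 p : Polynomial ℂ) := by
  ext m
  rw [ex2, coeff_mk, Polynomial.coeff_coe, Polynomial.coeff_coe, Polynomial.coeff_expand two_pos]

theorem chi_swap {s T : End ℂ W} {s'' T'' : End ℂ W''} {p : Submodule ℂ W}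
    {β : W →ₗ[ℂ] W →ₗ[ℂ] W''} (hβ : TensInj β) (hp : Grd s p)
    (hs : ∀ a ∈ p, ∀ b ∈ p, s'' (β a b) = β (s a) (s b))
    (h : ∀ w ∈ p, T w ∈ p) (hc : ∀ w ∈ p, T (s w) = s (T w))
    (hT : ∀ a ∈ p, ∀ b ∈ p, T'' (β a b) = β (T b) (T a)) :
    chi s'' (Submodule.map₂ β p p) T'' = ex2 (chi s p (T * T)) := by
  obtain ⟨ι, b, deg, F, hl, hF, hb, rfl⟩ := prod0_basis hp
  obtain ⟨S, hS, hsum⟩ := prod0_fib hF hF
  obtain ⟨A, hA0, hA⟩ := prod0_mat hF hb h hc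
  ext m
  rw [prod0_span]
  simp only [chi, ex2, coeff_mk]
  have h0 : ∀ u : ℕ × ℕ, u.1 ≠ u.2 → ∑ i ∈ F u.1, ∑ j ∈ F u.2, A i j * A j i = 0 :=
    fun u hu => sum_eq_zero fun i hi => sum_eq_zero fun j hj => by
      rw [hA0 i j (by rw [(hF _ _).1 hi, (hF _ _).1 hj]; exact hu), zero_mul]
  rw [prod0_inf hS (prod0_Eg hb hb hs), prod0_tr (hβ _ _ _ _ hl hl) (S m)
    (fun y x => A y.1 x.2 * A y.2 x.1) fun x hx => ?_, hsum]
  · split_ifs with hm
    · obtain ⟨n, rfl⟩ := hm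
      rw [Nat.mul_div_cancel_left n two_pos, prod0_inf hF hb,
        prod0_tr hl _ (fun k i => ∑ j ∈ F n, A k j * A j i) fun i hi => ?_,
        sum_eq_single (n, n) (fun u hu hn => h0 u fun e => hn ?_) fun hn => (hn ?_).elim]
      · rw [HasAntidiagonal.mem_antidiagonal] at hu
        exact Prod.ext (by omega) (by omega)
      · rw [HasAntidiagonal.mem_antidiagonal, two_mul]
      · rw [End.mul_apply, hA i, (hF i _).1 hi, map_sum]
        simp only [sum_smul]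
        rw [sum_comm]
        refine sum_congr rfl fun j hj => ?_
        rw [map_smul, hA j, (hF j _).1 hj, smul_sum]
        exact sum_congr rfl fun k _ => by rw [smul_smul, mul_comm]
    · refine sum_eq_zero fun u hu => h0 u fun e => hm ⟨u.1, ?_⟩
      rw [HasAntidiagonal.mem_antidiagonal] at hu
      omega
  · rw [hT _ (Submodule.subset_span ⟨x.1, rfl⟩) _ (Submodule.subset_span ⟨x.2, rfl⟩), hA, hA]
    refine prod0_sum β b b (fun y hy => ?_) (fun i hi => hA0 _ _ fun e => hi ((hF _ _).2 e))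
      fun i hi => hA0 _ _ fun e => hi ((hF _ _).2 e)
    rw [mem_product, hF, hF] at hy
    rw [hS, hy.1, hy.2, add_comm, ← hS]
    exact hx

end Pool.Agent.HCF
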