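import Pool.Agent.P.MP_f644fa_ag.LS0

/-! Definitions for the arithmetic of the Chern roots. -/

noncomputable section
namespace Pool.Agent.HCF
open Finset PowerSeries

/-- integer polynomials in `t = e ^ w` -/
def Ez : Polynomial ℤ →+* ℂ⟦X⟧ :=
  (Ex : Polynomial ℂ →ₐ[ℂ] ℂ⟦X⟧).toRingHom.comp (Polynomial.mapRingHom (Int.castRingHom ℂ))

theorem Ez_apply (G : Polynomial ℤ) : Ez G = Ex (G.map (Int.castRingHom ℂ)) := rfl

theorem Ez_X_pow (k : ℕ) : Ez (Polynomial.X ^ k) = ex k := by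
  rw [Ez_apply, Polynomial.map_pow, Polynomial.map_X, Ex_X_pow]

theorem Ez_X : Ez Polynomial.X = ex 1 := by
  simpa using Ez_X_pow 1

theorem Ez_C (a : ℤ) : Ez (Polynomial.C a) = C (a : ℂ) := by
  rw [Ez_apply, Polynomial.map_C, ls0_Ex_C]
  rfl

theorem constantCoeff_Ez (G : Polynomial ℤ) : constantCoeff (Ez G) = ((G.eval 1 : ℤ) : ℂ) := by
  rw [Ez_apply, constantCoeff_Ex, Polynomial.eval_one_map]
  rfl

/-- `z` is an integer -/
def IsInt (z : ℂ) : Prop := ∃ a : ℤ, z = a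

/-- `r` is an integer polynomial in `t` up to order `K` -/
def IntTo (K : ℕ) (r : ℂ⟦X⟧) : Prop := ∃ G : Polynomial ℤ, (X : ℂ⟦X⟧) ^ K ∣ r - Ez G

/-- the binomial coefficient with a complex argument -/
def bin (z : ℂ) (m : ℕ) : ℂ := (∏ j ∈ range m, (z - j)) / m.factorial

/-- the series of `(e ^ (a w) - 1) / (a w)` -/
def ph (a : ℂ) : ℂ⟦X⟧ := PowerSeries.mk fun k => a ^ k / (k + 1).factorial

/-- `f` is dominated by the series of `e ^ (T w)` -/
def Mj (f : ℂ⟦X⟧) (T : ℝ) : Prop := ∀ k, ‖coeff k f‖ ≤ T ^ k / k.factorial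

/-- the value of a series -/
def evs (w : ℂ) (f : ℂ⟦X⟧) : ℂ := ∑' k, coeff k f * w ^ k

/-- the sum of the absolute values of the coefficients of `f` is at most `B` -/
def Bd (f : Polynomial ℤ) (B : ℤ) : Prop :=
  ∃ F : Polynomial ℤ, (∀ i, |f.coeff i| ≤ F.coeff i) ∧ F.eval 1 ≤ B

/-- the operator `t d / dt` -/
def th (f : Polynomial ℤ) : Polynomial ℤ := Polynomial.X * Polynomial.derivative f

/-- the relation between the Hilbert numerator and the roots -/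
structure Ari (c n : ℕ) (d : Fin c → ℂ) (h : Polynomial ℤ) : Prop where
  nn : ∀ i, 0 ≤ h.coeff i
  ne : h ≠ 0
  deg : h.natDegree ≤ n
  rel : (X : ℂ⟦X⟧) ^ (n + 1 - c) ∣ Ez h * (1 - ex 1) ^ c - ∏ i, (1 - ex (d i))

/-- the roots lie near the segment `[0, n]` -/
structure Loc {c : ℕ} (n η : ℕ) (d : Fin c → ℂ) : Prop where
  pos : ∑ i, max (d i).re 0 ≤ (n : ℝ) + η
  neg : ∑ i, max (-(d i).re) 0 ≤ (η : ℝ)
  im : ∑ i, |(d i).im| ≤ 2 * (η : ℝ)

/-- a ring of classes with integer numerators -/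
structure Rng (L : ℕ) (h : Polynomial ℤ) (R : Subring ℂ⟦X⟧) : Prop where
  one : ex 1 ∈ R
  int : ∀ r ∈ R, IntTo L (r * Ez h)

/-- integrality of the binomial coefficients of each root, with a small denominator -/
def Win {c : ℕ} (d : Fin c → ℂ) (m : ℕ) (B : ℝ) : Prop :=
  ∀ i₀, ∃ Λ : Polynomial ℤ, Polynomial.aeval (d i₀) Λ ≠ 0 ∧
    (∀ i, ‖Polynomial.aeval (d i) Λ‖ ≤ B) ∧
      ∀ a : ℤ, IsIntegral ℤ (Polynomial.aeval (d i₀) Λ * bin (d i₀ + a) m)

/-- a pair of conjugate quadratic roots, the first one large -/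
structure Pr {c : ℕ} (d : Fin c → ℂ) (b : ℝ) (i₀ i₁ : Fin c) : Prop where
  big : b < (d i₀).re
  ne : d i₀ ≠ d i₁
  n0 : ¬ IsInt (d i₀)
  n1 : ¬ IsInt (d i₁)
  add : IsInt (d i₀ + d i₁)
  mul : IsInt (d i₀ * d i₁)

theorem IsInt.add {a b : ℂ} (ha : IsInt a) (hb : IsInt b) : IsInt (a + b) := by
  obtain ⟨x, rfl⟩ := ha
  obtain ⟨y, rfl⟩ := hb
  exact ⟨x + y, by push_cast; rfl⟩

theorem IsInt.mul {a b : ℂ} (ha : IsInt a) (hb : IsInt b) : IsInt (a * b) := by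
  obtain ⟨x, rfl⟩ := ha
  obtain ⟨y, rfl⟩ := hb
  exact ⟨x * y, by push_cast; rfl⟩

theorem IsInt.neg {a : ℂ} (ha : IsInt a) : IsInt (-a) := by
  obtain ⟨x, rfl⟩ := ha
  exact ⟨-x, by push_cast; rfl⟩

theorem IsInt.sub {a b : ℂ} (ha : IsInt a) (hb : IsInt b) : IsInt (a - b) := by
  rw [sub_eq_add_neg]
  exact ha.add hb.neg

theorem isInt_int (a : ℤ) : IsInt a := ⟨a, rfl⟩

theorem isInt_nat (a : ℕ) : IsInt a := ⟨a, by simp⟩

theorem IsInt.sum {ι : Type} (s : Finset ι) {f : ι → ℂ} (h : ∀ i ∈ s, IsInt (f i)) :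
    IsInt (∑ i ∈ s, f i) :=
  Finset.sum_induction f IsInt (fun _ _ => IsInt.add) ⟨0, by simp⟩ h

theorem IsInt.isIntegral {a : ℂ} (ha : IsInt a) : IsIntegral ℤ a := by
  obtain ⟨x, rfl⟩ := ha
  exact isIntegral_algebraMap (R := ℤ) (x := x)

theorem Ari.pos {c n : ℕ} {d : Fin c → ℂ} {h : Polynomial ℤ} (A : Ari c n d h) :
    0 < h.eval 1 := by
  rw [Polynomial.eval_eq_sum_range]
  simp only [one_pow, mul_one]
  exact sum_pos' (fun i _ => A.nn i) ⟨h.natDegree, self_mem_range_succ _,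
    lt_of_le_of_ne (A.nn _) (Polynomial.leadingCoeff_ne_zero.2 A.ne).symm⟩

theorem Loc.norm_le {c n η : ℕ} {d : Fin c → ℂ} (h : Loc n η d) :
    ∑ i, ‖d i‖ ≤ (n : ℝ) + 4 * η := by
  have h1 : ∑ i, ‖d i‖ ≤ ∑ i, (max (d i).re 0 + max (-(d i).re) 0 + |(d i).im|) :=
    sum_le_sum fun i _ => (Complex.norm_le_abs_re_add_abs_im _).trans (by
      gcongr
      rcases le_total 0 (d i).re with k | k
      · rw [abs_of_nonneg k]
        linarith [le_max_left (d i).re 0, le_max_right (-(d i).re) 0]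
      · rw [abs_of_nonpos k]
        linarith [le_max_right (d i).re 0, le_max_left (-(d i).re) 0])
  rw [sum_add_distrib, sum_add_distrib] at h1
  linarith [h.pos, h.neg, h.im]

end Pool.Agent.HCF
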