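import Pool.Agent.P.MP_f644fa_ag.QA9

/-! A second order equation excludes the quadratic pair. -/

noncomputable section
namespace Pool.Agent.HCF
open Finset Polynomial

/-- the determinant that eliminates `y` and `y'` -/
def odeT (P Y : ℤ[X]) (A ν : ℤ) : ℤ[X] :=
  P ^ 2 * th (th Y) - P * (2 * th P + C A * P) * th Y +
    (2 * th P ^ 2 + C A * P * th P - P * th (th P) + C ν * P ^ 2) * Y

theorem qa10_mul (a b : PowerSeries ℂ) : PowerSeries.derivative ℂ (a * b) =
    a * PowerSeries.derivative ℂ b + b * PowerSeries.derivative ℂ a := by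
  rw [Derivation.leibniz, smul_eq_mul, smul_eq_mul]

theorem qa10_ex (a : ℂ) : PowerSeries.derivative ℂ (ex a) = PowerSeries.C a * ex a := by
  ext k
  rw [PowerSeries.coeff_derivative, PowerSeries.coeff_C_mul, coeff_ex, coeff_ex, Nat.factorial_succ]
  have h1 : ((k.factorial : ℕ) : ℂ) ≠ 0 := by exact_mod_cast k.factorial_ne_zero
  have h2 : (k : ℂ) + 1 ≠ 0 := by exact_mod_cast k.succ_ne_zero
  push_cast
  field_simp
  ring

theorem qa10_th_add (f g : ℤ[X]) : th (f + g) = th f + th g := by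
  rw [th, th, th, derivative_add, mul_add]

theorem qa10_Ez (f : ℤ[X]) : PowerSeries.derivative ℂ (Ez f) = Ez (th f) := by
  induction f using Polynomial.induction_on' with
  | add p q hp hq => rw [map_add, map_add, hp, hq, qa10_th_add, map_add]
  | monomial n a =>
    have h : th (monomial n a) = C (a * n) * X ^ n := by
      ext i
      rw [coeff_th, coeff_C_mul, coeff_X_pow, coeff_monomial]
      by_cases e : n = i
      · subst e; rw [if_pos rfl, if_pos rfl]; ring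
      · rw [if_neg e, if_neg (Ne.symm e)]; ring
    rw [h, ← C_mul_X_pow_eq_monomial, map_mul Ez, map_mul Ez, Ez_C, Ez_C, Ez_X_pow, qa10_mul,
      qa10_ex, PowerSeries.derivative_C]
    push_cast
    rw [map_mul]
    ring

theorem qa10_dvd {k : ℕ} {u : PowerSeries ℂ} (h : (PowerSeries.X : PowerSeries ℂ) ^ (k + 1) ∣ u) :
    (PowerSeries.X : PowerSeries ℂ) ^ k ∣ PowerSeries.derivative ℂ u := by
  rw [PowerSeries.X_pow_dvd_iff] at h ⊢
  intro m hm
  rw [PowerSeries.coeff_derivative, h (m + 1) (by omega), zero_mul]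

theorem qa10_coeff {j : ℕ} {u : ℤ[X]} (h : ∀ d < j, u.coeff d = 0) (v : ℤ[X]) :
    (v * u).coeff j = v.coeff 0 * u.coeff j := by
  obtain ⟨w, rfl⟩ := X_pow_dvd_iff.2 h
  have h1 : ∀ q : ℤ[X], (X ^ j * q).coeff j = q.coeff 0 := fun q => by
    simpa using coeff_X_pow_mul q j 0
  rw [mul_left_comm, h1, h1, mul_coeff_zero]

theorem odeT_order {P Y : ℤ[X]} {A ν : ℤ} {z z' : ℂ} (hA : z + z' = A) (hν : z * z' = ν) {k : ℕ}
    (h : (PowerSeries.X : PowerSeries ℂ) ^ (k + 2) ∣ Ez Y - Ez P * (ex z + ex z')) :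
    (PowerSeries.X : PowerSeries ℂ) ^ k ∣ Ez (odeT P Y A ν) := by
  obtain ⟨e, he⟩ : ∃ e, e = Ez Y - Ez P * (ex z + ex z') := ⟨_, rfl⟩
  rw [← he] at h
  have h1 := qa10_dvd h
  have h2 := qa10_dvd h1
  have h0' : (PowerSeries.X : PowerSeries ℂ) ^ k ∣ e := (pow_dvd_pow _ (by omega)).trans h
  have h1' : (PowerSeries.X : PowerSeries ℂ) ^ k ∣ PowerSeries.derivative ℂ e :=
    (pow_dvd_pow _ (by omega)).trans h1
  have y0 : Ez Y = Ez P * (ex z + ex z') + e := by rw [he]; ring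
  have y1 : Ez (th Y) = Ez P * (PowerSeries.C z * ex z + PowerSeries.C z' * ex z') +
      (ex z + ex z') * Ez (th P) + PowerSeries.derivative ℂ e := by
    rw [← qa10_Ez, y0, map_add, qa10_mul, map_add, qa10_ex, qa10_ex, qa10_Ez]
  have y2 : Ez (th (th Y)) =
      Ez P * (PowerSeries.C z * (PowerSeries.C z * ex z) +
        PowerSeries.C z' * (PowerSeries.C z' * ex z')) +
      2 * (PowerSeries.C z * ex z + PowerSeries.C z' * ex z') * Ez (th P) +
      (ex z + ex z') * Ez (th (th P)) +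
      PowerSeries.derivative ℂ (PowerSeries.derivative ℂ e) := by
    rw [← qa10_Ez, y1]
    simp only [map_add, qa10_mul, qa10_ex, qa10_Ez, PowerSeries.derivative_C]
    ring
  have key : Ez (odeT P Y A ν) =
      Ez P ^ 2 * PowerSeries.derivative ℂ (PowerSeries.derivative ℂ e) -
      Ez P * (2 * Ez (th P) + Ez (C A) * Ez P) * PowerSeries.derivative ℂ e +
      (2 * Ez (th P) ^ 2 + Ez (C A) * Ez P * Ez (th P) - Ez P * Ez (th (th P)) +
        Ez (C ν) * Ez P ^ 2) * e := by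
    rw [odeT]
    simp only [map_add, map_sub, map_mul, map_pow, map_ofNat]
    rw [y2, y1, y0, Ez_C, Ez_C, ← hA, ← hν, map_add, map_mul]
    ring
  rw [key]
  exact dvd_add (dvd_sub (h2.mul_left _) (h1'.mul_left _)) (h0'.mul_left _)

theorem odeT_ne {P Y : ℤ[X]} {A ν : ℤ} {z z' : ℂ} (hA : z + z' = A) (hν : z * z' = ν)
    (hz : ¬ IsInt z) (hz' : ¬ IsInt z') (hP : P.coeff 0 = 1) (hY : Y ≠ 0) : odeT P Y A ν ≠ 0 := by
  intro h0
  obtain ⟨j, hj⟩ : ∃ j, j = Y.natTrailingDegree := ⟨_, rfl⟩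
  have ha : Y.coeff j ≠ 0 := by
    rw [hj]; exact mt trailingCoeff_eq_zero.1 hY
  have d0 : ∀ d < j, Y.coeff d = 0 := fun d hd =>
    coeff_eq_zero_of_lt_natTrailingDegree (hj ▸ hd)
  have d1 : ∀ d < j, (th Y).coeff d = 0 := fun d hd => by rw [coeff_th, d0 d hd, mul_zero]
  have d2 : ∀ d < j, (th (th Y)).coeff d = 0 := fun d hd => by rw [coeff_th, d1 d hd, mul_zero]
  have t0 : ∀ f : ℤ[X], (th f).coeff 0 = 0 := fun f => by rw [coeff_th]; simp
  have hc := congrArg (fun f : ℤ[X] => f.coeff j) h0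
  simp only [odeT, coeff_add, coeff_sub, qa10_coeff d0, qa10_coeff d1, qa10_coeff d2, sq,
    mul_coeff_zero, t0, hP, coeff_C_zero, coeff_zero] at hc
  rw [coeff_th, coeff_th] at hc
  have h1 : Y.coeff j * ((j : ℤ) * j - A * j + ν) = 0 := by linear_combination hc
  have h2 : (((j : ℤ) * j - A * j + ν : ℤ) : ℂ) = 0 := by
    rw [(mul_eq_zero.1 h1).resolve_left ha, Int.cast_zero]
  push_cast at h2
  have h3 : ((j : ℂ) - z) * ((j : ℂ) - z') = 0 := by
    rw [← hA, ← hν] at h2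
    linear_combination h2
  rcases mul_eq_zero.1 h3 with h4 | h4
  · exact hz ((sub_eq_zero.1 h4) ▸ isInt_nat j)
  · exact hz' ((sub_eq_zero.1 h4) ▸ isInt_nat j)

theorem odeT_deg {P Y : ℤ[X]} (A ν : ℤ) :
    (odeT P Y A ν).natDegree ≤ Y.natDegree + 2 * P.natDegree := by
  have p1 := natDegree_th P
  have p2 := (natDegree_th (th P)).trans p1
  have q1 := natDegree_th Y
  have q2 := (natDegree_th (th Y)).trans q1
  have hm : ∀ {f g : ℤ[X]} {a b : ℕ}, f.natDegree ≤ a → g.natDegree ≤ b →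
      (f * g).natDegree ≤ a + b := fun h h' => natDegree_mul_le_of_le h h'
  have ha : ∀ {f g : ℤ[X]} {a : ℕ}, f.natDegree ≤ a → g.natDegree ≤ a →
      (f + g).natDegree ≤ a := fun h h' => (natDegree_add_le _ _).trans (max_le h h')
  have hs : ∀ {f g : ℤ[X]} {a : ℕ}, f.natDegree ≤ a → g.natDegree ≤ a →
      (f - g).natDegree ≤ a := fun h h' => (natDegree_sub_le _ _).trans (max_le h h')
  have c2 : (2 : ℤ[X]).natDegree ≤ 0 := (natDegree_C 2).le
  have cA : (C A).natDegree ≤ 0 := (natDegree_C A).le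
  have cν : (C ν).natDegree ≤ 0 := (natDegree_C ν).le
  have p0 := le_refl P.natDegree
  rw [odeT, sq, sq]
  refine ha (hs ((hm (hm p0 p0) q2).trans (by omega))
    ((hm (hm p0 (ha (hm c2 p1) (hm cA p0))) q1).trans (by omega))) ?_
  refine (hm (a := 2 * P.natDegree) (ha (hs (ha ?_ ?_) ?_) ?_) (le_refl Y.natDegree)).trans
    (by omega)
  · exact (hm c2 (hm p1 p1)).trans (by omega)
  · exact (hm (hm cA p0) p1).trans (by omega)
  · exact (hm p0 p2).trans (by omega)
  · exact (hm cν (hm p0 p0)).trans (by omega)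

theorem odeT_bd {P Y : ℤ[X]} {A ν B B' : ℤ} {N : ℕ} (hP : Bd P B) (hY : Bd Y B')
    (dP : P.natDegree ≤ N) (dY : Y.natDegree ≤ N) (hA : |A| ≤ N) (hν : |ν| ≤ (N : ℤ) ^ 2) :
    Bd (odeT P Y A ν) (9 * (N : ℤ) ^ 2 * B ^ 2 * B') := by
  have p1 := hP.th dP
  have p2 := p1.th ((natDegree_th P).trans dP)
  have q1 := hY.th dY
  have q2 := q1.th ((natDegree_th Y).trans dY)
  have c2 : Bd (2 : ℤ[X]) 2 := bd_C 2
  have cA : Bd (C A) N := (bd_C A).mono hA
  have cν : Bd (C ν) ((N : ℤ) ^ 2) := (bd_C ν).mono hν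
  rw [odeT, sq P, sq (th P)]
  refine ((((hP.mul hP).mul q2).sub ((hP.mul ((c2.mul p1).add (cA.mul hP))).mul q1)).add
    (((((c2.mul (p1.mul p1)).add ((cA.mul hP).mul p1)).sub (hP.mul p2)).add
      (cν.mul (hP.mul hP))).mul hY)).mono (le_of_eq ?_)
  ring

theorem prod_int {ι : Type} (s : Finset ι) (z : ι → ℤ) : ∃ ε : ℤ, (ε = 1 ∨ ε = -1) ∧
    ex ((∑ i ∈ s, (-z i).toNat : ℕ) : ℂ) * ∏ i ∈ s, (1 - ex (z i)) =
      Ez (C ε * ∏ i ∈ s, (1 - X ^ (z i).natAbs)) := by
  classical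
  have one : ∀ a : ℤ, ∃ δ : ℤ, (δ = 1 ∨ δ = -1) ∧
      ex (((-a).toNat : ℕ) : ℂ) * (1 - ex a) = Ez (C δ * (1 - X ^ a.natAbs)) := by
    intro a
    obtain ⟨n, rfl | rfl⟩ := a.eq_nat_or_neg
    · refine ⟨1, Or.inl rfl, ?_⟩
      have : (-(n : ℤ)).toNat = 0 := by omega
      rw [this, Nat.cast_zero, ex_zero, map_one, one_mul, one_mul, map_sub, map_one, Ez_X_pow,
        Int.natAbs_natCast, Int.cast_natCast]
    · refine ⟨-1, Or.inr rfl, ?_⟩
      rw [neg_neg, Int.toNat_natCast, Int.natAbs_neg, Int.natAbs_natCast, map_mul, map_sub, map_one,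
        Ez_X_pow, map_neg, map_neg, map_one, map_one, mul_sub, ← ex_add, Int.cast_neg,
        Int.cast_natCast, add_neg_cancel, ex_zero]
      ring
  induction s using Finset.induction_on with
  | empty => exact ⟨1, Or.inl rfl, by simp [ex_zero]⟩
  | insert i s hi ih =>
    obtain ⟨ε, hε, h⟩ := ih
    obtain ⟨δ, hδ, h'⟩ := one (z i)
    refine ⟨δ * ε, ?_, ?_⟩
    · rcases hε with rfl | rfl <;> rcases hδ with rfl | rfl <;> simp
    · rw [sum_insert hi, prod_insert hi, prod_insert hi, Nat.cast_add, ex_add, mul_mul_mul_comm, h,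
        h', ← map_mul, map_mul C, mul_mul_mul_comm]

end Pool.Agent.HCF
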