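import Pool.Agent.P.MP_f644fa_ag.QA0

/-! Values of dominated series. -/

noncomputable section
namespace Pool.Agent.HCF
open Finset PowerSeries

theorem Mj.mul {f g : ℂ⟦X⟧} {T T' : ℝ} (hf : Mj f T) (hg : Mj g T') (hT : 0 ≤ T) (hT' : 0 ≤ T') :
    Mj (f * g) (T + T') := fun k => by
  have h : ∑ q ∈ antidiagonal k, T ^ q.1 / q.1.factorial * (T' ^ q.2 / q.2.factorial) =
      (T + T') ^ k / k.factorial := by
    have h := congrArg (coeff k) (ex_add T T')
    simp only [coeff_mul, coeff_ex] at h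
    exact_mod_cast h.symm
  rw [coeff_mul, ← h]
  refine (norm_sum_le _ _).trans (sum_le_sum fun q _ => ?_)
  rw [norm_mul]
  exact mul_le_mul (hf _) (hg _) (norm_nonneg _) (by positivity)

theorem qa1a_term {f : ℂ⟦X⟧} {T : ℝ} (hf : Mj f T) (w : ℂ) (k : ℕ) :
    ‖coeff k f * w ^ k‖ ≤ (T * ‖w‖) ^ k / k.factorial := by
  rw [norm_mul, norm_pow, mul_pow, mul_div_right_comm]
  exact mul_le_mul_of_nonneg_right (hf k) (by positivity)

theorem qa1a_summable {f : ℂ⟦X⟧} {T : ℝ} (hf : Mj f T) (w : ℂ) :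
    Summable fun k => ‖coeff k f * w ^ k‖ :=
  Summable.of_nonneg_of_le (fun _ => norm_nonneg _) (qa1a_term hf w)
    (Real.summable_pow_div_factorial _)

theorem Mj.evs_mul {f g : ℂ⟦X⟧} {T T' : ℝ} (hf : Mj f T) (hg : Mj g T') (hT : 0 ≤ T)
    (hT' : 0 ≤ T') (w : ℂ) : evs w (f * g) = evs w f * evs w g := by
  rw [evs, evs, evs, tsum_mul_tsum_eq_tsum_sum_antidiagonal_of_summable_norm
    (qa1a_summable hf w) (qa1a_summable hg w)]
  refine tsum_congr fun k => ?_
  rw [coeff_mul, sum_mul]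
  refine sum_congr rfl fun q hq => ?_
  rw [← mem_antidiagonal.1 hq, pow_add]
  ring

theorem mj_ph (a : ℂ) : Mj (ph a) ‖a‖ := fun k => by
  rw [ph, coeff_mk, norm_div, norm_pow, Complex.norm_natCast]
  gcongr
  exact k.le_succ

theorem one_sub_ex_eq (a : ℂ) : 1 - ex a = C (-a) * X * ph a := by
  ext k
  rw [mul_assoc, coeff_C_mul, map_sub, coeff_ex, coeff_one]
  cases k with
  | zero => simp
  | succ k =>
    rw [coeff_succ_X_mul, ph, coeff_mk, if_neg k.succ_ne_zero]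
    ring

theorem evs_ph (a w : ℂ) : evs w (ph a) * (a * w) = Complex.exp (a * w) - 1 := by
  have h : Summable fun n : ℕ => (a * w) ^ n / (n.factorial : ℂ) := by
    refine Summable.of_norm ((Real.summable_pow_div_factorial ‖a * w‖).congr fun n => ?_)
    rw [norm_div, norm_pow, Complex.norm_natCast]
  rw [Complex.exp_eq_exp_ℂ, NormedSpace.exp_eq_tsum_div]
  beta_reduce
  rw [h.tsum_eq_zero_add, evs, ← tsum_mul_right]
  simp only [pow_zero, Nat.factorial_zero, Nat.cast_one, div_one, add_sub_cancel_left]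
  refine tsum_congr fun k => ?_
  rw [ph, coeff_mk]
  ring

theorem Mj.tail {f g : ℂ⟦X⟧} {T : ℝ} (hf : Mj f T) (hg : Mj g T) (hT : 0 ≤ T) {m : ℕ} (hm : 1 ≤ m)
    (h : (X : ℂ⟦X⟧) ^ m ∣ f - g) {w : ℂ} (hw : T * ‖w‖ ≤ m / 8) : ‖evs w f - evs w g‖ ≤ 1 := by
  rw [evs, evs, ← (qa1a_summable hf w).of_norm.tsum_sub (qa1a_summable hg w).of_norm]
  have hx : 0 ≤ T * ‖w‖ := by positivity
  have h1 := qa1a_term hf w
  have h2 := qa1a_term hg w
  generalize T * ‖w‖ = x at hw hx h1 h2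
  have h3 : HasSum (fun k : ℕ => 2 / 4 ^ m * ((4 * x) ^ k / k.factorial))
      (2 / 4 ^ m * Real.exp (4 * x)) := by
    refine HasSum.mul_left _ ?_
    rw [Real.exp_eq_exp_ℝ]
    exact NormedSpace.expSeries_div_hasSum_exp (4 * x)
  refine (tsum_of_norm_bounded h3 fun k => ?_).trans ?_
  · by_cases hk : k < m
    · rw [← sub_mul, ← map_sub, X_pow_dvd_iff.1 h k hk, zero_mul, norm_zero]
      positivity
    · refine (norm_sub_le _ _).trans ((add_le_add (h1 k) (h2 k)).trans ?_)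
      have h4 : (4 : ℝ) ^ m ≤ 4 ^ k := pow_le_pow_right₀ (by norm_num) (not_lt.1 hk)
      have h5 : 0 ≤ x ^ k / k.factorial := by positivity
      rw [mul_pow, mul_div_assoc, ← two_mul, ← mul_assoc, div_mul_eq_mul_div, mul_div_assoc]
      exact mul_le_mul_of_nonneg_right (le_mul_of_one_le_right zero_le_two
        ((one_le_div (by positivity)).2 h4)) h5
  · have h4 : Real.exp (1 / 2) ≤ 2 := by
      have h4 : Real.exp (1 / 2) ^ 2 < 2 ^ 2 := by
        rw [← Real.exp_nat_mul]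
        norm_num
        linarith [Real.exp_one_lt_d9]
      exact (lt_of_pow_lt_pow_left₀ 2 zero_le_two h4).le
    have h5 : Real.exp (4 * x) ≤ 2 ^ m := by
      refine le_trans (Real.exp_le_exp.2 (by linarith : 4 * x ≤ m * (1 / 2))) ?_
      rw [Real.exp_nat_mul]
      exact pow_le_pow_left₀ (Real.exp_pos _).le h4 m
    have h6 : (2 : ℝ) ^ 1 ≤ 2 ^ m := pow_le_pow_right₀ one_le_two hm
    rw [show (4 : ℝ) ^ m = 2 ^ m * 2 ^ m by rw [← mul_pow]; norm_num, div_mul_eq_mul_div,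
      div_le_one (by positivity)]
    exact mul_le_mul (by simpa using h6) h5 (Real.exp_pos _).le (by positivity)

end Pool.Agent.HCF
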