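import Pool.Agent.P.MP_f644fa_ag.QA1

/-! Localization of the roots. -/

noncomputable section
namespace Pool.Agent.HCF
open Finset

theorem exp_lower (z : ℂ) {ε : ℝ} (hε : 0 ≤ ε) (h : ε * ‖z‖ ≤ |z.re|) :
    Real.exp (max z.re 0) * (ε / (1 + ‖z‖)) * ‖z‖ ≤ ‖Complex.exp z - 1‖ := by
  have h1 : |Real.exp z.re - 1| ≤ ‖Complex.exp z - 1‖ := by
    simpa only [Complex.norm_exp, norm_one] using abs_norm_sub_norm_le (Complex.exp z) 1
  have h2 : ε / (1 + ‖z‖) * ‖z‖ ≤ |z.re| / (1 + |z.re|) := by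
    rw [div_mul_eq_mul_div]
    exact div_le_div₀ (abs_nonneg _) h (by positivity) (by linarith [Complex.abs_re_le_norm z])
  have h3 : Real.exp (max z.re 0) * (|z.re| / (1 + |z.re|)) ≤ |Real.exp z.re - 1| := by
    generalize z.re = x
    rw [← mul_div_assoc, div_le_iff₀ (by positivity)]
    rcases le_total 0 x with hx | hx
    · rw [max_eq_left hx, abs_of_nonneg hx, abs_of_nonneg (sub_nonneg.2 (Real.one_le_exp hx))]
      linarith [Real.add_one_le_exp x]
    · rw [max_eq_right hx, abs_of_nonpos hx, abs_of_nonpos (sub_nonpos.2 (Real.exp_le_one_iff.2 hx)),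
        Real.exp_zero]
      have h4 := mul_le_mul_of_nonneg_left (Real.add_one_le_exp (-x)) (Real.exp_pos x).le
      rw [← Real.exp_add, add_neg_cancel, Real.exp_zero] at h4
      linarith
  rw [mul_assoc]
  exact (mul_le_mul_of_nonneg_left h2 (Real.exp_pos _).le).trans (h3.trans h1)

theorem exists_dir {c : ℕ} (a : Fin c → ℂ) {ε : ℝ} (hε : 0 < ε) (h : 16 * c * ε ≤ 1) :
    ∃ s : ℝ, 0 ≤ s ∧ s ≤ 16 * c * ε ∧ ∀ i, 2 * ε * ‖a i‖ ≤ |(a i).re - s * (a i).im| := by
  by_contra hn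
  push Not at hn
  have hk : ∀ k : Fin (c + 1), (16 * (k : ℕ) * ε : ℝ) ≤ 16 * c * ε := fun k => by
    have : ((k : ℕ) : ℝ) ≤ c := by exact_mod_cast Nat.lt_succ_iff.1 k.2
    gcongr
  choose f hf using fun k : Fin (c + 1) => hn (16 * (k : ℕ) * ε) (by positivity) (hk k)
  obtain ⟨k, k', hne, e⟩ := Fintype.exists_ne_map_eq_of_card_lt f (by simp)
  have h1 := hf k
  have h2 := hf k'
  rw [← e] at h2
  have hc : (1 : ℝ) ≤ c := by exact_mod_cast (f k).pos
  have h3 : (1 : ℝ) ≤ |((k : ℕ) : ℝ) - (k' : ℕ)| := by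
    have : (1 : ℤ) ≤ |((k : ℕ) : ℤ) - (k' : ℕ)| :=
      Int.one_le_abs (sub_ne_zero.2 fun h => hne (Fin.ext (by exact_mod_cast h)))
    exact_mod_cast this
  have h4 := Complex.norm_le_abs_re_add_abs_im (a (f k))
  have h5 := norm_nonneg (a (f k))
  have hs := (hk k).trans h
  have hs0 : (0 : ℝ) ≤ 16 * (k : ℕ) * ε := by positivity
  generalize (a (f k)).re = x at *
  generalize (a (f k)).im = y at *
  generalize ‖a (f k)‖ = N at *
  have h6 : 16 * ε * |y| < 4 * ε * N := by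
    have e1 : 16 * ε * (|((k : ℕ) : ℝ) - (k' : ℕ)| * |y|) =
        |(x - 16 * (k' : ℕ) * ε * y) - (x - 16 * (k : ℕ) * ε * y)| := by
      rw [← abs_mul, ← abs_of_pos (show 0 < 16 * ε by positivity), ← abs_mul]
      congr 1
      ring
    have e2 := abs_sub (x - 16 * (k' : ℕ) * ε * y) (x - 16 * (k : ℕ) * ε * y)
    have e3 : 16 * ε * |y| ≤ 16 * ε * (|((k : ℕ) : ℝ) - (k' : ℕ)| * |y|) :=
      mul_le_mul_of_nonneg_left (le_mul_of_one_le_left (abs_nonneg _) h3) (by positivity)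
    linarith
  have h7 : 4 * |y| < N := lt_of_mul_lt_mul_left (a := 4 * ε) (by linarith) (by positivity)
  have h8 : |x| ≤ |x - 16 * (k : ℕ) * ε * y| + |y| := by
    have e1 := abs_add_le (x - 16 * (k : ℕ) * ε * y) (16 * (k : ℕ) * ε * y)
    rw [sub_add_cancel, abs_mul _ y, abs_of_nonneg hs0] at e1
    linarith [mul_le_of_le_one_left (abs_nonneg y) hs]
  have h9 : 16 * ε ≤ 1 := by nlinarith
  have h10 := mul_le_mul_of_nonneg_right h9 h5
  linarith

theorem qa2_exp {c m l : ℕ} (hc : 1 ≤ c) (h1 : 2 ≤ m) (hc' : c ≤ 2 ^ l) (hm : m ≤ 2 ^ l) {y : ℝ}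
    (h0 : 0 ≤ y) (hy : y ≤ m / 8) : Real.exp (-(7 * l)) ≤ 1 / (16 * c * m) / (1 + y) := by
  have a1 : (1 : ℝ) ≤ c := by exact_mod_cast hc
  have a2 : (2 : ℝ) ≤ m := by exact_mod_cast h1
  have a3 : (c : ℝ) ≤ 2 ^ l := by exact_mod_cast hc'
  have a4 : (m : ℝ) ≤ 2 ^ l := by exact_mod_cast hm
  have a5 : (2 : ℝ) ^ l ≤ Real.exp l := by
    rw [← Real.exp_one_pow]
    exact pow_le_pow_left₀ (by norm_num) (by linarith [Real.add_one_le_exp 1]) l
  rw [Real.exp_neg, div_div, one_div]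
  refine inv_anti₀ (by positivity) ?_
  have a6 : Real.exp (7 * l) = Real.exp l ^ 7 := by
    rw [← Real.exp_nat_mul]
    norm_num
  have a7 : (2 : ℝ) ^ 4 ≤ Real.exp l ^ 4 := pow_le_pow_left₀ (by norm_num) (by linarith) 4
  calc (16 : ℝ) * c * m * (1 + y) ≤ Real.exp l ^ 4 * Real.exp l * Real.exp l * Real.exp l := by
        gcongr <;> linarith
    _ = _ := by rw [a6]; ring

theorem Ari.dir {c n m l : ℕ} {d : Fin c → ℂ} {h : Polynomial ℤ} (A : Ari c n d h) (hc : 1 ≤ c)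
    (hm : m + 2 * c = n + 1) (h1 : 2 ≤ m) (hl : n < 2 ^ l) {T : ℝ} (hT : ∑ i, ‖d i‖ ≤ T)
    (hT' : (n : ℝ) + c ≤ T) {v : ℂ} (hv : ‖v‖ = 1) :
    ∑ i, max (d i * v).re 0 ≤ n * max v.re 0 + 160 * c * l * T / m := by
  have c1 : (1 : ℝ) ≤ c := by exact_mod_cast hc
  have m2 : (2 : ℝ) ≤ m := by exact_mod_cast h1
  have l1 : (1 : ℝ) ≤ l := by
    have : l ≠ 0 := by
      rintro rfl
      omega
    exact_mod_cast Nat.one_le_iff_ne_zero.2 this
  have n0 : (0 : ℝ) ≤ n := Nat.cast_nonneg n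
  have T0 : 0 < T := by linarith
  have e0 : (16 : ℝ) * c * (1 / (16 * c * m)) = 1 / m := by field_simp
  have e1 : (1 : ℝ) / m ≤ 1 := (div_le_one (by linarith)).2 (by linarith)
  obtain ⟨s, s0, s1, hs⟩ := exists_dir (fun i => d i * v) (ε := 1 / (16 * c * m)) (by positivity)
    (e0.trans_le e1)
  rw [e0] at s1
  obtain ⟨R, hR⟩ : ∃ R : ℝ, R = m / (16 * T) := ⟨_, rfl⟩
  have R0 : 0 < R := by rw [hR]; positivity
  have RT : R * T = m / 16 := by rw [hR]; field_simp
  have Rs : R * s * T ≤ 1 / 16 := by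
    rw [le_div_iff₀ (by linarith)] at s1
    rw [mul_right_comm, RT]
    linarith
  obtain ⟨w, hw⟩ : ∃ w : ℂ, w = R * (v * (1 + s * Complex.I)) := ⟨_, rfl⟩
  have hre : ∀ z : ℂ, (z * w).re = R * ((z * v).re - s * (z * v).im) := by
    intro z
    rw [hw, mul_left_comm, ← mul_assoc z, Complex.re_ofReal_mul]
    generalize z * v = u
    simp [mul_comm]
  have w2 : ‖w‖ ≤ 2 * R := by
    have : ‖(1 : ℂ) + s * Complex.I‖ ≤ 2 := (norm_add_le _ _).trans (by
      rw [norm_one, norm_mul, Complex.norm_I, Complex.norm_real, Real.norm_of_nonneg s0]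
      linarith)
    rw [hw, norm_mul, norm_mul, hv, Complex.norm_real, Real.norm_of_nonneg R0.le]
    nlinarith
  have w0 : w ≠ 0 := by
    rw [hw]
    refine mul_ne_zero (by exact_mod_cast R0.ne') (mul_ne_zero (norm_pos_iff.1 (by linarith)) ?_)
    intro e
    simpa using congrArg Complex.re e
  have wT : T * ‖w‖ ≤ m / 8 := by nlinarith
  have d0 : ∀ i, d i ≠ 0 := fun i e => by
    have h2 := A.prod (by omega)
    rw [prod_eq_zero (mem_univ i) e] at h2
    exact A.pos.ne (by exact_mod_cast h2)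
  have dT : ∀ i, ‖d i‖ ≤ T := fun i =>
    (single_le_sum (f := fun i => ‖d i‖) (fun i _ => norm_nonneg _) (mem_univ i)).trans hT
  have dv : ∀ z : ℂ, ‖z * v‖ = ‖z‖ := fun z => by rw [norm_mul, hv, mul_one]
  have low : ∀ i, Real.exp (max (d i * w).re 0 - 7 * l) * ‖d i * w‖ ≤
      ‖Complex.exp (d i * w) - 1‖ := by
    intro i
    refine le_trans ?_ (exp_lower (d i * w) (ε := 1 / (16 * c * m)) (by positivity) ?_)
    · rw [sub_eq_add_neg, Real.exp_add]
      gcongr
      refine qa2_exp hc h1 (by omega) (by omega) (norm_nonneg _) (le_trans ?_ wT)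
      rw [norm_mul]
      exact mul_le_mul_of_nonneg_right (dT i) (norm_nonneg _)
    · rw [hre, abs_mul, abs_of_pos R0, norm_mul]
      refine le_trans ?_ (mul_le_mul_of_nonneg_left (hs i) R0.le)
      rw [dv]
      calc _ ≤ 1 / (16 * (c : ℝ) * m) * (‖d i‖ * (2 * R)) := by gcongr
        _ = _ := by ring
  have key := (prod_le_prod (fun i _ => by positivity) fun i _ => low i).trans
    (A.upper hc hm (by omega) hT hT' wT)
  rw [prod_mul_distrib, ← Real.exp_sum, mul_comm, mul_le_mul_iff_right₀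
    (prod_pos fun i _ => norm_pos_iff.2 (mul_ne_zero (d0 i) w0)), Real.exp_le_exp, sum_sub_distrib,
    sum_const, card_univ, Fintype.card_fin, nsmul_eq_mul] at key
  have b1 : ∀ i, R * max (d i * v).re 0 ≤ max (d i * w).re 0 + R * s * ‖d i‖ := by
    intro i
    have h2 : R * s * (d i * v).im ≤ R * s * ‖d i‖ := mul_le_mul_of_nonneg_left
      ((le_abs_self _).trans ((Complex.abs_im_le_norm _).trans_eq (dv _))) (by positivity)
    have h3 : 0 ≤ R * s * ‖d i‖ := by positivity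
    rw [mul_max_of_nonneg _ _ R0.le, mul_zero]
    refine max_le ?_ (by positivity)
    have h4 := le_max_left (d i * w).re 0
    rw [hre] at h4 ⊢
    linarith
  have b2 := sum_le_sum fun i (_ : i ∈ univ) => b1 i
  rw [← mul_sum, sum_add_distrib, ← mul_sum] at b2
  have b3 : R * s * ∑ i, ‖d i‖ ≤ R * s * T := mul_le_mul_of_nonneg_left hT (by positivity)
  have b4 : max w.re 0 ≤ R * max v.re 0 + R * s := by
    refine max_le ?_ (by positivity)
    have h2 := hre 1
    rw [one_mul, one_mul] at h2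
    have h3 : R * s * -v.im ≤ R * s * 1 := mul_le_mul_of_nonneg_left
      ((neg_le_abs _).trans ((Complex.abs_im_le_norm _).trans_eq hv)) (by positivity)
    have h4 := mul_le_mul_of_nonneg_left (le_max_left v.re 0) R0.le
    linarith
  have b5 := mul_le_mul_of_nonneg_left b4 n0
  have b6 : R * s * n ≤ R * s * T := mul_le_mul_of_nonneg_left (by linarith) (by positivity)
  have b7 : (c : ℝ) ≤ c * l := le_mul_of_one_le_right (by linarith) l1
  have b8 : R * (160 * c * l * T / m) = 10 * (c * l) := by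
    rw [hR]
    field_simp
    ring
  refine le_of_mul_le_mul_left ?_ R0
  rw [mul_add, b8]
  linarith

theorem Ari.loc {c n l : ℕ} {d : Fin c → ℂ} {h : Polynomial ℤ} (A : Ari c n d h) (hc : 1 ≤ c)
    (hl : n < 2 ^ l) (hn : 1280 * c * l + 5 * c ≤ n) : Loc n (640 * c * l) d := by
  obtain ⟨m, hm⟩ : ∃ m, m + 2 * c = n + 1 := ⟨n + 1 - 2 * c, by omega⟩
  obtain ⟨T, hT, hT', hT''⟩ : ∃ T : ℝ, ∑ i, ‖d i‖ ≤ T ∧ (n : ℝ) + c ≤ T ∧
      (T = ∑ i, ‖d i‖ ∨ T = n + c) :=
    ⟨max _ _, le_max_left _ _, le_max_right _ _, max_choice _ _⟩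
  have h1 := A.dir hc hm (by omega) hl hT hT' (v := 1) norm_one
  have h2 := A.dir hc hm (by omega) hl hT hT' (v := -1) (by simp)
  have h3 := A.dir hc hm (by omega) hl hT hT' (v := Complex.I) Complex.norm_I
  have h4 := A.dir hc hm (by omega) hl hT hT' (v := -Complex.I) (by simp)
  simp only [mul_one, Complex.one_re, mul_neg, Complex.neg_re, Complex.mul_I_re, Complex.I_re,
    neg_neg, neg_zero, max_self, mul_zero, zero_add, max_eq_left (zero_le_one' ℝ),
    max_eq_right (show (-1 : ℝ) ≤ 0 by norm_num)] at h1 h2 h3 h4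
  have ab : ∀ x : ℝ, |x| = max x 0 + max (-x) 0 := fun x => by
    rcases le_total 0 x with hx | hx
    · rw [abs_of_nonneg hx, max_eq_left hx, max_eq_right (by linarith), add_zero]
    · rw [abs_of_nonpos hx, max_eq_right hx, max_eq_left (by linarith), zero_add]
  have h5 : ∑ i, |(d i).im| = ∑ i, max (d i).im 0 + ∑ i, max (-(d i).im) 0 := by
    rw [← sum_add_distrib]
    exact sum_congr rfl fun i _ => ab _
  have h6 : ∑ i, ‖d i‖ ≤ ∑ i, max (d i).re 0 + ∑ i, max (-(d i).re) 0 + ∑ i, |(d i).im| := by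
    rw [← sum_add_distrib, ← sum_add_distrib]
    exact sum_le_sum fun i _ => by
      rw [← ab]
      exact Complex.norm_le_abs_re_add_abs_im _
  have hm' : (m : ℝ) + 2 * c = n + 1 := by exact_mod_cast hm
  have hn' : (1280 : ℝ) * c * l + 5 * c ≤ n := by exact_mod_cast hn
  have c1 : (1 : ℝ) ≤ c := by exact_mod_cast hc
  have cl : (0 : ℝ) ≤ c * l := by positivity
  have m0 : (0 : ℝ) < m := by linarith
  have T0 : 0 < T := by linarith
  have e1 : 160 * c * l * T / m ≤ T / 8 := by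
    rw [div_le_iff₀ m0]
    nlinarith
  have e2 : T ≤ 4 * m := by rcases hT'' with e | e <;> linarith
  have e3 : 160 * c * l * T / m ≤ 640 * c * l := by
    rw [div_le_iff₀ m0]
    nlinarith
  refine ⟨?_, ?_, ?_⟩ <;> push_cast <;> linarith

end Pool.Agent.HCF
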