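import Pool.Agent.P.MP_f644fa_ag.QA0

/-! Integer polynomials with a zero of high order at `1`. -/

noncomputable section
namespace Pool.Agent.HCF
open Finset Polynomial

theorem qa9_sum {F : ℤ[X]} (h : ∀ i, 0 ≤ F.coeff i) (N : ℕ) :
    ∑ i ∈ range N, F.coeff i ≤ F.eval 1 := by
  rw [eval_eq_sum_range' (n := F.natDegree + 1 + N) (by omega)]
  simp only [one_pow, mul_one]
  exact sum_le_sum_of_subset_of_nonneg (range_subset_range.2 (by omega)) fun i _ _ => h i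

theorem Bd.mono {f : ℤ[X]} {B B' : ℤ} (h : Bd f B) (hB : B ≤ B') : Bd f B' := by
  obtain ⟨F, h1, h2⟩ := h
  exact ⟨F, h1, h2.trans hB⟩

theorem Bd.nonneg {f : ℤ[X]} {B : ℤ} (h : Bd f B) : 0 ≤ B := by
  obtain ⟨F, h1, h2⟩ := h
  simpa using (qa9_sum (fun i => (abs_nonneg _).trans (h1 i)) 0).trans h2

theorem Bd.add {f g : ℤ[X]} {B B' : ℤ} (h : Bd f B) (h' : Bd g B') : Bd (f + g) (B + B') := by
  obtain ⟨F, h1, h2⟩ := h
  obtain ⟨G, h3, h4⟩ := h'
  refine ⟨F + G, fun i => ?_, by rw [eval_add]; exact add_le_add h2 h4⟩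
  rw [coeff_add, coeff_add]
  exact (abs_add_le _ _).trans (add_le_add (h1 i) (h3 i))

theorem Bd.sub {f g : ℤ[X]} {B B' : ℤ} (h : Bd f B) (h' : Bd g B') : Bd (f - g) (B + B') := by
  obtain ⟨G, h3, h4⟩ := h'
  rw [sub_eq_add_neg]
  exact h.add ⟨G, fun i => by rw [coeff_neg, abs_neg]; exact h3 i, h4⟩

theorem Bd.mul {f g : ℤ[X]} {B B' : ℤ} (h : Bd f B) (h' : Bd g B') : Bd (f * g) (B * B') := by
  have h0 := h.nonneg
  obtain ⟨F, h1, h2⟩ := h
  obtain ⟨G, h3, h4⟩ := h'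
  refine ⟨F * G, fun i => ?_, ?_⟩
  · rw [coeff_mul, coeff_mul]
    refine (abs_sum_le_sum_abs _ _).trans (sum_le_sum fun q _ => ?_)
    rw [abs_mul]
    exact mul_le_mul (h1 _) (h3 _) (abs_nonneg _) ((abs_nonneg _).trans (h1 _))
  · rw [eval_mul]
    exact mul_le_mul h2 h4
      (by simpa using qa9_sum (fun i => (abs_nonneg _).trans (h3 i)) 0) h0

theorem bd_C (a : ℤ) : Bd (C a) |a| :=
  ⟨C |a|, fun i => by rw [coeff_C, coeff_C]; split_ifs <;> simp, by simp⟩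

theorem bd_X_pow (k : ℕ) : Bd (X ^ k) 1 :=
  ⟨X ^ k, fun i => by rw [coeff_X_pow]; split_ifs <;> simp, by simp⟩

theorem bd_self {f : ℤ[X]} (h : ∀ i, 0 ≤ f.coeff i) : Bd f (f.eval 1) :=
  ⟨f, fun i => (abs_of_nonneg (h i)).le, le_rfl⟩

theorem bd_prod {ι : Type} (s : Finset ι) (a : ι → ℕ) :
    Bd (∏ i ∈ s, (1 - X ^ a i)) (2 ^ s.card) := by
  classical
  have h1 : Bd 1 1 := by simpa using bd_X_pow 0
  induction s using Finset.induction_on with
  | empty => simpa using h1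
  | insert i s hi ih =>
    rw [prod_insert hi, card_insert_of_notMem hi, pow_succ']
    exact (h1.sub (bd_X_pow _)).mul ih

theorem bd_pow (k : ℕ) : Bd ((1 - X) ^ k) (2 ^ k) := by
  simpa using bd_prod (range k) fun _ => 1

theorem coeff_th (f : ℤ[X]) (i : ℕ) : (th f).coeff i = i * f.coeff i := by
  cases i with
  | zero => simp [th]
  | succ i => rw [th, coeff_X_mul, coeff_derivative]; push_cast; ring

theorem Bd.th {f : ℤ[X]} {B : ℤ} (h : Bd f B) {N : ℕ} (hN : f.natDegree ≤ N) :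
    Bd (th f) (N * B) := by
  obtain ⟨F, h1, h2⟩ := h
  refine ⟨C (N : ℤ) * F, fun i => ?_, ?_⟩
  · rw [coeff_th, coeff_C_mul, abs_mul, Nat.abs_cast]
    rcases le_or_gt i N with k | k
    · exact mul_le_mul (by exact_mod_cast k) (h1 i) (abs_nonneg _) (Nat.cast_nonneg _)
    · rw [coeff_eq_zero_of_natDegree_lt (hN.trans_lt k), abs_zero, mul_zero]
      exact mul_nonneg (Nat.cast_nonneg _) ((abs_nonneg _).trans (h1 i))
  · rw [eval_mul, eval_C]
    exact mul_le_mul_of_nonneg_left h2 (Nat.cast_nonneg _)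

theorem natDegree_th (f : ℤ[X]) : (th f).natDegree ≤ f.natDegree :=
  natDegree_le_iff_coeff_eq_zero.2 fun i hi => by
    rw [coeff_th, coeff_eq_zero_of_natDegree_lt hi, mul_zero]

theorem qa9_choose (N ρ : ℕ) : N.choose ρ * 4 ^ N ≤ 5 ^ N * 4 ^ ρ := by
  rcases le_or_gt ρ N with k | k
  · have h1 : (1 + 4) ^ N = ∑ m ∈ range (N + 1), 1 ^ m * 4 ^ (N - m) * N.choose m := add_pow 1 4 N
    have h2 : 1 ^ ρ * 4 ^ (N - ρ) * N.choose ρ ≤ (1 + 4) ^ N := by
      rw [h1]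
      exact single_le_sum (f := fun m => 1 ^ m * 4 ^ (N - m) * N.choose m)
        (fun _ _ => Nat.zero_le _) (mem_range.2 (by omega))
    obtain ⟨e, rfl⟩ := Nat.exists_eq_add_of_le k
    rw [Nat.add_sub_cancel_left, one_pow, one_mul] at h2
    calc _ = (4 ^ e * (ρ + e).choose ρ) * 4 ^ ρ := by ring
      _ ≤ _ := Nat.mul_le_mul_right _ h2
  · rw [Nat.choose_eq_zero_of_lt k, zero_mul]
    exact Nat.zero_le _

theorem eq_zero_of_order {f : ℤ[X]} {k r θ : ℕ} (h1 : (PowerSeries.X : PowerSeries ℂ) ^ k ∣ Ez f)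
    (h2 : f.natDegree ≤ k + r) (h3 : Bd f (2 ^ θ)) (h4 : 3 * θ + 7 * r < 2 * k) : f = 0 := by
  by_contra hf
  have hm : ((X - C 1 : ℤ[X]) ^ k).Monic := (monic_X_sub_C 1).pow k
  obtain ⟨q, hq⟩ : (X - C 1 : ℤ[X]) ^ k ∣ f := by
    rw [← map_dvd_map (Int.castRingHom ℂ) Int.cast_injective hm]
    rw [Ez_apply, Ex_dvd_iff, ← neg_sub, neg_pow] at h1
    simpa using (Dvd.intro_left _ rfl).trans h1
  have hq0 : q ≠ 0 := fun e => hf (by rw [hq, e, mul_zero])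
  obtain ⟨q', e1, e2⟩ := exists_eq_pow_rootMultiplicity_mul_and_not_dvd q hq0 (-1)
  generalize rootMultiplicity (-1) q = ρ at e1
  have hq' : q' ≠ 0 := fun e => e2 (by rw [e]; exact dvd_zero _)
  have hρ : ρ ≤ r := by
    rw [hq, e1, hm.natDegree_mul' (mul_ne_zero ((monic_X_sub_C _).pow _).ne_zero hq'),
      ((monic_X_sub_C _).pow _).natDegree_mul' hq', natDegree_pow, natDegree_pow, natDegree_X_sub_C,
      natDegree_X_sub_C] at h2
    omega
  have e3 : (taylor (-1) f).coeff ρ = (-2) ^ k * q'.eval (-1) := by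
    have : taylor (-1) f = X ^ ρ * taylor (-1) ((X - C 1) ^ k * q') := by
      rw [hq, e1, mul_left_comm, taylor_mul, taylor_pow]
      simp
    rw [this, coeff_X_pow_mul', if_pos le_rfl, Nat.sub_self, taylor_coeff_zero]
    simp
  have e4 : (2 : ℤ) ^ k ≤ |(taylor (-1) f).coeff ρ| := by
    rw [e3, abs_mul, abs_pow, abs_neg, abs_two]
    exact le_mul_of_one_le_right (by positivity)
      (Int.one_le_abs fun e => e2 (dvd_iff_isRoot.2 e))
  obtain ⟨F, a1, a2⟩ := h3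
  have e5 : |(taylor (-1) f).coeff ρ| ≤ ((k + r).choose ρ : ℤ) * 2 ^ θ := by
    have a3 : (taylor (-1) f).coeff ρ =
        ∑ i ∈ range (k + r + 1), f.coeff i * ((-1) ^ (i - ρ) * i.choose ρ) := by
      conv_lhs => rw [f.as_sum_range_C_mul_X_pow' (Nat.lt_succ_of_le h2)]
      rw [map_sum, finsetSum_coeff]
      refine sum_congr rfl fun i _ => ?_
      rw [taylor_mul, taylor_C, taylor_pow, taylor_X, coeff_C_mul, coeff_X_add_C_pow]
    rw [a3]
    refine (abs_sum_le_sum_abs _ _).trans (le_trans (sum_le_sum (g := fun i =>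
      ((k + r).choose ρ : ℤ) * F.coeff i) fun i hi => ?_) ?_)
    · rw [abs_mul, abs_mul, abs_pow, abs_neg, abs_one, one_pow, one_mul, Nat.abs_cast, mul_comm]
      exact mul_le_mul (by exact_mod_cast Nat.choose_le_choose ρ (Nat.lt_succ_iff.1 (mem_range.1 hi)))
        (a1 i) (abs_nonneg _) (Nat.cast_nonneg _)
    · rw [← mul_sum]
      exact mul_le_mul_of_nonneg_left
        ((qa9_sum (fun i => (abs_nonneg _).trans (a1 i)) _).trans a2) (Nat.cast_nonneg _)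
  have e6 : 2 ^ k ≤ (k + r).choose ρ * 2 ^ θ := by exact_mod_cast e4.trans e5
  have e7 : 2 ^ k * 4 ^ k * 4 ^ r ≤ 2 ^ θ * 5 ^ (k + r) * 4 ^ r :=
    calc _ = 2 ^ k * 4 ^ (k + r) := by ring
      _ ≤ (k + r).choose ρ * 2 ^ θ * 4 ^ (k + r) := Nat.mul_le_mul_right _ e6
      _ = 2 ^ θ * ((k + r).choose ρ * 4 ^ (k + r)) := by ring
      _ ≤ 2 ^ θ * (5 ^ (k + r) * 4 ^ ρ) := Nat.mul_le_mul_left _ (qa9_choose _ _)
      _ ≤ 2 ^ θ * (5 ^ (k + r) * 4 ^ r) := by gcongr; norm_num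
      _ = _ := by ring
  have e8 := Nat.pow_le_pow_left (Nat.le_of_mul_le_mul_right e7 (by positivity)) 3
  have e9 : 2 ^ (9 * k) ≤ 2 ^ (3 * θ + 7 * (k + r)) :=
    calc 2 ^ (9 * k) = (2 ^ k * 4 ^ k) ^ 3 := by
          rw [← mul_pow, ← pow_mul, show 2 * 4 = 2 ^ 3 from rfl, ← pow_mul]; congr 1; ring
      _ ≤ _ := e8
      _ = 2 ^ (3 * θ) * 125 ^ (k + r) := by
          rw [mul_pow, ← pow_mul, ← pow_mul, mul_comm (k + r), pow_mul 5, mul_comm θ]; norm_num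
      _ ≤ 2 ^ (3 * θ) * 128 ^ (k + r) := by gcongr; norm_num
      _ = _ := by rw [pow_add 2, pow_mul 2 7]; norm_num
  have := (Nat.pow_le_pow_iff_right one_lt_two).1 e9
  omega

end Pool.Agent.HCF
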