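import Pool.Agent.P.MP_f644fa_ag.YG4

/-! Graded exactness of the Koszul complex of the section ring. -/

noncomputable section
namespace Pool.Agent.HCF

section
open Finset Module Matrix

variable {𝒜 : Type} [CommRing 𝒜] [Algebra ℂ 𝒜] [StarRing 𝒜] [StarModule ℂ 𝒜] {M n : ℕ}

namespace CR
variable {C : CR M n 𝒜}

theorem Wt.koszul_top {s : ℝ} {c : ℕ} (ω : C.Wt s) (hM : M = n + 1 + c) (hs : s < n + 1)
    (l : Fin (n + 1) → 𝒜) (hl : ∀ i, C.CF 1 (l i)) {lam : 𝒜}
    (hlam : lam * ∑ i, star (l i) * l i = 1) (m : ℤ) (hm : (n : ℤ) + 1 ≤ m) (z : Finset (Fin (n + 1)) → 𝒜)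
    (hz : ∀ J, C.CF (m - J.card) (z J)) (h0 : iov 𝒜 l z = 0) :
    ∃ y, (∀ J, C.CF (m - J.card) (y J)) ∧ iov 𝒜 l y = z := by
  obtain ⟨Φ, hFi, hGe, hGi⟩ := exists_car2 M 𝒜
  have hP1 : ∀ b v q, (Φ.G.il b *ᵥ v) q = iov 𝒜 b (fun B => v (q.1, B)) q.2 := fun b v q => by
    simp only [Car.il, iov, sum_mulVec, smul_mulVec, Finset.sum_apply, Pi.smul_apply, hGi,
      LinearMap.sum_apply, LinearMap.smul_apply]
  have hP2 : ∀ v q, (Φ.G.N *ᵥ v) q = q.2.card • v q := fun v q => by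
    have h := num_apply (R := 𝒜) (fun B => v (q.1, B)) q.2
    rw [Φ.G.N_eq, ← h]
    simp only [num, sum_mulVec, ← mulVec_mulVec, Finset.sum_apply, hGe, hGi, LinearMap.sum_apply,
      End.mul_apply]
  let em : 𝒜 →ₗ[𝒜] (Finset (Fin M) × Finset (Fin M) → 𝒜) :=
    { toFun := fun u q => if q.1 = ∅ ∧ q.2 = ∅ then u else 0
      map_add' := fun u v => by funext q; by_cases h : q.1 = ∅ ∧ q.2 = ∅ <;> simp [h]
      map_smul' := fun r u => by funext q; by_cases h : q.1 = ∅ ∧ q.2 = ∅ <;> simp [h] }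
  have hem : ∀ u q, em u q = if q.1 = ∅ ∧ q.2 = ∅ then u else 0 := fun u q => rfl
  let re : (Finset (Fin M) × Finset (Fin M) → 𝒜) →ₗ[𝒜] 𝒜 := LinearMap.proj (∅, ∅)
  have hre : ∀ v, re v = v (∅, ∅) := fun v => rfl
  have h2 : ∀ p u, C.CF p u → C.V0 Φ 0 p (em u) := fun p u hu => by
    refine ⟨fun j => funext fun q => ?_, fun b => funext fun q => ?_, funext fun q => ?_,
      fun j => funext fun q => ?_, funext fun q => ?_⟩
    · rw [hFi, io_apply]
      simp [hem]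
    · rw [hP1, iov, LinearMap.sum_apply, Finset.sum_apply]
      refine Finset.sum_eq_zero fun j _ => ?_
      rw [LinearMap.smul_apply, Pi.smul_apply, io_apply]
      simp [hem]
    · rw [hP2, Pi.smul_apply, hem]
      by_cases hJ : q.1 = ∅ ∧ q.2 = ∅
      · simp [hJ.2]
      · simp [hJ]
    · rw [dE_apply, hem]
      split_ifs <;> simp [hu.hol]
    · rw [dE_apply, Pi.smul_apply, hem]
      split_ifs <;> simp [hu.wt]
  have h3 : ∀ p v, C.V0 Φ 0 p v → C.CF p (re v) := fun p v hv =>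
    ⟨fun j => congrFun (hv.hol j) (∅, ∅), congrFun hv.wt (∅, ∅)⟩
  obtain ⟨y, hy, hy0⟩ := koszul_of (C := C) (Φ := Φ) (k := 0) (m := m) 0
    (fun r j w hr hj h1 h4 => by
      refine ω.solve (a := 1) hM (Or.inr ⟨rfl, le_rfl⟩) (Nat.le_add_left 1 r) ?_ h1 h4
      have h5 : (0 : ℝ) ≤ (m : ℝ) - j := by exact_mod_cast (by omega : 0 ≤ m - (j : ℤ))
      push_cast
      linarith)
    l (fun i j => (hl i).hol j) (fun i => by simpa using (hl i).wt) hlam (fun J => em (z J))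
    (fun J hJ => absurd hJ (Nat.not_lt_zero _))
    (fun J => h2 _ _ (hz J)) (by
      have h4 := iov_nat em.toAddMonoidHom (a := l) (a' := l) (fun j v => em.map_smul _ _) z
      refine h4.symm.trans (funext fun J => ?_)
      simp [h0])
  refine ⟨fun J => re (y J), fun J => h3 _ _ (hy J), ?_⟩
  have h4 := iov_nat re.toAddMonoidHom (a := l) (a' := l) (fun j v => re.map_smul _ _) y
  refine h4.symm.trans (funext fun J => ?_)
  simp [hy0, hre, hem]

end CR
end

open MvPolynomial Module Set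

variable {M : ℕ} {I : Ideal (SS M)} {c n : ℕ}

theorem kex_gr (hX : IsManifold I c) (hM : M = n + 1 + c) (hF : IsFano I c)
    (l : Fin (n + 1) → secRing I) (hl : ∀ i, l i ∈ Gr (secRing I) 1)
    (hl' : ∀ x : cone I, ∃ i, (l i).1 x ≠ 0) (m : ℤ) (z : Finset (Fin (n + 1)) → secRing I)
    (he : z ∅ = 0 ∨ (n : ℤ) + 1 ≤ m)
    (hz : ∀ J, z J ∈ Gr (secRing I) (m - J.card)) (h0 : iov (secRing I) l z = 0) :
    ∃ y, (∀ J, y J ∈ Gr (secRing I) (m - J.card)) ∧ iov (secRing I) l y = z := by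
  obtain ⟨C, hC⟩ := exists_CR hX hM
  obtain ⟨s, hs, ⟨ω⟩⟩ := hC.fano_Wt hX hM hF
  obtain ⟨τ, -, hτ⟩ := yg4_sqrt (isCompact_Lk I) (fun i => rs I (l i)) fun y => hl' (toCone y)
  have hnat : ∀ y : Finset (Fin (n + 1)) → secRing I,
      (fun J => rs I (iov (secRing I) l y J)) =
        iov (Sm (Lk I)) (fun i => rs I (l i)) fun J => rs I (y J) :=
    fun y => iov_nat (rs I).toRingHom.toAddMonoidHom (fun i v => map_mul (rs I) (l i) v) y
  have hc : iov (Sm (Lk I)) (fun i => rs I (l i)) (fun J => rs I (z J)) = 0 := by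
    rw [← hnat, h0]
    funext J
    exact map_zero (rs I)
  obtain ⟨y', hy', hy0⟩ : ∃ y' : Finset (Fin (n + 1)) → Sm (Lk I),
      (∀ J, C.CF (m - J.card) (y' J)) ∧
        iov (Sm (Lk I)) (fun i => rs I (l i)) y' = fun J => rs I (z J) := by
    rcases he with he | he
    · exact ω.koszul_fun hM hs (fun i => rs I (l i)) (fun i => hC.cf_rs hX (hl i)) hτ m
        (fun J => rs I (z J)) (by
          show rs I (z ∅) = 0
          rw [he, map_zero]) (fun J => hC.cf_rs hX (hz J)) hc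
    · exact ω.koszul_top hM hs (fun i => rs I (l i)) (fun i => hC.cf_rs hX (hl i)) hτ m he
        (fun J => rs I (z J)) (fun J => hC.cf_rs hX (hz J)) hc
  choose y hy hyy using fun J => hC.exists_rs' hX hM (hy' J)
  refine ⟨y, hy, funext fun J => ?_⟩
  have h1 : (fun J => rs I (y J)) = y' := funext hyy
  have h2 := hnat y
  rw [h1, hy0] at h2
  have h3 : rs I (iov (secRing I) l y J) = rs I (z J) := congrFun h2 J
  refine sub_eq_zero.1 (rs_inj hX (sub_mem (yg4_iov l hl y hy J) (hz J)) ?_)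
  rw [map_sub, h3, sub_self]

end Pool.Agent.HCF
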