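import Pool.Agent.P.MP_f644fa_ag.QF1
import Pool.Agent.P.MP_f644fa_ag.YVan

/-! The numerator of the Hilbert series of the section ring of a Fano manifold. -/

noncomputable section
namespace Pool.Agent.HCF
open MvPolynomial Module Set

variable {M : ℕ} {I : Ideal (SS M)} {c n : ℕ}

theorem qf2_nosee {σ R : Type} [LinearOrder σ] [Fintype σ] [CommRing R] (l : σ → R)
    (y : Finset σ → R) (a : R) : iov R l (Function.update y ∅ a) = iov R l y := by
  funext J
  rw [van_apply, van_apply]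
  refine Finset.sum_congr rfl fun j _ => ?_
  rw [io_apply, io_apply]
  split_ifs with h
  · rfl
  · rw [Function.update_of_ne (Finset.insert_ne_empty j J)]

theorem qf2_key (hX : IsManifold I c) (hM : M = n + 1 + c) (hn : 1 ≤ n) (hF : IsFano I c) (m : ℕ) :
    ∃ a : ℕ, PowerSeries.coeff m ((1 - PowerSeries.X) ^ (n + 1) * HS I 0) = (a : ℂ) ∧
      (n + 1 ≤ m → a = 0) := by
  obtain ⟨L, hL⟩ := hX.exists_bpf hM
  have hG := gr_sec hX hM hn
  let l : Fin (n + 1) → secRing I := fun i => ⟨pf I (lin (L i)), Pol_le I (pf_mem _)⟩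
  have hl : ∀ i, l i ∈ Gr (secRing I) 1 := fun i => isHom_pf (lin_hom (L i))
  have hl' : ∀ x : cone I, ∃ i, (l i).1 x ≠ 0 := fun x => by
    obtain ⟨i, hi⟩ := hL x.1 x.2
    exact ⟨i, by rw [← pf_apply] at hi; exact hi⟩
  have h1 := coeff_koszul (Fin (n + 1)) (-1) (fun d => (finrank ℂ (Hm (secRing I) 0 d) : ℂ))
    (fun d hd => by rw [Hm, hG.Fm_neg _ _ hd, finrank_bot, Nat.cast_zero]) m
  rw [Fintype.card_fin, map_neg, map_one, neg_one_mul, ← sub_eq_add_neg] at h1
  let f : (Finset (Fin (n + 1)) → secRing I) →ₗ[ℂ] secRing I :=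
    (LinearMap.proj ∅).comp ((iov (secRing I) l).restrictScalars ℂ)
  have hf : ∀ y, f y = iov (secRing I) l y ∅ := fun y => rfl
  let P0 : Submodule ℂ (secRing I) :=
    (Submodule.pi Set.univ fun J : Finset (Fin (n + 1)) =>
      Gr (secRing I) ((m : ℤ) - J.card)).map f
  have hP : ∀ a, a ∈ P0 ↔ ∃ y : Finset (Fin (n + 1)) → secRing I,
      (∀ J, y J ∈ Gr (secRing I) ((m : ℤ) - J.card)) ∧ iov (secRing I) l y ∅ = a := fun a =>
    ⟨fun ⟨y, hy, e⟩ => ⟨y, fun J => hy J trivial, e⟩, fun ⟨y, hy, e⟩ => ⟨y, fun J _ => hy J, e⟩⟩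
  let p : Finset (Fin (n + 1)) → Submodule ℂ (secRing I) := fun J =>
    if J = ∅ then P0 else Gr (secRing I) ((m : ℤ) - J.card)
  have hp0 : p ∅ = P0 := if_pos rfl
  have hp1 : ∀ J, J ≠ ∅ → p J = Gr (secRing I) ((m : ℤ) - J.card) := fun J hJ => if_neg hJ
  have hpG : ∀ J, p J ≤ Gr (secRing I) ((m : ℤ) - J.card) := fun J => by
    by_cases hJ : J = ∅
    · subst hJ
      rw [hp0]
      intro a ha
      obtain ⟨y, hy, rfl⟩ := (hP a).1 ha
      exact yg4_iov l hl y hy ∅
    · exact (hp1 J hJ).le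
  have hfin := hG.fin
  have hfp : ∀ J, FiniteDimensional ℂ (p J) := fun J => Submodule.finiteDimensional_of_le (hpG J)
  have h2 := euler l p (T := 1) (fun _ _ h => h) (fun _ _ => rfl) (fun z hz J => by
      by_cases hJ : J = ∅
      · subst hJ
        rw [hp0]
        exact (hP _).2 ⟨z, fun J => hpG J (hz J), rfl⟩
      · rw [hp1 J hJ]
        exact yg4_iov l hl z (fun J => hpG J (hz J)) J)
    (fun z hz h0 => by
      have hz0 := hz ∅
      rw [hp0] at hz0
      obtain ⟨y1, hy1, e1⟩ := (hP _).1 hz0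
      obtain ⟨y2, hy2, e2⟩ := kex_gr hX hM hF l hl hl' m (z - iov (secRing I) l y1)
        (Or.inl (by rw [Pi.sub_apply, e1, sub_self]))
        (fun J => sub_mem (hpG J (hz J)) (yg4_iov l hl y1 hy1 J)) (by
          have h3 : iov (secRing I) l (iov (secRing I) l y1) = 0 :=
            LinearMap.congr_fun (iov_sq (N := secRing I) l) y1
          rw [map_sub, h0, h3, sub_self])
      refine ⟨Function.update (y1 + y2) ∅ 0, fun J => ?_, ?_⟩
      · by_cases hJ : J = ∅
        · subst hJ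
          rw [Function.update_self]
          exact zero_mem _
        · rw [Function.update_of_ne hJ, hp1 J hJ]
          exact add_mem (hy1 J) (hy2 J)
      · rw [qf2_nosee, map_add, e2, add_sub_cancel])
  simp only [trOn_one] at h2
  have hle : finrank ℂ (p ∅) ≤
      finrank ℂ (Gr (secRing I) ((m : ℤ) - (∅ : Finset (Fin (n + 1))).card)) :=
    Submodule.finrank_mono (hpG ∅)
  refine ⟨finrank ℂ (Gr (secRing I) ((m : ℤ) - (∅ : Finset (Fin (n + 1))).card)) -
    finrank ℂ (p ∅), ?_, fun hm => ?_⟩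
  · refine h1.trans ?_
    rw [← sub_zero (∑ J : Finset (Fin (n + 1)), _), ← h2, ← Finset.sum_sub_distrib,
      Finset.sum_eq_single ∅, Nat.cast_sub hle, Hm, finrank_Fm_zero]
    · simp
    · intro J _ hJ
      rw [Hm, finrank_Fm_zero, hp1 J hJ, sub_self]
    · intro h
      exact absurd (Finset.mem_univ _) h
  · have he : p ∅ = Gr (secRing I) ((m : ℤ) - (∅ : Finset (Fin (n + 1))).card) := by
      refine le_antisymm (hpG ∅) fun a ha => ?_
      rw [hp0]
      have hd : Deg 0 (Pi.single ∅ a : Finset (Fin (n + 1)) → secRing I) := fun J hJ =>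
        Pi.single_eq_of_ne (by rintro rfl; simp at hJ) _
      obtain ⟨y, hy, e⟩ := kex_gr hX hM hF l hl hl' m (Pi.single ∅ a)
        (Or.inr (by exact_mod_cast hm)) (fun J => by
          by_cases hJ : J = ∅
          · subst hJ
            rw [Pi.single_eq_same]
            exact ha
          · rw [Pi.single_eq_of_ne hJ]
            exact zero_mem _)
        (Lev.iov_zero (fun J hJ => hd J hJ.ne') l)
      exact (hP a).2 ⟨y, hy, by rw [e, Pi.single_eq_same]⟩
    rw [he, Nat.sub_self]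

theorem fano_h (hX : IsManifold I c) (hM : M = n + 1 + c) (hn : 1 ≤ n) (hF : IsFano I c) :
    ∃ h : Polynomial ℤ, (∀ i, 0 ≤ h.coeff i) ∧ h.natDegree ≤ n ∧
      ((h.map (Int.castRingHom ℂ) : Polynomial ℂ) : PowerSeries ℂ) =
        (1 - PowerSeries.X) ^ (n + 1) * HS I 0 := by
  choose a ha hz using qf2_key hX hM hn hF
  refine ⟨PowerSeries.trunc (n + 1) (PowerSeries.mk fun m => (a m : ℤ)), fun i => ?_, ?_, ?_⟩
  · rw [PowerSeries.coeff_trunc]
    split_ifs
    · rw [PowerSeries.coeff_mk]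
      exact Int.natCast_nonneg _
    · exact le_rfl
  · exact Nat.lt_succ_iff.1 (PowerSeries.natDegree_trunc_lt _ _)
  · ext m
    rw [Polynomial.coeff_coe, Polynomial.coeff_map, PowerSeries.coeff_trunc, ha m]
    split_ifs with h
    · simp
    · rw [hz m (not_lt.1 h)]
      simp

end Pool.Agent.HCF
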