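import Pool.Agent.P.MP_f644fa_ag.Sec
import Pool.Agent.P.MP_f644fa_ag.Prod
import Pool.Agent.P.MP_f644fa_ag.Ladder

/-! The grading of the section ring. -/

noncomputable section
namespace Pool.Agent.HCF
open MvPolynomial Module Set

variable {M : ℕ} {I : Ideal (SS M)} {c n : ℕ}

/-- `P` is the decomposition of `a` into homogeneous components -/
def Dec (a : secRing I) (P : Polynomial (secRing I)) : Prop :=
  (∀ m : ℕ, P.coeff m ∈ Gr (secRing I) m) ∧ P.eval 1 = a

/-- two sums of powers that agree on nonzero numbers have the same coefficients -/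
theorem sec1_poly {P Q : Polynomial ℂ} (h : ∀ t : ℂ, t ≠ 0 → P.eval t = Q.eval t) : P = Q := by
  rw [← sub_eq_zero]
  refine Polynomial.eq_zero_of_infinite_isRoot _
    ((Set.finite_singleton (0 : ℂ)).infinite_compl.mono fun t ht => ?_)
  rw [mem_ofPred_eq, Polynomial.IsRoot.def, Polynomial.eval_sub, h t ht, sub_self]

theorem sec1_coef {N : ℕ} {u v : ℕ → ℂ} (h : ∀ t : ℂ, t ≠ 0 →
    ∑ d ∈ Finset.range N, t ^ d * u d = ∑ d ∈ Finset.range N, t ^ d * v d) {d : ℕ} (hd : d < N) :
    u d = v d := by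
  have h1 : ∑ d ∈ Finset.range N, Polynomial.monomial d (u d) =
      ∑ d ∈ Finset.range N, Polynomial.monomial d (v d) := sec1_poly fun t ht => by
    simpa only [Polynomial.eval_finsetSum, Polynomial.eval_monomial, mul_comm] using h t ht
  have h2 := congrArg (fun P : Polynomial ℂ => P.coeff d) h1
  simpa [Polynomial.finsetSum_coeff, Polynomial.coeff_monomial, hd] using h2

theorem sec1_sum {p : SS M} {N : ℕ} (h : p.totalDegree < N) :
    ∑ d ∈ Finset.range N, homogeneousComponent d p = p := by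
  conv_rhs => rw [← sum_homogeneousComponent p]
  refine (Finset.sum_subset (Finset.range_subset_range.2 h) fun d _ hd => ?_).symm
  exact homogeneousComponent_eq_zero d p (by simpa [Nat.lt_succ_iff] using hd)

theorem sec1_smul {p : SS M} {N : ℕ} (h : p.totalDegree < N) (t : ℂ) (x : Fin M → ℂ) :
    eval (t • x) p = ∑ d ∈ Finset.range N, t ^ d * eval x (homogeneousComponent d p) := by
  conv_lhs => rw [← sec1_sum h, map_sum]
  exact Finset.sum_congr rfl fun d _ => eval_smul_hom (homogeneousComponent_isHomogeneous d p) t x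

theorem sec1_ne (x : cone I) : ∃ j, x.1 j ≠ 0 := Function.ne_iff.1 x.2.1

/-- one exponent for all charts -/
theorem sec1_unif (a : secRing I) : ∃ (k : ℕ) (p : Fin M → SS M), ∀ j (x : cone I),
    x.1 j ^ k * a.1 x = eval x.1 (p j) := by
  choose k p hp using a.2
  refine ⟨Finset.univ.sup k, fun j => X j ^ (Finset.univ.sup k - k j) * p j, fun j x => ?_⟩
  have hk : k j ≤ Finset.univ.sup k := Finset.le_sup (Finset.mem_univ j)
  rw [map_mul, map_pow, eval_X, ← hp, ← mul_assoc, ← pow_add, Nat.sub_add_cancel hk]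

/-- the components glue -/
theorem sec1_comp (hX : IsManifold I c) {a : cone I → ℂ} {k : ℕ} {p : Fin M → SS M}
    (hp : ∀ j (x : cone I), x.1 j ^ k * a x = eval x.1 (p j)) (d : ℕ) :
    ∃ b : cone I → ℂ, ∀ j (x : cone I),
      x.1 j ^ k * b x = eval x.1 (homogeneousComponent d (p j)) := by
  have key : ∀ j l (x : cone I), x.1 l ^ k * eval x.1 (homogeneousComponent d (p j)) =
      x.1 j ^ k * eval x.1 (homogeneousComponent d (p l)) := by
    intro j l x
    refine sec1_coef (N := (p j).totalDegree + (p l).totalDegree + d + 1)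
      (u := fun d => x.1 l ^ k * eval x.1 (homogeneousComponent d (p j)))
      (v := fun d => x.1 j ^ k * eval x.1 (homogeneousComponent d (p l))) (fun t ht => ?_)
      (by omega)
    have h1 := hp j ⟨t • x.1, hX.smul_mem x.2 ht⟩
    have h2 := hp l ⟨t • x.1, hX.smul_mem x.2 ht⟩
    rw [sec1_smul (N := (p j).totalDegree + (p l).totalDegree + d + 1) (by omega)] at h1 h2
    simp only [mul_left_comm (t ^ _), ← Finset.mul_sum]
    rw [← h1, ← h2]
    simp only [Pi.smul_apply, smul_eq_mul]
    ring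
  choose j hj using sec1_ne (I := I)
  refine ⟨fun x => eval x.1 (homogeneousComponent d (p (j x))) / x.1 (j x) ^ k, fun l x => ?_⟩
  rw [← mul_div_assoc, key, mul_div_cancel_left₀ _ (pow_ne_zero k (hj x))]

theorem sec1_hom {b : cone I → ℂ} {k d : ℕ} {q : Fin M → SS M} (hq : ∀ j, (q j).IsHomogeneous d)
    (hb : ∀ j (x : cone I), x.1 j ^ k * b x = eval x.1 (q j)) : IsHom ((d : ℤ) - k) b := by
  intro x y t h
  have ht : t ≠ 0 := by
    rintro rfl
    exact y.2.1 (by rw [h, zero_smul])
  obtain ⟨l, hl⟩ := sec1_ne x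
  have h1 := hb l y
  rw [h, eval_smul_hom (hq l), ← hb l x, Pi.smul_apply, smul_eq_mul, mul_pow] at h1
  rw [zpow_sub₀ ht, zpow_natCast, zpow_natCast, div_mul_eq_mul_div, eq_div_iff (pow_ne_zero k ht)]
  refine mul_left_cancel₀ (pow_ne_zero k hl) ?_
  linear_combination h1

/-- evaluation at a point -/
def sec1_ev (x : cone I) : secRing I →+* ℂ :=
  (Pi.evalRingHom (fun _ : cone I => ℂ) x).comp (secRing I).val.toRingHom

theorem sec1_ev_apply (x : cone I) (a : secRing I) : sec1_ev x a = a.1 x := rfl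

theorem sec1_val {a : secRing I} {P : Polynomial (secRing I)} (h : Dec a P) (x y : cone I) {t : ℂ}
    (e : y.1 = t • x.1) : a.1 y = (P.map (sec1_ev x)).eval t := by
  rw [← sec1_ev_apply, ← h.2, Polynomial.eval_eq_sum_range, map_sum,
    Polynomial.eval_eq_sum_range' (Nat.lt_succ_of_le Polynomial.natDegree_map_le)]
  refine Finset.sum_congr rfl fun i _ => ?_
  rw [one_pow, mul_one, Polynomial.coeff_map, sec1_ev_apply, sec1_ev_apply, h.1 i x y t e,
    zpow_natCast, mul_comm]

theorem sec1_mono {A : Type} [CommRing A] {P : Polynomial A}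
    (h : P.natDegree ≤ P.natTrailingDegree) : P.eval 1 = P.coeff P.natDegree := by
  rw [Polynomial.eval_eq_sum_range, Finset.sum_range_succ, Finset.sum_eq_zero, zero_add, one_pow,
    mul_one]
  intro i hi
  rw [Polynomial.coeff_eq_zero_of_lt_natTrailingDegree ((Finset.mem_range.1 hi).trans_le h),
    zero_mul]

theorem exists_dec (hX : IsManifold I c) (hM : M = n + 1 + c) (hn : 1 ≤ n) (a : secRing I) :
    ∃ P, Dec a P := by
  obtain ⟨k, p, hp⟩ := sec1_unif a
  choose b hb using sec1_comp hX hp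
  let B : ℕ → secRing I := fun d => ⟨b d, fun j => ⟨k, _, hb d j⟩⟩
  have hB : ∀ d : ℕ, B d ∈ Gr (secRing I) ((d : ℤ) - k) := fun d =>
    sec1_hom (fun j => homogeneousComponent_isHomogeneous d (p j)) (hb d)
  obtain ⟨N, hN⟩ : ∃ N, ∀ j, (p j).totalDegree < k + N :=
    ⟨(Finset.univ.sup fun j => (p j).totalDegree) + 1, fun j => by
      have : (p j).totalDegree ≤ Finset.univ.sup fun j => (p j).totalDegree :=
        Finset.le_sup (f := fun j => (p j).totalDegree) (Finset.mem_univ j)
      omega⟩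
  have hs : ∑ d ∈ Finset.range (k + N), B d = a := by
    refine Subtype.ext (funext fun x => ?_)
    obtain ⟨l, hl⟩ := sec1_ne x
    refine mul_left_cancel₀ (pow_ne_zero k hl) ?_
    rw [hp, ← sec1_ev_apply, map_sum, Finset.mul_sum]
    conv_rhs => rw [← sec1_sum (hN l), map_sum]
    exact Finset.sum_congr rfl fun d _ => hb d l x
  refine ⟨∑ m ∈ Finset.range N, Polynomial.monomial m (B (k + m)), fun m => ?_, ?_⟩
  · rw [Polynomial.finsetSum_coeff]
    refine Submodule.sum_mem _ fun i _ => ?_
    rw [Polynomial.coeff_monomial]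
    split_ifs with h
    · subst h
      have := hB (k + i)
      rwa [Nat.cast_add, add_sub_cancel_left] at this
    · exact Submodule.zero_mem _
  · rw [← hs, Finset.sum_range_add, Finset.sum_eq_zero (s := Finset.range k), zero_add,
      Polynomial.eval_finsetSum]
    · simp only [Polynomial.eval_monomial, one_pow, mul_one]
    · intro d hd
      have h1 := hB d
      have h2 : (d : ℤ) - k < 0 := by
        have := Finset.mem_range.1 hd
        omega
      rwa [Gr_neg hX hM hn h2, Submodule.mem_bot] at h1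

theorem Dec.unique (hX : IsManifold I c) {a : secRing I} {P P' : Polynomial (secRing I)}
    (h : Dec a P) (h' : Dec a P') : P = P' := by
  refine Polynomial.ext fun m => Subtype.ext (funext fun x => ?_)
  have h1 : P.map (sec1_ev x) = P'.map (sec1_ev x) := sec1_poly fun t ht =>
    (sec1_val h x ⟨t • x.1, hX.smul_mem x.2 ht⟩ rfl).symm.trans
      (sec1_val h' x ⟨t • x.1, hX.smul_mem x.2 ht⟩ rfl)
  have h2 := congrArg (fun R : Polynomial ℂ => R.coeff m) h1
  simpa only [Polynomial.coeff_map, sec1_ev_apply] using h2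

theorem Dec.mul {a b : secRing I} {P Q : Polynomial (secRing I)} (h : Dec a P) (h' : Dec b Q) :
    Dec (a * b) (P * Q) := by
  refine ⟨fun m => ?_, by rw [Polynomial.eval_mul, h.2, h'.2]⟩
  rw [Polynomial.coeff_mul]
  refine Submodule.sum_mem _ fun x hx => ?_
  rw [← Finset.HasAntidiagonal.mem_antidiagonal.1 hx, Nat.cast_add]
  exact IsHom.mul (h.1 x.1) (h'.1 x.2)

theorem gr_sec (hX : IsManifold I c) (hM : M = n + 1 + c) (hn : 1 ≤ n) :
    GR (Gr (secRing I)) := by
  refine ⟨fun x y t h => by simp, fun ha hb => IsHom.mul ha hb, fun d hd => Gr_neg hX hM hn hd,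
    Gr_zero hX hM, fun d => ?_, fun {d e a} hd he ha => ?_, fun {d a b} h h0 => ?_⟩
  · rcases lt_or_ge d 0 with h | h
    · rw [Gr_neg hX hM hn h]
      infer_instance
    · obtain ⟨m, rfl⟩ := Int.eq_ofNat_of_zero_le h
      exact fin_Gr_nat hX hM m
  · obtain ⟨x, hx⟩ : ∃ x, a.1 x ≠ 0 := Function.ne_iff.1 fun h => ha (Subtype.ext h)
    have h1 := hd x ⟨(2 : ℂ) • x.1, hX.smul_mem x.2 two_ne_zero⟩ 2 rfl
    have h2 := he x ⟨(2 : ℂ) • x.1, hX.smul_mem x.2 two_ne_zero⟩ 2 rfl
    have h3 := congrArg norm (mul_right_cancel₀ hx (h1.symm.trans h2))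
    rw [norm_zpow, norm_zpow, Complex.norm_two] at h3
    exact zpow_right_injective₀ two_pos (by norm_num) h3
  · have := hX.isDomain_sec
    rcases lt_or_ge d 0 with hd | hd
    · rw [Gr_neg hX hM hn hd, Submodule.mem_bot] at h
      exact absurd h h0
    obtain ⟨m, rfl⟩ := Int.eq_ofNat_of_zero_le hd
    obtain ⟨P, hP⟩ := exists_dec hX hM hn a
    obtain ⟨Q, hQ⟩ := exists_dec hX hM hn b
    have hm : Dec (a * b) (Polynomial.monomial m (a * b)) := by
      refine ⟨fun i => ?_, by simp⟩
      rw [Polynomial.coeff_monomial]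
      split_ifs with hi
      · exact hi ▸ h
      · exact Submodule.zero_mem _
    have e := (hP.mul hQ).unique hX hm
    have hP0 : P ≠ 0 := by
      rintro rfl
      exact h0 (by rw [← hP.2, Polynomial.eval_zero, zero_mul])
    have hQ0 : Q ≠ 0 := by
      rintro rfl
      exact h0 (by rw [← hQ.2, Polynomial.eval_zero, mul_zero])
    have e1 := Polynomial.natDegree_mul hP0 hQ0
    have e2 := Polynomial.natTrailingDegree_mul hP0 hQ0
    rw [e, Polynomial.natDegree_monomial_eq m h0] at e1
    rw [e, Polynomial.natTrailingDegree_monomial h0] at e2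
    have l1 := P.natTrailingDegree_le_natDegree
    have l2 := Q.natTrailingDegree_le_natDegree
    refine ⟨P.natDegree, ?_, ?_⟩
    · rw [← hP.2, sec1_mono (by omega)]
      exact hP.1 _
    · rw [← hQ.2, sec1_mono (by omega), show (m : ℤ) - P.natDegree = Q.natDegree by omega]
      exact hQ.1 _

end Pool.Agent.HCF
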