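import Pool.Agent.P.MP_f644fa_ag.GDefs

/-! The conormal module is free (step B1). -/

noncomputable section
namespace Pool.Agent.HCF
open Finset Module

variable {A : Type} [CommRing A] [Algebra ℂ A] {σ : Type} [LinearOrder σ] [Fintype σ]
  {G : ℤ → Submodule ℂ A} {T : Set (σ → A)}

theorem split0_sg_single (j : σ) : sg j ({j} : Finset σ) = 1 := by
  have : ({j} : Finset σ).filter (· < j) = ∅ := by
    rw [filter_singleton]; simp
  rw [sg, this]; simp

theorem split0_iov_empty (v : σ → A) (ω : Finset σ → A) :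
    iov A v ω ∅ = ∑ j, v j * ω {j} := by
  simp [iov, io_apply, sg]

theorem split0_iov {ω : Finset σ → A} (h : Deg 1 ω) (v : σ → A) :
    iov A v ω = 0 ↔ ∑ j, v j * ω {j} = 0 := by
  rw [← split0_iov_empty]
  refine ⟨fun e => by rw [e]; rfl, fun e => ?_⟩
  funext J
  by_cases hJ : J = ∅
  · rw [hJ, e]; rfl
  · exact Deg.iov (k := 0) h v J (by simpa using hJ)

theorem finrank_Fm_one (G : ℤ → Submodule ℂ A) (T : Set (σ → A)) (d : ℤ) :
    finrank ℂ (Fm G T 1 d) = finrank ℂ (Vm G T d) := by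
  let f : (Finset σ → A) →ₗ[ℂ] (σ → A) := LinearMap.funLeft ℂ A fun j => {j}
  have hf : ∀ ω ∈ Fm G T 1 d, f ω ∈ Vm G T d := fun ω h =>
    ⟨fun v hv => (split0_iov h.2.1 v).1 (h.1 v hv), fun j => h.2.2 _⟩
  refine (LinearEquiv.ofBijective (f.restrict hf) ⟨?_, ?_⟩).finrank_eq
  · rw [injective_iff_map_eq_zero]
    intro ω h
    ext J
    by_cases hJ : J.card = 1
    · obtain ⟨j, rfl⟩ := card_eq_one.1 hJ
      exact congrFun (congrArg Subtype.val h) j
    · exact ω.2.2.1 J hJ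
  · rintro ⟨τ, hτ⟩
    let ω : Finset σ → A := fun J => ∑ j, if J = {j} then τ j else 0
    have h1 : ∀ j, ω {j} = τ j := fun j => by simp [ω]
    have h2 : Deg 1 ω := fun J hJ => Finset.sum_eq_zero fun j _ => if_neg (by
      rintro rfl; simp at hJ)
    refine ⟨⟨ω, fun v hv => (split0_iov h2 v).2 (by simp only [h1]; exact hτ.1 v hv), h2,
      fun J => Submodule.sum_mem _ fun j _ => ?_⟩, Subtype.ext (funext h1)⟩
    split_ifs
    · exact hτ.2 j
    · exact zero_mem _

theorem finrank_Fm_zero (G : ℤ → Submodule ℂ A) (T : Set (σ → A)) (d : ℤ) :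
    finrank ℂ (Fm G T 0 d) = finrank ℂ (G d) := by
  let f : (Finset σ → A) →ₗ[ℂ] A := LinearMap.proj ∅
  have hf : ∀ ω ∈ Fm G T 0 d, f ω ∈ G d := fun ω h => h.2.2 _
  refine (LinearEquiv.ofBijective (f.restrict hf) ⟨?_, ?_⟩).finrank_eq
  · rw [injective_iff_map_eq_zero]
    intro ω h
    ext J
    by_cases hJ : J.card = 0
    · rw [card_eq_zero.1 hJ]
      exact congrArg Subtype.val h
    · exact ω.2.2.1 J hJ
  · rintro ⟨a, ha⟩
    have h2 : Deg 0 (Pi.single ∅ a : Finset σ → A) := fun J hJ =>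
      Pi.single_eq_of_ne (by rintro rfl; simp at hJ) _
    refine ⟨⟨Pi.single ∅ a, fun v _ => Lev.iov_zero (fun J hJ => h2 J hJ.ne') v, h2,
      fun J => ?_⟩, Subtype.ext (by simp [f])⟩
    rw [Pi.single_apply]
    split_ifs
    · exact ha
    · exact zero_mem _

theorem split0_fin {ι : Type} [Finite ι] (hG : GR G) (d : ℤ) (p : Submodule ℂ (ι → A))
    (h : ∀ w ∈ p, ∀ i, w i ∈ G d) : FiniteDimensional ℂ p := by
  have := hG.fin d
  let f : p →ₗ[ℂ] (ι → G d) := LinearMap.pi fun i =>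
    LinearMap.codRestrict (G d) (LinearMap.proj i ∘ₗ p.subtype) fun w => h w w.2 i
  refine Module.Finite.of_injective f fun a b e => ?_
  ext i
  exact congrArg Subtype.val (congrFun e i)

theorem GR.fin_Fm (hG : GR G) (T : Set (σ → A)) (k : ℕ) (d : ℤ) :
    FiniteDimensional ℂ (Fm G T k d) := split0_fin hG d _ fun _ h => h.2.2

theorem GR.fin_Vm (hG : GR G) (T : Set (σ → A)) (d : ℤ) : FiniteDimensional ℂ (Vm G T d) :=
  split0_fin hG d _ fun _ h => h.2

theorem GR.Fm_neg (hG : GR G) (T : Set (σ → A)) (k : ℕ) {d : ℤ} (hd : d < 0) :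
    Fm G T k d = ⊥ := by
  rw [eq_bot_iff]
  intro ω h
  funext J
  have := h.2.2 J
  rwa [hG.neg d hd] at this

end Pool.Agent.HCF
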