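import Mathlib

/-! The exchange of two exterior algebras is conjugate to the parity of the second one. -/

noncomputable section
namespace Pool.Agent.HCF
open Finset Module
open scoped Kronecker

theorem swap0_sq {E : Type} [Ring E] [Algebra ℂ E] {a : E} (h : a * a + a * a = 0) :
    a * a = 0 := by
  rw [← two_smul ℂ (a * a)] at h
  exact (smul_eq_zero.1 h).resolve_left two_ne_zero

/-- second quantisation of a unipotent `2 × 2` matrix -/
theorem exists_unip {E σ : Type} [Ring E] [Algebra ℂ E] [Fintype σ] [DecidableEq σ]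
    (e₁ i₁ e₂ i₂ : σ → E) (h1 : ∀ j k, e₁ j * e₁ k + e₁ k * e₁ j = 0)
    (h2 : ∀ j k, i₂ j * i₂ k + i₂ k * i₂ j = 0)
    (h3 : ∀ j k, i₁ j * e₁ k + e₁ k * i₁ j = if j = k then 1 else 0)
    (h4 : ∀ j k, i₂ j * e₂ k + e₂ k * i₂ j = if j = k then 1 else 0)
    (h5 : ∀ j k, e₁ j * e₂ k + e₂ k * e₁ j = 0) (h6 : ∀ j k, i₁ j * i₂ k + i₂ k * i₁ j = 0)
    (h7 : ∀ j k, e₁ j * i₂ k + i₂ k * e₁ j = 0) (c : ℂ) :
    ∃ U V : E, U * V = 1 ∧ V * U = 1 ∧ (∀ j, U * i₁ j = (i₁ j - c • i₂ j) * U) ∧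
      (∀ j, U * i₂ j = i₂ j * U) ∧ (∀ j, U * e₁ j = e₁ j * U) ∧
      (∀ j, U * e₂ j = (e₂ j + c • e₁ j) * U) ∧
      (∀ a, (∀ j, Commute a (e₁ j * i₂ j)) → Commute a U) ∧
      ∀ a, (∀ j, i₂ j * a = 0) → U * a = a := by
  have a1 : ∀ j k, e₁ j * e₁ k = -(e₁ k * e₁ j) := fun j k => eq_neg_of_add_eq_zero_left (h1 j k)
  have a2 : ∀ j k, i₂ j * i₂ k = -(i₂ k * i₂ j) := fun j k => eq_neg_of_add_eq_zero_left (h2 j k)
  have a7 : ∀ j k, i₂ k * e₁ j = -(e₁ j * i₂ k) := fun j k =>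
    eq_neg_of_add_eq_zero_right (h7 j k)
  have s1 : ∀ j, e₁ j * e₁ j = 0 := fun j => swap0_sq (h1 j j)
  have s2 : ∀ j, i₂ j * i₂ j = 0 := fun j => swap0_sq (h2 j j)
  have n1 : ∀ k j, e₁ k * i₂ k * e₁ j = e₁ j * (e₁ k * i₂ k) := fun k j => by
    rw [mul_assoc, a7, mul_neg, ← mul_assoc, a1 k j, neg_mul, neg_neg, mul_assoc]
  have n2 : ∀ k j, e₁ k * i₂ k * i₂ j = i₂ j * (e₁ k * i₂ k) := fun k j => by
    rw [← mul_assoc, a7, mul_assoc, a2 k j, mul_neg, neg_mul, mul_assoc]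
  have n3 : ∀ k, e₁ k * (e₁ k * i₂ k) = 0 := fun k => by rw [← mul_assoc, s1, zero_mul]
  have n4 : ∀ k, i₂ k * (e₁ k * i₂ k) = 0 := fun k => by rw [← n2, mul_assoc, s2, mul_zero]
  have n5 : ∀ k, e₁ k * i₂ k * (e₁ k * i₂ k) = 0 := fun k => by rw [mul_assoc, n4, mul_zero]
  have n6 : ∀ k j, e₁ k * i₂ k * i₁ j = i₁ j * (e₁ k * i₂ k) - if j = k then i₂ j else 0 :=
    fun k j => by
      have b1 : i₂ k * i₁ j = -(i₁ j * i₂ k) := eq_neg_of_add_eq_zero_right (h6 j k)
      have b2 : e₁ k * i₁ j = (if j = k then 1 else 0) - i₁ j * e₁ k := by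
        rw [← h3 j k]; abel
      rw [mul_assoc, b1, mul_neg, ← mul_assoc, b2, sub_mul, neg_sub, mul_assoc]
      split_ifs with h
      · rw [h, one_mul]
      · rw [zero_mul]
  have n7 : ∀ k j, e₁ k * i₂ k * e₂ j = e₂ j * (e₁ k * i₂ k) + if j = k then e₁ j else 0 :=
    fun k j => by
      have b1 : e₁ k * e₂ j = -(e₂ j * e₁ k) := eq_neg_of_add_eq_zero_left (h5 k j)
      have b2 : i₂ k * e₂ j = (if k = j then 1 else 0) - e₂ j * i₂ k := by
        rw [← h4 k j]; abel
      rw [mul_assoc, b2, mul_sub, ← mul_assoc, b1, neg_mul, sub_neg_eq_add, add_comm, mul_assoc]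
      by_cases h : j = k
      · rw [if_pos h, if_pos h.symm, h, mul_one]
      · rw [if_neg h, if_neg (Ne.symm h), mul_zero]
  have key : ∀ s : Finset σ, ∃ U V : E, U * V = 1 ∧ V * U = 1 ∧
      (∀ j, U * i₁ j = (i₁ j - if j ∈ s then c • i₂ j else 0) * U) ∧
      (∀ j, U * i₂ j = i₂ j * U) ∧ (∀ j, U * e₁ j = e₁ j * U) ∧
      (∀ j, U * e₂ j = (e₂ j + if j ∈ s then c • e₁ j else 0) * U) ∧
      (∀ a, (∀ j, Commute a (e₁ j * i₂ j)) → Commute a U) ∧
      ∀ a, (∀ j, i₂ j * a = 0) → U * a = a := by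
    intro s
    induction s using Finset.induction_on with
    | empty => exact ⟨1, 1, by simp, by simp, by simp, by simp, by simp, by simp,
        fun a _ => Commute.one_right a, fun a _ => one_mul a⟩
    | insert k s hk ih =>
      obtain ⟨U, V, p1, p2, p3, p4, p5, p6, p7, p8⟩ := ih
      obtain ⟨u, hu⟩ : ∃ u, u = 1 + c • (e₁ k * i₂ k) := ⟨_, rfl⟩
      obtain ⟨v, hv⟩ : ∃ v, v = 1 - c • (e₁ k * i₂ k) := ⟨_, rfl⟩
      have nn : c • (e₁ k * i₂ k) * c • (e₁ k * i₂ k) = 0 := by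
        rw [smul_mul_assoc, mul_smul_comm, n5, smul_zero, smul_zero]
      have uv : u * v = 1 := by
        rw [hu, hv, add_mul, one_mul, mul_sub, mul_one, nn]; abel
      have vu : v * u = 1 := by
        rw [hu, hv, sub_mul, one_mul, mul_add, mul_one, nn]; abel
      have q1 : ∀ j, u * e₁ j = e₁ j * u := fun j => by
        rw [hu, add_mul, mul_add, one_mul, mul_one, smul_mul_assoc, mul_smul_comm, n1]
      have q2 : ∀ j, u * i₂ j = i₂ j * u := fun j => by
        rw [hu, add_mul, mul_add, one_mul, mul_one, smul_mul_assoc, mul_smul_comm, n2]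
      have q3 : e₁ k * u = e₁ k := by rw [hu, mul_add, mul_one, mul_smul_comm, n3, smul_zero, add_zero]
      have q4 : i₂ k * u = i₂ k := by rw [hu, mul_add, mul_one, mul_smul_comm, n4, smul_zero, add_zero]
      have q5 : ∀ j, u * i₁ j = i₁ j * u - c • if j = k then i₂ j else 0 := fun j => by
        rw [hu, add_mul, mul_add, one_mul, mul_one, smul_mul_assoc, mul_smul_comm, n6, smul_sub]
        abel
      have q6 : ∀ j, u * e₂ j = e₂ j * u + c • if j = k then e₁ j else 0 := fun j => by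
        rw [hu, add_mul, mul_add, one_mul, mul_one, smul_mul_assoc, mul_smul_comm, n7, smul_add]
        abel
      refine ⟨u * U, V * v, ?_, ?_, fun j => ?_, fun j => ?_, fun j => ?_, fun j => ?_,
        fun a ha => ?_, fun a ha => ?_⟩
      · rw [mul_assoc, ← mul_assoc U, p1, one_mul, uv]
      · rw [mul_assoc, ← mul_assoc v, vu, one_mul, p2]
      · rw [mul_assoc, p3, ← mul_assoc, ← mul_assoc]
        congr 1
        rw [mul_sub, q5, sub_mul]
        by_cases h : j = k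
        · subst h
          rw [if_pos rfl, if_neg hk, if_pos (mem_insert_self _ _), mul_zero, sub_zero,
            smul_mul_assoc, q4]
        · rw [if_neg h, smul_zero, sub_zero]
          by_cases h' : j ∈ s
          · rw [if_pos h', if_pos (mem_insert_of_mem h'), mul_smul_comm, smul_mul_assoc, q2]
          · rw [if_neg h', if_neg (by simp [h, h']), mul_zero, zero_mul]
      · rw [mul_assoc, p4, ← mul_assoc, q2, mul_assoc]
      · rw [mul_assoc, p5, ← mul_assoc, q1, mul_assoc]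
      · rw [mul_assoc, p6, ← mul_assoc, ← mul_assoc]
        congr 1
        rw [mul_add, q6, add_mul]
        by_cases h : j = k
        · subst h
          rw [if_pos rfl, if_neg hk, if_pos (mem_insert_self _ _), mul_zero, add_zero,
            smul_mul_assoc, q3]
        · rw [if_neg h, smul_zero, add_zero]
          by_cases h' : j ∈ s
          · rw [if_pos h', if_pos (mem_insert_of_mem h'), mul_smul_comm, smul_mul_assoc, q1]
          · rw [if_neg h', if_neg (by simp [h, h']), mul_zero, zero_mul]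
      · refine Commute.mul_right ?_ (p7 a ha)
        rw [hu]
        exact (Commute.one_right a).add_right ((ha k).smul_right c)
      · rw [mul_assoc, p8 a ha, hu, add_mul, one_mul, smul_mul_assoc, mul_assoc, ha, mul_zero,
          smul_zero, add_zero]
  obtain ⟨U, V, p1, p2, p3, p4, p5, p6, p7, p8⟩ := key univ
  simp only [mem_univ, if_true] at p3 p6
  exact ⟨U, V, p1, p2, p3, p4, p5, p6, p7, p8⟩

end Pool.Agent.HCF
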