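import Pool.Agent.P.MP_f644fa_ag.YDefs

/-! Adjunction for complete intersections, in the words of `CanonicalIs` and `IsFano`. -/

noncomputable section
namespace Pool.Agent.HCF.Tg
open MvPolynomial

variable {M c : ℕ}

/-- the differential of `f` at `x` -/
def dl (f : MvPolynomial (Fin M) ℂ) (x : Fin M → ℂ) : (Fin M → ℂ) →ₗ[ℂ] ℂ where
  toFun v := ∑ j, v j * eval x (pderiv j f)
  map_add' v w := by simp [add_mul, Finset.sum_add_distrib]
  map_smul' t v := by simp [Finset.mul_sum, mul_assoc]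

theorem dl_apply (f : MvPolynomial (Fin M) ℂ) (x v : Fin M → ℂ) :
    dl f x v = ∑ j, v j * eval x (pderiv j f) := rfl

/-- the wedge of the differentials -/
def jac (f : Fin c → MvPolynomial (Fin M) ℂ) (x : Fin M → ℂ) : (Fin M → ℂ) [⋀^Fin c]→ₗ[ℂ] ℂ :=
  (Matrix.detRowAlternating : (Fin c → ℂ) [⋀^Fin c]→ₗ[ℂ] ℂ).compLinearMap
    (LinearMap.pi fun i => dl (f i) x)

theorem jac_apply (f : Fin c → MvPolynomial (Fin M) ℂ) (x : Fin M → ℂ) (v : Fin c → Fin M → ℂ) :
    jac f x v = Matrix.det (Matrix.of fun k i => dl (f i) x (v k)) := rfl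

theorem jac_tang {I : Ideal (MvPolynomial (Fin M) ℂ)} {f : Fin c → MvPolynomial (Fin M) ℂ}
    (hf : ∀ i, f i ∈ I) (x : Fin M → ℂ) (v : Fin c → Fin M → ℂ) (k : Fin c)
    (hv : v k ∈ tang I x) : jac f x v = 0 := by
  rw [jac_apply]
  exact Matrix.det_eq_zero_of_row_eq_zero k fun i => hv (f i) (hf i)

/-- the wedge as a polynomial -/
def jacP (f : Fin c → MvPolynomial (Fin M) ℂ) (v : Fin c → Fin M → ℂ) : MvPolynomial (Fin M) ℂ :=
  Matrix.det (Matrix.of fun k i => ∑ j, C (v k j) * pderiv j (f i))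

theorem eval_jacP (f : Fin c → MvPolynomial (Fin M) ℂ) (v : Fin c → Fin M → ℂ) (x : Fin M → ℂ) :
    eval x (jacP f v) = jac f x v := by
  rw [jacP, RingHom.map_det, jac_apply]
  congr 1
  ext k i
  simp [dl_apply]

theorem eval_smul_hom {p : MvPolynomial (Fin M) ℂ} {d : ℕ} (hp : p.IsHomogeneous d) (t : ℂ)
    (x : Fin M → ℂ) : eval (t • x) p = t ^ d * eval x p := by
  rw [eval_eq', eval_eq', Finset.mul_sum]
  refine Finset.sum_congr rfl fun m hm => ?_
  have h1 : ∑ j, m j = d := by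
    have := hp (mem_support_iff.mp hm)
    rw [← this, Finsupp.weight_apply, Finsupp.sum_fintype _ _ (by simp)]
    simp
  simp only [Pi.smul_apply, smul_eq_mul, mul_pow, Finset.prod_mul_distrib,
    Finset.prod_pow_eq_pow_sum, h1]
  ring

theorem dl_smul {p : MvPolynomial (Fin M) ℂ} {d : ℕ} (hp : p.IsHomogeneous d) {t : ℂ} (_ht : t ≠ 0)
    (x v : Fin M → ℂ) : dl p (t • x) v = t ^ ((d : ℤ) - 1) * dl p x v := by
  rw [dl_apply, dl_apply, Finset.mul_sum]
  refine Finset.sum_congr rfl fun j _ => ?_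
  rcases Nat.eq_zero_or_pos d with rfl | hd
  · have : p = C (coeff 0 p) := by
      rw [← totalDegree_eq_zero_iff_eq_C]
      exact Nat.le_zero.mp hp.totalDegree_le
    rw [this]; simp
  · rw [eval_smul_hom (hp.pderiv (i := j)) t x]
    have : ((d : ℤ) - 1) = ((d - 1 : ℕ) : ℤ) := by omega
    rw [this, zpow_natCast]; ring

theorem jac_smul {f : Fin c → MvPolynomial (Fin M) ℂ} {d : Fin c → ℕ}
    (hf : ∀ i, (f i).IsHomogeneous (d i)) {t : ℂ} (ht : t ≠ 0) (x : Fin M → ℂ)
    (v : Fin c → Fin M → ℂ) :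
    jac f (t • x) v = t ^ ((∑ i, (d i : ℤ)) - c) * jac f x v := by
  rw [jac_apply, jac_apply]
  have h1 : (Matrix.of fun k i => dl (f i) (t • x) (v k)) =
      Matrix.of fun k i => t ^ ((d i : ℤ) - 1) * (Matrix.of fun k i => dl (f i) x (v k)) k i := by
    ext k i
    simp [dl_smul (hf i) ht]
  rw [h1, Matrix.det_mul_row]
  congr 1
  have h2 : ∀ s : Finset (Fin c), ∏ i ∈ s, t ^ ((d i : ℤ) - 1) = t ^ (∑ i ∈ s, ((d i : ℤ) - 1)) := by
    intro s
    induction s using Finset.induction_on with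
    | empty => simp
    | insert a s ha ih => rw [Finset.prod_insert ha, Finset.sum_insert ha, ih, zpow_add₀ ht]
  rw [h2]
  simp [Finset.sum_sub_distrib]

theorem jac_ne {f : Fin c → MvPolynomial (Fin M) ℂ} {x : Fin M → ℂ}
    (h : LinearIndependent ℂ fun i j => eval x (pderiv j (f i))) : ∃ v, jac f x v ≠ 0 := by
  let A : Matrix (Fin c) (Fin M) ℂ := Matrix.of fun i j => eval x (pderiv j (f i))
  have hr : A.rank = Fintype.card (Fin c) := LinearIndependent.rank_matrix (M := A) h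
  have ht : LinearMap.range A.mulVecLin = ⊤ := by
    apply Submodule.eq_top_of_finrank_eq
    rw [Module.finrank_fintype_fun_eq_card]
    exact hr
  have hs : ∀ k : Fin c, ∃ w, A.mulVec w = Pi.single k 1 := fun k =>
    (LinearMap.range_eq_top.mp ht) (Pi.single k 1)
  choose w hw using hs
  refine ⟨w, ?_⟩
  rw [jac_apply]
  have : (Matrix.of fun k i => dl (f i) x (w k)) = 1 := by
    ext k i
    have := congrFun (hw k) i
    simp only [Matrix.mulVec, dotProduct, A, Matrix.of_apply] at this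
    rw [Matrix.of_apply, dl_apply, Matrix.one_apply]
    simp only [mul_comm (w k _), this, Pi.single_apply, eq_comm]
  rw [this]; simp

/-- on a manifold the differentials of any `c` generators are independent -/
theorem indep_of_span {f : Fin c → MvPolynomial (Fin M) ℂ}
    (hX : IsManifold (Ideal.span (Set.range f)) c) {x : Fin M → ℂ}
    (hx : x ∈ cone (Ideal.span (Set.range f))) :
    LinearIndependent ℂ fun i j => eval x (pderiv j (f i)) := by
  obtain ⟨g, -, hg, hi, -, -⟩ := hX.smooth x hx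
  set W := Submodule.span ℂ (Set.range fun i j => eval x (pderiv j (f i))) with hW
  have key : ∀ h ∈ Ideal.span (Set.range f), (fun j => eval x (pderiv j h)) ∈ W := by
    intro h hh
    induction hh using Submodule.span_induction with
    | mem h hh =>
      obtain ⟨i, rfl⟩ := hh
      exact Submodule.subset_span ⟨i, rfl⟩
    | zero => simp only [map_zero]; exact W.zero_mem
    | add a b _ _ ha hb => simp only [map_add]; exact W.add_mem ha hb
    | smul a b hb ih =>
      have h0 : eval x b = 0 := hx.2 b hb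
      have : (fun j => eval x (pderiv j (a • b))) = eval x a • fun j => eval x (pderiv j b) := by
        funext j
        simp [h0]
      rw [this]
      exact W.smul_mem _ ih
  rw [linearIndependent_iff_card_le_finrank_span]
  have h1 := linearIndependent_iff_card_eq_finrank_span.mp hi
  rw [h1]
  exact Submodule.finrank_mono (Submodule.span_le.mpr (by rintro _ ⟨i, rfl⟩; exact key _ (hg i)))

theorem poly_mem {I : Ideal (MvPolynomial (Fin M) ℂ)} (p : MvPolynomial (Fin M) ℂ)
    {a : cone I → ℂ} (h : ∀ x, a x = eval x.1 p) : a ∈ secRing I :=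
  fun _ => ⟨0, p, fun x => by simp [h x]⟩

theorem gen_mem {ι : Type} (f : ι → MvPolynomial (Fin M) ℂ) (i : ι) :
    f i ∈ Ideal.span (Set.range f) := Ideal.subset_span ⟨i, rfl⟩

theorem t_ne {I : Ideal (MvPolynomial (Fin M) ℂ)} {x y : cone I} {t : ℂ} (h : y.1 = t • x.1) :
    t ≠ 0 := by
  rintro rfl
  exact y.2.1 (by simpa using h)

theorem canonical_ci {f : Fin c → MvPolynomial (Fin M) ℂ} {d : Fin c → ℕ}
    (hf : ∀ i, (f i).IsHomogeneous (d i)) (hX : IsManifold (Ideal.span (Set.range f)) c) :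
    CanonicalIs (Ideal.span (Set.range f)) c ((∑ i, (d i : ℤ)) - M) := by
  refine ⟨fun x => jac f x.1, fun x h => ?_, fun x v i hv => ?_, fun v => ⟨?_, ?_⟩⟩
  · obtain ⟨v, hv⟩ := jac_ne (indep_of_span hX x.2)
    exact hv (by rw [show jac f x.1 = 0 from h]; rfl)
  · exact jac_tang (gen_mem f) _ v i hv
  · exact poly_mem (jacP f v) fun x => (eval_jacP _ _ _).symm
  · intro x y t h
    simp only [h, jac_smul hf (t_ne h)]
    congr 2
    ring

theorem fano_ci {f : Fin c → MvPolynomial (Fin M) ℂ} {d : Fin c → ℕ}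
    (hf : ∀ i, (f i).IsHomogeneous (d i)) (hX : IsManifold (Ideal.span (Set.range f)) c)
    (hd : ∑ i, d i < M) : IsFano (Ideal.span (Set.range f)) c := by
  obtain ⟨e, he⟩ : ∃ e, M = ∑ i, d i + 1 + e := ⟨M - (∑ i, d i + 1), by omega⟩
  refine ⟨1, M, fun j x v => x.1 j ^ e * jac f x.1 (v 0), le_rfl, fun j x => ?_,
    fun j v => ⟨?_, ?_⟩, fun x => ?_⟩
  · refine ⟨x.1 j ^ e • jac f x.1, fun v k hv => ?_, fun v => by simp⟩
    simp [jac_tang (gen_mem f) _ v k hv]
  · exact poly_mem (X j ^ e * jacP f (v 0)) fun x => by simp [eval_jacP]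
  · intro x y t h
    have ht := t_ne h
    have h2 : ((1 : ℕ) : ℤ) * ((M : ℤ) - c) - 1 = (e : ℤ) + ((∑ i, (d i : ℤ)) - c) := by
      have : (M : ℤ) = ∑ i, (d i : ℤ) + 1 + e := by exact_mod_cast he
      rw [this]; push_cast; ring
    simp only [h, jac_smul hf ht, h2, zpow_add₀ ht, zpow_natCast, Pi.smul_apply, smul_eq_mul]
    ring
  · obtain ⟨v, hv⟩ := jac_ne (indep_of_span hX x.2)
    obtain ⟨j, hj⟩ := Function.ne_iff.mp x.2.1
    exact ⟨j, fun _ => v, mul_ne_zero (pow_ne_zero _ hj) hv⟩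

theorem homog_span {ι : Type} {f : ι → MvPolynomial (Fin M) ℂ} {d : ι → ℕ}
    (hf : ∀ i, (f i).IsHomogeneous (d i)) :
    ∀ h ∈ Ideal.span (Set.range f), ∀ e, homogeneousComponent e h ∈ Ideal.span (Set.range f) := by
  intro h hh e
  let _ := @MvPolynomial.gradedAlgebra (Fin M) ℂ _
  have h1 := Ideal.homogeneous_span (homogeneousSubmodule (Fin M) ℂ) (Set.range f)
    (by rintro _ ⟨i, rfl⟩; exact ⟨d i, hf i⟩)
  have h2 := h1 e hh
  rwa [show (DirectSum.decompose (homogeneousSubmodule (Fin M) ℂ) h e : MvPolynomial (Fin M) ℂ) =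
    homogeneousComponent e h from decomposition.decompose'_apply h e] at h2

theorem mem_cone_span {ι : Type} {f : ι → MvPolynomial (Fin M) ℂ} {x : Fin M → ℂ} :
    x ∈ cone (Ideal.span (Set.range f)) ↔ x ≠ 0 ∧ ∀ i, eval x (f i) = 0 := by
  refine ⟨fun h => ⟨h.1, fun i => h.2 _ (Ideal.subset_span ⟨i, rfl⟩)⟩, fun h => ⟨h.1, ?_⟩⟩
  have : Ideal.span (Set.range f) ≤ RingHom.ker (eval x) :=
    Ideal.span_le.mpr (by rintro _ ⟨i, rfl⟩; exact h.2 i)
  exact fun p hp => this hp

end Pool.Agent.HCF.Tg
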