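import Pool.Agent.P.MP_f644fa_ag.Tg1

/-! The twisted cubic: a manifold whose ideal is not generated by two elements. -/

noncomputable section
namespace Pool.Agent.HCF.Tg
open MvPolynomial

/-- the three quadrics through the twisted cubic -/
def cq : Fin 3 → MvPolynomial (Fin 4) ℂ :=
  ![X 0 * X 2 - X 1 ^ 2, X 1 * X 3 - X 2 ^ 2, X 0 * X 3 - X 1 * X 2]

/-- the ideal of the twisted cubic -/
def cI : Ideal (MvPolynomial (Fin 4) ℂ) := Ideal.span (Set.range cq)

theorem cq_mem (i : Fin 3) : cq i ∈ cI := gen_mem cq i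

theorem cq_hom (i : Fin 3) : (cq i).IsHomogeneous 2 := by
  have h : ∀ a b : Fin 4, (X a * X b : MvPolynomial (Fin 4) ℂ).IsHomogeneous 2 := fun a b =>
    (isHomogeneous_X ℂ a).mul (isHomogeneous_X ℂ b)
  fin_cases i
  · exact (h 0 2).sub (isHomogeneous_X_pow 1 2)
  · exact (h 1 3).sub (isHomogeneous_X_pow 2 2)
  · exact (h 0 3).sub (h 1 2)

theorem cone_cI {x : Fin 4 → ℂ} : x ∈ cone cI ↔
    x ≠ 0 ∧ x 0 * x 2 = x 1 ^ 2 ∧ x 1 * x 3 = x 2 ^ 2 ∧ x 0 * x 3 = x 1 * x 2 := by
  rw [cI, mem_cone_span]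
  simp [Fin.forall_fin_succ, cq, sub_eq_zero]

/-- the coefficient ring sits on the first and the last variable -/
def ci : MvPolynomial (Fin 2) ℂ →ₐ[ℂ] MvPolynomial (Fin 4) ℂ := rename ![0, 3]

theorem cI_normal (p : MvPolynomial (Fin 4) ℂ) :
    ∃ a b c : MvPolynomial (Fin 2) ℂ, p - (ci a + ci b * X 1 + ci c * X 2) ∈ cI := by
  have e0 : ci (X 0) = X 0 := by simp [ci]
  have e1 : ci (X 1) = X 3 := by simp [ci]
  induction p using MvPolynomial.induction_on with
  | C r => exact ⟨C r, 0, 0, by simp [ci]⟩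
  | add p q hp hq =>
    obtain ⟨a, b, c, h⟩ := hp
    obtain ⟨a', b', c', h'⟩ := hq
    refine ⟨a + a', b + b', c + c', ?_⟩
    have := cI.add_mem h h'
    simp only [map_add]
    exact (congrArg (· ∈ cI) (by ring)).mp this
  | mul_X p j hp =>
    obtain ⟨a, b, c, h⟩ := hp
    have h0 := cq_mem 0
    have h1 := cq_mem 1
    have h2 := cq_mem 2
    simp only [cq, Matrix.cons_val_zero, Matrix.cons_val_one, Matrix.cons_val] at h0 h1 h2
    have hj := cI.mul_mem_right (X j) h
    fin_cases j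
    · refine ⟨a * X 0, b * X 0, c * X 0, ?_⟩
      simp only [map_mul, e0]
      exact (congrArg (· ∈ cI) (by simp only [Fin.zero_eta]; ring)).mp hj
    · refine ⟨c * X 0 * X 1, a, b * X 0, ?_⟩
      simp only [map_mul, e0, e1]
      have := cI.sub_mem (cI.sub_mem hj (cI.mul_mem_left (ci b) h0)) (cI.mul_mem_left (ci c) h2)
      exact (congrArg (· ∈ cI) (by simp only [Fin.mk_one]; ring)).mp this
    · refine ⟨b * X 0 * X 1, c * X 1, a, ?_⟩
      simp only [map_mul, e0, e1]
      have := cI.sub_mem (cI.sub_mem hj (cI.mul_mem_left (ci c) h1)) (cI.mul_mem_left (ci b) h2)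
      exact (congrArg (· ∈ cI) (by simp only [Fin.reduceFinMk]; ring)).mp this
    · refine ⟨a * X 1, b * X 1, c * X 1, ?_⟩
      simp only [map_mul, e1]
      exact (congrArg (· ∈ cI) (by simp only [Fin.reduceFinMk]; ring)).mp hj

/-- the parametrisation -/
def cg (s t : ℂ) : Fin 4 → ℂ := ![s ^ 3, s ^ 2 * t, s * t ^ 2, t ^ 3]

theorem cg_zero (s t : ℂ) : ∀ p ∈ cI, eval (cg s t) p = 0 := by
  have : cI ≤ RingHom.ker (eval (cg s t)) := by
    refine Ideal.span_le.mpr ?_
    rintro _ ⟨i, rfl⟩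
    fin_cases i <;> simp [cq, cg] <;> ring
  exact fun p hp => this hp

theorem eval_ci (s t : ℂ) (a : MvPolynomial (Fin 2) ℂ) :
    eval (cg s t) (ci a) = eval ![s ^ 3, t ^ 3] a := by
  rw [ci, eval_rename]
  congr 2
  funext i
  fin_cases i <;> simp [cg]

theorem cube_zero {a : MvPolynomial (Fin 2) ℂ} (h : ∀ s t : ℂ, eval ![s ^ 3, t ^ 3] a = 0) :
    a = 0 := by
  refine MvPolynomial.funext fun u => ?_
  obtain ⟨s, hs⟩ := IsAlgClosed.exists_pow_nat_eq (u 0) (show 0 < 3 by norm_num)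
  obtain ⟨t, ht⟩ := IsAlgClosed.exists_pow_nat_eq (u 1) (show 0 < 3 by norm_num)
  have : u = ![s ^ 3, t ^ 3] := by
    funext i
    fin_cases i <;> simp [hs, ht]
  rw [this, h, map_zero]

theorem mem_cI {p : MvPolynomial (Fin 4) ℂ} (hp : ∀ s t, eval (cg s t) p = 0) : p ∈ cI := by
  obtain ⟨a, b, c, h⟩ := cI_normal p
  obtain ⟨w, hw⟩ : ∃ w : ℂ, w ^ 2 + w + 1 = 0 := by
    obtain ⟨r, hr⟩ := IsAlgClosed.exists_pow_nat_eq (-3 : ℂ) (show 0 < 2 by norm_num)
    exact ⟨(r - 1) / 2, by linear_combination hr / 4⟩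
  have hw3 : w ^ 3 = 1 := by linear_combination (w - 1) * hw
  have key : ∀ s t : ℂ, eval ![s ^ 3, t ^ 3] a + eval ![s ^ 3, t ^ 3] b * (s ^ 2 * t) +
      eval ![s ^ 3, t ^ 3] c * (s * t ^ 2) = 0 := by
    intro s t
    have := cg_zero s t _ h
    simp only [map_sub, map_add, map_mul, eval_ci, eval_X, hp] at this
    simp only [cg, Matrix.cons_val_one, Matrix.cons_val_zero, Matrix.cons_val] at this
    linear_combination -this
  have k3 : ∀ s t : ℂ, eval ![s ^ 3, t ^ 3] a = 0 ∧ eval ![s ^ 3, t ^ 3] b * (s ^ 2 * t) = 0 ∧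
      eval ![s ^ 3, t ^ 3] c * (s * t ^ 2) = 0 := by
    intro s t
    have h0 := key s t
    have h1 := key (w * s) t
    have h2 := key (w ^ 2 * s) t
    rw [show (w * s) ^ 3 = s ^ 3 by rw [mul_pow, hw3, one_mul]] at h1
    rw [show (w ^ 2 * s) ^ 3 = s ^ 3 by rw [mul_pow, ← pow_mul, mul_comm 2 3, pow_mul, hw3]; ring]
      at h2
    set A := eval ![s ^ 3, t ^ 3] a
    set B := eval ![s ^ 3, t ^ 3] b
    set D := eval ![s ^ 3, t ^ 3] c
    have hA : A = 0 := by
      linear_combination (h0 + h1 + h2) / 3 - (B * s ^ 2 * t * (w ^ 2 - w + 1) + D * s * t ^ 2) / 3 * hw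
    have hB : B * (s ^ 2 * t) = 0 := by
      linear_combination (h0 + w * h1 + w ^ 2 * h2) / 3 -
        (A + D * s * t ^ 2 * (w ^ 2 - w + 1)) / 3 * hw - B * s ^ 2 * t * (w ^ 3 + 2) / 3 * hw3
    exact ⟨hA, hB, by linear_combination h0 - hA - hB⟩
  have ha : a = 0 := cube_zero fun s t => (k3 s t).1
  have hb : b = 0 := by
    have : b * (X 0 * X 1) = 0 := cube_zero fun s t => by
      simp only [map_mul, eval_X, Matrix.cons_val_zero, Matrix.cons_val_one]
      linear_combination (s * t ^ 2) * (k3 s t).2.1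
    simpa using this
  have hc : c = 0 := by
    have : c * (X 0 * X 1) = 0 := cube_zero fun s t => by
      simp only [map_mul, eval_X, Matrix.cons_val_zero, Matrix.cons_val_one]
      linear_combination (s ^ 2 * t) * (k3 s t).2.2
    simpa using this
  simpa [ha, hb, hc] using h

theorem cI_prime : cI.IsPrime := by
  let φ : MvPolynomial (Fin 4) ℂ →ₐ[ℂ] MvPolynomial (Fin 2) ℂ :=
    aeval ![X 0 ^ 3, X 0 ^ 2 * X 1, X 0 * X 1 ^ 2, X 1 ^ 3]
  have hφ : ∀ (u : Fin 2 → ℂ) p, eval u (φ p) = eval (cg (u 0) (u 1)) p := by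
    intro u p
    have : (eval u).comp φ.toRingHom = eval (cg (u 0) (u 1)) := by
      refine MvPolynomial.ringHom_ext (fun r => by simp [φ]) fun i => ?_
      fin_cases i <;> simp [φ, cg]
    exact RingHom.congr_fun this p
  have : cI = RingHom.ker φ.toRingHom := by
    ext p
    rw [RingHom.mem_ker]
    refine ⟨fun h => MvPolynomial.funext fun u => ?_, fun h => mem_cI fun s t => ?_⟩
    · rw [map_zero]; exact (hφ u p).trans (cg_zero _ _ p h)
    · have := hφ ![s, t] p
      rw [show φ p = 0 from h, map_zero] at this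
      simpa using this.symm
  rw [this]
  exact RingHom.ker_isPrime _

theorem chart0 {x : Fin 4 → ℂ} (h : x 0 ≠ 0) :
    LinearIndependent ℂ fun i j => eval x (pderiv j (![cq 0, cq 2] i)) := by
  rw [Fintype.linearIndependent_iff]
  intro g hg
  have h2 := congrFun hg 2
  have h3 := congrFun hg 3
  simp [Fin.sum_univ_two, cq, pderiv_X, h] at h2 h3
  simp [h3, h] at h2
  intro i
  fin_cases i
  · exact h2
  · exact h3

theorem chart3 {x : Fin 4 → ℂ} (h : x 3 ≠ 0) :
    LinearIndependent ℂ fun i j => eval x (pderiv j (![cq 1, cq 2] i)) := by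
  rw [Fintype.linearIndependent_iff]
  intro g hg
  have h0 := congrFun hg 0
  have h1 := congrFun hg 1
  simp [Fin.sum_univ_two, cq, pderiv_X, h] at h0 h1
  simp [h0, h] at h1
  intro i
  fin_cases i
  · exact h1
  · exact h0

theorem charts {x : Fin 4 → ℂ} (hx : x ∈ cone cI) : x 0 ≠ 0 ∨ x 3 ≠ 0 := by
  obtain ⟨h, h0, h1, -⟩ := cone_cI.mp hx
  by_contra hc
  push Not at hc
  obtain ⟨a, b⟩ := hc
  have e1 : x 1 = 0 := by simpa [a] using h0.symm
  have e2 : x 2 = 0 := by simpa [b] using h1.symm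
  exact h (by funext i; fin_cases i <;> simp [a, b, e1, e2])

theorem loc_gen {J : Ideal (MvPolynomial (Fin 4) ℂ)} {g : MvPolynomial (Fin 4) ℂ}
    (h : ∀ i, g * cq i ∈ J) : ∀ p ∈ cI, g * p ∈ J := by
  have : cI ≤ J.colon {g} := by
    refine Ideal.span_le.mpr ?_
    rintro _ ⟨i, rfl⟩
    simpa [Submodule.mem_colon, mul_comm] using h i
  intro p hp
  simpa [Submodule.mem_colon, mul_comm] using this hp

theorem cI_manifold : IsManifold cI 2 where
  prime := cI_prime
  homog := homog_span (d := fun _ => 2) cq_hom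
  nonempty := ⟨![1, 0, 0, 0], cone_cI.mpr ⟨fun h => by simpa using congrFun h 0, by simp⟩⟩
  smooth x hx := by
    rcases charts hx with h | h
    · refine ⟨![cq 0, cq 2], X 0, Fin.forall_fin_two.mpr ⟨cq_mem 0, cq_mem 2⟩, chart0 h,
        by simpa using h, loc_gen fun i => ?_⟩
      have a := gen_mem ![cq 0, cq 2] 0
      have b := gen_mem ![cq 0, cq 2] 1
      fin_cases i
      · exact Ideal.mul_mem_left _ _ a
      · have := Ideal.sub_mem _ (Ideal.mul_mem_left _ (X 1) b) (Ideal.mul_mem_left _ (X 2) a)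
        exact (congrArg (· ∈ Ideal.span (Set.range ![cq 0, cq 2])) (by simp [cq]; ring)).mp this
      · exact Ideal.mul_mem_left _ _ b
    · refine ⟨![cq 1, cq 2], X 3, Fin.forall_fin_two.mpr ⟨cq_mem 1, cq_mem 2⟩, chart3 h,
        by simpa using h, loc_gen fun i => ?_⟩
      have a := gen_mem ![cq 1, cq 2] 0
      have b := gen_mem ![cq 1, cq 2] 1
      fin_cases i
      · have := Ideal.sub_mem _ (Ideal.mul_mem_left _ (X 2) b) (Ideal.mul_mem_left _ (X 1) a)
        exact (congrArg (· ∈ Ideal.span (Set.range ![cq 1, cq 2])) (by simp [cq]; ring)).mp this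
      · exact Ideal.mul_mem_left _ _ a
      · exact Ideal.mul_mem_left _ _ b

theorem cI_nondeg (η : Fin 4 → ℂ) (h : ∀ x ∈ cone cI, ∑ j, η j * x j = 0) : η = 0 := by
  have k : ∀ t : ℂ, η 0 + η 1 * t + η 2 * t ^ 2 + η 3 * t ^ 3 = 0 := fun t => by
    have := h (cg 1 t) ⟨fun e => by simpa [cg] using congrFun e 0, cg_zero 1 t⟩
    simpa [Fin.sum_univ_four, cg] using this
  have k0 := k 0
  have k1 := k 1
  have k2 := k (-1)
  have k3 := k 2
  funext i
  fin_cases i
  · show η 0 = 0
    linear_combination k0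
  · show η 1 = 0
    linear_combination -k0 / 2 + k1 - k2 / 3 - k3 / 6
  · show η 2 = 0
    linear_combination -k0 + k1 / 2 + k2 / 2
  · show η 3 = 0
    linear_combination k0 / 2 - k1 / 2 - k2 / 6 + k3 / 6

/-- three second derivatives at the origin -/
def hes (p : MvPolynomial (Fin 4) ℂ) : Fin 3 → ℂ :=
  ![eval 0 (pderiv 1 (pderiv 1 p)), eval 0 (pderiv 2 (pderiv 2 p)), eval 0 (pderiv 0 (pderiv 3 p))]

theorem cI_flat : ∀ p ∈ cI, eval 0 p = 0 ∧ ∀ j, eval 0 (pderiv j p) = 0 := by
  intro p hp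
  induction hp using Submodule.span_induction with
  | mem h hh =>
    obtain ⟨i, rfl⟩ := hh
    fin_cases i <;> simp [cq]
  | zero => simp
  | add a b _ _ ha hb => simp only [map_add, ha.1, hb.1, ha.2, hb.2, add_zero, implies_true, and_self]
  | smul a b _ ih =>
    simp only [smul_eq_mul, pderiv_mul, map_add, map_mul, ih.1, ih.2, mul_zero, add_zero,
      implies_true, and_self]

theorem cI_not_two (f : Fin 2 → MvPolynomial (Fin 4) ℂ) : cI ≠ Ideal.span (Set.range f) := by
  intro hI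
  have hf : ∀ i, f i ∈ cI := fun i => hI ▸ gen_mem f i
  set W := Submodule.span ℂ (Set.range fun i => hes (f i)) with hW
  have key : ∀ p ∈ Ideal.span (Set.range f), hes p ∈ W := by
    intro p hp
    induction hp using Submodule.span_induction with
    | mem h hh =>
      obtain ⟨i, rfl⟩ := hh
      exact Submodule.subset_span ⟨i, rfl⟩
    | zero =>
      have : hes 0 = 0 := by funext i; fin_cases i <;> simp [hes]
      rw [this]; exact W.zero_mem
    | add a b _ _ ha hb =>
      have : hes (a + b) = hes a + hes b := by funext i; fin_cases i <;> simp [hes]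
      rw [this]; exact W.add_mem ha hb
    | smul a b hb ih =>
      obtain ⟨h1, h2⟩ := cI_flat b (hI ▸ hb)
      have : hes (a • b) = eval 0 a • hes b := by
        funext i
        fin_cases i <;> simp only [hes, smul_eq_mul, pderiv_mul, map_add, map_mul, h1, h2] <;> simp
      rw [this]; exact W.smul_mem _ ih
  have hli : LinearIndependent ℂ fun i => hes (cq i) := by
    rw [Fintype.linearIndependent_iff]
    intro g hg
    have h0 := congrFun hg 0
    have h1 := congrFun hg 1
    have h2 := congrFun hg 2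
    simp [Fin.sum_univ_three, hes, cq, pderiv_X, map_ofNat] at h0 h1 h2
    intro i
    fin_cases i
    · exact h0
    · exact h1
    · exact h2
  have h1 := linearIndependent_iff_card_eq_finrank_span.mp hli
  have h2 : Set.finrank ℂ (Set.range fun i => hes (cq i)) ≤ Module.finrank ℂ W :=
    Submodule.finrank_mono (Submodule.span_le.mpr (by
      rintro _ ⟨i, rfl⟩; exact key _ (hI ▸ cq_mem i)))
  have h3 : Module.finrank ℂ W ≤ Fintype.card (Fin 2) := finrank_range_le_card _
  rw [← h1] at h2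
  simp at h2 h3
  omega

end Pool.Agent.HCF.Tg
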