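import Pool.Agent.P.MP_f644fa_ag.Tg2

/-! The twisted cubic is Fano. -/

noncomputable section
namespace Pool.Agent.HCF.Tg
open MvPolynomial

theorem jac_two (p q : MvPolynomial (Fin 4) ℂ) (x : Fin 4 → ℂ) (v : Fin 2 → Fin 4 → ℂ) :
    jac ![p, q] x v = dl p x (v 0) * dl q x (v 1) - dl q x (v 0) * dl p x (v 1) := by
  rw [jac_apply, Matrix.det_fin_two]
  simp

theorem dl0 (x v : Fin 4 → ℂ) : dl (cq 0) x v = v 0 * x 2 - 2 * v 1 * x 1 + v 2 * x 0 := by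
  simp [dl_apply, Fin.sum_univ_four, cq, pderiv_X]; ring

theorem dl1 (x v : Fin 4 → ℂ) : dl (cq 1) x v = v 1 * x 3 - 2 * v 2 * x 2 + v 3 * x 1 := by
  simp [dl_apply, Fin.sum_univ_four, cq, pderiv_X]; ring

theorem dl2 (x v : Fin 4 → ℂ) :
    dl (cq 2) x v = v 0 * x 3 - v 1 * x 2 - v 2 * x 1 + v 3 * x 0 := by
  simp [dl_apply, Fin.sum_univ_four, cq, pderiv_X]; ring

theorem syz0 {x : Fin 4 → ℂ} (hx : x ∈ cone cI) (v : Fin 4 → ℂ) :
    x 0 * dl (cq 1) x v = x 1 * dl (cq 2) x v - x 2 * dl (cq 0) x v := by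
  obtain ⟨-, h0, h1, h2⟩ := cone_cI.mp hx
  rw [dl0, dl1, dl2]
  linear_combination (-v 0) * h1 + v 1 * h2 - v 2 * h0

theorem syz3 {x : Fin 4 → ℂ} (hx : x ∈ cone cI) (v : Fin 4 → ℂ) :
    x 3 * dl (cq 0) x v = x 2 * dl (cq 2) x v - x 1 * dl (cq 1) x v := by
  obtain ⟨-, h0, h1, h2⟩ := cone_cI.mp hx
  rw [dl0, dl1, dl2]
  linear_combination (-v 1) * h1 + v 2 * h2 - v 3 * h0

/-- square of a wedge, divided by a coordinate -/
def sec (a : Fin 3) (j : Fin 4) (x : cone cI) (v : Fin 2 → Fin 2 → Fin 4 → ℂ) : ℂ :=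
  jac ![cq a, cq 2] x.1 (v 0) * jac ![cq a, cq 2] x.1 (v 1) / x.1 j

theorem sec_pow (a : Fin 3) (j : Fin 4) (x : cone cI) :
    ∃ α : (Fin 4 → ℂ) [⋀^Fin 2]→ₗ[ℂ] ℂ, (∀ v k, v k ∈ tang cI x.1 → α v = 0) ∧
      ∀ v, sec a j x v = ∏ t, α (v t) := by
  obtain ⟨β, hβ⟩ := IsAlgClosed.exists_pow_nat_eq (x.1 j)⁻¹ (show 0 < 2 by norm_num)
  refine ⟨β • jac ![cq a, cq 2] x.1, fun v k hv => ?_, fun v => ?_⟩
  · have := jac_tang (f := ![cq a, cq 2]) (Fin.forall_fin_two.mpr ⟨cq_mem a, cq_mem 2⟩) _ v k hv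
    simp [this]
  · simp only [sec, Fin.prod_univ_two, AlternatingMap.smul_apply, smul_eq_mul, div_eq_mul_inv, ← hβ]
    ring

theorem sec_hom (a : Fin 3) (j : Fin 4) (v : Fin 2 → Fin 2 → Fin 4 → ℂ) :
    IsHom 3 fun x => sec a j x v := by
  intro x y t h
  have ht := t_ne h
  have hf : ∀ i, ((![cq a, cq 2] : Fin 2 → _) i).IsHomogeneous ((fun _ => 2) i) :=
    Fin.forall_fin_two.mpr ⟨cq_hom a, cq_hom 2⟩
  simp only [sec, h, jac_smul hf ht, Pi.smul_apply, smul_eq_mul]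
  have : (∑ _i : Fin 2, ((2 : ℕ) : ℤ)) - ((2 : ℕ) : ℤ) = 2 := by simp
  rw [this]
  by_cases hj : x.1 j = 0
  · simp [hj]
  · field_simp

theorem sec_easy {a : Fin 3} {j i : Fin 4} {v : Fin 2 → Fin 2 → Fin 4 → ℂ} (k : ℕ)
    (r : MvPolynomial (Fin 4) ℂ) (h : ∀ x ∈ cone cI, x i ^ k = x j * eval x r)
    (h0 : ∀ x ∈ cone cI, x j = 0 → eval x r = 0) :
    ∃ (k : ℕ) (p : MvPolynomial (Fin 4) ℂ), ∀ x : cone cI, x.1 i ^ k * sec a j x v = eval x.1 p := by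
  refine ⟨k, r * (jacP ![cq a, cq 2] (v 0) * jacP ![cq a, cq 2] (v 1)), fun x => ?_⟩
  simp only [map_mul, eval_jacP, sec, h x.1 x.2]
  by_cases hj : x.1 j = 0
  · simp [hj, h0 x.1 x.2 hj]
  · field_simp

theorem sec0_mem (v : Fin 2 → Fin 2 → Fin 4 → ℂ) : (fun x => sec 0 0 x v) ∈ secRing cI := by
  have z : ∀ x ∈ cone cI, x 0 = 0 → x 1 = 0 ∧ x 2 = 0 := fun x hx h => by
    obtain ⟨-, h0, h1, -⟩ := cone_cI.mp hx
    have e1 : x 1 = 0 := by simpa [h] using h0.symm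
    exact ⟨e1, by simpa [e1] using h1.symm⟩
  intro j
  fin_cases j
  · exact sec_easy (i := 0) 2 (X 0) (fun x _ => by simp [sq]) fun x _ h => by simpa using h
  · exact sec_easy (i := 1) 2 (X 2) (fun x hx => by simpa using (cone_cI.mp hx).2.1.symm)
      fun x hx h => by simpa using (z x hx h).2
  · refine sec_easy (i := 2) 4 (X 2 * X 3 ^ 2) (fun x hx => ?_) fun x hx h => by simp [(z x hx h).2]
    obtain ⟨-, h0, h1, h2⟩ := cone_cI.mp hx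
    simp only [map_mul, map_pow, eval_X]
    linear_combination (-(x 2 ^ 2) - x 1 * x 3) * h1 - x 3 ^ 2 * h0
  · refine ⟨1, -(jacP ![cq 0, cq 1] (v 0) * jacP ![cq 1, cq 2] (v 1)), fun x => ?_⟩
    show x.1 3 ^ 1 * sec 0 0 x v = _
    simp only [map_neg, map_mul, eval_jacP, sec, jac_two]
    by_cases h : x.1 0 = 0
    · obtain ⟨e1, e2⟩ := z x.1 x.2 h
      simp [dl0, h, e1, e2]
    · have h2 := (cone_cI.mp x.2).2.2.2
      have s : ∀ w, dl (cq 1) x.1 w = (x.1 1 * dl (cq 2) x.1 w - x.1 2 * dl (cq 0) x.1 w) / x.1 0 :=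
        fun w => by rw [← syz0 x.2 w]; field_simp
      have e : x.1 3 = x.1 1 * x.1 2 / x.1 0 := by rw [← h2]; field_simp
      simp only [s, e]
      field_simp
      ring

theorem sec3_mem (v : Fin 2 → Fin 2 → Fin 4 → ℂ) : (fun x => sec 1 3 x v) ∈ secRing cI := by
  have z : ∀ x ∈ cone cI, x 3 = 0 → x 1 = 0 ∧ x 2 = 0 := fun x hx h => by
    obtain ⟨-, h0, h1, -⟩ := cone_cI.mp hx
    have e2 : x 2 = 0 := by simpa [h] using h1.symm
    exact ⟨by simpa [e2] using h0.symm, e2⟩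
  intro j
  fin_cases j
  · refine ⟨1, jacP ![cq 0, cq 1] (v 0) * jacP ![cq 0, cq 2] (v 1), fun x => ?_⟩
    show x.1 0 ^ 1 * sec 1 3 x v = _
    simp only [map_mul, eval_jacP, sec, jac_two]
    by_cases h : x.1 3 = 0
    · obtain ⟨e1, e2⟩ := z x.1 x.2 h
      simp [dl1, h, e1, e2]
    · have h2 := (cone_cI.mp x.2).2.2.2
      have s : ∀ w, dl (cq 0) x.1 w = (x.1 2 * dl (cq 2) x.1 w - x.1 1 * dl (cq 1) x.1 w) / x.1 3 :=
        fun w => by rw [← syz3 x.2 w]; field_simp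
      have e : x.1 0 = x.1 1 * x.1 2 / x.1 3 := by rw [← h2]; field_simp
      simp only [s, e]
      field_simp
      ring
  · refine sec_easy (i := 1) 4 (X 1 * X 0 ^ 2) (fun x hx => ?_) fun x hx h => by simp [(z x hx h).1]
    obtain ⟨-, h0, h1, h2⟩ := cone_cI.mp hx
    simp only [map_mul, map_pow, eval_X]
    linear_combination (-(x 1 ^ 2) - x 0 * x 2) * h0 - x 0 ^ 2 * h1
  · exact sec_easy (i := 2) 2 (X 1)
      (fun x hx => by simpa [mul_comm] using (cone_cI.mp hx).2.2.1.symm)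
      fun x hx h => by simpa using (z x hx h).1
  · exact sec_easy (i := 3) 2 (X 3) (fun x _ => by simp [sq]) fun x _ h => by simpa using h

theorem cI_fano : IsFano cI 2 := by
  refine ⟨2, 2, ![sec 0 0, sec 1 3], by norm_num,
    Fin.forall_fin_two.mpr ⟨sec_pow 0 0, sec_pow 1 3⟩, ?_, fun x => ?_⟩
  · have e : ((2 : ℕ) : ℤ) * (((4 : ℕ) : ℤ) - ((2 : ℕ) : ℤ)) - 1 = 3 := by norm_num
    rw [e]
    exact Fin.forall_fin_two.mpr
      ⟨fun v => ⟨sec0_mem v, sec_hom 0 0 v⟩, fun v => ⟨sec3_mem v, sec_hom 1 3 v⟩⟩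
  · rcases charts x.2 with h | h
    · obtain ⟨v, hv⟩ := jac_ne (chart0 h)
      exact ⟨0, fun _ => v, div_ne_zero (mul_ne_zero hv hv) h⟩
    · obtain ⟨v, hv⟩ := jac_ne (chart3 h)
      exact ⟨1, fun _ => v, div_ne_zero (mul_ne_zero hv hv) h⟩

end Pool.Agent.HCF.Tg
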