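import Pool.Agent.P.MP_f644fa_ag.Tg1

/-! Intersections of diagonal quadrics: points, smoothness, nondegeneracy. -/

noncomputable section
namespace Pool.Agent.HCF.Tg
open MvPolynomial

variable {M c : ℕ}

/-- the nodes -/
def nd (j : Fin M) : ℂ := ((j : ℕ) : ℂ)

theorem nd_inj : Function.Injective (nd : Fin M → ℂ) := fun a b h =>
  Fin.ext (by simpa [nd] using h)

/-- the diagonal quadrics -/
def dq (M c : ℕ) (k : Fin c) : MvPolynomial (Fin M) ℂ := ∑ j, C (nd j ^ (k : ℕ)) * X j ^ 2

/-- their ideal -/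
def dI (M c : ℕ) : Ideal (MvPolynomial (Fin M) ℂ) := Ideal.span (Set.range (dq M c))

theorem dq_hom (k : Fin c) : (dq M c k).IsHomogeneous 2 :=
  IsHomogeneous.sum _ _ _ fun j _ => (isHomogeneous_X_pow j 2).C_mul _

theorem eval_dq (x : Fin M → ℂ) (k : Fin c) :
    eval x (dq M c k) = ∑ j, nd j ^ (k : ℕ) * x j ^ 2 := by simp [dq]

theorem pderiv_dq (x : Fin M → ℂ) (k : Fin c) (j : Fin M) :
    eval x (pderiv j (dq M c k)) = 2 * nd j ^ (k : ℕ) * x j := by
  simp only [dq, map_sum, pderiv_C_mul, pderiv_pow, pderiv_X, map_mul, eval_C]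
  rw [Finset.sum_eq_single j]
  · simp; ring
  · intro b _ hb
    simp [Pi.single_eq_of_ne hb]
  · simp

theorem poly_mem_dI {P : Polynomial ℂ} (hP : P.natDegree < c) :
    ∑ j : Fin M, C (P.eval (nd j)) * X j ^ 2 ∈ dI M c := by
  have : ∑ j : Fin M, C (P.eval (nd j)) * X j ^ 2 = ∑ k : Fin c, C (P.coeff k) * dq M c k := by
    simp only [dq, Finset.mul_sum]
    rw [Finset.sum_comm]
    refine Finset.sum_congr rfl fun j _ => ?_
    rw [Polynomial.eval_eq_sum_range' hP, Finset.sum_range, map_sum, Finset.sum_mul]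
    refine Finset.sum_congr rfl fun k _ => ?_
    rw [map_mul, mul_assoc]
  rw [this]
  exact Ideal.sum_mem _ fun k _ => Ideal.mul_mem_left _ _ (gen_mem _ k)

theorem poly_cone {P : Polynomial ℂ} (hP : P.natDegree < c) {x : Fin M → ℂ}
    (hx : x ∈ cone (dI M c)) : ∑ j, P.eval (nd j) * x j ^ 2 = 0 := by
  simpa using hx.2 _ (poly_mem_dI hP)

/-- a point of the cone whose coordinates vanish exactly at the roots of `q` -/
theorem exists_pt (q : Polynomial ℂ) (hq : q.natDegree + c < M) :
    ∃ x : Fin M → ℂ, (∀ k, eval x (dq M c k) = 0) ∧ ∀ j, x j = 0 ↔ q.eval (nd j) = 0 := by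
  have hw : ∀ j : Fin M, ∏ i ∈ Finset.univ.erase j, (nd j - nd i) ≠ 0 := fun j =>
    Finset.prod_ne_zero_iff.mpr fun i hi =>
      sub_ne_zero.mpr fun h => (Finset.mem_erase.mp hi).1 (nd_inj h).symm
  have hs : ∀ j : Fin M, ∃ z : ℂ, z ^ 2 = q.eval (nd j) / ∏ i ∈ Finset.univ.erase j, (nd j - nd i) :=
    fun j => IsAlgClosed.exists_pow_nat_eq _ (by norm_num)
  choose x hx using hs
  refine ⟨x, fun k => ?_, fun j => ?_⟩
  · have hd : (Polynomial.X ^ (k : ℕ) * q).natDegree < M - 1 := by
      have h1 := Polynomial.natDegree_mul_le (p := Polynomial.X ^ (k : ℕ)) (q := q)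
      rw [Polynomial.natDegree_X_pow] at h1
      have := k.2
      omega
    have h2 := Lagrange.coeff_eq_sum (s := Finset.univ) (v := (nd : Fin M → ℂ)) nd_inj.injOn
      (P := Polynomial.X ^ (k : ℕ) * q) (by
        refine Polynomial.degree_le_natDegree.trans_lt ?_
        rw [Finset.card_univ, Fintype.card_fin]
        exact_mod_cast (by omega : (Polynomial.X ^ (k : ℕ) * q).natDegree < M))
    rw [Finset.card_univ, Fintype.card_fin, Polynomial.coeff_eq_zero_of_natDegree_lt hd] at h2
    rw [eval_dq, h2]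
    refine Finset.sum_congr rfl fun j _ => ?_
    rw [hx j]
    simp [mul_div_assoc]
  · rw [← pow_eq_zero_iff (two_ne_zero), hx j, div_eq_zero_iff]
    simp only [hw j, or_false]

theorem exists_full (h : c < M) : ∃ x ∈ cone (dI M c), ∀ j, x j ≠ 0 := by
  obtain ⟨x, h1, h2⟩ := exists_pt (M := M) (c := c) 1 (by simpa using h)
  have h3 : ∀ j, x j ≠ 0 := fun j hj => by simpa using (h2 j).mp hj
  exact ⟨x, mem_cone_span.mpr ⟨fun e => h3 ⟨0, by omega⟩ (congrFun e _), h1⟩, h3⟩

theorem dI_nondeg (h : c < M) (η : Fin M → ℂ) (hη : ∀ x ∈ cone (dI M c), ∑ j, η j * x j = 0) :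
    η = 0 := by
  obtain ⟨x, hx, h3⟩ := exists_full h
  funext j
  have hy : Function.update x j (-x j) ∈ cone (dI M c) := by
    refine mem_cone_span.mpr ⟨fun e => h3 j (by simpa using congrFun e j), fun k => ?_⟩
    rw [← (mem_cone_span.mp hx).2 k, eval_dq, eval_dq]
    refine Finset.sum_congr rfl fun i _ => ?_
    by_cases hi : i = j
    · subst hi; simp
    · simp [hi]
  have h1 := hη x hx
  have h2 := hη _ hy
  have h4 : ∑ i, (η i * x i - η i * Function.update x j (-x j) i) = 2 * η j * x j := by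
    rw [Finset.sum_eq_single j]
    · simp; ring
    · intro b _ hb; simp [hb]
    · simp
  rw [Finset.sum_sub_distrib, h1, h2] at h4
  simpa [h3 j] using h4.symm

theorem support_big {x : Fin M → ℂ} (hx : x ∈ cone (dI M c)) :
    c < (Finset.univ.filter fun j => x j ≠ 0).card := by
  by_contra hc
  obtain ⟨j0, hj0⟩ := Function.ne_iff.mp hx.1
  set S := Finset.univ.filter fun j => x j ≠ 0 with hS
  have hm : j0 ∈ S := by simpa [hS] using hj0
  have hd : (∏ i ∈ S.erase j0, (Polynomial.X - Polynomial.C (nd i))).natDegree < c := by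
    rw [Polynomial.natDegree_finsetProd_X_sub_C_eq_card, Finset.card_erase_of_mem hm]
    have := Finset.card_pos.mpr ⟨j0, hm⟩
    omega
  have h1 := poly_cone hd hx
  rw [Finset.sum_eq_single j0] at h1
  · rcases mul_eq_zero.mp h1 with h | h
    · rw [Polynomial.eval_prod, Finset.prod_eq_zero_iff] at h
      obtain ⟨i, hi, h⟩ := h
      exact (Finset.mem_erase.mp hi).1 (nd_inj (sub_eq_zero.mp (by simpa using h))).symm
    · exact hj0 (by simpa using h)
  · intro b _ hb
    by_cases h0 : x b = 0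
    · simp [h0]
    · rw [Polynomial.eval_prod, Finset.prod_eq_zero (i := b)
        (Finset.mem_erase.mpr ⟨hb, by simpa [hS] using h0⟩) (by simp), zero_mul]
  · simp

theorem dq_indep {x : Fin M → ℂ} (hx : x ∈ cone (dI M c)) :
    LinearIndependent ℂ fun k j => eval x (pderiv j (dq M c k)) := by
  rw [Fintype.linearIndependent_iff]
  intro g hg
  set P : Polynomial ℂ := ∑ k : Fin c, Polynomial.monomial k (g k) with hP
  have hdeg : P.natDegree ≤ c := Polynomial.natDegree_sum_le_of_forall_le _ _ fun k _ =>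
    (Polynomial.natDegree_monomial_le _).trans k.2.le
  have h0 : P = 0 := by
    refine Polynomial.eq_zero_of_natDegree_lt_card_of_eval_eq_zero' P
      ((Finset.univ.filter fun j => x j ≠ 0).image nd) (fun z hz => ?_) ?_
    · obtain ⟨j, hj, rfl⟩ := Finset.mem_image.mp hz
      have h1 := congrFun hg j
      simp only [Finset.sum_apply, Pi.smul_apply, smul_eq_mul, pderiv_dq, Pi.zero_apply] at h1
      have h2 : P.eval (nd j) * (2 * x j) = 0 := by
        rw [← h1, hP, Polynomial.eval_finsetSum, Finset.sum_mul]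
        refine Finset.sum_congr rfl fun k _ => ?_
        rw [Polynomial.eval_monomial]; ring
      simpa [(Finset.mem_filter.mp hj).2] using h2
    · rw [Finset.card_image_of_injective _ nd_inj]
      exact hdeg.trans_lt (support_big hx)
  intro k
  have := congrArg (fun p => Polynomial.coeff p k) h0
  simp only [hP, Polynomial.finsetSum_coeff, Polynomial.coeff_monomial, Polynomial.coeff_zero] at this
  rw [Finset.sum_eq_single k] at this
  · simpa using this
  · intro b _ hb
    simp [Fin.val_ne_of_ne hb]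
  · simp

end Pool.Agent.HCF.Tg
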