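import Pool.Agent.P.MP_f644fa_ag.Tg4

/-! The ideal of the diagonal quadrics is prime. -/

noncomputable section
namespace Pool.Agent.HCF.Tg
open MvPolynomial

/-- products of square roots are independent when no product of two of them is rational -/
theorem roots_indep {K L : Type} [Field K] [Field L] [Algebra K L] [IsGalois K L] {ι : Type}
    [Fintype ι] (u : ι → L) (h0 : ∀ s, u s ≠ 0) (hsq : ∀ s, u s ^ 2 ∈ Set.range (algebraMap K L))
    (hne : ∀ s t, u s * u t ∈ Set.range (algebraMap K L) → s = t) (a : ι → K)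
    (h : ∑ s, algebraMap K L (a s) * u s = 0) : ∀ s, a s = 0 := by
  have h1 : ∀ s (σ : L ≃ₐ[K] L), σ (u s) / u s = 1 ∨ σ (u s) / u s = -1 := fun s σ => by
    obtain ⟨b, hb⟩ := hsq s
    rw [← sq_eq_one_iff, div_pow, ← map_pow, ← hb, AlgEquiv.commutes, hb]
    exact div_self (pow_ne_zero _ (h0 s))
  let χ : ι → (L ≃ₐ[K] L) →* L := fun s =>
    { toFun := fun σ => σ (u s) / u s
      map_one' := by simp [h0 s]
      map_mul' := fun σ τ => by
        have e : τ (u s) = τ (u s) / u s * u s := by rw [div_mul_cancel₀ _ (h0 s)]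
        rw [AlgEquiv.mul_apply]
        rcases h1 s τ with k | k
        · rw [e, k]; simp [h0 s]
        · rw [e, k]; simp [h0 s, neg_div] }
  have hinj : Function.Injective χ := fun s t hst => hne s t <|
    (InfiniteGalois.mem_range_algebraMap_iff_fixed _).mpr fun σ => by
      have e : σ (u s) / u s = σ (u t) / u t := DFunLike.congr_fun hst σ
      have es : σ (u s) = σ (u s) / u s * u s := by rw [div_mul_cancel₀ _ (h0 s)]
      have et : σ (u t) = σ (u t) / u t * u t := by rw [div_mul_cancel₀ _ (h0 t)]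
      rw [map_mul, es, et, ← e]
      rcases h1 s σ with k | k <;> rw [k] <;> ring
  have hli := (linearIndependent_monoidHom (L ≃ₐ[K] L) L).comp χ hinj
  rw [Fintype.linearIndependent_iff] at hli
  have h2 := hli (fun s => algebraMap K L (a s) * u s) (by
    funext σ
    have := congrArg σ h
    rw [map_sum, map_zero] at this
    rw [Finset.sum_apply, Pi.zero_apply, ← this]
    refine Finset.sum_congr rfl fun s _ => ?_
    rw [map_mul, AlgEquiv.commutes]
    show algebraMap K L (a s) * u s * (σ (u s) / u s) = _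
    field_simp [h0 s])
  intro s
  simpa [h0 s] using h2 s

variable {m c : ℕ}

/-- the Lagrange basis at the last `c` nodes -/
def lg (m : ℕ) (i : Fin c) : Polynomial ℂ :=
  Lagrange.basis Finset.univ (fun k : Fin c => nd (Fin.natAdd m k)) i

theorem last_inj : Function.Injective fun k : Fin c => nd (Fin.natAdd m k) := fun a b h => by
  simpa using nd_inj h

theorem lg_deg (i : Fin c) : (lg m i).natDegree < c := by
  rw [lg, Lagrange.natDegree_basis last_inj.injOn (Finset.mem_univ i)]
  have := i.2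
  simp only [Finset.card_univ, Fintype.card_fin]
  omega

theorem lg_last (i k : Fin c) : (lg m i).eval (nd (Fin.natAdd m k)) = if k = i then 1 else 0 := by
  split_ifs with h
  · subst h
    exact Lagrange.eval_basis_self last_inj.injOn (Finset.mem_univ _)
  · exact Lagrange.eval_basis_of_ne (v := fun k : Fin c => nd (Fin.natAdd m k)) (Ne.symm h)
      (Finset.mem_univ _)

theorem lg_first (i : Fin c) (j : Fin m) : (lg m i).eval (nd (Fin.castAdd c j)) ≠ 0 := by
  rw [lg, Lagrange.basis, Polynomial.eval_prod]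
  refine Finset.prod_ne_zero_iff.mpr fun k hk => ?_
  have h1 : nd (Fin.natAdd m i) - nd (Fin.natAdd m k) ≠ 0 :=
    sub_ne_zero.mpr fun h => (Finset.mem_erase.mp hk).1 (last_inj h).symm
  have h2 : nd (Fin.castAdd c j) - nd (Fin.natAdd m k) ≠ 0 := sub_ne_zero.mpr fun h => by
    have := congrArg Fin.val (nd_inj h)
    have := j.2
    simp at *
    omega
  simp [Lagrange.basisDivisor, h1, h2]

theorem lg_interp (k : Fin c) (z : ℂ) :
    z ^ (k : ℕ) = ∑ i : Fin c, nd (Fin.natAdd m i) ^ (k : ℕ) * (lg m i).eval z := by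
  have h := Lagrange.eq_interpolate (s := Finset.univ) (f := Polynomial.X ^ (k : ℕ))
    (last_inj (m := m) (c := c)).injOn (by simp)
  have := congrArg (Polynomial.eval z) h
  simpa [Lagrange.interpolate_apply, Polynomial.eval_finsetSum, lg] using this

/-- the squares of the last variables -/
def rad (m : ℕ) (i : Fin c) : MvPolynomial (Fin m) ℂ :=
  -∑ j, C ((lg m i).eval (nd (Fin.castAdd c j))) * X j ^ 2

theorem rad_mem (i : Fin c) :
    X (Fin.natAdd m i) ^ 2 - rename (Fin.castAdd c) (rad m i) ∈ dI (m + c) c := by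
  have h := poly_mem_dI (M := m + c) (lg_deg (m := m) i)
  rw [Fin.sum_univ_add] at h
  refine (congrArg (· ∈ dI (m + c) c) ?_).mp h
  simp only [lg_last, rad, map_neg, map_sum, map_mul, map_pow, rename_C, rename_X]
  rw [Finset.sum_eq_single i (s := Finset.univ) (f := fun k : Fin c =>
    C (if k = i then (1 : ℂ) else 0) * (X (Fin.natAdd m k) : MvPolynomial (Fin (m + c)) ℂ) ^ 2)]
  · simp; ring
  · intro b _ hb; simp [hb]
  · simp

theorem dI_normal (p : MvPolynomial (Fin (m + c)) ℂ) :
    ∃ a : Finset (Fin c) → MvPolynomial (Fin m) ℂ,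
      p - ∑ S, rename (Fin.castAdd c) (a S) * ∏ i ∈ S, X (Fin.natAdd m i) ∈ dI (m + c) c := by
  let N : AddSubmonoid (MvPolynomial (Fin (m + c)) ℂ) :=
    { carrier := {p | ∃ a : Finset (Fin c) → MvPolynomial (Fin m) ℂ,
        p - ∑ S, rename (Fin.castAdd c) (a S) * ∏ i ∈ S, X (Fin.natAdd m i) ∈ dI (m + c) c}
      zero_mem' := ⟨0, by simp⟩
      add_mem' := by
        rintro p q ⟨a, ha⟩ ⟨b, hb⟩
        refine ⟨a + b, (congrArg (· ∈ dI (m + c) c) ?_).mp (Ideal.add_mem _ ha hb)⟩
        simp only [Pi.add_apply, map_add, add_mul, Finset.sum_add_distrib]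
        ring }
  have hI : ∀ q ∈ dI (m + c) c, q ∈ N := fun q hq => ⟨0, by simpa using hq⟩
  have hb : ∀ (b : MvPolynomial (Fin m) ℂ) (S : Finset (Fin c)),
      rename (Fin.castAdd c) b * ∏ i ∈ S, X (Fin.natAdd m i) ∈ N := fun b S =>
    ⟨Pi.single S b, by
      rw [Finset.sum_eq_single S]
      · simp
      · intro T _ hT; simp [hT]
      · simp⟩
  show p ∈ N
  induction p using MvPolynomial.induction_on with
  | C r => simpa using hb (C r) ∅
  | add p q hp hq => exact N.add_mem hp hq
  | mul_X p j hp =>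
    obtain ⟨a, ha⟩ := hp
    have e : p * X j = (p - ∑ S, rename (Fin.castAdd c) (a S) * ∏ i ∈ S, X (Fin.natAdd m i)) * X j +
        ∑ S, (rename (Fin.castAdd c) (a S) * ∏ i ∈ S, X (Fin.natAdd m i)) * X j := by
      rw [← Finset.sum_mul]; ring
    rw [e]
    refine N.add_mem (hI _ (Ideal.mul_mem_right _ _ ha)) (N.sum_mem fun S _ => ?_)
    induction j using Fin.addCases with
    | left j =>
      have := hb (a S * X j) S
      rw [map_mul, rename_X] at this
      exact (congrArg (· ∈ N) (by ring)).mp this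
    | right i =>
      by_cases hi : i ∈ S
      · have h1 := hb (a S * rad m i) (S.erase i)
        have h2 := hI _ (Ideal.mul_mem_left _
          (rename (Fin.castAdd c) (a S) * ∏ k ∈ S.erase i, X (Fin.natAdd m k)) (rad_mem (m := m) i))
        refine (congrArg (· ∈ N) ?_).mp (N.add_mem h1 h2)
        rw [← Finset.mul_prod_erase S _ hi, map_mul]
        ring
      · have := hb (a S) (insert i S)
        rw [Finset.prod_insert hi] at this
        exact (congrArg (· ∈ N) (by ring)).mp this

theorem rad_pt (hm : 2 ≤ m) (i0 : Fin c) : ∃ (y : Fin m → ℂ) (j : Fin m), eval y (rad m i0) = 0 ∧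
    (∀ i : Fin c, i ≠ i0 → eval y (rad m i) ≠ 0) ∧ eval y (pderiv j (rad m i0)) ≠ 0 := by
  obtain ⟨x, h1, h2⟩ := exists_pt (M := m + c) (c := c)
    (Polynomial.X - Polynomial.C (nd (Fin.natAdd m i0))) (by
      rw [Polynomial.natDegree_X_sub_C]; omega)
  have h3 : ∀ j, x j = 0 ↔ j = Fin.natAdd m i0 := fun j => by
    rw [h2]
    simp [sub_eq_zero, nd_inj.eq_iff]
  have h4 : ∀ j : Fin m, x (Fin.castAdd c j) ≠ 0 := fun j h => by
    have := congrArg Fin.val ((h3 _).mp h)
    have := j.2
    simp at *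
    omega
  have hx : x ∈ cone (dI (m + c) c) :=
    mem_cone_span.mpr ⟨fun e => h4 ⟨0, by omega⟩ (congrFun e _), h1⟩
  have h5 : ∀ i, eval (x ∘ Fin.castAdd c) (rad m i) = x (Fin.natAdd m i) ^ 2 := fun i => by
    have := hx.2 _ (rad_mem (m := m) i)
    rw [map_sub, eval_rename] at this
    simpa using (sub_eq_zero.mp this).symm
  refine ⟨x ∘ Fin.castAdd c, ⟨0, by omega⟩, by rw [h5, (h3 _).mpr rfl]; simp, fun i hi => ?_, ?_⟩
  · rw [h5]
    exact pow_ne_zero _ fun h => hi (by simpa using (h3 _).mp h)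
  · simp only [rad, map_neg, map_sum, pderiv_C_mul, pderiv_pow, pderiv_X, map_mul, eval_C]
    rw [Finset.sum_eq_single ⟨0, by omega⟩]
    · have a1 := lg_first (m := m) i0 ⟨0, by omega⟩
      have a2 := h4 ⟨0, by omega⟩
      simpa using ⟨a1, a2⟩
    · intro b _ hb
      simp [Pi.single_eq_of_ne hb]
    · simp

theorem rad_not_sq (hm : 2 ≤ m) {S T : Finset (Fin c)} {i0 : Fin c} (hS : i0 ∈ S) (hT : i0 ∉ T)
    (w : MvPolynomial (Fin m) ℂ) : w ^ 2 ≠ (∏ i ∈ S, rad m i) * ∏ i ∈ T, rad m i := by
  intro h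
  obtain ⟨y, j, h1, h2, h3⟩ := rad_pt hm i0
  rw [← Finset.mul_prod_erase S _ hS, mul_assoc] at h
  set E := (∏ i ∈ S.erase i0, rad m i) * ∏ i ∈ T, rad m i with hE
  have hE0 : eval y E ≠ 0 := by
    rw [hE, map_mul, map_prod, map_prod]
    exact mul_ne_zero
      (Finset.prod_ne_zero_iff.mpr fun i hi => h2 i (Finset.mem_erase.mp hi).1)
      (Finset.prod_ne_zero_iff.mpr fun i hi => h2 i fun e => hT (e ▸ hi))
  have hw : eval y w = 0 := by
    have := congrArg (eval y) h
    rw [map_mul, h1, zero_mul, map_pow] at this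
    simpa using this
  have := congrArg (fun p => eval y (pderiv j p)) h
  simp only [sq, pderiv_mul, map_add, map_mul, hw, h1, mul_zero, zero_mul, add_zero] at this
  exact mul_ne_zero h3 hE0 this.symm

theorem dI_prime (hm : 2 ≤ m) : (dI (m + c) c).IsPrime := by
  let B := MvPolynomial (Fin m) ℂ
  let K := FractionRing B
  let L := AlgebraicClosure K
  let β : B →+* L := (algebraMap K L).comp (algebraMap B K)
  have hβ : Function.Injective β :=
    (algebraMap K L).injective.comp (IsFractionRing.injective B K)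
  have hr : ∀ i : Fin c, ∃ z : L, z ^ 2 = β (rad m i) := fun i =>
    IsAlgClosed.exists_pow_nat_eq _ (by norm_num)
  choose r hr using hr
  let φ : MvPolynomial (Fin (m + c)) ℂ →+* L :=
    eval₂Hom (β.comp C) (Fin.addCases (fun j => β (X j)) r)
  have e1 : ∀ i, φ (X (Fin.natAdd m i)) = r i := fun i => by simp [φ]
  have e2 : ∀ b : B, φ (rename (Fin.castAdd c) b) = β b := fun b => by
    have : φ.comp (rename (Fin.castAdd c) : B →ₐ[ℂ] _).toRingHom = β :=
      MvPolynomial.ringHom_ext (fun a => by simp [φ]) fun j => by simp [φ]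
    exact RingHom.congr_fun this b
  have hle : dI (m + c) c ≤ RingHom.ker φ := by
    refine Ideal.span_le.mpr ?_
    rintro _ ⟨k, rfl⟩
    have h1 : (∑ j : Fin m, C (nd (Fin.castAdd c j) ^ (k : ℕ)) * X j ^ 2 : B) +
        ∑ i : Fin c, C (nd (Fin.natAdd m i) ^ (k : ℕ)) * rad m i = 0 := by
      simp only [rad, mul_neg, Finset.sum_neg_distrib, Finset.mul_sum]
      rw [Finset.sum_comm, ← sub_eq_add_neg, sub_eq_zero]
      refine Finset.sum_congr rfl fun j _ => ?_
      rw [lg_interp (m := m) k (nd (Fin.castAdd c j)), map_sum, Finset.sum_mul]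
      refine Finset.sum_congr rfl fun i _ => ?_
      rw [map_mul, mul_assoc]
    have h2 := congrArg β h1
    show φ (dq (m + c) c k) = 0
    rw [map_zero] at h2
    rw [dq, Fin.sum_univ_add, ← h2]
    simp only [map_add, map_sum, map_mul, ← hr]
    congr 1
    · refine Finset.sum_congr rfl fun j _ => ?_
      simp [φ]
    · refine Finset.sum_congr rfl fun i _ => ?_
      simp [φ]
  have hr0 : ∀ i, r i ≠ 0 := fun i h => by
    obtain ⟨y, j, -, -, h3⟩ := rad_pt hm i
    have : rad m i = 0 := hβ (by rw [← hr, h, map_zero]; simp)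
    simp [this] at h3
  have hsq : ∀ S : Finset (Fin c), (∏ i ∈ S, r i) ^ 2 = β (∏ i ∈ S, rad m i) := fun S => by
    rw [← Finset.prod_pow, map_prod]
    exact Finset.prod_congr rfl fun i _ => hr i
  have hne : ∀ S T : Finset (Fin c),
      (∏ i ∈ S, r i) * ∏ i ∈ T, r i ∈ Set.range (algebraMap K L) → S = T := by
    rintro S T ⟨z, hz⟩
    have h1 : z ^ 2 = algebraMap B K ((∏ i ∈ S, rad m i) * ∏ i ∈ T, rad m i) :=
      (algebraMap K L).injective (by
        rw [map_pow, hz, mul_pow, hsq, hsq, ← map_mul]; rfl)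
    obtain ⟨w, hw⟩ := IsIntegrallyClosed.exists_algebraMap_eq_of_isIntegral_pow (R := B) (K := K)
      (x := z) (show 0 < 2 by norm_num) (h1 ▸ isIntegral_algebraMap)
    have h2 : w ^ 2 = (∏ i ∈ S, rad m i) * ∏ i ∈ T, rad m i :=
      IsFractionRing.injective B K (by rw [map_pow, hw, h1])
    ext i
    by_contra hc
    by_cases hi : i ∈ S
    · exact rad_not_sq hm hi (fun h => hc (by simp [hi, h])) w h2
    · exact rad_not_sq hm (S := T) (T := S) (i0 := i) (by simpa [hi] using hc) hi w
        (by rw [h2, mul_comm])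
  have : dI (m + c) c = RingHom.ker φ := by
    refine le_antisymm hle fun p hp => ?_
    obtain ⟨a, ha⟩ := dI_normal p
    have h1 : φ _ = 0 := hle ha
    rw [map_sub, show φ p = 0 from hp, zero_sub, neg_eq_zero, map_sum] at h1
    simp only [map_mul, map_prod, e1, e2] at h1
    have h2 := roots_indep (K := K) (L := L) (fun S : Finset (Fin c) => ∏ i ∈ S, r i)
      (fun S => Finset.prod_ne_zero_iff.mpr fun i _ => hr0 i) (fun S => ⟨_, (hsq S).symm⟩) hne
      (fun S => algebraMap B K (a S)) h1
    have h3 : ∀ S, a S = 0 := fun S => IsFractionRing.injective B K (by rw [h2 S, map_zero])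
    simpa [h3] using ha
  rw [this]
  exact RingHom.ker_isPrime _

end Pool.Agent.HCF.Tg
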