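import Pool.Agent.P.MP_f644fa_ag.Tg5
import Pool.Agent.P.MP_f644fa_ag.Tg3
import Pool.Agent.P.MP_f644fa_ag.LK1

/-! The examples, assembled. -/

noncomputable section
namespace Pool.Agent.HCF.Tg
open MvPolynomial

variable {M c : ℕ}

theorem dI_manifold {m : ℕ} (hm : 2 ≤ m) : IsManifold (dI (m + c) c) c where
  prime := dI_prime hm
  homog := homog_span (d := fun _ => 2) dq_hom
  nonempty := (exists_full (by omega)).imp fun _ h => h.1
  smooth x hx := ⟨dq (m + c) c, 1, gen_mem _, dq_indep hx, by simp, fun h hh => by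
    rw [one_mul]; exact hh⟩

/-- fewer than `M` polynomials that vanish at the origin have another common zero -/
theorem exists_zero {ι : Type} [Fintype ι] (g : ι → MvPolynomial (Fin M) ℂ)
    (h0 : ∀ i, eval 0 (g i) = 0) (h : Fintype.card ι < M) :
    ∃ y : Fin M → ℂ, y ≠ 0 ∧ ∀ i, eval y (g i) = 0 := by
  classical
  by_contra hc
  push Not at hc
  set P := RingHom.ker (eval (0 : Fin M → ℂ) : MvPolynomial (Fin M) ℂ →+* ℂ) with hP
  have hp : P.IsPrime := RingHom.ker_isPrime _
  have hle : Ideal.span (Set.range g) ≤ P :=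
    Ideal.span_le.mpr (by rintro _ ⟨i, rfl⟩; exact h0 i)
  have hrad : P ≤ (Ideal.span (Set.range g)).radical := by
    rw [← vanishingIdeal_zeroLocus_eq_radical (K := ℂ)]
    intro p hp x hx
    by_cases hx0 : x = 0
    · rw [hx0]; exact hp
    · obtain ⟨i, hi⟩ := hc x hx0
      exact absurd (hx _ (gen_mem g i)) hi
  have hm : P ∈ (Ideal.span (Set.range g)).minimalPrimes :=
    ⟨⟨hp, hle⟩, fun Q hQ _ => hrad.trans (hQ.1.radical_le_iff.mpr hQ.2)⟩
  have h1 := (card_le_height (0 : Fin M → ℂ)).trans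
    (Ideal.height_le_card_of_mem_minimalPrimes_span (Set.finite_range g) hm)
  have h2 : (Set.range g).ncard ≤ Fintype.card ι := by
    rw [← Set.image_univ]
    exact (Set.ncard_image_le Set.finite_univ).trans (by simp [Set.ncard_univ])
  rw [Fintype.card_fin] at h1
  have h3 : M ≤ (Set.range g).ncard := by exact_mod_cast h1
  omega

theorem dI_lines (h : 2 * c + 1 < M) : ∀ x ∈ cone (dI M c), ∃ y, LinearIndependent ℂ ![x, y] ∧
    ∀ s t : ℂ, ∀ f ∈ dI M c, eval (s • x + t • y) f = 0 := by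
  intro x hx
  obtain ⟨j0, hj0⟩ := Function.ne_iff.mp hx.1
  obtain ⟨y, hy, hz⟩ := exists_zero (ι := Option (Fin c ⊕ Fin c))
    (fun o => o.elim (X j0) (Sum.elim (dq M c) fun k => ∑ j, C (nd j ^ (k : ℕ) * x j) * X j))
    (by rintro (_ | k | k) <;> simp [dq]) (by simp; omega)
  have y0 : y j0 = 0 := by simpa using hz none
  refine ⟨y, LinearIndependent.pair_iff.mpr fun s t hst => ?_, fun s t => ?_⟩
  · have h1 := congrFun hst j0
    have hs : s = 0 := by simpa [y0, show x j0 ≠ 0 from hj0] using h1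
    exact ⟨hs, by simpa [hs, hy] using hst⟩
  · have : dI M c ≤ RingHom.ker (eval (s • x + t • y)) := by
      refine Ideal.span_le.mpr ?_
      rintro _ ⟨k, rfl⟩
      have h1 := (mem_cone_span.mp hx).2 k
      have h2 : eval y (dq M c k) = 0 := hz (some (.inl k))
      have h3 : ∑ j, nd j ^ (k : ℕ) * x j * y j = 0 := by simpa using hz (some (.inr k))
      show eval _ (dq M c k) = 0
      rw [eval_dq] at h1 h2 ⊢
      have : ∑ j, nd j ^ (k : ℕ) * (s • x + t • y) j ^ 2 = s ^ 2 * ∑ j, nd j ^ (k : ℕ) * x j ^ 2 +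
          2 * s * t * ∑ j, nd j ^ (k : ℕ) * x j * y j + t ^ 2 * ∑ j, nd j ^ (k : ℕ) * y j ^ 2 := by
        simp only [Finset.mul_sum, ← Finset.sum_add_distrib, Pi.add_apply, Pi.smul_apply,
          smul_eq_mul]
        exact Finset.sum_congr rfl fun j _ => by ring
      rw [this, h1, h2, h3]; ring
    exact fun f hf => this hf

end Pool.Agent.HCF.Tg
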