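import Pool.Agent.P.MP_f644fa_ag.Tg6
import Pool.Agent.P.MP_f644fa_ag.LX4
import Pool.Agent.P.MP_f644fa_ag.Sec

/-! The converse of adjunction for complete intersections of positive dimension. -/

noncomputable section
namespace Pool.Agent.HCF.Tg
open MvPolynomial

variable {M c n : ℕ}

theorem mem_tang {f : Fin c → MvPolynomial (Fin M) ℂ} {x v : Fin M → ℂ}
    (hx : x ∈ cone (Ideal.span (Set.range f))) (hv : ∀ i, dl (f i) x v = 0) :
    v ∈ tang (Ideal.span (Set.range f)) x := by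
  intro h hh
  induction hh using Submodule.span_induction with
  | mem h hh =>
    obtain ⟨i, rfl⟩ := hh
    exact hv i
  | zero => simp
  | add a b _ _ ha hb => simp only [map_add, mul_add, Finset.sum_add_distrib, ha, hb, add_zero]
  | smul a b hb ih =>
    have h0 : eval x b = 0 := hx.2 b hb
    simp only [smul_eq_mul, pderiv_mul, map_add, map_mul, h0, mul_zero, zero_add]
    have : ∑ j, v j * (eval x a * eval x (pderiv j b)) = eval x a * ∑ j, v j * eval x (pderiv j b) := by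
      rw [Finset.mul_sum]
      exact Finset.sum_congr rfl fun j _ => by ring
    rw [this, ih, mul_zero]

theorem alt_mul {f : Fin c → MvPolynomial (Fin M) ℂ} (hX : IsManifold (Ideal.span (Set.range f)) c)
    {x : Fin M → ℂ} (hx : x ∈ cone (Ideal.span (Set.range f)))
    (α : (Fin M → ℂ) [⋀^Fin c]→ₗ[ℂ] ℂ)
    (hα : ∀ v k, v k ∈ tang (Ideal.span (Set.range f)) x → α v = 0) :
    ∃ l : ℂ, ∀ v, α v = l * jac f x v := by
  let A : Matrix (Fin c) (Fin M) ℂ := Matrix.of fun i j => eval x (pderiv j (f i))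
  have hr : A.rank = Fintype.card (Fin c) :=
    LinearIndependent.rank_matrix (M := A) (indep_of_span hX hx)
  have ht : LinearMap.range A.mulVecLin = ⊤ := by
    apply Submodule.eq_top_of_finrank_eq
    rw [Module.finrank_fintype_fun_eq_card]
    exact hr
  obtain ⟨σ, hσ⟩ := A.mulVecLin.exists_rightInverse_of_surjective ht
  have hA : ∀ v i, A.mulVecLin v i = dl (f i) x v := fun v i => by
    simp [A, Matrix.mulVec, dotProduct, dl_apply, mul_comm]
  refine ⟨α fun k => σ (Pi.basisFun ℂ (Fin c) k), fun v => ?_⟩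
  have h1 : α v = α fun k => σ (A.mulVecLin (v k)) := by
    have e : v = (fun k => v k - σ (A.mulVecLin (v k))) + fun k => σ (A.mulVecLin (v k)) := by
      funext k; simp
    have h2 := α.toMultilinearMap.map_add_univ (fun k => v k - σ (A.mulVecLin (v k)))
      fun k => σ (A.mulVecLin (v k))
    rw [← e, Finset.sum_eq_single ∅] at h2
    · simpa using h2
    · intro s _ hs
      obtain ⟨k, hk⟩ := Finset.nonempty_iff_ne_empty.mpr hs
      refine hα _ k (mem_tang hx fun i => ?_)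
      rw [Finset.piecewise_eq_of_mem _ _ _ hk, ← hA, map_sub]
      have := LinearMap.congr_fun hσ (A.mulVecLin (v k))
      rw [LinearMap.comp_apply] at this
      rw [this]; simp
    · simp
  have h3 := (α.compLinearMap σ).eq_smul_basis_det (Pi.basisFun ℂ (Fin c))
  have h4 := DFunLike.congr_fun h3 fun k => A.mulVecLin (v k)
  rw [Pi.basisFun_det] at h4
  rw [h1]
  refine h4.trans ?_
  rw [AlternatingMap.smul_apply, smul_eq_mul, jac_apply]
  congr 1
  show Matrix.det _ = _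
  congr 1
  ext k i
  exact hA _ _

theorem quot_sec {I : Ideal (MvPolynomial (Fin M) ℂ)} (hX : IsManifold I c) {W : Type}
    {A B : cone I → W → ℂ} {μ : cone I → ℂ} {p q : ℤ} (h : ∀ x w, A x w = μ x * B x w)
    (hA : ∀ w, (fun x => A x w) ∈ secRing I ∧ IsHom p fun x => A x w)
    (hB : ∀ w, (fun x => B x w) ∈ secRing I ∧ IsHom q fun x => B x w)
    (h0 : ∀ x, ∃ w, B x w ≠ 0) : μ ∈ secRing I ∧ IsHom (p - q) μ := by
  refine ⟨hX.mem_sec_of_loc fun z => ?_, fun x y t e => ?_⟩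
  · obtain ⟨w, hw⟩ := h0 z
    refine ⟨⟨_, (hB w).1⟩, hw, ?_⟩
    have : (fun x => B x w) * μ = fun x => A x w := funext fun x => by
      rw [h, mul_comm]; rfl
    exact this ▸ (hA w).1
  · obtain ⟨w, hw⟩ := h0 x
    have ht := t_ne e
    have h1 : A y w = t ^ p * A x w := (hA w).2 x y t e
    have h2 : B y w = t ^ q * B x w := (hB w).2 x y t e
    rw [h, h, h2] at h1
    have hq : t ^ q ≠ 0 := zpow_ne_zero _ ht
    rw [zpow_sub₀ ht]
    field_simp
    apply mul_right_cancel₀ hw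
    linear_combination h1

theorem neg_zero_sec {I : Ideal (MvPolynomial (Fin M) ℂ)} (hX : IsManifold I c)
    (hM : M = n + 1 + c) (hn : 1 ≤ n) {μ : cone I → ℂ} {d : ℤ}
    (h : μ ∈ secRing I ∧ IsHom d μ) (hd : d < 0) : μ = 0 := by
  have h1 : (⟨μ, h.1⟩ : secRing I) ∈ Gr (secRing I) d := h.2
  rw [Gr_neg hX hM hn hd, Submodule.mem_bot] at h1
  exact congrArg Subtype.val h1

theorem jac_sec {f : Fin c → MvPolynomial (Fin M) ℂ} {d : Fin c → ℕ}
    (hf : ∀ i, (f i).IsHomogeneous (d i)) (I : Ideal (MvPolynomial (Fin M) ℂ)) (a : ℕ)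
    (w : Fin c → Fin M → ℂ) : (fun x : cone I => jac f x.1 w ^ a) ∈ secRing I ∧
      IsHom (a * ((∑ i, (d i : ℤ)) - c)) fun x : cone I => jac f x.1 w ^ a := by
  refine ⟨poly_mem (jacP f w ^ a) fun x => by simp [eval_jacP], fun x y t e => ?_⟩
  simp only [e, jac_smul hf (t_ne e), mul_pow]
  rw [mul_comm (a : ℤ), zpow_mul, zpow_natCast]

theorem canonical_iff {f : Fin c → MvPolynomial (Fin M) ℂ} {d : Fin c → ℕ}
    (hf : ∀ i, (f i).IsHomogeneous (d i)) (hX : IsManifold (Ideal.span (Set.range f)) c)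
    (hM : M = n + 1 + c) (hn : 1 ≤ n) (b : ℤ) :
    CanonicalIs (Ideal.span (Set.range f)) c b ↔ b = (∑ i, (d i : ℤ)) - M := by
  refine ⟨?_, fun h => h ▸ canonical_ci hf hX⟩
  rintro ⟨ν, h0, h1, h2⟩
  choose l hl using fun x => alt_mul hX x.2 (ν x) (h1 x)
  have hl0 : ∀ x, l x ≠ 0 := fun x e => h0 x (by ext v; simp [hl, e])
  have hj := jac_sec hf (Ideal.span (Set.range f)) 1
  simp only [pow_one, Nat.cast_one, one_mul] at hj
  have q1 := quot_sec hX hl h2 hj fun x => jac_ne (indep_of_span hX x.2)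
  have q2 := quot_sec hX (μ := fun x => (l x)⁻¹) (A := fun x w => jac f x.1 w)
    (B := fun x w => ν x w) (fun x w => by rw [hl]; field_simp [hl0 x]) hj h2 fun x => by
      by_contra hc
      push Not at hc
      exact h0 x (by ext v; simpa using hc v)
  obtain ⟨x, hx⟩ := hX.nonempty
  by_contra hb
  rcases lt_or_gt_of_ne hb with k | k
  · exact hl0 ⟨x, hx⟩ (congrFun (neg_zero_sec hX hM hn q1 (by omega)) _)
  · exact inv_ne_zero (hl0 ⟨x, hx⟩) (congrFun (neg_zero_sec hX hM hn q2 (by omega)) _)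

theorem fano_iff {f : Fin c → MvPolynomial (Fin M) ℂ} {d : Fin c → ℕ}
    (hf : ∀ i, (f i).IsHomogeneous (d i)) (hX : IsManifold (Ideal.span (Set.range f)) c)
    (hM : M = n + 1 + c) (hn : 1 ≤ n) :
    IsFano (Ideal.span (Set.range f)) c ↔ ∑ i, d i < M := by
  refine ⟨?_, fano_ci hf hX⟩
  rintro ⟨a, h, ν, ha, h1, h2, h3⟩
  obtain ⟨x, hx⟩ := hX.nonempty
  obtain ⟨i, v, hv⟩ := h3 ⟨x, hx⟩
  choose α hα hν using h1 i
  choose l hl using fun x => alt_mul hX x.2 (α x) (hα x)
  have q := quot_sec hX (μ := fun x => l x ^ a) (A := fun x w => ν i x fun _ => w)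
    (B := fun x w => jac f x.1 w ^ a) (fun x w => by simp [hν, hl, mul_pow])
    (fun w => h2 i _) (jac_sec hf _ a) fun x =>
      (jac_ne (indep_of_span hX x.2)).imp fun _ e => pow_ne_zero _ e
  by_contra hc
  have h4 : (M : ℤ) ≤ ∑ i, (d i : ℤ) := by exact_mod_cast not_lt.mp hc
  have h5 := congrFun (neg_zero_sec hX hM hn q (by
    have : (0 : ℤ) ≤ a * ((∑ i, (d i : ℤ)) - M) := mul_nonneg (by omega) (by omega)
    linarith)) ⟨x, hx⟩
  have h6 : l ⟨x, hx⟩ = 0 := pow_eq_zero_iff (by omega : a ≠ 0) |>.mp h5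
  refine hv ?_
  rw [hν, Finset.prod_eq_zero (Finset.mem_univ (⟨0, ha⟩ : Fin a))]
  rw [hl, h6, zero_mul]

end Pool.Agent.HCF.Tg
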