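import Pool.Agent.P.MP_f644fa_ag.Tg7

/-! When `K_X = b H`, Fano means `b < 0`. -/

noncomputable section
namespace Pool.Agent.HCF.Tg
open MvPolynomial

variable {M c n : ℕ} {I : Ideal (MvPolynomial (Fin M) ℂ)}

theorem alt_of_indep {f : Fin c → MvPolynomial (Fin M) ℂ} {x : Fin M → ℂ}
    (hi : LinearIndependent ℂ fun i j => eval x (pderiv j (f i)))
    (α : (Fin M → ℂ) [⋀^Fin c]→ₗ[ℂ] ℂ) (hα : ∀ v k, (∀ i, dl (f i) x (v k) = 0) → α v = 0) :
    ∃ l : ℂ, ∀ v, α v = l * jac f x v := by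
  let A : Matrix (Fin c) (Fin M) ℂ := Matrix.of fun i j => eval x (pderiv j (f i))
  have hr : A.rank = Fintype.card (Fin c) := LinearIndependent.rank_matrix (M := A) hi
  have ht : LinearMap.range A.mulVecLin = ⊤ := by
    apply Submodule.eq_top_of_finrank_eq
    rw [Module.finrank_fintype_fun_eq_card]
    exact hr
  obtain ⟨σ, hσ⟩ := A.mulVecLin.exists_rightInverse_of_surjective ht
  have hA : ∀ v i, A.mulVecLin v i = dl (f i) x v := fun v i => by
    simp [A, Matrix.mulVec, dotProduct, dl_apply, mul_comm]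
  refine ⟨α fun k => σ (Pi.basisFun ℂ (Fin c) k), fun v => ?_⟩
  have h1 : α v = α fun k => σ (A.mulVecLin (v k)) := by
    have e : v = (fun k => v k - σ (A.mulVecLin (v k))) + fun k => σ (A.mulVecLin (v k)) := by
      funext k; simp
    have h2 := α.toMultilinearMap.map_add_univ (fun k => v k - σ (A.mulVecLin (v k)))
      fun k => σ (A.mulVecLin (v k))
    rw [← e, Finset.sum_eq_single ∅] at h2
    · simpa using h2
    · intro s _ hs
      obtain ⟨k, hk⟩ := Finset.nonempty_iff_ne_empty.mpr hs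
      refine hα _ k fun i => ?_
      rw [Finset.piecewise_eq_of_mem _ _ _ hk, ← hA, map_sub]
      have := LinearMap.congr_fun hσ (A.mulVecLin (v k))
      rw [LinearMap.comp_apply] at this
      rw [this]; simp
    · simp
  have h3 := (α.compLinearMap σ).eq_smul_basis_det (Pi.basisFun ℂ (Fin c))
  have h4 := DFunLike.congr_fun h3 fun k => A.mulVecLin (v k)
  rw [Pi.basisFun_det] at h4
  rw [h1]
  refine h4.trans ?_
  rw [AlternatingMap.smul_apply, smul_eq_mul, jac_apply]
  congr 1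
  show Matrix.det _ = _
  congr 1
  ext k i
  exact hA _ _

/-- the forms that kill the tangent space are proportional -/
theorem alt_line (hX : IsManifold I c) {x : Fin M → ℂ} (hx : x ∈ cone I)
    (α β : (Fin M → ℂ) [⋀^Fin c]→ₗ[ℂ] ℂ) (hα : ∀ v k, v k ∈ tang I x → α v = 0)
    (hβ : ∀ v k, v k ∈ tang I x → β v = 0) (h0 : β ≠ 0) : ∃ l : ℂ, ∀ v, α v = l * β v := by
  obtain ⟨f, g, hf, hi, hg, hs⟩ := hX.smooth x hx
  have hc : x ∈ cone (Ideal.span (Set.range f)) :=
    mem_cone_span.mpr ⟨hx.1, fun i => hx.2 _ (hf i)⟩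
  have ht : ∀ w, (∀ i, dl (f i) x w = 0) → w ∈ tang I x := fun w hw h hh => by
    have h1 := mem_tang hc hw _ (hs h hh)
    simp only [pderiv_mul, map_add, map_mul, hx.2 h hh, mul_zero, zero_add] at h1
    have h2 : ∑ j, w j * (eval x g * eval x (pderiv j h)) =
        eval x g * ∑ j, w j * eval x (pderiv j h) := by
      rw [Finset.mul_sum]
      exact Finset.sum_congr rfl fun j _ => by ring
    exact (mul_eq_zero.mp (h2 ▸ h1)).resolve_left hg
  obtain ⟨a, ha⟩ := alt_of_indep hi α fun v k hv => hα v k (ht _ hv)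
  obtain ⟨b, hb⟩ := alt_of_indep hi β fun v k hv => hβ v k (ht _ hv)
  have hb0 : b ≠ 0 := fun e => h0 (by ext v; simp [hb, e])
  exact ⟨a / b, fun v => by rw [ha, hb]; field_simp⟩

theorem fano_iff_neg (hX : IsManifold I c) (hM : M = n + 1 + c) (hn : 1 ≤ n) {b : ℤ}
    (hK : CanonicalIs I c b) : IsFano I c ↔ b < 0 := by
  obtain ⟨κ, k0, k1, k2⟩ := hK
  have kv : ∀ x, ∃ w, κ x w ≠ 0 := fun x => by
    by_contra hc
    push Not at hc
    exact k0 x (by ext v; simpa using hc v)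
  constructor
  · rintro ⟨a, h, ν, ha, h1, h2, h3⟩
    obtain ⟨x, hx⟩ := hX.nonempty
    obtain ⟨i, v, hv⟩ := h3 ⟨x, hx⟩
    choose α hα hν using h1 i
    choose l hl using fun x => alt_line hX x.2 (α x) (κ x) (hα x) (k1 x) (k0 x)
    have q := quot_sec hX (μ := fun x => l x ^ a) (A := fun x w => ν i x fun _ => w)
      (B := fun x w => κ x w ^ a) (q := a * (b + M - c)) (fun x w => by simp [hν, hl, mul_pow])
      (fun w => h2 i _) (fun w => ⟨pow_mem (k2 w).1 a, fun x y t e => by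
        have := (k2 w).2 x y t e
        simp only at this ⊢
        rw [this, mul_pow, mul_comm (a : ℤ), zpow_mul, zpow_natCast]⟩)
      fun x => (kv x).imp fun _ e => pow_ne_zero _ e
    by_contra hc
    have h5 := congrFun (neg_zero_sec hX hM hn q (by
      have : (0 : ℤ) ≤ a * b := mul_nonneg (by omega) (by omega)
      linarith)) ⟨x, hx⟩
    have h6 : l ⟨x, hx⟩ = 0 := pow_eq_zero_iff (by omega : a ≠ 0) |>.mp h5
    refine hv ?_
    rw [hν, Finset.prod_eq_zero (Finset.mem_univ (⟨0, ha⟩ : Fin a))]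
    rw [hl, h6, zero_mul]
  · intro hb
    obtain ⟨e, he⟩ : ∃ e : ℕ, b = -(e + 1 : ℤ) := ⟨(-b - 1).toNat, by omega⟩
    refine ⟨1, M, fun j x v => x.1 j ^ e * κ x (v 0), le_rfl, fun j x => ?_,
      fun j v => ⟨?_, fun x y t h => ?_⟩, fun x => ?_⟩
    · exact ⟨x.1 j ^ e • κ x, fun v k hv => by simp [k1 x v k hv], fun v => by simp⟩
    · exact mul_mem (poly_mem (I := I) (a := fun x => x.1 j ^ e) (X j ^ e) fun x => by simp)
        (k2 (v 0)).1
    · have ht := t_ne h
      have h1 := (k2 (v 0)).2 x y t h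
      have h2 : ((1 : ℕ) : ℤ) * ((M : ℤ) - c) - 1 = (e : ℤ) + (b + M - c) := by
        rw [he]; push_cast; ring
      simp only at h1 ⊢
      rw [h1, h, h2, zpow_add₀ ht, zpow_natCast]
      simp only [Pi.smul_apply, smul_eq_mul]
      ring
    · obtain ⟨w, hw⟩ := kv x
      obtain ⟨j, hj⟩ := Function.ne_iff.mp x.2.1
      exact ⟨j, fun _ => w, mul_ne_zero (pow_ne_zero _ hj) hw⟩

end Pool.Agent.HCF.Tg
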