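import Pool.Agent.P.MP_f644fa_ag.Fock

/-! Traces on invariant subspaces. -/

noncomputable section
namespace Pool.Agent.HCF
open Finset Module

variable {W W' : Type} [AddCommGroup W] [Module ℂ W] [AddCommGroup W'] [Module ℂ W']

open Classical in
/-- the trace of `T` on the invariant subspace `p` -/
def trOn (p : Submodule ℂ W) (T : End ℂ W) : ℂ :=
  if h : ∀ w ∈ p, T w ∈ p then LinearMap.trace ℂ p (T.restrict h) else 0

theorem trOn_eq {p : Submodule ℂ W} {T : End ℂ W} (h : ∀ w ∈ p, T w ∈ p) :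
    trOn p T = LinearMap.trace ℂ p (T.restrict h) := dif_pos h

theorem trOn_bot (T : End ℂ W) : trOn ⊥ T = 0 := by
  have h : ∀ w ∈ (⊥ : Submodule ℂ W), T w ∈ (⊥ : Submodule ℂ W) := by
    intro w hw
    rw [(Submodule.mem_bot ℂ).1 hw, map_zero]
    exact Submodule.zero_mem _
  rw [trOn_eq h, Subsingleton.elim (T.restrict h) 0, map_zero]

theorem trOn_ext {p : Submodule ℂ W} {T T' : End ℂ W} (h : ∀ w ∈ p, T w = T' w) :
    trOn p T = trOn p T' := by
  by_cases h1 : ∀ w ∈ p, T w ∈ p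
  · have h2 : ∀ w ∈ p, T' w ∈ p := fun w hw => h w hw ▸ h1 w hw
    rw [trOn_eq h1, trOn_eq h2]
    exact congrArg _ (LinearMap.ext fun w => Subtype.ext (h w w.2))
  · have h2 : ¬∀ w ∈ p, T' w ∈ p := fun h2 => h1 fun w hw => (h w hw).symm ▸ h2 w hw
    unfold trOn
    rw [dif_neg h1, dif_neg h2]

theorem trOn_add {p : Submodule ℂ W} {T T' : End ℂ W} (h : ∀ w ∈ p, T w ∈ p)
    (h' : ∀ w ∈ p, T' w ∈ p) : trOn p (T + T') = trOn p T + trOn p T' := by
  have h2 : ∀ w ∈ p, (T + T') w ∈ p := fun w hw => p.add_mem (h w hw) (h' w hw)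
  rw [trOn_eq h, trOn_eq h', trOn_eq h2, ← map_add]
  rfl

theorem trOn_smul {p : Submodule ℂ W} {T : End ℂ W} (h : ∀ w ∈ p, T w ∈ p) (c : ℂ) :
    trOn p (c • T) = c * trOn p T := by
  have h2 : ∀ w ∈ p, (c • T) w ∈ p := fun w hw => p.smul_mem c (h w hw)
  rw [trOn_eq h, trOn_eq h2, ← smul_eq_mul, ← map_smul]
  rfl

theorem trOn_sum {ι : Type} (s : Finset ι) {p : Submodule ℂ W} {T : ι → End ℂ W}
    (h : ∀ i ∈ s, ∀ w ∈ p, T i w ∈ p) : trOn p (∑ i ∈ s, T i) = ∑ i ∈ s, trOn p (T i) := by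
  classical
  induction s using Finset.induction_on with
  | empty =>
    have h0 : ∀ w ∈ p, (0 : End ℂ W) w ∈ p := fun w _ => p.zero_mem
    rw [sum_empty, sum_empty, trOn_eq h0]
    exact map_zero _
  | insert a s ha ih =>
    have hs : ∀ i ∈ s, ∀ w ∈ p, T i w ∈ p := fun i hi => h i (mem_insert_of_mem hi)
    rw [sum_insert ha, sum_insert ha, trOn_add (h a (mem_insert_self a s)), ih hs]
    intro w hw
    rw [LinearMap.sum_apply]
    exact p.sum_mem fun i hi => hs i hi w hw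

theorem trOn_comm {p : Submodule ℂ W} {T T' : End ℂ W} (h : ∀ w ∈ p, T w ∈ p)
    (h' : ∀ w ∈ p, T' w ∈ p) : trOn p (T * T') = trOn p (T' * T) := by
  have h1 : ∀ w ∈ p, (T * T') w ∈ p := fun w hw => h _ (h' w hw)
  have h2 : ∀ w ∈ p, (T' * T) w ∈ p := fun w hw => h' _ (h w hw)
  rw [trOn_eq h1, trOn_eq h2]
  exact LinearMap.trace_mul_comm ℂ (T.restrict h) (T'.restrict h')

theorem trOn_one (p : Submodule ℂ W) [FiniteDimensional ℂ p] : trOn p 1 = finrank ℂ p := by
  have h1 : ∀ w ∈ p, (1 : End ℂ W) w ∈ p := fun w hw => hw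
  rw [trOn_eq h1]
  exact LinearMap.trace_one ℂ p

theorem trOn_proj {p : Submodule ℂ W} [FiniteDimensional ℂ p] {T : End ℂ W}
    (h : ∀ w ∈ p, T w ∈ p) (h2 : ∀ w ∈ p, T (T w) = T w) :
    trOn p T = finrank ℂ (p.map T) := by
  have hp : LinearMap.IsProj (LinearMap.range (T.restrict h)) (T.restrict h) := by
    refine ⟨fun x => LinearMap.mem_range_self _ x, ?_⟩
    rintro _ ⟨x, rfl⟩
    exact Subtype.ext (h2 x x.2)
  have he : (LinearMap.range (T.restrict h)).map p.subtype = p.map T := by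
    ext w
    constructor
    · rintro ⟨_, ⟨x, rfl⟩, rfl⟩
      exact ⟨x, x.2, rfl⟩
    · rintro ⟨x, hx, rfl⟩
      exact ⟨_, ⟨⟨x, hx⟩, rfl⟩, rfl⟩
  rw [trOn_eq h, hp.trace, ← he, Submodule.finrank_map_subtype_eq]

theorem trace_congr_aux {p : Submodule ℂ W} {T : End ℂ W} {T' : End ℂ W'}
    (f : W →ₗ[ℂ] W') (h : ∀ w ∈ p, T w ∈ p) (hf : ∀ w ∈ p, f (T w) = T' (f w))
    (hi : ∀ w ∈ p, f w = 0 → w = 0) : trOn (p.map f) T' = trOn p T := by
  have h' : ∀ w ∈ p.map f, T' w ∈ p.map f := by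
    rintro _ ⟨w, hw, rfl⟩
    exact ⟨T w, h w hw, hf w hw⟩
  have hb : Function.Bijective (f.submoduleMap p) := by
    refine ⟨(injective_iff_map_eq_zero _).2 fun w hw => Subtype.ext (hi w w.2 ?_),
      f.submoduleMap_surjective p⟩
    exact congrArg Subtype.val hw
  rw [trOn_eq h, trOn_eq h', ← LinearMap.trace_conj' (T.restrict h) (LinearEquiv.ofBijective _ hb)]
  refine congrArg _ (LinearMap.ext fun w => ?_)
  obtain ⟨x, rfl⟩ := (LinearEquiv.ofBijective _ hb).surjective w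
  rw [LinearEquiv.conj_apply_apply, LinearEquiv.symm_apply_apply]
  exact Subtype.ext (hf x x.2).symm

theorem trace_ker_aux [FiniteDimensional ℂ W] {T : End ℂ W} {T' : End ℂ W'}
    (f : W →ₗ[ℂ] W') (hs : LinearMap.range f = ⊤) (hf : ∀ w, f (T w) = T' (f w)) :
    LinearMap.trace ℂ W T = trOn (LinearMap.ker f) T + LinearMap.trace ℂ W' T' := by
  have : FiniteDimensional ℂ W' := Module.Finite.of_surjective f (LinearMap.range_eq_top.1 hs)
  obtain ⟨s, hs'⟩ := f.exists_rightInverse_of_surjective hs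
  have hs2 : ∀ y, f (s y) = y := fun y => LinearMap.congr_fun hs' y
  have hk : ∀ w ∈ LinearMap.ker f, T w ∈ LinearMap.ker f := by
    intro w hw
    rw [LinearMap.mem_ker] at hw ⊢
    rw [hf, hw, map_zero]
  have hπ : ∀ w, (LinearMap.id - s ∘ₗ f : W →ₗ[ℂ] W) w ∈ LinearMap.ker f := by
    intro w
    simp [hs2]
  have e1 : T = (LinearMap.ker f).subtype ∘ₗ (T.restrict hk ∘ₗ
      (LinearMap.id - s ∘ₗ f : W →ₗ[ℂ] W).codRestrict _ hπ) + (T ∘ₗ s) ∘ₗ f := by
    ext w
    simp [LinearMap.restrict_apply]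
  have e2 : (T.restrict hk ∘ₗ (LinearMap.id - s ∘ₗ f : W →ₗ[ℂ] W).codRestrict _ hπ) ∘ₗ
      (LinearMap.ker f).subtype = T.restrict hk := by
    refine LinearMap.ext fun w => Subtype.ext ?_
    have : f w = 0 := w.2
    simp [LinearMap.restrict_apply, this]
  have e3 : f ∘ₗ (T ∘ₗ s) = T' := by
    ext w
    simp [hf, hs2]
  rw [trOn_eq hk]
  conv_lhs => rw [e1]
  rw [map_add, LinearMap.trace_comp_comm', e2, LinearMap.trace_comp_comm' f (T ∘ₗ s), e3]

/-- rank-nullity for traces -/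
theorem trOn_ker_map {p : Submodule ℂ W} [FiniteDimensional ℂ p] {T : End ℂ W} {T' : End ℂ W'}
    (f : W →ₗ[ℂ] W') (h : ∀ w ∈ p, T w ∈ p) (hf : ∀ w ∈ p, f (T w) = T' (f w)) :
    trOn p T = trOn (p ⊓ LinearMap.ker f) T + trOn (p.map f) T' := by
  have h' : ∀ w ∈ p.map f, T' w ∈ p.map f := by
    rintro _ ⟨w, hw, rfl⟩
    exact ⟨T w, h w hw, hf w hw⟩
  have hc : ∀ w : p, f.submoduleMap p (T.restrict h w) = T'.restrict h' (f.submoduleMap p w) :=
    fun w => Subtype.ext (hf w w.2)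
  have he : (LinearMap.ker (f.submoduleMap p)).map p.subtype = p ⊓ LinearMap.ker f := by
    ext w
    constructor
    · rintro ⟨x, hx, rfl⟩
      exact ⟨x.2, congrArg Subtype.val hx⟩
    · rintro ⟨h1, h2⟩
      exact ⟨⟨w, h1⟩, Subtype.ext h2, rfl⟩
  rw [trOn_eq h, trOn_eq h', trace_ker_aux (f.submoduleMap p)
    (LinearMap.range_eq_top.2 (f.submoduleMap_surjective p)) hc, ← he,
    trace_congr_aux (T := T.restrict h) p.subtype ?_ (fun _ _ => rfl)
      (fun w _ hw => Subtype.ext hw)]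
  intro w hw
  rw [LinearMap.mem_ker] at hw ⊢
  rw [hc, hw, map_zero]

/-- invariance under isomorphism (no finiteness needed) -/
theorem trOn_congr {p : Submodule ℂ W} {T : End ℂ W} {T' : End ℂ W'}
    (f : W →ₗ[ℂ] W') (h : ∀ w ∈ p, T w ∈ p) (hf : ∀ w ∈ p, f (T w) = T' (f w))
    (hi : ∀ w ∈ p, f w = 0 → w = 0) : trOn (p.map f) T' = trOn p T :=
  trace_congr_aux f h hf hi

/-- Hopf's trace lemma -/
theorem hopf {p : Submodule ℂ W} [FiniteDimensional ℂ p] {d τ : End ℂ W} {τ' : End ℂ W'}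
    (μ : W →ₗ[ℂ] W') (hτ : ∀ w ∈ p, τ w ∈ p) (ha : ∀ w ∈ p, d (τ w) = -τ (d w))
    (hμ : ∀ w ∈ p, μ (τ w) = τ' (μ w))
    (hB : p ⊓ LinearMap.ker d ⊓ LinearMap.ker μ = p.map d) :
    trOn p τ = trOn ((p ⊓ LinearMap.ker d).map μ) τ' := by
  have hZ : ∀ w ∈ p ⊓ LinearMap.ker d, τ w ∈ p ⊓ LinearMap.ker d := by
    rintro w ⟨h1, h2⟩
    refine ⟨hτ w h1, ?_⟩
    have h3 : d w = 0 := h2
    change d (τ w) = 0
    rw [ha w h1, h3, map_zero, neg_zero]
  have hB' : ∀ w ∈ p.map d, τ w ∈ p.map d := by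
    rintro _ ⟨w, hw, rfl⟩
    refine ⟨-τ w, p.neg_mem (hτ w hw), ?_⟩
    rw [map_neg, ha w hw, neg_neg]
  rw [trOn_ker_map (T' := (-1 : ℂ) • τ) d hτ (fun w hw => by simp [ha w hw]),
    trOn_ker_map (p := p ⊓ LinearMap.ker d) μ hZ (fun w hw => hμ w hw.1), hB, trOn_smul hB']
  ring

/-- an operator applied in each component, with scalar factors -/
def piOp {ι : Type} (c : ι → ℂ) (T : End ℂ W) : End ℂ (ι → W) where
  toFun y i := c i • T (y i)
  map_add' a b := by ext i; simp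
  map_smul' r a := by ext i; simp [smul_comm r]

@[simp] theorem piOp_apply {ι : Type} (c : ι → ℂ) (T : End ℂ W) (y : ι → W) (i : ι) :
    piOp c T y i = c i • T (y i) := rfl

theorem trace_pi_range {ι : Type} (p : ι → Submodule ℂ W) :
    LinearMap.range (LinearMap.pi fun i => (p i).subtype ∘ₗ
      (LinearMap.proj i : (∀ i, p i) →ₗ[ℂ] p i)) = Submodule.pi Set.univ p := by
  ext y
  constructor
  · rintro ⟨x, rfl⟩ i _
    exact (x i).2
  · intro hy
    exact ⟨fun i => ⟨y i, hy i trivial⟩, rfl⟩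

theorem finite_pi {ι : Type} [Fintype ι] (p : ι → Submodule ℂ W)
    [∀ i, FiniteDimensional ℂ (p i)] : FiniteDimensional ℂ (Submodule.pi Set.univ p) := by
  rw [← trace_pi_range]
  infer_instance

theorem trOn_pi {ι : Type} [Fintype ι] (p : ι → Submodule ℂ W) [∀ i, FiniteDimensional ℂ (p i)]
    (c : ι → ℂ) {T : End ℂ W} (h : ∀ i, ∀ w ∈ p i, T w ∈ p i) :
    trOn (Submodule.pi Set.univ p) (piOp c T) = ∑ i, c i * trOn (p i) T := by
  classical
  let T0 : End ℂ (∀ i, p i) := ∑ i, (LinearMap.single ℂ (fun i => p i) i ∘ₗ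
    (c i • T.restrict (h i))) ∘ₗ LinearMap.proj i
  have hT0 : ∀ x i, T0 x i = c i • T.restrict (h i) (x i) := by
    intro x i
    simp only [T0, LinearMap.sum_apply, LinearMap.comp_apply, Finset.sum_apply,
      LinearMap.coe_single, LinearMap.proj_apply, LinearMap.smul_apply]
    rw [Finset.sum_eq_single i (fun j _ hj => Pi.single_eq_of_ne hj.symm _) (by simp),
      Pi.single_eq_same]
  have ht : ∀ w ∈ (⊤ : Submodule ℂ (∀ i, p i)), T0 w ∈ (⊤ : Submodule ℂ (∀ i, p i)) :=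
    fun _ _ => Submodule.mem_top
  rw [← trace_pi_range, LinearMap.range_eq_map,
    trOn_congr (T := T0) _ ht ?_ ?_, trOn_eq ht]
  · have e : LinearMap.trace ℂ (⊤ : Submodule ℂ (∀ i, p i)) (T0.restrict ht) =
        LinearMap.trace ℂ _ T0 := by
      rw [← LinearMap.trace_conj' _ Submodule.topEquiv]
      rfl
    rw [e, map_sum]
    refine sum_congr rfl fun i _ => ?_
    rw [LinearMap.trace_comp_comm', trOn_eq (h i), ← smul_eq_mul, ← map_smul]
    refine congrArg _ (LinearMap.ext fun x => ?_)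
    simp
  · intro x _
    funext i
    change ((T0 x i : p i) : W) = c i • T (x i)
    rw [hT0]
    rfl
  · intro x _ hx
    funext i
    exact Subtype.ext (congrFun hx i)

/-- the trace in a basis -/
theorem trOn_basis {ι : Type} [Fintype ι] {b : ι → W} (hb : LinearIndependent ℂ b) {T : End ℂ W}
    (a : ι → ι → ℂ) (h : ∀ i, T (b i) = ∑ j, a j i • b j) :
    trOn (Submodule.span ℂ (Set.range b)) T = ∑ i, a i i := by
  classical
  have hm : ∀ w ∈ Submodule.span ℂ (Set.range b), T w ∈ Submodule.span ℂ (Set.range b) := by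
    intro w hw
    have : (Submodule.span ℂ (Set.range b)).map T ≤ Submodule.span ℂ (Set.range b) := by
      rw [Submodule.map_span_le]
      rintro _ ⟨i, rfl⟩
      rw [h]
      exact Submodule.sum_mem _ fun j _ =>
        Submodule.smul_mem _ _ (Submodule.subset_span ⟨j, rfl⟩)
    exact this ⟨w, hw, rfl⟩
  rw [trOn_eq hm, LinearMap.trace_eq_matrix_trace ℂ (Basis.span hb), Matrix.trace]
  refine sum_congr rfl fun i _ => ?_
  have e : T.restrict hm (Basis.span hb i) = ∑ j, a j i • Basis.span hb j := by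
    refine Subtype.ext ?_
    simp [LinearMap.restrict_apply, Basis.span_apply, h]
  rw [Matrix.diag_apply, LinearMap.toMatrix_apply, e, Basis.repr_sum_self]

/-- Euler characteristic of an exact Koszul complex -/
theorem euler {τ : Type} [LinearOrder τ] [Fintype τ] {R : Type} [CommRing R] [Algebra ℂ R]
    [Module R W] [IsScalarTower ℂ R W] (l : τ → R) (p : Finset τ → Submodule ℂ W)
    [∀ J, FiniteDimensional ℂ (p J)] {T : End ℂ W} (hT : ∀ J, ∀ w ∈ p J, T w ∈ p J)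
    (hl : ∀ i w, T (l i • w) = l i • T w)
    (hd : ∀ z, (∀ J, z J ∈ p J) → ∀ J, iov W l z J ∈ p J)
    (hex : ∀ z, (∀ J, z J ∈ p J) → iov W l z = 0 → ∃ y, (∀ J, y J ∈ p J) ∧ iov W l y = z) :
    ∑ J : Finset τ, (-1) ^ J.card * trOn (p J) T = 0 := by
  have := finite_pi p
  rw [← trOn_pi p (fun J => (-1) ^ J.card) hT,
    hopf (d := (iov W l).restrictScalars ℂ) (τ' := (0 : End ℂ W)) 0 ?_ ?_ (fun _ _ => rfl) ?_,
    Submodule.map_zero, trOn_bot]
  · intro w hw J _
    exact (p J).smul_mem _ (hT J _ (hw J trivial))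
  · intro w _
    funext J
    simp only [LinearMap.coe_restrictScalars, iov, LinearMap.sum_apply, Finset.sum_apply,
      LinearMap.smul_apply, Pi.smul_apply, Pi.neg_apply, piOp_apply, map_sum, hl, io_apply,
      ← Finset.sum_neg_distrib]
    refine sum_congr rfl fun j _ => ?_
    by_cases hj : j ∈ J
    · simp [hj]
    · rw [if_neg hj, if_neg hj, card_insert_of_notMem hj, map_zsmul, pow_succ, mul_neg_one,
        neg_smul, smul_neg, smul_neg, smul_comm (sg j J), smul_comm (l j)]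
  · rw [LinearMap.ker_zero, inf_top_eq]
    ext z
    constructor
    · rintro ⟨h1, h2⟩
      obtain ⟨y, hy, e⟩ := hex z (fun J => h1 J trivial) h2
      exact ⟨y, fun J _ => hy J, e⟩
    · rintro ⟨y, hy, rfl⟩
      exact ⟨fun J _ => hd y (fun J => hy J trivial) J, LinearMap.congr_fun (iov_sq l) y⟩

end Pool.Agent.HCF
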