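import Pool.Agent.P.MP_f644fa_ag.Van0

/-! The degree of the numerators of the Hilbert series. -/

noncomputable section
namespace Pool.Agent.HCF
open MvPolynomial Module Set

variable {M : ℕ} {I : Ideal (SS M)} {c n : ℕ}


theorem van_sqrt {V : Type} [NormedAddCommGroup V] [InnerProductSpace ℝ V] [FiniteDimensional ℝ V]
    {S : Set V} (hS : IsCompact S) {ι : Type} [Fintype ι] (u : ι → Sm S)
    (h : ∀ x, ∃ J, (u J).1 x ≠ 0) : ∃ σ : Sm S, star σ = σ ∧ σ ^ 2 * hp u u = 1 := by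
  refine exists_inv_sqrt hS _ fun x => ?_
  let ev : Sm S →+ ℂ := ⟨⟨fun a => a.1 x, rfl⟩, fun _ _ => rfl⟩
  have h1 : (hp u u).1 x = ((∑ J, Complex.normSq ((u J).1 x) : ℝ) : ℂ) := by
    change ev (hp u u) = _
    rw [hp, map_sum, Complex.ofReal_sum]
    refine Finset.sum_congr rfl fun J _ => ?_
    rw [Complex.normSq_eq_conj_mul_self]
    rfl
  rw [h1, Complex.ofReal_re, Complex.ofReal_im]
  obtain ⟨J, hJ⟩ := h x
  exact ⟨Finset.sum_pos' (fun _ _ => Complex.normSq_nonneg _)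
    ⟨J, Finset.mem_univ _, Complex.normSq_pos.2 hJ⟩, rfl⟩

/-- restriction of forms to the link -/
def vanR (I : Ideal (SS M)) : (Finset (Fin M) → secRing I) →+ (Finset (Fin M) → Sm (Lk I)) where
  toFun w A := rs I (w A)
  map_zero' := funext fun _ => map_zero _
  map_add' _ _ := funext fun _ => map_add _ _ _

theorem van_smul {k : ℕ} {d e : ℤ} {a : secRing I} (ha : a ∈ Gr (secRing I) e)
    {w : Finset (Fin M) → secRing I} (hw : w ∈ Hm (secRing I) k d) :
    a • w ∈ Hm (secRing I) k (e + d) :=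
  ⟨fun v hv => by rw [map_smul, hw.1 v hv, smul_zero],
    fun J hJ => by rw [Pi.smul_apply, hw.2.1 J hJ, smul_zero],
    fun J => IsHom.mul ha (hw.2.2 J)⟩

theorem van_apply {σ R N : Type} [LinearOrder σ] [Fintype σ] [CommRing R] [AddCommGroup N]
    [Module R N] (l : σ → R) (z : Finset σ → N) (J : Finset σ) :
    iov N l z J = ∑ j, l j • io R N j z J := by
  rw [iov, LinearMap.sum_apply, Finset.sum_apply]
  rfl

theorem van_iov {k : ℕ} {m : ℤ} (l : Fin (n + 1) → secRing I) (hl : ∀ i, l i ∈ Gr (secRing I) 1)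
    (z : Finset (Fin (n + 1)) → Finset (Fin M) → secRing I)
    (hz : ∀ J, z J ∈ Hm (secRing I) k (m - J.card)) (J : Finset (Fin (n + 1))) :
    iov (Finset (Fin M) → secRing I) l z J ∈ Hm (secRing I) k (m - J.card) := by
  rw [van_apply]
  refine Submodule.sum_mem _ fun j _ => ?_
  rw [io_apply]
  by_cases hj : j ∈ J
  · rw [if_pos hj, smul_zero]
    exact zero_mem _
  · rw [if_neg hj]
    have h1 := van_smul (hl j) (zsmul_mem (hz (insert j J)) (sg j J))
    have e : (1 : ℤ) + (m - ((insert j J).card : ℕ)) = m - J.card := by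
      rw [Finset.card_insert_of_notMem hj]; push_cast; ring
    rwa [e] at h1

theorem koszul_exact (hX : IsManifold I c) (hM : M = n + 1 + c)
    [UniqueFactorizationMonoid (secRing I)] {s : ℕ} {ν : Finset (Fin M) → secRing I}
    (hν : ν ∈ Hm (secRing I) c s) (hne : ∀ x : cone I, ∃ J, (ν J).1 x ≠ 0) {a k : ℕ}
    (ha : c + 1 ≤ a ∨ k = 0 ∧ 1 ≤ a) (l : Fin (n + 1) → secRing I)
    (hl : ∀ i, l i ∈ Gr (secRing I) 1) (hl' : ∀ x : cone I, ∃ i, (l i).1 x ≠ 0) {m : ℤ}
    (hm : (a : ℤ) * s + 1 ≤ m) (z : Finset (Fin (n + 1)) → Finset (Fin M) → secRing I)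
    (hz : ∀ J, z J ∈ Hm (secRing I) k (m - J.card))
    (h0 : iov (Finset (Fin M) → secRing I) l z = 0) :
    ∃ y, (∀ J, y J ∈ Hm (secRing I) k (m - J.card)) ∧
      iov (Finset (Fin M) → secRing I) l y = z := by
  obtain ⟨C, hC⟩ := exists_CR hX hM
  obtain ⟨σ, hσ, hσ'⟩ := van_sqrt (isCompact_Lk I) (fun J => rs I (ν J)) fun y => hne (toCone y)
  obtain ⟨τ, -, hτ⟩ := van_sqrt (isCompact_Lk I) (fun i => rs I (l i)) fun y => hl' (toCone y)
  have hnat : ∀ y : Finset (Fin (n + 1)) → Finset (Fin M) → secRing I,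
      (fun J => vanR I (iov (Finset (Fin M) → secRing I) l y J)) =
        iov (Finset (Fin M) → Sm (Lk I)) (fun i => rs I (l i)) fun J => vanR I (y J) :=
    fun y => iov_nat (vanR I) (fun i v => funext fun A => map_mul (rs I) (l i) (v A)) y
  obtain ⟨y', hy', hy0⟩ := CR.HF.koszul hM (hC.hf_rs hX hν) hσ hσ' ha (fun i => rs I (l i))
    (fun i j => hC.Zb_rs _ j) (fun i => by simpa using hC.T_rs hX (hl i)) hτ hm
    (fun J => vanR I (z J)) (fun J => hC.hf_rs hX (hz J)) (by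
      rw [← hnat, h0]
      funext J
      exact map_zero (vanR I))
  choose y hy hyy using fun J => hC.exists_hm hX hM (hy' J)
  refine ⟨y, hy, funext fun J => funext fun A => ?_⟩
  have h1 : (fun J => vanR I (y J)) = y' := funext hyy
  have h2 := hnat y
  rw [h1, hy0] at h2
  have h3 : rs I (iov (Finset (Fin M) → secRing I) l y J A) = rs I (z J A) :=
    congrFun (congrFun h2 J) A
  refine sub_eq_zero.1 (rs_inj hX (sub_mem ((van_iov l hl y hy J).2.2 A) ((hz J).2.2 A)) ?_)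
  rw [map_sub, h3, sub_self]

theorem degree_bound (hX : IsManifold I c) (hM : M = n + 1 + c) (hn : 1 ≤ n)
    [UniqueFactorizationMonoid (secRing I)] {s : ℕ} {ν : Finset (Fin M) → secRing I}
    (hν : ν ∈ Hm (secRing I) c s) (hne : ∀ x : cone I, ∃ J, (ν J).1 x ≠ 0) {a k : ℕ}
    (ha : c + 1 ≤ a ∨ k = 0 ∧ 1 ≤ a) : ∃ h : Polynomial ℂ, h.natDegree ≤ a * s ∧
      (h : PowerSeries ℂ) = (1 - PowerSeries.X) ^ (n + 1) * HS I k := by
  obtain ⟨L, hL⟩ := hX.exists_bpf hM
  have hG := gr_sec hX hM hn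
  let l : Fin (n + 1) → secRing I := fun i => ⟨pf I (lin (L i)), Pol_le I (pf_mem _)⟩
  have hl : ∀ i, l i ∈ Gr (secRing I) 1 := fun i => isHom_pf (lin_hom (L i))
  have hl' : ∀ x : cone I, ∃ i, (l i).1 x ≠ 0 := fun x => by
    obtain ⟨i, hi⟩ := hL x.1 x.2
    exact ⟨i, by rw [← pf_apply] at hi; exact hi⟩
  have key : ∀ m : ℕ, a * s + 1 ≤ m →
      PowerSeries.coeff m ((1 - PowerSeries.X) ^ (n + 1) * HS I k) = 0 := fun m hm => by
    have h1 := coeff_koszul (Fin (n + 1)) (-1) (fun d => (finrank ℂ (Hm (secRing I) k d) : ℂ))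
      (fun d hd => by rw [Hm, hG.Fm_neg _ _ hd, finrank_bot, Nat.cast_zero]) m
    rw [Fintype.card_fin, map_neg, map_one, neg_one_mul, ← sub_eq_add_neg] at h1
    have := fun J : Finset (Fin (n + 1)) => hG.fin_Fm (Tg (secRing I)) k ((m : ℤ) - J.card)
    have h2 := euler l (fun J : Finset (Fin (n + 1)) => Hm (secRing I) k ((m : ℤ) - J.card))
      (T := 1) (fun _ _ h => h) (fun _ _ => rfl) (van_iov l hl)
      (koszul_exact hX hM hν hne ha l hl hl' (by exact_mod_cast hm))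
    simp only [trOn_one] at h2
    exact h1.trans h2
  refine ⟨PowerSeries.trunc (a * s + 1) ((1 - PowerSeries.X) ^ (n + 1) * HS I k), ?_, ?_⟩
  · exact Nat.lt_succ_iff.1 (PowerSeries.natDegree_trunc_lt _ _)
  · ext m
    rw [Polynomial.coeff_coe, PowerSeries.coeff_trunc]
    split_ifs with h
    · rfl
    · exact (key m (not_lt.1 h)).symm

end Pool.Agent.HCF
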