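import Pool.Agent.P.MP_f644fa_ag.Main

/-! Hartshorne's conjecture for Fano manifolds of high index. -/

namespace Pool.Agent.P.MP_f644fa_ag.VariantHighIndex
open Pool.Agent.HCF

/-- Let `X ⊆ ℙ^(n+c)` be a manifold of dimension `n ≥ 2 c + 1` and codimension `c` with homogeneous
ideal `I`, factorial section ring (`Pic X = ℤ H`) and `K_X = b H`.  If
`n ≥ (2 c + 4) (b + n + 1) + c`, then `X` is a complete intersection. -/
theorem result (n c : ℕ) (b : ℤ) (I : Ideal (MvPolynomial (Fin (n + 1 + c)) ℂ))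
    (hX : IsManifold I c) (hn : 2 * c + 1 ≤ n) (hPic : UniqueFactorizationMonoid (secRing I))
    (hK : CanonicalIs I c b) (hi : (2 * (c : ℤ) + 4) * (b + n + 1) + c ≤ n) :
    ∃ (f : Fin c → MvPolynomial (Fin (n + 1 + c)) ℂ) (d : Fin c → ℕ),
      (∀ i, (f i).IsHomogeneous (d i)) ∧ I = Ideal.span (Set.range f) :=
  main hX rfl (by omega) hK hi

end Pool.Agent.P.MP_f644fa_ag.VariantHighIndex
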