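import Pool.Agent.P.MP_f644fa_ag.Fock

/-! Wedge products and alternating forms. -/

noncomputable section
namespace Pool.Agent.HCF
open Finset

variable {σ : Type} [LinearOrder σ] [Fintype σ] {R : Type} [CommRing R]

/-- the wedge product of `k` vectors -/
def wedge (R : Type) [CommRing R] : (k : ℕ) → (Fin k → σ → R) → Finset σ → R
  | 0, _ => Pi.single ∅ 1
  | k + 1, v => epv R (v 0) (wedge R k (Fin.tail v))

theorem wedge_realize : True := by have := @wedge.eq_def; trivial

theorem wedge_zero (v : Fin 0 → σ → R) : wedge R 0 v = Pi.single ∅ 1 := rfl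
theorem wedge_succ {k : ℕ} (v : Fin (k + 1) → σ → R) :
    wedge R (k + 1) v = epv R (v 0) (wedge R k (Fin.tail v)) := rfl

theorem deg_wedge {k : ℕ} (v : Fin k → σ → R) : Deg k (wedge R k v) := by
  induction k with
  | zero =>
    intro J hJ
    rw [wedge_zero, Pi.single_eq_of_ne]
    rintro rfl
    exact hJ rfl
  | succ k ih => exact (ih _).epv _

theorem wedge_map {R' : Type} [CommRing R'] (φ : R →+* R') {k : ℕ} (v : Fin k → σ → R) :
    (fun J => φ (wedge R k v J)) = wedge R' k fun i j => φ (v i j) := by
  induction k with
  | zero =>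
    funext J
    rw [wedge_zero, wedge_zero, Pi.single_apply, Pi.single_apply]
    split_ifs <;> simp
  | succ k ih =>
    rw [wedge_succ, wedge_succ]
    refine (epv_nat (φ : R →+ R') (a' := fun j => φ (v 0 j)) (fun j x => by simp) _).trans ?_
    exact congrArg _ (ih (Fin.tail v))

theorem wedge0_anti (a b : σ → R) (y : Finset σ → R) :
    epv R a (epv R b y) = -epv R b (epv R a y) :=
  eq_neg_of_add_eq_zero_left (LinearMap.congr_fun (epv_epv (N := R) a b) y)

theorem wedge0_iov (a b : σ → R) (y : Finset σ → R) :
    iov R a (epv R b y) = (∑ j, a j * b j) • y - epv R b (iov R a y) :=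
  eq_sub_of_add_eq (LinearMap.congr_fun (iov_epv (N := R) a b) y)

theorem iov_wedge {k : ℕ} {v : Fin k → σ → R} {a : σ → R} (h : ∀ i, ∑ j, a j * v i j = 0) :
    iov R a (wedge R k v) = 0 := by
  induction k with
  | zero =>
    simp only [iov, LinearMap.sum_apply, LinearMap.smul_apply, (deg_wedge v).io_zero, smul_zero,
      sum_const_zero]
  | succ k ih =>
    rw [wedge_succ, wedge0_iov, h 0, ih (v := Fin.tail v) fun i => h i.succ]
    simp

theorem wedge_update_add {k : ℕ} (v : Fin k → σ → R) (i : Fin k) (a b : σ → R) :
    wedge R k (Function.update v i (a + b)) =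
      wedge R k (Function.update v i a) + wedge R k (Function.update v i b) := by
  induction k with
  | zero => exact i.elim0
  | succ k ih =>
    refine Fin.cases ?_ (fun i => ?_) i
    · simp only [wedge_succ, Function.update_self, Fin.tail_update_zero, epv_add,
        LinearMap.add_apply]
    · simp only [wedge_succ, Fin.tail_update_succ, Function.update_of_ne (Fin.succ_ne_zero i).symm,
        ih, map_add]

theorem wedge_update_smul {k : ℕ} (v : Fin k → σ → R) (i : Fin k) (c : R) (a : σ → R) :
    wedge R k (Function.update v i (c • a)) = c • wedge R k (Function.update v i a) := by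
  induction k with
  | zero => exact i.elim0
  | succ k ih =>
    refine Fin.cases ?_ (fun i => ?_) i
    · simp only [wedge_succ, Function.update_self, Fin.tail_update_zero, epv_smul,
        LinearMap.smul_apply]
    · simp only [wedge_succ, Fin.tail_update_succ, Function.update_of_ne (Fin.succ_ne_zero i).symm,
        ih, map_smul]

theorem wedge0_self {k : ℕ} (v : Fin k → σ → R) (j : Fin k) : epv R (v j) (wedge R k v) = 0 := by
  induction k with
  | zero => exact j.elim0
  | succ k ih =>
    refine Fin.cases ?_ (fun j => ?_) j
    · exact LinearMap.congr_fun (epv_sq (N := R) (v 0)) _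
    · rw [wedge_succ, wedge0_anti, show v j.succ = Fin.tail v j from rfl, ih, map_zero, neg_zero]

theorem wedge_eq_zero {k : ℕ} (v : Fin k → σ → R) {i j : Fin k} (h : v i = v j) (hij : i ≠ j) :
    wedge R k v = 0 := by
  induction k with
  | zero => exact i.elim0
  | succ k ih =>
    rw [wedge_succ]
    revert h hij
    refine Fin.cases ?_ (fun i => ?_) i <;> refine Fin.cases ?_ (fun j => ?_) j <;> intro h hij
    · exact (hij rfl).elim
    · rw [h]
      exact wedge0_self (Fin.tail v) j
    · rw [← h]
      exact wedge0_self (Fin.tail v) i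
    · rw [ih (Fin.tail v) (i := i) (j := j) h fun e => hij (congrArg _ e), map_zero]

theorem wedge0_update_zero {k : ℕ} (v : Fin k → σ → R) (i : Fin k) :
    wedge R k (Function.update v i 0) = 0 := by
  have := wedge_update_smul v i 0 0
  rwa [zero_smul, zero_smul] at this

/-- Cramer's rule -/
theorem wedge_update_sum {k : ℕ} (v : Fin k → σ → R) (i : Fin k) (a : Fin k → R) :
    wedge R k (Function.update v i (∑ l, a l • v l)) = a i • wedge R k v := by
  have h1 : ∀ s : Finset (Fin k), wedge R k (Function.update v i (∑ l ∈ s, a l • v l)) =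
      ∑ l ∈ s, a l • wedge R k (Function.update v i (v l)) := fun s => by
    induction s using Finset.induction_on with
    | empty => simpa using wedge0_update_zero v i
    | insert l s hl ih => rw [sum_insert hl, sum_insert hl, wedge_update_add, wedge_update_smul, ih]
  rw [h1, sum_eq_single i, Function.update_eq_self]
  · intro l _ hl
    rw [wedge_eq_zero _ (i := l) (j := i) (by simp [hl]) hl, smul_zero]
  · simp

theorem wedge0_field {K : Type} [Field K] {k : ℕ} (v : Fin k → σ → K)
    (hv : LinearIndependent K v) : wedge K k v ≠ 0 := by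
  induction k with
  | zero =>
    intro h
    simpa [wedge_zero] using congrFun h ∅
  | succ k ih =>
    intro h
    obtain ⟨g, hg⟩ := (Fintype.linearCombination K v).exists_leftInverse_of_injective
      (LinearMap.ker_eq_bot.2 (linearIndependent_iff_injective_fintypeLinearCombination.1 hv))
    have h1 : ∀ i, g (v i) = Pi.single i 1 := fun i => by
      simpa using LinearMap.congr_fun hg (Pi.single i 1)
    have h2 : ∀ w : σ → K, ∑ j, g (Pi.single j 1) 0 * w j = g w 0 := fun w => by
      conv_rhs => rw [pi_eq_sum_univ' w]
      simp [mul_comm]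
    have h3 := wedge0_iov (fun j => g (Pi.single j 1) 0) (v 0) (wedge K k (Fin.tail v))
    rw [← wedge_succ, h, map_zero, h2, h1, iov_wedge (v := Fin.tail v) fun i => by
      rw [h2, show Fin.tail v i = v i.succ from rfl, h1]; simp] at h3
    exact ih (Fin.tail v) (hv.comp _ (Fin.succ_injective k)) (by simpa using h3.symm)

theorem wedge_ne_zero_iff [IsDomain R] {k : ℕ} (v : Fin k → σ → R) :
    wedge R k v ≠ 0 ↔ LinearIndependent R v := by
  refine ⟨fun h => Fintype.linearIndependent_iff.2 fun a ha i => ?_, fun hv h => ?_⟩
  · have h1 := wedge_update_sum v i a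
    rw [ha, wedge0_update_zero] at h1
    exact (smul_eq_zero.1 h1.symm).resolve_right h
  · refine wedge0_field (K := FractionRing R) _
      ((linearIndependent_algebraMap_comp_iff (S := FractionRing R)).2 hv) ?_
    refine (wedge_map (algebraMap R (FractionRing R)) v).symm.trans ?_
    funext J
    rw [h]
    simp

/-- homogeneity for a grading given by submodules -/
theorem wedge_mem {K : Type} [CommRing K] [Algebra K R] (G : ℤ → Submodule K R) (h1 : 1 ∈ G 0)
    (hm : ∀ {d e a b}, a ∈ G d → b ∈ G e → a * b ∈ G (d + e)) {k : ℕ} {v : Fin k → σ → R}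
    {β : Fin k → ℤ} (hv : ∀ i j, v i j ∈ G (β i)) (J : Finset σ) :
    wedge R k v J ∈ G (∑ i, β i) := by
  induction k generalizing J with
  | zero =>
    rw [wedge_zero, Pi.single_apply, Fin.sum_univ_zero]
    split_ifs
    · exact h1
    · exact zero_mem _
  | succ k ih =>
    rw [wedge_succ, Fin.sum_univ_succ, epv, LinearMap.sum_apply, Finset.sum_apply]
    refine sum_mem fun j _ => ?_
    rw [LinearMap.smul_apply, Pi.smul_apply, smul_eq_mul, ep_apply]
    refine hm (hv 0 j) ?_
    split_ifs
    · exact zsmul_mem (ih (v := Fin.tail v) (β := fun i => β i.succ) (fun i => hv i.succ) _) _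
    · exact zero_mem _

end Pool.Agent.HCF
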