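import Pool.Agent.P.MP_f644fa_ag.C6

/-! Vanishing for negative line bundles. -/

noncomputable section
namespace Pool.Agent.HCF
open Finset Module Matrix

variable {𝒜 : Type} [CommRing 𝒜] [Algebra ℂ 𝒜] [StarRing 𝒜] [StarModule ℂ 𝒜] {M n : ℕ}
  {ι : Type} [Fintype ι] [DecidableEq ι]

namespace CR
variable {C : CR M n 𝒜} {Φ : Car2 M ι 𝒜} {s : ℝ} {w : ι → 𝒜} {r k : ℕ} {p : ℤ}

theorem yc1_K (C : CR M n 𝒜) (Φ : Car2 M ι 𝒜) : 1 + Φ.F.dG (C.Q - C.xx) =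
    (Φ.F.ev C.x)ᴴ * Φ.F.ev C.x + ∑ m, (Φ.F.il (C.Q m))ᴴ * Φ.F.il (C.Q m) := by
  rw [c5a_ev, ← Φ.F.dG_proj C.Q_star C.Q_mul, Car.dG_sub]
  abel

theorem yc1_Kw (h : C.Ann Φ w) : (1 + Φ.F.dG (C.Q - C.xx)) *ᵥ w = 0 := by
  rw [yc1_K, add_mulVec, Matrix.sum_mulVec, ← mulVec_mulVec, h.ex, mulVec_zero, zero_add]
  exact sum_eq_zero fun m _ => by rw [← mulVec_mulVec, h.nor m, mulVec_zero]

theorem yc1_comm (C : CR M n 𝒜) (j : Fin M) :
    (C.Q - C.xx) * (C.B j + C.xx.map (C.Z j)) - (C.B j + C.xx.map (C.Z j)) * (C.Q - C.xx) =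
      C.B j + C.xx.map (C.Z j) := by
  have h1 : C.xx * C.B j = 0 := by rw [← C.xx_P, Matrix.mul_assoc, C.P_B, Matrix.mul_zero]
  have h2 : (C.Q - C.xx) * C.xx.map (C.Z j) = 0 := by
    ext a b
    have h3 := congrFun (congrFun C.Qxx_H a) j
    rw [Matrix.mul_apply] at h3 ⊢
    simp only [Matrix.map_apply, C.Z_xx, ← mul_assoc, ← Finset.sum_mul, h3, Matrix.zero_apply,
      zero_mul]
  have h4 : C.xx.map (C.Z j) * (C.Q - C.xx) = -C.xx.map (C.Z j) := by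
    ext a b
    have h5 : (fun j => star (C.x j)) ᵥ* (C.Q - C.xx) = -fun j => star (C.x j) := by
      rw [CR.Q, vecMul_sub, vecMul_sub, vecMul_one, C.xb_P, C.c1_xb_xx, sub_self, zero_sub]
    have h6 := congrFun h5 b
    simp only [Matrix.vecMul, dotProduct, Pi.neg_apply] at h6
    rw [Matrix.mul_apply]
    simp only [Matrix.map_apply, Matrix.neg_apply, C.Z_xx, mul_assoc, ← Finset.mul_sum, h6, mul_neg]
  rw [Matrix.mul_add, Matrix.add_mul, h2, h4, Matrix.sub_mul, Matrix.mul_sub, C.Q_B, h1, C.B_Q,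
    C.B_xx]
  abel

theorem yc1_KZ (h : C.Ann Φ w) (j : Fin M) : (1 + Φ.F.dG (C.Q - C.xx)) *ᵥ dE ι (C.Z j) w =
    Φ.F.dG (C.B j + C.xx.map (C.Z j)) *ᵥ w := by
  have h1 := dE_mulVec (C.Z j) (1 + Φ.F.dG (C.Q - C.xx)) w
  have h2 : (C.Q - C.xx).map (C.Z j) = -(C.B j + C.xx.map (C.Z j)) := by
    ext a b
    simp only [CR.Q, CR.B, Matrix.map_apply, Matrix.sub_apply, Matrix.neg_apply, Matrix.add_apply,
      map_sub, Matrix.one_apply]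
    split_ifs <;> simp <;> ring
  rw [yc1_Kw h, map_zero, c5b_map_add, c5b_map_one, zero_add, Car.map_dG, h2, Car.c5b_dG_neg,
    neg_mulVec, ← sub_eq_add_neg] at h1
  exact sub_eq_zero.1 h1.symm

theorem yc1_le (h : C.Ann Φ w) (j : Fin M) :
    C.nrm (Φ.F.ev C.x *ᵥ dE ι (C.Z j) w) + ∑ m, C.nrm (Φ.F.il (C.Q m) *ᵥ dE ι (C.Z j) w) ≤
      C.nrm (dE ι (C.Z j) w) := by
  obtain ⟨K, hK⟩ : ∃ K, K = 1 + Φ.F.dG (C.Q - C.xx) := ⟨_, rfl⟩
  obtain ⟨u, hu⟩ : ∃ u, u = dE ι (C.Z j) w := ⟨_, rfl⟩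
  obtain ⟨Y, hY⟩ : ∃ Y, Y = C.B j + C.xx.map (C.Z j) := ⟨_, rfl⟩
  have h1 : K *ᵥ u = Φ.F.dG Y *ᵥ w := by rw [hK, hu, hY, yc1_KZ h]
  have h2 : K * Φ.F.dG Y = Φ.F.dG Y * K + Φ.F.dG Y := by
    have h3 := Φ.F.dG_dG (C.Q - C.xx) Y
    rw [hY, yc1_comm, ← hY] at h3
    rw [hK, add_mul, mul_add, one_mul, mul_one, eq_add_of_sub_eq h3]
    abel
  have h4 : K *ᵥ (K *ᵥ u) = K *ᵥ u := by
    rw [h1, mulVec_mulVec, h2, add_mulVec, ← mulVec_mulVec, hK, yc1_Kw h, mulVec_zero, zero_add]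
  have h5 : Kᴴ = K := by
    rw [hK, conjTranspose_add, conjTranspose_one, Car.dG_star, conjTranspose_sub, C.Q_star,
      C.xx_star]
  have h6 : C.nrm (K *ᵥ u) = (C.ip u (K *ᵥ u)).re := by rw [nrm, ip_mulVec, h5, h4]
  have h7 := C.nrm_nonneg (u - K *ᵥ u)
  rw [nrm_sub, h6] at h7
  have h8 : (C.ip u (K *ᵥ u)).re =
      C.nrm (Φ.F.ev C.x *ᵥ u) + ∑ m, C.nrm (Φ.F.il (C.Q m) *ᵥ u) := by
    rw [hK, yc1_K, add_mulVec, ip_add_right, Complex.add_re, Matrix.sum_mulVec, ip_sum_right,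
      Complex.re_sum, c6_nrm_mulVec]
    simp only [c6_nrm_mulVec]
  rw [← hu]
  linarith

theorem yc1_ev (h : C.Ann Φ w) (j : Fin M) :
    Φ.F.ev C.x *ᵥ dE ι (C.Z j) w = -((Φ.F.il (C.H j))ᴴ *ᵥ w) := by
  have h1 := dE_mulVec (C.Z j) (Φ.F.ev C.x) w
  rw [h.ex, map_zero, Car.map_ev] at h1
  rw [Car.il_star]
  simp only [C.c1_H_star]
  simp only [C.Z_x] at h1
  exact eq_neg_of_add_eq_zero_left h1.symm

theorem yc1_im (C : CR M n 𝒜) (w : ι → 𝒜) : C.ip w w = (C.nrm w : ℂ) := by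
  have h := congrArg Complex.im (C.star_ip w w)
  rw [Complex.star_def, Complex.conj_im] at h
  refine Complex.ext (by rw [Complex.ofReal_re, nrm]) ?_
  rw [Complex.ofReal_im]
  linarith

omit [StarRing 𝒜] [StarModule ℂ 𝒜] [Fintype ι] [DecidableEq ι] in
theorem yc1_nat (m : ℕ) (w : ι → 𝒜) : (m : 𝒜) • w = (m : ℂ) • w := by
  rw [Nat.cast_smul_eq_nsmul, Nat.cast_smul_eq_nsmul]

theorem Bs.nrm_Z (h : C.Bs Φ r k p w) :
    ∑ a, ∑ b, C.nrm (C.y Φ w a b) + ((n : ℝ) - (r - 1)) * C.nrm w ≤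
      ∑ j, C.nrm (dE ι (C.Z j) w) := by
  have h1 : ∑ j, C.nrm (Φ.F.ev C.x *ᵥ dE ι (C.Z j) w) = ((n : ℝ) - (r - 1)) * C.nrm w := by
    simp only [yc1_ev h.ann, c6_nrm_neg, c6_nrm_mulVec, conjTranspose_conjTranspose]
    rw [← Complex.re_sum, ← ip_sum_right, ← Matrix.sum_mulVec, Φ.F.sum_il_ev C.H_star C.H_mul,
      C.H_trace, sub_mulVec, smul_mulVec, one_mulVec, h.dG_H, yc1_nat, ← sub_smul, ip_smul_right,
      yc1_im]
    have : ((n : ℂ) - ((r : ℂ) - 1)) * (C.nrm w : ℂ) = ((((n : ℝ) - (r - 1)) * C.nrm w : ℝ) : ℂ) := by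
      push_cast; ring
    rw [this, Complex.ofReal_re]
  have h2 : ∑ a, ∑ b, C.nrm (C.y Φ w a b) =
      ∑ j, ∑ m, C.nrm (Φ.F.il (C.Q m) *ᵥ dE ι (C.Z j) w) := by
    rw [Finset.sum_comm]
    exact sum_congr rfl fun j _ => sum_congr rfl fun m _ => by rw [c6a_il_Q h.ann, CR.y]
  rw [← h1, h2, add_comm, ← Finset.sum_add_distrib]
  exact sum_le_sum fun j _ => yc1_le h.ann j

theorem yc1_trB (C : CR M n 𝒜) (l : Fin M) : ∑ j, C.B j j l = 0 := by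
  have h1 : ∑ j, C.B j j l = C.Z l C.P.trace := by
    rw [Matrix.trace, map_sum]
    exact sum_congr rfl fun j _ => C.B_symm j l j
  rw [h1, C.P_trace, Derivation.map_natCast]

theorem yc1_lie (C : CR M n 𝒜) :
    ∑ j, ⁅C.Zb j, C.Z j⁆ = (Complex.I • ((n : ℕ) : 𝒜)) • C.T := by
  simp only [lie_Zb_Z, Finset.sum_add_distrib, Finset.sum_sub_distrib]
  rw [Finset.sum_comm, Finset.sum_comm (f := fun j l => C.B j j l • C.Zb l)]
  simp only [← Finset.sum_smul, ← star_sum, yc1_trB, star_zero, zero_smul, Finset.sum_const_zero,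
    sub_self, zero_add, ← Finset.smul_sum]
  rw [← C.H_trace]
  rfl

theorem yc1_Y (ω : C.Wt s) (w : ι → 𝒜) :
    ∑ j, C.nrm (ω.Y 0 ι j w) = ∑ j, C.nrm (dE ι (C.Z j) w) + (n : ℝ) ^ 2 * C.nrm w := by
  have h1 : ∀ j, ω.Y 0 ι j w = ((n : ℝ) : ℂ) • (star (C.x j) • w) - dE ι (C.Z j) w := fun j => by
    rw [Wt.Y, LinearMap.add_apply, LinearMap.neg_apply, mE_apply, smul_mulVec, one_mulVec,
      Nat.cast_zero, zero_div, zero_smul, add_zero, neg_add_eq_sub, smul_assoc,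
      Complex.ofReal_natCast]
  have h2 : ∀ (j : Fin M) (u : ι → 𝒜), C.ip (star (C.x j) • w) u = C.ip w (C.x j • u) :=
    fun j u => by rw [ip, ip, ipE, ipE, hp_smul_left, hp_smul_right, star_star]
  have h3 : ∑ j, C.nrm (star (C.x j) • w) = C.nrm w := by
    simp only [nrm, h2, smul_smul]
    rw [← Complex.re_sum, ← ip_sum_right, ← Finset.sum_smul]
    simp only [mul_comm (C.x _), C.x_norm, one_smul]
  have h4 : ∑ j, (C.ip (((n : ℝ) : ℂ) • (star (C.x j) • w)) (dE ι (C.Z j) w)).re = 0 := by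
    simp only [ip_smul_left, h2, ← c6a_dE_smul]
    rw [← Complex.re_sum, ← Finset.mul_sum, ← ip_sum_right, ← LinearMap.sum_apply, ← dE_sum,
      C.sum_x_Z, dE_zero, LinearMap.zero_apply, ip_zero_right, mul_zero, Complex.zero_re]
  simp only [h1, nrm_sub, nrm_smul, Finset.sum_sub_distrib, Finset.sum_add_distrib,
    ← Finset.mul_sum, h3, h4]
  ring

theorem Wt.boch_zero (ω : C.Wt s) (h : C.Bs Φ r k p w) :
    C.nrm (ω.Da Φ 0 w) + C.nrm (ω.δa Φ 0 w) = ∑ j, C.nrm (dE ι (C.Z j) w) - n * p * C.nrm w -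
      ∑ a, ∑ b, C.nrm (C.y Φ w a b) + ((p : ℝ) + n) * (r - 1) * C.nrm w := by
  have e1 : C.nrm (ω.Da Φ 0 w) + C.nrm (ω.δa Φ 0 w) =
      (C.ip w ((ω.δa Φ 0 * ω.Da Φ 0 + ω.Da Φ 0 * ω.δa Φ 0) w)).re := by
    rw [LinearMap.add_apply, ip_add_right, Module.End.mul_apply, Module.End.mul_apply,
      ← ω.adj_Da 0 Φ w, ← (ω.adj_Da 0 Φ).symm w, Complex.add_re, nrm, nrm]
  have e0 : ∀ j k, ω.Za 0 ι j * ω.Y 0 ι k - ω.Y 0 ι k * ω.Za 0 ι j = -dE ι ⁅C.Zb j, C.Z k⁆ +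
      mE (((n : ℂ) • C.H j k) • (1 : Matrix ι ι 𝒜)) := fun j k => by
    rw [ω.comm, Nat.cast_zero, zero_div, zero_smul, add_zero]
  have e2 : (∑ j, ω.Y 0 ι j * ω.Za 0 ι j) w =
      ∑ j, ω.Za 0 ι j (ω.Y 0 ι j w) - ((n : ℂ) * p + n * n) • w := by
    have h1 : ∀ j, (ω.Y 0 ι j * ω.Za 0 ι j) w = ω.Za 0 ι j (ω.Y 0 ι j w) +
        dE ι ⁅C.Zb j, C.Z j⁆ w - (n : ℂ) • C.H j j • w := fun j => by
      have h2 := LinearMap.congr_fun (e0 j j) w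
      rw [LinearMap.sub_apply, LinearMap.add_apply, LinearMap.neg_apply, mE_apply, smul_mulVec,
        one_mulVec, smul_assoc, Module.End.mul_apply (ω.Za 0 ι j)] at h2
      rw [← sub_sub_cancel (ω.Za 0 ι j (ω.Y 0 ι j w)) ((ω.Y 0 ι j * ω.Za 0 ι j) w), h2]
      abel
    have h3 : ∑ j, C.H j j = ((n : ℕ) : 𝒜) := C.H_trace
    rw [LinearMap.sum_apply]
    simp only [h1, Finset.sum_sub_distrib, Finset.sum_add_distrib, ← Finset.smul_sum,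
      ← Finset.sum_smul, h3]
    rw [← LinearMap.sum_apply _ (fun j => dE ι ⁅C.Zb j, C.Z j⁆), ← dE_sum, yc1_lie, c6a_dE_smul,
      h.wt, smul_assoc, yc1_nat, yc1_nat, smul_smul, smul_smul, smul_smul, add_smul]
    have h4 : Complex.I * n * (Complex.I * p) = -((n : ℂ) * p) := by
      linear_combination ((n : ℂ) * p) * Complex.I_mul_I
    rw [h4, neg_smul]
    abel
  have e3 : (∑ j, ∑ k, mE (Φ.F.e j * Φ.F.i k) *
      (ω.Za 0 ι j * ω.Y 0 ι k - ω.Y 0 ι k * ω.Za 0 ι j)) w =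
      Φ.F.dG ((n : ℂ) • C.H) *ᵥ w -
        (∑ j, ∑ k, mE (Φ.F.e j * Φ.F.i k) * dE ι ⁅C.Zb j, C.Z k⁆) w := by
    rw [c6a_dG_vec]
    simp only [LinearMap.sum_apply, ← Finset.sum_sub_distrib]
    refine Finset.sum_congr rfl fun j _ => Finset.sum_congr rfl fun k _ => ?_
    rw [e0, mul_add, c6a_mul_neg, LinearMap.add_apply, LinearMap.neg_apply, neg_add_eq_sub,
      ← map_mul, mE_apply, mul_smul_comm, mul_one, Matrix.smul_mulVec]
    rfl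
  have e4 : (∑ j, C.ip w (ω.Za 0 ι j (ω.Y 0 ι j w))).re = ∑ j, C.nrm (ω.Y 0 ι j w) := by
    rw [Complex.re_sum]
    exact sum_congr rfl fun j _ => by rw [← (ω.adj_Za 0 j).symm w, nrm]
  rw [e1, ω.boch, LinearMap.add_apply, ip_add_right, e3, e2, ip_sub_right, ip_sub_right, h.bracket,
    c6a_dG_csmul, smul_mulVec, h.dG_H, ip_sum_right, ip_smul_right, ip_smul_right, ip_smul_right,
    Complex.add_re, Complex.sub_re, Complex.sub_re, Complex.sub_re, ip_dG_Θ, e4, yc1_Y, yc1_im]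
  simp only [Complex.mul_re, Complex.natCast_re, Complex.natCast_im, Complex.sub_re,
    Complex.one_re, Complex.sub_im, Complex.one_im, zero_mul, sub_zero, mul_zero,
    Complex.add_re, Complex.ofReal_re, Complex.ofReal_im, Complex.intCast_re, Complex.intCast_im,
    Complex.add_im, Complex.mul_im, add_zero]
  ring

theorem Wt.vanish_neg (ω : C.Wt s) (h : C.Bs Φ r 0 p w) (hr : r ≤ n) (hp : p < r)
    (h1 : ω.Da Φ 0 w = 0) (h2 : ω.δa Φ 0 w + (C.C0 Φ)ᴴ *ᵥ w = 0) : w = 0 := by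
  have e1 := ω.boch_zero h
  have e2 : ω.δa Φ 0 w = -((C.C0 Φ)ᴴ *ᵥ w) := eq_neg_of_add_eq_zero_left h2
  have e0 : C.nrm (0 : ι → 𝒜) = 0 := by simp [nrm, ip_zero_left]
  rw [h1, e2, c6_nrm_neg, h.nrm_C0, h.A_zero, e0] at e1
  have e3 := h.nrm_Z
  have hN := C.nrm_nonneg w
  have hr' : (r : ℝ) ≤ n := by exact_mod_cast hr
  have hp' : (p : ℝ) < r := by exact_mod_cast hp
  refine C.eq_zero_of_nrm (le_antisymm ?_ hN)
  by_contra hlt
  have e4 : 0 < ((n : ℝ) - r + 1) * ((r - p) * C.nrm w) :=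
    mul_pos (by linarith) (mul_pos (by linarith) (not_le.1 hlt))
  nlinarith

end CR

end Pool.Agent.HCF
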