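import Pool.Agent.P.MP_f644fa_ag.C9

/-! The weight defined by sections of a power of the determinant. -/

noncomputable section
namespace Pool.Agent.HCF
open Finset Module Matrix

variable {𝒜 : Type} [CommRing 𝒜] [Algebra ℂ 𝒜] [StarRing 𝒜] [StarModule ℂ 𝒜] {M n : ℕ}
  {ι : Type} [Fintype ι] [DecidableEq ι]

namespace CR
variable (C : CR M n 𝒜)

theorem yc2_perp {c a : ℕ} (hM : M = n + 1 + c) (G : Fin a → Car M ι 𝒜)
    (hc : ∀ t t', t ≠ t' → ∀ j k, (G t).e j * (G t').e k = (G t').e k * (G t).e j ∧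
      (G t).e j * (G t').i k = (G t').i k * (G t).e j) {ν : ι → 𝒜}
    (ht : ∀ t l, (G t).il (fun b => C.P b l) *ᵥ ν = 0) (hN : ∀ t, (G t).N *ᵥ ν = (c : ℂ) • ν) :
    ∃ X : Fin M → ι → 𝒜, ∀ j k, hp ν (X k) = 0 ∧ hp (X j) (X k) = a * (C.Θ j k * hp ν ν) ∧
      hp (X j) (dE ι (C.Z k) ν) = -(a * (C.Θ j k * hp ν ν)) := by
  refine ⟨fun k => ∑ t, (G t).dG (C.B k)ᵀ *ᵥ ν, fun j k => ?_⟩
  have h := fun t => C.hp_perp (G t) hM (ht t) (hN t) j k
  refine ⟨?_, ?_, ?_⟩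
  · simp only [hp_sum_right, fun t => (h t).1, Finset.sum_const_zero]
  · have e : ∀ t, hp ((G t).dG (C.B j)ᵀ *ᵥ ν) (∑ t', (G t').dG (C.B k)ᵀ *ᵥ ν) =
        C.Θ j k * hp ν ν := fun t => by
      rw [hp_sum_right, Finset.sum_eq_single t, (h t).2.1]
      · intro t' _ h'
        have h0 : (G t).dG (C.B j)ᵀᴴ *ᵥ ν = 0 := C.c7_dG_tan (G t) (ht t) (by
          rw [← C.c7_Pt_star, ← conjTranspose_mul, ← transpose_mul, C.B_P])
        have h2 := Car2.dG_dG ⟨G t, G t', fun j k => (hc t t' h'.symm j k).1,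
          fun j k => (hc t t' h'.symm j k).2⟩ (C.B j)ᵀᴴ (C.B k)ᵀ
        rw [hp_mulVec, (G t).dG_star, Matrix.mulVec_mulVec, h2, ← Matrix.mulVec_mulVec, h0,
          Matrix.mulVec_zero]
        simp [hp]
      · simp
    simp only [hp_sum_left, e, Finset.sum_const, Finset.card_univ, Fintype.card_fin, nsmul_eq_mul]
  · simp only [hp_sum_left, fun t => (h t).2.2, Finset.sum_const, Finset.card_univ,
      Fintype.card_fin, nsmul_eq_mul, mul_neg]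

theorem exists_Wt' {c a : ℕ} {s : ℤ} (hM : M = n + 1 + c) (ha : 1 ≤ a) (G : Fin a → Car M ι 𝒜)
    (hc : ∀ t t', t ≠ t' → ∀ j k, (G t).e j * (G t').e k = (G t').e k * (G t).e j ∧
      (G t).e j * (G t').i k = (G t').i k * (G t).e j) {ν : ι → 𝒜}
    (ht : ∀ t l, (G t).il (fun b => C.P b l) *ᵥ ν = 0) (hN : ∀ t, (G t).N *ᵥ ν = (c : ℂ) • ν)
    (hZ : ∀ j, dE ι (C.Zb j) ν = 0) (hT : dE ι C.T ν = (Complex.I * s) • ν) {σ : 𝒜}
    (hσ : star σ = σ) (h1 : σ ^ (2 * a) * hp ν ν = 1) : Nonempty (C.Wt ((s : ℝ) / a)) := by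
  have ha0 : (a : ℂ) ≠ 0 := Nat.cast_ne_zero.2 (by omega)
  obtain ⟨u, hu⟩ : ∃ u : 𝒜, u = algebraMap ℂ 𝒜 2⁻¹ := ⟨_, rfl⟩
  have hu2 : 2 * u = 1 := by
    rw [hu, ← map_ofNat (algebraMap ℂ 𝒜) 2, ← map_mul, mul_inv_cancel₀ two_ne_zero, map_one]
  obtain ⟨v, hv⟩ : ∃ v : 𝒜, v = algebraMap ℂ 𝒜 (a : ℂ)⁻¹ := ⟨_, rfl⟩
  have hv1 : (a : 𝒜) * v = 1 := by
    rw [hv, ← map_natCast (algebraMap ℂ 𝒜) a, ← map_mul, mul_inv_cancel₀ ha0, map_one]
  have sv : star v = v := by rw [hv, ← algebraMap_star_comm]; simp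
  have dv : ∀ (δ : Derivation ℂ 𝒜 𝒜) (y : 𝒜), δ (v * y) = v * δ y := fun δ y => by
    rw [hv, ← Algebra.smul_def, ← Algebra.smul_def, Derivation.map_smul]
  obtain ⟨g, sg, hg⟩ : ∃ g : 𝒜, star g = g ∧ g * g = v := by
    refine ⟨algebraMap ℂ 𝒜 ((√(a : ℝ) : ℝ) : ℂ)⁻¹, ?_, ?_⟩
    · rw [← algebraMap_star_comm]; simp
    · rw [hv, ← map_mul, ← mul_inv, ← Complex.ofReal_mul, Real.mul_self_sqrt (Nat.cast_nonneg a),
        Complex.ofReal_natCast]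
  obtain ⟨μ, hμ⟩ : ∃ μ : 𝒜, μ = σ ^ a := ⟨_, rfl⟩
  have sμ : star μ = μ := by rw [hμ, star_pow, hσ]
  have hμ2 : σ ^ (2 * a) = μ ^ 2 := by rw [hμ, ← pow_mul, mul_comm]
  obtain ⟨τ, hτ⟩ : ∃ τ : 𝒜, τ = σ ^ (2 * a - 1) * hp ν ν := ⟨_, rfl⟩
  have e3 : σ * τ = 1 := by
    rw [hτ, ← mul_assoc, ← pow_succ', show 2 * a - 1 + 1 = 2 * a by omega, h1]
  have z2 : ∀ w : ι → 𝒜, hp w 0 = 0 := fun w => by simp [hp]
  have d2 : ∀ δ : Derivation ℂ 𝒜 𝒜, δ τ = u * (τ * (v * (μ ^ 2 * δ (hp ν ν)))) := by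
    intro δ
    have e1 := congrArg δ e3
    have e2 := congrArg δ h1
    rw [Derivation.map_one_eq_zero, Derivation.leibniz] at e1 e2
    rw [Derivation.leibniz_pow, hμ2] at e2
    simp only [smul_eq_mul, nsmul_eq_mul, Nat.cast_mul, Nat.cast_ofNat] at e1 e2
    have e4 : 2 * a * τ * δ σ + μ ^ 2 * δ (hp ν ν) = 0 := by
      rw [hτ]
      linear_combination e2
    linear_combination τ * e1 - δ τ * e3 - u * v * τ * e4 + τ ^ 2 * δ σ * a * v * hu2 +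
      τ ^ 2 * δ σ * hv1
  rw [hμ2] at h1
  have d3 : ∀ δ : Derivation ℂ 𝒜 𝒜, δ (μ ^ 2) = -(μ ^ 2 * (μ ^ 2 * δ (hp ν ν))) := by
    intro δ
    have := congrArg δ h1
    rw [Derivation.map_one_eq_zero, Derivation.leibniz] at this
    simp only [smul_eq_mul] at this
    linear_combination (μ ^ 2) * this - δ (μ ^ 2) * h1
  have hT' : dE ι C.T ν = algebraMap ℂ 𝒜 (Complex.I * s) • ν := by rw [hT, algebraMap_smul]
  have tρ : C.T (hp ν ν) = 0 := by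
    rw [der_hp, C.cj_T, hT', hp_smul_left, hp_smul_right, ← algebraMap_star_comm, ← add_mul,
      ← map_add]
    simp
  have zρ : ∀ j, C.Zb j (hp ν ν) = hp (dE ι (C.Z j) ν) ν := fun j => by
    rw [der_hp, hZ, z2, add_zero, Zb, cj_cj]
  obtain ⟨φ, hφ⟩ : ∃ φ : Fin M → 𝒜, ∀ k, φ k = μ ^ 2 * hp ν (dE ι (C.Z k) ν) := ⟨_, fun _ => rfl⟩
  have sφ : ∀ j, star (φ j) = μ ^ 2 * hp (dE ι (C.Z j) ν) ν := fun j => by
    rw [hφ, star_mul', star_pow, sμ, star_hp]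
  obtain ⟨X, hX⟩ := C.yc2_perp hM G hc ht hN
  refine ⟨⟨ι, inferInstance, σ, τ, fun k => v * φ k,
    fun b k => ((g * μ) • (dE ι (C.Z k) ν + (-φ k) • ν + X k)) b, e3,
    by rw [d2, tρ, mul_zero, mul_zero, mul_zero, mul_zero], fun j => ?_, fun j k => ?_⟩⟩
  · rw [d2, zρ, star_mul', sv, sφ, Algebra.smul_def, ← hu]
  · have e1 : dE ι (C.Zb j) (dE ι (C.Z k) ν) = ∑ l, star (C.B j k l) • dE ι (C.Z l) ν +
        (-((s : ℂ) • C.H j k)) • ν := by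
      have := congrArg (fun L : End ℂ (ι → 𝒜) => L ν) (dE_lie (ι := ι) (C.Zb j) (C.Z k))
      simp only [LinearMap.sub_apply, Module.End.mul_apply, hZ, map_zero, sub_zero] at this
      rw [← this, C.lie_Zb_Z, dE_add, dE_sub, dE_sum, dE_sum]
      simp only [dE_smul, LinearMap.add_apply, LinearMap.sub_apply, LinearMap.sum_apply,
        Module.End.mul_apply, hZ, map_zero, Finset.sum_const_zero, sub_zero, mE_apply,
        Matrix.smul_mulVec, Matrix.one_mulVec, hT', smul_smul]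
      refine congrArg₂ _ rfl (congrArg (· • ν) ?_)
      rw [Algebra.smul_def, Algebra.smul_def, mul_right_comm, ← map_mul, ← mul_assoc,
        Complex.I_mul_I, neg_one_mul, map_neg, neg_mul]
    obtain ⟨p1, p2, p3⟩ := hX j k
    have p4' := congrArg star (hX j j).1
    rw [star_hp, star_zero] at p4'
    have p5' := congrArg star (hX k j).2.2
    have hΘ : star (C.Θ k j) = C.Θ j k := congrFun (congrFun C.Θ_star j) k
    rw [star_hp, star_neg, star_mul', star_mul', star_hp, hΘ, star_natCast] at p5'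
    have e2 : ∑ l, star (C.B j k l) * (v * φ l) =
        v * (μ ^ 2 * ∑ l, star (C.B j k l) * hp ν (dE ι (C.Z l) ν)) := by
      rw [Finset.mul_sum, Finset.mul_sum]
      exact Finset.sum_congr rfl fun l _ => by rw [hφ]; ring
    have e5 : ∀ x y : ι → 𝒜, hp ((g * μ) • x) ((g * μ) • y) = v * (μ ^ 2 * hp x y) := fun x y => by
      rw [hp_smul_left, hp_smul_right, star_mul', sg, sμ, ← hg]
      ring
    have e6 : ((((s : ℝ) / a : ℝ) : ℂ)) • C.H j k = v * ((s : ℂ) • C.H j k) := by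
      rw [hv, ← Algebra.smul_def, smul_smul]
      push_cast
      rw [div_eq_inv_mul]
    change _ = _ + hp ((g * μ) • (dE ι (C.Z j) ν + (-φ j) • ν + X j))
      ((g * μ) • (dE ι (C.Z k) ν + (-φ k) • ν + X k)) - _ + _
    have e7 : C.Zb j (φ k) = μ ^ 2 * C.Zb j (hp ν (dE ι (C.Z k) ν)) +
        hp ν (dE ι (C.Z k) ν) * C.Zb j (μ ^ 2) := by
      rw [hφ, Derivation.leibniz]
      simp only [smul_eq_mul]
    have e4 : cj (C.Zb j) = C.Z j := by rw [Zb, cj_cj]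
    rw [dv, e7, d3, zρ, der_hp, e4, e1, e2, e5, e6]
    simp only [hp_add_left, hp_add_right, hp_smul_left, hp_smul_right, hp_sum_right, star_neg,
      p1, p2, p3, p4', p5', sφ]
    rw [hφ k]
    linear_combination v * (a * C.Θ j k - (s : ℂ) • C.H j k -
      μ ^ 4 * hp (dE ι (C.Z j) ν) ν * hp ν (dE ι (C.Z k) ν)) * h1 + C.Θ j k * hv1

end CR

end Pool.Agent.HCF
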