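import Pool.Agent.P.MP_f644fa_ag.YC1
import Pool.Agent.P.MP_f644fa_ag.YC2

/-! Cauchy-Riemann functions. -/

noncomputable section
namespace Pool.Agent.HCF
open Finset Module Matrix

variable {𝒜 : Type} [CommRing 𝒜] [Algebra ℂ 𝒜] [StarRing 𝒜] [StarModule ℂ 𝒜] {M n : ℕ}
  {ι : Type} [Fintype ι] [DecidableEq ι]

section slot
variable {R κ H τ : Type} [CommRing R] [Fintype κ] [DecidableEq τ] [DecidableEq (H × (τ → κ))]

/-- a matrix acting in one slot -/
def yc3aSlot (H : Type) [DecidableEq (H × (τ → κ))] (t : τ) (m : Matrix κ κ R) :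
    Matrix (H × (τ → κ)) (H × (τ → κ)) R :=
  Matrix.of fun q q' => ∑ J, if q' = (q.1, Function.update q.2 t J) then m (q.2 t) J else 0

theorem yc3a_entry (t : τ) (m : Matrix κ κ R) (q q' : H × (τ → κ)) :
    yc3aSlot H t m q q' =
      if q' = (q.1, Function.update q.2 t (q'.2 t)) then m (q.2 t) (q'.2 t) else 0 := by
  rw [yc3aSlot, of_apply, Finset.sum_eq_single (q'.2 t)]
  · intro J _ hJ
    rw [if_neg]
    rintro rfl
    exact hJ (by simp)
  · simp

omit [Fintype κ] [DecidableEq (H × (τ → κ))] in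
theorem yc3a_symm (t : τ) {q q' : H × (τ → κ)}
    (h : q' = (q.1, Function.update q.2 t (q'.2 t))) :
    q = (q'.1, Function.update q'.2 t (q.2 t)) := by
  obtain ⟨a, T⟩ := q
  obtain ⟨a', T'⟩ := q'
  simp only [Prod.mk.injEq] at h ⊢
  refine ⟨h.1.symm, ?_⟩
  rw [h.2, Function.update_idem, Function.update_eq_self]

theorem yc3a_star [StarRing R] (t : τ) (m : Matrix κ κ R) :
    (yc3aSlot H t m)ᴴ = yc3aSlot H t mᴴ := by
  ext q q'
  rw [conjTranspose_apply, yc3a_entry, yc3a_entry, conjTranspose_apply]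
  by_cases h : q' = (q.1, Function.update q.2 t (q'.2 t))
  · rw [if_pos h, if_pos (yc3a_symm t h)]
  · rw [if_neg h, if_neg fun h' => h (yc3a_symm t h'), star_zero]

variable [Fintype (H × (τ → κ))]

theorem yc3a_mulVec (t : τ) (m : Matrix κ κ R) (y : H × (τ → κ) → R) (q : H × (τ → κ)) :
    (yc3aSlot H t m *ᵥ y) q = (m *ᵥ fun J => y (q.1, Function.update q.2 t J)) (q.2 t) := by
  simp only [yc3aSlot, mulVec, dotProduct, of_apply, Finset.sum_mul]
  rw [Finset.sum_comm]
  refine Finset.sum_congr rfl fun J _ => ?_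
  simp only [ite_mul, zero_mul, Finset.sum_ite_eq', Finset.mem_univ, if_true]

theorem yc3a_mul (t : τ) (m m' : Matrix κ κ R) :
    yc3aSlot H t m * yc3aSlot H t m' = yc3aSlot H t (m * m') := by
  refine c9_ext fun y => funext fun q => ?_
  rw [← mulVec_mulVec, yc3a_mulVec, yc3a_mulVec, ← mulVec_mulVec]
  refine congrArg (fun z => (m *ᵥ z) (q.2 t)) (funext fun J => ?_)
  rw [yc3a_mulVec]
  simp only [Function.update_idem, Function.update_self]

theorem yc3a_add (t : τ) (m m' : Matrix κ κ R) :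
    yc3aSlot H t m + yc3aSlot H t m' = yc3aSlot H t (m + m') := by
  refine c9_ext fun y => funext fun q => ?_
  rw [add_mulVec, Pi.add_apply, yc3a_mulVec, yc3a_mulVec, yc3a_mulVec, add_mulVec, Pi.add_apply]

theorem yc3a_zero (t : τ) : yc3aSlot H t (0 : Matrix κ κ R) = 0 := by
  refine c9_ext fun y => funext fun q => ?_
  rw [yc3a_mulVec, zero_mulVec, zero_mulVec]
  rfl

theorem yc3a_one [DecidableEq κ] (t : τ) : yc3aSlot H t (1 : Matrix κ κ R) = 1 := by
  refine c9_ext fun y => funext fun q => ?_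
  rw [yc3a_mulVec, one_mulVec, one_mulVec, Function.update_eq_self]

theorem yc3a_comm {t t' : τ} (h : t ≠ t') (m m' : Matrix κ κ R) :
    yc3aSlot H t m * yc3aSlot H t' m' = yc3aSlot H t' m' * yc3aSlot H t m := by
  refine c9_ext fun y => funext fun q => ?_
  rw [← mulVec_mulVec, ← mulVec_mulVec, yc3a_mulVec, yc3a_mulVec]
  simp only [yc3a_mulVec, Function.update_of_ne h, Function.update_of_ne h.symm]
  simp only [mulVec, dotProduct, Finset.mul_sum]
  rw [Finset.sum_comm]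
  refine Finset.sum_congr rfl fun J' _ => Finset.sum_congr rfl fun J _ => ?_
  rw [Function.update_comm h, mul_left_comm]

end slot

theorem exists_carN (M a h : ℕ) (𝒜 : Type) [CommRing 𝒜] [Algebra ℂ 𝒜] [StarRing 𝒜] :
    ∃ G : Fin a → Car M (Fin h × (Fin a → Finset (Fin M))) 𝒜,
      (∀ t t', t ≠ t' → ∀ j k, (G t).e j * (G t').e k = (G t').e k * (G t).e j ∧
        (G t).e j * (G t').i k = (G t').i k * (G t).e j) ∧
      (∀ t j y q, ((G t).e j *ᵥ y) q =
        ep 𝒜 𝒜 j (fun J => y (q.1, Function.update q.2 t J)) (q.2 t)) ∧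
      ∀ t j y q, ((G t).i j *ᵥ y) q =
        io 𝒜 𝒜 j (fun J => y (q.1, Function.update q.2 t J)) (q.2 t) := by
  obtain ⟨G, he, hi⟩ := exists_car M 𝒜
  have hc : ∀ (δ : Derivation ℂ 𝒜 𝒜) j a b, δ (G.e j a b) = 0 := fun δ j a b =>
    congrFun (congrFun (G.const δ j) a) b
  refine ⟨fun t => ⟨fun j => yc3aSlot (Fin h) t (G.e j), fun δ j => ?_, fun j k => ?_,
    fun j k => ?_⟩, fun t t' ht j k => ⟨yc3a_comm ht _ _, ?_⟩, fun t j y q => ?_,
    fun t j y q => ?_⟩
  · ext q q'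
    rw [map_apply, yc3a_entry, Matrix.zero_apply]
    split_ifs
    · exact hc δ j _ _
    · exact map_zero δ
  · rw [yc3a_mul, yc3a_mul, yc3a_add, G.ee, yc3a_zero]
  · rw [yc3a_star, yc3a_mul, yc3a_mul, yc3a_add, G.ie]
    split_ifs
    · exact yc3a_one t
    · exact yc3a_zero t
  · simp only [Car.i, yc3a_star]
    exact yc3a_comm ht _ _
  · rw [← he]
    exact yc3a_mulVec t _ y q
  · simp only [Car.i, yc3a_star]
    rw [yc3a_mulVec, ← hi]
    rfl

namespace CR
variable (C : CR M n 𝒜)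

/-- Cauchy-Riemann functions of weight `m` -/
structure CF (m : ℤ) (f : 𝒜) : Prop where
  hol : ∀ j, C.Zb j f = 0
  wt : C.T f = (Complex.I * m) • f

theorem exists_Wt_of {c a h : ℕ} {s : ℤ} (hM : M = n + 1 + c) (ha : 1 ≤ a)
    {ν : Fin h × (Fin a → Finset (Fin M)) → 𝒜}
    (hν : ∀ i T t, C.HF c s fun J => ν (i, Function.update T t J)) {σ : 𝒜} (hσ : star σ = σ)
    (h1 : σ ^ (2 * a) * hp ν ν = 1) : Nonempty (C.Wt ((s : ℝ) / a)) := by
  obtain ⟨G, hc, he, hi⟩ := exists_carN M a h 𝒜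
  have hP1 : ∀ t b v q, ((G t).il b *ᵥ v) q =
      iov 𝒜 b (fun J => v (q.1, Function.update q.2 t J)) (q.2 t) := fun t b v q => by
    simp only [Car.il, iov, sum_mulVec, smul_mulVec, Finset.sum_apply, Pi.smul_apply, hi,
      LinearMap.sum_apply, LinearMap.smul_apply]
  have hP2 : ∀ t v q, ((G t).N *ᵥ v) q = (q.2 t).card • v q := fun t v q => by
    have h2 := num_apply (R := 𝒜) (fun J => v (q.1, Function.update q.2 t J)) (q.2 t)
    rw [Function.update_eq_self] at h2
    rw [(G t).N_eq, ← h2]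
    simp only [num, sum_mulVec, ← mulVec_mulVec, Finset.sum_apply, he, hi, LinearMap.sum_apply,
      End.mul_apply, Function.update_idem, Function.update_self]
  have hq : ∀ (q : Fin h × (Fin a → Finset (Fin M))) t,
      ν (q.1, Function.update q.2 t (q.2 t)) = ν q := fun q t => by
    rw [Function.update_eq_self]
  refine C.exists_Wt' hM ha G hc (fun t l => funext fun q => ?_) (fun t => funext fun q => ?_)
    (fun j => funext fun q => ?_) (funext fun q => ?_) hσ h1
  · rw [hP1]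
    exact congrFun ((hν q.1 q.2 t).tan l) (q.2 t)
  · rw [hP2, Pi.smul_apply]
    by_cases hJ : (q.2 t).card = c
    · rw [hJ, Nat.cast_smul_eq_nsmul]
    · have h2 : ν q = 0 := (hq q t).symm.trans ((hν q.1 q.2 t).deg _ hJ)
      rw [h2, smul_zero, smul_zero]
  · have h2 := (hν q.1 q.2 ⟨0, ha⟩).hol j (q.2 ⟨0, ha⟩)
    rw [hq] at h2
    exact h2
  · have h2 := (hν q.1 q.2 ⟨0, ha⟩).wt (q.2 ⟨0, ha⟩)
    rw [hq] at h2
    exact h2

end CR

end Pool.Agent.HCF
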