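import Pool.Agent.P.MP_f644fa_ag.YCmp0

/-! Comparison of resolutions. -/

noncomputable section
namespace Pool.Agent.HCF
open Finset Matrix Equiv

variable {S A : Type} [CommRing S] [CommRing A] {φ : S →+* A} {ι κ : Type} [Fintype ι] [Fintype κ]
  [DecidableEq ι] [DecidableEq κ] {c : ℕ}

theorem ycmp_mem {σ O : Type} [LinearOrder σ] [Fintype σ] [CommRing O] (u : σ → O)
    (w : Finset σ → O) (J : Finset σ) : iov O u w J ∈ Ideal.span (Set.range u) := by
  rw [fock_iov]
  exact Ideal.sum_mem _ fun j _ => Ideal.mul_mem_right _ _ (Ideal.subset_span ⟨j, rfl⟩)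

omit [Fintype ι] in
theorem ycmp_dp {a : ι → ℕ} {b : κ → ℕ} {β : Matrix ι κ S} {α : Matrix κ ι S} (hβ : DP a b β)
    (hα : DP b a α) (r : S) : DP a a (r • (1 : Matrix ι ι S) - β * α) := by
  intro i j hij
  by_contra hne
  apply hij
  have h1 : i ≠ j := fun h => hne (by rw [h])
  have h2 : (β * α) i j = 0 := by
    rw [Matrix.mul_apply]
    refine Finset.sum_eq_zero fun k _ => ?_
    by_contra h3
    exact hne ((hβ i k (left_ne_zero_of_mul h3)).trans (hα k j (right_ne_zero_of_mul h3)))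
  rw [Matrix.sub_apply, h2, Matrix.smul_apply, Matrix.one_apply_ne h1, smul_zero, sub_zero]

omit [DecidableEq ι] in
theorem ycmp_aug (L : Cpx φ ι c) (r : S) (v w : ι → S) :
    L.aug (r • v - w) = φ r * L.aug v - L.aug w := by
  simp only [Cpx.aug, Finset.mul_sum, ← Finset.sum_sub_distrib, Pi.sub_apply, Pi.smul_apply,
    smul_eq_mul, map_sub, map_mul]
  exact Finset.sum_congr rfl fun i _ => by ring

theorem exists_kos (φ : S →+* A) (f : Fin c → S) (hf : ∀ i, φ (f i) = 0) :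
    ∃ K : Cpx φ (Finset (Fin c)) c, K.deg = Finset.card ∧ (∀ v, K.d *ᵥ v = iov S f v) ∧
      (∀ v, K.aug v = φ (v ∅)) ∧ K.d.map φ = 0 := by
  have hd : ∀ I J, LinearMap.toMatrix' (iov S f) I J =
      ∑ j, f j • io S S j (Pi.single J 1) I := fun I J => by
    rw [LinearMap.toMatrix'_apply, ← fock_iov]
  have hm : ∀ I J, φ (LinearMap.toMatrix' (iov S f) I J) = 0 := fun I J => by
    rw [hd, map_sum]
    exact Finset.sum_eq_zero fun j _ => by rw [smul_eq_mul, map_mul, hf, zero_mul]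
  refine ⟨⟨Finset.card, LinearMap.toMatrix' (iov S f), fun I => if I = ∅ then 1 else 0,
    fun I => (card_le_univ I).trans (Fintype.card_fin c).le, fun I J h => ?_, ?_, fun I h => ?_,
    fun J => Finset.sum_eq_zero fun I _ => by rw [hm, zero_mul]⟩, rfl,
    fun v => LinearMap.toMatrix'_mulVec _ v, fun v => ?_, ?_⟩
  · rw [hd] at h
    obtain ⟨j, -, hj⟩ := Finset.exists_ne_zero_of_sum_ne_zero h
    rw [io_apply] at hj
    by_cases h1 : j ∈ I
    · rw [if_pos h1, smul_zero] at hj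
      exact absurd rfl hj
    · rw [if_neg h1] at hj
      by_cases h2 : insert j I = J
      · rw [← h2, card_insert_of_notMem h1]
      · rw [Pi.single_eq_of_ne h2, smul_zero, smul_zero] at hj
        exact absurd rfl hj
  · rw [← LinearMap.toMatrix'_mul, iov_sq, map_zero]
  · by_cases h1 : I = ∅
    · rw [h1, card_empty]
    · exact absurd (if_neg h1) h
  · simp [Cpx.aug]
  · ext I J
    exact hm I J

theorem Cpx.exists_LD [IsDomain A] (L : Cpx φ ι c) (hL : L.Ex 1) (hs : Function.Surjective L.aug)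
    {f : Fin c → S} (hf : ∀ i, φ (f i) = 0) {g : S} (hg : φ g ≠ 0)
    (hK : ∀ v, iov S f v = 0 → φ (v ∅) = 0 → ∃ w, iov S f w = g • v)
    (hε : ∀ i, ∃ s, φ s = φ g * L.ε i) :
    Nonempty (LD φ L.deg L.d c (g ^ (c + 1))) := by
  obtain ⟨K, hdeg, hd, haug, hmap⟩ := exists_kos φ f hf
  have hKx : K.Ex g := fun v h1 h2 => by
    rw [hd] at h1
    rw [haug] at h2
    obtain ⟨w, hw⟩ := hK v h1 h2
    exact ⟨w, by rw [hd, hw]⟩
  obtain ⟨α, hα1, hα2, hα3⟩ := L.lift K hKx fun i => by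
    obtain ⟨s, hs⟩ := hε i
    exact ⟨fun _ => s, by rw [haug, hs]⟩
  obtain ⟨β, hβ1, hβ2, hβ3⟩ := K.lift L hL fun i => hs _
  simp only [one_pow, map_one, one_mul] at hβ3
  obtain ⟨h, hh⟩ := L.htpy hL (ycmp_dp hβ1 hα1 (g ^ (c + 1)))
    (by rw [Matrix.mul_sub, Matrix.sub_mul, Matrix.mul_smul, Matrix.smul_mul, Matrix.mul_one,
      Matrix.one_mul, ← Matrix.mul_assoc, hβ2, Matrix.mul_assoc, hα2, Matrix.mul_assoc])
    (fun v => by
      rw [Matrix.sub_mulVec, Matrix.smul_mulVec, Matrix.one_mulVec, ycmp_aug,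
        ← Matrix.mulVec_mulVec, hβ3, hα3, sub_self])
  obtain ⟨k, hk⟩ := K.htpy hKx (ycmp_dp hα1 hβ1 (g ^ (c + 1)))
    (by rw [Matrix.mul_sub, Matrix.sub_mul, Matrix.mul_smul, Matrix.smul_mul, Matrix.mul_one,
      Matrix.one_mul, ← Matrix.mul_assoc, hα2, Matrix.mul_assoc, hβ2, Matrix.mul_assoc])
    (fun v => by
      rw [Matrix.sub_mulVec, Matrix.smul_mulVec, Matrix.one_mulVec, ycmp_aug,
        ← Matrix.mulVec_mulVec, hα3, hβ3, sub_self])
  rw [one_pow, one_smul] at hh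
  rw [hdeg] at hα1 hβ1
  refine ⟨⟨α, β, h, hα1, hβ1, hh, ?_, ?_, ?_⟩⟩
  · rw [hβ2, Matrix.map_mul, hmap, Matrix.mul_zero]
  · rw [← hα2, Matrix.map_mul, hmap, Matrix.zero_mul]
  · ext I J
    have h1 : (K.d * k + k * K.d).map φ = 0 := by
      rw [Matrix.map_add _ (map_add φ), Matrix.map_mul, Matrix.map_mul, hmap, Matrix.zero_mul,
        Matrix.mul_zero, add_zero]
    have h2 := congrFun (congrFun h1 I) J
    rw [hk, Matrix.map_apply, Matrix.smul_apply, smul_eq_mul, map_mul, Matrix.zero_apply,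
      Matrix.sub_apply, map_sub] at h2
    have h3 : φ (g ^ (c + 1)) ≠ 0 := by
      rw [map_pow]
      exact pow_ne_zero _ hg
    have h4 := sub_eq_zero.1 ((mul_eq_zero.1 h2).resolve_left h3)
    rw [Matrix.map_apply, ← h4, Matrix.smul_apply, Matrix.smul_apply, smul_eq_mul, smul_eq_mul,
      map_mul, Matrix.one_apply, Matrix.one_apply]
    split_ifs <;> simp

theorem Cpx.transport {S' : Type} [CommRing S'] (θ : S' ≃+* S) (L : Cpx (φ.comp θ.toRingHom) ι c)
    (hL : L.Ex 1) (hs : Function.Surjective L.aug) :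
    ∃ L' : Cpx φ ι c, L'.Ex 1 ∧ Function.Surjective L'.aug := by
  have hmv : ∀ w : ι → S', (L.d.map θ.toRingHom) *ᵥ (fun i => θ (w i)) =
      fun i => θ ((L.d *ᵥ w) i) := fun w =>
    funext fun i => (RingHom.map_mulVec θ.toRingHom L.d w i).symm
  refine ⟨⟨L.deg, L.d.map θ.toRingHom, L.ε, L.deg_le, fun i j h => L.low i j fun h0 => h ?_, ?_,
    L.ε_deg, L.ε_d⟩, fun v h1 h2 => ?_, fun a => ?_⟩
  · rw [Matrix.map_apply, h0, map_zero]
  · rw [← Matrix.map_mul, L.dd, Matrix.map_zero _ (map_zero _)]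
  · obtain ⟨v', rfl⟩ : ∃ v' : ι → S', v = fun i => θ (v' i) :=
      ⟨fun i => θ.symm (v i), funext fun i => (θ.apply_symm_apply _).symm⟩
    have h3 : L.d *ᵥ v' = 0 := funext fun i =>
      θ.injective ((congrFun ((hmv v').symm.trans h1) i).trans (map_zero θ).symm)
    obtain ⟨w, hw⟩ := hL v' h3 h2
    refine ⟨fun i => θ (w i), (hmv w).trans ?_⟩
    rw [hw, one_smul, one_smul]
  · obtain ⟨v, hv⟩ := hs a
    exact ⟨fun i => θ (v i), hv⟩

/-- local exactness of a Koszul complex -/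
theorem kos_loc {σ O : Type} [LinearOrder σ] [Fintype σ] [CommRing O] [Algebra ℂ O]
    [IsNoetherianRing O] (u : σ → O) (δ : O) (D : σ → Derivation ℂ O O)
    (hD : ∀ l j, D l (u j) = if j = l then δ else 0) : ∃ k : ℕ, ∀ z : Finset σ → O,
      iov O u z = 0 → z ∅ ∈ Ideal.span (Set.range u) → ∃ b, iov O u b = δ ^ k • z := by
  have hM : (Matrix.of fun j l => D l (u j)) = δ • (1 : Matrix σ σ O) := by
    ext j l
    rw [Matrix.of_apply, hD, Matrix.smul_apply, Matrix.one_apply]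
    split_ifs <;> simp
  obtain ⟨k, hk⟩ := loc_thm u δ D (by rw [hM, Matrix.smul_mul, Matrix.one_mul]) fun j => by
    have h : ∑ l, u l * D l (u j) - δ * u j = 0 := by
      simp only [hD, mul_ite, mul_zero, Finset.sum_ite_eq, Finset.mem_univ, if_true]
      ring
    rw [h]
    exact zero_mem _
  refine ⟨k + 1, fun z hz h0 => ?_⟩
  have hio : ∀ l J, δ * io O O l z J ∈ Ideal.span (Set.range u) := fun l J => by
    have h1 := congrFun (loc_der u (D l) z) J
    have h2 : (fun j => D l (u j)) = δ • (Pi.single l 1 : σ → O) := by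
      funext j
      rw [hD, Pi.smul_apply, Pi.single_apply]
      split_ifs <;> simp
    rw [hz, h2, iov_smul, iov_single, Pi.zero_apply, map_zero, Pi.add_apply] at h1
    have h3 : δ * io O O l z J = -iov O u (fun J => D l (z J)) J :=
      eq_neg_of_add_eq_zero_right h1.symm
    rw [h3]
    exact neg_mem (ycmp_mem u _ J)
  obtain ⟨b, hb⟩ := hk (δ • z) (by rw [map_smul, hz, smul_zero]) fun J => by
    rcases J.eq_empty_or_nonempty with rfl | ⟨l, hl⟩
    · exact Ideal.mul_mem_left _ _ h0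
    · have h1 := zsmul_mem (hio l (J.erase l)) (sg l (J.erase l))
      rw [io_apply, if_neg (notMem_erase l J), insert_erase hl, mul_smul_comm, smul_smul,
        sg_mul_self, one_smul] at h1
      exact h1
  exact ⟨b, by rw [← hb, smul_smul, pow_succ]⟩

end Pool.Agent.HCF
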