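import Pool.Agent.P.MP_f644fa_ag.Y0
import Pool.Agent.P.MP_f644fa_ag.Loc

/-! Comparison of resolutions. -/

noncomputable section
namespace Pool.Agent.HCF
open Finset Matrix Equiv

variable {S A : Type} [CommRing S] [CommRing A] {φ : S →+* A} {ι κ : Type} [Fintype ι] [Fintype κ]
  [DecidableEq ι] [DecidableEq κ] {c : ℕ}

theorem ycmp0_aug_zero (K : Cpx φ κ c) {t : ℕ} {w : κ → S}
    (hw : ∀ k, w k ≠ 0 → K.deg k = t + 1) : K.aug w = 0 := by
  unfold Cpx.aug
  refine Finset.sum_eq_zero fun k _ => ?_
  by_cases h : w k = 0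
  · simp [h]
  · have h1 := hw k h
    have h2 : K.ε k = 0 := by
      by_contra h3
      have := K.ε_deg k h3
      omega
    simp [h2]

theorem ycmp0_solve (K : Cpx φ κ c) {g : S} (hK : K.Ex g) {t : ℕ} {v : κ → S}
    (hv : ∀ k, v k ≠ 0 → K.deg k = t) (h1 : K.d *ᵥ v = 0) (h2 : K.aug v = 0) :
    ∃ w : κ → S, (∀ k, w k ≠ 0 → K.deg k = t + 1) ∧ ∀ k, ∑ j, K.d k j * w j = g * v k := by
  obtain ⟨w, hw⟩ := hK v h1 h2
  refine ⟨fun k => if K.deg k = t + 1 then w k else 0, fun k hk => ?_, fun k => ?_⟩
  · by_contra h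
    exact hk (if_neg h)
  · by_cases hk : K.deg k = t
    · have h3 : ∑ j, K.d k j * w j = g * v k := by
        have := congrFun hw k
        simpa [Matrix.mulVec, dotProduct] using this
      rw [← h3]
      refine Finset.sum_congr rfl fun j _ => ?_
      by_cases hd : K.d k j = 0
      · simp [hd]
      · have := K.low k j hd
        beta_reduce
        rw [if_pos (by omega)]
    · have h3 : v k = 0 := by
        by_contra h
        exact hk (hv k h)
      rw [h3, mul_zero]
      refine Finset.sum_eq_zero fun j _ => ?_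
      by_cases hd : K.d k j = 0
      · simp [hd]
      · have := K.low k j hd
        beta_reduce
        rw [if_neg (by omega), mul_zero]

theorem ycmp0_aug_sum (K : Cpx φ κ c) (α : Matrix κ ι S) (v : ι → S) :
    K.aug (fun k => ∑ j, α k j * v j) = ∑ j, φ (v j) * K.aug (fun k => α k j) := by
  unfold Cpx.aug
  simp only [map_sum, map_mul, Finset.sum_mul, Finset.mul_sum]
  rw [Finset.sum_comm]
  refine Finset.sum_congr rfl fun j _ => Finset.sum_congr rfl fun k _ => by ring

theorem ycmp0_col (L : Cpx φ ι c) (K : Cpx φ κ c) {g : S} (hK : K.Ex g)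
    (hε : ∀ i, ∃ v, K.aug v = φ g * L.ε i) (t : ℕ) (α : Matrix κ ι S) (hD : DP K.deg L.deg α)
    (h1 : ∀ i, L.deg i < t → ∀ k, (K.d * α) k i = (α * L.d) k i)
    (h2 : ∀ i, L.deg i < t → K.aug (fun k => α k i) = φ (g ^ t) * L.ε i) (i : ι)
    (hi : L.deg i = t) : ∃ w : κ → S, (∀ k, w k ≠ 0 → K.deg k = t) ∧
      (∀ k, ∑ j, K.d k j * w j = g * (α * L.d) k i) ∧ K.aug w = φ (g ^ (t + 1)) * L.ε i := by
  rcases t with _ | s
  · obtain ⟨v, hv⟩ := hε i
    refine ⟨fun k => if K.deg k = 0 then v k else 0, fun k hk => ?_, fun k => ?_, ?_⟩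
    · by_contra h
      exact hk (if_neg h)
    · have h3 : (α * L.d) k i = 0 := by
        rw [Matrix.mul_apply]
        refine Finset.sum_eq_zero fun j _ => ?_
        by_cases hd : L.d j i = 0
        · simp [hd]
        · have := L.low j i hd
          omega
      rw [h3, mul_zero]
      refine Finset.sum_eq_zero fun j _ => ?_
      by_cases hd : K.d k j = 0
      · simp [hd]
      · have := K.low k j hd
        beta_reduce
        rw [if_neg (by omega), mul_zero]
    · rw [zero_add, pow_one, ← hv]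
      unfold Cpx.aug
      refine Finset.sum_congr rfl fun k _ => ?_
      by_cases h : K.deg k = 0
      · simp [h]
      · have h2 : K.ε k = 0 := by
          by_contra h3
          exact h (K.ε_deg k h3)
        simp [h2]
  · have hv : ∀ k, (α * L.d) k i ≠ 0 → K.deg k = s := by
      intro k hk
      rw [Matrix.mul_apply] at hk
      obtain ⟨j, -, hj⟩ := Finset.exists_ne_zero_of_sum_ne_zero hk
      have h3 := hD k j (left_ne_zero_of_mul hj)
      have h4 := L.low j i (right_ne_zero_of_mul hj)
      omega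
    have hc : K.d *ᵥ (fun k => (α * L.d) k i) = 0 := by
      funext k
      have h3 : (K.d *ᵥ (fun k => (α * L.d) k i)) k = (K.d * α * L.d) k i := by
        rw [Matrix.mul_assoc, Matrix.mul_apply]
        rfl
      have h4 : (K.d * α * L.d) k i = (α * L.d * L.d) k i := by
        rw [Matrix.mul_apply, Matrix.mul_apply]
        refine Finset.sum_congr rfl fun j _ => ?_
        by_cases hd : L.d j i = 0
        · simp [hd]
        · have := L.low j i hd
          rw [h1 j (by omega) k]
      rw [h3, h4, Matrix.mul_assoc, L.dd, Matrix.mul_zero]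
      rfl
    have ha : K.aug (fun k => (α * L.d) k i) = 0 := by
      have h3 : (fun k => (α * L.d) k i) = fun k => ∑ j, α k j * L.d j i := by
        funext k
        rw [Matrix.mul_apply]
      rw [h3, ycmp0_aug_sum K α (fun j => L.d j i)]
      have h4 : ∑ j, φ (L.d j i) * K.aug (fun k => α k j) =
          φ (g ^ (s + 1)) * ∑ j, φ (L.d j i) * L.ε j := by
        rw [Finset.mul_sum]
        refine Finset.sum_congr rfl fun j _ => ?_
        by_cases hd : L.d j i = 0
        · simp [hd]
        · have := L.low j i hd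
          rw [h2 j (by omega)]
          ring
      rw [h4, L.ε_d, mul_zero]
    obtain ⟨w, hw1, hw2⟩ := ycmp0_solve K hK hv hc ha
    refine ⟨w, hw1, hw2, ?_⟩
    have h5 : L.ε i = 0 := by
      by_contra h3
      have := L.ε_deg i h3
      omega
    rw [ycmp0_aug_zero K hw1, h5, mul_zero]

theorem ycmp0_lift (L : Cpx φ ι c) (K : Cpx φ κ c) {g : S} (hK : K.Ex g)
    (hε : ∀ i, ∃ v, K.aug v = φ g * L.ε i) (t : ℕ) : ∃ α : Matrix κ ι S, DP K.deg L.deg α ∧
      (∀ i, L.deg i < t → ∀ k, (K.d * α) k i = (α * L.d) k i) ∧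
      ∀ i, L.deg i < t → K.aug (fun k => α k i) = φ (g ^ t) * L.ε i := by
  induction t with
  | zero =>
    exact ⟨0, fun k i h => absurd rfl h, fun i hi => absurd hi (Nat.not_lt_zero _),
      fun i hi => absurd hi (Nat.not_lt_zero _)⟩
  | succ t ih =>
    obtain ⟨α, hD, h1, h2⟩ := ih
    have hc := ycmp0_col L K hK hε t α hD h1 h2
    choose! W hW1 hW2 hW3 using hc
    have hr : ∀ i, L.deg i < t + 1 → ∀ k,
        ((Matrix.of fun k i => if L.deg i = t then W i k else g * α k i) * L.d) k i =
          g * (α * L.d) k i := by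
      intro i hi k
      rw [Matrix.mul_apply, Matrix.mul_apply, Finset.mul_sum]
      refine Finset.sum_congr rfl fun j _ => ?_
      by_cases hd : L.d j i = 0
      · simp [hd]
      · have := L.low j i hd
        rw [Matrix.of_apply, if_neg (by omega)]
        ring
    refine ⟨Matrix.of fun k i => if L.deg i = t then W i k else g * α k i, ?_, ?_, ?_⟩
    · intro k i h
      rw [Matrix.of_apply] at h
      by_cases hi : L.deg i = t
      · rw [if_pos hi] at h
        rw [hi]
        exact hW1 i hi k h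
      · rw [if_neg hi] at h
        exact hD k i (right_ne_zero_of_mul h)
    · intro i hi k
      rw [hr i hi k, Matrix.mul_apply]
      by_cases hi' : L.deg i = t
      · simp only [Matrix.of_apply, if_pos hi']
        exact hW2 i hi' k
      · simp only [Matrix.of_apply, if_neg hi']
        rw [← h1 i (by omega) k, Matrix.mul_apply, Finset.mul_sum]
        exact Finset.sum_congr rfl fun j _ => by ring
    · intro i hi
      by_cases hi' : L.deg i = t
      · simp only [Matrix.of_apply, if_pos hi']
        exact hW3 i hi'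
      · simp only [Matrix.of_apply, if_neg hi']
        have h3 := h2 i (by omega)
        have h4 : K.aug (fun k => g * α k i) = φ g * K.aug (fun k => α k i) := by
          unfold Cpx.aug
          rw [Finset.mul_sum]
          exact Finset.sum_congr rfl fun k _ => by rw [map_mul]; ring
        rw [h4, h3, pow_succ, map_mul]
        ring

theorem Cpx.lift (L : Cpx φ ι c) (K : Cpx φ κ c) {g : S} (hK : K.Ex g)
    (hε : ∀ i, ∃ v, K.aug v = φ g * L.ε i) : ∃ α : Matrix κ ι S, DP K.deg L.deg α ∧
      K.d * α = α * L.d ∧ ∀ v, K.aug (α *ᵥ v) = φ (g ^ (c + 1)) * L.aug v := by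
  obtain ⟨α, hD, h1, h2⟩ := ycmp0_lift L K hK hε (c + 1)
  refine ⟨α, hD, ?_, fun v => ?_⟩
  · ext k i
    exact h1 i (Nat.lt_succ_of_le (L.deg_le i)) k
  · have h3 : α *ᵥ v = fun k => ∑ j, α k j * v j := rfl
    rw [h3, ycmp0_aug_sum K α v]
    have h4 : L.aug v = ∑ i, φ (v i) * L.ε i := rfl
    rw [h4, Finset.mul_sum]
    refine Finset.sum_congr rfl fun j _ => ?_
    rw [h2 j (Nat.lt_succ_of_le (L.deg_le j))]
    ring

theorem ycmp0_hcol (L : Cpx φ ι c) {g : S} (hL : L.Ex g) {F : Matrix ι ι S}
    (hF : DP L.deg L.deg F) (hc : L.d * F = F * L.d) (h0 : ∀ v, L.aug (F *ᵥ v) = 0) (t : ℕ)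
    (h : Matrix ι ι S) (hD : ∀ k i, h k i ≠ 0 → L.deg k = L.deg i + 1)
    (h1 : ∀ i, L.deg i < t → ∀ k, (L.d * h) k i + (h * L.d) k i = g ^ t * F k i) (i : ι)
    (hi : L.deg i = t) : ∃ w : ι → S, (∀ k, w k ≠ 0 → L.deg k = t + 1) ∧
      ∀ k, ∑ j, L.d k j * w j = g * (g ^ t * F k i - (h * L.d) k i) := by
  have hs : ∀ k, (h * L.d) k i ≠ 0 → L.deg k = t ∧ L.deg k ≠ 0 := by
    intro k hk
    rw [Matrix.mul_apply] at hk
    obtain ⟨j, -, hj⟩ := Finset.exists_ne_zero_of_sum_ne_zero hk
    have h3 := hD k j (left_ne_zero_of_mul hj)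
    have h4 := L.low j i (right_ne_zero_of_mul hj)
    omega
  refine ycmp0_solve L hL (v := fun k => g ^ t * F k i - (h * L.d) k i) (fun k hk => ?_) ?_ ?_
  · by_cases h2 : (h * L.d) k i = 0
    · have h3 : F k i ≠ 0 := by
        intro h3
        exact hk (by simp [h2, h3])
      rw [hF k i h3, hi]
    · exact (hs k h2).1
  · funext k
    have h3 : (L.d *ᵥ fun k => g ^ t * F k i - (h * L.d) k i) k =
        g ^ t * (L.d * F) k i - (L.d * h * L.d) k i := by
      rw [Matrix.mul_assoc, Matrix.mul_apply, Matrix.mul_apply, Finset.mul_sum,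
        ← Finset.sum_sub_distrib]
      exact Finset.sum_congr rfl fun j _ => by ring
    have h4 : (L.d * h * L.d) k i + (h * L.d * L.d) k i = g ^ t * (F * L.d) k i := by
      rw [Matrix.mul_apply, Matrix.mul_apply, Matrix.mul_apply (M := F), Finset.mul_sum,
        ← Finset.sum_add_distrib]
      refine Finset.sum_congr rfl fun j _ => ?_
      by_cases hd : L.d j i = 0
      · simp [hd]
      · have := L.low j i hd
        rw [← add_mul, h1 j (by omega) k]
        ring
    have h5 : (h * L.d * L.d) k i = 0 := by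
      rw [Matrix.mul_assoc, L.dd, Matrix.mul_zero]
      rfl
    rw [h3, hc, ← h4, h5]
    simp
  · have h3 := h0 (Pi.single i 1)
    have h4 : L.aug (fun k => g ^ t * F k i - (h * L.d) k i) =
        φ (g ^ t) * L.aug (F *ᵥ Pi.single i 1) := by
      unfold Cpx.aug
      rw [Finset.mul_sum]
      refine Finset.sum_congr rfl fun k _ => ?_
      have h5 : (F *ᵥ Pi.single i 1) k = F k i := by simp
      rw [h5, map_sub, map_mul, sub_mul]
      have h6 : φ ((h * L.d) k i) * L.ε k = 0 := by
        by_cases h2 : (h * L.d) k i = 0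
        · simp [h2]
        · have h7 : L.ε k = 0 := by
            by_contra h8
            exact (hs k h2).2 (L.ε_deg k h8)
          simp [h7]
      rw [h6]
      ring
    rw [h4, h3, mul_zero]

theorem ycmp0_htpy (L : Cpx φ ι c) {g : S} (hL : L.Ex g) {F : Matrix ι ι S}
    (hF : DP L.deg L.deg F) (hc : L.d * F = F * L.d) (h0 : ∀ v, L.aug (F *ᵥ v) = 0) (t : ℕ) :
    ∃ h : Matrix ι ι S, (∀ k i, h k i ≠ 0 → L.deg k = L.deg i + 1) ∧
      ∀ i, L.deg i < t → ∀ k, (L.d * h) k i + (h * L.d) k i = g ^ t * F k i := by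
  induction t with
  | zero => exact ⟨0, fun k i h => absurd rfl h, fun i hi => absurd hi (Nat.not_lt_zero _)⟩
  | succ t ih =>
    obtain ⟨h, hD, h1⟩ := ih
    have hcol := ycmp0_hcol L hL hF hc h0 t h hD h1
    choose! W hW1 hW2 using hcol
    have hr : ∀ i, L.deg i < t + 1 → ∀ k,
        ((Matrix.of fun k i => if L.deg i = t then W i k else g * h k i) * L.d) k i =
          g * (h * L.d) k i := by
      intro i hi k
      rw [Matrix.mul_apply, Matrix.mul_apply, Finset.mul_sum]
      refine Finset.sum_congr rfl fun j _ => ?_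
      by_cases hd : L.d j i = 0
      · simp [hd]
      · have := L.low j i hd
        rw [Matrix.of_apply, if_neg (by omega)]
        ring
    refine ⟨Matrix.of fun k i => if L.deg i = t then W i k else g * h k i, ?_, ?_⟩
    · intro k i hk
      rw [Matrix.of_apply] at hk
      by_cases hi : L.deg i = t
      · rw [if_pos hi] at hk
        rw [hi]
        exact hW1 i hi k hk
      · rw [if_neg hi] at hk
        exact hD k i (right_ne_zero_of_mul hk)
    · intro i hi k
      rw [hr i hi k, Matrix.mul_apply]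
      by_cases hi' : L.deg i = t
      · simp only [Matrix.of_apply, if_pos hi']
        rw [hW2 i hi' k]
        ring
      · simp only [Matrix.of_apply, if_neg hi']
        have h3 : ∑ j, L.d k j * (g * h j i) = g * (L.d * h) k i := by
          rw [Matrix.mul_apply, Finset.mul_sum]
          exact Finset.sum_congr rfl fun j _ => by ring
        rw [h3, ← mul_add, h1 i (by omega) k]
        ring

theorem Cpx.htpy (L : Cpx φ ι c) {g : S} (hL : L.Ex g) {F : Matrix ι ι S} (hF : DP L.deg L.deg F)
    (hc : L.d * F = F * L.d) (h0 : ∀ v, L.aug (F *ᵥ v) = 0) :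
    ∃ h, L.d * h + h * L.d = g ^ (c + 1) • F := by
  obtain ⟨h, -, h1⟩ := ycmp0_htpy L hL hF hc h0 (c + 1)
  refine ⟨h, ?_⟩
  ext k i
  rw [Matrix.add_apply, Matrix.smul_apply, smul_eq_mul]
  exact h1 i (Nat.lt_succ_of_le (L.deg_le i)) k

end Pool.Agent.HCF
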