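import Pool.Agent.P.MP_f644fa_ag.Defs

/-! Fano manifolds. -/

noncomputable section
namespace Pool.Agent.HCF
open MvPolynomial

/-- `-K_X` is ample, in the form: `-a K_X - H` is globally generated for some `a ≥ 1`.  By
adjunction `-a K_X - H = (det N^*(1))^a (a (M - c) - 1)`; a section of this bundle is a regular
function `ν` of degree `a (M - c) - 1` whose value at `x` is the `a`-th tensor power of an
alternating `c`-form that kills the tangent space. -/
def IsFano {M : ℕ} (I : Ideal (MvPolynomial (Fin M) ℂ)) (c : ℕ) : Prop :=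
  ∃ (a h : ℕ) (ν : Fin h → cone I → (Fin a → Fin c → Fin M → ℂ) → ℂ), 1 ≤ a ∧
    (∀ i x, ∃ α : (Fin M → ℂ) [⋀^Fin c]→ₗ[ℂ] ℂ, (∀ v k, v k ∈ tang I x.1 → α v = 0) ∧
      ∀ v, ν i x v = ∏ t, α (v t)) ∧
    (∀ i v, (fun x => ν i x v) ∈ secRing I ∧ IsHom (a * (M - c) - 1) fun x => ν i x v) ∧
    ∀ x, ∃ i v, ν i x v ≠ 0

end Pool.Agent.HCF
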