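import Pool.Agent.P.MP_f644fa_ag.YFin0

/-! Local structure of the resolution; from the Betti numbers to the generators of the ideal. -/

noncomputable section
namespace Pool.Agent.HCF
open MvPolynomial Module Set

variable {M : ℕ} {I : Ideal (SS M)} {c n : ℕ}

variable {ι : Type} [Fintype ι] [DecidableEq ι]

section cx
open Matrix
variable {S A : Type} [CommRing S] [CommRing A] {ψ : S →+* A}

/-- the part of degree `j` -/
def yfin_pr (R : Cpx ψ ι c) (j : ℕ) (v : ι → S) : ι → S := fun i => if R.deg i = j then v i else 0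

omit [DecidableEq ι] in
theorem yfin_pr_deg (R : Cpx ψ ι c) (j : ℕ) (v : ι → S) (i : ι) (h : yfin_pr R j v i ≠ 0) :
    R.deg i = j := by
  by_contra h1
  exact h (if_neg h1)

omit [DecidableEq ι] in
theorem yfin_aug_pr (R : Cpx ψ ι c) (v : ι → S) : R.aug (yfin_pr R 0 v) = R.aug v := by
  refine Finset.sum_congr rfl fun i _ => ?_
  by_cases h : R.deg i = 0
  · rw [yfin_pr, if_pos h]
  · have h1 : R.ε i = 0 := by_contra fun h2 => h (R.ε_deg i h2)
    rw [h1, mul_zero, mul_zero]

omit [DecidableEq ι] in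
theorem yfin_d_zero (R : Cpx ψ ι c) {v : ι → S} (hv : ∀ i, v i ≠ 0 → R.deg i = 0) :
    R.d *ᵥ v = 0 := by
  funext i
  refine Finset.sum_eq_zero fun j _ => ?_
  change R.d i j * v j = 0
  by_cases h : R.d i j = 0
  · rw [h, zero_mul]
  · have h1 := R.low i j h
    have h2 : v j = 0 := by_contra fun h3 => by
      have := hv j h3
      omega
    rw [h2, mul_zero]

omit [DecidableEq ι] in
theorem yfin_d_pr (R : Cpx ψ ι c) (j : ℕ) (w : ι → S) :
    R.d *ᵥ yfin_pr R (j + 1) w = yfin_pr R j (R.d *ᵥ w) := by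
  funext i
  by_cases hi : R.deg i = j
  · rw [yfin_pr, if_pos hi]
    refine Finset.sum_congr rfl fun k _ => ?_
    change R.d i k * yfin_pr R (j + 1) w k = R.d i k * w k
    by_cases h : R.d i k = 0
    · rw [h, zero_mul, zero_mul]
    · have h1 := R.low i k h
      rw [yfin_pr, if_pos (by omega)]
  · rw [yfin_pr, if_neg hi]
    refine Finset.sum_eq_zero fun k _ => ?_
    change R.d i k * yfin_pr R (j + 1) w k = 0
    by_cases h : R.d i k = 0
    · rw [h, zero_mul]
    · have h1 := R.low i k h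
      rw [yfin_pr, if_neg (by omega), mul_zero]

omit [DecidableEq ι] in
theorem yfin_aug_d (R : Cpx ψ ι c) (w : ι → S) : R.aug (R.d *ᵥ w) = 0 := by
  unfold Cpx.aug
  simp only [mulVec, dotProduct, map_sum, map_mul, Finset.sum_mul]
  rw [Finset.sum_comm]
  refine Finset.sum_eq_zero fun j _ => ?_
  have h := congrArg (fun a => ψ (w j) * a) (R.ε_d j)
  simp only [Finset.mul_sum, mul_zero] at h
  rw [← h]
  exact Finset.sum_congr rfl fun i _ => by ring

omit [DecidableEq ι] in
theorem yfin_aug_add (R : Cpx ψ ι c) (v w : ι → S) : R.aug (v + w) = R.aug v + R.aug w := by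
  unfold Cpx.aug
  simp only [Pi.add_apply, map_add, add_mul, Finset.sum_add_distrib]

omit [DecidableEq ι] in
theorem yfin_aug_sub (R : Cpx ψ ι c) (v w : ι → S) : R.aug (v - w) = R.aug v - R.aug w := by
  unfold Cpx.aug
  simp only [Pi.sub_apply, map_sub, sub_mul, Finset.sum_sub_distrib]

omit [DecidableEq ι] in
theorem yfin_aug_smul (R : Cpx ψ ι c) (g : S) (v : ι → S) : R.aug (g • v) = ψ g * R.aug v := by
  unfold Cpx.aug
  simp only [Pi.smul_apply, smul_eq_mul, map_mul, Finset.mul_sum, mul_assoc]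

omit [DecidableEq ι] in
theorem yfin_lift (R : Cpx ψ ι c) (hs : Function.Surjective R.aug) (a : A) :
    ∃ v, (∀ i, v i ≠ 0 → R.deg i = 0) ∧ R.aug v = a := by
  obtain ⟨v, hv⟩ := hs a
  exact ⟨yfin_pr R 0 v, yfin_pr_deg R 0 v, (yfin_aug_pr R v).trans hv⟩

end cx

theorem yfin_mem (p : SS M) (h : eval 0 p = 0) :
    p ∈ Ideal.span (range (X : Fin M → SS M)) := by
  have key : ∀ q : SS M, q - C (eval 0 q) ∈ Ideal.span (range (X : Fin M → SS M)) := by
    intro q
    induction q using MvPolynomial.induction_on with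
    | C r => simp
    | add f g hf hg =>
      have e : f + g - C (eval 0 (f + g)) = (f - C (eval 0 f)) + (g - C (eval 0 g)) := by
        rw [map_add, map_add]; ring
      rw [e]
      exact add_mem hf hg
    | mul_X f j _ =>
      have e : eval (0 : Fin M → ℂ) (f * X j) = 0 := by simp
      rw [e, map_zero, sub_zero]
      exact Ideal.mul_mem_left _ _ (Ideal.subset_span ⟨j, rfl⟩)
  have := key p
  rwa [h, map_zero, sub_zero] at this

theorem yfin_ev0 (hX : IsManifold I c) {f : SS M} (hf : f ∈ I) : eval 0 f = 0 := by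
  obtain ⟨x, hx⟩ := hX.nonempty
  have h := hx.2 _ (hX.homog f hf 0)
  rw [homogeneousComponent_zero, eval_C] at h
  rw [eval_zero, constantCoeff_eq]
  exact h

open Matrix in
omit [DecidableEq ι] in
/-- a relation in the homology of the special fibre, lifted to the polynomial ring -/
theorem yfin_rel {deg : ι → ℕ} {d : Matrix ι ι (SS M)} {j r : ℕ}
    (h : ¬ Hge deg (d.map (eval 0)) j r) (w : Fin r → ι → SS M)
    (h1 : ∀ k i, w k i ≠ 0 → deg i = j) (h2 : ∀ k i, eval 0 ((d *ᵥ w k) i) = 0) :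
    ∃ (t : Fin r → ℂ) (u : ι → SS M), t ≠ 0 ∧ ∀ i,
      (∑ k, (C (t k) : SS M) • w k - d *ᵥ u) i ∈ Ideal.span (range (X : Fin M → SS M)) := by
  by_contra hc
  refine h ⟨fun k => eval 0 ∘ w k, fun k i hi => h1 k i fun h0 => hi ?_, fun k => ?_,
    fun t u hu => ?_⟩
  · change eval 0 (w k i) = 0
    rw [h0, map_zero]
  · funext i
    rw [← RingHom.map_mulVec]
    exact h2 k i
  · by_contra ht
    refine hc ⟨t, fun i => C (u i), ht, fun i => yfin_mem _ ?_⟩
    have e : (eval (0 : Fin M → ℂ) : SS M → ℂ) ∘ (fun i => (C (u i) : SS M)) = u :=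
      funext fun i => eval_C _
    have e1 := congrFun hu i
    rw [Pi.sub_apply, map_sub, RingHom.map_mulVec, e, ← e1, Finset.sum_apply, Finset.sum_apply,
      map_sum, sub_eq_zero]
    refine Finset.sum_congr rfl fun k _ => ?_
    simp

theorem yfin_split (φ : secRing I →ₐ[ℂ] ℂ) (hφ : ∀ f, φ (toSec I f) = eval 0 f)
    (R : Cpx (toSec I).toRingHom ι c) (hs : Function.Surjective R.aug)
    (h0 : ¬ Hge R.deg (R.d.map (eval 0)) 0 2) (a : secRing I) :
    ∃ (r : ℂ) (b : Fin M → secRing I), a = algebraMap ℂ _ r + ∑ j, toSec I (X j) * b j := by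
  obtain ⟨v1, h1, e1⟩ := yfin_lift R hs 1
  obtain ⟨v, h2, e2⟩ := yfin_lift R hs a
  obtain ⟨t, u, ht, hu⟩ := yfin_rel h0 ![v1, v]
    (fun k => by fin_cases k; exacts [h1, h2])
    (fun k i => by
      fin_cases k
      · change eval 0 ((R.d.mulVec v1) i) = 0
        rw [yfin_d_zero R h1, Pi.zero_apply, map_zero]
      · change eval 0 ((R.d.mulVec v) i) = 0
        rw [yfin_d_zero R h2, Pi.zero_apply, map_zero])
  have hm : ∀ p ∈ Ideal.span (range (X : Fin M → SS M)),
      toSec I p ∈ Ideal.span (range fun j => toSec I (X j)) := by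
    intro p hp
    obtain ⟨q, rfl⟩ := Ideal.mem_span_range_iff_exists_fun.1 hp
    rw [map_sum]
    refine Ideal.sum_mem _ fun j _ => ?_
    rw [map_mul]
    exact Ideal.mul_mem_left _ _ (Ideal.subset_span ⟨j, rfl⟩)
  have h3 : R.aug (∑ k, (C (t k) : SS M) • ![v1, v] k - R.d.mulVec u) ∈
      Ideal.span (range fun j => toSec I (X j)) :=
    Ideal.sum_mem _ fun i _ => Ideal.mul_mem_right _ _ (hm _ (hu i))
  have hC : ∀ r : ℂ, (toSec I).toRingHom (C r) = algebraMap ℂ _ r := fun r => (toSec I).commutes r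
  rw [yfin_aug_sub, yfin_aug_d, sub_zero, Fin.sum_univ_two, yfin_aug_add, yfin_aug_smul,
    yfin_aug_smul, hC, hC] at h3
  change algebraMap ℂ _ (t 0) * R.aug v1 + algebraMap ℂ _ (t 1) * R.aug v ∈ _ at h3
  rw [e1, e2, mul_one] at h3
  obtain ⟨b, hb⟩ := Ideal.mem_span_range_iff_exists_fun.1 h3
  have ht1 : t 1 ≠ 0 := by
    intro h4
    apply ht
    have h5 := congrArg φ hb
    rw [h4, map_zero, zero_mul, add_zero, map_sum, Finset.sum_eq_zero (fun j _ => by
      rw [map_mul, hφ, eval_X, Pi.zero_apply, mul_zero]), AlgHom.commutes] at h5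
    funext k
    fin_cases k
    · exact h5.symm
    · exact h4
  refine ⟨-(t 0) * (t 1)⁻¹, fun j => algebraMap ℂ _ (t 1)⁻¹ * b j, ?_⟩
  have h6 : algebraMap ℂ (secRing I) (t 1)⁻¹ * algebraMap ℂ (secRing I) (t 1) = 1 := by
    rw [← map_mul, inv_mul_cancel₀ ht1, map_one]
  have h7 : ∑ j, toSec I (X j) * (algebraMap ℂ (secRing I) (t 1)⁻¹ * b j) =
      algebraMap ℂ (secRing I) (t 1)⁻¹ * ∑ j, b j * toSec I (X j) := by
    rw [Finset.mul_sum]
    exact Finset.sum_congr rfl fun j _ => by ring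
  rw [h7, hb, map_mul, map_neg]
  linear_combination (-a) * h6

theorem sec_eq_pol (hX : IsManifold I c) (hM : M = n + 1 + c) (hn : 1 ≤ n)
    (φ : secRing I →ₐ[ℂ] ℂ) (hφ : ∀ f, φ (toSec I f) = eval 0 f)
    (R : Cpx (toSec I).toRingHom ι c) (hs : Function.Surjective R.aug)
    (h0 : ¬ Hge R.deg (R.d.map (eval 0)) 0 2) : Function.Surjective (toSec I) := by
  have key : ∀ (m : ℕ) (a : secRing I), a ∈ Gr (secRing I) m → a ∈ (toSec I).range := by
    intro m
    induction m with
    | zero =>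
      intro a ha
      obtain ⟨r, rfl⟩ := Gr_zero hX hM a ha
      exact Subalgebra.algebraMap_mem _ r
    | succ k ih =>
      intro a ha
      obtain ⟨r, b, e⟩ := yfin_split φ hφ R hs h0 a
      choose P hP using fun j => exists_dec hX hM hn (b j)
      have hco : ∀ m, (Polynomial.C (algebraMap ℂ (secRing I) r) +
          Polynomial.X * ∑ j, Polynomial.C (toSec I (X j)) * P j).coeff (m + 1) =
          ∑ j, toSec I (X j) * (P j).coeff m := fun m => by
        rw [Polynomial.coeff_add, Polynomial.coeff_C_succ, zero_add, Polynomial.coeff_X_mul,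
          Polynomial.finsetSum_coeff]
        exact Finset.sum_congr rfl fun j _ => Polynomial.coeff_C_mul _
      have d1 : Dec a (Polynomial.C (algebraMap ℂ (secRing I) r) +
          Polynomial.X * ∑ j, Polynomial.C (toSec I (X j)) * P j) := by
        refine ⟨fun m => ?_, ?_⟩
        · cases m with
          | zero =>
            rw [Polynomial.coeff_add, Polynomial.coeff_C_zero, Polynomial.coeff_X_mul_zero, add_zero,
              Algebra.algebraMap_eq_smul_one]
            exact Submodule.smul_mem _ _ sec_isHom_one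
          | succ m =>
            rw [hco]
            refine Submodule.sum_mem _ fun j _ => ?_
            have h1 := IsHom.mul (isHom_pf (I := I) (isHomogeneous_X ℂ j)) ((hP j).1 m)
            rw [← Nat.cast_add, add_comm] at h1
            exact h1
        · rw [Polynomial.eval_add, Polynomial.eval_C, Polynomial.eval_mul, Polynomial.eval_X, one_mul,
            Polynomial.eval_finsetSum, e]
          refine congrArg _ (Finset.sum_congr rfl fun j _ => ?_)
          rw [Polynomial.eval_mul, Polynomial.eval_C, (hP j).2]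
      have d2 : Dec a (Polynomial.monomial (k + 1) a) := by
        refine ⟨fun i => ?_, by simp⟩
        rw [Polynomial.coeff_monomial]
        split_ifs with hi
        · exact hi ▸ ha
        · exact Submodule.zero_mem _
      have e2 := hco k
      rw [d1.unique hX d2, Polynomial.coeff_monomial, if_pos rfl] at e2
      rw [e2]
      exact Subalgebra.sum_mem _ fun j _ =>
        Subalgebra.mul_mem _ ⟨X j, rfl⟩ (ih _ ((hP j).1 k))
  intro a
  obtain ⟨P, hP⟩ := exists_dec hX hM hn a
  have h : a ∈ (toSec I).range := by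
    rw [← hP.2, Polynomial.eval_eq_sum_range]
    refine Subalgebra.sum_mem _ fun m _ => ?_
    rw [one_pow, mul_one]
    exact key m _ (hP.1 m)
  exact h

theorem gen_of_betti (hX : IsManifold I c) (R : Cpx (toSec I).toRingHom ι c) (hR : R.Ex 1)
    (hs : Function.Surjective R.aug) (hA : Function.Surjective (toSec I))
    (h1 : ¬ Hge R.deg (R.d.map (eval 0)) 1 (c + 1)) :
    ∃ (f : Fin c → SS M) (d : Fin c → ℕ), (∀ i, (f i).IsHomogeneous (d i)) ∧
      I = Ideal.span (range f) := by
  refine gen_of_dim hX.homog fun f hf => ?_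
  obtain ⟨v1, h2, e1⟩ := yfin_lift R hs 1
  have h3 : ∀ k, ∃ w : ι → SS M, (∀ i, w i ≠ 0 → R.deg i = 1) ∧ R.d.mulVec w = f k • v1 := by
    intro k
    have h4 : ∀ i, (f k • v1) i ≠ 0 → R.deg i = 0 := fun i hi =>
      h2 i fun h0 => hi (by rw [Pi.smul_apply, h0, smul_zero])
    obtain ⟨w, hw⟩ := hR (f k • v1) (yfin_d_zero R h4) (by
      rw [yfin_aug_smul, e1, mul_one]
      exact (toSec_eq_zero hX).2 (hf k))
    refine ⟨yfin_pr R (0 + 1) w, yfin_pr_deg R _ w, ?_⟩
    rw [yfin_d_pr, hw, one_smul]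
    funext i
    by_cases hi : R.deg i = 0
    · exact if_pos hi
    · have h5 : (f k • v1) i = 0 := by_contra fun h6 => hi (h4 i h6)
      rw [h5]
      exact if_neg hi
  choose w hw hw' using h3
  obtain ⟨t, u, ht, hu⟩ := yfin_rel h1 w hw fun k i => by
    rw [hw', Pi.smul_apply, smul_eq_mul, map_mul, yfin_ev0 hX (hf k), zero_mul]
  refine ⟨t, ht, ?_⟩
  choose s hs' using fun i => hA (R.ε i)
  obtain ⟨y, hy⟩ : ∃ y, y = ∑ k, (C (t k) : SS M) • w k - R.d.mulVec u := ⟨_, rfl⟩
  rw [← hy] at hu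
  obtain ⟨F, hF⟩ : ∃ F, F = ∑ k, t k • f k := ⟨_, rfl⟩
  have hFI : F ∈ I := by
    rw [hF]
    refine Ideal.sum_mem _ fun k _ => ?_
    rw [smul_eq_C_mul]
    exact Ideal.mul_mem_left _ _ (hf k)
  have e2 : R.d.mulVec y = F • v1 := by
    rw [hy, Matrix.mulVec_sub, Matrix.mulVec_mulVec, R.dd, Matrix.zero_mulVec, sub_zero,
      Matrix.mulVec_sum, hF, Finset.sum_smul]
    refine Finset.sum_congr rfl fun k _ => ?_
    rw [Matrix.mulVec_smul, hw', smul_smul, smul_eq_C_mul]
  have e3 : ∀ j, ∑ i, R.d i j * s i ∈ I := fun j => by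
    rw [← toSec_eq_zero hX, map_sum, ← R.ε_d j]
    exact Finset.sum_congr rfl fun i _ => by rw [map_mul, hs']; rfl
  have e4 : ∑ i, v1 i * s i - 1 ∈ I := by
    rw [← toSec_eq_zero hX, map_sub, map_one, map_sum, ← e1, sub_eq_zero]
    exact Finset.sum_congr rfl fun i _ => by rw [map_mul, hs']; rfl
  have e5 : F * ∑ i, v1 i * s i = ∑ j, y j * ∑ i, R.d i j * s i := by
    have e6 : ∀ i, F * (v1 i * s i) = ∑ j, y j * (R.d i j * s i) := fun i => by
      have e7 : ∑ j, R.d i j * y j = F * v1 i := congrFun e2 i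
      rw [← mul_assoc, ← e7, Finset.sum_mul]
      exact Finset.sum_congr rfl fun j _ => by ring
    simp only [Finset.mul_sum, e6]
    exact Finset.sum_comm
  have e8 : F = ∑ j, y j * ∑ i, R.d i j * s i - (∑ i, v1 i * s i - 1) * F := by
    rw [← e5]; ring
  rw [← hF, e8]
  exact sub_mem (Ideal.sum_mem _ fun j _ => Ideal.mul_mem_mul (hu j) (e3 j))
    (Ideal.mul_mem_mul (yfin_mem _ (yfin_ev0 hX e4)) hFI)

end Pool.Agent.HCF
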