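import Pool.Agent.P.MP_f644fa_ag.YFree

/-! Local structure of the resolution; from the Betti numbers to the generators of the ideal. -/

noncomputable section
namespace Pool.Agent.HCF
open MvPolynomial Module Set

variable {M : ℕ} {I : Ideal (SS M)} {c n : ℕ}

variable {ι : Type} [Fintype ι] [DecidableEq ι]

theorem yfin0_der (t : Fin M → SS M) :
    ∃ D : Derivation ℂ (SS M) (SS M), ∀ p, D p = ∑ j, t j * pderiv j p := by
  refine ⟨∑ j, t j • pderiv j, fun p => ?_⟩
  have := map_sum (Derivation.coeFnAddMonoidHom (R := ℂ) (A := SS M) (M := SS M))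
    (fun j => t j • pderiv j) Finset.univ
  have h2 := congrFun this p
  rw [Finset.sum_apply] at h2
  exact h2

theorem yfin0_den {κ : Type} [Fintype κ] (ε : κ → secRing I) (j : Fin M) :
    ∃ K : ℕ, ∀ i, ∃ s : SS M, toSec I s = toSec I (X j ^ K) * ε i := by
  choose k p hp using fun i => (ε i).2 j
  refine ⟨∑ i, k i, fun i => ?_⟩
  obtain ⟨e, he⟩ : ∃ e, ∑ i, k i = e + k i :=
    ⟨∑ i, k i - k i, (Nat.sub_add_cancel
      (Finset.single_le_sum (f := k) (fun _ _ => Nat.zero_le _) (Finset.mem_univ i))).symm⟩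
  refine ⟨X j ^ e * p i, Subtype.ext (funext fun y => ?_)⟩
  have h1 : (toSec I (X j ^ ∑ i, k i) * ε i).1 y = eval y.1 (X j ^ ∑ i, k i) * (ε i).1 y := by
    rw [← pf_apply]
    rfl
  rw [h1, toSec_val, pf_apply, he, map_mul, map_pow, map_pow, eval_X, ← hp i y, pow_add, mul_assoc]

theorem exists_LD (hX : IsManifold I c) (R : Cpx (toSec I).toRingHom ι c) (hR : R.Ex 1)
    (hs : Function.Surjective R.aug) (x : cone I) : ∃ g : SS M, eval x.1 g ≠ 0 ∧
      Nonempty (LD (toSec I).toRingHom R.deg R.d c g) := by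
  have := hX.isDomain_sec
  obtain ⟨F⟩ := hX.exists_PF x.2
  choose D hD using fun l => yfin0_der (F.b l)
  obtain ⟨k, hk⟩ := kos_loc F.f F.δ D fun l j => by
    rw [hD, ← F.Jb j l]
    exact Finset.sum_congr rfl fun _ _ => mul_comm _ _
  obtain ⟨j, hj⟩ := Function.ne_iff.1 x.2.1
  obtain ⟨K, hK⟩ := yfin0_den R.ε j
  have hne : eval x.1 (X j ^ K * F.δ ^ k * F.g) ≠ 0 := by
    rw [map_mul, map_mul, map_pow, map_pow, eval_X]
    exact mul_ne_zero (mul_ne_zero (pow_ne_zero _ hj) (pow_ne_zero _ F.δ_ne)) F.g_ne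
  refine ⟨(X j ^ K * F.δ ^ k * F.g) ^ (c + 1), by rw [map_pow]; exact pow_ne_zero _ hne, ?_⟩
  refine R.exists_LD hR hs (f := F.f) (fun i => (toSec_eq_zero hX).2 (F.f_mem i))
    (fun h => hne (x.2.2 _ ((toSec_eq_zero hX).1 h))) (fun v hv h0 => ?_) fun i => ?_
  · obtain ⟨b, hb⟩ := hk (F.g • v) (by rw [map_smul, hv, smul_zero])
      (F.g_mul _ ((toSec_eq_zero hX).1 h0))
    exact ⟨(X j ^ K : SS M) • b, by rw [map_smul, hb, smul_smul, smul_smul]⟩
  · obtain ⟨s, hs'⟩ := hK i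
    refine ⟨F.δ ^ k * F.g * s, ?_⟩
    have h1 : (toSec I).toRingHom s = (toSec I).toRingHom (X j ^ K) * R.ε i := hs'
    simp only [map_mul]
    rw [h1]
    ring

end Pool.Agent.HCF
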