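import Pool.Agent.P.MP_f644fa_ag.YFree0

/-! The section ring is free over the ring generated by the linear forms. -/

noncomputable section
namespace Pool.Agent.HCF
open MvPolynomial Module Set

variable {M : ℕ} {I : Ideal (SS M)} {c n : ℕ}

theorem yfree_dec_mon {a : secRing I} {m : ℕ} (ha : a ∈ Gr (secRing I) m) :
    Dec a (Polynomial.monomial m a) := by
  refine ⟨fun k => ?_, by simp⟩
  rw [Polynomial.coeff_monomial]
  split_ifs with h
  · exact h ▸ ha
  · exact zero_mem _

theorem yfree_dec_sum {κ : Type} (s : Finset κ) {a : κ → secRing I}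
    {P : κ → Polynomial (secRing I)} (h : ∀ k, Dec (a k) (P k)) :
    Dec (∑ k ∈ s, a k) (∑ k ∈ s, P k) := by
  refine ⟨fun m => ?_, ?_⟩
  · rw [Polynomial.finsetSum_coeff]
    exact Submodule.sum_mem _ fun k _ => (h k).1 m
  · rw [Polynomial.eval_finsetSum]
    exact Finset.sum_congr rfl fun k _ => (h k).2

theorem yfree_dec_add {a b : secRing I} {P Q : Polynomial (secRing I)} (h : Dec a P)
    (h' : Dec b Q) : Dec (a + b) (P + Q) :=
  ⟨fun m => by rw [Polynomial.coeff_add]; exact add_mem (h.1 m) (h'.1 m),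
    by rw [Polynomial.eval_add, h.2, h'.2]⟩

theorem yfree_lin (a : Fin M → ℂ) : toSec I (lin a) ∈ Gr (secRing I) (1 : ℕ) :=
  isHom_pf (lin_hom a)

/-- sections of large degree lie in the ideal of the linear forms -/
theorem yfree_large (hX : IsManifold I c) (hM : M = n + 1 + c) (hn : 1 ≤ n)
    {L : Fin (n + 1) → Fin M → ℂ} (hL : Bpf I L) : ∃ m₁ : ℕ, ∀ m ≥ m₁,
      ∀ a ∈ Gr (secRing I) (m : ℕ), a ∈ Ideal.span (range fun i => toSec I (lin (L i))) := by
  obtain ⟨m₀, hm₀⟩ := large_deg hX hM hn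
  obtain ⟨K, hK⟩ := trdeg_exists_K hX hL
  refine ⟨max m₀ (M * K + 1), fun m hm a ha => ?_⟩
  obtain ⟨f, hf⟩ := hm₀ m (le_of_max_le_left hm) a ha
  have hf' : pf I f = a.1 := hf
  have h1 : a = toSec I (homogeneousComponent m f) := by
    refine Subtype.ext ?_
    rw [toSec_val, ← hf']
    exact hX.hom_rep (hf' ▸ ha)
  have h2 : homogeneousComponent m f ∈ I ⊔ Ideal.span (range fun i => lin (L i)) := by
    rw [(homogeneousComponent m f).as_sum]
    refine Ideal.sum_mem _ fun s hs => trdeg_mon_mem hK s ?_ _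
    have h3 : s.degree = m := by
      have := homogeneousComponent_isHomogeneous m f (mem_support_iff.mp hs)
      rw [← this, Finsupp.degree_eq_weight_one]
      rfl
    have := le_of_max_le_right hm
    omega
  obtain ⟨u, hu, v, hv, huv⟩ := Submodule.mem_sup.mp h2
  obtain ⟨w, rfl⟩ := Ideal.mem_span_range_iff_exists_fun.mp hv
  rw [h1, ← huv, map_add, (toSec_eq_zero hX).2 hu, zero_add, map_sum]
  refine Ideal.sum_mem _ fun i _ => ?_
  rw [map_mul]
  exact Ideal.mul_mem_left _ _ (Ideal.subset_span ⟨i, rfl⟩)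

theorem yfree_eval {a : secRing I} {P : Polynomial (secRing I)} (h : Dec a P) :
    a = ∑ m ∈ Finset.range (P.natDegree + 1), P.coeff m := by
  rw [← h.2, Polynomial.eval_eq_sum_range]
  simp only [one_pow, mul_one]

/-- a homogeneous basis modulo an ideal that contains all elements of large degree -/
theorem yfree_basis (hX : IsManifold I c) (hM : M = n + 1 + c) (hn : 1 ≤ n)
    (J : Ideal (secRing I)) {m₁ : ℕ} (hJ : ∀ m ≥ m₁, ∀ a ∈ Gr (secRing I) (m : ℕ), a ∈ J) :
    ∃ (d : ℕ) (b : Fin d → secRing I) (e : Fin d → ℕ), (∀ i, b i ∈ Gr (secRing I) (e i)) ∧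
      (∀ t : Fin d → ℂ, ∑ i, t i • b i ∈ J → t = 0) ∧
      ∀ a : secRing I, ∃ t : Fin d → ℂ, a - ∑ i, t i • b i ∈ J := by
  let N : Submodule ℂ (secRing I) := J.restrictScalars ℂ
  let H : Set (secRing I) := {a | ∃ m : ℕ, a ∈ Gr (secRing I) m}
  obtain ⟨s, hs, hsp, hli⟩ := exists_linearIndependent ℂ (N.mkQ '' H)
  let W : Submodule ℂ (secRing I) := ⨆ m : Fin m₁, Gr (secRing I) (m : ℕ)
  have hW : FiniteDimensional ℂ W := by
    have := fun m : Fin m₁ => fin_Gr_nat hX hM (I := I) m
    exact Submodule.finiteDimensional_iSup _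
  have hfin : s.Finite := by
    have h1 : ∀ q : s, q.1 ∈ W.map N.mkQ := by
      rintro ⟨q, hq⟩
      obtain ⟨a, ⟨m, hm⟩, rfl⟩ := hs hq
      by_cases h : m < m₁
      · exact Submodule.mem_map_of_mem (Submodule.mem_iSup_of_mem (⟨m, h⟩ : Fin m₁) hm)
      · have h2 : N.mkQ a = 0 := (Submodule.Quotient.mk_eq_zero N).2 (hJ m (not_lt.1 h) a hm)
        simp only [h2]
        exact zero_mem _
    have h3 : LinearIndependent ℂ fun q : s => (⟨q.1, h1 q⟩ : W.map N.mkQ) :=
      LinearIndependent.of_comp (W.map N.mkQ).subtype hli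
    exact Set.finite_coe_iff.1 h3.finite
  have := hfin.fintype
  have hch : ∀ q : s, ∃ (a : secRing I) (m : ℕ), a ∈ Gr (secRing I) m ∧ N.mkQ a = q.1 := fun q => by
    obtain ⟨a, ⟨m, hm⟩, h⟩ := hs q.2
    exact ⟨a, m, hm, h⟩
  choose b e hb hq using hch
  let E := (Fintype.equivFin s).symm
  have hli' : LinearIndependent ℂ fun i => N.mkQ (b (E i)) := by
    simp only [hq]
    exact hli.comp E E.injective
  refine ⟨Fintype.card s, fun i => b (E i), fun i => e (E i), fun i => hb _, fun t ht => ?_,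
    fun a => ?_⟩
  · have h1 : N.mkQ (∑ i, t i • b (E i)) = 0 := (Submodule.Quotient.mk_eq_zero N).2 ht
    simp only [map_sum, map_smul] at h1
    exact funext (Fintype.linearIndependent_iff.1 hli' t h1)
  · have h1 : N.mkQ a ∈ Submodule.span ℂ (range fun i => N.mkQ (b (E i))) := by
      have h2 : (range fun i => N.mkQ (b (E i))) = s := by
        ext q
        constructor
        · rintro ⟨i, rfl⟩
          simp only [hq]
          exact (E i).2
        · intro h
          exact ⟨E.symm ⟨q, h⟩, by simp only [hq, Equiv.apply_symm_apply]⟩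
      rw [h2, hsp]
      obtain ⟨P, hP⟩ := exists_dec hX hM hn a
      rw [yfree_eval hP, map_sum]
      exact Submodule.sum_mem _ fun m _ => Submodule.subset_span ⟨_, ⟨m, hP.1 m⟩, rfl⟩
    obtain ⟨t, ht⟩ := (Submodule.mem_span_range_iff_exists_fun ℂ).1 h1
    refine ⟨t, (Submodule.Quotient.mk_eq_zero N).1 ?_⟩
    change N.mkQ _ = 0
    simp only [map_sub, map_sum, map_smul, ht, sub_self]

theorem exists_free (hX : IsManifold I c) (hM : M = n + 1 + c) (hn : 1 ≤ n)
    {L : Fin (n + 1) → Fin M → ℂ} (hL : Bpf I L) (hK : KEx fun i => toSec I (lin (L i))) :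
    ∃ (d : ℕ) (b : Fin d → secRing I), Function.Bijective
      fun v : Fin d → MvPolynomial (Fin (n + 1)) ℂ =>
        ∑ i, aeval (fun i => toSec I (lin (L i))) (v i) * b i := by
  obtain ⟨m₁, hm₁⟩ := yfree_large hX hM hn hL
  obtain ⟨d, b, e, hb, hi, hsp⟩ := yfree_basis hX hM hn _ hm₁
  set l : Fin (n + 1) → secRing I := fun i => toSec I (lin (L i)) with hl
  let N : AddSubmonoid (secRing I) :=
    { carrier := {a | ∃ v : Fin d → MvPolynomial (Fin (n + 1)) ℂ, ∑ i, aeval l (v i) * b i = a}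
      zero_mem' := ⟨0, by simp⟩
      add_mem' := by
        rintro _ _ ⟨v, rfl⟩ ⟨w, rfl⟩
        exact ⟨v + w, by simp only [Pi.add_apply, map_add, add_mul, Finset.sum_add_distrib]⟩ }
  have hmul : ∀ (p : MvPolynomial (Fin (n + 1)) ℂ), ∀ a ∈ N, aeval l p * a ∈ N := by
    rintro p _ ⟨v, rfl⟩
    exact ⟨fun i => p * v i, by simp only [map_mul, mul_assoc, Finset.mul_sum]⟩
  have hbN : ∀ (i : Fin d) (t : ℂ), t • b i ∈ N := fun i t => by
    refine ⟨Pi.single i (C t), ?_⟩
    rw [Finset.sum_eq_single i (fun j _ hj => by simp [Pi.single_eq_of_ne hj]) (by simp),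
      Pi.single_eq_same, aeval_C, Algebra.smul_def]
  have key : ∀ m : ℕ, ∀ a ∈ Gr (secRing I) m, a ∈ N := by
    intro m
    induction m using Nat.strong_induction_on with
    | _ m ih =>
      intro a ha
      obtain ⟨t, ht⟩ := hsp a
      obtain ⟨w, hw⟩ := Ideal.mem_span_range_iff_exists_fun.mp ht
      choose P hP using fun i => exists_dec hX hM hn (w i)
      have h1 : Dec (∑ i, t i • b i + ∑ i, w i * l i)
          (∑ i, Polynomial.monomial (e i) (t i • b i) + ∑ i, P i * Polynomial.monomial 1 (l i)) :=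
        yfree_dec_add (yfree_dec_sum _ fun i => yfree_dec_mon (Submodule.smul_mem _ _ (hb i)))
          (yfree_dec_sum _ fun i => (hP i).mul (yfree_dec_mon (yfree_lin (L i))))
      rw [hw, add_sub_cancel] at h1
      have h2 := congrArg (fun Q => Polynomial.coeff Q m) (Dec.unique hX (yfree_dec_mon ha) h1)
      simp only [Polynomial.coeff_monomial_same, Polynomial.coeff_add,
        Polynomial.finsetSum_coeff] at h2
      rw [h2]
      refine add_mem (sum_mem fun i _ => ?_) (sum_mem fun i _ => ?_)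
      · rw [Polynomial.coeff_monomial]
        split_ifs
        · exact hbN i _
        · exact zero_mem _
      · rcases m with _ | k
        · rw [Polynomial.mul_coeff_zero, Polynomial.coeff_monomial, if_neg one_ne_zero, mul_zero]
          exact zero_mem _
        · rw [Polynomial.coeff_mul_monomial, mul_comm]
          have h3 := hmul (X i) _ (ih k (Nat.lt_succ_self k) _ ((hP i).1 k))
          rwa [aeval_X] at h3
  have hs : Function.Surjective fun v : Fin d → MvPolynomial (Fin (n + 1)) ℂ =>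
      ∑ i, aeval l (v i) * b i := fun a => by
    obtain ⟨P, hP⟩ := exists_dec hX hM hn a
    have h1 : a ∈ N := by
      rw [yfree_eval hP]
      exact sum_mem fun m _ => key m _ (hP.1 m)
    exact h1
  exact ⟨d, b, indep_of_kex hK b hs hi, hs⟩

theorem yfree_li (hX : IsManifold I c) (hM : M = n + 1 + c) {L : Fin (n + 1) → Fin M → ℂ}
    (hL : Bpf I L) : LinearIndependent ℂ L := by
  have h := (hL.indep hX hM).linearIndependent
  rw [Fintype.linearIndependent_iff] at h ⊢
  intro g hg
  refine h g (Subtype.ext (funext fun x => ?_))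
  have h1 : ∀ j, ∑ i, g i * L i j = 0 := fun j => by
    simpa only [Finset.sum_apply, Pi.smul_apply, smul_eq_mul, Pi.zero_apply] using congrFun hg j
  have h2 : ((∑ i, g i • linP I L i : Pol I) : cone I → ℂ) x = ∑ i, g i * ∑ j, L i j * x.1 j := by
    rw [AddSubmonoidClass.coe_finsetSum, Finset.sum_apply]
    refine Finset.sum_congr rfl fun i _ => ?_
    rw [← eval_lin, ← pf_apply]
    rfl
  rw [h2]
  simp only [Finset.mul_sum, ← mul_assoc]
  rw [Finset.sum_comm]
  simp only [← Finset.sum_mul, h1, zero_mul, Finset.sum_const_zero]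
  rfl

theorem exists_res (hX : IsManifold I c) (hM : M = n + 1 + c) (hn : 1 ≤ n)
    {L : Fin (n + 1) → Fin M → ℂ} (hL : Bpf I L) (hK : KEx fun i => toSec I (lin (L i))) :
    ∃ (d : ℕ) (R : Cpx (toSec I).toRingHom (Finset (Fin c) × Fin d) c),
      R.Ex 1 ∧ Function.Surjective R.aug := by
  obtain ⟨d, b, hb⟩ := exists_free hX hM hn hL hK
  obtain ⟨Z, θ, h1, h2⟩ := exists_coord hM L (yfree_li hX hM hL)
  let ψ : MvPolynomial (Fin (n + 1)) ℂ →+* secRing I :=
    (aeval fun i => toSec I (lin (L i)) : _ →ₐ[ℂ] secRing I).toRingHom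
  have h := exists_res_abs ψ b hb fun k => toSec I (lin (Z k))
  have e : (eval₂Hom ψ fun k => toSec I (lin (Z k))) = (toSec I).toRingHom.comp θ.toRingHom := by
    refine MvPolynomial.ringHom_ext (fun p => ?_) fun k => ?_
    · rw [eval₂Hom_C]
      change aeval (fun i => toSec I (lin (L i))) p = toSec I (θ (C p))
      rw [h2, ← comp_aeval_apply]
    · rw [eval₂Hom_X']
      change _ = toSec I (θ (X k))
      rw [h1]
  rw [e] at h
  obtain ⟨R, hR, hs⟩ := h
  exact ⟨d, R.transport θ hR hs⟩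

end Pool.Agent.HCF
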