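import Pool.Agent.P.MP_f644fa_ag.YRes1

/-! A finite free resolution. -/

noncomputable section
namespace Pool.Agent.HCF
open MvPolynomial Matrix

/-- graded Nakayama lemma -/
theorem gen_of_dim {M c : ℕ} {I : Ideal (SS M)} (hI : ∀ f ∈ I, ∀ d, homogeneousComponent d f ∈ I)
    (h : ∀ f : Fin (c + 1) → SS M, (∀ k, f k ∈ I) → ∃ t : Fin (c + 1) → ℂ, t ≠ 0 ∧
      ∑ k, t k • f k ∈ Ideal.span (Set.range X) * I) :
    ∃ (f : Fin c → SS M) (d : Fin c → ℕ), (∀ i, (f i).IsHomogeneous (d i)) ∧
      I = Ideal.span (Set.range f) := by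
  classical
  let J : Submodule ℂ (SS M) := (Ideal.span (Set.range X) * I : Ideal (SS M)).restrictScalars ℂ
  let P : ℕ → Prop := fun e => ∃ f : Fin e → SS M, (∀ i, f i ∈ I ∧ ∃ d, (f i).IsHomogeneous d) ∧
    LinearIndependent ℂ fun i => J.mkQ (f i)
  have P0 : P 0 := ⟨fun i => i.elim0, fun i => i.elim0, linearIndependent_empty_type⟩
  have Pc : ¬ P (c + 1) := by
    rintro ⟨f, h1, h2⟩
    obtain ⟨t, ht, hs⟩ := h f fun k => (h1 k).1
    refine ht (funext (Fintype.linearIndependent_iff.1 h2 t ?_))
    have : J.mkQ (∑ k, t k • f k) = 0 := (Submodule.Quotient.mk_eq_zero J).2 hs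
    simpa only [map_sum, map_smul] using this
  obtain ⟨e, he, ⟨f, f1, f2⟩, hn⟩ : ∃ e ≤ c, P e ∧ ¬ P (e + 1) := by
    by_contra hc
    have key : ∀ e ≤ c + 1, P e := by
      intro e
      induction e with
      | zero => exact fun _ => P0
      | succ e ih =>
        intro h1
        by_contra h2
        exact hc ⟨e, by omega, ih (by omega), h2⟩
    exact Pc (key _ le_rfl)
  choose fI dg fd using f1
  have hspan : ∀ g ∈ I, ∀ d, g.IsHomogeneous d → ∃ t : Fin e → ℂ,
      g - ∑ i, t i • f i ∈ Ideal.span (Set.range X) * I := by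
    intro g hg d hd
    have : J.mkQ g ∈ Submodule.span ℂ (Set.range fun i => J.mkQ (f i)) := by
      by_contra hc
      refine hn ⟨Fin.cons g f, fun i => Fin.cases ⟨hg, d, hd⟩ (fun i => ⟨fI i, dg i, fd i⟩) i, ?_⟩
      have := (linearIndependent_finCons (K := ℂ) (x := J.mkQ g)
        (v := fun i => J.mkQ (f i))).2 ⟨f2, hc⟩
      have e1 : (fun i => J.mkQ ((Fin.cons g f : Fin (e + 1) → SS M) i)) =
          Fin.cons (J.mkQ g) fun i => J.mkQ (f i) := by
        funext i
        exact Fin.cases rfl (fun _ => rfl) i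
      rw [e1]; exact this
    obtain ⟨t, ht⟩ := (Submodule.mem_span_range_iff_exists_fun ℂ).1 this
    refine ⟨t, (Submodule.Quotient.mk_eq_zero J).1 ?_⟩
    have e2 : J.mkQ (g - ∑ i, t i • f i) = 0 := by
      rw [map_sub, map_sum, ← ht]
      simp only [map_smul, sub_self]
    exact e2
  have hcomp : ∀ (K : Ideal (SS M)) (d n : ℕ) (p : SS M), p.IsHomogeneous n → (d = n → p ∈ K) →
      homogeneousComponent d p ∈ K := by
    intro K d n p hp hK
    rw [homogeneousComponent_of_mem (show p ∈ homogeneousSubmodule _ _ n from hp)]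
    split_ifs with h1
    · exact hK h1
    · exact K.zero_mem
  have main : ∀ d, ∀ g ∈ I, g.IsHomogeneous d → g ∈ Ideal.span (Set.range f) := by
    intro d
    induction d using Nat.strong_induction_on with
    | _ d ih =>
      intro g hg hd
      obtain ⟨t, ht⟩ := hspan g hg d hd
      have hr : ∀ r ∈ Ideal.span (Set.range X) * I,
          homogeneousComponent d r ∈ Ideal.span (Set.range f) := by
        intro r hr
        refine Submodule.mul_induction_on hr (fun a ha b hb => ?_) fun x y hx hy => ?_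
        · obtain ⟨u, rfl⟩ := Ideal.mem_span_range_iff_exists_fun.1 ha
          rw [Finset.sum_mul, map_sum]
          refine Ideal.sum_mem _ fun j _ => ?_
          rw [mul_comm (u j), mul_assoc, ← sum_homogeneousComponent (u j * b), Finset.mul_sum,
            map_sum]
          refine Ideal.sum_mem _ fun i _ => hcomp _ d (1 + i) _
            ((isHomogeneous_X _ j).mul (homogeneousComponent_isHomogeneous i _)) fun hi => ?_
          exact Ideal.mul_mem_left _ _ (ih i (by omega) _ (hI _ (I.mul_mem_left _ hb) i)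
            (homogeneousComponent_isHomogeneous i _))
        · rw [map_add]; exact Ideal.add_mem _ hx hy
      have h1 := hr _ ht
      have h2 : homogeneousComponent d g = g := by
        rw [homogeneousComponent_of_mem (show g ∈ homogeneousSubmodule _ _ d from hd), if_pos rfl]
      have h3 : homogeneousComponent d (∑ i, t i • f i) ∈ Ideal.span (Set.range f) := by
        rw [map_sum]
        refine Ideal.sum_mem _ fun i _ => ?_
        rw [map_smul, smul_eq_C_mul]
        exact Ideal.mul_mem_left _ _ (hcomp _ d _ _ (fd i) fun _ => Ideal.subset_span ⟨i, rfl⟩)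
      rw [map_sub, h2] at h1
      simpa using Ideal.add_mem _ h1 h3
  refine ⟨fun i => if h : (i : ℕ) < e then f ⟨i, h⟩ else 0,
    fun i => if h : (i : ℕ) < e then dg ⟨i, h⟩ else 0, fun i => ?_, le_antisymm (fun g hg => ?_) ?_⟩
  · by_cases h : (i : ℕ) < e
    · simp only [dif_pos h]; exact fd _
    · simp only [dif_neg h]; exact isHomogeneous_zero _ _ _
  · rw [← sum_homogeneousComponent g]
    refine Ideal.sum_mem _ fun i _ => Ideal.span_mono ?_
      (main i _ (hI g hg i) (homogeneousComponent_isHomogeneous i _))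
    rintro _ ⟨k, rfl⟩
    exact ⟨⟨k, by omega⟩, by simp⟩
  · rw [Ideal.span_le]
    rintro _ ⟨i, rfl⟩
    by_cases h : (i : ℕ) < e
    · simp only [dif_pos h]; exact fI _
    · simp only [dif_neg h]; exact I.zero_mem

end Pool.Agent.HCF
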