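import Pool.Agent.P.MP_f644fa_ag.ToSec
import Pool.Agent.P.MP_f644fa_ag.YRes

/-! The section ring is free over the ring generated by the linear forms. -/

noncomputable section
namespace Pool.Agent.HCF
open MvPolynomial Module Set

variable {M : ℕ} {I : Ideal (SS M)} {c n : ℕ}

theorem YFree0_dec {τ : Type} [Fintype τ] (p : MvPolynomial τ ℂ) :
    ∃ q : τ → MvPolynomial τ ℂ, p = C (constantCoeff p) + ∑ j, X j * q j := by
  classical
  induction p using MvPolynomial.induction_on with
  | C a => exact ⟨0, by simp⟩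
  | add p q hp hq =>
    obtain ⟨a, ha⟩ := hp
    obtain ⟨b, hb⟩ := hq
    refine ⟨a + b, ?_⟩
    simp only [map_add, Pi.add_apply, mul_add, Finset.sum_add_distrib]
    linear_combination ha + hb
  | mul_X p i _ =>
    refine ⟨Pi.single i p, ?_⟩
    rw [Finset.sum_eq_single i (fun j _ hj => by rw [Pi.single_eq_of_ne hj, mul_zero])
      (fun h => absurd (Finset.mem_univ i) h)]
    simp [mul_comm]

theorem YFree0_empty {τ R N : Type} [LinearOrder τ] [Fintype τ] [CommRing R] [AddCommGroup N]
    [Module R N] (a : τ → R) (u : Finset τ → N) : iov N a u ∅ = ∑ j, a j • u {j} := by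
  simp [iov, io_apply, sg, Finset.sum_apply]

theorem YFree0_apply {τ R N : Type} [LinearOrder τ] [Fintype τ] [CommRing R] [AddCommGroup N]
    [Module R N] (a : τ → R) (u : Finset τ → N) (J : Finset τ)
    (h : ∀ j, j ∉ J → u (insert j J) = 0) : iov N a u J = 0 := by
  simp only [iov, LinearMap.sum_apply, Finset.sum_apply, LinearMap.smul_apply, Pi.smul_apply,
    io_apply]
  refine Finset.sum_eq_zero fun j _ => ?_
  by_cases hj : j ∈ J
  · rw [if_pos hj, smul_zero]
  · rw [if_neg hj, h j hj, smul_zero, smul_zero]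

theorem YFree0_step {τ A : Type} [LinearOrder τ] [Fintype τ] [CommRing A] [Algebra ℂ A]
    {l : τ → A} (hl : KEx l) {d : ℕ} (F : (Fin d → MvPolynomial τ ℂ) →+ A)
    (hF : ∀ j v, F ((X j : MvPolynomial τ ℂ) • v) = l j • F v) (hs : Function.Surjective F)
    (m : τ → Fin d → MvPolynomial τ ℂ) (h0 : F (∑ j, (X j : MvPolynomial τ ℂ) • m j) = 0) :
    ∃ m' : τ → Fin d → MvPolynomial τ ℂ, (∀ j, F (m' j) = 0) ∧
      ∑ j, (X j : MvPolynomial τ ℂ) • m j = ∑ j, (X j : MvPolynomial τ ℂ) • m' j := by
  classical
  let w : Finset τ → Fin d → MvPolynomial τ ℂ := fun J => if J.card = 1 then ∑ j ∈ J, m j else 0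
  have hw : ∀ j, w {j} = m j := fun j => by simp [w]
  have h1 : iov A l (fun J => F (w J)) = 0 := by
    rw [← iov_nat F (a := fun j => (X j : MvPolynomial τ ℂ)) hF w]
    funext J
    rcases Finset.eq_empty_or_nonempty J with rfl | hJ
    · rw [YFree0_empty]
      simp only [hw]
      exact h0
    · rw [YFree0_apply, map_zero]
      · rfl
      · intro j hj
        have h2 : (insert j J).card ≠ 1 := by
          rw [Finset.card_insert_of_notMem hj]
          have := hJ.card_pos
          omega
        simp only [w, if_neg h2]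
  obtain ⟨y, hy⟩ := hl (fun J => F (w J)) (by simp [w]) h1
  choose y' hy' using fun J => hs (y J)
  have h3 := iov_nat F (a := fun j => (X j : MvPolynomial τ ℂ)) hF y'
  refine ⟨fun j => m j - iov (Fin d → MvPolynomial τ ℂ) (fun j => (X j : MvPolynomial τ ℂ)) y' {j},
    fun j => ?_, ?_⟩
  · have h4 := congrFun h3 {j}
    have h5 : (fun J => F (y' J)) = y := funext hy'
    rw [h5, hy] at h4
    simp only [hw] at h4
    rw [map_sub, h4, sub_self]
  · have h6 := congrFun (LinearMap.congr_fun
      (iov_sq (N := Fin d → MvPolynomial τ ℂ) fun j => (X j : MvPolynomial τ ℂ)) y') ∅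
    rw [Module.End.mul_apply, YFree0_empty] at h6
    simp only [smul_sub, Finset.sum_sub_distrib]
    rw [h6]
    simp

/-- independence from the exactness of the Koszul complex -/
theorem indep_of_kex {τ A : Type} [LinearOrder τ] [Fintype τ] [CommRing A] [Algebra ℂ A] {l : τ → A}
    (hl : KEx l) {d : ℕ} (b : Fin d → A)
    (hs : Function.Surjective fun v : Fin d → MvPolynomial τ ℂ => ∑ i, aeval l (v i) * b i)
    (hi : ∀ t : Fin d → ℂ, ∑ i, t i • b i ∈ Ideal.span (range l) → t = 0) :
    Function.Injective fun v : Fin d → MvPolynomial τ ℂ => ∑ i, aeval l (v i) * b i := by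
  classical
  let F : (Fin d → MvPolynomial τ ℂ) →+ A :=
    { toFun := fun v => ∑ i, aeval l (v i) * b i
      map_zero' := by simp
      map_add' := fun u v => by simp [add_mul, Finset.sum_add_distrib] }
  have hFa : ∀ v, F v = ∑ i, aeval l (v i) * b i := fun _ => rfl
  have hF : ∀ j v, F ((X j : MvPolynomial τ ℂ) • v) = l j • F v := fun j v => by
    simp [hFa, Finset.mul_sum, mul_assoc]
  have step : ∀ v, F v = 0 → ∃ m' : τ → Fin d → MvPolynomial τ ℂ, (∀ j, F (m' j) = 0) ∧
      v = ∑ j, (X j : MvPolynomial τ ℂ) • m' j := by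
    intro v hv
    choose q hq using fun i => YFree0_dec (v i)
    have e1 : v = (fun i => C (constantCoeff (v i))) +
        ∑ j, (X j : MvPolynomial τ ℂ) • fun i => q i j := by
      funext i
      simp only [Pi.add_apply, Finset.sum_apply, Pi.smul_apply, smul_eq_mul]
      exact hq i
    have e2 : F (fun i => C (constantCoeff (v i))) = ∑ i, constantCoeff (v i) • b i := by
      simp [hFa, Algebra.smul_def]
    have e3 : (fun i => constantCoeff (v i)) = 0 := by
      apply hi
      have e4 : ∑ i, constantCoeff (v i) • b i = -∑ j, l j • F fun i => q i j := by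
        rw [← e2, eq_neg_iff_add_eq_zero, ← hv]
        conv_rhs => rw [e1]
        rw [map_add, map_sum]
        simp only [hF]
      rw [e4]
      exact neg_mem (Ideal.sum_mem _ fun j _ =>
        Ideal.mul_mem_right _ _ (Ideal.subset_span ⟨j, rfl⟩))
    have e5 : v = ∑ j, (X j : MvPolynomial τ ℂ) • fun i => q i j := by
      have e6 : (fun i => (C (constantCoeff (v i)) : MvPolynomial τ ℂ)) = 0 := by
        funext i
        have := congrFun e3 i
        simp only [Pi.zero_apply] at this
        rw [this, map_zero]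
        rfl
      rw [e6, zero_add] at e1
      exact e1
    obtain ⟨m', h1, h2⟩ := YFree0_step hl F hF hs (fun j i => q i j) (e5 ▸ hv)
    exact ⟨m', h1, e5.trans h2⟩
  have pw : ∀ t : ℕ, ∀ v, F v = 0 → ∀ i,
      v i ∈ (Ideal.span (range (X : τ → MvPolynomial τ ℂ))) ^ t := by
    intro t
    induction t with
    | zero => intro v _ i; simp
    | succ t ih =>
      intro v hv i
      obtain ⟨m', h1, h2⟩ := step v hv
      rw [h2, pow_succ']
      simp only [Finset.sum_apply, Pi.smul_apply, smul_eq_mul]
      exact Ideal.sum_mem _ fun j _ =>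
        Ideal.mul_mem_mul (Ideal.subset_span ⟨j, rfl⟩) (ih _ (h1 j) i)
  have hne : Ideal.span (range (X : τ → MvPolynomial τ ℂ)) ≠ ⊤ := by
    intro h
    have h1 : Ideal.span (range (X : τ → MvPolynomial τ ℂ)) ≤
        RingHom.ker (constantCoeff : MvPolynomial τ ℂ →+* ℂ) := by
      rw [Ideal.span_le]
      rintro _ ⟨j, rfl⟩
      simp
    have h2 := h1 (h ▸ Submodule.mem_top : (1 : MvPolynomial τ ℂ) ∈ _)
    simp at h2
  have hk := Ideal.iInf_pow_eq_bot_of_isDomain _ hne
  refine (injective_iff_map_eq_zero F).2 fun v hv => funext fun i => ?_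
  have h3 : v i ∈ (⨅ t : ℕ, (Ideal.span (range (X : τ → MvPolynomial τ ℂ))) ^ t) :=
    Ideal.mem_iInf.2 fun t => pw t v hv i
  rw [hk] at h3
  exact h3

end Pool.Agent.HCF
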