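import Pool.Agent.P.MP_f644fa_ag.Basic
import Pool.Agent.P.MP_f644fa_ag.Loc

/-! Sets of polynomials that are stable under the tangent vector fields. -/

noncomputable section
namespace Pool.Agent.HCF
open MvPolynomial Module Set

variable {M : ℕ} {I : Ideal (SS M)} {c n : ℕ}

/-- homogeneous polynomial vector fields of degree `e` that are tangent to the cone -/
structure TF (I : Ideal (SS M)) (e : ℕ) (v : Fin M → SS M) : Prop where
  hom : ∀ j, (v j).IsHomogeneous e
  tan : ∀ x ∈ cone I, (fun j => eval x (v j)) ∈ tangS I x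

theorem yg1_comp (G : SS M) (x : Fin M → ℂ) (h : ∀ t : ℂ, t ≠ 0 → eval (t • x) G = 0) (e : ℕ) :
    eval x (homogeneousComponent e G) = 0 := by
  by_cases he : e ∈ Finset.range (G.totalDegree + 1)
  · let p : Polynomial ℂ := ∑ i ∈ Finset.range (G.totalDegree + 1),
      Polynomial.monomial i (eval x (homogeneousComponent i G))
    have hp : p = 0 := by
      refine Polynomial.eq_zero_of_infinite_isRoot p
        (((Set.finite_singleton (0 : ℂ)).infinite_compl).mono fun t ht => ?_)
      have h1 := h t ht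
      rw [← sum_homogeneousComponent G, map_sum] at h1
      rw [mem_ofPred_eq, Polynomial.IsRoot, Polynomial.eval_finsetSum, ← h1]
      refine Finset.sum_congr rfl fun i _ => ?_
      rw [Polynomial.eval_monomial, eval_smul_hom (homogeneousComponent_isHomogeneous i G),
        mul_comm]
    have h2 : p.coeff e = eval x (homogeneousComponent e G) := by
      simp only [p, Polynomial.finsetSum_coeff, Polynomial.coeff_monomial, Finset.sum_ite_eq',
        if_pos he]
    rw [← h2, hp, Polynomial.coeff_zero]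
  · rw [homogeneousComponent_eq_zero _ _ (by simpa using he), map_zero]

theorem tf_component (hX : IsManifold I c) {v : Fin M → SS M}
    (hv : ∀ x ∈ cone I, (fun j => eval x (v j)) ∈ tangS I x) (e : ℕ) :
    TF I e fun j => homogeneousComponent e (v j) := by
  refine ⟨fun j => homogeneousComponent_isHomogeneous e _, fun x hx f hf => ?_⟩
  have h := yg1_comp (∑ j, C (eval x (pderiv j f)) * v j) x (fun t ht => by
    have h1 := hv _ (hX.smul_mem hx ht)
    rw [hX.tang_smul x ht] at h1
    have h2 := h1 f hf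
    simp only [map_sum, map_mul, eval_C]
    rw [← h2]
    exact Finset.sum_congr rfl fun j _ => mul_comm _ _) e
  simp only [map_sum, homogeneousComponent_C_mul, map_mul, eval_C] at h
  rw [← h]
  exact Finset.sum_congr rfl fun j _ => mul_comm _ _

theorem yg1_sub (x : Fin M → ℂ) (r : SS M) : r - C (eval x r) ∈ RingHom.ker (eval x) := by
  rw [RingHom.mem_ker, map_sub, eval_C, sub_self]

theorem yg1_u (x : Fin M → ℂ) (l : Fin M) : (X l - C (x l) : SS M) ∈ RingHom.ker (eval x) := by
  rw [RingHom.mem_ker, map_sub, eval_C, eval_X, sub_self]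

theorem yg1_taylor (x : Fin M → ℂ) (r : SS M) :
    r - C (eval x r) - ∑ l, (X l - C (x l)) * pderiv l r ∈ RingHom.ker (eval x) ^ 2 := by
  induction r using MvPolynomial.induction_on with
  | C a => simp
  | add p q hp hq =>
    have e : p + q - C (eval x (p + q)) - ∑ l, (X l - C (x l)) * pderiv l (p + q) =
        (p - C (eval x p) - ∑ l, (X l - C (x l)) * pderiv l p) +
          (q - C (eval x q) - ∑ l, (X l - C (x l)) * pderiv l q) := by
      simp only [map_add, mul_add, Finset.sum_add_distrib]; ring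
    rw [e]; exact add_mem hp hq
  | mul_X p k hp =>
    have e1 : ∑ l, (X l - C (x l)) * pderiv l (p * X k) =
        (X k - C (x k)) * p + X k * ∑ l, (X l - C (x l)) * pderiv l p := by
      simp only [Derivation.leibniz, smul_eq_mul, mul_add, Finset.sum_add_distrib, Finset.mul_sum]
      congr 1
      · rw [Finset.sum_eq_single k]
        · rw [pderiv_X_self, mul_one]
        · intro l _ hl
          rw [pderiv_X_of_ne hl.symm]; ring
        · intro hk
          exact absurd (Finset.mem_univ k) hk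
      · exact Finset.sum_congr rfl fun l _ => by ring
    have e : p * X k - C (eval x (p * X k)) - ∑ l, (X l - C (x l)) * pderiv l (p * X k) =
        X k * (p - C (eval x p) - ∑ l, (X l - C (x l)) * pderiv l p) -
          (X k - C (x k)) * (p - C (eval x p)) := by
      rw [e1, map_mul, eval_X, map_mul]; ring
    rw [e]
    refine sub_mem (Ideal.mul_mem_left _ _ hp) ?_
    rw [sq]
    exact Ideal.mul_mem_mul (yg1_u x k) (yg1_sub x p)

theorem yg1_der (w : Fin M → SS M) :
    ∃ D : Derivation ℂ (SS M) (SS M), ∀ p, D p = ∑ j, w j * pderiv j p := by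
  refine ⟨∑ j, w j • pderiv j, fun p => ?_⟩
  have := map_sum (Derivation.coeFnAddMonoidHom (R := ℂ) (A := SS M) (M := SS M))
    (fun j => w j • pderiv j) Finset.univ
  have h2 := congrFun this p
  rw [Finset.sum_apply] at h2
  exact h2

theorem yg1_krull (hI : I.IsPrime) {m : Ideal (SS M)} (hm : m ≠ ⊤) (hIm : I ≤ m) {r : SS M}
    (h : ∀ k, r ∈ m ^ (k + 1) ⊔ I) : r ∈ I := by
  have hJ : m.map (Ideal.Quotient.mk I) ≠ ⊤ := by
    intro e
    have := Ideal.comap_map_of_surjective (Ideal.Quotient.mk I) Ideal.Quotient.mk_surjective m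
    rw [e, Ideal.comap_top, ← RingHom.ker_eq_comap_bot, Ideal.mk_ker, sup_eq_left.2 hIm] at this
    exact hm this.symm
  rw [← Ideal.Quotient.eq_zero_iff_mem, ← Ideal.mem_bot,
    ← Ideal.iInf_pow_eq_bot_of_isDomain _ hJ, Ideal.mem_iInf]
  intro k
  refine Ideal.pow_le_pow_right (Nat.le_succ k) ?_
  obtain ⟨a, ha, b, hb, rfl⟩ := Submodule.mem_sup.1 (h k)
  rw [map_add, Ideal.Quotient.eq_zero_iff_mem.2 hb, add_zero, ← Ideal.map_pow]
  exact Ideal.mem_map_of_mem _ ha

theorem yg1_stable (hX : IsManifold I c) (𝒞 : Set (SS M))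
    (h : ∀ r ∈ 𝒞, ∀ e v, 1 ≤ e → TF I e v → ∑ j, v j * pderiv j r ∈ 𝒞) (j0 : Fin M)
    {v : Fin M → SS M} (hv : ∀ f ∈ I, ∑ j, v j * pderiv j f ∈ I) :
    ∀ r ∈ Ideal.span 𝒞 ⊔ I, X j0 * ∑ j, v j * pderiv j r ∈ Ideal.span 𝒞 ⊔ I := by
  have ht : ∀ x ∈ cone I, (fun j => eval x (v j)) ∈ tangS I x := fun x hx f hf => by
    simpa using hx.2 _ (hv f hf)
  have hT : ∀ e, TF I (1 + e) fun j => X j0 * homogeneousComponent e (v j) := fun e =>
    ⟨fun j => (isHomogeneous_X ℂ j0).mul (homogeneousComponent_isHomogeneous e _), fun x hx => by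
      have := (tangS I x).smul_mem (x j0) ((tf_component hX ht e).tan x hx)
      simp only [map_mul, eval_X]
      exact this⟩
  obtain ⟨N, hN⟩ : ∃ N, ∀ j, ∑ e ∈ Finset.range N, homogeneousComponent e (v j) = v j := by
    refine ⟨(Finset.univ.sup fun j => (v j).totalDegree) + 1, fun j => ?_⟩
    conv_rhs => rw [← sum_homogeneousComponent (v j)]
    refine (Finset.sum_subset (Finset.range_subset_range.2 (Nat.succ_le_succ
      (Finset.le_sup (f := fun j => (v j).totalDegree) (Finset.mem_univ j)))) fun e _ he => ?_).symm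
    exact homogeneousComponent_eq_zero _ _ (by simpa using he)
  obtain ⟨D, hD⟩ := yg1_der v
  have h1 : ∀ r ∈ Ideal.span 𝒞, X j0 * D r ∈ Ideal.span 𝒞 := by
    intro r hr
    induction hr using Submodule.span_induction with
    | mem r hr =>
      have e : X j0 * D r = ∑ e ∈ Finset.range N,
          ∑ j, (X j0 * homogeneousComponent e (v j)) * pderiv j r := by
        rw [Finset.sum_comm, hD, Finset.mul_sum]
        refine Finset.sum_congr rfl fun j _ => ?_
        rw [← Finset.sum_mul, ← Finset.mul_sum, hN, mul_assoc]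
      rw [e]
      exact Ideal.sum_mem _ fun e _ => Ideal.subset_span (h r hr _ _ (by omega) (hT e))
    | zero => simp
    | add a b _ _ ha hb => rw [map_add, mul_add]; exact add_mem ha hb
    | smul a b hb ih =>
      rw [smul_eq_mul, Derivation.leibniz, smul_eq_mul, smul_eq_mul, mul_add, mul_left_comm]
      exact add_mem (Ideal.mul_mem_left _ _ ih)
        (Ideal.mul_mem_left _ _ (Ideal.mul_mem_right _ _ hb))
  intro r hr
  obtain ⟨a, ha, b, hb, rfl⟩ := Submodule.mem_sup.1 hr
  rw [← hD, map_add, mul_add]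
  refine add_mem (Ideal.mem_sup_left (h1 a ha)) (Ideal.mem_sup_right (Ideal.mul_mem_left _ _ ?_))
  rw [hD]
  exact hv b hb

theorem yg1_alg {R : Type} [CommRing R] (u p : Fin M → R) (J : Fin c → Fin M → R)
    (f B : Fin c → R) (y δ : R) :
    y * δ * ∑ j, u j * p j + ∑ i, (f i - ∑ l, u l * J i l) * (y * B i) =
      ∑ l, u l * (y * (δ * p l - ∑ i, J i l * B i)) + ∑ i, f i * (y * B i) := by
  have e2 : ∑ i, (∑ l, u l * J i l) * (y * B i) = ∑ l, u l * (y * ∑ i, J i l * B i) := by
    simp only [Finset.sum_mul, Finset.mul_sum]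
    rw [Finset.sum_comm]
    exact Finset.sum_congr rfl fun l _ => Finset.sum_congr rfl fun i _ => by ring
  have e3 : y * δ * ∑ j, u j * p j = ∑ l, u l * (y * (δ * p l)) := by
    rw [Finset.mul_sum]
    exact Finset.sum_congr rfl fun l _ => by ring
  simp only [mul_sub, sub_mul, Finset.sum_sub_distrib]
  rw [e2, e3]; ring

theorem yg1_alg2 {R : Type} [CommRing R] (p : Fin M → R) (J : Fin c → R) (b : Fin c → Fin M → R)
    (δ : R) (l : Fin M) : ∑ j, ((if j = l then δ else 0) - ∑ i, b i j * J i) * p j =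
      δ * p l - ∑ i, J i * ∑ j, b i j * p j := by
  have e : ∑ j, (∑ i, b i j * J i) * p j = ∑ i, J i * ∑ j, b i j * p j := by
    simp only [Finset.sum_mul, Finset.mul_sum]
    rw [Finset.sum_comm]
    exact Finset.sum_congr rfl fun i _ => Finset.sum_congr rfl fun j _ => by ring
  simp only [sub_mul, Finset.sum_sub_distrib, ite_mul, zero_mul, Finset.sum_ite_eq',
    Finset.mem_univ, if_true, e]

theorem stable_sub (hX : IsManifold I c) (𝒞 : Set (SS M))
    (h : ∀ r ∈ 𝒞, ∀ e v, 1 ≤ e → TF I e v → ∑ j, v j * pderiv j r ∈ 𝒞) {x : Fin M → ℂ}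
    (hx : x ∈ cone I) (h0 : ∀ r ∈ 𝒞, eval x r = 0) : ∀ r ∈ 𝒞, r ∈ I := by
  obtain ⟨F⟩ := hX.exists_PF hx
  obtain ⟨j0, hj0⟩ := Function.ne_iff.1 hx.1
  set m : Ideal (SS M) := RingHom.ker (eval x) with hm
  have hIm : I ≤ m := fun f hf => hx.2 f hf
  let q : Fin c → SS M := fun i => F.f i - ∑ l, (X l - C (x l)) * pderiv l (F.f i)
  have hq : ∀ i, q i ∈ m ^ 2 := fun i => by
    have := yg1_taylor x (F.f i)
    rwa [hx.2 _ (F.f_mem i), C_0, sub_zero] at this
  obtain ⟨E, hE⟩ := yg1_der fun j => X j0 * (F.δ * (X j - C (x j)) + ∑ i, F.b i j * q i)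
  have hE1 : ∀ r, E r = X j0 * F.δ * ∑ j, (X j - C (x j)) * pderiv j r +
      ∑ i, q i * (X j0 * ∑ j, F.b i j * pderiv j r) := by
    intro r
    simp only [hE, mul_add, add_mul, Finset.sum_add_distrib, Finset.mul_sum, Finset.sum_mul]
    congr 1
    · exact Finset.sum_congr rfl fun j _ => by ring
    · rw [Finset.sum_comm]
      exact Finset.sum_congr rfl fun i _ => Finset.sum_congr rfl fun j _ => by ring
  have hE2 : ∀ r, E r = ∑ l, (X l - C (x l)) * (X j0 * ∑ j, F.t j l * pderiv j r) +
      ∑ i, F.f i * (X j0 * ∑ j, F.b i j * pderiv j r) := by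
    intro r
    have e1 : ∀ l, ∑ j, F.t j l * pderiv j r =
        F.δ * pderiv l r - ∑ i, pderiv l (F.f i) * ∑ j, F.b i j * pderiv j r := by
      intro l
      simp only [F.basic_t]
      exact yg1_alg2 (fun j => pderiv j r) (fun i => pderiv l (F.f i)) F.b F.δ l
    rw [hE1, Finset.sum_congr rfl fun l _ => congrArg (fun z => (X l - C (x l)) * (X j0 * z)) (e1 l)]
    exact yg1_alg (fun l => X l - C (x l)) (fun l => pderiv l r) (fun i l => pderiv l (F.f i)) F.f
      (fun i => ∑ j, F.b i j * pderiv j r) (X j0) F.δ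
  have hmm : m ^ 2 ≤ m := Ideal.pow_le_self two_ne_zero
  have heul := euler_pow m E (X j0 * F.δ) (fun r => by
      rw [hE1]
      exact add_mem (Ideal.mul_mem_left _ _ (Ideal.sum_mem _ fun j _ =>
        Ideal.mul_mem_right _ _ (yg1_u x j)))
        (Ideal.sum_mem _ fun i _ => Ideal.mul_mem_right _ _ (hmm (hq i))))
    (fun r hr => by
      have h1 := yg1_taylor x r
      rw [RingHom.mem_ker.1 hr, C_0, sub_zero] at h1
      have e : E r - X j0 * F.δ * r = ∑ i, q i * (X j0 * ∑ j, F.b i j * pderiv j r) -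
          X j0 * F.δ * (r - ∑ j, (X j - C (x j)) * pderiv j r) := by
        rw [hE1]; ring
      rw [e]
      exact sub_mem (Ideal.sum_mem _ fun i _ => Ideal.mul_mem_right _ _ (hq i))
        (Ideal.mul_mem_left _ _ h1))
  have hEI : ∀ r ∈ I, E r ∈ I := fun r hr => by
    rw [hE2]
    exact add_mem (Ideal.sum_mem _ fun l _ => Ideal.mul_mem_left _ _
      (Ideal.mul_mem_left _ _ (F.t_der hX hx l r hr)))
      (Ideal.sum_mem _ fun i _ => Ideal.mul_mem_right _ _ (F.f_mem i))
  have key : ∀ k, ∀ r ∈ Ideal.span 𝒞 ⊔ I, r ∈ m ^ (k + 1) ⊔ I := by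
    intro k
    induction k with
    | zero =>
      refine sup_le_sup_right (Ideal.span_le.2 fun r hr => ?_) I
      rw [zero_add, pow_one]
      exact h0 r hr
    | succ k ih =>
      intro r hr
      have h1 : E r ∈ m ^ (k + 1 + 1) ⊔ I := by
        rw [hE2]
        refine add_mem (Ideal.sum_mem _ fun l _ => ?_) (Ideal.mem_sup_right
          (Ideal.sum_mem _ fun i _ => Ideal.mul_mem_right _ _ (F.f_mem i)))
        obtain ⟨a, ha, b, hb, e⟩ := Submodule.mem_sup.1
          (ih _ (yg1_stable hX 𝒞 h j0 (F.t_der hX hx l) r hr))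
        rw [← e, mul_add]
        refine add_mem (Ideal.mem_sup_left ?_) (Ideal.mem_sup_right (Ideal.mul_mem_left _ _ hb))
        rw [pow_succ' m (k + 1)]
        exact Ideal.mul_mem_mul (yg1_u x l) ha
      obtain ⟨a, ha, b, hb, rfl⟩ := Submodule.mem_sup.1 (ih r hr)
      refine add_mem ?_ (Ideal.mem_sup_right hb)
      set d : SS M := ((k + 1 : ℕ) : SS M) * (X j0 * F.δ) with hd
      have hd0 : eval x d ≠ 0 := by
        rw [hd, map_mul, map_mul, map_natCast, eval_X]
        exact mul_ne_zero (Nat.cast_ne_zero.2 (Nat.succ_ne_zero k)) (mul_ne_zero hj0 F.δ_ne)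
      have e : C (eval x d) * a = E (a + b) - E b - (E a - d * a) - (d - C (eval x d)) * a := by
        rw [map_add]; ring
      rw [← Ideal.unit_mul_mem_iff_mem _ (hd0.isUnit.map C), e]
      refine sub_mem (sub_mem (sub_mem h1 (Ideal.mem_sup_right (hEI b hb)))
        (Ideal.mem_sup_left (heul _ a ha))) (Ideal.mem_sup_left ?_)
      rw [pow_succ' m (k + 1)]
      exact Ideal.mul_mem_mul (yg1_sub x d) ha
  intro r hr
  exact yg1_krull hX.prime (RingHom.ker_ne_top _) hIm fun k =>
    key k r (Ideal.mem_sup_left (Ideal.subset_span hr))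

end Pool.Agent.HCF
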