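import Pool.Agent.P.MP_f644fa_ag.YG2
import Pool.Agent.P.MP_f644fa_ag.Van0
import Pool.Agent.P.MP_f644fa_ag.YDefs

/-! The weight of a Fano manifold. -/

noncomputable section
namespace Pool.Agent.HCF
open MvPolynomial Module Set

variable {M : ℕ} {I : Ideal (SS M)} {c n : ℕ}

theorem exists_inv_root {V : Type} [NormedAddCommGroup V] [InnerProductSpace ℝ V]
    [FiniteDimensional ℝ V] {S : Set V} (hS : IsCompact S) (f : Sm S)
    (h : ∀ x, 0 < (f.1 x).re ∧ (f.1 x).im = 0) {a : ℕ} (ha : 1 ≤ a) :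
    ∃ σ : Sm S, star σ = σ ∧ σ ^ a * f = 1 := by
  obtain ⟨g, hg⟩ := exists_ext f
  have hre := Complex.reCLM.contDiff.comp hg.smooth
  have hO : IsOpen {x | 0 < (g x).re} := isOpen_lt continuous_const hre.continuous
  have hσ := Complex.ofRealCLM.contDiff.comp_contDiffOn
    ((hre.contDiffOn (s := {x | 0 < (g x).re})).rpow_const_of_ne (p := -(a : ℝ)⁻¹)
      fun x hx => ne_of_gt hx)
  refine ⟨⟨_, mem_Sm_of_open hS hO (fun x hx => ?_) hσ⟩, Subtype.ext (funext fun x => ?_),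
    Subtype.ext (funext fun x => ?_)⟩
  · have h1 := (h ⟨x, hx⟩).1
    rwa [hg.eq] at h1
  · exact Complex.conj_ofReal _
  · obtain ⟨h1, h2⟩ := h x
    show (((g x).re ^ (-(a : ℝ)⁻¹) : ℝ) : ℂ) ^ a * f.1 x = 1
    rw [← hg.eq x]
    have h3 : f.1 x = ((f.1 x).re : ℂ) := Complex.ext rfl h2
    have h4 : ((f.1 x).re ^ (-(a : ℝ)⁻¹)) ^ a * (f.1 x).re = 1 := by
      rw [Real.rpow_neg h1.le, inv_pow, Real.rpow_inv_natCast_pow h1.le (by omega),
        inv_mul_cancel₀ h1.ne']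
    nth_rewrite 2 [h3]
    exact_mod_cast h4

theorem yg3_slice {σ : Type} {a : ℕ} (u : σ → ℂ) (T : Fin a → σ) (t : Fin a) :
    (fun J => ∏ t', u (Function.update T t J t')) =
      (∏ t' ∈ Finset.univ.erase t, u (T t')) • u := by
  funext J
  rw [← Finset.mul_prod_erase _ _ (Finset.mem_univ t), Function.update_self, Pi.smul_apply,
    smul_eq_mul, mul_comm]
  congr 1
  exact Finset.prod_congr rfl fun t' ht' => by
    rw [Function.update_of_ne (Finset.ne_of_mem_erase ht')]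

theorem IsFano.exists_nu (hF : IsFano I c) (hX : IsManifold I c) (hM : M = n + 1 + c) :
    ∃ (a h : ℕ) (ν : Fin h × (Fin a → Finset (Fin M)) → secRing I), 1 ≤ a ∧
      (∀ i T t, (fun J => ν (i, Function.update T t J)) ∈
        Hm (secRing I) c (a * (n + 1) - 1)) ∧ ∀ x : cone I, ∃ q, (ν q).1 x ≠ 0 := by
  obtain ⟨a, h, ν, ha, hα, hreg, hne⟩ := hF
  choose α hα1 hα2 using hα
  have hd : (a : ℤ) * (M - c) - 1 = a * (n + 1) - 1 := by
    rw [hM]; push_cast; ring
  rw [hd] at hreg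
  have hm : ∀ i (T : Fin a → Finset (Fin M)),
      (fun x => ∏ t, ofAlt (α i x) (T t)) ∈ secRing I ∧
        IsHom (a * (n + 1) - 1) (fun x => ∏ t, ofAlt (α i x) (T t)) := by
    intro i T
    by_cases hT : ∀ t, (T t).card = c
    · have e : (fun x => ∏ t, ofAlt (α i x) (T t)) =
          fun x => ν i x (fun t k => Pi.single ((T t).orderEmbOfFin (hT t) k) 1) := by
        funext x
        rw [hα2]
        exact Finset.prod_congr rfl fun t _ => dif_pos (hT t)
      rw [e]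
      exact hreg _ _
    · have e : (fun x => ∏ t, ofAlt (α i x) (T t)) = 0 := by
        funext x
        obtain ⟨t, ht⟩ := not_forall.1 hT
        exact Finset.prod_eq_zero (Finset.mem_univ t) (deg_ofAlt (α i x) _ ht)
      rw [e]
      exact ⟨Subalgebra.zero_mem _, fun x y t _ => by simp⟩
  refine ⟨a, h, fun q => ⟨fun x => ∏ t, ofAlt (α q.1 x) (q.2 t), (hm q.1 q.2).1⟩, ha,
    fun i T t => ⟨?_, ?_, fun J => (hm i _).2⟩, fun x => ?_⟩
  · rw [kill_iff hX (Pol_le I)]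
    intro x v hv
    show iov ℂ v (fun J => ∏ t', ofAlt (α i x) (Function.update T t J t')) = 0
    rw [yg3_slice, map_smul, iov_ofAlt fun w k hw => hα1 i x w k (by rw [hw]; exact hv), smul_zero]
  · intro J hJ
    apply Subtype.ext
    funext x
    refine Finset.prod_eq_zero (Finset.mem_univ t) ?_
    show ofAlt (α i x) (Function.update T t J t) = 0
    rw [Function.update_self]
    exact deg_ofAlt (α i x) J hJ
  · obtain ⟨i, v, hv⟩ := hne x
    have h0 : α i x ≠ 0 := by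
      intro h0
      apply hv
      rw [hα2, h0]
      exact Finset.prod_eq_zero (Finset.mem_univ ⟨0, ha⟩) rfl
    obtain ⟨J, hJ⟩ := Function.ne_iff.1 (ofAlt_ne_zero h0)
    refine ⟨(i, fun _ => J), ?_⟩
    show ∏ _t : Fin a, ofAlt (α i x) J ≠ 0
    exact Finset.prod_ne_zero_iff.2 fun _ _ => hJ

theorem yg3_root {V : Type} [NormedAddCommGroup V] [InnerProductSpace ℝ V] [FiniteDimensional ℝ V]
    {S : Set V} (hS : IsCompact S) {ι : Type} [Fintype ι] (u : ι → Sm S)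
    (h : ∀ x, ∃ J, (u J).1 x ≠ 0) {a : ℕ} (ha : 1 ≤ a) :
    ∃ σ : Sm S, star σ = σ ∧ σ ^ a * hp u u = 1 := by
  refine exists_inv_root hS _ (fun x => ?_) ha
  have h1 : (hp u u).1 x = ((∑ J, Complex.normSq ((u J).1 x) : ℝ) : ℂ) := by
    let ev : Sm S →+ ℂ := ⟨⟨fun a => a.1 x, rfl⟩, fun _ _ => rfl⟩
    change ev (hp u u) = _
    rw [hp, map_sum, Complex.ofReal_sum]
    refine Finset.sum_congr rfl fun J _ => ?_
    rw [Complex.normSq_eq_conj_mul_self]
    rfl
  rw [h1, Complex.ofReal_re, Complex.ofReal_im]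
  obtain ⟨J, hJ⟩ := h x
  exact ⟨Finset.sum_pos' (fun _ _ => Complex.normSq_nonneg _)
    ⟨J, Finset.mem_univ _, Complex.normSq_pos.2 hJ⟩, rfl⟩

theorem Geo.fano_Wt {C : CR M n (Sm (Lk I))} (h : Geo I C) (hX : IsManifold I c)
    (hM : M = n + 1 + c) (hF : IsFano I c) : ∃ s : ℝ, s < n + 1 ∧ Nonempty (C.Wt s) := by
  obtain ⟨a, k, ν, ha, hν, hne⟩ := hF.exists_nu hX hM
  obtain ⟨σ, hσ, hσ'⟩ := yg3_root (isCompact_Lk I) (fun q => rs I (ν q))
    (fun y => hne (toCone y)) (a := 2 * a) (by omega)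
  refine ⟨_, ?_, C.exists_Wt_of hM ha (fun i T t => h.hf_rs hX (hν i T t)) hσ hσ'⟩
  have h0 : (0 : ℝ) < a := by exact_mod_cast ha
  rw [div_lt_iff₀ h0]
  push_cast
  linarith

end Pool.Agent.HCF
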