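import Pool.Agent.P.MP_f644fa_ag.YPm0

/-! The action of the symmetric group on the tensor power. -/

noncomputable section
namespace Pool.Agent.HCF
open Finset Matrix Equiv

variable {A Ω ι κ : Type} [CommRing A] [Fintype Ω] [LinearOrder Ω]

variable [Fintype ι] [DecidableEq ι] (π : ι → Bool)

omit [Fintype ι] [DecidableEq ι] in
theorem yPm_od_map (T : Ω → ι) (σ : Perm Ω) :
    (od π (T ∘ σ)).map σ.toEmbedding = od π T := by
  ext x
  simp only [od, mem_map_equiv, mem_filter, mem_univ, true_and, Function.comp_apply,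
    Equiv.apply_symm_apply]

omit [Fintype ι] [DecidableEq ι] in
theorem yPm_comp (T : Ω → ι) (σ : Perm Ω) : (T ∘ σ.symm) ∘ σ = T := by
  funext x; simp

theorem yPm_mul_left {μ : Type} (σ : Perm Ω) (M : Matrix (Ω → ι) μ A) (T : Ω → ι) (T'' : μ) :
    (pm A π σ * M) T T'' = (ks σ (od π (T ∘ σ)) : A) * M (T ∘ σ) T'' := by
  rw [Matrix.mul_apply, Finset.sum_eq_single (T ∘ σ)]
  · simp [pm]
  · intro T' _ h
    simp [pm, h]
  · simp

theorem yPm_mul_right {μ : Type} (σ : Perm Ω) (M : Matrix μ (Ω → ι) A) (T : μ) (T'' : Ω → ι) :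
    (M * pm A π σ) T T'' = M T (T'' ∘ σ.symm) * (ks σ (od π T'') : A) := by
  rw [Matrix.mul_apply, Finset.sum_eq_single (T'' ∘ σ.symm)]
  · simp only [pm, Matrix.of_apply]
    rw [if_pos (yPm_comp T'' σ).symm]
  · intro T' _ h
    have h' : ¬ T'' = T' ∘ σ := by
      intro e
      apply h
      funext x
      simp [e]
    simp [pm, h']
  · simp

theorem yPm_ks_one (S : Finset Ω) : ks (1 : Perm Ω) S = 1 := by
  unfold ks
  refine Finset.prod_eq_one fun a _ => Finset.prod_eq_one fun b hb => ?_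
  have h := (mem_filter.1 hb).2
  simp [h]

theorem pm_one : pm A π (1 : Perm Ω) = 1 := by
  ext T T'
  simp only [pm, Matrix.of_apply, yPm_ks_one, Perm.coe_one, Function.comp_id, Matrix.one_apply,
    Int.cast_one]
  by_cases h : T = T'
  · rw [if_pos h, if_pos h.symm]
  · rw [if_neg h, if_neg fun e => h e.symm]

theorem pm_mul (σ τ : Perm Ω) : pm A π (σ * τ) = pm A π σ * pm A π τ := by
  ext T T''
  rw [yPm_mul_left]
  simp only [pm, Matrix.of_apply]
  have e : T ∘ ⇑(σ * τ) = (T ∘ σ) ∘ τ := by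
    funext x; simp
  rw [e]
  by_cases h : T'' = (T ∘ σ) ∘ τ
  · rw [if_pos h, if_pos h, ks_mul, h, yPm_od_map]
    push_cast
    rfl
  · rw [if_neg h, if_neg h, mul_zero]

theorem pm_swap {a b : Ω} (h : a ≠ b) {T : Ω → ι} (hT : T a = T b) :
    pm A π (swap a b) T T = if π (T a) then -1 else 1 := by
  have e : T = T ∘ swap a b := by
    funext x
    simp only [Function.comp_apply, swap_apply_def]
    split_ifs with h1 h2
    · rw [h1, hT]
    · rw [h2, hT]
    · rfl
  simp only [pm, Matrix.of_apply]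
  rw [if_pos e]
  by_cases hp : π (T a) = true
  · rw [if_pos hp, ks_swap_mem h (by simp [od, hp]) (by simp [od, ← hT, hp])]
    simp
  · rw [if_neg hp, ks_swap_notMem (by simp [od, hp]) (by simp [od, ← hT, hp])]
    simp

omit [Fintype ι] [DecidableEq ι] in
theorem yPm_tp_reindex (σ : Perm Ω) (m m' : Ω → Matrix ι κ A) (h : ∀ x, m x = m' (σ x))
    (T : Ω → ι) (T'' : Ω → κ) : tp m (T ∘ σ) T'' = tp m' T (T'' ∘ σ.symm) := by
  simp only [tp, Matrix.of_apply]
  rw [← Equiv.prod_comp σ (fun y => m' y (T y) ((T'' ∘ σ.symm) y))]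
  refine Finset.prod_congr rfl fun x _ => ?_
  simp [h]

theorem yPm_sign (σ : Perm Ω) (ω : Ω) {U S : Finset Ω} (h : ∀ x, x ≠ ω → (x ∈ U ↔ x ∈ S))
    (hω : ω ∈ U ↔ ω ∉ S) :
    ks σ U * sg ω S = sg (σ ω) (S.map σ.toEmbedding) * ks σ S := by
  by_cases hS : ω ∈ S
  · have hU : ω ∉ U := fun hh => hω.1 hh hS
    have e : S = insert ω U := by
      ext x
      by_cases hx : x = ω
      · simp [hx, hS]
      · simp [hx, h x hx]
    rw [e, ks_insert σ hU, map_insert, sg_insert_self]
    have e2 : σ.toEmbedding ω = σ ω := rfl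
    rw [e2, sg_insert_self]
    have := sg_mul_self (σ ω) (U.map σ.toEmbedding)
    linear_combination (-(ks σ U * sg ω U)) * this
  · have hU : ω ∈ U := hω.2 hS
    have e : U = insert ω S := by
      ext x
      by_cases hx : x = ω
      · simp [hx, hU]
      · simp [hx, h x hx]
    rw [e, ks_insert σ hS]
    have := sg_mul_self ω S
    linear_combination (ks σ S * sg (σ ω) (S.map σ.toEmbedding)) * this

theorem yPm_Gam {d : Matrix ι ι A} (hd : Od π d) (σ : Perm Ω) (ω : Ω) :
    pm A π σ * Gam π ω d = Gam π (σ ω) d * pm A π σ := by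
  ext T T''
  rw [yPm_mul_left, yPm_mul_right]
  simp only [Gam, Matrix.of_apply]
  have e := yPm_tp_reindex σ (Function.update (fun _ => (1 : Matrix ι ι A)) ω d)
    (Function.update (fun _ => (1 : Matrix ι ι A)) (σ ω) d) (by
      intro x
      by_cases hx : x = ω
      · simp [hx]
      · rw [Function.update_of_ne hx, Function.update_of_ne (σ.injective.ne hx)]) T T''
  rw [← e]
  by_cases h0 : tp (Function.update (fun _ => (1 : Matrix ι ι A)) ω d) (T ∘ σ) T'' = 0
  · rw [h0]; simp
  · have hne : ∀ x, Function.update (fun _ => (1 : Matrix ι ι A)) ω d x (T (σ x)) (T'' x) ≠ 0 := by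
      intro x hx
      apply h0
      simp only [tp, Matrix.of_apply]
      exact Finset.prod_eq_zero (mem_univ x) hx
    have h1 : ∀ x, x ≠ ω → (x ∈ od π (T ∘ σ) ↔ x ∈ od π T'') := by
      intro x hx
      have h2 := hne x
      rw [Function.update_of_ne hx] at h2
      have h3 : T (σ x) = T'' x := by
        by_contra h4
        exact h2 (Matrix.one_apply_ne h4)
      simp [od, h3]
    have h2 : ω ∈ od π (T ∘ σ) ↔ ω ∉ od π T'' := by
      have h2 := hne ω
      rw [Function.update_self] at h2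
      have h3 := hd _ _ h2
      simp [od, h3]
    have h3 := yPm_sign σ ω h1 h2
    have h4 : od π (T'' ∘ σ.symm) = (od π T'').map σ.toEmbedding := by
      rw [← yPm_od_map π (T'' ∘ σ.symm) σ, yPm_comp]
    rw [h4]
    have h5 : (ks σ (od π (T ∘ σ)) : A) * (sg ω (od π T'') : A)
        = (sg (σ ω) ((od π T'').map σ.toEmbedding) : A) * (ks σ (od π T'') : A) := by
      exact_mod_cast congrArg (Int.cast : ℤ → A) h3
    linear_combination
      (tp (Function.update (fun _ => (1 : Matrix ι ι A)) ω d) (T ∘ σ) T'') * h5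

theorem pm_DT {d : Matrix ι ι A} (hd : Od π d) (σ : Perm Ω) :
    pm A π σ * DT Ω π d = DT Ω π d * pm A π σ := by
  unfold DT
  rw [Finset.mul_sum, Finset.sum_mul, ← Equiv.sum_comp σ (fun ω => Gam π ω d * pm A π σ)]
  exact Finset.sum_congr rfl fun ω _ => yPm_Gam π hd σ ω

theorem pm_tp [Fintype κ] [DecidableEq κ] {π' : κ → Bool} {β : Matrix ι κ A} (hβ : DP π π' β)
    (σ : Perm Ω) : pm A π σ * tp (fun _ : Ω => β) = tp (fun _ : Ω => β) * pm A π' σ := by
  ext T T''
  rw [yPm_mul_left, yPm_mul_right,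
    ← yPm_tp_reindex σ (fun _ : Ω => β) (fun _ : Ω => β) (fun _ => rfl) T T'']
  by_cases h0 : tp (fun _ : Ω => β) (T ∘ σ) T'' = 0
  · rw [h0]; simp
  · rw [tp_od (fun _ => hβ) h0, mul_comm]

/-- the action as a homomorphism -/
def pmH (A Ω : Type) [CommRing A] [Fintype Ω] [LinearOrder Ω] (π : ι → Bool) :
    Perm Ω →* Matrix (Ω → ι) (Ω → ι) A where
  toFun := pm A π
  map_one' := pm_one π
  map_mul' := pm_mul π

variable [Algebra ℂ A]

/-- the action of the group algebra -/
def act (A Ω : Type) [CommRing A] [Algebra ℂ A] [Fintype Ω] [LinearOrder Ω] (π : ι → Bool) :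
    MonoidAlgebra ℂ (Perm Ω) →ₐ[ℂ] Matrix (Ω → ι) (Ω → ι) A :=
  MonoidAlgebra.lift ℂ _ (Perm Ω) (pmH A Ω π)

theorem yPm_act_single (σ : Perm Ω) (c : ℂ) :
    act A Ω π (MonoidAlgebra.single σ c) = c • pm A π σ := by
  unfold act
  rw [MonoidAlgebra.lift_single]
  rfl

theorem act_map {B : Type} [CommRing B] [Algebra ℂ B] (φ : A →ₐ[ℂ] B)
    (y : MonoidAlgebra ℂ (Perm Ω)) : (act A Ω π y).map φ = act B Ω π y := by
  induction y using MonoidAlgebra.induction_linear with
  | zero => rw [map_zero, map_zero]; ext i j; simp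
  | add f g hf hg =>
    rw [map_add, map_add, ← hf, ← hg]
    ext i j; simp
  | single σ c =>
    rw [yPm_act_single, yPm_act_single]
    ext i j
    simp only [Matrix.map_apply, Matrix.smul_apply, map_smul, pm, Matrix.of_apply]
    split_ifs <;> simp

theorem act_DT {d : Matrix ι ι A} (hd : Od π d) (y : MonoidAlgebra ℂ (Perm Ω)) :
    act A Ω π y * DT Ω π d = DT Ω π d * act A Ω π y := by
  induction y using MonoidAlgebra.induction_linear with
  | zero => simp
  | add f g hf hg => rw [map_add, add_mul, mul_add, hf, hg]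
  | single σ c =>
    rw [yPm_act_single, Matrix.smul_mul, Matrix.mul_smul, pm_DT π hd]

theorem act_tp [Fintype κ] [DecidableEq κ] {π' : κ → Bool} {β : Matrix ι κ A} (hβ : DP π π' β)
    (y : MonoidAlgebra ℂ (Perm Ω)) :
    act A Ω π y * tp (fun _ : Ω => β) = tp (fun _ : Ω => β) * act A Ω π' y := by
  induction y using MonoidAlgebra.induction_linear with
  | zero => simp
  | add f g hf hg => rw [map_add, map_add, Matrix.add_mul, Matrix.mul_add, hf, hg]
  | single σ c =>
    rw [yPm_act_single, yPm_act_single, Matrix.smul_mul, Matrix.mul_smul, pm_tp π hβ]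

theorem act_deg (deg : ι → ℕ) (y : MonoidAlgebra ℂ (Perm Ω)) :
    DP (fun T : Ω → ι => ∑ ω, deg (T ω)) (fun T => ∑ ω, deg (T ω)) (act A Ω π y) := by
  induction y using MonoidAlgebra.induction_linear with
  | zero => intro k i h; simp at h
  | add f g hf hg =>
    intro k i h
    rw [map_add, Matrix.add_apply] at h
    by_cases h1 : act A Ω π f k i = 0
    · rw [h1, zero_add] at h
      exact hg k i h
    · exact hf k i h1
  | single σ c =>
    intro k i h
    rw [yPm_act_single, Matrix.smul_apply] at h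
    have h1 : i = k ∘ σ := by
      by_contra h2
      apply h
      simp [pm, h2]
    subst h1
    exact (Equiv.sum_comp σ (fun ω => deg (k ω))).symm

end Pool.Agent.HCF
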