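import Pool.Agent.P.MP_f644fa_ag.YTp

/-! The action of the symmetric group on the tensor power. -/

noncomputable section
namespace Pool.Agent.HCF
open Finset Matrix Equiv

variable {A Ω ι κ : Type} [CommRing A] [Fintype Ω] [LinearOrder Ω]

omit [Fintype Ω] in
theorem YPm0_sg (ω : Ω) (S : Finset Ω) :
    sg ω S = ∏ a ∈ S, if a < ω then (-1 : ℤ) else 1 := by
  rw [sg, ← Finset.prod_filter, Finset.prod_const]

omit [Fintype Ω] in
theorem YPm0_fix {a b x : Ω} {S : Finset Ω} (ha : a ∉ S) (hb : b ∉ S) (hx : x ∈ S) :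
    swap a b x = x :=
  swap_apply_of_ne_of_ne (fun e => ha (e ▸ hx)) (fun e => hb (e ▸ hx))

omit [Fintype Ω] in
theorem YPm0_ks (σ : Perm Ω) (S : Finset Ω) :
    ks σ S = ∏ a ∈ S, ∏ b ∈ S, if a < b then (if σ a < σ b then (1 : ℤ) else -1) else 1 := by
  unfold ks
  refine Finset.prod_congr rfl fun a _ => ?_
  rw [Finset.prod_filter]

theorem ks_insert (σ : Perm Ω) {S : Finset Ω} {ω : Ω} (h : ω ∉ S) :
    ks σ (insert ω S) = ks σ S * sg ω S * sg (σ ω) (S.map σ.toEmbedding) := by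
  rw [YPm0_ks, YPm0_ks, YPm0_sg, YPm0_sg, Finset.prod_map, Finset.prod_insert h,
    Finset.prod_insert h, if_neg (lt_irrefl ω), one_mul]
  simp only [Finset.prod_insert h, Finset.prod_mul_distrib, Equiv.coe_toEmbedding]
  rw [← mul_assoc, mul_comm, mul_assoc]
  congr 1
  rw [← Finset.prod_mul_distrib, ← Finset.prod_mul_distrib]
  refine Finset.prod_congr rfl fun a ha => ?_
  have hne : a ≠ ω := fun e => h (e ▸ ha)
  have hne' : σ a ≠ σ ω := fun e => hne (σ.injective e)
  rcases lt_or_gt_of_ne hne with h1 | h1 <;> rcases lt_or_gt_of_ne hne' with h2 | h2 <;>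
    simp [h1, h2, not_lt_of_gt h1, not_lt_of_gt h2]

theorem ks_mul (σ τ : Perm Ω) (S : Finset Ω) :
    ks (σ * τ) S = ks σ (S.map τ.toEmbedding) * ks τ S := by
  induction S using Finset.induction_on with
  | empty => simp [ks]
  | insert ω S h ih =>
    have h' : τ ω ∉ S.map τ.toEmbedding := by
      intro hm
      obtain ⟨a, ha, e⟩ := Finset.mem_map.1 hm
      exact h (τ.injective e ▸ ha)
    have e1 : (insert ω S).map τ.toEmbedding = insert (τ ω) (S.map τ.toEmbedding) := by
      rw [Finset.map_insert]; rfl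
    have e2 : S.map (σ * τ).toEmbedding = (S.map τ.toEmbedding).map σ.toEmbedding := by
      rw [Finset.map_map]; rfl
    rw [e1, ks_insert _ h, ks_insert _ h', ks_insert _ h, ih, e2, Perm.mul_apply]
    have h3 := sg_mul_self (τ ω) (S.map τ.toEmbedding)
    linear_combination (-(ks σ (S.map τ.toEmbedding) * ks τ S * sg ω S *
      sg (σ (τ ω)) ((S.map τ.toEmbedding).map σ.toEmbedding))) * h3

theorem ks_swap_notMem {a b : Ω} {S : Finset Ω} (ha : a ∉ S) (hb : b ∉ S) :
    ks (swap a b) S = 1 := by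
  unfold ks
  refine Finset.prod_eq_one fun x hx => Finset.prod_eq_one fun y hy => ?_
  obtain ⟨hy1, hy2⟩ := Finset.mem_filter.1 hy
  rw [YPm0_fix ha hb hx, YPm0_fix ha hb hy1, if_pos hy2]

theorem ks_swap_mem {a b : Ω} (h : a ≠ b) {S : Finset Ω} (ha : a ∈ S) (hb : b ∈ S) :
    ks (swap a b) S = -1 := by
  obtain ⟨S0, ha0, hb0, rfl⟩ : ∃ S0 : Finset Ω, a ∉ S0 ∧ b ∉ S0 ∧ S = insert a (insert b S0) := by
    refine ⟨(S.erase a).erase b, by simp, by simp, ?_⟩
    rw [Finset.insert_erase (Finset.mem_erase.2 ⟨h.symm, hb⟩), Finset.insert_erase ha]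
  have hm : S0.map (swap a b).toEmbedding = S0 := by
    ext x
    simp only [Finset.mem_map, Equiv.coe_toEmbedding]
    constructor
    · rintro ⟨y, hy, rfl⟩
      rwa [YPm0_fix ha0 hb0 hy]
    · intro hx
      exact ⟨x, hx, YPm0_fix ha0 hb0 hx⟩
  have ha1 : a ∉ insert b S0 := by simp [h, ha0]
  have hm1 : (insert b S0).map (swap a b).toEmbedding = insert a S0 := by
    rw [Finset.map_insert, hm]; simp
  rw [ks_insert _ ha1, ks_insert _ hb0, hm1, hm, ks_swap_notMem ha0 hb0, swap_apply_left,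
    swap_apply_right, fock_sg_insert a hb0, fock_sg_insert b ha0]
  have h1 := sg_mul_self a S0
  have h2 := sg_mul_self b S0
  rcases lt_or_gt_of_ne h with h3 | h3
  · rw [if_neg (not_lt_of_gt h3), if_pos h3]
    linear_combination (-(sg b S0 * sg b S0)) * h1 - h2
  · rw [if_pos h3, if_neg (not_lt_of_gt h3)]
    linear_combination (-(sg b S0 * sg b S0)) * h1 - h2

end Pool.Agent.HCF
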