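import Pool.Agent.P.MP_f644fa_ag.YCmp
import Pool.Agent.P.MP_f644fa_ag.Basic0

/-! A finite free resolution. -/

noncomputable section
namespace Pool.Agent.HCF
open MvPolynomial Matrix

theorem yres0_sub_mem {A : Type} [CommRing A] {c : ℕ} (a : Fin c → A) (p : MvPolynomial (Fin c) A) :
    p - C (eval a p) ∈ Ideal.span (Set.range fun k => (X k - C (a k) : MvPolynomial (Fin c) A)) := by
  induction p using MvPolynomial.induction_on with
  | C x => simp
  | add p q hp hq =>
    have e : p + q - C (eval a (p + q)) = (p - C (eval a p)) + (q - C (eval a q)) := by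
      rw [map_add, map_add]; ring
    rw [e]
    exact Ideal.add_mem _ hp hq
  | mul_X p k hp =>
    have e : p * X k - C (eval a (p * X k)) =
        (p - C (eval a p)) * X k + C (eval a p) * (X k - C (a k)) := by
      rw [map_mul, eval_X, map_mul]; ring
    rw [e]
    exact Ideal.add_mem _ (Ideal.mul_mem_right _ _ hp)
      (Ideal.mul_mem_left _ _ (Ideal.subset_span ⟨k, rfl⟩))

theorem yres0_noeth {B A : Type} [CommRing B] [CommRing A] [IsNoetherianRing B]
    (ψ : B →+* A) {d : ℕ} (b : Fin d → A)
    (hb : Function.Surjective fun v : Fin d → B => ∑ i, ψ (v i) * b i) : IsNoetherianRing A := by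
  letI : Algebra B A := ψ.toAlgebra
  have hf : Module.Finite B A := by
    refine Module.Finite.of_surjective (Fintype.linearCombination B b) fun x => ?_
    obtain ⟨v, hv⟩ := hb x
    exact ⟨v, by rw [Fintype.linearCombination_apply]; exact hv⟩
  exact IsNoetherianRing.of_finite B A

theorem yres0_bij {B A : Type} [CommRing B] [CommRing A]
    (ψ : B →+* A) {d c : ℕ} (b : Fin d → A)
    (hb : Function.Bijective fun v : Fin d → B => ∑ i, ψ (v i) * b i) :
    Function.Bijective fun v : Fin d → MvPolynomial (Fin c) B =>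
      ∑ i, MvPolynomial.map ψ (v i) * C (b i) := by
  constructor
  · intro v w h
    funext i
    ext m
    have h1 := congrArg (coeff m) h
    simp only [coeff_sum, mul_comm _ (C _), coeff_C_mul, coeff_map] at h1
    have h2 : (fun i => coeff m (v i)) = fun i => coeff m (w i) := by
      apply hb.1
      simp only [mul_comm _ (b _)]
      exact h1
    exact congrFun h2 i
  · intro p
    induction p using MvPolynomial.induction_on with
    | C x =>
      obtain ⟨v, hv⟩ := hb.2 x
      refine ⟨fun i => C (v i), ?_⟩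
      simp only [map_C, ← map_mul, ← map_sum]
      exact congrArg C hv
    | add p q hp hq =>
      obtain ⟨v, rfl⟩ := hp
      obtain ⟨w, rfl⟩ := hq
      refine ⟨v + w, ?_⟩
      simp only [Pi.add_apply, map_add, add_mul, Finset.sum_add_distrib]
    | mul_X p k hp =>
      obtain ⟨v, rfl⟩ := hp
      refine ⟨fun i => v i * X k, ?_⟩
      simp only [map_mul, map_X, Finset.sum_mul]
      exact Finset.sum_congr rfl fun i _ => by ring

theorem yres0_abs {S O A : Type} [CommRing S] [CommRing O] [CommRing A] [Algebra S O] {d c : ℕ}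
    (φ : S →+* A) (ev : O →+* A) (hev : ∀ s, ev (algebraMap S O s) = φ s) (β : Fin d → O)
    (hβ : Function.Bijective fun v : Fin d → S => ∑ i, algebraMap S O (v i) * β i)
    (u : Fin c → O) (hu : ∀ k, ev (u k) = 0) (hs : Function.Surjective ev)
    (hK : ∀ z : Finset (Fin c) → O, iov O u z = 0 → ev (z ∅) = 0 → ∃ w, iov O u w = z) :
    ∃ L : Cpx φ (Finset (Fin c) × Fin d) c, L.Ex 1 ∧ Function.Surjective L.aug := by
  classical
  have hβ' : Function.Bijective (Fintype.linearCombination S β) := by
    have e : (Fintype.linearCombination S β : (Fin d → S) → O) =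
        fun v => ∑ i, algebraMap S O (v i) * β i := by
      funext v
      simp only [Fintype.linearCombination_apply, Algebra.smul_def]
    rw [e]
    exact hβ
  let Φ : (Fin d → S) ≃ₗ[S] O := LinearEquiv.ofBijective _ hβ'
  have hΦ : ∀ v, Φ v = ∑ i, algebraMap S O (v i) * β i := fun v => by
    simp only [Φ, LinearEquiv.ofBijective_apply, Fintype.linearCombination_apply, Algebra.smul_def]
  let Ψ : (Finset (Fin c) × Fin d → S) ≃ₗ[S] (Finset (Fin c) → O) :=
    (LinearEquiv.curry S S (Finset (Fin c)) (Fin d)).trans (LinearEquiv.piCongrRight fun _ => Φ)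
  have hΨ : ∀ v J, Ψ v J = Φ fun i => v (J, i) := fun v J => rfl
  have hΨ' : ∀ y q, Ψ.symm y q = Φ.symm (y q.1) q.2 := fun y q => rfl
  let D : (Finset (Fin c) × Fin d → S) →ₗ[S] (Finset (Fin c) × Fin d → S) :=
    Ψ.symm.toLinearMap ∘ₗ ((iov O u).restrictScalars S) ∘ₗ Ψ.toLinearMap
  have hD : ∀ v, D v = Ψ.symm (iov O u (Ψ v)) := fun v => rfl
  have hd : ∀ v, LinearMap.toMatrix' D *ᵥ v = Ψ.symm (iov O u (Ψ v)) := fun v => by
    rw [LinearMap.toMatrix'_mulVec, hD]
  have haug : ∀ v : Finset (Fin c) × Fin d → S,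
      ∑ q, φ (v q) * (if q.1 = ∅ then ev (β q.2) else 0) = ev (Ψ v ∅) := fun v => by
    rw [hΨ, hΦ, map_sum, Fintype.sum_prod_type, Finset.sum_eq_single ∅]
    · simp only [if_true, map_mul, hev]
    · intro J _ hJ
      simp only [if_neg hJ, mul_zero, Finset.sum_const_zero]
    · intro h
      exact absurd (Finset.mem_univ _) h
  refine ⟨⟨fun q => q.1.card, LinearMap.toMatrix' D, fun q => if q.1 = ∅ then ev (β q.2) else 0,
    fun q => ?_, fun q q' h => ?_, ?_, fun q h => ?_, fun q => ?_⟩, fun v hv h0 => ?_, fun x => ?_⟩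
  · simpa using q.1.card_le_univ
  · by_contra hne
    apply h
    rw [LinearMap.toMatrix'_apply, hD, hΨ', fock_iov]
    have e : ∑ j, u j • io O O j (Ψ (Pi.single q' 1)) q.1 = 0 := by
      refine Finset.sum_eq_zero fun j _ => ?_
      rw [io_apply]
      split_ifs with hj
      · exact smul_zero _
      · have e1 : (fun i => (Pi.single q' (1 : S) : Finset (Fin c) × Fin d → S) (insert j q.1, i))
            = 0 := by
          funext i
          refine Pi.single_eq_of_ne ?_ _
          rintro rfl
          exact hne (Finset.card_insert_of_notMem hj)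
        rw [hΨ, e1, map_zero, smul_zero, smul_zero]
    rw [e, map_zero, Pi.zero_apply]
  · rw [← LinearMap.toMatrix'_mul]
    have e : D * D = 0 := by
      refine LinearMap.ext fun v => ?_
      rw [Module.End.mul_apply, hD, hD, LinearEquiv.apply_symm_apply, ← Module.End.mul_apply, iov_sq,
        LinearMap.zero_apply, map_zero, LinearMap.zero_apply]
    rw [e, map_zero]
  · by_cases hq : q.1 = ∅
    · exact Finset.card_eq_zero.2 hq
    · exact absurd (if_neg hq) h
  · have e := haug (D (Pi.single q 1))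
    simp only [LinearMap.toMatrix'_apply]
    rw [e, hD, LinearEquiv.apply_symm_apply, fock_iov, map_sum]
    exact Finset.sum_eq_zero fun j _ => by rw [smul_eq_mul, map_mul, hu, zero_mul]
  · have h1 : iov O u (Ψ v) = 0 := by
      have := hd v
      rw [show LinearMap.toMatrix' D *ᵥ v = 0 from hv] at this
      exact Ψ.symm.map_eq_zero_iff.1 this.symm
    obtain ⟨w, hw⟩ := hK _ h1 ((haug v).symm.trans h0)
    refine ⟨Ψ.symm w, ?_⟩
    show LinearMap.toMatrix' D *ᵥ Ψ.symm w = (1 : S) • v
    rw [hd, LinearEquiv.apply_symm_apply, hw, LinearEquiv.symm_apply_apply, one_smul]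
  · obtain ⟨p, rfl⟩ := hs x
    refine ⟨Ψ.symm fun _ => p, (haug _).trans ?_⟩
    rw [LinearEquiv.apply_symm_apply]

theorem exists_res_abs {B A : Type} [CommRing B] [CommRing A] [Algebra ℂ A] [IsNoetherianRing B]
    (ψ : B →+* A) {d c : ℕ} (b : Fin d → A)
    (hb : Function.Bijective fun v : Fin d → B => ∑ i, ψ (v i) * b i) (a : Fin c → A) :
    ∃ L : Cpx (eval₂Hom ψ a : MvPolynomial (Fin c) B →+* A) (Finset (Fin c) × Fin d) c,
      L.Ex 1 ∧ Function.Surjective L.aug := by
  letI : Algebra (MvPolynomial (Fin c) B) (MvPolynomial (Fin c) A) :=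
    (MvPolynomial.map ψ).toAlgebra
  haveI : IsNoetherianRing A := yres0_noeth ψ b hb.2
  obtain ⟨k, hk⟩ := kos_loc (fun k => (X k - C (a k) : MvPolynomial (Fin c) A)) 1
    (fun l => (pderiv l).restrictScalars ℂ) (fun l j => by
      show pderiv l (X j - C (a j)) = _
      rw [map_sub, pderiv_C, sub_zero, pderiv_X, Pi.single_apply])
  refine yres0_abs _ (eval a) (fun s => eval_map ψ a s) (fun i => C (b i)) (yres0_bij ψ b hb)
    (fun k => X k - C (a k)) (fun k => by simp) (fun x => ⟨C x, eval_C _⟩) fun z hz h0 => ?_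
  have h1 := yres0_sub_mem a (z ∅)
  rw [h0, map_zero, sub_zero] at h1
  obtain ⟨w, hw⟩ := hk z hz h1
  exact ⟨w, by rw [hw, one_pow, one_smul]⟩

end Pool.Agent.HCF
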