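import Pool.Agent.P.MP_f644fa_ag.YRes0

/-! A finite free resolution. -/

noncomputable section
namespace Pool.Agent.HCF
open MvPolynomial Matrix

theorem yres1_equiv {M : ℕ} {τ : Type} [Fintype τ] (b : Module.Basis τ ℂ (Fin M → ℂ)) :
    ∃ φ : MvPolynomial τ ℂ ≃ₐ[ℂ] SS M, ∀ s, φ (X s) = lin (b s) := by
  let l : (Fin M → ℂ) →ₗ[ℂ] SS M := Fintype.linearCombination ℂ X
  have hl : ∀ a, l a = lin a := fun a => by
    simp only [l, Fintype.linearCombination_apply, lin, smul_eq_C_mul]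
  let g : (Fin M → ℂ) →ₗ[ℂ] MvPolynomial τ ℂ := b.constr ℂ X
  let f : MvPolynomial τ ℂ →ₐ[ℂ] SS M := aeval fun s => l (b s)
  let f' : SS M →ₐ[ℂ] MvPolynomial τ ℂ := aeval fun j => g (Pi.single j 1)
  have e0 : ∀ j, l (Pi.single j 1) = X j := fun j => by
    simp only [l, Fintype.linearCombination_apply_single, one_smul]
  have e1 : f.toLinearMap ∘ₗ g = l := b.ext fun s => by
    simp only [f, g, LinearMap.comp_apply, Module.Basis.constr_basis, AlgHom.toLinearMap_apply,
      aeval_X]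
  have e2 : f'.toLinearMap ∘ₗ l = g := LinearMap.pi_ext' fun j => LinearMap.ext_ring (by
    simp only [f', LinearMap.comp_apply, LinearMap.coe_single, e0, AlgHom.toLinearMap_apply,
      aeval_X])
  refine ⟨AlgEquiv.ofAlgHom f f' (algHom_ext fun j => ?_) (algHom_ext fun s => ?_), fun s => ?_⟩
  · have := LinearMap.congr_fun e1 (Pi.single j 1)
    rw [e0] at this
    rw [AlgHom.comp_apply, AlgHom.id_apply]
    simp only [f', aeval_X]
    exact this
  · have := LinearMap.congr_fun e2 (b s)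
    rw [AlgHom.comp_apply, AlgHom.id_apply]
    simp only [f, aeval_X]
    exact this.trans (b.constr_basis ℂ X s)
  · rw [← hl]
    exact aeval_X _ s

theorem exists_coord {M n c : ℕ} (hM : M = n + 1 + c) (L : Fin (n + 1) → Fin M → ℂ)
    (hL : LinearIndependent ℂ L) : ∃ (Z : Fin c → Fin M → ℂ)
      (θ : MvPolynomial (Fin c) (MvPolynomial (Fin (n + 1)) ℂ) ≃+* SS M),
      (∀ k, θ (X k) = lin (Z k)) ∧ ∀ p, θ (C p) = aeval (fun i => lin (L i)) p := by
  obtain ⟨W, hW⟩ := (Submodule.span ℂ (Set.range L)).exists_isCompl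
  have h1 : Module.finrank ℂ W = c := by
    have := Submodule.finrank_add_eq_of_isCompl hW
    rw [finrank_span_eq_card hL, Module.finrank_fin_fun, Fintype.card_fin] at this
    omega
  let w := Module.finBasisOfFinrankEq ℂ W h1
  have hZ : LinearIndependent ℂ fun k => (w k : Fin M → ℂ) :=
    w.linearIndependent.map' W.subtype W.ker_subtype
  have hs : LinearIndependent ℂ (Sum.elim (fun k => (w k : Fin M → ℂ)) L) :=
    hZ.sum_type hL (hW.disjoint.symm.mono_left (Submodule.span_le.2 (by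
      rintro _ ⟨k, rfl⟩
      exact (w k).2)))
  let b := basisOfLinearIndependentOfCardEqFinrank hs (by
    rw [Module.finrank_fin_fun, Fintype.card_sum, Fintype.card_fin, Fintype.card_fin]; omega)
  have hb : ∀ s, b s = Sum.elim (fun k => (w k : Fin M → ℂ)) L s := fun s => by
    simp only [b, coe_basisOfLinearIndependentOfCardEqFinrank]
  obtain ⟨φ, hφ⟩ := yres1_equiv b
  refine ⟨fun k => w k, (sumRingEquiv ℂ (Fin c) (Fin (n + 1))).symm.trans φ.toRingEquiv,
    fun k => ?_, fun p => ?_⟩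
  · rw [RingEquiv.trans_apply, sumRingEquiv_symm_X]
    exact (hφ _).trans (by rw [hb]; rfl)
  · have h : (((sumRingEquiv ℂ (Fin c) (Fin (n + 1))).symm.trans φ.toRingEquiv).toRingHom).comp C =
        (aeval (fun i => lin (L i)) : MvPolynomial (Fin (n + 1)) ℂ →ₐ[ℂ] SS M).toRingHom := by
      refine MvPolynomial.ringHom_ext (fun r => ?_) fun i => ?_
      · change φ ((sumRingEquiv ℂ (Fin c) (Fin (n + 1))).symm (C (C r))) = aeval _ (C r)
        rw [sumRingEquiv_symm_C_C, aeval_C]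
        exact φ.commutes r
      · change φ ((sumRingEquiv ℂ (Fin c) (Fin (n + 1))).symm (C (X i))) = aeval _ (X i)
        rw [sumRingEquiv_symm_C_X, aeval_X, hφ, hb]
        rfl
    exact RingHom.congr_fun h p

theorem kex_X (M : ℕ) : KEx (X : Fin M → SS M) := by
  intro z h0 hz
  obtain ⟨k, hk⟩ := kos_loc (X : Fin M → SS M) 1 (fun l => pderiv l) fun l j => by
    rw [pderiv_X, Pi.single_apply]
  obtain ⟨b, hb⟩ := hk z hz (by rw [h0]; exact zero_mem _)
  exact ⟨b, by rw [hb, one_pow, one_smul]⟩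

theorem poly_ns {M : ℕ} (𝔞 : Ideal (SS M)) (h : ∀ x : Fin M → ℂ, x ≠ 0 → ∃ g ∈ 𝔞, eval x g ≠ 0)
    (j : Fin M) : ∃ K : ℕ, (X j : SS M) ^ K ∈ 𝔞 := by
  change X j ∈ 𝔞.radical
  rw [← vanishingIdeal_zeroLocus_eq_radical (K := ℂ) 𝔞]
  intro x hx
  rw [aeval_X]
  by_cases h0 : x = 0
  · rw [h0, Pi.zero_apply]
  · obtain ⟨g, hg, hg'⟩ := h x h0
    exact absurd (hx g hg) hg'

end Pool.Agent.HCF
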