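import Pool.Agent.P.MP_f644fa_ag.Y0
import Pool.Agent.P.MP_f644fa_ag.Wedge0

/-! Semicontinuity of the homology and the count of the Betti numbers. -/

noncomputable section
namespace Pool.Agent.HCF
open Finset Matrix Equiv

theorem ySemi0_li {A τ σ : Type} [CommRing A] [IsDomain A] [Fintype τ] [Fintype σ] (φ : A →+* ℂ)
    (v : τ → σ → A) (h : LinearIndependent ℂ fun t i => φ (v t i)) : LinearIndependent A v := by
  let _ : LinearOrder σ := LinearOrder.lift' _ (Fintype.equivFin σ).injective
  let e := (Fintype.equivFin τ).symm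
  rw [← linearIndependent_equiv e, ← wedge_ne_zero_iff]
  intro h0
  have h1 := (wedge_ne_zero_iff _).2 ((linearIndependent_equiv e).2 h)
  apply h1
  have h2 := wedge_map φ (v ∘ e)
  rw [h0] at h2
  refine Eq.trans (Eq.symm h2) ?_
  funext J
  simp

theorem ySemi0_mod {E : Type} [AddCommGroup E] [Module ℂ E] [Module.Finite ℂ E] (Z B : Submodule ℂ E)
    {r : ℕ} (h : Module.finrank ℂ B + r ≤ Module.finrank ℂ Z) :
    ∃ z : Fin r → E, (∀ k, z k ∈ Z) ∧ ∀ t : Fin r → ℂ, ∑ k, t k • z k ∈ B → t = 0 := by
  let q := B.mkQ ∘ₗ Z.subtype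
  have h1 := q.finrank_range_add_finrank_ker
  have h2 : Module.finrank ℂ (LinearMap.ker q) ≤ Module.finrank ℂ B := by
    rw [← Submodule.finrank_map_subtype_eq]
    refine Submodule.finrank_mono ?_
    rintro _ ⟨x, hx, rfl⟩
    exact (Submodule.Quotient.mk_eq_zero B).1 hx
  obtain ⟨f, hf⟩ := exists_linearIndependent_of_le_finrank (R := ℂ) (M := LinearMap.range q) (n := r)
    (by omega)
  choose y hy using fun k => (f k).2
  refine ⟨fun k => y k, fun k => (y k).2, fun t ht => funext fun k => ?_⟩
  refine Fintype.linearIndependent_iff.1 hf t (Subtype.ext ?_) k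
  have h3 : q (∑ k, t k • y k) = 0 := by
    refine (Submodule.Quotient.mk_eq_zero B).2 ?_
    simpa using ht
  simpa [map_sum, hy] using h3

variable {ι : Type} [Fintype ι] [DecidableEq ι] {deg : ι → ℕ} {c : ℕ}

omit [DecidableEq ι] in
theorem ySemi0_cols (d : Matrix ι ι ℂ) (p : ι → Prop) :
    ∃ (κ : Type) (_ : Fintype κ) (a : κ → {i // p i}),
      (LinearIndependent ℂ fun t x => d x (a t)) ∧
      Module.finrank ℂ (Submodule.span ℂ (Set.range fun (i : {i // p i}) x => d x i)) =
        Fintype.card κ := by
  obtain ⟨κ, a, ha, hs, hl⟩ := exists_linearIndependent' ℂ (fun (i : {i // p i}) x => d x i)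
  have : Finite κ := Finite.of_injective a ha
  let _ : Fintype κ := Fintype.ofFinite κ
  exact ⟨κ, inferInstance, a, hl, by rw [← hs, finrank_span_eq_card hl]⟩

theorem hge_of {A κ : Type} [CommRing A] [IsDomain A] [Fintype κ] [DecidableEq κ] {deg' : κ → ℕ}
    {d : Matrix ι ι A} {α : Matrix κ ι A} {β : Matrix ι κ A} {g : A} (hg : g ≠ 0) (hd : Low deg d)
    (dd : d * d = 0) (hβ : DP deg deg' β) (h1 : d * β = 0) (h2 : α * d = 0)
    (h3 : α * β = g • (1 : Matrix κ κ A)) (φ : A →+* ℂ) (j : ℕ) :
    Hge deg (d.map φ) j (univ.filter fun k => deg' k = j).card := by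
  obtain ⟨κ1, _, a1, l1, r1⟩ := ySemi0_cols (d.map φ) fun i => deg i = j
  obtain ⟨κ2, _, a2, l2, r2⟩ := ySemi0_cols (d.map φ) fun i => deg i = j + 1
  have m1 := ySemi0_li φ (fun t x => d x (a1 t)) l1
  have m2 := ySemi0_li φ (fun t x => d x (a2 t)) l2
  let F : κ1 ⊕ κ2 ⊕ {k // deg' k = j} → ι → A :=
    Sum.elim (fun t => Pi.single (a1 t : ι) 1)
      (Sum.elim (fun t x => d x (a2 t)) fun k x => β x k)
  have hF : ∀ s x, F s x ≠ 0 → deg x = j := by
    rintro (t | t | k) x hx
    · by_contra hne
      refine hx (Pi.single_eq_of_ne (M := fun _ => A) ?_ 1)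
      rintro rfl
      exact hne (a1 t).2
    · have := hd x _ hx
      have := (a2 t).2
      omega
    · exact (hβ x _ hx).trans k.2
  have hcol : ∀ {μ ν : Type} (M : Matrix μ ι A) (N : Matrix ι ν A) (k : ν),
      (M *ᵥ fun x => N x k) = fun y => (M * N) y k := fun M N k => rfl
  have hli : LinearIndependent A fun s (x : {i // deg i = j}) => F s x := by
    refine Fintype.linearIndependent_iff.2 fun t ht => ?_
    have e0 : ∑ s, t s • F s = 0 := by
      funext x
      by_cases hx : deg x = j
      · simpa using congrFun ht ⟨x, hx⟩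
      · rw [Finset.sum_apply]
        refine sum_eq_zero fun s _ => ?_
        have : F s x = 0 := by_contra fun h => hx (hF s x h)
        simp [this]
    have hap : ∀ {μ : Type} (M : Matrix μ ι A), ∑ s, t s • M *ᵥ F s = 0 := fun M => by
      have := congrArg M.mulVecLin e0
      rw [map_sum, map_zero] at this
      simpa only [map_smul, mulVecLin_apply] using this
    have e1 : ∀ s, t (Sum.inl s) = 0 := by
      refine Fintype.linearIndependent_iff.1 m1 _ ?_
      have := hap d
      have z0 : ∀ s, d *ᵥ F (Sum.inl s) = fun x => d x (a1 s) := fun s => mulVec_single_one d _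
      have z1 : ∀ s, d *ᵥ F (Sum.inr s) = 0 := by
        rintro (s | s)
        · exact (hcol d d _).trans (by rw [dd]; rfl)
        · exact (hcol d β _).trans (by rw [h1]; rfl)
      simpa only [Fintype.sum_sum_type (α₁ := κ1), z0, z1, smul_zero, sum_const_zero, add_zero]
        using this
    have e3 : ∀ s, t (Sum.inr (Sum.inr s)) = 0 := fun s => by
      have := hap α
      have z1 : ∀ s, α *ᵥ F (Sum.inr (Sum.inl s)) = 0 := fun s =>
        (hcol α d _).trans (by rw [h2]; rfl)
      have z2 : ∀ s, α *ᵥ F (Sum.inr (Sum.inr s)) = fun y => g * (1 : Matrix κ κ A) y s := fun s =>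
        (hcol α β _).trans (by rw [h3]; rfl)
      simp only [Fintype.sum_sum_type, e1, z1, z2, zero_smul, smul_zero, sum_const_zero,
        zero_add] at this
      have := congrFun this s.1
      rw [Finset.sum_apply, sum_eq_single s] at this
      · simpa [hg] using this
      · intro b _ hb
        have : (1 : Matrix κ κ A) s b = 0 := Matrix.one_apply_ne fun h => hb (Subtype.ext h.symm)
        simp only [Pi.smul_apply, this, mul_zero, smul_zero]
      · simp
    have e2 : ∀ s, t (Sum.inr (Sum.inl s)) = 0 := by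
      refine Fintype.linearIndependent_iff.1 m2 _ ?_
      simpa only [Fintype.sum_sum_type, F, Sum.elim_inl, Sum.elim_inr, e1, e3, zero_smul,
        sum_const_zero, zero_add, add_zero] using e0
    rintro (s | s | s)
    exacts [e1 s, e2 s, e3 s]
  have hcard := hli.fintype_card_le_finrank
  rw [Module.finrank_fintype_fun_eq_card, Fintype.card_sum, Fintype.card_sum,
    Fintype.card_subtype] at hcard
  let M1 : Matrix ι {i // deg i = j} ℂ := (d.map φ).submatrix id Subtype.val
  let X : Matrix ι {i // deg i = j} ℂ := (1 : Matrix ι ι ℂ).submatrix id Subtype.val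
  have hX : d.map φ * X = M1 := by
    ext x y
    simp [X, M1, Matrix.mul_apply, Matrix.one_apply]
  have hXv : ∀ (v : {i // deg i = j} → ℂ) (y : {i // deg i = j}), (X *ᵥ v) y = v y := fun v y => by
    simp [X, mulVec, dotProduct, Matrix.one_apply, Subtype.val_inj]
  have hXi : Function.Injective X.mulVecLin := fun v w h => funext fun y => by
    rw [← hXv v, ← hXv w]
    exact congrFun h y
  have n1 := M1.mulVecLin.finrank_range_add_finrank_ker
  rw [Matrix.range_mulVecLin, Module.finrank_fintype_fun_eq_card] at n1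
  have n2 : Module.finrank ℂ (Submodule.span ℂ (Set.range M1.col)) = Fintype.card κ1 := r1
  have n3 := (Submodule.equivMapOfInjective _ hXi (LinearMap.ker M1.mulVecLin)).finrank_eq
  obtain ⟨z, hz, hz'⟩ := ySemi0_mod ((LinearMap.ker M1.mulVecLin).map X.mulVecLin)
    (Submodule.span ℂ (Set.range fun (i : {i // deg i = j + 1}) x => (d.map φ) x i))
    (r := (univ.filter fun k => deg' k = j).card) (by omega)
  have hs : ∀ k i, z k i ≠ 0 → deg i = j := fun k i hi => by
    obtain ⟨v, -, hv⟩ := hz k
    by_contra hne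
    apply hi
    rw [← hv]
    refine sum_eq_zero fun y _ => ?_
    have : X i y = 0 := Matrix.one_apply_ne fun h : i = y.1 => hne (h ▸ y.2)
    exact mul_eq_zero_of_left this _
  refine ⟨z, hs, fun k => ?_, fun t w hw => hz' t ?_⟩
  · obtain ⟨v, hv0, hv⟩ := hz k
    rw [← hv, mulVecLin_apply, mulVec_mulVec, hX]
    exact hv0
  · have key : ∑ k, t k • z k = ∑ i : {i // deg i = j + 1}, w i • fun x => (d.map φ) x i := by
      funext x
      have hl : ∀ i, (d.map φ) x i ≠ 0 → deg i = deg x + 1 := fun i hi =>
        hd x i fun h => hi (by simp [h])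
      rw [Finset.sum_apply, Finset.sum_apply]
      by_cases hx : deg x = j
      · rw [← Finset.sum_apply, hw, mulVec, dotProduct,
          ← Fintype.sum_subtype_add_sum_subtype (fun i => deg i = j + 1),
          sum_eq_zero (s := univ) (f := fun i : {i // ¬deg i = j + 1} => (d.map φ) x i * w i), add_zero]
        · exact sum_congr rfl fun i _ => mul_comm _ _
        · intro i _
          have : (d.map φ) x i = 0 := by_contra fun h => i.2 (hx ▸ hl i h)
          rw [this, zero_mul]
      · rw [sum_eq_zero, sum_eq_zero]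
        · intro i _
          have : (d.map φ) x i = 0 := by_contra fun h => hx (by have := hl i h; have := i.2; omega)
          simp only [Pi.smul_apply, this, smul_zero]
        · intro k _
          have : z k x = 0 := by_contra fun h => hx (hs k x h)
          simp only [Pi.smul_apply, this, smul_zero]
    rw [key]
    exact Submodule.sum_mem _ fun i _ => Submodule.smul_mem _ _ (Submodule.subset_span ⟨i, rfl⟩)

theorem LD.hge {S A : Type} [CommRing S] [CommRing A] [IsDomain A] {ψ : S →+* A} {d : Matrix ι ι S}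
    {g : S} (F : LD ψ deg d c g) (hg : ψ g ≠ 0) (hd : Low deg d) (dd : d * d = 0) (φ : A →+* ℂ)
    (j : ℕ) : Hge deg ((d.map ψ).map φ) j (c.choose j) := by
  have h := hge_of (deg := deg) (deg' := Finset.card) (d := d.map ψ) (α := F.α.map ψ) (β := F.β.map ψ)
    hg (fun i k h => hd i k fun h0 => h (by simp [h0]))
    (by rw [← Matrix.map_mul, dd, Matrix.map_zero _ ψ.map_zero])
    (fun i k h => F.β_deg i k fun h0 => h (by simp [h0]))
    (by rw [← Matrix.map_mul, F.dβ]) (by rw [← Matrix.map_mul, F.αd])
    (by rw [← Matrix.map_mul, F.αβ]) φ j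
  have hc : (univ.filter fun k : Finset (Fin c) => k.card = j).card = c.choose j := by
    rw [← powerset_univ, ← powersetCard_eq_filter, card_powersetCard, card_univ, Fintype.card_fin]
  rwa [hc] at h

end Pool.Agent.HCF
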