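import Pool.Agent.P.MP_f644fa_ag.YTp0

/-! Tensor products of matrices and the differential of the tensor power. -/

noncomputable section
namespace Pool.Agent.HCF
open Finset Matrix Equiv

variable {A Ω ι κ μ : Type} [CommRing A] [Fintype Ω] [LinearOrder Ω]

theorem ytp_upd (f : Ω → Matrix ι κ A) (ω : Ω) (x : Matrix ι κ A) (T : Ω → ι) (T' : Ω → κ) :
    tp (Function.update f ω x) T T' =
      x (T ω) (T' ω) * ∏ ω' ∈ univ.erase ω, f ω' (T ω') (T' ω') := by
  simp only [tp, Matrix.of_apply]
  rw [← Finset.mul_prod_erase univ _ (mem_univ ω), Function.update_self]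
  congr 1
  exact Finset.prod_congr rfl fun ω' h => by rw [Function.update_of_ne (ne_of_mem_erase h)]

theorem ytp_diag {π : ι → Bool} {π' : κ → Bool} [Fintype ι] [DecidableEq ι] [Fintype κ]
    [DecidableEq κ] {m : Ω → Matrix ι κ A} (h : ∀ ω, DP π π' (m ω)) (ω : Ω) :
    Matrix.diagonal (fun T => (sg ω (od π T) : A)) * tp m =
      tp m * Matrix.diagonal (fun T => (sg ω (od π' T) : A)) := by
  ext T T'
  rw [Matrix.diagonal_mul, Matrix.mul_diagonal]
  by_cases h0 : tp m T T' = 0
  · simp [h0]
  · rw [tp_od h h0, mul_comm]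

variable [Fintype ι] [DecidableEq ι] {π : ι → Bool}

theorem ytp_gam (ω : Ω) (m : Matrix ι ι A) :
    Gam π ω m = tp (Function.update (fun _ => 1) ω m) *
      Matrix.diagonal (fun T => (sg ω (od π T) : A)) := by
  ext T T'
  rw [Matrix.mul_diagonal, Gam, Matrix.of_apply, mul_comm]

theorem ytp_comm {m : Ω → Matrix ι ι A} {d : Matrix ι ι A} (h : ∀ ω, DP π π (m ω))
    (hc : ∀ ω, m ω * d = d * m ω) : tp m * DT Ω π d = DT Ω π d * tp m := by
  rw [DT, Matrix.mul_sum, Matrix.sum_mul]
  refine Finset.sum_congr rfl fun ω _ => ?_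
  rw [ytp_gam, Matrix.mul_assoc, ytp_diag h, ← Matrix.mul_assoc, ← Matrix.mul_assoc, tp_mul,
    tp_mul]
  congr 2
  funext ω'
  by_cases e : ω' = ω
  · subst e; simp [hc]
  · simp [Function.update_of_ne e]

theorem ytp_anti {d h : Matrix ι ι A} (hd : Od π d) (hh : Od π h) (ω : Ω) :
    DT Ω π d * Gam π ω h + Gam π ω h * DT Ω π d =
      tp (Function.update (fun _ => 1) ω (d * h + h * d)) := by
  rw [DT, Matrix.mul_sum, Matrix.sum_mul, ← Finset.sum_add_distrib, Finset.sum_eq_single ω]
  · rw [Gam_same ω hd hh, Gam_same ω hh hd]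
    ext T T'
    simp only [Matrix.add_apply, ytp_upd, add_mul]
  · intro ω' _ e
    exact Gam_anti e hd hh
  · simp

theorem DT_map {B : Type} [CommRing B] (φ : A →+* B) (d : Matrix ι ι A) :
    (DT Ω π d).map φ = DT Ω π (d.map φ) := by
  ext T T'
  simp only [DT, Gam, Matrix.map_apply, Matrix.sum_apply, map_sum, Matrix.of_apply, map_mul,
    map_intCast, ytp_upd, map_prod, Matrix.one_apply, apply_ite φ, map_one, map_zero]

theorem DT_sq {d : Matrix ι ι A} (hd : Od π d) (dd : d * d = 0) : DT Ω π d * DT Ω π d = 0 := by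
  have h0 : ∀ ω : Ω, Gam π ω d * Gam π ω d = 0 := fun ω => by
    rw [Gam_same ω hd hd, dd]
    exact tp_eq_zero (ω := ω) (Function.update_self ..)
  rw [DT, Finset.sum_mul_sum, ← Finset.sum_product']
  refine Finset.sum_involution (fun a _ => a.swap) ?_ ?_ (fun a _ => by simp) (fun a _ => rfl)
  · rintro ⟨ω, ω'⟩ _
    by_cases e : ω = ω'
    · subst e; simp [h0]
    · exact Gam_anti e hd hd
  · rintro ⟨ω, ω'⟩ _ hne e
    have : ω' = ω := (Prod.ext_iff.1 e).1
    subst this
    exact hne (h0 _)

theorem DT_low {deg : ι → ℕ} {d : Matrix ι ι A} (hd : Low deg d) :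
    Low (fun T : Ω → ι => ∑ ω, deg (T ω)) (DT Ω π d) := by
  intro T T' h
  rw [DT, Matrix.sum_apply] at h
  obtain ⟨ω, -, h1⟩ := Finset.exists_ne_zero_of_sum_ne_zero h
  rw [Gam, Matrix.of_apply, ytp_upd] at h1
  have h2 := right_ne_zero_of_mul h1
  have h3 := hd _ _ (left_ne_zero_of_mul h2)
  have h4 : ∀ ω' ∈ univ.erase ω, deg (T' ω') = deg (T ω') := fun ω' hω => by
    by_contra e
    refine right_ne_zero_of_mul h2 (Finset.prod_eq_zero hω ?_)
    exact Matrix.one_apply_ne fun e' => e (by rw [e'])
  show ∑ ω, deg (T' ω) = ∑ ω, deg (T ω) + 1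
  rw [← Finset.add_sum_erase univ _ (mem_univ ω), ← Finset.add_sum_erase univ _ (mem_univ ω), h3,
    Finset.sum_congr rfl h4]
  ring

theorem DT_tp {π' : κ → Bool} {d : Matrix ι ι A} {β : Matrix ι κ A} (hβ : DP π π' β)
    (h : d * β = 0) : DT Ω π d * tp (fun _ : Ω => β) = 0 := by
  ext T T'
  rw [DT, Matrix.sum_mul, Matrix.sum_apply]
  refine Finset.sum_eq_zero fun ω _ => ?_
  have h1 : (tp (Function.update (fun _ => 1) ω d) * tp (fun _ : Ω => β)) T T' = 0 := by
    rw [tp_mul, tp_eq_zero (ω := ω) (by simp [h])]; rfl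
  rw [Matrix.mul_apply] at h1 ⊢
  rw [← mul_zero ((sg ω (od π' T') : ℤ) : A), ← h1, Finset.mul_sum]
  refine Finset.sum_congr rfl fun U _ => ?_
  by_cases h0 : tp (fun _ : Ω => β) U T' = 0
  · simp [h0]
  · rw [Gam, Matrix.of_apply, tp_od (fun _ => hβ) h0, mul_assoc]

theorem tp_DT {d : Matrix ι ι A} {α : Matrix κ ι A} (h : α * d = 0) :
    tp (fun _ : Ω => α) * DT Ω π d = 0 := by
  rw [DT, Matrix.mul_sum]
  refine Finset.sum_eq_zero fun ω _ => ?_
  rw [ytp_gam, ← Matrix.mul_assoc, tp_mul, tp_eq_zero (ω := ω) (by simp [h]), Matrix.zero_mul]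

/-- the homotopy on the tensor power -/
theorem DT_htp {d h P : Matrix ι ι A} {g : A} (hd : Od π d) (dd : d * d = 0) (hP : DP π π P)
    (h3 : d * h + h * d = g • (1 : Matrix ι ι A) - P) :
    ∃ H, DT Ω π d * H + H * DT Ω π d =
      g ^ Fintype.card Ω • (1 : Matrix (Ω → ι) (Ω → ι) A) - tp fun _ : Ω => P := by
  have hP' : P = g • (1 : Matrix ι ι A) - (d * h + h * d) := by rw [h3]; abel
  have hc : P * d = d * P := by
    rw [hP', Matrix.sub_mul, Matrix.mul_sub, Matrix.add_mul, Matrix.mul_add, Matrix.mul_assoc h,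
      dd, ← Matrix.mul_assoc d d, dd]
    simp [Matrix.mul_assoc]
  obtain ⟨k, hk, h4⟩ : ∃ k : Matrix ι ι A, Od π k ∧
      d * k + k * d = g • (1 : Matrix ι ι A) - P := by
    refine ⟨Matrix.of fun i j => if π j = !π i then h i j else 0, ?_, ?_⟩
    · intro i j h0
      by_contra e
      exact h0 (by simp [e])
    · ext i l
      by_cases e : π l = π i
      · rw [← h3]
        simp only [Matrix.add_apply, Matrix.mul_apply, Matrix.of_apply]
        congr 1
        · refine Finset.sum_congr rfl fun j _ => ?_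
          by_cases h0 : d i j = 0
          · simp [h0]
          · rw [if_pos (by rw [hd i j h0, e]; simp)]
        · refine Finset.sum_congr rfl fun j _ => ?_
          by_cases h0 : d j l = 0
          · simp [h0]
          · rw [if_pos (by rw [← e, hd j l h0]; simp)]
      · have e1 : i ≠ l := fun e' => e (by rw [e'])
        have e2 : P i l = 0 := by
          by_contra h0
          exact e (hP i l h0).symm
        simp only [Matrix.add_apply, Matrix.mul_apply, Matrix.of_apply, Matrix.sub_apply,
          Matrix.smul_apply, Matrix.one_apply_ne e1, e2, smul_zero, sub_zero]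
        rw [Finset.sum_eq_zero, Finset.sum_eq_zero, add_zero]
        · intro j _
          by_cases h0 : d j l = 0
          · simp [h0]
          · rw [if_neg, zero_mul]
            intro e3
            exact e (by rw [hd j l h0, e3]; simp)
        · intro j _
          by_cases h0 : d i j = 0
          · simp [h0]
          · rw [if_neg, mul_zero]
            intro e3
            exact e (by rw [e3, hd i j h0]; simp)
  have key : ∀ s : Finset Ω, ∃ H, DT Ω π d * H + H * DT Ω π d =
      g ^ s.card • (1 : Matrix (Ω → ι) (Ω → ι) A) - tp fun ω : Ω => if ω ∈ s then P else 1 := by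
    intro s
    induction s using Finset.induction_on with
    | empty => exact ⟨0, by simp [tp_one]⟩
    | insert ω s hω ih =>
      obtain ⟨H, hH⟩ := ih
      set Q := tp fun ω : Ω => if ω ∈ s then P else (1 : Matrix ι ι A) with hQ
      have hQD : Q * DT Ω π d = DT Ω π d * Q := by
        refine ytp_comm (fun ω' => ?_) (fun ω' => ?_)
        · split_ifs
          · exact hP
          · intro i j h0
            by_contra e
            exact h0 (Matrix.one_apply_ne fun e' => e (by rw [e']))
        · split_ifs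
          · exact hc
          · simp
      have h5 : tp (Function.update (fun _ : Ω => (1 : Matrix ι ι A)) ω (g • 1 - P)) =
          g • 1 - tp (Function.update (fun _ : Ω => (1 : Matrix ι ι A)) ω P) := by
        rw [← tp_one (Ω := Ω), ← Function.update_eq_self ω (fun _ : Ω => (1 : Matrix ι ι A))]
        ext T T'
        simp only [Function.update_idem, Matrix.sub_apply, Matrix.smul_apply, ytp_upd, sub_mul,
          smul_eq_mul, mul_assoc]
      have h6 : Q * tp (Function.update (fun _ : Ω => (1 : Matrix ι ι A)) ω P) =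
          tp fun ω' : Ω => if ω' ∈ insert ω s then P else 1 := by
        rw [hQ, tp_mul]
        congr 1
        funext ω'
        by_cases e : ω' = ω
        · subst e; simp [hω]
        · simp [e]
      refine ⟨g • H + Q * Gam π ω k, ?_⟩
      have h7 : DT Ω π d * (g • H + Q * Gam π ω k) + (g • H + Q * Gam π ω k) * DT Ω π d =
          g • (DT Ω π d * H + H * DT Ω π d) +
            Q * (DT Ω π d * Gam π ω k + Gam π ω k * DT Ω π d) := by
        rw [Matrix.mul_add, Matrix.add_mul, Matrix.mul_add Q, ← Matrix.mul_assoc (DT Ω π d) Q,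
          ← hQD, Matrix.mul_assoc, Matrix.mul_assoc, Matrix.mul_smul, Matrix.smul_mul, smul_add]
        abel
      rw [h7, hH, ytp_anti hd hk, h4, h5, Matrix.mul_sub, h6, Matrix.mul_smul, Matrix.mul_one,
        smul_sub, smul_smul, card_insert_of_notMem hω, pow_succ']
      abel
  simpa using key univ

end Pool.Agent.HCF
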