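import Pool.Agent.P.MP_f644fa_ag.Y0

/-! Tensor products of matrices and the differential of the tensor power. -/

noncomputable section
namespace Pool.Agent.HCF
open Finset Matrix Equiv

variable {A Ω ι κ μ : Type} [CommRing A] [Fintype Ω] [LinearOrder Ω]

theorem tp_mul [Fintype κ] (m : Ω → Matrix ι κ A) (m' : Ω → Matrix κ μ A) :
    tp m * tp m' = tp fun ω => m ω * m' ω := by
  classical
  ext T T''
  simp only [tp, Matrix.mul_apply, Matrix.of_apply]
  rw [Finset.prod_univ_sum, Fintype.piFinset_univ]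
  exact Finset.sum_congr rfl fun T' _ => Finset.prod_mul_distrib.symm

theorem tp_one [DecidableEq ι] : tp (fun _ : Ω => (1 : Matrix ι ι A)) = 1 := by
  ext T T'
  simp only [tp, Matrix.of_apply]
  by_cases h : T = T'
  · subst h
    simp
  · obtain ⟨ω, hω⟩ := Function.ne_iff.1 h
    rw [Matrix.one_apply_ne h]
    exact Finset.prod_eq_zero (mem_univ ω) (Matrix.one_apply_ne hω)

theorem tp_map {B : Type} [CommRing B] (φ : A →+* B) (m : Ω → Matrix ι κ A) :
    (tp m).map φ = tp fun ω => (m ω).map φ := by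
  ext T T'
  simp only [tp, Matrix.of_apply, Matrix.map_apply, map_prod]

theorem tp_eq_zero {m : Ω → Matrix ι κ A} {ω : Ω} (h : m ω = 0) : tp m = 0 := by
  ext T T'
  simp only [tp, Matrix.of_apply, Matrix.zero_apply]
  exact Finset.prod_eq_zero (mem_univ ω) (by rw [h]; rfl)

theorem YTp0_ne {m : Ω → Matrix ι κ A} {T : Ω → ι} {T' : Ω → κ} (h0 : tp m T T' ≠ 0) (ω : Ω) :
    m ω (T ω) (T' ω) ≠ 0 := fun h => h0 (Finset.prod_eq_zero (mem_univ ω) h)

theorem tp_od {π : ι → Bool} {π' : κ → Bool} {m : Ω → Matrix ι κ A} (h : ∀ ω, DP π π' (m ω))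
    {T : Ω → ι} {T' : Ω → κ} (h0 : tp m T T' ≠ 0) : od π T = od π' T' := by
  ext ω
  simp only [od, mem_filter, mem_univ, true_and]
  rw [h ω _ _ (YTp0_ne h0 ω)]

variable [Fintype ι] [DecidableEq ι] {π : ι → Bool}

omit [Fintype ι] in
theorem YTp0_sg {ω : Ω} {m : Matrix ι ι A} (hm : Od π m) {T T' : Ω → ι}
    (h0 : tp (Function.update (fun _ => (1 : Matrix ι ι A)) ω m) T T' ≠ 0) (ω₀ : Ω) :
    sg ω₀ (od π T) = if ω < ω₀ then -sg ω₀ (od π T') else sg ω₀ (od π T') := by
  have h1 : ∀ a, a ≠ ω → T a = T' a := fun a ha => by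
    have := YTp0_ne h0 a
    rw [Function.update_of_ne ha] at this
    by_contra hne
    exact this (Matrix.one_apply_ne hne)
  have h2 : π (T' ω) = !π (T ω) := by
    have := YTp0_ne h0 ω
    rw [Function.update_self] at this
    exact hm _ _ this
  cases h3 : π (T ω)
  · rw [h3] at h2
    have h4 : ω ∈ od π T' := by simp [od, h2]
    have h5 : od π T = (od π T').erase ω := by
      ext a
      by_cases ha : a = ω
      · subst ha
        simp [od, h3]
      · simp [od, ha, h1 a ha]
    rw [h5, fock_sg_erase ω₀ h4]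
  · rw [h3] at h2
    have h4 : ω ∉ od π T' := by simp [od, h2]
    have h5 : od π T = insert ω (od π T') := by
      ext a
      by_cases ha : a = ω
      · subst ha
        simp [od, h3]
      · simp [od, ha, h1 a ha]
    rw [h5, fock_sg_insert ω₀ h4]

theorem YTp0_mul (ω ω' : Ω) (m : Matrix ι ι A) {m' : Matrix ι ι A} (hm' : Od π m') (T T'' : Ω → ι) :
    (Gam π ω m * Gam π ω' m') T T'' =
      (((if ω' < ω then -sg ω (od π T'') else sg ω (od π T'')) * sg ω' (od π T'') : ℤ) : A) *
        tp (fun a => Function.update (fun _ => (1 : Matrix ι ι A)) ω m a *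
          Function.update (fun _ => (1 : Matrix ι ι A)) ω' m' a) T T'' := by
  rw [← tp_mul, Matrix.mul_apply, Matrix.mul_apply, Finset.mul_sum]
  refine Finset.sum_congr rfl fun T' _ => ?_
  simp only [Gam, Matrix.of_apply]
  by_cases h0 : tp (Function.update (fun _ => (1 : Matrix ι ι A)) ω' m') T' T'' = 0
  · rw [h0]
    simp
  · rw [YTp0_sg hm' h0 ω, Int.cast_mul]
    ring

theorem Gam_anti {ω ω' : Ω} (h : ω ≠ ω') {m m' : Matrix ι ι A} (hm : Od π m) (hm' : Od π m') :
    Gam π ω m * Gam π ω' m' + Gam π ω' m' * Gam π ω m = 0 := by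
  ext T T''
  rw [Matrix.add_apply, YTp0_mul ω ω' m hm', YTp0_mul ω' ω m' hm, Matrix.zero_apply]
  have h1 : (fun a => Function.update (fun _ => (1 : Matrix ι ι A)) ω' m' a *
      Function.update (fun _ => (1 : Matrix ι ι A)) ω m a) =
      fun a => Function.update (fun _ => (1 : Matrix ι ι A)) ω m a *
        Function.update (fun _ => (1 : Matrix ι ι A)) ω' m' a := by
    funext a
    by_cases ha : a = ω
    · subst ha
      rw [Function.update_of_ne h, one_mul, mul_one]
    · rw [Function.update_of_ne ha, one_mul, mul_one]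
  rw [h1]
  rcases lt_or_gt_of_ne h with h2 | h2
  · rw [if_neg (not_lt.2 h2.le), if_pos h2]
    push_cast
    ring
  · rw [if_pos h2, if_neg (not_lt.2 h2.le)]
    push_cast
    ring

theorem Gam_same (ω : Ω) {m m' : Matrix ι ι A} (hm : Od π m) (hm' : Od π m') :
    Gam π ω m * Gam π ω m' = tp (Function.update (fun _ => 1) ω (m * m')) := by
  have _ := hm
  ext T T''
  rw [YTp0_mul ω ω m hm', if_neg (lt_irrefl ω), sg_mul_self, Int.cast_one, one_mul]
  have h1 : (fun a => Function.update (fun _ => (1 : Matrix ι ι A)) ω m a *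
      Function.update (fun _ => (1 : Matrix ι ι A)) ω m' a) =
      Function.update (fun _ => (1 : Matrix ι ι A)) ω (m * m') := by
    funext a
    by_cases ha : a = ω
    · subst ha
      simp
    · simp [Function.update_of_ne ha]
  rw [h1]

end Pool.Agent.HCF
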