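import Pool.Agent.P.MP_f644fa_ag.Y0

/-! The Young symmetriser of a rectangle and super vector spaces. -/

noncomputable section
namespace Pool.Agent.HCF
open Finset Matrix Equiv

variable {Ω κ : Type} [Fintype Ω] [DecidableEq Ω] [Fintype κ] [DecidableEq κ] {p q : ℕ}

omit [Fintype Ω] in
theorem yyoung0_lab {Λ : Type} (c : Ω → Λ) {a b : Ω} (h : c a = c b) (ω : Ω) :
    c (swap a b ω) = c ω := by
  rw [swap_apply_def]
  split_ifs with h1 h2
  · rw [h1, h]
  · rw [h2, h]
  · rfl

theorem yyoung0_row (E : Ω ≃ Fin p × Fin q) {a b : Ω} (hc : (E a).1 = (E b).1) :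
    MonoidAlgebra.single (swap a b) 1 * young E = young E := by
  have hl := yyoung0_lab (fun ω => (E ω).1) hc
  unfold young
  rw [← mul_assoc, Finset.mul_sum _ _ (MonoidAlgebra.single (swap a b) 1)]
  congr 1
  refine Finset.sum_nbij' (fun σ => swap a b * σ) (fun σ => swap a b * σ) ?_ ?_ ?_ ?_ ?_
  · intro σ hσ
    simp only [mem_filter, mem_univ, true_and, Perm.mul_apply] at hσ ⊢
    exact fun ω => (hl _).trans (hσ ω)
  · intro σ hσ
    simp only [mem_filter, mem_univ, true_and, Perm.mul_apply] at hσ ⊢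
    exact fun ω => (hl _).trans (hσ ω)
  · exact fun σ _ => swap_mul_self_mul a b σ
  · exact fun σ _ => swap_mul_self_mul a b σ
  · intro σ _
    rw [MonoidAlgebra.single_mul_single, mul_one]

omit [Fintype Ω] in
theorem yyoung0_anti {W : MonoidAlgebra ℂ (Perm Ω)} {Y : Finset Ω} {z : Ω} (hz : z ∉ Y)
    (hW : ∀ a ∈ Y, ∀ b ∈ Y, a ≠ b → W * MonoidAlgebra.single (swap a b) 1 = -W) :
    ∀ a ∈ insert z Y, ∀ b ∈ insert z Y, a ≠ b →
      (W - ∑ u ∈ Y, W * MonoidAlgebra.single (swap u z) 1) * MonoidAlgebra.single (swap a b) 1 =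
        -(W - ∑ u ∈ Y, W * MonoidAlgebra.single (swap u z) 1) := by
  have h1 : ∀ a ∈ Y,
      (W - ∑ u ∈ Y, W * MonoidAlgebra.single (swap u z) 1) * MonoidAlgebra.single (swap a z) 1 =
        -(W - ∑ u ∈ Y, W * MonoidAlgebra.single (swap u z) 1) := by
    intro a ha
    have e : ∀ u ∈ Y.erase a, W * MonoidAlgebra.single (swap u z) 1 *
        MonoidAlgebra.single (swap a z) 1 = -(W * MonoidAlgebra.single (swap u z) (1 : ℂ)) := by
      intro u hu
      obtain ⟨hua, hu⟩ := mem_erase.1 hu
      rw [mul_assoc, MonoidAlgebra.single_mul_single, mul_swap_eq_swap_mul,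
        swap_apply_of_ne_of_ne hua.symm (ne_of_mem_of_not_mem ha hz), swap_apply_right,
        ← MonoidAlgebra.single_mul_single, ← mul_assoc, hW a ha u hu hua.symm, neg_mul]
    rw [← Finset.add_sum_erase _ _ ha, sub_mul, add_mul, Finset.sum_mul, Finset.sum_congr rfl e,
      mul_assoc, MonoidAlgebra.single_mul_single, Equiv.swap_mul_self, mul_one, ← MonoidAlgebra.one_def,
      mul_one, Finset.sum_neg_distrib]
    abel
  intro a ha' b hb hab
  rcases mem_insert.1 ha' with rfl | ha
  · rw [Equiv.swap_comm]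
    exact h1 b ((mem_insert.1 hb).resolve_left hab.symm)
  rcases mem_insert.1 hb with hb | hb
  · rw [hb]
    exact h1 a ha
  have hm : ∀ u ∈ Y, swap a b u ∈ Y := fun u hu => by
    rw [swap_apply_def]
    split_ifs <;> assumption
  rw [sub_mul, hW a ha b hb hab, Finset.sum_mul, neg_sub', ← Finset.sum_neg_distrib]
  congr 1
  refine Finset.sum_nbij' (fun u => swap a b u) (fun u => swap a b u) hm hm
    (fun u _ => swap_apply_self a b u) (fun u _ => swap_apply_self a b u) fun u _ => ?_
  rw [mul_assoc, MonoidAlgebra.single_mul_single, swap_mul_eq_mul_swap, swap_inv,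
    swap_apply_of_ne_of_ne (ne_of_mem_of_not_mem ha hz).symm (ne_of_mem_of_not_mem hb hz).symm,
    ← MonoidAlgebra.single_mul_single, ← mul_assoc, hW a ha b hb hab, neg_mul]

theorem young_col (E : Ω ≃ Fin p × Fin q) {a b : Ω} (h : a ≠ b) (hc : (E a).2 = (E b).2) :
    young E * MonoidAlgebra.single (swap a b) 1 = -young E := by
  have hl := yyoung0_lab (fun ω => (E ω).2) hc
  unfold young
  rw [mul_assoc, ← mul_neg, Finset.sum_mul _ _ (MonoidAlgebra.single (swap a b) 1),
    ← Finset.sum_neg_distrib]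
  congr 1
  refine Finset.sum_nbij' (fun σ => σ * swap a b) (fun σ => σ * swap a b) ?_ ?_ ?_ ?_ ?_
  · intro σ hσ
    simp only [mem_filter, mem_univ, true_and, Perm.mul_apply] at hσ ⊢
    exact fun ω => (hσ _).trans (hl ω)
  · intro σ hσ
    simp only [mem_filter, mem_univ, true_and, Perm.mul_apply] at hσ ⊢
    exact fun ω => (hσ _).trans (hl ω)
  · exact fun σ _ => mul_swap_mul_self a b σ
  · exact fun σ _ => mul_swap_mul_self a b σ
  · intro σ _
    rw [MonoidAlgebra.single_mul_single, mul_one, ← MonoidAlgebra.single_neg, Perm.sign_mul,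
      Perm.sign_swap h]
    simp

/-- the exchange relation -/
theorem young_exch (E : Ω ≃ Fin p × Fin q) (j : Fin q) {z : Ω} (hz : (E z).2 ≠ j) :
    young E = ∑ u with (E u).2 = j, young E * MonoidAlgebra.single (swap u z) 1 := by
  have hzY : z ∉ ({u | (E u).2 = j} : Finset Ω) := fun h => hz (mem_filter.1 h).2
  have h1 := yyoung0_anti (W := young E) hzY fun a ha b hb hab =>
    young_col E hab ((mem_filter.1 ha).2.trans (mem_filter.1 hb).2.symm)
  have hcard : #({u | (E u).2 = j} : Finset Ω) = p := by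
    refine Eq.trans ?_ (Finset.card_fin p)
    refine Finset.card_nbij' (fun u => (E u).1) (fun i => E.symm (i, j)) ?_ ?_ ?_ ?_
    · exact fun u _ => mem_univ _
    · intro i _
      simp
    · intro u hu
      have := (mem_filter.1 hu).2
      rw [symm_apply_eq, ← this]
    · intro i _
      simp
  rw [← sub_eq_zero]
  obtain ⟨X, hX⟩ : ∃ X, X = young E - ∑ u with (E u).2 = j,
    young E * MonoidAlgebra.single (swap u z) 1 := ⟨_, rfl⟩
  have h2 : ∀ a b, (E a).1 = (E b).1 → MonoidAlgebra.single (swap a b) 1 * X = X := by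
    intro a b hab
    rw [hX, mul_sub, Finset.mul_sum]
    simp only [← mul_assoc, yyoung0_row E hab]
  rw [← hX] at h1 ⊢
  ext g
  obtain ⟨a, ha, b, hb, hab, hg⟩ := Finset.exists_ne_map_eq_of_card_lt_of_maps_to
    (s := insert z ({u | (E u).2 = j} : Finset Ω)) (t := (univ : Finset (Fin p)))
    (by rw [card_insert_of_notMem hzY, hcard, Finset.card_fin]; exact p.lt_succ_self)
    (f := fun u => (E (g u)).1) fun _ _ => mem_univ _
  have e1 := MonoidAlgebra.coeff_mul_single_mul X 1 (swap a b) g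
  have e2 := MonoidAlgebra.coeff_single_mul_mul X 1 (swap (g a) (g b)) g
  rw [h1 a ha b hb hab, mul_swap_eq_swap_mul, MonoidAlgebra.coeff_neg, Finsupp.neg_apply] at e1
  rw [h2 _ _ hg] at e2
  have : X.coeff g = 0 := by linear_combination (-1 / 2 : ℂ) * e1 - (1 / 2 : ℂ) * e2
  simpa using this

end Pool.Agent.HCF
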