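import Pool.Agent.P.MP_f644fa_ag.LG1
import Pool.Agent.P.MP_f644fa_ag.LK2

/-! Derivatives of polynomials; free lines; osculating hyperplanes. -/

noncomputable section
namespace Pool.Agent.HCF
open Finset Module MvPolynomial Filter Topology

section calculus
variable {τ : Type} [Fintype τ]

/-- the differential of `f` at `x` -/
def dd (f : MvPolynomial τ ℂ) (x : τ → ℂ) : (τ → ℂ) →ₗ[ℂ] ℂ where
  toFun w := ∑ j, w j * eval x (pderiv j f)
  map_add' a b := by simp only [Pi.add_apply, add_mul, sum_add_distrib]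
  map_smul' t a := by simp only [Pi.smul_apply, smul_eq_mul, mul_assoc, ← mul_sum, RingHom.id_apply]

theorem dd_apply (f : MvPolynomial τ ℂ) (x w : τ → ℂ) :
    dd f x w = ∑ j, w j * eval x (pderiv j f) := rfl

/-- the derivative in the direction `w` -/
def Dw (w : τ → ℂ) (f : MvPolynomial τ ℂ) : MvPolynomial τ ℂ := ∑ j, C (w j) * pderiv j f

/-- the Hessian of `f` at `x` -/
def hess (f : MvPolynomial τ ℂ) (x : τ → ℂ) : (τ → ℂ) →ₗ[ℂ] (τ → ℂ) →ₗ[ℂ] ℂ :=
  LinearMap.mk₂ ℂ (fun u w => ∑ j, ∑ l, u j * w l * eval x (pderiv j (pderiv l f)))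
    (fun _ _ _ => by simp only [Pi.add_apply, add_mul, sum_add_distrib])
    (fun _ _ _ => by simp only [Pi.smul_apply, smul_eq_mul, mul_assoc, mul_sum])
    (fun _ _ _ => by simp only [Pi.add_apply, mul_add, add_mul, sum_add_distrib])
    (fun _ _ _ => by
      simp only [Pi.smul_apply, smul_eq_mul, mul_sum]
      exact sum_congr rfl fun _ _ => sum_congr rfl fun _ _ => by ring)

theorem hess_apply (f : MvPolynomial τ ℂ) (x u w : τ → ℂ) :
    hess f x u w = ∑ j, ∑ l, u j * w l * eval x (pderiv j (pderiv l f)) := rfl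

theorem eval_Dw (f : MvPolynomial τ ℂ) (x w : τ → ℂ) : eval x (Dw w f) = dd f x w := by
  simp [Dw, dd_apply]

theorem dd_add (f g : MvPolynomial τ ℂ) (x w : τ → ℂ) :
    dd (f + g) x w = dd f x w + dd g x w := by
  simp only [dd_apply, map_add, mul_add, sum_add_distrib]

theorem dd_mul (f g : MvPolynomial τ ℂ) (x w : τ → ℂ) :
    dd (f * g) x w = eval x f * dd g x w + eval x g * dd f x w := by
  simp only [dd_apply, Derivation.leibniz, smul_eq_mul, map_add, map_mul, mul_sum,
    ← sum_add_distrib]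
  exact sum_congr rfl fun _ _ => by ring

theorem dd_C (a : ℂ) (x w : τ → ℂ) : dd (C a) x w = 0 := by simp [dd_apply]

theorem dd_X (j : τ) (x w : τ → ℂ) : dd (X j) x w = w j := by
  classical
  simp [dd_apply, pderiv_X, Pi.single_apply]

theorem dd_sum {ι : Type} (s : Finset ι) (f : ι → MvPolynomial τ ℂ) (x w : τ → ℂ) :
    dd (∑ i ∈ s, f i) x w = ∑ i ∈ s, dd (f i) x w := by
  simp only [dd_apply, map_sum, mul_sum]
  exact sum_comm

theorem hess_eq (f : MvPolynomial τ ℂ) (x u w : τ → ℂ) : hess f x u w = dd (Dw w f) x u := by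
  rw [Dw, dd_sum, hess_apply, sum_comm]
  refine sum_congr rfl fun l _ => ?_
  rw [dd_mul, dd_C, mul_zero, add_zero, eval_C, dd_apply, mul_sum]
  exact sum_congr rfl fun _ _ => by ring

theorem z0_comm (j l : τ) (f : MvPolynomial τ ℂ) :
    pderiv j (pderiv l f) = pderiv l (pderiv j f) := by
  classical
  induction f using MvPolynomial.induction_on with
  | C a => simp
  | add p q hp hq => simp only [map_add, hp, hq]
  | mul_X p k hp =>
    simp only [Derivation.leibniz, smul_eq_mul, map_add, hp, pderiv_X, Pi.single_apply]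
    split_ifs <;> simp <;> ring

theorem hess_symm (f : MvPolynomial τ ℂ) (x u w : τ → ℂ) : hess f x u w = hess f x w u := by
  rw [hess_apply, hess_apply, sum_comm]
  exact sum_congr rfl fun _ _ => sum_congr rfl fun _ _ => by rw [z0_comm]; ring

theorem contDiff_ev (f : MvPolynomial τ ℂ) : ContDiff ℂ ⊤ fun y : τ → ℂ => eval y f := by
  induction f using MvPolynomial.induction_on with
  | C a => simpa using contDiff_const
  | add p q hp hq => simpa using hp.add hq
  | mul_X p k hp => simpa using hp.mul (contDiff_apply ℂ ℂ k)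

theorem hasFDerivAt_ev (f : MvPolynomial τ ℂ) (x : τ → ℂ) :
    HasFDerivAt (fun y : τ → ℂ => eval y f) (LinearMap.toContinuousLinearMap (dd f x)) x := by
  induction f using MvPolynomial.induction_on with
  | C a =>
    simp only [eval_C]
    refine (hasFDerivAt_const a x).congr_fderiv (ContinuousLinearMap.ext fun w => ?_)
    exact (dd_C a x w).symm
  | add p q hp hq =>
    simp only [map_add]
    refine (hp.add hq).congr_fderiv (ContinuousLinearMap.ext fun w => ?_)
    exact (dd_add p q x w).symm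
  | mul_X p k hp =>
    simp only [map_mul, eval_X]
    refine (hp.mul (hasFDerivAt_apply (𝕜 := ℂ) k x)).congr_fderiv
      (ContinuousLinearMap.ext fun w => ?_)
    show eval x p * w k + x k * dd p x w = dd (p * X k) x w
    rw [dd_mul, dd_X, eval_X]

theorem hasStrictFDerivAt_ev (f : MvPolynomial τ ℂ) (x : τ → ℂ) :
    HasStrictFDerivAt (fun y : τ → ℂ => eval y f)
      (LinearMap.toContinuousLinearMap (dd f x)) x :=
  (contDiff_ev f).contDiffAt.hasStrictFDerivAt' (hasFDerivAt_ev f x) (by simp)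

theorem hasDerivAt_line (f : MvPolynomial τ ℂ) (x w : τ → ℂ) (t : ℂ) :
    HasDerivAt (fun s : ℂ => eval (x + s • w) f) (dd f (x + t • w) w) t := by
  have h1 : HasDerivAt (fun s : ℂ => x + s • w) w t := by
    simpa using ((hasDerivAt_id t).smul_const w).const_add x
  exact (hasFDerivAt_ev f (x + t • w)).comp_hasDerivAt t h1

theorem dd_zero_of_eventually {f : MvPolynomial τ ℂ} {x w : τ → ℂ}
    (h : ∀ᶠ t in 𝓝 (0 : ℂ), eval (x + t • w) f = 0) : dd f x w = 0 := by
  have h1 := hasDerivAt_line f x w 0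
  rw [zero_smul, add_zero] at h1
  exact h1.unique ((hasDerivAt_const (0 : ℂ) (0 : ℂ)).congr_of_eventuallyEq h)

/-- the chain rule along lines -/
theorem dd_of_eval {τ' : Type} [Fintype τ'] {f : MvPolynomial τ ℂ} {f' : MvPolynomial τ' ℂ}
    {x w : τ → ℂ} {x' w' : τ' → ℂ}
    (h : ∀ t : ℂ, eval (x + t • w) f = eval (x' + t • w') f') : dd f x w = dd f' x' w' := by
  have h1 := hasDerivAt_line f x w 0
  have h2 := hasDerivAt_line f' x' w' 0
  rw [zero_smul, add_zero] at h1 h2
  rw [funext h] at h1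
  exact h1.unique h2

end calculus

variable {M : ℕ} {I : Ideal (SS M)} {c s n : ℕ}

theorem mem_tangS {x w : Fin M → ℂ} : w ∈ tangS I x ↔ ∀ f ∈ I, dd f x w = 0 := Iff.rfl

/-- the span of `x` and `y` lies in the zero set -/
def Pl (I : Ideal (SS M)) (x y : Fin M → ℂ) : Prop :=
  ∀ a b : ℂ, ∀ f ∈ I, eval (a • x + b • y) f = 0

/-- vectors that are tangent at all points of a line -/
def Kl (I : Ideal (SS M)) (x y : Fin M → ℂ) : Submodule ℂ (Fin M → ℂ) where
  carrier := {w | ∀ p, p ≠ 0 → w ∈ tangS I (pt x y p)}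
  add_mem' ha hb p hp := add_mem (ha p hp) (hb p hp)
  zero_mem' _ _ := zero_mem _
  smul_mem' a _ ha p hp := Submodule.smul_mem _ a (ha p hp)

theorem mem_Kl {x y w : Fin M → ℂ} :
    w ∈ Kl I x y ↔ ∀ p, p ≠ 0 → w ∈ tangS I (pt x y p) := Iff.rfl

/-- a first order deformation of a line -/
def Df (I : Ideal (SS M)) (x y u u' : Fin M → ℂ) : Prop :=
  ∀ p : Fin 2 → ℂ, p ≠ 0 → p 0 • u + p 1 • u' ∈ tangS I (pt x y p)

/-- the line is free -/
def Free (I : Ideal (SS M)) (c s : ℕ) (x y : Fin M → ℂ) : Prop :=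
  finrank ℂ (Kl I x y) + s + c ≤ M

/-- the cotangent bundle has no summand of positive degree on the line -/
def Pos (I : Ideal (SS M)) (x y : Fin M → ℂ) : Prop :=
  ∀ (A : ℕ) (α β : Fin M → Polynomial ℂ), (∀ j, (α j).natDegree ≤ A) →
    (∀ t : ℂ, (fun j => (α j).eval t + t ^ (A + 2) * (β j).eval t) ∈ Es I (x + t • y)) →
      ∀ t : ℂ, (fun j => (α j).eval t) ∈ Es I (x + t • y)

/-- the lines through `x` span the tangent space -/
def Spn (I : Ideal (SS M)) (x : Fin M → ℂ) : Prop :=
  tangS I x ≤ Submodule.span ℂ {y | Pl I x y}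

/-- the free lines through `x` span the tangent space -/
def SpF (I : Ideal (SS M)) (c s : ℕ) (x : Fin M → ℂ) : Prop :=
  tangS I x ≤ Submodule.span ℂ {y | IsLine I x y ∧ Free I c s x y}

/-- all lines through points off the hypersurface `g` are free -/
def Good (I : Ideal (SS M)) (c s : ℕ) (g : SS M) : Prop :=
  ∀ x ∈ cone I, eval x g ≠ 0 → ∀ y, IsLine I x y → Free I c s x y

/-- the hyperplane `η` osculates to second order at `x` -/
def Osc (I : Ideal (SS M)) (η x : Fin M → ℂ) : Prop :=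
  ∃ f ∈ I, pv x (gr f) = η ∧ ∀ u ∈ tangS I x, ∀ w ∈ tangS I x, hess f x u w = 0

/-- the Gauss map has degree `s` -/
def Can (I : Ideal (SS M)) (c s : ℕ) : Prop :=
  ∃ ν : Finset (Fin M) → secRing I, ν ∈ Hm (secRing I) c s ∧ ∀ x : cone I, ∃ J, (ν J).1 x ≠ 0

end Pool.Agent.HCF
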