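import Pool.Agent.P.MP_f644fa_ag.Z1

/-! Frames in an affine coordinate. -/

noncomputable section
namespace Pool.Agent.HCF
open Finset Module MvPolynomial Filter Topology

variable {M : ℕ} {I : Ideal (SS M)} {c s : ℕ} {x y : Fin M → ℂ}

/-- dehomogenisation -/
def z11a_dh : B2 →ₐ[ℂ] Polynomial ℂ := aeval ![1, Polynomial.X]

theorem z11a_eval (f : B2) (t : ℂ) : (z11a_dh f).eval t = eval ![1, t] f := by
  induction f using MvPolynomial.induction_on with
  | C a => simp [z11a_dh]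
  | add p q hp hq => simp only [map_add, Polynomial.eval_add, hp, hq]
  | mul_X p k hp =>
    rw [map_mul, map_mul, Polynomial.eval_mul, hp]
    congr 1
    fin_cases k <;> simp [z11a_dh]

theorem z11a_deg {f : B2} {d : ℕ} (h : f.IsHomogeneous d) : (z11a_dh f).natDegree ≤ d := by
  have h1 := MvPolynomial.aeval_natDegree_le (n := 1) f h.totalDegree_le ![1, Polynomial.X]
    (fun i => by fin_cases i <;> simp)
  rwa [mul_one] at h1

theorem z11a_hom (A : ℕ) (α : Polynomial ℂ) (h : α.natDegree ≤ A) :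
    ∃ θ : B2, θ.IsHomogeneous A ∧ z11a_dh θ = α := by
  refine ⟨∑ k ∈ range (A + 1), C (α.coeff k) * (X 0 ^ (A - k) * X 1 ^ k),
    IsHomogeneous.sum _ _ _ fun k hk => ?_, ?_⟩
  · have h1 := ((isHomogeneous_X_pow (R := ℂ) (0 : Fin 2) (A - k)).mul
      (isHomogeneous_X_pow (R := ℂ) (1 : Fin 2) k)).C_mul (α.coeff k)
    rwa [Nat.sub_add_cancel (Nat.lt_succ_iff.1 (mem_range.1 hk))] at h1
  · conv_rhs => rw [α.as_sum_range_C_mul_X_pow' (Nat.lt_succ_of_le h)]
    simp [z11a_dh]

theorem z11a_pt (x y : Fin M → ℂ) (t : ℂ) : pt x y ![1, t] = x + t • y := by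
  simp [pt]

theorem z11a_ne (t : ℂ) : (![1, t] : Fin 2 → ℂ) ≠ 0 := fun h => by
  simpa using congrFun h 0

theorem z11a_pv {σ : Type} (θ : σ → B2) (t : ℂ) :
    (fun j => (z11a_dh (θ j)).eval t) = pv ![1, t] θ :=
  funext fun j => z11a_eval (θ j) t

/-- a frame of the conormal bundle in an affine coordinate -/
theorem IsLine.aff_frame (hX : IsManifold I c) (hC : Can I c s) (hl : IsLine I x y) :
    ∃ (a : Fin c → ℕ) (e : Fin c → Fin M → Polynomial ℂ), ∑ i, a i = s ∧
      (∀ i j, (e i j).natDegree ≤ a i) ∧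
      (∀ i (t : ℂ), (fun j => (e i j).eval t) ∈ Es I (x + t • y)) ∧
      LinearIndependent ℂ (fun i j => (e i j).eval 0) ∧
      ∀ (A : ℕ) (α : Fin M → Polynomial ℂ), (∀ j, (α j).natDegree ≤ A) →
        (∀ t : ℂ, (fun j => (α j).eval t) ∈ Es I (x + t • y)) →
        ∃ g : Fin c → Polynomial ℂ, (∀ i k, A < k + a i → (g i).coeff k = 0) ∧
          ∀ j, α j = ∑ i, g i * e i j := by
  obtain ⟨ν, hν, hne⟩ := hC
  obtain ⟨a, η, hF, hs⟩ := hl.frame hX hν hne
  have hB := hX.pgen_Es.pb hl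
  refine ⟨a, fun i j => z11a_dh (η i j), hs, fun i j => z11a_deg ((hF.1 i).1 j), fun i t => ?_,
    ?_, fun A α hα hE => ?_⟩
  · rw [z11a_pv, ← z11a_pt]
    exact (hF.1 i).2 _ (z11a_ne t)
  · rw [show (fun i j => (z11a_dh (η i j)).eval 0) = fun i => pv ![1, 0] (η i) from
      funext fun i => z11a_pv (η i) 0]
    exact hF.2 _ (z11a_ne 0)
  · choose θ h1 h2 using fun j => z11a_hom A (α j) (hα j)
    have h3 : ∀ p : Fin 2 → ℂ, p 0 ≠ 0 → pv p θ ∈ Es I (pt x y p) := by
      intro p hp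
      have e : p = p 0 • ![1, p 1 / p 0] := by
        funext k
        fin_cases k
        · simp
        · simp [mul_div_cancel₀ _ hp]
      have h4 := hE (p 1 / p 0)
      simp only [← h2] at h4
      rw [z11a_pv, ← z11a_pt] at h4
      have h5 : Es I (pt x y (p 0 • ![1, p 1 / p 0])) = Es I (pt x y ![1, p 1 / p 0]) :=
        hB.smul _ _ hp
      rw [e, lp2_pv_smul h1, h5]
      exact Submodule.smul_mem _ _ h4
    have h4 : θ ∈ Sec (fun p => Es I (pt x y p)) A := by
      refine ⟨h1, fun p hp => ?_⟩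
      by_cases h0 : p 0 = 0
      · refine hB.closed θ p hp fun q hq => h3 q fun h5 => hq ?_
        rw [lp0_eval, h0, h5, mul_zero, zero_mul, sub_zero]
      · exact h3 p h0
    rw [hB.sec_eq hF] at h4
    obtain ⟨g, hg, e⟩ := h4
    refine ⟨fun i => z11a_dh (g i), fun i k hk => ?_, fun j => ?_⟩
    · by_cases h5 : a i ≤ A
      · exact Polynomial.coeff_eq_zero_of_natDegree_lt
          ((z11a_deg ((hg i).1 h5)).trans_lt (by omega))
      · simp only [(hg i).2 (not_le.1 h5), map_zero, Polynomial.coeff_zero]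
    · rw [← h2, e]
      simp only [Finset.sum_apply, Pi.smul_apply, smul_eq_mul, map_sum, map_mul]

theorem pow_dvd_of_indep {ι σ : Type} [Fintype ι] [Fintype σ] (e : ι → σ → Polynomial ℂ)
    (he : LinearIndependent ℂ fun i j => (e i j).eval 0) (g : ι → Polynomial ℂ) (N : ℕ)
    (h : ∀ j, Polynomial.X ^ N ∣ ∑ i, g i * e i j) (i : ι) : Polynomial.X ^ N ∣ g i := by
  classical
  obtain ⟨δ, u, h1, h2⟩ := dual_fields (Polynomial.aeval (0 : ℂ)) e
    (by simpa only [Polynomial.coe_aeval_eq_eval] using he)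
  have h3 : ∑ j, (∑ k, g k * e k j) * u i j = g i * δ := by
    simp only [sum_mul, mul_assoc]
    rw [sum_comm]
    simp only [← mul_sum, h2]
    simp
  refine Polynomial.prime_X.pow_dvd_of_dvd_mul_right N (b := δ) (fun h4 => h1 ?_) ?_
  · rw [Polynomial.coe_aeval_eq_eval, ← Polynomial.coeff_zero_eq_eval_zero]
    exact Polynomial.X_dvd_iff.1 h4
  · rw [← h3]
    exact dvd_sum fun j _ => (h j).mul_right _

end Pool.Agent.HCF
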