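import Pool.Agent.P.MP_f644fa_ag.Z1

/-! Sections of the twisted normal bundle on a line; deformations. -/

noncomputable section
namespace Pool.Agent.HCF
open Finset Module MvPolynomial Filter Topology

variable {M : ℕ} {I : Ideal (SS M)} {c s n : ℕ} {x y : Fin M → ℂ}

theorem IsLine.tests2 (hX : IsManifold I c) (hC : Can I c s) (hl : IsLine I x y) {K : ℕ}
    {h : Fin K → SS M} {d : Fin K → ℕ} (hd : ∀ k, (h k).IsHomogeneous (d k + 1))
    (hI : I = Ideal.span (Set.range h)) :
    ∃ (ι : Type) (_ : Fintype ι) (q : ι → Fin 2 → ℂ) (a : ι → Fin K → ℂ),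
      Fintype.card ι = s ∧ (∀ i, q i 1 ≠ 0) ∧ ∀ F : Fin K → B2, (∀ k, (F k).IsHomogeneous (d k)) →
        (∀ p, p ≠ 0 → ∀ r : Fin K → SS M, ∑ k, r k * h k = 0 →
          ∑ k, eval (pt x y p) (r k) * eval p (F k) = 0) →
        (∀ k, eval ![1, 0] (F k) = 0) → (∀ i, ∑ k, a i k * eval (q i) (F k) = 0) → F = 0 := by
  classical
  obtain ⟨ν, hν, hne⟩ := hC
  obtain ⟨a, η, hη, hs⟩ := hl.frame hX hν hne
  have hB := hX.pgen_Es.pb hl
  have hG : ∀ p, p ≠ 0 → Submodule.span ℂ (Set.range fun k => pv (pt x y p) (gr (h k))) =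
      Es I (pt x y p) := fun p hp => hX.span_gens hI (hl.mem hp)
  have hcf : ∀ p i, ∃ u : Fin K → ℂ, p ≠ 0 →
      ∑ k, u k • pv (pt x y p) (gr (h k)) = pv p (η i) := fun p i => by
    by_cases hp : p = 0
    · exact ⟨0, fun h0 => absurd hp h0⟩
    · have h1 := (hη.1 i).2 p hp
      beta_reduce at h1
      rw [← hG p hp, Submodule.mem_span_range_iff_exists_fun] at h1
      exact h1.imp fun _ hu _ => hu
  choose cf hcf using hcf
  refine ⟨Σ i : Fin c, Fin (a i), inferInstance, fun r => ![1, ((r.2 : ℕ) + 1 : ℕ)],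
    fun r => cf ![1, ((r.2 : ℕ) + 1 : ℕ)] r.1, by simp [hs],
    fun r => Nat.cast_ne_zero.2 (Nat.succ_ne_zero _), fun F hF hsyz h0 ht => ?_⟩
  have hΛ : ∀ p, ∃ Λ : (Fin M → ℂ) →ₗ[ℂ] ℂ, p ≠ 0 →
      ∀ k, Λ (pv (pt x y p) (gr (h k))) = eval p (F k) := fun p => by
    by_cases hp : p = 0
    · exact ⟨0, fun h0 => absurd hp h0⟩
    · exact (lg1a_fun _ _ fun u hu => hX.syz hI (hl.mem hp) (hsyz p hp) hu).imp fun _ hu _ => hu
  choose Λ hΛ using hΛ
  have hκ : ∀ p, p ≠ 0 → ∀ i, Λ p (pv p (η i)) = ∑ k, cf p i k * eval p (F k) := fun p hp i => by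
    rw [← hcf p i hp, map_sum]
    exact Finset.sum_congr rfl fun k _ => by rw [map_smul, hΛ p hp, smul_eq_mul]
  have hz : ∀ i p, p ≠ 0 → Λ p (pv p (η i)) = 0 := fun i => by
    obtain ⟨f, hf, -, hf'⟩ := form_of_regular (fun p => Λ p (pv p (η i))) ((a i : ℕ) : ℤ)
      (fun p hp t ht => by
        have hp' : t • p ≠ 0 := smul_ne_zero ht hp
        have e1 : ∑ k, (cf (t • p) i k * t ^ d k) • pv (pt x y p) (gr (h k)) =
            t ^ a i • pv p (η i) := by
          have e2 : t ^ a i • pv p (η i) = pv (t • p) (η i) :=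
            funext fun j => (b2_eval_smul ((hη.1 i).1 j) t p).symm
          rw [e2, ← hcf _ i hp', pt_smul]
          refine Finset.sum_congr rfl fun k _ => ?_
          rw [mul_smul]
          congr 1
          exact funext fun j => (eval_smul_hom (hd k).pderiv t _).symm
        have e3 := congrArg (Λ p) e1
        rw [map_sum, map_smul, smul_eq_mul] at e3
        rw [hκ _ hp', zpow_natCast, ← e3]
        refine Finset.sum_congr rfl fun k _ => ?_
        rw [map_smul, hΛ p hp, smul_eq_mul, b2_eval_smul (hF k)]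
        ring)
      (fun p hp => by
        obtain ⟨σ, -, h1, -⟩ := exists_sel (fun k => pv (pt x y p) (gr (h k))) (τ := c)
          (by rw [hG p hp]; exact hB.rank p hp)
        obtain ⟨δ, u, hδ, hu⟩ := dual_fields (aeval p : B2 →ₐ[ℂ] ℂ)
          (fun k j => rl x y (gr (h (σ k)) j)) (by
            simp only [aeval_eq_eval, eval_rl]
            exact h1)
        rw [aeval_eq_eval] at hδ
        refine ⟨δ * δ, δ * ∑ k, (∑ j, η i j * u k j) * F (σ k), by
          rw [map_mul]; exact mul_ne_zero hδ hδ, fun q hq => ?_⟩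
        rw [map_mul, map_mul, mul_assoc]
        by_cases h2 : eval q δ = 0
        · rw [h2, zero_mul, zero_mul]
        have h3 : ∀ k k', ∑ j, pv (pt x y q) (gr (h (σ k))) j * pv q (u k') j =
            if k = k' then eval q δ else 0 := fun k k' => by
          have h4 := congrArg (eval q) (hu k k')
          rw [map_sum, apply_ite (eval q), map_zero] at h4
          simpa only [map_mul, eval_rl, pv_apply] using h4
        have h5 : Submodule.span ℂ (Set.range fun k => pv (pt x y q) (gr (h (σ k)))) =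
            Es I (pt x y q) := by
          refine Submodule.eq_of_le_of_finrank_eq ?_ ?_
          · rw [← hG q hq]
            exact Submodule.span_mono (by rintro _ ⟨k, rfl⟩; exact ⟨σ k, rfl⟩)
          · rw [finrank_span_eq_card (indep_of_dual h2 h3), Fintype.card_fin]
            exact (hB.rank q hq).symm
        have h6 := congrArg (Λ q) (expand_of_dual h3 (h5.ge ((hη.1 i).2 q hq)))
        rw [map_smul, smul_eq_mul, map_sum] at h6
        rw [h6, map_sum]
        congr 1
        refine Finset.sum_congr rfl fun k _ => ?_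
        rw [map_smul, hΛ q hq, smul_eq_mul, map_mul, map_sum]
        simp only [map_mul, pv_apply])
    have h1 : f = 0 := hom_eq_zero (hf (Int.natCast_nonneg _)) fun r hr => by
      rw [hf' _ (lg1a_ne _), hκ _ (lg1a_ne _)]
      cases r with
      | zero => exact Finset.sum_eq_zero fun k _ => by rw [Nat.cast_zero, h0, mul_zero]
      | succ r => exact ht ⟨i, r, by rw [Int.toNat_natCast] at hr; omega⟩
    intro p hp
    rw [← hf' p hp, h1, map_zero]
  funext k
  refine b2_ext fun p hp => ?_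
  have h1 : Es I (pt x y p) ≤ LinearMap.ker (Λ p) := by
    have h2 := hB.span_frame hη hp
    beta_reduce at h2
    rw [← h2, Submodule.span_le]
    rintro _ ⟨i, rfl⟩
    exact hz i p hp
  rw [← hΛ p hp, Pi.zero_apply, map_zero]
  exact h1 (hG p hp ▸ Submodule.subset_span ⟨k, rfl⟩)

/-- tangent vectors satisfy the syzygies -/
theorem syz_dd {K : ℕ} {h r : Fin K → SS M} (hr : ∑ k, r k * h k = 0) {z : Fin M → ℂ}
    (hz : ∀ k, eval z (h k) = 0) (w : Fin M → ℂ) : ∑ k, eval z (r k) * dd (h k) z w = 0 := by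
  have h1 := dd_sum univ (fun k => r k * h k) z w
  rw [hr, ← C_0, dd_C] at h1
  rw [h1]
  exact sum_congr rfl fun k _ => by rw [dd_mul, hz, zero_mul, add_zero]

theorem mem_tangS_gens {K : ℕ} {h : Fin K → SS M} (hI : I = Ideal.span (Set.range h))
    {z w : Fin M → ℂ} (hz : z ∈ cone I) (hw : ∀ k, dd (h k) z w = 0) : w ∈ tangS I z := by
  refine mem_tangS.2 fun f hf => ?_
  have h0 : ∀ k, eval z (h k) = 0 := fun k => hz.2 _ (hI ▸ Ideal.subset_span ⟨k, rfl⟩)
  rw [hI, Ideal.mem_span_range_iff_exists_fun] at hf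
  obtain ⟨r, rfl⟩ := hf
  rw [dd_sum]
  exact sum_eq_zero fun k _ => by rw [dd_mul, h0, hw, mul_zero, zero_mul, add_zero]

theorem z2_hom {f : SS M} {d : ℕ} (hf : f.IsHomogeneous (d + 1)) (w : Fin M → ℂ) :
    (Dw w f).IsHomogeneous d :=
  IsHomogeneous.sum _ _ _ fun j _ => (hf.pderiv (i := j)).C_mul _

/-- on a free line every tangent vector extends to a deformation of the line -/
theorem Free.surj (hX : IsManifold I c) (hC : Can I c s) (hl : IsLine I x y)
    (hf : Free I c s x y) : ∀ u ∈ tangS I x, ∃ u', Df I x y u u' := by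
  obtain ⟨K, h, d, hd, hI⟩ := hX.exists_gens
  obtain ⟨ν, hν, hne⟩ := hC
  obtain ⟨ι, _, q, a, hι, ht⟩ := hl.tests hX hν hne hd hI
  have hm : ∀ k, h k ∈ I := fun k => hI ▸ Ideal.subset_span ⟨k, rfl⟩
  have key : ∀ u ∈ tangS I x, ∀ u',
      (∀ i, ∑ k, a i k * dd (h k) (pt x y (q i)) (q i 0 • u + q i 1 • u') = 0) →
        Df I x y u u' := by
    intro u hu u' h0 p hp
    have e : ∀ k (p : Fin 2 → ℂ),
        eval p (X 0 * rl x y (Dw u (h k)) + X 1 * rl x y (Dw u' (h k)) : B2) =
          dd (h k) (pt x y p) (p 0 • u + p 1 • u') := fun k p => by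
      simp only [map_add, map_mul, eval_X, eval_rl, eval_Dw, map_smul, smul_eq_mul]
    have h1 := ht (fun k => X 0 * rl x y (Dw u (h k)) + X 1 * rl x y (Dw u' (h k)))
      (fun k => by
        rw [add_comm (d k)]
        exact ((isHomogeneous_X ℂ 0).mul (rl_hom x y (z2_hom (hd k) u))).add
          ((isHomogeneous_X ℂ 1).mul (rl_hom x y (z2_hom (hd k) u'))))
      (fun p hp r hr => by
        simp only [e]
        exact syz_dd hr (fun k => (hl.mem hp).2 _ (hm k)) _)
      (fun k => by
        rw [e, pt_first]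
        simpa using mem_tangS.1 hu _ (hm k))
      (fun i => by simpa only [e] using h0 i)
    refine mem_tangS_gens hI (hl.mem hp) fun k => ?_
    rw [← e, congrFun h1 k]
    simp
  let Φ : (Fin M → ℂ) →ₗ[ℂ] ι → ℂ :=
    LinearMap.pi fun i => ∑ k, (a i k * q i 1) • dd (h k) (pt x y (q i))
  have hΦ : ∀ u u' i, ∑ k, a i k * dd (h k) (pt x y (q i)) (q i 0 • u + q i 1 • u') =
      ∑ k, a i k * (q i 0 * dd (h k) (pt x y (q i)) u) + Φ u' i := fun u u' i => by
    simp only [Φ, LinearMap.pi_apply, LinearMap.sum_apply, LinearMap.smul_apply, smul_eq_mul,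
      map_add, map_smul, ← sum_add_distrib]
    exact sum_congr rfl fun k _ => by ring
  have hk : LinearMap.ker Φ ≤ Kl I x y := fun w hw =>
    Df.kl hX (key 0 (zero_mem _) w fun i => by
      rw [hΦ, LinearMap.mem_ker.1 hw]
      simp)
  have hr : LinearMap.range Φ = ⊤ := by
    refine Submodule.eq_top_of_finrank_eq (le_antisymm (Submodule.finrank_le _) ?_)
    have h1 := Φ.finrank_range_add_finrank_ker
    have h2 := Submodule.finrank_mono hk
    have h3 : finrank ℂ (Kl I x y) + s + c ≤ M := hf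
    rw [finrank_fintype_fun_eq_card, Fintype.card_fin] at h1
    rw [finrank_fintype_fun_eq_card, hι]
    omega
  intro u hu
  obtain ⟨u', hu'⟩ := LinearMap.range_eq_top.1 hr
    fun i => -∑ k, a i k * (q i 0 * dd (h k) (pt x y (q i)) u)
  exact ⟨u', key u hu u' fun i => by rw [hΦ, hu', add_neg_cancel]⟩

end Pool.Agent.HCF
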