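import Pool.Agent.P.MP_f644fa_ag.Z2

/-! Local equations for the family of lines. -/

noncomputable section
namespace Pool.Agent.HCF
open Finset Module MvPolynomial Filter Topology

variable {M : ℕ} {I : Ideal (SS M)} {c s n : ℕ} {x y : Fin M → ℂ}

theorem z3_mono (a : ℂ) (d : ℕ) : ∀ s : Fin M →₀ ℕ, s.degree = d →
    ∃ F : Fin (d + 1) → MvPolynomial (Fin M ⊕ Fin M) ℂ, ∀ (x y : Fin M → ℂ) (p : Fin 2 → ℂ),
      eval (pt x y p) (monomial s a) =
      ∑ i : Fin (d + 1), p 0 ^ (d - i) * p 1 ^ (i : ℕ) * eval (Sum.elim x y) (F i) := by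
  induction d with
  | zero =>
    intro s hs
    rw [(Finsupp.degree_eq_zero_iff s).1 hs]
    exact ⟨fun _ => C a, fun x y p => by simp⟩
  | succ d ih =>
    intro s hs
    obtain ⟨j, hj⟩ : ∃ j, s j ≠ 0 := by
      by_contra h0
      have h1 : s = 0 := Finsupp.ext fun j => not_not.1 fun h => h0 ⟨j, h⟩
      rw [h1, map_zero] at hs
      omega
    have e : s - Finsupp.single j 1 + Finsupp.single j 1 = s :=
      tsub_add_cancel_of_le (Finsupp.single_le_iff.2 (Nat.one_le_iff_ne_zero.2 hj))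
    have hd : (s - Finsupp.single j 1).degree = d := by
      have h1 := congrArg Finsupp.degree e
      rw [map_add, Finsupp.degree_single, hs] at h1
      omega
    obtain ⟨F, hF⟩ := ih _ hd
    refine ⟨fun i => X (Sum.inl j) *
      Fin.snoc (α := fun _ => MvPolynomial (Fin M ⊕ Fin M) ℂ) F 0 i +
      X (Sum.inr j) * Fin.cons (α := fun _ => MvPolynomial (Fin M ⊕ Fin M) ℂ) 0 F i,
      fun x y p => ?_⟩
    have h1 : (monomial s a : SS M) = monomial (s - Finsupp.single j 1) a * X j := by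
      rw [X, monomial_mul, e, mul_one]
    simp only [map_add, map_mul, eval_X, mul_add, Finset.sum_add_distrib]
    rw [h1, map_mul, hF, eval_X, Fin.sum_univ_castSucc (n := d + 1), Fin.sum_univ_succ (n := d + 1)]
    simp only [Fin.snoc_castSucc, Fin.snoc_last, Fin.cons_zero, Fin.cons_succ, map_zero, mul_zero,
      add_zero, zero_add, Fin.val_castSucc, Fin.val_succ, Nat.add_sub_add_right, pt, Pi.add_apply,
      Pi.smul_apply, smul_eq_mul, mul_add, Finset.sum_mul, Sum.elim_inl, Sum.elim_inr]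
    congr 1
    · refine Finset.sum_congr rfl fun i _ => ?_
      rw [Nat.succ_sub (Nat.lt_succ_iff.1 i.2), pow_succ]
      ring
    · exact Finset.sum_congr rfl fun i _ => by ring

theorem z3_coeff {f : SS M} {d : ℕ} (hf : f.IsHomogeneous d) :
    ∃ F : Fin (d + 1) → MvPolynomial (Fin M ⊕ Fin M) ℂ, ∀ (x y : Fin M → ℂ) (p : Fin 2 → ℂ),
      eval (pt x y p) f =
        ∑ i : Fin (d + 1), p 0 ^ (d - i) * p 1 ^ (i : ℕ) * eval (Sum.elim x y) (F i) := by
  have h1 : ∀ s : f.support, (s : Fin M →₀ ℕ).degree = d := fun s => by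
    rw [Finsupp.degree_eq_weight_one]
    exact hf (mem_support_iff.1 s.2)
  choose F hF using fun s : f.support => z3_mono (coeff (s : Fin M →₀ ℕ) f) d (s : Fin M →₀ ℕ) (h1 s)
  refine ⟨fun i => ∑ s, F s i, fun x y p => ?_⟩
  conv_lhs => rw [f.as_sum, ← Finset.sum_coe_sort, map_sum]
  simp only [hF, map_sum, Finset.mul_sum]
  exact Finset.sum_comm

/-- coefficients of the restriction to a moving plane -/
theorem exists_coeff2 {f : SS M} {d : ℕ} (hf : f.IsHomogeneous (d + 1)) :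
    ∃ F : Fin (d + 1) → MvPolynomial (Fin M ⊕ Fin M) ℂ,
      (∀ x y : Fin M → ℂ, eval (Sum.elim x y) (F 0) = dd f x y) ∧
      ∀ (x y : Fin M → ℂ) (p : Fin 2 → ℂ), eval (pt x y p) f = p 0 ^ (d + 1) * eval x f +
        p 1 * ∑ i : Fin (d + 1), p 0 ^ (d - i) * p 1 ^ (i : ℕ) * eval (Sum.elim x y) (F i) := by
  obtain ⟨G, hG⟩ := z3_coeff hf
  have h0 : ∀ x y : Fin M → ℂ, eval (Sum.elim x y) (G 0) = eval x f := fun x y => by
    have h3 := hG x y ![1, 0]
    rw [pt_first, Fin.sum_univ_succ] at h3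
    simpa using h3.symm
  have h2 : ∀ (x y : Fin M → ℂ) (p : Fin 2 → ℂ), eval (pt x y p) f = p 0 ^ (d + 1) * eval x f +
      p 1 * ∑ i : Fin (d + 1), p 0 ^ (d - i) * p 1 ^ (i : ℕ) *
        eval (Sum.elim x y) (G i.succ) := fun x y p => by
    rw [hG, Fin.sum_univ_succ, h0, Finset.mul_sum]
    congr 1
    · simp
    · refine Finset.sum_congr rfl fun i _ => ?_
      rw [Fin.val_succ, Nat.add_sub_add_right, pow_succ]
      ring
  refine ⟨fun i => G i.succ, fun x y => ?_, h2⟩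
  have h3 := hasDerivAt_line f x y 0
  rw [zero_smul, add_zero] at h3
  have h4 : (fun t : ℂ => eval (x + t • y) f) = fun t : ℂ => eval x f +
      t * ∑ i : Fin (d + 1), t ^ (i : ℕ) * eval (Sum.elim x y) (G i.succ) := funext fun t => by
    have h5 := h2 x y ![1, t]
    simpa [pt] using h5
  rw [h4] at h3
  have h6 : DifferentiableAt ℂ
      (fun t : ℂ => ∑ i : Fin (d + 1), t ^ (i : ℕ) * eval (Sum.elim x y) (G i.succ)) 0 := by
    fun_prop
  have h7 := ((hasDerivAt_id (0 : ℂ)).mul h6.hasDerivAt).const_add (eval x f)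
  have h8 := h3.unique h7
  rw [h8, Fin.sum_univ_succ]
  simp

/-- evaluation at a point of a moving plane -/
theorem exists_subst2 (p : Fin 2 → ℂ) (f : SS M) : ∃ g : MvPolynomial (Fin M ⊕ Fin M) ℂ,
    (∀ x y : Fin M → ℂ, eval (Sum.elim x y) g = eval (pt x y p) f) ∧
    ∀ x y u u' : Fin M → ℂ, dd g (Sum.elim x y) (Sum.elim u u') =
      dd f (pt x y p) (p 0 • u + p 1 • u') := by
  have h1 : ∃ g : MvPolynomial (Fin M ⊕ Fin M) ℂ,
      ∀ x y : Fin M → ℂ, eval (Sum.elim x y) g = eval (pt x y p) f := by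
    induction f using MvPolynomial.induction_on with
    | C a => exact ⟨C a, fun x y => by simp⟩
    | add f g hf hg =>
      obtain ⟨a, ha⟩ := hf
      obtain ⟨b, hb⟩ := hg
      exact ⟨a + b, fun x y => by rw [map_add, map_add, ha, hb]⟩
    | mul_X f j hf =>
      obtain ⟨a, ha⟩ := hf
      exact ⟨a * (C (p 0) * X (Sum.inl j) + C (p 1) * X (Sum.inr j)),
        fun x y => by simp [ha, pt]⟩
  obtain ⟨g, hg⟩ := h1
  refine ⟨g, hg, fun x y u u' => dd_of_eval fun t => ?_⟩
  have e1 : Sum.elim x y + t • Sum.elim u u' = Sum.elim (x + t • u) (y + t • u') := by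
    funext j
    cases j <;> rfl
  have e2 : pt (x + t • u) (y + t • u') p = pt x y p + t • (p 0 • u + p 1 • u') := by
    funext j
    simp only [pt, Pi.add_apply, Pi.smul_apply, smul_eq_mul]
    ring
  rw [e1, hg, e2]

theorem z3_Dw_hom {f : SS M} {d : ℕ} (hf : f.IsHomogeneous (d + 1)) (w : Fin M → ℂ) :
    (Dw w f).IsHomogeneous d :=
  IsHomogeneous.sum _ _ _ fun j _ => by
    have h1 := (isHomogeneous_C (Fin M) (w j)).mul (hf.pderiv (i := j))
    rwa [zero_add, Nat.add_sub_cancel] at h1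

theorem IsLine.fam (hX : IsManifold I c) (hC : Can I c s) (hl : IsLine I x y) :
    ∃ (ι : Type) (_ : Fintype ι) (H : ι → MvPolynomial (Fin M ⊕ Fin M) ℂ)
      (δ : MvPolynomial (Fin M ⊕ Fin M) ℂ), Fintype.card ι = s ∧ eval (Sum.elim x y) δ ≠ 0 ∧
      (∀ i, eval (Sum.elim x y) (H i) = 0) ∧
      (∀ x' ∈ cone I, ∀ y' ∈ tangS I x', eval (Sum.elim x' y') δ ≠ 0 →
        (∀ i, eval (Sum.elim x' y') (H i) = 0) → Pl I x' y') ∧
      ∀ w ∈ tangS I x, (∀ i, dd (H i) (Sum.elim x y) (Sum.elim 0 w) = 0) → w ∈ Kl I x y := by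
  classical
  obtain ⟨K, h, d, hd, hI⟩ := hX.exists_gens
  obtain ⟨ι, _, q, a, hcard, hq, ht⟩ := hl.tests2 hX hC hd hI
  choose sb hsb hsb' using fun (p : Fin 2 → ℂ) (f : SS M) => exists_subst2 p f
  choose Fc hFc0 hFc using fun k => exists_coeff2 (hd k)
  have hmem : ∀ k, h k ∈ I := fun k => hI ▸ Ideal.subset_span ⟨k, rfl⟩
  let R := ({p : Fin 2 → ℂ // p 1 ≠ 0} × {r : Fin K → SS M // ∑ k, r k * h k = 0}) ⊕ (Fin K ⊕ ι)
  let P : R → Fin 2 → ℂ := Sum.elim (fun u => u.1.1) (Sum.elim (fun _ => ![1, 0]) q)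
  let w : R → Fin K → MvPolynomial (Fin M ⊕ Fin M) ℂ := Sum.elim (fun u k => sb u.1.1 (u.2.1 k))
    (Sum.elim (fun k₀ k => if k = k₀ then 1 else 0) fun i k => C (a i k))
  let v : R → (Σ k : Fin K, Fin (d k + 1)) → MvPolynomial (Fin M ⊕ Fin M) ℂ := fun ρ j =>
    w ρ j.1 * C (P ρ 0 ^ (d j.1 - j.2) * P ρ 1 ^ (j.2 : ℕ))
  have hv : ∀ ρ (z : Fin M ⊕ Fin M → ℂ) (θ : (Σ k : Fin K, Fin (d k + 1)) → ℂ),
      ∑ j, eval z (v ρ j) * θ j = ∑ k, eval z (w ρ k) *
        ∑ i : Fin (d k + 1), P ρ 0 ^ (d k - i) * P ρ 1 ^ (i : ℕ) * θ ⟨k, i⟩ := by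
    intro ρ z θ
    rw [Fintype.sum_sigma]
    refine Finset.sum_congr rfl fun k _ => ?_
    rw [Finset.mul_sum]
    refine Finset.sum_congr rfl fun i _ => ?_
    simp only [v, map_mul, eval_C]
    ring
  have hw : ∀ (z : Fin M ⊕ Fin M → ℂ) (k₀ : Fin K) (u : Fin K → ℂ),
      ∑ k, eval z (w (Sum.inr (Sum.inl k₀)) k) * u k = u k₀ := by
    intro z k₀ u
    rw [Finset.sum_eq_single k₀]
    · simp [w]
    · intro k _ hk
      simp [w, hk]
    · intro hk
      exact absurd (Finset.mem_univ _) hk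
  obtain ⟨δ, hδ, hδ'⟩ := lin_inj v (Sum.elim x y) (by
    intro θ hθ
    choose F hF1 hF2 hF3 using fun k => lg1_form (d k) (fun i => θ ⟨k, i⟩)
    have hθ' : ∀ ρ, ∑ k, eval (Sum.elim x y) (w ρ k) * eval (P ρ) (F k) = 0 := by
      intro ρ
      rw [← hθ ρ, hv]
      exact Finset.sum_congr rfl fun k _ => by rw [hF2]
    have hF : F = 0 := by
      refine ht F hF1 (fun p _ r hr => ?_) (fun k => ?_) (fun i => ?_)
      · have h1 : ∀ p' : Fin 2 → ℂ, eval p' (∑ k, rl x y (r k) * F k) =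
            ∑ k, eval (pt x y p') (r k) * eval p' (F k) := fun p' => by
          simp only [map_sum, map_mul, eval_rl]
        have h2 : ∑ k, rl x y (r k) * F k = 0 := b2_zero_off (lg1a_ne 0) fun p' hp' => by
          have h3 : p' 1 ≠ 0 := fun h0 => hp' (by rw [lp0_eval, h0]; simp)
          rw [h1, ← hθ' (Sum.inl (⟨p', h3⟩, ⟨r, hr⟩))]
          exact Finset.sum_congr rfl fun k _ => by rw [← hsb]; rfl
        rw [← h1, h2, map_zero]
      · have h1 := hθ' (Sum.inr (Sum.inl k))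
        rw [hw] at h1
        exact h1
      · rw [← hθ' (Sum.inr (Sum.inr i))]
        exact Finset.sum_congr rfl fun k _ => by simp [w, P]
    funext j
    exact congrFun (hF3 j.1 (congrFun hF j.1)) j.2)
  refine ⟨ι, inferInstance, fun i => ∑ k, C (a i k) * sb (q i) (h k), δ, hcard, hδ, fun i => ?_,
    fun x' hx' y' hy' h1 h2 => ?_, fun u hu h1 => ?_⟩
  · rw [map_sum]
    refine Finset.sum_eq_zero fun k _ => ?_
    rw [map_mul, hsb, pt, hl.2 _ _ _ (hmem k), mul_zero]
  · have h0 : ∀ k (p : Fin 2 → ℂ), eval (pt x' y' p) (h k) = p 1 * ∑ i : Fin (d k + 1),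
        p 0 ^ (d k - i) * p 1 ^ (i : ℕ) * eval (Sum.elim x' y') (Fc k i) := fun k p => by
      rw [hFc, hx'.2 _ (hmem k), mul_zero, zero_add]
    have h3 := hδ' _ h1 (fun j => eval (Sum.elim x' y') (Fc j.1 j.2)) (by
      intro ρ
      rw [hv]
      have h4 : P ρ 1 ≠ 0 → ∑ k, eval (Sum.elim x' y') (w ρ k) * eval (pt x' y' (P ρ)) (h k) = 0 →
          ∑ k, eval (Sum.elim x' y') (w ρ k) * ∑ i : Fin (d k + 1), P ρ 0 ^ (d k - i) *
            P ρ 1 ^ (i : ℕ) * eval (Sum.elim x' y') (Fc k i) = 0 := fun h5 h6 => by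
        refine (mul_eq_zero.1 ?_).resolve_left h5
        rw [← h6, Finset.mul_sum]
        exact Finset.sum_congr rfl fun k _ => by rw [h0, mul_left_comm]
      rcases ρ with ⟨p, r⟩ | k₀ | i
      · refine h4 p.2 ?_
        have h5 := congrArg (eval (pt x' y' p.1)) r.2
        rw [map_sum, map_zero] at h5
        refine Eq.trans ?_ h5
        exact Finset.sum_congr rfl fun k _ => by rw [map_mul, ← hsb p.1 (r.1 k)]; rfl
      · rw [hw, Fin.sum_univ_succ, hFc0, mem_tangS.1 hy' _ (hmem k₀)]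
        simp [P]
      · refine h4 (hq i) (Eq.trans ?_ (h2 i))
        rw [map_sum]
        exact Finset.sum_congr rfl fun k _ => by rw [map_mul, hsb, eval_C]; simp [w, P])
    intro α β f hf
    have h6 : ∀ k, eval (α • x' + β • y') (h k) = 0 := by
      intro k
      refine (h0 k ![α, β]).trans (mul_eq_zero_of_right _ (Finset.sum_eq_zero fun i _ => ?_))
      have h7 : eval (Sum.elim x' y') (Fc k i) = 0 := congrFun h3 ⟨k, i⟩
      rw [h7, mul_zero]
    rw [hI] at hf
    have h8 : Ideal.span (Set.range h) ≤ RingHom.ker (eval (α • x' + β • y')) := by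
      rw [Ideal.span_le]
      rintro _ ⟨k, rfl⟩
      exact h6 k
    exact h8 hf
  · have h2 : ∀ k p, eval p (rl x y (Dw u (h k))) = dd (h k) (pt x y p) u := fun k p => by
      rw [eval_rl, eval_Dw]
    have hF := ht (fun k => rl x y (Dw u (h k))) (fun k => rl_hom x y (z3_Dw_hom (hd k) u))
      (fun p hp r hr => by
        simp only [h2]
        exact syz_dd hr (fun k => (hl.mem hp).2 _ (hmem k)) u)
      (fun k => by
        rw [h2, pt_first]
        exact hu _ (hmem k))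
      (fun i => by
        have h3 := h1 i
        rw [dd_sum] at h3
        simp only [dd_mul, dd_C, eval_C, mul_zero, add_zero, hsb', smul_zero, zero_add, map_smul,
          smul_eq_mul] at h3
        refine (mul_eq_zero.1 ?_).resolve_left (hq i)
        rw [← h3, Finset.mul_sum]
        exact Finset.sum_congr rfl fun k _ => by rw [h2, mul_left_comm])
    intro p hp
    refine mem_tangS_gens hI (hl.mem hp) fun k => ?_
    rw [← h2, congrFun hF k, Pi.zero_apply, map_zero]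

end Pool.Agent.HCF
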