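import Pool.Agent.P.MP_f644fa_ag.Z3

/-! Consequences of the local equations. -/

noncomputable section
namespace Pool.Agent.HCF
open Finset Module MvPolynomial Filter Topology

variable {M : ℕ} {I : Ideal (SS M)} {c s n : ℕ} {x y : Fin M → ℂ}

theorem z3a_elim (x y w : Fin M → ℂ) (t : ℂ) :
    Sum.elim x y + t • Sum.elim (0 : Fin M → ℂ) w = Sum.elim x (y + t • w) := by
  ext (j | j) <;> simp

theorem z3a_ren (g : SS M) (x y : Fin M → ℂ) :
    eval (Sum.elim x y) (rename (Sum.inl : Fin M → Fin M ⊕ Fin M) g) = eval x g := by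
  rw [eval_rename, Sum.elim_comp_inl]

theorem z3a_dd_ren (g : SS M) (x y w : Fin M → ℂ) :
    dd (rename (Sum.inl : Fin M → Fin M ⊕ Fin M) g) (Sum.elim x y) (Sum.elim 0 w) = 0 := by
  rw [← dd_C (eval x g) x x]
  exact dd_of_eval fun t => by rw [z3a_elim, z3a_ren, eval_C]

/-- the equation of the tangent hyperplane of `g` -/
def z3aE (g : SS M) : MvPolynomial (Fin M ⊕ Fin M) ℂ :=
  ∑ j, X (Sum.inr j) * rename Sum.inl (pderiv j g)

theorem z3a_evE (g : SS M) (x y : Fin M → ℂ) :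
    eval (Sum.elim x y) (z3aE g) = ∑ j, y j * eval x (pderiv j g) := by
  simp only [z3aE, map_sum, map_mul, eval_X, z3a_ren, Sum.elim_inr]

theorem z3a_ddE (g : SS M) (x y w : Fin M → ℂ) :
    dd (z3aE g) (Sum.elim x y) (Sum.elim 0 w) = ∑ j, w j * eval x (pderiv j g) := by
  rw [z3aE, dd_sum]
  refine sum_congr rfl fun j _ => ?_
  rw [dd_mul, z3a_dd_ren, dd_X, z3a_ren, Sum.elim_inr, mul_zero, zero_add, mul_comm]

theorem z3a_core (hX : IsManifold I c) (hC : Can I c s) (hl : IsLine I x y) :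
    ∃ (ι : Type) (_ : Fintype ι) (H : ι → MvPolynomial (Fin M ⊕ Fin M) ℂ)
      (δ : MvPolynomial (Fin M ⊕ Fin M) ℂ), Fintype.card ι = c + s ∧ eval (Sum.elim x y) δ ≠ 0 ∧
      (∀ i, eval (Sum.elim x y) (H i) = 0) ∧
      (∀ x' ∈ cone I, ∀ y', eval (Sum.elim x' y') δ ≠ 0 →
        (∀ i, eval (Sum.elim x' y') (H i) = 0) → Pl I x' y') ∧
      ∀ w, (∀ i, dd (H i) (Sum.elim x y) (Sum.elim 0 w) = 0) → w ∈ Kl I x y := by
  obtain ⟨F⟩ := hX.exists_PF hl.mem_left
  obtain ⟨ι, _, H, δ, h1, h2, h3, h4, h5⟩ := hl.fam hX hC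
  refine ⟨Fin c ⊕ ι, inferInstance, Sum.elim (fun i => z3aE (F.f i)) H,
    δ * rename Sum.inl F.g, by simp [h1], ?_, ?_, ?_, ?_⟩
  · rw [map_mul, z3a_ren]
    exact mul_ne_zero h2 F.g_ne
  · rintro (i | i)
    · rw [Sum.elim_inl, z3a_evE]
      exact hl.pl.tang _ (F.f_mem i)
    · exact h3 i
  · intro x' hx' y' hδ hH
    rw [map_mul, z3a_ren] at hδ
    refine h4 x' hx' y' ((F.mem_tang hx' (right_ne_zero_of_mul hδ)).2 fun i => ?_)
      (left_ne_zero_of_mul hδ) fun i => hH (Sum.inr i)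
    rw [← z3a_evE]
    exact hH (Sum.inl i)
  · intro w hw
    refine h5 w ((F.mem_tang hl.mem_left F.g_ne).2 fun i => ?_) fun i => hw (Sum.inr i)
    rw [← z3a_ddE (F.f i) x y w]
    exact hw (Sum.inl i)

/-- the derivative in the second group of variables -/
def z3aP {ι : Type} (H : ι → MvPolynomial (Fin M ⊕ Fin M) ℂ) (x y : Fin M → ℂ) :
    (Fin M → ℂ) →ₗ[ℂ] (ι → ℂ) where
  toFun w i := dd (H i) (Sum.elim x y) (Sum.elim 0 w)
  map_add' a b := by
    ext i
    rw [Pi.add_apply, ← map_add]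
    congr 1
    ext (j | j) <;> simp
  map_smul' t a := by
    ext i
    rw [Pi.smul_apply, RingHom.id_apply, ← map_smul]
    congr 1
    ext (j | j) <;> simp

theorem z3a_rank {ι : Type} [Fintype ι] (Φ : (Fin M → ℂ) →ₗ[ℂ] (ι → ℂ)) :
    finrank ℂ (LinearMap.range Φ) + finrank ℂ (LinearMap.ker Φ) = M ∧
      finrank ℂ (LinearMap.range Φ) ≤ Fintype.card ι := by
  refine ⟨?_, ?_⟩
  · rw [LinearMap.finrank_range_add_finrank_ker, finrank_fintype_fun_eq_card, Fintype.card_fin]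
  · rw [← finrank_fintype_fun_eq_card ℂ]
    exact Submodule.finrank_le _

theorem IsLine.le_Kl (hX : IsManifold I c) (hC : Can I c s) (hl : IsLine I x y) :
    M ≤ finrank ℂ (Kl I x y) + s + c := by
  obtain ⟨ι, _, H, δ, h1, -, -, -, h5⟩ := z3a_core hX hC hl
  have h6 : LinearMap.ker (z3aP H x y) ≤ Kl I x y := fun w hw => h5 w fun i => congrFun hw i
  have h7 := Submodule.finrank_mono h6
  obtain ⟨h8, h9⟩ := z3a_rank (z3aP H x y)
  omega

theorem z3a_sub (x y' : Fin M → ℂ) (g : MvPolynomial (Fin M ⊕ Fin M) ℂ) :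
    eval y' (aeval (Sum.elim (fun j => (C (x j) : SS M)) X) g) = eval (Sum.elim x y') g := by
  induction g using MvPolynomial.induction_on with
  | C a => simp
  | add p q hp hq => simp only [map_add, hp, hq]
  | mul_X p k hp =>
    simp only [map_mul, hp, aeval_X, eval_X]
    rcases k with k | k <;> simp

/-- inside the tangent space, the cone of lines is cut out by `s` equations -/
theorem IsLine.cut (hX : IsManifold I c) (hC : Can I c s) (hl : IsLine I x y) :
    ∃ (H : Fin s → SS M) (δ : SS M), eval y δ ≠ 0 ∧ (∀ i, eval y (H i) = 0) ∧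
      ∀ y' ∈ tangS I x, eval y' δ ≠ 0 → (∀ i, eval y' (H i) = 0) → Pl I x y' := by
  obtain ⟨ι, _, H, δ, h1, h2, h3, h4, -⟩ := hl.fam hX hC
  have e := Fintype.equivFinOfCardEq h1
  refine ⟨fun i => aeval (Sum.elim (fun j => (C (x j) : SS M)) X) (H (e.symm i)),
    aeval (Sum.elim (fun j => (C (x j) : SS M)) X) δ, by rwa [z3a_sub],
    fun i => by rw [z3a_sub, h3], fun y' hy' hδ hH => ?_⟩
  rw [z3a_sub] at hδ
  refine h4 x hl.mem_left y' hy' hδ fun i => ?_
  have := hH (e i)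
  rwa [z3a_sub, e.symm_apply_apply] at this

/-- a chart of the family of lines at a free line -/
theorem Free.chart (hX : IsManifold I c) (hC : Can I c s) (hl : IsLine I x y)
    (hf : Free I c s x y) :
    ∃ (ι : Type) (_ : Fintype ι) (H : ι → MvPolynomial (Fin M ⊕ Fin M) ℂ)
      (δ : MvPolynomial (Fin M ⊕ Fin M) ℂ), eval (Sum.elim x y) δ ≠ 0 ∧
      (∀ i, eval (Sum.elim x y) (H i) = 0) ∧
      (∀ x' ∈ cone I, ∀ y', eval (Sum.elim x' y') δ ≠ 0 →
        (∀ i, eval (Sum.elim x' y') (H i) = 0) → Pl I x' y') ∧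
      (∀ b : ι → ℂ, ∃ w, ∀ i, dd (H i) (Sum.elim x y) (Sum.elim 0 w) = b i) ∧
      ∀ w ∈ Kl I x y, ∀ i, dd (H i) (Sum.elim x y) (Sum.elim 0 w) = 0 := by
  obtain ⟨ι, _, H, δ, h1, h2, h3, h4, h5⟩ := z3a_core hX hC hl
  have h6 : LinearMap.ker (z3aP H x y) ≤ Kl I x y := fun w hw => h5 w fun i => congrFun hw i
  have h7 := Submodule.finrank_mono h6
  obtain ⟨h8, h9⟩ := z3a_rank (z3aP H x y)
  have h10 : finrank ℂ (Kl I x y) + s + c ≤ M := hf
  have h11 : LinearMap.range (z3aP H x y) = ⊤ :=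
    Submodule.eq_top_of_finrank_eq (by rw [finrank_fintype_fun_eq_card]; omega)
  have h12 : LinearMap.ker (z3aP H x y) = Kl I x y :=
    Submodule.eq_of_le_of_finrank_le h6 (by omega)
  refine ⟨ι, inferInstance, H, δ, h2, h3, h4, fun b => ?_, fun w hw i => ?_⟩
  · obtain ⟨w, hw⟩ := LinearMap.range_eq_top.1 h11 b
    exact ⟨w, fun i => congrFun hw i⟩
  · rw [← h12] at hw
    exact congrFun hw i

theorem z3a_rows (I : Ideal (SS M)) (x : Fin M → ℂ) : ∃ (J : Type) (ρ : J → Fin M → SS M),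
    ∀ y', Submodule.span ℂ (Set.range fun i => pv y' (ρ i)) = perp (Kl I x y') := by
  choose g hg using fun p f => exists_subst (M := M) x p f
  refine ⟨{p : Fin 2 → ℂ // p ≠ 0} × I, fun i j => g i.1.1 (pderiv j i.2.1), fun y' => ?_⟩
  refine span_eq_perp _ _ fun θ => ⟨fun h i => ?_, fun h p hp f hf => ?_⟩
  · simp only [pv_apply, hg]
    rw [lx1_comm]
    exact h i.1.1 i.1.2 i.2.1 i.2.2
  · have := h (⟨p, hp⟩, ⟨f, hf⟩)
    simp only [pv_apply, hg] at this
    rwa [lx1_comm] at this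

theorem z3a_sel (I : Ideal (SS M)) (x y : Fin M → ℂ) :
    ∃ (τ : ℕ) (v u : Fin τ → Fin M → SS M) (δ : SS M), τ + finrank ℂ (Kl I x y) = M ∧
      eval y δ ≠ 0 ∧ (∀ k k', ∑ j, v k j * u k' j = if k = k' then δ else 0) ∧
      (∀ y', Submodule.span ℂ (Set.range fun k => pv y' (v k)) ≤ perp (Kl I x y')) ∧
      ∀ y', eval y' δ ≠ 0 → finrank ℂ (Submodule.span ℂ (Set.range fun k => pv y' (v k))) = τ := by
  obtain ⟨J, ρ, hρ⟩ := z3a_rows I x
  obtain ⟨sel, -, h1, -⟩ := exists_sel (fun i => pv y (ρ i)) rfl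
  obtain ⟨δ, u, h2, h3, h4⟩ := lk0_dual (fun k => ρ (sel k)) y h1
  refine ⟨_, fun k => ρ (sel k), u, δ, ?_, h2, h3, fun y' => ?_, h4⟩
  · rw [hρ, finrank_perp, Fintype.card_fin]
  · rw [← hρ]
    exact Submodule.span_mono (by rintro _ ⟨k, rfl⟩; exact ⟨sel k, rfl⟩)

/-- vectors of `Kl` at a free line extend to polynomial fields -/
theorem Free.field (hX : IsManifold I c) (hC : Can I c s) (hl : IsLine I x y)
    (hf : Free I c s x y) {u : Fin M → ℂ} (hu : u ∈ Kl I x y) :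
    ∃ (k : Fin M → SS M) (a : ℂ), a ≠ 0 ∧ pv y k = a • u ∧
      ∀ y', IsLine I x y' → pv y' k ∈ Kl I x y' := by
  obtain ⟨τ, v, us, δ, h1, h2, h3, h4, h5⟩ := z3a_sel I x y
  obtain ⟨A, hA⟩ : ∃ A : Fin τ → SS M, ∀ m, A m = ∑ l, v m l * C (u l) := ⟨_, fun _ => rfl⟩
  refine ⟨fun j => δ * (δ * C (u j) - ∑ m, A m * us m j), eval y δ * eval y δ,
    mul_ne_zero h2 h2, ?_, fun y' hy' => ?_⟩
  · have h6 : ∀ m, eval y (A m) = 0 := fun m => by
      have h7 := h4 y (Submodule.subset_span ⟨m, rfl⟩) u hu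
      simpa only [hA, map_sum, map_mul, eval_C, pv_apply] using h7
    ext j
    simp only [pv_apply, map_mul, map_sub, map_sum, eval_C, h6, zero_mul, sum_const_zero,
      sub_zero, Pi.smul_apply, smul_eq_mul, mul_assoc]
  · by_cases hδ : eval y' δ = 0
    · have h6 : pv y' (fun j => δ * (δ * C (u j) - ∑ m, A m * us m j)) = 0 := by
        ext j
        rw [pv_apply, map_mul, hδ, zero_mul, Pi.zero_apply]
      rw [h6]
      exact zero_mem _
    have h6 := finrank_perp (Kl I x y')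
    have h7 := hy'.le_Kl hX hC
    have h8 : finrank ℂ (Kl I x y) + s + c ≤ M := hf
    rw [Fintype.card_fin] at h6
    have h9 := Submodule.eq_of_le_of_finrank_le (h4 y') (by rw [h5 y' hδ]; omega)
    rw [← perp_perp (Kl I x y'), ← h9, mem_perp_span]
    rintro _ ⟨m, rfl⟩
    have h10 : ∑ j, δ * (δ * C (u j) - ∑ m', A m' * us m' j) * v m j = 0 := by
      have h11 : ∑ j, (∑ m', A m' * us m' j) * v m j = A m * δ := by
        simp only [sum_mul]
        rw [sum_comm]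
        have h12 : ∀ m', ∑ j, A m' * us m' j * v m j = A m' * if m = m' then δ else 0 :=
          fun m' => by
            rw [← h3, mul_sum]
            exact sum_congr rfl fun _ _ => by ring
        simp only [h12, mul_ite, mul_zero, sum_ite_eq, mem_univ, if_true]
      have h13 : ∑ j, δ * C (u j) * v m j = A m * δ := by
        rw [hA, sum_mul]
        exact sum_congr rfl fun _ _ => by ring
      simp only [mul_assoc δ (_ - _), ← mul_sum, sub_mul, sum_sub_distrib, h11, h13, sub_self,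
        mul_zero]
    have h14 := congrArg (eval y') h10
    rw [map_sum, map_zero] at h14
    simpa only [pv_apply, map_mul] using h14

/-- freeness is an open condition -/
theorem Free.open (hf : Free I c s x y) : ∃ δ : SS M, eval y δ ≠ 0 ∧
    ∀ y', eval y' δ ≠ 0 → Free I c s x y' := by
  obtain ⟨τ, v, us, δ, h1, h2, -, h4, h5⟩ := z3a_sel I x y
  refine ⟨δ, h2, fun y' hδ => ?_⟩
  have h6 := finrank_perp (Kl I x y')
  have h7 := Submodule.finrank_mono (h4 y')
  have h8 : finrank ℂ (Kl I x y) + s + c ≤ M := hf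
  rw [Fintype.card_fin] at h6
  rw [h5 y' hδ] at h7
  show finrank ℂ (Kl I x y') + s + c ≤ M
  omega

end Pool.Agent.HCF
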