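import Pool.Agent.P.MP_f644fa_ag.Z0

/-! The implicit function theorem for polynomial equations. -/

noncomputable section
namespace Pool.Agent.HCF
open Finset Module MvPolynomial Filter Topology

variable {τ ι : Type} [Fintype τ] [Fintype ι]

omit [Fintype ι] in
theorem z4_strict {E σ : Type} [Fintype σ] [NormedAddCommGroup E] [NormedSpace ℂ E]
    [FiniteDimensional ℂ E] (H : ι → MvPolynomial σ ℂ) (a : σ → ℂ) (L : E →ₗ[ℂ] σ → ℂ) (p : E) :
    ∃ D : E →L[ℂ] ι → ℂ, (∀ q i, D q i = dd (H i) (a + L p) (L q)) ∧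
      HasStrictFDerivAt (fun q i => eval (a + L q) (H i)) D p := by
  have h1 : HasStrictFDerivAt (fun q => a + L q) (LinearMap.toContinuousLinearMap L) p :=
    (LinearMap.toContinuousLinearMap L).hasStrictFDerivAt.const_add a
  refine ⟨ContinuousLinearMap.pi fun i => (LinearMap.toContinuousLinearMap
    (dd (H i) (a + L p))).comp (LinearMap.toContinuousLinearMap L), fun _ _ => rfl, ?_⟩
  exact hasStrictFDerivAt_pi.2 fun i => (hasStrictFDerivAt_ev (H i) (a + L p)).comp p h1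

/-- the embedding of a pair -/
def z4_L (v : τ → ℂ) : ℂ × (τ → ℂ) →ₗ[ℂ] τ ⊕ τ → ℂ where
  toFun p := Sum.elim (p.1 • v) p.2
  map_add' p q := by
    funext j
    cases j <;> simp [add_mul]
  map_smul' t p := by
    funext j
    cases j <;> simp [mul_assoc]

omit [Fintype τ] in
theorem z4_L_add (x v : τ → ℂ) (p : ℂ × (τ → ℂ)) :
    Sum.elim x 0 + z4_L v p = Sum.elim (x + p.1 • v) p.2 := by
  funext j
  cases j <;> simp [z4_L]

omit [Fintype τ] in
theorem z4_L_zero (v w : τ → ℂ) : z4_L v (0, w) = Sum.elim (0 : τ → ℂ) w := by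
  funext j
  cases j <;> simp [z4_L]

theorem z4_cont (f : MvPolynomial (τ ⊕ τ) ℂ) (x v : τ → ℂ) :
    Continuous fun p : ℂ × (τ → ℂ) => eval (Sum.elim (x + p.1 • v) p.2) f := by
  simp only [← z4_L_add]
  exact (contDiff_ev f).continuous.comp
    (continuous_const.add (LinearMap.toContinuousLinearMap (z4_L v)).continuous)

theorem z4_tan {E F : Type} [NormedAddCommGroup E] [NormedSpace ℂ E] [CompleteSpace E]
    [NormedAddCommGroup F] [NormedSpace ℂ F] [FiniteDimensional ℂ F] {Φ : E → F} {D : E →L[ℂ] F}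
    {y : E} (hΦ : HasStrictFDerivAt Φ D y) (hr : D.range = ⊤) {g : E → ℂ} {g' : E →L[ℂ] ℂ}
    (hg : HasFDerivAt g g' y) (h : ∀ᶠ q in 𝓝 y, Φ q = Φ y → g q = 0) {w : E} (hw : D w = 0) :
    g' w = 0 := by
  have h1 := hΦ.to_implicitFunction hr
  have h2 := hΦ.map_implicitFunction_eq hr
  have h3 := hΦ.implicitFunction_apply_image hr
  generalize hΦ.implicitFunction Φ D hr = φ at h1 h2 h3
  have t0 : Tendsto (φ (Φ y)) (𝓝 0) (𝓝 y) := by
    have := h1.continuousAt.tendsto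
    rwa [h3] at this
  have a3 : ∀ᶠ k in 𝓝 (0 : D.ker), Φ (φ (Φ y) k) = Φ y :=
    (Continuous.prodMk_right (Φ y)).continuousAt.tendsto.eventually h2
  have a4 : (g ∘ φ (Φ y)) =ᶠ[𝓝 0] fun _ => (0 : ℂ) := by
    filter_upwards [t0.eventually h, a3] with k k1 k2
    exact k1 k2
  have hg' : HasFDerivAt g g' (φ (Φ y) 0) := by rwa [h3]
  have d1 := hg'.comp 0 h1.hasFDerivAt
  have d2 := d1.unique ((hasFDerivAt_const (0 : ℂ) 0).congr_of_eventuallyEq a4)
  exact congrArg (fun T : D.ker →L[ℂ] ℂ => T ⟨w, hw⟩) d2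

theorem ift_tan (H : ι → MvPolynomial (τ ⊕ τ) ℂ) (δ : MvPolynomial (τ ⊕ τ) ℂ) {x y : τ → ℂ}
    (hδ : eval (Sum.elim x y) δ ≠ 0) (h0 : ∀ i, eval (Sum.elim x y) (H i) = 0)
    (hs : ∀ b : ι → ℂ, ∃ w, ∀ i, dd (H i) (Sum.elim x y) (Sum.elim 0 w) = b i)
    {f e : MvPolynomial τ ℂ} (he : eval y e ≠ 0)
    (hf : ∀ y', eval (Sum.elim x y') δ ≠ 0 → eval y' e ≠ 0 →
      (∀ i, eval (Sum.elim x y') (H i) = 0) → eval y' f = 0)
    {w : τ → ℂ} (hw : ∀ i, dd (H i) (Sum.elim x y) (Sum.elim 0 w) = 0) : dd f y w = 0 := by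
  obtain ⟨D, hD, hΦ⟩ := z4_strict H (Sum.elim x 0)
    ((z4_L (0 : τ → ℂ)).comp (LinearMap.inr ℂ ℂ (τ → ℂ))) y
  have e0 : ∀ q : τ → ℂ, Sum.elim x 0 + Sum.elim (0 : τ → ℂ) q = Sum.elim x q := fun q => by
    funext j
    cases j <;> simp
  simp only [LinearMap.comp_apply, LinearMap.inr_apply, z4_L_zero, e0] at hD hΦ
  have hr : D.range = ⊤ := LinearMap.range_eq_top.2 fun b => by
    obtain ⟨u, hu⟩ := hs b
    have k : D u = b := funext fun i => by rw [hD, hu]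
    exact ⟨u, k⟩
  have c1 : Continuous fun q : τ → ℂ => eval (Sum.elim x q) δ := by
    have c2 : Continuous fun q : τ → ℂ => ((0 : ℂ), q) := Continuous.prodMk_right 0
    refine ((z4_cont δ x 0).comp' c2).congr fun q => ?_
    simp only [smul_zero, add_zero]
  have k : D w = 0 := funext fun i => by rw [hD, hw, Pi.zero_apply]
  refine z4_tan hΦ hr (hasFDerivAt_ev f y) ?_ k
  filter_upwards [c1.continuousAt.eventually_ne hδ,
    (contDiff_ev e).continuous.continuousAt.eventually_ne he] with q k1 k2 k3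
  exact hf q k1 k2 fun i => (congrFun k3 i).trans (h0 i)

theorem ift_move (H : ι → MvPolynomial (τ ⊕ τ) ℂ) (δ : MvPolynomial (τ ⊕ τ) ℂ) {x y : τ → ℂ}
    (hδ : eval (Sum.elim x y) δ ≠ 0) (h0 : ∀ i, eval (Sum.elim x y) (H i) = 0)
    (hs : ∀ b : ι → ℂ, ∃ w, ∀ i, dd (H i) (Sum.elim x y) (Sum.elim 0 w) = b i) (v : τ → ℂ)
    {N : Set (τ → ℂ)} (hN : N ∈ 𝓝 y) :
    ∀ᶠ t in 𝓝 (0 : ℂ), ∃ y' ∈ N, eval (Sum.elim (x + t • v) y') δ ≠ 0 ∧
      ∀ i, eval (Sum.elim (x + t • v) y') (H i) = 0 := by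
  obtain ⟨D, hD, hΦ⟩ := z4_strict H (Sum.elim x 0) (z4_L v) ((0 : ℂ), y)
  simp only [z4_L_add, zero_smul, add_zero] at hD hΦ
  have hΨ := (hasStrictFDerivAt_fst (𝕜 := ℂ) (p := ((0 : ℂ), y))).prodMk hΦ
  have hr : ((ContinuousLinearMap.fst ℂ ℂ (τ → ℂ)).prod D).range = ⊤ :=
    LinearMap.range_eq_top.2 fun b => by
      obtain ⟨u, hu⟩ := hs (b.2 - D (b.1, 0))
      refine ⟨(b.1, u), Prod.ext rfl ?_⟩
      have e1 : D (0, u) = b.2 - D (b.1, 0) := funext fun i => by rw [hD, z4_L_zero, hu]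
      have e2 : D (b.1, u) = D (b.1, 0) + D (0, u) := by
        rw [← map_add, Prod.mk_add_mk, add_zero, zero_add]
      show D (b.1, u) = b.2
      rw [e2, e1, add_sub_cancel]
  have hm := hΨ.map_nhds_eq_of_surj hr
  have hz : (fun i => eval (Sum.elim x y) (H i)) = 0 := funext h0
  simp only [zero_smul, add_zero, hz] at hm
  have a1 : ∀ᶠ p : ℂ × (τ → ℂ) in 𝓝 (0, y), eval (Sum.elim (x + p.1 • v) p.2) δ ≠ 0 :=
    (z4_cont δ x v).continuousAt.eventually_ne (by simpa using hδ)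
  have a2 : ∀ᶠ p : ℂ × (τ → ℂ) in 𝓝 (0, y), p.2 ∈ N := continuous_snd.continuousAt.tendsto hN
  have a3 := image_mem_map (m := fun p : ℂ × (τ → ℂ) =>
    (p.1, fun i => eval (Sum.elim (x + p.1 • v) p.2) (H i))) (a2.and a1)
  rw [hm] at a3
  have a4 := (Continuous.prodMk_left (0 : ι → ℂ)).continuousAt.tendsto a3
  filter_upwards [a4] with t ht
  obtain ⟨p, ⟨k1, k2⟩, k3⟩ := ht
  obtain ⟨k4, k5⟩ := Prod.mk.inj k3
  subst k4
  exact ⟨p.2, k1, k2, fun i => congrFun k5 i⟩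

end Pool.Agent.HCF
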