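import Pool.Agent.P.MP_f644fa_ag.Z5a

/-! The cone of lines is smooth along free lines; hyperplanes tangent along lines. -/

noncomputable section
namespace Pool.Agent.HCF
open Finset Module MvPolynomial Filter Topology

variable {M : ℕ} {I : Ideal (SS M)} {c s n : ℕ} {x y : Fin M → ℂ}

theorem z5_der {f : SS M} {z u u' : Fin M → ℂ}
    (h : ∀ t : ℂ, dd f (x + t • z) (t • u + u') = 0) : dd f x u + hess f x z u' = 0 := by
  have h1 := hasDerivAt_line (Dw u f) x z 0
  have h2 := hasDerivAt_line (Dw u' f) x z 0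
  have h3 := ((hasDerivAt_id (0 : ℂ)).mul h1).add h2
  have h4 : ((id * fun s : ℂ => eval (x + s • z) (Dw u f)) +
      fun s : ℂ => eval (x + s • z) (Dw u' f)) = fun _ => (0 : ℂ) := by
    funext t
    have h5 := h t
    rw [map_add, map_smul, smul_eq_mul] at h5
    simp only [Pi.add_apply, Pi.mul_apply, id, eval_Dw]
    exact h5
  rw [h4] at h3
  have h6 := h3.unique (hasDerivAt_const (0 : ℂ) (0 : ℂ))
  simp only [id, zero_smul, add_zero, one_mul, zero_mul, eval_Dw] at h6
  rw [hess_eq]
  exact h6

theorem z5_pt1 (x y : Fin M → ℂ) : pt x y ![1, 0] = x := by simp [pt]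

theorem z5_pt2 (x z : Fin M → ℂ) (t : ℂ) : pt z x ![t, 1] = x + t • z := by
  simp [pt, add_comm]

/-- a hyperplane that is tangent to second order at a point of a free line is tangent along it -/
theorem Free.tangent (hX : IsManifold I c) (hC : Can I c s) (hl : IsLine I x y)
    (hf : Free I c s x y) {f : SS M} (hI : f ∈ I) (h : ∀ w ∈ tangS I x, hess f x y w = 0)
    {p : Fin 2 → ℂ} (hp : p ≠ 0) : pv x (gr f) ∈ Es I (pt x y p) := by
  rw [mem_Es]
  intro u hu
  rw [← dd_eq]
  by_cases h1 : p 1 = 0
  · have h0 : p 0 ≠ 0 := fun h0 => hp (by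
      funext i
      fin_cases i
      · exact h0
      · exact h1)
    have h2 : pt x y p = p 0 • x := by rw [pt, h1, zero_smul, add_zero]
    rw [h2, hX.tang_smul x h0] at hu
    exact mem_tangS.1 hu f hI
  · have hq : p 0 * (![1, 0] : Fin 2 → ℂ) 1 - p 1 * (![1, 0] : Fin 2 → ℂ) 0 ≠ 0 := by
      simpa using h1
    obtain ⟨hl', hK⟩ := hl.repar hq
    rw [z5_pt1] at hl' hK
    have hf' : Free I c s (pt x y p) x := by
      rw [Free, hK]
      exact hf
    obtain ⟨u', hd⟩ := hf'.surj hX hC hl' u hu
    have h3 : dd f x u + hess f x (pt x y p) u' = 0 := by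
      refine z5_der fun t => ?_
      have h4 := hd ![t, 1] (fun h5 => by simpa using congrFun h5 1)
      rw [z5_pt2] at h4
      have h6 := mem_tangS.1 h4 f hI
      simpa using h6
    have h7 : hess f x (pt x y p) u' = 0 := by
      rw [pt, map_add, map_smul, map_smul, LinearMap.add_apply, LinearMap.smul_apply,
        LinearMap.smul_apply, hess_self hX hI hd.right, h u' hd.right, smul_zero, smul_zero,
        add_zero]
    rwa [h7, add_zero] at h3

/-- a hyperplane that is tangent along the cone of lines -/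
theorem Free.hess_Kl (hX : IsManifold I c) (hC : Can I c s) (hl : IsLine I x y)
    (hf : Free I c s x y) {f : SS M} (hI : f ∈ I)
    (h : ∀ y', IsLine I x y' → pv y (gr f) ∈ Es I y') {u w : Fin M → ℂ} (hu : u ∈ Kl I x y)
    (hw : w ∈ tangS I y) : hess f y u w = 0 := by
  have hy := hl.mem_right
  obtain ⟨F⟩ := hX.exists_PF hy
  have hP : ∀ l, ∑ j, eval y (pderiv j f) * dd (F.t j l) y u = 0 := fun l => by
    have h1 : dd (∑ j, C (eval y (pderiv j f)) * F.t j l) y u = 0 := by
      refine hf.tan hX hC hl (e := 1) (by simp) (fun y' hl' _ => ?_) hu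
      have h2 := mem_Es.1 (h y' hl') _ (F.t_tan hX hy hl'.mem_right l)
      simp only [map_sum, map_mul, eval_C]
      exact h2
    rw [dd_sum] at h1
    simp only [dd_mul, dd_C, mul_zero, add_zero, eval_C] at h1
    exact h1
  have hQ : ∀ l, ∑ j, eval y (F.t j l) * dd (pderiv j f) y u = 0 := fun l => by
    have h1 := mem_tangS.1 (Kl_le_right x y hu) _ (F.t_der hX hy l f hI)
    rw [dd_sum] at h1
    simp only [dd_mul, sum_add_distrib] at h1
    rwa [hP l, add_zero] at h1
  have h3 : hess f y u w = ∑ j, w j * dd (pderiv j f) y u := by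
    rw [hess_eq, Dw, dd_sum]
    simp only [dd_mul, dd_C, mul_zero, add_zero, eval_C]
  have h4 : eval y F.δ * hess f y u w = 0 := by
    rw [h3, mul_sum]
    simp only [← mul_assoc, ← F.t_fix hw, sum_mul]
    rw [sum_comm]
    refine sum_eq_zero fun l _ => ?_
    have h5 := congrArg (fun a => w l * a) (hQ l)
    simp only [mul_sum, mul_zero] at h5
    rw [← h5]
    exact sum_congr rfl fun _ _ => by ring
  exact (mul_eq_zero.1 h4).resolve_left F.δ_ne

end Pool.Agent.HCF
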