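import Pool.Agent.P.MP_f644fa_ag.Z3a
import Pool.Agent.P.MP_f644fa_ag.Z4

/-! The cone of lines is smooth along free lines. -/

noncomputable section
namespace Pool.Agent.HCF
open Finset Module MvPolynomial Filter Topology

variable {M : ℕ} {I : Ideal (SS M)} {c s n : ℕ} {x y : Fin M → ℂ}

theorem Free.tan (hX : IsManifold I c) (hC : Can I c s) (hl : IsLine I x y)
    (hf : Free I c s x y) {f e : SS M} (he : eval y e ≠ 0)
    (h : ∀ y', IsLine I x y' → eval y' e ≠ 0 → eval y' f = 0) {w : Fin M → ℂ}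
    (hw : w ∈ Kl I x y) : dd f y w = 0 := by
  obtain ⟨ψ, h1, -, h2⟩ := hl.symm.1.exists_phi
  obtain ⟨ι, _, H, δ, hδ, h0, hp, hs, hk⟩ := hf.chart hX hC hl
  refine ift_tan H δ hδ h0 hs (e := e * lin ψ) ?_ (fun y' a1 a2 a3 => ?_) (hk w hw)
  · rw [map_mul, eval_lin]
    exact mul_ne_zero he h1
  · rw [map_mul, eval_lin] at a2
    rcases (hp x hl.mem_left y' a1 a3).line_or hl.mem_left.1 with h3 | ⟨t, rfl⟩
    · exact h y' h3 (left_ne_zero_of_mul a2)
    · refine absurd ?_ (right_ne_zero_of_mul a2)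
      simp only [Pi.smul_apply, smul_eq_mul, mul_left_comm _ t, ← mul_sum, h2, mul_zero]

theorem Free.kl_le (hX : IsManifold I c) (hC : Can I c s) (hl : IsLine I x y)
    (hf : Free I c s x y) :
    Kl I x y ≤ Submodule.span ℂ {y' | IsLine I x y' ∧ Free I c s x y'} := by
  intro w hw
  rw [← perp_perp (Submodule.span ℂ _), mem_perp]
  intro ξ hξ
  obtain ⟨δ, hδ, hfr⟩ := hf.open
  have h1 := hf.tan hX hC hl (f := lin ξ) hδ
    (fun y' a1 a2 => (eval_lin ξ y').trans (mem_perp_span.1 hξ y' ⟨a1, hfr y' a2⟩)) hw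
  rw [lin, dd_sum] at h1
  simp only [dd_mul, dd_C, dd_X, eval_C, mul_zero, add_zero] at h1
  simpa only [mul_comm] using h1

theorem SpF.open (hX : IsManifold I c) (hC : Can I c s) (h : SpF I c s x) {v : Fin M → ℂ}
    (hv : IsLine I x v) : ∀ᶠ t in 𝓝 (0 : ℂ), Spn I (x + t • v) := by
  have he : Submodule.span ℂ (Set.range
      (Subtype.val : {y // y ∈ {y | IsLine I x y ∧ Free I c s x y}} → Fin M → ℂ)) = tangS I x := by
    rw [Subtype.range_coe]
    exact le_antisymm (Submodule.span_le.2 fun y hy => hy.1.pl.tang) h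
  obtain ⟨σ, -, hi, -⟩ := exists_sel _ (congrArg (fun W : Submodule ℂ (Fin M → ℂ) => finrank ℂ W) he)
  have hU := (isOpen_setOfPred_linearIndependent (𝕜 := ℂ)).mem_nhds hi
  rw [nhds_pi, Filter.mem_pi] at hU
  obtain ⟨J, -, N, hN, hsub⟩ := hU
  have hk : ∀ k, ∀ᶠ t in 𝓝 (0 : ℂ), ∃ y' ∈ N k, Pl I (x + t • v) y' := fun k => by
    obtain ⟨ι, _, H, δ, hδ, h0, hp, hs, -⟩ := (σ k).2.2.chart hX hC (σ k).2.1
    filter_upwards [ift_move H δ hδ h0 hs v (hN k)] with t ⟨y', a1, a2, a3⟩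
    exact ⟨y', a1, hp _ (hv.mem_add t) y' a2 a3⟩
  filter_upwards [eventually_all.2 hk] with t ht
  choose y' a1 a2 using ht
  have hind : LinearIndependent ℂ y' := hsub fun k _ => a1 k
  have r1 := hX.finrank_tang hv.mem_left
  have r2 := hX.finrank_tang (hv.mem_add t)
  have e : Submodule.span ℂ (Set.range y') = tangS I (x + t • v) := by
    refine Submodule.eq_of_le_of_finrank_eq
      (Submodule.span_le.2 (Set.range_subset_iff.2 fun k => (a2 k).tang)) ?_
    rw [finrank_span_eq_card hind, Fintype.card_fin]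
    omega
  unfold Spn
  rw [← e]
  exact Submodule.span_mono (Set.range_subset_iff.2 a2)

theorem Free.quad (hX : IsManifold I c) (hC : Can I c s) (hl : IsLine I x y)
    (hf : Free I c s x y) (B : (Fin M → ℂ) →ₗ[ℂ] (Fin M → ℂ) →ₗ[ℂ] ℂ)
    (hs : ∀ u w, B u w = B w u) (h0 : ∀ v, Pl I x v → B v v = 0) {w : Fin M → ℂ}
    (hw : w ∈ Kl I x y) : B y w = 0 := by
  obtain ⟨P, h1, h2⟩ := quad_poly B
  have h3 := hf.tan hX hC hl (f := P) (e := 1) (by simp)
    (fun y' a1 _ => (h1 y').trans (h0 y' a1.pl)) hw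
  rw [h2, hs w y, ← two_mul] at h3
  exact (mul_eq_zero.1 h3).resolve_left two_ne_zero

end Pool.Agent.HCF
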