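import Pool.Agent.P.MP_f644fa_ag.Z1

/-! Closures and difference quotients. -/

noncomputable section
namespace Pool.Agent.HCF
open Finset Module MvPolynomial Filter Topology

variable {M : ℕ} {I : Ideal (SS M)} {c s n : ℕ}

theorem z6a_sub {σ τ : Type} (P : σ → MvPolynomial τ ℂ) (y : τ → ℂ) (f : MvPolynomial σ ℂ) :
    eval y (aeval P f) = eval (fun j => eval y (P j)) f := by
  induction f using MvPolynomial.induction_on with
  | C a => simp
  | add p q hp hq => simp only [map_add, hp, hq]
  | mul_X p k hp => simp only [map_mul, hp, aeval_X, eval_X]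

/-- the Zariski closure of a cone -/
theorem ccone_closure {τ : Type} [Fintype τ] (W : Set (τ → ℂ))
    (hW : ∀ y ∈ W, ∀ t : ℂ, t ≠ 0 → t • y ∈ W) :
    CCone {y | y ≠ 0 ∧ ∀ f : MvPolynomial τ ℂ, (∀ z ∈ W, eval z f = 0) → eval y f = 0} := by
  refine ⟨fun y hy => hy.1, fun y hy t ht => ⟨smul_ne_zero ht hy.1, fun f hf => ?_⟩,
    fun y hy H => ⟨hy, fun f hf => H f fun z hz => hz.2 f hf⟩⟩
  have e : ∀ z : τ → ℂ, eval z (aeval (fun j => C t * X j : τ → MvPolynomial τ ℂ) f) =
      eval (t • z) f := fun z => by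
    rw [z6a_sub]
    congr 2
    funext j
    simp
  rw [← e]
  exact hy.2 _ fun z hz => by rw [e]; exact hf _ (hW z hz t ht)

/-- substitution of an affine map -/
theorem exists_aff {m : ℕ} (b : Fin m → Fin M → ℂ) (z v : Fin M → ℂ) (f : SS M) :
    ∃ g : MvPolynomial (Option (Fin m)) ℂ, ∀ y : Option (Fin m) → ℂ,
      eval y g = eval (z + ∑ i, y (some i) • b i + y none • v) f := by
  refine ⟨aeval (fun j => C (z j) + ∑ i, X (some i) * C (b i j) + X none * C (v j) :
    Fin M → MvPolynomial (Option (Fin m)) ℂ) f, fun y => ?_⟩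
  rw [z6a_sub]
  congr 2
  funext j
  simp

/-- the difference quotient -/
theorem diff_quot {m : ℕ} (b : Fin m → Fin M → ℂ) (z v w : Fin M → ℂ) (f : SS M) :
    ∃ g : MvPolynomial (Option (Fin m)) ℂ,
      (∀ y : Option (Fin m) → ℂ, eval (z + ∑ i, y (some i) • b i + y none • w) f -
        eval (z + ∑ i, y (some i) • b i + y none • v) f = y none * eval y g) ∧
      ∀ y : Option (Fin m) → ℂ, y none = 0 →
        eval y g = dd f (z + ∑ i, y (some i) • b i) (w - v) := by
  induction f using MvPolynomial.induction_on with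
  | C a => exact ⟨0, fun y => by simp, fun y _ => by rw [dd_C, map_zero]⟩
  | add p q hp hq =>
    obtain ⟨g, g1, g2⟩ := hp
    obtain ⟨h, h1, h2⟩ := hq
    refine ⟨g + h, fun y => ?_, fun y hy => by rw [dd_add, map_add, g2 y hy, h2 y hy]⟩
    simp only [map_add]
    linear_combination g1 y + h1 y
  | mul_X p k hp =>
    obtain ⟨g, g1, g2⟩ := hp
    obtain ⟨L, hL⟩ := exists_aff b z w (X k)
    obtain ⟨P, hP⟩ := exists_aff b z v p
    refine ⟨g * L + P * C (w k - v k), fun y => ?_, fun y hy => ?_⟩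
    · simp only [map_add, map_mul, hL, hP, eval_C, eval_X, Pi.add_apply, Pi.smul_apply,
        smul_eq_mul]
      linear_combination (z k + (∑ i, y (some i) • b i) k + y none * w k) * g1 y
    · rw [dd_mul, dd_X, map_add, map_mul, map_mul, hL, hP, g2 y hy, hy, eval_C, zero_smul,
        zero_smul, add_zero, Pi.sub_apply]
      ring

end Pool.Agent.HCF
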