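import Pool.Agent.P.MP_f644fa_ag.Z5a
import Pool.Agent.P.MP_f644fa_ag.Z6a

/-! Quadrics of small rank do not contain the variety of lines. -/

noncomputable section
namespace Pool.Agent.HCF
open Finset Module MvPolynomial Filter Topology

variable {M : ℕ} {I : Ideal (SS M)} {c s n : ℕ}

theorem z6_basis (R : Submodule ℂ (Fin M → ℂ)) (j : Fin M) :
    ∃ (m : ℕ) (b : Fin m → Fin M → ℂ), finrank ℂ R ≤ m + 1 ∧ (∀ i, b i ∈ R) ∧
      (∀ i, b i j = 0) ∧ LinearIndependent ℂ b := by
  let φ : (Fin M → ℂ) →ₗ[ℂ] ℂ := LinearMap.proj j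
  let b := Module.finBasis ℂ (R ⊓ LinearMap.ker φ : Submodule ℂ (Fin M → ℂ))
  refine ⟨_, fun i => (b i : Fin M → ℂ), ?_, fun i => (b i).2.1, fun i => (b i).2.2, ?_⟩
  · have h1 := φ.finrank_range_add_finrank_ker
    have h2 := (LinearMap.range φ).finrank_le
    have h3 := Submodule.finrank_sup_add_finrank_inf_eq R (LinearMap.ker φ)
    have h4 := (R ⊔ LinearMap.ker φ).finrank_le
    rw [finrank_self] at h2
    omega
  · have h1 := b.linearIndependent.map' (R ⊓ LinearMap.ker φ).subtype (Submodule.ker_subtype _)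
    exact h1

/-- the parametrisation of the join -/
def z6P {m : ℕ} (b : Fin m → Fin M → ℂ) (u : Fin M → ℂ) (y : Option (Fin m) → ℂ) : Fin M → ℂ :=
  ∑ i, y (some i) • b i + y none • u

theorem z6_id {m : ℕ} (b : Fin m → Fin M → ℂ) (z u : Fin M → ℂ) (t : ℂ)
    (y : Option (Fin m) → ℂ) :
    z + ∑ i, y (some i) • t • b i + y none • t • u = z + t • z6P b u y := by
  rw [z6P, smul_add, Finset.smul_sum, add_assoc, smul_comm t (y none)]
  simp only [smul_comm t]

theorem zak (hX : IsManifold I c) (hC : Can I c s) {z : Fin M → ℂ} (hz : z ∈ cone I)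
    (hf : ∀ v, IsLine I z v → Free I c s z v) (B : (Fin M → ℂ) →ₗ[ℂ] (Fin M → ℂ) →ₗ[ℂ] ℂ)
    (hs : ∀ u w, B u w = B w u) (h0 : ∀ v, Pl I z v → B v v = 0)
    (hz0 : ∀ w ∈ tangS I z, B z w = 0) (R : Submodule ℂ (Fin M → ℂ)) (hR : R ≤ tangS I z)
    (hRB : ∀ u ∈ R, ∀ w ∈ tangS I z, B u w = 0) (hd : 2 * s + 2 ≤ finrank ℂ R) :
    ∀ v w, Pl I z v → Pl I z w → B v w = 0 := by
  classical
  intro v w hv hw
  by_contra hvw
  have hline : ∀ u u', Pl I z u → u' ∈ tangS I z → B u u' ≠ 0 → IsLine I z u := by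
    intro u u' hu hu' hB
    refine (hu.line_or hz.1).resolve_right ?_
    rintro ⟨t, rfl⟩
    exact hB (by rw [map_smul, LinearMap.smul_apply, hz0 u' hu', smul_zero])
  have hlv := hline v w hv hw.tang hvw
  have hlw := hline w v hw hv.tang (by rwa [hs])
  obtain ⟨j, hj⟩ : ∃ j, z j ≠ 0 := Function.ne_iff.1 hz.1
  obtain ⟨m, b, hm, hbR, hbj, hbi⟩ := z6_basis R j
  have hB : ∀ y u, ∀ κ ∈ tangS I z, B (z6P b u y) κ = y none * B u κ := by
    intro y u κ hκ
    simp only [z6P, map_add, map_sum, map_smul, LinearMap.add_apply, LinearMap.sum_apply,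
      LinearMap.smul_apply, hRB _ (hbR _) κ hκ, smul_eq_mul, mul_zero, sum_const_zero, zero_add]
  have hT : ∀ y, ∀ u ∈ tangS I z, z6P b u y ∈ tangS I z := fun y u hu =>
    add_mem (Submodule.sum_mem _ fun i _ => Submodule.smul_mem _ _ (hR (hbR i)))
      (Submodule.smul_mem _ _ hu)
  have hsm : ∀ u (t : ℂ) y, z6P b u (t • y) = t • z6P b u y := by
    intro u t y
    simp only [z6P, Pi.smul_apply, smul_eq_mul, mul_smul, smul_add, Finset.smul_sum]
  have hone : ∀ u, z6P b u (Pi.single none 1) = u := fun u => by simp [z6P]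
  have haff : ∀ u (f : SS M), ∃ g : MvPolynomial (Option (Fin m)) ℂ, ∀ y,
      eval y g = eval (z6P b u y) f := fun u f => by
    obtain ⟨g, hg⟩ := exists_aff b 0 u f
    exact ⟨g, fun y => by rw [hg, zero_add, z6P]⟩
  choose A hA using haff
  let W0 : Set (Option (Fin m) → ℂ) :=
    {y | y none ≠ 0 ∧ Pl I z (z6P b v y) ∧ Pl I z (z6P b w y)}
  have hpl : ∀ u (t : ℂ), Pl I z u → Pl I z (t • u) := fun u t hu a a' f hf' => by
    rw [smul_smul]
    exact hu a _ f hf'
  have hW := ccone_closure W0 fun y hy t ht =>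
    ⟨mul_ne_zero ht hy.1, by rw [hsm]; exact hpl _ t hy.2.1, by rw [hsm]; exact hpl _ t hy.2.2⟩
  obtain ⟨H1, δ1, a1, a2, a3⟩ := hlv.cut hX hC
  obtain ⟨H2, δ2, b1, b2, b3⟩ := hlw.cut hX hC
  have hcut : LocCut {y | y ≠ 0 ∧ ∀ f : MvPolynomial (Option (Fin m)) ℂ,
      (∀ z ∈ W0, eval z f = 0) → eval y f = 0} (Pi.single none 1) (2 * s) := by
    refine LocCut.of_card (ι := Fin s ⊕ Fin s) (by simp; omega)
      (Sum.elim (fun i => A v (H1 i)) fun i => A w (H2 i)) (A v δ1 * A w δ2 * X none) ?_ ?_ ?_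
    · simp only [map_mul, hA, hone, eval_X, Pi.single_eq_same, mul_one]
      exact mul_ne_zero a1 b1
    · rintro (i | i)
      · simpa only [Sum.elim_inl, hA, hone] using a2 i
      · simpa only [Sum.elim_inr, hA, hone] using b2 i
    · intro y hy hi
      simp only [map_mul, hA, eval_X, mul_ne_zero_iff] at hy
      refine ⟨fun h => hy.2 (by rw [h]; rfl), fun f hf' => hf' y ⟨hy.2, ?_, ?_⟩⟩
      · exact a3 _ (hT y v hv.tang) hy.1.1 fun i => by
          simpa only [Sum.elim_inl, hA] using hi (Sum.inl i)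
      · exact b3 _ (hT y w hw.tang) hy.1.2 fun i => by
          simpa only [Sum.elim_inr, hA] using hi (Sum.inr i)
  have hcard := hW.card_le hcut (ι := Unit) (fun _ => Pi.single none 1) fun y hy => ⟨(), ?_⟩
  · simp only [Fintype.card_option, Fintype.card_fin, Fintype.card_unit] at hcard
    omega
  have e : ∑ l, (Pi.single none 1 : Option (Fin m) → ℂ) l * y l = y none := by
    simp [Pi.single_apply]
  rw [e]
  intro hn
  obtain ⟨hy0, hy⟩ := hy
  have hρ : ∀ u, z6P b u y = ∑ i, y (some i) • b i := fun u => by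
    rw [z6P, hn, zero_smul, add_zero]
  have hne : z6P b v y ≠ 0 := fun h => hy0 <| funext fun l => by
    rw [hρ] at h
    cases l with
    | none => exact hn
    | some i => exact Fintype.linearIndependent_iff.1 hbi _ h i
  have hP : Pl I z (z6P b v y) := fun a a' f hf' => by
    obtain ⟨g, hg⟩ := exists_aff (fun i => a' • b i) (a • z) (a' • v) f
    rw [← z6_id, ← hg]
    exact hy g fun y' h' => by rw [hg, z6_id]; exact h'.2.1 a a' f hf'
  have hL : IsLine I z (z6P b v y) := by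
    refine (hP.line_or hz.1).resolve_right ?_
    rintro ⟨t, ht⟩
    have h1 : z6P b v y j = 0 := by simp [hρ, Finset.sum_apply, hbj]
    rw [ht, Pi.smul_apply, smul_eq_mul, mul_eq_zero] at h1
    exact hne (by rw [ht, h1.resolve_right hj, zero_smul])
  have hK : w - v ∈ Kl I z (z6P b v y) := mem_Kl_of hX fun p _ hp f hf' => by
    obtain ⟨g, g1, g2⟩ := diff_quot (fun i => p 1 • b i) (p 0 • z) (p 1 • v) (p 1 • w) f
    have h1 : eval y g = 0 := hy g fun y' h' => by
      have h2 := g1 y'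
      rw [z6_id, z6_id, h'.2.1 _ _ f hf', h'.2.2 _ _ f hf', sub_zero] at h2
      exact (mul_eq_zero.1 h2.symm).resolve_left h'.1
    have h3 := z6_id b (p 0 • z) v (p 1) y
    rw [hn, zero_smul, add_zero] at h3
    rw [g2 y hn, h3, ← smul_sub, map_smul, smul_eq_mul] at h1
    exact (mul_eq_zero.1 h1).resolve_left hp
  obtain ⟨k, a, ha, hk, hk'⟩ := (hf _ hL).field hX hC hL hK
  have hG : ∀ y', eval y' (∑ l, A v (k l) * C (B v fun l' => if l = l' then 1 else 0)) =
      B v (pv (z6P b v y') k) := fun y' => by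
    rw [LinearMap.pi_apply_eq_sum_univ (B v)]
    simp only [map_sum, map_mul, hA, eval_C, smul_eq_mul, pv_apply]
  have h1 := hy _ fun y' h' => (hG y').trans <| by
    have l1 := hline _ w h'.2.1 hw.tang (by rw [hB _ _ _ hw.tang]; exact mul_ne_zero h'.1 hvw)
    have l2 := (hf _ l1).quad hX hC l1 B hs h0 (hk' _ l1)
    rw [hB _ _ _ (Kl_le_left _ _ (hk' _ l1))] at l2
    exact (mul_eq_zero.1 l2).resolve_left h'.1
  rw [hG, hk, map_smul, map_sub, h0 v hv, sub_zero, smul_eq_mul] at h1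
  exact hvw ((mul_eq_zero.1 h1).resolve_left ha)

end Pool.Agent.HCF
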