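import Pool.Agent.P.MP_f644fa_ag.Z1

/-! Differential ideals. -/

noncomputable section
namespace Pool.Agent.HCF
open Finset Module MvPolynomial Filter Topology

variable {M : ℕ} {I : Ideal (SS M)} {c : ℕ}

theorem z7_Y (x : Fin M → ℂ) (l : Fin M) :
    (X l - C (x l) : SS M) ∈ RingHom.ker (eval x) := by
  simp [RingHom.mem_ker]

theorem z7_sub (x : Fin M → ℂ) (f : SS M) : f - C (eval x f) ∈ RingHom.ker (eval x) := by
  simp [RingHom.mem_ker]

theorem z7_taylor (x : Fin M → ℂ) (f : SS M) :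
    f - C (eval x f) - ∑ l, pderiv l f * (X l - C (x l)) ∈ RingHom.ker (eval x) ^ 2 := by
  classical
  induction f using MvPolynomial.induction_on with
  | C a => simp
  | add p q hp hq =>
    have := add_mem hp hq
    simp only [map_add, add_mul, sum_add_distrib]
    rwa [show ∀ a b c d e f : SS M, a - b - c + (d - e - f) = a + d - (b + e) - (c + f) from
      fun _ _ _ _ _ _ => by ring] at this
  | mul_X p k hp =>
    have h1 := Ideal.mul_mem_left _ (X k) hp
    have h2 : (p - C (eval x p)) * (X k - C (x k)) ∈ RingHom.ker (eval x) ^ 2 := by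
      rw [pow_two]
      exact Ideal.mul_mem_mul (z7_sub x p) (z7_Y x k)
    have e : ∑ l, pderiv l (p * X k) * (X l - C (x l)) =
        X k * ∑ l, pderiv l p * (X l - C (x l)) + p * (X k - C (x k)) := by
      simp only [Derivation.leibniz, smul_eq_mul, pderiv_X, Pi.single_apply, add_mul,
        sum_add_distrib, mul_sum, mul_ite, ite_mul, mul_one, mul_zero, zero_mul, mul_assoc,
        sum_ite_eq, mem_univ, if_true]
      rw [add_comm]
    have := sub_mem h1 h2
    rw [e, map_mul, eval_X, map_mul]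
    rwa [show ∀ a p q s b : SS M, a * (p - q - s) - (p - q) * (a - b) =
      p * a - q * b - (a * s + p * (a - b)) from fun _ _ _ _ _ => by ring] at this

theorem z7_mul {m : Ideal (SS M)} {a b : SS M} {j k : ℕ} (ha : a ∈ m ^ j) (hb : b ∈ I ⊔ m ^ k) :
    a * b ∈ I ⊔ m ^ (j + k) := by
  obtain ⟨u, hu, v, hv, rfl⟩ := Submodule.mem_sup.1 hb
  rw [mul_add, pow_add]
  exact add_mem (Ideal.mem_sup_left (Ideal.mul_mem_left _ _ hu))
    (Ideal.mem_sup_right (Ideal.mul_mem_mul ha hv))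

/-- a derivation that acts on the cotangent space as a scalar -/
theorem z7_pow {m : Ideal (SS M)} (L : Derivation ℂ (SS M) (SS M)) (e : SS M)
    (h0 : ∀ a, L a ∈ m) (h1 : ∀ u ∈ m, L u - e * u ∈ I ⊔ m ^ 2) (k : ℕ) :
    ∀ a ∈ m ^ k, L a - k * e * a ∈ I ⊔ m ^ (k + 1) := by
  induction k with
  | zero =>
    intro a _
    simpa using Ideal.mem_sup_right (h0 a)
  | succ k ih =>
    intro a ha
    rw [pow_succ] at ha
    refine Submodule.mul_induction_on ha (fun b hb u hu => ?_) fun a b ha hb => ?_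
    · have t1 := z7_mul hb (h1 u hu)
      have t2 := z7_mul (j := 1) (by rwa [pow_one]) (ih b hb)
      rw [add_comm 1 (k + 1)] at t2
      have := add_mem t1 t2
      rw [Derivation.leibniz, smul_eq_mul, smul_eq_mul]
      push_cast
      rwa [show ∀ b p e u q k : SS M, b * (p - e * u) + u * (q - k * e * b) =
        b * p + u * q - (k + 1) * e * (b * u) from fun _ _ _ _ _ _ => by ring] at this
    · have := add_mem ha hb
      rwa [map_add, mul_add, add_sub_add_comm]

theorem z7_krull (hX : IsManifold I c) {m : Ideal (SS M)} (hm : m ≠ ⊤) (hI : I ≤ m) {f : SS M}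
    (h : ∀ k, f ∈ I ⊔ m ^ k) : f ∈ I := by
  have := hX.prime
  have h1 : m.map (Ideal.Quotient.mk I) ≠ ⊤ := fun e => hm (by
    have h2 := Ideal.comap_map_of_surjective (Ideal.Quotient.mk I) Ideal.Quotient.mk_surjective m
    rw [e, Ideal.comap_top, ← RingHom.ker_eq_comap_bot, Ideal.mk_ker, sup_eq_left.2 hI] at h2
    exact h2.symm)
  rw [← Ideal.Quotient.eq_zero_iff_mem, ← Ideal.mem_bot,
    ← Ideal.iInf_pow_eq_bot_of_isDomain _ h1, Ideal.mem_iInf]
  intro k
  obtain ⟨u, hu, v, hv, rfl⟩ := Submodule.mem_sup.1 (h k)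
  rw [map_add, Ideal.Quotient.eq_zero_iff_mem.2 hu, zero_add, ← Ideal.map_pow]
  exact Ideal.mem_map_of_mem _ hv

theorem diff_ideal (hX : IsManifold I c) {x : Fin M → ℂ} (hx : x ∈ cone I) (F : PF I c x)
    (J : Ideal (SS M)) (h0 : ∀ f ∈ J, eval x f = 0)
    (hD : ∀ l, ∀ f ∈ J, ∑ j, F.t j l * pderiv j f ∈ J) : J ≤ I := by
  classical
  set m : Ideal (SS M) := RingHom.ker (eval x) with hm
  let L : Derivation ℂ (SS M) (SS M) := ∑ j, (∑ l, F.t j l * (X l - C (x l))) • pderiv j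
  have hL : ∀ p, L p = ∑ j, (∑ l, F.t j l * (X l - C (x l))) * pderiv j p := fun p => by
    have := map_sum (Derivation.coeFnAddMonoidHom (R := ℂ) (A := SS M) (M := SS M))
      (fun j => (∑ l, F.t j l * (X l - C (x l))) • pderiv j) univ
    exact (congrFun this p).trans (by simp)
  have hL' : ∀ p, L p = ∑ l, (X l - C (x l)) * ∑ j, F.t j l * pderiv j p := fun p => by
    rw [hL]
    simp only [sum_mul, mul_sum]
    rw [sum_comm]
    exact sum_congr rfl fun _ _ => sum_congr rfl fun _ _ => by ring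
  have hIm : I ≤ m := fun f hf => hx.2 f hf
  have hE : ∀ u ∈ m, u - ∑ l, pderiv l u * (X l - C (x l)) ∈ m ^ 2 := fun u hu => by
    have := z7_taylor x u
    rwa [RingHom.mem_ker.1 hu, map_zero, sub_zero] at this
  have ht : ∀ j, ∑ l, F.t j l * (X l - C (x l)) - C (eval x F.δ) * (X j - C (x j)) ∈
      I ⊔ m ^ 2 := fun j => by
    have e : ∑ l, F.t j l * (X l - C (x l)) - C (eval x F.δ) * (X j - C (x j)) =
        (F.δ - C (eval x F.δ)) * (X j - C (x j)) -
          ∑ i, F.b i j * ∑ l, pderiv l (F.f i) * (X l - C (x l)) := by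
      simp only [PF.basic_t, sub_mul (ite _ _ _), sum_sub_distrib, ite_mul, zero_mul, sum_ite_eq,
        mem_univ, if_true, sum_mul, mul_sum, mul_assoc]
      rw [sum_comm]
      ring
    rw [e]
    refine sub_mem (Ideal.mem_sup_right ?_) (sum_mem fun i _ => Ideal.mul_mem_left _ _ ?_)
    · rw [pow_two]
      exact Ideal.mul_mem_mul (z7_sub x _) (z7_Y x j)
    · have := sub_mem (Ideal.mem_sup_left (T := m ^ 2) (F.f_mem i))
        (Ideal.mem_sup_right (hE _ (hIm (F.f_mem i))))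
      rwa [sub_sub_cancel] at this
  have h1 : ∀ u ∈ m, L u - C (eval x F.δ) * u ∈ I ⊔ m ^ 2 := fun u hu => by
    have t1 : ∑ j, (∑ l, F.t j l * (X l - C (x l)) - C (eval x F.δ) * (X j - C (x j))) *
        pderiv j u ∈ I ⊔ m ^ 2 := sum_mem fun j _ => Ideal.mul_mem_right _ _ (ht j)
    have t2 := sub_mem t1
      (Ideal.mul_mem_left _ (C (eval x F.δ)) (Ideal.mem_sup_right (S := I) (hE u hu)))
    have e : ∑ j, (∑ l, F.t j l * (X l - C (x l)) - C (eval x F.δ) * (X j - C (x j))) *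
        pderiv j u = L u - C (eval x F.δ) * ∑ l, pderiv l u * (X l - C (x l)) := by
      rw [hL, mul_sum, ← sum_sub_distrib]
      exact sum_congr rfl fun _ _ => by ring
    rwa [e, mul_sub, sub_sub, add_sub_cancel] at t2
  have h2 := z7_pow L _ (fun a => by
    rw [hL']
    exact sum_mem fun l _ => Ideal.mul_mem_right _ _ (z7_Y x l)) h1
  have key : ∀ k, ∀ f ∈ J, f ∈ I ⊔ m ^ (k + 1) := by
    intro k
    induction k with
    | zero =>
      intro f hf
      rw [zero_add, pow_one]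
      exact Ideal.mem_sup_right (h0 f hf)
    | succ k ih =>
      intro f hf
      obtain ⟨u, hu, a, ha, e⟩ := Submodule.mem_sup.1 (ih f hf)
      have t1 : L f ∈ I ⊔ m ^ (k + 1 + 1) := by
        rw [hL', add_comm (k + 1) 1]
        exact sum_mem fun l _ => z7_mul (by rw [pow_one]; exact z7_Y x l) (ih _ (hD l f hf))
      have t2 : L u ∈ I ⊔ m ^ (k + 1 + 1) := by
        rw [hL']
        exact Ideal.mem_sup_left
          (sum_mem fun l _ => Ideal.mul_mem_left _ _ (F.t_der hX hx l u hu))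
      have t3 := sub_mem (sub_mem t1 t2) (h2 (k + 1) a ha)
      rw [← e, map_add, add_sub_cancel_left, sub_sub_cancel] at t3
      have hne : ((k + 1 : ℕ) : ℂ) * eval x F.δ ≠ 0 :=
        mul_ne_zero (Nat.cast_ne_zero.2 k.succ_ne_zero) F.δ_ne
      have t4 := Ideal.mul_mem_left _ (C (((k + 1 : ℕ) : ℂ) * eval x F.δ)⁻¹) t3
      rw [← map_natCast (C : ℂ →+* SS M), ← map_mul, ← mul_assoc, ← map_mul, inv_mul_cancel₀ hne,
        map_one, one_mul] at t4
      rw [← e]
      exact add_mem (Ideal.mem_sup_left hu) t4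
  intro f hf
  refine z7_krull hX (RingHom.ker_ne_top _) hIm fun k => ?_
  exact sup_le_sup_left (Ideal.pow_le_pow_right k.le_succ) I (key k f hf)

theorem dense_of_tan (hX : IsManifold I c) {Y : Set (Fin M → ℂ)} (hY : Y ⊆ cone I)
    (hne : Y.Nonempty) (h : ∀ f : SS M, (∀ y ∈ Y, eval y f = 0) →
      ∀ y ∈ Y, ∀ w ∈ tangS I y, dd f y w = 0) {f : SS M} (hf : ∀ y ∈ Y, eval y f = 0) :
    f ∈ I := by
  obtain ⟨x, hx⟩ := hne
  obtain ⟨F⟩ := hX.exists_PF (hY hx)
  have hJ : ∀ g : SS M, g ∈ (⨅ y : Y, RingHom.ker (eval y.1) : Ideal (SS M)) ↔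
      ∀ y ∈ Y, eval y g = 0 := fun g => by
    simp [RingHom.mem_ker]
  refine diff_ideal hX (hY hx) F _ (fun g hg => (hJ g).1 hg x hx) (fun l g hg => ?_) ((hJ f).2 hf)
  refine (hJ _).2 fun y hy => ?_
  have := h g ((hJ g).1 hg) y hy _ (F.t_tan hX (hY hx) (hY hy) l)
  simpa [dd_apply] using this

/-- a set that is open along lines is dense -/
theorem dense_of_lines {n : ℕ} (hX : IsManifold I c) (hM : M = n + 1 + c) (hn : 1 ≤ n)
    {Y : Set (Fin M → ℂ)} (hY : Y ⊆ cone I) (hne : Y.Nonempty) (hS : ∀ y ∈ Y, Spn I y)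
    (h : ∀ y ∈ Y, ∀ v, IsLine I y v → ∀ᶠ t in 𝓝 (0 : ℂ), y + t • v ∈ Y) {f : SS M}
    (hf : ∀ y ∈ Y, eval y f = 0) : f ∈ I := by
  refine dense_of_tan hX hY hne (fun g hg y hy w hw => ?_) hf
  have h1 : Submodule.span ℂ {v | IsLine I y v} ≤ LinearMap.ker (dd g y) :=
    Submodule.span_le.2 fun v hv =>
      dd_zero_of_eventually ((h y hy v hv).mono fun t ht => hg _ ht)
  exact h1 ((hS y hy).lines hX hM hn (hY hy) hw)

end Pool.Agent.HCF
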