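import Pool.Agent.P.MP_f644fa_ag.Z5
import Pool.Agent.P.MP_f644fa_ag.Z6
import Pool.Agent.P.MP_f644fa_ag.Z7

/-! An osculating hyperplane contains the manifold. -/

noncomputable section
namespace Pool.Agent.HCF
open Finset Module MvPolynomial Filter Topology

variable {M : ℕ} {I : Ideal (SS M)} {c s n : ℕ} {g : SS M}

theorem Good.spF (hX : IsManifold I c) (hM : M = n + 1 + c) (hn : 1 ≤ n) (hG : Good I c s g)
    {x : Fin M → ℂ} (hx : x ∈ cone I) (hg : eval x g ≠ 0) (h : Spn I x) : SpF I c s x :=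
  (h.lines hX hM hn hx).trans (Submodule.span_mono fun y hy => ⟨hy, hG x hx hg y hy⟩)

theorem Good.move (hX : IsManifold I c) (hM : M = n + 1 + c) (hn : 1 ≤ n) (hC : Can I c s)
    (hG : Good I c s g) {x v : Fin M → ℂ} (hg : eval x g ≠ 0) (h : Spn I x) (hv : IsLine I x v) :
    ∀ᶠ t in 𝓝 (0 : ℂ), x + t • v ∈ cone I ∧ eval (x + t • v) g ≠ 0 ∧ Spn I (x + t • v) := by
  have h1 : ∀ᶠ t in 𝓝 (0 : ℂ), eval (x + t • v) g ≠ 0 :=
    (hasDerivAt_line g x v 0).continuousAt.eventually_ne (by rwa [zero_smul, add_zero])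
  filter_upwards [h1, (hG.spF hX hM hn hv.mem_left hg h).open hX hC hv] with t h2 h3
  exact ⟨hv.mem_add t, h2, h3⟩

theorem Good.osc_step (hX : IsManifold I c) (hM : M = n + 1 + c) (hC : Can I c s)
    (hG : Good I c s g) (hn : 3 * s + 1 ≤ n) {η x z : Fin M → ℂ} (hg : eval x g ≠ 0)
    (h : Osc I η x) (hl : IsLine I x z) (hg' : eval z g ≠ 0) (hS : Spn I z) : Osc I η z := by
  obtain ⟨f, hf, rfl, h0⟩ := h
  have hx := hl.mem_left
  have h1 : ∀ y', IsLine I x y' → pv x (gr f) ∈ Es I y' := fun y' hy => by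
    have h2 := (hG x hx hg y' hy).tangent hX hC hy hf (fun w hw => h0 _ hy.pl.tang w hw)
      (p := ![0, 1]) (fun h => one_ne_zero (congrFun h 1))
    rwa [pt_last] at h2
  obtain ⟨f', hf', he⟩ := exists_grad hX (h1 z hl)
  refine ⟨f', hf', he, hS.bilin _ ?_⟩
  refine zak hX hC hl.mem_right (hG z hl.mem_right hg') (hess f' z) (hess_symm f' z)
    (fun v hv => hess_pl hf' hv) (fun w hw => hess_self hX hf' hw) (Kl I x z) (Kl_le_right x z)
    (fun u hu w hw => (hG x hx hg z hl).hess_Kl hX hC hl hf' (he ▸ h1) hu hw) ?_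
  have := hl.le_Kl hX hC
  omega

theorem Good.inj (hX : IsManifold I c) (hM : M = n + 1 + c) (hC : Can I c s)
    (hG : Good I c s g) (hn : 3 * s + 1 ≤ n) {η x : Fin M → ℂ} (hx : x ∈ cone I)
    (hg : eval x g ≠ 0) (hS : Spn I x) (h : Osc I η x) :
    ∀ y ∈ cone I, ∑ j, η j * y j = 0 := by
  have h1 : lin η ∈ I := by
    refine dense_of_lines hX hM (by omega)
      (Y := {y | y ∈ cone I ∧ eval y g ≠ 0 ∧ Spn I y ∧ Osc I η y}) (fun y hy => hy.1)
      ⟨x, hx, hg, hS, h⟩ (fun y hy => hy.2.2.1) (fun y hy v hv => ?_) (fun y hy => ?_)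
    · filter_upwards [hG.move hX hM (by omega) hC hy.2.1 hy.2.2.1 hv] with t ht
      refine ⟨ht.1, ht.2.1, ht.2.2, ?_⟩
      by_cases h0 : t = 0
      · rw [h0, zero_smul, add_zero]
        exact hy.2.2.2
      · have h2 := (hv.repar (p := ![1, 0]) (q := ![1, t]) (by simpa using h0)).1
        have h3 : pt y v ![1, t] = y + t • v := by simp [pt]
        rw [pt_first, h3] at h2
        exact hG.osc_step hX hM hC hn hy.2.1 hy.2.2.2 h2 ht.2.1 ht.2.2
    · obtain ⟨f, hf, he, -⟩ := hy.2.2.2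
      rw [eval_lin, ← he]
      exact mem_Es.1 (gr_mem_Es hf y) y (hX.self_mem_tang hy.1)
  intro y hy
  rw [← eval_lin]
  exact hy.2 _ h1

theorem Good.dense (hX : IsManifold I c) (hM : M = n + 1 + c) (hn : 1 ≤ n) (hC : Can I c s)
    (hG : Good I c s g) {x : Fin M → ℂ} (hx : x ∈ cone I) (hg : eval x g ≠ 0) (hS : Spn I x)
    {f : SS M} (hf : ∀ y ∈ cone I, (∃ v, IsLine I y v) → eval y f = 0) : f ∈ I := by
  refine dense_of_lines hX hM hn (Y := {y | y ∈ cone I ∧ eval y g ≠ 0 ∧ Spn I y})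
    (fun y hy => hy.1) ⟨x, hx, hg, hS⟩ (fun y hy => hy.2.2)
    (fun y hy v hv => hG.move hX hM hn hC hy.2.1 hy.2.2 hv) fun y hy =>
      hf y hy.1 (hy.2.2.exists_line hX hM hn hy.1)

end Pool.Agent.HCF
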