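import Pool.Agent.P.MP_f644fa_ag.ZG0a

/-! Generic smoothness. -/

noncomputable section
namespace Pool.Agent.HCF
open Finset Module MvPolynomial Filter Topology

variable {τ τ' : Type} [Fintype τ] [Fintype τ']

/-- chain rule for a derivation of the target -/
theorem zg0_chain {σ K : Type} [Fintype σ] [CommRing K] [Algebra ℂ K]
    (π : MvPolynomial σ ℂ →ₐ[ℂ] K) (D : Derivation ℂ K K) (F : MvPolynomial σ ℂ) :
    D (π F) = ∑ v, π (pderiv v F) * D (π (X v)) := by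
  classical
  induction F using MvPolynomial.induction_on with
  | C a => simp
  | add p q hp hq => simp only [map_add, hp, hq, add_mul, sum_add_distrib]
  | mul_X p k hp =>
    have e : ∀ v, π (pderiv v (p * X k)) * D (π (X v)) =
        (if v = k then π p * D (π (X k)) else 0) + π (X k) * (π (pderiv v p) * D (π (X v))) := by
      intro v
      rw [Derivation.leibniz, smul_eq_mul, smul_eq_mul, map_add, map_mul, map_mul, pderiv_X]
      by_cases h : v = k
      · subst h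
        rw [if_pos rfl, Pi.single_eq_same, map_one]
        ring
      · rw [if_neg h, Pi.single_eq_of_ne (Ne.symm h), map_zero]
        ring
    simp only [e]
    rw [sum_add_distrib, ← mul_sum, ← hp, sum_ite_eq', if_pos (mem_univ _), map_mul,
      Derivation.leibniz, smul_eq_mul, smul_eq_mul]

/-- extension of a derivation that preserves the kernel -/
theorem zg0_ext {R K : Type} [CommRing R] [Algebra ℂ R] [Field K] [Algebra ℂ K]
    [Algebra.EssFiniteType ℂ K] (φ : R →ₐ[ℂ] K) (d : Derivation ℂ R R)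
    (hd : ∀ x, φ x = 0 → φ (d x) = 0) : ∃ D : Derivation ℂ K K, ∀ x, D (φ x) = φ (d x) := by
  have hp : (RingHom.ker φ).IsPrime := RingHom.ker_isPrime φ
  let ψ : (R ⧸ RingHom.ker φ) →ₐ[ℂ] K := Ideal.kerLiftAlg φ
  let _ : Algebra (R ⧸ RingHom.ker φ) K := ψ.toRingHom.toAlgebra
  have : IsScalarTower ℂ (R ⧸ RingHom.ker φ) K :=
    IsScalarTower.of_algebraMap_eq fun a => (ψ.commutes a).symm
  have : Algebra.EssFiniteType (R ⧸ RingHom.ker φ) K := Algebra.EssFiniteType.of_comp ℂ _ K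
  have hs : Function.Surjective (Ideal.Quotient.mkₐ ℂ (RingHom.ker φ)) :=
    Ideal.Quotient.mkₐ_surjective ℂ _
  have hd' : ∀ x, Ideal.Quotient.mkₐ ℂ (RingHom.ker φ) x = 0 →
      Ideal.Quotient.mkₐ ℂ (RingHom.ker φ) (d x) = 0 := fun x hx =>
    Ideal.Quotient.eq_zero_iff_mem.mpr (hd x (Ideal.Quotient.eq_zero_iff_mem.mp hx))
  obtain ⟨D, hD⟩ := der_ext (A := R ⧸ RingHom.ker φ) (K := K) (Ideal.kerLiftAlg_injective φ)
    ((Algebra.linearMap (R ⧸ RingHom.ker φ) K).compDer (Derivation.liftOfSurjective hs hd'))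
  refine ⟨D, fun x => ?_⟩
  have h1 := hD (Ideal.Quotient.mkₐ ℂ (RingHom.ker φ) x)
  have h2 : (Algebra.linearMap (R ⧸ RingHom.ker φ) K).compDer (Derivation.liftOfSurjective hs hd')
      (Ideal.Quotient.mkₐ ℂ (RingHom.ker φ) x) = algebraMap (R ⧸ RingHom.ker φ) K
        (Derivation.liftOfSurjective hs hd' (Ideal.Quotient.mkₐ ℂ (RingHom.ker φ) x)) := rfl
  rw [h2, Derivation.liftOfSurjective_apply] at h1
  exact h1

/-- a field tangent to the base lifts to a dominant subvariety -/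
theorem lift_field (P : Ideal (MvPolynomial (τ ⊕ τ') ℂ)) (hP : P.IsPrime)
    (w : τ → MvPolynomial τ ℂ)
    (hw : ∀ h : MvPolynomial τ ℂ, rename Sum.inl h ∈ P →
      rename Sum.inl (∑ j, w j * pderiv j h) ∈ P) :
    ∃ (e : MvPolynomial (τ ⊕ τ') ℂ) (w' : τ' → MvPolynomial (τ ⊕ τ') ℂ), e ∉ P ∧ ∀ F ∈ P,
      ∑ j, e * rename Sum.inl (w j) * pderiv (Sum.inl j) F +
        ∑ j, w' j * pderiv (Sum.inr j) F ∈ P := by
  classical
  let B := MvPolynomial (τ ⊕ τ') ℂ ⧸ P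
  let K := FractionRing B
  let π : MvPolynomial (τ ⊕ τ') ℂ →ₐ[ℂ] K :=
    (IsScalarTower.toAlgHom ℂ B K).comp (Ideal.Quotient.mkₐ ℂ P)
  have hπ0 : ∀ F, π F = algebraMap B K (Ideal.Quotient.mk P F) := fun F => rfl
  have hπ : ∀ F, π F = 0 ↔ F ∈ P := fun F => by
    rw [hπ0, map_eq_zero_iff _ (IsFractionRing.injective B K)]
    exact Ideal.Quotient.eq_zero_iff_mem
  have : Algebra.EssFiniteType B K := Algebra.EssFiniteType.of_isLocalization K (nonZeroDivisors B)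
  have : Algebra.EssFiniteType ℂ K := Algebra.EssFiniteType.comp ℂ B K
  let d : Derivation ℂ (MvPolynomial τ ℂ) (MvPolynomial τ ℂ) := ∑ j, w j • pderiv j
  have hd : ∀ h, d h = ∑ j, w j * pderiv j h := fun h => by
    have h1 := map_sum (Derivation.coeFnAddMonoidHom (R := ℂ) (A := MvPolynomial τ ℂ)
      (M := MvPolynomial τ ℂ)) (fun j => w j • pderiv j) univ
    have h2 := congrFun h1 h
    rw [Finset.sum_apply] at h2
    exact h2
  obtain ⟨D, hD⟩ := zg0_ext (π.comp (rename Sum.inl)) d fun x hx => by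
    rw [hd]
    exact (hπ _).mpr (hw x ((hπ _).mp hx))
  have hX : ∀ j, D (π (X (Sum.inl j))) = π (rename Sum.inl (w j)) := fun j => by
    have h1 := hD (X j)
    have h2 : d (X j) = w j := by
      rw [hd]
      simp [pderiv_X, Pi.single_apply]
    rw [h2, AlgHom.comp_apply, AlgHom.comp_apply, rename_X] at h1
    exact h1
  obtain ⟨b, hb⟩ := IsLocalization.exist_integer_multiples_of_finite (nonZeroDivisors B)
    fun j : τ' => D (π (X (Sum.inr j)))
  obtain ⟨e, he⟩ := Ideal.Quotient.mk_surjective (I := P) (b : B)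
  have hw' : ∀ j : τ', ∃ u, π u = π e * D (π (X (Sum.inr j))) := fun j => by
    obtain ⟨a, ha⟩ := hb j
    obtain ⟨u, hu⟩ := Ideal.Quotient.mk_surjective (I := P) a
    refine ⟨u, ?_⟩
    rw [hπ0, hπ0 e, hu, he, ha, Algebra.smul_def]
  choose w' hw' using hw'
  refine ⟨e, w', fun h => ?_, fun F hF => ?_⟩
  · exact nonZeroDivisors.coe_ne_zero b (he.symm.trans (Ideal.Quotient.eq_zero_iff_mem.mpr h))
  · have h1 := zg0_chain π D F
    rw [(hπ F).mpr hF, map_zero, Fintype.sum_sum_type] at h1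
    rw [← hπ, map_add, map_sum, map_sum, ← mul_zero (π e), h1, mul_add, mul_sum, mul_sum]
    congr 1
    · refine sum_congr rfl fun j _ => ?_
      rw [map_mul, map_mul, hX]
      ring
    · refine sum_congr rfl fun j _ => ?_
      rw [map_mul, hw']
      ring

/-- the ideal of a set -/
def zg0_J {σ : Type} (Z : Set (σ → ℂ)) : Ideal (MvPolynomial σ ℂ) where
  carrier := {F | ∀ z ∈ Z, eval z F = 0}
  add_mem' ha hb z hz := by rw [map_add, ha z hz, hb z hz, add_zero]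
  zero_mem' z _ := map_zero _
  smul_mem' a _ hb z hz := by rw [smul_eq_mul, map_mul, hb z hz, mul_zero]

theorem zg0_rad {σ : Type} (Z : Set (σ → ℂ)) : (zg0_J Z).radical = zg0_J Z := by
  refine le_antisymm ?_ Ideal.le_radical
  rintro F ⟨k, hk⟩ z hz
  have h := hk z hz
  rw [map_pow] at h
  exact eq_zero_of_pow_eq_zero h

/-- a dominant component -/
theorem exists_comp (Z : Set (τ ⊕ τ' → ℂ)) (P₀ : Ideal (MvPolynomial τ ℂ)) (h0 : P₀.IsPrime)
    (h : ∀ g : MvPolynomial τ ℂ, (∀ z ∈ Z, eval (z ∘ Sum.inl) g = 0) ↔ g ∈ P₀) :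
    ∃ (P : Ideal (MvPolynomial (τ ⊕ τ') ℂ)) (q : MvPolynomial (τ ⊕ τ') ℂ), P.IsPrime ∧ q ∉ P ∧
      (∀ F, (∀ z ∈ Z, eval z F = 0) → F ∈ P) ∧ (∀ F ∈ P, ∀ z ∈ Z, eval z q * eval z F = 0) ∧
      ∀ g : MvPolynomial τ ℂ, rename Sum.inl g ∈ P ↔ g ∈ P₀ := by
  classical
  have hf := Ideal.finite_minimalPrimes_of_isNoetherianRing _ (zg0_J Z)
  have hJ : ∀ F, (∀ Q ∈ (zg0_J Z).minimalPrimes, F ∈ Q) → ∀ z ∈ Z, eval z F = 0 := fun F hF => by
    have h1 : F ∈ sInf (zg0_J Z).minimalPrimes := Ideal.mem_sInf.mpr fun {Q} hQ => hF Q hQ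
    rw [Ideal.sInf_minimalPrimes, zg0_rad] at h1
    exact h1
  have h1 : (hf.toFinset.inf fun Q => Q.comap
      (rename Sum.inl : MvPolynomial τ ℂ →ₐ[ℂ] MvPolynomial (τ ⊕ τ') ℂ)) ≤ P₀ := by
    intro g hg
    refine (h g).mp fun z hz => ?_
    rw [← eval_rename]
    exact hJ _ (fun Q hQ => Submodule.mem_finsetInf.mp hg Q (hf.mem_toFinset.mpr hQ)) z hz
  obtain ⟨P, hP, hle⟩ := h0.inf_le'.mp h1
  have hP' : P ∈ (zg0_J Z).minimalPrimes := hf.mem_toFinset.mp hP
  have hPp : P.IsPrime := hP'.1.1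
  have h2 : ¬ (hf.toFinset.erase P).inf id ≤ P := by
    intro h2
    obtain ⟨Q, hQ, hQP⟩ := hPp.inf_le'.mp h2
    have hQ' : Q ∈ (zg0_J Z).minimalPrimes := hf.mem_toFinset.mp (mem_of_mem_erase hQ)
    exact ne_of_mem_erase hQ (le_antisymm hQP (hP'.2 hQ'.1 hQP))
  obtain ⟨q, hq, hqP⟩ := SetLike.not_le_iff_exists.mp h2
  refine ⟨P, q, hPp, hqP, fun F hF => hP'.1.2 hF, fun F hF z hz => ?_,
    fun g => ⟨fun hg => hle hg, fun hg => hP'.1.2 fun z hz => ?_⟩⟩
  · rw [← map_mul]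
    refine hJ _ (fun Q hQ => ?_) z hz
    by_cases hQP : Q = P
    · exact hQP ▸ Ideal.mul_mem_left _ _ hF
    · exact Ideal.mul_mem_right _ _ (Submodule.mem_finsetInf.mp hq Q
        (mem_erase.mpr ⟨hQP, hf.mem_toFinset.mpr hQ⟩))
  · rw [eval_rename]
    exact (h g).mpr hg z hz

end Pool.Agent.HCF
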