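import Pool.Agent.P.MP_f644fa_ag.Z0

/-! Extension of derivations. -/

noncomputable section
namespace Pool.Agent.HCF
open Finset Module MvPolynomial Filter Topology

theorem zg0a_lift {A K B : Type} [CommRing A] [CommRing K] [CommRing B] [Algebra A K]
    [Algebra.FormallySmooth A K] (φ : A →+* B) (π : B →+* K) (hπ : Function.Surjective π)
    (hn : IsNilpotent (RingHom.ker π)) (h : ∀ a, π (φ a) = algebraMap A K a) :
    ∃ s : K →+* B, (∀ x, π (s x) = x) ∧ ∀ a, s (algebraMap A K a) = φ a := by
  let : Algebra A B := φ.toAlgebra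
  let g : B →ₐ[A] K := { π with commutes' := h }
  refine ⟨(Algebra.FormallySmooth.liftOfSurjective (AlgHom.id A K) g hπ hn).toRingHom,
    fun x => ?_, fun a => ?_⟩
  · exact Algebra.FormallySmooth.liftOfSurjective_apply (AlgHom.id A K) g hπ hn x
  · exact (Algebra.FormallySmooth.liftOfSurjective (AlgHom.id A K) g hπ hn).commutes a

theorem zg0a_smooth {A K : Type} [CommRing A] [IsDomain A] [Algebra ℂ A] [Field K]
    [Algebra A K] [Algebra.EssFiniteType A K]
    (hi : Function.Injective (algebraMap A K)) : Algebra.FormallySmooth A K := by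
  have : FaithfulSMul A K := (faithfulSMul_iff_algebraMap_injective A K).2 hi
  let : Algebra (FractionRing A) K := FractionRing.liftAlgebra A K
  have : IsScalarTower A (FractionRing A) K := FractionRing.isScalarTower_liftAlgebra A K
  have : CharZero A := charZero_of_injective_algebraMap (algebraMap ℂ A).injective
  have : CharZero (FractionRing A) := inferInstance
  have h1 : Algebra.FormallySmooth A (FractionRing A) :=
    Algebra.FormallySmooth.of_isLocalization (nonZeroDivisors A)
  have : Algebra.EssFiniteType (FractionRing A) K :=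
    Algebra.EssFiniteType.of_comp A (FractionRing A) K
  have h2 : Algebra.FormallySmooth (FractionRing A) K :=
    Algebra.FormallySmooth.of_perfectField
  exact Algebra.FormallySmooth.comp A (FractionRing A) K

/-- derivations extend to finitely generated field extensions in characteristic zero -/
theorem der_ext {A K : Type} [CommRing A] [IsDomain A] [Algebra ℂ A] [Field K] [Algebra ℂ K]
    [Algebra A K] [IsScalarTower ℂ A K] [Algebra.EssFiniteType A K]
    (hi : Function.Injective (algebraMap A K)) (D : Derivation ℂ A K) :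
    ∃ D' : Derivation ℂ K K, ∀ a, D' (algebraMap A K a) = D a := by
  have := zg0a_smooth hi
  let φ : A →+* TrivSqZeroExt K K :=
    { toFun := fun a => TrivSqZeroExt.inl (algebraMap A K a) + TrivSqZeroExt.inr (D a)
      map_one' := by ext <;> simp
      map_mul' := fun a b => by
        ext
        · simp
        · simp only [TrivSqZeroExt.snd_add, TrivSqZeroExt.snd_inl, TrivSqZeroExt.snd_inr,
            TrivSqZeroExt.snd_mul, TrivSqZeroExt.fst_add, TrivSqZeroExt.fst_inl,
            TrivSqZeroExt.fst_inr, zero_add, add_zero, Derivation.leibniz, op_smul_eq_smul,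
            algebraMap_smul]
      map_zero' := by ext <;> simp
      map_add' := fun a b => by ext <;> simp }
  let π : TrivSqZeroExt K K →+* K := (TrivSqZeroExt.fstHom K K K).toRingHom
  have hπ : ∀ z, π z = z.fst := fun z => rfl
  have hsq : RingHom.ker π ^ 2 = ⊥ := by
    rw [pow_two, eq_bot_iff, Ideal.mul_le]
    intro a ha b hb
    rw [RingHom.mem_ker, hπ] at ha hb
    rw [Ideal.mem_bot]
    ext <;> simp [ha, hb]
  obtain ⟨s, hs1, hs2⟩ := zg0a_lift φ π (fun x => ⟨TrivSqZeroExt.inl x, by simp [hπ]⟩)
    ⟨2, hsq⟩ (fun a => by simp [hπ, φ])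
  have hf : ∀ x, (s x).fst = x := hs1
  have hsnd : ∀ a, (s (algebraMap A K a)).snd = D a := fun a => by
    rw [hs2]; simp [φ]
  have hmul : ∀ x y, (s (x * y)).snd = x * (s y).snd + y * (s x).snd := fun x y => by
    rw [map_mul, TrivSqZeroExt.snd_mul, hf, hf]
    simp [mul_comm]
  have hc : ∀ c : ℂ, (s (algebraMap ℂ K c)).snd = 0 := fun c => by
    rw [IsScalarTower.algebraMap_apply ℂ A K, hsnd, D.map_algebraMap]
  let L : K →ₗ[ℂ] K :=
    { toFun := fun x => (s x).snd
      map_add' := fun x y => by simp
      map_smul' := fun c x => by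
        simp only [Algebra.smul_def, hmul, hc, RingHom.id_apply, mul_zero, add_zero] }
  exact ⟨Derivation.mk' L (fun x y => hmul x y), hsnd⟩

end Pool.Agent.HCF
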