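import Pool.Agent.P.MP_f644fa_ag.ZG0
import Pool.Agent.P.MP_f644fa_ag.Z11
import Pool.Agent.P.MP_f644fa_ag.Z3

/-! Lines through a general point are free. -/

noncomputable section
namespace Pool.Agent.HCF
open Finset Module MvPolynomial Filter Topology

variable {M : ℕ} {I : Ideal (SS M)} {c s n : ℕ}

/-- generic smoothness of a dominant projection -/
theorem gen_subm (hX : IsManifold I c) {τ' : Type} [Fintype τ'] (Z : Set (Fin M ⊕ τ' → ℂ))
    (hZ : ∀ z ∈ Z, z ∘ Sum.inl ∈ cone I)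
    (h : ∀ g : SS M, (∀ z ∈ Z, eval (z ∘ Sum.inl) g = 0) → g ∈ I) :
    ∃ z ∈ Z, ∀ u ∈ tangS I (z ∘ Sum.inl), ∃ u' : τ' → ℂ, ∀ F : MvPolynomial (Fin M ⊕ τ') ℂ,
      (∀ z' ∈ Z, eval z' F = 0) → dd F z (Sum.elim u u') = 0 := by
  classical
  obtain ⟨P, q, hP, hq, h1, h2, h3⟩ := exists_comp Z I hX.prime
    fun g => ⟨h g, fun hg z hz => (hZ z hz).2 g hg⟩
  obtain ⟨x0, hx0⟩ := hX.nonempty
  obtain ⟨T⟩ := hX.exists_PF hx0
  have h4 := fun l : Fin M => lift_field P hP (fun j => T.t j l)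
    fun g hg => (h3 _).2 (T.t_der hX hx0 l g ((h3 g).1 hg))
  choose e w' he hw using h4
  have hδ : rename Sum.inl T.δ ∉ P := fun h5 => T.δ_ne (hx0.2 _ ((h3 _).1 h5))
  have hG : q * (∏ l, e l) * rename Sum.inl T.δ ∉ P := by
    intro h5
    rcases hP.mem_or_mem h5 with h6 | h6
    · rcases hP.mem_or_mem h6 with h7 | h7
      · exact hq h7
      · obtain ⟨l, -, hl⟩ := (Ideal.IsPrime.prod_mem_iff (hp := hP)).1 h7
        exact he l hl
    · exact hδ h6
  obtain ⟨z, hz, hz0⟩ : ∃ z ∈ Z, eval z (q * (∏ l, e l) * rename Sum.inl T.δ) ≠ 0 := by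
    by_contra h5
    push Not at h5
    exact hG (h1 _ h5)
  rw [map_mul, map_mul, map_prod, eval_rename] at hz0
  have q0 : eval z q ≠ 0 := left_ne_zero_of_mul (left_ne_zero_of_mul hz0)
  have e0 : ∀ l, eval z (e l) ≠ 0 := fun l =>
    prod_ne_zero_iff.1 (right_ne_zero_of_mul (left_ne_zero_of_mul hz0)) l (mem_univ l)
  have d0 : eval (z ∘ Sum.inl) T.δ ≠ 0 := right_ne_zero_of_mul hz0
  refine ⟨z, hz, fun u hu => ⟨fun j => ∑ l, u l / (eval (z ∘ Sum.inl) T.δ * eval z (e l)) *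
    eval z (w' l j), fun F hF => ?_⟩⟩
  have h6 : ∀ l, ∑ j, eval z (w' l j) * eval z (pderiv (Sum.inr j) F) =
      -(eval z (e l) * ∑ j, eval (z ∘ Sum.inl) (T.t j l) * eval z (pderiv (Sum.inl j) F)) := by
    intro l
    have h7 := (mul_eq_zero.1 (h2 _ (hw l F (h1 F hF)) z hz)).resolve_left q0
    simp only [map_add, map_sum, map_mul, eval_rename] at h7
    rw [mul_sum]
    simp only [← mul_assoc]
    linear_combination h7
  rw [dd_apply, Fintype.sum_sum_type]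
  simp only [Sum.elim_inl, Sum.elim_inr, sum_mul]
  rw [sum_comm]
  have h8 : ∀ l, ∑ j, u l / (eval (z ∘ Sum.inl) T.δ * eval z (e l)) * eval z (w' l j) *
      eval z (pderiv (Sum.inr j) F) = -∑ j, (eval (z ∘ Sum.inl) T.δ)⁻¹ *
        (eval (z ∘ Sum.inl) (T.t j l) * u l) * eval z (pderiv (Sum.inl j) F) := by
    intro l
    simp only [mul_assoc]
    rw [← mul_sum, h6 l, mul_neg, ← mul_assoc, mul_sum]
    congr 1
    refine sum_congr rfl fun j _ => ?_
    have := e0 l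
    field_simp
  simp only [h8]
  rw [sum_neg_distrib, sum_comm, ← sub_eq_add_neg, ← sum_sub_distrib]
  refine sum_eq_zero fun j _ => ?_
  rw [← sum_mul, ← mul_sum, T.t_fix hu j, inv_mul_cancel_left₀ d0, sub_self]

theorem exists_good (hX : IsManifold I c) (hC : Can I c s) : ∃ g, g ∉ I ∧ Good I c s g := by
  by_contra hn
  push Not at hn
  obtain ⟨z, hz, h⟩ := gen_subm hX
    {z : Fin M ⊕ Fin M → ℂ | IsLine I (z ∘ Sum.inl) (z ∘ Sum.inr) ∧
      ¬Free I c s (z ∘ Sum.inl) (z ∘ Sum.inr)} (fun z hz => hz.1.mem_left) (by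
    intro g hg
    by_contra hgI
    refine hn g hgI fun x _ hx y hl => ?_
    by_contra hf
    exact hx (hg (Sum.elim x y) ⟨hl, hf⟩))
  refine hz.2 (Pos.free hX hC hz.1 (pos_of_surj hX hz.1 fun u hu => ?_))
  obtain ⟨u', hu'⟩ := h u hu
  refine ⟨u', fun p _ => mem_tangS.2 fun f hf => ?_⟩
  obtain ⟨g, hg1, hg2⟩ := exists_subst2 p f
  rw [← hg2, Sum.elim_comp_inl_inr]
  refine hu' g fun z' hz' => ?_
  rw [← Sum.elim_comp_inl_inr z', hg1]
  exact hz'.1.pl _ _ f hf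

end Pool.Agent.HCF
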