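import Pool.Agent.P.MP_f644fa_ag.ZG1
import Pool.Agent.P.MP_f644fa_ag.Z5a

/-! In small codimension the lines through a general point span the tangent space. -/

noncomputable section
namespace Pool.Agent.HCF
open Finset Module MvPolynomial Filter Topology

variable {M : ℕ} {I : Ideal (SS M)} {c s n : ℕ} {g : SS M}

theorem zg2_pl {x y : Fin M → ℂ} {t : ℂ} (ht : t ≠ 0) (h : Pl I x (t • y)) : Pl I x y := by
  have h1 := h.comb 1 0 0 t⁻¹
  rwa [one_smul, zero_smul, add_zero, zero_smul, zero_add, inv_smul_smul₀ ht] at h1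

theorem cx_meet (hX : IsManifold I c) (hC : Can I c s) (hM : 2 * (s + c) < M)
    (hL : ∀ x ∈ cone I, ∃ y, IsLine I x y) {x z : Fin M → ℂ} (hx : x ∈ cone I) (hz : z ∈ cone I)
    (h : ¬Pl I x z) : ∃ y, IsLine I x y ∧ IsLine I z y := by
  obtain ⟨ν, hν, hne⟩ := hC
  obtain ⟨y0, h0⟩ := hL x hx
  obtain ⟨y1, h1⟩ := hL z hz
  obtain ⟨y, hy0, hy1⟩ := ccone_Cx.meet ccone_Cx (h0.locCut hX hν hne) (h1.locCut hX hν hne)
    (by rw [Fintype.card_fin]; omega)
  refine ⟨y, (Cx_line hx.1 hy0).resolve_right ?_, (Cx_line hz.1 hy1).resolve_right ?_⟩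
  · rintro ⟨t, ht, rfl⟩
    exact h (zg2_pl ht hy1.2).symm
  · rintro ⟨t, ht, rfl⟩
    exact h (zg2_pl ht hy0.2)

theorem zg2_dd_lin (ξ x w : Fin M → ℂ) : dd (lin ξ) x w = ∑ j, ξ j * w j := by
  rw [lin, dd_sum]
  exact sum_congr rfl fun j _ => by rw [dd_mul, dd_C, dd_X, eval_C, mul_zero, add_zero]

theorem zg2_form {x : Fin M → ℂ} (hS : ¬Spn I x) :
    ∃ g₁ : SS M, g₁ ∉ I ∧ ∀ z, Pl I x z → eval z g₁ = 0 := by
  obtain ⟨w, hw, hn⟩ := SetLike.not_le_iff_exists.1 hS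
  rw [← perp_perp (Submodule.span ℂ {y | Pl I x y})] at hn
  have h1 : ∃ ξ ∈ perp (Submodule.span ℂ {y | Pl I x y}), ∑ j, w j * ξ j ≠ 0 := by
    by_contra h2
    exact hn fun ξ hξ => not_not.1 fun h3 => h2 ⟨ξ, hξ, h3⟩
  obtain ⟨ξ, hξ, h2⟩ := h1
  refine ⟨lin ξ, fun hI => h2 ?_, fun z hz => ?_⟩
  · rw [← mem_tangS.1 hw _ hI, zg2_dd_lin]
    exact sum_congr rfl fun j _ => mul_comm _ _
  · rw [eval_lin]
    exact mem_perp_span.1 hξ z hz

theorem Good.two_lines (hX : IsManifold I c) (hC : Can I c s) (hG : Good I c s g) (hg : g ∉ I)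
    (hM : 2 * (s + c) < M) (hL : ∀ x ∈ cone I, ∃ y, IsLine I x y) {x : Fin M → ℂ}
    (hx : x ∈ cone I) (hS : ¬Spn I x) : ∃ y z, IsLine I x y ∧ IsLine I z y ∧ eval z g ≠ 0 ∧
      tangS I y ≤ Kl I x y ⊔ Kl I z y := by
  obtain ⟨g₁, hg₁, hv⟩ := zg2_form hS
  obtain ⟨_, ⟨z, y, hgz, hxy, hzy, rfl⟩, hlift⟩ := gen_subm hX (τ' := Fin M)
    {a | ∃ z y, eval z g ≠ 0 ∧ IsLine I x y ∧ IsLine I z y ∧ a = Sum.elim z y}
    (by
      rintro _ ⟨z, y, -, -, hzy, rfl⟩
      rw [Sum.elim_comp_inl]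
      exact hzy.mem_left)
    (fun g' hg' => by
      have h1 : g' * g * g₁ ∈ I := basic0_mem hX fun z => by
        rw [map_mul, map_mul]
        by_cases h2 : eval z.1 g = 0
        · rw [h2, mul_zero, zero_mul]
        by_cases h3 : Pl I x z.1
        · rw [hv _ h3, mul_zero]
        obtain ⟨y, h4, h5⟩ := cx_meet hX hC hM hL hx z.2 h3
        have h6 := hg' (Sum.elim z.1 y) ⟨z.1, y, h2, h4, h5, rfl⟩
        rw [Sum.elim_comp_inl] at h6
        rw [h6, zero_mul, zero_mul]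
      exact (hX.prime.mem_or_mem ((hX.prime.mem_or_mem h1).resolve_right hg₁)).resolve_right hg)
  refine ⟨y, z, hxy, hzy, hgz, SetLike.le_def.2 ?_⟩
  intro w hw
  have hf : Free I c s y z := by
    have h1 := hG z hzy.mem_left hgz y hzy
    rwa [Free, ← hzy.symm.2] at h1
  obtain ⟨u, hu⟩ := hf.surj hX hC hzy.symm.1 w hw
  rw [Sum.elim_comp_inl] at hlift
  obtain ⟨u', hu'⟩ := hlift u hu.right
  have h1 : Df I z y u u' := fun p _ => mem_tangS.2 fun f hf => by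
    obtain ⟨G, e1, e2⟩ := exists_subst2 p f
    rw [← e2 z y u u']
    apply hu' G
    rintro _ ⟨z', y', -, -, h5, rfl⟩
    rw [e1]
    exact h5.2 _ _ f hf
  have h2 : Df I x y 0 u' := fun p _ => mem_tangS.2 fun f hf => by
    obtain ⟨G, e1⟩ := exists_subst x p f
    have e2 : ∀ a : Fin M ⊕ Fin M → ℂ,
        eval a (rename Sum.inr G) = eval (pt x (a ∘ Sum.inr) p) f := fun a => by
      rw [eval_rename, e1]
    have e3 : dd (rename Sum.inr G) (Sum.elim z y) (Sum.elim u u') =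
        dd f (pt x y p) (p 0 • (0 : Fin M → ℂ) + p 1 • u') := dd_of_eval fun t => by
      have e4 : pt x ((Sum.elim z y + t • Sum.elim u u') ∘ Sum.inr) p =
          pt x y p + t • (p 0 • (0 : Fin M → ℂ) + p 1 • u') := by
        funext j
        simp only [pt, Pi.add_apply, Pi.smul_apply, smul_eq_mul, Function.comp_apply,
          Sum.elim_inr, Pi.zero_apply]
        ring
      rw [e2, e4]
    rw [← e3]
    apply hu' (rename Sum.inr G)
    rintro _ ⟨z', y', -, h5, -, rfl⟩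
    rw [e2]
    exact h5.2 _ _ f hf
  have h3 := hu.symm.sub h1
  rw [sub_self] at h3
  rw [← add_sub_cancel u' w]
  exact Submodule.add_mem_sup (h2.kl hX) (h3.kl hX)

theorem zg2_poly (x y : Fin M → ℂ) (g : SS M) :
    ∃ P : Polynomial ℂ, ∀ t, P.eval t = eval (x + t • y) g := by
  induction g using MvPolynomial.induction_on with
  | C a => exact ⟨Polynomial.C a, fun t => by rw [Polynomial.eval_C, eval_C]⟩
  | add p q hp hq =>
    obtain ⟨a, ha⟩ := hp
    obtain ⟨b, hb⟩ := hq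
    exact ⟨a + b, fun t => by rw [Polynomial.eval_add, map_add, ha, hb]⟩
  | mul_X p j hp =>
    obtain ⟨a, ha⟩ := hp
    refine ⟨a * (Polynomial.C (x j) + Polynomial.X * Polynomial.C (y j)), fun t => ?_⟩
    simp only [Polynomial.eval_mul, Polynomial.eval_add, Polynomial.eval_C, Polynomial.eval_X, ha,
      map_mul, eval_X, Pi.add_apply, Pi.smul_apply, smul_eq_mul]

theorem Good.exists_sp (hX : IsManifold I c) (hC : Can I c s) (hG : Good I c s g) (hg : g ∉ I)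
    (hM : 2 * (s + c) < M) (hL : ∀ x ∈ cone I, ∃ y, IsLine I x y) :
    ∃ x ∈ cone I, eval x g ≠ 0 ∧ Spn I x := by
  obtain ⟨⟨x, hx⟩, hgx⟩ := not_forall.1 fun h => hg (basic0_mem hX h)
  by_cases hS : Spn I x
  · exact ⟨x, hx, hgx, hS⟩
  obtain ⟨y, z, hxy, hzy, hgz, hle⟩ := hG.two_lines hX hC hg hM hL hx hS
  have key : ∀ a, IsLine I a y → eval a g ≠ 0 →
      Kl I a y ≤ Submodule.span ℂ {y' | IsLine I y y' ∧ Free I c s y y'} := fun a ha hga => by
    have h1 := hG a ha.mem_left hga y ha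
    rw [Free, ← ha.symm.2] at h1
    rw [← ha.symm.2]
    exact Free.kl_le hX hC ha.symm.1 h1
  have hF : SpF I c s y := hle.trans (sup_le (key x hxy hgx) (key z hzy hgz))
  have hev := hF.open hX hC hxy.symm.1
  obtain ⟨P, hP⟩ := zg2_poly x y g
  have hP0 : P ≠ 0 := fun h => hgx (by
    have h1 := hP 0
    rw [h, zero_smul, add_zero, Polynomial.eval_zero] at h1
    exact h1.symm)
  have hfin : (insert 0 ((fun t : ℂ => t⁻¹) ⁻¹' {t | P.IsRoot t})).Finite :=
    ((Polynomial.finite_setOfPred_isRoot hP0).preimage inv_injective.injOn).insert 0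
  obtain ⟨t, ht, hn⟩ := (infinite_of_mem_nhds _ hev).exists_notMem_finite hfin
  rw [Set.mem_insert_iff, not_or] at hn
  have e : t⁻¹ • (y + t • x) = x + t⁻¹ • y := by
    rw [smul_add, inv_smul_smul₀ hn.1, add_comm]
  have h1 : eval (x + t⁻¹ • y) g ≠ 0 := fun h => hn.2 (by
    rw [Set.mem_preimage, Set.mem_ofPred_eq, Polynomial.IsRoot.def, hP t⁻¹, h])
  have h2 : Spn I (x + t⁻¹ • y) := by
    rw [← e]
    exact Spn.smul hX ht (inv_ne_zero hn.1)
  exact ⟨x + t⁻¹ • y, hxy.mem_add t⁻¹, h1, h2⟩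

end Pool.Agent.HCF
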