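import Pool.Agent.P.MP_f644fa_ag.ZG2
import Pool.Agent.P.MP_f644fa_ag.Z9
import Pool.Agent.P.MP_f644fa_ag.ZC

/-! The assembly. -/

noncomputable section
namespace Pool.Agent.HCF
open Finset Module MvPolynomial Filter Topology

variable {M : ℕ} {I : Ideal (SS M)} {c n : ℕ}

theorem codim_bound (hX : IsManifold I c) (hM : M = n + 1 + c) {b : ℤ} (hb : CanonicalIs I c b)
    (hnd : ∀ η : Fin M → ℂ, (∀ y ∈ cone I, ∑ j, η j * y j = 0) → η = 0)
    (hL : ∀ x ∈ cone I, ∃ y, IsLine I x y) (hn : 1 ≤ n) (h1 : 4 * (b + n + 1) + 1 ≤ n)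
    (h2 : 2 * (b + n + 1) + c ≤ n) : c ≤ b + n + 1 := by
  obtain ⟨s, hs, hC⟩ := exists_can hX hM hn hb
  rw [hs] at h1 h2 ⊢
  obtain ⟨g, hg, hG⟩ := exists_good hX hC
  obtain ⟨x, hx, hx1, hx2⟩ := hG.exists_sp hX hC hg (by omega) hL
  exact_mod_cast hG.codim_le hX hM hC (by omega) hnd hx hx1 hx2

theorem quarter_main (hX : IsManifold I c) (hM : M = n + 1 + c) {b : ℤ} (hb : CanonicalIs I c b)
    (hnd : ∀ η : Fin M → ℂ, (∀ y ∈ cone I, ∑ j, η j * y j = 0) → η = 0)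
    (hL : ∀ x ∈ cone I, ∃ y, IsLine I x y) (hc : 2 * c + 1 ≤ n)
    (hi : min (2 * (n : ℤ) + 6 + 4 * c) (3 * n + 5) ≤ -4 * b) :
    ∃ (f : Fin c → SS M) (d : Fin c → ℕ), (∀ i, (f i).IsHomogeneous (d i)) ∧
      I = Ideal.span (Set.range f) := by
  rcases min_le_iff.1 hi with h | h
  · exact lines_main hX hM hb hL (by omega)
  · have h3 := codim_bound hX hM hb hnd hL (by omega) (by omega) (by omega)
    exact lines_main hX hM hb hL (by omega)

end Pool.Agent.HCF
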